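import Mathlib

/-!
# Basic definitions for MP_39e402 (noncollapsed Ricci limit spaces)

* `RMetric n`      : matrix valued function on `ℝⁿ` (components `g_ij` of a Riemannian metric)
* `christoffel`, `ricci` : Christoffel symbols and Ricci tensor in coordinates
* `IsRMetricOn g V` : `g` is a `C^∞` Riemannian metric on the open set `V`
* `RicGE g V κ`     : `Ric ≥ κ g` on `V`
* `plen`, `redist`  : length of a `C¹` path, Riemannian distance of the patch `(V, g)`
* `IsRiemannianRicGE n κ M` : the metric space `M` is a complete (connected) Riemannian `n`-manifold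
  with `Ric ≥ κ`
* `PGHConv`         : pointed Gromov-Hausdorff convergence
* `IsNoncollapsedRicciLimit n X x`
* `IsMetricCone`, `IsTangentCone`, `STop`
* `Conjecture39e402` : the statement of the problem
-/

open Set Filter Topology MeasureTheory
open scoped ENNReal NNReal ContDiff BigOperators

noncomputable section

namespace Pool.Agent.MP39e402

/-- Euclidean `n`-space. -/
abbrev EE (n : ℕ) := EuclideanSpace ℝ (Fin n)

/-- Components of a metric tensor on (a subset of) `ℝⁿ`. -/
abbrev RMetric (n : ℕ) := EE n → Matrix (Fin n) (Fin n) ℝ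

/-- `i`-th partial derivative. -/
def pd {n : ℕ} (i : Fin n) (f : EE n → ℝ) (x : EE n) : ℝ :=
  fderiv ℝ f x (EuclideanSpace.single i 1)

/-- Christoffel symbols `Γ^k_ij` of the metric `g` in coordinates. -/
def christoffel {n : ℕ} (g : RMetric n) (k i j : Fin n) (x : EE n) : ℝ :=
  (1 / 2) * ∑ l, (g x)⁻¹ k l *
    (pd i (fun y => g y j l) x + pd j (fun y => g y i l) x - pd l (fun y => g y i j) x)

/-- Ricci tensor `R_ij = ∂_k Γ^k_ij - ∂_j Γ^k_ik + Γ^k_kl Γ^l_ij - Γ^k_jl Γ^l_ik`. -/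
def ricci {n : ℕ} (g : RMetric n) (i j : Fin n) (x : EE n) : ℝ :=
  ∑ k, (pd k (christoffel g k i j) x - pd j (christoffel g k i k) x
    + ∑ l, (christoffel g k k l x * christoffel g l i j x
      - christoffel g k j l x * christoffel g l i k x))

/-- quadratic form of the metric -/
def gquad {n : ℕ} (g : RMetric n) (x v : EE n) : ℝ := ∑ i, ∑ j, g x i j * v i * v j

/-- quadratic form of the Ricci tensor -/
def ricquad {n : ℕ} (g : RMetric n) (x v : EE n) : ℝ := ∑ i, ∑ j, ricci g i j x * v i * v j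

/-- `g` is a smooth Riemannian metric on the open set `V ⊆ ℝⁿ`. -/
structure IsRMetricOn {n : ℕ} (g : RMetric n) (V : Set (EE n)) : Prop where
  isOpen : IsOpen V
  smooth : ∀ i j, ContDiffOn ℝ ∞ (fun x => g x i j) V
  posDef : ∀ x ∈ V, (g x).PosDef

/-- `Ric ≥ κ g` on `V`. -/
def RicGE {n : ℕ} (g : RMetric n) (V : Set (EE n)) (κ : ℝ) : Prop :=
  ∀ x ∈ V, ∀ v : EE n, κ * gquad g x v ≤ ricquad g x v

/-- The `C¹` paths in `V` from `x` to `y`, parametrised by `[0,1]`. -/
def IsPath {n : ℕ} (V : Set (EE n)) (x y : EE n) (γ : ℝ → EE n) : Prop :=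
  ContDiff ℝ 1 γ ∧ (∀ t ∈ Icc (0 : ℝ) 1, γ t ∈ V) ∧ γ 0 = x ∧ γ 1 = y

/-- Length of the path `γ : [0,1] → ℝⁿ` for the metric `g`. -/
def plen {n : ℕ} (g : RMetric n) (γ : ℝ → EE n) : ℝ :=
  ∫ t in (0 : ℝ)..1, Real.sqrt (gquad g (γ t) (deriv γ t))

/-- Riemannian distance of the patch `(V, g)` (infinite if there is no path). -/
def redist {n : ℕ} (V : Set (EE n)) (g : RMetric n) (x y : EE n) : ℝ≥0∞ :=
  ⨅ (γ : ℝ → EE n) (_ : IsPath V x y γ), ENNReal.ofReal (plen g γ)

/-- The metric space `M` is a complete connected Riemannian `n`-manifold (with its Riemannian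
distance) with `Ric ≥ κ`: it is complete, it is a length space, and every point has a ball which is
isometric, as a metric space with the restricted distance, to a ball of a smooth Riemannian
coordinate patch with `Ric ≥ κ`.  (By the theorem of Myers and Steenrod the coordinate changes are
automatically smooth isometries.) -/
structure IsRiemannianRicGE (n : ℕ) (κ : ℝ) (M : Type) [MetricSpace M] : Prop where
  complete : CompleteSpace M
  length : ∀ x y : M, ∀ ε > 0, ∃ z, dist x z ≤ dist x y / 2 + ε ∧ dist z y ≤ dist x y / 2 + ε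
  charts : ∀ p : M, ∃ (V : Set (EE n)) (g : RMetric n) (Φ : EE n → M) (x₀ : EE n) (r : ℝ),
    0 < r ∧ IsRMetricOn g V ∧ RicGE g V κ ∧ x₀ ∈ V ∧ Φ x₀ = p ∧
    BijOn Φ {x | x ∈ V ∧ redist V g x₀ x < ENNReal.ofReal r} (Metric.ball p r) ∧
    ∀ x ∈ V, redist V g x₀ x < ENNReal.ofReal r →
      ∀ y ∈ V, redist V g x₀ y < ENNReal.ofReal r → edist (Φ x) (Φ y) = redist V g x y

/-- The `k`-dimensional Hausdorff measure of a subset of a metric space. -/
def hausM (k : ℝ) {X : Type} [MetricSpace X] (A : Set X) : ℝ≥0∞ :=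
  letI : MeasurableSpace X := borel X
  haveI : BorelSpace X := ⟨rfl⟩
  Measure.hausdorffMeasure k A

/-- Pointed Gromov-Hausdorff convergence of `(M i, d i, p i)` to `(X, x)`; the distances `d i` are
given as functions, so that rescalings can be used. -/
def PGHConv (M : ℕ → Type) (d : ∀ i, M i → M i → ℝ) (p : ∀ i, M i)
    (X : Type) [MetricSpace X] (x : X) : Prop :=
  ∀ R > 0, ∀ ε > 0, ∃ N, ∀ i ≥ N, ∃ f : X → M i, f x = p i ∧
    (∀ a ∈ Metric.ball x R, ∀ b ∈ Metric.ball x R, |d i (f a) (f b) - dist a b| < ε) ∧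
    (∀ y : M i, d i (p i) y < R - ε → ∃ a ∈ Metric.ball x R, d i (f a) y < ε)

/-- `(X, x)` is an `n`-dimensional noncollapsed Ricci limit space: a (proper) pointed
Gromov-Hausdorff limit of complete Riemannian `n`-manifolds with `Ric ≥ -(n-1)` and
`vol (B_1(p_i)) ≥ v > 0` (volume = `n`-dimensional Hausdorff measure). -/
def IsNoncollapsedRicciLimit (n : ℕ) (X : Type) [MetricSpace X] (x : X) : Prop :=
  ProperSpace X ∧
  ∃ (M : ℕ → Type) (_ : ∀ i, MetricSpace (M i)) (p : ∀ i, M i) (v : ℝ), 0 < v ∧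
    (∀ i, IsRiemannianRicGE n (-((n : ℝ) - 1)) (M i)) ∧
    (∀ i, ENNReal.ofReal v ≤ hausM n (Metric.ball (p i) 1)) ∧
    PGHConv M (fun _ a b => dist a b) p X x

/-- distance on the Euclidean cone `Z × [0, ∞)` over `Z` -/
def coneDist {Z : Type} [MetricSpace Z] (a b : Z × ℝ) : ℝ :=
  Real.sqrt (a.2 ^ 2 + b.2 ^ 2 - 2 * a.2 * b.2 * Real.cos (min (dist a.1 b.1) Real.pi))

/-- `(T, o)` is (isometric to) the metric cone over `Z` with vertex `o`. -/
def IsMetricCone (T : Type) [MetricSpace T] (o : T) (Z : Type) [MetricSpace Z] : Prop :=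
  ∃ c : Z × ℝ → T, (∀ z, c (z, 0) = o) ∧ (∀ q : T, ∃ z t, 0 ≤ t ∧ c (z, t) = q) ∧
    ∀ a b : Z × ℝ, 0 ≤ a.2 → 0 ≤ b.2 → dist (c a) (c b) = coneDist a b

/-- `(T, o)` is a tangent cone of `X` at `x`. -/
def IsTangentCone (X : Type) [MetricSpace X] (x : X) (T : Type) [MetricSpace T] (o : T) : Prop :=
  ∃ r : ℕ → ℝ, (∀ j, 0 < r j) ∧ Tendsto r atTop (𝓝 0) ∧
    PGHConv (fun _ => X) (fun j a b => dist a b / r j) (fun _ => x) T o

/-- The set of points some tangent cone of which has a cross-section which is not homeomorphic to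
the sphere `S^{n-1}`. -/
def STop (n : ℕ) (X : Type) [MetricSpace X] : Set X :=
  {x | ∃ (T : Type) (_ : MetricSpace T) (o : T) (Z : Type) (_ : MetricSpace Z) (_ : CompactSpace Z),
    ProperSpace T ∧ IsTangentCone X x T o ∧ IsMetricCone T o Z ∧
    IsEmpty (Z ≃ₜ Metric.sphere (0 : EE n) 1)}

/-- `A` is `k`-rectifiable: outside a `ℋ^k`-null set it is covered by countably many Lipschitz images
of subsets of `ℝ^k`. -/
def IsRectifiable (k : ℕ) {X : Type} [MetricSpace X] (A : Set X) : Prop :=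
  ∃ (s : ℕ → Set (EE k)) (f : ℕ → EE k → X) (L : ℕ → ℝ≥0), (∀ i, LipschitzOnWith (L i) (f i) (s i)) ∧
    hausM k (A \ ⋃ i, f i '' s i) = 0

/-- `A` has locally finite `ℋ^k` measure (bounded parts have finite measure). -/
def LocFinHausdorff (k : ℕ) {X : Type} [MetricSpace X] (A : Set X) : Prop :=
  ∀ B : Set X, Bornology.IsBounded B →
    hausM k (A ∩ B) < ⊤

/-- The conjecture (Q1): for all `n ≥ 4` and all `n`-dimensional noncollapsed Ricci limit spaces `X`,
the set `STop n X` is `(n-4)`-rectifiable and has locally finite `ℋ^{n-4}` measure. -/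
def Conjecture39e402 : Prop :=
  ∀ n : ℕ, 4 ≤ n → ∀ (X : Type) (_ : MetricSpace X) (x : X), IsNoncollapsedRicciLimit n X x →
    IsRectifiable (n - 4) (STop n X) ∧ LocFinHausdorff (n - 4) (STop n X)

end Pool.Agent.MP39e402
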