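import Pool.Agent.Lib.MP_39e402_gt.VE1

/-! # MP_39e402, module VB: the two charts around the bolt of the cap.
`PhB1 a x = PhE1 z` with `z1² = zb * ze/|ze|`, `z2 = om z1`;  `PhB2 a x = PhE1 z` with `z2² = zb * ze/|ze|`,
`z1 = om z2`. -/

open Real Set Filter Topology MeasureTheory
open scoped ContDiff

noncomputable section

namespace Pool.Agent.MP39e402

/-- domain of the bolt charts: `ρ < r` -/
def DB (a r : ℝ) : Set (EE 4) := {x | rb a x < r}

private theorem vb_coord (i : Fin 4) : ContDiff ℝ ∞ (fun x : EE 4 => x i) :=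
  (EuclideanSpace.proj i : EE 4 →L[ℝ] ℝ).contDiff

private theorem vb_s01_cd : ContDiff ℝ ∞ s01 := by
  unfold s01
  exact ((vb_coord 0).pow 2).add ((vb_coord 1).pow 2)

private theorem vb_s23_cd : ContDiff ℝ ∞ s23 := by
  unfold s23
  exact ((vb_coord 2).pow 2).add ((vb_coord 3).pow 2)

private theorem vb_s01_nonneg (x : EE 4) : 0 ≤ s01 x := by unfold s01; positivity

private theorem vb_s23_nonneg (x : EE 4) : 0 ≤ s23 x := by unfold s23; positivity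

private theorem vb_in_pos {a : ℝ} (ha : 0 < a) (x : EE 4) : 0 < a ^ 4 + s23 x := by
  have := vb_s23_nonneg x
  positivity

private theorem vb_rb_pos {a : ℝ} (ha : 0 < a) (x : EE 4) : 0 < rb a x :=
  Real.sqrt_pos.2 (Real.sqrt_pos.2 (vb_in_pos ha x))

private theorem vb_rb_four {a : ℝ} (ha : 0 < a) (x : EE 4) : rb a x ^ 4 = a ^ 4 + s23 x := by
  have h1 : rb a x ^ 2 = √(a ^ 4 + s23 x) := Real.sq_sqrt (Real.sqrt_nonneg _)
  calc rb a x ^ 4 = (rb a x ^ 2) ^ 2 := by ring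
    _ = a ^ 4 + s23 x := by rw [h1, Real.sq_sqrt (vb_in_pos ha x).le]

private theorem vb_rb_cd {a : ℝ} (ha : 0 < a) : ContDiff ℝ ∞ (rb a) := by
  unfold rb
  refine ContDiff.sqrt (ContDiff.sqrt (contDiff_const.add vb_s23_cd) fun x => ?_) fun x => ?_
  · exact (vb_in_pos ha x).ne'
  · exact (Real.sqrt_pos.2 (vb_in_pos ha x)).ne'

theorem DB_isOpen (a r : ℝ) : IsOpen (DB a r) := by
  refine isOpen_lt ?_ continuous_const
  unfold rb
  exact Real.continuous_sqrt.comp (Real.continuous_sqrt.comp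
    (continuous_const.add vb_s23_cd.continuous))

theorem rb_gt {a : ℝ} (ha : 0 < a) {x : EE 4} (h : x ∉ T23) : a < rb a x := by
  have h1 := not_mem_T23.1 h
  have h2 := vb_rb_four ha x
  have h3 := vb_rb_pos ha x
  refine lt_of_pow_lt_pow_left₀ 4 h3.le ?_
  linarith

private theorem vb_den {a : ℝ} (ha : 0 < a) {x : EE 4} (hx : x ∈ DB a (1 / 2)) :
    0 < 1 - rb a x ^ 2 := by
  have h1 : rb a x < 1 / 2 := hx
  have h2 := vb_rb_pos ha x
  nlinarith

private theorem vb_zb_pos {a : ℝ} (ha : 0 < a) {x : EE 4} (hx : x ∈ DB a (1 / 2)) :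
    0 < zb a x := by
  unfold zb
  have h1 := vb_den ha hx
  have h2 := vb_rb_pos ha x
  have h3 := vb_s01_nonneg x
  positivity

private theorem vb_zb_cd {a : ℝ} (ha : 0 < a) : ContDiffOn ℝ ∞ (zb a) (DB a (1 / 2)) := by
  unfold zb
  refine ContDiffOn.div (ContDiffOn.div ((vb_rb_cd ha).pow 2).contDiffOn
    (contDiff_const.sub ((vb_rb_cd ha).pow 2)).contDiffOn fun x hx => (vb_den ha hx).ne')
    (contDiff_const.add vb_s01_cd).contDiffOn fun x _ => ?_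
  have := vb_s01_nonneg x
  positivity

/-- algebra of `zb` -/
private theorem vb_one_add {a : ℝ} (ha : 0 < a) {x : EE 4} (hx : x ∈ DB a (1 / 2)) :
    1 + s01 x * zb a x = (1 + s01 x - rb a x ^ 2) / ((1 - rb a x ^ 2) * (1 + s01 x)) := by
  unfold zb
  have h1 := vb_den ha hx
  have h3 := vb_s01_nonneg x
  have h4 : 0 < 1 + s01 x := by linarith
  field_simp
  ring

private theorem vb_one_add' {a : ℝ} (ha : 0 < a) {x : EE 4} (hx : x ∈ DB a (1 / 2)) :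
    1 + zb a x = (1 + s01 x - s01 x * rb a x ^ 2) / ((1 - rb a x ^ 2) * (1 + s01 x)) := by
  unfold zb
  have h1 := vb_den ha hx
  have h3 := vb_s01_nonneg x
  have h4 : 0 < 1 + s01 x := by linarith
  field_simp
  ring

private theorem vb_v4 (a b c d : ℝ) : (v4 a b c d) 0 = a ∧ (v4 a b c d) 1 = b ∧
    (v4 a b c d) 2 = c ∧ (v4 a b c d) 3 = d := ⟨rfl, rfl, rfl, rfl⟩

private theorem vb_norm {C A B E D : ℝ} (hC : 0 < C) (h : A ^ 2 + B ^ 2 + (E ^ 2 + D ^ 2) = 1) :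
    ‖C • v4 A B E D‖ = C := by
  rw [norm_smul, Real.norm_of_nonneg hC.le, EuclideanSpace.norm_eq]
  have h1 : ∑ i, ‖(v4 A B E D) i‖ ^ 2 = 1 := by
    rw [Fin.sum_univ_four, (vb_v4 A B E D).1, (vb_v4 A B E D).2.1, (vb_v4 A B E D).2.2.1,
      (vb_v4 A B E D).2.2.2]
    simp only [Real.norm_eq_abs, sq_abs]
    linarith
  rw [h1, Real.sqrt_one, mul_one]

private theorem vb_Ur {C A B E D : ℝ} (hC : 0 < C) :
    Ur (C • v4 A B E D) = C * √(E ^ 2 + D ^ 2) := by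
  unfold Ur
  have h1 : (C • v4 A B E D) 2 = C * E := rfl
  have h2 : (C • v4 A B E D) 3 = C * D := rfl
  rw [h1, h2, show (C * E) ^ 2 + (C * D) ^ 2 = C ^ 2 * (E ^ 2 + D ^ 2) by ring,
    Real.sqrt_mul (sq_nonneg C), Real.sqrt_sq hC.le]

private theorem vb_n3 {C A B E D : ℝ} (hC : 0 < C) (h : A ^ 2 + B ^ 2 + (E ^ 2 + D ^ 2) = 1) :
    n3 (C • v4 A B E D) = √(E ^ 2 + D ^ 2) := by
  unfold n3
  rw [vb_Ur hC, vb_norm hC h, mul_div_cancel_left₀ _ hC.ne']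

private theorem vb_t1 : 0 < t1C := isCoreC.t1_pos

private theorem vb_arcsin_inj {y z : ℝ} (hy : -1 ≤ y) (hy1 : y ≤ 1) (hz : -1 ≤ z) (hz1 : z ≤ 1)
    (h : arcsin y = arcsin z) : y = z := by
  rw [← Real.sin_arcsin hy hy1, ← Real.sin_arcsin hz hz1, h]

/-- the general computation of `rhoP` -/
private theorem vb_rho {s A B E D : ℝ} (h0 : 0 ≤ s) (h1 : s < 1)
    (h : A ^ 2 + B ^ 2 + (E ^ 2 + D ^ 2) = 1) {ρ : ℝ} (hρ : 0 ≤ ρ)
    (he : 1 - (1 - s ^ 2) * (E ^ 2 + D ^ 2) = ρ ^ 2) :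
    rhoP ((t1C + arcsin s) • v4 A B E D) = ρ := by
  have hC : 0 < t1C + arcsin s := by
    have := Real.arcsin_nonneg.2 h0
    have := vb_t1
    linarith
  unfold rhoP tc
  rw [vb_norm hC h, vb_n3 hC h, add_sub_cancel_left, Real.cos_arcsin,
    Real.sq_sqrt (by nlinarith), Real.sq_sqrt (by positivity), he, Real.sqrt_sq hρ]

/-! ### chart 1 -/

private theorem b1_bound {a : ℝ} (ha : 0 < a) {x : EE 4} {r : ℝ} (hx : rb a x < r) :
    0 < rb a x / √(1 + s01 x) ∧ rb a x / √(1 + s01 x) < r := by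
  have h1 := vb_rb_pos ha x
  have h2 := vb_s01_nonneg x
  have h3 : 1 ≤ √(1 + s01 x) := by
    rw [show (1:ℝ) = √1 by simp]
    exact Real.sqrt_le_sqrt (by simpa using h2)
  have h4 : 0 < √(1 + s01 x) := by linarith
  refine ⟨div_pos h1 h4, lt_of_le_of_lt ?_ hx⟩
  exact div_le_self h1.le h3

private theorem b1_unit {a : ℝ} (ha : 0 < a) {x : EE 4} (hx : x ∈ DB a (1 / 2))
    (h : x ∉ T23) :
    (x 2 / (√(s23 x) * √(1 + s01 x * zb a x))) ^ 2
      + (-(x 3) / (√(s23 x) * √(1 + s01 x * zb a x))) ^ 2 = 1 / (1 + s01 x * zb a x) ∧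
    (x 0 * √(zb a x) / √(1 + s01 x * zb a x)) ^ 2
      + (x 1 * √(zb a x) / √(1 + s01 x * zb a x)) ^ 2
      + 1 / (1 + s01 x * zb a x) = 1 := by
  have hz := vb_zb_pos ha hx
  have hs := vb_s01_nonneg x
  have ht := not_mem_T23.1 h
  have h1 : 0 < 1 + s01 x * zb a x := by positivity
  have e1 : √(s23 x) ^ 2 = s23 x := Real.sq_sqrt ht.le
  have e2 : √(1 + s01 x * zb a x) ^ 2 = 1 + s01 x * zb a x := Real.sq_sqrt h1.le
  have e3 : √(zb a x) ^ 2 = zb a x := Real.sq_sqrt hz.le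
  have e4 : x 2 ^ 2 + x 3 ^ 2 = s23 x := rfl
  have e5 : x 0 ^ 2 + x 1 ^ 2 = s01 x := rfl
  constructor
  · rw [div_pow, div_pow, mul_pow, e1, e2, neg_sq, ← add_div, e4]
    field_simp
  · rw [div_pow, div_pow, mul_pow, mul_pow, e2, e3, ← add_div, ← add_mul, e5, ← add_div,
      add_comm (s01 x * zb a x) 1, div_self h1.ne']

private theorem b1_unit' {a : ℝ} (ha : 0 < a) {x : EE 4} (hx : x ∈ DB a (1 / 2))
    (h : x ∉ T23) :
    (x 0 * √(zb a x) / √(1 + s01 x * zb a x)) ^ 2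
      + (x 1 * √(zb a x) / √(1 + s01 x * zb a x)) ^ 2
      + ((x 2 / (√(s23 x) * √(1 + s01 x * zb a x))) ^ 2
      + (-(x 3) / (√(s23 x) * √(1 + s01 x * zb a x))) ^ 2) = 1 := by
  rw [(b1_unit ha hx h).1]
  exact (b1_unit ha hx h).2

private theorem b1_C {a : ℝ} (ha : 0 < a) {x : EE 4} (hx : x ∈ DB a (1 / 2)) :
    t1C < t1C + arcsin (rb a x / √(1 + s01 x)) := by
  have h1 := b1_bound ha (show rb a x < 1 / 2 from hx)
  have := Real.arcsin_pos.2 h1.1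
  linarith

private theorem b1_norm {a : ℝ} (ha : 0 < a) {x : EE 4} (hx : x ∈ DB a (1 / 2))
    (h : x ∉ T23) : ‖PhB1 a x‖ = t1C + arcsin (rb a x / √(1 + s01 x)) := by
  unfold PhB1
  exact vb_norm (vb_t1.trans (b1_C ha hx)) (b1_unit' ha hx h)

theorem PhB1_contDiffOn {a : ℝ} (ha : 0 < a) : ContDiffOn ℝ ∞ (PhB1 a) (DB a (1 / 2) \ T23) := by
  have hS := vb_s01_cd
  have hsub : DB a (1 / 2) \ T23 ⊆ DB a (1 / 2) := sdiff_subset
  have hZ : ContDiffOn ℝ ∞ (zb a) (DB a (1 / 2) \ T23) := (vb_zb_cd ha).mono hsub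
  have hZs : ContDiffOn ℝ ∞ (fun x => √(zb a x)) (DB a (1 / 2) \ T23) :=
    hZ.sqrt fun x hx => (vb_zb_pos ha hx.1).ne'
  have h1 : ∀ x ∈ DB a (1 / 2) \ T23, 0 < 1 + s01 x * zb a x := fun x hx => by
    have := vb_zb_pos ha hx.1
    have := vb_s01_nonneg x
    positivity
  have hN : ContDiffOn ℝ ∞ (fun x => √(1 + s01 x * zb a x)) (DB a (1 / 2) \ T23) :=
    (contDiffOn_const.add (hS.contDiffOn.mul hZ)).sqrt fun x hx => (h1 x hx).ne'
  have hN0 : ∀ x ∈ DB a (1 / 2) \ T23, √(1 + s01 x * zb a x) ≠ 0 := fun x hx =>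
    (Real.sqrt_pos.2 (h1 x hx)).ne'
  have hT : ContDiffOn ℝ ∞ (fun x => √(s23 x)) (DB a (1 / 2) \ T23) :=
    vb_s23_cd.contDiffOn.sqrt fun x hx => (not_mem_T23.1 hx.2).ne'
  have hT0 : ∀ x ∈ DB a (1 / 2) \ T23, √(s23 x) * √(1 + s01 x * zb a x) ≠ 0 := fun x hx =>
    mul_ne_zero (Real.sqrt_pos.2 (not_mem_T23.1 hx.2)).ne' (hN0 x hx)
  have hC : ContDiffOn ℝ ∞ (fun x => t1C + arcsin (rb a x / √(1 + s01 x)))
      (DB a (1 / 2) \ T23) := by
    refine contDiffOn_const.add ?_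
    refine Real.contDiffOn_arcsin.comp (t := {-1, 1}ᶜ)
      ((vb_rb_cd ha).contDiffOn.div
        ((contDiff_const.add hS).contDiffOn.sqrt fun x _ => ?_) fun x _ => ?_) ?_
    · have := vb_s01_nonneg x
      positivity
    · have := vb_s01_nonneg x
      positivity
    · intro x hx
      have h2 := b1_bound ha (show rb a x < 1 / 2 from hx.1)
      simp only [mem_compl_iff, mem_insert_iff, mem_singleton_iff, not_or]
      constructor <;> linarith
  unfold PhB1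
  refine hC.smul ?_
  rw [contDiffOn_piLp]
  intro i
  fin_cases i
  · exact ((vb_coord 0).contDiffOn.mul hZs).div hN hN0
  · exact ((vb_coord 1).contDiffOn.mul hZs).div hN hN0
  · exact (vb_coord 2).contDiffOn.div (hT.mul hN) hT0
  · exact (vb_coord 3).neg.contDiffOn.div (hT.mul hN) hT0

theorem PhB1_rho {a : ℝ} (ha : 0 < a) {x : EE 4} (hx : x ∈ DB a (1 / 2)) (h : x ∉ T23) :
    rhoP (PhB1 a x) = rb a x := by
  unfold PhB1
  have h1 := b1_bound ha (show rb a x < 1 / 2 from hx)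
  refine vb_rho h1.1.le (by linarith) (b1_unit' ha hx h) (vb_rb_pos ha x).le ?_
  have hs := vb_s01_nonneg x
  have h4 : 0 < 1 + s01 x := by linarith
  rw [(b1_unit ha hx h).1, vb_one_add ha hx, div_pow, Real.sq_sqrt h4.le]
  have h2 := vb_den ha hx
  have h3 : 0 < 1 + s01 x - rb a x ^ 2 := by linarith
  field_simp
  ring

private theorem vb_mem {a r s A B E D : ℝ} (hr : r ≤ 1 / 2)
    (hr' : r ≤ sin taC) (h0 : 0 < s) (h1 : s < r)
    (h : A ^ 2 + B ^ 2 + (E ^ 2 + D ^ 2) = 1) (hE : 0 < E ^ 2 + D ^ 2)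
    (hρ : rhoP ((t1C + arcsin s) • v4 A B E D) < r)
    (hρ' : a < rhoP ((t1C + arcsin s) • v4 A B E D)) :
    ((t1C + arcsin s) • v4 A B E D) ∈ PZ ∧ ((t1C + arcsin s) • v4 A B E D) ∈ Uc a := by
  have hpos := Real.arcsin_pos.2 h0
  have hC : 0 < t1C + arcsin s := by
    have := vb_t1
    linarith
  have hta0 := isCoreC.ta_pos
  have hta1 := isCoreC.ta_le
  have hpi := Real.pi_gt_three
  constructor
  · refine ⟨?_, by linarith⟩
    unfold tc
    rw [vb_norm hC h, add_sub_cancel_left]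
    rw [Real.arcsin_lt_iff_lt_sin ⟨by linarith, by linarith⟩ ⟨by linarith, by linarith⟩]
    linarith
  · refine ⟨?_, ?_, ?_⟩
    · rw [vb_norm hC h]
      linarith
    · rw [vb_Ur hC]
      have := Real.sqrt_pos.2 hE
      positivity
    · intro hc
      exact absurd hc.2 (not_le.2 hρ')

theorem PhB1_mem {a r : ℝ} (ha : 0 < a) (hr : r ≤ 1 / 2) (hr' : r ≤ sin taC) {x : EE 4} (hx : x ∈ DB a r)
    (h : x ∉ T23) : PhB1 a x ∈ PZ ∧ PhB1 a x ∈ Uc a := by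
  have hx1 : rb a x < r := hx
  have hx2 : x ∈ DB a (1 / 2) := by
    show rb a x < 1 / 2
    linarith
  have h1 := b1_bound ha hx1
  have hρ := PhB1_rho ha hx2 h
  have hgt := rb_gt ha h
  unfold PhB1 at hρ ⊢
  refine vb_mem hr hr' h1.1 h1.2 (b1_unit' ha hx2 h) ?_ (by rw [hρ]; exact hx1)
    (by rw [hρ]; exact hgt)
  rw [(b1_unit ha hx2 h).1]
  have := vb_zb_pos ha hx2
  have := vb_s01_nonneg x
  positivity

private theorem vb_smul_inj {C C' : ℝ} {u u' : EE 4} (hC : 0 < C) (h : C • u = C' • u')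
    (hCC : C = C') : u = u' := by
  subst hCC
  exact smul_right_injective _ hC.ne' h

theorem PhB1_inj {a : ℝ} (ha : 0 < a) : InjOn (PhB1 a) (DB a (1 / 2) \ T23) := by
  intro x hx y hy hxy
  have hxρ := PhB1_rho ha hx.1 hx.2
  have hyρ := PhB1_rho ha hy.1 hy.2
  have hρ : rb a x = rb a y := by rw [← hxρ, ← hyρ, hxy]
  have hxn := b1_norm ha hx.1 hx.2
  have hyn := b1_norm ha hy.1 hy.2
  have hbx := b1_bound ha (show rb a x < 1 / 2 from hx.1)
  have hby := b1_bound ha (show rb a y < 1 / 2 from hy.1)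
  have hC : t1C + arcsin (rb a x / √(1 + s01 x)) = t1C + arcsin (rb a y / √(1 + s01 y)) := by
    rw [← hxn, ← hyn, hxy]
  have hs : rb a x / √(1 + s01 x) = rb a y / √(1 + s01 y) :=
    vb_arcsin_inj (by linarith) (by linarith) (by linarith) (by linarith) (by linarith)
  have hsx := vb_s01_nonneg x
  have hsy := vb_s01_nonneg y
  have hS : s01 x = s01 y := by
    have h1 : 0 < √(1 + s01 x) := Real.sqrt_pos.2 (by linarith)
    have h2 : 0 < √(1 + s01 y) := Real.sqrt_pos.2 (by linarith)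
    have h3 := vb_rb_pos ha y
    rw [hρ, div_eq_div_iff h1.ne' h2.ne'] at hs
    have h4 : √(1 + s01 y) = √(1 + s01 x) := mul_left_cancel₀ h3.ne' hs
    have h5 := (Real.sqrt_inj (by linarith) (by linarith)).1 h4
    linarith
  have hT : s23 x = s23 y := by
    have h1 := vb_rb_four ha x
    have h2 := vb_rb_four ha y
    rw [hρ] at h1
    linarith
  have hZ : zb a x = zb a y := by
    unfold zb
    rw [hρ, hS]
  have hu := vb_smul_inj (vb_t1.trans (b1_C ha hx.1)) hxy hC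
  rw [hS, hT, hZ] at hu
  have hz := vb_zb_pos ha hy.1
  have ht := not_mem_T23.1 hy.2
  have h1 : 0 < 1 + s01 y * zb a y := by positivity
  have q1 : 0 < √(zb a y) := Real.sqrt_pos.2 hz
  have q2 : 0 < √(1 + s01 y * zb a y) := Real.sqrt_pos.2 h1
  have q3 : 0 < √(s23 y) := Real.sqrt_pos.2 ht
  have u0 : x 0 * √(zb a y) / √(1 + s01 y * zb a y) = y 0 * √(zb a y) / √(1 + s01 y * zb a y) :=
    congrArg (fun u : EE 4 => u 0) hu
  have u1 : x 1 * √(zb a y) / √(1 + s01 y * zb a y) = y 1 * √(zb a y) / √(1 + s01 y * zb a y) :=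
    congrArg (fun u : EE 4 => u 1) hu
  have u2 : x 2 / (√(s23 y) * √(1 + s01 y * zb a y))
      = y 2 / (√(s23 y) * √(1 + s01 y * zb a y)) := congrArg (fun u : EE 4 => u 2) hu
  have u3 : -(x 3) / (√(s23 y) * √(1 + s01 y * zb a y))
      = -(y 3) / (√(s23 y) * √(1 + s01 y * zb a y)) := congrArg (fun u : EE 4 => u 3) hu
  have v0 : x 0 = y 0 := mul_right_cancel₀ q1.ne' ((div_left_inj' q2.ne').1 u0)
  have v1 : x 1 = y 1 := mul_right_cancel₀ q1.ne' ((div_left_inj' q2.ne').1 u1)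
  have v2 : x 2 = y 2 := (div_left_inj' (mul_pos q3 q2).ne').1 u2
  have v3 : x 3 = y 3 := neg_injective ((div_left_inj' (mul_pos q3 q2).ne').1 u3)
  ext i
  fin_cases i
  · exact v0
  · exact v1
  · exact v2
  · exact v3

/-! ### chart 2 -/

private theorem not_mem_union {x : EE 4} (h : x ∉ T01 ∪ T23) : 0 < s01 x ∧ 0 < s23 x := by
  rw [mem_union, not_or] at h
  exact ⟨not_mem_T01.1 h.1, not_mem_T23.1 h.2⟩

private theorem b2_bound {a : ℝ} (ha : 0 < a) {x : EE 4} {r : ℝ} (hx : rb a x < r)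
    (h : 0 < s01 x) :
    0 < √(s01 x) * rb a x / √(1 + s01 x) ∧ √(s01 x) * rb a x / √(1 + s01 x) < r := by
  have h1 := vb_rb_pos ha x
  have h2 : 0 < √(s01 x) := Real.sqrt_pos.2 h
  have h3 : √(s01 x) ≤ √(1 + s01 x) := Real.sqrt_le_sqrt (by linarith)
  have h4 : 0 < √(1 + s01 x) := by linarith
  refine ⟨by positivity, lt_of_le_of_lt ?_ hx⟩
  rw [div_le_iff₀ h4]
  nlinarith

private theorem b2_unit {a : ℝ} (ha : 0 < a) {x : EE 4} (hx : x ∈ DB a (1 / 2))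
    (h : x ∉ T01 ∪ T23) :
    ((x 2 * (x 0 ^ 2 - x 1 ^ 2) - 2 * x 3 * x 0 * x 1) / (s01 x * √(s23 x) * √(1 + zb a x))) ^ 2
      + (-(x 3 * (x 0 ^ 2 - x 1 ^ 2) + 2 * x 2 * x 0 * x 1)
        / (s01 x * √(s23 x) * √(1 + zb a x))) ^ 2 = 1 / (1 + zb a x) ∧
    (x 0 / √(s01 x) * √(zb a x) / √(1 + zb a x)) ^ 2
      + (-(x 1) / √(s01 x) * √(zb a x) / √(1 + zb a x)) ^ 2
      + 1 / (1 + zb a x) = 1 := by
  have hz := vb_zb_pos ha hx
  obtain ⟨hs, ht⟩ := not_mem_union h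
  have h1 : 0 < 1 + zb a x := by positivity
  have e1 : √(s23 x) ^ 2 = s23 x := Real.sq_sqrt ht.le
  have e2 : √(1 + zb a x) ^ 2 = 1 + zb a x := Real.sq_sqrt h1.le
  have e3 : √(zb a x) ^ 2 = zb a x := Real.sq_sqrt hz.le
  have e6 : √(s01 x) ^ 2 = s01 x := Real.sq_sqrt hs.le
  have e4 : x 2 ^ 2 + x 3 ^ 2 = s23 x := rfl
  have e5 : x 0 ^ 2 + x 1 ^ 2 = s01 x := rfl
  constructor
  · rw [div_pow, div_pow, mul_pow, mul_pow, e1, e2, neg_sq, ← add_div]
    have e7 : (x 2 * (x 0 ^ 2 - x 1 ^ 2) - 2 * x 3 * x 0 * x 1) ^ 2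
        + (x 3 * (x 0 ^ 2 - x 1 ^ 2) + 2 * x 2 * x 0 * x 1) ^ 2 = s23 x * s01 x ^ 2 := by
      rw [← e4, ← e5]
      ring
    rw [e7]
    field_simp
  · rw [div_pow, div_pow, mul_pow, mul_pow, div_pow, div_pow, e2, e3, e6, neg_sq, ← add_div,
      ← add_mul, ← add_div, show x 0 ^ 2 / s01 x + x 1 ^ 2 / s01 x = 1 by
        rw [← add_div, e5, div_self hs.ne'], one_mul, add_comm (zb a x) 1, div_self h1.ne']

private theorem b2_unit' {a : ℝ} (ha : 0 < a) {x : EE 4} (hx : x ∈ DB a (1 / 2))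
    (h : x ∉ T01 ∪ T23) :
    (x 0 / √(s01 x) * √(zb a x) / √(1 + zb a x)) ^ 2
      + (-(x 1) / √(s01 x) * √(zb a x) / √(1 + zb a x)) ^ 2
      + (((x 2 * (x 0 ^ 2 - x 1 ^ 2) - 2 * x 3 * x 0 * x 1)
        / (s01 x * √(s23 x) * √(1 + zb a x))) ^ 2
      + (-(x 3 * (x 0 ^ 2 - x 1 ^ 2) + 2 * x 2 * x 0 * x 1)
        / (s01 x * √(s23 x) * √(1 + zb a x))) ^ 2) = 1 := by
  rw [(b2_unit ha hx h).1]
  exact (b2_unit ha hx h).2

private theorem b2_C {a : ℝ} (ha : 0 < a) {x : EE 4} (hx : x ∈ DB a (1 / 2)) (h : 0 < s01 x) :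
    t1C < t1C + arcsin (√(s01 x) * rb a x / √(1 + s01 x)) := by
  have h1 := b2_bound ha (show rb a x < 1 / 2 from hx) h
  have := Real.arcsin_pos.2 h1.1
  linarith

/-- the norms tend to `t1` when `om → 0` in chart 2 -/
theorem PhB2_norm {a : ℝ} (ha : 0 < a) {x : EE 4} (hx : x ∈ DB a (1 / 2)) (h : x ∉ T01 ∪ T23) :
    ‖PhB2 a x‖ = t1C + arcsin (√(s01 x) * rb a x / √(1 + s01 x)) := by
  unfold PhB2
  exact vb_norm (vb_t1.trans (b2_C ha hx (not_mem_union h).1)) (b2_unit' ha hx h)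

theorem PhB2_contDiffOn {a : ℝ} (ha : 0 < a) :
    ContDiffOn ℝ ∞ (PhB2 a) (DB a (1 / 2) \ (T01 ∪ T23)) := by
  have hS := vb_s01_cd
  have hsub : DB a (1 / 2) \ (T01 ∪ T23) ⊆ DB a (1 / 2) := sdiff_subset
  have hZ : ContDiffOn ℝ ∞ (zb a) (DB a (1 / 2) \ (T01 ∪ T23)) := (vb_zb_cd ha).mono hsub
  have hZs : ContDiffOn ℝ ∞ (fun x => √(zb a x)) (DB a (1 / 2) \ (T01 ∪ T23)) :=
    hZ.sqrt fun x hx => (vb_zb_pos ha hx.1).ne'
  have h1 : ∀ x ∈ DB a (1 / 2) \ (T01 ∪ T23), 0 < 1 + zb a x := fun x hx => by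
    have := vb_zb_pos ha hx.1
    positivity
  have hN : ContDiffOn ℝ ∞ (fun x => √(1 + zb a x)) (DB a (1 / 2) \ (T01 ∪ T23)) :=
    (contDiffOn_const.add hZ).sqrt fun x hx => (h1 x hx).ne'
  have hN0 : ∀ x ∈ DB a (1 / 2) \ (T01 ∪ T23), √(1 + zb a x) ≠ 0 := fun x hx =>
    (Real.sqrt_pos.2 (h1 x hx)).ne'
  have hA : ContDiffOn ℝ ∞ (fun x => √(s01 x)) (DB a (1 / 2) \ (T01 ∪ T23)) :=
    hS.contDiffOn.sqrt fun x hx => (not_mem_union hx.2).1.ne'
  have hA0 : ∀ x ∈ DB a (1 / 2) \ (T01 ∪ T23), √(s01 x) ≠ 0 := fun x hx =>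
    (Real.sqrt_pos.2 (not_mem_union hx.2).1).ne'
  have hT : ContDiffOn ℝ ∞ (fun x => √(s23 x)) (DB a (1 / 2) \ (T01 ∪ T23)) :=
    vb_s23_cd.contDiffOn.sqrt fun x hx => (not_mem_union hx.2).2.ne'
  have hT0 : ∀ x ∈ DB a (1 / 2) \ (T01 ∪ T23), s01 x * √(s23 x) * √(1 + zb a x) ≠ 0 :=
    fun x hx => mul_ne_zero (mul_ne_zero (not_mem_union hx.2).1.ne'
      (Real.sqrt_pos.2 (not_mem_union hx.2).2).ne') (hN0 x hx)
  have hC : ContDiffOn ℝ ∞ (fun x => t1C + arcsin (√(s01 x) * rb a x / √(1 + s01 x)))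
      (DB a (1 / 2) \ (T01 ∪ T23)) := by
    refine contDiffOn_const.add ?_
    refine Real.contDiffOn_arcsin.comp (t := {-1, 1}ᶜ)
      ((hA.mul (vb_rb_cd ha).contDiffOn).div
        ((contDiff_const.add hS).contDiffOn.sqrt fun x _ => ?_) fun x _ => ?_) ?_
    · have := vb_s01_nonneg x
      positivity
    · have := vb_s01_nonneg x
      positivity
    · intro x hx
      have h2 := b2_bound ha (show rb a x < 1 / 2 from hx.1) (not_mem_union hx.2).1
      simp only [mem_compl_iff, mem_insert_iff, mem_singleton_iff, not_or]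
      constructor <;> linarith
  have hp : ContDiff ℝ ∞ (fun x : EE 4 => x 0 ^ 2 - x 1 ^ 2) :=
    ((vb_coord 0).pow 2).sub ((vb_coord 1).pow 2)
  unfold PhB2
  refine hC.smul ?_
  rw [contDiffOn_piLp]
  intro i
  fin_cases i
  · exact (((vb_coord 0).contDiffOn.div hA hA0).mul hZs).div hN hN0
  · exact (((vb_coord 1).neg.contDiffOn.div hA hA0).mul hZs).div hN hN0
  · exact (((vb_coord 2).mul hp).sub (((contDiff_const.mul (vb_coord 3)).mul (vb_coord 0)).mul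
      (vb_coord 1))).contDiffOn.div ((hS.contDiffOn.mul hT).mul hN) hT0
  · exact (((vb_coord 3).mul hp).add (((contDiff_const.mul (vb_coord 2)).mul (vb_coord 0)).mul
      (vb_coord 1))).neg.contDiffOn.div ((hS.contDiffOn.mul hT).mul hN) hT0

theorem PhB2_rho {a : ℝ} (ha : 0 < a) {x : EE 4} (hx : x ∈ DB a (1 / 2)) (h : x ∉ T01 ∪ T23) :
    rhoP (PhB2 a x) = rb a x := by
  unfold PhB2
  have hs := (not_mem_union h).1
  have h1 := b2_bound ha (show rb a x < 1 / 2 from hx) hs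
  refine vb_rho h1.1.le (by linarith) (b2_unit' ha hx h) (vb_rb_pos ha x).le ?_
  have h4 : 0 < 1 + s01 x := by linarith
  rw [(b2_unit ha hx h).1, vb_one_add' ha hx, div_pow, mul_pow, Real.sq_sqrt h4.le,
    Real.sq_sqrt hs.le]
  have h2 := vb_den ha hx
  have h3 : 0 < 1 + s01 x - s01 x * rb a x ^ 2 := by nlinarith
  field_simp
  ring

theorem PhB2_mem {a r : ℝ} (ha : 0 < a) (hr : r ≤ 1 / 2) (hr' : r ≤ sin taC) {x : EE 4} (hx : x ∈ DB a r)
    (h : x ∉ T01 ∪ T23) : PhB2 a x ∈ PZ ∧ PhB2 a x ∈ Uc a := by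
  have hx1 : rb a x < r := hx
  have hx2 : x ∈ DB a (1 / 2) := by
    show rb a x < 1 / 2
    linarith
  have h1 := b2_bound ha hx1 (not_mem_union h).1
  have hρ := PhB2_rho ha hx2 h
  have hgt := rb_gt ha (fun hc => h (Or.inr hc))
  unfold PhB2 at hρ ⊢
  refine vb_mem hr hr' h1.1 h1.2 (b2_unit' ha hx2 h) ?_ (by rw [hρ]; exact hx1)
    (by rw [hρ]; exact hgt)
  rw [(b2_unit ha hx2 h).1]
  have := vb_zb_pos ha hx2
  positivity

theorem PhB2_inj {a : ℝ} (ha : 0 < a) : InjOn (PhB2 a) (DB a (1 / 2) \ (T01 ∪ T23)) := by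
  intro x hx y hy hxy
  have hxρ := PhB2_rho ha hx.1 hx.2
  have hyρ := PhB2_rho ha hy.1 hy.2
  have hρ : rb a x = rb a y := by rw [← hxρ, ← hyρ, hxy]
  have hxn := PhB2_norm ha hx.1 hx.2
  have hyn := PhB2_norm ha hy.1 hy.2
  obtain ⟨hsx, htx⟩ := not_mem_union hx.2
  obtain ⟨hsy, hty⟩ := not_mem_union hy.2
  have hbx := b2_bound ha (show rb a x < 1 / 2 from hx.1) hsx
  have hby := b2_bound ha (show rb a y < 1 / 2 from hy.1) hsy
  have hC : t1C + arcsin (√(s01 x) * rb a x / √(1 + s01 x))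
      = t1C + arcsin (√(s01 y) * rb a y / √(1 + s01 y)) := by
    rw [← hxn, ← hyn, hxy]
  have hs : √(s01 x) * rb a x / √(1 + s01 x) = √(s01 y) * rb a y / √(1 + s01 y) :=
    vb_arcsin_inj (by linarith) (by linarith) (by linarith) (by linarith) (by linarith)
  have hS : s01 x = s01 y := by
    have h3 := vb_rb_pos ha y
    have h5 : (√(s01 x) * rb a x / √(1 + s01 x)) ^ 2 = (√(s01 y) * rb a y / √(1 + s01 y)) ^ 2 := by
      rw [hs]
    rw [div_pow, div_pow, mul_pow, mul_pow, Real.sq_sqrt hsx.le, Real.sq_sqrt hsy.le,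
      Real.sq_sqrt (by linarith), Real.sq_sqrt (by linarith), hρ,
      div_eq_div_iff (by positivity) (by positivity)] at h5
    have h6 : rb a y ^ 2 * s01 x = rb a y ^ 2 * s01 y := by linear_combination h5
    exact mul_left_cancel₀ (by positivity) h6
  have hT : s23 x = s23 y := by
    have h1 := vb_rb_four ha x
    have h2 := vb_rb_four ha y
    rw [hρ] at h1
    linarith
  have hZ : zb a x = zb a y := by
    unfold zb
    rw [hρ, hS]
  have hu := vb_smul_inj (vb_t1.trans (b2_C ha hx.1 hsx)) hxy hC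
  rw [hS, hT, hZ] at hu
  have hz := vb_zb_pos ha hy.1
  have h1 : 0 < 1 + zb a y := by positivity
  have q1 : 0 < √(zb a y) := Real.sqrt_pos.2 hz
  have q2 : 0 < √(1 + zb a y) := Real.sqrt_pos.2 h1
  have q3 : 0 < √(s23 y) := Real.sqrt_pos.2 hty
  have q4 : 0 < √(s01 y) := Real.sqrt_pos.2 hsy
  have u0 : x 0 / √(s01 y) * √(zb a y) / √(1 + zb a y)
      = y 0 / √(s01 y) * √(zb a y) / √(1 + zb a y) := congrArg (fun u : EE 4 => u 0) hu
  have u1 : -(x 1) / √(s01 y) * √(zb a y) / √(1 + zb a y)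
      = -(y 1) / √(s01 y) * √(zb a y) / √(1 + zb a y) := congrArg (fun u : EE 4 => u 1) hu
  have u2 : (x 2 * (x 0 ^ 2 - x 1 ^ 2) - 2 * x 3 * x 0 * x 1) / (s01 y * √(s23 y) * √(1 + zb a y))
      = (y 2 * (y 0 ^ 2 - y 1 ^ 2) - 2 * y 3 * y 0 * y 1) / (s01 y * √(s23 y) * √(1 + zb a y)) :=
    congrArg (fun u : EE 4 => u 2) hu
  have u3 : -(x 3 * (x 0 ^ 2 - x 1 ^ 2) + 2 * x 2 * x 0 * x 1) / (s01 y * √(s23 y) * √(1 + zb a y))
      = -(y 3 * (y 0 ^ 2 - y 1 ^ 2) + 2 * y 2 * y 0 * y 1) / (s01 y * √(s23 y) * √(1 + zb a y)) :=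
    congrArg (fun u : EE 4 => u 3) hu
  have v0 : x 0 = y 0 := (div_left_inj' q4.ne').1
    (mul_right_cancel₀ q1.ne' ((div_left_inj' q2.ne').1 u0))
  have v1 : x 1 = y 1 := neg_injective ((div_left_inj' q4.ne').1
    (mul_right_cancel₀ q1.ne' ((div_left_inj' q2.ne').1 u1)))
  have q5 : s01 y * √(s23 y) * √(1 + zb a y) ≠ 0 := by positivity
  have w2 := (div_left_inj' q5).1 u2
  have w3 := neg_injective ((div_left_inj' q5).1 u3)
  rw [v0, v1] at w2 w3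
  have e5 : y 0 ^ 2 + y 1 ^ 2 = s01 y := rfl
  have v2 : x 2 = y 2 := by
    have h6 : s01 y ^ 2 * x 2 = s01 y ^ 2 * y 2 := by
      rw [← e5]
      linear_combination (y 0 ^ 2 - y 1 ^ 2) * w2 + (2 * y 0 * y 1) * w3
    exact mul_left_cancel₀ (by positivity) h6
  have v3 : x 3 = y 3 := by
    have h6 : s01 y ^ 2 * x 3 = s01 y ^ 2 * y 3 := by
      rw [← e5]
      linear_combination (y 0 ^ 2 - y 1 ^ 2) * w3 - (2 * y 0 * y 1) * w2
    exact mul_left_cancel₀ (by positivity) h6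
  ext i
  fin_cases i
  · exact v0
  · exact v1
  · exact v2
  · exact v3

end Pool.Agent.MP39e402
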