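import Pool.Agent.Lib.MP_39e402_gt.VDefs

/-! # MP_39e402, module VQ: the explicit chart metrics are smooth Riemannian metrics -/

open Real Set Filter Topology MeasureTheory
open scoped ContDiff

noncomputable section

namespace Pool.Agent.MP39e402

/-! ### quadratic forms -/

private def IsLn (l : EE 4 → ℝ) : Prop := ∃ c : Fin 4 → ℝ, ∀ v : EE 4, l v = ∑ i, c i * v i

private theorem isLn_apply (k : Fin 4) : IsLn (fun v => v k) :=
  ⟨Pi.single k 1, fun v => by simp [Pi.single_apply]⟩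

private theorem IsLn.const_mul {l : EE 4 → ℝ} (h : IsLn l) (c : ℝ) : IsLn (fun v => c * l v) := by
  obtain ⟨a, ha⟩ := h
  refine ⟨fun i => c * a i, fun v => ?_⟩
  beta_reduce
  rw [ha, Finset.mul_sum]
  exact Finset.sum_congr rfl fun i _ => (mul_assoc _ _ _).symm

private theorem IsLn.add {l m : EE 4 → ℝ} (h : IsLn l) (h' : IsLn m) :
    IsLn (fun v => l v + m v) := by
  obtain ⟨a, ha⟩ := h
  obtain ⟨b, hb⟩ := h'
  refine ⟨fun i => a i + b i, fun v => ?_⟩
  beta_reduce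
  rw [ha, hb, ← Finset.sum_add_distrib]
  exact Finset.sum_congr rfl fun i _ => (add_mul _ _ _).symm

private theorem IsLn.sub {l m : EE 4 → ℝ} (h : IsLn l) (h' : IsLn m) :
    IsLn (fun v => l v - m v) := by
  obtain ⟨a, ha⟩ := h
  obtain ⟨b, hb⟩ := h'
  refine ⟨fun i => a i - b i, fun v => ?_⟩
  beta_reduce
  rw [ha, hb, ← Finset.sum_sub_distrib]
  exact Finset.sum_congr rfl fun i _ => (sub_mul _ _ _).symm

private theorem IsLn.div_const {l : EE 4 → ℝ} (h : IsLn l) (c : ℝ) : IsLn (fun v => l v / c) := by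
  have h1 := h.const_mul c⁻¹
  obtain ⟨a, ha⟩ := h1
  refine ⟨a, fun v => ?_⟩
  rw [← ha]
  exact div_eq_inv_mul _ _

private theorem IsLn.isQF_mul {l m : EE 4 → ℝ} (h : IsLn l) (h' : IsLn m) :
    IsQF (fun v => l v * m v) := by
  obtain ⟨a, ha⟩ := h
  obtain ⟨b, hb⟩ := h'
  refine ⟨Matrix.of fun i j => (a i * b j + a j * b i) / 2, fun i j => ?_, fun v => ?_⟩
  · simp only [Matrix.of_apply]
    ring
  · simp only [Matrix.of_apply, ha, hb, Fin.sum_univ_four]
    ring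

private theorem IsLn.isQF_sq {l : EE 4 → ℝ} (h : IsLn l) : IsQF (fun v => (l v) ^ 2) := by
  obtain ⟨A, hA, h1⟩ := h.isQF_mul h
  exact ⟨A, hA, fun v => by rw [← h1]; exact pow_two _⟩

private theorem isQF_const_mul {q : EE 4 → ℝ} (h : IsQF q) (c : ℝ) : IsQF (fun v => c * q v) := by
  obtain ⟨A, hA, h1⟩ := h
  refine ⟨Matrix.of fun i j => c * A i j, fun i j => by simp only [Matrix.of_apply, hA i j],
    fun v => ?_⟩
  simp only [h1 v, Matrix.of_apply, Finset.mul_sum]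
  exact Finset.sum_congr rfl fun i _ => Finset.sum_congr rfl fun j _ => by ring

private theorem isQF_mul_const {q : EE 4 → ℝ} (h : IsQF q) (c : ℝ) : IsQF (fun v => q v * c) := by
  obtain ⟨A, hA, h1⟩ := isQF_const_mul h c
  exact ⟨A, hA, fun v => by rw [← h1]; exact mul_comm _ _⟩

private theorem isQF_div_const {q : EE 4 → ℝ} (h : IsQF q) (c : ℝ) : IsQF (fun v => q v / c) := by
  obtain ⟨A, hA, h1⟩ := isQF_const_mul h c⁻¹
  exact ⟨A, hA, fun v => by rw [← h1]; exact div_eq_inv_mul _ _⟩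

private theorem isQF_add {q q' : EE 4 → ℝ} (h : IsQF q) (h' : IsQF q') :
    IsQF (fun v => q v + q' v) := by
  obtain ⟨A, hA, h1⟩ := h
  obtain ⟨B, hB, h2⟩ := h'
  refine ⟨Matrix.of fun i j => A i j + B i j, fun i j => by
    simp only [Matrix.of_apply, hA i j, hB i j], fun v => ?_⟩
  simp only [h1 v, h2 v, Matrix.of_apply, ← Finset.sum_add_distrib]
  exact Finset.sum_congr rfl fun i _ => Finset.sum_congr rfl fun j _ => by ring

private theorem isQF_sub {q q' : EE 4 → ℝ} (h : IsQF q) (h' : IsQF q') :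
    IsQF (fun v => q v - q' v) := by
  obtain ⟨A, hA, h1⟩ := h
  obtain ⟨B, hB, h2⟩ := h'
  refine ⟨Matrix.of fun i j => A i j - B i j, fun i j => by
    simp only [Matrix.of_apply, hA i j, hB i j], fun v => ?_⟩
  simp only [h1 v, h2 v, Matrix.of_apply, ← Finset.sum_sub_distrib]
  exact Finset.sum_congr rfl fun i _ => Finset.sum_congr rfl fun j _ => by ring

private theorem nsq4 (x : EE 4) : ‖x‖ ^ 2 = x 0 ^ 2 + x 1 ^ 2 + x 2 ^ 2 + x 3 ^ 2 := by
  rw [EuclideanSpace.norm_sq_eq, Fin.sum_univ_four]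
  simp only [Real.norm_eq_abs, sq_abs]

private theorem isQF_nsq : IsQF (fun v : EE 4 => ‖v‖ ^ 2) := by
  obtain ⟨A, hA, h1⟩ := isQF_add (isQF_add (isQF_add (isLn_apply 0).isQF_sq (isLn_apply 1).isQF_sq)
    (isLn_apply 2).isQF_sq) (isLn_apply 3).isQF_sq
  exact ⟨A, hA, fun v => by rw [← h1]; exact nsq4 v⟩

private theorem polMet_of_isQF {q : EE 4 → EE 4 → ℝ} {p : EE 4} {A : Matrix (Fin 4) (Fin 4) ℝ}
    (hA : ∀ i j, A i j = A j i) (h : ∀ v : EE 4, q p v = ∑ i, ∑ j, A i j * v i * v j)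
    (i j : Fin 4) : polMet q p i j = A i j := by
  have hs : ∀ i : Fin 4, ∀ k : Fin 4, (e4 i : EE 4) k = if k = i then 1 else 0 := by
    intro i k
    simp [e4]
  have h1 : ∀ i : Fin 4, q p (e4 i) = A i i := by
    intro i
    rw [h]
    simp [hs]
  have h2 : q p (e4 i + e4 j) = A i i + A i j + A j i + A j j := by
    rw [h]
    simp only [PiLp.add_apply, hs, mul_add, add_mul, Finset.sum_add_distrib]
    simp
    ring
  rw [polMet, Matrix.of_apply, h1, h1, h2, hA j i]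
  ring

private theorem gquad_polMet {q : EE 4 → EE 4 → ℝ} {p : EE 4} (h : IsQF (q p)) (v : EE 4) :
    gquad (polMet q) p v = q p v := by
  obtain ⟨A, hA, h1⟩ := h
  rw [h1 v, gquad]
  exact Finset.sum_congr rfl fun i _ => Finset.sum_congr rfl fun j _ => by
    rw [polMet_of_isQF hA h1]

private theorem met_polMet {q : EE 4 → EE 4 → ℝ} {V : Set (EE 4)} (hV : IsOpen V)
    (hq : ∀ p, IsQF (q p)) (hs : ∀ v, ContDiffOn ℝ ∞ (fun p => q p v) V)
    (hp : ∀ p ∈ V, ∀ v : EE 4, v ≠ 0 → 0 < q p v) : IsRMetricOn (polMet q) V := by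
  refine ⟨hV, fun i j => ?_, fun x hx => ?_⟩
  · exact (((hs _).sub (hs _)).sub (hs _)).div_const 2
  · rw [Matrix.posDef_iff_dotProduct_mulVec]
    refine ⟨?_, ?_⟩
    · ext i j
      rw [Matrix.conjTranspose_apply, star_trivial, polMet, Matrix.of_apply, Matrix.of_apply,
        add_comm (e4 j)]
      ring
    · intro v hv
      have hv' : (WithLp.toLp 2 v : EE 4) ≠ 0 := by
        intro h
        apply hv
        funext i
        exact congrArg (fun w : EE 4 => w i) h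
      have h1 := hp x hx _ hv'
      rw [← gquad_polMet (hq x)] at h1
      have h2 : star v ⬝ᵥ Matrix.mulVec (polMet q x) v = gquad (polMet q) x (WithLp.toLp 2 v) := by
        unfold gquad dotProduct Matrix.mulVec dotProduct
        refine Finset.sum_congr rfl fun i _ => ?_
        rw [Finset.mul_sum]
        refine Finset.sum_congr rfl fun j _ => ?_
        simp only [Pi.star_apply, star_trivial]
        ring
      rw [h2]
      exact h1

/-! ### forms -/

private theorem isLn_zRe (z : EE 4) : IsLn (zRe z) := by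
  have h := (((isLn_apply 0).const_mul (z 0)).add ((isLn_apply 1).const_mul (z 1))).add
    ((isLn_apply 2).const_mul (z 2)) |>.add ((isLn_apply 3).const_mul (z 3))
  exact h

private theorem isLn_zIm (z : EE 4) : IsLn (zIm z) := by
  have h := (((isLn_apply 1).const_mul (z 0)).sub ((isLn_apply 0).const_mul (z 1))).add
    (((isLn_apply 3).const_mul (z 2)).sub ((isLn_apply 2).const_mul (z 3)))
  exact h

private theorem cs_z (z v : EE 4) : zRe z v ^ 2 + zIm z v ^ 2 ≤ ‖z‖ ^ 2 * ‖v‖ ^ 2 := by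
  rw [nsq4, nsq4, zRe, zIm]
  nlinarith only [sq_nonneg (z 0 * v 2 - z 2 * v 0 + (z 1 * v 3 - z 3 * v 1)),
    sq_nonneg (z 0 * v 3 - z 3 * v 0 - (z 1 * v 2 - z 2 * v 1)),
    sq_nonneg (z 0 * v 2 - z 2 * v 0 - (z 1 * v 3 - z 3 * v 1)),
    sq_nonneg (z 0 * v 3 - z 3 * v 0 + (z 1 * v 2 - z 2 * v 1))]

private theorem cd_coord (i : Fin 4) : ContDiff ℝ ∞ (fun x : EE 4 => x i) :=
  (EuclideanSpace.proj i : EE 4 →L[ℝ] ℝ).contDiff

private theorem cd_zRe (v : EE 4) : ContDiff ℝ ∞ (fun z : EE 4 => zRe z v) := by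
  unfold zRe
  exact ((((cd_coord 0).mul contDiff_const).add ((cd_coord 1).mul contDiff_const)).add
    ((cd_coord 2).mul contDiff_const)).add ((cd_coord 3).mul contDiff_const)

private theorem cd_zIm (v : EE 4) : ContDiff ℝ ∞ (fun z : EE 4 => zIm z v) := by
  unfold zIm
  exact (((cd_coord 0).mul contDiff_const).sub ((cd_coord 1).mul contDiff_const)).add
    (((cd_coord 2).mul contDiff_const).sub ((cd_coord 3).mul contDiff_const))

private theorem cd_nsq : ContDiff ℝ ∞ (fun z : EE 4 => ‖z‖ ^ 2) := contDiff_norm_sq ℝ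

private theorem one_nsq_pos (z : EE 4) : 0 < 1 + ‖z‖ ^ 2 := by positivity

/-! ### Fubini-Study -/

theorem qFS_isQF (z : EE 4) : IsQF (qFS z) := by
  have h := isQF_sub (isQF_div_const isQF_nsq (1 + ‖z‖ ^ 2))
    (isQF_div_const (isQF_add (isLn_zRe z).isQF_sq (isLn_zIm z).isQF_sq) ((1 + ‖z‖ ^ 2) ^ 2))
  exact h

theorem qFS_met : IsRMetricOn (polMet qFS) univ := by
  refine met_polMet isOpen_univ qFS_isQF (fun v => ?_) (fun z _ v hv => ?_)
  · have h1 : ContDiff ℝ ∞ (fun z : EE 4 => 1 + ‖z‖ ^ 2) := contDiff_const.add cd_nsq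
    have h2 : ContDiff ℝ ∞ (fun z : EE 4 => qFS z v) := by
      unfold qFS
      exact (contDiff_const.div h1 fun z => (one_nsq_pos z).ne').sub
        ((((cd_zRe v).pow 2).add ((cd_zIm v).pow 2)).div (h1.pow 2)
          fun z => (pow_pos (one_nsq_pos z) 2).ne')
    exact h2.contDiffOn
  · have h1 := cs_z z v
    have h2 : 0 < ‖v‖ ^ 2 := by
      have := norm_pos_iff.2 hv
      positivity
    have h3 := one_nsq_pos z
    have h4 : qFS z v = ((1 + ‖z‖ ^ 2) * ‖v‖ ^ 2 - (zRe z v ^ 2 + zIm z v ^ 2)) /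
        (1 + ‖z‖ ^ 2) ^ 2 := by
      rw [qFS]
      field_simp
    rw [h4]
    apply div_pos _ (by positivity)
    nlinarith only [h1, h2]

theorem qFS_gquad (z v : EE 4) : gquad (polMet qFS) z v = qFS z v := gquad_polMet (qFS_isQF z) v

theorem qFS_even (z : EE 4) : polMet qFS (-z) = polMet qFS z := by
  have h : ∀ v, qFS (-z) v = qFS z v := by
    intro v
    rw [qFS, qFS, norm_neg]
    have h1 : zRe (-z) v = - zRe z v := by
      simp only [zRe, PiLp.neg_apply]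
      ring
    have h2 : zIm (-z) v = - zIm z v := by
      simp only [zIm, PiLp.neg_apply]
      ring
    rw [h1, h2, neg_sq, neg_sq]
  ext i j
  simp only [polMet, Matrix.of_apply, h]

theorem qFS_zero (v : EE 4) : qFS 0 v = ‖v‖ ^ 2 := by
  simp [qFS, zRe, zIm]

/-! ### the z-chart -/

theorem qz_isQF (V : ℝ → ℝ) (z : EE 4) : IsQF (qz V z) := by
  have h1 := isQF_div_const (isQF_const_mul (isLn_zRe z).isQF_sq (1 / V (‖z‖ / √(1 + ‖z‖ ^ 2))))
    (‖z‖ ^ 2 * (1 + ‖z‖ ^ 2) ^ 3)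
  have h2 := isQF_div_const (isQF_sub (isQF_sub isQF_nsq
    (isQF_div_const (isLn_zRe z).isQF_sq (‖z‖ ^ 2)))
    (isQF_div_const (isLn_zIm z).isQF_sq (‖z‖ ^ 2))) (1 + ‖z‖ ^ 2)
  have h3 := isQF_div_const (isQF_const_mul (isLn_zIm z).isQF_sq (V (‖z‖ / √(1 + ‖z‖ ^ 2))))
    (‖z‖ ^ 2 * (1 + ‖z‖ ^ 2))
  exact isQF_add (isQF_add h1 h2) h3

theorem qz_gquad (V : ℝ → ℝ) (z v : EE 4) : gquad (polMet (qz V)) z v = qz V z v :=
  gquad_polMet (qz_isQF V z) v

private theorem rho_lt_one (z : EE 4) : ‖z‖ / √(1 + ‖z‖ ^ 2) < 1 := by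
  rw [div_lt_one (Real.sqrt_pos.2 (one_nsq_pos z))]
  exact Real.lt_sqrt_of_sq_lt (by linarith)

private theorem cont_rho : Continuous (fun z : EE 4 => ‖z‖ / √(1 + ‖z‖ ^ 2)) := by
  refine continuous_norm.div ?_ fun z => (Real.sqrt_pos.2 (one_nsq_pos z)).ne'
  exact (continuous_const.add (continuous_norm.pow 2)).sqrt

theorem qz_met {V : ℝ → ℝ} {r0 : ℝ} (h0 : 0 ≤ r0) (hV : ContDiffOn ℝ ∞ V (Ioo r0 1))
    (hp : ∀ r ∈ Ioo r0 1, 0 < V r) :
    IsRMetricOn (polMet (qz V)) {z | r0 < ‖z‖ / √(1 + ‖z‖ ^ 2)} := by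
  have hz0 : ∀ z : EE 4, r0 < ‖z‖ / √(1 + ‖z‖ ^ 2) → 0 < ‖z‖ := by
    intro z hz
    by_contra h
    have h1 : ‖z‖ = 0 := le_antisymm (not_lt.1 h) (norm_nonneg z)
    rw [h1, zero_div] at hz
    exact absurd hz (not_lt.2 h0)
  refine met_polMet (isOpen_lt continuous_const cont_rho) (qz_isQF V) (fun v => ?_)
    (fun z hz v hv => ?_)
  · intro z hz
    refine ContDiffAt.contDiffWithinAt ?_
    have hn := hz0 z hz
    have hz' : z ≠ 0 := norm_pos_iff.1 hn
    have c1 : ContDiffAt ℝ ∞ (fun z : EE 4 => ‖z‖) z := contDiffAt_norm ℝ hz'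
    have c2 : ContDiffAt ℝ ∞ (fun z : EE 4 => ‖z‖ ^ 2) z := cd_nsq.contDiffAt
    have c3 : ContDiffAt ℝ ∞ (fun z : EE 4 => 1 + ‖z‖ ^ 2) z := contDiffAt_const.add c2
    have c4 : ContDiffAt ℝ ∞ (fun z : EE 4 => √(1 + ‖z‖ ^ 2)) z := c3.sqrt (one_nsq_pos z).ne'
    have c5 : ContDiffAt ℝ ∞ (fun z : EE 4 => ‖z‖ / √(1 + ‖z‖ ^ 2)) z :=
      c1.div c4 (Real.sqrt_pos.2 (one_nsq_pos z)).ne'
    have c6 : ContDiffAt ℝ ∞ (fun z : EE 4 => V (‖z‖ / √(1 + ‖z‖ ^ 2))) z := by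
      have h1 : ContDiffAt ℝ ∞ V (‖z‖ / √(1 + ‖z‖ ^ 2)) :=
        (hV _ ⟨hz, rho_lt_one z⟩).contDiffAt (isOpen_Ioo.mem_nhds ⟨hz, rho_lt_one z⟩)
      exact h1.comp z c5
    have hVz : V (‖z‖ / √(1 + ‖z‖ ^ 2)) ≠ 0 := (hp _ ⟨hz, rho_lt_one z⟩).ne'
    have hn2 : ‖z‖ ^ 2 ≠ 0 := (pow_pos hn 2).ne'
    have h12 : 1 + ‖z‖ ^ 2 ≠ 0 := (one_nsq_pos z).ne'
    have r1 : ContDiffAt ℝ ∞ (fun z : EE 4 => zRe z v) z := (cd_zRe v).contDiffAt
    have r2 : ContDiffAt ℝ ∞ (fun z : EE 4 => zIm z v) z := (cd_zIm v).contDiffAt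
    unfold qz
    refine ContDiffAt.add (ContDiffAt.add ?_ ?_) ?_
    · exact ((contDiffAt_const.div c6 hVz).mul (r1.pow 2)).div (c2.mul (c3.pow 3))
        (mul_ne_zero hn2 (pow_ne_zero 3 h12))
    · exact ((contDiffAt_const.sub ((r1.pow 2).div c2 hn2)).sub ((r2.pow 2).div c2 hn2)).div c3 h12
    · exact (c6.mul (r2.pow 2)).div (c2.mul c3) (mul_ne_zero hn2 h12)
  · have hn := hz0 z hz
    have hVz : 0 < V (‖z‖ / √(1 + ‖z‖ ^ 2)) := hp _ ⟨hz, rho_lt_one z⟩
    have h1 := cs_z z v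
    have h2 : 0 < ‖v‖ ^ 2 := by
      have := norm_pos_iff.2 hv
      positivity
    have h3 := one_nsq_pos z
    rw [qz]
    set W := V (‖z‖ / √(1 + ‖z‖ ^ 2)) with hW
    set s := ‖z‖ ^ 2 with hs
    have hs0 : 0 < s := by rw [hs]; positivity
    have t1 : 0 ≤ 1 / W * zRe z v ^ 2 / (s * (1 + s) ^ 3) := by positivity
    have t3 : 0 ≤ W * zIm z v ^ 2 / (s * (1 + s)) := by positivity
    have t2' : 0 ≤ ‖v‖ ^ 2 - zRe z v ^ 2 / s - zIm z v ^ 2 / s := by
      have : ‖v‖ ^ 2 - zRe z v ^ 2 / s - zIm z v ^ 2 / s =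
          (s * ‖v‖ ^ 2 - (zRe z v ^ 2 + zIm z v ^ 2)) / s := by
        field_simp
        ring
      rw [this]
      exact div_nonneg (by linarith only [h1]) hs0.le
    have t2 : 0 ≤ (‖v‖ ^ 2 - zRe z v ^ 2 / s - zIm z v ^ 2 / s) / (1 + s) :=
      div_nonneg t2' h3.le
    by_cases hr : zRe z v = 0
    · by_cases hi : zIm z v = 0
      · have : 0 < (‖v‖ ^ 2 - zRe z v ^ 2 / s - zIm z v ^ 2 / s) / (1 + s) := by
          rw [hr, hi]
          simp only [ne_eq, OfNat.ofNat_ne_zero, not_false_eq_true, zero_pow, zero_div, sub_zero]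
          positivity
        linarith only [t1, t3, this]
      · have : 0 < W * zIm z v ^ 2 / (s * (1 + s)) := by positivity
        linarith only [t1, t2, this]
    · have : 0 < 1 / W * zRe z v ^ 2 / (s * (1 + s) ^ 3) := by positivity
      linarith

/-- for `V(ρ) = 1 - ρ²`, `ρ = ‖z‖/√(1+‖z‖²)` -/
theorem qz_eq_qFS {V : ℝ → ℝ} {z : EE 4} (hz : z ≠ 0)
    (hV : V (‖z‖ / √(1 + ‖z‖ ^ 2)) = 1 / (1 + ‖z‖ ^ 2)) (v : EE 4) : qz V z v = qFS z v := by
  have hn : ‖z‖ ≠ 0 := (norm_pos_iff.2 hz).ne'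
  have h3 := (one_nsq_pos z).ne'
  rw [qz, qFS, hV]
  field_simp
  ring

/-! ### the edge chart -/

private theorem isLn_A (x : EE 4) : IsLn (fun v => (x 0 * v 1 - x 1 * v 0) / (1 + s01 x)) :=
  (((isLn_apply 1).const_mul (x 0)).sub ((isLn_apply 0).const_mul (x 1))).div_const _

private theorem isLn_B (x : EE 4) : IsLn (fun v => x 2 * v 3 - x 3 * v 2) :=
  ((isLn_apply 3).const_mul (x 2)).sub ((isLn_apply 2).const_mul (x 3))

theorem qe_isQF (Ψ : ℝ → ℝ) (x : EE 4) : IsQF (qe Ψ x) := by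
  have a1 := (isLn_A x).const_mul 4
  have a2 := a1.isQF_mul (isLn_B x)
  have a3 := isQF_mul_const (isQF_const_mul (isLn_A x).isQF_sq 4) (s23 x)
  have h1 := isQF_div_const (isQF_add (isQF_sub (isQF_add (isLn_apply 2).isQF_sq
    (isLn_apply 3).isQF_sq) a2) a3) ((1 + s23 x) ^ 2)
  have h2 := isQF_div_const (isQF_add (isLn_apply 0).isQF_sq
    (isLn_apply 1).isQF_sq) ((1 + s01 x) ^ 2 * (1 + s23 x))
  have h3 := isQF_const_mul ((((isLn_B x).div_const (s23 x)).sub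
    ((isLn_A x).const_mul 2)).isQF_sq)
    ((Ψ (√(s23 x) / (1 + s23 x))) ^ 2 - (√(s23 x) / (1 + s23 x)) ^ 2)
  exact isQF_add (isQF_add h1 h2) h3

theorem qe_gquad (Ψ : ℝ → ℝ) (x v : EE 4) : gquad (polMet (qe Ψ)) x v = qe Ψ x v :=
  gquad_polMet (qe_isQF Ψ x) v

private theorem s01_nn (z : EE 4) : 0 ≤ s01 z := by
  unfold s01
  positivity

private theorem s23_nn (z : EE 4) : 0 ≤ s23 z := by
  unfold s23
  positivity

private theorem cd_s01 : ContDiff ℝ ∞ (fun x : EE 4 => s01 x) := by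
  unfold s01
  exact ((cd_coord 0).pow 2).add ((cd_coord 1).pow 2)

private theorem cd_s23 : ContDiff ℝ ∞ (fun x : EE 4 => s23 x) := by
  unfold s23
  exact ((cd_coord 2).pow 2).add ((cd_coord 3).pow 2)

private theorem cd_A (v : EE 4) :
    ContDiff ℝ ∞ (fun x : EE 4 => (x 0 * v 1 - x 1 * v 0) / (1 + s01 x)) :=
  (((cd_coord 0).mul contDiff_const).sub ((cd_coord 1).mul contDiff_const)).div
    (contDiff_const.add cd_s01) fun x => by
      have := s01_nn x
      positivity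

private theorem cd_B (v : EE 4) : ContDiff ℝ ∞ (fun x : EE 4 => x 2 * v 3 - x 3 * v 2) :=
  ((cd_coord 2).mul contDiff_const).sub ((cd_coord 3).mul contDiff_const)

/-- `qe = d|η|²/(1+E)² + |dζ1|²/(..) + Ψ(w)² (d arg η - 2A)²` for `η ≠ 0`, and `Ψ(w) = w` near `η = 0` -/
theorem qe_met {ε δ : ℝ} {Ψ : ℝ → ℝ} (h : IsEdge ε δ Ψ) : IsRMetricOn (polMet (qe Ψ)) univ := by
  refine met_polMet isOpen_univ (qe_isQF Ψ) (fun v => ?_) (fun x _ v hv => ?_)
  · rw [contDiffOn_univ, contDiff_iff_contDiffAt]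
    intro x
    have hA : ContDiffAt ℝ ∞ (fun x : EE 4 => (x 0 * v 1 - x 1 * v 0) / (1 + s01 x)) x :=
      (cd_A v).contDiffAt
    have hB : ContDiffAt ℝ ∞ (fun x : EE 4 => x 2 * v 3 - x 3 * v 2) x := (cd_B v).contDiffAt
    have h01 : ContDiffAt ℝ ∞ (fun x : EE 4 => s01 x) x := cd_s01.contDiffAt
    have h23 : ContDiffAt ℝ ∞ (fun x : EE 4 => s23 x) x := cd_s23.contDiffAt
    have p1 : 1 + s01 x ≠ 0 := by
      have := s01_nn x
      positivity
    have p2 : 1 + s23 x ≠ 0 := by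
      have := s23_nn x
      positivity
    unfold qe
    refine ContDiffAt.add (ContDiffAt.add ?_ ?_) ?_
    · exact ((contDiffAt_const.sub ((contDiffAt_const.mul hA).mul hB)).add
        ((contDiffAt_const.mul (hA.pow 2)).mul h23)).div ((contDiffAt_const.add h23).pow 2)
        (pow_ne_zero 2 p2)
    · exact contDiffAt_const.div (((contDiffAt_const.add h01).pow 2).mul
        (contDiffAt_const.add h23)) (mul_ne_zero (pow_ne_zero 2 p1) p2)
    · rcases (s23_nn x).eq_or_lt with h0 | h0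
      · obtain ⟨r, hr, hr1⟩ := h.near
        have hc : Continuous (fun x : EE 4 => √(s23 x) / (1 + s23 x)) :=
          (cd_s23.continuous.sqrt).div (continuous_const.add cd_s23.continuous) fun y => by
            have := s23_nn y
            positivity
        have hx0 : √(s23 x) / (1 + s23 x) = 0 := by
          rw [← h0, Real.sqrt_zero, zero_div]
        have hev : ∀ᶠ y in 𝓝 x, |√(s23 y) / (1 + s23 y)| < r := by
          have h1 : Tendsto (fun y : EE 4 => |√(s23 y) / (1 + s23 y)|) (𝓝 x)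
              (𝓝 |√(s23 x) / (1 + s23 x)|) := (hc.abs).tendsto x
          rw [hx0, abs_zero] at h1
          exact h1.eventually (gt_mem_nhds hr)
        have heq : (fun x : EE 4 => ((Ψ (√(s23 x) / (1 + s23 x))) ^ 2 -
            (√(s23 x) / (1 + s23 x)) ^ 2) * ((x 2 * v 3 - x 3 * v 2) / s23 x -
            2 * ((x 0 * v 1 - x 1 * v 0) / (1 + s01 x))) ^ 2) =ᶠ[𝓝 x] fun _ => 0 := by
          filter_upwards [hev] with y hy
          rw [hr1 _ hy.le, sub_self, zero_mul]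
        exact contDiffAt_const.congr_of_eventuallyEq heq
      · have hsq : ContDiffAt ℝ ∞ (fun x : EE 4 => √(s23 x) / (1 + s23 x)) x :=
          (h23.sqrt h0.ne').div (contDiffAt_const.add h23) p2
        have hPs : ContDiffAt ℝ ∞ (fun x : EE 4 => Ψ (√(s23 x) / (1 + s23 x))) x :=
          (h.smooth.contDiffAt).comp x hsq
        exact ((hPs.pow 2).sub (hsq.pow 2)).mul (((hB.div h23 h0.ne').sub
          (contDiffAt_const.mul hA)).pow 2)
  · have e1 := s01_nn x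
    have e2 := s23_nn x
    have hvne : v 0 ^ 2 + v 1 ^ 2 + (v 2 ^ 2 + v 3 ^ 2) ≠ 0 := by
      intro h1
      apply hv
      have h2 : ‖v‖ ^ 2 = 0 := by
        rw [nsq4]
        linarith
      exact norm_eq_zero.1 (pow_eq_zero_iff (two_ne_zero)|>.1 h2)
    rw [qe]
    set A := (x 0 * v 1 - x 1 * v 0) / (1 + s01 x) with hA
    set w := √(s23 x) / (1 + s23 x) with hw
    have hx23 : s23 x = x 2 ^ 2 + x 3 ^ 2 := rfl
    have hfirst : v 2 ^ 2 + v 3 ^ 2 - 4 * A * (x 2 * v 3 - x 3 * v 2) + 4 * A ^ 2 * s23 x =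
        (v 2 + 2 * A * x 3) ^ 2 + (v 3 - 2 * A * x 2) ^ 2 := by
      rw [hx23]
      ring
    rw [hfirst]
    have hw0 : 0 ≤ w := by
      rw [hw]
      positivity
    have hPs := h.lb w hw0
    have hlast : - (3 / 4 * (((v 2 + 2 * A * x 3) ^ 2 + (v 3 - 2 * A * x 2) ^ 2) /
        (1 + s23 x) ^ 2)) ≤ ((Ψ w) ^ 2 - w ^ 2) *
          ((x 2 * v 3 - x 3 * v 2) / s23 x - 2 * A) ^ 2 := by
      have h1 : -(3 / 4 * w ^ 2) ≤ (Ψ w) ^ 2 - w ^ 2 := by nlinarith only [hPs, hw0]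
      have h2 : w ^ 2 * ((x 2 * v 3 - x 3 * v 2) / s23 x - 2 * A) ^ 2 ≤
          ((v 2 + 2 * A * x 3) ^ 2 + (v 3 - 2 * A * x 2) ^ 2) / (1 + s23 x) ^ 2 := by
        rcases e2.eq_or_lt with h0 | h0
        · have : w = 0 := by
            rw [hw, ← h0, Real.sqrt_zero, zero_div]
          rw [this]
          simp only [ne_eq, OfNat.ofNat_ne_zero, not_false_eq_true, zero_pow, zero_mul]
          positivity
        · have h3 : w ^ 2 = s23 x / (1 + s23 x) ^ 2 := by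
            rw [hw, div_pow, Real.sq_sqrt e2]
          have h4 : (x 2 * v 3 - x 3 * v 2) / s23 x - 2 * A =
              (x 2 * (v 3 - 2 * A * x 2) - x 3 * (v 2 + 2 * A * x 3)) / s23 x := by
            rw [eq_div_iff h0.ne', sub_mul, div_mul_cancel₀ _ h0.ne', hx23]
            ring
          have h5 : s23 x / (1 + s23 x) ^ 2 *
              ((x 2 * (v 3 - 2 * A * x 2) - x 3 * (v 2 + 2 * A * x 3)) / s23 x) ^ 2 =
              ((x 2 * (v 3 - 2 * A * x 2) - x 3 * (v 2 + 2 * A * x 3)) ^ 2 / s23 x) /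
                (1 + s23 x) ^ 2 := by
            field_simp
          rw [h3, h4, h5]
          refine div_le_div_of_nonneg_right ?_ (by positivity)
          rw [div_le_iff₀ h0, hx23]
          nlinarith only [sq_nonneg (x 2 * (v 2 + 2 * A * x 3) + x 3 * (v 3 - 2 * A * x 2))]
      have h6 : 0 ≤ ((x 2 * v 3 - x 3 * v 2) / s23 x - 2 * A) ^ 2 := sq_nonneg _
      nlinarith only [h1, h2]
    have hsec : 0 ≤ (v 0 ^ 2 + v 1 ^ 2) / ((1 + s01 x) ^ 2 * (1 + s23 x)) := by (clear * - e1 e2; positivity)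
    have hfn : 0 ≤ ((v 2 + 2 * A * x 3) ^ 2 + (v 3 - 2 * A * x 2) ^ 2) / (1 + s23 x) ^ 2 := by
      (clear * - e2; positivity)
    by_cases h01 : v 0 ^ 2 + v 1 ^ 2 = 0
    · have hv0 : v 0 = 0 := by nlinarith only [h01, sq_nonneg (v 0), sq_nonneg (v 1)]
      have hv1 : v 1 = 0 := by nlinarith only [h01, sq_nonneg (v 0), sq_nonneg (v 1)]
      have hA0 : A = 0 := by
        rw [hA, hv0, hv1]
        simp
      have h23 : 0 < v 2 ^ 2 + v 3 ^ 2 := by
        rcases (by positivity : 0 ≤ v 2 ^ 2 + v 3 ^ 2).eq_or_lt with h1 | h1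
        · exact absurd (by rw [h01, ← h1, add_zero]) hvne
        · exact h1
      have : 0 < ((v 2 + 2 * A * x 3) ^ 2 + (v 3 - 2 * A * x 2) ^ 2) / (1 + s23 x) ^ 2 := by
        rw [hA0]
        simp only [mul_zero, zero_mul, add_zero, sub_zero]
        (clear * - e2 h23; positivity)
      linarith only [hlast, hsec, this]
    · have h01' : 0 < v 0 ^ 2 + v 1 ^ 2 := lt_of_le_of_ne (by positivity) (Ne.symm h01)
      have : 0 < (v 0 ^ 2 + v 1 ^ 2) / ((1 + s01 x) ^ 2 * (1 + s23 x)) := by positivity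
      linarith only [hfn, hlast, this]

/-! ### the bolt charts -/

theorem qb_isQF (a : ℝ) (x : EE 4) : IsQF (qb a x) := by
  have a1 := (isLn_A x).const_mul 4
  have a2 := a1.isQF_mul (isLn_B x)
  have a3 := isQF_mul_const (isQF_const_mul (isLn_A x).isQF_sq 4) (s23 x)
  have h1 := isQF_div_const (isQF_add (isQF_add (isQF_add (isLn_apply 2).isQF_sq
    (isLn_apply 3).isQF_sq) a2) a3) (4 * (rb a x) ^ 2)
  have h2 := isQF_div_const (isQF_const_mul (isQF_add (isLn_apply 0).isQF_sq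
    (isLn_apply 1).isQF_sq) ((rb a x) ^ 2)) ((1 + s01 x) ^ 2)
  exact isQF_add h1 h2

theorem qb_gquad (a : ℝ) (x v : EE 4) : gquad (polMet (qb a)) x v = qb a x v :=
  gquad_polMet (qb_isQF a x) v

theorem qb_met {a : ℝ} (h : 0 < a) : IsRMetricOn (polMet (qb a)) univ := by
  have hr2 : ∀ x : EE 4, (rb a x) ^ 2 = √(a ^ 4 + s23 x) := fun x => by
    rw [rb, Real.sq_sqrt (Real.sqrt_nonneg _)]
  have hpos : ∀ x : EE 4, 0 < a ^ 4 + s23 x := fun x => by
    have := s23_nn x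
    positivity
  have hrp : ∀ x : EE 4, 0 < (rb a x) ^ 2 := fun x => by
    rw [hr2]
    exact Real.sqrt_pos.2 (hpos x)
  refine met_polMet isOpen_univ (qb_isQF a) (fun v => ?_) (fun x _ v hv => ?_)
  · rw [contDiffOn_univ, contDiff_iff_contDiffAt]
    intro x
    have hA : ContDiffAt ℝ ∞ (fun x : EE 4 => (x 0 * v 1 - x 1 * v 0) / (1 + s01 x)) x :=
      (cd_A v).contDiffAt
    have hB : ContDiffAt ℝ ∞ (fun x : EE 4 => x 2 * v 3 - x 3 * v 2) x := (cd_B v).contDiffAt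
    have h01 : ContDiffAt ℝ ∞ (fun x : EE 4 => s01 x) x := cd_s01.contDiffAt
    have h23 : ContDiffAt ℝ ∞ (fun x : EE 4 => s23 x) x := cd_s23.contDiffAt
    have p1 : 1 + s01 x ≠ 0 := by
      have := s01_nn x
      positivity
    have hr : ContDiffAt ℝ ∞ (fun x : EE 4 => (rb a x) ^ 2) x := by
      have h1 : ContDiffAt ℝ ∞ (fun x : EE 4 => √(a ^ 4 + s23 x)) x :=
        (contDiffAt_const.add h23).sqrt (hpos x).ne'
      exact h1.congr_of_eventuallyEq (Eventually.of_forall fun y => hr2 y)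
    unfold qb
    refine ContDiffAt.add ?_ ?_
    · exact ((contDiffAt_const.add ((contDiffAt_const.mul hA).mul hB)).add
        ((contDiffAt_const.mul (hA.pow 2)).mul h23)).div (contDiffAt_const.mul hr)
        (mul_ne_zero four_ne_zero (hrp x).ne')
    · exact (hr.mul contDiffAt_const).div ((contDiffAt_const.add h01).pow 2) (pow_ne_zero 2 p1)
  · have e1 := s01_nn x
    have e2 := s23_nn x
    have e3 := hrp x
    have hvne : v 0 ^ 2 + v 1 ^ 2 + (v 2 ^ 2 + v 3 ^ 2) ≠ 0 := by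
      intro h1
      apply hv
      have h2 : ‖v‖ ^ 2 = 0 := by
        rw [nsq4]
        linarith
      exact norm_eq_zero.1 (pow_eq_zero_iff (two_ne_zero)|>.1 h2)
    rw [qb]
    set A := (x 0 * v 1 - x 1 * v 0) / (1 + s01 x) with hA
    have hx23 : s23 x = x 2 ^ 2 + x 3 ^ 2 := rfl
    have hfirst : v 2 ^ 2 + v 3 ^ 2 + 4 * A * (x 2 * v 3 - x 3 * v 2) + 4 * A ^ 2 * s23 x =
        (v 2 - 2 * A * x 3) ^ 2 + (v 3 + 2 * A * x 2) ^ 2 := by
      rw [hx23]
      ring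
    rw [hfirst]
    have hsec : 0 ≤ (rb a x) ^ 2 * (v 0 ^ 2 + v 1 ^ 2) / (1 + s01 x) ^ 2 := by (clear * - e1 e3; positivity)
    have hfn : 0 ≤ ((v 2 - 2 * A * x 3) ^ 2 + (v 3 + 2 * A * x 2) ^ 2) / (4 * (rb a x) ^ 2) := by
      (clear * - e3; positivity)
    by_cases h01 : v 0 ^ 2 + v 1 ^ 2 = 0
    · have hv0 : v 0 = 0 := by nlinarith only [h01, sq_nonneg (v 0), sq_nonneg (v 1)]
      have hv1 : v 1 = 0 := by nlinarith only [h01, sq_nonneg (v 0), sq_nonneg (v 1)]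
      have hA0 : A = 0 := by
        rw [hA, hv0, hv1]
        simp
      have h23 : 0 < v 2 ^ 2 + v 3 ^ 2 := by
        rcases (by positivity : 0 ≤ v 2 ^ 2 + v 3 ^ 2).eq_or_lt with h1 | h1
        · exact absurd (by rw [h01, ← h1, add_zero]) hvne
        · exact h1
      have : 0 < ((v 2 - 2 * A * x 3) ^ 2 + (v 3 + 2 * A * x 2) ^ 2) / (4 * (rb a x) ^ 2) := by
        rw [hA0]
        simp only [mul_zero, zero_mul, add_zero, sub_zero]
        positivity
      linarith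
    · have h01' : 0 < v 0 ^ 2 + v 1 ^ 2 := lt_of_le_of_ne (by positivity) (Ne.symm h01)
      have : 0 < (rb a x) ^ 2 * (v 0 ^ 2 + v 1 ^ 2) / (1 + s01 x) ^ 2 := by positivity
      linarith

end Pool.Agent.MP39e402
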