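import Pool.Agent.Lib.MP_39e402_gt.UCs
import Pool.Agent.Lib.MP_39e402_gt.VB
import Pool.Agent.Lib.MP_39e402_gt.VQ

/-! # MP_39e402, module VBI: the bolt charts are isometric, covering of the P-zone.
`vbi_qC`: value of `qC` in the P-zone for `x = (t1+τ) n`; `vbi_main`: value of `qC` on the derivative of a map
in polar form; `vbi_alg1`, `vbi_alg2`, `vbi_fin`: the algebraic identities. -/

open Real Set Filter Topology MeasureTheory
open scoped ContDiff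

noncomputable section

namespace Pool.Agent.MP39e402

theorem vbi_norm_sq (x : EE 4) : ‖x‖ ^ 2 = x 0 ^ 2 + x 1 ^ 2 + x 2 ^ 2 + x 3 ^ 2 := by
  rw [EuclideanSpace.norm_sq_eq]; simp [Fin.sum_univ_four]

theorem vbi_hasDerivAt_v4 {a b c d : ℝ → ℝ} {a' b' c' d' s : ℝ} (ha : HasDerivAt a a' s)
    (hb : HasDerivAt b b' s) (hc : HasDerivAt c c' s) (hd : HasDerivAt d d' s) :
    HasDerivAt (fun s => v4 (a s) (b s) (c s) (d s)) (v4 a' b' c' d') s := by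
  have e : ∀ p q r t : ℝ, v4 p q r t = p • e4 0 + q • e4 1 + r • e4 2 + t • e4 3 := by
    intro p q r t
    ext i
    fin_cases i <;> simp [v4, e4]
  simp only [e]
  exact (((ha.smul_const _).add (hb.smul_const _)).add (hc.smul_const _)).add (hd.smul_const _)

/-- the value of `qC` in the P-zone, in polar form `x = (t1+τ) n` -/
theorem vbi_qC (Ψ U : ℝ → ℝ) {x v n dn : EE 4} {τ dτ h dh ρ : ℝ}
    (hn : n 0 ^ 2 + n 1 ^ 2 + n 2 ^ 2 + n 3 ^ 2 = 1)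
    (hdn : n 0 * dn 0 + n 1 * dn 1 + n 2 * dn 2 + n 3 * dn 3 = 0)
    (hh : 0 < h) (hh2 : n 2 ^ 2 + n 3 ^ 2 = h ^ 2) (hdh : n 2 * dn 2 + n 3 * dn 3 = h * dh)
    (ht : 0 < t1C + τ) (hx : x = (t1C + τ) • n) (hv : v = dτ • n + (t1C + τ) • dn) (hPZ : x ∈ PZ)
    (hρ : rhoP x = ρ) (hρ0 : 0 < ρ) (hc : 0 < cos τ) :
    qC Ψ U x v = dτ ^ 2 + cos τ ^ 2 * (dn 0 ^ 2 + dn 1 ^ 2 + dn 2 ^ 2 + dn 3 ^ 2
        - (n 2 * dn 3 - n 3 * dn 2) ^ 2 / h ^ 2) - cos τ ^ 4 / ρ ^ 2 * (n 0 * dn 1 - n 1 * dn 0) ^ 2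
      + (1 / (1 - U ρ) - 1 / (1 - ρ ^ 2)) * (cos τ * h * (cos τ * dh - sin τ * h * dτ) / ρ) ^ 2
      + ρ ^ 2 * (1 - U ρ) / 4 * ((n 2 * dn 3 - n 3 * dn 2) / h ^ 2
        - 2 * cos τ ^ 2 / ρ ^ 2 * (n 0 * dn 1 - n 1 * dn 0)) ^ 2 := by
  set L := t1C + τ with hL
  have hxi : ∀ i, x i = L * n i := fun i => by rw [hx]; simp
  have hvi : ∀ i, v i = dτ * n i + L * dn i := fun i => by rw [hv]; simp
  have hnx : ‖x‖ = L := by
    have h1 : ‖x‖ ^ 2 = L ^ 2 := by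
      rw [vbi_norm_sq]; simp only [hxi]
      linear_combination L ^ 2 * hn
    nlinarith [norm_nonneg x, sq_nonneg (‖x‖ - L)]
  have htc : tc x = τ := by rw [tc, hnx, hL]; ring
  have hUr : Ur x = L * h := by
    have : x 2 ^ 2 + x 3 ^ 2 = (L * h) ^ 2 := by
      simp only [hxi]; linear_combination L ^ 2 * hh2
    rw [Ur, this, Real.sqrt_sq (by positivity)]
  have hn3 : n3 x = h := by rw [n3, hUr, hnx]; field_simp
  have hwR : wR x v = dτ := by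
    rw [wR, hnx]; simp only [hxi, hvi]
    rw [div_eq_iff ht.ne']
    linear_combination L * dτ * hn + L ^ 2 * hdn
  have hwn2 : wn2 x v = dn 0 ^ 2 + dn 1 ^ 2 + dn 2 ^ 2 + dn 3 ^ 2 := by
    rw [wn2, hwR, hnx, vbi_norm_sq, div_eq_iff (by positivity)]
    simp only [hvi]
    linear_combination dτ ^ 2 * hn + 2 * dτ * L * hdn
  have hwth : wth x v = (n 2 * dn 3 - n 3 * dn 2) / h ^ 2 := by
    rw [wth, hUr]; simp only [hxi, hvi]
    field_simp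
    ring
  have hwvp : wvp x v = n 0 * dn 1 - n 1 * dn 0 := by
    rw [wvp, hnx]; simp only [hxi, hvi]
    field_simp
    ring
  have hwU : wU x v = dτ * h + L * dh := by
    rw [wU, hUr]; simp only [hxi, hvi]
    rw [div_eq_iff (by positivity)]
    linear_combination L * dτ * hh2 + L ^ 2 * hdh
  have hwn3 : wn3 x v = dh := by
    rw [wn3, hwU, hUr, hwR, hnx]
    field_simp
    ring
  have hta : τ ≤ taC := by
    have := hPZ.1
    rw [htc] at this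
    exact this.le
  obtain ⟨hb, hf⟩ := isCoreC.fs τ hta
  have hρ2 : ρ ^ 2 = 1 - cos τ ^ 2 * h ^ 2 := by
    rw [← hρ, rhoP, htc, hn3, Real.sq_sqrt]
    by_contra hneg
    have : rhoP x = 0 := by
      rw [rhoP, htc, hn3]; exact Real.sqrt_eq_zero_of_nonpos (by linarith)
    rw [this] at hρ
    exact hρ0.ne hρ
  have hs : sin τ ^ 2 = 1 - cos τ ^ 2 := by have := Real.sin_sq_add_cos_sq τ; linarith
  have hNN : NN x = cos τ ^ 2 * ρ ^ 2 := by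
    rw [NN, htc, hn3, hb, hf, hρ2]
    linear_combination (-(1 : ℝ)) * cos τ ^ 2 * h ^ 2 * (-1) * hs
  have hbf : cos τ ^ 2 - (sin τ * cos τ) ^ 2 = cos τ ^ 4 := by
    linear_combination (-(1 : ℝ)) * cos τ ^ 2 * hs
  have hkap : kap x = 2 * cos τ ^ 2 / ρ ^ 2 := by
    rw [kap, hNN, htc, hb, hf, hbf]
    field_simp
  have hwrho : wrho x v = -(cos τ * h) * (cos τ * dh - sin τ * h * dτ) / ρ := by
    rw [wrho, htc, hn3, hwn3, hwR, hρ]
  rw [qC, if_pos hPZ, hwR, hwn2, hwth, hwvp, hkap, hNN, hwrho, hρ, htc, hb, hf, hn3, hbf]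
  field_simp
  ring

/-- chart 1, the key rational identity -/
theorem vbi_alg1 {P S dP dS W : ℝ} (hP : 0 < P) (hP1 : P < 1) (hS : 0 ≤ S) {Q dQ G dG H dH : ℝ}
    (hQ : Q = P / (1 + S)) (hdQ : dQ = (dP * (1 + S) - P * dS) / (1 + S) ^ 2)
    (hG : G = P / (1 + S - P)) (hdG : dG = (dP * (1 + S - P) - P * (dS - dP)) / (1 + S - P) ^ 2)
    (hH : H = (1 - P) * (1 + S) / (1 + S - P))
    (hdH : dH = ((-dP * (1 + S) + (1 - P) * dS) * (1 + S - P) - (1 - P) * (1 + S) * (dS - dP))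
      / (1 + S - P) ^ 2) :
    dQ ^ 2 / (4 * Q * (1 - Q)) + (1 - Q) * (G * W + dG / 2 * dS + S * (dG ^ 2 / (4 * G))
      + dH ^ 2 / (4 * H)) - (S * W - dS ^ 2 / 4) * P / (1 + S) ^ 2
    = dP ^ 2 / (4 * P * (1 - P)) + P * W / (1 + S) ^ 2 := by
  have h1 : 0 < 1 + S := by linarith
  have h2 : 0 < 1 + S - P := by linarith
  have h3 : 0 < 1 - P := by linarith
  have hQ1 : 1 - Q = (1 + S - P) / (1 + S) := by rw [hQ]; field_simp
  rw [hQ1, hQ, hdQ, hG, hdG, hH, hdH]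
  field_simp
  ring

/-- chart 2, the key rational identity; `S > 0` -/
theorem vbi_alg2 {P S dP dS I W : ℝ} (hP : 0 < P) (hP1 : P < 1) (hS : 0 < S) {Q dQ G dG H dH : ℝ}
    (hQ : Q = S * P / (1 + S)) (hdQ : dQ = ((dS * P + S * dP) * (1 + S) - S * P * dS) / (1 + S) ^ 2)
    (hG : G = P / (1 + S - S * P))
    (hdG : dG = (dP * (1 + S - S * P) - P * (dS - (dS * P + S * dP))) / (1 + S - S * P) ^ 2)
    (hH : H = (1 - P) * (1 + S) / (1 + S - S * P))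
    (hdH : dH = ((-dP * (1 + S) + (1 - P) * dS) * (1 + S - S * P)
      - (1 - P) * (1 + S) * (dS - (dS * P + S * dP))) / (1 + S - S * P) ^ 2)
    (hI : I ^ 2 = S * W - dS ^ 2 / 4) :
    dQ ^ 2 / (4 * Q * (1 - Q)) + (1 - Q) * (dG ^ 2 / (4 * G) + G * (I / S) ^ 2
      + dH ^ 2 / (4 * H)) - P / (1 + S) ^ 2 * (I / S) ^ 2
    = dP ^ 2 / (4 * P * (1 - P)) + P * W / (1 + S) ^ 2 := by
  have h1 : 0 < 1 + S := by linarith
  have h3 : 0 < 1 - P := by linarith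
  have h2 : 0 < 1 + S - S * P := by nlinarith
  have hQ1 : 1 - Q = (1 + S - S * P) / (1 + S) := by rw [hQ]; field_simp
  have hI2 : (I / S) ^ 2 = (S * W - dS ^ 2 / 4) / S ^ 2 := by rw [div_pow, hI]
  rw [hI2, hQ1, hQ, hdQ, hG, hdG, hH, hdH]
  obtain ⟨D, hD⟩ : ∃ D, D = 1 + S - S * P := ⟨_, rfl⟩
  rw [← hD] at h2
  rw [← hD]
  field_simp
  rw [hD]
  ring

theorem vbi_comp (x v : EE 4) (i : Fin 4) : HasDerivAt (fun s : ℝ => (x + s • v) i) (v i) 0 := by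
  have : (fun s : ℝ => (x + s • v) i) = fun s => x i + s * v i := by ext s; simp
  rw [this]; simpa using ((hasDerivAt_id (0 : ℝ)).mul_const (v i)).const_add (x i)

theorem vbi_unit1 {b c : ℝ → ℝ} {b' c' s : ℝ} (hb : HasDerivAt b b' s) (hc : HasDerivAt c c' s)
    (hN : 0 < b s ^ 2 + c s ^ 2) :
    HasDerivAt (fun s => b s / √(b s ^ 2 + c s ^ 2))
      (-(c s / √(b s ^ 2 + c s ^ 2)) * ((b s * c' - c s * b') / (b s ^ 2 + c s ^ 2))) s := by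
  have h1 := ((hb.fun_pow 2).fun_add (hc.fun_pow 2)).sqrt hN.ne'
  have hr : 0 < √(b s ^ 2 + c s ^ 2) := Real.sqrt_pos.2 hN
  have h2 := hb.fun_div h1 hr.ne'
  refine h2.congr_deriv ?_
  have e : √(b s ^ 2 + c s ^ 2) ^ 2 = b s ^ 2 + c s ^ 2 := Real.sq_sqrt hN.le
  generalize hR : √(b s ^ 2 + c s ^ 2) = R at *
  rw [← e]
  field_simp
  simp only [Nat.cast_ofNat, Nat.add_one_sub_one, pow_one]
  linear_combination (2 * b' : ℝ) * e

theorem vbi_unit2 {b c : ℝ → ℝ} {b' c' s : ℝ} (hb : HasDerivAt b b' s) (hc : HasDerivAt c c' s)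
    (hN : 0 < b s ^ 2 + c s ^ 2) :
    HasDerivAt (fun s => c s / √(b s ^ 2 + c s ^ 2))
      ((b s / √(b s ^ 2 + c s ^ 2)) * ((b s * c' - c s * b') / (b s ^ 2 + c s ^ 2))) s := by
  have h1 := ((hb.fun_pow 2).fun_add (hc.fun_pow 2)).sqrt hN.ne'
  have hr : 0 < √(b s ^ 2 + c s ^ 2) := Real.sqrt_pos.2 hN
  have h2 := hc.fun_div h1 hr.ne'
  refine h2.congr_deriv ?_
  have e : √(b s ^ 2 + c s ^ 2) ^ 2 = b s ^ 2 + c s ^ 2 := Real.sq_sqrt hN.le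
  generalize hR : √(b s ^ 2 + c s ^ 2) = R at *
  rw [← e]
  field_simp
  simp only [Nat.cast_ofNat, Nat.add_one_sub_one, pow_one]
  linear_combination (2 * c' : ℝ) * e

/-- `ρ²` -/
def Pb (a : ℝ) (x : EE 4) : ℝ := √(a ^ 4 + s23 x)

theorem vbi_s23 (x : EE 4) : 0 ≤ s23 x := by rw [s23]; positivity
theorem vbi_s01 (x : EE 4) : 0 ≤ s01 x := by rw [s01]; positivity

theorem vbi_rb (a : ℝ) (x : EE 4) : rb a x = √(Pb a x) := rfl
theorem vbi_rb_sq (a : ℝ) (x : EE 4) : rb a x ^ 2 = Pb a x := Real.sq_sqrt (Real.sqrt_nonneg _)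
theorem vbi_Pb_pos {a : ℝ} (ha : 0 < a) (x : EE 4) : 0 < Pb a x :=
  Real.sqrt_pos.2 (by have := vbi_s23 x; positivity)
theorem vbi_rb_pos {a : ℝ} (ha : 0 < a) (x : EE 4) : 0 < rb a x := Real.sqrt_pos.2 (vbi_Pb_pos ha x)
theorem vbi_Pb_sq {a : ℝ} (ha : 0 < a) (x : EE 4) : Pb a x ^ 2 = a ^ 4 + s23 x :=
  Real.sq_sqrt (by have := vbi_s23 x; positivity)
theorem vbi_Pb_lt {a : ℝ} {x : EE 4} (hx : x ∈ DB a (1 / 2)) : Pb a x < 1 / 4 := by
  have h : rb a x < 1 / 2 := hx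
  have h0 : 0 ≤ rb a x := Real.sqrt_nonneg _
  rw [← vbi_rb_sq]
  nlinarith

theorem vbi_s01_deriv (x v : EE 4) :
    HasDerivAt (fun s : ℝ => s01 (x + s • v)) (2 * (x 0 * v 0 + x 1 * v 1)) 0 := by
  have h := ((vbi_comp x v 0).fun_pow 2).fun_add ((vbi_comp x v 1).fun_pow 2)
  refine h.congr_deriv ?_
  simp
  ring

theorem vbi_s23_deriv (x v : EE 4) :
    HasDerivAt (fun s : ℝ => s23 (x + s • v)) (2 * (x 2 * v 2 + x 3 * v 3)) 0 := by
  have h := ((vbi_comp x v 2).fun_pow 2).fun_add ((vbi_comp x v 3).fun_pow 2)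
  refine h.congr_deriv ?_
  simp
  ring

theorem vbi_Pb_deriv {a : ℝ} (ha : 0 < a) (x v : EE 4) :
    HasDerivAt (fun s : ℝ => Pb a (x + s • v)) ((x 2 * v 2 + x 3 * v 3) / Pb a x) 0 := by
  have h0 : a ^ 4 + s23 (x + (0 : ℝ) • v) ≠ 0 := by
    have := vbi_s23 (x + (0 : ℝ) • v); positivity
  have h := ((vbi_s23_deriv x v).const_add (a ^ 4)).sqrt h0
  refine h.congr_deriv ?_
  rw [zero_smul, add_zero]
  have := vbi_Pb_pos ha x
  rw [Pb] at *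
  field_simp

theorem vbi_fderiv {f : EE 4 → EE 4} {x v D : EE 4} (hf : DifferentiableAt ℝ f x)
    (h : HasDerivAt (fun s : ℝ => f (x + s • v)) D 0) : fderiv ℝ f x v = D := by
  have h1 : HasDerivAt (fun s : ℝ => f (x + s • v)) (fderiv ℝ f x v) 0 :=
    hf.hasFDerivAt.hasLineDerivAt v
  exact h1.unique h

theorem vbi_arcsin {Q : ℝ → ℝ} {Q' s : ℝ} (hQ : HasDerivAt Q Q' s) (h0 : 0 < Q s) (h1 : Q s < 1) :
    HasDerivAt (fun s => arcsin (√(Q s))) (Q' / (2 * √(Q s) * √(1 - Q s))) s := by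
  have hq : 0 < √(Q s) := Real.sqrt_pos.2 h0
  have hq1 : √(Q s) < 1 := by
    rw [show (1 : ℝ) = √1 by simp]
    exact Real.sqrt_lt_sqrt h0.le h1
  have h2 := (Real.hasDerivAt_arcsin (x := √(Q s)) (by linarith) hq1.ne).comp s (hQ.sqrt h0.ne')
  refine h2.congr_deriv ?_
  rw [Real.sq_sqrt h0.le]
  have : 0 < √(1 - Q s) := Real.sqrt_pos.2 (by linarith)
  field_simp

theorem vbi_B1_form {a : ℝ} (ha : 0 < a) {y : EE 4} (hP : Pb a y < 1) :
    PhB1 a y = (t1C + arcsin (√(Pb a y / (1 + s01 y)))) •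
      v4 (y 0 * √(Pb a y / (1 + s01 y - Pb a y))) (y 1 * √(Pb a y / (1 + s01 y - Pb a y)))
        (y 2 / √(s23 y) * √((1 - Pb a y) * (1 + s01 y) / (1 + s01 y - Pb a y)))
        (-(y 3 / √(s23 y)) * √((1 - Pb a y) * (1 + s01 y) / (1 + s01 y - Pb a y))) := by
  have hS := vbi_s01 y
  have hP0 := vbi_Pb_pos ha y
  have h1 : 0 < 1 + s01 y := by linarith
  have h2 : 0 < 1 + s01 y - Pb a y := by linarith
  have h3 : 0 < 1 - Pb a y := by linarith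
  have hz : zb a y = Pb a y / (1 - Pb a y) / (1 + s01 y) := by rw [zb, vbi_rb_sq]
  have hz0 : 0 < zb a y := by rw [hz]; positivity
  have e0 : 1 + s01 y * zb a y = (1 + s01 y - Pb a y) / ((1 - Pb a y) * (1 + s01 y)) := by
    rw [hz]; field_simp; ring
  have e1 : rb a y / √(1 + s01 y) = √(Pb a y / (1 + s01 y)) := by
    rw [Real.sqrt_div hP0.le]; rfl
  have e2 : √(zb a y) / √(1 + s01 y * zb a y) = √(Pb a y / (1 + s01 y - Pb a y)) := by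
    rw [← Real.sqrt_div hz0.le, e0, hz]; congr 1; field_simp
  have e3 : 1 / √(1 + s01 y * zb a y) = √((1 - Pb a y) * (1 + s01 y) / (1 + s01 y - Pb a y)) := by
    rw [one_div, ← Real.sqrt_inv, e0, inv_div]
  have e4 : ∀ b : ℝ, b / (√(s23 y) * √(1 + s01 y * zb a y)) = b / √(s23 y)
      * √((1 - Pb a y) * (1 + s01 y) / (1 + s01 y - Pb a y)) := by
    intro b
    rw [← e3, div_mul_eq_div_div, div_eq_mul_one_div _ (√(1 + s01 y * zb a y))]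
  rw [PhB1, e1, mul_div_assoc, mul_div_assoc, e2, e4, e4, neg_div]

theorem vbi_B2_form {a : ℝ} (ha : 0 < a) {y : EE 4} (hP : Pb a y < 1) :
    PhB2 a y = (t1C + arcsin (√(s01 y * Pb a y / (1 + s01 y)))) •
      v4 (y 0 / √(s01 y) * √(Pb a y / (1 + s01 y - s01 y * Pb a y)))
        (-(y 1 / √(s01 y)) * √(Pb a y / (1 + s01 y - s01 y * Pb a y)))
        ((y 2 / √(s23 y) * ((y 0 / √(s01 y)) ^ 2 - (y 1 / √(s01 y)) ^ 2)
            - 2 * (y 3 / √(s23 y)) * (y 0 / √(s01 y)) * (y 1 / √(s01 y)))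
          * √((1 - Pb a y) * (1 + s01 y) / (1 + s01 y - s01 y * Pb a y)))
        (-(y 3 / √(s23 y) * ((y 0 / √(s01 y)) ^ 2 - (y 1 / √(s01 y)) ^ 2)
            + 2 * (y 2 / √(s23 y)) * (y 0 / √(s01 y)) * (y 1 / √(s01 y)))
          * √((1 - Pb a y) * (1 + s01 y) / (1 + s01 y - s01 y * Pb a y))) := by
  have hS := vbi_s01 y
  have hP0 := vbi_Pb_pos ha y
  have h1 : 0 < 1 + s01 y := by linarith
  have h2 : 0 < 1 + s01 y - s01 y * Pb a y := by nlinarith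
  have h3 : 0 < 1 - Pb a y := by linarith
  have hz : zb a y = Pb a y / (1 - Pb a y) / (1 + s01 y) := by rw [zb, vbi_rb_sq]
  have hz0 : 0 < zb a y := by rw [hz]; positivity
  have e0 : 1 + zb a y = (1 + s01 y - s01 y * Pb a y) / ((1 - Pb a y) * (1 + s01 y)) := by
    rw [hz]; field_simp; ring
  have e1 : √(s01 y) * rb a y / √(1 + s01 y) = √(s01 y * Pb a y / (1 + s01 y)) := by
    rw [Real.sqrt_div (by positivity), Real.sqrt_mul hS]; rfl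
  have e2 : √(zb a y) / √(1 + zb a y) = √(Pb a y / (1 + s01 y - s01 y * Pb a y)) := by
    rw [← Real.sqrt_div hz0.le, e0, hz]; congr 1
    obtain ⟨D, hD⟩ : ∃ D, D = 1 + s01 y - s01 y * Pb a y := ⟨_, rfl⟩
    rw [← hD] at h2
    rw [← hD]
    field_simp
  have e3 : 1 / √(1 + zb a y) = √((1 - Pb a y) * (1 + s01 y) / (1 + s01 y - s01 y * Pb a y)) := by
    rw [one_div, ← Real.sqrt_inv, e0, inv_div]
  have e4 : ∀ b c : ℝ, b / (s01 y * √(s23 y) * √(1 + zb a y)) = b / √(s23 y) / (√(s01 y)) ^ 2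
      * √((1 - Pb a y) * (1 + s01 y) / (1 + s01 y - s01 y * Pb a y)) := by
    intro b c
    rw [← e3, Real.sq_sqrt hS, div_mul_eq_div_div, div_mul_eq_div_div, div_eq_mul_one_div _ (√(1 + zb a y)),
      div_right_comm b]
  rw [PhB2, e1, mul_div_assoc (y 0 / √(s01 y)) (√(zb a y)), mul_div_assoc (-y 1 / √(s01 y)), e2,
    e4 _ 0, e4 _ 0]
  congr 2
  · ring
  · ring
  · ring


theorem vbi_main (Ψ U : ℝ → ℝ) {f : EE 4 → EE 4} {x v : EE 4} (hf : DifferentiableAt ℝ f x)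
    {Q m0 m1 k0 k1 H : ℝ → ℝ} {dQ dm0 dm1 κ dH dP ρ : ℝ}
    (hform : (fun s : ℝ => f (x + s • v)) =ᶠ[𝓝 0] fun s => (t1C + arcsin (√(Q s))) •
      v4 (m0 s) (m1 s) (k0 s * √(H s)) (k1 s * √(H s)))
    (hQ : HasDerivAt Q dQ 0) (hQ0 : 0 < Q 0) (hQ1 : Q 0 < 1) (hm0 : HasDerivAt m0 dm0 0)
    (hm1 : HasDerivAt m1 dm1 0) (hk0 : HasDerivAt k0 (-k1 0 * κ) 0) (hk1 : HasDerivAt k1 (k0 0 * κ) 0)
    (hk : k0 0 ^ 2 + k1 0 ^ 2 = 1) (hH : HasDerivAt H dH 0) (hH0 : 0 < H 0)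
    (hn : m0 0 ^ 2 + m1 0 ^ 2 + H 0 = 1) (hdn : m0 0 * dm0 + m1 0 * dm1 + dH / 2 = 0)
    (hPZ : f x ∈ PZ) (hρ : rhoP (f x) = ρ) (hρ0 : 0 < ρ)
    (hdP : (1 - Q 0) * dH - dQ * H 0 = -dP) :
    qC Ψ U (f x) (fderiv ℝ f x v) = dQ ^ 2 / (4 * Q 0 * (1 - Q 0))
      + (1 - Q 0) * (dm0 ^ 2 + dm1 ^ 2 + dH ^ 2 / (4 * H 0))
      - (1 - Q 0) ^ 2 / ρ ^ 2 * (m0 0 * dm1 - m1 0 * dm0) ^ 2
      + (1 / (1 - U ρ) - 1 / (1 - ρ ^ 2)) * (dP ^ 2 / (4 * ρ ^ 2))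
      + ρ ^ 2 * (1 - U ρ) / 4 * (κ - 2 * (1 - Q 0) / ρ ^ 2 * (m0 0 * dm1 - m1 0 * dm0)) ^ 2 := by
  have hσ : 0 < √(Q 0) := Real.sqrt_pos.2 hQ0
  have hc : 0 < √(1 - Q 0) := Real.sqrt_pos.2 (by linarith)
  have hh : 0 < √(H 0) := Real.sqrt_pos.2 hH0
  have hσ2 : √(Q 0) ^ 2 = Q 0 := Real.sq_sqrt hQ0.le
  have hc2 : √(1 - Q 0) ^ 2 = 1 - Q 0 := Real.sq_sqrt (by linarith)
  have hh2 : √(H 0) ^ 2 = H 0 := Real.sq_sqrt hH0.le
  have hσ1 : √(Q 0) ≤ 1 := by nlinarith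
  have hcos : cos (arcsin (√(Q 0))) = √(1 - Q 0) := by rw [Real.cos_arcsin, hσ2]
  have hsin : sin (arcsin (√(Q 0))) = √(Q 0) := Real.sin_arcsin (by linarith) hσ1
  have hτ : 0 < t1C + arcsin (√(Q 0)) := by
    have h1 := isCoreC.t1_pos
    have h2 : 0 < arcsin (√(Q 0)) := Real.arcsin_pos.2 hσ
    linarith
  have hD := ((vbi_arcsin hQ hQ0 hQ1).const_add t1C).smul (vbi_hasDerivAt_v4 hm0 hm1
    (hk0.mul (hH.sqrt hH0.ne')) (hk1.mul (hH.sqrt hH0.ne')))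
  have hD2 := vbi_fderiv hf (hD.congr_of_eventuallyEq hform)
  have hfx : f x = (t1C + arcsin (√(Q 0))) • v4 (m0 0) (m1 0) (k0 0 * √(H 0)) (k1 0 * √(H 0)) := by
    have := hform.self_of_nhds
    simpa using this
  have key := vbi_qC Ψ U (x := f x) (v := fderiv ℝ f x v)
    (n := v4 (m0 0) (m1 0) (k0 0 * √(H 0)) (k1 0 * √(H 0)))
    (dn := v4 dm0 dm1 (-k1 0 * κ * √(H 0) + k0 0 * (dH / (2 * √(H 0))))
      (k0 0 * κ * √(H 0) + k1 0 * (dH / (2 * √(H 0)))))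
    (τ := arcsin (√(Q 0))) (dτ := dQ / (2 * √(Q 0) * √(1 - Q 0))) (h := √(H 0))
    (dh := dH / (2 * √(H 0))) (ρ := ρ) ?_ ?_ hh ?_ ?_ hτ hfx ?_ hPZ hρ hρ0 ?_
  · rw [key, hcos, hsin]
    simp only [show ∀ a b c d : ℝ, (v4 a b c d) 0 = a from fun _ _ _ _ => rfl,
      show ∀ a b c d : ℝ, (v4 a b c d) 1 = b from fun _ _ _ _ => rfl,
      show ∀ a b c d : ℝ, (v4 a b c d) 2 = c from fun _ _ _ _ => rfl,
      show ∀ a b c d : ℝ, (v4 a b c d) 3 = d from fun _ _ _ _ => rfl]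
    have e1 : (k0 0 * √(H 0)) * (k0 0 * κ * √(H 0) + k1 0 * (dH / (2 * √(H 0))))
        - (k1 0 * √(H 0)) * (-k1 0 * κ * √(H 0) + k0 0 * (dH / (2 * √(H 0)))) = κ * √(H 0) ^ 2 := by
      linear_combination κ * √(H 0) ^ 2 * hk
    have e2 : (-k1 0 * κ * √(H 0) + k0 0 * (dH / (2 * √(H 0)))) ^ 2
        + (k0 0 * κ * √(H 0) + k1 0 * (dH / (2 * √(H 0)))) ^ 2
        = κ ^ 2 * √(H 0) ^ 2 + dH ^ 2 / (4 * H 0) := by
      have e0 : dH ^ 2 / (4 * H 0) = (dH / (2 * √(H 0))) ^ 2 := by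
        rw [div_pow, mul_pow, hh2]; norm_num
      rw [e0]
      linear_combination (κ ^ 2 * √(H 0) ^ 2 + (dH / (2 * √(H 0))) ^ 2) * hk
    have e3 : √(1 - Q 0) * √(H 0) * (√(1 - Q 0) * (dH / (2 * √(H 0)))
        - √(Q 0) * √(H 0) * (dQ / (2 * √(Q 0) * √(1 - Q 0)))) = -dP / 2 := by
      have : √(1 - Q 0) * √(H 0) * (√(1 - Q 0) * (dH / (2 * √(H 0)))
        - √(Q 0) * √(H 0) * (dQ / (2 * √(Q 0) * √(1 - Q 0))))
        = (√(1 - Q 0) ^ 2 * dH - √(H 0) ^ 2 * dQ) / 2 := by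
        field_simp
      rw [this, hc2, hh2]
      linear_combination (1 / 2 : ℝ) * hdP
    have e4 : (dQ / (2 * √(Q 0) * √(1 - Q 0))) ^ 2 = dQ ^ 2 / (4 * Q 0 * (1 - Q 0)) := by
      rw [div_pow, mul_pow, mul_pow, hσ2, hc2]; norm_num
    have e5 : dm0 ^ 2 + dm1 ^ 2 + (-k1 0 * κ * √(H 0) + k0 0 * (dH / (2 * √(H 0)))) ^ 2
        + (k0 0 * κ * √(H 0) + k1 0 * (dH / (2 * √(H 0)))) ^ 2
        = dm0 ^ 2 + dm1 ^ 2 + (κ ^ 2 * √(H 0) ^ 2 + dH ^ 2 / (4 * H 0)) := by rw [← e2]; ring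
    have e6 : √(1 - Q 0) ^ 4 = (1 - Q 0) ^ 2 := by
      rw [show √(1 - Q 0) ^ 4 = (√(1 - Q 0) ^ 2) ^ 2 by ring, hc2]
    rw [e1, e5, e3, e4, e6, hc2, hh2]
    field_simp
    ring
  · simp only [v4]
    simp
    linear_combination hn + √(H 0) ^ 2 * hk + hh2
  · simp only [v4]
    simp
    field_simp
    linear_combination (2 : ℝ) * hdn + dH * hk
  · simp only [v4]
    simp
    linear_combination √(H 0) ^ 2 * hk
  · simp only [v4]
    simp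
    field_simp
    linear_combination dH * hk
  · rw [hD2, add_comm]; rfl
  · rw [hcos]; exact hc

theorem vbi_diff1 {a : ℝ} (ha : 0 < a) {x : EE 4} (hx : x ∈ DB a (1 / 2)) (h : x ∉ T23) :
    DifferentiableAt ℝ (PhB1 a) x :=
  ((PhB1_contDiffOn ha).contDiffAt (((DB_isOpen a (1 / 2)).sdiff isClosed_T23).mem_nhds
    ⟨hx, h⟩)).differentiableAt (by simp)

theorem vbi_diff2 {a : ℝ} (ha : 0 < a) {x : EE 4} (hx : x ∈ DB a (1 / 2)) (h : x ∉ T01 ∪ T23) :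
    DifferentiableAt ℝ (PhB2 a) x :=
  ((PhB2_contDiffOn ha).contDiffAt (((DB_isOpen a (1 / 2)).sdiff
    (isClosed_T01.union isClosed_T23)).mem_nhds ⟨hx, h⟩)).differentiableAt (by simp)

theorem vbi_fin {P E S V I J R U : ℝ} (hP : 0 < P) (hE : 0 < E) (hS : 0 ≤ S)
    (hU : 1 - U = E / P ^ 2) (hR : R ^ 2 + J ^ 2 = E * V) :
    (R / P) ^ 2 / (4 * P * (1 - U)) + P * (1 - U) / 4 * (J / E + 2 * I / (1 + S)) ^ 2
      = (V + 4 * (I / (1 + S)) * J + 4 * (I / (1 + S)) ^ 2 * E) / (4 * P) := by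
  have hV : V = (R ^ 2 + J ^ 2) / E := by rw [hR]; field_simp
  have h1 : 0 < 1 + S := by linarith
  rw [hU, hV]
  field_simp
  ring

theorem vbi_U {a : ℝ} (ha : 0 < a) {x : EE 4} (hE : 0 < s23 x) {u : ℝ}
    (hU : u = a ^ 4 / (rb a x) ^ 4) : 1 - u = s23 x / Pb a x ^ 2 := by
  have hP0 := vbi_Pb_pos ha x
  rw [hU, show rb a x ^ 4 = (rb a x ^ 2) ^ 2 by ring, vbi_rb_sq, vbi_Pb_sq ha]
  have : 0 < a ^ 4 + s23 x := by positivity
  field_simp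
  ring

theorem vbi_u1 {x v : EE 4} (hE : 0 < s23 x) :
    HasDerivAt (fun s : ℝ => (x + s • v) 2 / √(s23 (x + s • v)))
      (-(x 3 / √(s23 x)) * ((x 2 * v 3 - x 3 * v 2) / s23 x)) 0 := by
  have hx0 : x + (0 : ℝ) • v = x := by simp
  refine (vbi_unit1 (vbi_comp x v 2) (vbi_comp x v 3) ?_).congr_deriv ?_
  · rw [hx0]; exact hE
  · rw [hx0]; rfl

theorem vbi_u2 {x v : EE 4} (hE : 0 < s23 x) :
    HasDerivAt (fun s : ℝ => (x + s • v) 3 / √(s23 (x + s • v)))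
      ((x 2 / √(s23 x)) * ((x 2 * v 3 - x 3 * v 2) / s23 x)) 0 := by
  have hx0 : x + (0 : ℝ) • v = x := by simp
  refine (vbi_unit2 (vbi_comp x v 2) (vbi_comp x v 3) ?_).congr_deriv ?_
  · rw [hx0]; exact hE
  · rw [hx0]; rfl

theorem vbi_w1 {x v : EE 4} (hE : 0 < s01 x) :
    HasDerivAt (fun s : ℝ => (x + s • v) 0 / √(s01 (x + s • v)))
      (-(x 1 / √(s01 x)) * ((x 0 * v 1 - x 1 * v 0) / s01 x)) 0 := by
  have hx0 : x + (0 : ℝ) • v = x := by simp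
  refine (vbi_unit1 (vbi_comp x v 0) (vbi_comp x v 1) ?_).congr_deriv ?_
  · rw [hx0]; exact hE
  · rw [hx0]; rfl

theorem vbi_w2 {x v : EE 4} (hE : 0 < s01 x) :
    HasDerivAt (fun s : ℝ => (x + s • v) 1 / √(s01 (x + s • v)))
      ((x 0 / √(s01 x)) * ((x 0 * v 1 - x 1 * v 0) / s01 x)) 0 := by
  have hx0 : x + (0 : ℝ) • v = x := by simp
  refine (vbi_unit2 (vbi_comp x v 0) (vbi_comp x v 1) ?_).congr_deriv ?_
  · rw [hx0]; exact hE
  · rw [hx0]; rfl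

theorem PhB1_isom (Ψ U : ℝ → ℝ) {a r : ℝ} (ha : 0 < a) (hr : r ≤ 1 / 2) (hr' : r ≤ sin taC) {x : EE 4}
    (hx : x ∈ DB a r) (h : x ∉ T23) (hU : U (rb a x) = a ^ 4 / (rb a x) ^ 4) (v : EE 4) :
    qC Ψ U (PhB1 a x) (fderiv ℝ (PhB1 a) x v) = qb a x v := by
  have hx2 : x ∈ DB a (1 / 2) := lt_of_lt_of_le hx hr
  have hPlt := vbi_Pb_lt hx2
  have hP0 := vbi_Pb_pos ha x
  have hS0 := vbi_s01 x
  have hE : 0 < s23 x := not_mem_T23.1 h
  have hPd := vbi_Pb_deriv ha x v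
  have hSd := vbi_s01_deriv x v
  have hx0 : x + (0 : ℝ) • v = x := by simp
  have hρ0 := vbi_rb_pos ha x
  have h1 : 0 < 1 + s01 x := by linarith
  have h2 : 0 < 1 + s01 x - Pb a x := by linarith
  have h3 : 0 < 1 - Pb a x := by linarith
  have hev : ∀ᶠ s : ℝ in 𝓝 0, Pb a (x + s • v) < 1 := by
    refine hPd.continuousAt.eventually_lt continuousAt_const ?_
    rw [hx0]; linarith
  have hQd := hPd.fun_div (hSd.const_add 1) (by rw [hx0]; exact h1.ne')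
  have hGd := hPd.fun_div ((hSd.const_add 1).fun_sub hPd) (by rw [hx0]; exact h2.ne')
  have hHd := ((hPd.const_sub 1).fun_mul (hSd.const_add 1)).fun_div ((hSd.const_add 1).fun_sub hPd)
    (by rw [hx0]; exact h2.ne')
  simp only [hx0] at hQd hGd hHd
  have hG0 : 0 < Pb a x / (1 + s01 x - Pb a x) := by positivity
  have hH0 : 0 < (1 - Pb a x) * (1 + s01 x) / (1 + s01 x - Pb a x) := by positivity
  have hQ0 : 0 < Pb a x / (1 + s01 x) := by positivity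
  have hQ1 : Pb a x / (1 + s01 x) < 1 := by rw [div_lt_one h1]; linarith
  have hgd := hGd.sqrt (by rw [hx0]; exact hG0.ne')
  simp only [hx0] at hgd
  set dP := (x 2 * v 2 + x 3 * v 3) / Pb a x with hdP
  set dS := 2 * (x 0 * v 0 + x 1 * v 1) with hdS
  set g := √(Pb a x / (1 + s01 x - Pb a x)) with hg
  have hg0 : 0 < g := Real.sqrt_pos.2 hG0
  have hg2 : g ^ 2 = Pb a x / (1 + s01 x - Pb a x) := Real.sq_sqrt hG0.le
  obtain ⟨dQ, hdQ⟩ : ∃ dQ, dQ = (dP * (1 + s01 x) - Pb a x * dS) / (1 + s01 x) ^ 2 := ⟨_, rfl⟩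
  obtain ⟨dG, hdG⟩ : ∃ dG, dG = (dP * (1 + s01 x - Pb a x) - Pb a x * (dS - dP))
    / (1 + s01 x - Pb a x) ^ 2 := ⟨_, rfl⟩
  obtain ⟨dH, hdH⟩ : ∃ dH, dH = ((-dP * (1 + s01 x) + (1 - Pb a x) * dS) * (1 + s01 x - Pb a x)
    - (1 - Pb a x) * (1 + s01 x) * (dS - dP)) / (1 + s01 x - Pb a x) ^ 2 := ⟨_, rfl⟩
  rw [← hdQ] at hQd
  rw [← hdG] at hgd
  rw [← hdH] at hHd
  have key := vbi_main Ψ U (f := PhB1 a) (x := x) (v := v) (vbi_diff1 ha hx2 h)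
    (Q := fun s => Pb a (x + s • v) / (1 + s01 (x + s • v)))
    (m0 := fun s => (x + s • v) 0 * √(Pb a (x + s • v) / (1 + s01 (x + s • v) - Pb a (x + s • v))))
    (m1 := fun s => (x + s • v) 1 * √(Pb a (x + s • v) / (1 + s01 (x + s • v) - Pb a (x + s • v))))
    (k0 := fun s => (x + s • v) 2 / √(s23 (x + s • v)))
    (k1 := fun s => -((x + s • v) 3 / √(s23 (x + s • v))))
    (H := fun s => (1 - Pb a (x + s • v)) * (1 + s01 (x + s • v))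
      / (1 + s01 (x + s • v) - Pb a (x + s • v)))
    (dQ := dQ) (dm0 := v 0 * g + x 0 * (dG / (2 * g))) (dm1 := v 1 * g + x 1 * (dG / (2 * g)))
    (κ := -((x 2 * v 3 - x 3 * v 2) / s23 x)) (dH := dH) (dP := dP) (ρ := rb a x)
    (hev.mono fun s hs => vbi_B1_form ha hs) hQd (by simp only [hx0]; exact hQ0)
    (by simp only [hx0]; exact hQ1) (((vbi_comp x v 0).fun_mul hgd).congr_deriv (by rw [hx0]))
    (((vbi_comp x v 1).fun_mul hgd).congr_deriv (by rw [hx0]))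
    ((vbi_u1 hE).congr_deriv (by simp only [hx0]; ring))
    ((vbi_u2 hE).fun_neg.congr_deriv (by simp only [hx0]; ring)) ?_ hHd
    (by simp only [hx0]; exact hH0) ?_ ?_ (PhB1_mem ha hr hr' hx h).1 (PhB1_rho ha hx2 h) hρ0 ?_
  · rw [key]
    simp only [hx0]
    rw [← hg]
    have hI : (x 0 * v 1 - x 1 * v 0) ^ 2 = s01 x * (v 0 ^ 2 + v 1 ^ 2) - dS ^ 2 / 4 := by
      rw [hdS, s01]; ring
    have e1 : x 0 * g * (v 1 * g + x 1 * (dG / (2 * g))) - x 1 * g * (v 0 * g + x 0 * (dG / (2 * g)))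
        = Pb a x / (1 + s01 x - Pb a x) * (x 0 * v 1 - x 1 * v 0) := by rw [← hg2]; ring
    have e2 : (v 0 * g + x 0 * (dG / (2 * g))) ^ 2 + (v 1 * g + x 1 * (dG / (2 * g))) ^ 2
        = Pb a x / (1 + s01 x - Pb a x) * (v 0 ^ 2 + v 1 ^ 2) + dG / 2 * dS
          + s01 x * (dG ^ 2 / (4 * (Pb a x / (1 + s01 x - Pb a x)))) := by
      rw [← hg2, hdS, s01]
      field_simp
      ring
    have alg := vbi_alg1 (P := Pb a x) (S := s01 x) (dP := dP) (dS := dS) (W := v 0 ^ 2 + v 1 ^ 2)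
      hP0 (by linarith) hS0 rfl hdQ rfl hdG rfl hdH
    have fin := vbi_fin (P := Pb a x) (E := s23 x) (S := s01 x)
      (V := v 2 ^ 2 + v 3 ^ 2) (I := x 0 * v 1 - x 1 * v 0) (J := x 2 * v 3 - x 3 * v 2)
      (R := x 2 * v 2 + x 3 * v 3) (U := U (rb a x)) hP0 hE hS0 (vbi_U ha hE hU)
      (by rw [s23]; ring)
    rw [e1, e2, vbi_rb_sq]
    have e3 : (1 - Pb a x / (1 + s01 x)) ^ 2 / Pb a x
        * (Pb a x / (1 + s01 x - Pb a x) * (x 0 * v 1 - x 1 * v 0)) ^ 2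
        = (s01 x * (v 0 ^ 2 + v 1 ^ 2) - dS ^ 2 / 4) * Pb a x / (1 + s01 x) ^ 2 := by
      rw [mul_pow, hI]
      field_simp
    have e4 : 2 * (1 - Pb a x / (1 + s01 x)) / Pb a x
        * (Pb a x / (1 + s01 x - Pb a x) * (x 0 * v 1 - x 1 * v 0))
        = 2 * (x 0 * v 1 - x 1 * v 0) / (1 + s01 x) := by
      field_simp
    rw [e3, e4]
    have e5 : (-((x 2 * v 3 - x 3 * v 2) / s23 x) - 2 * (x 0 * v 1 - x 1 * v 0) / (1 + s01 x)) ^ 2
        = ((x 2 * v 3 - x 3 * v 2) / s23 x + 2 * (x 0 * v 1 - x 1 * v 0) / (1 + s01 x)) ^ 2 := by ring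
    rw [e5, qb, vbi_rb_sq]
    have hU0 : 1 - U (rb a x) ≠ 0 := by
      rw [vbi_U ha hE hU]; positivity
    have e6 : (1 / (1 - U (rb a x)) - 1 / (1 - Pb a x)) * (dP ^ 2 / (4 * Pb a x))
        = dP ^ 2 / (4 * Pb a x * (1 - U (rb a x))) - dP ^ 2 / (4 * Pb a x * (1 - Pb a x)) := by
      field_simp
    rw [e6]
    rw [← hdP] at fin
    linear_combination alg + fin
  · simp only [hx0]
    rw [neg_sq, div_pow, div_pow, Real.sq_sqrt hE.le, ← add_div]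
    exact div_self hE.ne'
  · simp only [hx0]
    rw [← hg, mul_pow, mul_pow, hg2]
    rw [show x 0 ^ 2 * (Pb a x / (1 + s01 x - Pb a x)) + x 1 ^ 2 * (Pb a x / (1 + s01 x - Pb a x))
      = s01 x * (Pb a x / (1 + s01 x - Pb a x)) by rw [s01]; ring]
    field_simp
    ring
  · simp only [hx0]
    rw [← hg]
    have e1 : x 0 * g * (v 0 * g + x 0 * (dG / (2 * g))) + x 1 * g * (v 1 * g + x 1 * (dG / (2 * g)))
      = Pb a x / (1 + s01 x - Pb a x) * (dS / 2) + s01 x * (dG / 2) := by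
      rw [← hg2, hdS, s01]; field_simp; ring
    rw [e1, hdG, hdH]
    field_simp
    ring
  · simp only [hx0]
    rw [hdH, hdQ]
    field_simp
    ring

theorem PhB2_isom (Ψ U : ℝ → ℝ) {a r : ℝ} (ha : 0 < a) (hr : r ≤ 1 / 2) (hr' : r ≤ sin taC) {x : EE 4}
    (hx : x ∈ DB a r) (h : x ∉ T01 ∪ T23) (hU : U (rb a x) = a ^ 4 / (rb a x) ^ 4) (v : EE 4) :
    qC Ψ U (PhB2 a x) (fderiv ℝ (PhB2 a) x v) = qb a x v := by
  have hx2 : x ∈ DB a (1 / 2) := lt_of_lt_of_le hx hr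
  have hPlt := vbi_Pb_lt hx2
  have hP0 := vbi_Pb_pos ha x
  have hT01 : x ∉ T01 := fun hh => h (Or.inl hh)
  have hT23 : x ∉ T23 := fun hh => h (Or.inr hh)
  have hS0 : 0 < s01 x := not_mem_T01.1 hT01
  have hE : 0 < s23 x := not_mem_T23.1 hT23
  have hPd := vbi_Pb_deriv ha x v
  have hSd := vbi_s01_deriv x v
  have hx0 : x + (0 : ℝ) • v = x := by simp
  have hρ0 := vbi_rb_pos ha x
  have h1 : 0 < 1 + s01 x := by linarith
  have h2 : 0 < 1 + s01 x - s01 x * Pb a x := by nlinarith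
  have h3 : 0 < 1 - Pb a x := by linarith
  have hev : ∀ᶠ s : ℝ in 𝓝 0, Pb a (x + s • v) < 1 := by
    refine hPd.continuousAt.eventually_lt continuousAt_const ?_
    rw [hx0]; linarith
  have hQd := (hSd.fun_mul hPd).fun_div (hSd.const_add 1) (by rw [hx0]; exact h1.ne')
  have hGd := hPd.fun_div ((hSd.const_add 1).fun_sub (hSd.fun_mul hPd)) (by rw [hx0]; exact h2.ne')
  have hHd := ((hPd.const_sub 1).fun_mul (hSd.const_add 1)).fun_div
    ((hSd.const_add 1).fun_sub (hSd.fun_mul hPd)) (by rw [hx0]; exact h2.ne')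
  simp only [hx0] at hQd hGd hHd
  have hG0 : 0 < Pb a x / (1 + s01 x - s01 x * Pb a x) := div_pos hP0 h2
  have hH0 : 0 < (1 - Pb a x) * (1 + s01 x) / (1 + s01 x - s01 x * Pb a x) :=
    div_pos (mul_pos h3 h1) h2
  have hQ0 : 0 < s01 x * Pb a x / (1 + s01 x) := by positivity
  have hQ1 : s01 x * Pb a x / (1 + s01 x) < 1 := by rw [div_lt_one h1]; linarith
  have hgd := hGd.sqrt (by rw [hx0]; exact hG0.ne')
  simp only [hx0] at hgd
  set dP := (x 2 * v 2 + x 3 * v 3) / Pb a x with hdP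
  set dS := 2 * (x 0 * v 0 + x 1 * v 1) with hdS
  set g := √(Pb a x / (1 + s01 x - s01 x * Pb a x)) with hg
  have hg0 : 0 < g := Real.sqrt_pos.2 hG0
  have hg2 : g ^ 2 = Pb a x / (1 + s01 x - s01 x * Pb a x) := Real.sq_sqrt hG0.le
  obtain ⟨dQ, hdQ⟩ : ∃ dQ, dQ = ((dS * Pb a x + s01 x * dP) * (1 + s01 x) - s01 x * Pb a x * dS)
    / (1 + s01 x) ^ 2 := ⟨_, rfl⟩
  obtain ⟨dG, hdG⟩ : ∃ dG, dG = (dP * (1 + s01 x - s01 x * Pb a x)
    - Pb a x * (dS - (dS * Pb a x + s01 x * dP))) / (1 + s01 x - s01 x * Pb a x) ^ 2 := ⟨_, rfl⟩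
  obtain ⟨dH, hdH⟩ : ∃ dH, dH = ((-dP * (1 + s01 x) + (1 - Pb a x) * dS)
    * (1 + s01 x - s01 x * Pb a x) - (1 - Pb a x) * (1 + s01 x) * (dS - (dS * Pb a x + s01 x * dP)))
    / (1 + s01 x - s01 x * Pb a x) ^ 2 := ⟨_, rfl⟩
  rw [← hdQ] at hQd
  rw [← hdG] at hgd
  rw [← hdH] at hHd
  obtain ⟨IS, hIS⟩ : ∃ IS, IS = (x 0 * v 1 - x 1 * v 0) / s01 x := ⟨_, rfl⟩
  obtain ⟨JE, hJE⟩ : ∃ JE, JE = (x 2 * v 3 - x 3 * v 2) / s23 x := ⟨_, rfl⟩
  have hw1 := vbi_w1 (v := v) hS0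
  have hw2 := vbi_w2 (v := v) hS0
  have hu1 := vbi_u1 (v := v) hE
  have hu2 := vbi_u2 (v := v) hE
  rw [← hIS] at hw1 hw2
  rw [← hJE] at hu1 hu2
  obtain ⟨w0, hw0⟩ : ∃ w0, w0 = x 0 / √(s01 x) := ⟨_, rfl⟩
  obtain ⟨w1, hw1'⟩ : ∃ w1, w1 = x 1 / √(s01 x) := ⟨_, rfl⟩
  obtain ⟨u2, hu2'⟩ : ∃ u2, u2 = x 2 / √(s23 x) := ⟨_, rfl⟩
  obtain ⟨u3, hu3'⟩ : ∃ u3, u3 = x 3 / √(s23 x) := ⟨_, rfl⟩
  have hww : w0 ^ 2 + w1 ^ 2 = 1 := by
    rw [hw0, hw1', div_pow, div_pow, Real.sq_sqrt hS0.le, ← add_div]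
    exact div_self hS0.ne'
  have huu : u2 ^ 2 + u3 ^ 2 = 1 := by
    rw [hu2', hu3', div_pow, div_pow, Real.sq_sqrt hE.le, ← add_div]
    exact div_self hE.ne'
  rw [← hw1'] at hw1
  rw [← hw0] at hw2
  rw [← hu3'] at hu1
  rw [← hu2'] at hu2
  have key := vbi_main Ψ U (f := PhB2 a) (x := x) (v := v) (vbi_diff2 ha hx2 h)
    (Q := fun s => s01 (x + s • v) * Pb a (x + s • v) / (1 + s01 (x + s • v)))
    (m0 := fun s => (x + s • v) 0 / √(s01 (x + s • v)) *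
      √(Pb a (x + s • v) / (1 + s01 (x + s • v) - s01 (x + s • v) * Pb a (x + s • v))))
    (m1 := fun s => -((x + s • v) 1 / √(s01 (x + s • v))) *
      √(Pb a (x + s • v) / (1 + s01 (x + s • v) - s01 (x + s • v) * Pb a (x + s • v))))
    (k0 := fun s => (x + s • v) 2 / √(s23 (x + s • v)) * (((x + s • v) 0 / √(s01 (x + s • v))) ^ 2
        - ((x + s • v) 1 / √(s01 (x + s • v))) ^ 2) - 2 * ((x + s • v) 3 / √(s23 (x + s • v))) *
        ((x + s • v) 0 / √(s01 (x + s • v))) * ((x + s • v) 1 / √(s01 (x + s • v))))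
    (k1 := fun s => -((x + s • v) 3 / √(s23 (x + s • v)) * (((x + s • v) 0 / √(s01 (x + s • v))) ^ 2
        - ((x + s • v) 1 / √(s01 (x + s • v))) ^ 2) + 2 * ((x + s • v) 2 / √(s23 (x + s • v))) *
        ((x + s • v) 0 / √(s01 (x + s • v))) * ((x + s • v) 1 / √(s01 (x + s • v)))))
    (H := fun s => (1 - Pb a (x + s • v)) * (1 + s01 (x + s • v))
      / (1 + s01 (x + s • v) - s01 (x + s • v) * Pb a (x + s • v)))
    (dQ := dQ) (dm0 := -w1 * IS * g + w0 * (dG / (2 * g)))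
    (dm1 := -(w0 * IS) * g + -w1 * (dG / (2 * g)))
    (κ := -JE - 2 * IS) (dH := dH) (dP := dP) (ρ := rb a x)
    (hev.mono fun s hs => vbi_B2_form ha hs) hQd (by simp only [hx0]; exact hQ0)
    (by simp only [hx0]; exact hQ1) ((hw1.fun_mul hgd).congr_deriv (by rw [hx0, ← hw0]))
    ((hw2.fun_neg.fun_mul hgd).congr_deriv (by rw [hx0, ← hw1']))
    (((hu1.fun_mul ((hw1.fun_pow 2).fun_sub (hw2.fun_pow 2))).fun_sub
      (((hu2.const_mul 2).fun_mul hw1).fun_mul hw2)).congr_deriv ?_)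
    ((((hu2.fun_mul ((hw1.fun_pow 2).fun_sub (hw2.fun_pow 2))).fun_add
      (((hu1.const_mul 2).fun_mul hw1).fun_mul hw2)).fun_neg).congr_deriv ?_) ?_ hHd
    (by simp only [hx0]; exact hH0) ?_ ?_ (PhB2_mem ha hr hr' hx h).1 (PhB2_rho ha hx2 h) hρ0 ?_
  · rw [key]
    simp only [hx0]
    rw [← hg, ← hw0, ← hw1']
    have hI : (x 0 * v 1 - x 1 * v 0) ^ 2 = s01 x * (v 0 ^ 2 + v 1 ^ 2) - dS ^ 2 / 4 := by
      rw [hdS, s01]; ring
    have e1 : w0 * g * (-(w0 * IS) * g + -w1 * (dG / (2 * g))) -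
        -w1 * g * (-w1 * IS * g + w0 * (dG / (2 * g)))
        = -(Pb a x / (1 + s01 x - s01 x * Pb a x) * IS) := by
      rw [← hg2]
      linear_combination (-(g ^ 2 * IS)) * hww
    have e2 : (-w1 * IS * g + w0 * (dG / (2 * g))) ^ 2 + (-(w0 * IS) * g + -w1 * (dG / (2 * g))) ^ 2
        = dG ^ 2 / (4 * (Pb a x / (1 + s01 x - s01 x * Pb a x)))
          + Pb a x / (1 + s01 x - s01 x * Pb a x) * IS ^ 2 := by
      rw [← hg2]
      have : dG ^ 2 / (4 * g ^ 2) = (dG / (2 * g)) ^ 2 := by rw [div_pow, mul_pow]; norm_num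
      rw [this]
      linear_combination (g ^ 2 * IS ^ 2 + (dG / (2 * g)) ^ 2) * hww
    have alg := vbi_alg2 (P := Pb a x) (S := s01 x) (dP := dP) (dS := dS)
      (I := x 0 * v 1 - x 1 * v 0) (W := v 0 ^ 2 + v 1 ^ 2)
      hP0 (by linarith) hS0 rfl hdQ rfl hdG rfl hdH hI
    have fin := vbi_fin (P := Pb a x) (E := s23 x) (S := s01 x)
      (V := v 2 ^ 2 + v 3 ^ 2) (I := x 0 * v 1 - x 1 * v 0) (J := x 2 * v 3 - x 3 * v 2)
      (R := x 2 * v 2 + x 3 * v 3) (U := U (rb a x)) hP0 hE hS0.le (vbi_U ha hE hU)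
      (by rw [s23]; ring)
    rw [← hIS] at alg
    rw [e1, e2, vbi_rb_sq]
    have e3 : (1 - s01 x * Pb a x / (1 + s01 x)) ^ 2 / Pb a x
        * (-(Pb a x / (1 + s01 x - s01 x * Pb a x) * IS)) ^ 2
        = Pb a x / (1 + s01 x) ^ 2 * IS ^ 2 := by
      have : 1 - s01 x * Pb a x / (1 + s01 x) = (1 + s01 x - s01 x * Pb a x) / (1 + s01 x) := by
        field_simp
      rw [this]
      obtain ⟨D, hD⟩ : ∃ D, D = 1 + s01 x - s01 x * Pb a x := ⟨_, rfl⟩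
      rw [← hD] at h2
      rw [← hD]
      field_simp
    have e4 : 2 * (1 - s01 x * Pb a x / (1 + s01 x)) / Pb a x
        * -(Pb a x / (1 + s01 x - s01 x * Pb a x) * IS) = -(2 * IS / (1 + s01 x)) := by
      have : 1 - s01 x * Pb a x / (1 + s01 x) = (1 + s01 x - s01 x * Pb a x) / (1 + s01 x) := by
        field_simp
      rw [this]
      obtain ⟨D, hD⟩ : ∃ D, D = 1 + s01 x - s01 x * Pb a x := ⟨_, rfl⟩
      rw [← hD] at h2
      rw [← hD]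
      field_simp
    rw [e3, e4]
    have e5 : (-JE - 2 * IS - -(2 * IS / (1 + s01 x))) ^ 2
        = ((x 2 * v 3 - x 3 * v 2) / s23 x + 2 * (x 0 * v 1 - x 1 * v 0) / (1 + s01 x)) ^ 2 := by
      rw [hJE, hIS]
      field_simp
      ring
    rw [e5, qb, vbi_rb_sq]
    have hU0 : 1 - U (rb a x) ≠ 0 := by
      rw [vbi_U ha hE hU]; positivity
    have e6 : (1 / (1 - U (rb a x)) - 1 / (1 - Pb a x)) * (dP ^ 2 / (4 * Pb a x))
        = dP ^ 2 / (4 * Pb a x * (1 - U (rb a x))) - dP ^ 2 / (4 * Pb a x * (1 - Pb a x)) := by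
      field_simp
    rw [e6]
    rw [← hdP] at fin
    linear_combination alg + fin
  · simp only [hx0, ← hw0, ← hw1', ← hu2', ← hu3']
    push_cast
    ring
  · simp only [hx0, ← hw0, ← hw1', ← hu2', ← hu3']
    push_cast
    ring
  · simp only [hx0, ← hw0, ← hw1', ← hu2', ← hu3']
    linear_combination (w0 ^ 2 + w1 ^ 2) ^ 2 * huu + (w0 ^ 2 + w1 ^ 2 + 1) * hww
  · simp only [hx0]
    rw [← hg, ← hw0, ← hw1', mul_pow, mul_pow, hg2]
    have e : w0 ^ 2 * (Pb a x / (1 + s01 x - s01 x * Pb a x))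
      + (-w1) ^ 2 * (Pb a x / (1 + s01 x - s01 x * Pb a x))
      = Pb a x / (1 + s01 x - s01 x * Pb a x) := by
      linear_combination (Pb a x / (1 + s01 x - s01 x * Pb a x)) * hww
    rw [e, ← add_div, div_eq_one_iff_eq h2.ne']
    ring
  · simp only [hx0]
    rw [← hg, ← hw0, ← hw1']
    have e1 : w0 * g * (-w1 * IS * g + w0 * (dG / (2 * g)))
      + -w1 * g * (-(w0 * IS) * g + -w1 * (dG / (2 * g))) = dG / 2 := by
      have : w0 * g * (-w1 * IS * g + w0 * (dG / (2 * g)))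
        + -w1 * g * (-(w0 * IS) * g + -w1 * (dG / (2 * g))) = (w0 ^ 2 + w1 ^ 2) * (dG / 2) := by
        field_simp
        ring
      rw [this, hww, one_mul]
    rw [e1, hdG, hdH]
    obtain ⟨D, hD⟩ : ∃ D, D = 1 + s01 x - s01 x * Pb a x := ⟨_, rfl⟩
    rw [← hD] at h2
    rw [← hD]
    field_simp
    rw [hD]
    ring
  · simp only [hx0]
    rw [hdH, hdQ]
    obtain ⟨D, hD⟩ : ∃ D, D = 1 + s01 x - s01 x * Pb a x := ⟨_, rfl⟩
    rw [← hD] at h2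
    rw [← hD]
    field_simp
    rw [hD]
    ring

/-- every point of the P-zone outside the cap is covered by one of the two charts with `|om| ≤ 1` -/
theorem PhB_surj {a : ℝ} (ha : 0 < a) {x : EE 4} (hx : x ∈ PZ) (hU : x ∈ Uc a) :
    (∃ y, y ∉ T23 ∧ rb a y = rhoP x ∧ s01 y ≤ 1 ∧ PhB1 a y = x) ∨
    (∃ y, y ∉ T01 ∪ T23 ∧ rb a y = rhoP x ∧ s01 y ≤ 1 ∧ PhB2 a y = x) := by
  obtain ⟨hL, hUr, hcap⟩ := hU
  obtain ⟨htc, hρh⟩ := id hx
  have hρa : a < rhoP x := by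
    by_contra hcon
    exact hcap ⟨hx, not_lt.1 hcon⟩
  have ht1 := isCoreC.t1_pos
  have hta := isCoreC.ta_le
  have hpi := Real.pi_gt_three
  have hL0 : 0 < ‖x‖ := ht1.trans hL
  obtain ⟨L, hLd⟩ : ∃ L, L = ‖x‖ := ⟨_, rfl⟩
  obtain ⟨τ, hτd⟩ : ∃ τ, τ = tc x := ⟨_, rfl⟩
  obtain ⟨ρ, hρd⟩ : ∃ ρ, ρ = rhoP x := ⟨_, rfl⟩
  rw [← hρd] at hρh hρa
  rw [← hτd] at htc
  rw [← hLd] at hL hL0
  have hτL : t1C + τ = L := by rw [hτd, tc, hLd]; ring
  have hτ0 : 0 < τ := by linarith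
  have hs : 0 < sin τ := Real.sin_pos_of_pos_of_lt_pi hτ0 (by linarith)
  have hc : 0 < cos τ := Real.cos_pos_of_mem_Ioo ⟨by linarith, by linarith⟩
  have hsc : sin τ ^ 2 + cos τ ^ 2 = 1 := Real.sin_sq_add_cos_sq τ
  have hUr0 : 0 < Ur x := lt_of_le_of_ne (Real.sqrt_nonneg _) (Ne.symm hUr)
  obtain ⟨h, hhd⟩ : ∃ h, h = Ur x / L := ⟨_, rfl⟩
  have hh : 0 < h := by rw [hhd]; positivity
  have hn3 : n3 x = h := by rw [n3, hhd, hLd]
  obtain ⟨n0, hn0⟩ : ∃ n0, n0 = x 0 / L := ⟨_, rfl⟩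
  obtain ⟨n1, hn1⟩ : ∃ n1, n1 = x 1 / L := ⟨_, rfl⟩
  obtain ⟨n2, hn2⟩ : ∃ n2, n2 = x 2 / L := ⟨_, rfl⟩
  obtain ⟨n3', hn3'⟩ : ∃ n3', n3' = x 3 / L := ⟨_, rfl⟩
  have hn23 : n2 ^ 2 + n3' ^ 2 = h ^ 2 := by
    rw [hn2, hn3', hhd, Ur, div_pow, div_pow, div_pow, Real.sq_sqrt (by positivity)]; ring
  have hnn : n0 ^ 2 + n1 ^ 2 + h ^ 2 = 1 := by
    rw [← hn23, hn0, hn1, hn2, hn3']
    have := vbi_norm_sq x
    rw [← hLd] at this
    field_simp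
    linarith
  have hxe : x = L • v4 n0 n1 n2 n3' := by
    ext i
    fin_cases i
    · simp [v4, hn0]; field_simp
    · simp [v4, hn1]; field_simp
    · simp [v4, hn2]; field_simp
    · simp [v4, hn3']; field_simp
  have hρ0 : 0 < ρ := ha.trans hρa
  have hρ2 : ρ ^ 2 = 1 - cos τ ^ 2 * h ^ 2 := by
    rw [hρd, rhoP, ← hτd, hn3, Real.sq_sqrt]
    have q0 := sq_nonneg n0
    have q1 := sq_nonneg n1
    have q2 := sq_nonneg (sin τ)
    have q3 : h ^ 2 ≤ 1 := by linarith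
    have q4 : cos τ ^ 2 ≤ 1 := by linarith
    have q5 := mul_le_mul q4 q3 (sq_nonneg h) zero_le_one
    linarith
  obtain ⟨P, hP⟩ : ∃ P, P = ρ ^ 2 := ⟨_, rfl⟩
  have hP0 : 0 < P := by rw [hP]; positivity
  have hP1 : P < 1 := by rw [hP]; exact pow_lt_one₀ hρ0.le (by linarith) two_ne_zero
  have hPs : P - sin τ ^ 2 = cos τ ^ 2 * (n0 ^ 2 + n1 ^ 2) := by
    rw [hP, hρ2]; linear_combination -(cos τ ^ 2) * hnn - hsc
  have hh2 : (1 - P) / cos τ ^ 2 = h ^ 2 := by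
    rw [hP, hρ2]; field_simp; ring
  have hPa : 0 < P ^ 2 - a ^ 4 := by
    have h1 : a ^ 2 < P := by rw [hP]; exact pow_lt_pow_left₀ hρa ha.le two_ne_zero
    have h2 : (a ^ 2) ^ 2 < P ^ 2 := pow_lt_pow_left₀ h1 (sq_nonneg a) two_ne_zero
    have h3 : a ^ 4 = (a ^ 2) ^ 2 := by ring
    linarith
  obtain ⟨e, he⟩ : ∃ e, e = √(P ^ 2 - a ^ 4) := ⟨_, rfl⟩
  have he0 : 0 < e := by rw [he]; exact Real.sqrt_pos.2 hPa
  have he2 : e ^ 2 = P ^ 2 - a ^ 4 := by rw [he]; exact Real.sq_sqrt hPa.le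
  have harc : arcsin (sin τ) = τ := Real.arcsin_sin (by linarith) (by linarith)
  rcases le_or_gt (P - sin τ ^ 2) (sin τ ^ 2) with hA | hB
  · left
    obtain ⟨y, hy⟩ : ∃ y, y = v4 (n0 * cos τ / sin τ) (n1 * cos τ / sin τ) (e * (n2 / h))
      (-(e * (n3' / h))) := ⟨_, rfl⟩
    have hy0 : y 0 = n0 * cos τ / sin τ := by rw [hy]; rfl
    have hy1 : y 1 = n1 * cos τ / sin τ := by rw [hy]; rfl
    have hy2 : y 2 = e * (n2 / h) := by rw [hy]; rfl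
    have hy3 : y 3 = -(e * (n3' / h)) := by rw [hy]; rfl
    have hS : s01 y = (P - sin τ ^ 2) / sin τ ^ 2 := by
      rw [s01, hy0, hy1, hPs]; field_simp
    have hE : s23 y = e ^ 2 := by
      rw [s23, hy2, hy3]
      field_simp
      linear_combination hn23
    have hPb : Pb a y = P := by
      rw [Pb, hE, he2, show a ^ 4 + (P ^ 2 - a ^ 4) = P ^ 2 by ring, Real.sqrt_sq hP0.le]
    have h1S : 1 + s01 y = P / sin τ ^ 2 := by rw [hS]; field_simp; ring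
    have hG : P / (1 + s01 y - P) = (sin τ / cos τ) ^ 2 := by
      have e1 : 1 + s01 y - P = P * cos τ ^ 2 / sin τ ^ 2 := by
        rw [h1S]; field_simp; linarith
      rw [e1]; field_simp
    have hQ : P / (1 + s01 y) = sin τ ^ 2 := by rw [h1S]; field_simp
    have hH : (1 - P) * (1 + s01 y) / (1 + s01 y - P) = h ^ 2 := by
      have e1 : 1 + s01 y - P = P * cos τ ^ 2 / sin τ ^ 2 := by
        rw [h1S]; field_simp; linarith
      rw [← hh2, e1, h1S]; field_simp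
    refine ⟨y, ?_, ?_, ?_, ?_⟩
    · rw [not_mem_T23, hE]; positivity
    · rw [vbi_rb, hPb, hP, Real.sqrt_sq hρ0.le, hρd]
    · rw [hS, div_le_one (by positivity)]; exact hA
    · rw [vbi_B1_form ha (by rw [hPb]; exact hP1), hPb, hQ, hG, hH, hE, Real.sqrt_sq hs.le,
        Real.sqrt_sq (by positivity), Real.sqrt_sq hh.le, Real.sqrt_sq he0.le, harc, hτL, hy0, hy1,
        hy2, hy3]
      conv_rhs => rw [hxe]
      congr 2
      · field_simp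
      · field_simp
      · field_simp
      · field_simp
  · right
    have hm0 : 0 < n0 ^ 2 + n1 ^ 2 := by
      have : 0 < cos τ ^ 2 * (n0 ^ 2 + n1 ^ 2) := by
        rw [← hPs]; have := sq_nonneg (sin τ); linarith
      exact pos_of_mul_pos_right this (by positivity)
    obtain ⟨m, hmd⟩ : ∃ m, m = √(n0 ^ 2 + n1 ^ 2) := ⟨_, rfl⟩
    have hm : 0 < m := by rw [hmd]; exact Real.sqrt_pos.2 hm0
    have hm2 : m ^ 2 = n0 ^ 2 + n1 ^ 2 := by rw [hmd]; exact Real.sq_sqrt hm0.le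
    rw [← hm2] at hPs
    obtain ⟨c2, hc2⟩ : ∃ c2, c2 = (n0 ^ 2 - n1 ^ 2) / m ^ 2 := ⟨_, rfl⟩
    obtain ⟨s2, hs2⟩ : ∃ s2, s2 = -(2 * n0 * n1) / m ^ 2 := ⟨_, rfl⟩
    have hcs : c2 ^ 2 + s2 ^ 2 = 1 := by
      rw [hc2, hs2, div_pow, div_pow, ← add_div, div_eq_one_iff_eq (by positivity), hm2]
      ring
    obtain ⟨y, hy⟩ : ∃ y, y = v4 (n0 * sin τ / (cos τ * m ^ 2)) (-(n1 * sin τ / (cos τ * m ^ 2)))
      (e * ((n2 * c2 - n3' * s2) / h)) (-(e * ((n3' * c2 + n2 * s2) / h))) := ⟨_, rfl⟩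
    have hy0 : y 0 = n0 * sin τ / (cos τ * m ^ 2) := by rw [hy]; rfl
    have hy1 : y 1 = -(n1 * sin τ / (cos τ * m ^ 2)) := by rw [hy]; rfl
    have hy2 : y 2 = e * ((n2 * c2 - n3' * s2) / h) := by rw [hy]; rfl
    have hy3 : y 3 = -(e * ((n3' * c2 + n2 * s2) / h)) := by rw [hy]; rfl
    have hS : s01 y = (sin τ / (cos τ * m)) ^ 2 := by
      rw [s01, hy0, hy1]; field_simp; linear_combination -hm2
    have hE : s23 y = e ^ 2 := by
      rw [s23, hy2, hy3]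
      field_simp
      linear_combination (n2 ^ 2 + n3' ^ 2) * hcs + hn23
    have hPb : Pb a y = P := by
      rw [Pb, hE, he2, show a ^ 4 + (P ^ 2 - a ^ 4) = P ^ 2 by ring, Real.sqrt_sq hP0.le]
    have h1S : 1 + s01 y = P / (cos τ * m) ^ 2 := by
      rw [hS]; field_simp; linear_combination -hPs
    have e1 : 1 + s01 y - s01 y * P = P / m ^ 2 := by
      rw [h1S, hS]; field_simp; linear_combination -hsc
    have hG : P / (1 + s01 y - s01 y * P) = m ^ 2 := by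
      rw [e1]; field_simp
    have hQ : s01 y * P / (1 + s01 y) = sin τ ^ 2 := by rw [h1S, hS]; field_simp
    have hH : (1 - P) * (1 + s01 y) / (1 + s01 y - s01 y * P) = h ^ 2 := by
      rw [← hh2, e1, h1S]; field_simp
    have hS0 : 0 < s01 y := by rw [hS]; positivity
    have hsS : √(s01 y) = sin τ / (cos τ * m) := by rw [hS, Real.sqrt_sq (by positivity)]
    have hw0 : y 0 / √(s01 y) = n0 / m := by rw [hsS, hy0]; field_simp
    have hw1 : y 1 / √(s01 y) = -(n1 / m) := by rw [hsS, hy1]; field_simp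
    have hu2 : y 2 / √(s23 y) = (n2 * c2 - n3' * s2) / h := by
      rw [hE, Real.sqrt_sq he0.le, hy2]; field_simp
    have hu3 : y 3 / √(s23 y) = -((n3' * c2 + n2 * s2) / h) := by
      rw [hE, Real.sqrt_sq he0.le, hy3]; field_simp
    have hww : (n0 / m) ^ 2 - (-(n1 / m)) ^ 2 = c2 := by rw [hc2]; field_simp
    have hww2 : 2 * (n0 / m) * (-(n1 / m)) = s2 := by rw [hs2]; field_simp
    refine ⟨y, ?_, ?_, ?_, ?_⟩
    · rintro (hh1 | hh1)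
      · exact not_mem_T01.2 hS0 hh1
      · exact not_mem_T23.2 (by rw [hE]; positivity) hh1
    · rw [vbi_rb, hPb, hP, Real.sqrt_sq hρ0.le, hρd]
    · rw [hS, div_pow, mul_pow, ← hPs, div_le_one (by have := sq_nonneg (sin τ); linarith)]; exact hB.le
    · rw [vbi_B2_form ha (by rw [hPb]; exact hP1), hPb, hQ, hG, hH, hw0, hw1, hu2, hu3,
        Real.sqrt_sq hs.le, Real.sqrt_sq hm.le, Real.sqrt_sq hh.le, harc, hτL, hww]
      conv_rhs => rw [hxe]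
      have hA : (n2 * c2 - n3' * s2) / h * h = n2 * c2 - n3' * s2 := by field_simp
      have hB : (n3' * c2 + n2 * s2) / h * h = n3' * c2 + n2 * s2 := by field_simp
      congr 2
      · field_simp
      · field_simp
      · linear_combination c2 * hA + s2 * hB + (n3' * c2 + n2 * s2) / h * h * hww2 + n2 * hcs
      · linear_combination c2 * hB - s2 * hA - (n2 * c2 - n3' * s2) / h * h * hww2 + n3' * hcs

end Pool.Agent.MP39e402
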