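import Pool.Agent.Lib.MP_39e402_gt.UFormX

/-! # MP_39e402, module VE1: the z-chart around `P`.

All isometry identities were checked numerically.  Useful: for `Ur x ≠ 0`, `(x0,x1) ≠ 0`
`qC = dt² + b² dn3²/(1-n3²) + b² f² ϖ²/(N (1-n3²)) + W² (dθ̂ - κ ϖ)²` (outside PZ); in the Fubini-Study zone
(`b = cos t`, `f = sin t cos t`) `b²-f² = cos⁴t`, `N = cos²t ρ²`, `ρ² = 1 - cos²t n3²`, `κ = 2 cos²t/ρ²`.
With `A = |z1|²`, `B = |z2|²`: `sin²t = A/(1+A+B)`, `n3² = 1/(1+B)`, `ρ² = (A+B)/(1+A+B)`, with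
`α_i = Re(conj z_i dz_i)`, `β_i = Im(conj z_i dz_i)`: `ϖ = (β2 - B β1/A)/(1+B)`, `dθ̂ = -2β1/A`,
`dθ̂ - κϖ = -2(β1+β2)/(A+B)`. -/

open Real Set Filter Topology MeasureTheory
open scoped ContDiff

noncomputable section

namespace Pool.Agent.MP39e402

/-- domain of the z-chart: `z1 ≠ 0`, `t < ta` -/
def DE1 : Set (EE 4) := {z | √(s01 z) < sin taC * √(1 + s01 z + s23 z)}

theorem continuous_coord (i : Fin 4) : Continuous (fun z : EE 4 => z i) :=
  (EuclideanSpace.proj i : EE 4 →L[ℝ] ℝ).continuous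

theorem contDiff_coord (i : Fin 4) : ContDiff ℝ ∞ (fun z : EE 4 => z i) :=
  (EuclideanSpace.proj i : EE 4 →L[ℝ] ℝ).contDiff

theorem contDiff_s01 : ContDiff ℝ ∞ s01 :=
  ((contDiff_coord 0).pow 2).add ((contDiff_coord 1).pow 2)

theorem contDiff_s23 : ContDiff ℝ ∞ s23 :=
  ((contDiff_coord 2).pow 2).add ((contDiff_coord 3).pow 2)

theorem continuous_s01 : Continuous s01 := contDiff_s01.continuous
theorem continuous_s23 : Continuous s23 := contDiff_s23.continuous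

theorem DE1_isOpen : IsOpen DE1 :=
  isOpen_lt continuous_s01.sqrt
    (continuous_const.mul ((continuous_const.add continuous_s01).add continuous_s23).sqrt)

theorem isClosed_T01 : IsClosed T01 :=
  (isClosed_eq (continuous_coord 0) continuous_const).inter
    (isClosed_eq (continuous_coord 1) continuous_const)
theorem isClosed_T23 : IsClosed T23 :=
  (isClosed_eq (continuous_coord 2) continuous_const).inter
    (isClosed_eq (continuous_coord 3) continuous_const)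
theorem negl_T01 : Negl T01 := negl_plane (by decide) 0 0
theorem negl_T23 : Negl T23 := negl_plane (by decide) 0 0

theorem not_mem_T01 {z : EE 4} : z ∉ T01 ↔ 0 < s01 z := by
  unfold T01 s01
  rw [mem_ofPred_eq]
  constructor
  · intro h
    by_contra h2
    push Not at h2
    have h3 := sq_nonneg (z 0)
    have h4 := sq_nonneg (z 1)
    exact h ⟨pow_eq_zero_iff (two_ne_zero) |>.1 (by linarith),
      pow_eq_zero_iff (two_ne_zero) |>.1 (by linarith)⟩
  · rintro h ⟨h0, h1⟩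
    rw [h0, h1] at h
    norm_num at h

theorem not_mem_T23 {z : EE 4} : z ∉ T23 ↔ 0 < s23 z := by
  unfold T23 s23
  rw [mem_ofPred_eq]
  constructor
  · intro h
    by_contra h2
    push Not at h2
    have h3 := sq_nonneg (z 2)
    have h4 := sq_nonneg (z 3)
    exact h ⟨pow_eq_zero_iff (two_ne_zero) |>.1 (by linarith),
      pow_eq_zero_iff (two_ne_zero) |>.1 (by linarith)⟩
  · rintro h ⟨h0, h1⟩
    rw [h0, h1] at h
    norm_num at h

theorem E1_arg_lt (z : EE 4) : √(s01 z) / √(1 + s01 z + s23 z) < 1 := by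
  have h1 := s01_nonneg z
  have h2 := s23_nonneg z
  rw [div_lt_one (Real.sqrt_pos.2 (by linarith))]
  exact Real.sqrt_lt_sqrt h1 (by linarith)

theorem E1_arg_nonneg (z : EE 4) : 0 ≤ √(s01 z) / √(1 + s01 z + s23 z) := by positivity

theorem t1C_pos : 0 < t1C := isCoreC.t1_pos

theorem E1_R_pos (z : EE 4) : 0 < t1C + arcsin (√(s01 z) / √(1 + s01 z + s23 z)) :=
  add_pos_of_pos_of_nonneg t1C_pos (Real.arcsin_nonneg.2 (E1_arg_nonneg z))

theorem E1_unit {z : EE 4} (hz : z ∉ T01) :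
    ((z 0 * z 2 + z 1 * z 3) / (√(s01 z) * √(1 + s23 z))) ^ 2
      + ((z 0 * z 3 - z 1 * z 2) / (√(s01 z) * √(1 + s23 z))) ^ 2
      + ((z 0 ^ 2 - z 1 ^ 2) / (s01 z * √(1 + s23 z))) ^ 2
      + (-(2 * z 0 * z 1) / (s01 z * √(1 + s23 z))) ^ 2 = 1 := by
  have h1 := not_mem_T01.1 hz
  have h2 := s23_nonneg z
  have h3 : 0 < 1 + s23 z := by linarith
  simp only [div_pow, mul_pow, Real.sq_sqrt h1.le, Real.sq_sqrt h3.le]
  field_simp
  unfold s01 s23
  ring

theorem E1_cd {z : EE 4} (hz : z ∉ T01) :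
    ((z 0 ^ 2 - z 1 ^ 2) / (s01 z * √(1 + s23 z))) ^ 2
      + (-(2 * z 0 * z 1) / (s01 z * √(1 + s23 z))) ^ 2 = 1 / (1 + s23 z) := by
  have h1 := not_mem_T01.1 hz
  have h2 := s23_nonneg z
  have h3 : 0 < 1 + s23 z := by linarith
  simp only [div_pow, mul_pow, Real.sq_sqrt h3.le]
  field_simp
  unfold s01
  ring

theorem PhE1_contDiffOn : ContDiffOn ℝ ∞ PhE1 T01ᶜ := by
  intro z hz
  apply ContDiffAt.contDiffWithinAt
  have h1 := not_mem_T01.1 hz
  have h2 := s23_nonneg z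
  have h3 : 0 < 1 + s23 z := by linarith
  have h4 : 0 < 1 + s01 z + s23 z := by linarith
  have c01 : ContDiffAt ℝ ∞ s01 z := contDiff_s01.contDiffAt
  have c23 : ContDiffAt ℝ ∞ s23 z := contDiff_s23.contDiffAt
  have cx : ∀ i : Fin 4, ContDiffAt ℝ ∞ (fun z : EE 4 => z i) z := fun i =>
    (contDiff_coord i).contDiffAt
  have r01 : ContDiffAt ℝ ∞ (fun z => √(s01 z)) z := c01.sqrt h1.ne'
  have r23 : ContDiffAt ℝ ∞ (fun z => √(1 + s23 z)) z := (contDiffAt_const.add c23).sqrt h3.ne'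
  have rD : ContDiffAt ℝ ∞ (fun z => √(1 + s01 z + s23 z)) z :=
    ((contDiffAt_const.add c01).add c23).sqrt h4.ne'
  have cR : ContDiffAt ℝ ∞ (fun z => t1C + arcsin (√(s01 z) / √(1 + s01 z + s23 z))) z := by
    refine contDiffAt_const.add ?_
    have h5 : ContDiffAt ℝ ∞ arcsin (√(s01 z) / √(1 + s01 z + s23 z)) :=
      Real.contDiffAt_arcsin (by have := E1_arg_nonneg z; linarith) (E1_arg_lt z).ne
    exact ContDiffAt.comp (g := arcsin) z h5 (r01.div rD (Real.sqrt_pos.2 h4).ne')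
  have s1 := (Real.sqrt_pos.2 h1).ne'
  have s3 := (Real.sqrt_pos.2 h3).ne'
  rw [contDiffAt_euclidean]
  intro i
  have hR := cR
  fin_cases i
  · exact hR.mul ((((cx 0).mul (cx 2)).add ((cx 1).mul (cx 3))).div (r01.mul r23)
      (mul_ne_zero s1 s3))
  · exact hR.mul ((((cx 0).mul (cx 3)).sub ((cx 1).mul (cx 2))).div (r01.mul r23)
      (mul_ne_zero s1 s3))
  · exact hR.mul ((((cx 0).pow 2).sub ((cx 1).pow 2)).div (c01.mul r23)
      (mul_ne_zero h1.ne' s3))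
  · exact hR.mul (((contDiffAt_const.mul (cx 0)).mul (cx 1)).neg.div (c01.mul r23)
      (mul_ne_zero h1.ne' s3))

theorem PhE1_norm {z : EE 4} (hz : z ∉ T01) :
    ‖PhE1 z‖ = t1C + arcsin (√(s01 z) / √(1 + s01 z + s23 z)) :=
  norm_polar (E1_R_pos z).le (E1_unit hz)

theorem PhE1_n3 {z : EE 4} (hz : z ∉ T01) : n3 (PhE1 z) = 1 / √(1 + s23 z) := by
  have h := n3_polar (E1_R_pos z) (E1_unit hz)
  rw [PhE1, h, E1_cd hz, Real.sqrt_div zero_le_one, Real.sqrt_one]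

theorem PhE1_tc_eq {z : EE 4} (hz : z ∉ T01) :
    tc (PhE1 z) = arcsin (√(s01 z) / √(1 + s01 z + s23 z)) := by
  rw [tc, PhE1_norm hz]
  ring

theorem taC_pos : 0 < taC := isCoreC.ta_pos
theorem taC_lt : taC < π / 2 := by
  have h1 := isCoreC.ta_le
  have h2 := Real.pi_gt_three
  linarith

theorem PhE1_tc {z : EE 4} (hz : z ∈ DE1) (h : z ∉ T01) : 0 < tc (PhE1 z) ∧ tc (PhE1 z) < taC := by
  have h1 := not_mem_T01.1 h
  have h2 := s23_nonneg z
  have h4 : 0 < √(1 + s01 z + s23 z) := Real.sqrt_pos.2 (by linarith)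
  rw [PhE1_tc_eq h]
  constructor
  · exact Real.arcsin_pos.2 (div_pos (Real.sqrt_pos.2 h1) h4)
  · have h5 : √(s01 z) / √(1 + s01 z + s23 z) < sin taC := (div_lt_iff₀ h4).2 hz
    have h6 := Real.arcsin_lt_arcsin (by have := E1_arg_nonneg z; linarith) h5 (Real.sin_le_one _)
    have h7 := taC_pos
    have h8 := taC_lt
    rwa [Real.arcsin_sin (by linarith) h8.le] at h6

theorem PhE1_sin {z : EE 4} (hz : z ∉ T01) :
    sin (tc (PhE1 z)) = √(s01 z) / √(1 + s01 z + s23 z) := by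
  rw [PhE1_tc_eq hz, Real.sin_arcsin (by have := E1_arg_nonneg z; linarith) (E1_arg_lt z).le]

theorem PhE1_cos {z : EE 4} (hz : z ∉ T01) :
    cos (tc (PhE1 z)) = √(1 + s23 z) / √(1 + s01 z + s23 z) := by
  have h1 := s01_nonneg z
  have h2 := s23_nonneg z
  have h4 : 0 < 1 + s01 z + s23 z := by linarith
  rw [PhE1_tc_eq hz, Real.cos_arcsin, div_pow, Real.sq_sqrt h1, Real.sq_sqrt h4.le,
    ← Real.sqrt_div (by linarith)]
  congr 1
  field_simp
  ring

theorem PhE1_cosn3 {z : EE 4} (hz : z ∉ T01) :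
    cos (tc (PhE1 z)) * n3 (PhE1 z) = 1 / √(1 + s01 z + s23 z) := by
  have h2 := s23_nonneg z
  have h3 : √(1 + s23 z) ≠ 0 := (Real.sqrt_pos.2 (by linarith)).ne'
  rw [PhE1_cos hz, PhE1_n3 hz]
  field_simp

theorem PhE1_rho {z : EE 4} (hz : z ∉ T01) : rhoP (PhE1 z) = ‖z‖ / √(1 + ‖z‖ ^ 2) := by
  have h1 := s01_nonneg z
  have h2 := s23_nonneg z
  have h4 : 0 < 1 + s01 z + s23 z := by linarith
  have h5 : 0 < 1 + ‖z‖ ^ 2 := by positivity
  rw [rhoP, ← mul_pow, PhE1_cosn3 hz, div_pow, one_pow, Real.sq_sqrt h4.le]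
  have e : 1 - 1 / (1 + s01 z + s23 z) = ‖z‖ ^ 2 / (1 + ‖z‖ ^ 2) := by
    rw [norm_sq_s]
    have h6 : 1 + (s01 z + s23 z) = 1 + s01 z + s23 z := by ring
    rw [h6]
    field_simp
    ring
  rw [e, Real.sqrt_div (sq_nonneg _), Real.sqrt_sq (norm_nonneg _)]

theorem PhE1_neg (z : EE 4) : PhE1 (-z) = PhE1 z := by
  have h01 : s01 (-z) = s01 z := by
    unfold s01
    simp only [PiLp.neg_apply]
    ring
  have h23 : s23 (-z) = s23 z := by
    unfold s23
    simp only [PiLp.neg_apply]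
    ring
  unfold PhE1
  rw [h01, h23]
  simp only [PiLp.neg_apply]
  congr 2
  · ring
  · ring
  · ring
  · ring

theorem pair_sq_eq {a b c d : ℝ} (h1 : a ^ 2 - b ^ 2 = c ^ 2 - d ^ 2) (h2 : a * b = c * d)
    (h3 : a ^ 2 + b ^ 2 = c ^ 2 + d ^ 2) : (c = a ∧ d = b) ∨ (c = -a ∧ d = -b) := by
  have ha : a ^ 2 = c ^ 2 := by linarith
  have hb : b ^ 2 = d ^ 2 := by linarith
  rcases sq_eq_sq_iff_eq_or_eq_neg.1 ha with h | h
  · rcases sq_eq_sq_iff_eq_or_eq_neg.1 hb with h' | h'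
    · exact Or.inl ⟨h.symm, h'.symm⟩
    · subst h
      have h4 : a * b = 0 := by
        rw [h'] at h2 ⊢
        linarith
      rcases mul_eq_zero.1 h4 with h5 | h5
      · right
        constructor
        · rw [h5]; ring
        · linarith
      · left
        constructor
        · rfl
        · rw [h5] at h' ⊢; linarith
  · rcases sq_eq_sq_iff_eq_or_eq_neg.1 hb with h' | h'
    · subst h'
      have h4 : a * b = 0 := by
        rw [h] at h2 ⊢
        linarith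
      rcases mul_eq_zero.1 h4 with h5 | h5
      · left
        constructor
        · rw [h5] at h ⊢; linarith
        · rfl
      · right
        constructor
        · linarith
        · rw [h5]; ring
    · right
      constructor <;> linarith

theorem PhE1_eq_iff {z w : EE 4} (hz : z ∉ T01) (hw : w ∉ T01) :
    PhE1 z = PhE1 w ↔ w = z ∨ w = -z := by
  constructor
  swap
  · rintro (rfl | rfl)
    · rfl
    · exact (PhE1_neg z).symm
  intro h
  have z1 := not_mem_T01.1 hz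
  have w1 := not_mem_T01.1 hw
  have z2 := s23_nonneg z
  have w2 := s23_nonneg w
  have hn3 : n3 (PhE1 z) = n3 (PhE1 w) := by rw [h]
  rw [PhE1_n3 hz, PhE1_n3 hw] at hn3
  have zq : 0 < √(1 + s23 z) := Real.sqrt_pos.2 (by linarith)
  have wq : 0 < √(1 + s23 w) := Real.sqrt_pos.2 (by linarith)
  have hq : √(1 + s23 z) = √(1 + s23 w) := by
    rw [one_div, one_div, inv_inj] at hn3
    exact hn3
  have hB : s23 z = s23 w := by
    have := congrArg (fun t => t ^ 2) hq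
    beta_reduce at this
    rw [Real.sq_sqrt (by linarith), Real.sq_sqrt (by linarith)] at this
    linarith
  have hsin : sin (tc (PhE1 z)) = sin (tc (PhE1 w)) := by rw [h]
  rw [PhE1_sin hz, PhE1_sin hw] at hsin
  have hA : s01 z = s01 w := by
    have := congrArg (fun t => t ^ 2) hsin
    beta_reduce at this
    rw [div_pow, div_pow, Real.sq_sqrt z1.le, Real.sq_sqrt w1.le, Real.sq_sqrt (by linarith),
      Real.sq_sqrt (by linarith), div_eq_div_iff (by linarith) (by linarith), hB] at this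
    nlinarith
  have hR := E1_R_pos z
  have hc : ∀ i, PhE1 z i = PhE1 w i := fun i => by rw [h]
  have h0 := hc 0
  have h1 := hc 1
  have h2 := hc 2
  have h3 := hc 3
  simp only [PhE1, PiLp.smul_apply, v4_zero, v4_one, v4_two, v4_three, smul_eq_mul, ← hA, ← hB]
    at h0 h1 h2 h3
  have g0 := mul_left_cancel₀ hR.ne' h0
  have g1 := mul_left_cancel₀ hR.ne' h1
  have g2 := mul_left_cancel₀ hR.ne' h2
  have g3 := mul_left_cancel₀ hR.ne' h3
  have za : √(s01 z) ≠ 0 := (Real.sqrt_pos.2 z1).ne'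
  have e0 := (div_left_inj' (mul_ne_zero za zq.ne')).1 g0
  have e1 := (div_left_inj' (mul_ne_zero za zq.ne')).1 g1
  have e2 := (div_left_inj' (mul_ne_zero z1.ne' zq.ne')).1 g2
  have e3 := (div_left_inj' (mul_ne_zero z1.ne' zq.ne')).1 g3
  have hp := pair_sq_eq (a := z 0) (b := z 1) (c := w 0) (d := w 1) e2 (by linarith) hA
  have fin : ∀ ε : ℝ, ε ^ 2 = 1 → w 0 = ε * z 0 → w 1 = ε * z 1 → w 2 = ε * z 2 ∧ w 3 = ε * z 3 := by
    intro ε hε q0 q1
    have z1' : z 0 ^ 2 + z 1 ^ 2 ≠ 0 := z1.ne'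
    rw [q0, q1] at e0 e1
    constructor
    · apply mul_left_cancel₀ z1'
      linear_combination (-(ε * z 0)) * e0 + (ε * z 1) * e1 + (z 0 ^ 2 + z 1 ^ 2) * (w 2) * (-(hε)) 
    · apply mul_left_cancel₀ z1'
      linear_combination (-(ε * z 1)) * e0 - (ε * z 0) * e1 + (z 0 ^ 2 + z 1 ^ 2) * (w 3) * (-(hε))
  rcases hp with ⟨p0, p1⟩ | ⟨p0, p1⟩
  · left
    obtain ⟨p2, p3⟩ := fin 1 (by norm_num) (by rw [p0]; ring) (by rw [p1]; ring)
    exact ext4 p0 p1 (by rw [p2]; ring) (by rw [p3]; ring)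
  · right
    obtain ⟨p2, p3⟩ := fin (-1) (by norm_num) (by rw [p0]; ring) (by rw [p1]; ring)
    refine ext4 ?_ ?_ ?_ ?_
    · rw [p0]; rfl
    · rw [p1]; rfl
    · rw [p2, PiLp.neg_apply]; ring
    · rw [p3, PiLp.neg_apply]; ring

/-- surjectivity: every `x` with `0 < t < π/2`, `n3 ≠ 0` -/
theorem PhE1_surj {x : EE 4} (h0 : 0 < tc x) (h1 : tc x < π / 2) (hU : Ur x ≠ 0) :
    ∃ z, z ∉ T01 ∧ PhE1 z = x := by
  have ht1 := t1C_pos
  have hR : 0 < ‖x‖ := by
    unfold tc at h0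
    linarith
  have hUp : 0 < Ur x := lt_of_le_of_ne (Real.sqrt_nonneg _) (Ne.symm hU)
  have hU2 : Ur x ^ 2 = x 2 ^ 2 + x 3 ^ 2 := Real.sq_sqrt (by positivity)
  obtain ⟨p, q, e1, e2, e3⟩ : ∃ p q : ℝ, p ^ 2 - q ^ 2 = x 2 / Ur x ∧ 2 * p * q = x 3 / Ur x ∧
      p ^ 2 + q ^ 2 = 1 := by
    obtain ⟨om, hom⟩ := IsAlgClosed.exists_pow_nat_eq (⟨x 2 / Ur x, x 3 / Ur x⟩ : ℂ) two_pos
    refine ⟨om.re, om.im, ?_, ?_, ?_⟩
    · have := congrArg Complex.re hom
      rw [pow_two, Complex.mul_re] at this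
      simp only at this
      rw [← this]; ring
    · have := congrArg Complex.im hom
      rw [pow_two, Complex.mul_im] at this
      simp only at this
      rw [← this]; ring
    · have h2 : ‖om‖ ^ 2 = 1 := by
        rw [← norm_pow, hom]
        have h3 : ‖(⟨x 2 / Ur x, x 3 / Ur x⟩ : ℂ)‖ ^ 2 = 1 := by
          rw [← Complex.normSq_eq_norm_sq, Complex.normSq_mk]
          field_simp
          rw [hU2]
        exact (pow_eq_one_iff_of_nonneg (norm_nonneg _) two_ne_zero).1 h3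
      rw [← Complex.normSq_eq_norm_sq, Complex.normSq_apply] at h2
      rw [← h2]; ring
  have hc : 0 < cos (tc x) := Real.cos_pos_of_mem_Ioo ⟨by linarith, h1⟩
  have hs : 0 < sin (tc x) := Real.sin_pos_of_pos_of_lt_pi h0 (by linarith)
  have hsc := Real.sin_sq_add_cos_sq (tc x)
  set T : ℝ := sin (tc x) / cos (tc x) with hT
  have hTp : 0 < T := div_pos hs hc
  have hTc : T * cos (tc x) = sin (tc x) := div_mul_cancel₀ _ hc.ne'
  have hn : ‖x‖ ^ 2 = x 0 ^ 2 + x 1 ^ 2 + Ur x ^ 2 := by rw [norm_sq4, hU2]; ring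
  set z : EE 4 := v4 (T * ‖x‖ * p / Ur x) (-(T * ‖x‖ * q / Ur x)) ((x 0 * p + x 1 * q) / Ur x)
    ((x 1 * p - x 0 * q) / Ur x) with hz
  have k01 : s01 z = (T * ‖x‖ / Ur x) ^ 2 := by
    have : s01 z = (T * ‖x‖ / Ur x) ^ 2 * (p ^ 2 + q ^ 2) := by
      unfold s01
      rw [hz, v4_zero, v4_one]
      ring
    rw [this, e3, mul_one]
  have k23 : 1 + s23 z = (‖x‖ / Ur x) ^ 2 := by
    have : s23 z = ((x 0 ^ 2 + x 1 ^ 2) / Ur x ^ 2) * (p ^ 2 + q ^ 2) := by
      unfold s23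
      rw [hz, v4_two, v4_three]
      ring
    rw [this, e3, mul_one, div_pow, hn]
    field_simp
    ring
  have kD : 1 + s01 z + s23 z = (‖x‖ / (Ur x * cos (tc x))) ^ 2 := by
    have : 1 + s01 z + s23 z = (1 + s23 z) + s01 z := by ring
    rw [this, k23, k01]
    have h5 : (T * ‖x‖ / Ur x) ^ 2 = (T * cos (tc x)) ^ 2 * (‖x‖ / (Ur x * cos (tc x))) ^ 2 := by
      field_simp
    have h6 : (‖x‖ / Ur x) ^ 2 = cos (tc x) ^ 2 * (‖x‖ / (Ur x * cos (tc x))) ^ 2 := by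
      field_simp
    rw [h5, h6, hTc, ← add_mul, add_comm, hsc, one_mul]
  have r01 : √(s01 z) = T * ‖x‖ / Ur x := by rw [k01, Real.sqrt_sq (by positivity)]
  have r23 : √(1 + s23 z) = ‖x‖ / Ur x := by rw [k23, Real.sqrt_sq (by positivity)]
  have rD : √(1 + s01 z + s23 z) = ‖x‖ / (Ur x * cos (tc x)) := by
    rw [kD, Real.sqrt_sq (by positivity)]
  have harg : √(s01 z) / √(1 + s01 z + s23 z) = sin (tc x) := by
    rw [r01, rD, ← hTc]
    field_simp
  have hRR : t1C + arcsin (√(s01 z) / √(1 + s01 z + s23 z)) = ‖x‖ := by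
    rw [harg, Real.arcsin_sin (by linarith) h1.le]
    unfold tc
    ring
  refine ⟨z, not_mem_T01.2 (by rw [k01]; positivity), ?_⟩
  have hx2 : x 2 = (p ^ 2 - q ^ 2) * Ur x := by rw [e1, div_mul_cancel₀ _ hU]
  have hx3 : x 3 = (2 * p * q) * Ur x := by rw [e2, div_mul_cancel₀ _ hU]
  rw [PhE1, hRR]
  apply ext4
  · rw [PiLp.smul_apply, v4_zero, smul_eq_mul, r01, r23, hz]
    simp only [v4_zero, v4_one, v4_two, v4_three]
    have : (T * ‖x‖ * p / Ur x * ((x 0 * p + x 1 * q) / Ur x) + -(T * ‖x‖ * q / Ur x) *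
        ((x 1 * p - x 0 * q) / Ur x)) = T * ‖x‖ / Ur x ^ 2 * (x 0 * (p ^ 2 + q ^ 2)) := by ring
    rw [this, e3]
    field_simp
  · rw [PiLp.smul_apply, v4_one, smul_eq_mul, r01, r23, hz]
    simp only [v4_zero, v4_one, v4_two, v4_three]
    have : (T * ‖x‖ * p / Ur x * ((x 1 * p - x 0 * q) / Ur x) - -(T * ‖x‖ * q / Ur x) *
        ((x 0 * p + x 1 * q) / Ur x)) = T * ‖x‖ / Ur x ^ 2 * (x 1 * (p ^ 2 + q ^ 2)) := by ring
    rw [this, e3]
    field_simp
  · rw [PiLp.smul_apply, v4_two, smul_eq_mul, k01, r23, hz]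
    simp only [v4_zero, v4_one]
    rw [hx2]
    field_simp
  · rw [PiLp.smul_apply, v4_three, smul_eq_mul, k01, r23, hz]
    simp only [v4_zero, v4_one]
    rw [hx3]
    field_simp

/-- `w = ρ √(1-ρ²)` -/
theorem PhE1_wc {z : EE 4} (hz : z ∉ T01) (hD : z ∈ DE1) : wc (PhE1 z) = ‖z‖ / (1 + ‖z‖ ^ 2) := by
  obtain ⟨t0, t1⟩ := PhE1_tc hD hz
  obtain ⟨hb, hf⟩ := isCoreC.fs _ t1.le
  have h1 := s01_nonneg z
  have h2 := s23_nonneg z
  have h4 : 0 < 1 + s01 z + s23 z := by linarith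
  have hcos : 0 < cos (tc (PhE1 z)) := by
    rw [PhE1_cos hz]
    exact div_pos (Real.sqrt_pos.2 (by linarith)) (Real.sqrt_pos.2 h4)
  have hN : NN (PhE1 z) = cos (tc (PhE1 z)) ^ 2 * (1 - cos (tc (PhE1 z)) ^ 2 * n3 (PhE1 z) ^ 2) := by
    have hs := Real.sin_sq_add_cos_sq (tc (PhE1 z))
    have hs' : sin (tc (PhE1 z)) ^ 2 = 1 - cos (tc (PhE1 z)) ^ 2 := by linarith
    rw [NN, hb, hf, mul_pow, hs']
    ring
  rw [wc, hN, Real.sqrt_mul (sq_nonneg _), Real.sqrt_sq hcos.le]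
  change n3 (PhE1 z) * (cos (tc (PhE1 z)) * rhoP (PhE1 z)) = _
  have e : n3 (PhE1 z) * (cos (tc (PhE1 z)) * rhoP (PhE1 z)) =
      (cos (tc (PhE1 z)) * n3 (PhE1 z)) * rhoP (PhE1 z) := by ring
  rw [e, PhE1_cosn3 hz, PhE1_rho hz]
  have h6 : 1 + s01 z + s23 z = 1 + ‖z‖ ^ 2 := by rw [norm_sq_s]; ring
  rw [h6, div_mul_div_comm, one_mul, Real.mul_self_sqrt (by positivity)]

end Pool.Agent.MP39e402
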