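import Pool.Agent.Lib.MP_39e402_gt.UCs
import Pool.Agent.Lib.MP_39e402_gt.VE1
import Pool.Agent.Lib.MP_39e402_gt.VQ

/-! # MP_39e402, module VE1I: the z-chart is isometric (formulas in the header of VE1; checked numerically) -/

open Real Set Filter Topology MeasureTheory
open scoped ContDiff

noncomputable section

namespace Pool.Agent.MP39e402

section derivs
variable (z v : EE 4)

theorem line_coord (i : Fin 4) : HasDerivAt (fun t : ℝ => (z + t • v) i) (v i) 0 := by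
  have h := ((hasDerivAt_id (0 : ℝ)).mul_const (v i)).const_add (z i)
  rw [one_mul] at h
  exact h

theorem line_zero : z + (0 : ℝ) • v = z := by rw [zero_smul, add_zero]

theorem line_s01 : HasDerivAt (fun t : ℝ => s01 (z + t • v)) (2 * (z 0 * v 0 + z 1 * v 1)) 0 := by
  have h := ((line_coord z v 0).pow 2).add ((line_coord z v 1).pow 2)
  refine h.congr_deriv ?_
  rw [line_zero]
  ring

theorem line_s23 : HasDerivAt (fun t : ℝ => s23 (z + t • v)) (2 * (z 2 * v 2 + z 3 * v 3)) 0 := by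
  have h := ((line_coord z v 2).pow 2).add ((line_coord z v 3).pow 2)
  refine h.congr_deriv ?_
  rw [line_zero]
  ring

theorem line_r01 (h0 : 0 < s01 z) : HasDerivAt (fun t : ℝ => √(s01 (z + t • v)))
    ((z 0 * v 0 + z 1 * v 1) / √(s01 z)) 0 := by
  have h := (line_s01 z v).sqrt (by rw [line_zero]; exact h0.ne')
  refine h.congr_deriv ?_
  rw [line_zero]
  field_simp

theorem line_r23 : HasDerivAt (fun t : ℝ => √(1 + s23 (z + t • v)))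
    ((z 2 * v 2 + z 3 * v 3) / √(1 + s23 z)) 0 := by
  have h1 := s23_nonneg z
  have h := ((line_s23 z v).const_add 1).sqrt (by rw [line_zero]; linarith)
  refine h.congr_deriv ?_
  rw [line_zero]
  field_simp

theorem line_rD : HasDerivAt (fun t : ℝ => √(1 + s01 (z + t • v) + s23 (z + t • v)))
    ((z 0 * v 0 + z 1 * v 1 + (z 2 * v 2 + z 3 * v 3)) / √(1 + s01 z + s23 z)) 0 := by
  have h1 := s23_nonneg z
  have h2 := s01_nonneg z
  have h := (((line_s01 z v).const_add 1).add (line_s23 z v)).sqrt (by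
    simp only [Pi.add_apply]
    rw [line_zero]; linarith)
  refine h.congr_deriv ?_
  simp only [Pi.add_apply]
  rw [line_zero]
  field_simp

end derivs

/-- `R'` -/
theorem line_R {z : EE 4} (hz : z ∉ T01) (v : EE 4) :
    HasDerivAt (fun t : ℝ => t1C + arcsin (√(s01 (z + t • v)) /
      √(1 + s01 (z + t • v) + s23 (z + t • v))))
      (((z 0 * v 0 + z 1 * v 1) * (1 + s23 z) - s01 z * (z 2 * v 2 + z 3 * v 3)) /
        (√(s01 z) * √(1 + s23 z) * (1 + s01 z + s23 z))) 0 := by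
  have h1 := not_mem_T01.1 hz
  have h2 := s23_nonneg z
  have h4 : 0 < 1 + s01 z + s23 z := by linarith
  have hD : 0 < √(1 + s01 z + s23 z) := Real.sqrt_pos.2 h4
  have ha : 0 < √(s01 z) := Real.sqrt_pos.2 h1
  have hq : 0 < √(1 + s23 z) := Real.sqrt_pos.2 (by linarith)
  have e1 : √(1 - (√(s01 z) / √(1 + s01 z + s23 z)) ^ 2) =
      √(1 + s23 z) / √(1 + s01 z + s23 z) := by
    rw [div_pow, Real.sq_sqrt h1.le, Real.sq_sqrt h4.le, ← Real.sqrt_div (by linarith)]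
    congr 1
    field_simp
    ring
  have hf := (line_r01 z v h1).div (line_rD z v) (by rw [line_zero]; exact hD.ne')
  have harg := E1_arg_lt z
  have harg0 := E1_arg_nonneg z
  have hasin : HasDerivAt arcsin (1 / (√(1 + s23 z) / √(1 + s01 z + s23 z)))
      (√(s01 (z + (0 : ℝ) • v)) / √(1 + s01 (z + (0 : ℝ) • v) + s23 (z + (0 : ℝ) • v))) := by
    rw [line_zero, ← e1]
    exact Real.hasDerivAt_arcsin (by linarith) harg.ne
  have h := (HasDerivAt.comp (0 : ℝ) hasin hf).const_add t1C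
  refine h.congr_deriv ?_
  rw [line_zero]
  have e2 := Real.sq_sqrt h1.le
  have e3 := Real.sq_sqrt h4.le
  generalize √(s01 z) = a at *
  generalize √(1 + s01 z + s23 z) = D at *
  generalize √(1 + s23 z) = q at *
  rw [← e3, ← e2]
  field_simp
  rw [e3, e2]
  ring

/-- `c = al1/A + al2/Q` -/
def E1c (z v : EE 4) : ℝ :=
  (z 0 * v 0 + z 1 * v 1) / s01 z + (z 2 * v 2 + z 3 * v 3) / (1 + s23 z)
/-- `c2 = 2 al1/A + al2/Q` -/
def E1c2 (z v : EE 4) : ℝ :=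
  2 * (z 0 * v 0 + z 1 * v 1) / s01 z + (z 2 * v 2 + z 3 * v 3) / (1 + s23 z)

theorem line_quot {z : EE 4} (hz : z ∉ T01) (v : EE 4) {f : EE 4 → ℝ} {f' : ℝ}
    (hf : HasDerivAt (fun t : ℝ => f (z + t • v)) f' 0) :
    HasDerivAt (fun t : ℝ => f (z + t • v) / (√(s01 (z + t • v)) * √(1 + s23 (z + t • v))))
      ((f' - f z * E1c z v) / (√(s01 z) * √(1 + s23 z))) 0 := by
  have h1 := not_mem_T01.1 hz
  have h2 := s23_nonneg z
  have ha : 0 < √(s01 z) := Real.sqrt_pos.2 h1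
  have hq : 0 < √(1 + s23 z) := Real.sqrt_pos.2 (by linarith)
  have h := hf.div ((line_r01 z v h1).mul (line_r23 z v)) (by
    simp only [Pi.mul_apply]
    rw [line_zero]
    exact (mul_pos ha hq).ne')
  refine h.congr_deriv ?_
  simp only [Pi.mul_apply]
  rw [line_zero, E1c]
  have e2 := Real.sq_sqrt h1.le
  have e3 : √(1 + s23 z) ^ 2 = 1 + s23 z := Real.sq_sqrt (by linarith)
  generalize √(s01 z) = a at *
  generalize √(1 + s23 z) = q at *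
  rw [← e3, ← e2]
  field_simp
  try ring

theorem line_quot2 {z : EE 4} (hz : z ∉ T01) (v : EE 4) {f : EE 4 → ℝ} {f' : ℝ}
    (hf : HasDerivAt (fun t : ℝ => f (z + t • v)) f' 0) :
    HasDerivAt (fun t : ℝ => f (z + t • v) / (s01 (z + t • v) * √(1 + s23 (z + t • v))))
      ((f' - f z * E1c2 z v) / (s01 z * √(1 + s23 z))) 0 := by
  have h1 := not_mem_T01.1 hz
  have h2 := s23_nonneg z
  have hq : 0 < √(1 + s23 z) := Real.sqrt_pos.2 (by linarith)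
  have h := hf.div ((line_s01 z v).mul (line_r23 z v)) (by
    simp only [Pi.mul_apply]
    rw [line_zero]
    exact (mul_pos h1 hq).ne')
  refine h.congr_deriv ?_
  simp only [Pi.mul_apply]
  rw [line_zero, E1c2]
  have e3 : √(1 + s23 z) ^ 2 = 1 + s23 z := Real.sq_sqrt (by linarith)
  generalize √(1 + s23 z) = q at *
  rw [← e3]
  field_simp
  try ring

/-- all forms along the z-chart -/
theorem E1_forms {z : EE 4} (hz : z ∉ T01) (v : EE 4) :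
    wR (PhE1 z) (fderiv ℝ PhE1 z v) =
        ((z 0 * v 0 + z 1 * v 1) * (1 + s23 z) - s01 z * (z 2 * v 2 + z 3 * v 3)) /
        (√(s01 z) * √(1 + s23 z) * (1 + s01 z + s23 z)) ∧
    wn2 (PhE1 z) (fderiv ℝ PhE1 z v) = (v 2 ^ 2 + v 3 ^ 2
        + s23 z * (z 0 * v 1 - z 1 * v 0) ^ 2 / s01 z ^ 2
        - 2 * (z 0 * v 1 - z 1 * v 0) * (z 2 * v 3 - z 3 * v 2) / s01 z) / (1 + s23 z)
        - (z 2 * v 2 + z 3 * v 3) ^ 2 / (1 + s23 z) ^ 2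
        + 4 * (z 0 * v 1 - z 1 * v 0) ^ 2 / (s01 z ^ 2 * (1 + s23 z)) ∧
    wth (PhE1 z) (fderiv ℝ PhE1 z v) = -2 * (z 0 * v 1 - z 1 * v 0) / s01 z ∧
    wvp (PhE1 z) (fderiv ℝ PhE1 z v) =
      (s01 z * (z 2 * v 3 - z 3 * v 2) - s23 z * (z 0 * v 1 - z 1 * v 0)) /
        (s01 z * (1 + s23 z)) ∧
    wn3 (PhE1 z) (fderiv ℝ PhE1 z v) =
      -(z 2 * v 2 + z 3 * v 3) / ((1 + s23 z) * √(1 + s23 z)) := by
  have h1 := not_mem_T01.1 hz
  have h2 := s23_nonneg z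
  have h3 : 0 < 1 + s23 z := by linarith
  have ha : 0 < √(s01 z) := Real.sqrt_pos.2 h1
  have hq : 0 < √(1 + s23 z) := Real.sqrt_pos.2 h3
  have hd : DifferentiableAt ℝ PhE1 z :=
    ((PhE1_contDiffOn.contDiffAt (isClosed_T01.isOpen_compl.mem_nhds hz)).differentiableAt
      (by simp))
  have hl := line_coord z v
  have d0 : HasDerivAt (fun t : ℝ => (fun z : EE 4 => z 0 * z 2 + z 1 * z 3) (z + t • v))
      (v 0 * z 2 + z 0 * v 2 + (v 1 * z 3 + z 1 * v 3)) 0 := by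
    have h := ((hl 0).mul (hl 2)).add ((hl 1).mul (hl 3))
    rw [line_zero] at h
    exact h
  have d1 : HasDerivAt (fun t : ℝ => (fun z : EE 4 => z 0 * z 3 - z 1 * z 2) (z + t • v))
      (v 0 * z 3 + z 0 * v 3 - (v 1 * z 2 + z 1 * v 2)) 0 := by
    have h := ((hl 0).mul (hl 3)).sub ((hl 1).mul (hl 2))
    rw [line_zero] at h
    exact h
  have d2 : HasDerivAt (fun t : ℝ => (fun z : EE 4 => z 0 ^ 2 - z 1 ^ 2) (z + t • v))
      (2 * (z 0 * v 0 - z 1 * v 1)) 0 := by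
    have h := ((hl 0).pow 2).sub ((hl 1).pow 2)
    rw [line_zero] at h
    exact h.congr_deriv (by ring)
  have d3 : HasDerivAt (fun t : ℝ => (fun z : EE 4 => -(2 * z 0 * z 1)) (z + t • v))
      (-(2 * v 0 * z 1 + 2 * z 0 * v 1)) 0 := by
    have h := (((hl 0).const_mul 2).mul (hl 1)).neg
    rw [line_zero] at h
    exact h
  have hw := fderiv_polar (Φ := PhE1)
    (R := fun z => t1C + arcsin (√(s01 z) / √(1 + s01 z + s23 z)))
    (a := fun z => (z 0 * z 2 + z 1 * z 3) / (√(s01 z) * √(1 + s23 z)))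
    (b := fun z => (z 0 * z 3 - z 1 * z 2) / (√(s01 z) * √(1 + s23 z)))
    (c := fun z => (z 0 ^ 2 - z 1 ^ 2) / (s01 z * √(1 + s23 z)))
    (d := fun z => -(2 * z 0 * z 1) / (s01 z * √(1 + s23 z)))
    (fun z => rfl) hd (line_R hz v) (line_quot (f := fun z => z 0 * z 2 + z 1 * z 3) hz v d0)
    (line_quot (f := fun z => z 0 * z 3 - z 1 * z 2) hz v d1)
    (line_quot2 (f := fun z => z 0 ^ 2 - z 1 ^ 2) hz v d2)
    (line_quot2 (f := fun z => -(2 * z 0 * z 1)) hz v d3)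
  beta_reduce at hw
  have e2 := Real.sq_sqrt h1.le
  have e3 : √(1 + s23 z) ^ 2 = 1 + s23 z := Real.sq_sqrt h3.le
  have hcd := E1_cd hz
  have L1 : (z 0 * z 2 + z 1 * z 3) * (v 0 * z 2 + z 0 * v 2 + (v 1 * z 3 + z 1 * v 3)) +
      (z 0 * z 3 - z 1 * z 2) * (v 0 * z 3 + z 0 * v 3 - (v 1 * z 2 + z 1 * v 2)) =
      (z 0 * v 0 + z 1 * v 1) * s23 z + s01 z * (z 2 * v 2 + z 3 * v 3) := by
    unfold s01 s23
    ring
  have L2 : (z 0 * z 2 + z 1 * z 3) ^ 2 + (z 0 * z 3 - z 1 * z 2) ^ 2 = s01 z * s23 z := by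
    unfold s01 s23
    ring
  have L3 : (v 0 * z 2 + z 0 * v 2 + (v 1 * z 3 + z 1 * v 3)) ^ 2 +
      (v 0 * z 3 + z 0 * v 3 - (v 1 * z 2 + z 1 * v 2)) ^ 2 =
      (v 2 ^ 2 + v 3 ^ 2) * s01 z + s23 z * (v 0 ^ 2 + v 1 ^ 2) + 2 * ((z 0 * v 0 + z 1 * v 1) *
        (z 2 * v 2 + z 3 * v 3) - (z 0 * v 1 - z 1 * v 0) * (z 2 * v 3 - z 3 * v 2)) := by
    unfold s01 s23
    ring
  have L4 : (z 0 * z 2 + z 1 * z 3) * (v 0 * z 3 + z 0 * v 3 - (v 1 * z 2 + z 1 * v 2)) -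
      (z 0 * z 3 - z 1 * z 2) * (v 0 * z 2 + z 0 * v 2 + (v 1 * z 3 + z 1 * v 3)) =
      s01 z * (z 2 * v 3 - z 3 * v 2) - s23 z * (z 0 * v 1 - z 1 * v 0) := by
    unfold s01 s23
    ring
  have M1 : (z 0 ^ 2 - z 1 ^ 2) * (2 * (z 0 * v 0 - z 1 * v 1)) +
      (-(2 * z 0 * z 1)) * (-(2 * v 0 * z 1 + 2 * z 0 * v 1)) =
      2 * s01 z * (z 0 * v 0 + z 1 * v 1) := by
    unfold s01
    ring
  have M2 : (z 0 ^ 2 - z 1 ^ 2) ^ 2 + (-(2 * z 0 * z 1)) ^ 2 = s01 z ^ 2 := by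
    unfold s01
    ring
  have M3 : (2 * (z 0 * v 0 - z 1 * v 1)) ^ 2 + (-(2 * v 0 * z 1 + 2 * z 0 * v 1)) ^ 2 =
      4 * s01 z * (v 0 ^ 2 + v 1 ^ 2) := by
    unfold s01
    ring
  have M4 : (z 0 ^ 2 - z 1 ^ 2) * (-(2 * v 0 * z 1 + 2 * z 0 * v 1)) -
      (-(2 * z 0 * z 1)) * (2 * (z 0 * v 0 - z 1 * v 1)) =
      -2 * s01 z * (z 0 * v 1 - z 1 * v 0) := by
    unfold s01
    ring
  have hV : (z 0 * v 0 + z 1 * v 1) ^ 2 + (z 0 * v 1 - z 1 * v 0) ^ 2 =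
      s01 z * (v 0 ^ 2 + v 1 ^ 2) := by
    unfold s01
    ring
  have hc : E1c z v = (z 0 * v 0 + z 1 * v 1) / s01 z + (z 2 * v 2 + z 3 * v 3) / (1 + s23 z) := rfl
  have hc2 : E1c2 z v =
      2 * (z 0 * v 0 + z 1 * v 1) / s01 z + (z 2 * v 2 + z 3 * v 3) / (1 + s23 z) := rfl
  have hE := E1_unit hz
  have hRp := E1_R_pos z
  have hx : PhE1 z = (t1C + arcsin (√(s01 z) / √(1 + s01 z + s23 z))) •
    v4 ((z 0 * z 2 + z 1 * z 3) / (√(s01 z) * √(1 + s23 z)))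
      ((z 0 * z 3 - z 1 * z 2) / (√(s01 z) * √(1 + s23 z)))
      ((z 0 ^ 2 - z 1 ^ 2) / (s01 z * √(1 + s23 z)))
      (-(2 * z 0 * z 1) / (s01 z * √(1 + s23 z))) := rfl
  clear d0 d1 d2 d3 hl
  generalize hX0 : z 0 * z 2 + z 1 * z 3 = X0 at *
  generalize hX1 : z 0 * z 3 - z 1 * z 2 = X1 at *
  generalize hY0 : z 0 ^ 2 - z 1 ^ 2 = Y0 at *
  generalize hY1 : -(2 * z 0 * z 1) = Y1 at *
  generalize hX0' : v 0 * z 2 + z 0 * v 2 + (v 1 * z 3 + z 1 * v 3) = X0' at *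
  generalize hX1' : v 0 * z 3 + z 0 * v 3 - (v 1 * z 2 + z 1 * v 2) = X1' at *
  generalize hY0' : 2 * (z 0 * v 0 - z 1 * v 1) = Y0' at *
  generalize hY1' : -(2 * v 0 * z 1 + 2 * z 0 * v 1) = Y1' at *
  generalize hal1 : z 0 * v 0 + z 1 * v 1 = al1 at *
  generalize hal2 : z 2 * v 2 + z 3 * v 3 = al2 at *
  generalize hbe1 : z 0 * v 1 - z 1 * v 0 = be1 at *
  generalize hbe2 : z 2 * v 3 - z 3 * v 2 = be2 at *
  clear hX0 hX1 hY0 hY1 hX0' hX1' hY0' hY1' hal1 hal2 hbe1 hbe2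
  generalize √(s01 z) = a at *
  generalize hqq : √(1 + s23 z) = q at *
  generalize E1c z v = c at *
  generalize E1c2 z v = c2 at *
  have hA0 : s01 z ≠ 0 := h1.ne'
  have hQ0 : 1 + s23 z ≠ 0 := h3.ne'
  have orth : X0 / (a * q) * ((X0' - X0 * c) / (a * q)) + X1 / (a * q) * ((X1' - X1 * c) / (a * q))
      + Y0 / (s01 z * q) * ((Y0' - Y0 * c2) / (s01 z * q))
      + Y1 / (s01 z * q) * ((Y1' - Y1 * c2) / (s01 z * q)) = 0 := by
    have o : X0 / (a * q) * ((X0' - X0 * c) / (a * q)) + X1 / (a * q) * ((X1' - X1 * c) / (a * q))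
        + Y0 / (s01 z * q) * ((Y0' - Y0 * c2) / (s01 z * q))
        + Y1 / (s01 z * q) * ((Y1' - Y1 * c2) / (s01 z * q)) =
        ((X0 * X0' + X1 * X1') - (X0 ^ 2 + X1 ^ 2) * c) / (a ^ 2 * q ^ 2)
        + ((Y0 * Y0' + Y1 * Y1') - (Y0 ^ 2 + Y1 ^ 2) * c2) / (s01 z ^ 2 * q ^ 2) := by
      field_simp
      ring
    rw [o, L1, L2, M1, M2, hc, hc2, e2, e3]
    field_simp
    ring
  obtain ⟨f1, f2, f3, f4, f5, f6, f7⟩ := forms_polar hRp hE orth (by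
    rw [hcd]
    positivity) hx hw
  refine ⟨f2, ?_, ?_, ?_, ?_⟩
  · rw [f3]
    have o : ((X0' - X0 * c) / (a * q)) ^ 2 + ((X1' - X1 * c) / (a * q)) ^ 2 +
        ((Y0' - Y0 * c2) / (s01 z * q)) ^ 2 + ((Y1' - Y1 * c2) / (s01 z * q)) ^ 2 =
        ((X0' ^ 2 + X1' ^ 2) - 2 * c * (X0 * X0' + X1 * X1') + c ^ 2 * (X0 ^ 2 + X1 ^ 2)) /
          (a ^ 2 * q ^ 2) + ((Y0' ^ 2 + Y1' ^ 2) - 2 * c2 * (Y0 * Y0' + Y1 * Y1') +
          c2 ^ 2 * (Y0 ^ 2 + Y1 ^ 2)) / (s01 z ^ 2 * q ^ 2) := by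
      field_simp
      ring
    have hV' : v 0 ^ 2 + v 1 ^ 2 = (al1 ^ 2 + be1 ^ 2) / s01 z := by
      rw [hV]
      field_simp
    rw [o, L1, L2, L3, M1, M2, M3, hc, hc2, e2, e3, hV']
    field_simp
    ring
  · rw [f4, hcd]
    have o : Y0 / (s01 z * q) * ((Y1' - Y1 * c2) / (s01 z * q)) - Y1 / (s01 z * q) *
        ((Y0' - Y0 * c2) / (s01 z * q)) = (Y0 * Y1' - Y1 * Y0') / (s01 z ^ 2 * q ^ 2) := by
      field_simp
      ring
    rw [o, M4, e3]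
    field_simp
  · rw [f5]
    have o : X0 / (a * q) * ((X1' - X1 * c) / (a * q)) - X1 / (a * q) *
        ((X0' - X0 * c) / (a * q)) = (X0 * X1' - X1 * X0') / (a ^ 2 * q ^ 2) := by
      field_simp
      ring
    rw [o, L4, e2, e3]
  · rw [f7, hcd]
    have o : Y0 / (s01 z * q) * ((Y0' - Y0 * c2) / (s01 z * q)) + Y1 / (s01 z * q) *
        ((Y1' - Y1 * c2) / (s01 z * q)) = ((Y0 * Y0' + Y1 * Y1') - (Y0 ^ 2 + Y1 ^ 2) * c2) /
        (s01 z ^ 2 * q ^ 2) := by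
      field_simp
      ring
    rw [o, M1, M2, hc2, Real.sqrt_div zero_le_one, Real.sqrt_one, hqq, e3]
    field_simp
    rw [e3]
    ring

/-- the part of the metric common to both zones, and the form `dθ̂ - κϖ` -/
theorem E1_base {z : EE 4} (hz : z ∉ T01) (hD : z ∈ DE1) (v : EE 4) :
    (wR (PhE1 z) (fderiv ℝ PhE1 z v)) ^ 2 + bC (tc (PhE1 z)) ^ 2 *
        (wn2 (PhE1 z) (fderiv ℝ PhE1 z v) -
          (n3 (PhE1 z)) ^ 2 * (wth (PhE1 z) (fderiv ℝ PhE1 z v)) ^ 2)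
      - bC (tc (PhE1 z)) ^ 2 * (bC (tc (PhE1 z)) ^ 2 - fC (tc (PhE1 z)) ^ 2) / NN (PhE1 z) *
        (wvp (PhE1 z) (fderiv ℝ PhE1 z v)) ^ 2 =
      (zRe z v) ^ 2 / (‖z‖ ^ 2 * (1 + ‖z‖ ^ 2) ^ 2) +
        (‖v‖ ^ 2 - ((zRe z v) ^ 2 + (zIm z v) ^ 2) / ‖z‖ ^ 2) / (1 + ‖z‖ ^ 2) ∧
    wth (PhE1 z) (fderiv ℝ PhE1 z v) - kap (PhE1 z) * wvp (PhE1 z) (fderiv ℝ PhE1 z v) =
      -2 * zIm z v / ‖z‖ ^ 2 ∧
    (wrho (PhE1 z) (fderiv ℝ PhE1 z v)) ^ 2 =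
      (zRe z v) ^ 2 / (‖z‖ ^ 2 * (1 + ‖z‖ ^ 2) ^ 3) := by
  obtain ⟨t0, t1⟩ := PhE1_tc hD hz
  obtain ⟨hb, hf⟩ := isCoreC.fs _ t1.le
  obtain ⟨f1, f2, f3, f4, f5⟩ := E1_forms hz v
  have h1 := not_mem_T01.1 hz
  have h2 := s23_nonneg z
  have h3 : 0 < 1 + s23 z := by linarith
  have h4 : 0 < 1 + s01 z + s23 z := by linarith
  have ha : 0 < √(s01 z) := Real.sqrt_pos.2 h1
  have hq : 0 < √(1 + s23 z) := Real.sqrt_pos.2 h3
  have hE : 0 < √(1 + s01 z + s23 z) := Real.sqrt_pos.2 h4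
  have e2 := Real.sq_sqrt h1.le
  have e3 : √(1 + s23 z) ^ 2 = 1 + s23 z := Real.sq_sqrt h3.le
  have e4 : √(1 + s01 z + s23 z) ^ 2 = 1 + s01 z + s23 z := Real.sq_sqrt h4.le
  have hb2 : bC (tc (PhE1 z)) ^ 2 = (1 + s23 z) / (1 + s01 z + s23 z) := by
    rw [hb, PhE1_cos hz, div_pow, e3, e4]
  have hf2 : fC (tc (PhE1 z)) ^ 2 = s01 z * (1 + s23 z) / (1 + s01 z + s23 z) ^ 2 := by
    rw [hf, PhE1_cos hz, PhE1_sin hz, mul_pow, div_pow, div_pow, e2, e3, e4]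
    field_simp
  have hn2 : n3 (PhE1 z) ^ 2 = 1 / (1 + s23 z) := by
    rw [PhE1_n3 hz, div_pow, e3, one_pow]
  have hN : NN (PhE1 z) = (1 + s23 z) * (s01 z + s23 z) / (1 + s01 z + s23 z) ^ 2 := by
    rw [NN, hb2, hf2, hn2]
    field_simp
    ring
  have hV : (z 0 * v 0 + z 1 * v 1) ^ 2 + (z 0 * v 1 - z 1 * v 0) ^ 2 =
      s01 z * (v 0 ^ 2 + v 1 ^ 2) := by
    unfold s01
    ring
  have hV' : v 0 ^ 2 + v 1 ^ 2 =
      ((z 0 * v 0 + z 1 * v 1) ^ 2 + (z 0 * v 1 - z 1 * v 0) ^ 2) / s01 z := by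
    rw [hV]
    field_simp
  have hAB : 0 < s01 z + s23 z := by linarith
  have hvn : ‖v‖ ^ 2 = (v 0 ^ 2 + v 1 ^ 2) + (v 2 ^ 2 + v 3 ^ 2) := by rw [norm_sq4]; ring
  have hzRe : zRe z v = (z 0 * v 0 + z 1 * v 1) + (z 2 * v 2 + z 3 * v 3) := by rw [zRe]; ring
  have hzIm : zIm z v = (z 0 * v 1 - z 1 * v 0) + (z 2 * v 3 - z 3 * v 2) := rfl
  have hE' : 1 + (s01 z + s23 z) = 1 + s01 z + s23 z := by ring
  refine ⟨?_, ?_, ?_⟩
  · rw [f1, f2, f3, f4, hb2, hf2, hn2, hN, hvn, hzRe, hzIm, hV', norm_sq_s, hE', div_pow, mul_pow,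
      mul_pow, e2, e3]
    generalize z 0 * v 0 + z 1 * v 1 = al1
    generalize z 2 * v 2 + z 3 * v 3 = al2
    generalize z 0 * v 1 - z 1 * v 0 = be1
    generalize z 2 * v 3 - z 3 * v 2 = be2
    field_simp
    ring
  · rw [f3, f4, kap, hb2, hf2, hN, hzIm, norm_sq_s]
    field_simp
    ring
  · have hrho : rhoP (PhE1 z) ^ 2 = (s01 z + s23 z) / (1 + s01 z + s23 z) := by
      rw [PhE1_rho hz, div_pow, Real.sq_sqrt (by positivity), norm_sq_s, hE']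
    have hw : cos (tc (PhE1 z)) * wn3 (PhE1 z) (fderiv ℝ PhE1 z v) -
        sin (tc (PhE1 z)) * n3 (PhE1 z) * wR (PhE1 z) (fderiv ℝ PhE1 z v) =
        -zRe z v / (√(1 + s01 z + s23 z) * (1 + s01 z + s23 z)) := by
      rw [f5, f1, PhE1_cos hz, PhE1_sin hz, PhE1_n3 hz, hzRe]
      generalize z 0 * v 0 + z 1 * v 1 = al1
      generalize z 2 * v 2 + z 3 * v 3 = al2
      generalize √(1 + s23 z) = q at *
      generalize √(1 + s01 z + s23 z) = D at *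
      generalize √(s01 z) = a at *
      field_simp
      rw [e3]
      ring
    rw [wrho, hw, PhE1_cosn3 hz, div_pow, hrho, norm_sq_s, hE']
    generalize √(1 + s01 z + s23 z) = D at *
    have e5 : (-(1 / D) * (-zRe z v / (D * (1 + s01 z + s23 z)))) ^ 2 =
        zRe z v ^ 2 / (D ^ 2 * D ^ 2 * (1 + s01 z + s23 z) ^ 2) := by
      field_simp
    rw [e5, e4]
    field_simp

/-- isometry in the P-zone -/
theorem PhE1_isom_PZ (Ψ U : ℝ → ℝ) {z : EE 4} (hz : z ∉ T01) (hD : z ∈ DE1) (hP : PhE1 z ∈ PZ) (v : EE 4) :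
    qC Ψ U (PhE1 z) (fderiv ℝ PhE1 z v) = qz (fun r => 1 - U r) z v := by
  obtain ⟨b1, b2, b3⟩ := E1_base hz hD v
  have h1 := not_mem_T01.1 hz
  have h2 := s23_nonneg z
  have hN : 0 < ‖z‖ ^ 2 := by rw [norm_sq_s]; linarith
  rw [qC, b1, b2, b3, if_pos hP, qz, PhE1_rho hz]
  have hr : (‖z‖ / √(1 + ‖z‖ ^ 2)) ^ 2 = ‖z‖ ^ 2 / (1 + ‖z‖ ^ 2) := by
    rw [div_pow, Real.sq_sqrt (by positivity)]
  rw [hr]
  have h5 : 1 - ‖z‖ ^ 2 / (1 + ‖z‖ ^ 2) = 1 / (1 + ‖z‖ ^ 2) := by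
    field_simp
    ring
  rw [h5]
  generalize U (‖z‖ / √(1 + ‖z‖ ^ 2)) = u
  generalize zRe z v = x
  generalize zIm z v = y
  generalize hi : 1 / (1 - u) = i
  generalize ‖z‖ ^ 2 = N at *
  field_simp
  ring

/-- isometry outside the P-zone where `Ψ(w) = w/2` -/
theorem PhE1_isom_out (Ψ U : ℝ → ℝ) {z : EE 4} (hz : z ∉ T01) (hD : z ∈ DE1) (hP : PhE1 z ∉ PZ)
    (hΨ : Ψ (wc (PhE1 z)) = wc (PhE1 z) / 2) (v : EE 4) :
    qC Ψ U (PhE1 z) (fderiv ℝ PhE1 z v) = qFS z v := by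
  obtain ⟨b1, b2, b3⟩ := E1_base hz hD v
  have h1 := not_mem_T01.1 hz
  have h2 := s23_nonneg z
  have hN : 0 < ‖z‖ ^ 2 := by rw [norm_sq_s]; linarith
  rw [qC, b1, b2, if_neg hP, hΨ, qFS, PhE1_wc hz hD]
  have e : (‖z‖ / (1 + ‖z‖ ^ 2) / 2) ^ 2 = ‖z‖ ^ 2 / (4 * (1 + ‖z‖ ^ 2) ^ 2) := by
    field_simp
    ring
  rw [e]
  generalize zRe z v = x
  generalize zIm z v = y
  generalize ‖z‖ ^ 2 = N at *
  field_simp
  ring

end Pool.Agent.MP39e402
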