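import Pool.Agent.Lib.MP_39e402_gt.VE2

/-! # MP_39e402, module VE2I: the chart around `E1 ∩ F` is isometric (checked numerically).
Formulas: general expression of `qC` in the header of VE1; `E = |η|²`, `A1 = |ζ1|²`: `sin²t = A1/((1+A1)(1+E))`,
`n3² = E(1+A1)/(1+E(1+A1))`, `ρ² = 1/(1+E)`, `φ2 = -arg ζ1`, `θ̂ = arg η - 2 arg ζ1`. -/

open Real Set Filter Topology MeasureTheory
open scoped ContDiff

noncomputable section

namespace Pool.Agent.MP39e402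

/-- the final identity between rational functions -/
private theorem ve2i_alg (A E a1 b1 a2 b2 V1 V2 P : ℝ) (hA : 0 < A) (hE : 0 < E)
    (hV1 : V1 = (a1 ^ 2 + b1 ^ 2) / A) (hV2 : V2 = (a2 ^ 2 + b2 ^ 2) / E) :
    A * (a1 / A - a1 / (1 + A) - a2 / (1 + E)) ^ 2 / (1 + E * (1 + A))
      + (1 + E * (1 + A)) / ((1 + A) * (1 + E)) *
        (((-(a1 / A + (a2 * (1 + A) + E * a1) / (1 + E * (1 + A)))) ^ 2 / (1 + E * (1 + A))
          + 2 * (-(a1 / A + (a2 * (1 + A) + E * a1) / (1 + E * (1 + A)))) * a1 /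
            (A * (1 + E * (1 + A))) + V1 / (A * (1 + E * (1 + A))))
          + ((a1 / (1 + A) - (a2 * (1 + A) + E * a1) / (1 + E * (1 + A)) - 2 * a1 / A) *
              (E * (1 + A) / (1 + E * (1 + A))) + (1 + A) / ((1 + E * (1 + A)) * A ^ 2) *
              (A ^ 2 * a2 + 2 * E * A * a1)) ^ 2 / (E * (1 + A) / (1 + E * (1 + A))))
      - (1 + E * (1 + A)) ^ 2 / ((1 + A) ^ 2 * (1 + E)) * (b1 / (A * (1 + E * (1 + A)))) ^ 2
      + P ^ 2 * (b2 / E - 2 * (b1 / (1 + A))) ^ 2 =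
    (V2 - 4 * (b1 / (1 + A)) * b2 + 4 * (b1 / (1 + A)) ^ 2 * E) / (1 + E) ^ 2
      + V1 / ((1 + A) ^ 2 * (1 + E))
      + (P ^ 2 - E / (1 + E) ^ 2) * (b2 / E - 2 * (b1 / (1 + A))) ^ 2 := by
  have hD : (0 : ℝ) < 1 + E * (1 + A) := by positivity
  have hA1 : (0 : ℝ) < 1 + A := by positivity
  have hE1 : (0 : ℝ) < 1 + E := by positivity
  have t1 : A * (a1 / A - a1 / (1 + A) - a2 / (1 + E)) ^ 2 / (1 + E * (1 + A)) =
      (a1 * (1 + E) - a2 * (A * (1 + A))) ^ 2 /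
        (A * (1 + A) ^ 2 * (1 + E) ^ 2 * (1 + E * (1 + A))) := by
    field_simp
    ring
  have t2 : ((-(a1 / A + (a2 * (1 + A) + E * a1) / (1 + E * (1 + A)))) ^ 2 / (1 + E * (1 + A))
          + 2 * (-(a1 / A + (a2 * (1 + A) + E * a1) / (1 + E * (1 + A)))) * a1 /
            (A * (1 + E * (1 + A))) + V1 / (A * (1 + E * (1 + A)))) =
      (a2 * (1 + A) + E * a1) ^ 2 / (1 + E * (1 + A)) ^ 3 +
        b1 ^ 2 / (A ^ 2 * (1 + E * (1 + A))) := by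
    rw [hV1]
    field_simp
    ring
  have t3 : ((a1 / (1 + A) - (a2 * (1 + A) + E * a1) / (1 + E * (1 + A)) - 2 * a1 / A) *
              (E * (1 + A) / (1 + E * (1 + A))) + (1 + A) / ((1 + E * (1 + A)) * A ^ 2) *
              (A ^ 2 * a2 + 2 * E * A * a1)) =
      (a2 * (1 + A) + E * a1) / (1 + E * (1 + A)) ^ 2 := by
    field_simp
    ring
  rw [t1, t2, t3, hV2, hV1]
  field_simp
  ring

theorem PhE2_isom (Ψ U : ℝ → ℝ) {x : EE 4} (h : x ∉ T01 ∪ T23) (hD : x ∈ DE2) (hP : PhE2 x ∉ PZ) (v : EE 4) :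
    qC Ψ U (PhE2 x) (fderiv ℝ PhE2 x v) = qe Ψ x v := by
  have hA : 0 < s01 x := not_mem_T01.1 fun h1 => h (Or.inl h1)
  have hE : 0 < s23 x := not_mem_T23.1 fun h1 => h (Or.inr h1)
  have htc := PhE2_tc hD h
  obtain ⟨hb, hf⟩ := isCoreC.fs _ htc.2.le
  have hwc := PhE2_wc hD h
  have hn3 := PhE2_n3 h
  have hnorm := PhE2_norm h
  have hdiff : DifferentiableAt ℝ PhE2 x := by
    have hopen : IsOpen (T01 ∪ T23)ᶜ := (isClosed_T01.union isClosed_T23).isOpen_compl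
    exact ((PhE2_contDiffOn.contDiffAt (hopen.mem_nhds h)).differentiableAt (by simp))
  -- names
  obtain ⟨A, hAx⟩ : ∃ z : ℝ, z = s01 x := ⟨_, rfl⟩
  obtain ⟨E, hEx⟩ : ∃ z : ℝ, z = s23 x := ⟨_, rfl⟩
  obtain ⟨a1, ha1⟩ : ∃ z : ℝ, z = x 0 * v 0 + x 1 * v 1 := ⟨_, rfl⟩
  obtain ⟨b1, hb1⟩ : ∃ z : ℝ, z = x 0 * v 1 - x 1 * v 0 := ⟨_, rfl⟩
  obtain ⟨a2, ha2⟩ : ∃ z : ℝ, z = x 2 * v 2 + x 3 * v 3 := ⟨_, rfl⟩
  obtain ⟨b2, hb2⟩ : ∃ z : ℝ, z = x 2 * v 3 - x 3 * v 2 := ⟨_, rfl⟩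
  obtain ⟨α, hα⟩ : ∃ z : ℝ, z = √A := ⟨_, rfl⟩
  obtain ⟨γ, hγ⟩ : ∃ z : ℝ, z = √(1 + A) := ⟨_, rfl⟩
  obtain ⟨δ, hδ⟩ : ∃ z : ℝ, z = √(1 + E * (1 + A)) := ⟨_, rfl⟩
  obtain ⟨om, hom⟩ : ∃ z : ℝ, z = √((1 + A) * (1 + E)) := ⟨_, rfl⟩
  rw [← hAx] at hA
  rw [← hEx] at hE
  have hαpos : 0 < α := by rw [hα]; exact Real.sqrt_pos.2 hA
  have hγpos : 0 < γ := by rw [hγ]; exact Real.sqrt_pos.2 (by positivity)
  have hδpos : 0 < δ := by rw [hδ]; exact Real.sqrt_pos.2 (by positivity)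
  have hompos : 0 < om := by rw [hom]; exact Real.sqrt_pos.2 (by positivity)
  have hα2 : α ^ 2 = A := by rw [hα]; exact Real.sq_sqrt hA.le
  have hγ2 : γ ^ 2 = 1 + A := by rw [hγ]; exact Real.sq_sqrt (by positivity)
  have hδ2 : δ ^ 2 = 1 + E * (1 + A) := by rw [hδ]; exact Real.sq_sqrt (by positivity)
  have hom2 : om ^ 2 = (1 + A) * (1 + E) := by rw [hom]; exact Real.sq_sqrt (by positivity)
  have hA0 : A = x 0 ^ 2 + x 1 ^ 2 := by rw [hAx, s01]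
  have hE0 : E = x 2 ^ 2 + x 3 ^ 2 := by rw [hEx, s23]
  -- derivatives
  have hl : ∀ i, HasDerivAt (fun t : ℝ => (x + t • v) i) (v i) 0 := by
    intro i
    have h1 : (fun t : ℝ => (x + t • v) i) = fun t : ℝ => x i + t * v i := rfl
    rw [h1]
    simpa using ((hasDerivAt_id (0 : ℝ)).mul_const (v i)).const_add (x i)
  have z0 : x + (0 : ℝ) • v = x := by simp
  have dA : HasDerivAt (fun t : ℝ => s01 (x + t • v)) (2 * a1) 0 := by
    have h1 := ((hl 0).pow 2).add ((hl 1).pow 2)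
    simp only [z0] at h1
    refine h1.congr_deriv ?_
    rw [ha1]
    push_cast
    ring
  have dE : HasDerivAt (fun t : ℝ => s23 (x + t • v)) (2 * a2) 0 := by
    have h1 := ((hl 2).pow 2).add ((hl 3).pow 2)
    simp only [z0] at h1
    refine h1.congr_deriv ?_
    rw [ha2]
    push_cast
    ring
  have dsA : HasDerivAt (fun t : ℝ => √(s01 (x + t • v))) (a1 / α) 0 := by
    have h1 := dA.sqrt (by rw [z0, ← hAx]; exact hA.ne')
    rw [z0, ← hAx, ← hα] at h1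
    refine h1.congr_deriv ?_
    field_simp
  have dsG : HasDerivAt (fun t : ℝ => √(1 + s01 (x + t • v))) (a1 / γ) 0 := by
    have h1 := (dA.const_add 1).sqrt (by rw [z0, ← hAx]; positivity)
    rw [z0, ← hAx, ← hγ] at h1
    refine h1.congr_deriv ?_
    field_simp
  have dsD : HasDerivAt (fun t : ℝ => √(1 + s23 (x + t • v) * (1 + s01 (x + t • v))))
      ((a2 * (1 + A) + E * a1) / δ) 0 := by
    have h1 := ((dE.mul (dA.const_add 1)).const_add 1).sqrt (by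
      simp only [Pi.mul_apply, z0, ← hAx, ← hEx]; positivity)
    simp only [Pi.mul_apply, z0, ← hAx, ← hEx, ← hδ] at h1
    refine h1.congr_deriv ?_
    field_simp
  have dsW : HasDerivAt (fun t : ℝ => √((1 + s01 (x + t • v)) * (1 + s23 (x + t • v))))
      ((a1 * (1 + E) + (1 + A) * a2) / om) 0 := by
    have h1 := ((dA.const_add 1).mul (dE.const_add 1)).sqrt (by
      simp only [Pi.mul_apply, z0, ← hAx, ← hEx]; positivity)
    simp only [Pi.mul_apply, z0, ← hAx, ← hEx, ← hom] at h1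
    refine h1.congr_deriv ?_
    field_simp
  obtain ⟨m2, hm2⟩ : ∃ z : ℝ, z = x 2 * (x 0 ^ 2 - x 1 ^ 2) + 2 * x 3 * x 0 * x 1 := ⟨_, rfl⟩
  obtain ⟨m3, hm3⟩ : ∃ z : ℝ, z = x 3 * (x 0 ^ 2 - x 1 ^ 2) - 2 * x 2 * x 0 * x 1 := ⟨_, rfl⟩
  obtain ⟨m2', hm2'⟩ : ∃ z : ℝ, z = v 2 * (x 0 ^ 2 - x 1 ^ 2) + x 2 * (2 * x 0 * v 0 - 2 * x 1 * v 1)
    + 2 * (v 3 * x 0 * x 1 + x 3 * v 0 * x 1 + x 3 * x 0 * v 1) := ⟨_, rfl⟩
  obtain ⟨m3', hm3'⟩ : ∃ z : ℝ, z = v 3 * (x 0 ^ 2 - x 1 ^ 2) + x 3 * (2 * x 0 * v 0 - 2 * x 1 * v 1)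
    - 2 * (v 2 * x 0 * x 1 + x 2 * v 0 * x 1 + x 2 * x 0 * v 1) := ⟨_, rfl⟩
  have dm2 : HasDerivAt (fun t : ℝ => (x + t • v) 2 * ((x + t • v) 0 ^ 2 - (x + t • v) 1 ^ 2) +
      2 * (x + t • v) 3 * (x + t • v) 0 * (x + t • v) 1) m2' 0 := by
    have h1 := ((hl 2).mul (((hl 0).pow 2).sub ((hl 1).pow 2))).add
      ((((hl 3).const_mul 2).mul (hl 0)).mul (hl 1))
    simp only [Pi.mul_apply, Pi.sub_apply, Pi.pow_apply, z0] at h1
    refine h1.congr_deriv ?_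
    rw [hm2']
    push_cast
    ring
  have dm3 : HasDerivAt (fun t : ℝ => (x + t • v) 3 * ((x + t • v) 0 ^ 2 - (x + t • v) 1 ^ 2) -
      2 * (x + t • v) 2 * (x + t • v) 0 * (x + t • v) 1) m3' 0 := by
    have h1 := ((hl 3).mul (((hl 0).pow 2).sub ((hl 1).pow 2))).sub
      ((((hl 2).const_mul 2).mul (hl 0)).mul (hl 1))
    simp only [Pi.mul_apply, Pi.sub_apply, Pi.pow_apply, z0] at h1
    refine h1.congr_deriv ?_
    rw [hm3']
    push_cast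
    ring
  have mm : m2 ^ 2 + m3 ^ 2 = E * A ^ 2 := by rw [hm2, hm3, hE0, hA0]; ring
  have mm' : m2 * m2' + m3 * m3' = A ^ 2 * a2 + 2 * E * A * a1 := by
    rw [hm2, hm3, hm2', hm3', hE0, hA0, ha1, ha2]; ring
  have mx' : m2 * m3' - m3 * m2' = A ^ 2 * b2 - 2 * E * A * b1 := by
    rw [hm2, hm3, hm2', hm3', hE0, hA0, hb1, hb2]; ring
  -- logarithmic derivatives
  obtain ⟨lm, hlm⟩ : ∃ z : ℝ, z = -(a1 / A + (a2 * (1 + A) + E * a1) / (1 + E * (1 + A))) :=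
    ⟨_, rfl⟩
  obtain ⟨ln, hln⟩ : ∃ z : ℝ, z = a1 / (1 + A) - (a2 * (1 + A) + E * a1) / (1 + E * (1 + A))
    - 2 * a1 / A := ⟨_, rfl⟩
  obtain ⟨lS, hlS⟩ : ∃ z : ℝ, z = a1 / A - a1 / (1 + A) - a2 / (1 + E) := ⟨_, rfl⟩
  obtain ⟨c0, hc0⟩ : ∃ z : ℝ, z = x 0 / (α * δ) := ⟨_, rfl⟩
  obtain ⟨c1, hc1⟩ : ∃ z : ℝ, z = -(x 1) / (α * δ) := ⟨_, rfl⟩
  obtain ⟨c2, hc2⟩ : ∃ z : ℝ, z = γ / δ * m2 / A := ⟨_, rfl⟩
  obtain ⟨c3, hc3⟩ : ∃ z : ℝ, z = γ / δ * m3 / A := ⟨_, rfl⟩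
  have dc0 : HasDerivAt (fun t : ℝ => (x + t • v) 0 / (√(s01 (x + t • v)) *
      √(1 + s23 (x + t • v) * (1 + s01 (x + t • v))))) (lm * c0 + v 0 / (α * δ)) 0 := by
    have h1 := (hl 0).div (dsA.mul dsD) (by
      simp only [Pi.mul_apply, z0, ← hAx, ← hEx, ← hα, ← hδ]; positivity)
    simp only [Pi.mul_apply, z0, ← hAx, ← hEx, ← hα, ← hδ] at h1
    refine h1.congr_deriv ?_
    rw [hlm, hc0, ← hδ2, ← hα2]
    field_simp
    ring
  have dc1 : HasDerivAt (fun t : ℝ => -((x + t • v) 1) / (√(s01 (x + t • v)) *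
      √(1 + s23 (x + t • v) * (1 + s01 (x + t • v))))) (lm * c1 - v 1 / (α * δ)) 0 := by
    have h1 := (hl 1).neg.div (dsA.mul dsD) (by
      simp only [Pi.mul_apply, z0, ← hAx, ← hEx, ← hα, ← hδ]; positivity)
    simp only [Pi.mul_apply, Pi.neg_apply, z0, ← hAx, ← hEx, ← hα, ← hδ] at h1
    refine h1.congr_deriv ?_
    rw [hlm, hc1, ← hδ2, ← hα2]
    field_simp
    ring
  have dc2 : HasDerivAt (fun t : ℝ => √(1 + s01 (x + t • v)) /
      √(1 + s23 (x + t • v) * (1 + s01 (x + t • v))) *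
      ((x + t • v) 2 * ((x + t • v) 0 ^ 2 - (x + t • v) 1 ^ 2) +
      2 * (x + t • v) 3 * (x + t • v) 0 * (x + t • v) 1) / s01 (x + t • v))
      (ln * c2 + γ / δ * m2' / A) 0 := by
    have h1 := ((dsG.div dsD (by simp only [z0, ← hAx, ← hEx, ← hδ]; positivity)).mul dm2).div dA
      (by simp only [z0, ← hAx]; positivity)
    simp only [Pi.mul_apply, Pi.div_apply, z0, ← hAx, ← hEx, ← hδ, ← hγ, ← hm2] at h1
    refine h1.congr_deriv ?_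
    rw [hln, hc2, ← hδ2, ← hγ2]
    field_simp
    ring
  have dc3 : HasDerivAt (fun t : ℝ => √(1 + s01 (x + t • v)) /
      √(1 + s23 (x + t • v) * (1 + s01 (x + t • v))) *
      ((x + t • v) 3 * ((x + t • v) 0 ^ 2 - (x + t • v) 1 ^ 2) -
      2 * (x + t • v) 2 * (x + t • v) 0 * (x + t • v) 1) / s01 (x + t • v))
      (ln * c3 + γ / δ * m3' / A) 0 := by
    have h1 := ((dsG.div dsD (by simp only [z0, ← hAx, ← hEx, ← hδ]; positivity)).mul dm3).div dA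
      (by simp only [z0, ← hAx]; positivity)
    simp only [Pi.mul_apply, Pi.div_apply, z0, ← hAx, ← hEx, ← hδ, ← hγ, ← hm3] at h1
    refine h1.congr_deriv ?_
    rw [hln, hc3, ← hδ2, ← hγ2]
    field_simp
    ring
  -- the radius
  have hSlt : α / om < 1 := by
    rw [div_lt_one hompos]
    have h5 := mul_pos hA hE
    have h6 : α ^ 2 < om ^ 2 := by
      rw [hα2, hom2]
      linarith only [h5, hA, hE]
    exact lt_of_pow_lt_pow_left₀ 2 hompos.le h6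
  have hS2 : 1 - (α / om) ^ 2 = (1 + E * (1 + A)) / ((1 + A) * (1 + E)) := by
    rw [div_pow, hα2, hom2]
    field_simp
    ring
  obtain ⟨R', hR'⟩ : ∃ z : ℝ, z = (α / om) * lS / √(1 - (α / om) ^ 2) := ⟨_, rfl⟩
  have dR : HasDerivAt (fun t : ℝ => t1C + arcsin (√(s01 (x + t • v)) /
      √((1 + s01 (x + t • v)) * (1 + s23 (x + t • v))))) R' 0 := by
    have h1 := dsA.div dsW (by simp only [z0, ← hAx, ← hEx, ← hom]; positivity)
    have h2 : HasDerivAt arcsin (1 / √(1 - (α / om) ^ 2)) (α / om) :=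
      Real.hasDerivAt_arcsin (by have : 0 < α / om := by positivity
                                 linarith) hSlt.ne
    have h3 : HasDerivAt arcsin (1 / √(1 - (α / om) ^ 2)) ((fun t : ℝ => √(s01 (x + t • v)) /
      √((1 + s01 (x + t • v)) * (1 + s23 (x + t • v)))) 0) := by
      simp only [z0, ← hAx, ← hEx, ← hα, ← hom]
      exact h2
    have h4 := (h3.comp (0 : ℝ) h1).const_add t1C
    simp only [z0, ← hAx, ← hEx, ← hα, ← hom] at h4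
    refine h4.congr_deriv ?_
    rw [hR', hlS]
    have e : α / om * (a1 / A - a1 / (1 + A) - a2 / (1 + E)) =
        (a1 / α * om - α * ((a1 * (1 + E) + (1 + A) * a2) / om)) / om ^ 2 := by
      rw [hom2]
      have e1 : α / om * (a1 / A - a1 / (1 + A) - a2 / (1 + E)) =
        (α * om) / (om ^ 2) * (a1 / A - a1 / (1 + A) - a2 / (1 + E)) := by
        field_simp
      have e2 : α * ((a1 * (1 + E) + (1 + A) * a2) / om) =
        α * om * ((a1 * (1 + E) + (1 + A) * a2) / om ^ 2) := by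
        field_simp
      have e3 : a1 / α * om = α * om * (a1 / α ^ 2) := by
        field_simp
      rw [e1, e2, e3, hom2, hα2]
      field_simp
      ring
    rw [e]
    ring
  have hR2 : R' ^ 2 = A * lS ^ 2 / (1 + E * (1 + A)) := by
    rw [hR', div_pow, mul_pow, Real.sq_sqrt (by rw [hS2]; positivity), hS2, div_pow, hα2, hom2]
    field_simp
  -- the polar form
  have hfd := fderiv_polar (Φ := PhE2)
    (R := fun x => t1C + arcsin (√(s01 x) / √((1 + s01 x) * (1 + s23 x))))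
    (a := fun x => x 0 / (√(s01 x) * √(1 + s23 x * (1 + s01 x))))
    (b := fun x => -(x 1) / (√(s01 x) * √(1 + s23 x * (1 + s01 x))))
    (c := fun x => √(1 + s01 x) / √(1 + s23 x * (1 + s01 x)) *
        (x 2 * (x 0 ^ 2 - x 1 ^ 2) + 2 * x 3 * x 0 * x 1) / s01 x)
    (d := fun x => √(1 + s01 x) / √(1 + s23 x * (1 + s01 x)) *
        (x 3 * (x 0 ^ 2 - x 1 ^ 2) - 2 * x 2 * x 0 * x 1) / s01 x)
    (fun z => rfl) hdiff dR dc0 dc1 dc2 dc3
  simp only [← hAx, ← hEx, ← hα, ← hγ, ← hδ, ← hom, ← hm2, ← hm3, ← hc0, ← hc1, ← hc2, ← hc3] at hfd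
  have hx0 : PhE2 x = (t1C + arcsin (α / om)) • v4 c0 c1 c2 c3 := by
    have : PhE2 x = (t1C + arcsin (√(s01 x) / √((1 + s01 x) * (1 + s23 x)))) •
      v4 (x 0 / (√(s01 x) * √(1 + s23 x * (1 + s01 x))))
        (-(x 1) / (√(s01 x) * √(1 + s23 x * (1 + s01 x))))
        (√(1 + s01 x) / √(1 + s23 x * (1 + s01 x)) *
        (x 2 * (x 0 ^ 2 - x 1 ^ 2) + 2 * x 3 * x 0 * x 1) / s01 x)
        (√(1 + s01 x) / √(1 + s23 x * (1 + s01 x)) *
        (x 3 * (x 0 ^ 2 - x 1 ^ 2) - 2 * x 2 * x 0 * x 1) / s01 x) := rfl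
    rw [this]
    simp only [← hAx, ← hEx, ← hα, ← hγ, ← hδ, ← hom, ← hm2, ← hm3, ← hc0, ← hc1, ← hc2, ← hc3]
  -- sums
  obtain ⟨D, hDdef⟩ : ∃ z : ℝ, z = 1 + E * (1 + A) := ⟨_, rfl⟩
  have hDpos : 0 < D := by rw [hDdef]; positivity
  have hδD : δ ^ 2 = D := by rw [hδ2, hDdef]
  have s1 : c0 ^ 2 + c1 ^ 2 = 1 / D := by
    rw [hc0, hc1, div_pow, div_pow, mul_pow, hα2, hδD, ← add_div, neg_sq, ← hA0]
    field_simp
  have s2 : c2 ^ 2 + c3 ^ 2 = E * (1 + A) / D := by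
    rw [hc2, hc3, div_pow, div_pow, mul_pow, mul_pow, div_pow, hγ2, hδD, ← add_div, ← mul_add, mm]
    field_simp
  have s3 : c0 * (lm * c0 + v 0 / (α * δ)) + c1 * (lm * c1 - v 1 / (α * δ)) =
      lm / D + a1 / (A * D) := by
    have e : c0 * (lm * c0 + v 0 / (α * δ)) + c1 * (lm * c1 - v 1 / (α * δ)) =
      lm * (c0 ^ 2 + c1 ^ 2) + a1 / (α ^ 2 * δ ^ 2) := by
      rw [hc0, hc1, ha1]
      field_simp
      ring
    rw [e, s1, hα2, hδD]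
    ring
  have s4 : c2 * (ln * c2 + γ / δ * m2' / A) + c3 * (ln * c3 + γ / δ * m3' / A) =
      ln * (E * (1 + A) / D) + (1 + A) / (D * A ^ 2) * (A ^ 2 * a2 + 2 * E * A * a1) := by
    have e : c2 * (ln * c2 + γ / δ * m2' / A) + c3 * (ln * c3 + γ / δ * m3' / A) =
      ln * (c2 ^ 2 + c3 ^ 2) + γ ^ 2 / (δ ^ 2 * A ^ 2) * (m2 * m2' + m3 * m3') := by
      rw [hc2, hc3]
      field_simp
      ring
    rw [e, s2, hγ2, hδD, mm']
  have s5 : (lm * c0 + v 0 / (α * δ)) ^ 2 + (lm * c1 - v 1 / (α * δ)) ^ 2 =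
      lm ^ 2 / D + 2 * lm * a1 / (A * D) + (v 0 ^ 2 + v 1 ^ 2) / (A * D) := by
    have e : (lm * c0 + v 0 / (α * δ)) ^ 2 + (lm * c1 - v 1 / (α * δ)) ^ 2 =
      lm ^ 2 * (c0 ^ 2 + c1 ^ 2) + 2 * lm * a1 / (α ^ 2 * δ ^ 2) +
        (v 0 ^ 2 + v 1 ^ 2) / (α ^ 2 * δ ^ 2) := by
      rw [hc0, hc1, ha1]
      field_simp
      ring
    rw [e, s1, hα2, hδD]
    ring
  have s6 : c0 * (lm * c1 - v 1 / (α * δ)) - c1 * (lm * c0 + v 0 / (α * δ)) = -(b1 / (A * D)) := by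
    have e : c0 * (lm * c1 - v 1 / (α * δ)) - c1 * (lm * c0 + v 0 / (α * δ)) =
      -(b1 / (α ^ 2 * δ ^ 2)) := by
      rw [hc0, hc1, hb1]
      field_simp
      ring
    rw [e, hα2, hδD]
  have s7 : c2 * (ln * c3 + γ / δ * m3' / A) - c3 * (ln * c2 + γ / δ * m2' / A) =
      (1 + A) / (D * A ^ 2) * (A ^ 2 * b2 - 2 * E * A * b1) := by
    have e : c2 * (ln * c3 + γ / δ * m3' / A) - c3 * (ln * c2 + γ / δ * m2' / A) =
      γ ^ 2 / (δ ^ 2 * A ^ 2) * (m2 * m3' - m3 * m2') := by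
      rw [hc2, hc3]
      field_simp
      ring
    rw [e, hγ2, hδD, mx']
  have hS : c2 ^ 2 + c3 ^ 2 ≠ 0 := by
    rw [s2]
    positivity
  have hunit : c0 ^ 2 + c1 ^ 2 + c2 ^ 2 + c3 ^ 2 = 1 := by
    have : c0 ^ 2 + c1 ^ 2 + c2 ^ 2 + c3 ^ 2 = (c0 ^ 2 + c1 ^ 2) + (c2 ^ 2 + c3 ^ 2) := by ring
    rw [this, s1, s2, hDdef]
    field_simp
  have horth : c0 * (lm * c0 + v 0 / (α * δ)) + c1 * (lm * c1 - v 1 / (α * δ)) +
      c2 * (ln * c2 + γ / δ * m2' / A) + c3 * (ln * c3 + γ / δ * m3' / A) = 0 := by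
    have : c0 * (lm * c0 + v 0 / (α * δ)) + c1 * (lm * c1 - v 1 / (α * δ)) +
      c2 * (ln * c2 + γ / δ * m2' / A) + c3 * (ln * c3 + γ / δ * m3' / A) =
      (c0 * (lm * c0 + v 0 / (α * δ)) + c1 * (lm * c1 - v 1 / (α * δ))) +
      (c2 * (ln * c2 + γ / δ * m2' / A) + c3 * (ln * c3 + γ / δ * m3' / A)) := by ring
    rw [this, s3, s4, hlm, hln, hDdef]
    field_simp
    ring
  have hRpos : 0 < t1C + arcsin (α / om) := by
    have h1 := isCoreC.t1_pos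
    have h2 : 0 ≤ arcsin (α / om) := Real.arcsin_nonneg.2 (by positivity)
    linarith
  obtain ⟨f1, f2, f3, f4, f5, f6, f7⟩ := forms_polar hRpos hunit horth hS hx0 hfd
  -- cosine
  have htcv : tc (PhE2 x) = arcsin (α / om) := by
    rw [tc, f1]
    ring
  have hsin : sin (tc (PhE2 x)) ^ 2 = A / ((1 + A) * (1 + E)) := by
    rw [htcv, Real.sin_arcsin (by have : 0 < α / om := by positivity
                                  linarith) hSlt.le, div_pow, hα2, hom2]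
  have hcos : cos (tc (PhE2 x)) ^ 2 = D / ((1 + A) * (1 + E)) := by
    have := Real.sin_sq_add_cos_sq (tc (PhE2 x))
    have e : cos (tc (PhE2 x)) ^ 2 = 1 - sin (tc (PhE2 x)) ^ 2 := by linarith
    rw [e, hsin, hDdef]
    field_simp
    ring
  have hn32 : n3 (PhE2 x) ^ 2 = E * (1 + A) / D := by
    rw [f6, Real.sq_sqrt (by positivity), s2]
  have hbf : bC (tc (PhE2 x)) ^ 2 - fC (tc (PhE2 x)) ^ 2 = (D / ((1 + A) * (1 + E))) ^ 2 := by
    rw [hb, hf, mul_pow, hsin, hcos, hDdef]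
    field_simp
    ring
  have hNN : NN (PhE2 x) = D / ((1 + A) * (1 + E)) / (1 + E) := by
    rw [NN, hbf, hn32, hb, hcos, hDdef]
    field_simp
    ring
  have hkap : kap (PhE2 x) = 2 * D / (1 + A) := by
    rw [kap, hbf, hNN]
    field_simp
  have hwth : wth (PhE2 x) (fderiv ℝ PhE2 x v) = b2 / E - 2 * b1 / A := by
    rw [f4, s7, s2]
    field_simp
  have hlag : wn2 (PhE2 x) (fderiv ℝ PhE2 x v) -
      n3 (PhE2 x) ^ 2 * wth (PhE2 x) (fderiv ℝ PhE2 x v) ^ 2 =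
      (lm ^ 2 / D + 2 * lm * a1 / (A * D) + (v 0 ^ 2 + v 1 ^ 2) / (A * D)) +
      (ln * (E * (1 + A) / D) + (1 + A) / (D * A ^ 2) * (A ^ 2 * a2 + 2 * E * A * a1)) ^ 2 /
        (E * (1 + A) / D) := by
    rw [f3, f4, f6, Real.sq_sqrt (by positivity), ← s5, ← s4, ← s2]
    field_simp
    ring
  unfold qC qe
  rw [if_neg hP, f2, hR2, hlag, hkap, hwth, f5, s6, hbf, hNN, hb, hcos, hwc]
  have hgoal := ve2i_alg A E a1 b1 a2 b2 (v 0 ^ 2 + v 1 ^ 2) (v 2 ^ 2 + v 3 ^ 2)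
    (Ψ (√(s23 x) / (1 + s23 x))) hA hE
    (by rw [ha1, hb1, hA0]
        have : x 0 ^ 2 + x 1 ^ 2 ≠ 0 := by rw [← hA0]; exact hA.ne'
        field_simp
        ring)
    (by rw [ha2, hb2, hE0]
        have : x 2 ^ 2 + x 3 ^ 2 ≠ 0 := by rw [← hE0]; exact hE.ne'
        field_simp
        ring)
  have e1 : b2 / E - 2 * b1 / A - 2 * D / (1 + A) * -(b1 / (A * D)) =
      b2 / E - 2 * (b1 / (1 + A)) := by
    field_simp
    ring
  have e2 : D / ((1 + A) * (1 + E)) * (D / ((1 + A) * (1 + E))) ^ 2 /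
      (D / ((1 + A) * (1 + E)) / (1 + E)) * (-(b1 / (A * D))) ^ 2 =
      D ^ 2 / ((1 + A) ^ 2 * (1 + E)) * (b1 / (A * D)) ^ 2 := by
    field_simp
  have e3 : (√(s23 x) / (1 + s23 x)) ^ 2 = E / (1 + E) ^ 2 := by
    rw [← hEx, div_pow, Real.sq_sqrt hE.le]
  rw [e1, e2, e3, ← hAx, ← hEx, ← hb1, ← hb2, hlm, hln, hlS, hDdef]
  rw [← hEx] at hgoal
  linarith [hgoal]

end Pool.Agent.MP39e402
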