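import Pool.Agent.Lib.MP_39e402_gt.MNeglDist
import Pool.Agent.Lib.MP_39e402_gt.VBI
import Pool.Agent.Lib.MP_39e402_gt.VE1I
import Pool.Agent.Lib.MP_39e402_gt.VE2I

/-! # MP_39e402, module VClass: sequences in the core leaving `t > 0` or approaching the cap converge in charts.

Proof.  `‖x_j‖ → t1`: pass to a subsequence with `n3 (x_j) → ν ∈ [0,1]`, `rhoP (x_j) → ρ* = √(1-ν²) ≥ a`.
* `ρ* = a`: the `x_j` are in PZ for large `j` (`a < 1/2`), second case;
* `a < ρ* ≤ 17/20`: lift to `z_j` (`PhE1_surj`), `|z1| = tan t/n3 → 0`, `|z2|` bounded; subsequence `z_j → z* ∈ T01`,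
  `z* ≠ 0`; `V` = a small ball around `z*` (no two antipodal points) contained in `DE1` and in `{a < ρ < 9/10}`,
  `T = T01`, `Φ = PhE1`, `h = polMet (qz W)` with `W = 1 - U` (for `ρ ≥ ρ1` `U = ρ²`, `qz = qFS`; outside PZ use
  `PhE1_isom_out` as `w = ‖z‖/(1+‖z‖²) ≥ 1/4 ≥ δ`, `qz_eq_qFS`); escape: `‖PhE1 z‖ → t1`.
* `ρ* ≥ 4/5`: lift by `PhE2_surj`, `V = DE2 ∩ {s23 < 1}`, `T = T01 ∪ T23`, `h = polMet (qe Ψ)`.
Second case (`x_j ∈ PZ`, `rhoP (x_j) → a`): `PhB_surj`, `V = DB a r`, `r = min (ρ1/2) (sin ta)`, `h = polMet (qb a)`. -/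

open Real Set Filter Topology MeasureTheory
open scoped ContDiff

noncomputable section

namespace Pool.Agent.MP39e402

/-! ### quadratic forms -/

/-- linear forms -/
def VClass_lin (L : EE 4 → ℝ) : Prop := ∃ a : Fin 4 → ℝ, ∀ v, L v = ∑ i, a i * v i

theorem VClass_lin.congr {L M : EE 4 → ℝ} (h : VClass_lin L) (e : ∀ v, L v = M v) :
    VClass_lin M := by
  obtain ⟨a, ha⟩ := h
  exact ⟨a, fun v => by rw [← e, ha]⟩

theorem VClass_lin.smul {L : EE 4 → ℝ} (h : VClass_lin L) (c : ℝ) :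
    VClass_lin (fun v => c * L v) := by
  obtain ⟨a, ha⟩ := h
  refine ⟨fun i => c * a i, fun v => ?_⟩
  simp only [ha, Finset.mul_sum, mul_assoc]

theorem VClass_lin.sub {L M : EE 4 → ℝ} (h : VClass_lin L) (h' : VClass_lin M) :
    VClass_lin (fun v => L v - M v) := by
  obtain ⟨a, ha⟩ := h
  obtain ⟨b, hb⟩ := h'
  refine ⟨fun i => a i - b i, fun v => ?_⟩
  simp only [ha, hb, ← Finset.sum_sub_distrib, sub_mul]

theorem VClass_qf_congr {q q' : EE 4 → ℝ} (h : IsQF q) (e : ∀ v, q v = q' v) : IsQF q' := by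
  obtain ⟨A, hA, hq⟩ := h
  exact ⟨A, hA, fun v => by rw [← e, hq]⟩

theorem VClass_qf_mul {L M : EE 4 → ℝ} (h : VClass_lin L) (h' : VClass_lin M) :
    IsQF (fun v => L v * M v) := by
  obtain ⟨a, ha⟩ := h
  obtain ⟨b, hb⟩ := h'
  refine ⟨Matrix.of fun i j => (a i * b j + a j * b i) / 2, fun i j => ?_, fun v => ?_⟩
  · simp only [Matrix.of_apply]
    ring
  · simp only [ha, hb, Matrix.of_apply, Fin.sum_univ_four]
    ring

theorem VClass_qf_add {q q' : EE 4 → ℝ} (h : IsQF q) (h' : IsQF q') :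
    IsQF (fun v => q v + q' v) := by
  obtain ⟨A, hA, hq⟩ := h
  obtain ⟨B, hB, hq'⟩ := h'
  refine ⟨A + B, fun i j => ?_, fun v => ?_⟩
  · simp only [Matrix.add_apply, hA i j, hB i j]
  · simp only [hq, hq', Matrix.add_apply, Fin.sum_univ_four]
    ring

theorem VClass_qf_smul {q : EE 4 → ℝ} (h : IsQF q) (c : ℝ) : IsQF (fun v => c * q v) := by
  obtain ⟨A, hA, hq⟩ := h
  refine ⟨c • A, fun i j => ?_, fun v => ?_⟩
  · simp only [Matrix.smul_apply, hA i j]
  · simp only [hq, Matrix.smul_apply, Fin.sum_univ_four, smul_eq_mul]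
    ring

theorem VClass_normsq (v : EE 4) : ‖v‖ ^ 2 = v 0 ^ 2 + v 1 ^ 2 + v 2 ^ 2 + v 3 ^ 2 := by
  rw [EuclideanSpace.real_norm_sq_eq, Fin.sum_univ_four]

theorem VClass_qf_norm : IsQF (fun v => ‖v‖ ^ 2) := by
  refine ⟨Matrix.of fun i j => if i = j then 1 else 0, fun i j => ?_, fun v => ?_⟩
  · simp only [Matrix.of_apply, eq_comm]
  · show ‖v‖ ^ 2 = _
    rw [VClass_normsq]
    simp [Fin.sum_univ_four]
    ring

/-- polarisation -/
theorem VClass_gquad (q : EE 4 → EE 4 → ℝ) (p : EE 4) (h : IsQF (q p)) (v : EE 4) :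
    gquad (polMet q) p v = q p v := by
  obtain ⟨A, hA, hq⟩ := h
  have key : ∀ i j, polMet q p i j = A i j := by
    intro i j
    unfold polMet
    simp only [Matrix.of_apply, hq]
    have hs := hA
    fin_cases i <;> fin_cases j <;>
      simp [Fin.sum_univ_four, e4] <;>
      linarith [hs 0 1, hs 0 2, hs 0 3, hs 1 2, hs 1 3, hs 2 3]
  unfold gquad
  rw [hq]
  simp only [key]

theorem VClass_lin_wR (x : EE 4) : VClass_lin (wR x) := by
  refine ⟨fun i => x i / ‖x‖, fun v => ?_⟩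
  simp only [wR, Fin.sum_univ_four]
  ring

theorem VClass_lin_wth (x : EE 4) : VClass_lin (wth x) := by
  refine ⟨![0, 0, -(x 3) / Ur x ^ 2, x 2 / Ur x ^ 2], fun v => ?_⟩
  simp [wth, Fin.sum_univ_four]
  ring

theorem VClass_lin_wvp (x : EE 4) : VClass_lin (wvp x) := by
  refine ⟨![-(x 1) / ‖x‖ ^ 2, x 0 / ‖x‖ ^ 2, 0, 0], fun v => ?_⟩
  simp [wvp, Fin.sum_univ_four]
  ring

theorem VClass_lin_wU (x : EE 4) : VClass_lin (wU x) := by
  refine ⟨![0, 0, x 2 / Ur x, x 3 / Ur x], fun v => ?_⟩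
  simp [wU, Fin.sum_univ_four]
  ring

theorem VClass_lin_wrho (x : EE 4) : VClass_lin (wrho x) := by
  have h1 := (((VClass_lin_wU x).smul (cos (tc x) / ‖x‖)).sub
    ((VClass_lin_wR x).smul (cos (tc x) * (Ur x / ‖x‖ ^ 2)))).sub
    ((VClass_lin_wR x).smul (sin (tc x) * n3 x))
  refine (h1.smul (-(cos (tc x) * n3 x) / rhoP x)).congr fun v => ?_
  simp only [wrho, wn3]
  ring

theorem VClass_qC (Ψ U : ℝ → ℝ) (x : EE 4) : IsQF (qC Ψ U x) := by
  have h1 := VClass_qf_mul (VClass_lin_wR x) (VClass_lin_wR x)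
  have h2 := VClass_qf_smul VClass_qf_norm (bC (tc x) ^ 2 / ‖x‖ ^ 2)
  have h3 := VClass_qf_smul h1 (-(bC (tc x) ^ 2 / ‖x‖ ^ 2))
  have h4 := VClass_qf_smul (VClass_qf_mul (VClass_lin_wth x) (VClass_lin_wth x))
    (-(bC (tc x) ^ 2 * n3 x ^ 2))
  have h5 := VClass_qf_smul (VClass_qf_mul (VClass_lin_wvp x) (VClass_lin_wvp x))
    (-(bC (tc x) ^ 2 * (bC (tc x) ^ 2 - fC (tc x) ^ 2) / NN x))
  have hk := (VClass_lin_wth x).sub ((VClass_lin_wvp x).smul (kap x))
  have h6 := VClass_qf_mul hk hk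
  have h7 := VClass_qf_mul (VClass_lin_wrho x) (VClass_lin_wrho x)
  have h8 := VClass_qf_add (VClass_qf_add (VClass_qf_add (VClass_qf_add h1 h2) h3) h4) h5
  by_cases hP : x ∈ PZ
  · refine VClass_qf_congr (VClass_qf_add h8 (VClass_qf_add
      (VClass_qf_smul h7 (1 / (1 - U (rhoP x)) - 1 / (1 - rhoP x ^ 2)))
      (VClass_qf_smul h6 (rhoP x ^ 2 * (1 - U (rhoP x)) / 4)))) fun v => ?_
    simp only [qC, if_pos hP, wn2]
    ring
  · refine VClass_qf_congr (VClass_qf_add h8 (VClass_qf_smul h6 (Ψ (wc x) ^ 2))) fun v => ?_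
    simp only [qC, if_neg hP, wn2]
    ring

/-! ### elementary facts -/

theorem VClass_norm_s (z : EE 4) : ‖z‖ ^ 2 = s01 z + s23 z := by
  rw [VClass_normsq]
  unfold s01 s23
  ring

theorem VClass_s01_nonneg (z : EE 4) : 0 ≤ s01 z := by
  unfold s01
  positivity

theorem VClass_s23_nonneg (z : EE 4) : 0 ≤ s23 z := by
  unfold s23
  positivity

theorem VClass_cont_coord (i : Fin 4) : Continuous fun z : EE 4 => z i := by
  fun_prop

theorem VClass_cont_s01 : Continuous s01 := by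
  unfold s01
  fun_prop

theorem VClass_cont_s23 : Continuous s23 := by
  unfold s23
  fun_prop

theorem VClass_cont_Ur : Continuous Ur := by
  unfold Ur
  fun_prop

theorem VClass_cont_tc : Continuous tc := by
  unfold tc
  fun_prop

theorem VClass_n3_at {u : EE 4} (hu : ‖u‖ ≠ 0) : ContinuousAt n3 u :=
  VClass_cont_Ur.continuousAt.div continuous_norm.continuousAt hu

theorem VClass_rhoP_at {u : EE 4} (hu : ‖u‖ ≠ 0) : ContinuousAt rhoP u := by
  have h1 : ContinuousAt (fun x => cos (tc x)) u :=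
    continuous_cos.continuousAt.comp VClass_cont_tc.continuousAt
  exact ((continuousAt_const.sub ((h1.pow 2).mul ((VClass_n3_at hu).pow 2)))).sqrt

theorem VClass_Ur_le (x : EE 4) : Ur x ≤ ‖x‖ := by
  unfold Ur
  refine Real.sqrt_le_iff.mpr ⟨norm_nonneg x, ?_⟩
  rw [VClass_normsq]
  nlinarith [sq_nonneg (x 0), sq_nonneg (x 1)]

theorem VClass_Ur_nonneg (x : EE 4) : 0 ≤ Ur x := Real.sqrt_nonneg _

theorem VClass_n3_mem (x : EE 4) : n3 x ∈ Icc (0 : ℝ) 1 :=
  ⟨div_nonneg (VClass_Ur_nonneg x) (norm_nonneg x),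
    div_le_one_of_le₀ (VClass_Ur_le x) (norm_nonneg x)⟩

theorem VClass_Ur_ne {x : EE 4} (h : n3 x ≠ 0) : Ur x ≠ 0 := by
  intro h0
  exact h (by unfold n3; rw [h0, zero_div])

theorem VClass_t1 : 0 < t1C := isCoreC.t1_pos

theorem VClass_sinta : 0 < sin taC := by
  have h1 := isCoreC.ta_pos
  have h2 := isCoreC.ta_le
  exact sin_pos_of_pos_of_lt_pi h1 (by linarith [Real.pi_gt_three])

theorem VClass_zero_mem_T01 {z : EE 4} : z ∈ T01 ↔ s01 z = 0 := by
  have h := not_mem_T01 (z := z)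
  have h1 := VClass_s01_nonneg z
  constructor
  · intro h2
    by_contra h3
    exact (h.mpr (lt_of_le_of_ne h1 (Ne.symm h3))) h2
  · intro h2
    by_contra h3
    have := h.mp h3
    linarith

theorem VClass_zero_mem_T23 {z : EE 4} : z ∈ T23 ↔ s23 z = 0 := by
  have h := not_mem_T23 (z := z)
  have h1 := VClass_s23_nonneg z
  constructor
  · intro h2
    by_contra h3
    exact (h.mpr (lt_of_le_of_ne h1 (Ne.symm h3))) h2
  · intro h2
    by_contra h3
    have := h.mp h3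
    linarith

/-- the norms of the images tend to `t1`: there is no limit in the domain -/
theorem VClass_esc_norm {a : ℝ} {y : ℕ → EE 4} (h : Tendsto (fun j => ‖y j‖) atTop (𝓝 t1C))
    (u : EE 4) (hu : u ∈ Uc a) : ¬ Tendsto y atTop (𝓝 u) := by
  intro hy
  have h1 := tendsto_nhds_unique hy.norm h
  exact absurd h1 (ne_of_gt hu.1)

/-- subsequences -/
theorem VClass_sub (z : ℕ → EE 4) (C : ℝ) (h : ∀ j, s01 (z j) + s23 (z j) ≤ C) :
    ∃ (z0 : EE 4) (φ : ℕ → ℕ), StrictMono φ ∧ Tendsto (fun j => z (φ j)) atTop (𝓝 z0) := by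
  have hb : ∀ j, z j ∈ Metric.closedBall (0 : EE 4) (√C) := by
    intro j
    rw [mem_closedBall_zero_iff]
    refine Real.le_sqrt_of_sq_le ?_
    rw [VClass_norm_s]
    exact h j
  obtain ⟨z0, _, φ, hφ, hlim⟩ := tendsto_subseq_of_bounded Metric.isBounded_closedBall hb
  exact ⟨z0, φ, hφ, hlim⟩

theorem VClass_fin {U O : Set (EE 4)} {g : RMetric 4} {x : ℕ → EE 4} {V T : Set (EE 4)}
    {h : RMetric 4} {Φ : EE 4 → EE 4} (H : LIso U g V h T Φ) (hinj : InjOn Φ (V \ T))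
    (hO : MapsTo Φ (V \ T) O) (z : ℕ → EE 4) (θ : ℕ → ℕ) (hθ : StrictMono θ)
    (hz : ∀ j, z j ∉ T) (hΦ : ∀ j, Φ (z j) = x (θ j)) {z0 : EE 4} (hz0 : z0 ∈ V)
    (hlim : Tendsto z atTop (𝓝 z0)) : ChartC U g O x := by
  have h1 := hlim.eventually (H.met.isOpen.mem_nhds hz0)
  obtain ⟨N, hN⟩ := eventually_atTop.mp h1
  refine ⟨V, h, T, Φ, H, hinj, hO, z0, hz0, fun j => z (j + N), fun j => θ (j + N), ?_, ?_, ?_, ?_⟩
  · intro i j hij
    exact hθ (by simpa using hij)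
  · intro j
    exact ⟨hN (j + N) (Nat.le_add_left N j), hz _⟩
  · exact (tendsto_add_atTop_iff_nat N).mpr hlim
  · intro j
    exact hΦ _

theorem VClass_comp {U O : Set (EE 4)} {g : RMetric 4} {x : ℕ → EE 4} {θ : ℕ → ℕ}
    (hθ : StrictMono θ) (h : ChartC U g O (fun j => x (θ j))) : ChartC U g O x := by
  obtain ⟨V, h', T, Φ, H, hinj, hO, x₀, hx₀, z, φ, hφ, h1, h2, h3⟩ := h
  exact ⟨V, h', T, Φ, H, hinj, hO, x₀, hx₀, z, fun j => θ (φ j), hθ.comp hφ, h1, h2, h3⟩

/-- `sin t ≤ ρ` -/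
theorem VClass_sin_le (x : EE 4) : sin (tc x) ^ 2 ≤ 1 - cos (tc x) ^ 2 * n3 x ^ 2 := by
  have h1 := VClass_n3_mem x
  have h2 : n3 x ^ 2 ≤ 1 := by nlinarith [h1.1, h1.2]
  have h3 := sin_sq_add_cos_sq (tc x)
  nlinarith [sq_nonneg (cos (tc x))]

/-! ### the first chart -/

theorem VClass_E1_norm_tendsto {z : ℕ → EE 4} (hz : ∀ j, z j ∉ T01) {z0 : EE 4} (h0 : z0 ∈ T01)
    (hlim : Tendsto z atTop (𝓝 z0)) : Tendsto (fun j => ‖PhE1 (z j)‖) atTop (𝓝 t1C) := by
  have h1 : Continuous fun w : EE 4 => t1C + arcsin (√(s01 w) / √(1 + s01 w + s23 w)) := by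
    have h2 := VClass_cont_s01
    have h3 := VClass_cont_s23
    refine continuous_const.add (continuous_arcsin.comp (h2.sqrt.div ?_ fun w => ?_))
    · exact ((continuous_const.add h2).add h3).sqrt
    · have := VClass_s01_nonneg w
      have := VClass_s23_nonneg w
      positivity
  have h2 := (h1.tendsto z0).comp hlim
  rw [VClass_zero_mem_T01.mp h0] at h2
  simp only [Real.sqrt_zero, zero_div, arcsin_zero, add_zero] at h2
  refine h2.congr fun j => ?_
  simp only [Function.comp_apply]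
  rw [PhE1_norm (hz j)]

theorem VClass_E1_Ur {z : EE 4} (hz : z ∉ T01) : Ur (PhE1 z) ≠ 0 := by
  refine VClass_Ur_ne ?_
  rw [PhE1_n3 hz]
  have := VClass_s23_nonneg z
  positivity

/-- conditions for the z-chart to be an isometry -/
theorem VClass_E1_LIso {a : ℝ} {Ψ U : ℝ → ℝ} {q : EE 4 → EE 4 → ℝ} {V : Set (EE 4)}
    (hV : V ⊆ DE1) (hmet : IsRMetricOn (polMet q) V) (hq : ∀ z v, gquad (polMet q) z v = q z v)
    (hrho : ∀ z ∈ V \ T01, a < ‖z‖ / √(1 + ‖z‖ ^ 2))
    (hin : ∀ z ∈ V \ T01, PhE1 z ∈ PZ → ∀ v, qz (fun r => 1 - U r) z v = q z v)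
    (hout : ∀ z ∈ V \ T01, PhE1 z ∉ PZ → Ψ (wc (PhE1 z)) = wc (PhE1 z) / 2 ∧
      ∀ v, qFS z v = q z v) :
    LIso (Uc a) (polMet (qC Ψ U)) V (polMet q) T01 PhE1 where
  met := hmet
  negl := negl_T01
  maps := by
    intro z hz
    have h1 := PhE1_tc (hV hz.1) hz.2
    refine ⟨?_, VClass_E1_Ur hz.2, ?_⟩
    · have h2 := h1.1
      unfold tc at h2
      linarith
    · intro h2
      have h3 := h2.2
      rw [PhE1_rho hz.2] at h3
      exact absurd h3 (not_le.mpr (hrho z hz))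
  smooth := PhE1_contDiffOn.mono fun z hz => hz.2
  isom := by
    intro z hz v
    rw [VClass_gquad _ _ (VClass_qC Ψ U _), hq]
    by_cases hP : PhE1 z ∈ PZ
    · rw [PhE1_isom_PZ Ψ U hz.2 (hV hz.1) hP v, hin z hz hP v]
    · rw [PhE1_isom_out Ψ U hz.2 (hV hz.1) hP (hout z hz hP).1 v, (hout z hz hP).2 v]
  esc := by
    intro x hx z hz hlim u hu
    exact VClass_esc_norm (VClass_E1_norm_tendsto (fun j => (hx j).2) hz.2 hlim) u hu

theorem VClass_one_sub (z : EE 4) : 1 - (‖z‖ / √(1 + ‖z‖ ^ 2)) ^ 2 = 1 / (1 + ‖z‖ ^ 2) := by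
  rw [div_pow, Real.sq_sqrt (by positivity)]
  field_simp
  ring

theorem VClass_ne_zero {z : EE 4} (hz : z ∉ T01) : z ≠ 0 := by
  intro h
  refine hz ?_
  rw [h]
  exact ⟨rfl, rfl⟩

theorem VClass_caseP {ε δ ρ1 a : ℝ} {Ψ U : ℝ → ℝ} (hΨ : IsEdge ε δ Ψ) (hδ : δ ≤ 1 / 4)
    (hU : IsCap ρ1 a U) (h1 : ρ1 ≤ 1 / 4) (x : ℕ → EE 4) (hx : ∀ j, x j ∈ Uc a)
    (hlim : Tendsto (fun j => ‖x j‖) atTop (𝓝 t1C)) (ν : ℝ) (hν : 0 < ν)
    (hn3 : Tendsto (fun j => n3 (x j)) atTop (𝓝 ν))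
    (ρs : ℝ) (hρ : Tendsto (fun j => rhoP (x j)) atTop (𝓝 ρs)) (hρa : a < ρs)
    (hρ2 : ρs ≤ 17 / 20) :
    ChartC (Uc a) (polMet (qC Ψ U)) {x | tc x < taC} x := by
  -- make `t < π/2`
  have ht : Tendsto (fun j => tc (x j)) atTop (𝓝 0) := by
    have := hlim.sub_const t1C
    rwa [sub_self] at this
  have hev : ∀ᶠ j in atTop, tc (x j) < 1 := ht.eventually_lt_const one_pos
  obtain ⟨N, hN⟩ := eventually_atTop.mp hev
  have hlift : ∀ j, ∃ z, z ∉ T01 ∧ PhE1 z = x (j + N) := by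
    intro j
    have h2 := hx (j + N)
    refine PhE1_surj ?_ ?_ h2.2.1
    · have h3 := h2.1
      unfold tc
      linarith
    · have h3 := hN (j + N) (Nat.le_add_left N j)
      linarith [Real.pi_gt_three]
  choose z hzT hz using hlift
  have hn3' : Tendsto (fun j => n3 (x (j + N))) atTop (𝓝 ν) :=
    (tendsto_add_atTop_iff_nat N).mpr hn3
  have hρ' : Tendsto (fun j => rhoP (x (j + N))) atTop (𝓝 ρs) :=
    (tendsto_add_atTop_iff_nat N).mpr hρ
  have ht' : Tendsto (fun j => tc (x (j + N))) atTop (𝓝 0) :=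
    (tendsto_add_atTop_iff_nat N).mpr ht
  have hs23 : Tendsto (fun j => 1 + s23 (z j)) atTop (𝓝 (1 / ν ^ 2)) := by
    have h2 : Tendsto (fun j => 1 / (n3 (x (j + N))) ^ 2) atTop (𝓝 (1 / ν ^ 2)) :=
      tendsto_const_nhds.div (hn3'.pow 2) (pow_ne_zero 2 hν.ne')
    refine h2.congr fun j => ?_
    have h3 := VClass_s23_nonneg (z j)
    rw [← hz j, PhE1_n3 (hzT j), div_pow, Real.sq_sqrt (by positivity)]
    field_simp
  have hσ : Tendsto (fun j => √(s01 (z j)) / √(1 + s01 (z j) + s23 (z j))) atTop (𝓝 0) := by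
    have h2 := (continuous_sin.tendsto 0).comp ht'
    rw [sin_zero] at h2
    refine h2.congr fun j => ?_
    simp only [Function.comp_apply]
    have h3 := VClass_s23_nonneg (z j)
    have h4 := VClass_s01_nonneg (z j)
    have h5 : tc (x (j + N)) = arcsin (√(s01 (z j)) / √(1 + s01 (z j) + s23 (z j))) := by
      unfold tc
      rw [← hz j, PhE1_norm (hzT j)]
      ring
    rw [h5, sin_arcsin]
    · have : 0 ≤ √(s01 (z j)) / √(1 + s01 (z j) + s23 (z j)) := by positivity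
      linarith
    · refine div_le_one_of_le₀ (Real.sqrt_le_sqrt (by linarith)) (Real.sqrt_nonneg _)
  have hs01 : Tendsto (fun j => s01 (z j)) atTop (𝓝 0) := by
    have h2 := ((hσ.pow 2).mul hs23).div ((tendsto_const_nhds (x := (1 : ℝ))).sub (hσ.pow 2))
      (by norm_num)
    simp only [ne_eq, OfNat.ofNat_ne_zero, not_false_eq_true, zero_pow, zero_mul, sub_zero,
      div_one] at h2
    refine h2.congr fun j => ?_
    have h3 := VClass_s23_nonneg (z j)
    have h4 := VClass_s01_nonneg (z j)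
    have h5 : 0 < 1 + s01 (z j) + s23 (z j) := by linarith
    have h6 : (√(s01 (z j)) / √(1 + s01 (z j) + s23 (z j))) ^ 2 =
        s01 (z j) / (1 + s01 (z j) + s23 (z j)) := by
      rw [div_pow, Real.sq_sqrt h4, Real.sq_sqrt h5.le]
    show (√(s01 (z j)) / √(1 + s01 (z j) + s23 (z j))) ^ 2 * (1 + s23 (z j)) /
      (1 - (√(s01 (z j)) / √(1 + s01 (z j) + s23 (z j))) ^ 2) = s01 (z j)
    rw [h6]
    have h7 : 1 - s01 (z j) / (1 + s01 (z j) + s23 (z j)) =
        (1 + s23 (z j)) / (1 + s01 (z j) + s23 (z j)) := by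
      rw [eq_div_iff h5.ne', sub_mul, div_mul_cancel₀ _ h5.ne']
      ring
    have h8 : 0 < 1 + s23 (z j) := by linarith
    rw [h7]
    field_simp
  obtain ⟨C, hC⟩ := (hs01.add hs23).bddAbove_range
  obtain ⟨z0, φ, hφ, hz0⟩ := VClass_sub z C (fun j => by
    have h2 := hC ⟨j, rfl⟩
    simp only at h2
    linarith)
  have hz01 : s01 z0 = 0 := tendsto_nhds_unique ((VClass_cont_s01.tendsto z0).comp hz0)
    (hs01.comp hφ.tendsto_atTop)
  have hcr : Continuous fun w : EE 4 => ‖w‖ / √(1 + ‖w‖ ^ 2) := by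
    refine continuous_norm.div (continuous_const.add (continuous_norm.pow 2)).sqrt fun w => ?_
    positivity
  have hr0 : ‖z0‖ / √(1 + ‖z0‖ ^ 2) = ρs := by
    refine tendsto_nhds_unique ((hcr.tendsto z0).comp hz0) ?_
    refine (hρ'.comp hφ.tendsto_atTop).congr fun j => ?_
    simp only [Function.comp_apply]
    rw [← hz (φ j), PhE1_rho (hzT (φ j))]
  have ha := hU.a_pos
  have hnz : 0 < ‖z0‖ := by
    rcases (norm_nonneg z0).eq_or_lt with h2 | h2
    · rw [← h2] at hr0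
      simp only [zero_div] at hr0
      linarith
    · exact h2
  -- the neighbourhood
  let V : Set (EE 4) := ((Metric.ball z0 ‖z0‖ ∩ DE1) ∩ {w | a < ‖w‖ / √(1 + ‖w‖ ^ 2)}) ∩
    {w | ‖w‖ / √(1 + ‖w‖ ^ 2) < 9 / 10}
  have hVo : IsOpen V := ((Metric.isOpen_ball.inter DE1_isOpen).inter
    (isOpen_lt continuous_const hcr)).inter (isOpen_lt hcr continuous_const)
  have hV0 : z0 ∈ V := by
    refine ⟨⟨⟨Metric.mem_ball_self hnz, ?_⟩, ?_⟩, ?_⟩
    · show √(s01 z0) < sin taC * √(1 + s01 z0 + s23 z0)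
      rw [hz01, Real.sqrt_zero]
      have := VClass_s23_nonneg z0
      have := VClass_sinta
      positivity
    · show a < ‖z0‖ / √(1 + ‖z0‖ ^ 2)
      rw [hr0]
      exact hρa
    · show ‖z0‖ / √(1 + ‖z0‖ ^ 2) < 9 / 10
      rw [hr0]
      linarith
  have hDE : V ⊆ DE1 := fun w hw => hw.1.1.2
  have hUρ : ∀ w ∈ V \ T01, PhE1 w ∉ PZ → 1 / 2 ≤ ‖w‖ / √(1 + ‖w‖ ^ 2) := by
    intro w hw hP
    by_contra hcon
    rw [not_le] at hcon
    refine hP ⟨(PhE1_tc (hDE hw.1) hw.2).2, ?_⟩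
    rw [PhE1_rho hw.2]
    exact hcon
  have H : LIso (Uc a) (polMet (qC Ψ U)) V (polMet (qz fun r => 1 - U r)) T01 PhE1 := by
    refine VClass_E1_LIso hDE ?_ (fun z v => qz_gquad _ z v) (fun w hw => hw.1.1.2)
      (fun w hw hP v => rfl) (fun w hw hP => ?_)
    · refine (qz_met ha.le ?_ ?_).mono ?_ hVo
      · refine contDiffOn_const.sub (hU.smooth.mono fun r hr => ?_)
        exact lt_trans ha hr.1
      · intro r hr
        have := hU.lt_one r hr.1 hr.2
        show 0 < 1 - U r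
        linarith
      · intro w hw
        exact hw.1.2
    · have hρw := hUρ w hw hP
      have hw9 : ‖w‖ / √(1 + ‖w‖ ^ 2) < 9 / 10 := hw.1.2
      constructor
      · refine hΨ.far _ (hδ.trans ?_)
        rw [PhE1_wc hw.2 (hDE hw.1)]
        -- `w = ρ √(1-ρ²)`
        have hpos : 0 < 1 + ‖w‖ ^ 2 := by positivity
        have h2 : ‖w‖ / (1 + ‖w‖ ^ 2) = ‖w‖ / √(1 + ‖w‖ ^ 2) * (1 / √(1 + ‖w‖ ^ 2)) := by
          rw [div_mul_div_comm, mul_one, Real.mul_self_sqrt hpos.le]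
        have h3 := VClass_one_sub w
        have h4 : (1 / √(1 + ‖w‖ ^ 2)) ^ 2 = 1 - (‖w‖ / √(1 + ‖w‖ ^ 2)) ^ 2 := by
          rw [h3, div_pow, Real.sq_sqrt hpos.le, one_pow]
        have h5 : 0 < 1 / √(1 + ‖w‖ ^ 2) := by positivity
        rw [h2]
        generalize ‖w‖ / √(1 + ‖w‖ ^ 2) = r at *
        generalize 1 / √(1 + ‖w‖ ^ 2) = s at *
        have h6 : 19 / 100 ≤ s ^ 2 := by nlinarith
        nlinarith [sq_nonneg (r - s), mul_pos (lt_of_lt_of_le (by norm_num : (0:ℝ) < 1/2) hρw) h5,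
          sq_nonneg (r * s - 1 / 4)]
      · intro v
        refine (qz_eq_qFS (VClass_ne_zero hw.2) ?_ v).symm
        rw [hU.fs _ (by linarith), VClass_one_sub]
  refine VClass_fin H ?_ ?_ (fun j => z (φ j)) (fun j => φ j + N) ?_ (fun j => hzT _)
    (fun j => hz _) hV0 hz0
  · intro w hw w' hw' he
    rcases (PhE1_eq_iff hw.2 hw'.2).mp he with h2 | h2
    · exact h2.symm
    · exfalso
      have h3 : dist w z0 < ‖z0‖ := hw.1.1.1.1
      have h4 : dist w' z0 < ‖z0‖ := hw'.1.1.1.1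
      rw [h2, dist_eq_norm] at h4
      rw [dist_eq_norm] at h3
      have h5 : ‖(w - z0) + (-w - z0)‖ ≤ ‖w - z0‖ + ‖-w - z0‖ := norm_add_le _ _
      have h6 : (w - z0) + (-w - z0) = (-2 : ℝ) • z0 := by
        rw [neg_smul, two_smul]
        abel
      rw [h6, norm_smul] at h5
      norm_num at h5
      linarith
  · intro w hw
    exact (PhE1_tc (hDE hw.1) hw.2).2
  · intro i j hij
    have := hφ hij
    simp only
    omega

/-! ### the second chart -/

theorem VClass_E2_norm_tendsto {y : ℕ → EE 4} (hy : ∀ j, y j ∉ T01 ∪ T23) {y0 : EE 4}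
    (h0 : y0 ∈ T01) (hlim : Tendsto y atTop (𝓝 y0)) :
    Tendsto (fun j => ‖PhE2 (y j)‖) atTop (𝓝 t1C) := by
  have h1 : Continuous fun w : EE 4 => t1C + arcsin (√(s01 w) / √((1 + s01 w) * (1 + s23 w))) := by
    have h2 := VClass_cont_s01
    have h3 := VClass_cont_s23
    refine continuous_const.add (continuous_arcsin.comp (h2.sqrt.div ?_ fun w => ?_))
    · exact ((continuous_const.add h2).mul (continuous_const.add h3)).sqrt
    · have := VClass_s01_nonneg w
      have := VClass_s23_nonneg w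
      positivity
  have h2 := (h1.tendsto y0).comp hlim
  rw [VClass_zero_mem_T01.mp h0] at h2
  simp only [Real.sqrt_zero, zero_div, arcsin_zero, add_zero] at h2
  refine h2.congr fun j => ?_
  simp only [Function.comp_apply]
  rw [PhE2_norm (hy j)]

theorem VClass_E2_n3_tendsto {y : ℕ → EE 4} (hy : ∀ j, y j ∉ T01 ∪ T23) {y0 : EE 4}
    (h0 : y0 ∈ T23) (hlim : Tendsto y atTop (𝓝 y0)) :
    Tendsto (fun j => n3 (PhE2 (y j))) atTop (𝓝 0) := by
  have h1 : Continuous fun w : EE 4 => √(s23 w) * √(1 + s01 w) / √(1 + s23 w * (1 + s01 w)) := by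
    have h2 := VClass_cont_s01
    have h3 := VClass_cont_s23
    refine (h3.sqrt.mul (continuous_const.add h2).sqrt).div ?_ fun w => ?_
    · exact (continuous_const.add (h3.mul (continuous_const.add h2))).sqrt
    · have := VClass_s01_nonneg w
      have := VClass_s23_nonneg w
      positivity
  have h2 := (h1.tendsto y0).comp hlim
  rw [VClass_zero_mem_T23.mp h0] at h2
  simp only [Real.sqrt_zero, zero_div, zero_mul] at h2
  refine h2.congr fun j => ?_
  simp only [Function.comp_apply]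
  rw [PhE2_n3 (hy j)]

/-- the V-part: `ρ > 1/2`, so we are outside PZ -/
theorem VClass_E2_not_PZ {y : EE 4} (hy : y ∉ T01 ∪ T23) (h : s23 y < 1) : PhE2 y ∉ PZ := by
  intro hP
  have h1 := hP.2
  rw [PhE2_rho hy, div_lt_div_iff₀ (by have := VClass_s23_nonneg y; positivity) (by norm_num)] at h1
  have h2 : √(1 + s23 y) < 2 := by
    rw [Real.sqrt_lt' (by norm_num)]
    linarith
  linarith

theorem VClass_caseQ {ε δ a : ℝ} {Ψ U : ℝ → ℝ} (hΨ : IsEdge ε δ Ψ) (x : ℕ → EE 4)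
    (hx : ∀ j, x j ∈ Uc a)
    (hlim : Tendsto (fun j => ‖x j‖) atTop (𝓝 t1C)) (ν : ℝ) (hν : ν < 1)
    (hn3 : Tendsto (fun j => n3 (x j)) atTop (𝓝 ν))
    (ρs : ℝ) (hρ : Tendsto (fun j => rhoP (x j)) atTop (𝓝 ρs)) (hρ2 : 4 / 5 ≤ ρs) :
    ChartC (Uc a) (polMet (qC Ψ U)) {x | tc x < taC} x := by
  have ht : Tendsto (fun j => tc (x j)) atTop (𝓝 0) := by
    have := hlim.sub_const t1C
    rwa [sub_self] at this
  have hev : ∀ᶠ j in atTop, tc (x j) < 1 ∧ n3 (x j) < 1 :=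
    (ht.eventually_lt_const one_pos).and (hn3.eventually_lt_const hν)
  obtain ⟨N, hN⟩ := eventually_atTop.mp hev
  have hlift : ∀ j, ∃ y, y ∉ T01 ∪ T23 ∧ PhE2 y = x (j + N) := by
    intro j
    have h2 := hx (j + N)
    refine PhE2_surj ?_ ?_ h2.2.1 (hN (j + N) (Nat.le_add_left N j)).2
    · have h3 := h2.1
      unfold tc
      linarith
    · have h3 := (hN (j + N) (Nat.le_add_left N j)).1
      linarith [Real.pi_gt_three]
  choose y hyT hy using hlift
  have hρ' : Tendsto (fun j => rhoP (x (j + N))) atTop (𝓝 ρs) :=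
    (tendsto_add_atTop_iff_nat N).mpr hρ
  have ht' : Tendsto (fun j => tc (x (j + N))) atTop (𝓝 0) :=
    (tendsto_add_atTop_iff_nat N).mpr ht
  have hρs : 0 < ρs := by linarith
  have hs23 : Tendsto (fun j => 1 + s23 (y j)) atTop (𝓝 (1 / ρs ^ 2)) := by
    have h2 : Tendsto (fun j => 1 / (rhoP (x (j + N))) ^ 2) atTop (𝓝 (1 / ρs ^ 2)) :=
      tendsto_const_nhds.div (hρ'.pow 2) (pow_ne_zero 2 hρs.ne')
    refine h2.congr fun j => ?_
    have h3 := VClass_s23_nonneg (y j)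
    rw [← hy j, PhE2_rho (hyT j), div_pow, Real.sq_sqrt (by positivity)]
    field_simp
  have hσ : Tendsto (fun j => √(s01 (y j)) / √((1 + s01 (y j)) * (1 + s23 (y j)))) atTop (𝓝 0) := by
    have h2 := (continuous_sin.tendsto 0).comp ht'
    rw [sin_zero] at h2
    refine h2.congr fun j => ?_
    simp only [Function.comp_apply]
    have h3 := VClass_s23_nonneg (y j)
    have h4 := VClass_s01_nonneg (y j)
    have h5 : tc (x (j + N)) = arcsin (√(s01 (y j)) / √((1 + s01 (y j)) * (1 + s23 (y j)))) := by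
      unfold tc
      rw [← hy j, PhE2_norm (hyT j)]
      ring
    rw [h5, sin_arcsin]
    · have : 0 ≤ √(s01 (y j)) / √((1 + s01 (y j)) * (1 + s23 (y j))) := by positivity
      linarith
    · refine div_le_one_of_le₀ (Real.sqrt_le_sqrt ?_) (Real.sqrt_nonneg _)
      nlinarith [mul_nonneg h4 h3]
  have hs01 : Tendsto (fun j => s01 (y j)) atTop (𝓝 0) := by
    have h2 := ((hσ.pow 2).mul hs23).div ((tendsto_const_nhds (x := (1 : ℝ))).sub
      ((hσ.pow 2).mul hs23)) (by norm_num)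
    simp only [ne_eq, OfNat.ofNat_ne_zero, not_false_eq_true, zero_pow, zero_mul, sub_zero,
      div_one] at h2
    refine h2.congr fun j => ?_
    have h3 := VClass_s23_nonneg (y j)
    have h4 := VClass_s01_nonneg (y j)
    have h5 : 0 < 1 + s01 (y j) := by linarith
    have h5' : 0 < 1 + s23 (y j) := by linarith
    have h6 : (√(s01 (y j)) / √((1 + s01 (y j)) * (1 + s23 (y j)))) ^ 2 * (1 + s23 (y j)) =
        s01 (y j) / (1 + s01 (y j)) := by
      rw [div_pow, Real.sq_sqrt h4, Real.sq_sqrt (by positivity)]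
      field_simp
    show (√(s01 (y j)) / √((1 + s01 (y j)) * (1 + s23 (y j)))) ^ 2 * (1 + s23 (y j)) /
      (1 - (√(s01 (y j)) / √((1 + s01 (y j)) * (1 + s23 (y j)))) ^ 2 * (1 + s23 (y j))) = s01 (y j)
    rw [h6]
    have h7 : 1 - s01 (y j) / (1 + s01 (y j)) = 1 / (1 + s01 (y j)) := by
      rw [eq_div_iff h5.ne', sub_mul, div_mul_cancel₀ _ h5.ne']
      ring
    rw [h7]
    field_simp
  obtain ⟨C, hC⟩ := (hs01.add hs23).bddAbove_range
  obtain ⟨y0, φ, hφ, hy0⟩ := VClass_sub y C (fun j => by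
    have h2 := hC ⟨j, rfl⟩
    simp only at h2
    linarith)
  have hy01 : s01 y0 = 0 := tendsto_nhds_unique ((VClass_cont_s01.tendsto y0).comp hy0)
    (hs01.comp hφ.tendsto_atTop)
  have hy23 : 1 + s23 y0 = 1 / ρs ^ 2 := by
    refine tendsto_nhds_unique (((continuous_const.add VClass_cont_s23).tendsto y0).comp hy0) ?_
    exact hs23.comp hφ.tendsto_atTop
  have hy1 : s23 y0 < 1 := by
    have h2 : 1 / ρs ^ 2 ≤ 25 / 16 := by
      rw [div_le_div_iff₀ (by positivity) (by norm_num)]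
      nlinarith
    linarith
  have hVo : IsOpen (DE2 ∩ {w : EE 4 | s23 w < 1}) :=
    DE2_isOpen.inter (isOpen_lt VClass_cont_s23 continuous_const)
  have hV0 : y0 ∈ DE2 ∩ {w : EE 4 | s23 w < 1} := by
    refine ⟨?_, hy1⟩
    show √(s01 y0) < sin taC * √((1 + s01 y0) * (1 + s23 y0))
    rw [hy01, Real.sqrt_zero]
    have := VClass_s23_nonneg y0
    have := VClass_sinta
    positivity
  have H : LIso (Uc a) (polMet (qC Ψ U)) (DE2 ∩ {w : EE 4 | s23 w < 1}) (polMet (qe Ψ))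
      (T01 ∪ T23) PhE2 := by
    refine ⟨(qe_met hΨ).mono (subset_univ _) hVo, negl_T01.union negl_T23, ?_, ?_, ?_, ?_⟩
    · intro w hw
      have h1 := PhE2_tc hw.1.1 hw.2
      refine ⟨?_, PhE2_Ur hw.2, ?_⟩
      · have h2 := h1.1
        unfold tc at h2
        linarith
      · intro h2
        exact VClass_E2_not_PZ hw.2 hw.1.2 h2.1
    · exact PhE2_contDiffOn.mono fun w hw => hw.2
    · intro w hw v
      rw [VClass_gquad _ _ (VClass_qC Ψ U _), qe_gquad,
        PhE2_isom Ψ U hw.2 hw.1.1 (VClass_E2_not_PZ hw.2 hw.1.2) v]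
    · intro w hw z hz hlim' u hu hcon
      rcases hz.2 with h2 | h2
      · exact VClass_esc_norm (VClass_E2_norm_tendsto (fun j => (hw j).2) h2 hlim') u hu hcon
      · have h3 := VClass_E2_n3_tendsto (fun j => (hw j).2) h2 hlim'
        have hun : ‖u‖ ≠ 0 := by
          have h4 := hu.1
          have h5 := VClass_t1
          linarith
        have h4 := (VClass_n3_at hun).tendsto.comp hcon
        have h5 := tendsto_nhds_unique h4 h3
        unfold n3 at h5
        rw [div_eq_zero_iff] at h5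
        rcases h5 with h5 | h5
        · exact hu.2.1 h5
        · exact hun h5
  refine VClass_fin H ?_ ?_ (fun j => y (φ j)) (fun j => φ j + N) ?_ (fun j => hyT _)
    (fun j => hy _) hV0 hy0
  · exact PhE2_inj.mono fun w hw => hw.2
  · intro w hw
    exact (PhE2_tc hw.1.1 hw.2).2
  · intro i j hij
    have := hφ hij
    simp only
    omega

/-! ### the bolt charts -/

theorem VClass_cont_rb (a : ℝ) : Continuous (rb a) := by
  unfold rb
  exact ((continuous_const.add VClass_cont_s23).sqrt).sqrt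

theorem VClass_rb_nonneg (a : ℝ) (x : EE 4) : 0 ≤ rb a x := Real.sqrt_nonneg _

theorem VClass_rb_pow {a : ℝ} (x : EE 4) : rb a x ^ 4 = a ^ 4 + s23 x := by
  unfold rb
  have h := VClass_s23_nonneg x
  have h1 : 0 ≤ a ^ 4 + s23 x := by positivity
  calc √(√(a ^ 4 + s23 x)) ^ 4 = (√(√(a ^ 4 + s23 x)) ^ 2) ^ 2 := by ring
    _ = a ^ 4 + s23 x := by
        rw [Real.sq_sqrt (Real.sqrt_nonneg _), Real.sq_sqrt h1]

theorem VClass_rb_of_T23 {a : ℝ} (ha : 0 < a) {x : EE 4} (h : x ∈ T23) : rb a x = a := by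
  unfold rb
  rw [VClass_zero_mem_T23.mp h, add_zero]
  have h1 : a ^ 4 = (a ^ 2) ^ 2 := by ring
  rw [h1, Real.sqrt_sq (by positivity), Real.sqrt_sq ha.le]

/-- no limit at the cap -/
theorem VClass_esc_cap {ρ1 a : ℝ} (ha : 0 < a) (ha1 : a < ρ1 / 2) (h1 : ρ1 ≤ 1 / 4)
    (h2 : ρ1 ≤ sin taC) {y : ℕ → EE 4} (hy : ∀ j, y j ∈ PZ)
    (hr : Tendsto (fun j => rhoP (y j)) atTop (𝓝 a)) (u : EE 4) (hu : u ∈ Uc a) :
    ¬ Tendsto y atTop (𝓝 u) := by
  intro hlim
  have hun : ‖u‖ ≠ 0 := by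
    have h4 := hu.1
    have h5 := VClass_t1
    linarith
  have h3 : rhoP u = a := tendsto_nhds_unique ((VClass_rhoP_at hun).tendsto.comp hlim) hr
  have h4 : tc u ≤ taC := by
    refine le_of_tendsto ((VClass_cont_tc.tendsto u).comp hlim) (Eventually.of_forall fun j => ?_)
    exact (hy j).1.le
  have h5 : 0 < tc u := by
    have := hu.1
    unfold tc
    linarith
  have h6 := VClass_sin_le u
  have h7 : rhoP u ^ 2 = 1 - cos (tc u) ^ 2 * n3 u ^ 2 := by
    unfold rhoP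
    exact Real.sq_sqrt (le_trans (sq_nonneg _) h6)
  rw [← h7, h3] at h6
  have h8 : sin (tc u) ≤ a := by
    by_contra hc
    rw [not_le] at hc
    nlinarith
  have h9 : tc u < taC := by
    rcases h4.lt_or_eq with h10 | h10
    · exact h10
    · rw [h10] at h8
      linarith
  exact hu.2.2 ⟨⟨h9, by rw [h3]; linarith⟩, h3.le⟩

theorem VClass_caseB {ρ1 a : ℝ} {Ψ U : ℝ → ℝ} (hU : IsCap ρ1 a U)
    (h1 : ρ1 ≤ 1 / 4) (h2 : ρ1 ≤ sin taC) (x : ℕ → EE 4) (hx : ∀ j, x j ∈ Uc a)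
    (hP : ∀ j, x j ∈ PZ) (hr : Tendsto (fun j => rhoP (x j)) atTop (𝓝 a)) :
    ChartC (Uc a) (polMet (qC Ψ U)) {x | tc x < taC} x := by
  have ha := hU.a_pos
  have ha1 := hU.a_lt
  have hρ1 : 0 < ρ1 := by linarith
  have hr1 : ρ1 / 2 ≤ 1 / 2 := by linarith
  have hr2 : ρ1 / 2 ≤ sin taC := by linarith
  have hsub : DB a (ρ1 / 2) ⊆ DB a (1 / 2) := fun w hw => lt_of_lt_of_le hw hr1
  have hUeh : ∀ w ∈ DB a (ρ1 / 2), U (rb a w) = a ^ 4 / (rb a w) ^ 4 := by
    intro w hw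
    refine hU.eh _ ?_ (le_of_lt hw)
    rcases (VClass_rb_nonneg a w).eq_or_lt with h3 | h3
    · have h4 := VClass_rb_pow (a := a) w
      rw [← h3] at h4
      have := VClass_s23_nonneg w
      have : 0 < a ^ 4 := by positivity
      simp only [ne_eq, OfNat.ofNat_ne_zero, not_false_eq_true, zero_pow] at h4
      linarith
    · exact h3
  -- convergence of the lifts
  have hconv : ∀ (y : ℕ → EE 4) (θ : ℕ → ℕ), StrictMono θ → (∀ j, rb a (y j) = rhoP (x (θ j))) →
      (∀ j, s01 (y j) ≤ 1) → ∃ (y0 : EE 4) (φ : ℕ → ℕ), StrictMono φ ∧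
        Tendsto (fun j => y (φ j)) atTop (𝓝 y0) ∧ y0 ∈ DB a (ρ1 / 2) := by
    intro y θ hθ hy hs
    have h3 : Tendsto (fun j => rb a (y j)) atTop (𝓝 a) := by
      refine (hr.comp hθ.tendsto_atTop).congr fun j => ?_
      simp only [Function.comp_apply]
      rw [hy j]
    have h4 : Tendsto (fun j => a ^ 4 + s23 (y j)) atTop (𝓝 (a ^ 4)) := by
      refine (h3.pow 4).congr fun j => ?_
      rw [VClass_rb_pow]
    obtain ⟨C, hC⟩ := h4.bddAbove_range
    obtain ⟨y0, φ, hφ, hy0⟩ := VClass_sub y (1 + C) (fun j => by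
      have h5 := hC ⟨j, rfl⟩
      simp only at h5
      have h6 : 0 < a ^ 4 := by positivity
      have h7 := hs j
      linarith)
    refine ⟨y0, φ, hφ, hy0, ?_⟩
    have h5 : rb a y0 = a := tendsto_nhds_unique (((VClass_cont_rb a).tendsto y0).comp hy0)
      (h3.comp hφ.tendsto_atTop)
    show rb a y0 < ρ1 / 2
    rw [h5]
    exact ha1
  have hcases : (∃ᶠ j in atTop, ∃ y, y ∉ T23 ∧ rb a y = rhoP (x j) ∧ s01 y ≤ 1 ∧
      PhB1 a y = x j) ∨ (∃ᶠ j in atTop, ∃ y, y ∉ T01 ∪ T23 ∧ rb a y = rhoP (x j) ∧ s01 y ≤ 1 ∧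
      PhB2 a y = x j) := by
    rw [← frequently_or_distrib]
    exact Eventually.frequently (Eventually.of_forall fun j => PhB_surj ha (hP j) (hx j))
  rcases hcases with hf | hf
  · obtain ⟨θ, hθ, hy⟩ := extraction_of_frequently_atTop hf
    choose y hyT hyr hys hyx using hy
    obtain ⟨y0, φ, hφ, hy0, hV0⟩ := hconv y θ hθ hyr hys
    have H : LIso (Uc a) (polMet (qC Ψ U)) (DB a (ρ1 / 2)) (polMet (qb a)) T23 (PhB1 a) := by
      refine ⟨(qb_met ha).mono (subset_univ _) (DB_isOpen _ _), negl_T23, ?_, ?_, ?_, ?_⟩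
      · intro w hw
        exact (PhB1_mem ha hr1 hr2 hw.1 hw.2).2
      · exact (PhB1_contDiffOn ha).mono fun w hw => ⟨hsub hw.1, hw.2⟩
      · intro w hw v
        rw [VClass_gquad _ _ (VClass_qC Ψ U _), qb_gquad,
          PhB1_isom Ψ U ha hr1 hr2 hw.1 hw.2 (hUeh w hw.1) v]
      · intro w hw z hz hlim u hu
        refine VClass_esc_cap ha ha1 h1 h2 (fun j => (PhB1_mem ha hr1 hr2 (hw j).1 (hw j).2).1)
          ?_ u hu
        have h3 := ((VClass_cont_rb a).tendsto z).comp hlim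
        rw [VClass_rb_of_T23 ha hz.2] at h3
        refine h3.congr fun j => ?_
        simp only [Function.comp_apply]
        rw [PhB1_rho ha (hsub (hw j).1) (hw j).2]
    refine VClass_fin H ?_ ?_ (fun j => y (φ j)) (fun j => θ (φ j)) (hθ.comp hφ) (fun j => hyT _)
      (fun j => hyx _) hV0 hy0
    · exact (PhB1_inj ha).mono (fun w hw =>
        (⟨hsub hw.1, hw.2⟩ : w ∈ DB a (1 / 2) \ T23))
    · intro w hw
      exact (PhB1_mem ha hr1 hr2 hw.1 hw.2).1.1
  · obtain ⟨θ, hθ, hy⟩ := extraction_of_frequently_atTop hf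
    choose y hyT hyr hys hyx using hy
    obtain ⟨y0, φ, hφ, hy0, hV0⟩ := hconv y θ hθ hyr hys
    have H : LIso (Uc a) (polMet (qC Ψ U)) (DB a (ρ1 / 2)) (polMet (qb a)) (T01 ∪ T23)
        (PhB2 a) := by
      refine ⟨(qb_met ha).mono (subset_univ _) (DB_isOpen _ _), negl_T01.union negl_T23,
        ?_, ?_, ?_, ?_⟩
      · intro w hw
        exact (PhB2_mem ha hr1 hr2 hw.1 hw.2).2
      · exact (PhB2_contDiffOn ha).mono fun w hw => ⟨hsub hw.1, hw.2⟩
      · intro w hw v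
        rw [VClass_gquad _ _ (VClass_qC Ψ U _), qb_gquad,
          PhB2_isom Ψ U ha hr1 hr2 hw.1 hw.2 (hUeh w hw.1) v]
      · intro w hw z hz hlim u hu
        rcases hz.2 with h5 | h5
        · refine VClass_esc_norm ?_ u hu
          have h3 : Continuous fun p : EE 4 =>
              t1C + arcsin (√(s01 p) * rb a p / √(1 + s01 p)) := by
            refine continuous_const.add (continuous_arcsin.comp
              ((VClass_cont_s01.sqrt.mul (VClass_cont_rb a)).div ?_ fun p => ?_))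
            · exact (continuous_const.add VClass_cont_s01).sqrt
            · have := VClass_s01_nonneg p
              positivity
          have h4 := (h3.tendsto z).comp hlim
          rw [VClass_zero_mem_T01.mp h5] at h4
          simp only [Real.sqrt_zero, zero_div, zero_mul, arcsin_zero, add_zero] at h4
          refine h4.congr fun j => ?_
          simp only [Function.comp_apply]
          rw [PhB2_norm ha (hsub (hw j).1) (hw j).2]
        · refine VClass_esc_cap ha ha1 h1 h2 (fun j => (PhB2_mem ha hr1 hr2 (hw j).1 (hw j).2).1)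
            ?_ u hu
          have h3 := ((VClass_cont_rb a).tendsto z).comp hlim
          rw [VClass_rb_of_T23 ha h5] at h3
          refine h3.congr fun j => ?_
          simp only [Function.comp_apply]
          rw [PhB2_rho ha (hsub (hw j).1) (hw j).2]
    refine VClass_fin H ?_ ?_ (fun j => y (φ j)) (fun j => θ (φ j)) (hθ.comp hφ) (fun j => hyT _)
      (fun j => hyx _) hV0 hy0
    · exact (PhB2_inj ha).mono (fun w hw =>
        (⟨hsub hw.1, hw.2⟩ : w ∈ DB a (1 / 2) \ (T01 ∪ T23)))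
    · intro w hw
      exact (PhB2_mem ha hr1 hr2 hw.1 hw.2).1.1

theorem core_charts {ε δ ρ1 a : ℝ} {Ψ U : ℝ → ℝ} (hΨ : IsEdge ε δ Ψ) (hδ : δ ≤ 1 / 4) (hU : IsCap ρ1 a U)
    (h1 : ρ1 ≤ 1 / 4) (h2 : ρ1 ≤ sin taC) (x : ℕ → EE 4) (hx : ∀ j, x j ∈ Uc a)
    (hlim : Tendsto (fun j => ‖x j‖) atTop (𝓝 t1C) ∨
      ((∀ j, x j ∈ PZ) ∧ Tendsto (fun j => rhoP (x j)) atTop (𝓝 a))) :
    ChartC (Uc a) (polMet (qC Ψ U)) {x | tc x < taC} x := by
  rcases hlim with hlim | ⟨hP, hr⟩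
  swap
  · exact VClass_caseB hU h1 h2 x hx hP hr
  obtain ⟨ν, hν, θ, hθ, hn3⟩ := isCompact_Icc.tendsto_subseq (fun j => VClass_n3_mem (x j))
  refine VClass_comp hθ ?_
  have hx' : ∀ j, x (θ j) ∈ Uc a := fun j => hx _
  have hlim' : Tendsto (fun j => ‖x (θ j)‖) atTop (𝓝 t1C) := hlim.comp hθ.tendsto_atTop
  have hn3' : Tendsto (fun j => n3 (x (θ j))) atTop (𝓝 ν) := hn3
  generalize hx0 : (fun j => x (θ j)) = y
  have hxy : ∀ j, x (θ j) = y j := fun j => by rw [← hx0]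
  simp only [hxy] at hx' hlim' hn3'
  have ht : Tendsto (fun j => tc (y j)) atTop (𝓝 0) := by
    have := hlim'.sub_const t1C
    rwa [sub_self] at this
  have hrho : Tendsto (fun j => rhoP (y j)) atTop (𝓝 (√(1 - ν ^ 2))) := by
    have h3 := (continuous_cos.tendsto 0).comp ht
    rw [cos_zero] at h3
    have h4 := ((tendsto_const_nhds (x := (1 : ℝ))).sub ((h3.pow 2).mul (hn3'.pow 2))).sqrt
    rw [one_pow, one_mul] at h4
    exact h4
  have hν2 : ν ^ 2 ≤ 1 := by nlinarith [hν.1, hν.2]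
  have hsq : √(1 - ν ^ 2) ^ 2 = 1 - ν ^ 2 := Real.sq_sqrt (by linarith)
  have ha := hU.a_pos
  have ha1 := hU.a_lt
  rcases le_or_gt (√(1 - ν ^ 2)) a with h3 | h3
  · -- second case
    have h4 : ∀ᶠ j in atTop, y j ∈ PZ := by
      filter_upwards [ht.eventually_lt_const isCoreC.ta_pos,
        hrho.eventually_lt_const (by linarith : √(1 - ν ^ 2) < 1 / 2)] with j h5 h6
      exact ⟨h5, h6⟩
    obtain ⟨N, hN⟩ := eventually_atTop.mp h4
    have h5 : √(1 - ν ^ 2) = a := by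
      refine le_antisymm h3 ?_
      refine ge_of_tendsto hrho ?_
      filter_upwards [h4] with j h6
      by_contra h7
      rw [not_le] at h7
      exact (hx' j).2.2 ⟨h6, h7.le⟩
    rw [h5] at hrho
    have hθ' : StrictMono fun j : ℕ => j + N := fun i j hij => by simpa using hij
    refine VClass_comp hθ' ?_
    exact VClass_caseB hU h1 h2 (fun j => y (j + N)) (fun j => hx' _)
      (fun j => hN _ (Nat.le_add_left N j)) ((tendsto_add_atTop_iff_nat N).mpr hrho)
  · rcases le_or_gt (√(1 - ν ^ 2)) (17 / 20) with h4 | h4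
    · have hν0 : 0 < ν := by
        rcases hν.1.eq_or_lt with h5 | h5
        · rw [← h5] at h4
          norm_num at h4
        · exact h5
      exact VClass_caseP hΨ hδ hU h1 y hx' hlim' ν hν0 hn3' _ hrho h3 h4
    · have hν1 : ν < 1 := by
        rcases hν.2.lt_or_eq with h5 | h5
        · exact h5
        · rw [h5] at h4
          norm_num at h4
      exact VClass_caseQ hΨ y hx' hlim' ν hν1 hn3' _ hrho (by linarith)

/-- the quotient chart at `P` in the limit -/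
theorem quot_chart :
    LIso (Uc 0) (polMet (qC (fun w => w / 2) (fun ρ => ρ ^ 2))) (Metric.ball 0 (sin taC)) (polMet qFS) T01 PhE1 ∧
    (∀ z ∈ Metric.ball (0 : EE 4) (sin taC) \ T01, tc (PhE1 z) < taC) := by
  have hsub : Metric.ball (0 : EE 4) (sin taC) ⊆ DE1 := by
    intro z hz
    rw [mem_ball_zero_iff] at hz
    show √(s01 z) < sin taC * √(1 + s01 z + s23 z)
    have h1 := VClass_s01_nonneg z
    have h2 := VClass_s23_nonneg z
    have h3 := VClass_sinta
    have h4 : √(s01 z) ≤ ‖z‖ := by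
      refine Real.sqrt_le_iff.mpr ⟨norm_nonneg z, ?_⟩
      rw [VClass_norm_s]
      linarith
    have h5 : 1 ≤ √(1 + s01 z + s23 z) := by
      rw [Real.one_le_sqrt]
      linarith
    nlinarith
  refine ⟨?_, fun z hz => (PhE1_tc (hsub hz.1) hz.2).2⟩
  refine VClass_E1_LIso hsub (qFS_met.mono (subset_univ _) Metric.isOpen_ball)
    (fun z v => qFS_gquad z v) ?_ ?_ ?_
  · intro z hz
    have h1 : 0 < ‖z‖ := norm_pos_iff.mpr (VClass_ne_zero hz.2)
    positivity
  · intro z hz hP v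
    refine qz_eq_qFS (VClass_ne_zero hz.2) ?_ v
    exact VClass_one_sub z
  · intro z hz hP
    exact ⟨rfl, fun v => rfl⟩

end Pool.Agent.MP39e402
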