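import Pool.Agent.Lib.MP_39e402_gt.GExtB
import Pool.Agent.Lib.MP_39e402_gt.VClass

/-! # MP_39e402, module GCls: bounded sequences of the approximating patches converge in charts.

`bounded_class`: pass to a subsequence with `y_j → z` and `idx k (y_j 0) = i` constant.  If `z ∈ VM`: `chartA`, `Φ = id`.
Otherwise `p_j = sc i (y_j) ∈ UL`, `p_j → p = sc i z ∉ VL`, so `x_j = Qm p_j ∈ Uc a` satisfies the hypothesis of `core_charts`
(either `‖x_j‖ → t1`, or `Qm p ∈ CapS a`, `t1 < ‖Qm p‖`, `x_j → Qm p`, `x_j ∈ PZ` for large `j` and `rhoP x_j → a`); transfer by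
`LIso.toHole`, `LIso.toGlobal`.
`norm_bound`: for `‖p‖ ≥ 2` `gM(v,v) ≥ v0² + wY² ≥ (d‖p‖)²` (`JL = R` there). -/

open Real Set Filter Topology MeasureTheory
open scoped ContDiff

noncomputable section

namespace Pool.Agent.MP39e402

/-! ### scaling -/

theorem GCls_xh_pos (i : ℕ) : 0 < xh i := by unfold xh; positivity

theorem GCls_rh_pos (i : ℕ) : 0 < rh i := by
  unfold rh
  have := GCls_xh_pos i
  positivity

theorem GCls_xh_le {i : ℕ} (hi : 1 ≤ i) : xh i ≤ 1 / 2 := by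
  unfold xh
  calc ((1 : ℝ) / 2) ^ i ≤ (1 / 2) ^ 1 := pow_le_pow_of_le_one (by norm_num) (by norm_num) hi
    _ = 1 / 2 := by norm_num

theorem GCls_sc0 (i : ℕ) (p : EE 4) : sc i p 0 = (p 0 - xh i) / rh i := by
  simp [sc, v4]
  ring

theorem GCls_sc1 (i : ℕ) (p : EE 4) : sc i p 1 = p 1 / rh i := by
  simp [sc, v4]
  ring

theorem GCls_sc2 (i : ℕ) (p : EE 4) : sc i p 2 = p 2 / rh i := by
  simp [sc, v4]
  ring

theorem GCls_sc3 (i : ℕ) (p : EE 4) : sc i p 3 = p 3 / rh i := by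
  simp [sc, v4]
  ring

theorem GCls_Ur_sc (i : ℕ) (p : EE 4) : Ur (sc i p) = Ur p / rh i := by
  have h := GCls_rh_pos i
  unfold Ur
  rw [GCls_sc2, GCls_sc3, div_pow, div_pow, ← add_div, Real.sqrt_div' _ (sq_nonneg _),
    Real.sqrt_sq h.le]

theorem GCls_Yr_sc (i : ℕ) (p : EE 4) : Yr (sc i p) = Yr p / rh i := by
  have h := GCls_rh_pos i
  unfold Yr
  rw [GCls_sc1, GCls_sc2, GCls_sc3, div_pow, div_pow, div_pow, ← add_div, ← add_div,
    Real.sqrt_div' _ (sq_nonneg _), Real.sqrt_sq h.le]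

theorem GCls_wY_sc (i : ℕ) (p v : EE 4) : wY (sc i p) v = wY p v := by
  have h := GCls_rh_pos i
  unfold wY
  rw [GCls_Yr_sc, GCls_sc1, GCls_sc2, GCls_sc3]
  rcases eq_or_ne (Yr p) 0 with h0 | h0
  · simp [h0]
  · field_simp

theorem GCls_usc_sc (i : ℕ) (p : EE 4) : usc i (sc i p) = p := by
  have h := GCls_rh_pos i
  unfold usc sc
  rw [smul_smul, mul_one_div_cancel h.ne', one_smul]
  abel

theorem GCls_usc_inj (i : ℕ) {p q : EE 4} (h : usc i p = usc i q) : p = q := by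
  have h0 := GCls_rh_pos i
  unfold usc at h
  have h1 := add_left_cancel h
  have h2 := congrArg (fun v => (1 / rh i) • v) h1
  simp only [smul_smul] at h2
  rwa [one_div_mul_cancel h0.ne', one_smul, one_smul] at h2

theorem GCls_sc_cont (i : ℕ) : Continuous (sc i) := by
  have h1 : Continuous fun p : EE 4 => p - v4 (xh i) 0 0 0 := continuous_id.sub continuous_const
  exact h1.const_smul (1 / rh i)

theorem GCls_norm_v4 {x : ℝ} (hx : 0 ≤ x) : ‖v4 x 0 0 0‖ = x := by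
  rw [EuclideanSpace.norm_eq]
  simp [v4, Fin.sum_univ_four, Real.sqrt_sq hx]

theorem GCls_norm_sc {i : ℕ} (hi : 1 ≤ i) {p : EE 4} (hp : 2 ≤ ‖p‖) : 1 ≤ ‖sc i p‖ := by
  have h := GCls_rh_pos i
  have h1 := GCls_xh_pos i
  have h2 := GCls_xh_le hi
  unfold sc
  rw [norm_smul, Real.norm_of_nonneg (by positivity : (0 : ℝ) ≤ 1 / rh i)]
  have h3 := norm_sub_norm_le p (v4 (xh i) 0 0 0)
  rw [GCls_norm_v4 h1.le] at h3
  have h4 : rh i ≤ ‖p - v4 (xh i) 0 0 0‖ := by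
    have : rh i ≤ 1 := by
      unfold rh
      linarith
    linarith
  rw [one_div, inv_mul_eq_div, one_le_div h]
  exact h4

theorem GCls_norm_sq (p : EE 4) : ‖p‖ ^ 2 = p 0 ^ 2 + (p 1 ^ 2 + p 2 ^ 2 + p 3 ^ 2) := by
  rw [EuclideanSpace.norm_sq_eq]
  simp [Fin.sum_univ_four]
  ring

theorem GCls_Yr_sq (p : EE 4) : Yr p ^ 2 = p 1 ^ 2 + p 2 ^ 2 + p 3 ^ 2 :=
  Real.sq_sqrt (by positivity)

theorem GCls_Yr_pos {p : EE 4} (hU : Ur p ≠ 0) : 0 < Yr p := by
  have h1 : Ur p ^ 2 = p 2 ^ 2 + p 3 ^ 2 := Real.sq_sqrt (by positivity)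
  have h2 : 0 < Ur p ^ 2 := by positivity
  unfold Yr
  refine Real.sqrt_pos.mpr ?_
  nlinarith [sq_nonneg (p 1)]

/-! ### type I -/

theorem GCls_lin_0 : VClass_lin (fun v : EE 4 => v 0) := by
  refine ⟨![1, 0, 0, 0], fun v => ?_⟩
  simp [Fin.sum_univ_four]

theorem GCls_lin_1 : VClass_lin (fun v : EE 4 => v 1) := by
  refine ⟨![0, 1, 0, 0], fun v => ?_⟩
  simp [Fin.sum_univ_four]

theorem GCls_lin_wY (x : EE 4) : VClass_lin (wY x) := by
  refine ⟨![0, x 1 / Yr x, x 2 / Yr x, x 3 / Yr x], fun v => ?_⟩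
  simp [wY, Fin.sum_univ_four]
  ring

theorem GCls_lin_wt (x : EE 4) : VClass_lin (wt x) := by
  refine (((GCls_lin_wY x).smul (x 0 / ‖x‖ ^ 2)).sub (GCls_lin_0.smul (Yr x / ‖x‖ ^ 2))).congr
    fun v => ?_
  simp only [wt]
  ring

theorem GCls_lin_wal (x : EE 4) : VClass_lin (wal x) := by
  refine (((VClass_lin_wU x).smul (x 1 / Yr x ^ 2)).sub (GCls_lin_1.smul (Ur x / Yr x ^ 2))).congr
    fun v => ?_
  simp only [wal]
  ring

theorem GCls_qI_qf (ph : ℝ) (Ψ : ℝ → ℝ) (p : EE 4) : IsQF (qI ph Ψ p) := by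
  have h0 := VClass_qf_mul GCls_lin_0 GCls_lin_0
  have h1 := VClass_qf_mul (GCls_lin_wY p) (GCls_lin_wY p)
  have h2 := VClass_qf_smul (VClass_qf_mul (GCls_lin_wt p) (GCls_lin_wt p))
    ((JL ph ‖p‖ (ang (p 0) (Yr p))) ^ 2 - ‖p‖ ^ 2)
  have h3 := VClass_qf_smul (VClass_qf_mul (GCls_lin_wal p) (GCls_lin_wal p))
    ((PhL ph (p 0) (Yr p)) ^ 2)
  have h4 := VClass_qf_smul (VClass_qf_mul (VClass_lin_wth p) (VClass_lin_wth p))
    ((Ψ (PhL ph (p 0) (Yr p) * Ur p / Yr p)) ^ 2)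
  refine VClass_qf_congr (VClass_qf_add (VClass_qf_add (VClass_qf_add (VClass_qf_add h0 h1) h2) h3) h4)
    fun v => ?_
  simp only [qI]
  ring

theorem GCls_JL {ph R t : ℝ} (hR : 1 ≤ R) : JL ph R t = R := by
  unfold JL
  rw [st_one (by linarith : (1 : ℝ) ≤ 2 * R - 1)]
  ring

theorem GCls_wR_le {p : EE 4} (hU : Ur p ≠ 0) (v : EE 4) :
    (wR p v) ^ 2 ≤ v 0 ^ 2 + (wY p v) ^ 2 := by
  have hY := GCls_Yr_pos hU
  have h1 := GCls_norm_sq p
  rw [← GCls_Yr_sq p] at h1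
  have h2 : 0 < ‖p‖ ^ 2 := by
    rw [h1]
    positivity
  have h3 : p 1 * v 1 + p 2 * v 2 + p 3 * v 3 = Yr p * wY p v := by
    unfold wY
    field_simp
  have h4 : wR p v = (p 0 * v 0 + Yr p * wY p v) / ‖p‖ := by
    unfold wR
    rw [← h3]
    ring_nf
  rw [h4, div_pow, div_le_iff₀ h2, h1]
  nlinarith [sq_nonneg (p 0 * wY p v - Yr p * v 0)]

theorem gM_ge_wR {c0 : ℝ} {k : ℕ} (h : 0 < c0) (h1 : c0 ≤ 1) (hk : 1 ≤ k) (Ψ U : ℝ → ℝ) {p : EE 4}
    (hU : Ur p ≠ 0) (hp : 2 ≤ ‖p‖) (v : EE 4) : (wR p v) ^ 2 ≤ gquad (gM c0 k Ψ U) p v := by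
  have hi : 1 ≤ idx k (p 0) := idx_pos k (p 0)
  have hn := GCls_norm_sc hi hp
  have hph := phh_pos h (idx k (p 0))
  have hph1 : phh c0 (idx k (p 0)) ≤ 1 / 2 := by
    have := phh_le h h1 (idx k (p 0))
    have h2 : c0 / 10 ^ 6 ≤ 1 / 2 := by
      rw [div_le_iff₀ (by norm_num)]
      linarith
    linarith
  have hε := epsh_le hph hph1
  have hε1 : epsh (phh c0 (idx k (p 0))) ≤ 1 := by
    refine hε.trans ?_
    rw [div_le_iff₀ (by norm_num)]
    linarith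
  have e1 : gquad (gM c0 k Ψ U) p v =
      gquad (polMet (qL (phh c0 (idx k (p 0))) (scΨ (rh (idx k (p 0))) Ψ) U)) (sc (idx k (p 0)) p) v :=
    rfl
  have hnot : ¬ ‖sc (idx k (p 0)) p‖ < epsh (phh c0 (idx k (p 0))) / 2 := by
    rw [not_lt]
    linarith
  have e2 : ∀ w, qL (phh c0 (idx k (p 0))) (scΨ (rh (idx k (p 0))) Ψ) U (sc (idx k (p 0)) p) w =
      qI (phh c0 (idx k (p 0))) (scΨ (rh (idx k (p 0))) Ψ) (sc (idx k (p 0)) p) w := by
    intro w
    simp only [qL, if_neg hnot]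
  rw [e1, VClass_gquad _ _ (VClass_qf_congr (GCls_qI_qf _ _ _) fun w => (e2 w).symm), e2]
  refine (GCls_wR_le hU v).trans ?_
  unfold qI
  rw [GCls_JL hn, GCls_wY_sc, sub_self, zero_mul, add_zero]
  have g1 : 0 ≤ (PhL (phh c0 (idx k (p 0))) (sc (idx k (p 0)) p 0) (Yr (sc (idx k (p 0)) p))) ^ 2 *
    (wal (sc (idx k (p 0)) p) v) ^ 2 := by positivity
  have g2 : 0 ≤ (scΨ (rh (idx k (p 0))) Ψ (PhL (phh c0 (idx k (p 0))) (sc (idx k (p 0)) p 0)
    (Yr (sc (idx k (p 0)) p)) * Ur (sc (idx k (p 0)) p) / Yr (sc (idx k (p 0)) p))) ^ 2 *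
    (wth (sc (idx k (p 0)) p) v) ^ 2 := by positivity
  linarith

theorem GCls_UM_Ur {c0 a : ℝ} {k : ℕ} {p : EE 4} (hp : p ∈ UM c0 k a) : Ur p ≠ 0 := by
  have h1 : Ur (sc (idx k (p 0)) p) ≠ 0 := hp.1
  rw [GCls_Ur_sc] at h1
  intro h2
  rw [h2, zero_div] at h1
  exact h1 rfl

theorem norm_bound {c0 a : ℝ} {k : ℕ} {Ψ U : ℝ → ℝ} (h : 0 < c0) (h1 : c0 ≤ 1) (hk : 1 ≤ k)
    (H : GAdm c0 k a Ψ U) {x y : EE 4} {R : ℝ} (hR : 0 ≤ R)
    (hd : redist (UM c0 k a) (gM c0 k Ψ U) x y ≤ ENNReal.ofReal R) : ‖y‖ ≤ max ‖x‖ 2 + R := by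
  have hM : (2 : ℝ) ≤ max ‖x‖ 2 := le_max_right _ _
  by_contra hcon
  rw [not_le] at hcon
  obtain ⟨η, hη, hη1⟩ : ∃ η > 0, max ‖x‖ 2 + R + η < ‖y‖ :=
    ⟨(‖y‖ - (max ‖x‖ 2 + R)) / 2, by linarith, by linarith⟩
  have hd' : redist (UM c0 k a) (gM c0 k Ψ U) x y < ENNReal.ofReal (R + η) :=
    lt_of_le_of_lt hd ((ENNReal.ofReal_lt_ofReal_iff (by linarith)).mpr (by linarith))
  obtain ⟨γ, ⟨hγ1, hγU, hγ0, hγ1'⟩, hγL⟩ := exists_isPath_lt hd'
  have hmet := gM_met h h1 hk H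
  have hcn : Continuous fun t => ‖γ t‖ := hγ1.continuous.norm
  -- the last time in the ball
  obtain ⟨s, hsI, hs, hs'⟩ : ∃ s ∈ Icc (0 : ℝ) 1, ‖γ s‖ ≤ max ‖x‖ 2 ∧
      ∀ t ∈ Ioo s 1, max ‖x‖ 2 < ‖γ t‖ := by
    have hcl : IsCompact (Icc (0 : ℝ) 1 ∩ {t | ‖γ t‖ ≤ max ‖x‖ 2}) :=
      isCompact_Icc.inter_right (isClosed_le hcn continuous_const)
    have hne : (Icc (0 : ℝ) 1 ∩ {t | ‖γ t‖ ≤ max ‖x‖ 2}).Nonempty := by
      refine ⟨0, ⟨le_rfl, zero_le_one⟩, ?_⟩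
      show ‖γ 0‖ ≤ _
      rw [hγ0]
      exact le_max_left _ _
    have hmem := hcl.sSup_mem hne
    refine ⟨_, hmem.1, hmem.2, fun t ht => ?_⟩
    by_contra hc
    rw [not_lt] at hc
    have : t ≤ sSup (Icc (0 : ℝ) 1 ∩ {t | ‖γ t‖ ≤ max ‖x‖ 2}) :=
      le_csSup hcl.bddAbove ⟨⟨hmem.1.1.trans ht.1.le, ht.2.le⟩, hc⟩
    exact absurd ht.1 (not_lt.mpr this)
  have hsub : Icc s 1 ⊆ Icc (0 : ℝ) 1 := Icc_subset_Icc_left hsI.1
  have hspeed := continuousOn_speed hmet isOpen_univ hγ1.contDiffOn (subset_univ _)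
    (fun t ht => hγU t (hsub ht))
  have hderiv : ∀ t ∈ Ioo s 1, HasDerivAt (fun t => ‖γ t‖) (wR (γ t) (deriv γ t)) t := by
    intro t ht
    have h2 := hs' t ht
    have h3 : γ t ≠ 0 := by
      intro h4
      rw [h4, norm_zero] at h2
      linarith
    have h5 : HasDerivAt γ (deriv γ t) t := (hγ1.differentiable (by simp) t).hasDerivAt
    have h6 := h5.norm_sq
    have h7 : (fun t => ‖γ t‖) = fun t => √(‖γ t‖ ^ 2) := by
      funext t
      rw [Real.sqrt_sq (norm_nonneg _)]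
    rw [h7]
    have h8 : ‖γ t‖ ^ 2 ≠ 0 := by positivity
    refine (h6.sqrt h8).congr_deriv ?_
    rw [Real.sqrt_sq (norm_nonneg _)]
    unfold wR
    have h9 : inner ℝ (γ t) (deriv γ t) = γ t 0 * deriv γ t 0 + γ t 1 * deriv γ t 1 +
        γ t 2 * deriv γ t 2 + γ t 3 * deriv γ t 3 := by
      simp [PiLp.inner_apply, Fin.sum_univ_four]
      ring
    rw [h9]
    field_simp
  have hle := intervalIntegral.sub_le_integral_of_hasDeriv_right_of_le hsI.2
    (hcn.continuousOn) (fun t ht => (hderiv t ht).hasDerivWithinAt) hspeed.integrableOn_Icc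
    (fun t ht => by
      have h2 := gM_ge_wR h h1 hk Ψ U (GCls_UM_Ur (hγU t (hsub (Ioo_subset_Icc_self ht))))
        (hM.trans (hs' t ht).le) (deriv γ t)
      exact (le_abs_self _).trans (Real.abs_le_sqrt h2))
  have hadd := plenI_add hmet isOpen_univ hγ1.contDiffOn hsI.1 hsI.2 (subset_univ _)
    (fun t ht => hγU t ht)
  have hnn := plenI_nonneg (gM c0 k Ψ U) γ hsI.1
  have heq := plen_eq_plenI (gM c0 k Ψ U) γ
  have hle' : ‖γ 1‖ - ‖γ s‖ ≤ plenI (gM c0 k Ψ U) γ s 1 := hle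
  rw [hγ1'] at hle'
  linarith

/-! ### bounded sequences -/

theorem GCls_sC_pos : 0 < sC := by
  unfold sC
  have h1 := isCoreC.T_gt
  have h2 := isCoreC.t1_pos
  positivity

theorem GCls_sC_le : sC ≤ 1 / 2 := by
  unfold sC
  have h1 := isCoreC.T_gt
  have h2 := isCoreC.t1_pos
  rw [div_le_div_iff₀ (by positivity) (by norm_num)]
  linarith

theorem GCls_sC_t1 : sC * t1C < 1 / 2 := by
  unfold sC
  have h1 := isCoreC.T_gt
  have h2 := isCoreC.t1_pos
  rw [div_mul_eq_mul_div, div_lt_div_iff₀ (by positivity) (by norm_num)]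
  linarith

theorem GCls_ph {c0 : ℝ} (h : 0 < c0) (h1 : c0 ≤ 1) (i : ℕ) : phh c0 i ≤ 1 / 2 := by
  have := phh_le h h1 i
  have h2 : c0 / 10 ^ 6 ≤ 1 / 2 := by
    rw [div_le_iff₀ (by norm_num)]
    linarith
  linarith

theorem GCls_eps_le {ph : ℝ} (h : 0 < ph) (h1 : ph ≤ 1 / 2) : epsh ph ≤ 1 := by
  refine (epsh_le h h1).trans ?_
  rw [div_le_iff₀ (by norm_num)]
  linarith

theorem GCls_edge {c0 ρ1 a ε δ : ℝ} {k i : ℕ} {Ψ U : ℝ → ℝ} (h : 0 < c0) (h1 : c0 ≤ 1)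
    (hi : 1 ≤ i) (hik : i ≤ k) (H : Par ρ1 a ε δ Ψ U) (hδ : ∀ i, 1 ≤ i → i ≤ k → δ ≤ dbd c0 i) :
    ∃ δ' : ℝ, δ' ≤ 1 / 4 ∧
      IsEdge ε δ' (scΨ (epsh (phh c0 i) * sC) (scΨ (rh i) Ψ)) := by
  have hph := phh_pos h i
  have hph1 := GCls_ph h h1 i
  have he := epsh_pos hph
  have he1 := GCls_eps_le hph hph1
  have hs := GCls_sC_pos
  have hs1 := GCls_sC_le
  have hr := GCls_rh_pos i
  have hx := GCls_xh_le hi
  have hr1 : rh i ≤ 1 := by
    unfold rh
    linarith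
  have hes : 0 < epsh (phh c0 i) * sC := mul_pos he hs
  have hes1 : epsh (phh c0 i) * sC ≤ 1 := by nlinarith
  have e1 : IsEdge ε (δ / rh i) (scΨ (rh i) Ψ) := H.edge.scale hr hr1 H.eps0.le
  have e2 : IsEdge ε (δ / rh i / (epsh (phh c0 i) * sC))
      (scΨ (epsh (phh c0 i) * sC) (scΨ (rh i) Ψ)) := e1.scale hes hes1 H.eps0.le
  refine ⟨_, ?_, e2⟩
  have h2 := hδ i hi hik
  unfold dbd at h2
  have h3 : sin taC < taC := sin_lt isCoreC.ta_pos
  have h4 : taC ≤ 1 / 2 := isCoreC.ta_le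
  rw [div_div, div_le_iff₀ (mul_pos hr hes)]
  refine h2.trans ?_
  have h5 : sin taC / 2 ≤ 1 / 4 := by linarith
  calc rh i * (epsh (phh c0 i) * sC) * (sin taC / 2)
      ≤ rh i * (epsh (phh c0 i) * sC) * (1 / 4) :=
        mul_le_mul_of_nonneg_left h5 (mul_pos hr hes).le
    _ = 1 / 4 * (rh i * (epsh (phh c0 i) * sC)) := by ring

/-- transfer of a chart of the core -/
theorem GCls_transfer {c0 a : ℝ} {k i : ℕ} {Ψ U : ℝ → ℝ} (h : 0 < c0) (h1 : c0 ≤ 1)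
    (hi : 1 ≤ i) (hik : i ≤ k) (y : ℕ → EE 4) (x : ℕ → EE 4)
    (hxy : ∀ j, usc i (Th (epsh (phh c0 i)) (x j)) = y j)
    (hC : ChartC (Uc a) (polMet (qC (scΨ (epsh (phh c0 i) * sC) (scΨ (rh i) Ψ)) U))
      {x | tc x < taC} x) :
    ChartC (UM c0 k a) (gM c0 k Ψ U) univ y := by
  obtain ⟨V, h', T, Φ, HL, hinj, hO, x₀, hx₀, z, φ, hφ, hz, hlim, hzx⟩ := hC
  have hph := phh_pos h i
  have hph1 := GCls_ph h h1 i
  have he := epsh_pos hph
  have he1 := GCls_eps_le hph hph1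
  obtain ⟨L1, L2⟩ := HL.toHole hph hph1 (fun x hx => hO hx)
  have L3 := L1.toGlobal h h1 hi hik (fun x hx => by
    have := L2 x hx
    show ‖Th (epsh (phh c0 i)) (Φ x)‖ < 1
    linarith)
  refine ⟨V, _, T, _, L3, ?_, fun _ _ => mem_univ _, x₀, hx₀, z, φ, hφ, hz, hlim, ?_⟩
  · intro u hu w hw huw
    have e1 := GCls_usc_inj i huw
    have e2 : Th (epsh (phh c0 i)) (Φ u) = Th (epsh (phh c0 i)) (Φ w) := e1
    have n1 : Φ u ≠ 0 := by
      have := (HL.maps hu).1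
      intro h0
      rw [h0, norm_zero] at this
      exact absurd this (not_lt.mpr isCoreC.t1_pos.le)
    have n2 : Φ w ≠ 0 := by
      have := (HL.maps hw).1
      intro h0
      rw [h0, norm_zero] at this
      exact absurd this (not_lt.mpr isCoreC.t1_pos.le)
    have e3 := congrArg (Qm (epsh (phh c0 i))) e2
    rw [Qm_Th he n1, Qm_Th he n2] at e3
    exact hinj hu hw e3
  · intro j
    show usc i (Th (epsh (phh c0 i)) (Φ (z j))) = y (φ j)
    rw [hzx, hxy]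

theorem bounded_class {c0 ρ1 a ε δ : ℝ} {k : ℕ} {Ψ U : ℝ → ℝ} (h : 0 < c0) (h1 : c0 ≤ 1) (hk : 1 ≤ k)
    (H : Par ρ1 a ε δ Ψ U) (hδ : ∀ i, 1 ≤ i → i ≤ k → δ ≤ dbd c0 i) (y : ℕ → EE 4)
    (hy : ∀ j, y j ∈ UM c0 k a) {R : ℝ} (hb : ∀ j, ‖y j‖ ≤ R) :
    ChartC (UM c0 k a) (gM c0 k Ψ U) univ y := by
  -- a convergent subsequence in the slab of the limit
  have hb' : ∀ j, y j ∈ Metric.closedBall (0 : EE 4) R := fun j => by
    rw [mem_closedBall_zero_iff]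
    exact hb j
  obtain ⟨z, _, φ, hφ, hlim⟩ := tendsto_subseq_of_bounded Metric.isBounded_closedBall hb'
  refine VClass_comp hφ ?_
  have hy' : ∀ j, y (φ j) ∈ UM c0 k a := fun j => hy _
  have hlim' : Tendsto (fun j => y (φ j)) atTop (𝓝 z) := hlim
  generalize hw : (fun j => y (φ j)) = w
  have hyw : ∀ j, y (φ j) = w j := fun j => by rw [← hw]
  rw [hw] at hlim'
  simp only [hyw] at hy'
  by_cases hz : z ∈ VM c0 k a
  · obtain ⟨hA, LA⟩ := chartA h h1 hk H hδ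
    refine VClass_fin LA (injOn_id _) (fun _ _ => mem_univ _) w id strictMono_id (fun j => ?_)
      (fun j => rfl) hz hlim'
    have := hy' j
    rw [UM_eq] at this
    exact this.2
  · have hi : 1 ≤ idx k (z 0) := idx_pos k (z 0)
    have hik : idx k (z 0) ≤ k := idx_le hk (z 0)
    have hzS := mem_Sl_idx hk z
    generalize hI : idx k (z 0) = i at hi hik hzS
    have hphz := phh_pos h i
    have hph1 := GCls_ph h h1 i
    have he := epsh_pos hphz
    have he1 := GCls_eps_le hphz hph1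
    have hs := GCls_sC_pos
    have hes : 0 < epsh (phh c0 i) * sC := mul_pos he hs
    rw [VM_iff h h1 hi hik a hzS] at hz
    have hp : Tendsto (fun j => sc i (w j)) atTop (𝓝 (sc i z)) :=
      ((GCls_sc_cont i).tendsto z).comp hlim'
    have hpn : Tendsto (fun j => ‖sc i (w j)‖) atTop (𝓝 ‖sc i z‖) := hp.norm
    have hSl : ∀ᶠ j in atTop, w j ∈ Sl k i := hlim'.eventually ((Sl_isOpen k i).mem_nhds hzS)
    have hUL : ∀ᶠ j in atTop, sc i (w j) ∈ UL (phh c0 i) a := by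
      filter_upwards [hSl] with j hj
      exact (UM_iff h h1 hi hik a hj).mp (hy' j)
    obtain ⟨δ', hδ', hedge⟩ := GCls_edge h h1 hi hik H hδ
    have hge : epsh (phh c0 i) * sC * t1C ≤ ‖sc i z‖ := by
      refine ge_of_tendsto hpn ?_
      filter_upwards [hUL] with j hj
      exact hj.2.1.le
    have hpos : 0 < epsh (phh c0 i) * sC * t1C := mul_pos hes isCoreC.t1_pos
    have hz0 : sc i z ≠ 0 := by
      intro h0
      rw [h0, norm_zero] at hge
      linarith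
    -- the limit is inside of the ball of radius ε/2
    have hlt : ‖sc i z‖ < epsh (phh c0 i) / 2 := by
      by_contra hc
      apply hz
      refine ⟨?_, fun h2 => hc h2.1⟩
      rw [not_lt] at hc
      refine lt_of_lt_of_le ?_ hc
      have := GCls_sC_t1
      calc epsh (phh c0 i) * sC * t1C = epsh (phh c0 i) * (sC * t1C) := by ring
        _ < epsh (phh c0 i) * (1 / 2) := mul_lt_mul_of_pos_left this he
        _ = epsh (phh c0 i) / 2 := by ring
    have hlt' : ∀ᶠ j in atTop, ‖sc i (w j)‖ < epsh (phh c0 i) / 2 :=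
      hpn.eventually_lt_const hlt
    have hgood : ∀ᶠ j in atTop, sc i (w j) ≠ 0 ∧
        Qm (epsh (phh c0 i)) (sc i (w j)) ∈ Uc a := by
      filter_upwards [hUL, hlt'] with j hj hj'
      have hn0 : sc i (w j) ≠ 0 := by
        intro h0
        have := hj.2.1
        rw [h0, norm_zero] at this
        linarith
      refine ⟨hn0, ?_, ?_, fun hc => hj.2.2 ⟨hj', hc⟩⟩
      · rw [Qm_norm he hn0, lt_div_iff₀ hes]
        have := hj.2.1
        linarith
      · intro h0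
        exact hj.1 ((Qm_Ur he hn0).mp h0)
    -- the hypothesis of `core_charts`
    have hcase : Tendsto (fun j => ‖Qm (epsh (phh c0 i)) (sc i (w j))‖) atTop (𝓝 t1C) ∨
        ((∀ᶠ j in atTop, Qm (epsh (phh c0 i)) (sc i (w j)) ∈ PZ) ∧
          Tendsto (fun j => rhoP (Qm (epsh (phh c0 i)) (sc i (w j)))) atTop (𝓝 a)) := by
      rcases hge.eq_or_lt with heq | hgt
      · left
        have h2 := hpn.div_const (epsh (phh c0 i) * sC)
        rw [← heq, mul_div_cancel_left₀ _ hes.ne'] at h2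
        refine h2.congr' ?_
        filter_upwards [hgood] with j hj
        rw [Qm_norm he hj.1]
      · right
        have hcap : Qm (epsh (phh c0 i)) (sc i z) ∈ CapS a := by
          by_contra hc
          exact hz ⟨hgt, fun h2 => hc h2.2⟩
        have hcont : ContinuousAt (Qm (epsh (phh c0 i))) (sc i z) :=
          (Qm_contDiffOn he).continuousOn.continuousAt (isOpen_compl_singleton.mem_nhds hz0)
        have hQ : Tendsto (fun j => Qm (epsh (phh c0 i)) (sc i (w j))) atTop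
            (𝓝 (Qm (epsh (phh c0 i)) (sc i z))) := hcont.tendsto.comp hp
        have hQn : ‖Qm (epsh (phh c0 i)) (sc i z)‖ ≠ 0 := by
          rw [Qm_norm he hz0]
          have : 0 < ‖sc i z‖ := norm_pos_iff.mpr hz0
          positivity
        have hrho := (VClass_rhoP_at hQn).tendsto.comp hQ
        have htc := (VClass_cont_tc.tendsto _).comp hQ
        have hPZ : ∀ᶠ j in atTop, Qm (epsh (phh c0 i)) (sc i (w j)) ∈ PZ := by
          filter_upwards [hrho.eventually_lt_const hcap.1.2, htc.eventually_lt_const hcap.1.1]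
            with j hj hj'
          exact ⟨hj', hj⟩
        refine ⟨hPZ, ?_⟩
        have hra : rhoP (Qm (epsh (phh c0 i)) (sc i z)) = a := by
          refine le_antisymm hcap.2 ?_
          refine ge_of_tendsto hrho ?_
          filter_upwards [hPZ, hgood] with j hj hj'
          by_contra hc
          rw [not_le] at hc
          exact hj'.2.2.2 ⟨hj, hc.le⟩
        rw [hra] at hrho
        exact hrho
    -- shift
    obtain ⟨N, hN⟩ : ∃ N, ∀ j ≥ N, (sc i (w j) ≠ 0 ∧ Qm (epsh (phh c0 i)) (sc i (w j)) ∈ Uc a) ∧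
        (¬ Tendsto (fun j => ‖Qm (epsh (phh c0 i)) (sc i (w j))‖) atTop (𝓝 t1C) →
          Qm (epsh (phh c0 i)) (sc i (w j)) ∈ PZ) := by
      rcases hcase with h2 | h2
      · obtain ⟨N, hN⟩ := eventually_atTop.mp hgood
        exact ⟨N, fun j hj => ⟨hN j hj, fun h3 => absurd h2 h3⟩⟩
      · obtain ⟨N, hN⟩ := eventually_atTop.mp (hgood.and h2.1)
        exact ⟨N, fun j hj => ⟨(hN j hj).1, fun _ => (hN j hj).2⟩⟩
    have hθ' : StrictMono fun j : ℕ => j + N := fun i j hij => by simpa using hij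
    refine VClass_comp hθ' ?_
    refine GCls_transfer h h1 hi hik _ (fun j => Qm (epsh (phh c0 i)) (sc i (w (j + N)))) ?_ ?_
    · intro j
      rw [Th_Qm he (hN (j + N) (Nat.le_add_left N j)).1.1, GCls_usc_sc]
    · refine core_charts hedge hδ' H.cap H.rho1 H.rho2 _
        (fun j => (hN (j + N) (Nat.le_add_left N j)).1.2) ?_
      by_cases h3 : Tendsto (fun j => ‖Qm (epsh (phh c0 i)) (sc i (w j))‖) atTop (𝓝 t1C)
      · left
        exact (tendsto_add_atTop_iff_nat N).mpr h3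
      · right
        rcases hcase with h4 | h4
        · exact absurd h4 h3
        · refine ⟨fun j => (hN (j + N) (Nat.le_add_left N j)).2 h3, ?_⟩
          exact (tendsto_add_atTop_iff_nat N
            (f := fun j => rhoP (Qm (epsh (phh c0 i)) (sc i (w j))))).mpr h4.2

end Pool.Agent.MP39e402
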