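import Pool.Agent.Lib.MP_39e402_gt.UDefs

/-! # MP_39e402, module GDefs: slabs, domains with the set `{Ur = 0}` added, transfer of charts -/

open Real Set Filter Topology MeasureTheory
open scoped ContDiff

noncomputable section

namespace Pool.Agent.MP39e402

/-- the parameter range and the choice of the edge/cap functions used everywhere -/
structure Par (ρ1 a ε δ : ℝ) (Ψ U : ℝ → ℝ) : Prop where
  edge : IsEdge ε δ Ψ
  eps0 : 0 < ε
  eps1 : ε ≤ 1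
  cap : IsCap ρ1 a U
  rho1 : ρ1 ≤ 1 / 4
  rho2 : ρ1 ≤ sin taC

/-- the parameters of the limit: `Ψ(w) = w/2`, `U(ρ) = ρ²`, `a = 0` -/
def Ψ0 (w : ℝ) : ℝ := w / 2
def U0 (ρ : ℝ) : ℝ := ρ ^ 2

/-- admissible triples `(a, Ψ, U)` at unit scale of the core: either a capped/smoothed one, or the limit -/
def Adm (a : ℝ) (Ψ U : ℝ → ℝ) : Prop :=
  (∃ ρ1 ε δ : ℝ, Par ρ1 a ε δ Ψ U ∧ δ ≤ sin taC / 2) ∨ (a = 0 ∧ Ψ = Ψ0 ∧ U = U0)

/-- core domain with `Ur = 0` added -/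
def Vc (a : ℝ) : Set (EE 4) := {x | t1C < ‖x‖ ∧ x ∉ CapS a}

/-- one-hole domain with `Ur = 0` added -/
def VL (ph a : ℝ) : Set (EE 4) :=
  {p | epsh ph * sC * t1C < ‖p‖ ∧ ¬ (‖p‖ < epsh ph / 2 ∧ Qm (epsh ph) p ∈ CapS a)}

/-- global domain with `Ur = 0` added -/
def VM (c0 : ℝ) (k : ℕ) (a : ℝ) : Set (EE 4) :=
  {p | sc (idx k (p 0)) p ∈ VL (phh c0 (idx k (p 0))) a}

/-- open slab around hole `i` (for `k` holes) -/
def Sl (k i : ℕ) : Set (EE 4) :=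
  {p | (i < k → 11 / 16 * xh i < p 0) ∧ (1 < i → p 0 < 25 / 16 * xh i)}

/-- the inverse of `sc i` -/
def usc (i : ℕ) (p : EE 4) : EE 4 := v4 (xh i) 0 0 0 + rh i • p

end Pool.Agent.MP39e402
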