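import Pool.Agent.Lib.MP_39e402_gt.MDefs

/-!
# Part M, module MQuad: the quadratic form of a metric

Elementary facts. For `exists_gquad_bounds` and `exists_gquad_close` use compactness of
`K ×ˢ sphere 0 1` (or of `cthickening δ K ×ˢ sphere 0 1`), `continuousOn_gquad` and homogeneity
(`gquad_smul`).
-/

open Set Filter Topology MeasureTheory
open scoped ENNReal NNReal ContDiff BigOperators

noncomputable section

namespace Pool.Agent.MP39e402

variable {n : ℕ}

theorem gquad_zero (g : RMetric n) (x : EE n) : gquad g x 0 = 0 := by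
  unfold gquad
  exact Finset.sum_eq_zero fun i _ => Finset.sum_eq_zero fun j _ => by simp

theorem gquad_smul (g : RMetric n) (x v : EE n) (c : ℝ) :
    gquad g x (c • v) = c ^ 2 * gquad g x v := by
  unfold gquad
  rw [Finset.mul_sum]
  refine Finset.sum_congr rfl fun i _ => ?_
  rw [Finset.mul_sum]
  refine Finset.sum_congr rfl fun j _ => ?_
  simp only [PiLp.smul_apply, smul_eq_mul]
  ring

theorem gquad_neg (g : RMetric n) (x v : EE n) : gquad g x (-v) = gquad g x v := by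
  have h := gquad_smul g x v (-1)
  rw [neg_one_smul] at h
  rw [h]
  ring

theorem gquad_pos {V : Set (EE n)} {g : RMetric n} (hg : IsRMetricOn g V) {x : EE n} (hx : x ∈ V)
    {v : EE n} (hv : v ≠ 0) : 0 < gquad g x v := by
  have hv' : (fun i => v i) ≠ 0 := by
    intro h
    apply hv
    ext i
    exact congrFun h i
  have h1 := (hg.posDef x hx).dotProduct_mulVec_pos hv'
  have h2 : star (fun i => v i) ⬝ᵥ Matrix.mulVec (g x) (fun i => v i) = gquad g x v := by
    unfold gquad dotProduct Matrix.mulVec dotProduct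
    refine Finset.sum_congr rfl fun i _ => ?_
    rw [Finset.mul_sum]
    refine Finset.sum_congr rfl fun j _ => ?_
    simp only [Pi.star_apply, star_trivial]
    ring
  rw [h2] at h1
  exact h1

theorem gquad_nonneg {V : Set (EE n)} {g : RMetric n} (hg : IsRMetricOn g V) {x : EE n}
    (hx : x ∈ V) (v : EE n) : 0 ≤ gquad g x v := by
  by_cases hv : v = 0
  · rw [hv, gquad_zero]
  · exact (gquad_pos hg hx hv).le

theorem continuousOn_gquad {V : Set (EE n)} {g : RMetric n} (hg : IsRMetricOn g V) :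
    ContinuousOn (fun p : EE n × EE n => gquad g p.1 p.2) (V ×ˢ univ) := by
  unfold gquad
  refine continuousOn_finsetSum _ fun i _ => continuousOn_finsetSum _ fun j _ => ?_
  have h1 : ContinuousOn (fun p : EE n × EE n => g p.1 i j) (V ×ˢ univ) :=
    (hg.smooth i j).continuousOn.comp continuousOn_fst fun p hp => hp.1
  have h2 : ∀ i : Fin n, Continuous (fun p : EE n × EE n => p.2 i) := fun i =>
    (EuclideanSpace.proj i : EE n →L[ℝ] ℝ).continuous.comp continuous_snd
  exact (h1.mul (h2 i).continuousOn).mul (h2 j).continuousOn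

/-- scaling to the unit sphere -/
private theorem mquad_scale (g : RMetric n) (x : EE n) {v : EE n} (hv : v ≠ 0) :
    gquad g x v = ‖v‖ ^ 2 * gquad g x (‖v‖⁻¹ • v) := by
  rw [gquad_smul]
  have : ‖v‖ ≠ 0 := norm_ne_zero_iff.mpr hv
  field_simp

private theorem mquad_mem {v : EE n} (hv : v ≠ 0) : ‖v‖⁻¹ • v ∈ Metric.sphere (0 : EE n) 1 := by
  rw [mem_sphere_zero_iff_norm, norm_smul, norm_inv, norm_norm]
  exact inv_mul_cancel₀ (norm_ne_zero_iff.mpr hv)

/-- bounds on compact sets -/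
theorem exists_gquad_bounds {V : Set (EE n)} {g : RMetric n} (hg : IsRMetricOn g V)
    {K : Set (EE n)} (hK : IsCompact K) (hKV : K ⊆ V) :
    ∃ c C : ℝ, 0 < c ∧ c ≤ C ∧ ∀ x ∈ K, ∀ v : EE n,
      c ^ 2 * ‖v‖ ^ 2 ≤ gquad g x v ∧ gquad g x v ≤ C ^ 2 * ‖v‖ ^ 2 := by
  have hcomp : IsCompact (K ×ˢ Metric.sphere (0 : EE n) 1) := hK.prod (isCompact_sphere 0 1)
  have hcont : ContinuousOn (fun p : EE n × EE n => gquad g p.1 p.2)
      (K ×ˢ Metric.sphere (0 : EE n) 1) :=
    (continuousOn_gquad hg).mono fun p hp => ⟨hKV hp.1, mem_univ _⟩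
  by_cases hne : (K ×ˢ Metric.sphere (0 : EE n) 1).Nonempty
  · obtain ⟨p, hp, hmin⟩ := hcomp.exists_isMinOn hne hcont
    obtain ⟨q, hq, hmax⟩ := hcomp.exists_isMaxOn hne hcont
    have hp0 : p.2 ≠ 0 := by
      intro h
      have := hp.2
      rw [h, mem_sphere_zero_iff_norm, norm_zero] at this
      exact zero_ne_one this
    have hm : 0 < gquad g p.1 p.2 := gquad_pos hg (hKV hp.1) hp0
    have hmM : gquad g p.1 p.2 ≤ gquad g q.1 q.2 := hmin hq
    refine ⟨Real.sqrt (gquad g p.1 p.2), Real.sqrt (gquad g q.1 q.2), Real.sqrt_pos.mpr hm,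
      Real.sqrt_le_sqrt hmM, ?_⟩
    intro x hx v
    rw [Real.sq_sqrt hm.le, Real.sq_sqrt (hm.le.trans hmM)]
    by_cases hv : v = 0
    · rw [hv, gquad_zero, norm_zero]
      norm_num
    · have hmem : (x, ‖v‖⁻¹ • v) ∈ K ×ˢ Metric.sphere (0 : EE n) 1 := ⟨hx, mquad_mem hv⟩
      have h1 : gquad g p.1 p.2 ≤ gquad g x (‖v‖⁻¹ • v) := hmin hmem
      have h2 : gquad g x (‖v‖⁻¹ • v) ≤ gquad g q.1 q.2 := hmax hmem
      rw [mquad_scale g x hv]
      constructor
      · rw [mul_comm]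
        exact mul_le_mul_of_nonneg_left h1 (sq_nonneg _)
      · rw [mul_comm (gquad g q.1 q.2)]
        exact mul_le_mul_of_nonneg_left h2 (sq_nonneg _)
  · refine ⟨1, 1, one_pos, le_rfl, ?_⟩
    intro x hx v
    by_cases hv : v = 0
    · rw [hv, gquad_zero, norm_zero]
      norm_num
    · exact absurd ⟨(x, ‖v‖⁻¹ • v), hx, mquad_mem hv⟩ hne

/-- uniform relative continuity in the base point near a compact set -/
theorem exists_gquad_close {V : Set (EE n)} {g : RMetric n} (hg : IsRMetricOn g V)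
    {K : Set (EE n)} (hK : IsCompact K) (hKV : K ⊆ V) {ε : ℝ} (hε : 0 < ε) :
    ∃ δ > 0, ∀ x ∈ K, ∀ w : EE n, ‖w‖ < δ → x + w ∈ V ∧
      ∀ v : EE n, gquad g (x + w) v ≤ (1 + ε) ^ 2 * gquad g x v := by
  obtain ⟨δ₁, hδ₁, hsub⟩ := hK.exists_cthickening_subset_open hg.isOpen hKV
  have hK' : IsCompact (Metric.cthickening δ₁ K) := hK.cthickening
  have hcomp : IsCompact (Metric.cthickening δ₁ K ×ˢ Metric.sphere (0 : EE n) 1) :=
    hK'.prod (isCompact_sphere 0 1)
  have hcont : ContinuousOn (fun p : EE n × EE n => gquad g p.1 p.2)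
      (Metric.cthickening δ₁ K ×ˢ Metric.sphere (0 : EE n) 1) :=
    (continuousOn_gquad hg).mono fun p hp => ⟨hsub hp.1, mem_univ _⟩
  have hunif := hcomp.uniformContinuousOn_of_continuous hcont
  obtain ⟨c, C, hc, -, hb⟩ := exists_gquad_bounds hg hK hKV
  rw [Metric.uniformContinuousOn_iff] at hunif
  have hη : 0 < ((1 + ε) ^ 2 - 1) * c ^ 2 := by
    have : 0 < (1 + ε) ^ 2 - 1 := by nlinarith
    positivity
  obtain ⟨δ₂, hδ₂, hclose⟩ := hunif _ hη
  refine ⟨min δ₁ δ₂, lt_min hδ₁ hδ₂, ?_⟩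
  intro x hx w hw
  have hw1 : ‖w‖ < δ₁ := lt_of_lt_of_le hw (min_le_left _ _)
  have hw2 : ‖w‖ < δ₂ := lt_of_lt_of_le hw (min_le_right _ _)
  have hxw : x + w ∈ Metric.cthickening δ₁ K := by
    refine Metric.mem_cthickening_of_dist_le (x + w) x δ₁ K hx ?_
    rw [dist_eq_norm, add_sub_cancel_left]
    exact hw1.le
  have hxK : x ∈ Metric.cthickening δ₁ K :=
    Metric.self_subset_cthickening K hx
  refine ⟨hsub hxw, fun v => ?_⟩
  by_cases hv : v = 0
  · rw [hv, gquad_zero, gquad_zero, mul_zero]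
  · have hu := mquad_mem hv
    set u := ‖v‖⁻¹ • v with hudef
    have h1 := hclose (x + w, u) ⟨hxw, hu⟩ (x, u) ⟨hxK, hu⟩ (by
      rw [Prod.dist_eq, dist_self, max_eq_left dist_nonneg]
      show dist (x + w) x < δ₂
      rw [dist_eq_norm, add_sub_cancel_left]
      exact hw2)
    rw [Real.dist_eq] at h1
    have h2 := (abs_lt.mp h1).2
    have h3 := (hb x hx u).1
    rw [mem_sphere_zero_iff_norm] at hu
    rw [hu, one_pow, mul_one] at h3
    have h4 : gquad g (x + w) u ≤ (1 + ε) ^ 2 * gquad g x u := by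
      have h5 : ((1 + ε) ^ 2 - 1) * c ^ 2 ≤ ((1 + ε) ^ 2 - 1) * gquad g x u :=
        mul_le_mul_of_nonneg_left h3 (by nlinarith)
      have h6 : gquad g (x + w) u - gquad g x u < ((1 + ε) ^ 2 - 1) * c ^ 2 := h2
      linarith
    rw [mquad_scale g (x + w) hv, mquad_scale g x hv, ← hudef]
    calc ‖v‖ ^ 2 * gquad g (x + w) u ≤ ‖v‖ ^ 2 * ((1 + ε) ^ 2 * gquad g x u) :=
          mul_le_mul_of_nonneg_left h4 (sq_nonneg _)
      _ = _ := by ring

/-- the speed of a `C¹` path is continuous -/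
theorem continuousOn_speed {V : Set (EE n)} {g : RMetric n} (hg : IsRMetricOn g V) {γ : ℝ → EE n}
    {W s : Set ℝ} (hW : IsOpen W) (hγ : ContDiffOn ℝ 1 γ W) (hs : s ⊆ W) (hV : ∀ t ∈ s, γ t ∈ V) :
    ContinuousOn (fun t => Real.sqrt (gquad g (γ t) (deriv γ t))) s := by
  have h1 : ContinuousOn (deriv γ) W := hγ.continuousOn_deriv_of_isOpen hW le_rfl
  have h2 : ContinuousOn (fun t => (γ t, deriv γ t)) s :=
    (hγ.continuousOn.mono hs).prodMk (h1.mono hs)
  have h3 : MapsTo (fun t => (γ t, deriv γ t)) s (V ×ˢ (univ : Set (EE n))) :=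
    fun t ht => ⟨hV t ht, mem_univ _⟩
  have h4 := (continuousOn_gquad hg).comp h2 h3
  exact h4.sqrt

theorem plenI_nonneg (g : RMetric n) (γ : ℝ → EE n) {a b : ℝ} (hab : a ≤ b) :
    0 ≤ plenI g γ a b :=
  intervalIntegral.integral_nonneg hab fun _ _ => Real.sqrt_nonneg _

/-- additivity of the length -/
theorem plenI_add {V : Set (EE n)} {g : RMetric n} (hg : IsRMetricOn g V) {γ : ℝ → EE n}
    {W : Set ℝ} (hW : IsOpen W) (hγ : ContDiffOn ℝ 1 γ W) {a b c : ℝ} (hab : a ≤ b) (hbc : b ≤ c)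
    (hIW : Icc a c ⊆ W) (hV : ∀ t ∈ Icc a c, γ t ∈ V) :
    plenI g γ a b + plenI g γ b c = plenI g γ a c := by
  have h1 := continuousOn_speed hg hW hγ hIW hV
  refine intervalIntegral.integral_add_adjacent_intervals ?_ ?_
  · refine ContinuousOn.intervalIntegrable ?_
    rw [uIcc_of_le hab]
    exact h1.mono (Icc_subset_Icc_right hbc)
  · refine ContinuousOn.intervalIntegrable ?_
    rw [uIcc_of_le hbc]
    exact h1.mono (Icc_subset_Icc_left hab)

/-- the length depends continuously on the end parameter -/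
theorem continuousOn_plenI {V : Set (EE n)} {g : RMetric n} (hg : IsRMetricOn g V) {γ : ℝ → EE n}
    {W : Set ℝ} (hW : IsOpen W) (hγ : ContDiffOn ℝ 1 γ W) {a b : ℝ} (hab : a ≤ b)
    (hIW : Icc a b ⊆ W) (hV : ∀ t ∈ Icc a b, γ t ∈ V) :
    ContinuousOn (fun t => plenI g γ a t) (Icc a b) := by
  have h1 := continuousOn_speed hg hW hγ hIW hV
  have h2 := intervalIntegral.continuousOn_primitive_interval (μ := volume)
    (f := fun t => Real.sqrt (gquad g (γ t) (deriv γ t))) (a := a) (b := b) (by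
      rw [uIcc_of_le hab]
      exact h1.integrableOn_Icc)
  rw [uIcc_of_le hab] at h2
  exact h2

end Pool.Agent.MP39e402
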