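import Pool.Agent.Lib.MP_39e402_gt.Scal

/-! # MP_39e402, module LSt: the smooth step `st` and the saturation `zf` -/

open Real Set Filter Topology MeasureTheory
open scoped ContDiff

noncomputable section

namespace Pool.Agent.MP39e402

theorem st_contDiff : ContDiff ℝ ∞ st := Real.smoothTransition.contDiff (n := ⊤)

theorem st_zero {t : ℝ} (h : t ≤ 0) : st t = 0 := Real.smoothTransition.zero_of_nonpos h

theorem st_one {t : ℝ} (h : 1 ≤ t) : st t = 1 := Real.smoothTransition.one_of_one_le h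

theorem st_nonneg (t : ℝ) : 0 ≤ st t := Real.smoothTransition.nonneg t

theorem st_le_one (t : ℝ) : st t ≤ 1 := Real.smoothTransition.le_one t

theorem st_mono : Monotone st := Real.smoothTransition.monotone

theorem LSt_continuous : Continuous st := Real.smoothTransition.continuous

theorem st_symm (t : ℝ) : st t + st (1 - t) = 1 := by
  unfold st Real.smoothTransition
  have h1 := (Real.smoothTransition.pos_denom t).ne'
  have h2 : 1 - (1 - t) = t := by ring
  rw [h2, add_comm (expNegInvGlue (1 - t)) (expNegInvGlue t), ← add_div]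
  exact div_self h1

theorem st_integral : ∫ r in (0:ℝ)..1, st r = 1 / 2 := by
  have h1 : ∫ r in (0:ℝ)..1, st (1 - r) = ∫ r in (0:ℝ)..1, st r := by
    rw [intervalIntegral.integral_comp_sub_left (fun r => st r) (1 : ℝ)]
    norm_num
  have h2 : ∫ r in (0:ℝ)..1, (st r + st (1 - r)) = 1 := by
    have : (fun r : ℝ => st r + st (1 - r)) = fun _ => (1 : ℝ) := funext st_symm
    rw [this]
    simp
  have h3 : Continuous (fun r : ℝ => st (1 - r)) :=
    LSt_continuous.comp (continuous_const.sub continuous_id)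
  rw [intervalIntegral.integral_add (LSt_continuous.intervalIntegrable _ _)
    (h3.intervalIntegrable _ _), h1] at h2
  linarith

/-- the derivative of the exponential glue function -/
theorem LSt_glue (t : ℝ) : HasDerivAt expNegInvGlue ((t⁻¹) ^ 2 * expNegInvGlue t) t := by
  have h := expNegInvGlue.hasDerivAt_polynomial_eval_inv_mul 1 t
  simpa using h

/-- the derivative of `st` -/
theorem LSt_hasDerivAt (t : ℝ) : HasDerivAt st
    (expNegInvGlue t * expNegInvGlue (1 - t) * ((t⁻¹) ^ 2 + ((1 - t)⁻¹) ^ 2) /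
      (expNegInvGlue t + expNegInvGlue (1 - t)) ^ 2) t := by
  have h0 := (Real.smoothTransition.pos_denom t).ne'
  have h1 := LSt_glue t
  have h2 : HasDerivAt (fun s => expNegInvGlue (1 - s))
      ((((1 - t)⁻¹) ^ 2 * expNegInvGlue (1 - t)) * (-1)) t := by
    have h3 : HasDerivAt (fun s : ℝ => 1 - s) (-1) t := by
      simpa using (hasDerivAt_id t).const_sub 1
    exact (LSt_glue (1 - t)).comp t h3
  have h4 := h1.div (h1.add h2) h0
  have h5 : HasDerivAt st _ t := h4
  convert! h5 using 1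
  simp only [Pi.add_apply]
  congr 1
  ring

theorem LSt_deriv (t : ℝ) : deriv st t =
    expNegInvGlue t * expNegInvGlue (1 - t) * ((t⁻¹) ^ 2 + ((1 - t)⁻¹) ^ 2) /
      (expNegInvGlue t + expNegInvGlue (1 - t)) ^ 2 := (LSt_hasDerivAt t).deriv

theorem LSt_deriv_zero {t : ℝ} (h : t < 0 ∨ 1 < t) : deriv st t = 0 := by
  rw [LSt_deriv]
  rcases h with h | h
  · rw [expNegInvGlue.zero_of_nonpos h.le]
    simp
  · rw [expNegInvGlue.zero_of_nonpos (x := 1 - t) (by linarith)]
    simp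

theorem LSt_deriv2_zero {t : ℝ} (h : t < 0 ∨ 1 < t) : deriv (deriv st) t = 0 := by
  have h1 : deriv st =ᶠ[𝓝 t] fun _ => 0 := by
    rcases h with h | h
    · filter_upwards [Iio_mem_nhds h] with s hs
      exact LSt_deriv_zero (Or.inl hs)
    · filter_upwards [Ioi_mem_nhds h] with s hs
      exact LSt_deriv_zero (Or.inr hs)
  rw [h1.deriv_eq]
  simp

theorem LSt_bound {g : ℝ → ℝ} (hg : Continuous g) (h : ∀ t, t < 0 ∨ 1 < t → g t = 0) :
    ∃ C : ℝ, 0 < C ∧ ∀ t, |g t| ≤ C := by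
  obtain ⟨C, hC⟩ := (isCompact_Icc (a := (0 : ℝ)) (b := 1)).exists_bound_of_continuousOn
    hg.continuousOn
  refine ⟨max C 1, lt_max_of_lt_right one_pos, fun t => ?_⟩
  by_cases ht : t ∈ Icc (0 : ℝ) 1
  · exact (hC t ht).trans (le_max_left _ _)
  · have : t < 0 ∨ 1 < t := by
      by_contra hcon
      push Not at hcon
      exact ht ⟨hcon.1, hcon.2⟩
    rw [h t this, abs_zero]
    exact le_max_of_le_right zero_le_one

/-- bounds for the derivatives (some constant) -/
theorem st_deriv_bound : ∃ C : ℝ, 0 < C ∧ ∀ t, |deriv st t| ≤ C ∧ |deriv (deriv st) t| ≤ C := by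
  have h1 : ContDiff ℝ ∞ (deriv st) := (contDiff_infty_iff_deriv.1 st_contDiff).2
  have h2 : ContDiff ℝ ∞ (deriv (deriv st)) := (contDiff_infty_iff_deriv.1 h1).2
  obtain ⟨C₁, hC₁, hb₁⟩ := LSt_bound h1.continuous (fun t ht => LSt_deriv_zero ht)
  obtain ⟨C₂, hC₂, hb₂⟩ := LSt_bound h2.continuous (fun t ht => LSt_deriv2_zero ht)
  exact ⟨max C₁ C₂, lt_max_of_lt_left hC₁, fun t =>
    ⟨(hb₁ t).trans (le_max_left _ _), (hb₂ t).trans (le_max_right _ _)⟩⟩

theorem st_deriv_nonneg (t : ℝ) : 0 ≤ deriv st t := by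
  rw [LSt_deriv]
  have h1 := expNegInvGlue.nonneg t
  have h2 := expNegInvGlue.nonneg (1 - t)
  positivity

/-- the estimate on the left half -/
theorem LSt_left {t : ℝ} (h0 : 0 < t) (h1 : t ≤ 1 / 2) :
    expNegInvGlue t * expNegInvGlue (1 - t) * ((t⁻¹) ^ 2 + ((1 - t)⁻¹) ^ 2) ≤
      8 * (expNegInvGlue t + expNegInvGlue (1 - t)) ^ 2 := by
  have ha : expNegInvGlue t = Real.exp (-t⁻¹) := by
    unfold expNegInvGlue
    rw [if_neg (not_le.2 h0)]
  have hb : expNegInvGlue (1 - t) = Real.exp (-(1 - t)⁻¹) := by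
    unfold expNegInvGlue
    rw [if_neg (not_le.2 (by linarith))]
  have ha0 := expNegInvGlue.nonneg t
  have hb0 := expNegInvGlue.nonneg (1 - t)
  have hv : (1 - t)⁻¹ ≤ 2 := by
    rw [inv_le_comm₀ (by linarith) (by norm_num)]
    linarith
  have hv0 : 0 ≤ (1 - t)⁻¹ := inv_nonneg.2 (by linarith)
  have hu : 0 ≤ t⁻¹ := inv_nonneg.2 h0.le
  have hexp : t⁻¹ / 2 ≤ Real.exp (t⁻¹ / 2 - 1) := by
    have := Real.add_one_le_exp (t⁻¹ / 2 - 1)
    linarith
  have hexp2 : (t⁻¹) ^ 2 ≤ 4 * Real.exp (t⁻¹ - 2) := by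
    have h2 : (t⁻¹ / 2) ^ 2 ≤ Real.exp (t⁻¹ / 2 - 1) ^ 2 :=
      pow_le_pow_left₀ (by positivity) hexp 2
    rw [← Real.exp_nat_mul] at h2
    have h3 : ((2 : ℕ) : ℝ) * (t⁻¹ / 2 - 1) = t⁻¹ - 2 := by push_cast; ring
    rw [h3] at h2
    nlinarith
  have hmain : expNegInvGlue t * (t⁻¹) ^ 2 ≤ 4 * expNegInvGlue (1 - t) := by
    calc expNegInvGlue t * (t⁻¹) ^ 2 ≤ expNegInvGlue t * (4 * Real.exp (t⁻¹ - 2)) :=
          mul_le_mul_of_nonneg_left hexp2 ha0
      _ = 4 * (Real.exp (-t⁻¹) * Real.exp (t⁻¹ - 2)) := by rw [ha]; ring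
      _ = 4 * Real.exp (-2) := by
          rw [← Real.exp_add]
          congr 2
          ring
      _ ≤ 4 * expNegInvGlue (1 - t) := by
          rw [hb]
          apply mul_le_mul_of_nonneg_left _ (by norm_num)
          apply Real.exp_le_exp.2
          linarith
  have hv2 : ((1 - t)⁻¹) ^ 2 ≤ 4 := by nlinarith
  have h3 : expNegInvGlue t * expNegInvGlue (1 - t) * ((t⁻¹) ^ 2) ≤
      4 * expNegInvGlue (1 - t) * expNegInvGlue (1 - t) := by
    nlinarith [mul_le_mul_of_nonneg_right hmain hb0]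
  have h4 : expNegInvGlue t * expNegInvGlue (1 - t) * (((1 - t)⁻¹) ^ 2) ≤
      expNegInvGlue t * expNegInvGlue (1 - t) * 4 :=
    mul_le_mul_of_nonneg_left hv2 (mul_nonneg ha0 hb0)
  nlinarith [mul_nonneg ha0 hb0, sq_nonneg (expNegInvGlue t), sq_nonneg (expNegInvGlue (1 - t))]

/-- `0 ≤ st' ≤ 8` explicitly (the true maximum is 2) -/
theorem st_deriv_le (t : ℝ) : deriv st t ≤ 8 := by
  rw [LSt_deriv, div_le_iff₀ (pow_pos (Real.smoothTransition.pos_denom t) 2)]
  rcases le_or_gt t 0 with h | h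
  · rw [expNegInvGlue.zero_of_nonpos h]
    simp
    positivity
  rcases le_or_gt 1 t with h1 | h1
  · rw [expNegInvGlue.zero_of_nonpos (x := 1 - t) (by linarith)]
    simp
    positivity
  rcases le_or_gt t (1 / 2) with h2 | h2
  · exact LSt_left h h2
  · have h3 := LSt_left (t := 1 - t) (by linarith) (by linarith)
    have h4 : 1 - (1 - t) = t := by ring
    rw [h4] at h3
    nlinarith

theorem LSt_int (a b : ℝ) : IntervalIntegrable st volume a b :=
  LSt_continuous.intervalIntegrable a b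

theorem stI_of_nonpos {x : ℝ} (h : x ≤ 0) : ∫ r in (0:ℝ)..x, st r = 0 := by
  have h1 : ∫ r in (0:ℝ)..x, st r = ∫ r in (0:ℝ)..x, (0 : ℝ) := by
    apply intervalIntegral.integral_congr
    intro r hr
    rw [uIcc_of_ge h] at hr
    exact st_zero hr.2
  rw [h1]
  simp

theorem stI_of_one_le {x : ℝ} (h : 1 ≤ x) : ∫ r in (0:ℝ)..x, st r = x - 1 / 2 := by
  rw [← intervalIntegral.integral_add_adjacent_intervals (LSt_int 0 1) (LSt_int 1 x), st_integral]
  have h1 : ∫ r in (1:ℝ)..x, st r = ∫ r in (1:ℝ)..x, (1 : ℝ) := by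
    apply intervalIntegral.integral_congr
    intro r hr
    rw [uIcc_of_le h] at hr
    exact st_one hr.1
  rw [h1]
  simp
  ring

theorem stI_hasDerivAt (x : ℝ) : HasDerivAt (fun x => ∫ r in (0:ℝ)..x, st r) (st x) x :=
  (LSt_continuous.integral_hasStrictDerivAt 0 x).hasDerivAt

theorem stI_contDiff : ContDiff ℝ ∞ (fun x => ∫ r in (0:ℝ)..x, st r) := by
  rw [contDiff_infty_iff_deriv]
  refine ⟨fun x => (stI_hasDerivAt x).differentiableAt, ?_⟩
  have h : deriv (fun x => ∫ r in (0:ℝ)..x, st r) = st := funext fun x => (stI_hasDerivAt x).deriv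
  rw [h]
  exact st_contDiff

theorem stI_nonneg (x : ℝ) : 0 ≤ ∫ r in (0:ℝ)..x, st r := by
  rcases le_or_gt x 0 with h | h
  · rw [stI_of_nonpos h]
  · exact intervalIntegral.integral_nonneg h.le (fun r _ => st_nonneg r)

theorem zf_contDiff : ContDiff ℝ ∞ zf := by
  have h1 : ContDiff ℝ ∞ (fun t : ℝ => (t - 2) / 2) := by fun_prop
  have h2 : ContDiff ℝ ∞ (fun t : ℝ => ∫ r in (0:ℝ)..((t - 2) / 2), st r) := stI_contDiff.comp h1
  exact contDiff_id.sub (contDiff_const.mul h2)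

theorem zf_hasDerivAt (t : ℝ) : HasDerivAt zf (1 - st ((t - 2) / 2)) t := by
  have h1 : HasDerivAt (fun t : ℝ => (t - 2) / 2) (1 / 2) t := by
    simpa using ((hasDerivAt_id t).sub_const 2).div_const 2
  have h2 : HasDerivAt (fun t : ℝ => ∫ r in (0:ℝ)..((t - 2) / 2), st r)
      (st ((t - 2) / 2) * (1 / 2)) t :=
    HasDerivAt.comp (h₂ := fun x => ∫ r in (0:ℝ)..x, st r) t (stI_hasDerivAt ((t - 2) / 2)) h1
  have h3 := (hasDerivAt_id t).sub (h2.const_mul 2)
  convert! h3 using 1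
  ring

theorem zf_eq_self {t : ℝ} (h : t ≤ 2) : zf t = t := by
  unfold zf
  rw [stI_of_nonpos (by linarith)]
  ring

theorem zf_eq_three {t : ℝ} (h : 4 ≤ t) : zf t = 3 := by
  unfold zf
  rw [stI_of_one_le (by linarith)]
  ring

theorem LSt_zf_deriv : deriv zf = fun t => 1 - st ((t - 2) / 2) :=
  funext fun t => (zf_hasDerivAt t).deriv

theorem LSt_zf_diff : Differentiable ℝ zf := fun t => (zf_hasDerivAt t).differentiableAt

theorem zf_concaveOn : ConcaveOn ℝ univ zf := by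
  apply Antitone.concaveOn_univ_of_deriv LSt_zf_diff
  rw [LSt_zf_deriv]
  intro s t hst
  have h1 : st ((s - 2) / 2) ≤ st ((t - 2) / 2) := st_mono (by linarith)
  simp only
  linarith

theorem zf_mono : Monotone zf := by
  apply monotone_of_deriv_nonneg LSt_zf_diff
  intro t
  rw [LSt_zf_deriv]
  have := st_le_one ((t - 2) / 2)
  simp only
  linarith

theorem zf_le_self (t : ℝ) : zf t ≤ t := by
  unfold zf
  have := stI_nonneg ((t - 2) / 2)
  linarith

theorem zf_le_three (t : ℝ) : zf t ≤ 3 := by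
  calc zf t ≤ zf (max t 4) := zf_mono (le_max_left _ _)
    _ = 3 := zf_eq_three (le_max_right _ _)

theorem zf_two_le {t : ℝ} (h : 2 ≤ t) : 2 ≤ zf t := by
  calc (2 : ℝ) = zf 2 := (zf_eq_self le_rfl).symm
    _ ≤ zf t := zf_mono h

theorem zf_pos {t : ℝ} (h : 0 < t) : 0 < zf t := by
  rcases le_or_gt t 2 with h1 | h1
  · rw [zf_eq_self h1]
    exact h
  · linarith [zf_two_le h1.le]

/-- `z(t) ≥ t z'(t)` for `t ≥ 0`: monotonicity of `u ↦ u z(x/u)` -/
theorem zf_sub_mul_deriv_nonneg {t : ℝ} (h : 0 ≤ t) : 0 ≤ zf t - t * (1 - st ((t - 2) / 2)) := by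
  unfold zf
  rcases le_or_gt ((t - 2) / 2) 0 with h1 | h1
  · rw [stI_of_nonpos h1, st_zero h1]
    linarith
  · have h2 : ∫ r in (0:ℝ)..((t - 2) / 2), st r ≤ ∫ _r in (0:ℝ)..((t - 2) / 2), st ((t - 2) / 2) := by
      apply intervalIntegral.integral_mono_on h1.le (LSt_int _ _) (by simp)
      intro r hr
      exact st_mono hr.2
    rw [intervalIntegral.integral_const, smul_eq_mul] at h2
    have h3 := st_nonneg ((t - 2) / 2)
    nlinarith

end Pool.Agent.MP39e402
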