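import Pool.Agent.Lib.MP_39e402_gt.LPar
import Pool.Agent.Lib.MP_39e402_gt.LSt

/-! # MP_39e402, module LCore: existence of the core functions `b, f`.

`ta = 1/1000`, `θ1(t) = st(1000 t - 1)` (switch on `[1/1000, 2/1000]`), `θ2(t) = st(100 t - 101)` (switch on
`[101/100, 102/100]`).
`b'' = -cos t (1-θ1) + K θ1 (1-θ2)`, `f0'' = -2 sin(2t) (1-θ1) - sin t θ1 (1-θ2)`, `K < 1/2` chosen such that
`b' = 1/2` for `t ≥ 102/100`. In the limit `b = 1 + t²/4`, `f0 = sin t` on `[0,1]`, then both linear.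
`Ric0`: `-f0'' b ≥ 2 K f0` because `f0 ≤ sin t`, `b ≥ 2K`; `Ric3`: `b' ≤ K t`, `t f0' ≤ f0`, at the end
`(f0/b)³ ≥ f0' b'`. Finally `f = b g(f0/b)`, `g` the smooth saturation at `1`. -/

open Real Set Filter Topology MeasureTheory
open scoped ContDiff

noncomputable section

namespace Pool.Agent.MP39e402

namespace CoreAux

/-! ### auxiliary calculus -/

theorem core_mono {F F' : ℝ → ℝ} {a b : ℝ} (hab : a ≤ b) (hF : ∀ t, HasDerivAt F (F' t) t)
    (h : ∀ t, a ≤ t → t ≤ b → 0 ≤ F' t) : F a ≤ F b := by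
  have h1 : MonotoneOn F (Icc a b) := by
    apply monotoneOn_of_deriv_nonneg (convex_Icc a b)
    · exact fun t _ => (hF t).continuousAt.continuousWithinAt
    · exact fun t _ => (hF t).differentiableAt.differentiableWithinAt
    · intro t ht
      rw [interior_Icc] at ht
      rw [(hF t).deriv]
      exact h t ht.1.le ht.2.le
  exact h1 ⟨le_rfl, hab⟩ ⟨hab, le_rfl⟩ hab

theorem core_int_hasDerivAt {u : ℝ → ℝ} (hu : Continuous u) (t : ℝ) :
    HasDerivAt (fun x => ∫ r in (0:ℝ)..x, u r) (u t) t :=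
  (hu.integral_hasStrictDerivAt 0 t).hasDerivAt

theorem core_int_contDiff {u : ℝ → ℝ} (hu : ContDiff ℝ ∞ u) :
    ContDiff ℝ ∞ (fun x => ∫ r in (0:ℝ)..x, u r) := by
  rw [contDiff_infty_iff_deriv]
  refine ⟨fun x => (core_int_hasDerivAt hu.continuous x).differentiableAt, ?_⟩
  have : deriv (fun x => ∫ r in (0:ℝ)..x, u r) = u :=
    funext fun x => (core_int_hasDerivAt hu.continuous x).deriv
  rw [this]
  exact hu

theorem core_int_congr {u v : ℝ → ℝ} {a t : ℝ} (ha : 0 ≤ a) (ht : t ≤ a)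
    (h : ∀ r, r ≤ a → u r = v r) :
    ∫ r in (0:ℝ)..t, u r = ∫ r in (0:ℝ)..t, v r := by
  apply intervalIntegral.integral_congr
  intro r hr
  exact h r (le_trans hr.2 (max_le ha ht))

/-! ### the switches -/

def cth1 (t : ℝ) : ℝ := st (1000 * t - 1)
def cth2 (t : ℝ) : ℝ := st (100 * t - 101)

theorem cth1_contDiff : ContDiff ℝ ∞ cth1 := st_contDiff.comp (by fun_prop)
theorem cth2_contDiff : ContDiff ℝ ∞ cth2 := st_contDiff.comp (by fun_prop)
theorem cth1_zero {t : ℝ} (h : t ≤ 1 / 1000) : cth1 t = 0 := st_zero (by linarith)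
theorem cth1_one {t : ℝ} (h : 2 / 1000 ≤ t) : cth1 t = 1 := st_one (by linarith)
theorem cth2_zero {t : ℝ} (h : t ≤ 101 / 100) : cth2 t = 0 := st_zero (by linarith)
theorem cth2_one {t : ℝ} (h : 102 / 100 ≤ t) : cth2 t = 1 := st_one (by linarith)
theorem cth1_nonneg (t : ℝ) : 0 ≤ cth1 t := st_nonneg _
theorem cth2_nonneg (t : ℝ) : 0 ≤ cth2 t := st_nonneg _
theorem cth1_le (t : ℝ) : cth1 t ≤ 1 := st_le_one _
theorem cth2_le (t : ℝ) : cth2 t ≤ 1 := st_le_one _

/-! ### trigonometric constants -/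

theorem core_pi : 3.1415 < π := Real.pi_gt_d4

theorem core_cos_nonneg {t : ℝ} (h0 : 0 ≤ t) (h1 : t ≤ 102 / 100) : 0 ≤ cos t := by
  have := core_pi
  exact Real.cos_nonneg_of_mem_Icc ⟨by linarith, by linarith⟩

theorem core_sin_nonneg {t : ℝ} (h0 : 0 ≤ t) (h1 : t ≤ 3) : 0 ≤ sin t := by
  have := core_pi
  exact Real.sin_nonneg_of_nonneg_of_le_pi h0 (by linarith)

theorem core_cos_lb : 5179 / 10000 ≤ cos (102 / 100) := by
  have h1 := Real.cos_bound (x := 51 / 200) (by norm_num [abs_le])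
  have h2 := (abs_le.1 h1).1
  have h3 : |(51 / 200 : ℝ)| = 51 / 200 := abs_of_pos (by norm_num)
  rw [h3] at h2
  have h4 : 96726 / 100000 ≤ cos (51 / 200) := by norm_num at h2 ⊢; linarith
  have h5 : cos (51 / 100) = 2 * cos (51 / 200) ^ 2 - 1 := by
    rw [← Real.cos_two_mul]; norm_num
  have h6 : cos (102 / 100) = 2 * cos (51 / 100) ^ 2 - 1 := by
    rw [← Real.cos_two_mul]; norm_num
  have h7 : 87118 / 100000 ≤ cos (51 / 100) := by
    rw [h5]
    nlinarith only [h2]
  rw [h6]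
  nlinarith only [h2, h5, h7]

theorem core_cos_ub : cos (101 / 100) ≤ 5344 / 10000 := by
  have h1 := Real.cos_bound (x := 101 / 200) (by norm_num [abs_le])
  have h2 := (abs_le.1 h1).2
  have h3 : |(101 / 200 : ℝ)| = 101 / 200 := abs_of_pos (by norm_num)
  rw [h3] at h2
  have h4 : cos (101 / 200) ≤ 87589 / 100000 := by norm_num at h2 ⊢; linarith
  have h0 : 0 ≤ cos (101 / 200) := core_cos_nonneg (by norm_num) (by norm_num)
  have h5 : cos (101 / 100) = 2 * cos (101 / 200) ^ 2 - 1 := by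
    rw [← Real.cos_two_mul]; norm_num
  rw [h5]
  nlinarith only [h0, h2]

theorem core_sin_lb : 845 / 1000 ≤ sin (101 / 100) := by
  have h1 := core_cos_ub
  have h2 : 0 ≤ cos (101 / 100) := core_cos_nonneg (by norm_num) (by norm_num)
  have h3 : 0 ≤ sin (101 / 100) := core_sin_nonneg (by norm_num) (by norm_num)
  have h4 := Real.sin_sq_add_cos_sq (101 / 100)
  have h5 : (845 / 1000 : ℝ) ^ 2 ≤ sin (101 / 100) ^ 2 := by nlinarith only [h1, h2, h4]
  exact le_of_sq_le_sq h5 h3

/-! ### the constant `K` -/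

def cA : ℝ := sin (102 / 100) - ∫ r in (0:ℝ)..(102 / 100), cth1 r * cos r
def cD : ℝ := ∫ r in (0:ℝ)..(102 / 100), cth1 r * (1 - cth2 r)
def cK : ℝ := (1 / 2 + cA) / cD

theorem core_cont1 : Continuous (fun r => cth1 r * cos r) :=
  cth1_contDiff.continuous.mul Real.continuous_cos

theorem core_cont2 : Continuous (fun r => cth1 r * (1 - cth2 r)) :=
  cth1_contDiff.continuous.mul (continuous_const.sub cth2_contDiff.continuous)

theorem cA_nonneg : 0 ≤ cA := by
  have h := core_mono (F := fun t => sin t - ∫ r in (0:ℝ)..t, cth1 r * cos r)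
    (F' := fun t => cos t - cth1 t * cos t) (a := 0) (b := 102 / 100) (by norm_num)
    (fun t => (Real.hasDerivAt_sin t).sub (core_int_hasDerivAt core_cont1 t))
    (fun t h0 h1 => by
      have k1 := core_cos_nonneg h0 h1
      have k2 := cth1_le t
      nlinarith)
  simpa [cA] using h

theorem cA_le : cA ≤ 2 / 1000 := by
  have h1 := core_mono (F := fun t => t - (sin t - ∫ r in (0:ℝ)..t, cth1 r * cos r))
    (F' := fun t => 1 - (cos t - cth1 t * cos t)) (a := 0) (b := 2 / 1000) (by norm_num)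
    (fun t => (hasDerivAt_id t).sub
      ((Real.hasDerivAt_sin t).sub (core_int_hasDerivAt core_cont1 t)))
    (fun t h0 h1 => by
      have k0 := core_cos_nonneg h0 (by linarith)
      have k1 := Real.cos_le_one t
      have k2 := cth1_nonneg t
      nlinarith)
  have h2 := core_mono (F := fun t => -(sin t - ∫ r in (0:ℝ)..t, cth1 r * cos r))
    (F' := fun t => -(cos t - cth1 t * cos t)) (a := 2 / 1000) (b := 102 / 100) (by norm_num)
    (fun t => ((Real.hasDerivAt_sin t).sub (core_int_hasDerivAt core_cont1 t)).neg)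
    (fun t h0 h1 => by
      rw [cth1_one h0]
      simp)
  simp only [intervalIntegral.integral_same, Real.sin_zero] at h1
  unfold cA
  linarith

theorem cD_ge : 1008 / 1000 ≤ cD := by
  have h1 := core_mono (F := fun t => ∫ r in (0:ℝ)..t, cth1 r * (1 - cth2 r))
    (F' := fun t => cth1 t * (1 - cth2 t)) (a := 0) (b := 2 / 1000) (by norm_num)
    (fun t => core_int_hasDerivAt core_cont2 t)
    (fun t _ _ => mul_nonneg (cth1_nonneg t) (by linarith [cth2_le t]))
  have h2 := core_mono (F := fun t => (∫ r in (0:ℝ)..t, cth1 r * (1 - cth2 r)) - t)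
    (F' := fun t => cth1 t * (1 - cth2 t) - 1) (a := 2 / 1000) (b := 101 / 100) (by norm_num)
    (fun t => (core_int_hasDerivAt core_cont2 t).sub (hasDerivAt_id t))
    (fun t h0 h1 => by
      rw [cth1_one h0, cth2_zero h1]
      simp)
  have h3 := core_mono (F := fun t => ∫ r in (0:ℝ)..t, cth1 r * (1 - cth2 r))
    (F' := fun t => cth1 t * (1 - cth2 t)) (a := 101 / 100) (b := 102 / 100) (by norm_num)
    (fun t => core_int_hasDerivAt core_cont2 t)
    (fun t _ _ => mul_nonneg (cth1_nonneg t) (by linarith [cth2_le t]))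
  simp only [intervalIntegral.integral_same] at h1
  unfold cD
  linarith

theorem cD_le : cD ≤ 102 / 100 := by
  have h1 := core_mono (F := fun t => t - (∫ r in (0:ℝ)..t, cth1 r * (1 - cth2 r)))
    (F' := fun t => 1 - cth1 t * (1 - cth2 t)) (a := 0) (b := 102 / 100) (by norm_num)
    (fun t => (hasDerivAt_id t).sub (core_int_hasDerivAt core_cont2 t))
    (fun t h0 h1 => by
      have k1 := cth1_nonneg t
      have k2 := cth2_nonneg t
      have k3 := cth1_le t
      nlinarith [mul_nonneg k1 k2])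
  simp only [intervalIntegral.integral_same, sub_zero] at h1
  unfold cD
  linarith

theorem cK_ge : 49 / 100 ≤ cK := by
  have h1 := cD_ge
  have h2 := cD_le
  have h3 := cA_nonneg
  unfold cK
  rw [le_div_iff₀ (by linarith)]
  linarith

theorem cK_le : cK ≤ 4981 / 10000 := by
  have h1 := cD_ge
  have h2 := cD_le
  have h3 := cA_le
  unfold cK
  rw [div_le_iff₀ (by linarith)]
  linarith

/-! ### the functions -/

/-- `b''` -/
def cb2 (t : ℝ) : ℝ := -cos t * (1 - cth1 t) + cK * (cth1 t * (1 - cth2 t))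

/-- `b'` -/
def cb1 (t : ℝ) : ℝ :=
  -(sin t - ∫ r in (0:ℝ)..t, cth1 r * cos r) + cK * ∫ r in (0:ℝ)..t, cth1 r * (1 - cth2 r)

/-- `b` -/
def cb0 (t : ℝ) : ℝ := 1 + ∫ r in (0:ℝ)..t, cb1 r

/-- `f0''` -/
def cf2 (t : ℝ) : ℝ := -(2 * sin (2 * t)) * (1 - cth1 t) - sin t * (cth1 t * (1 - cth2 t))

/-- `f0'` -/
def cf1 (t : ℝ) : ℝ :=
  cos (2 * t) + ∫ r in (0:ℝ)..t, cth1 r * (2 * sin (2 * r) - sin r * (1 - cth2 r))

/-- `f0` -/
def cf0 (t : ℝ) : ℝ := ∫ r in (0:ℝ)..t, cf1 r

theorem core_cont3 : Continuous (fun r => cth1 r * (2 * sin (2 * r) - sin r * (1 - cth2 r))) := by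
  have h1 := cth1_contDiff.continuous
  have h2 := cth2_contDiff.continuous
  fun_prop

theorem cb1_hasDerivAt (t : ℝ) : HasDerivAt cb1 (cb2 t) t := by
  have h := (((Real.hasDerivAt_sin t).sub (core_int_hasDerivAt core_cont1 t)).neg).add
    ((core_int_hasDerivAt core_cont2 t).const_mul cK)
  refine h.congr_deriv ?_
  unfold cb2
  ring

theorem cf1_hasDerivAt (t : ℝ) : HasDerivAt cf1 (cf2 t) t := by
  have h0 : HasDerivAt (fun t : ℝ => cos (2 * t)) (-sin (2 * t) * (2 * 1)) t :=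
    ((hasDerivAt_id t).const_mul 2).cos
  have h := h0.add (core_int_hasDerivAt core_cont3 t)
  refine h.congr_deriv ?_
  unfold cf2
  ring

theorem cb1_contDiff : ContDiff ℝ ∞ cb1 := by
  have h1 := cth1_contDiff
  have h2 := cth2_contDiff
  have h3 : ContDiff ℝ ∞ (fun r => cth1 r * cos r) := h1.mul Real.contDiff_cos
  have h4 : ContDiff ℝ ∞ (fun r => cth1 r * (1 - cth2 r)) := h1.mul (contDiff_const.sub h2)
  exact ((Real.contDiff_sin.sub (core_int_contDiff h3)).neg).add
    (contDiff_const.mul (core_int_contDiff h4))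

theorem cf1_contDiff : ContDiff ℝ ∞ cf1 := by
  have h1 := cth1_contDiff
  have h2 := cth2_contDiff
  have h4 : ContDiff ℝ ∞ (fun r => cth1 r * (2 * sin (2 * r) - sin r * (1 - cth2 r))) := by
    apply h1.mul
    apply ContDiff.sub
    · exact contDiff_const.mul (Real.contDiff_sin.comp (contDiff_const.mul contDiff_id))
    · exact Real.contDiff_sin.mul (contDiff_const.sub h2)
  exact (Real.contDiff_cos.comp (contDiff_const.mul contDiff_id)).add (core_int_contDiff h4)

theorem cb0_hasDerivAt (t : ℝ) : HasDerivAt cb0 (cb1 t) t := by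
  have h := (core_int_hasDerivAt cb1_contDiff.continuous t).const_add 1
  exact h

theorem cf0_hasDerivAt (t : ℝ) : HasDerivAt cf0 (cf1 t) t :=
  core_int_hasDerivAt cf1_contDiff.continuous t

theorem cb0_contDiff : ContDiff ℝ ∞ cb0 := contDiff_const.add (core_int_contDiff cb1_contDiff)
theorem cf0_contDiff : ContDiff ℝ ∞ cf0 := core_int_contDiff cf1_contDiff

theorem cb0_deriv : deriv cb0 = cb1 := funext fun t => (cb0_hasDerivAt t).deriv
theorem cb1_deriv : deriv cb1 = cb2 := funext fun t => (cb1_hasDerivAt t).deriv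
theorem cf0_deriv : deriv cf0 = cf1 := funext fun t => (cf0_hasDerivAt t).deriv
theorem cf1_deriv : deriv cf1 = cf2 := funext fun t => (cf1_hasDerivAt t).deriv

/-! ### values -/

theorem cb1_left {t : ℝ} (h : t ≤ 1 / 1000) : cb1 t = -sin t := by
  have h1 : ∫ r in (0:ℝ)..t, cth1 r * cos r = ∫ r in (0:ℝ)..t, (0:ℝ) :=
    core_int_congr (by norm_num) h fun r hr => by rw [cth1_zero hr, zero_mul]
  have h2 : ∫ r in (0:ℝ)..t, cth1 r * (1 - cth2 r) = ∫ r in (0:ℝ)..t, (0:ℝ) :=
    core_int_congr (by norm_num) h fun r hr => by rw [cth1_zero hr, zero_mul]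
  unfold cb1
  rw [h1, h2]
  simp

theorem cf1_left {t : ℝ} (h : t ≤ 1 / 1000) : cf1 t = cos (2 * t) := by
  have h1 : ∫ r in (0:ℝ)..t, cth1 r * (2 * sin (2 * r) - sin r * (1 - cth2 r)) =
      ∫ r in (0:ℝ)..t, (0:ℝ) :=
    core_int_congr (by norm_num) h fun r hr => by rw [cth1_zero hr, zero_mul]
  unfold cf1
  rw [h1]
  simp

theorem cb0_left {t : ℝ} (h : t ≤ 1 / 1000) : cb0 t = cos t := by
  unfold cb0
  rw [core_int_congr (v := fun r => -sin r) (by norm_num) h fun r hr => cb1_left hr]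
  simp

theorem cf0_left {t : ℝ} (h : t ≤ 1 / 1000) : cf0 t = sin t * cos t := by
  unfold cf0
  rw [core_int_congr (v := fun r => cos (2 * r)) (by norm_num) h fun r hr => cf1_left hr]
  rw [intervalIntegral.integral_comp_mul_left (fun x => cos x) two_ne_zero, integral_cos,
    Real.sin_two_mul]
  simp
  ring

theorem cb1_zero : cb1 0 = 0 := by rw [cb1_left (by norm_num), Real.sin_zero, neg_zero]
theorem cf1_zero : cf1 0 = 1 := by rw [cf1_left (by norm_num), mul_zero, Real.cos_zero]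
theorem cb0_zero : cb0 0 = 1 := by rw [cb0_left (by norm_num), Real.cos_zero]
theorem cf0_zero : cf0 0 = 0 := by rw [cf0_left (by norm_num), Real.sin_zero, zero_mul]

theorem cb1_end : cb1 (102 / 100) = 1 / 2 := by
  have h1 := cD_ge
  have h2 : cb1 (102 / 100) = -cA + cK * cD := rfl
  rw [h2, cK, div_mul_cancel₀ _ (by linarith)]
  ring

theorem cb2_right {t : ℝ} (h : 102 / 100 ≤ t) : cb2 t = 0 := by
  unfold cb2
  rw [cth1_one (by linarith), cth2_one h]
  ring

theorem cf2_right {t : ℝ} (h : 102 / 100 ≤ t) : cf2 t = 0 := by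
  unfold cf2
  rw [cth1_one (by linarith), cth2_one h]
  ring

theorem cb2_mid {t : ℝ} (h : 2 / 1000 ≤ t) : cb2 t = cK * (1 - cth2 t) := by
  unfold cb2
  rw [cth1_one h]
  ring

theorem cf2_mid {t : ℝ} (h : 2 / 1000 ≤ t) : cf2 t = -(sin t * (1 - cth2 t)) := by
  unfold cf2
  rw [cth1_one h]
  ring

/-! ### bounds for `b` -/

theorem cb2_le {t : ℝ} (h0 : 0 ≤ t) : cb2 t ≤ cK := by
  have hK := cK_ge
  have h1 := cth1_le t
  have h2 := cth1_nonneg t
  have h3 := cth2_nonneg t
  have h4 : cth1 t * (1 - cth2 t) ≤ 1 := by nlinarith [mul_nonneg h2 h3]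
  have h5 : 0 ≤ cos t * (1 - cth1 t) := by
    rcases le_total t (2 / 1000) with h | h
    · exact mul_nonneg (core_cos_nonneg h0 (by linarith)) (by linarith)
    · rw [cth1_one h]
      simp
  unfold cb2
  nlinarith

theorem cb2_nonneg {t : ℝ} (h : 2 / 1000 ≤ t) : 0 ≤ cb2 t := by
  rw [cb2_mid h]
  have := cK_ge
  have := cth2_le t
  exact mul_nonneg (by linarith) (by linarith)

theorem cb2_ge {t : ℝ} (_ : 0 ≤ t) : -1 ≤ cb2 t := by
  have hK := cK_ge
  have h1 := cth1_le t
  have h2 := cth1_nonneg t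
  have h3 := cth2_le t
  have h4 := Real.cos_le_one t
  have h5 : 0 ≤ cK * (cth1 t * (1 - cth2 t)) :=
    mul_nonneg (by linarith) (mul_nonneg h2 (by linarith))
  unfold cb2
  nlinarith only [h1, h2, h4, h5]

theorem cb1_le {t : ℝ} (h0 : 0 ≤ t) : cb1 t ≤ cK * t := by
  have h := core_mono (F := fun t => cK * t - cb1 t) (F' := fun t => cK * 1 - cb2 t) h0
    (fun t => ((hasDerivAt_id t).const_mul cK).sub (cb1_hasDerivAt t))
    (fun t h0 h1 => by linarith [cb2_le h0])
  simp only [cb1_zero, mul_zero] at h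
  linarith

theorem cb1_ge {t : ℝ} (h0 : 0 ≤ t) : -(2 / 1000) ≤ cb1 t := by
  have key : ∀ t, 0 ≤ t → t ≤ 2 / 1000 → -(2 / 1000) ≤ cb1 t := by
    intro t h0 h1
    have h := core_mono (F := fun t => cb1 t + t) (F' := fun t => cb2 t + 1) h0
      (fun t => (cb1_hasDerivAt t).add (hasDerivAt_id t))
      (fun t h0 h1 => by linarith [cb2_ge h0])
    simp only [cb1_zero, add_zero] at h
    linarith
  rcases le_total t (2 / 1000) with h | h
  · exact key t h0 h
  · have h1 := core_mono (F := cb1) (F' := cb2) h cb1_hasDerivAt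
      (fun t h0 h1 => cb2_nonneg h0)
    have h2 := key (2 / 1000) (by norm_num) le_rfl
    linarith

theorem cb1_right {t : ℝ} (h : 102 / 100 ≤ t) : cb1 t = 1 / 2 := by
  have h1 := core_mono (F := cb1) (F' := cb2) h cb1_hasDerivAt
    (fun t h0 h1 => by rw [cb2_right h0])
  have h2 := core_mono (F := fun t => -cb1 t) (F' := fun t => -cb2 t) h
    (fun t => (cb1_hasDerivAt t).neg)
    (fun t h0 h1 => by rw [cb2_right h0]; simp)
  rw [cb1_end] at h1 h2
  linarith only [h1, h2]

theorem cb1_le_half {t : ℝ} (h0 : 0 ≤ t) : cb1 t ≤ 1 / 2 := by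
  have hK := cK_le
  rcases le_total t (2 / 1000) with h | h
  · have := cb1_le h0
    nlinarith only [h, h0, hK, this]
  · rcases le_total t (102 / 100) with h' | h'
    · have h1 := core_mono (F := cb1) (F' := cb2) h' cb1_hasDerivAt
        (fun t h0 h1 => cb2_nonneg (by linarith))
      rw [cb1_end] at h1
      exact h1
    · exact (cb1_right h').le

theorem cb1_sq_le {t : ℝ} (h0 : 0 ≤ t) : (cb1 t)^2 ≤ 1 / 4 := by
  have h1 := cb1_le_half h0
  have h2 := cb1_ge h0
  nlinarith only [h1, h2]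

theorem cb0_ge {t : ℝ} (h0 : 0 ≤ t) : 1 - 2 / 1000 * t ≤ cb0 t := by
  have h := core_mono (F := fun t => cb0 t + 2 / 1000 * t) (F' := fun t => cb1 t + 2 / 1000 * 1) h0
    (fun t => (cb0_hasDerivAt t).add ((hasDerivAt_id t).const_mul _))
    (fun t h0 h1 => by linarith [cb1_ge h0])
  simp only [cb0_zero, mul_zero, add_zero] at h
  linarith

theorem cb0_le {t : ℝ} (h0 : 0 ≤ t) : cb0 t ≤ 1 + cK / 2 * t^2 := by
  have h := core_mono (F := fun t => 1 + cK / 2 * t^2 - cb0 t)
    (F' := fun t => cK / 2 * (2 * t) - cb1 t) h0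
    (fun t => by
      have h1 := (((hasDerivAt_id t).pow 2).const_mul (cK / 2)).const_add 1
      refine (h1.sub (cb0_hasDerivAt t)).congr_deriv ?_
      simp)
    (fun t h0 h1 => by linarith [cb1_le h0])
  simp only [cb0_zero] at h
  norm_num at h
  linarith

/-- lower bound for `b'` on `[2/1000, 101/100]` -/
theorem cb1_ge2 {t : ℝ} (h0 : 2 / 1000 ≤ t) (h1 : t ≤ 101 / 100) :
    -(2 / 1000) + cK * (t - 2 / 1000) ≤ cb1 t := by
  have h := core_mono (F := fun t => cb1 t - cK * t) (F' := fun t => cb2 t - cK * 1) h0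
    (fun t => (cb1_hasDerivAt t).sub ((hasDerivAt_id t).const_mul cK))
    (fun s h2 h3 => by
      rw [cb2_mid h2, cth2_zero (by linarith)]
      simp)
  have h2 := cb1_ge (t := 2 / 1000) (by norm_num)
  linarith

theorem cb1_pos {t : ℝ} (h : 101 / 100 ≤ t) : 0 < cb1 t := by
  have h1 := core_mono (F := cb1) (F' := cb2) h cb1_hasDerivAt
      (fun t h0 h1 => cb2_nonneg (by linarith))
  have h2 := cb1_ge2 (t := 101 / 100) (by norm_num) le_rfl
  have h3 := cK_ge
  nlinarith only [h1, h2, h3]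

theorem cb0_ge2 {t : ℝ} (h : 101 / 100 ≤ t) : 124 / 100 ≤ cb0 t := by
  have h1 := core_mono (F := cb0) (F' := cb1) h cb0_hasDerivAt
      (fun t h0 h1 => (cb1_pos h0).le)
  have h2 := core_mono (F := fun t => cb0 t - (-(2 / 1000) * t + cK * (t^2 / 2 - 2 / 1000 * t)))
    (F' := fun t => cb1 t - (-(2 / 1000) * 1 + cK * (2 * t / 2 - 2 / 1000 * 1)))
    (a := 2 / 1000) (b := 101 / 100) (by norm_num)
    (fun t => by
      have k1 := ((hasDerivAt_id t).pow 2).div_const 2
      have k2 := (k1.sub ((hasDerivAt_id t).const_mul (2 / 1000))).const_mul cK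
      have k3 := ((hasDerivAt_id t).const_mul (-(2 / 1000))).add k2
      refine ((cb0_hasDerivAt t).sub k3).congr_deriv ?_
      simp)
    (fun t h0 h1 => by
      have := cb1_ge2 h0 h1
      linarith only [this])
  have h3 := cb0_ge (t := 2 / 1000) (by norm_num)
  have h4 := cK_ge
  norm_num at h2 h3
  linarith

theorem cb0_ge' {t : ℝ} (h0 : 0 ≤ t) : 99 / 100 ≤ cb0 t := by
  rcases le_total t (101 / 100) with h | h
  · have := cb0_ge h0
    linarith only [h, this]
  · have := cb0_ge2 h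
    linarith

theorem cb0_pos {t : ℝ} (h0 : 0 ≤ t) : 0 < cb0 t := by
  have := cb0_ge' h0
  linarith

theorem cb0_le' {t : ℝ} (h0 : 0 ≤ t) (h1 : t ≤ 102 / 100) : cb0 t ≤ 126 / 100 := by
  have h2 := cb0_le h0
  have h3 := cK_le
  have h4 := cK_ge
  have h5 : t^2 ≤ (102 / 100)^2 := pow_le_pow_left₀ h0 h1 2
  nlinarith only [h2, h3, h5]

theorem cb0_right {t : ℝ} (h : 102 / 100 ≤ t) :
    cb0 t = cb0 (102 / 100) + (t - 102 / 100) / 2 := by
  have h1 := core_mono (F := fun t => cb0 t - t / 2) (F' := fun t => cb1 t - 1 / 2) h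
    (fun t => (cb0_hasDerivAt t).sub ((hasDerivAt_id t).div_const 2))
    (fun t h0 h1 => by rw [cb1_right h0]; simp)
  have h2 := core_mono (F := fun t => t / 2 - cb0 t) (F' := fun t => 1 / 2 - cb1 t) h
    (fun t => ((hasDerivAt_id t).div_const 2).sub (cb0_hasDerivAt t))
    (fun t h0 h1 => by rw [cb1_right h0]; simp)
  linarith only [h1, h2]

/-! ### bounds for `f0` -/

theorem core_sin_two {t : ℝ} (h0 : 0 ≤ t) (h1 : t ≤ 102 / 100) : sin t ≤ 2 * (2 * sin t * cos t) ∨
    2 / 1000 < t := by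
  rcases le_or_gt t (2 / 1000) with h | h
  · left
    have h2 := core_sin_nonneg h0 (by linarith)
    have h3 := Real.one_sub_sq_div_two_le_cos (x := t)
    have h4 : 1 / 2 ≤ cos t := by nlinarith only [h, h0, h1, h3]
    nlinarith only [h2, h4]
  · right
    exact h

/-- `-f0'' ≥ sin t (1 - θ2)` -/
theorem cf2_le {t : ℝ} (h0 : 0 ≤ t) (h1 : t ≤ 102 / 100) : cf2 t ≤ -(sin t * (1 - cth2 t)) := by
  rcases le_total t (2 / 1000) with h | h
  · have h2 := core_sin_nonneg h0 (by linarith)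
    have h3 := Real.one_sub_sq_div_two_le_cos (x := t)
    have h4 : 1 / 2 ≤ cos t := by nlinarith only [h, h0, h1, h3]
    have h5 := cth1_le t
    unfold cf2
    rw [cth2_zero (by linarith), Real.sin_two_mul]
    have h6 : 0 ≤ sin t * (1 - cth1 t) := mul_nonneg h2 (by linarith)
    nlinarith only [h4, h6]
  · rw [cf2_mid h]

theorem cf2_nonpos {t : ℝ} (h0 : 0 ≤ t) : cf2 t ≤ 0 := by
  rcases le_total t (102 / 100) with h | h
  · have h1 := cf2_le h0 h
    have h2 := core_sin_nonneg h0 (by linarith)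
    have h3 := cth2_le t
    have h4 : 0 ≤ sin t * (1 - cth2 t) := mul_nonneg h2 (by linarith)
    linarith
  · rw [cf2_right h]

/-- lower bound -/
theorem cf2_ge {t : ℝ} (h0 : 0 ≤ t) (h1 : t ≤ 2 / 1000) : -(sin t) - 8 / 1000 ≤ cf2 t := by
  have h2 := core_sin_nonneg h0 (by linarith)
  have h3 := Real.sin_le h0
  have h4 := Real.cos_le_one t
  have h5 := cth1_le t
  have h6 := cth1_nonneg t
  have h7 := core_cos_nonneg h0 (by linarith)
  unfold cf2
  rw [cth2_zero (by linarith), Real.sin_two_mul]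
  have h8 : sin t * cos t ≤ 2 / 1000 := by nlinarith only [h1, h2, h3, h4]
  have h9 : 0 ≤ sin t * cos t := mul_nonneg h2 h7
  have h10 : 2 * (2 * sin t * cos t) * (1 - cth1 t) ≤ 8 / 1000 := by nlinarith only [h5, h6, h8]
  nlinarith only [h10, h2, h5]

theorem cf1_anti {s t : ℝ} (h0 : 0 ≤ s) (h : s ≤ t) : cf1 t ≤ cf1 s := by
  have h1 := core_mono (F := fun t => -cf1 t) (F' := fun t => -cf2 t) h
    (fun t => (cf1_hasDerivAt t).neg) (fun t h2 h3 => by
      have := cf2_nonpos (h0.trans h2)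
      linarith)
  linarith

theorem cf1_le_one {t : ℝ} (h0 : 0 ≤ t) : cf1 t ≤ 1 := by
  have := cf1_anti le_rfl h0
  rwa [cf1_zero] at this

theorem cf1_le_cos {t : ℝ} (h0 : 0 ≤ t) (h1 : t ≤ 101 / 100) : cf1 t ≤ cos t := by
  have h := core_mono (F := fun t => cos t - cf1 t) (F' := fun t => -sin t - cf2 t) h0
    (fun t => (Real.hasDerivAt_cos t).sub (cf1_hasDerivAt t)) (fun t h2 h3 => by
      have := cf2_le h2 (by linarith)
      rw [cth2_zero (by linarith)] at this
      linarith)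
  simp only [cf1_zero, Real.cos_zero] at h
  linarith

theorem cf1_ge_cos {t : ℝ} (h0 : 0 ≤ t) (h1 : t ≤ 102 / 100) :
    cos t - 16 / 1000000 ≤ cf1 t := by
  have key : ∀ t, 0 ≤ t → t ≤ 2 / 1000 → cos t - 16 / 1000000 ≤ cf1 t := by
    intro t h0 h1
    have h := core_mono (F := fun t => cf1 t - cos t + 8 / 1000 * t)
      (F' := fun t => cf2 t - (-sin t) + 8 / 1000 * 1) h0
      (fun t => ((cf1_hasDerivAt t).sub (Real.hasDerivAt_cos t)).add
        ((hasDerivAt_id t).const_mul _)) (fun t h2 h3 => by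
        have := cf2_ge h2 (by linarith)
        linarith)
    simp only [cf1_zero, Real.cos_zero] at h
    linarith
  rcases le_total t (2 / 1000) with h | h
  · exact key t h0 h
  · have h2 := core_mono (F := fun t => cf1 t - cos t) (F' := fun t => cf2 t - (-sin t)) h
      (fun t => (cf1_hasDerivAt t).sub (Real.hasDerivAt_cos t)) (fun s h2 h3 => by
        rw [cf2_mid h2]
        have k1 := core_sin_nonneg (t := s) (by linarith) (by linarith)
        have k2 := cth2_nonneg s
        nlinarith only [k1, k2, mul_nonneg k1 k2])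
    have h3 := key (2 / 1000) (by norm_num) le_rfl
    linarith

theorem cf1_right {t : ℝ} (h : 102 / 100 ≤ t) : cf1 t = cf1 (102 / 100) := by
  have h1 := core_mono (F := cf1) (F' := cf2) h cf1_hasDerivAt
    (fun t h0 h1 => by rw [cf2_right h0])
  have h2 := cf1_anti (by norm_num) h
  linarith

theorem cf1_end : 5178 / 10000 ≤ cf1 (102 / 100) := by
  have h1 := cf1_ge_cos (t := 102 / 100) (by norm_num) le_rfl
  have h2 := core_cos_lb
  linarith

theorem cf1_ge {t : ℝ} (h0 : 0 ≤ t) : 5178 / 10000 ≤ cf1 t := by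
  have h2 := cf1_end
  rcases le_total t (102 / 100) with h | h
  · have h1 := cf1_anti h0 h
    linarith
  · rw [cf1_right h]
    exact h2

theorem cf1_le_end {t : ℝ} (h : 101 / 100 ≤ t) : cf1 t ≤ 5344 / 10000 := by
  have h1 := cf1_anti (by norm_num) h
  have h2 := cf1_le_cos (t := 101 / 100) (by norm_num) le_rfl
  have h3 := core_cos_ub
  linarith

theorem cf0_le {t : ℝ} (h0 : 0 ≤ t) : cf0 t ≤ t := by
  have h := core_mono (F := fun t => t - cf0 t) (F' := fun t => 1 - cf1 t) h0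
    (fun t => (hasDerivAt_id t).sub (cf0_hasDerivAt t)) (fun t h2 h3 => by
      linarith [cf1_le_one h2])
  simp only [cf0_zero] at h
  linarith

theorem cf0_ge {t : ℝ} (h0 : 0 ≤ t) : t * cf1 t ≤ cf0 t := by
  have h := core_mono (F := fun t => cf0 t - t * cf1 t)
    (F' := fun t => cf1 t - (1 * cf1 t + t * cf2 t)) h0
    (fun t => (cf0_hasDerivAt t).sub ((hasDerivAt_id t).mul (cf1_hasDerivAt t)))
    (fun t h2 h3 => by
      have := cf2_nonpos h2
      nlinarith)
  simp only [cf0_zero, zero_mul, sub_zero] at h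
  linarith

theorem cf0_pos {t : ℝ} (h0 : 0 < t) : 0 < cf0 t := by
  have h1 := cf0_ge h0.le
  have h2 := cf1_ge h0.le
  nlinarith

theorem cf0_nonneg {t : ℝ} (h0 : 0 ≤ t) : 0 ≤ cf0 t := by
  have h1 := cf0_ge h0
  have h2 := cf1_ge h0
  nlinarith

theorem cf0_le_sin {t : ℝ} (h0 : 0 ≤ t) (h1 : t ≤ 101 / 100) : cf0 t ≤ sin t := by
  have h := core_mono (F := fun t => sin t - cf0 t) (F' := fun t => cos t - cf1 t) h0
    (fun t => (Real.hasDerivAt_sin t).sub (cf0_hasDerivAt t)) (fun t h2 h3 => by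
      linarith [cf1_le_cos h2 (h3.trans h1)])
  simp only [cf0_zero, Real.sin_zero] at h
  linarith

theorem cf0_ge_sin {t : ℝ} (h0 : 0 ≤ t) (h1 : t ≤ 102 / 100) :
    sin t - 16 / 1000000 * t ≤ cf0 t := by
  have h := core_mono (F := fun t => cf0 t - sin t + 16 / 1000000 * t)
    (F' := fun t => cf1 t - cos t + 16 / 1000000 * 1) h0
    (fun t => ((cf0_hasDerivAt t).sub (Real.hasDerivAt_sin t)).add
      ((hasDerivAt_id t).const_mul _)) (fun t h2 h3 => by
      linarith [cf1_ge_cos h2 (h3.trans h1)])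
  simp only [cf0_zero, Real.sin_zero] at h
  linarith

theorem cf0_mono {s t : ℝ} (h0 : 0 ≤ s) (h : s ≤ t) : cf0 s ≤ cf0 t :=
  core_mono (F := cf0) (F' := cf1) h cf0_hasDerivAt (fun r h1 _ => by
    linarith [cf1_ge (h0.trans h1)])

theorem cf0_mid : 8449 / 10000 ≤ cf0 (101 / 100) := by
  have h1 := cf0_ge_sin (t := 101 / 100) (by norm_num) (by norm_num)
  have h2 := core_sin_lb
  linarith

/-- the key inequality -/
theorem core_key {t : ℝ} (h0 : 0 ≤ t) (h1 : t ≤ 102 / 100) : 2 * cK * cf0 t ≤ sin t * cb0 t := by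
  have hK := cK_le
  have hK0 := cK_ge
  have hf := cf0_nonneg h0
  rcases le_total t (101 / 100) with h | h
  · have h2 := cf0_le_sin h0 h
    have h3 := cb0_ge h0
    have h4 : 2 * cK ≤ cb0 t := by linarith
    have h5 := core_sin_nonneg h0 (by linarith)
    nlinarith only [h1, h2, h3, hK, hf]
  · have h2 := cf0_le h0
    have h3 := cb0_ge2 h
    have h4 : 845 / 1000 ≤ sin t := by
      have k1 := core_sin_lb
      have k2 : sin (101 / 100) ≤ sin t := by
        apply Real.sin_le_sin_of_le_of_le_pi_div_two _ _ h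
        · have := core_pi
          linarith only [this]
        · have := core_pi
          linarith only [h1, this]
      linarith only [k1, k2]
    nlinarith only [h1, h2, h3, h4, hK, hf]

/-! ### the quotient `x = f0 / b` -/

/-- `y = b² x'` -/
def cy (t : ℝ) : ℝ := cf1 t * cb0 t - cf0 t * cb1 t

theorem cy_hasDerivAt (t : ℝ) : HasDerivAt cy (cf2 t * cb0 t - cf0 t * cb2 t) t := by
  have h := ((cf1_hasDerivAt t).mul (cb0_hasDerivAt t)).sub
    ((cf0_hasDerivAt t).mul (cb1_hasDerivAt t))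
  refine h.congr_deriv ?_
  ring

theorem cy_deriv_nonpos {t : ℝ} (h0 : 0 ≤ t) : cf2 t * cb0 t - cf0 t * cb2 t ≤ 0 := by
  have hb := cb0_pos h0
  have hf := cf0_nonneg h0
  rcases le_total t (2 / 1000) with h | h
  · have hK0 := cK_ge
    have h1 := cf0_le_sin h0 (by linarith)
    have h2 := cb0_ge' h0
    have h3 := cth1_le t
    have h4 := cth1_nonneg t
    have h5 := core_cos_nonneg h0 (by linarith)
    have h6 := core_sin_nonneg h0 (by linarith)
    have e : cf2 t * cb0 t - cf0 t * cb2 t =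
        -((1 - cth1 t) * (cos t * (4 * sin t * cb0 t - cf0 t)))
        - cth1 t * (sin t * cb0 t + cK * cf0 t) := by
      unfold cf2 cb2
      rw [cth2_zero (by linarith), Real.sin_two_mul]
      ring
    rw [e]
    have k1 : 0 ≤ 4 * sin t * cb0 t - cf0 t := by nlinarith only [h1, h2, hb, hf]
    have k2 : 0 ≤ (1 - cth1 t) * (cos t * (4 * sin t * cb0 t - cf0 t)) :=
      mul_nonneg (by linarith) (mul_nonneg h5 k1)
    have k3 : 0 ≤ cth1 t * (sin t * cb0 t + cK * cf0 t) :=
      mul_nonneg h4 (add_nonneg (mul_nonneg h6 hb.le) (mul_nonneg (by linarith) hf))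
    linarith
  · have h1 := cf2_nonpos h0
    have h2 := cb2_nonneg h
    have k1 : cf2 t * cb0 t ≤ 0 := mul_nonpos_of_nonpos_of_nonneg h1 hb.le
    have k2 : 0 ≤ cf0 t * cb2 t := mul_nonneg hf h2
    linarith

theorem cy_anti {s t : ℝ} (h0 : 0 ≤ s) (h : s ≤ t) : cy t ≤ cy s := by
  have h1 := core_mono (F := fun t => -cy t) (F' := fun t => -(cf2 t * cb0 t - cf0 t * cb2 t)) h
    (fun t => (cy_hasDerivAt t).neg) (fun t h2 h3 => by
      have := cy_deriv_nonpos (h0.trans h2)
      linarith)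
  linarith

theorem cy_end : 13 / 100 ≤ cy (102 / 100) := by
  have h1 := cf1_end
  have h2 := cb0_ge2 (t := 102 / 100) (by norm_num)
  have h3 := cf0_le (t := 102 / 100) (by norm_num)
  unfold cy
  rw [cb1_end]
  nlinarith only [h1, h2, h3]

theorem cy_pos {t : ℝ} (h0 : 0 ≤ t) : 0 < cy t := by
  have h2 := cy_end
  rcases le_total t (102 / 100) with h | h
  · have h1 := cy_anti h0 h
    linarith
  · have h1 := core_mono (F := cy) (F' := fun t => cf2 t * cb0 t - cf0 t * cb2 t) h cy_hasDerivAt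
      (fun t h3 h4 => by rw [cf2_right h3, cb2_right h3]; simp)
    linarith

/-- `x` -/
def cx (t : ℝ) : ℝ := cf0 t / cb0 t

theorem cx_hasDerivAt {t : ℝ} (h0 : 0 ≤ t) : HasDerivAt cx (cy t / (cb0 t)^2) t :=
  (cf0_hasDerivAt t).div (cb0_hasDerivAt t) (cb0_pos h0).ne'

theorem cx_mono {s t : ℝ} (h0 : 0 ≤ s) (h : s ≤ t) : cx s ≤ cx t := by
  have h1 : MonotoneOn cx (Icc 0 t) := by
    apply monotoneOn_of_deriv_nonneg (convex_Icc 0 t)
    · exact fun r hr => (cx_hasDerivAt hr.1).continuousAt.continuousWithinAt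
    · intro r hr
      rw [interior_Icc] at hr
      exact (cx_hasDerivAt hr.1.le).differentiableAt.differentiableWithinAt
    · intro r hr
      rw [interior_Icc] at hr
      rw [(cx_hasDerivAt hr.1.le).deriv]
      exact div_nonneg (cy_pos hr.1.le).le (sq_nonneg _)
  exact h1 ⟨h0, h⟩ ⟨h0.trans h, le_rfl⟩ h

theorem cx_le {t : ℝ} (h0 : 0 ≤ t) (h : t ≤ 102 / 100) : cx t ≤ 83 / 100 := by
  refine (cx_mono h0 h).trans ?_
  have h2 := cb0_ge2 (t := 102 / 100) (by norm_num)
  have h3 := cf0_le (t := 102 / 100) (by norm_num)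
  unfold cx
  rw [div_le_iff₀ (by linarith)]
  linarith

theorem cx_ge {t : ℝ} (h : 101 / 100 ≤ t) : 67 / 100 ≤ cx t := by
  refine le_trans ?_ (cx_mono (by norm_num) h)
  have h1 := cf0_mid
  have h2 := cb0_le (t := 101 / 100) (by norm_num)
  have h3 := cK_le
  unfold cx
  rw [le_div_iff₀ (cb0_pos (by norm_num))]
  norm_num at h2
  linarith

theorem cf0_right {t : ℝ} (h : 102 / 100 ≤ t) :
    cf0 (102 / 100) + 5178 / 10000 * (t - 102 / 100) ≤ cf0 t := by
  have h1 := core_mono (F := fun t => cf0 t - 5178 / 10000 * t)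
    (F' := fun t => cf1 t - 5178 / 10000 * 1) h
    (fun t => (cf0_hasDerivAt t).sub ((hasDerivAt_id t).const_mul _))
    (fun t h0 h1 => by linarith only [h0, cf1_ge (t := t) (by linarith)])
  linarith

theorem cx_large {t : ℝ} (h : 100 ≤ t) : 51 / 50 ≤ cx t := by
  refine le_trans ?_ (cx_mono (by norm_num) h)
  have h1 := cf0_right (t := 100) (by norm_num)
  have h2 := cb0_right (t := 100) (by norm_num)
  have h3 := cb0_le' (t := 102 / 100) (by norm_num) le_rfl
  have h4 := cf0_mid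
  have h5 := cf0_mono (s := 101 / 100) (t := 102 / 100) (by norm_num) (by norm_num)
  unfold cx
  rw [le_div_iff₀ (cb0_pos (by norm_num)), h2]
  linarith only [h1, h3, h4, h5]

/-! ### the saturation at `1` -/

def cg (x : ℝ) : ℝ := 47 / 50 + 1 / 50 * zf (50 * x - 47)

/-- `g'` -/
def cg1 (x : ℝ) : ℝ := 1 - st ((50 * x - 49) / 2)

theorem cg_contDiff : ContDiff ℝ ∞ cg :=
  contDiff_const.add (contDiff_const.mul (zf_contDiff.comp (by fun_prop)))

theorem cg_hasDerivAt (x : ℝ) : HasDerivAt cg (cg1 x) x := by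
  have h0 : HasDerivAt (fun x : ℝ => 50 * x - 47) (50 * 1) x :=
    ((hasDerivAt_id x).const_mul 50).sub_const 47
  have h1 := ((zf_hasDerivAt (50 * x - 47)).comp x h0).const_mul (1 / 50) |>.const_add (47 / 50)
  refine h1.congr_deriv ?_
  unfold cg1
  have e : (50 * x - 47 - 2) / 2 = (50 * x - 49) / 2 := by ring
  rw [e]
  ring

theorem cg1_hasDerivAt (x : ℝ) : HasDerivAt cg1 (-(25 * deriv st ((50 * x - 49) / 2))) x := by
  have h0 : HasDerivAt (fun x : ℝ => (50 * x - 49) / 2) (50 * 1 / 2) x :=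
    (((hasDerivAt_id x).const_mul 50).sub_const 49).div_const 2
  have h2 : HasDerivAt st (deriv st ((50 * x - 49) / 2)) ((50 * x - 49) / 2) :=
    (st_contDiff.differentiable (by simp)).differentiableAt.hasDerivAt
  have h1 := (h2.comp x h0).const_sub 1
  refine h1.congr_deriv ?_
  ring

theorem cg_self {x : ℝ} (h : x ≤ 49 / 50) : cg x = x := by
  unfold cg
  rw [zf_eq_self (by linarith)]
  ring

theorem cg_one {x : ℝ} (h : 51 / 50 ≤ x) : cg x = 1 := by
  unfold cg
  rw [zf_eq_three (by linarith)]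
  ring

theorem cg_le_self (x : ℝ) : cg x ≤ x := by
  have := zf_le_self (50 * x - 47)
  unfold cg
  linarith

theorem cg_le_one (x : ℝ) : cg x ≤ 1 := by
  have := zf_le_three (50 * x - 47)
  unfold cg
  linarith

theorem cg_ge {x : ℝ} (h : 67 / 100 ≤ x) : 67 / 100 ≤ cg x := by
  have h1 : zf (50 * (67 / 100) - 47) ≤ zf (50 * x - 47) := zf_mono (by linarith)
  rw [zf_eq_self (by norm_num)] at h1
  unfold cg
  linarith only [h1]

/-- the function `f` -/
def cF (t : ℝ) : ℝ := if t ≤ 1 then cf0 t else cb0 t * cg (cx t)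

theorem cF_of_le {t : ℝ} (h : t ≤ 102 / 100) : cF t = cf0 t := by
  unfold cF
  split_ifs with h1
  · rfl
  · rw [not_le] at h1
    rw [cg_self ((cx_le (by linarith) h).trans (by norm_num)), cx,
      mul_div_cancel₀ _ (cb0_pos (by linarith)).ne']

theorem cF_of_ge {t : ℝ} (h : 1 < t) : cF t = cb0 t * cg (cx t) := by
  unfold cF
  rw [if_neg (not_le.2 h)]

theorem cF_eventually_left {t : ℝ} (h : t < 102 / 100) : cF =ᶠ[𝓝 t] cf0 := by
  filter_upwards [Iio_mem_nhds h] with s hs
  exact cF_of_le (le_of_lt hs)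

theorem cF_eventually_right {t : ℝ} (h : 1 < t) : cF =ᶠ[𝓝 t] fun s => cb0 s * cg (cx s) := by
  filter_upwards [Ioi_mem_nhds h] with s hs
  exact cF_of_ge hs

theorem cF_contDiff : ContDiff ℝ ∞ cF := by
  rw [contDiff_iff_contDiffAt]
  intro t
  rcases lt_or_ge t (102 / 100) with h | h
  · exact cf0_contDiff.contDiffAt.congr_of_eventuallyEq (cF_eventually_left h)
  · have hx : ContDiffAt ℝ ∞ cx t :=
      cf0_contDiff.contDiffAt.div cb0_contDiff.contDiffAt (cb0_pos (by linarith)).ne'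
    have h1 : ContDiffAt ℝ ∞ (fun s => cb0 s * cg (cx s)) t :=
      cb0_contDiff.contDiffAt.mul (cg_contDiff.contDiffAt.comp t hx)
    exact h1.congr_of_eventuallyEq (cF_eventually_right (by linarith))

theorem cF_deriv_left {t : ℝ} (h : t < 102 / 100) :
    deriv cF t = cf1 t ∧ deriv (deriv cF) t = cf2 t := by
  have h1 := cF_eventually_left h
  constructor
  · rw [h1.deriv_eq, cf0_deriv]
  · rw [h1.deriv.deriv_eq, cf0_deriv, cf1_deriv]

theorem cF_hasDerivAt_right {t : ℝ} (h : 1 < t) :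
    HasDerivAt cF (cb1 t * cg (cx t) + cg1 (cx t) * (cy t / cb0 t)) t := by
  have h0 : 0 < cb0 t := cb0_pos (by linarith)
  have hx := cx_hasDerivAt (t := t) (by linarith)
  have h1 := (cb0_hasDerivAt t).mul ((cg_hasDerivAt (cx t)).comp t hx)
  have h2 : HasDerivAt (fun s => cb0 s * cg (cx s))
      (cb1 t * cg (cx t) + cg1 (cx t) * (cy t / cb0 t)) t := by
    refine h1.congr_deriv ?_
    simp only [Function.comp_apply]
    field_simp
  exact h2.congr_of_eventuallyEq (cF_eventually_right h)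

theorem cF_deriv2_right {t : ℝ} (h : 102 / 100 ≤ t) :
    deriv (deriv cF) t = -(25 * deriv st ((50 * cx t - 49) / 2)) * ((cy t)^2 / (cb0 t)^3) := by
  have h1 : deriv cF =ᶠ[𝓝 t] fun s => cb1 s * cg (cx s) + cg1 (cx s) * (cy s / cb0 s) := by
    filter_upwards [Ioi_mem_nhds (show (1:ℝ) < t by linarith)] with s hs
    exact (cF_hasDerivAt_right hs).deriv
  rw [h1.deriv_eq]
  have h0 : 0 < cb0 t := cb0_pos (by linarith)
  have hx := cx_hasDerivAt (t := t) (by linarith)
  have h2 := ((cb1_hasDerivAt t).mul ((cg_hasDerivAt (cx t)).comp t hx)).add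
    (((cg1_hasDerivAt (cx t)).comp t hx).mul ((cy_hasDerivAt t).div (cb0_hasDerivAt t) h0.ne'))
  have h3 : HasDerivAt (fun s => cb1 s * cg (cx s) + cg1 (cx s) * (cy s / cb0 s))
      (-(25 * deriv st ((50 * cx t - 49) / 2)) * ((cy t)^2 / (cb0 t)^3)) t := by
    refine h2.congr_deriv ?_
    simp only [Function.comp_apply, Pi.div_apply]
    rw [cb2_right h, cf2_right h]
    field_simp
    ring
  exact h3.deriv

theorem cg1_nonneg (x : ℝ) : 0 ≤ cg1 x := by
  have := st_le_one ((50 * x - 49) / 2)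
  unfold cg1
  linarith

theorem cg1_le_one (x : ℝ) : cg1 x ≤ 1 := by
  have := st_nonneg ((50 * x - 49) / 2)
  unfold cg1
  linarith

theorem cF_deriv2_nonpos {t : ℝ} (h : 102 / 100 ≤ t) : deriv (deriv cF) t ≤ 0 := by
  rw [cF_deriv2_right h]
  have h0 : 0 < cb0 t := cb0_pos (by linarith)
  have h1 := st_deriv_nonneg ((50 * cx t - 49) / 2)
  have h2 : 0 ≤ (cy t)^2 / (cb0 t)^3 := by positivity
  nlinarith only [h1, h2, mul_nonneg h1 h2]

theorem cF_right {t : ℝ} (h : 102 / 100 ≤ t) :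
    67 / 100 * cb0 t ≤ cF t ∧ cF t ≤ cb0 t ∧ 0 ≤ deriv cF t ∧ deriv cF t ≤ 5344 / 10000 := by
  have h0 : 0 < cb0 t := cb0_pos (by linarith)
  have h1 := cg_ge (cx_ge (t := t) (by linarith))
  have h2 := cg_le_one (cx t)
  have h3 := cg_le_self (cx t)
  have h4 := cg1_nonneg (cx t)
  have h5 := cg1_le_one (cx t)
  have h6 := cy_pos (t := t) (by linarith)
  have h7 := cf1_le_end (t := t) (by linarith)
  have h8 : 0 ≤ cy t / cb0 t := by positivity
  have h9 : cy t / cb0 t = cf1 t - cx t / 2 := by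
    unfold cy cx
    rw [cb1_right h]
    field_simp
  rw [cF_of_ge (by linarith), (cF_hasDerivAt_right (by linarith)).deriv, cb1_right h]
  refine ⟨?_, ?_, ?_, ?_⟩
  · nlinarith only [h0, h1]
  · nlinarith only [h0, h2]
  · have : 0 ≤ cg1 (cx t) * (cy t / cb0 t) := mul_nonneg h4 h8
    linarith only [h1, this]
  · have : cg1 (cx t) * (cy t / cb0 t) ≤ cy t / cb0 t := by nlinarith only [h5, h8]
    linarith only [h3, h7, h9, this]

theorem cF_pos {t : ℝ} (h : 0 < t) : 0 < cF t := by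
  rcases lt_or_ge t (102 / 100) with h1 | h1
  · rw [cF_of_le h1.le]
    exact cf0_pos h
  · have h2 := (cF_right h1).1
    have h0 : 0 < cb0 t := cb0_pos (by linarith)
    linarith

/-! ### the curvature conditions -/

theorem core_prod {t : ℝ} (h0 : 0 < t) : cf1 t * cb1 t ≤ cK * cf0 t := by
  have h1 := cf1_ge h0.le
  have h2 := cb1_le h0.le
  have h3 := cf0_ge h0.le
  have hK0 := cK_ge
  have h4 : cf1 t * cb1 t ≤ cf1 t * (cK * t) := mul_le_mul_of_nonneg_left h2 (by linarith)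
  nlinarith only [h3, h4, hK0]

theorem core_ric0 {t : ℝ} (h0 : 0 < t) (h : t < 102 / 100) :
    0 ≤ -2 * cb2 t / cb0 t - cf2 t / cf0 t := by
  have hb := cb0_pos h0.le
  have hf := cf0_pos h0
  have h1 := core_key h0.le h.le
  have h2 := core_cos_nonneg h0.le h.le
  have h3 := core_sin_nonneg h0.le (by linarith)
  have h4 := cth1_le t
  have h5 := cth1_nonneg t
  have h6 := cth2_le t
  have e : -2 * cb2 t / cb0 t - cf2 t / cf0 t =
      ((1 - cth1 t) * (2 * cos t * cf0 t + 4 * sin t * cos t * cb0 t)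
        + cth1 t * (1 - cth2 t) * (sin t * cb0 t - 2 * cK * cf0 t)) / (cb0 t * cf0 t) := by
    unfold cb2 cf2
    rw [Real.sin_two_mul]
    field_simp
    ring
  rw [e]
  apply div_nonneg _ (by positivity)
  have k1 : 0 ≤ 2 * cos t * cf0 t + 4 * sin t * cos t * cb0 t := by (clear * - h2 h3 hb hf; positivity)
  have k2 : 0 ≤ (1 - cth1 t) * (2 * cos t * cf0 t + 4 * sin t * cos t * cb0 t) :=
    mul_nonneg (by linarith) k1
  have k3 : 0 ≤ cth1 t * (1 - cth2 t) * (sin t * cb0 t - 2 * cK * cf0 t) :=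
    mul_nonneg (mul_nonneg h5 (by linarith)) (by linarith)
  linarith

theorem core_ric3 {t : ℝ} (h0 : 0 < t) (h : t < 102 / 100) :
    0 ≤ -(cf2 t) / cf0 t - 2 * cf1 t * cb1 t / (cf0 t * cb0 t) + 2 * (cf0 t)^2 / (cb0 t)^4 := by
  have hb := cb0_pos h0.le
  have hf := cf0_pos h0
  have h1 := core_key h0.le h.le
  have hf2 := cf2_le h0.le h.le
  have hf1 := cf1_ge h0.le
  have h3 := core_sin_nonneg h0.le (by linarith)
  have h6 := cth2_le t
  have h7 := cth2_nonneg t
  have hp := core_prod h0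
  have e : -(cf2 t) / cf0 t - 2 * cf1 t * cb1 t / (cf0 t * cb0 t) + 2 * (cf0 t)^2 / (cb0 t)^4 =
      (-(cf2 t) * cb0 t - 2 * (cf1 t * cb1 t) + 2 * (cf0 t)^3 / (cb0 t)^3) / (cf0 t * cb0 t) := by
    field_simp
  rw [e]
  apply div_nonneg _ (by positivity)
  have k1 : (1 - cth2 t) * (2 * cK * cf0 t) ≤ -(cf2 t) * cb0 t := by
    have : (1 - cth2 t) * (2 * cK * cf0 t) ≤ (1 - cth2 t) * (sin t * cb0 t) :=
      mul_le_mul_of_nonneg_left h1 (by linarith)
    have : sin t * (1 - cth2 t) * cb0 t ≤ -(cf2 t) * cb0 t :=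
      mul_le_mul_of_nonneg_right (by linarith) hb.le
    linarith
  have k2 : 0 ≤ (cf0 t)^3 / (cb0 t)^3 := by positivity
  have k3 : cth2 t * (cf1 t * cb1 t) ≤ (cf0 t)^3 / (cb0 t)^3 := by
    rcases le_total t (101 / 100) with h8 | h8
    · rw [cth2_zero h8, zero_mul]
      exact k2
    · have m1 := cx_ge h8
      have m2 := cf1_le_end h8
      have m3 := cb1_le_half h0.le
      have m4 := cb1_pos h8
      have m5 : (67 / 100 : ℝ)^3 ≤ (cx t)^3 := pow_le_pow_left₀ (by norm_num) m1 3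
      have m6 : (cx t)^3 = (cf0 t)^3 / (cb0 t)^3 := by
        unfold cx
        rw [div_pow]
      have m7 : cf1 t * cb1 t ≤ 5344 / 10000 * (1 / 2) :=
        mul_le_mul m2 m3 m4.le (by norm_num)
      have m8 : 0 ≤ cf1 t * cb1 t := mul_nonneg (by linarith only [h, h8, hf1]) m4.le
      have m9 : cth2 t * (cf1 t * cb1 t) ≤ 1 * (cf1 t * cb1 t) :=
        mul_le_mul_of_nonneg_right h6 m8
      rw [← m6]
      norm_num at m5 m7
      linarith only [h, h8, m5, m7, m9]
  have k4 : (1 - cth2 t) * (cf1 t * cb1 t) ≤ (1 - cth2 t) * (cK * cf0 t) :=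
    mul_le_mul_of_nonneg_left hp (by linarith)
  have k5 : 2 * (cf0 t)^3 / (cb0 t)^3 = 2 * ((cf0 t)^3 / (cb0 t)^3) := by ring
  rw [k5]
  nlinarith only [k1, k3, k4]

theorem core_ric1 {t : ℝ} (h0 : 0 < t) (h : t < 102 / 100) :
    0 ≤ -(cb2 t) / cb0 t - (cb1 t)^2 / (cb0 t)^2
    - cf1 t * cb1 t / (cf0 t * cb0 t) + 4 / (cb0 t)^2 - 2 * (cf0 t)^2 / (cb0 t)^4 := by
  have hb := cb0_pos h0.le
  have hf := cf0_pos h0
  have hp := core_prod h0
  have h1 := cb2_le h0.le
  have h2 := cb1_sq_le h0.le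
  have h3 := cb0_le' h0.le h.le
  have h4 := cx_le h0.le h.le
  have hK := cK_le
  have hK0 := cK_ge
  have hx0 : 0 ≤ cx t := div_nonneg hf.le hb.le
  have e : -(cb2 t) / cb0 t - (cb1 t)^2 / (cb0 t)^2
    - cf1 t * cb1 t / (cf0 t * cb0 t) + 4 / (cb0 t)^2 - 2 * (cf0 t)^2 / (cb0 t)^4 =
      (-(cb2 t * cb0 t) - (cb1 t)^2 - (cf1 t * cb1 t) / cf0 t * cb0 t + 4 - 2 * (cx t)^2)
        / (cb0 t)^2 := by
    unfold cx
    field_simp
  rw [e]
  apply div_nonneg _ (by positivity)
  have k1 : (cf1 t * cb1 t) / cf0 t ≤ cK := by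
    rw [div_le_iff₀ hf]
    exact hp
  have k2 : (cf1 t * cb1 t) / cf0 t * cb0 t ≤ cK * cb0 t := mul_le_mul_of_nonneg_right k1 hb.le
  have k3 : cb2 t * cb0 t ≤ cK * cb0 t := mul_le_mul_of_nonneg_right h1 hb.le
  have k4 : cK * cb0 t ≤ 4981 / 10000 * (126 / 100) := mul_le_mul hK h3 hb.le (by norm_num)
  have k5 : (cx t)^2 ≤ (83 / 100)^2 := pow_le_pow_left₀ hx0 h4 2
  norm_num at k4 k5
  linarith only [h2, k2, k3, k4, k5]

end CoreAux

open CoreAux in
theorem core_exists : ∃ (b f : ℝ → ℝ) (ta T t1 : ℝ), IsCore b f ta T t1 := by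
  refine ⟨cb0, cF, 1 / 1000, 100, 2 * cb0 (102 / 100) - 102 / 100, ?_⟩
  refine
    { ta_pos := by norm_num
      ta_le := by norm_num
      T_gt := by norm_num
      t1_pos := ?_
      smooth_b := cb0_contDiff
      smooth_f := cF_contDiff
      fs := fun t ht => ⟨cb0_left ht, ?_⟩
      cone := fun t ht => ?_
      b_pos := fun t ht => cb0_pos ht.le
      f_pos := fun t ht => cF_pos ht
      f_le := fun t ht => ?_
      ric0 := fun t ht => ?_
      ric3 := fun t ht => ?_
      ric1 := fun t ht => ?_ }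
  · have := cb0_ge2 (t := 102 / 100) (by norm_num)
    linarith
  · rw [cF_of_le (by linarith), cf0_left ht]
  · have h1 := cb0_right (t := t) (by linarith)
    have h2 : cb0 t = (t + (2 * cb0 (102 / 100) - 102 / 100)) / 2 := by
      rw [h1]
      ring
    refine ⟨h2, ?_⟩
    rw [cF_of_ge (by linarith), cg_one (cx_large ht), mul_one, h2]
  · rcases lt_or_ge t (102 / 100) with h1 | h1
    · rw [cF_of_le h1.le]
      have h2 := cx_le ht.le h1.le
      unfold cx at h2
      rw [div_le_iff₀ (cb0_pos ht.le)] at h2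
      have := cb0_pos ht.le
      linarith
    · exact (cF_right h1).2.1
  · rw [cb0_deriv, cb1_deriv]
    rcases lt_or_ge t (102 / 100) with h1 | h1
    · rw [(cF_deriv_left h1).2, cF_of_le h1.le]
      exact core_ric0 ht h1
    · rw [cb2_right h1]
      have h2 := cF_deriv2_nonpos h1
      have h3 := cF_pos ht
      have h4 := div_nonneg (neg_nonneg.2 h2) h3.le
      rw [neg_div] at h4
      simp only [mul_zero, zero_div, zero_sub]
      exact h4
  · rw [cb0_deriv]
    rcases lt_or_ge t (102 / 100) with h1 | h1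
    · rw [(cF_deriv_left h1).2, (cF_deriv_left h1).1, cF_of_le h1.le]
      exact core_ric3 ht h1
    · rw [cb1_right h1]
      have h2 := cF_deriv2_nonpos h1
      have h3 := cF_pos ht
      have hb := cb0_pos ht.le
      obtain ⟨k1, k2, k3, k4⟩ := cF_right h1
      have h4 := div_nonneg (neg_nonneg.2 h2) h3.le
      have e : -(deriv (deriv cF) t) / cF t - 2 * deriv cF t * (1 / 2) / (cF t * cb0 t)
          + 2 * (cF t)^2 / (cb0 t)^4 = -(deriv (deriv cF) t) / cF t +
          (2 * (cF t / cb0 t)^3 - deriv cF t) / (cF t * cb0 t) := by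
        field_simp
        ring
      rw [e]
      have h5 : (67 / 100 : ℝ) ≤ cF t / cb0 t := by
        rw [le_div_iff₀ hb]
        exact k1
      have h6 : (67 / 100 : ℝ)^3 ≤ (cF t / cb0 t)^3 := pow_le_pow_left₀ (by norm_num) h5 3
      norm_num at h6
      exact add_nonneg h4 (div_nonneg (by linarith only [h6, k4]) (by positivity))
  · rw [cb0_deriv, cb1_deriv]
    rcases lt_or_ge t (102 / 100) with h1 | h1
    · rw [(cF_deriv_left h1).1, cF_of_le h1.le]
      exact core_ric1 ht h1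
    · rw [cb2_right h1, cb1_right h1]
      have h3 := cF_pos ht
      have hb := cb0_pos ht.le
      obtain ⟨k1, k2, k3, k4⟩ := cF_right h1
      have e : -(0:ℝ) / cb0 t - (1 / 2)^2 / (cb0 t)^2
          - deriv cF t * (1 / 2) / (cF t * cb0 t) + 4 / (cb0 t)^2 - 2 * (cF t)^2 / (cb0 t)^4 =
          (4 - 1 / 4 - deriv cF t / (2 * (cF t / cb0 t)) - 2 * (cF t / cb0 t)^2) / (cb0 t)^2 := by
        field_simp
        ring
      rw [e]
      have h5 : (67 / 100 : ℝ) ≤ cF t / cb0 t := by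
        rw [le_div_iff₀ hb]
        exact k1
      have h6 : cF t / cb0 t ≤ 1 := by
        rw [div_le_one hb]
        exact k2
      have h7 : deriv cF t / (2 * (cF t / cb0 t)) ≤ 1 / 2 := by
        rw [div_le_iff₀ (by linarith only [h5])]
        linarith only [h5, k4]
      have h8 : (cF t / cb0 t)^2 ≤ 1 := by nlinarith only [h5, h6]
      exact div_nonneg (by linarith only [h7, h8]) (by positivity)

end Pool.Agent.MP39e402
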