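import Pool.Agent.Lib.MP_39e402_gt.LP

/-! # MP_39e402, module LLoc: the one-hole profile on the half plane `Y > 0` (definitions and the
type I conditions in all zones).

Parameter `ph` (`= p̂`, small), `ε = epsh ph` the size of the hole; the hole is at the origin.
* `R < 2000 ε`: the quadrant profile, * `R ≥ 1000 ε`: the axis profile `PAx Y QL sL`.
* to the left (`X < 0`) the ridge becomes a tube with `Q = 4 ph`, to the right with `Q = 32 ph`;
  `Q` is cut off for `Y ≥ 1/20` (left), `Y ≥ 1/10` (right), `m P` is cut off between `R = 1/2` and `R = 1`. -/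

open Real Set Filter Topology MeasureTheory
open scoped ContDiff

noncomputable section

namespace Pool.Agent.MP39e402

def rad (X Y : ℝ) : ℝ := √(X^2 + Y^2)

/-- polar angle in `(0,π)` of `(X,Y)`, `Y > 0` -/
def ang (X Y : ℝ) : ℝ := Real.arccos (X / rad X Y)

/-- neck `Q` with scale `ε` -/
def QN (ε X Y : ℝ) : ℝ := ε / lam + Gam (ang X Y) * (ε * Pf (rad X Y / ε))

/-- neck `s` with scale `ε` -/
def sN (ε X : ℝ) : ℝ := ε + lam / 10 * (ε * Pf (|X| / ε))

/-- asymptotic value of `Q` on the two sides -/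
def zsd (ph X : ℝ) : ℝ := if X < 0 then 4 * ph else 32 * ph

/-- cut-off height on the two sides -/
def ysd (X : ℝ) : ℝ := if X < 0 then 1 / 20 else 1 / 10

def QL (ph X Y : ℝ) : ℝ :=
  (1 - st (2 * rad X Y - 1) * st (Y / ysd X - 1)) * mnf (QN (epsh ph) X Y) (zsd ph X)

def sL (ph X : ℝ) : ℝ := mnf (sN (epsh ph) X) (lam * zsd ph X)

/-- the one-hole profile -/
def PhL (ph X Y : ℝ) : ℝ :=
  if rad X Y < 2000 * epsh ph then
    epsh ph * PhiT (rad X Y / epsh ph * cos (vth (ang X Y))) (rad X Y / epsh ph * sin (vth (ang X Y)))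
  else PAx Y (QL ph X Y) (sL ph X)

/-- `J(R,θ)` of the one-hole base metric -/
def JL (ph R t : ℝ) : ℝ := R - (1 - st (2 * R - 1)) * mf t * (epsh ph * Pf (R / epsh ph))

end Pool.Agent.MP39e402
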