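import Pool.Agent.Lib.MP_39e402_gt.Defs
import Pool.Agent.Lib.MP_39e402_gt.LLoc
import Pool.Agent.Lib.MP_39e402_gt.LCore

/-! # MP_39e402, module UDefs: the metrics (definitions only)

* coordinates and 1-forms on `ℝ⁴`, quadratic forms `q p v` and `polMet q`
* the core metric `qC` in core coordinates `x` (`‖x‖ > t1`), the P-zone, the caps
* the one-hole metric `qL`, its domain `UL`
* the approximating metrics `gM k` on `UM k`, the limit metric `gInf` on `UInf`. -/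

open Real Set Filter Topology MeasureTheory
open scoped ContDiff

noncomputable section

namespace Pool.Agent.MP39e402

/-- vector with given components -/
def v4 (a b c d : ℝ) : EE 4 := WithLp.toLp 2 ![a, b, c, d]

/-- standard basis -/
def e4 (i : Fin 4) : EE 4 := EuclideanSpace.single i 1

/-- metric tensor with prescribed quadratic form (polarisation) -/
def polMet (q : EE 4 → EE 4 → ℝ) : RMetric 4 := fun p =>
  Matrix.of fun i j => (q p (e4 i + e4 j) - q p (e4 i) - q p (e4 j)) / 2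

/-- `q` is a quadratic form -/
def IsQF (q : EE 4 → ℝ) : Prop :=
  ∃ A : Matrix (Fin 4) (Fin 4) ℝ, (∀ i j, A i j = A j i) ∧ ∀ v : EE 4, q v = ∑ i, ∑ j, A i j * v i * v j

/-! ## coordinates: `X = p 0`, `Y = Yr p`, `|Û| = Ur p` -/

def Yr (p : EE 4) : ℝ := √(p 1 ^ 2 + p 2 ^ 2 + p 3 ^ 2)
def Ur (p : EE 4) : ℝ := √(p 2 ^ 2 + p 3 ^ 2)

/-- `dY` -/
def wY (p v : EE 4) : ℝ := (p 1 * v 1 + p 2 * v 2 + p 3 * v 3) / Yr p
/-- `d|Û|` -/
def wU (p v : EE 4) : ℝ := (p 2 * v 2 + p 3 * v 3) / Ur p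
/-- `dθ̂`, `θ̂ = arg Û` -/
def wth (p v : EE 4) : ℝ := (p 2 * v 3 - p 3 * v 2) / (Ur p) ^ 2
/-- `dα`, `y1 = Y cos α`, `|Û| = Y sin α` -/
def wal (p v : EE 4) : ℝ := (p 1 * wU p v - Ur p * v 1) / (Yr p) ^ 2
/-- `dR` -/
def wR (p v : EE 4) : ℝ := (p 0 * v 0 + p 1 * v 1 + p 2 * v 2 + p 3 * v 3) / ‖p‖
/-- `dθ`, `X = R cos θ`, `Y = R sin θ` -/
def wt (p v : EE 4) : ℝ := (p 0 * wY p v - Yr p * v 0) / ‖p‖ ^ 2

/-- type I metric of the one-hole model -/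
def qI (ph : ℝ) (Ψ : ℝ → ℝ) (p v : EE 4) : ℝ :=
  (v 0) ^ 2 + (wY p v) ^ 2
    + ((JL ph ‖p‖ (ang (p 0) (Yr p))) ^ 2 - ‖p‖ ^ 2) * (wt p v) ^ 2
    + (PhL ph (p 0) (Yr p)) ^ 2 * (wal p v) ^ 2
    + (Ψ (PhL ph (p 0) (Yr p) * Ur p / Yr p)) ^ 2 * (wth p v) ^ 2

/-! ## the core, in core coordinates `x`, `‖x‖ > t1` -/

def bC : ℝ → ℝ := Classical.choose core_exists
def fC : ℝ → ℝ := Classical.choose (Classical.choose_spec core_exists)
def taC : ℝ := Classical.choose (Classical.choose_spec (Classical.choose_spec core_exists))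
def TC : ℝ := Classical.choose (Classical.choose_spec (Classical.choose_spec
  (Classical.choose_spec core_exists)))
def t1C : ℝ := Classical.choose (Classical.choose_spec (Classical.choose_spec
  (Classical.choose_spec (Classical.choose_spec core_exists))))
theorem isCoreC : IsCore bC fC taC TC t1C := Classical.choose_spec (Classical.choose_spec
  (Classical.choose_spec (Classical.choose_spec (Classical.choose_spec core_exists))))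

/-- size of the core relative to the hole: the cone starts at `R = ε/2` -/
def sC : ℝ := 1 / (2 * (TC + t1C))

/-- `t` -/
def tc (x : EE 4) : ℝ := ‖x‖ - t1C
/-- `n3 = |Û|/‖x‖` (`= sin ξ`) -/
def n3 (x : EE 4) : ℝ := Ur x / ‖x‖
/-- `N = b² - (b² - f²) n3²` -/
def NN (x : EE 4) : ℝ := bC (tc x) ^ 2 - (bC (tc x) ^ 2 - fC (tc x) ^ 2) * (n3 x) ^ 2
/-- `κ = 2 (b² - f²)/N` -/
def kap (x : EE 4) : ℝ := 2 * (bC (tc x) ^ 2 - fC (tc x) ^ 2) / NN x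
/-- `ϖ = n1 dn2 - n2 dn1` -/
def wvp (x v : EE 4) : ℝ := (x 0 * v 1 - x 1 * v 0) / ‖x‖ ^ 2
/-- `|dn|²` -/
def wn2 (x v : EE 4) : ℝ := (‖v‖ ^ 2 - (wR x v) ^ 2) / ‖x‖ ^ 2
/-- `w`, the norm of the rotation field of the unquotiented core -/
def wc (x : EE 4) : ℝ := n3 x * √(NN x)
/-- `ρ`: sine of the distance to `P` in the Fubini-Study zone, `ρ² = 1 - cos² t n3²` -/
def rhoP (x : EE 4) : ℝ := √(1 - cos (tc x) ^ 2 * (n3 x) ^ 2)
/-- `dn3` -/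
def wn3 (x v : EE 4) : ℝ := wU x v / ‖x‖ - Ur x * wR x v / ‖x‖ ^ 2
/-- `dρ` -/
def wrho (x v : EE 4) : ℝ :=
  -(cos (tc x) * n3 x) * (cos (tc x) * wn3 x v - sin (tc x) * n3 x * wR x v) / rhoP x

/-- the P-zone: `t < ta`, `ρ < 1/2` -/
def PZ : Set (EE 4) := {x | tc x < taC ∧ rhoP x < 1 / 2}

/-- core metric; `Ψ` edge smoothing, `U` cap function -/
def qC (Ψ U : ℝ → ℝ) (x v : EE 4) : ℝ :=
  (wR x v) ^ 2 + bC (tc x) ^ 2 * (wn2 x v - (n3 x) ^ 2 * (wth x v) ^ 2)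
    - bC (tc x) ^ 2 * (bC (tc x) ^ 2 - fC (tc x) ^ 2) / NN x * (wvp x v) ^ 2
    + open Classical in
      if x ∈ PZ then
        (1 / (1 - U (rhoP x)) - 1 / (1 - (rhoP x) ^ 2)) * (wrho x v) ^ 2
          + (rhoP x) ^ 2 * (1 - U (rhoP x)) / 4 * (wth x v - kap x * wvp x v) ^ 2
      else (Ψ (wc x)) ^ 2 * (wth x v - kap x * wvp x v) ^ 2

/-- closed cap (to be removed), radius `a` (`a = 0`: empty for `t > 0`) -/
def CapS (a : ℝ) : Set (EE 4) := {x | x ∈ PZ ∧ rhoP x ≤ a}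

/-- domain of the core metric -/
def Uc (a : ℝ) : Set (EE 4) := {x | t1C < ‖x‖ ∧ Ur x ≠ 0 ∧ x ∉ CapS a}

/-- from the hole (`ℝ⁴ ∋ p`, `‖p‖ < 3ε/5`) to core coordinates -/
def Qm (ε : ℝ) (p : EE 4) : EE 4 :=
  (‖p‖ / (ε * sC)) • v4 (cos (2 * vth (ang (p 0) (Yr p))))
    (sin (2 * vth (ang (p 0) (Yr p))) * p 1 / Yr p)
    (sin (2 * vth (ang (p 0) (Yr p))) * p 2 / Yr p)
    (sin (2 * vth (ang (p 0) (Yr p))) * p 3 / Yr p)

/-- inverse of `Qm` -/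
def Th (ε : ℝ) (x : EE 4) : EE 4 :=
  (ε * sC * ‖x‖) • v4 (cos (vthI (ang (x 0) (Yr x) / 2)))
    (sin (vthI (ang (x 0) (Yr x) / 2)) * x 1 / Yr x)
    (sin (vthI (ang (x 0) (Yr x) / 2)) * x 2 / Yr x)
    (sin (vthI (ang (x 0) (Yr x) / 2)) * x 3 / Yr x)

/-! ## the one-hole model -/

/-- `Ψ_s(w) = Ψ(s w)/s` -/
def scΨ (s : ℝ) (Ψ : ℝ → ℝ) (w : ℝ) : ℝ := Ψ (s * w) / s

def qL (ph : ℝ) (Ψ U : ℝ → ℝ) (p v : EE 4) : ℝ :=
  open Classical in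
  if ‖p‖ < epsh ph / 2 then
    (epsh ph * sC) ^ 2 * qC (scΨ (epsh ph * sC) Ψ) U (Qm (epsh ph) p) (fderiv ℝ (Qm (epsh ph)) p v)
  else qI ph Ψ p v

def UL (ph a : ℝ) : Set (EE 4) :=
  {p | Ur p ≠ 0 ∧ epsh ph * sC * t1C < ‖p‖ ∧ ¬ (‖p‖ < epsh ph / 2 ∧ Qm (epsh ph) p ∈ CapS a)}

/-! ## the global spaces -/

/-- position of hole `i` -/
def xh (i : ℕ) : ℝ := (1 / 2) ^ i
/-- scale of hole `i` -/
def rh (i : ℕ) : ℝ := xh i / 4096
/-- parameter `p̂` of hole `i` -/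
def phh (c0 : ℝ) (i : ℕ) : ℝ := c0 * (rh i) ^ 2
/-- scaled coordinates around hole `i` -/
def sc (i : ℕ) (p : EE 4) : EE 4 := (1 / rh i) • (p - v4 (xh i) 0 0 0)

/-- index of the hole responsible for `X` (holes `1, ..., k`) -/
def idx : ℕ → ℝ → ℕ
  | 0, _ => 1
  | k + 1, X => if k = 0 then 1 else if 3 / 4 * xh k < X then idx k X else k + 1

/-- metric with `k` holes -/
def gM (c0 : ℝ) (k : ℕ) (Ψ U : ℝ → ℝ) : RMetric 4 := fun p =>
  polMet (qL (phh c0 (idx k (p 0))) (scΨ (rh (idx k (p 0))) Ψ) U) (sc (idx k (p 0)) p)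

def UM (c0 : ℝ) (k : ℕ) (a : ℝ) : Set (EE 4) :=
  {p | sc (idx k (p 0)) p ∈ UL (phh c0 (idx k (p 0))) a}

/-- the limit metric in `X ≤ 0`: singular ridge `φ = aa Y`, cone angle `π` along `F` -/
def q0 (p v : EE 4) : ℝ :=
  (v 0) ^ 2 + (wY p v) ^ 2 + (aa * Yr p) ^ 2 * (wal p v) ^ 2 + (aa * Ur p / 2) ^ 2 * (wth p v) ^ 2

/-- a number `k ≥ 1` with `3/4 * xh k < X` (for `X > 0`) -/
def kX (X : ℝ) : ℕ := open Classical in if h : ∃ k, 1 ≤ k ∧ 3 / 4 * xh k < X then Nat.find h else 1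

def gInf (c0 : ℝ) : RMetric 4 := fun p =>
  if p 0 ≤ 0 then polMet q0 p else gM c0 (kX (p 0)) (fun w => w / 2) (fun ρ => ρ ^ 2) p

def UInf (c0 : ℝ) : Set (EE 4) := {p | Ur p ≠ 0 ∧ (0 < p 0 → p ∈ UM c0 (kX (p 0)) 0)}

end Pool.Agent.MP39e402
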