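import Pool.Agent.Lib.MP_39e402_gt.MDefs
import Pool.Agent.Lib.MP_39e402_gt.UDefs

/-! # MP_39e402, module VDefs: charts of the core (definitions only)

* `LIso U g V h T Φ`: like `LocIso`, for an arbitrary pair `(U,g)`
* `PhE1`, `qz`: z-coordinates around `P` (affine chart of `CP²`), `PhE2`, `qe`: chart around `E1 ∩ F`,
* `PhB1`, `PhB2`, `qb`: charts around the bolt of the cap. -/

open Real Set Filter Topology MeasureTheory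
open scoped ContDiff

noncomputable section

namespace Pool.Agent.MP39e402

/-- `Φ : V \ T → U` is a local isometry from `(V,h)` to `(U,g)`; near the points of `T` it leaves `U` -/
structure LIso (U : Set (EE 4)) (g : RMetric 4) (V : Set (EE 4)) (h : RMetric 4) (T : Set (EE 4))
    (Φ : EE 4 → EE 4) : Prop where
  met : IsRMetricOn h V
  negl : Negl T
  maps : MapsTo Φ (V \ T) U
  smooth : ContDiffOn ℝ ∞ Φ (V \ T)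
  isom : ∀ x ∈ V \ T, ∀ v : EE 4, gquad g (Φ x) (fderiv ℝ Φ x v) = gquad h x v
  esc : ∀ x : ℕ → EE 4, (∀ j, x j ∈ V \ T) → ∀ z ∈ V ∩ T, Tendsto x atTop (𝓝 z) →
    ∀ u ∈ U, ¬ Tendsto (fun j => Φ (x j)) atTop (𝓝 u)

/-- a subsequence of `y` converges in an injective chart whose image is contained in `O` -/
def ChartC (U : Set (EE 4)) (g : RMetric 4) (O : Set (EE 4)) (y : ℕ → EE 4) : Prop :=
  ∃ (V : Set (EE 4)) (h : RMetric 4) (T : Set (EE 4)) (Φ : EE 4 → EE 4),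
    LIso U g V h T Φ ∧ InjOn Φ (V \ T) ∧ MapsTo Φ (V \ T) O ∧
    ∃ x₀ ∈ V, ∃ (x : ℕ → EE 4) (φ : ℕ → ℕ), StrictMono φ ∧ (∀ j, x j ∈ V \ T) ∧
      Tendsto x atTop (𝓝 x₀) ∧ ∀ j, Φ (x j) = y (φ j)

/-- `|(x0,x1)|²` and `|(x2,x3)|²` -/
def s01 (z : EE 4) : ℝ := z 0 ^ 2 + z 1 ^ 2
def s23 (z : EE 4) : ℝ := z 2 ^ 2 + z 3 ^ 2

/-- `{x0 = x1 = 0}`, `{x2 = x3 = 0}` -/
def T01 : Set (EE 4) := {x | x 0 = 0 ∧ x 1 = 0}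
def T23 : Set (EE 4) := {x | x 2 = 0 ∧ x 3 = 0}

/-- `Re (conj z · v)` and `Im (conj z · v)` in `C²` -/
def zRe (z v : EE 4) : ℝ := z 0 * v 0 + z 1 * v 1 + z 2 * v 2 + z 3 * v 3
def zIm (z v : EE 4) : ℝ := z 0 * v 1 - z 1 * v 0 + (z 2 * v 3 - z 3 * v 2)

/-- z-coordinates: `z1 = z 0 + i z 1`, `z2 = z 2 + i z 3`;
`sin t = |z1|/√(1+|z|²)`, `n1 + i n2 = z2 conj z1 /(|z1| √(1+|z2|²))`,
`n3 e^{iθ̂} = conj z1² / (|z1|² √(1+|z2|²))` -/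
def PhE1 (z : EE 4) : EE 4 :=
  (t1C + arcsin (√(s01 z) / √(1 + s01 z + s23 z))) •
    v4 ((z 0 * z 2 + z 1 * z 3) / (√(s01 z) * √(1 + s23 z)))
      ((z 0 * z 3 - z 1 * z 2) / (√(s01 z) * √(1 + s23 z)))
      ((z 0 ^ 2 - z 1 ^ 2) / (s01 z * √(1 + s23 z)))
      (-(2 * z 0 * z 1) / (s01 z * √(1 + s23 z)))

/-- the metric in z-coordinates, `W = V(ρ)`, `ρ = |z|/√(1+|z|²)` (`V = 1 - U`); Fubini-Study for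
`V = 1 - ρ²` -/
def qz (V : ℝ → ℝ) (z v : EE 4) : ℝ :=
  1 / V (‖z‖ / √(1 + ‖z‖ ^ 2)) * (zRe z v) ^ 2 / (‖z‖ ^ 2 * (1 + ‖z‖ ^ 2) ^ 3)
    + (‖v‖ ^ 2 - (zRe z v) ^ 2 / ‖z‖ ^ 2 - (zIm z v) ^ 2 / ‖z‖ ^ 2) / (1 + ‖z‖ ^ 2)
    + V (‖z‖ / √(1 + ‖z‖ ^ 2)) * (zIm z v) ^ 2 / (‖z‖ ^ 2 * (1 + ‖z‖ ^ 2))

/-- Fubini-Study -/
def qFS (z v : EE 4) : ℝ :=
  ‖v‖ ^ 2 / (1 + ‖z‖ ^ 2) - ((zRe z v) ^ 2 + (zIm z v) ^ 2) / (1 + ‖z‖ ^ 2) ^ 2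

/-- chart around `E1 ∩ F`: `ζ1 = x 0 + i x 1`, `η = x 2 + i x 3`;
`sin t = |ζ1|/√((1+|ζ1|²)(1+|η|²))`, `tan ξ = |η| √(1+|ζ1|²)`,
`n1 + i n2 = cos ξ conj ζ1/|ζ1|`, `n3 e^{iθ̂} = sin ξ (η/|η|) (conj ζ1/|ζ1|)²` -/
def PhE2 (x : EE 4) : EE 4 :=
  (t1C + arcsin (√(s01 x) / √((1 + s01 x) * (1 + s23 x)))) •
    v4 (x 0 / (√(s01 x) * √(1 + s23 x * (1 + s01 x))))
      (-(x 1) / (√(s01 x) * √(1 + s23 x * (1 + s01 x))))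
      (√(1 + s01 x) / √(1 + s23 x * (1 + s01 x)) *
        (x 2 * (x 0 ^ 2 - x 1 ^ 2) + 2 * x 3 * x 0 * x 1) / s01 x)
      (√(1 + s01 x) / √(1 + s23 x * (1 + s01 x)) *
        (x 3 * (x 0 ^ 2 - x 1 ^ 2) - 2 * x 2 * x 0 * x 1) / s01 x)

/-- metric in the chart `PhE2`: `A = Im(conj ζ1 dζ1)/(1+|ζ1|²)`, `β = Im(conj η dη)`, `E = |η|²`,
`w = √E/(1+E)`:  `(|dη|² - 4Aβ + 4A²E)/(1+E)² + |dζ1|²/((1+|ζ1|²)²(1+E)) + (Ψ(w)² - w²) (β/E - 2A)²`. -/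
def qe (Ψ : ℝ → ℝ) (x v : EE 4) : ℝ :=
  ((v 2) ^ 2 + (v 3) ^ 2 - 4 * ((x 0 * v 1 - x 1 * v 0) / (1 + s01 x)) * (x 2 * v 3 - x 3 * v 2)
      + 4 * ((x 0 * v 1 - x 1 * v 0) / (1 + s01 x)) ^ 2 * s23 x) / (1 + s23 x) ^ 2
    + ((v 0) ^ 2 + (v 1) ^ 2) / ((1 + s01 x) ^ 2 * (1 + s23 x))
    + ((Ψ (√(s23 x) / (1 + s23 x))) ^ 2 - (√(s23 x) / (1 + s23 x)) ^ 2)
      * ((x 2 * v 3 - x 3 * v 2) / s23 x - 2 * ((x 0 * v 1 - x 1 * v 0) / (1 + s01 x))) ^ 2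

/-- `ρ` in the bolt charts: `ρ⁴ = a⁴ + |ze|²`, `om = x 0 + i x 1`, `ze = x 2 + i x 3` -/
def rb (a : ℝ) (x : EE 4) : ℝ := √(√(a ^ 4 + s23 x))

/-- `|z|²/(1+|om|²)`, `|z|² = ρ²/(1-ρ²)` -/
def zb (a : ℝ) (x : EE 4) : ℝ := (rb a x) ^ 2 / (1 - (rb a x) ^ 2) / (1 + s01 x)

/-- bolt chart 1: `z2 = om z1`, `arg ze = 2 arg z1`, `|z1|² = zb` -/
def PhB1 (a : ℝ) (x : EE 4) : EE 4 :=
  (t1C + arcsin (rb a x / √(1 + s01 x))) •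
    v4 (x 0 * √(zb a x) / √(1 + s01 x * zb a x))
      (x 1 * √(zb a x) / √(1 + s01 x * zb a x))
      (x 2 / (√(s23 x) * √(1 + s01 x * zb a x)))
      (-(x 3) / (√(s23 x) * √(1 + s01 x * zb a x)))

/-- bolt chart 2: `z1 = om z2`, `arg ze = 2 arg z2`, `|z2|² = zb` -/
def PhB2 (a : ℝ) (x : EE 4) : EE 4 :=
  (t1C + arcsin (√(s01 x) * rb a x / √(1 + s01 x))) •
    v4 (x 0 / √(s01 x) * √(zb a x) / √(1 + zb a x))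
      (-(x 1) / √(s01 x) * √(zb a x) / √(1 + zb a x))
      ((x 2 * (x 0 ^ 2 - x 1 ^ 2) - 2 * x 3 * x 0 * x 1) / (s01 x * √(s23 x) * √(1 + zb a x)))
      (-(x 3 * (x 0 ^ 2 - x 1 ^ 2) + 2 * x 2 * x 0 * x 1) / (s01 x * √(s23 x) * √(1 + zb a x)))

/-- Eguchi-Hanson in the bolt charts: `B = Im(conj om d om)/(1+|om|²)`,
`(|dze|² + 4 B Im(conj ze dze) + 4 B² |ze|²)/(4ρ²) + ρ² |d om|²/(1+|om|²)²` -/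
def qb (a : ℝ) (x v : EE 4) : ℝ :=
  ((v 2) ^ 2 + (v 3) ^ 2 + 4 * ((x 0 * v 1 - x 1 * v 0) / (1 + s01 x)) * (x 2 * v 3 - x 3 * v 2)
      + 4 * ((x 0 * v 1 - x 1 * v 0) / (1 + s01 x)) ^ 2 * s23 x) / (4 * (rb a x) ^ 2)
    + (rb a x) ^ 2 * ((v 0) ^ 2 + (v 1) ^ 2) / (1 + s01 x) ^ 2

end Pool.Agent.MP39e402
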