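import Pool.Agent.Lib.MP_39e402_gt.MNegl
import Pool.Agent.Lib.MP_39e402_gt.MQuad
import Pool.Agent.Lib.MP_39e402_gt.VDefs

/-! # MP_39e402, module GExtA: extension of a metric over a negligible closed set.

`exists_ext`: choose for every `z ∈ V ∩ T` a local extension `h_z` on `O_z`; put `h x = g x` for `x ∉ T`, `h x = h_x x` for
`x ∈ V ∩ T`.  On `V ∩ O_z` we have `h = h_z`: outside `T` clear, at `x ∈ T ∩ O_z` both `h_x` and `h_z` are the limit of `g`
along the dense set `Tᶜ` (`Negl.subset_closure`). -/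

open Real Set Filter Topology MeasureTheory
open scoped ContDiff

noncomputable section

namespace Pool.Agent.MP39e402

/-- local smooth extension over `T` near `z` -/
def LExt (g : RMetric 4) (T : Set (EE 4)) (z : EE 4) : Prop :=
  ∃ (O : Set (EE 4)) (h : RMetric 4), z ∈ O ∧ IsRMetricOn h O ∧ ∀ x ∈ O \ T, h x = g x

theorem GExtA_agree {V T O₁ O₂ : Set (EE 4)} {g h₁ h₂ : RMetric 4} (hV : IsOpen V) (hT : Negl T)
    (H₁ : IsRMetricOn h₁ O₁) (H₂ : IsRMetricOn h₂ O₂) (e₁ : ∀ x ∈ O₁ \ T, h₁ x = g x)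
    (e₂ : ∀ x ∈ O₂ \ T, h₂ x = g x) {y : EE 4} (hy : y ∈ V) (hy₁ : y ∈ O₁) (hy₂ : y ∈ O₂) :
    h₁ y = h₂ y := by
  ext i j
  have hW : IsOpen (V ∩ (O₁ ∩ O₂)) := hV.inter (H₁.isOpen.inter H₂.isOpen)
  have hyW : y ∈ V ∩ (O₁ ∩ O₂) := ⟨hy, hy₁, hy₂⟩
  have hcl : y ∈ closure ((V ∩ (O₁ ∩ O₂)) \ T) := hT.subset_closure hW hyW
  have : (𝓝[(V ∩ (O₁ ∩ O₂)) \ T] y).NeBot := mem_closure_iff_nhdsWithin_neBot.1 hcl
  have c₁ : Tendsto (fun x => h₁ x i j) (𝓝[(V ∩ (O₁ ∩ O₂)) \ T] y) (𝓝 (h₁ y i j)) :=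
    ((H₁.smooth i j).continuousOn.continuousAt (H₁.isOpen.mem_nhds hy₁)).tendsto.mono_left
      nhdsWithin_le_nhds
  have c₂ : Tendsto (fun x => h₂ x i j) (𝓝[(V ∩ (O₁ ∩ O₂)) \ T] y) (𝓝 (h₂ y i j)) :=
    ((H₂.smooth i j).continuousOn.continuousAt (H₂.isOpen.mem_nhds hy₂)).tendsto.mono_left
      nhdsWithin_le_nhds
  refine tendsto_nhds_unique (c₁.congr' ?_) c₂
  filter_upwards [self_mem_nhdsWithin] with x hx
  rw [e₁ x ⟨hx.1.2.1, hx.2⟩, e₂ x ⟨hx.1.2.2, hx.2⟩]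

theorem exists_ext {V T : Set (EE 4)} {g : RMetric 4} (hV : IsOpen V) (hT : Negl T)
    (hg : IsRMetricOn g (V \ T)) (hloc : ∀ z ∈ V ∩ T, LExt g T z) :
    ∃ h : RMetric 4, LIso (V \ T) g V h T id := by
  classical
  choose! O hh h1 h2 h3 using hloc
  let h : RMetric 4 := fun x => if x ∈ T then hh x x else g x
  have hout : ∀ x, x ∉ T → h x = g x := fun x hx => if_neg hx
  have hin : ∀ z ∈ V ∩ T, ∀ y ∈ V ∩ O z, h y = hh z y := by
    intro z hz y hy
    by_cases hyT : y ∈ T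
    · have e : h y = hh y y := if_pos hyT
      rw [e]
      exact GExtA_agree hV hT (h2 y ⟨hy.1, hyT⟩) (h2 z hz) (h3 y ⟨hy.1, hyT⟩) (h3 z hz) hy.1
        (h1 y ⟨hy.1, hyT⟩) hy.2
    · rw [hout y hyT, h3 z hz y ⟨hy.2, hyT⟩]
  refine ⟨h, ?_, hT, fun x hx => hx, contDiffOn_id, ?_, ?_⟩
  · refine ⟨hV, ?_, ?_⟩
    · intro i j x hx
      by_cases hxT : x ∈ T
      · have hO := (h2 x ⟨hx, hxT⟩).isOpen
        have hsm := ((h2 x ⟨hx, hxT⟩).smooth i j).contDiffAt (hO.mem_nhds (h1 x ⟨hx, hxT⟩))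
        refine ContDiffAt.contDiffWithinAt (hsm.congr_of_eventuallyEq ?_)
        filter_upwards [hV.mem_nhds hx, hO.mem_nhds (h1 x ⟨hx, hxT⟩)] with y hy hy'
        rw [hin x ⟨hx, hxT⟩ y ⟨hy, hy'⟩]
      · have hsm := (hg.smooth i j).contDiffAt (hg.isOpen.mem_nhds ⟨hx, hxT⟩)
        refine ContDiffAt.contDiffWithinAt (hsm.congr_of_eventuallyEq ?_)
        filter_upwards [hg.isOpen.mem_nhds ⟨hx, hxT⟩] with y hy
        rw [hout y hy.2]
    · intro x hx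
      by_cases hxT : x ∈ T
      · rw [hin x ⟨hx, hxT⟩ x ⟨hx, h1 x ⟨hx, hxT⟩⟩]
        exact (h2 x ⟨hx, hxT⟩).posDef x (h1 x ⟨hx, hxT⟩)
      · rw [hout x hxT]
        exact hg.posDef x ⟨hx, hxT⟩
  · intro x hx v
    rw [fderiv_id]
    simp only [id, gquad, ContinuousLinearMap.coe_id']
    rw [hout x hx.2]
  · intro x _ z hz hxz u hu hxu
    have he : z = u := tendsto_nhds_unique hxz hxu
    exact hu.2 (he ▸ hz.2)

theorem GExtA_quad (A : Matrix (Fin 4) (Fin 4) ℝ) (v w : EE 4) :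
    (∑ i, ∑ j, A i j * (v + w) i * (v + w) j) = (∑ i, ∑ j, A i j * v i * v j) +
      (∑ i, ∑ j, A i j * w i * w j) + (∑ i, ∑ j, A i j * v i * w j) +
      (∑ i, ∑ j, A i j * w i * v j) := by
  simp only [PiLp.add_apply, ← Finset.sum_add_distrib]
  refine Finset.sum_congr rfl fun i _ => Finset.sum_congr rfl fun j _ => ?_
  ring

theorem GExtA_single (A : Matrix (Fin 4) (Fin 4) ℝ) (a b : Fin 4) :
    (∑ i, ∑ j, A i j * (EuclideanSpace.single a (1 : ℝ) : EE 4) i *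
      (EuclideanSpace.single b (1 : ℝ) : EE 4) j) = A a b := by
  simp

theorem GExtA_sym {A B : Matrix (Fin 4) (Fin 4) ℝ} (hA : A.IsSymm) (hB : B.IsSymm)
    (h : ∀ v : EE 4, (∑ i, ∑ j, A i j * v i * v j) = ∑ i, ∑ j, B i j * v i * v j) : A = B := by
  ext a b
  have h1 := h (EuclideanSpace.single a 1 + EuclideanSpace.single b 1)
  have h2 := h (EuclideanSpace.single a 1)
  have h3 := h (EuclideanSpace.single b 1)
  rw [GExtA_quad, GExtA_quad] at h1
  simp only [GExtA_single] at h1 h2 h3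
  have h4 : A b a = A a b := hA.apply a b
  have h5 : B b a = B a b := hB.apply a b
  linarith

/-- the matrix of a linear map -/
def GExtA_J (L : EE 4 →L[ℝ] EE 4) : Matrix (Fin 4) (Fin 4) ℝ :=
  fun k i => L (EuclideanSpace.single i 1) k

theorem GExtA_J_mul (L : EE 4 →L[ℝ] EE 4) (v : EE 4) (k : Fin 4) :
    L v k = ∑ i, GExtA_J L k i * v i := by
  have hv : v = ∑ i, v i • (EuclideanSpace.single i (1 : ℝ) : EE 4) := by
    ext j
    simp [Pi.single_apply]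
  conv_lhs => rw [hv]
  rw [map_sum]
  simp only [map_smul, WithLp.ofLp_sum, Finset.sum_apply, PiLp.smul_apply, smul_eq_mul, GExtA_J]
  exact Finset.sum_congr rfl fun i _ => mul_comm _ _

/-- the pulled back metric -/
def GExtA_pb (c : ℝ) (A : Matrix (Fin 4) (Fin 4) ℝ) (L : EE 4 →L[ℝ] EE 4) :
    Matrix (Fin 4) (Fin 4) ℝ :=
  fun i j => c * ∑ k, ∑ l, A k l * L (EuclideanSpace.single i 1) k * L (EuclideanSpace.single j 1) l

theorem GExtA_swap4 (f : Fin 4 → Fin 4 → Fin 4 → Fin 4 → ℝ) :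
    (∑ k, ∑ l, ∑ i, ∑ j, f k l i j) = ∑ i, ∑ j, ∑ k, ∑ l, f k l i j := by
  calc (∑ k, ∑ l, ∑ i, ∑ j, f k l i j) = ∑ k, ∑ i, ∑ l, ∑ j, f k l i j :=
        Finset.sum_congr rfl fun k _ => Finset.sum_comm
    _ = ∑ i, ∑ k, ∑ l, ∑ j, f k l i j := Finset.sum_comm
    _ = ∑ i, ∑ k, ∑ j, ∑ l, f k l i j :=
        Finset.sum_congr rfl fun i _ => Finset.sum_congr rfl fun k _ => Finset.sum_comm
    _ = ∑ i, ∑ j, ∑ k, ∑ l, f k l i j := Finset.sum_congr rfl fun i _ => Finset.sum_comm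

theorem GExtA_pb_quad (c : ℝ) (A : Matrix (Fin 4) (Fin 4) ℝ) (L : EE 4 →L[ℝ] EE 4) (v : EE 4) :
    (∑ i, ∑ j, GExtA_pb c A L i j * v i * v j) = c * ∑ k, ∑ l, A k l * L v k * L v l := by
  have h1 : ∀ k, L v k = ∑ i, L (EuclideanSpace.single i 1) k * v i := fun k => GExtA_J_mul L v k
  have h2 : ∀ k l : Fin 4, A k l * L v k * L v l = ∑ i, ∑ j, A k l *
      (L (EuclideanSpace.single i 1) k * v i) * (L (EuclideanSpace.single j 1) l * v j) := by
    intro k l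
    rw [mul_assoc, h1 k, h1 l, Finset.sum_mul_sum, Finset.mul_sum]
    refine Finset.sum_congr rfl fun i _ => ?_
    rw [Finset.mul_sum]
    refine Finset.sum_congr rfl fun j _ => ?_
    ring
  simp only [h2]
  have h3 : (∑ k, ∑ l, ∑ i, ∑ j, A k l * (L (EuclideanSpace.single i 1) k * v i) *
      (L (EuclideanSpace.single j 1) l * v j)) = ∑ i, ∑ j, ∑ k, ∑ l, A k l *
      (L (EuclideanSpace.single i 1) k * v i) * (L (EuclideanSpace.single j 1) l * v j) :=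
    GExtA_swap4 fun k l i j => A k l * (L (EuclideanSpace.single i 1) k * v i) *
      (L (EuclideanSpace.single j 1) l * v j)
  rw [h3, Finset.mul_sum]
  refine Finset.sum_congr rfl fun i _ => ?_
  rw [Finset.mul_sum]
  refine Finset.sum_congr rfl fun j _ => ?_
  simp only [GExtA_pb, Finset.mul_sum, Finset.sum_mul]
  refine Finset.sum_congr rfl fun k _ => Finset.sum_congr rfl fun l _ => ?_
  ring

theorem GExtA_pb_symm {c : ℝ} {A : Matrix (Fin 4) (Fin 4) ℝ} (hA : A.IsSymm)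
    (L : EE 4 →L[ℝ] EE 4) : (GExtA_pb c A L).IsSymm := by
  ext i j
  simp only [GExtA_pb, Matrix.transpose_apply]
  rw [Finset.sum_comm]
  congr 1
  refine Finset.sum_congr rfl fun k _ => Finset.sum_congr rfl fun l _ => ?_
  rw [hA.apply k l]
  ring

theorem GExtA_posDef {B : Matrix (Fin 4) (Fin 4) ℝ} (hB : B.IsSymm)
    (h : ∀ v : EE 4, v ≠ 0 → 0 < ∑ i, ∑ j, B i j * v i * v j) : B.PosDef := by
  refine Matrix.PosDef.of_dotProduct_mulVec_pos ?_ fun x hx => ?_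
  · rw [Matrix.IsHermitian]
    ext i j
    simp only [Matrix.conjTranspose_apply, star_trivial]
    exact hB.apply i j
  · have h1 := h (WithLp.toLp 2 x) (fun h0 => hx (by
      have := congrArg WithLp.ofLp h0
      simpa using this))
    refine h1.trans_eq ?_
    simp only [dotProduct, Matrix.mulVec, star_trivial, Finset.mul_sum]
    refine Finset.sum_congr rfl fun i _ => Finset.sum_congr rfl fun j _ => ?_
    ring

/-- pull back of local extensions by a local diffeomorphism preserving `T` -/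
theorem LExt.pull {g g' : RMetric 4} {T O : Set (EE 4)} {z : EE 4} {F : EE 4 → EE 4} {G : EE 4 → EE 4} {c : ℝ}
    (H : LExt g T (F z)) (hO : IsOpen O) (hz : z ∈ O) (hF : ContDiffOn ℝ ∞ F O) (hG : ContDiffAt ℝ ∞ G (F z))
    (hGF : ∀ x ∈ O, G (F x) = x) (hT : ∀ x ∈ O, F x ∈ T ↔ x ∈ T) (hc : 0 < c)
    (hgF : ∀ x ∈ O \ T, ∀ v, gquad g' x v = c * gquad g (F x) (fderiv ℝ F x v))
    (hs : ∀ x ∈ O \ T, (g' x).IsSymm) : LExt g' T z := by
  obtain ⟨O1, h, hzO, hm, hgh⟩ := H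
  have hG1 : ContDiffAt ℝ 1 G (F z) := hG.of_le (by norm_num)
  have hev : ∀ᶠ y in 𝓝 (F z), ContDiffAt ℝ 1 G y := hG1.eventually (by norm_num)
  obtain ⟨u, hu1, hu2, hu3⟩ := mem_nhds_iff.1 hev
  have hFc : ContinuousOn F O := hF.continuousOn
  have hopen : IsOpen (O ∩ F ⁻¹' (O1 ∩ u)) :=
    hFc.isOpen_inter_preimage hO (hm.isOpen.inter hu2)
  have hsymA : ∀ x ∈ O1, (h x).IsSymm := by
    intro x hx
    have h1 := (hm.posDef x hx).isHermitian
    have h2 : (h x).conjTranspose = (h x).transpose := by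
      ext i j
      simp [Matrix.conjTranspose]
    rw [Matrix.IsSymm, ← h2]
    exact h1
  refine ⟨O ∩ F ⁻¹' (O1 ∩ u), fun x => GExtA_pb c (h (F x)) (fderiv ℝ F x), ⟨hz, hzO, hu3⟩,
    ⟨hopen, ?_, ?_⟩, ?_⟩
  · intro i j
    have hfd : ContDiffOn ℝ ∞ (fun x => fderiv ℝ F x) (O ∩ F ⁻¹' (O1 ∩ u)) :=
      (hF.fderiv_of_isOpen hO (by norm_num)).mono inter_subset_left
    have hent : ∀ a k : Fin 4, ContDiffOn ℝ ∞
        (fun x => fderiv ℝ F x (EuclideanSpace.single a 1) k) (O ∩ F ⁻¹' (O1 ∩ u)) := by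
      intro a k
      have h1 : ContDiffOn ℝ ∞ (fun x => fderiv ℝ F x (EuclideanSpace.single a 1))
          (O ∩ F ⁻¹' (O1 ∩ u)) := hfd.clm_apply contDiffOn_const
      exact (EuclideanSpace.proj (𝕜 := ℝ) k).contDiff.comp_contDiffOn h1
    have hh : ∀ k l : Fin 4, ContDiffOn ℝ ∞ (fun x => h (F x) k l) (O ∩ F ⁻¹' (O1 ∩ u)) := by
      intro k l
      exact (hm.smooth k l).comp (hF.mono inter_subset_left) (fun x hx => hx.2.1)
    change ContDiffOn ℝ ∞ (fun x => c * ∑ k, ∑ l, h (F x) k l *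
      (fderiv ℝ F x (EuclideanSpace.single i 1)) k *
      (fderiv ℝ F x (EuclideanSpace.single j 1)) l) (O ∩ F ⁻¹' (O1 ∩ u))
    refine contDiffOn_const.mul (ContDiffOn.sum fun k _ => ContDiffOn.sum fun l _ => ?_)
    exact ((hh k l).mul (hent i k)).mul (hent j l)
  · intro x hx
    have hpd := hm.posDef (F x) hx.2.1
    have hdF : DifferentiableAt ℝ F x :=
      (hF.contDiffAt (hO.mem_nhds hx.1)).differentiableAt (by norm_num)
    have hdG' : ContDiffAt ℝ 1 G (F x) := hu1 hx.2.2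
    have hdG : DifferentiableAt ℝ G (F x) := hdG'.differentiableAt (by norm_num)
    have hcomp : fderiv ℝ G (F x) ∘L fderiv ℝ F x = ContinuousLinearMap.id ℝ (EE 4) := by
      rw [← fderiv_comp x hdG hdF]
      have h1 : (G ∘ F) =ᶠ[𝓝 x] id := by
        filter_upwards [hO.mem_nhds hx.1] with y hy
        exact hGF y hy
      rw [h1.fderiv_eq, fderiv_id]
    have hsym : (GExtA_pb c (h (F x)) (fderiv ℝ F x)).IsSymm :=
      GExtA_pb_symm (hsymA _ hx.2.1) _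
    refine GExtA_posDef hsym fun v hv => ?_
    rw [GExtA_pb_quad]
    have hv' : fderiv ℝ F x v ≠ 0 := by
      intro h0
      apply hv
      have h1 : (fderiv ℝ G (F x) ∘L fderiv ℝ F x) v = v := by
        rw [hcomp]; rfl
      rw [ContinuousLinearMap.comp_apply, h0, map_zero] at h1
      exact h1.symm
    exact mul_pos hc (gquad_pos hm hx.2.1 hv')
  · intro x hx
    have hxO : x ∈ O \ T := ⟨hx.1.1, hx.2⟩
    have hFx : F x ∈ O1 \ T := ⟨hx.1.2.1, fun h => hx.2 ((hT x hx.1.1).1 h)⟩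
    refine GExtA_sym (GExtA_pb_symm (hsymA _ hFx.1) _) (hs x hxO) fun v => ?_
    rw [GExtA_pb_quad]
    have h1 := hgF x hxO v
    unfold gquad at h1
    rw [h1, hgh _ hFx]

end Pool.Agent.MP39e402
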