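import Pool.Agent.Lib.MP_39e402_gt.LSt

/-! # MP_39e402, module LP: the function `Pf`.
Notation: `p = Pf R / R`, `d = p - P'`, `e = - R P''`. -/

open Real Set Filter Topology MeasureTheory
open scoped ContDiff

noncomputable section

namespace Pool.Agent.MP39e402

/-- `p(R) = P(R)/R` -/
def pf (R : ℝ) : ℝ := Real.exp (-cc * ∫ r in (0:ℝ)..(Real.log (R / RP)), st r)

/-- `d = p - P'` -/
def df (R : ℝ) : ℝ := cc * st (Real.log (R / RP)) * pf R

/-- `e = - R P''` -/
def ef (R : ℝ) : ℝ :=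
  cc * pf R * (st (Real.log (R / RP)) + deriv st (Real.log (R / RP)) - cc * (st (Real.log (R / RP)))^2)

theorem Pf_eq (R : ℝ) : Pf R = R * pf R := rfl

theorem lp_cc_pos : 0 < cc := by unfold cc; norm_num

theorem lp_cc_lt : cc < 1 / 2 := by unfold cc; norm_num

theorem lp_RP_pos : 0 < RP := by unfold RP; norm_num

theorem pf_pos (R : ℝ) : 0 < pf R := Real.exp_pos _

theorem pf_le_one (R : ℝ) : pf R ≤ 1 := by
  unfold pf
  rw [Real.exp_le_one_iff]
  have h1 := stI_nonneg (Real.log (R / RP))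
  have h2 := lp_cc_pos
  nlinarith [mul_nonneg h2.le h1]

theorem lp_log_nonpos {R : ℝ} (h0 : 0 < R) (h : R ≤ RP) : Real.log (R / RP) ≤ 0 := by
  refine Real.log_nonpos (div_nonneg h0.le lp_RP_pos.le) ?_
  rw [div_le_one lp_RP_pos]
  exact h

theorem pf_one {R : ℝ} (h0 : 0 < R) (h : R ≤ RP) : pf R = 1 := by
  unfold pf
  rw [stI_of_nonpos (lp_log_nonpos h0 h), mul_zero, Real.exp_zero]

theorem Pf_self {R : ℝ} (h0 : 0 < R) (h : R ≤ RP) : Pf R = R := by
  rw [Pf_eq, pf_one h0 h, mul_one]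

theorem Pf_pos {R : ℝ} (h0 : 0 < R) : 0 < Pf R := by
  rw [Pf_eq]
  exact mul_pos h0 (pf_pos R)

theorem Pf_le {R : ℝ} (h0 : 0 < R) : Pf R ≤ R := by
  rw [Pf_eq]
  have := pf_le_one R
  nlinarith

theorem lp_log_contDiffOn : ContDiffOn ℝ ∞ (fun R : ℝ => Real.log (R / RP)) (Ioi 0) := by
  refine ContDiffOn.log (contDiffOn_id.div_const RP) fun x hx => ?_
  have hx' : 0 < x := hx
  exact (div_pos hx' lp_RP_pos).ne'

theorem pf_contDiffOn : ContDiffOn ℝ ∞ pf (Ioi 0) := by
  unfold pf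
  have h1 : ContDiffOn ℝ ∞ (fun R : ℝ => ∫ r in (0:ℝ)..(Real.log (R / RP)), st r) (Ioi 0) :=
    stI_contDiff.comp_contDiffOn lp_log_contDiffOn
  exact (contDiffOn_const.mul h1).exp

theorem Pf_contDiffOn : ContDiffOn ℝ ∞ Pf (Ioi 0) := by
  have h1 : Pf = fun R => R * pf R := funext Pf_eq
  rw [h1]
  exact contDiffOn_id.mul pf_contDiffOn

theorem lp_log_hasDerivAt {R : ℝ} (h0 : 0 < R) :
    HasDerivAt (fun R : ℝ => Real.log (R / RP)) (1 / R) R := by
  have h1 := ((hasDerivAt_id R).div_const RP).log (div_pos h0 lp_RP_pos).ne'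
  refine h1.congr_deriv ?_
  have := lp_RP_pos.ne'
  simp only [id]
  field_simp

theorem pf_hasDerivAt {R : ℝ} (h0 : 0 < R) : HasDerivAt pf (-(df R) / R) R := by
  have h1 := (((stI_hasDerivAt (Real.log (R / RP))).comp R (lp_log_hasDerivAt h0)).const_mul
    (-cc)).exp
  refine h1.congr_deriv ?_
  unfold df pf
  simp only [Function.comp]
  field_simp

theorem Pf_hasDerivAt {R : ℝ} (h0 : 0 < R) : HasDerivAt Pf (pf R - df R) R := by
  have h1 := (hasDerivAt_id R).mul (pf_hasDerivAt h0)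
  have h2 : Pf = id * pf := funext Pf_eq
  rw [h2]
  refine h1.congr_deriv ?_
  simp only [id]
  field_simp
  ring

theorem lp_st_hasDerivAt (x : ℝ) : HasDerivAt st (deriv st x) x :=
  (st_contDiff.differentiable (by simp) x).hasDerivAt

theorem lp_df_hasDerivAt {R : ℝ} (h0 : 0 < R) : HasDerivAt df
    (cc * pf R / R * (deriv st (Real.log (R / RP)) - cc * (st (Real.log (R / RP))) ^ 2)) R := by
  have h1 := (((lp_st_hasDerivAt (Real.log (R / RP))).comp R (lp_log_hasDerivAt h0)).const_mul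
    cc).mul (pf_hasDerivAt h0)
  refine h1.congr_deriv ?_
  simp only [Function.comp]
  unfold df
  field_simp
  ring

theorem Pf_hasDerivAt2 {R : ℝ} (h0 : 0 < R) :
    HasDerivAt (fun r => pf r - df r) (-(ef R) / R) R := by
  refine ((pf_hasDerivAt h0).sub (lp_df_hasDerivAt h0)).congr_deriv ?_
  unfold ef
  unfold df
  field_simp
  ring

theorem df_nonneg (R : ℝ) : 0 ≤ df R := by
  unfold df
  exact mul_nonneg (mul_nonneg lp_cc_pos.le (st_nonneg _)) (pf_pos R).le

theorem df_le (R : ℝ) : df R ≤ cc * pf R := by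
  unfold df
  have h1 := st_le_one (Real.log (R / RP))
  exact mul_le_mul_of_nonneg_right (mul_le_of_le_one_right lp_cc_pos.le h1) (pf_pos R).le

/-- the bracket of `ef` is at least `st / 2` -/
theorem lp_bracket (x : ℝ) : st x / 2 ≤ st x + deriv st x - cc * (st x) ^ 2 := by
  have h1 := st_nonneg x
  have h2 := st_le_one x
  have h3 := st_deriv_nonneg x
  have h4 := lp_cc_lt
  have h5 := lp_cc_pos
  have h6 : cc * (st x) ^ 2 ≤ 1 / 2 * st x := by
    calc cc * (st x) ^ 2 = (cc * st x) * st x := by ring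
      _ ≤ (1 / 2) * st x := by
          refine mul_le_mul_of_nonneg_right ?_ h1
          nlinarith
  linarith

theorem ef_nonneg (R : ℝ) : 0 ≤ ef R := by
  unfold ef
  have h1 := lp_bracket (Real.log (R / RP))
  have h2 := st_nonneg (Real.log (R / RP))
  refine mul_nonneg (mul_nonneg lp_cc_pos.le (pf_pos R).le) ?_
  linarith

theorem ef_le (R : ℝ) : ef R ≤ 9 * cc * pf R := by
  unfold ef
  have h1 := st_le_one (Real.log (R / RP))
  have h2 := st_deriv_le (Real.log (R / RP))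
  have h3 : 0 ≤ cc * (st (Real.log (R / RP))) ^ 2 := mul_nonneg lp_cc_pos.le (sq_nonneg _)
  have h4 : 0 ≤ cc * pf R := mul_nonneg lp_cc_pos.le (pf_pos R).le
  calc cc * pf R * (st (Real.log (R / RP)) + deriv st (Real.log (R / RP)) -
        cc * (st (Real.log (R / RP))) ^ 2) ≤ cc * pf R * 9 :=
        mul_le_mul_of_nonneg_left (by linarith) h4
    _ = 9 * cc * pf R := by ring

/-- `d² ≤ 2 c p e` -/
theorem df_sq_le (R : ℝ) : (df R)^2 ≤ 2 * cc * pf R * ef R := by
  unfold ef df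
  have h1 := lp_bracket (Real.log (R / RP))
  have h2 := st_nonneg (Real.log (R / RP))
  have h3 := st_le_one (Real.log (R / RP))
  have h4 : 0 ≤ cc * pf R := mul_nonneg lp_cc_pos.le (pf_pos R).le
  obtain ⟨x, hx⟩ : ∃ x, x = Real.log (R / RP) := ⟨_, rfl⟩
  rw [← hx] at h1 h2 h3 ⊢
  have h5 : (st x) ^ 2 ≤ 2 * (st x + deriv st x - cc * (st x) ^ 2) := by nlinarith
  calc (cc * st x * pf R) ^ 2 = (cc * pf R) ^ 2 * (st x) ^ 2 := by ring
    _ ≤ (cc * pf R) ^ 2 * (2 * (st x + deriv st x - cc * (st x) ^ 2)) :=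
        mul_le_mul_of_nonneg_left h5 (sq_nonneg _)
    _ = _ := by ring

theorem df_zero {R : ℝ} (h0 : 0 < R) (h : R ≤ RP) : df R = 0 := by
  unfold df
  rw [st_zero (lp_log_nonpos h0 h), mul_zero, zero_mul]

theorem lp_deriv_st_zero {x : ℝ} (h : x ≤ 0) : deriv st x = 0 := by
  have h1 : IsLocalMin st x := Filter.Eventually.of_forall fun y => by
    rw [st_zero h]
    exact st_nonneg y
  exact h1.deriv_eq_zero

theorem ef_zero {R : ℝ} (h0 : 0 < R) (h : R ≤ RP) : ef R = 0 := by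
  unfold ef
  rw [st_zero (lp_log_nonpos h0 h), lp_deriv_st_zero (lp_log_nonpos h0 h)]
  ring

/-- power law for large `R` -/
theorem pf_power {R : ℝ} (h : Real.exp 1 * RP ≤ R) :
    pf R = (R / (RP * Real.exp (1 / 2))) ^ (-cc) := by
  have hRP := lp_RP_pos
  have hR : 0 < R := lt_of_lt_of_le (mul_pos (Real.exp_pos 1) hRP) h
  have h1 : 1 ≤ Real.log (R / RP) := by
    rw [Real.le_log_iff_exp_le (div_pos hR hRP), le_div_iff₀ hRP]
    exact h
  unfold pf
  rw [stI_of_one_le h1, Real.rpow_def_of_pos (div_pos hR (mul_pos hRP (Real.exp_pos _)))]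
  congr 1
  have h2 : R / (RP * Real.exp (1 / 2)) = (R / RP) / Real.exp (1 / 2) := by
    field_simp
  rw [h2, Real.log_div (div_pos hR hRP).ne' (Real.exp_pos _).ne', Real.log_exp]
  ring

theorem Pf_mono {R S : ℝ} (h0 : 0 < R) (h : R ≤ S) : Pf R ≤ Pf S := by
  have hm : MonotoneOn Pf (Ioi 0) := by
    refine monotoneOn_of_deriv_nonneg (convex_Ioi 0) Pf_contDiffOn.continuousOn
      (fun x hx => ?_) fun x hx => ?_
    · rw [interior_Ioi] at hx
      exact (Pf_hasDerivAt hx).differentiableAt.differentiableWithinAt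
    · rw [interior_Ioi] at hx
      rw [(Pf_hasDerivAt hx).deriv]
      have h1 := df_le x
      have h2 := pf_pos x
      have h3 := lp_cc_lt
      nlinarith
  exact hm h0 (h0.trans_le h) h

theorem pf_anti {R S : ℝ} (h0 : 0 < R) (h : R ≤ S) : pf S ≤ pf R := by
  have hm : AntitoneOn pf (Ioi 0) := by
    refine antitoneOn_of_deriv_nonpos (convex_Ioi 0) pf_contDiffOn.continuousOn
      (fun x hx => ?_) fun x hx => ?_
    · rw [interior_Ioi] at hx
      exact (pf_hasDerivAt hx).differentiableAt.differentiableWithinAt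
    · rw [interior_Ioi] at hx
      rw [(pf_hasDerivAt hx).deriv]
      have h1 := df_nonneg x
      have hx' : 0 < x := hx
      rw [neg_div, neg_nonpos]
      positivity
  exact hm h0 (h0.trans_le h) h

theorem Pf_concaveOn : ConcaveOn ℝ (Ioi 0) Pf := by
  have hd : ∀ x, 0 < x → deriv Pf x = pf x - df x := fun x hx => (Pf_hasDerivAt hx).deriv
  have hanti : AntitoneOn (deriv Pf) (interior (Ioi (0:ℝ))) := by
    rw [interior_Ioi]
    have h1 : AntitoneOn (fun x => pf x - df x) (Ioi 0) := by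
      refine antitoneOn_of_deriv_nonpos (convex_Ioi 0)
        (fun x hx => (Pf_hasDerivAt2 hx).continuousAt.continuousWithinAt)
        (fun x hx => ?_) fun x hx => ?_
      · rw [interior_Ioi] at hx
        exact (Pf_hasDerivAt2 hx).differentiableAt.differentiableWithinAt
      · rw [interior_Ioi] at hx
        rw [(Pf_hasDerivAt2 hx).deriv]
        have h1 := ef_nonneg x
        have hx' : 0 < x := hx
        rw [neg_div, neg_nonpos]
        positivity
    intro x hx y hy hxy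
    rw [hd x hx, hd y hy]
    exact h1 hx hy hxy
  exact hanti.concaveOn_of_deriv (convex_Ioi 0) Pf_contDiffOn.continuousOn
    (fun x hx => by
      rw [interior_Ioi] at hx
      exact (Pf_hasDerivAt hx).differentiableAt.differentiableWithinAt)

/-- the scale of the neck: `ε(p̂)`, so that `ε P(R/ε) = p̂ R^{1-c}` for `R ≥ 1/2` -/
def epsh (ph : ℝ) : ℝ := ph ^ (1 / cc) / (RP * Real.exp (1 / 2))

theorem epsh_pos {ph : ℝ} (h : 0 < ph) : 0 < epsh ph := by
  unfold epsh
  exact div_pos (Real.rpow_pos_of_pos h _) (mul_pos lp_RP_pos (Real.exp_pos _))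

/-- for `p̂ ≤ 1/2`: `ε ≤ p̂/10^{12}` (very crude) -/
theorem epsh_le {ph : ℝ} (h : 0 < ph) (h1 : ph ≤ 1 / 2) : epsh ph ≤ ph / 10 ^ 12 := by
  unfold epsh
  have he : 1 ≤ Real.exp (1 / 2) := Real.one_le_exp (by norm_num)
  have h2 : ph ^ (1 / cc) ≤ ph ^ ((21 : ℕ) : ℝ) := by
    refine Real.rpow_le_rpow_of_exponent_ge h (by linarith) ?_
    unfold cc
    norm_num
  rw [Real.rpow_natCast] at h2
  have h3 : ph ^ 21 ≤ ph * (1 / 10 ^ 6) := by
    calc ph ^ 21 = ph * ph ^ 20 := by ring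
      _ ≤ ph * (1 / 2) ^ 20 := mul_le_mul_of_nonneg_left (pow_le_pow_left₀ h.le h1 20) h.le
      _ ≤ ph * (1 / 10 ^ 6) := mul_le_mul_of_nonneg_left (by norm_num) h.le
  rw [div_le_iff₀ (mul_pos lp_RP_pos (Real.exp_pos _))]
  calc ph ^ (1 / cc) ≤ ph * (1 / 10 ^ 6) := h2.trans h3
    _ = ph / 10 ^ 12 * (RP * 1) := by unfold RP; norm_num; ring
    _ ≤ ph / 10 ^ 12 * (RP * Real.exp (1 / 2)) := by
        refine mul_le_mul_of_nonneg_left ?_ (by positivity)
        exact mul_le_mul_of_nonneg_left he lp_RP_pos.le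

theorem epsh_contDiffOn : ContDiffOn ℝ ∞ epsh (Ioi 0) := by
  unfold epsh
  refine ContDiffOn.div_const ?_ _
  exact contDiffOn_id.rpow_const_of_ne fun x hx => ne_of_gt hx

theorem lp_large {ph R : ℝ} (h : 0 < ph) (h1 : ph ≤ 1 / 2) (hR : 1 / 4 ≤ R) :
    Real.exp 1 * RP ≤ R / epsh ph := by
  rw [le_div_iff₀ (epsh_pos h)]
  have h2 := epsh_le h h1
  have h3 : Real.exp 1 ≤ 3 := by
    have := Real.exp_one_lt_d9
    linarith
  have h4 : ph / 10 ^ 12 ≤ 1 / 10 ^ 12 := by
    rw [div_le_div_iff_of_pos_right (by positivity)]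
    linarith
  calc Real.exp 1 * RP * epsh ph ≤ 3 * RP * (1 / 10 ^ 12) := by
        refine mul_le_mul (mul_le_mul_of_nonneg_right h3 lp_RP_pos.le) (h2.trans h4)
          (epsh_pos h).le (mul_nonneg (by norm_num) lp_RP_pos.le)
    _ ≤ 1 / 4 := by unfold RP; norm_num
    _ ≤ R := hR

theorem eps_pf {ph R : ℝ} (h : 0 < ph) (h1 : ph ≤ 1 / 2) (hR : 1 / 4 ≤ R) :
    pf (R / epsh ph) = ph * R ^ (-cc) := by
  rw [pf_power (lp_large h h1 hR)]
  have hRpos : 0 < R := by linarith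
  have h2 : R / epsh ph / (RP * Real.exp (1 / 2)) = R / ph ^ (1 / cc) := by
    unfold epsh
    have e0 := lp_RP_pos.ne'
    have e1 := (Real.exp_pos (1 / 2)).ne'
    have e2 := (Real.rpow_pos_of_pos h (1 / cc)).ne'
    field_simp
  rw [h2, Real.div_rpow hRpos.le (Real.rpow_nonneg h.le _), ← Real.rpow_mul h.le]
  have h3 : 1 / cc * -cc = -1 := by
    have := lp_cc_pos.ne'
    field_simp
  rw [h3, Real.rpow_neg_one]
  field_simp

theorem eps_Pf {ph R : ℝ} (h : 0 < ph) (h1 : ph ≤ 1 / 2) (hR : 1 / 4 ≤ R) :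
    epsh ph * Pf (R / epsh ph) = ph * R ^ (1 - cc) := by
  have hRpos : 0 < R := by linarith
  rw [Pf_eq, eps_pf h h1 hR]
  have h2 := (epsh_pos h).ne'
  have h3 : R ^ (1 - cc) = R * R ^ (-cc) := by
    rw [sub_eq_add_neg, Real.rpow_add hRpos, Real.rpow_one]
  rw [h3]
  field_simp

end Pool.Agent.MP39e402
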