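import Pool.Agent.Lib.MP_39e402_gt.LMid
import Pool.Agent.Lib.MP_39e402_gt.LP

/-! # MP_39e402, module LMidTI: type I conditions of the middle profile.
With `p = pf R`, `d = df R`, `e = ef R` (module LP): `J = R j`, `J_R = j + m d`, `J_RR = e m/R`,
`φ̂ = R sin θ + Γ P`, `φ̂_R = Θ - d Γ`, `φ̂_RR = - e Γ/R`, `Hess φ̂(R,θ) = -(d/(R j²)) (Γ' + m c)`,
`Hess φ̂(θ,θ) = (1/R) (sx + (1+md/j)(Θ - dΓ))`; multiply `Hess (a φ̂) - (K/2)(b + a φ̂)` by `R/a` and use
`mid_matrix` with `β = b/(aR) = 1000/R` (if `R ≥ RP`; for `R ≤ RP` `d = e = 0`, take `β = 0`). -/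

open Real Set Filter Topology MeasureTheory
open scoped ContDiff

noncomputable section

namespace Pool.Agent.MP39e402

/-- `J(R,θ) = R - m(θ) P(R)` -/
def JN (R t : ℝ) : ℝ := R - mf t * Pf R

/-- the middle profile `b + a (R sin θ + Γ(θ) P(R))` -/
def PhM (R t : ℝ) : ℝ := bb + aa * (R * sin t + Gam t * Pf R)

theorem JN_D1 {R : ℝ} (h : 0 < R) (t : ℝ) : D1 JN R t = 1 - mf t * (pf R - df R) := by
  unfold D1 JN
  exact ((hasDerivAt_id R).sub ((Pf_hasDerivAt h).const_mul (mf t))).deriv

theorem JN_D11 {R : ℝ} (h : 0 < R) (t : ℝ) : D11 JN R t = mf t * ef R / R := by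
  unfold D11
  have h1 : (fun r => D1 JN r t) =ᶠ[𝓝 R] fun r => 1 - mf t * (pf r - df r) := by
    filter_upwards [Ioi_mem_nhds h] with r hr
    exact JN_D1 hr t
  have h2 : HasDerivAt (fun r => 1 - mf t * (pf r - df r)) (0 - mf t * (-(ef R) / R)) R :=
    (hasDerivAt_const R (1:ℝ)).sub ((Pf_hasDerivAt2 h).const_mul (mf t))
  show deriv (fun r => D1 JN r t) R = _
  rw [h1.deriv_eq, h2.deriv]
  ring

private theorem mf_hasDerivAt' (t : ℝ) : HasDerivAt mf (deriv mf t) t :=
  (mf_contDiff.differentiable (by simp) t).hasDerivAt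

theorem JN_D2 (R t : ℝ) : D2 JN R t = -(deriv mf t * Pf R) := by
  unfold D2 JN
  have h := (hasDerivAt_const t R).sub ((mf_hasDerivAt' t).mul_const (Pf R))
  rw [show (fun r => R - mf r * Pf R) = ((fun _ => R) - fun r => mf r * Pf R) from rfl, h.deriv]
  ring

theorem PhM_D1 {R : ℝ} (h : 0 < R) (t : ℝ) :
    D1 PhM R t = aa * (sin t + Gam t * (pf R - df R)) := by
  unfold D1 PhM
  have h1 : HasDerivAt (fun r => bb + aa * (r * sin t + Gam t * Pf r))
      (aa * (1 * sin t + Gam t * (pf R - df R))) R := by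
    refine HasDerivAt.const_add bb (HasDerivAt.const_mul aa ?_)
    exact ((hasDerivAt_id R).mul_const (sin t)).add ((Pf_hasDerivAt h).const_mul (Gam t))
  rw [h1.deriv]
  ring

theorem PhM_D11 {R : ℝ} (h : 0 < R) (t : ℝ) : D11 PhM R t = -(aa * (Gam t * ef R) / R) := by
  unfold D11
  have h1 : (fun r => D1 PhM r t) =ᶠ[𝓝 R] fun r => aa * (sin t + Gam t * (pf r - df r)) := by
    filter_upwards [Ioi_mem_nhds h] with r hr
    exact PhM_D1 hr t
  have h2 : HasDerivAt (fun r => aa * (sin t + Gam t * (pf r - df r)))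
      (aa * (Gam t * (-(ef R) / R))) R :=
    HasDerivAt.const_mul aa (HasDerivAt.const_add (sin t) ((Pf_hasDerivAt2 h).const_mul (Gam t)))
  show deriv (fun r => D1 PhM r t) R = _
  rw [h1.deriv_eq, h2.deriv]
  ring

theorem PhM_D2 (R t : ℝ) : D2 PhM R t = aa * (R * cos t + Gam1 t * Pf R) := by
  unfold D2 PhM
  have h1 : HasDerivAt (fun r => bb + aa * (R * sin r + Gam r * Pf R))
      (aa * (R * cos t + ((1 - mf t) * estar t - cos t) * Pf R)) t := by
    refine HasDerivAt.const_add bb (HasDerivAt.const_mul aa ?_)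
    exact ((hasDerivAt_sin t).const_mul R).add ((Gam_hasDerivAt t).mul_const (Pf R))
  rw [h1.deriv]
  rfl

theorem PhM_D22 (R t : ℝ) : D22 PhM R t = aa * (-(R * sin t) + Gam2 t * Pf R) := by
  unfold D22
  show deriv (fun r => D2 PhM R r) t = _
  have h0 : (fun r => D2 PhM R r) = fun r => aa * (R * cos r + Gam1 r * Pf R) := by
    funext r
    exact PhM_D2 R r
  have h1 : HasDerivAt (fun r => aa * (R * cos r + Gam1 r * Pf R))
      (aa * (R * (-sin t) + Gam2 t * Pf R)) t := by
    refine HasDerivAt.const_mul aa ?_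
    exact ((hasDerivAt_cos t).const_mul R).add ((Gam1_hasDerivAt t).mul_const (Pf R))
  rw [h0, h1.deriv]
  ring

theorem PhM_D12 {R : ℝ} (h : 0 < R) (t : ℝ) :
    D12 PhM R t = aa * (cos t + Gam1 t * (pf R - df R)) := by
  unfold D12
  show deriv (fun r => D2 PhM r t) R = _
  have h0 : (fun r => D2 PhM r t) = fun r => aa * (r * cos t + Gam1 t * Pf r) := by
    funext r
    exact PhM_D2 r t
  have h1 : HasDerivAt (fun r => aa * (r * cos t + Gam1 t * Pf r))
      (aa * (1 * cos t + Gam1 t * (pf R - df R))) R := by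
    refine HasDerivAt.const_mul aa ?_
    exact ((hasDerivAt_id R).mul_const (cos t)).add ((Pf_hasDerivAt h).const_mul (Gam1 t))
  rw [h0, h1.deriv]
  ring

private theorem bb_pos : 0 < bb := by unfold bb; positivity

private theorem aa_pos : 0 < aa := by
  have := bb_pos
  unfold aa lam
  positivity

private theorem bb_le : bb ≤ 3 := by
  unfold bb
  have h : (1:ℝ) ≤ √2 := by
    rw [show (1:ℝ) = √1 by simp]
    exact Real.sqrt_le_sqrt (by norm_num)
  rw [div_le_iff₀ (by positivity)]
  nlinarith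

private theorem aa_le : aa ≤ 3 / 1000 := by
  have := bb_le
  unfold aa lam
  linarith

private theorem bb_eq_aa : bb = 1000 * aa := by
  unfold aa lam
  ring

/-- type I conditions of the middle profile (for `R ≥ RP` the bound on `β = b/(aR)` is used, for
`R ≤ RP` one has `d = e = 0`) -/
theorem mid_TI {R t : ℝ} (hR : 10 ≤ R) (h0 : 0 < t) (h1 : t < π) : TI JN PhM 1 0 R t := by
  have hR0 : 0 < R := by linarith
  set p := pf R with hp
  set d := df R with hd
  set e := ef R with he
  set m := mf t with hm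
  have hp0 : 0 < p := pf_pos R
  have hp1 : p ≤ 1 := pf_le_one R
  have hm0 : 0 ≤ m := mf_nonneg t
  have hm1 : m ≤ 8 / 15 := mf_le t
  have hpm : p * m ≤ 8 / 15 := by nlinarith
  have hpm0 : 0 ≤ p * m := by positivity
  have hj0 : 7 / 15 ≤ 1 - p * m := by linarith
  have hj : 0 < 1 - p * m := by linarith
  have hs0 : 0 < sin t := sin_pos_of_pos_of_lt_pi h0 h1
  have hs1 : sin t ≤ 1 := sin_le_one t
  have hG0 : 1 / 5 ≤ Gam t := Gam_ge h0.le h1.le
  have hG1 : Gam t ≤ 3 / 2 := Gam_le h0.le h1.le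
  have hP : Pf R = R * p := Pf_eq R
  have hJ : JN R t = R * (1 - p * m) := by
    unfold JN
    rw [hP]
    ring
  have hf : PhM R t = bb + aa * (R * (sin t + p * Gam t)) := by
    unfold PhM
    rw [hP]
    ring
  have haa := aa_pos
  have hbb := bb_pos
  have haa1 := aa_le
  have he0 : 0 ≤ e := ef_nonneg R
  have he1 : e ≤ 9 * cc * p := ef_le R
  have hd0 : 0 ≤ d := df_nonneg R
  have hd1 : d ≤ cc * p := df_le R
  have hde : d^2 ≤ 2 * cc * p * e := df_sq_le R
  have hcc : cc = 1 / 10000000 := rfl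
  have hJpos : 0 < JN R t := by
    rw [hJ]
    positivity
  have hTh0 : 0 < sin t + p * Gam t := by positivity
  have hfpos : 0 < PhM R t := by
    rw [hf]
    positivity
  have hK : D11 JN R t / JN R t = m * e / (R^2 * (1 - p * m)) := by
    rw [JN_D11 hR0, hJ, div_div]
    congr 1
    ring
  have hK0 : 0 ≤ m * e / (R^2 * (1 - p * m)) := by positivity
  -- the general inequality with a parameter beta
  obtain ⟨β, hβ0, hβ1, hβ2⟩ : ∃ β : ℝ, 0 ≤ β ∧ β ≤ 1 / 1000 ∧ e * β = e * (1000 / R) := by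
    rcases le_total R RP with h | h
    · refine ⟨0, le_rfl, by norm_num, ?_⟩
      have : e = 0 := ef_zero hR0 h
      rw [this]
      ring
    · refine ⟨1000 / R, by positivity, ?_, rfl⟩
      have hRP : RP = 1000000 := rfl
      rw [div_le_div_iff₀ hR0 (by norm_num)]
      rw [hRP] at h
      linarith
  refine ⟨hJpos, hfpos, ?_, ?_, ?_, ?_⟩
  · rw [hK]
    have h1 : m * e / (R^2 * (1 - p * m)) ≤ 1 := by
      rw [div_le_one (by positivity)]
      have h2 : m * e ≤ 1 := by
        have : e ≤ 1 := by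
          rw [hcc] at he1
          nlinarith
        nlinarith
      have h3 : (1:ℝ) ≤ R^2 * (1 - p * m) := by nlinarith
      linarith
    linarith
  · rw [hK]
    linarith
  · intro v w
    have key := mid_matrix h0 h1 hp0 hp1 hd0 hd1 he0 he1 hde hβ0 hβ1 v w
    rw [hK, JN_D1 hR0, JN_D2, PhM_D1 hR0, PhM_D11 hR0, PhM_D2, PhM_D22, PhM_D12 hR0, hJ, hf, hP,
      bb_eq_aa]
    rw [← hp, ← hd, ← he, ← hm]
    have hjne : 1 - p * m ≠ 0 := hj.ne'
    have hRne : R ≠ 0 := hR0.ne'
    have hmt : mf t = m := rfl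
    unfold sx at key
    rw [hmt] at key
    -- difference of the two sides is `aa / R * key`
    have hid : (-(aa * (Gam t * e) / R)) * v ^ 2
        + 2 * ((aa * (cos t + Gam1 t * (p - d))
          - (1 - m * (p - d)) / (R * (1 - p * m)) * (aa * (R * cos t + Gam1 t * (R * p))))
            / (R * (1 - p * m))) * v * w
        + ((aa * (-(R * sin t) + Gam2 t * (R * p))
          - -(deriv mf t * (R * p)) / (R * (1 - p * m)) * (aa * (R * cos t + Gam1 t * (R * p))))
            / (R * (1 - p * m)) ^ 2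
          + (1 - m * (p - d)) / (R * (1 - p * m)) * (aa * (sin t + Gam t * (p - d)))) * w ^ 2
        - (-(m * e / (R ^ 2 * (1 - p * m))) / 2 + 0)
          * (1000 * aa + aa * (R * (sin t + p * Gam t))) * (v ^ 2 + w ^ 2)
        = aa / R * ((-e * Gam t + m / (2 * (1 - p * m)) * (e * (sin t + p * Gam t) + e * (1000 / R)))
            * v ^ 2
          - 2 * (d / (1 - p * m) ^ 2 * (Gam1 t + m * cos t)) * v * w
          + ((-(sin t) + p * Gam2 t) / (1 - p * m)^2
              + p * deriv mf t * (cos t + p * Gam1 t) / (1 - p * m)^3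
            + (1 + m * d / (1 - p * m)) * (sin t + p * Gam t - d * Gam t)
            + m / (2 * (1 - p * m)) * (e * (sin t + p * Gam t) + e * (1000 / R))) * w ^ 2) := by
      field_simp
      ring
    have hid2 : (-e * Gam t + m / (2 * (1 - p * m)) * (e * (sin t + p * Gam t) + e * (1000 / R)))
            * v ^ 2
          - 2 * (d / (1 - p * m) ^ 2 * (Gam1 t + m * cos t)) * v * w
          + ((-(sin t) + p * Gam2 t) / (1 - p * m)^2
              + p * deriv mf t * (cos t + p * Gam1 t) / (1 - p * m)^3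
            + (1 + m * d / (1 - p * m)) * (sin t + p * Gam t - d * Gam t)
            + m / (2 * (1 - p * m)) * (e * (sin t + p * Gam t) + e * (1000 / R))) * w ^ 2 ≤ 0 := by
      rw [← hβ2]
      refine le_of_eq_of_le ?_ key
      ring
    have h3 : aa / R * ((-e * Gam t
            + m / (2 * (1 - p * m)) * (e * (sin t + p * Gam t) + e * (1000 / R)))
            * v ^ 2
          - 2 * (d / (1 - p * m) ^ 2 * (Gam1 t + m * cos t)) * v * w
          + ((-(sin t) + p * Gam2 t) / (1 - p * m)^2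
              + p * deriv mf t * (cos t + p * Gam1 t) / (1 - p * m)^3
            + (1 + m * d / (1 - p * m)) * (sin t + p * Gam t - d * Gam t)
            + m / (2 * (1 - p * m)) * (e * (sin t + p * Gam t) + e * (1000 / R))) * w ^ 2) ≤ 0 :=
      mul_nonpos_of_nonneg_of_nonpos (by positivity) hid2
    rw [← hid] at h3
    linarith
  · have hG1b : |Gam1 t + mf t * cos t| ≤ 6 := mid_RX0 h0 h1
    rw [PhM_D1 hR0, PhM_D2, hJ, hP, ← hp, ← hd]
    have hjne : 1 - p * m ≠ 0 := hj.ne'
    have hRne : R ≠ 0 := hR0.ne'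
    have hcos : |cos t| ≤ 1 := abs_cos_le_one t
    have e1 : (aa * (R * cos t + Gam1 t * (R * p))) ^ 2 / (R * (1 - p * m)) ^ 2
        = (aa * ((cos t + Gam1 t * p) / (1 - p * m))) ^ 2 := by
      field_simp
    rw [e1]
    have hcos2 := abs_le.1 hcos
    have hG2 := abs_le.1 hG1b
    rw [← hm] at hG2
    have hb1 : |cos t + Gam1 t * p| ≤ 8 := by
      rw [abs_le]
      have hmc1 : m * cos t ≤ 1 := by nlinarith
      have hmc2 : -1 ≤ m * cos t := by nlinarith
      constructor
      · nlinarith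
      · nlinarith
    have hb2 : |(cos t + Gam1 t * p) / (1 - p * m)| ≤ 20 := by
      rw [abs_div, abs_of_pos hj, div_le_iff₀ hj]
      linarith
    have hb3 : |aa * ((cos t + Gam1 t * p) / (1 - p * m))| ≤ 1 / 10 := by
      rw [abs_mul, abs_of_pos haa]
      nlinarith [abs_nonneg ((cos t + Gam1 t * p) / (1 - p * m))]
    have hb4 : (aa * ((cos t + Gam1 t * p) / (1 - p * m))) ^ 2 ≤ 1 / 100 := by
      have := abs_le.1 hb3
      nlinarith
    have hb5 : |aa * (sin t + Gam t * (p - d))| ≤ 1 / 10 := by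
      have hd2 : d ≤ 1 := by
        rw [hcc] at hd1
        nlinarith
      have h5 : |sin t + Gam t * (p - d)| ≤ 5 := by
        rw [abs_le]
        constructor
        · nlinarith
        · nlinarith
      rw [abs_mul, abs_of_pos haa]
      nlinarith [abs_nonneg (sin t + Gam t * (p - d))]
    have hb6 : (aa * (sin t + Gam t * (p - d))) ^ 2 ≤ 1 / 100 := by
      have := abs_le.1 hb5
      nlinarith
    linarith

end Pool.Agent.MP39e402
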