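import Pool.Agent.Lib.MP_39e402_gt.LComp

/-! # MP_39e402, module LGrad: gradient bounds from concavity -/

open Real Set Filter Topology MeasureTheory
open scoped ContDiff

noncomputable section

namespace Pool.Agent.MP39e402

/-- supporting plane of a differentiable concave function -/
theorem lgrad_support {S : Set (ℝ × ℝ)} {F : ℝ × ℝ → ℝ} (hf : ConcaveOn ℝ S F) {p q : ℝ × ℝ}
    (hp : p ∈ S) (hq : q ∈ S) {F' : ℝ × ℝ →L[ℝ] ℝ} (hd : HasFDerivAt F F' p) :
    F q ≤ F p + F' (q - p) := by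
  have hlin : HasDerivAt (fun t : ℝ => p + t • (q - p)) (q - p) 0 := by
    have h1 := ((hasDerivAt_id (0 : ℝ)).smul_const (q - p)).const_add p
    rw [one_smul] at h1
    exact h1
  have hder : HasDerivAt (fun t : ℝ => F (p + t • (q - p))) (F' (q - p)) 0 := by
    have h1 : HasFDerivAt F F' (p + (0 : ℝ) • (q - p)) := by
      rw [zero_smul, add_zero]
      exact hd
    exact h1.comp_hasDerivAt 0 hlin
  have h1 := hder.tendsto_slope_zero_right
  have h2 : F q - F p ≤ F' (q - p) := by
    refine ge_of_tendsto h1 ?_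
    filter_upwards [Ioo_mem_nhdsGT (show (0 : ℝ) < 1 from one_pos)] with t ht
    have h3 := hf.2 hp hq (show 0 ≤ 1 - t by linarith [ht.2]) ht.1.le (by ring)
    have h4 : (1 - t) • p + t • q = p + t • (q - p) := by
      rw [sub_smul, one_smul, smul_sub]
      abel
    rw [h4] at h3
    simp only [smul_eq_mul] at h3
    rw [zero_add, zero_smul, add_zero, smul_eq_mul, ← div_eq_inv_mul, le_div_iff₀ ht.1]
    linarith
  linarith

/-- the supporting plane in coordinates -/
theorem lgrad_support2 {S : Set (ℝ × ℝ)} {f : ℝ → ℝ → ℝ} (hf : ConcaveOn ℝ S (fun p => f p.1 p.2))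
    {x y x' y' : ℝ} (hp : (x, y) ∈ S) (hq : (x', y') ∈ S)
    (hd : DifferentiableAt ℝ (fun p : ℝ × ℝ => f p.1 p.2) (x, y)) :
    f x' y' ≤ f x y + (D1 f x y * (x' - x) + D2 f x y * (y' - y)) := by
  have h1 := lgrad_support hf hp hq hd.hasFDerivAt
  have h2 : fderiv ℝ (fun p : ℝ × ℝ => f p.1 p.2) (x, y) ((x', y') - (x, y)) =
      D1 f x y * (x' - x) + D2 f x y * (y' - y) := by
    have h3 : ((x', y') - (x, y) : ℝ × ℝ) = (x' - x) • ((1 : ℝ), (0 : ℝ)) +
        (y' - y) • ((0 : ℝ), (1 : ℝ)) := by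
      ext <;> simp
    rw [h3, map_add, map_smul, map_smul, ← lcomp_D1_eq hd, ← lcomp_D2_eq hd, smul_eq_mul,
      smul_eq_mul]
    ring
  rw [h2] at h1
  exact h1

/-- elementary conclusion: `t (a² + b²) ≤ y` for all `t < y / b` -/
private theorem lgrad_concl {a b y : ℝ} (hy : 0 < y) (hb : 0 < b)
    (h : ∀ t : ℝ, 0 < t → t * b < y → t * (a ^ 2 + b ^ 2) ≤ y) : a ^ 2 + b ^ 2 ≤ 1 := by
  have h1 : y / b * (a ^ 2 + b ^ 2) ≤ y := by
    have hpos : 0 < y / b := div_pos hy hb
    have h2 : Tendsto (fun t : ℝ => t * (a ^ 2 + b ^ 2)) (𝓝[<] (y / b))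
        (𝓝 (y / b * (a ^ 2 + b ^ 2))) :=
      (continuous_id.mul continuous_const).continuousAt.mono_left nhdsWithin_le_nhds
    refine le_of_tendsto h2 ?_
    filter_upwards [Ioo_mem_nhdsLT hpos] with t ht
    refine h t ht.1 ?_
    have := ht.2
    rwa [lt_div_iff₀ hb] at this
  have h2 : a ^ 2 + b ^ 2 ≤ b := by
    rw [div_mul_eq_mul_div, div_le_iff₀ hb] at h1
    exact le_of_mul_le_mul_left h1 hy
  have h3 : b ^ 2 ≤ b := by
    have := sq_nonneg a
    linarith
  have h4 : b ≤ 1 := by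
    by_contra hcon
    rw [not_le] at hcon
    nlinarith
  linarith

/-! ## gradient bounds from concavity -/

/-- GRAD near an axis: `f` concave on a convex open set containing the rectangle
`[x-2y, x+2y] × (0,3y]`, `0 ≤ f ≤ y` there.
(`|f_x| ≤ f/(2y) ≤ 1/2`, `-1/2 ≤ f_y ≤ 1`; if `f_y > 1/2` go from `(x,y)` in direction `-∇f` to the axis.) -/
theorem grad_le_of_concave_axis {S : Set (ℝ × ℝ)} (hS : IsOpen S) {f : ℝ → ℝ → ℝ}
    (hf : ConcaveOn ℝ S (fun p => f p.1 p.2)) (hd : DifferentiableOn ℝ (fun p : ℝ × ℝ => f p.1 p.2) S)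
    (hb : ∀ p ∈ S, 0 ≤ f p.1 p.2 ∧ f p.1 p.2 ≤ p.2) {x y : ℝ} (hy : 0 < y)
    (hr : ∀ x' y' : ℝ, |x' - x| ≤ 2 * y → 0 < y' → y' ≤ 3 * y → (x', y') ∈ S) :
    (D1 f x y)^2 + (D2 f x y)^2 ≤ 1 := by
  have hxy : (x, y) ∈ S := hr x y (by rw [sub_self, abs_zero]; linarith) hy (by linarith)
  have hda : DifferentiableAt ℝ (fun p : ℝ × ℝ => f p.1 p.2) (x, y) :=
    (hd _ hxy).differentiableAt (hS.mem_nhds hxy)
  have hfy : f x y ≤ y := (hb _ hxy).2
  have hsup : ∀ x' y' : ℝ, |x' - x| ≤ 2 * y → 0 < y' → y' ≤ 3 * y →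
      0 ≤ f x y + (D1 f x y * (x' - x) + D2 f x y * (y' - y)) := by
    intro x' y' h1 h2 h3
    have hq := hr x' y' h1 h2 h3
    exact (hb _ hq).1.trans (lgrad_support2 hf hxy hq hda)
  set a := D1 f x y with ha
  set b := D2 f x y with hbd
  have hax1 : 0 ≤ f x y + 2 * y * a := by
    have h1 := hsup (x + 2 * y) y (by rw [add_sub_cancel_left, abs_of_pos (by linarith)]) hy
      (by linarith)
    have h2 : a * (x + 2 * y - x) + b * (y - y) = 2 * y * a := by ring
    rw [h2] at h1
    exact h1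
  have hax2 : 0 ≤ f x y - 2 * y * a := by
    have h1 := hsup (x - 2 * y) y (by
      have : x - 2 * y - x = -(2 * y) := by ring
      rw [this, abs_neg, abs_of_pos (by linarith)]) hy (by linarith)
    have h2 : a * (x - 2 * y - x) + b * (y - y) = -(2 * y * a) := by ring
    rw [h2] at h1
    linarith
  have ha1 : a ≤ 1 / 2 := by
    by_contra hcon
    rw [not_le] at hcon
    have : y * (1 / 2) < y * a := mul_lt_mul_of_pos_left hcon hy
    linarith
  have ha2 : -(1 / 2) ≤ a := by
    by_contra hcon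
    rw [not_le] at hcon
    have : y * a < y * (-(1 / 2)) := mul_lt_mul_of_pos_left hcon hy
    linarith
  have hb1 : -(1 / 2) ≤ b := by
    have h1 := hsup x (3 * y) (by rw [sub_self, abs_zero]; linarith) (by linarith) le_rfl
    have h2 : a * (x - x) + b * (3 * y - y) = 2 * y * b := by ring
    rw [h2] at h1
    by_contra hcon
    rw [not_le] at hcon
    have : y * b < y * (-(1 / 2)) := mul_lt_mul_of_pos_left hcon hy
    linarith
  by_cases hb2 : b ≤ 1 / 2
  · nlinarith
  · rw [not_le] at hb2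
    have hb0 : 0 < b := by linarith
    refine lgrad_concl hy hb0 ?_
    intro t ht htb
    have ht2 : t < 2 * y := by
      by_contra hcon
      rw [not_lt] at hcon
      nlinarith
    have h1 := hsup (x - t * a) (y - t * b) (by
      have h3 : x - t * a - x = -(t * a) := by ring
      rw [h3, abs_neg, abs_mul, abs_of_pos ht]
      have h4 : |a| ≤ 1 / 2 := abs_le.mpr ⟨ha2, ha1⟩
      have h5 : t * |a| ≤ t * (1 / 2) := mul_le_mul_of_nonneg_left h4 ht.le
      linarith) (by linarith) (by nlinarith)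
    have h2 : a * (x - t * a - x) + b * (y - t * b - y) = -(t * (a ^ 2 + b ^ 2)) := by ring
    rw [h2] at h1
    linarith

/-- GRAD on the quadrant: `f` concave on `Qd`, `0 ≤ f ≤ min x y`. -/
theorem grad_le_of_concave_Qd {f : ℝ → ℝ → ℝ}
    (hf : ConcaveOn ℝ Qd (fun p => f p.1 p.2)) (hd : DifferentiableOn ℝ (fun p : ℝ × ℝ => f p.1 p.2) Qd)
    (hb : ∀ x y : ℝ, 0 < x → 0 < y → 0 ≤ f x y ∧ f x y ≤ x ∧ f x y ≤ y) {x y : ℝ} (hx : 0 < x) (hy : 0 < y) :
    (D1 f x y)^2 + (D2 f x y)^2 ≤ 1 := by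
  have hxy : (x, y) ∈ Qd := ⟨hx, hy⟩
  have hda : DifferentiableAt ℝ (fun p : ℝ × ℝ => f p.1 p.2) (x, y) :=
    (hd _ hxy).differentiableAt (Qd_isOpen.mem_nhds hxy)
  have hsup : ∀ x' y' : ℝ, 0 < x' → 0 < y' →
      0 ≤ f x y + (D1 f x y * (x' - x) + D2 f x y * (y' - y)) := by
    intro x' y' h1 h2
    have hq : (x', y') ∈ Qd := ⟨h1, h2⟩
    exact (hb x' y' h1 h2).1.trans (lgrad_support2 hf hxy hq hda)
  set a := D1 f x y with ha
  set b := D2 f x y with hbd
  have hf0 := (hb x y hx hy).1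
  have hfx := (hb x y hx hy).2.1
  have hfy := (hb x y hx hy).2.2
  have ha0 : 0 ≤ a := by
    by_contra hcon
    rw [not_le] at hcon
    have h1 := hsup (x + (f x y + 1) / (-a)) y (by
      have : 0 < (f x y + 1) / (-a) := div_pos (by linarith) (by linarith)
      linarith) hy
    have hne : a ≠ 0 := hcon.ne
    have h2 : a * (x + (f x y + 1) / (-a) - x) + b * (y - y) = -(f x y + 1) := by
      rw [add_sub_cancel_left, sub_self, mul_zero, add_zero, div_neg, mul_neg,
        mul_div_cancel₀ _ hne]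
    rw [h2] at h1
    linarith
  have hb0 : 0 ≤ b := by
    by_contra hcon
    rw [not_le] at hcon
    have h1 := hsup x (y + (f x y + 1) / (-b)) hx (by
      have : 0 < (f x y + 1) / (-b) := div_pos (by linarith) (by linarith)
      linarith)
    have hne : b ≠ 0 := hcon.ne
    have h2 : a * (x - x) + b * (y + (f x y + 1) / (-b) - y) = -(f x y + 1) := by
      rw [add_sub_cancel_left, sub_self, mul_zero, zero_add, div_neg, mul_neg,
        mul_div_cancel₀ _ hne]
    rw [h2] at h1
    linarith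
  have hmove : ∀ t : ℝ, t * a < x → t * b < y → t * (a ^ 2 + b ^ 2) ≤ f x y := by
    intro t h1 h2
    have h3 := hsup (x - t * a) (y - t * b) (by linarith) (by linarith)
    have h4 : a * (x - t * a - x) + b * (y - t * b - y) = -(t * (a ^ 2 + b ^ 2)) := by ring
    rw [h4] at h3
    linarith
  by_cases hcase : y * a ≤ x * b
  · -- the horizontal axis is reached first
    rcases lt_or_eq_of_le hb0 with hbp | hbp
    · refine lgrad_concl hy hbp ?_
      intro t ht htb
      refine (hmove t ?_ htb).trans hfy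
      have h1 : t * b * a ≤ t * b * a := le_rfl
      by_contra hcon
      rw [not_lt] at hcon
      have h2 : x * b ≤ t * a * b := mul_le_mul_of_nonneg_right hcon hbp.le
      have h3 : t * b * a ≤ y * a := mul_le_mul_of_nonneg_right htb.le ha0
      have h4 : y * a = t * b * a := by nlinarith
      have h5 : a = 0 := by
        by_contra hne
        have := mul_right_cancel₀ hne h4
        linarith
      rw [h5, mul_zero] at hcon
      linarith
    · rw [← hbp, mul_zero] at hcase
      have h5 : a = 0 := by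
        by_contra hne
        have hap : 0 < a := lt_of_le_of_ne ha0 (Ne.symm hne)
        have := mul_pos hy hap
        linarith
      rw [← hbp, h5]
      norm_num
  · rw [not_le] at hcase
    have hap : 0 < a := by
      by_contra hcon
      have h5 : a = 0 := le_antisymm (not_lt.mp hcon) ha0
      rw [h5, mul_zero] at hcase
      have := mul_nonneg hx.le hb0
      linarith
    rw [add_comm]
    refine lgrad_concl hx hap ?_
    intro t ht hta
    rw [add_comm]
    refine (hmove t hta ?_).trans hfx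
    by_contra hcon
    rw [not_lt] at hcon
    have h2 : y * a ≤ t * b * a := mul_le_mul_of_nonneg_right hcon hap.le
    have h3 : t * a * b ≤ x * b := mul_le_mul_of_nonneg_right hta.le hb0
    nlinarith

end Pool.Agent.MP39e402
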