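import Pool.Agent.Lib.MP_39e402_gt.LPhiT
import Pool.Agent.Lib.MP_39e402_gt.LGrad

/-! # MP_39e402, module LPhiTP: comparison of `PhiT` with the axis profile, type I conditions.
`PhiT_eq_PAx`: `x = R cos ϑ`, `y = R sin ϑ`, `u = 1 + lam R (sin θ + Γ) ≤ 1 + R/400`.  If `θ ≤ π/40`:
`ϑ = θ`, `y = R sin θ`, `x ≥ 4u`, `x ≥ 10 y`: `PhiT = PhiT1 x y = PAx ...` literally.  If `π/40 ≤ θ ≤ π/2`: both
`y, x, R sin θ ≥ 4u`, both sides are `bb * u`.  `θ ≥ π/2`: symmetry (`PhiT_comm_near`, `vth_symm`). -/

open Real Set Filter Topology MeasureTheory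
open scoped ContDiff

noncomputable section

namespace Pool.Agent.MP39e402

private lemma LPhiTP_bb : 0 < bb ∧ bb ≤ 11 / 5 := by
  have h2 : (0:ℝ) < √2 := Real.sqrt_pos.2 (by norm_num)
  constructor
  · unfold bb
    positivity
  · unfold bb
    rw [div_le_iff₀ h2]
    have h3 : (15 / 11 : ℝ) ≤ √2 := by
      apply Real.le_sqrt_of_sq_le
      norm_num
    linarith only [h3]

private lemma LPhiTP_Hf {u : ℝ} (hu : 0 < u) : Hf (3 * u) (3 * u) = bb * u := by
  have h2 : (0:ℝ) < √2 := Real.sqrt_pos.2 (by norm_num)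
  have h1 : √((3 * u)^2 + (3 * u)^2) = 3 * u * √2 := by
    rw [show (3 * u)^2 + (3 * u)^2 = (3 * u)^2 * 2 by ring, Real.sqrt_mul (sq_nonneg _),
      Real.sqrt_sq (by positivity)]
  unfold Hf bb
  rw [h1]
  field_simp

private lemma LPhiTP_far {a u s : ℝ} (hu : 0 < u) (hs : 0 < s) (h : 4 * u ≤ a) :
    a - mxf (a - bb * u) (a - Ff a s) = bb * u := by
  have ha : 0 < a := by linarith
  have h1 := Ff_lt ha hs
  have h2 := Ff_gt ha hs
  have h3 := LPhiTP_bb
  have h4 : bb * u ≤ 11 / 5 * (a / 4) := by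
    apply mul_le_mul h3.2 (by linarith) hu.le (by norm_num)
  rw [mxf_eq_left (by linarith) (by linarith only [h1, h2, h4])]
  ring

/-- for `R ≥ 1000`, `PhiT` in polar coordinates equals the axis profile -/
theorem PhiT_eq_PAx {R t : ℝ} (hR : 1000 ≤ R) (h0 : 0 < t) (h1 : t < π) :
    PhiT (R * cos (vth t)) (R * sin (vth t))
      = PAx (R * sin t) (1 / lam + Gam t * R) (1 + lam / 10 * |R * cos t|) := by
  have hR0 : 0 < R := by linarith
  have hpi := Real.pi_gt_three
  have hpi2 := Real.pi_lt_four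
  have hpi3 : π < 3.15 := Real.pi_lt_d2
  have hNT := NT_polar hR0 h0 h1
  obtain ⟨hv0, hv1⟩ := vth_mem h0 h1
  have hcos : 0 < cos (vth t) := cos_pos_of_mem_Ioo ⟨by linarith, hv1⟩
  have hsin : 0 < sin (vth t) := sin_pos_of_pos_of_lt_pi hv0 (by linarith)
  have hx0 : 0 < R * cos (vth t) := mul_pos hR0 hcos
  have hy0 : 0 < R * sin (vth t) := mul_pos hR0 hsin
  obtain ⟨u, hu⟩ : ∃ u, u = 1 + lam * (R * (sin t + Gam t)) := ⟨_, rfl⟩
  have hlam : lam = 1 / 1000 := rfl
  have hG1 : 1 / 5 ≤ Gam t := Gam_ge h0.le h1.le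
  have hG2 : Gam t ≤ 3 / 2 := Gam_le h0.le h1.le
  have hst : 0 < sin t := sin_pos_of_pos_of_lt_pi h0 h1
  have hst1 : sin t ≤ 1 := sin_le_one t
  have hu1 : 1 ≤ u := by
    rw [hu, hlam]
    have : 0 ≤ R * (sin t + Gam t) := by positivity
    linarith only [this]
  have hu0 : 0 < u := by linarith
  have hu2 : u ≤ 1 + R / 400 := by
    rw [hu, hlam]
    have : R * (sin t + Gam t) ≤ R * (5 / 2) := by
      apply mul_le_mul_of_nonneg_left _ hR0.le
      linarith
    linarith
  have hu4 : 4 * u ≤ R / 20 := by linarith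
  have huQ : lam * (R * sin t + (1 / lam + Gam t * R)) = u := by
    rw [hu, hlam]
    ring
  have huN : 1 + lam * NT (R * cos (vth t)) (R * sin (vth t)) = u := by
    rw [hNT, hu]
  rcases le_total t (π / 40) with ht | ht
  · -- near the axis `y = 0`
    have hv : vth t = t := vth_left ht
    have htt : t ≤ 8 / 100 := by linarith
    have hs1 : sin t ≤ 8 / 100 := (sin_le h0.le).trans htt
    have hc1 : 9 / 10 ≤ cos t := by
      have := one_sub_sq_div_two_le_cos (x := t)
      nlinarith only [h0, hpi, hpi3, ht, hv, hv1, this]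
    rw [hv] at hx0 hy0 huN ⊢
    rw [PhiT_eq_PhiT1 hx0 hy0 (by nlinarith only [h0, hR, hc1, hpi3, hs1, hst1, ht])]
    have hxu : 4 * u ≤ R * cos t := by nlinarith only [h0, hR, hc1, hpi3, ht, hu2]
    unfold PhiT1 PAx
    rw [huN, huQ, Zf_eq_three hu0 hxu, abs_of_pos hx0]
  · rcases le_total t (π - π / 40) with ht' | ht'
    · -- middle
      have hsin20 : ∀ r : ℝ, π / 40 ≤ r → r ≤ π / 2 → 1 / 20 ≤ sin r := by
        intro r h2 h3
        have h4 : 2 / π * (π / 40) ≤ sin (π / 40) :=
          Real.mul_le_sin (by positivity) (by linarith only [hpi, hpi3])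
        have h5 : sin (π / 40) ≤ sin r :=
          Real.sin_le_sin_of_le_of_le_pi_div_two (by linarith) h3 h2
        have h6 : 2 / π * (π / 40) = 1 / 20 := by field_simp; norm_num
        linarith only [h4, h5, h6]
      have hvl : π / 40 ≤ vth t := by
        have h2 := vth_strictMono.monotone ht
        rwa [vth_left le_rfl] at h2
      have hvr : vth t ≤ π / 2 - π / 40 := by
        have h2 := vth_strictMono.monotone ht'
        rw [vth_right le_rfl] at h2
        linarith only [h2]
      have hy4 : 4 * u ≤ R * sin (vth t) := by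
        have h2 := hsin20 (vth t) hvl (by linarith)
        have h3 : R * (1 / 20) ≤ R * sin (vth t) := mul_le_mul_of_nonneg_left h2 hR0.le
        linarith only [h3, hR, hpi, hpi3, hu2]
      have hx4 : 4 * u ≤ R * cos (vth t) := by
        have h2 := hsin20 (π / 2 - vth t) (by linarith only [hvr]) (by linarith only [hv0])
        rw [Real.sin_pi_div_two_sub] at h2
        have h3 : R * (1 / 20) ≤ R * cos (vth t) := mul_le_mul_of_nonneg_left h2 hR0.le
        linarith only [h3, hR, hpi, hpi3, hu2]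
      have hst20 : 1 / 20 ≤ sin t := by
        rcases le_total t (π / 2) with h2 | h2
        · exact hsin20 t ht h2
        · rw [← Real.sin_pi_sub]
          exact hsin20 (π - t) (by linarith only [ht']) (by linarith)
      have hY4 : 4 * u ≤ R * sin t := by
        have h3 : R * (1 / 20) ≤ R * sin t := mul_le_mul_of_nonneg_left hst20 hR0.le
        linarith only [h3, hR, hpi, hpi3, hu2]
      have hP1 : PhiT1 (R * cos (vth t)) (R * sin (vth t)) = bb * u := by
        unfold PhiT1
        rw [huN, Zf_eq_three hu0 hy4, Zf_eq_three hu0 hx4, LPhiTP_Hf hu0]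
        exact LPhiTP_far hu0 (by rw [hlam]; positivity) hy4
      have hP : PhiT (R * cos (vth t)) (R * sin (vth t)) = bb * u := by
        unfold PhiT
        rw [hP1]
        exact LPhiTP_far hu0 (by rw [hlam]; positivity) hx4
      rw [hP, PAx_far (by positivity) (by rw [hlam]; positivity) (by rw [hlam]; positivity)
        (by rw [huQ]; exact hY4)]
      rw [← huQ]
      unfold aa
      ring
    · -- near the axis `x = 0`
      have hv : vth t = π / 2 - (π - t) := vth_right ht'
      have htt : π - t ≤ 8 / 100 := by linarith only [h1, hpi3, ht']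
      have hs1 : sin t ≤ 8 / 100 := by
        rw [← Real.sin_pi_sub]
        exact (sin_le (by linarith)).trans htt
      have hc1 : 9 / 10 ≤ -cos t := by
        rw [← Real.cos_pi_sub]
        have h2 := one_sub_sq_div_two_le_cos (x := π - t)
        have h3 : 0 ≤ π - t := by linarith only [h1]
        nlinarith only [h1, h2, hpi, hpi3, ht']
      have hcv : cos (vth t) = sin t := by
        rw [hv, Real.cos_pi_div_two_sub, Real.sin_pi_sub]
      have hsv : sin (vth t) = -cos t := by
        rw [hv, Real.sin_pi_div_two_sub, Real.cos_pi_sub]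
      rw [NT_comm hx0 hy0] at huN
      rw [hcv] at hx0 huN ⊢
      rw [hsv] at hy0 huN ⊢
      rw [PhiT_comm_near hx0 hy0 (by nlinarith only [h1, hR, hc1, hpi3, hs1, hst1, ht'])]
      have hxu : 4 * u ≤ R * -cos t := by nlinarith only [h1, hR, hc1, hpi3, ht', hu2]
      have habs : |R * cos t| = R * -cos t := by
        rw [abs_of_neg (by linarith only [h1, hpi3, ht', hu1, hxu])]
        ring
      unfold PhiT1 PAx
      rw [huN, huQ, Zf_eq_three hu0 hxu, habs]

/-- type I conditions on the quadrant (flat base metric) -/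
theorem PhiT_TI {x y : ℝ} (hx : 0 < x) (hy : 0 < y) : TI (fun _ _ => 1) PhiT 0 0 x y := by
  have hD1 : D1 (fun _ _ => (1:ℝ)) = fun _ _ => 0 := by
    funext a b
    exact deriv_const a (1:ℝ)
  have hD2 : D2 (fun _ _ => (1:ℝ)) = fun _ _ => 0 := by
    funext a b
    exact deriv_const b (1:ℝ)
  have hD11 : D11 (fun _ _ => (1:ℝ)) x y = 0 := by
    unfold D11
    rw [hD1]
    exact deriv_const x (0:ℝ)
  have hxy : ((x, y) : ℝ × ℝ) ∈ Qd := ⟨hx, hy⟩
  refine ⟨one_pos, PhiT_pos hx hy, ?_, ?_, ?_, ?_⟩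
  · rw [hD11]
    simp
  · rw [hD11]
    simp
  · intro v w
    have h := hess_nonpos_of_concaveOn Qd_isOpen PhiT_concaveOn
      (contDiffOn_infty.1 PhiT_contDiffOn 2) hxy v w
    rw [hD11, hD1, hD2]
    simp only [zero_div, neg_zero, zero_mul, sub_zero, div_one, one_pow, add_zero]
    exact h
  · have h := grad_le_of_concave_Qd PhiT_concaveOn
      (PhiT_contDiffOn.differentiableOn (by simp))
      (fun a b ha hb => ⟨(PhiT_pos ha hb).le, (PhiT_lt ha hb).1.le, (PhiT_lt ha hb).2.le⟩) hx hy
    simpa using h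

end Pool.Agent.MP39e402
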