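import Pool.Agent.Lib.MP_39e402_gt.LLocQ
import Pool.Agent.Lib.MP_39e402_gt.LPhiTP
import Pool.Agent.Lib.MP_39e402_gt.LMidTI

/-! # MP_39e402, module LLocP: properties of the one-hole profile `PhL`.
`PhL_of_ge` / `PhL_of_lt`: for `1000ε ≤ R ≤ 100000ε` both formulas agree: `PhiT_eq_PAx`, `PAx_mul`,
`Pf_self`, `QL_inner`, `sL_inner` (at `X = 0` both sides do not depend on `s`: or `Pf 0 = 0`).
`PhL_mid`, `PhL_far`: `PAx_far`.  Smoothness at `X = 0`, `R ≥ 1/2`: there `Y` is large, the cut-off factor is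
the same on both sides and `mnf .. = QN` for `R ≤ 1`, factor `0` for `R ≥ 1`. -/

open Real Set Filter Topology MeasureTheory
open scoped ContDiff

noncomputable section

namespace Pool.Agent.MP39e402

private theorem radpos {X Y : ℝ} (hY : 0 < Y) : 0 < rad X Y := by
  unfold rad
  apply Real.sqrt_pos.2
  positivity

private theorem radsq (X Y : ℝ) : rad X Y ^ 2 = X ^ 2 + Y ^ 2 := by
  unfold rad
  exact Real.sq_sqrt (by positivity)

private theorem absX_lt {X Y : ℝ} (hY : 0 < Y) : |X| < rad X Y := by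
  have h := radsq X Y
  have h1 := radpos (X := X) hY
  apply abs_lt_of_sq_lt_sq _ h1.le
  rw [h]
  nlinarith

private theorem Y_le {X Y : ℝ} (hY : 0 < Y) : Y ≤ rad X Y := by
  have h := radsq X Y
  have h1 := radpos (X := X) hY
  apply le_of_sq_le_sq _ h1.le
  rw [h]
  nlinarith [sq_nonneg X]

private theorem lampos : 0 < lam := by unfold lam; norm_num

private theorem zsd_ge {ph X : ℝ} (h : 0 < ph) : 4 * ph ≤ zsd ph X := by
  unfold zsd
  split_ifs
  · exact le_rfl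
  · linarith

private theorem zsd_le {ph X : ℝ} (h : 0 < ph) : zsd ph X ≤ 32 * ph := by
  unfold zsd
  split_ifs
  · linarith
  · exact le_rfl

private theorem ysd_pos (X : ℝ) : 0 < ysd X := by
  unfold ysd
  split_ifs <;> norm_num

private theorem ysd_le (X : ℝ) : ysd X ≤ 1 / 10 := by
  unfold ysd
  split_ifs <;> norm_num

private theorem ysd_ge (X : ℝ) : 1 / 20 ≤ ysd X := by
  unfold ysd
  split_ifs <;> norm_num

private theorem QN0 {ε X Y : ℝ} (h : 0 < ε) (hY : 0 < Y) : 0 < QN ε X Y :=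
  lt_trans (div_pos h lampos) (QN_pos h hY)

private theorem QN_le {ε X Y : ℝ} (h : 0 < ε) (hY : 0 < Y) :
    QN ε X Y ≤ 1000 * ε + 3 / 2 * rad X Y := by
  have h1 := radpos (X := X) hY
  have ha := ang_mem (X := X) hY
  have h5 := Gam_ge ha.1.le ha.2.le
  have h6 := Gam_le ha.1.le ha.2.le
  have h7 := Pf_le (div_pos h1 h)
  have h8 := Pf_pos (div_pos h1 h)
  have h9 : ε * Pf (rad X Y / ε) ≤ rad X Y := by
    have := mul_le_mul_of_nonneg_left h7 h.le
    rwa [mul_div_cancel₀ _ h.ne'] at this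
  have h10 : Gam (ang X Y) * (ε * Pf (rad X Y / ε)) ≤ 3 / 2 * rad X Y :=
    mul_le_mul h6 h9 (mul_pos h h8).le (by norm_num)
  unfold QN lam
  have h11 : ε / (1 / 1000) = 1000 * ε := by ring
  rw [h11]
  linarith

/-- the cut-off factor -/
private theorem fac_mem (X Y : ℝ) : 0 ≤ 1 - st (2 * rad X Y - 1) * st (Y / ysd X - 1) ∧
    1 - st (2 * rad X Y - 1) * st (Y / ysd X - 1) ≤ 1 := by
  have h1 := st_nonneg (2 * rad X Y - 1)
  have h2 := st_le_one (2 * rad X Y - 1)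
  have h3 := st_nonneg (Y / ysd X - 1)
  have h4 := st_le_one (Y / ysd X - 1)
  have h5 := mul_nonneg h1 h3
  have h6 := mul_le_one₀ h2 h3 h4
  constructor <;> linarith

private theorem QL_nonneg {ph X Y : ℝ} (h : 0 < ph) (hY : 0 < Y) : 0 ≤ QL ph X Y := by
  unfold QL
  have h1 := zsd_ge (X := X) h
  exact mul_nonneg (fac_mem X Y).1 (mnf_pos (QN0 (epsh_pos h) hY) (by linarith)).le

private theorem QL_le_QN {ph X Y : ℝ} (h : 0 < ph) (hY : 0 < Y) :
    QL ph X Y ≤ QN (epsh ph) X Y := by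
  unfold QL
  have h1 := zsd_ge (X := X) h
  have h2 : 0 < mnf (QN (epsh ph) X Y) (zsd ph X) := mnf_pos (QN0 (epsh_pos h) hY) (by linarith)
  have h3 : mnf (QN (epsh ph) X Y) (zsd ph X) ≤ QN (epsh ph) X Y := mnf_le_left (by linarith)
  have h4 := mul_le_mul_of_nonneg_right (fac_mem X Y).2 h2.le
  linarith

private theorem QL_le_zsd {ph X Y : ℝ} (h : 0 < ph) (hY : 0 < Y) :
    QL ph X Y ≤ zsd ph X := by
  unfold QL
  have h1 := zsd_ge (X := X) h
  have h2 : 0 < mnf (QN (epsh ph) X Y) (zsd ph X) := mnf_pos (QN0 (epsh_pos h) hY) (by linarith)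
  have h3 : mnf (QN (epsh ph) X Y) (zsd ph X) ≤ zsd ph X := mnf_le_right (by linarith)
  have h4 := mul_le_mul_of_nonneg_right (fac_mem X Y).2 h2.le
  linarith

private theorem sN_pos {ε X : ℝ} (h : 0 < ε) : 0 < sN ε X := by
  unfold sN
  rcases eq_or_ne X 0 with rfl | hX
  · unfold Pf
    simp [h]
  · have h1 := Pf_pos (div_pos (abs_pos.2 hX) h)
    have := lampos
    positivity

private theorem sL_pos {ph X : ℝ} (h : 0 < ph) : 0 < sL ph X := by
  unfold sL
  have h1 := zsd_ge (X := X) h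
  exact mnf_pos (sN_pos (epsh_pos h)) (mul_pos lampos (by linarith))

/-- for `R ≤ 1/2` there is no cut-off -/
private theorem QL_half {ph X Y : ℝ} (h : 0 < ph) (h1 : ph ≤ 1 / 2) (hY : 0 < Y)
    (hR : rad X Y ≤ 1 / 2) : QL ph X Y = QN (epsh ph) X Y := by
  unfold QL
  rw [st_zero (by linarith : 2 * rad X Y - 1 ≤ 0), zero_mul, sub_zero, one_mul,
    QL_inner h h1 hY (by linarith)]

private theorem QL_small {ph X Y : ℝ} (h : 0 < ph) (h1 : ph ≤ 1 / 2) (hY : 0 < Y)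
    (hR : rad X Y ≤ 100000 * epsh ph) :
    QL ph X Y = epsh ph / lam + Gam (ang X Y) * rad X Y := by
  have h2 := epsh_le h h1
  have h3 := epsh_pos h
  rw [QL_half h h1 hY (by linarith)]
  unfold QN
  rw [Pf_self (div_pos (radpos hY) h3) (by
    rw [div_le_iff₀ h3]; unfold RP; linarith), mul_div_cancel₀ _ h3.ne']

private theorem sL_small {ph X : ℝ} (h : 0 < ph) (h1 : ph ≤ 1 / 2)
    (hR : |X| ≤ 100000 * epsh ph) : sL ph X = epsh ph + lam / 10 * |X| := by
  have h2 := epsh_le h h1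
  have h3 := epsh_pos h
  rcases eq_or_ne X 0 with rfl | hX
  · have h4 : sN (epsh ph) 0 = epsh ph := by
      unfold sN Pf
      simp
    unfold sL
    rw [h4, abs_zero, mul_zero, add_zero]
    have h5 := zsd_ge (X := 0) h
    have hl := lampos
    apply mnf_eq_left (mul_pos hl (by linarith))
    unfold lam
    linarith
  · rw [sL_inner h h1 hX (by linarith)]
    unfold sN
    rw [Pf_self (div_pos (abs_pos.2 hX) h3) (by
      rw [div_le_iff₀ h3]; unfold RP; linarith), mul_div_cancel₀ _ h3.ne']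

/-! ## consistency and smoothness of the profile -/

private theorem consist {ph X Y : ℝ} (h : 0 < ph) (h1 : ph ≤ 1 / 2) (hY : 0 < Y)
    (hR0 : 1000 * epsh ph ≤ rad X Y) (hR : rad X Y ≤ 100000 * epsh ph) :
    PAx Y (QL ph X Y) (sL ph X) = epsh ph * PhiT (rad X Y / epsh ph * cos (vth (ang X Y)))
      (rad X Y / epsh ph * sin (vth (ang X Y))) := by
  have h3 := epsh_pos h
  have ha := ang_mem (X := X) hY
  obtain ⟨e1, e2⟩ := polar_eq (X := X) hY
  rw [PhiT_eq_PAx (by rw [le_div_iff₀ h3]; exact hR0) ha.1 ha.2, ← PAx_mul h3,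
    QL_small h h1 hY hR, sL_small h h1 ((absX_lt hY).le.trans hR)]
  have g1 : epsh ph * (rad X Y / epsh ph * sin (ang X Y)) = Y := by
    rw [← mul_assoc, mul_div_cancel₀ _ h3.ne', e2]
  have g2 : epsh ph * (1 / lam + Gam (ang X Y) * (rad X Y / epsh ph)) =
      epsh ph / lam + Gam (ang X Y) * rad X Y := by
    field_simp
  have g3 : epsh ph * (1 + lam / 10 * |rad X Y / epsh ph * cos (ang X Y)|) =
      epsh ph + lam / 10 * |X| := by
    have g4 : rad X Y / epsh ph * cos (ang X Y) = X / epsh ph := by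
      rw [div_mul_eq_mul_div, e1]
    rw [g4, abs_div, abs_of_pos h3]
    field_simp
  rw [g1, g2, g3]

theorem PhL_of_lt {ph X Y : ℝ} (h : 0 < ph) (h1 : ph ≤ 1 / 2) (hY : 0 < Y)
    (hR : rad X Y ≤ 100000 * epsh ph) :
    PhL ph X Y = epsh ph * PhiT (rad X Y / epsh ph * cos (vth (ang X Y)))
      (rad X Y / epsh ph * sin (vth (ang X Y))) := by
  have h3 := epsh_pos h
  unfold PhL
  split_ifs with h4
  · rfl
  · push Not at h4
    exact consist h h1 hY (by linarith) hR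

theorem PhL_of_ge {ph X Y : ℝ} (h : 0 < ph) (h1 : ph ≤ 1 / 2) (hY : 0 < Y)
    (hR : 1000 * epsh ph ≤ rad X Y) : PhL ph X Y = PAx Y (QL ph X Y) (sL ph X) := by
  have h3 := epsh_pos h
  unfold PhL
  split_ifs with h4
  · exact (consist h h1 hY hR (by linarith)).symm
  · rfl

/-- away from the axes, `R ≤ 1/2`: the middle profile -/
theorem PhL_mid {ph R t : ℝ} (h : 0 < ph) (h1 : ph ≤ 1 / 2) (hR : 1000 * epsh ph ≤ R) (hR1 : R ≤ 1 / 2)
    (h0 : π / 160 ≤ t) (ht : t ≤ π - π / 160) :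
    PhL ph (R * cos t) (R * sin t) = epsh ph * PhM (R / epsh ph) t := by
  have h3 := epsh_pos h
  have hR0 : 0 < R := by linarith
  have hpi := Real.pi_pos
  have hsin : 1 / 80 ≤ sin t := by
    have hs : ∀ s : ℝ, π / 160 ≤ s → s ≤ π / 2 → 1 / 80 ≤ sin s := by
      intro s hs1 hs2
      have h5 := Real.mul_le_sin (by linarith : 0 ≤ s) hs2
      have h6 : 1 / 80 ≤ 2 / π * s := by
        rw [div_mul_eq_mul_div, le_div_iff₀ hpi]
        linarith
      linarith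
    rcases le_total t (π / 2) with h5 | h5
    · exact hs t h0 h5
    · rw [← Real.sin_pi_sub]
      exact hs (π - t) (by linarith) (by linarith)
  have hY : 0 < R * sin t := mul_pos hR0 (by linarith)
  have hrad := rad_polar (t := t) hR0
  have hang := ang_polar (t := t) hR0 (by linarith) (by linarith)
  rw [PhL_of_ge h h1 hY (by rw [hrad]; exact hR), QL_half h h1 hY (by rw [hrad]; exact hR1)]
  have hQ := QN_le (ε := epsh ph) (X := R * cos t) h3 hY
  rw [hrad] at hQ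
  have hRs : R * (1 / 80) ≤ R * sin t := mul_le_mul_of_nonneg_left hsin hR0.le
  rw [PAx_far hY (QN0 h3 hY).le (sL_pos h) (by unfold lam; linarith)]
  unfold QN PhM
  rw [hrad, hang]
  unfold aa
  have hl := lampos
  field_simp
  ring

/-- outer region away from the axis -/
theorem PhL_far {ph X Y : ℝ} (h : 0 < ph) (h1 : ph ≤ 1 / 1000000) (hR : 1 / 4 ≤ rad X Y) (hY : 1 / 200 ≤ Y) :
    PhL ph X Y = aa * (Y + QL ph X Y) := by
  have hY0 : 0 < Y := by linarith
  have h2 := epsh_le h (by linarith)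
  have h3 := epsh_pos h
  rw [PhL_of_ge h (by linarith) hY0 (by linarith)]
  apply PAx_far hY0 (QL_nonneg h hY0) (sL_pos h)
  have h4 := QL_le_zsd (X := X) h hY0
  have h5 := zsd_le (X := X) h
  unfold lam
  linarith

private theorem cs_pos {X Y : ℝ} (hY : 0 < Y) : 0 < cos (vth (ang X Y)) ∧ 0 < sin (vth (ang X Y)) := by
  have ha := ang_mem (X := X) hY
  have hv := vth_mem ha.1 ha.2
  have hpi := Real.pi_pos
  exact ⟨Real.cos_pos_of_mem_Ioo ⟨by linarith, hv.2⟩, Real.sin_pos_of_pos_of_lt_pi hv.1 (by linarith)⟩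

theorem PhL_inner {ph X Y : ℝ} (h : 0 < ph) (h1 : ph ≤ 1 / 2) (hY : 0 < Y)
    (hR : rad X Y ≤ 3 / 5 * epsh ph) :
    PhL ph X Y = rad X Y / 2 * sin (2 * vth (ang X Y)) := by
  have h3 := epsh_pos h
  have hc := cs_pos (X := X) hY
  have hr := radpos (X := X) hY
  have hr' : 0 < rad X Y / epsh ph := div_pos hr h3
  have hsq : (rad X Y / epsh ph * cos (vth (ang X Y))) ^ 2 +
      (rad X Y / epsh ph * sin (vth (ang X Y))) ^ 2 = (rad X Y / epsh ph) ^ 2 := by
    linear_combination (rad X Y / epsh ph) ^ 2 * Real.sin_sq_add_cos_sq (vth (ang X Y))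
  have hle : rad X Y / epsh ph ≤ 3 / 5 := by
    rw [div_le_iff₀ h3]; exact hR
  rw [PhL_of_lt h h1 hY (by linarith), PhiT_inner (mul_pos hr' hc.1) (mul_pos hr' hc.2) (by
    rw [hsq]; nlinarith)]
  unfold Hf
  rw [hsq, Real.sqrt_sq hr'.le, Real.sin_two_mul]
  field_simp

theorem PhL_pos {ph X Y : ℝ} (h : 0 < ph) (h1 : ph ≤ 1 / 2) (hY : 0 < Y) : 0 < PhL ph X Y := by
  have h3 := epsh_pos h
  have hc := cs_pos (X := X) hY
  have hr' : 0 < rad X Y / epsh ph := div_pos (radpos hY) h3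
  have ha : 0 < aa := by
    unfold aa bb
    have := lampos
    positivity
  unfold PhL
  split_ifs with h4
  · exact mul_pos h3 (PhiT_pos (mul_pos hr' hc.1) (mul_pos hr' hc.2))
  · exact lt_of_lt_of_le (mul_pos ha hY) (PAx_ge hY (QL_nonneg h hY) (sL_pos h))

private theorem aa_mem : 0 < aa ∧ aa < 1 / 100 := by
  unfold aa bb lam
  have h1 : (1:ℝ) < √2 := by
    rw [Real.lt_sqrt (by norm_num)]
    norm_num
  have h2 : 3 / √2 < 3 := by
    rw [div_lt_iff₀ (by linarith)]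
    linarith
  constructor
  · positivity
  · linarith

theorem PhL_le {ph X Y : ℝ} (h : 0 < ph) (h1 : ph ≤ 1 / 2) (hY : 0 < Y)
    (hR : 1000 * epsh ph ≤ rad X Y) : PhL ph X Y ≤ Y := by
  rw [PhL_of_ge h h1 hY hR]
  rcases (QL_nonneg (X := X) h hY).eq_or_lt with h4 | h4
  · rw [← h4]
    have ha := aa_mem
    rw [PAx_far hY le_rfl (sL_pos h) (by unfold lam; linarith), add_zero]
    have := mul_le_mul_of_nonneg_right (show aa ≤ 1 by linarith [ha.2]) hY.le
    linarith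
  · exact PAx_le hY h4 (sL_pos h)

theorem PhL_ge {ph X Y : ℝ} (h : 0 < ph) (h1 : ph ≤ 1 / 2) (hY : 0 < Y)
    (hR : 1000 * epsh ph ≤ rad X Y) : aa * Y ≤ PhL ph X Y := by
  rw [PhL_of_ge h h1 hY hR]
  exact PAx_ge hY (QL_nonneg h hY) (sL_pos h)

/-- cut off: `PhL = a Y` for `R ≥ 1`, `Y ≥ 1/5` -/
theorem PhL_out {ph X Y : ℝ} (h : 0 < ph) (h1 : ph ≤ 1 / 2) (hR : 1 ≤ rad X Y) (hY : 1 / 5 ≤ Y) :
    PhL ph X Y = aa * Y := by
  have hY0 : 0 < Y := by linarith
  have h2 := epsh_le h h1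
  have h3 := epsh_pos h
  have hQ : QL ph X Y = 0 := by
    unfold QL
    have h4 : 1 ≤ Y / ysd X - 1 := by
      have h5 : 2 ≤ Y / ysd X := by
        rw [le_div_iff₀ (ysd_pos X)]
        linarith [ysd_le X]
      linarith
    rw [st_one (by linarith : 1 ≤ 2 * rad X Y - 1), st_one h4]
    ring
  rw [PhL_of_ge h h1 hY0 (by linarith), hQ, PAx_far hY0 le_rfl (sL_pos h) (by unfold lam; linarith),
    add_zero]

/-! ## smoothness -/

private theorem rad_cont : Continuous (fun p : ℝ × ℝ => rad p.1 p.2) := by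
  unfold rad
  fun_prop

private theorem up_open : IsOpen {p : ℝ × ℝ | 0 < p.2} := isOpen_lt continuous_const continuous_snd

private theorem rad_cda {p : ℝ × ℝ} (hp : 0 < p.2) :
    ContDiffAt ℝ ∞ (fun p : ℝ × ℝ => rad p.1 p.2) p :=
  rad_contDiffOn.contDiffAt (up_open.mem_nhds hp)

private theorem ang_cda {p : ℝ × ℝ} (hp : 0 < p.2) :
    ContDiffAt ℝ ∞ (fun p : ℝ × ℝ => ang p.1 p.2) p :=
  ang_contDiffOn.contDiffAt (up_open.mem_nhds hp)

private theorem QN_cda {ε : ℝ} (h : 0 < ε) {p : ℝ × ℝ} (hp : 0 < p.2) :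
    ContDiffAt ℝ ∞ (fun p : ℝ × ℝ => QN ε p.1 p.2) p :=
  (QN_contDiffOn h).contDiffAt (up_open.mem_nhds hp)

private theorem in_cda {ε : ℝ} (h : 0 < ε) {p : ℝ × ℝ} (hp : 0 < p.2) :
    ContDiffAt ℝ ∞ (fun p : ℝ × ℝ => ε * PhiT (rad p.1 p.2 / ε * cos (vth (ang p.1 p.2)))
      (rad p.1 p.2 / ε * sin (vth (ang p.1 p.2)))) p := by
  have hr := (rad_cda hp).div_const ε
  have hv : ContDiffAt ℝ ∞ (fun p : ℝ × ℝ => vth (ang p.1 p.2)) p :=
    vth_contDiff.contDiffAt.comp p (ang_cda hp)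
  have hG : ContDiffAt ℝ ∞ (fun p : ℝ × ℝ => (rad p.1 p.2 / ε * cos (vth (ang p.1 p.2)),
      rad p.1 p.2 / ε * sin (vth (ang p.1 p.2)))) p := (hr.mul hv.cos).prodMk (hr.mul hv.sin)
  have hc := cs_pos (X := p.1) hp
  have hr' : 0 < rad p.1 p.2 / ε := div_pos (radpos hp) h
  have hmem : (rad p.1 p.2 / ε * cos (vth (ang p.1 p.2)),
      rad p.1 p.2 / ε * sin (vth (ang p.1 p.2))) ∈ Qd := ⟨mul_pos hr' hc.1, mul_pos hr' hc.2⟩
  have hP : ContDiffAt ℝ ∞ (fun p : ℝ × ℝ => PhiT p.1 p.2)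
      (rad p.1 p.2 / ε * cos (vth (ang p.1 p.2)), rad p.1 p.2 / ε * sin (vth (ang p.1 p.2))) :=
    PhiT_contDiffOn.contDiffAt (Qd_isOpen.mem_nhds hmem)
  have hc2 : ContDiffAt ℝ ∞ ((fun p : ℝ × ℝ => PhiT p.1 p.2) ∘ (fun p : ℝ × ℝ =>
      (rad p.1 p.2 / ε * cos (vth (ang p.1 p.2)), rad p.1 p.2 / ε * sin (vth (ang p.1 p.2))))) p :=
    ContDiffAt.comp p hP hG
  exact contDiffAt_const.mul hc2

private theorem Pf_cda {x : ℝ} (hx : 0 < x) : ContDiffAt ℝ ∞ Pf x :=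
  Pf_contDiffOn.contDiffAt (isOpen_Ioi.mem_nhds hx)

private theorem sideS_cda {ε z0 σ : ℝ} (h : 0 < ε) (hz0 : 0 < z0) {x : ℝ} (hx : 0 < σ * x) :
    ContDiffAt ℝ ∞ (fun x : ℝ => mnf (ε + lam / 10 * (ε * Pf (σ * x / ε))) (lam * z0)) x := by
  have h1 : ContDiffAt ℝ ∞ (fun x : ℝ => Pf (σ * x / ε)) x := by
    have h2 : ContDiffAt ℝ ∞ (fun x : ℝ => σ * x / ε) x :=
      (contDiffAt_const.mul contDiffAt_id).div_const ε
    exact (Pf_cda (div_pos hx h)).comp x h2
  have h3 : ContDiffAt ℝ ∞ (fun x : ℝ => (ε + lam / 10 * (ε * Pf (σ * x / ε)), lam * z0)) x :=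
    (contDiffAt_const.add (contDiffAt_const.mul (contDiffAt_const.mul h1))).prodMk contDiffAt_const
  have h4 : ContDiffAt ℝ ∞ (fun p : ℝ × ℝ => mnf p.1 p.2)
      (ε + lam / 10 * (ε * Pf (σ * x / ε)), lam * z0) :=
    mnf_contDiffOn.contDiffAt (up_open.mem_nhds (mul_pos lampos hz0))
  have h5 : ContDiffAt ℝ ∞ ((fun p : ℝ × ℝ => mnf p.1 p.2) ∘
      (fun x : ℝ => (ε + lam / 10 * (ε * Pf (σ * x / ε)), lam * z0))) x := ContDiffAt.comp x h4 h3
  exact h5

private theorem sideQ_cda {ε z0 y0 : ℝ} (h : 0 < ε) (hz0 : 0 < z0) {p : ℝ × ℝ} (hp : 0 < p.2) :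
    ContDiffAt ℝ ∞ (fun p : ℝ × ℝ => (1 - st (2 * rad p.1 p.2 - 1) * st (p.2 / y0 - 1)) *
      mnf (QN ε p.1 p.2) z0) p := by
  have h1 : ContDiffAt ℝ ∞ (fun p : ℝ × ℝ => st (2 * rad p.1 p.2 - 1)) p :=
    st_contDiff.contDiffAt.comp p ((contDiffAt_const.mul (rad_cda hp)).sub contDiffAt_const)
  have h2 : ContDiffAt ℝ ∞ (fun p : ℝ × ℝ => st (p.2 / y0 - 1)) p :=
    st_contDiff.contDiffAt.comp p ((contDiffAt_snd.div_const y0).sub contDiffAt_const)
  have h3 : ContDiffAt ℝ ∞ (fun p : ℝ × ℝ => (QN ε p.1 p.2, z0)) p :=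
    (QN_cda h hp).prodMk contDiffAt_const
  have h4 : ContDiffAt ℝ ∞ (fun p : ℝ × ℝ => mnf p.1 p.2) (QN ε p.1 p.2, z0) :=
    mnf_contDiffOn.contDiffAt (up_open.mem_nhds hz0)
  have h5 : ContDiffAt ℝ ∞ ((fun p : ℝ × ℝ => mnf p.1 p.2) ∘
      (fun p : ℝ × ℝ => (QN ε p.1 p.2, z0))) p := ContDiffAt.comp p h4 h3
  exact (contDiffAt_const.sub (h1.mul h2)).mul h5

private theorem side_cda {ε z0 y0 σ : ℝ} (h : 0 < ε) (hz0 : 0 < z0) {p : ℝ × ℝ}
    (hp : 0 < p.2) (hx : 0 < σ * p.1) :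
    ContDiffAt ℝ ∞ (fun p : ℝ × ℝ => PAx p.2 ((1 - st (2 * rad p.1 p.2 - 1) * st (p.2 / y0 - 1)) *
      mnf (QN ε p.1 p.2) z0) (mnf (ε + lam / 10 * (ε * Pf (σ * p.1 / ε))) (lam * z0))) p := by
  have h1 := sideQ_cda (y0 := y0) h hz0 hp
  have h2 : ContDiffAt ℝ ∞ (fun p : ℝ × ℝ => mnf (ε + lam / 10 * (ε * Pf (σ * p.1 / ε))) (lam * z0)) p :=
    (sideS_cda h hz0 hx).comp p contDiffAt_fst
  have h3 := contDiffAt_snd (n := ∞) (𝕜 := ℝ) (p := p) |>.prodMk (h1.prodMk h2)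
  have hst : 0 ≤ 1 - st (2 * rad p.1 p.2 - 1) * st (p.2 / y0 - 1) := by
    have h6 := mul_le_one₀ (st_le_one (2 * rad p.1 p.2 - 1)) (st_nonneg (p.2 / y0 - 1))
      (st_le_one (p.2 / y0 - 1))
    linarith
  have hm := mnf_pos (QN0 (X := p.1) h hp) hz0
  have h4 : ContDiffAt ℝ ∞ (fun p : ℝ × ℝ × ℝ => PAx p.1 p.2.1 p.2.2)
      (p.2, (1 - st (2 * rad p.1 p.2 - 1) * st (p.2 / y0 - 1)) *
        mnf (QN ε p.1 p.2) z0, mnf (ε + lam / 10 * (ε * Pf (σ * p.1 / ε))) (lam * z0)) := by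
    apply PAx_contDiffOn'.contDiffAt
    apply IsOpen.mem_nhds
    · apply IsOpen.inter (isOpen_lt continuous_const continuous_fst)
      exact IsOpen.inter (isOpen_lt continuous_fst.neg continuous_snd.fst)
        (isOpen_lt continuous_const continuous_snd.snd)
    · refine ⟨hp, ?_, ?_⟩
      · show -p.2 < (1 - st (2 * rad p.1 p.2 - 1) * st (p.2 / y0 - 1)) * mnf (QN ε p.1 p.2) z0
        have := mul_nonneg hst hm.le
        linarith
      · show 0 < mnf (ε + lam / 10 * (ε * Pf (σ * p.1 / ε))) (lam * z0)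
        apply mnf_pos _ (mul_pos lampos hz0)
        have h5 := Pf_pos (div_pos hx h)
        have := lampos
        positivity
  exact h4.comp p h3

private theorem out_cda {ε : ℝ} (h : 0 < ε) {p : ℝ × ℝ} (hp : 0 < p.2) :
    ContDiffAt ℝ ∞ (fun p : ℝ × ℝ => aa * (p.2 + (1 - st (2 * rad p.1 p.2 - 1)) * QN ε p.1 p.2)) p := by
  have h1 : ContDiffAt ℝ ∞ (fun p : ℝ × ℝ => st (2 * rad p.1 p.2 - 1)) p :=
    st_contDiff.contDiffAt.comp p ((contDiffAt_const.mul (rad_cda hp)).sub contDiffAt_const)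
  exact contDiffAt_const.mul (contDiffAt_snd.add ((contDiffAt_const.sub h1).mul (QN_cda h hp)))

/-- near `X = 0` -/
private theorem PhL_axis0 {ph X Y : ℝ} (h : 0 < ph) (h1 : ph ≤ 1 / 2) (hY : 0 < Y)
    (hR : 1000 * epsh ph ≤ rad X Y) (hX : 2 * |X| ≤ Y) :
    PhL ph X Y = aa * (Y + (1 - st (2 * rad X Y - 1)) * QN (epsh ph) X Y) := by
  have h3 := epsh_pos h
  have hr := radsq X Y
  have hrp := radpos (X := X) hY
  have hXY : X ^ 2 ≤ Y ^ 2 / 4 := by
    have h4 : |X| ^ 2 ≤ (Y / 2) ^ 2 := pow_le_pow_left₀ (abs_nonneg X) (by linarith) 2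
    rw [sq_abs] at h4
    nlinarith
  have hRY : rad X Y ≤ 6 / 5 * Y := by
    apply le_of_sq_le_sq _ (by linarith)
    rw [hr]
    nlinarith
  have hQ : QL ph X Y = (1 - st (2 * rad X Y - 1)) * QN (epsh ph) X Y := by
    rcases le_total (rad X Y) (1 / 2) with h4 | h4
    · rw [QL_half h h1 hY h4, st_zero (by linarith : 2 * rad X Y - 1 ≤ 0), sub_zero, one_mul]
    · have h5 : 2 ≤ Y / ysd X := by
        rw [le_div_iff₀ (ysd_pos X)]
        linarith [ysd_le X]
      unfold QL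
      rw [st_one (by linarith : 1 ≤ Y / ysd X - 1), mul_one]
      rcases le_total (rad X Y) 1 with h6 | h6
      · rw [QL_inner h h1 hY h6]
      · rw [st_one (by linarith : 1 ≤ 2 * rad X Y - 1)]
        ring
  have hQ2 := (QL_le_QN (X := X) h hY).trans (QN_le h3 hY)
  rw [PhL_of_ge h h1 hY hR, ← hQ]
  apply PAx_far hY (QL_nonneg h hY) (sL_pos h)
  unfold lam
  linarith

theorem PhL_contDiffOn {ph : ℝ} (h : 0 < ph) (h1 : ph ≤ 1 / 2) :
    ContDiffOn ℝ ∞ (fun p : ℝ × ℝ => PhL ph p.1 p.2) {p | 0 < p.2} := by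
  have h3 := epsh_pos h
  intro p hp
  have hp' : 0 < p.2 := hp
  apply ContDiffAt.contDiffWithinAt
  have hup : ∀ᶠ q : ℝ × ℝ in 𝓝 p, 0 < q.2 := up_open.mem_nhds hp'
  rcases lt_or_ge (rad p.1 p.2) (100000 * epsh ph) with h4 | h4
  · have h5 : ∀ᶠ q : ℝ × ℝ in 𝓝 p, rad q.1 q.2 < 100000 * epsh ph :=
      (isOpen_lt rad_cont continuous_const).mem_nhds h4
    refine (in_cda h3 hp').congr_of_eventuallyEq ?_
    filter_upwards [hup, h5] with q hq1 hq2
    exact PhL_of_lt h h1 hq1 hq2.le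
  · have h5 : ∀ᶠ q : ℝ × ℝ in 𝓝 p, 1000 * epsh ph < rad q.1 q.2 :=
      (isOpen_lt continuous_const rad_cont).mem_nhds (by
        show 1000 * epsh ph < rad p.1 p.2
        linarith)
    rcases lt_trichotomy p.1 0 with hx | hx | hx
    · have h6 : ∀ᶠ q : ℝ × ℝ in 𝓝 p, q.1 < 0 := (isOpen_lt continuous_fst continuous_const).mem_nhds hx
      refine (side_cda (z0 := 4 * ph) (y0 := 1 / 20) (σ := -1) h3 (by linarith) hp'
        (by linarith)).congr_of_eventuallyEq ?_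
      filter_upwards [hup, h5, h6] with q hq1 hq2 hq3
      rw [PhL_of_ge h h1 hq1 hq2.le]
      have e1 : zsd ph q.1 = 4 * ph := if_pos hq3
      have e2 : ysd q.1 = 1 / 20 := if_pos hq3
      unfold QL sL sN
      rw [e1, e2, abs_of_neg hq3, neg_one_mul]
    · have h6 : ∀ᶠ q : ℝ × ℝ in 𝓝 p, 2 * |q.1| < q.2 :=
        (isOpen_lt (continuous_const.mul continuous_fst.abs) continuous_snd).mem_nhds (by
          show 2 * |p.1| < p.2
          rw [hx, abs_zero]
          linarith)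
      refine (out_cda h3 hp').congr_of_eventuallyEq ?_
      filter_upwards [hup, h5, h6] with q hq1 hq2 hq3
      exact PhL_axis0 h h1 hq1 hq2.le hq3.le
    · have h6 : ∀ᶠ q : ℝ × ℝ in 𝓝 p, 0 < q.1 := (isOpen_lt continuous_const continuous_fst).mem_nhds hx
      refine (side_cda (z0 := 32 * ph) (y0 := 1 / 10) (σ := 1) h3 (by linarith) hp'
        (by linarith)).congr_of_eventuallyEq ?_
      filter_upwards [hup, h5, h6] with q hq1 hq2 hq3
      rw [PhL_of_ge h h1 hq1 hq2.le]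
      have e1 : zsd ph q.1 = 32 * ph := if_neg (not_lt.2 hq3.le)
      have e2 : ysd q.1 = 1 / 10 := if_neg (not_lt.2 hq3.le)
      unfold QL sL sN
      rw [e1, e2, abs_of_pos hq3, one_mul]

theorem JL_contDiffOn {ph : ℝ} (h : 0 < ph) (h1 : ph ≤ 1 / 2) :
    ContDiffOn ℝ ∞ (fun p : ℝ × ℝ => JL ph p.1 p.2) {p | 0 < p.1} := by
  have h3 := epsh_pos h
  intro p hp
  have hp' : 0 < p.1 := hp
  apply ContDiffAt.contDiffWithinAt
  unfold JL
  have h4 : ContDiffAt ℝ ∞ (fun p : ℝ × ℝ => st (2 * p.1 - 1)) p :=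
    st_contDiff.contDiffAt.comp p ((contDiffAt_const.mul contDiffAt_fst).sub contDiffAt_const)
  have h5 : ContDiffAt ℝ ∞ (fun p : ℝ × ℝ => mf p.2) p :=
    mf_contDiff.contDiffAt.comp p contDiffAt_snd
  have h6 : ContDiffAt ℝ ∞ (fun p : ℝ × ℝ => Pf (p.1 / epsh ph)) p :=
    (Pf_cda (div_pos hp' h3)).comp p (contDiffAt_fst.div_const _)
  exact contDiffAt_fst.sub (((contDiffAt_const.sub h4).mul h5).mul (contDiffAt_const.mul h6))

theorem JL_pos {ph R t : ℝ} (h : 0 < ph) (h1 : ph ≤ 1 / 2) (hR : 0 < R) :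
    2 / 5 * R < JL ph R t ∧ JL ph R t ≤ R := by
  have h3 := epsh_pos h
  have h7 := Pf_le (div_pos hR h3)
  have h8 := Pf_pos (div_pos hR h3)
  have h9 : epsh ph * Pf (R / epsh ph) ≤ R := by
    have := mul_le_mul_of_nonneg_left h7 h3.le
    rwa [mul_div_cancel₀ _ h3.ne'] at this
  have h10 : 0 ≤ epsh ph * Pf (R / epsh ph) := (mul_pos h3 h8).le
  have h11 : 0 ≤ (1 - st (2 * R - 1)) * mf t := mul_nonneg (by linarith [st_le_one (2 * R - 1)])
    (mf_nonneg t)
  have h12 : (1 - st (2 * R - 1)) * mf t ≤ 8 / 15 := by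
    have := mul_le_mul (by linarith [st_nonneg (2 * R - 1)] : 1 - st (2 * R - 1) ≤ 1) (mf_le t)
      (mf_nonneg t) (by norm_num)
    linarith
  have h13 := mul_le_mul h12 h9 h10 (by norm_num)
  have h14 := mul_nonneg h11 h10
  unfold JL
  constructor
  · linarith
  · linarith

/-! ## the form near the axis -/

private theorem axis_congr {f g : ℝ → ℝ → ℝ} {x0 : ℝ}
    (h : ∀ᶠ p : ℝ × ℝ in 𝓝 (x0, 0), 0 < p.2 → f p.1 p.2 = g p.1 p.2) (hg : AxisForm g x0) :
    AxisForm f x0 := by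
  obtain ⟨M, hM, hM2⟩ := hg
  refine ⟨M, hM, ?_⟩
  filter_upwards [h, hM2] with p h1 h2 hp
  rw [h1 hp, h2 hp]

private theorem axis_scale {F : ℝ → ℝ → ℝ} {x0 c r : ℝ} (hc : 0 < c) (hF : AxisForm F (r * x0)) :
    AxisForm (fun x y => c * F (r * x) (y / c)) x0 := by
  obtain ⟨M, hM, hM2⟩ := hF
  refine ⟨fun p => (c⁻¹) ^ 2 * M (r * p.1, p.2 / c ^ 2), ?_, ?_⟩
  · have h1 : ContDiffAt ℝ ∞ (fun p : ℝ × ℝ => (r * p.1, p.2 / c ^ 2)) (x0, 0) :=
      (contDiffAt_const.mul contDiffAt_fst).prodMk (contDiffAt_snd.div_const _)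
    have h2 : ContDiffAt ℝ ∞ M (r * (x0, (0:ℝ)).1, (x0, (0:ℝ)).2 / c ^ 2) := by
      show ContDiffAt ℝ ∞ M (r * x0, 0 / c ^ 2)
      rw [zero_div]
      exact hM
    exact contDiffAt_const.mul (h2.comp (x0, (0:ℝ)) h1)
  · have hcont : Continuous (fun p : ℝ × ℝ => (r * p.1, p.2 / c)) := by fun_prop
    have h3 : Tendsto (fun p : ℝ × ℝ => (r * p.1, p.2 / c)) (𝓝 (x0, 0)) (𝓝 (r * x0, 0)) := by
      have h4 := hcont.tendsto (x0, 0)
      simpa using h4
    filter_upwards [h3.eventually hM2] with p hp hp2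
    have h5 := hp (div_pos hp2 hc)
    show c * F (r * p.1) (p.2 / c) = p.2 * (1 - p.2 ^ 2 * ((c⁻¹) ^ 2 * M (r * p.1, p.2 ^ 2 / c ^ 2)))
    rw [h5, ← div_pow]
    field_simp

/-- the angle is small near the right axis -/
private theorem ang_small {X Y : ℝ} (hY : 0 < Y) (hX : 0 < X) (h : 50 * Y < X) :
    ang X Y ≤ π / 40 := by
  have hpi := Real.pi_gt_three
  have ha := ang_mem (X := X) hY
  obtain ⟨e1, e2⟩ := polar_eq (X := X) hY
  have hr := radpos (X := X) hY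
  have hrX : rad X Y ≤ 11 / 10 * X := by
    apply le_of_sq_le_sq _ (by linarith)
    rw [radsq]
    nlinarith
  have hcos : 0 < cos (ang X Y) := by
    by_contra h5
    push Not at h5
    nlinarith
  have hlt : ang X Y ≤ π / 2 := by
    by_contra h5
    push Not at h5
    have := Real.cos_nonpos_of_pi_div_two_le_of_le h5.le (by linarith [ha.2])
    linarith
  have h1 := Real.mul_le_sin ha.1.le hlt
  have h2 : rad X Y * (2 / π * ang X Y) ≤ Y := by
    calc rad X Y * (2 / π * ang X Y) ≤ rad X Y * sin (ang X Y) := mul_le_mul_of_nonneg_left h1 hr.le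
      _ = Y := e2
  have hXr : X ≤ rad X Y := (le_abs_self X).trans (absX_lt hY).le
  by_contra h5
  push Not at h5
  have h6 : 2 / π * (π / 40) < 2 / π * ang X Y := mul_lt_mul_of_pos_left h5 (by positivity)
  have h7 : 2 / π * (π / 40) = 1 / 20 := by field_simp; norm_num
  rw [h7] at h6
  have h8 : rad X Y * (1 / 20) ≤ rad X Y * (2 / π * ang X Y) :=
    mul_le_mul_of_nonneg_left h6.le hr.le
  linarith

private theorem ang_neg (X Y : ℝ) : ang (-X) Y = π - ang X Y := by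
  have h1 : rad (-X) Y = rad X Y := by unfold rad; rw [neg_sq]
  unfold ang
  rw [h1, neg_div, Real.arccos_neg]

theorem PhL_axisForm {ph X : ℝ} (h : 0 < ph) (h1 : ph ≤ 1 / 2) (hX : X ≠ 0) :
    AxisForm (fun x y => PhL ph x y) X := by
  have h3 := epsh_pos h
  have hcy : Tendsto (fun p : ℝ × ℝ => p.2) (𝓝 (X, 0)) (𝓝 0) := continuous_snd.tendsto (X, 0)
  have hcx : Tendsto (fun p : ℝ × ℝ => p.1) (𝓝 (X, 0)) (𝓝 X) := continuous_fst.tendsto (X, 0)
  have hrad0 : rad X 0 = |X| := by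
    unfold rad
    rw [zero_pow (by norm_num), add_zero, Real.sqrt_sq_eq_abs]
  have hcr : Tendsto (fun p : ℝ × ℝ => rad p.1 p.2) (𝓝 (X, 0)) (𝓝 |X|) := by
    have := rad_cont.tendsto (X, 0)
    rw [show rad (X, (0:ℝ)).1 (X, (0:ℝ)).2 = |X| from hrad0] at this
    exact this
  have hXp : 0 < |X| := abs_pos.2 hX
  rcases lt_or_ge |X| (1800 * epsh ph) with h4 | h4
  · -- inner part
    have hev : ∀ᶠ p : ℝ × ℝ in 𝓝 (X, 0), rad p.1 p.2 < 2000 * epsh ph :=
      hcr.eventually (Iio_mem_nhds (by linarith))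
    have hev2 : ∀ᶠ p : ℝ × ℝ in 𝓝 (X, 0), 50 * p.2 < |p.1| := by
      have h5 : Tendsto (fun p : ℝ × ℝ => |p.1| - 50 * p.2) (𝓝 (X, 0)) (𝓝 (|X| - 50 * 0)) :=
        hcx.abs.sub (hcy.const_mul 50)
      rw [mul_zero, sub_zero] at h5
      filter_upwards [h5.eventually (lt_mem_nhds hXp)] with p hp
      linarith
    rcases lt_or_gt_of_ne hX with hneg | hpos
    · have hsg : ∀ᶠ p : ℝ × ℝ in 𝓝 (X, 0), p.1 < 0 := hcx.eventually (Iio_mem_nhds hneg)
      have hx1 : 0 < (-(epsh ph)⁻¹) * X := by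
        have := mul_pos (inv_pos.2 h3) (neg_pos.2 hneg)
        linarith
      refine axis_congr ?_ (axis_scale h3 (PhiT_axisForm' hx1))
      filter_upwards [hev, hev2, hsg] with p hp1 hp2 hp3 hp
      rw [PhL_of_lt h h1 hp (by linarith)]
      rw [abs_of_neg hp3] at hp2
      have ha := ang_small (X := -p.1) hp (by linarith) hp2
      rw [ang_neg] at ha
      obtain ⟨e1, e2⟩ := polar_eq (X := p.1) hp
      rw [vth_right (by linarith : π - π / 40 ≤ ang p.1 p.2)]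
      have e3 : π / 2 - (π - ang p.1 p.2) = ang p.1 p.2 - π / 2 := by ring
      rw [e3, Real.cos_sub_pi_div_two, Real.sin_sub_pi_div_two]
      have e4 : rad p.1 p.2 / epsh ph * sin (ang p.1 p.2) = p.2 / epsh ph := by
        rw [div_mul_eq_mul_div, e2]
      have e5 : rad p.1 p.2 / epsh ph * -cos (ang p.1 p.2) = -(epsh ph)⁻¹ * p.1 := by
        rw [mul_neg, div_mul_eq_mul_div, e1, div_eq_inv_mul, neg_mul]
      rw [e4, e5]
    · have hsg : ∀ᶠ p : ℝ × ℝ in 𝓝 (X, 0), 0 < p.1 := hcx.eventually (lt_mem_nhds hpos)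
      have hx1 : 0 < (epsh ph)⁻¹ * X := mul_pos (inv_pos.2 h3) hpos
      refine axis_congr ?_ (axis_scale h3 (PhiT_axisForm hx1))
      filter_upwards [hev, hev2, hsg] with p hp1 hp2 hp3 hp
      rw [PhL_of_lt h h1 hp (by linarith)]
      rw [abs_of_pos hp3] at hp2
      have ha := ang_small hp hp3 hp2
      obtain ⟨e1, e2⟩ := polar_eq (X := p.1) hp
      rw [vth_left ha]
      have e4 : rad p.1 p.2 / epsh ph * sin (ang p.1 p.2) = p.2 / epsh ph := by
        rw [div_mul_eq_mul_div, e2]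
      have e5 : rad p.1 p.2 / epsh ph * cos (ang p.1 p.2) = (epsh ph)⁻¹ * p.1 := by
        rw [div_mul_eq_mul_div, e1, div_eq_inv_mul]
      rw [e4, e5]
  · -- outer part
    have hev : ∀ᶠ p : ℝ × ℝ in 𝓝 (X, 0), 1000 * epsh ph < rad p.1 p.2 :=
      hcr.eventually (lt_mem_nhds (by linarith))
    have hev2 : ∀ᶠ p : ℝ × ℝ in 𝓝 (X, 0), p.2 < 1 / 20 :=
      hcy.eventually (Iio_mem_nhds (by norm_num))
    have hev3 : ∀ᶠ p : ℝ × ℝ in 𝓝 (X, 0), p.1 ≠ 0 := hcx.eventually_ne hX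
    have hs : ContDiffAt ℝ ∞ (sL ph) X := by
      rcases lt_or_gt_of_ne hX with hneg | hpos
      · refine (sideS_cda (z0 := 4 * ph) (σ := -1) h3 (by linarith)
          (by linarith)).congr_of_eventuallyEq ?_
        filter_upwards [Iio_mem_nhds hneg] with x hx
        have hx' : x < 0 := hx
        have e1 : zsd ph x = 4 * ph := if_pos hx'
        unfold sL sN
        rw [e1, abs_of_neg hx', neg_one_mul]
      · refine (sideS_cda (z0 := 32 * ph) (σ := 1) h3 (by linarith)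
          (by linarith)).congr_of_eventuallyEq ?_
        filter_upwards [lt_mem_nhds hpos] with x hx
        have hx' : 0 < x := hx
        have e1 : zsd ph x = 32 * ph := if_neg (not_lt.2 hx'.le)
        unfold sL sN
        rw [e1, abs_of_pos hx', one_mul]
    have hl := lampos
    refine axis_congr ?_ (PAx_axisForm (Q := QL ph) (s := sL ph)
      (c := 2 / 3 * min (epsh ph / lam) (4 * ph)) (by
        have : 0 < min (epsh ph / lam) (4 * ph) := lt_min (div_pos h3 hl) (by linarith)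
        linarith) hs (sL_pos h) ?_)
    · filter_upwards [hev] with p hp1 hp
      exact PhL_of_ge h h1 hp hp1.le
    · filter_upwards [hev2, hev3] with p hp2 hp3 hp
      have hz := zsd_ge (X := p.1) h
      have hQN := QN_pos (X := p.1) h3 hp
      have hQN0 := QN0 (X := p.1) h3 hp
      have e1 : QL ph p.1 p.2 = mnf (QN (epsh ph) p.1 p.2) (zsd ph p.1) := by
        unfold QL
        have h5 : p.2 / ysd p.1 - 1 ≤ 0 := by
          have : p.2 / ysd p.1 ≤ 1 := by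
            rw [div_le_one (ysd_pos _)]
            linarith [ysd_ge p.1]
          linarith
        rw [st_zero h5, mul_zero, sub_zero, one_mul]
      rw [e1]
      constructor
      · refine le_trans ?_ (mnf_ge hQN0 (by linarith))
        apply mul_le_mul_of_nonneg_left _ (by norm_num)
        exact min_le_min hQN.le hz
      · unfold sL
        rw [← mnf_mul hl]
        exact mnf_mono (sN_pos h3) (mul_pos hl (by linarith)) (sN_le h3 hp hp3) le_rfl

end Pool.Agent.MP39e402
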