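import Pool.Agent.Lib.MP_39e402_gt.LAng

/-! # MP_39e402, module LMid: the inequalities of the middle zone

For `0 < θ < π`, `0 < p ≤ 1` write `s = sin θ, c = cos θ, m = mf θ, G = Gam θ, G' = (1-m) e_* - c`,
`j = 1 - p m`, `Θ = s + p G`.  The quantity `S_θ/j` with `S = (c + p G')/j` is
`sx θ p = (-s + p G'')/j² + p m' (c + p G')/j³`.

Proof of the main estimates (paper): put `E = -e_*' = (15/7)(1 + 5s/2 - 2 s²)`, then
`j² (S_θ/j + Θ) = p F + p (1-p) m' (c - e_*)/j` with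
`F = (1-2m+pm²) s + (1-pm)² G - (1-m) E`; the `m'` term is `≤ 0` because `m' (c - e_*) ≤ 0`;
`F` is convex in `p`, at `p = 0`: `(1-2m)s + G - (1-m)E ≤ -1/15` (use `G ≤ G_*(s) = 1/2+3s/2-s²/2`; the
expression `(1-m)E-(1-2m)s-G_*` decreases in `m`, at `m = 8/15` it is `1/2 + 16 s/15 - 3 s²/2 ≥ 1/15`), at
`p = 1`: `(1-m)((1-m)(s+G)-E) ≤ -1/15`. -/

open Real Set Filter Topology MeasureTheory
open scoped ContDiff

noncomputable section

namespace Pool.Agent.MP39e402

/-- `G'` -/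
def Gam1 (t : ℝ) : ℝ := (1 - mf t) * estar t - cos t

/-- `G''` -/
def Gam2 (t : ℝ) : ℝ :=
  -(deriv mf t) * estar t - (1 - mf t) * (15 / 7 * (1 + 5 / 2 * sin t - 2 * (sin t)^2)) + sin t

theorem Gam1_hasDerivAt (t : ℝ) : HasDerivAt Gam1 (Gam2 t) t := by
  have hm : HasDerivAt mf (deriv mf t) t :=
    ((mf_contDiff.differentiable (by simp)).differentiableAt).hasDerivAt
  have h := (((hm.const_sub 1).mul (estar_hasDerivAt t)).sub (Real.hasDerivAt_cos t))
  refine h.congr_deriv ?_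
  unfold Gam2
  ring

/-- `S_θ / j` -/
def sx (t p : ℝ) : ℝ :=
  (-(sin t) + p * Gam2 t) / (1 - p * mf t)^2
    + p * deriv mf t * (cos t + p * Gam1 t) / (1 - p * mf t)^3

/-- `m' (c - e_*) ≤ 0` -/
theorem mid_deriv_mul {t : ℝ} (h0 : 0 < t) (h1 : t < π) :
    deriv mf t * (cos t - estar t) ≤ 0 := by
  have hs1 : sin t ≤ 1 := Real.sin_le_one t
  have e : cos t - estar t = -(cos t * (31 / 14 + 15 / 7 * (1 - sin t))) + 0 * (sin t) := by
    unfold estar
    ring
  rw [e]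
  rcases le_total t (π / 2) with h | h
  · have hc : 0 ≤ cos t := Real.cos_nonneg_of_mem_Icc ⟨by linarith, h⟩
    have hm := mf_deriv_nonneg h
    have : 0 ≤ deriv mf t * (cos t * (31 / 14 + 15 / 7 * (1 - sin t))) :=
      mul_nonneg hm (mul_nonneg hc (by linarith))
    linarith
  · have hc : cos t ≤ 0 := Real.cos_nonpos_of_pi_div_two_le_of_le h (by linarith [Real.pi_pos])
    have hm := mf_deriv_nonpos h
    have : 0 ≤ deriv mf t * (cos t * (31 / 14 + 15 / 7 * (1 - sin t))) :=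
      mul_nonneg_of_nonpos_of_nonpos hm (mul_nonpos_of_nonpos_of_nonneg hc (by linarith))
    linarith

theorem mid_j {t p : ℝ} (hp : 0 < p) (hp1 : p ≤ 1) : 7 / 15 ≤ 1 - p * mf t ∧ 1 - p * mf t ≤ 1 := by
  have h1 := mf_nonneg t
  have h2 := mf_le t
  constructor
  · nlinarith
  · nlinarith

/-- the function `F` -/
theorem mid_F {s m G p : ℝ} (hs0 : 0 ≤ s) (hs1 : s ≤ 1) (hm0 : 0 ≤ m) (hm1 : m ≤ 8 / 15)
    (hG0 : 0 ≤ G) (hG : G ≤ 1 / 2 + 3 / 2 * s - 1 / 2 * s^2) (hp : 0 < p) (hp1 : p ≤ 1) :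
    (1 - 2 * m + p * m^2) * s + (1 - p * m)^2 * G
      - (1 - m) * (15 / 7 * (1 + 5 / 2 * s - 2 * s^2)) ≤ -(1 / 15) := by
  have hE : 0 ≤ 15 / 7 * (1 + 5 / 2 * s - 2 * s^2) := by nlinarith
  have h0 : (1 - 2 * m) * s + G - (1 - m) * (15 / 7 * (1 + 5 / 2 * s - 2 * s^2)) ≤ -(1 / 15) := by
    have k1 : 0 ≤ (8 / 15 - m) * (15 / 7 * (1 + 5 / 2 * s - 2 * s^2) - 2 * s) :=
      mul_nonneg (by linarith) (by nlinarith)
    have k2 : 0 ≤ (1 - s) * (13 / 30 + 3 / 2 * s) := mul_nonneg (by linarith) (by linarith)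
    nlinarith
  have h1 : (1 - m)^2 * (s + G) - (1 - m) * (15 / 7 * (1 + 5 / 2 * s - 2 * s^2)) ≤ -(1 / 15) := by
    have k1 : (1 - m) * (s + G) - 15 / 7 * (1 + 5 / 2 * s - 2 * s^2) ≤ -(5 / 7) := by
      have k2 : (1 - m) * (s + G) ≤ s + G := by
        have : 0 ≤ m * (s + G) := mul_nonneg hm0 (by linarith)
        linarith
      nlinarith
    have k3 : (1 - m) * ((1 - m) * (s + G) - 15 / 7 * (1 + 5 / 2 * s - 2 * s^2)) ≤
        (1 - m) * (-(5 / 7)) := mul_le_mul_of_nonneg_left k1 (by linarith)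
    nlinarith
  -- convexity in `p`
  have h2 : (1 - 2 * m + p * m^2) * s + (1 - p * m)^2 * G
      - (1 - m) * (15 / 7 * (1 + 5 / 2 * s - 2 * s^2)) =
      (1 - p) * ((1 - 2 * m) * s + G - (1 - m) * (15 / 7 * (1 + 5 / 2 * s - 2 * s^2)))
      + p * ((1 - m)^2 * (s + G) - (1 - m) * (15 / 7 * (1 + 5 / 2 * s - 2 * s^2)))
      - p * (1 - p) * m^2 * G := by ring
  have h3 : 0 ≤ p * (1 - p) * m^2 * G := by
    have : 0 ≤ 1 - p := by linarith
    positivity
  rw [h2]
  have h4 := mul_le_mul_of_nonneg_left h0 (by linarith : 0 ≤ 1 - p)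
  have h5 := mul_le_mul_of_nonneg_left h1 hp.le
  linarith

theorem mid_XX0 {t p : ℝ} (h0 : 0 < t) (h1 : t < π) (hp : 0 < p) (hp1 : p ≤ 1) :
    sx t p + (sin t + p * Gam t) ≤ -(p / 15) := by
  obtain ⟨hj, hj1⟩ := mid_j (t := t) hp hp1
  have hj0 : 0 < 1 - p * mf t := by linarith
  have hs0 : 0 ≤ sin t := (Real.sin_pos_of_pos_of_lt_pi h0 h1).le
  have hs1 : sin t ≤ 1 := Real.sin_le_one t
  have hG := Gam_le_star h0.le h1.le
  have hG0 := Gam_ge h0.le h1.le
  have hF := mid_F hs0 hs1 (mf_nonneg t) (mf_le t) (by linarith) hG hp hp1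
  have hD := mid_deriv_mul h0 h1
  have key : sx t p + (sin t + p * Gam t) =
      (p * ((1 - 2 * mf t + p * (mf t)^2) * sin t + (1 - p * mf t)^2 * Gam t
      - (1 - mf t) * (15 / 7 * (1 + 5 / 2 * sin t - 2 * (sin t)^2)))
      + p * (1 - p) * (deriv mf t * (cos t - estar t)) / (1 - p * mf t)) / (1 - p * mf t)^2 := by
    unfold sx Gam2 Gam1
    field_simp
    ring
  rw [key, div_le_iff₀ (by positivity)]
  have h2 : p * (1 - p) * (deriv mf t * (cos t - estar t)) / (1 - p * mf t) ≤ 0 := by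
    apply div_nonpos_of_nonpos_of_nonneg _ hj0.le
    exact mul_nonpos_of_nonneg_of_nonpos (mul_nonneg hp.le (by linarith)) hD
  have h3 := mul_le_mul_of_nonneg_left hF hp.le
  have h4 : (1 - p * mf t)^2 ≤ 1 := by nlinarith
  nlinarith

theorem mid_sin_pi_div_forty : 39 / 500 ≤ sin (π / 40) := by
  have h1 := Real.pi_gt_d4
  have h2 := Real.pi_lt_d4
  have h := Real.sin_gt_sub_cube (x := π / 40) (by linarith)
  have h3 : (π / 40)^3 ≤ (1 / 10)^3 := pow_le_pow_left₀ (by linarith) (by linarith) 3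
  linarith

theorem mid_Gam_mono : MonotoneOn Gam (Icc 0 (π / 2)) := by
  apply monotoneOn_of_deriv_nonneg (convex_Icc 0 (π / 2))
  · exact Gam_contDiff.continuous.continuousOn
  · exact (Gam_contDiff.differentiable (by simp)).differentiableOn
  · intro x hx
    rw [interior_Icc] at hx
    rw [(Gam_hasDerivAt x).deriv]
    have hc : 0 ≤ cos x := Real.cos_nonneg_of_mem_Icc ⟨by linarith [hx.1, Real.pi_pos], hx.2.le⟩
    have hs1 : sin x ≤ 1 := Real.sin_le_one x
    have hm := mf_le x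
    have hm0 := mf_nonneg x
    have e : (1 - mf x) * estar x - cos x =
        cos x * ((8 / 15 - mf x) * (15 / 7 * (5 / 2 - sin x)) + (3 / 2 - sin x)) := by
      unfold estar
      ring
    rw [e]
    exact mul_nonneg hc (add_nonneg (mul_nonneg (by linarith) (by linarith)) (by linarith))

theorem mid_Gam_lb {t : ℝ} (h0 : π / 40 ≤ t) (h1 : t ≤ π / 2) : 1 / 2 ≤ Gam t := by
  have hpi := Real.pi_gt_d4
  have h2 := mid_Gam_mono (a := π / 40) (b := t) ⟨by linarith, by linarith⟩ ⟨by linarith, h1⟩ h0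
  have h3 := Gam_left (t := π / 40) (by linarith) le_rfl
  have h4 := Gam_ge (t := 0) le_rfl (by linarith)
  have h5 := mid_sin_pi_div_forty
  have h6 : sin (π / 40) ≤ 1 := Real.sin_le_one _
  nlinarith

/-- general bound -/
theorem mid_RR_aux {s m G p : ℝ} (hs0 : 0 ≤ s) (hm0 : 0 ≤ m) (hm1 : m ≤ 8 / 15)
    (hG0 : 0 ≤ G) (hp : 0 < p) (hp1 : p ≤ 1) :
    m * (s + p * G) / (2 * (1 - p * m)) ≤ 4 / 7 * (s + G) := by
  have hj : 7 / 15 ≤ 1 - p * m := by nlinarith
  rw [div_le_iff₀ (by linarith)]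
  have h1 : m * (s + p * G) ≤ 8 / 15 * (s + G) := by
    have k1 : p * G ≤ G := by nlinarith
    have k2 : m * (s + p * G) ≤ m * (s + G) := mul_le_mul_of_nonneg_left (by linarith) hm0
    have k3 : m * (s + G) ≤ 8 / 15 * (s + G) := mul_le_mul_of_nonneg_right hm1 (by linarith)
    linarith
  have h2 : 4 / 7 * (s + G) * (2 * (7 / 15)) ≤ 4 / 7 * (s + G) * (2 * (1 - p * m)) :=
    mul_le_mul_of_nonneg_left (by linarith) (by linarith)
  linarith

theorem mid_RR0_left {t p : ℝ} (h0 : 0 < t) (h1 : t ≤ π / 2) (hp : 0 < p) (hp1 : p ≤ 1) :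
    1 / 50 ≤ Gam t - mf t * (sin t + p * Gam t) / (2 * (1 - p * mf t)) := by
  have hpi := Real.pi_gt_d4
  have hpi2 := Real.pi_lt_d4
  have hG0 := Gam_ge h0.le (by linarith)
  have hs0 : 0 ≤ sin t := (Real.sin_pos_of_pos_of_lt_pi h0 (by linarith)).le
  have hs1 : sin t ≤ 1 := Real.sin_le_one t
  have haux := mid_RR_aux hs0 (mf_nonneg t) (mf_le t) (by linarith : 0 ≤ Gam t) hp hp1
  rcases le_total t (π / 40) with h | h
  · rw [mf_zero_left h]
    simp only [zero_mul, zero_div, sub_zero]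
    linarith
  · rcases le_total t (3 * π / 80) with h' | h'
    · have h2 := mid_Gam_lb h h1
      have h3 : sin t ≤ t := Real.sin_le h0.le
      linarith
    · have h2 := Gam_mid h' (by linarith)
      nlinarith

/-- `G - m (s + p G)/(2 j) ≥ 1/50` -/
theorem mid_RR0 {t p : ℝ} (h0 : 0 < t) (h1 : t < π) (hp : 0 < p) (hp1 : p ≤ 1) :
    1 / 50 ≤ Gam t - mf t * (sin t + p * Gam t) / (2 * (1 - p * mf t)) := by
  rcases le_total t (π / 2) with h | h
  · exact mid_RR0_left h0 h hp hp1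
  · have h2 := mid_RR0_left (t := π - t) (by linarith) (by linarith) hp hp1
    rw [Gam_symm, mf_symm, Real.sin_pi_sub] at h2
    exact h2

theorem mid_RX0_strong {t : ℝ} (h0 : 0 < t) (h1 : t < π) : |Gam1 t + mf t * cos t| ≤ 9 / 2 := by
  have hs0 : 0 ≤ sin t := (Real.sin_pos_of_pos_of_lt_pi h0 h1).le
  have hs1 : sin t ≤ 1 := Real.sin_le_one t
  have hm0 := mf_nonneg t
  have hm := mf_le t
  have e : Gam1 t + mf t * cos t = (1 - mf t) * (15 / 7 * (5 / 2 - sin t) - 1) * cos t := by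
    unfold Gam1 estar
    ring
  rw [e, abs_mul]
  have h2 : |(1 - mf t) * (15 / 7 * (5 / 2 - sin t) - 1)| ≤ 9 / 2 := by
    rw [abs_of_nonneg (mul_nonneg (by linarith) (by linarith))]
    nlinarith [mul_nonneg hm0 (by linarith : 0 ≤ 15 / 7 * (5 / 2 - sin t) - 1)]
  have h3 : |cos t| ≤ 1 := Real.abs_cos_le_one t
  calc _ ≤ 9 / 2 * 1 := mul_le_mul h2 h3 (abs_nonneg _) (by norm_num)
    _ = 9 / 2 := by norm_num

theorem mid_RX0 {t : ℝ} (h0 : 0 < t) (h1 : t < π) : |Gam1 t + mf t * cos t| ≤ 6 := by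
  have := mid_RX0_strong h0 h1
  linarith

/-- a negative definite form -/
theorem mid_form {A B C : ℝ} (hA : A ≤ 0) (hC : C ≤ 0) (h : B^2 ≤ A * C) (v w : ℝ) :
    A * v^2 - 2 * B * v * w + C * w^2 ≤ 0 := by
  rcases eq_or_lt_of_le hA with hA0 | hA0
  · rw [hA0, zero_mul] at h
    have hB : B = 0 := by
      have := sq_nonneg B
      exact pow_eq_zero_iff (two_ne_zero) |>.1 (le_antisymm h this)
    rw [hA0, hB]
    nlinarith [mul_nonneg (neg_nonneg.2 hC) (sq_nonneg w)]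
  · have h1 : 0 ≤ (-A) * (-(A * v^2 - 2 * B * v * w + C * w^2)) := by
      have e : (-A) * (-(A * v^2 - 2 * B * v * w + C * w^2)) =
          (A * v - B * w)^2 + (A * C - B^2) * w^2 := by ring
      rw [e]
      have := mul_nonneg (sub_nonneg.2 h) (sq_nonneg w)
      positivity
    have h2 : 0 ≤ -(A * v^2 - 2 * B * v * w + C * w^2) :=
      nonneg_of_mul_nonneg_right h1 (by linarith)
    linarith

/-- the full matrix inequality; `d, e` small with `d² ≤ 2 c p e`, `β` small. -/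
theorem mid_matrix {t p d e β : ℝ} (h0 : 0 < t) (h1 : t < π) (hp : 0 < p) (hp1 : p ≤ 1)
    (hd : 0 ≤ d) (hd1 : d ≤ cc * p) (he : 0 ≤ e) (he1 : e ≤ 9 * cc * p) (hde : d^2 ≤ 2 * cc * p * e)
    (hβ : 0 ≤ β) (hβ1 : β ≤ 1 / 1000) (v w : ℝ) :
    (-e * Gam t + e * mf t / (2 * (1 - p * mf t)) * (sin t + p * Gam t + β)) * v^2
      - 2 * (d / (1 - p * mf t)^2 * (Gam1 t + mf t * cos t)) * v * w
      + (sx t p + (1 + mf t * d / (1 - p * mf t)) * (sin t + p * Gam t - d * Gam t)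
        + e * mf t / (2 * (1 - p * mf t)) * (sin t + p * Gam t + β)) * w^2 ≤ 0 := by
  obtain ⟨hj, hj1⟩ := mid_j (t := t) hp hp1
  have hj0 : 0 < 1 - p * mf t := by linarith
  have hs0 : 0 ≤ sin t := (Real.sin_pos_of_pos_of_lt_pi h0 h1).le
  have hs1 : sin t ≤ 1 := Real.sin_le_one t
  have hG1 := Gam_le h0.le h1.le
  have hG0 := Gam_ge h0.le h1.le
  have hm0 := mf_nonneg t
  have hm1 := mf_le t
  have hXX := mid_XX0 h0 h1 hp hp1
  have hRR := mid_RR0 h0 h1 hp hp1
  have hRX := mid_RX0_strong h0 h1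
  have hcc : cc = 1 / 10000000 := rfl
  rw [hcc] at hd1 he1 hde
  set m := mf t with hm
  set G := Gam t with hG
  set s := sin t with hs
  set j := 1 - p * m with hjdef
  have hmj : m / (2 * j) ≤ 4 / 7 := by
    rw [div_le_iff₀ (by linarith)]
    linarith
  have hmj0 : 0 ≤ m / (2 * j) := by positivity
  have hmj2 : m / j ≤ 8 / 7 := by
    rw [div_le_iff₀ hj0]
    linarith
  have hmj20 : 0 ≤ m / j := by positivity
  -- the entry `A`
  have hA : -e * G + e * m / (2 * j) * (s + p * G + β) ≤ -(e * (19 / 1000)) := by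
    have e1 : -e * G + e * m / (2 * j) * (s + p * G + β) =
        -e * (G - m * (s + p * G) / (2 * j)) + e * (m / (2 * j)) * β := by
      field_simp
      ring
    rw [e1]
    have k1 : -e * (G - m * (s + p * G) / (2 * j)) ≤ -e * (1 / 50) :=
      mul_le_mul_of_nonpos_left hRR (by linarith)
    have k2 : e * (m / (2 * j)) * β ≤ e * (4 / 7) * (1 / 1000) := by
      apply mul_le_mul (mul_le_mul_of_nonneg_left hmj he) hβ1 hβ (by positivity)
    nlinarith
  -- the entry `C`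
  have hC : sx t p + (1 + m * d / j) * (s + p * G - d * G)
        + e * m / (2 * j) * (s + p * G + β) ≤ -(p / 16) := by
    have e1 : sx t p + (1 + m * d / j) * (s + p * G - d * G)
        + e * m / (2 * j) * (s + p * G + β) =
        (sx t p + (s + p * G)) + (m / j) * d * (s + p * G) - (1 + m * d / j) * (d * G)
        + e * (m / (2 * j)) * (s + p * G + β) := by
      field_simp
      ring
    rw [e1]
    have k0 : s + p * G ≤ 5 / 2 := by nlinarith
    have k00 : 0 ≤ s + p * G := by positivity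
    have k1 : (m / j) * d * (s + p * G) ≤ (8 / 7) * (1 / 10000000 * p) * (5 / 2) :=
      mul_le_mul (mul_le_mul hmj2 hd1 hd (by norm_num)) k0 k00 (by positivity)
    have k2 : 0 ≤ (1 + m * d / j) * (d * G) := by positivity
    have k3 : e * (m / (2 * j)) * (s + p * G + β) ≤ (9 * (1 / 10000000) * p) * (4 / 7) * 3 :=
      mul_le_mul (mul_le_mul he1 hmj hmj0 (by positivity)) (by linarith) (by linarith)
        (by positivity)
    linarith
  -- the entry `B`
  have hB : (d / j^2 * (Gam1 t + m * cos t))^2 ≤ 430 * d^2 := by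
    have k1 : (Gam1 t + m * cos t)^2 ≤ (9 / 2)^2 := sq_le_sq' (by linarith [abs_le.1 hRX]) (abs_le.1 hRX).2
    have k2 : (1 / j^2)^2 ≤ ((15 / 7)^2)^2 := by
      apply pow_le_pow_left₀ (by positivity)
      rw [div_le_iff₀ (by positivity)]
      nlinarith
    have e1 : (d / j^2 * (Gam1 t + m * cos t))^2 =
        d^2 * ((1 / j^2)^2 * (Gam1 t + m * cos t)^2) := by
      field_simp
    rw [e1, mul_comm 430]
    apply mul_le_mul_of_nonneg_left _ (sq_nonneg d)
    calc (1 / j^2)^2 * (Gam1 t + m * cos t)^2 ≤ ((15 / 7)^2)^2 * (9 / 2)^2 :=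
          mul_le_mul k2 k1 (sq_nonneg _) (by positivity)
      _ ≤ 430 := by norm_num
  have hAC : e * (19 / 1000) * (p / 16) ≤ (-e * G + e * m / (2 * j) * (s + p * G + β)) *
      (sx t p + (1 + m * d / j) * (s + p * G - d * G)
        + e * m / (2 * j) * (s + p * G + β)) := by
    have hA' : e * (19 / 1000) ≤ -(-e * G + e * m / (2 * j) * (s + p * G + β)) := by linarith
    have hC' : p / 16 ≤ -(sx t p + (1 + m * d / j) * (s + p * G - d * G)
        + e * m / (2 * j) * (s + p * G + β)) := by linarith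
    have k := mul_le_mul hA' hC' (by positivity) (le_trans (by positivity) hA')
    rw [neg_mul_neg] at k
    exact k
  refine mid_form (hA.trans (by nlinarith)) (hC.trans (by linarith)) ?_ v w
  refine le_trans hB (le_trans ?_ hAC)
  nlinarith [mul_nonneg hp.le he]

end Pool.Agent.MP39e402
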