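import Pool.Agent.Lib.MP_39e402_gt.LConc
import Pool.Agent.Lib.MP_39e402_gt.LLoc
import Pool.Agent.Lib.MP_39e402_gt.LMid

/-! # MP_39e402, module LLocQ: polar coordinates, properties of `QN, sN, QL, sL`.
Concavity of `QN` in the sectors: in polar coordinates of the flat plane the Hessian of `Γ(θ) P(R)` in the
frame `∂_R, ∂_θ/R`, times `R`, is the matrix of `mid_matrix` with `m = 0`, `β = 0` (where
`sx θ p + sin θ = p Γ''`). -/

open Real Set Filter Topology MeasureTheory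
open scoped ContDiff

noncomputable section

namespace Pool.Agent.MP39e402

private theorem rad_pos' {X Y : ℝ} (hY : 0 < Y) : 0 < rad X Y := by
  unfold rad
  apply Real.sqrt_pos.2
  positivity

private theorem rad_sq' (X Y : ℝ) : rad X Y ^ 2 = X ^ 2 + Y ^ 2 := by
  unfold rad
  exact Real.sq_sqrt (by positivity)

private theorem absX_lt {X Y : ℝ} (hY : 0 < Y) : |X| < rad X Y := by
  have h := rad_sq' X Y
  have h1 := rad_pos' (X := X) hY
  apply abs_lt_of_sq_lt_sq _ h1.le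
  rw [h]
  nlinarith

private theorem XR_mem {X Y : ℝ} (hY : 0 < Y) : -1 < X / rad X Y ∧ X / rad X Y < 1 := by
  have h := absX_lt (X := X) hY
  have h1 := rad_pos' (X := X) hY
  rw [abs_lt] at h
  constructor
  · rw [lt_div_iff₀ h1]; linarith
  · rw [div_lt_one h1]; linarith

theorem rad_polar {R t : ℝ} (hR : 0 < R) : rad (R * cos t) (R * sin t) = R := by
  unfold rad
  have h : (R * cos t) ^ 2 + (R * sin t) ^ 2 = R ^ 2 := by
    linear_combination R ^ 2 * (Real.sin_sq_add_cos_sq t)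
  rw [h, Real.sqrt_sq hR.le]

theorem ang_polar {R t : ℝ} (hR : 0 < R) (h0 : 0 ≤ t) (h1 : t ≤ π) :
    ang (R * cos t) (R * sin t) = t := by
  unfold ang
  rw [rad_polar hR, mul_div_cancel_left₀ _ hR.ne', Real.arccos_cos h0 h1]

theorem ang_mem {X Y : ℝ} (hY : 0 < Y) : 0 < ang X Y ∧ ang X Y < π :=
  ⟨Real.arccos_pos.2 (XR_mem hY).2, Real.arccos_lt_pi.2 (XR_mem hY).1⟩

theorem polar_eq {X Y : ℝ} (hY : 0 < Y) :
    rad X Y * cos (ang X Y) = X ∧ rad X Y * sin (ang X Y) = Y := by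
  have h1 := rad_pos' (X := X) hY
  have h2 := XR_mem (X := X) hY
  constructor
  · unfold ang
    rw [Real.cos_arccos h2.1.le h2.2.le, mul_div_cancel₀ _ h1.ne']
  · unfold ang
    rw [Real.sin_arccos]
    have h3 : 1 - (X / rad X Y) ^ 2 = (Y / rad X Y) ^ 2 := by
      rw [div_pow, div_pow, rad_sq']
      have : X ^ 2 + Y ^ 2 ≠ 0 := by positivity
      field_simp
      ring
    rw [h3, Real.sqrt_sq (by positivity), mul_div_cancel₀ _ h1.ne']

theorem rad_contDiffOn : ContDiffOn ℝ ∞ (fun p : ℝ × ℝ => rad p.1 p.2) {p | 0 < p.2} := by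
  unfold rad
  apply ContDiffOn.sqrt
  · exact ((contDiff_fst.pow 2).add (contDiff_snd.pow 2)).contDiffOn
  · intro p hp
    have hp' : 0 < p.2 := hp
    positivity

theorem ang_contDiffOn : ContDiffOn ℝ ∞ (fun p : ℝ × ℝ => ang p.1 p.2) {p | 0 < p.2} := by
  intro p hp
  have hp' : 0 < p.2 := hp
  have h2 := XR_mem (X := p.1) hp'
  have h3 : ContDiffWithinAt ℝ ∞ (fun p : ℝ × ℝ => p.1 / rad p.1 p.2) {p | 0 < p.2} p :=
    contDiffWithinAt_fst.div (rad_contDiffOn p hp) (rad_pos' hp').ne'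
  exact (Real.contDiffAt_arccos (n := ∞) h2.1.ne' h2.2.ne).comp_contDiffWithinAt p h3

/-! ## concavity along lines -/

private theorem concaveOn_of_lines {S : Set (ℝ × ℝ)} (hS : Convex ℝ S) (f : ℝ × ℝ → ℝ)
    (f1 f2 : ℝ × ℝ → ℝ × ℝ → ℝ)
    (h1 : ∀ p ∈ S, ∀ v : ℝ × ℝ, HasDerivAt (fun t : ℝ => f (p + t • v)) (f1 p v) 0)
    (h2 : ∀ p ∈ S, ∀ v : ℝ × ℝ, HasDerivAt (fun t : ℝ => f1 (p + t • v) v) (f2 p v) 0)
    (h3 : ∀ p ∈ S, ∀ v : ℝ × ℝ, f2 p v ≤ 0) : ConcaveOn ℝ S f := by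
  refine ⟨hS, ?_⟩
  intro x hx y hy a b ha hb hab
  have hmem : ∀ t ∈ Set.Icc (0:ℝ) 1, x + t • (y - x) ∈ S := by
    intro t ht
    have h4 := hS hx hy (show 0 ≤ 1 - t by linarith [ht.2]) ht.1 (by ring)
    have h5 : x + t • (y - x) = (1 - t) • x + t • y := by
      rw [smul_sub, sub_smul, one_smul]; abel
    rw [h5]
    exact h4
  have hd1 : ∀ t ∈ Set.Icc (0:ℝ) 1, HasDerivAt (fun t : ℝ => f (x + t • (y - x)))
      (f1 (x + t • (y - x)) (y - x)) t := by
    intro t ht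
    have h4 := h1 _ (hmem t ht) (y - x)
    have h4' : HasDerivAt (fun s : ℝ => f (x + t • (y - x) + s • (y - x)))
      (f1 (x + t • (y - x)) (y - x)) (t - t) := by rw [sub_self]; exact h4
    have h6 := h4'.comp_sub_const t t
    refine h6.congr_of_eventuallyEq (Eventually.of_forall fun r => ?_)
    show f (x + r • (y - x)) = f (x + t • (y - x) + (r - t) • (y - x))
    rw [sub_smul, add_assoc, add_sub_cancel]
  have hd2 : ∀ t ∈ Set.Icc (0:ℝ) 1, HasDerivAt (fun t : ℝ => f1 (x + t • (y - x)) (y - x))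
      (f2 (x + t • (y - x)) (y - x)) t := by
    intro t ht
    have h4 := h2 _ (hmem t ht) (y - x)
    have h4' : HasDerivAt (fun s : ℝ => f1 (x + t • (y - x) + s • (y - x)) (y - x))
      (f2 (x + t • (y - x)) (y - x)) (t - t) := by rw [sub_self]; exact h4
    have h6 := h4'.comp_sub_const t t
    refine h6.congr_of_eventuallyEq (Eventually.of_forall fun r => ?_)
    show f1 (x + r • (y - x)) (y - x) = f1 (x + t • (y - x) + (r - t) • (y - x)) (y - x)
    rw [sub_smul, add_assoc, add_sub_cancel]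
  have hconc : ConcaveOn ℝ (Set.Icc (0:ℝ) 1) (fun t : ℝ => f (x + t • (y - x))) := by
    apply concaveOn_of_hasDerivWithinAt2_nonpos (convex_Icc 0 1)
      (f' := fun t => f1 (x + t • (y - x)) (y - x)) (f'' := fun t => f2 (x + t • (y - x)) (y - x))
    · intro t ht
      exact (hd1 t ht).continuousAt.continuousWithinAt
    · intro t ht
      exact (hd1 t (interior_subset ht)).hasDerivWithinAt
    · intro t ht
      exact (hd2 t (interior_subset ht)).hasDerivWithinAt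
    · intro t ht
      exact h3 _ (hmem t (interior_subset ht)) _
  have h7 := hconc.2 (x := 0) (y := 1) ⟨le_rfl, zero_le_one⟩ ⟨zero_le_one, le_rfl⟩ ha hb hab
  simp only [smul_eq_mul, mul_zero, mul_one, zero_add, zero_smul, add_zero, one_smul,
    add_sub_cancel] at h7
  have h8 : a • x + b • y = x + b • (y - x) := by
    have : a = 1 - b := by linarith
    rw [this, smul_sub, sub_smul, one_smul]; abel
  rw [h8]
  simpa [smul_eq_mul] using h7

/-! ## derivatives of the polar coordinates along a line -/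

private def rho (p v : ℝ × ℝ) : ℝ := (p.1 * v.1 + p.2 * v.2) / rad p.1 p.2

private def omg (p v : ℝ × ℝ) : ℝ := (p.1 * v.2 - p.2 * v.1) / (rad p.1 p.2) ^ 2

private theorem line_fst (p v : ℝ × ℝ) : HasDerivAt (fun t : ℝ => (p + t • v).1) v.1 0 := by
  have h : HasDerivAt (fun t : ℝ => p.1 + t * v.1) (1 * v.1) 0 :=
    ((hasDerivAt_id (0:ℝ)).mul_const v.1).const_add p.1
  rw [one_mul] at h
  exact h

private theorem line_snd (p v : ℝ × ℝ) : HasDerivAt (fun t : ℝ => (p + t • v).2) v.2 0 := by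
  have h : HasDerivAt (fun t : ℝ => p.2 + t * v.2) (1 * v.2) 0 :=
    ((hasDerivAt_id (0:ℝ)).mul_const v.2).const_add p.2
  rw [one_mul] at h
  exact h

private theorem line_zero (p v : ℝ × ℝ) : p + (0:ℝ) • v = p := by rw [zero_smul, add_zero]

private theorem rad_line (p v : ℝ × ℝ) (hp : 0 < p.2) :
    HasDerivAt (fun t : ℝ => rad (p + t • v).1 (p + t • v).2) (rho p v) 0 := by
  have h1 := ((line_fst p v).pow 2).add ((line_snd p v).pow 2)
  have h2 : (((fun t : ℝ => (p + t • v).1) ^ 2 + (fun t : ℝ => (p + t • v).2) ^ 2) : ℝ → ℝ) 0 ≠ 0 := by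
    show (p + (0:ℝ) • v).1 ^ 2 + (p + (0:ℝ) • v).2 ^ 2 ≠ 0
    rw [line_zero]
    positivity
  have h3 := h1.sqrt h2
  have h4 := rad_pos' (X := p.1) hp
  refine h3.congr_deriv ?_
  symm
  show rho p v = (((2:ℕ):ℝ) * (p + (0:ℝ) • v).1 ^ (2 - 1) * v.1 +
    ((2:ℕ):ℝ) * (p + (0:ℝ) • v).2 ^ (2 - 1) * v.2) /
    (2 * √((p + (0:ℝ) • v).1 ^ 2 + (p + (0:ℝ) • v).2 ^ 2))
  rw [line_zero]
  show (p.1 * v.1 + p.2 * v.2) / rad p.1 p.2 = _ / (2 * rad p.1 p.2)
  push_cast
  field_simp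

private theorem sqrt_one_sub {X Y : ℝ} (hY : 0 < Y) : √(1 - (X / rad X Y) ^ 2) = Y / rad X Y := by
  have h1 := rad_pos' (X := X) hY
  have h3 : 1 - (X / rad X Y) ^ 2 = (Y / rad X Y) ^ 2 := by
    rw [div_pow, div_pow, rad_sq']
    have : X ^ 2 + Y ^ 2 ≠ 0 := by positivity
    field_simp
    ring
  rw [h3, Real.sqrt_sq (by positivity)]

private theorem ang_line (p v : ℝ × ℝ) (hp : 0 < p.2) :
    HasDerivAt (fun t : ℝ => ang (p + t • v).1 (p + t • v).2) (omg p v) 0 := by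
  have h4 := rad_pos' (X := p.1) hp
  have h1 : HasDerivAt (fun t : ℝ => (p + t • v).1 / rad (p + t • v).1 (p + t • v).2)
      ((v.1 * rad p.1 p.2 - p.1 * rho p v) / (rad p.1 p.2) ^ 2) 0 := by
    have h5 := (line_fst p v).div (rad_line p v hp) (by
      show rad (p + (0:ℝ) • v).1 (p + (0:ℝ) • v).2 ≠ 0
      rw [line_zero]
      exact h4.ne')
    simp only [line_zero] at h5
    exact h5
  have h2 := XR_mem (X := p.1) hp
  have h3 : HasDerivAt Real.arccos (-(1 / √(1 - (p.1 / rad p.1 p.2) ^ 2)))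
      ((p + (0:ℝ) • v).1 / rad (p + (0:ℝ) • v).1 (p + (0:ℝ) • v).2) := by
    rw [line_zero]
    exact Real.hasDerivAt_arccos h2.1.ne' h2.2.ne
  have h6 := h3.comp (0:ℝ) h1
  refine h6.congr_deriv ?_
  symm
  rw [sqrt_one_sub hp]
  unfold omg rho
  have h7 := rad_sq' p.1 p.2
  field_simp
  linear_combination (v.1) * h7

private theorem rho_line (p v : ℝ × ℝ) (hp : 0 < p.2) :
    HasDerivAt (fun t : ℝ => rho (p + t • v) v) (rad p.1 p.2 * omg p v ^ 2) 0 := by
  have h4 := rad_pos' (X := p.1) hp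
  have h1 : HasDerivAt (fun t : ℝ => (p + t • v).1 * v.1 + (p + t • v).2 * v.2)
      (v.1 * v.1 + v.2 * v.2) 0 :=
    ((line_fst p v).mul_const v.1).add ((line_snd p v).mul_const v.2)
  have h5 := h1.div (rad_line p v hp) (by
      show rad (p + (0:ℝ) • v).1 (p + (0:ℝ) • v).2 ≠ 0
      rw [line_zero]
      exact h4.ne')
  refine h5.congr_deriv ?_
  symm
  simp only [line_zero]
  unfold omg rho
  have h7 := rad_sq' p.1 p.2
  field_simp
  have h8 : rad p.1 p.2 ^ 4 = (p.1 ^ 2 + p.2 ^ 2) ^ 2 := by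
    rw [← h7]; ring
  nlinarith [h7, h8]

private theorem omg_line (p v : ℝ × ℝ) (hp : 0 < p.2) :
    HasDerivAt (fun t : ℝ => omg (p + t • v) v) (-2 * omg p v * rho p v / rad p.1 p.2) 0 := by
  have h4 := rad_pos' (X := p.1) hp
  have h1 : HasDerivAt (fun t : ℝ => (p + t • v).1 * v.2 - (p + t • v).2 * v.1)
      (v.1 * v.2 - v.2 * v.1) 0 :=
    ((line_fst p v).mul_const v.2).sub ((line_snd p v).mul_const v.1)
  have h5 := h1.div ((rad_line p v hp).pow 2) (by
      show rad (p + (0:ℝ) • v).1 (p + (0:ℝ) • v).2 ^ 2 ≠ 0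
      rw [line_zero]
      exact pow_ne_zero 2 h4.ne')
  refine h5.congr_deriv ?_
  symm
  simp only [line_zero, Pi.pow_apply]
  unfold omg
  field_simp
  push_cast
  ring

/-! ## near the axis: concavity -/

/-- right sector of angle `π/40` -/
def SecR : Set (ℝ × ℝ) := {p | 0 < p.2 ∧ p.2 < p.1 * tan (π / 40)}

/-- left sector -/
def SecL : Set (ℝ × ℝ) := {p | 0 < p.2 ∧ p.2 < -p.1 * tan (π / 40)}

/-- the model function `Γ(θ) P(R)` -/
private def Wf (p : ℝ × ℝ) : ℝ := Gam (ang p.1 p.2) * Pf (rad p.1 p.2)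

private def Wf1 (p v : ℝ × ℝ) : ℝ :=
  Gam1 (ang p.1 p.2) * omg p v * Pf (rad p.1 p.2) +
    Gam (ang p.1 p.2) * ((pf (rad p.1 p.2) - df (rad p.1 p.2)) * rho p v)

private def Wf2 (p v : ℝ × ℝ) : ℝ :=
  (Gam2 (ang p.1 p.2) * omg p v * omg p v +
      Gam1 (ang p.1 p.2) * (-2 * omg p v * rho p v / rad p.1 p.2)) * Pf (rad p.1 p.2) +
    Gam1 (ang p.1 p.2) * omg p v * ((pf (rad p.1 p.2) - df (rad p.1 p.2)) * rho p v) +
    (Gam1 (ang p.1 p.2) * omg p v * ((pf (rad p.1 p.2) - df (rad p.1 p.2)) * rho p v) +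
      Gam (ang p.1 p.2) * (-(ef (rad p.1 p.2)) / rad p.1 p.2 * rho p v * rho p v +
        (pf (rad p.1 p.2) - df (rad p.1 p.2)) * (rad p.1 p.2 * omg p v ^ 2)))

private theorem line_comp {g : ℝ → ℝ} {g' : ℝ} {h : ℝ → ℝ} {h' x : ℝ} (hx : h 0 = x)
    (hg : HasDerivAt g g' x) (hh : HasDerivAt h h' 0) :
    HasDerivAt (fun t => g (h t)) (g' * h') 0 := by
  subst hx
  exact hg.comp 0 hh

private theorem Wf_line (p : ℝ × ℝ) (hp : 0 < p.2) (v : ℝ × ℝ) :
    HasDerivAt (fun t : ℝ => Wf (p + t • v)) (Wf1 p v) 0 := by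
  have h4 := rad_pos' (X := p.1) hp
  have e1 : (fun t : ℝ => ang (p + t • v).1 (p + t • v).2) 0 = ang p.1 p.2 := by
    simp only [line_zero]
  have e2 : (fun t : ℝ => rad (p + t • v).1 (p + t • v).2) 0 = rad p.1 p.2 := by
    simp only [line_zero]
  have h1 := line_comp e1 (Gam_hasDerivAt (ang p.1 p.2)) (ang_line p v hp)
  have h2 := line_comp e2 (Pf_hasDerivAt h4) (rad_line p v hp)
  refine (h1.mul h2).congr_deriv ?_
  simp only [line_zero]
  rfl

private theorem Wf1_line (p : ℝ × ℝ) (hp : 0 < p.2) (v : ℝ × ℝ) :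
    HasDerivAt (fun t : ℝ => Wf1 (p + t • v) v) (Wf2 p v) 0 := by
  have h4 := rad_pos' (X := p.1) hp
  have e1 : (fun t : ℝ => ang (p + t • v).1 (p + t • v).2) 0 = ang p.1 p.2 := by
    simp only [line_zero]
  have e2 : (fun t : ℝ => rad (p + t • v).1 (p + t • v).2) 0 = rad p.1 p.2 := by
    simp only [line_zero]
  have g0 := line_comp e1 (Gam_hasDerivAt (ang p.1 p.2)) (ang_line p v hp)
  have g1 := line_comp e1 (Gam1_hasDerivAt (ang p.1 p.2)) (ang_line p v hp)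
  have q0 := line_comp e2 (Pf_hasDerivAt h4) (rad_line p v hp)
  have q1 := line_comp e2 (Pf_hasDerivAt2 h4) (rad_line p v hp)
  have r1 := rho_line p v hp
  have o1 := omg_line p v hp
  refine (((g1.mul o1).mul q0).add (g0.mul (q1.mul r1))).congr_deriv ?_
  simp only [Pi.mul_apply, line_zero]
  unfold Wf2 Gam1
  ring

private theorem Wf2_nonpos (p : ℝ × ℝ) (hp : 0 < p.2) (ha : ang p.1 p.2 < π / 40)
    (v : ℝ × ℝ) : Wf2 p v ≤ 0 := by
  have h4 := rad_pos' (X := p.1) hp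
  have ha0 := ang_mem (X := p.1) hp
  have hm : mf (ang p.1 p.2) = 0 := mf_zero_left ha.le
  have hm' : deriv mf (ang p.1 p.2) = 0 := by
    have h5 : mf =ᶠ[𝓝 (ang p.1 p.2)] fun _ => 0 := by
      filter_upwards [Iio_mem_nhds ha] with t ht
      exact mf_zero_left (le_of_lt ht)
    rw [h5.deriv_eq, deriv_const]
  have h6 := mid_matrix (t := ang p.1 p.2) (p := pf (rad p.1 p.2)) (d := df (rad p.1 p.2))
    (e := ef (rad p.1 p.2)) (β := 0) ha0.1 ha0.2 (pf_pos _) (pf_le_one _) (df_nonneg _) (df_le _)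
    (ef_nonneg _) (ef_le _) (df_sq_le _) le_rfl (by norm_num) (rho p v) (rad p.1 p.2 * omg p v)
  unfold sx at h6
  rw [hm, hm'] at h6
  have h7 : rad p.1 p.2 * Wf2 p v ≤ 0 := by
    refine le_trans (le_of_eq ?_) h6
    unfold Wf2
    rw [Pf_eq]
    field_simp
    ring
  by_contra h8
  push Not at h8
  have := mul_pos h4 h8
  linarith

private theorem SecR_ang {p : ℝ × ℝ} (hp : p ∈ SecR) : ang p.1 p.2 < π / 40 := by
  obtain ⟨h1, h2⟩ := hp
  have hpi := Real.pi_pos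
  have ha0 := ang_mem (X := p.1) h1
  have htan : 0 < tan (π / 40) := Real.tan_pos_of_pos_of_lt_pi_div_two (by positivity) (by linarith)
  have hx : 0 < p.1 := by
    by_contra h
    push Not at h
    nlinarith
  obtain ⟨h3, h4⟩ := polar_eq (X := p.1) h1
  have hR := rad_pos' (X := p.1) h1
  by_contra h
  push Not at h
  have hcos : 0 < cos (ang p.1 p.2) := by
    by_contra h5
    push Not at h5
    nlinarith
  have hlt : ang p.1 p.2 < π / 2 := by
    by_contra h5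
    push Not at h5
    have := Real.cos_nonpos_of_pi_div_two_le_of_le h5 (by linarith [ha0.2])
    linarith
  have hmono : tan (π / 40) ≤ tan (ang p.1 p.2) := by
    rcases h.eq_or_lt with h5 | h5
    · rw [h5]
    · exact (Real.tan_lt_tan_of_lt_of_lt_pi_div_two (by linarith) hlt h5).le
  rw [Real.tan_eq_sin_div_cos (ang p.1 p.2), le_div_iff₀ hcos] at hmono
  have h6 : p.1 * tan (π / 40) ≤ p.2 := by
    rw [← h4]
    nth_rewrite 1 [← h3]
    have := mul_le_mul_of_nonneg_left hmono hR.le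
    linarith
  linarith

private theorem SecR_convex : Convex ℝ SecR := by
  intro x hx y hy a b ha hb hab
  obtain ⟨h1, h2⟩ := hx
  obtain ⟨h3, h4⟩ := hy
  refine ⟨?_, ?_⟩
  · show 0 < a * x.2 + b * y.2
    rcases ha.eq_or_lt with h | h
    · subst h
      have : b = 1 := by linarith
      subst this
      linarith
    · have := mul_pos h h1
      have := mul_nonneg hb h3.le
      linarith
  · show a * x.2 + b * y.2 < (a * x.1 + b * y.1) * tan (π / 40)
    rcases ha.eq_or_lt with h | h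
    · subst h
      have : b = 1 := by linarith
      subst this
      linarith
    · have := mul_lt_mul_of_pos_left h2 h
      have := mul_le_mul_of_nonneg_left h4.le hb
      nlinarith

private theorem Wf_concaveOn : ConcaveOn ℝ SecR Wf :=
  concaveOn_of_lines SecR_convex Wf Wf1 Wf2 (fun p hp v => Wf_line p hp.1 v)
    (fun p hp v => Wf1_line p hp.1 v) (fun p hp v => Wf2_nonpos p hp.1 (SecR_ang hp) v)

private theorem rad_scale {ε : ℝ} (h : 0 < ε) (X Y : ℝ) : rad (X / ε) (Y / ε) = rad X Y / ε := by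
  unfold rad
  rw [div_pow, div_pow, ← add_div, Real.sqrt_div (by positivity), Real.sqrt_sq h.le]

private theorem ang_scale {ε : ℝ} (h : 0 < ε) (X Y : ℝ) : ang (X / ε) (Y / ε) = ang X Y := by
  unfold ang
  rw [rad_scale h, div_div_div_cancel_right₀ h.ne']

private theorem QN_eq {ε : ℝ} (h : 0 < ε) (p : ℝ × ℝ) :
    QN ε p.1 p.2 = ε / lam + ε * Wf (ε⁻¹ • p) := by
  unfold QN Wf
  have e1 : (ε⁻¹ • p).1 = p.1 / ε := by
    show ε⁻¹ * p.1 = p.1 / ε
    rw [div_eq_inv_mul]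
  have e2 : (ε⁻¹ • p).2 = p.2 / ε := by
    show ε⁻¹ * p.2 = p.2 / ε
    rw [div_eq_inv_mul]
  rw [e1, e2, ang_scale h, rad_scale h]
  ring

/-- along a straight line the second derivative is given by the matrix of `mid_matrix` with `m = 0` -/
theorem QN_concaveOn_R {ε : ℝ} (h : 0 < ε) : ConcaveOn ℝ SecR (fun p => QN ε p.1 p.2) := by
  have h1 := Wf_concaveOn.comp_linearMap (ε⁻¹ • (LinearMap.id : (ℝ × ℝ) →ₗ[ℝ] (ℝ × ℝ)))
  have h2 : (⇑(ε⁻¹ • (LinearMap.id : (ℝ × ℝ) →ₗ[ℝ] (ℝ × ℝ))) ⁻¹' SecR) = SecR := by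
    ext p
    show (0 < ε⁻¹ * p.2 ∧ ε⁻¹ * p.2 < ε⁻¹ * p.1 * tan (π / 40)) ↔ (0 < p.2 ∧ p.2 < p.1 * tan (π / 40))
    have h3 : 0 < ε⁻¹ := inv_pos.2 h
    rw [mul_assoc, mul_lt_mul_iff_right₀ h3, mul_pos_iff_of_pos_left h3]
  rw [h2] at h1
  have h4 := (h1.smul h.le).add_const (ε / lam)
  refine h4.congr ?_
  intro p _
  show ε * Wf (ε⁻¹ • p) + ε / lam = QN ε p.1 p.2
  rw [QN_eq h]
  ring

theorem QN_symm {ε X Y : ℝ} (hY : 0 < Y) : QN ε (-X) Y = QN ε X Y := by
  unfold QN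
  have h1 : rad (-X) Y = rad X Y := by unfold rad; rw [neg_sq]
  have h2 : ang (-X) Y = π - ang X Y := by
    unfold ang
    rw [h1, neg_div, Real.arccos_neg]
  rw [h1, h2, Gam_symm]

theorem QN_concaveOn_L {ε : ℝ} (h : 0 < ε) : ConcaveOn ℝ SecL (fun p => QN ε p.1 p.2) := by
  have h1 := (QN_concaveOn_R h).comp_linearMap
    ((-(LinearMap.fst ℝ ℝ ℝ)).prod (LinearMap.snd ℝ ℝ ℝ))
  have h2 : (⇑((-(LinearMap.fst ℝ ℝ ℝ)).prod (LinearMap.snd ℝ ℝ ℝ)) ⁻¹' SecR) = SecL := by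
    ext p
    rfl
  rw [h2] at h1
  refine h1.congr ?_
  intro p hp
  show QN ε (-p.1) p.2 = QN ε p.1 p.2
  exact QN_symm hp.1

private theorem lam_pos' : 0 < lam := by unfold lam; norm_num

theorem QN_pos {ε X Y : ℝ} (h : 0 < ε) (hY : 0 < Y) : ε / lam < QN ε X Y := by
  unfold QN
  have h1 := rad_pos' (X := X) hY
  have ha := ang_mem (X := X) hY
  have h2 := Gam_ge ha.1.le ha.2.le
  have h3 := Pf_pos (div_pos h1 h)
  have h4 : 0 < Gam (ang X Y) * (ε * Pf (rad X Y / ε)) := by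
    apply mul_pos (by linarith)
    exact mul_pos h h3
  linarith

theorem sN_concaveOn {ε : ℝ} (h : 0 < ε) : ConcaveOn ℝ (Ioi 0) (sN ε) := by
  have h1 := Pf_concaveOn.comp_linearMap (ε⁻¹ • (LinearMap.id : ℝ →ₗ[ℝ] ℝ))
  have h2 : (⇑(ε⁻¹ • (LinearMap.id : ℝ →ₗ[ℝ] ℝ)) ⁻¹' (Ioi 0)) = Ioi 0 := by
    ext p
    show 0 < ε⁻¹ * p ↔ 0 < p
    exact mul_pos_iff_of_pos_left (inv_pos.2 h)
  rw [h2] at h1
  have h4 := (h1.smul (c := lam / 10 * ε) (by have := lam_pos'; positivity)).add_const ε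
  refine h4.congr ?_
  intro p hp
  have hp' : 0 < p := hp
  show lam / 10 * ε * Pf (ε⁻¹ * p) + ε = sN ε p
  unfold sN
  rw [abs_of_pos hp', div_eq_inv_mul p ε]
  ring

theorem sN_le {ε X Y : ℝ} (h : 0 < ε) (hY : 0 < Y) (hX : X ≠ 0) : sN ε X ≤ lam * QN ε X Y := by
  unfold sN QN
  have h0 := lam_pos'
  have ha := ang_mem (X := X) hY
  have h2 := Gam_ge ha.1.le ha.2.le
  have h3 : Pf (|X| / ε) ≤ Pf (rad X Y / ε) :=
    Pf_mono (div_pos (abs_pos.2 hX) h) (div_le_div_of_nonneg_right (absX_lt hY).le h.le)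
  have h4 : 0 < Pf (|X| / ε) := Pf_pos (div_pos (abs_pos.2 hX) h)
  have h5 : lam * (ε / lam) = ε := by field_simp
  have h6 : 1 / 10 * (ε * Pf (|X| / ε)) ≤ Gam (ang X Y) * (ε * Pf (rad X Y / ε)) := by
    apply mul_le_mul (by linarith) (mul_le_mul_of_nonneg_left h3 h.le) (by positivity) (by linarith)
  have h7 := mul_le_mul_of_nonneg_left h6 h0.le
  rw [mul_add, h5]
  linarith

theorem QN_contDiffOn {ε : ℝ} (h : 0 < ε) :
    ContDiffOn ℝ ∞ (fun p : ℝ × ℝ => QN ε p.1 p.2) {p | 0 < p.2} := by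
  unfold QN
  apply contDiffOn_const.add
  apply (Gam_contDiff.comp_contDiffOn ang_contDiffOn).mul
  apply contDiffOn_const.mul
  apply Pf_contDiffOn.comp (rad_contDiffOn.div_const ε)
  intro p hp
  exact div_pos (rad_pos' hp) h

/-- values for `R ≥ 1/4` -/
theorem QN_outer {ph X Y : ℝ} (h : 0 < ph) (h1 : ph ≤ 1 / 2) (hY : 0 < Y) (hR : 1 / 4 ≤ rad X Y) :
    QN (epsh ph) X Y = epsh ph / lam + ph * (Gam (ang X Y) * (rad X Y) ^ (1 - cc)) := by
  unfold QN
  rw [eps_Pf h h1 hR]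
  ring

private theorem zsd_ge {ph X : ℝ} (h : 0 < ph) : 4 * ph ≤ zsd ph X := by
  unfold zsd
  split_ifs
  · exact le_rfl
  · linarith

private theorem zsd_le {ph X : ℝ} (h : 0 < ph) : zsd ph X ≤ 32 * ph := by
  unfold zsd
  split_ifs
  · linarith
  · exact le_rfl

private theorem Pf_le_one' {ph R : ℝ} (h : 0 < ph) (h1 : ph ≤ 1 / 2) (hR0 : 0 < R) (hR : R ≤ 1) :
    epsh ph * Pf (R / epsh ph) ≤ ph := by
  have h2 := epsh_pos h
  have h3 := eps_Pf h h1 (R := 1) (by norm_num)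
  rw [Real.one_rpow, mul_one] at h3
  calc epsh ph * Pf (R / epsh ph) ≤ epsh ph * Pf (1 / epsh ph) :=
        mul_le_mul_of_nonneg_left
          (Pf_mono (div_pos hR0 h2) (div_le_div_of_nonneg_right hR h2.le)) h2.le
    _ = ph := h3

/-- in `R ≤ 1` the minimum is not active -/
theorem QL_inner {ph X Y : ℝ} (h : 0 < ph) (h1 : ph ≤ 1 / 2) (hY : 0 < Y) (hR : rad X Y ≤ 1) :
    mnf (QN (epsh ph) X Y) (zsd ph X) = QN (epsh ph) X Y := by
  have h2 := zsd_ge (X := X) h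
  apply mnf_eq_left (by linarith)
  have h3 := epsh_le h h1
  have h4 := Pf_le_one' h h1 (rad_pos' (X := X) hY) hR
  have ha := ang_mem (X := X) hY
  have h5 := Gam_ge ha.1.le ha.2.le
  have h6 := Gam_le ha.1.le ha.2.le
  have h8 := epsh_pos h
  have h7 : Gam (ang X Y) * (epsh ph * Pf (rad X Y / epsh ph)) ≤ 3 / 2 * ph := by
    apply mul_le_mul h6 h4 _ (by norm_num)
    exact (mul_pos h8 (Pf_pos (div_pos (rad_pos' hY) h8))).le
  unfold QN lam
  have h9 : epsh ph / (1 / 1000) = 1000 * epsh ph := by ring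
  rw [h9]
  linarith

theorem sL_inner {ph X : ℝ} (h : 0 < ph) (h1 : ph ≤ 1 / 2) (hX : X ≠ 0) (hR : |X| ≤ 1) :
    sL ph X = sN (epsh ph) X := by
  have h2 := zsd_ge (X := X) h
  have hl := lam_pos'
  unfold sL
  apply mnf_eq_left (by nlinarith)
  have h3 := epsh_le h h1
  have h4 := Pf_le_one' h h1 (abs_pos.2 hX) hR
  unfold sN lam
  linarith

private theorem rpow_big {a b : ℝ} (ha : 1 ≤ a) (hb : a ≤ 1000) {R : ℝ} (hR : a ≤ R)
    (hab : b * (1001 / 1000) = a) : b ≤ R ^ (1 - cc) := by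
  have h0 : 0 < a := by linarith
  have hcc : cc = 1 / 10000000 := rfl
  have h1 : a ^ cc ≤ 1 + cc * (a - 1) := by
    have h2 := rpow_one_add_le_one_add_mul_self (s := a - 1) (p := cc) (by linarith)
      (by rw [hcc]; norm_num) (by rw [hcc]; norm_num)
    rwa [show 1 + (a - 1) = a by ring] at h2
  have h2 : a ^ cc ≤ 1001 / 1000 := by
    refine h1.trans ?_
    rw [hcc]
    linarith
  have h3 : a ^ (1 - cc) * a ^ cc = a := by
    rw [← Real.rpow_add h0, sub_add_cancel, Real.rpow_one]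
  have h4 : 0 < a ^ (1 - cc) := Real.rpow_pos_of_pos h0 _
  have h5 : a ≤ a ^ (1 - cc) * (1001 / 1000) := by
    calc a = a ^ (1 - cc) * a ^ cc := h3.symm
      _ ≤ _ := mul_le_mul_of_nonneg_left h2 h4.le
  have h6 : b ≤ a ^ (1 - cc) := by linarith
  exact h6.trans (Real.rpow_le_rpow h0.le hR (by rw [hcc]; norm_num))

/-- far away (`|X| ≥ 256`) `Q`, `s` are those of the tube -/
theorem QL_tube {ph X Y : ℝ} (h : 0 < ph) (h1 : ph ≤ 1 / 2) (hY : 0 < Y) (hX : 256 ≤ |X|) :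
    QL ph X Y = (1 - st (Y / ysd X - 1)) * zsd ph X := by
  have hR : 256 ≤ rad X Y := hX.trans (absX_lt hY).le
  unfold QL
  have h2 : st (2 * rad X Y - 1) = 1 := st_one (by linarith)
  rw [h2, one_mul]
  congr 1
  have hz := zsd_ge (X := X) h
  have hz' := zsd_le (X := X) h
  apply mnf_eq_right (by linarith)
  rw [QN_outer h h1 hY (by linarith)]
  have ha := ang_mem (X := X) hY
  have h5 := Gam_ge ha.1.le ha.2.le
  have h6 := rpow_big (a := 256) (b := 256 / (1001 / 1000)) (by norm_num) (by norm_num) hR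
    (by norm_num)
  have h7 : (255 : ℝ) ≤ rad X Y ^ (1 - cc) := le_trans (by norm_num) h6
  have h8 : 1 / 5 * 255 ≤ Gam (ang X Y) * rad X Y ^ (1 - cc) :=
    mul_le_mul h5 h7 (by norm_num) (by linarith)
  have h9 := mul_le_mul_of_nonneg_left h8 h.le
  have h10 : 0 < epsh ph / lam := div_pos (epsh_pos h) lam_pos'
  linarith

theorem sL_tube {ph X : ℝ} (h : 0 < ph) (h1 : ph ≤ 1 / 2) (hX : 512 ≤ |X|) :
    sL ph X = lam * zsd ph X := by
  have hz := zsd_ge (X := X) h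
  have hz' := zsd_le (X := X) h
  have hl := lam_pos'
  unfold sL
  apply mnf_eq_right (by nlinarith)
  unfold sN
  rw [eps_Pf h h1 (by linarith)]
  have h6 := rpow_big (a := 512) (b := 512 / (1001 / 1000)) (by norm_num) (by norm_num) hX
    (by norm_num)
  have h7 : (511 : ℝ) ≤ |X| ^ (1 - cc) := le_trans (by norm_num) h6
  have h9 := mul_le_mul_of_nonneg_left h7 h.le
  have h10 := epsh_pos h
  unfold lam
  linarith

end Pool.Agent.MP39e402
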