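import Pool.Agent.Lib.MP_39e402_gt.GExtA
import Pool.Agent.Lib.MP_39e402_gt.LLocP
import Pool.Agent.Lib.MP_39e402_gt.LLocQ

/-! # MP_39e402, module GExtI: the type I metric extends smoothly over `Ur = 0` when `Ψ(w) = w` near `0`.

Near `z` (`Ur z = 0`, `z ≠ 0`) `w = PhL Ur/Yr → 0`, so `Ψ(w) = w` and, outside `T23`, with `v' = (v1,v2,v3)`,
`qI = v0² + wY² + (JL² - R²) wt² + PhL² (|v'|² - wY²)/Yr²` (because `wal² + (Ur/Yr)² wth² = (|v'|² - wY²)/Yr²`).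
* `Yr z > 0`: smooth (`PhL_contDiffOn`, `JL_contDiffOn`, `ang_contDiffOn`), positive definite because
  `v0² + wY² = wR² + R² wt²` and `JL, PhL > 0`.
* `Yr z = 0`, `z 0 ≠ 0`: `JL = R` near `z` (`m = 0`), `PhL = Y (1 - Y² M(X, Y²))` (`PhL_axisForm`), so
  `qI = v0² + (1 - Y² M)² |v'|² + M (2 - Y² M) (y · v')²`, `Y² = p1² + p2² + p3²`, smooth; the same formula holds at the points
  with `Yr = 0`. -/

open Real Set Filter Topology MeasureTheory
open scoped ContDiff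

noncomputable section

namespace Pool.Agent.MP39e402

private def IsLn (l : EE 4 → ℝ) : Prop := ∃ c : Fin 4 → ℝ, ∀ v : EE 4, l v = ∑ i, c i * v i

private theorem isLn_apply (k : Fin 4) : IsLn (fun v => v k) :=
  ⟨Pi.single k 1, fun v => by simp [Pi.single_apply]⟩

private theorem IsLn.const_mul {l : EE 4 → ℝ} (h : IsLn l) (c : ℝ) : IsLn (fun v => c * l v) := by
  obtain ⟨a, ha⟩ := h
  refine ⟨fun i => c * a i, fun v => ?_⟩
  beta_reduce
  rw [ha, Finset.mul_sum]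
  exact Finset.sum_congr rfl fun i _ => (mul_assoc _ _ _).symm

private theorem IsLn.add {l m : EE 4 → ℝ} (h : IsLn l) (h' : IsLn m) :
    IsLn (fun v => l v + m v) := by
  obtain ⟨a, ha⟩ := h
  obtain ⟨b, hb⟩ := h'
  refine ⟨fun i => a i + b i, fun v => ?_⟩
  beta_reduce
  rw [ha, hb, ← Finset.sum_add_distrib]
  exact Finset.sum_congr rfl fun i _ => (add_mul _ _ _).symm

private theorem IsLn.sub {l m : EE 4 → ℝ} (h : IsLn l) (h' : IsLn m) :
    IsLn (fun v => l v - m v) := by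
  obtain ⟨a, ha⟩ := h
  obtain ⟨b, hb⟩ := h'
  refine ⟨fun i => a i - b i, fun v => ?_⟩
  beta_reduce
  rw [ha, hb, ← Finset.sum_sub_distrib]
  exact Finset.sum_congr rfl fun i _ => (sub_mul _ _ _).symm

private theorem IsLn.div_const {l : EE 4 → ℝ} (h : IsLn l) (c : ℝ) : IsLn (fun v => l v / c) := by
  have h1 := h.const_mul c⁻¹
  obtain ⟨a, ha⟩ := h1
  refine ⟨a, fun v => ?_⟩
  rw [← ha]
  exact div_eq_inv_mul _ _

private theorem IsLn.isQF_mul {l m : EE 4 → ℝ} (h : IsLn l) (h' : IsLn m) :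
    IsQF (fun v => l v * m v) := by
  obtain ⟨a, ha⟩ := h
  obtain ⟨b, hb⟩ := h'
  refine ⟨Matrix.of fun i j => (a i * b j + a j * b i) / 2, fun i j => ?_, fun v => ?_⟩
  · simp only [Matrix.of_apply]
    ring
  · simp only [Matrix.of_apply, ha, hb, Fin.sum_univ_four]
    ring

private theorem IsLn.isQF_sq {l : EE 4 → ℝ} (h : IsLn l) : IsQF (fun v => (l v) ^ 2) := by
  obtain ⟨A, hA, h1⟩ := h.isQF_mul h
  exact ⟨A, hA, fun v => by rw [← h1]; exact pow_two _⟩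

private theorem isQF_const_mul {q : EE 4 → ℝ} (h : IsQF q) (c : ℝ) : IsQF (fun v => c * q v) := by
  obtain ⟨A, hA, h1⟩ := h
  refine ⟨Matrix.of fun i j => c * A i j, fun i j => by simp only [Matrix.of_apply, hA i j],
    fun v => ?_⟩
  simp only [h1 v, Matrix.of_apply, Finset.mul_sum]
  exact Finset.sum_congr rfl fun i _ => Finset.sum_congr rfl fun j _ => by ring

private theorem isQF_mul_const {q : EE 4 → ℝ} (h : IsQF q) (c : ℝ) : IsQF (fun v => q v * c) := by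
  obtain ⟨A, hA, h1⟩ := isQF_const_mul h c
  exact ⟨A, hA, fun v => by rw [← h1]; exact mul_comm _ _⟩

private theorem isQF_div_const {q : EE 4 → ℝ} (h : IsQF q) (c : ℝ) : IsQF (fun v => q v / c) := by
  obtain ⟨A, hA, h1⟩ := isQF_const_mul h c⁻¹
  exact ⟨A, hA, fun v => by rw [← h1]; exact div_eq_inv_mul _ _⟩

private theorem isQF_add {q q' : EE 4 → ℝ} (h : IsQF q) (h' : IsQF q') :
    IsQF (fun v => q v + q' v) := by
  obtain ⟨A, hA, h1⟩ := h
  obtain ⟨B, hB, h2⟩ := h'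
  refine ⟨Matrix.of fun i j => A i j + B i j, fun i j => by
    simp only [Matrix.of_apply, hA i j, hB i j], fun v => ?_⟩
  simp only [h1 v, h2 v, Matrix.of_apply, ← Finset.sum_add_distrib]
  exact Finset.sum_congr rfl fun i _ => Finset.sum_congr rfl fun j _ => by ring

private theorem isQF_sub {q q' : EE 4 → ℝ} (h : IsQF q) (h' : IsQF q') :
    IsQF (fun v => q v - q' v) := by
  obtain ⟨A, hA, h1⟩ := h
  obtain ⟨B, hB, h2⟩ := h'
  refine ⟨Matrix.of fun i j => A i j - B i j, fun i j => by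
    simp only [Matrix.of_apply, hA i j, hB i j], fun v => ?_⟩
  simp only [h1 v, h2 v, Matrix.of_apply, ← Finset.sum_sub_distrib]
  exact Finset.sum_congr rfl fun i _ => Finset.sum_congr rfl fun j _ => by ring

private theorem nsq4 (x : EE 4) : ‖x‖ ^ 2 = x 0 ^ 2 + x 1 ^ 2 + x 2 ^ 2 + x 3 ^ 2 := by
  rw [EuclideanSpace.norm_sq_eq, Fin.sum_univ_four]
  simp only [Real.norm_eq_abs, sq_abs]

private theorem isQF_nsq : IsQF (fun v : EE 4 => ‖v‖ ^ 2) := by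
  obtain ⟨A, hA, h1⟩ := isQF_add (isQF_add (isQF_add (isLn_apply 0).isQF_sq (isLn_apply 1).isQF_sq)
    (isLn_apply 2).isQF_sq) (isLn_apply 3).isQF_sq
  exact ⟨A, hA, fun v => by rw [← h1]; exact nsq4 v⟩

private theorem polMet_of_isQF {q : EE 4 → EE 4 → ℝ} {p : EE 4} {A : Matrix (Fin 4) (Fin 4) ℝ}
    (hA : ∀ i j, A i j = A j i) (h : ∀ v : EE 4, q p v = ∑ i, ∑ j, A i j * v i * v j)
    (i j : Fin 4) : polMet q p i j = A i j := by
  have hs : ∀ i : Fin 4, ∀ k : Fin 4, (e4 i : EE 4) k = if k = i then 1 else 0 := by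
    intro i k
    simp [e4]
  have h1 : ∀ i : Fin 4, q p (e4 i) = A i i := by
    intro i
    rw [h]
    simp [hs]
  have h2 : q p (e4 i + e4 j) = A i i + A i j + A j i + A j j := by
    rw [h]
    simp only [PiLp.add_apply, hs, mul_add, add_mul, Finset.sum_add_distrib]
    simp
    ring
  rw [polMet, Matrix.of_apply, h1, h1, h2, hA j i]
  ring

private theorem gquad_polMet {q : EE 4 → EE 4 → ℝ} {p : EE 4} (h : IsQF (q p)) (v : EE 4) :
    gquad (polMet q) p v = q p v := by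
  obtain ⟨A, hA, h1⟩ := h
  rw [h1 v, gquad]
  exact Finset.sum_congr rfl fun i _ => Finset.sum_congr rfl fun j _ => by
    rw [polMet_of_isQF hA h1]

private theorem met_polMet {q : EE 4 → EE 4 → ℝ} {V : Set (EE 4)} (hV : IsOpen V)
    (hq : ∀ p, IsQF (q p)) (hs : ∀ v, ContDiffOn ℝ ∞ (fun p => q p v) V)
    (hp : ∀ p ∈ V, ∀ v : EE 4, v ≠ 0 → 0 < q p v) : IsRMetricOn (polMet q) V := by
  refine ⟨hV, fun i j => ?_, fun x hx => ?_⟩
  · exact (((hs _).sub (hs _)).sub (hs _)).div_const 2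
  · rw [Matrix.posDef_iff_dotProduct_mulVec]
    refine ⟨?_, ?_⟩
    · ext i j
      rw [Matrix.conjTranspose_apply, star_trivial, polMet, Matrix.of_apply, Matrix.of_apply,
        add_comm (e4 j)]
      ring
    · intro v hv
      have hv' : (WithLp.toLp 2 v : EE 4) ≠ 0 := by
        intro h
        apply hv
        funext i
        exact congrArg (fun w : EE 4 => w i) h
      have h1 := hp x hx _ hv'
      rw [← gquad_polMet (hq x)] at h1
      have h2 : star v ⬝ᵥ Matrix.mulVec (polMet q x) v = gquad (polMet q) x (WithLp.toLp 2 v) := by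
        unfold gquad dotProduct Matrix.mulVec dotProduct
        refine Finset.sum_congr rfl fun i _ => ?_
        rw [Finset.mul_sum]
        refine Finset.sum_congr rfl fun j _ => ?_
        simp only [Pi.star_apply, star_trivial]
        ring
      rw [h2]
      exact h1


private theorem cd_coord (i : Fin 4) : ContDiff ℝ ∞ (fun x : EE 4 => x i) :=
  (EuclideanSpace.proj i : EE 4 →L[ℝ] ℝ).contDiff

/-! ### coordinates -/

private theorem Yr_sq (p : EE 4) : Yr p ^ 2 = p 1 ^ 2 + p 2 ^ 2 + p 3 ^ 2 :=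
  Real.sq_sqrt (by positivity)

private theorem Yr_nonneg (p : EE 4) : 0 ≤ Yr p := Real.sqrt_nonneg _

private theorem Yr_cont : Continuous Yr := by
  unfold Yr
  have h := fun i => (cd_coord i).continuous
  exact ((((h 1).pow 2).add ((h 2).pow 2)).add ((h 3).pow 2)).sqrt

private theorem Ur_cont : Continuous Ur := by
  unfold Ur
  have h := fun i => (cd_coord i).continuous
  exact (((h 2).pow 2).add ((h 3).pow 2)).sqrt

private theorem Yr_eq_zero {p : EE 4} (h : Yr p = 0) : p 1 = 0 ∧ p 2 = 0 ∧ p 3 = 0 := by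
  have h1 := Yr_sq p
  rw [h] at h1
  refine ⟨?_, ?_, ?_⟩ <;> nlinarith [sq_nonneg (p 1), sq_nonneg (p 2), sq_nonneg (p 3)]

private theorem Yr_cda {p : EE 4} (hp : 0 < Yr p) : ContDiffAt ℝ ∞ Yr p := by
  have h1 : p 1 ^ 2 + p 2 ^ 2 + p 3 ^ 2 ≠ 0 := by
    rw [← Yr_sq]
    positivity
  have h2 : ContDiffAt ℝ ∞ (fun p : EE 4 => p 1 ^ 2 + p 2 ^ 2 + p 3 ^ 2) p :=
    ((((cd_coord 1).pow 2).add ((cd_coord 2).pow 2)).add ((cd_coord 3).pow 2)).contDiffAt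
  exact h2.sqrt h1

private theorem norm_eq_rad (p : EE 4) : ‖p‖ = rad (p 0) (Yr p) := by
  unfold rad
  rw [Yr_sq, ← Real.sqrt_sq (norm_nonneg p), nsq4]
  congr 1
  ring

/-- Lagrange's form `|v'|² Y² - (y · v')²` -/
private def LE (p v : EE 4) : ℝ :=
  (p 1 * v 2 - p 2 * v 1) ^ 2 + (p 1 * v 3 - p 3 * v 1) ^ 2 + (p 2 * v 3 - p 3 * v 2) ^ 2

open Classical in
/-- the extended form -/
private def qX (ph : ℝ) (p v : EE 4) : ℝ :=
  if Yr p = 0 then v 0 ^ 2 + v 1 ^ 2 + v 2 ^ 2 + v 3 ^ 2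
  else (v 0) ^ 2 + (wY p v) ^ 2
    + ((JL ph ‖p‖ (ang (p 0) (Yr p))) ^ 2 - ‖p‖ ^ 2) * (wt p v) ^ 2
    + (PhL ph (p 0) (Yr p)) ^ 2 * (LE p v / Yr p ^ 4)

private theorem qI_eq {ph r : ℝ} {Ψ : ℝ → ℝ} (hΨ : ∀ w, |w| ≤ r → Ψ w = w) {p : EE 4} (hU : Ur p ≠ 0)
    (hw : |PhL ph (p 0) (Yr p) * Ur p / Yr p| ≤ r) (v : EE 4) : qI ph Ψ p v = qX ph p v := by
  have hU2 : Ur p ^ 2 = p 2 ^ 2 + p 3 ^ 2 := Real.sq_sqrt (by positivity)
  have hY2 := Yr_sq p
  have hY : Yr p ≠ 0 := by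
    intro h
    obtain ⟨_, h2, h3⟩ := Yr_eq_zero h
    rw [h2, h3] at hU2
    apply hU
    simpa using hU2
  unfold qI qX
  rw [if_neg hY, hΨ _ hw]
  have key : LE p v / Yr p ^ 4 = wal p v ^ 2 + (Ur p / Yr p) ^ 2 * wth p v ^ 2 := by
    have e1 : wal p v ^ 2 = (p 1 * (p 2 * v 2 + p 3 * v 3) - Ur p ^ 2 * v 1) ^ 2
        / (Ur p ^ 2 * (Yr p ^ 2) ^ 2) := by
      unfold wal wU
      field_simp
    have e2 : (Ur p / Yr p) ^ 2 * wth p v ^ 2 = (p 2 * v 3 - p 3 * v 2) ^ 2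
        / (Ur p ^ 2 * Yr p ^ 2) := by
      unfold wth
      field_simp
    have hU0 : Ur p ^ 2 ≠ 0 := pow_ne_zero 2 hU
    have hY0 : Yr p ^ 2 ≠ 0 := pow_ne_zero 2 hY
    rw [e1, e2, show Yr p ^ 4 = (Yr p ^ 2) ^ 2 by ring, div_add_div _ _ (mul_ne_zero hU0
      (pow_ne_zero 2 hY0)) (mul_ne_zero hU0 hY0), div_eq_div_iff (pow_ne_zero 2 hY0)
      (mul_ne_zero (mul_ne_zero hU0 (pow_ne_zero 2 hY0)) (mul_ne_zero hU0 hY0)), hU2, hY2]
    unfold LE
    ring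
  rw [key]
  ring

/-! ### quadratic form -/

private theorem isLn_wY (p : EE 4) : IsLn (wY p) := by
  have h := ((((isLn_apply 1).const_mul (p 1)).add ((isLn_apply 2).const_mul (p 2))).add
    ((isLn_apply 3).const_mul (p 3))).div_const (Yr p)
  exact h

private theorem isLn_wt (p : EE 4) : IsLn (wt p) := by
  have h := (((isLn_wY p).const_mul (p 0)).sub ((isLn_apply 0).const_mul (Yr p))).div_const
    (‖p‖ ^ 2)
  exact h

private theorem isQF_LE (p : EE 4) : IsQF (LE p) := by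
  have h := fun (i j : Fin 4) => (((isLn_apply j).const_mul (p i)).sub
    ((isLn_apply i).const_mul (p j))).isQF_sq
  exact isQF_add (isQF_add (h 1 2) (h 1 3)) (h 2 3)

private theorem qX_isQF (ph : ℝ) (p : EE 4) : IsQF (qX ph p) := by
  by_cases hY : Yr p = 0
  · have h : qX ph p = fun v => v 0 ^ 2 + v 1 ^ 2 + v 2 ^ 2 + v 3 ^ 2 := by
      funext v
      unfold qX
      rw [if_pos hY]
    rw [h]
    exact isQF_add (isQF_add (isQF_add (isLn_apply 0).isQF_sq (isLn_apply 1).isQF_sq)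
      (isLn_apply 2).isQF_sq) (isLn_apply 3).isQF_sq
  · have h : qX ph p = fun v => (v 0) ^ 2 + (wY p v) ^ 2
        + ((JL ph ‖p‖ (ang (p 0) (Yr p))) ^ 2 - ‖p‖ ^ 2) * (wt p v) ^ 2
        + (PhL ph (p 0) (Yr p)) ^ 2 * (LE p v / Yr p ^ 4) := by
      funext v
      unfold qX
      rw [if_neg hY]
    rw [h]
    exact isQF_add (isQF_add (isQF_add (isLn_apply 0).isQF_sq (isLn_wY p).isQF_sq)
      (isQF_const_mul (isLn_wt p).isQF_sq _)) (isQF_const_mul (isQF_div_const (isQF_LE p) _) _)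

/-! ### positivity -/

private theorem LE_eq (p v : EE 4) :
    LE p v = (v 1 ^ 2 + v 2 ^ 2 + v 3 ^ 2) * Yr p ^ 2 - (p 1 * v 1 + p 2 * v 2 + p 3 * v 3) ^ 2 := by
  rw [Yr_sq]
  unfold LE
  ring

private theorem LE_nonneg (p v : EE 4) : 0 ≤ LE p v := by
  unfold LE
  positivity

private theorem qX_pos {ph : ℝ} (h : 0 < ph) (h1 : ph ≤ 1 / 2) {p : EE 4} (hp : p ≠ 0) {v : EE 4}
    (hv : v ≠ 0) : 0 < qX ph p v := by
  have hne : v 0 ^ 2 + v 1 ^ 2 + v 2 ^ 2 + v 3 ^ 2 ≠ 0 := by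
    rw [← nsq4]
    exact pow_ne_zero 2 (norm_ne_zero_iff.2 hv)
  by_cases hY : Yr p = 0
  · unfold qX
    rw [if_pos hY]
    exact lt_of_le_of_ne (by positivity) hne.symm
  · have hY0 : 0 < Yr p := lt_of_le_of_ne (Yr_nonneg p) (Ne.symm hY)
    have hR : 0 < ‖p‖ := norm_pos_iff.2 hp
    have hJ := (JL_pos (t := ang (p 0) (Yr p)) h h1 hR).1
    have hJ0 : 0 < JL ph ‖p‖ (ang (p 0) (Yr p)) := lt_trans (by positivity) hJ
    have hP := PhL_pos (X := p 0) h h1 hY0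
    have hRsq : ‖p‖ ^ 2 = p 0 ^ 2 + Yr p ^ 2 := by
      rw [nsq4, Yr_sq]
      ring
    have e1 : (v 0) ^ 2 + (wY p v) ^ 2 - ‖p‖ ^ 2 * (wt p v) ^ 2 =
        ((p 0 * v 0 + Yr p * wY p v) / ‖p‖) ^ 2 := by
      unfold wt
      field_simp
      rw [show ‖p‖ ^ 2 = p 0 ^ 2 + Yr p ^ 2 from hRsq]
      ring
    have e2 : qX ph p v = ((p 0 * v 0 + Yr p * wY p v) / ‖p‖) ^ 2
        + (JL ph ‖p‖ (ang (p 0) (Yr p))) ^ 2 * (wt p v) ^ 2
        + (PhL ph (p 0) (Yr p)) ^ 2 * (LE p v / Yr p ^ 4) := by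
      unfold qX
      rw [if_neg hY, ← e1]
      ring
    have hL := LE_nonneg p v
    have n1 : 0 ≤ ((p 0 * v 0 + Yr p * wY p v) / ‖p‖) ^ 2 := sq_nonneg _
    have n2 : 0 ≤ (JL ph ‖p‖ (ang (p 0) (Yr p))) ^ 2 * (wt p v) ^ 2 := by positivity
    have n3 : 0 ≤ (PhL ph (p 0) (Yr p)) ^ 2 * (LE p v / Yr p ^ 4) := by positivity
    refine lt_of_le_of_ne (by rw [e2]; positivity) fun h0 => hne ?_
    rw [e2] at h0
    have z1 : ((p 0 * v 0 + Yr p * wY p v) / ‖p‖) ^ 2 = 0 := by linarith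
    have z2 : (JL ph ‖p‖ (ang (p 0) (Yr p))) ^ 2 * (wt p v) ^ 2 = 0 := by linarith
    have z3 : (PhL ph (p 0) (Yr p)) ^ 2 * (LE p v / Yr p ^ 4) = 0 := by linarith
    have z4 : wt p v = 0 := by
      rcases mul_eq_zero.1 z2 with h5 | h5
      · exact absurd h5 (pow_ne_zero 2 hJ0.ne')
      · exact pow_eq_zero_iff (two_ne_zero) |>.1 h5
    have z5 : (v 0) ^ 2 + (wY p v) ^ 2 = 0 := by
      rw [z4] at e1
      rw [z1] at e1
      linarith
    have z6 : v 0 = 0 := by nlinarith [sq_nonneg (v 0), sq_nonneg (wY p v)]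
    have z7 : wY p v = 0 := by nlinarith [sq_nonneg (v 0), sq_nonneg (wY p v)]
    have z8 : LE p v = 0 := by
      rcases mul_eq_zero.1 z3 with h5 | h5
      · exact absurd h5 (pow_ne_zero 2 hP.ne')
      · rcases div_eq_zero_iff.1 h5 with h6 | h6
        · exact h6
        · exact absurd h6 (pow_ne_zero 4 hY)
    have z9 : p 1 * v 1 + p 2 * v 2 + p 3 * v 3 = 0 := by
      unfold wY at z7
      rcases div_eq_zero_iff.1 z7 with h6 | h6
      · exact h6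
      · exact absurd h6 hY
    rw [LE_eq, z9] at z8
    have z10 : (v 1 ^ 2 + v 2 ^ 2 + v 3 ^ 2) * Yr p ^ 2 = 0 := by linarith
    rcases mul_eq_zero.1 z10 with h5 | h5
    · rw [z6]
      linarith
    · exact absurd h5 (pow_ne_zero 2 hY)

/-! ### smoothness -/

private theorem qX_eventually (ph : ℝ) (v : EE 4) {p : EE 4} (hp : 0 < Yr p) :
    (fun p => qX ph p v) =ᶠ[𝓝 p] fun p => (v 0) ^ 2 + (wY p v) ^ 2
        + ((JL ph ‖p‖ (ang (p 0) (Yr p))) ^ 2 - ‖p‖ ^ 2) * (wt p v) ^ 2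
        + (PhL ph (p 0) (Yr p)) ^ 2 * (LE p v / Yr p ^ 4) := by
  filter_upwards [(isOpen_lt continuous_const Yr_cont).mem_nhds hp] with q hq
  have hq' : 0 < Yr q := hq
  unfold qX
  rw [if_neg hq'.ne']

private theorem qX_cda_off {ph : ℝ} (h : 0 < ph) (h1 : ph ≤ 1 / 2) {p : EE 4} (hp : 0 < Yr p)
    (v : EE 4) : ContDiffAt ℝ ∞ (fun p => qX ph p v) p := by
  refine ContDiffAt.congr_of_eventuallyEq ?_ (qX_eventually ph v hp)
  have hY := Yr_cda hp
  have hx : ContDiffAt ℝ ∞ (fun p : EE 4 => p 0) p := (cd_coord 0).contDiffAt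
  have hne : p ≠ 0 := by
    intro h0
    rw [h0] at hp
    unfold Yr at hp
    simp at hp
  have hN : ContDiffAt ℝ ∞ (fun p : EE 4 => ‖p‖) p := contDiffAt_norm ℝ hne
  have hR : 0 < ‖p‖ := norm_pos_iff.2 hne
  have hpair : ContDiffAt ℝ ∞ (fun p : EE 4 => (p 0, Yr p)) p := hx.prodMk hY
  have hup : {q : ℝ × ℝ | 0 < q.2} ∈ 𝓝 (p 0, Yr p) :=
    (isOpen_lt continuous_const continuous_snd).mem_nhds hp
  have hang : ContDiffAt ℝ ∞ (fun p : EE 4 => ang (p 0) (Yr p)) p :=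
    ((ang_contDiffOn.contDiffAt hup).comp p hpair :)
  have hPh : ContDiffAt ℝ ∞ (fun p : EE 4 => PhL ph (p 0) (Yr p)) p :=
    (((PhL_contDiffOn h h1).contDiffAt hup).comp p hpair :)
  have hJ : ContDiffAt ℝ ∞ (fun p : EE 4 => JL ph ‖p‖ (ang (p 0) (Yr p))) p := by
    have hup2 : {q : ℝ × ℝ | 0 < q.1} ∈ 𝓝 (‖p‖, ang (p 0) (Yr p)) :=
      (isOpen_lt continuous_const continuous_fst).mem_nhds hR
    exact (((JL_contDiffOn h h1).contDiffAt hup2).comp p (hN.prodMk hang) :)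
  have hc := fun i => (cd_coord i).contDiffAt (x := p)
  have hwY : ContDiffAt ℝ ∞ (fun p : EE 4 => wY p v) p := by
    unfold wY
    exact ((((hc 1).mul contDiffAt_const).add ((hc 2).mul contDiffAt_const)).add
      ((hc 3).mul contDiffAt_const)).div hY hp.ne'
  have hwt : ContDiffAt ℝ ∞ (fun p : EE 4 => wt p v) p := by
    unfold wt
    exact ((hx.mul hwY).sub (hY.mul contDiffAt_const)).div (hN.pow 2) (pow_ne_zero 2 hR.ne')
  have hLE : ContDiffAt ℝ ∞ (fun p : EE 4 => LE p v) p := by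
    unfold LE
    have h2 := fun (i j : Fin 4) =>
      (((hc i).mul (contDiffAt_const (c := v j))).sub ((hc j).mul (contDiffAt_const (c := v i)))).pow 2
    exact ((h2 1 2).add (h2 1 3)).add (h2 2 3)
  exact ((contDiffAt_const.add (hwY.pow 2)).add (((hJ.pow 2).sub (hN.pow 2)).mul (hwt.pow 2))).add
    ((hPh.pow 2).mul (hLE.div (hY.pow 4) (pow_ne_zero 4 hp.ne')))

/-- near the axis `JL = R` -/
private theorem JL_axis (ph : ℝ) {p : EE 4} (hY : Yr p = 0) (h0 : p 0 ≠ 0) :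
    ∀ᶠ q in 𝓝 p, JL ph ‖q‖ (ang (q 0) (Yr q)) = ‖q‖ := by
  have hpi := Real.pi_pos
  have hrad : rad (p 0) (Yr p) = |p 0| := by
    unfold rad
    rw [hY, zero_pow two_ne_zero, add_zero, Real.sqrt_sq_eq_abs]
  have hcont : ContinuousAt (fun q : EE 4 => ang (q 0) (Yr q)) p := by
    unfold ang
    refine Real.continuous_arccos.continuousAt.comp ?_
    have hc0 : Continuous (fun q : EE 4 => q 0) := (cd_coord 0).continuous
    refine ContinuousAt.div hc0.continuousAt ?_ (by rw [hrad]; exact abs_ne_zero.2 h0)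
    unfold rad
    exact (((hc0.pow 2).add (Yr_cont.pow 2)).sqrt).continuousAt
  have hval : ang (p 0) (Yr p) = 0 ∨ ang (p 0) (Yr p) = π := by
    unfold ang
    rw [hrad]
    rcases lt_or_gt_of_ne h0 with h2 | h2
    · right
      rw [abs_of_neg h2, div_neg, div_self h2.ne, Real.arccos_neg_one]
    · left
      rw [abs_of_pos h2, div_self h2.ne', Real.arccos_one]
  rcases hval with h2 | h2
  · have h3 : ∀ᶠ q in 𝓝 p, ang (q 0) (Yr q) < π / 40 := by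
      apply hcont.eventually (Iio_mem_nhds _)
      show ang (p 0) (Yr p) < π / 40
      rw [h2]
      positivity
    filter_upwards [h3] with q hq
    unfold JL
    rw [mf_zero_left hq.le]
    ring
  · have h3 : ∀ᶠ q in 𝓝 p, π - π / 40 < ang (q 0) (Yr q) := by
      apply hcont.eventually (lt_mem_nhds _)
      show π - π / 40 < ang (p 0) (Yr p)
      rw [h2]
      linarith [show 0 < π / 40 by positivity]
    filter_upwards [h3] with q hq
    unfold JL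
    rw [mf_zero_right hq.le]
    ring

private theorem pair_tendsto {p : EE 4} (hY : Yr p = 0) :
    Tendsto (fun q : EE 4 => (q 0, Yr q)) (𝓝 p) (𝓝 (p 0, 0)) := by
  have h := ((cd_coord 0).continuous.prodMk Yr_cont).tendsto p
  rw [hY] at h
  exact h

private theorem qX_cda_on {ph : ℝ} (h : 0 < ph) (h1 : ph ≤ 1 / 2) {p : EE 4} (hY : Yr p = 0)
    (h0 : p 0 ≠ 0) (v : EE 4) : ContDiffAt ℝ ∞ (fun p => qX ph p v) p := by
  obtain ⟨M, hM, hM2⟩ := PhL_axisForm h h1 h0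
  have hc := fun i => (cd_coord i).contDiffAt (x := p)
  have hev : (fun p => qX ph p v) =ᶠ[𝓝 p] fun q => (v 0) ^ 2
      + (1 - (q 1 ^ 2 + q 2 ^ 2 + q 3 ^ 2) * M (q 0, q 1 ^ 2 + q 2 ^ 2 + q 3 ^ 2)) ^ 2
        * (v 1 ^ 2 + v 2 ^ 2 + v 3 ^ 2)
      + M (q 0, q 1 ^ 2 + q 2 ^ 2 + q 3 ^ 2)
        * (2 - (q 1 ^ 2 + q 2 ^ 2 + q 3 ^ 2) * M (q 0, q 1 ^ 2 + q 2 ^ 2 + q 3 ^ 2))
        * (q 1 * v 1 + q 2 * v 2 + q 3 * v 3) ^ 2 := by
    filter_upwards [JL_axis ph hY h0, (pair_tendsto hY).eventually hM2] with q hq1 hq2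
    by_cases hYq : Yr q = 0
    · obtain ⟨y1, y2, y3⟩ := Yr_eq_zero hYq
      unfold qX
      rw [if_pos hYq, y1, y2, y3]
      ring
    · have hYq0 : 0 < Yr q := lt_of_le_of_ne (Yr_nonneg q) (Ne.symm hYq)
      have hq3 : PhL ph (q 0) (Yr q) = Yr q * (1 - Yr q ^ 2 * M (q 0, Yr q ^ 2)) := hq2 hYq0
      unfold qX
      rw [if_neg hYq, hq1, hq3, LE_eq, Yr_sq, ← Yr_sq q]
      unfold wY
      set m := M (q 0, Yr q ^ 2) with hm
      field_simp
      ring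
  refine ContDiffAt.congr_of_eventuallyEq ?_ hev
  have hs : ContDiffAt ℝ ∞ (fun q : EE 4 => q 1 ^ 2 + q 2 ^ 2 + q 3 ^ 2) p :=
    (((hc 1).pow 2).add ((hc 2).pow 2)).add ((hc 3).pow 2)
  have hMc : ContDiffAt ℝ ∞ (fun q : EE 4 => M (q 0, q 1 ^ 2 + q 2 ^ 2 + q 3 ^ 2)) p := by
    have h2 : ContDiffAt ℝ ∞ M (p 0, p 1 ^ 2 + p 2 ^ 2 + p 3 ^ 2) := by
      rw [← Yr_sq, hY, zero_pow two_ne_zero]
      exact hM
    exact (h2.comp p ((hc 0).prodMk hs) :)
  exact (contDiffAt_const.add (((contDiffAt_const.sub (hs.mul hMc)).pow 2).mul contDiffAt_const)).add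
    ((hMc.mul (contDiffAt_const.sub (hs.mul hMc))).mul
      (((((hc 1).mul contDiffAt_const).add ((hc 2).mul contDiffAt_const)).add
        ((hc 3).mul contDiffAt_const)).pow 2))

private theorem p0_ne {p : EE 4} (hp : p ≠ 0) (hY : Yr p = 0) : p 0 ≠ 0 := by
  intro h0
  obtain ⟨y1, y2, y3⟩ := Yr_eq_zero hY
  apply hp
  have h1 : ‖p‖ ^ 2 = 0 := by
    rw [nsq4, h0, y1, y2, y3]
    ring
  exact norm_eq_zero.1 (pow_eq_zero_iff two_ne_zero |>.1 h1)

private theorem qX_met {ph : ℝ} (h : 0 < ph) (h1 : ph ≤ 1 / 2) {O : Set (EE 4)} (hO : IsOpen O)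
    (h0 : (0 : EE 4) ∉ O) : IsRMetricOn (polMet (qX ph)) O := by
  refine met_polMet hO (qX_isQF ph) (fun v p hp => ContDiffAt.contDiffWithinAt ?_)
    (fun p hp v hv => qX_pos h h1 (fun h2 => h0 (h2 ▸ hp)) hv)
  have hp0 : p ≠ 0 := fun h2 => h0 (h2 ▸ hp)
  by_cases hY : Yr p = 0
  · exact qX_cda_on h h1 hY (p0_ne hp0 hY) v
  · exact qX_cda_off h h1 (lt_of_le_of_ne (Yr_nonneg p) (Ne.symm hY)) v

/-! ### the extension -/

private theorem w_small {ph r : ℝ} (h : 0 < ph) (h1 : ph ≤ 1 / 2) (hr : 0 < r) {z : EE 4}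
    (hz : z ≠ 0) (hU : Ur z = 0) :
    ∀ᶠ q in 𝓝 z, 0 < Yr q → |PhL ph (q 0) (Yr q) * Ur q / Yr q| < r := by
  by_cases hY : Yr z = 0
  · obtain ⟨M, hM, hM2⟩ := PhL_axisForm h h1 (p0_ne hz hY)
    have hs : Tendsto (fun q : EE 4 => (q 0, Yr q ^ 2)) (𝓝 z) (𝓝 (z 0, 0)) := by
      have h2 : Tendsto (fun q : EE 4 => (q 0, Yr q ^ 2)) (𝓝 z) (𝓝 (z 0, Yr z ^ 2)) :=
        ((cd_coord 0).continuous.prodMk (Yr_cont.pow 2)).tendsto z
      rw [hY, zero_pow two_ne_zero] at h2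
      exact h2
    have hMt : Tendsto (fun q : EE 4 => M (q 0, Yr q ^ 2)) (𝓝 z) (𝓝 (M (z 0, 0))) :=
      hM.continuousAt.tendsto.comp hs
    have hYt : Tendsto (fun q : EE 4 => Yr q ^ 2) (𝓝 z) (𝓝 0) := by
      have h2 : Tendsto (fun q : EE 4 => Yr q ^ 2) (𝓝 z) (𝓝 (Yr z ^ 2)) :=
        (Yr_cont.pow 2).tendsto z
      rwa [hY, zero_pow two_ne_zero] at h2
    have hUt : Tendsto Ur (𝓝 z) (𝓝 0) := by
      have h2 := Ur_cont.tendsto z
      rwa [hU] at h2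
    have h3 : Tendsto (fun q : EE 4 => |(1 - Yr q ^ 2 * M (q 0, Yr q ^ 2)) * Ur q|) (𝓝 z) (𝓝 0) := by
      have h4 := ((tendsto_const_nhds (x := (1 : ℝ))).sub (hYt.mul hMt)).mul hUt
      rw [mul_zero] at h4
      have h5 := h4.abs
      rwa [abs_zero] at h5
    filter_upwards [(pair_tendsto hY).eventually hM2, h3.eventually (Iio_mem_nhds hr)] with q hq1 hq2 hq
    have hq3 : PhL ph (q 0) (Yr q) = Yr q * (1 - Yr q ^ 2 * M (q 0, Yr q ^ 2)) := hq1 hq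
    rw [hq3]
    have e : Yr q * (1 - Yr q ^ 2 * M (q 0, Yr q ^ 2)) * Ur q / Yr q
        = (1 - Yr q ^ 2 * M (q 0, Yr q ^ 2)) * Ur q := by
      field_simp
    rw [e]
    exact hq2
  · have hY0 : 0 < Yr z := lt_of_le_of_ne (Yr_nonneg z) (Ne.symm hY)
    have hup : {q : ℝ × ℝ | 0 < q.2} ∈ 𝓝 (z 0, Yr z) :=
      (isOpen_lt continuous_const continuous_snd).mem_nhds hY0
    have hPh : ContinuousAt (fun p : EE 4 => PhL ph (p 0) (Yr p)) z := by
      have h2 := ((PhL_contDiffOn h h1).contDiffAt hup).continuousAt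
      exact (ContinuousAt.comp (f := fun p : EE 4 => (p 0, Yr p)) h2
        ((cd_coord 0).continuous.prodMk Yr_cont).continuousAt :)
    have h3 : ContinuousAt (fun q : EE 4 => |PhL ph (q 0) (Yr q) * Ur q / Yr q|) z :=
      ((hPh.mul Ur_cont.continuousAt).div Yr_cont.continuousAt hY).abs
    have h4 : ∀ᶠ q in 𝓝 z, |PhL ph (q 0) (Yr q) * Ur q / Yr q| < r := by
      apply h3.eventually (Iio_mem_nhds _)
      show |PhL ph (z 0) (Yr z) * Ur z / Yr z| < r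
      rw [hU, mul_zero, zero_div, abs_zero]
      exact hr
    filter_upwards [h4] with q hq _
    exact hq

theorem qI_LExt {ph : ℝ} (h : 0 < ph) (h1 : ph ≤ 1 / 2) {Ψ : ℝ → ℝ} (hΨ : ∃ r > 0, ∀ w, |w| ≤ r → Ψ w = w)
    {z : EE 4} (hz : z ≠ 0) (hU : Ur z = 0) : LExt (polMet (qI ph Ψ)) T23 z := by
  obtain ⟨r, hr, hΨr⟩ := hΨ
  have hev : ∀ᶠ q in 𝓝 z, q ≠ 0 ∧ (0 < Yr q → |PhL ph (q 0) (Yr q) * Ur q / Yr q| < r) :=
    (show ∀ᶠ q in 𝓝 z, q ≠ 0 from isOpen_ne.mem_nhds hz).and (w_small h h1 hr hz hU)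
  obtain ⟨O, hO1, hO2, hO3⟩ := eventually_nhds_iff.1 hev
  refine ⟨O, polMet (qX ph), hO3, qX_met h h1 hO2 (fun h0 => (hO1 0 h0).1 rfl), fun x hx => ?_⟩
  have hUx : Ur x ≠ 0 := by
    intro h2
    apply hx.2
    have h3 : Ur x ^ 2 = x 2 ^ 2 + x 3 ^ 2 := Real.sq_sqrt (by positivity)
    rw [h2] at h3
    constructor <;> nlinarith [sq_nonneg (x 2), sq_nonneg (x 3)]
  have hYx : 0 < Yr x := by
    refine lt_of_le_of_ne (Yr_nonneg x) fun h2 => hUx ?_
    obtain ⟨_, y2, y3⟩ := Yr_eq_zero h2.symm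
    unfold Ur
    rw [y2, y3]
    simp
  have hw := ((hO1 x hx.1).2 hYx).le
  have hq := fun v => qI_eq hΨr hUx hw v
  unfold polMet
  simp only [hq]

end Pool.Agent.MP39e402
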