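import Pool.Agent.Lib.MP_39e402_gt.MReparam

/-!
# Part M, module MPull: Lipschitz pull back

`redist_comp_le_plenI`: apply `redist_le_plenI` to `Φ ∘ γ`, which is `C¹` on the open set
`W ∩ γ ⁻¹' V`; chain rule for the derivative, then compare the integrands.
`redist_map_le`: take the infimum over the paths (`L > 0` is needed when there is no path).
-/

open Set Filter Topology MeasureTheory
open scoped ENNReal NNReal ContDiff BigOperators

noncomputable section

namespace Pool.Agent.MP39e402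

variable {n : ℕ}

theorem redist_comp_le_plenI {V U : Set (EE n)} {h g : RMetric n} (hh : IsRMetricOn h V)
    (hg : IsRMetricOn g U) {Φ : EE n → EE n} (hΦ : ContDiffOn ℝ 1 Φ V) {L : ℝ} (hL : 0 ≤ L)
    {γ : ℝ → EE n} {a b : ℝ} (hab : a ≤ b) {W : Set ℝ} (hW : IsOpen W) (hIW : Icc a b ⊆ W)
    (hγ : ContDiffOn ℝ 1 γ W) (hV : ∀ t ∈ Icc a b, γ t ∈ V) (hU : ∀ t ∈ Icc a b, Φ (γ t) ∈ U)
    (hq : ∀ t ∈ Icc a b, ∀ v : EE n,
      gquad g (Φ (γ t)) (fderiv ℝ Φ (γ t) v) ≤ L ^ 2 * gquad h (γ t) v) :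
    redist U g (Φ (γ a)) (Φ (γ b)) ≤ ENNReal.ofReal (L * plenI h γ a b) := by
  have hW' : IsOpen (W ∩ γ ⁻¹' V) := hγ.continuousOn.isOpen_inter_preimage hW hh.isOpen
  have hIW' : Icc a b ⊆ W ∩ γ ⁻¹' V := fun t ht => ⟨hIW ht, hV t ht⟩
  have hcomp : ContDiffOn ℝ 1 (Φ ∘ γ) (W ∩ γ ⁻¹' V) :=
    hΦ.comp (hγ.mono inter_subset_left) (fun t ht => ht.2)
  have h1 := redist_le_plenI hg hab hW' hIW' hcomp hU
  refine h1.trans (ENNReal.ofReal_le_ofReal ?_)
  have c1 := continuousOn_speed hg hW' hcomp hIW' hU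
  have c2 := continuousOn_speed hh hW hγ hIW hV
  unfold plenI
  rw [← intervalIntegral.integral_const_mul]
  apply intervalIntegral.integral_mono_on hab
  · exact ContinuousOn.intervalIntegrable (by rwa [uIcc_of_le hab])
  · exact (ContinuousOn.intervalIntegrable (by rwa [uIcc_of_le hab])).const_mul L
  · intro t ht
    have hγd : DifferentiableAt ℝ γ t :=
      (hγ.differentiableOn (by norm_num)).differentiableAt (hW.mem_nhds (hIW ht))
    have hΦd : DifferentiableAt ℝ Φ (γ t) :=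
      (hΦ.differentiableOn (by norm_num)).differentiableAt (hh.isOpen.mem_nhds (hV t ht))
    have hd : deriv (Φ ∘ γ) t = fderiv ℝ Φ (γ t) (deriv γ t) := fderiv_comp_deriv t hΦd hγd
    rw [hd]
    have h2 := hq t ht (deriv γ t)
    calc Real.sqrt (gquad g ((Φ ∘ γ) t) (fderiv ℝ Φ (γ t) (deriv γ t)))
        ≤ Real.sqrt (L ^ 2 * gquad h (γ t) (deriv γ t)) := Real.sqrt_le_sqrt h2
      _ = L * Real.sqrt (gquad h (γ t) (deriv γ t)) := by
          rw [Real.sqrt_mul (sq_nonneg L), Real.sqrt_sq hL]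

theorem redist_map_le {V U : Set (EE n)} {h g : RMetric n} (hh : IsRMetricOn h V)
    (hg : IsRMetricOn g U) {Φ : EE n → EE n} (hΦ : ContDiffOn ℝ 1 Φ V) {L : ℝ} (hL : 0 < L)
    (hm : MapsTo Φ V U)
    (hq : ∀ x ∈ V, ∀ v : EE n, gquad g (Φ x) (fderiv ℝ Φ x v) ≤ L ^ 2 * gquad h x v)
    {x y : EE n} : redist U g (Φ x) (Φ y) ≤ ENNReal.ofReal L * redist V h x y := by
  have hL0 : ENNReal.ofReal L ≠ 0 := by
    rw [Ne, ENNReal.ofReal_eq_zero, not_le]
    exact hL
  conv_rhs => rw [redist]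
  rw [ENNReal.mul_iInf_of_ne hL0 ENNReal.ofReal_ne_top]
  apply le_iInf
  intro γ
  rw [ENNReal.mul_iInf_of_ne hL0 ENNReal.ofReal_ne_top]
  apply le_iInf
  intro hγ
  obtain ⟨h1, h2, h3, h4⟩ := hγ
  rw [← ENNReal.ofReal_mul hL.le, ← h3, ← h4, plen_eq_plenI]
  exact redist_comp_le_plenI hh hg hΦ hL.le zero_le_one isOpen_univ (subset_univ _)
    h1.contDiffOn h2 (fun t ht => hm (h2 t ht)) (fun t ht v => hq _ (h2 t ht) v)

/-- the special case `Φ = id` : comparison of two metrics, `U ⊆ U'` -/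
theorem redist_le_mul {V U : Set (EE n)} {h g : RMetric n} (hh : IsRMetricOn h V)
    (hg : IsRMetricOn g U) {L : ℝ} (hL : 0 < L) (hVU : V ⊆ U)
    (hq : ∀ x ∈ V, ∀ v : EE n, gquad g x v ≤ L ^ 2 * gquad h x v) {x y : EE n} :
    redist U g x y ≤ ENNReal.ofReal L * redist V h x y := by
  have h1 := redist_map_le hh hg (Φ := id) contDiffOn_id hL (fun x hx => hVU hx)
    (fun x hx v => by
      rw [fderiv_id]
      exact hq x hx v) (x := x) (y := y)
  exact h1

end Pool.Agent.MP39e402
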