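import Pool.Agent.Lib.MP_39e402_gt.MLocal
import Pool.Agent.Lib.MP_39e402_gt.MPull

/-!
# Part M, module MNeglDist: removing a negligible set does not change the distance

`≥` is `redist_anti`. `≤`: let `γ` be a path in `V` from `x` to `y` of length `ℓ`, `ε > 0`,
`K = γ '' Icc 0 1`. By `exists_gquad_close` for small `w` the path `γ + w` lies in `V` and has length
`≤ (1 + ε) ℓ`; by `Negl.avoid` some such `w` (arbitrarily small) gives `γ + w` in `V \ T`. The points
`x` and `x + w` (`y` and `y + w`) are in a small Euclidean ball contained in the open set `V \ T`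
and are joined there by a segment of small length (`redist_le_of_ball` for `(V \ T, h)`).
`exists_isPath_diff` is the same argument without lengths (or take lengths: a finite `redist`
gives a path).
-/

open Set Filter Topology MeasureTheory
open scoped ENNReal NNReal ContDiff BigOperators

noncomputable section

namespace Pool.Agent.MP39e402

variable {n : ℕ}

theorem IsRMetricOn.mono {V V' : Set (EE n)} {g : RMetric n} (hg : IsRMetricOn g V)
    (h : V' ⊆ V) (hV' : IsOpen V') : IsRMetricOn g V' where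
  isOpen := hV'
  smooth := fun i j => (hg.smooth i j).mono h
  posDef := fun x hx => hg.posDef x (h hx)

theorem mNeglDist_step {V T : Set (EE n)} {h : RMetric n} (hh : IsRMetricOn h V) (hT : Negl T)
    {x y : EE n} (hx : x ∈ V \ T) (hy : y ∈ V \ T) {γ : ℝ → EE n} (hγ : IsPath V x y γ) {ε : ℝ}
    (hε : 0 < ε) :
    redist (V \ T) h x y ≤ ENNReal.ofReal (2 * ε + (1 + ε) * plen h γ) := by
  have hh' : IsRMetricOn h (V \ T) :=
    hh.mono sdiff_subset (hh.isOpen.sdiff hT.closed)
  obtain ⟨h1, h2, h3, h4⟩ := hγ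
  have hK : IsCompact (γ '' Icc (0 : ℝ) 1) := isCompact_Icc.image h1.continuous
  have hKV : γ '' Icc (0 : ℝ) 1 ⊆ V := by
    rintro _ ⟨t, ht, rfl⟩
    exact h2 t ht
  obtain ⟨δ, hδ, hclose⟩ := exists_gquad_close hh hK hKV hε
  obtain ⟨ρ₁, c₁, C₁, hρ₁, -, hC₁, -, -, hloc₁⟩ := exists_local_compare hh' hx
  obtain ⟨ρ₂, c₂, C₂, hρ₂, -, hC₂, -, -, hloc₂⟩ := exists_local_compare hh' hy
  have hr : 0 < min (min δ (min ρ₁ ρ₂)) (min (ε / C₁) (ε / C₂)) := by positivity
  obtain ⟨w, hwT, hw⟩ := (hT.avoid γ h1).inter_nhds_nonempty (Metric.ball_mem_nhds (0 : EE n) hr)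
  rw [mem_ball_zero_iff] at hw
  have hwδ : ‖w‖ < δ := hw.trans_le ((min_le_left _ _).trans (min_le_left _ _))
  have hwρ₁ : ‖w‖ < ρ₁ := hw.trans_le
    ((min_le_left _ _).trans ((min_le_right _ _).trans (min_le_left _ _)))
  have hwρ₂ : ‖w‖ < ρ₂ := hw.trans_le
    ((min_le_left _ _).trans ((min_le_right _ _).trans (min_le_right _ _)))
  have hwC₁ : ‖w‖ < ε / C₁ := hw.trans_le ((min_le_right _ _).trans (min_le_left _ _))
  have hwC₂ : ‖w‖ < ε / C₂ := hw.trans_le ((min_le_right _ _).trans (min_le_right _ _))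
  have d1 : redist (V \ T) h x (x + w) ≤ ENNReal.ofReal ε := by
    refine (hloc₁ x (Metric.mem_ball_self hρ₁) (x + w) ?_).trans (ENNReal.ofReal_le_ofReal ?_)
    · rw [Metric.mem_ball, dist_eq_norm, add_sub_cancel_left]
      exact hwρ₁
    · rw [dist_eq_norm, sub_add_cancel_left, norm_neg]
      rw [lt_div_iff₀ hC₁] at hwC₁
      linarith
  have d2 : redist (V \ T) h (y + w) y ≤ ENNReal.ofReal ε := by
    refine (hloc₂ (y + w) ?_ y (Metric.mem_ball_self hρ₂)).trans (ENNReal.ofReal_le_ofReal ?_)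
    · rw [Metric.mem_ball, dist_eq_norm, add_sub_cancel_left]
      exact hwρ₂
    · rw [dist_eq_norm, add_sub_cancel_left]
      rw [lt_div_iff₀ hC₂] at hwC₂
      linarith
  have d3 : redist (V \ T) h (x + w) (y + w) ≤ ENNReal.ofReal ((1 + ε) * plen h γ) := by
    have hΦ : ContDiffOn ℝ 1 (fun z : EE n => z + w) V :=
      (contDiff_id.add contDiff_const).contDiffOn
    have h5 := redist_comp_le_plenI hh hh' hΦ (L := 1 + ε) (by linarith) (γ := γ)
      (zero_le_one' ℝ) isOpen_univ (subset_univ _) h1.contDiffOn h2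
      (fun t ht => ⟨(hclose (γ t) ⟨t, ht, rfl⟩ w hwδ).1, hwT t ht⟩)
      (fun t ht v => by
        have h6 : fderiv ℝ (fun z : EE n => z + w) (γ t) v = v := by
          rw [fderiv_add_const]
          simp
        rw [h6]
        exact (hclose (γ t) ⟨t, ht, rfl⟩ w hwδ).2 v)
    rw [h3, h4] at h5
    exact h5
  have hlen : 0 ≤ plen h γ := plenI_nonneg h γ zero_le_one
  calc redist (V \ T) h x y
      ≤ redist (V \ T) h x (x + w) + redist (V \ T) h (x + w) y := redist_triangle hh' _ _ _
    _ ≤ redist (V \ T) h x (x + w) + (redist (V \ T) h (x + w) (y + w) +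
          redist (V \ T) h (y + w) y) := by
        gcongr
        exact redist_triangle hh' _ _ _
    _ ≤ ENNReal.ofReal ε + (ENNReal.ofReal ((1 + ε) * plen h γ) + ENNReal.ofReal ε) := by
        gcongr
    _ = ENNReal.ofReal (2 * ε + (1 + ε) * plen h γ) := by
        rw [← ENNReal.ofReal_add (by positivity) hε.le, ← ENNReal.ofReal_add hε.le (by positivity)]
        congr 1
        ring

theorem redist_diff_negl {V T : Set (EE n)} {h : RMetric n} (hh : IsRMetricOn h V) (hT : Negl T)
    {x y : EE n} (hx : x ∈ V \ T) (hy : y ∈ V \ T) :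
    redist (V \ T) h x y = redist V h x y := by
  apply le_antisymm
  · conv_rhs => rw [redist]
    apply le_iInf
    intro γ
    apply le_iInf
    intro hγ
    have hlen : 0 ≤ plen h γ := plenI_nonneg h γ zero_le_one
    apply ENNReal.le_of_forall_pos_le_add
    intro ε hε _
    have hε' : (0 : ℝ) < ε := by exact_mod_cast hε
    have h1 := mNeglDist_step hh hT hx hy hγ (ε := (ε : ℝ) / (2 + plen h γ)) (by positivity)
    refine h1.trans ?_
    have h2 : (ε : ℝ≥0∞) = ENNReal.ofReal (ε : ℝ) := (ENNReal.ofReal_coe_nnreal).symm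
    rw [h2, ← ENNReal.ofReal_add hlen hε'.le]
    apply ENNReal.ofReal_le_ofReal
    have h3 : (ε : ℝ) / (2 + plen h γ) * (2 + plen h γ) = ε := by
      field_simp
    nlinarith
  · exact redist_anti sdiff_subset h x y

theorem exists_isPath_diff {V T : Set (EE n)} (hV : IsOpen V) (hT : Negl T) {x y : EE n}
    (hx : x ∈ V \ T) (hy : y ∈ V \ T) (hxy : ∃ γ, IsPath V x y γ) :
    ∃ γ, IsPath (V \ T) x y γ := by
  obtain ⟨γ, hγ⟩ := hxy
  let e : RMetric n := fun _ => 1
  have he : IsRMetricOn e V := ⟨hV, fun i j => contDiffOn_const, fun x _ => Matrix.PosDef.one⟩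
  have h1 := redist_diff_negl he hT hx hy
  have h2 := redist_lt_top e hγ
  rw [← h1] at h2
  by_contra hno
  push Not at hno
  apply h2.ne
  unfold redist
  simp [hno]

end Pool.Agent.MP39e402
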