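import Pool.Agent.Lib.MP_39e402_gt.GDefs
import Pool.Agent.Lib.MP_39e402_gt.LLocP
import Pool.Agent.Lib.MP_39e402_gt.VDefs

/-! # MP_39e402, module GSlab: in the slab `Sl k i` the metric with `k` holes is the scaled one-hole metric `i`.

The only thing to prove is that in the overlap of the slabs `i` and `i+1` both one-hole metrics are the same tube:
for `11/16 xh i < X < 25/16 xh (i+1)` the scaled coordinates satisfy `|X'| ≥ 512` for both holes, so
`QL_tube`, `sL_tube`, `JL = R` give `r_i PhL(ph_i)(p/r_i) = PAx Y ((1 - st(Y/y - 1)) Q) (lam Q)` with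
`Q = 4 ph_i r_i = 32 ph_{i+1} r_{i+1}`, `y = r_i/20 = r_{i+1}/10` (use `PAx_mul`). -/

open Real Set Filter Topology MeasureTheory
open scoped ContDiff

noncomputable section

namespace Pool.Agent.MP39e402

/-! ## numbers -/

private theorem gs_xh_pos (i : ℕ) : 0 < xh i := by
  unfold xh; positivity

private theorem gs_rh_pos (i : ℕ) : 0 < rh i := by
  unfold rh
  have := gs_xh_pos i
  positivity

private theorem gs_xh_succ (i : ℕ) : xh (i + 1) = xh i / 2 := by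
  unfold xh; rw [pow_succ]; ring

private theorem gs_rh_succ (i : ℕ) : rh (i + 1) = rh i / 2 := by
  unfold rh; rw [gs_xh_succ]; ring

private theorem gs_xh_rh (i : ℕ) : xh i = 4096 * rh i := by
  unfold rh; ring

private theorem gs_xh_le_one (i : ℕ) : xh i ≤ 1 := by
  unfold xh
  exact pow_le_one₀ (by norm_num) (by norm_num)

private theorem gs_rh_le (i : ℕ) : rh i ≤ 1 / 4096 := by
  unfold rh
  have := gs_xh_le_one i
  linarith

private theorem gs_xh_anti {i j : ℕ} (h : i ≤ j) : xh j ≤ xh i := by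
  unfold xh
  exact pow_le_pow_of_le_one (by norm_num) (by norm_num) h

theorem phh_pos {c0 : ℝ} (h : 0 < c0) (i : ℕ) : 0 < phh c0 i := by
  unfold phh
  have := gs_rh_pos i
  positivity

theorem phh_le {c0 : ℝ} (h : 0 < c0) (h1 : c0 ≤ 1) (i : ℕ) : phh c0 i ≤ c0 / 10 ^ 6 := by
  unfold phh
  have h2 := gs_rh_pos i
  have h3 := gs_rh_le i
  have h4 : (rh i) ^ 2 ≤ (1 / 4096) ^ 2 := pow_le_pow_left₀ h2.le h3 2
  have h5 : (rh i) ^ 2 ≤ 1 / 10 ^ 6 := h4.trans (by norm_num)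
  calc c0 * (rh i) ^ 2 ≤ c0 * (1 / 10 ^ 6) := mul_le_mul_of_nonneg_left h5 h.le
    _ = c0 / 10 ^ 6 := by ring

private theorem gs_phh_half {c0 : ℝ} (h : 0 < c0) (h1 : c0 ≤ 1) (i : ℕ) : phh c0 i ≤ 1 / 2 := by
  have := phh_le h h1 i
  have h2 : c0 / 10 ^ 6 ≤ 1 / 2 := by
    rw [div_le_iff₀ (by norm_num)]
    linarith
  linarith

/-! ## the index -/

private theorem gs_idx_spec (k : ℕ) (hk : 1 ≤ k) (X : ℝ) :
    1 ≤ idx k X ∧ idx k X ≤ k ∧ (idx k X < k → 3 / 4 * xh (idx k X) < X) ∧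
      (∀ j, 1 ≤ j → j < idx k X → X ≤ 3 / 4 * xh j) := by
  induction k, hk using Nat.le_induction with
  | base =>
    have h1 : idx 1 X = 1 := by simp [idx]
    rw [h1]
    refine ⟨le_rfl, le_rfl, fun h => absurd h (lt_irrefl _), fun j hj1 hj2 => ?_⟩
    omega
  | succ n hn ih =>
    have hn0 : n ≠ 0 := by omega
    by_cases hX : 3 / 4 * xh n < X
    · have h1 : idx (n + 1) X = idx n X := by
        simp only [idx, if_neg hn0, if_pos hX]
      rw [h1]
      obtain ⟨a1, a2, a3, a4⟩ := ih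
      refine ⟨a1, by omega, fun _ => ?_, a4⟩
      rcases Nat.lt_or_ge (idx n X) n with h | h
      · exact a3 h
      · have : idx n X = n := by omega
        rw [this]; exact hX
    · have h1 : idx (n + 1) X = n + 1 := by
        simp only [idx, if_neg hn0, if_neg hX]
      rw [h1]
      push Not at hX
      refine ⟨by omega, le_rfl, fun h => absurd h (lt_irrefl _), fun j hj1 hj2 => ?_⟩
      have := gs_xh_anti (show j ≤ n by omega)
      linarith

theorem idx_pos (k : ℕ) (X : ℝ) : 1 ≤ idx k X := by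
  rcases Nat.eq_zero_or_pos k with h | h
  · subst h; simp [idx]
  · exact (gs_idx_spec k h X).1

theorem idx_le {k : ℕ} (hk : 1 ≤ k) (X : ℝ) : idx k X ≤ k := (gs_idx_spec k hk X).2.1

theorem mem_Sl_idx {k : ℕ} (hk : 1 ≤ k) (p : EE 4) : p ∈ Sl k (idx k (p 0)) := by
  obtain ⟨a1, a2, a3, a4⟩ := gs_idx_spec k hk (p 0)
  refine ⟨fun h => ?_, fun h => ?_⟩
  · have := a3 h
    have h2 := gs_xh_pos (idx k (p 0))
    linarith
  · have h3 := a4 (idx k (p 0) - 1) (by omega) (by omega)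
    have h4 : idx k (p 0) = (idx k (p 0) - 1) + 1 := by omega
    have h5 := gs_xh_succ (idx k (p 0) - 1)
    rw [← h4] at h5
    have h2 := gs_xh_pos (idx k (p 0))
    linarith

theorem Sl_isOpen (k i : ℕ) : IsOpen (Sl k i) := by
  have hc : Continuous fun p : EE 4 => p 0 := by fun_prop
  have h1 : IsOpen {p : EE 4 | i < k → 11 / 16 * xh i < p 0} := by
    by_cases h : i < k
    · simp only [h, forall_true_left]
      exact isOpen_lt continuous_const hc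
    · simp only [h, IsEmpty.forall_iff, setOf_true, isOpen_univ]
  have h2 : IsOpen {p : EE 4 | 1 < i → p 0 < 25 / 16 * xh i} := by
    by_cases h : 1 < i
    · simp only [h, forall_true_left]
      exact isOpen_lt hc continuous_const
    · simp only [h, IsEmpty.forall_iff, setOf_true, isOpen_univ]
  exact h1.inter h2

/-- the three cases -/
private theorem gs_cases {k i : ℕ} (hi : 1 ≤ i) (hik : i ≤ k) {p : EE 4} (hp : p ∈ Sl k i) :
    idx k (p 0) = i ∨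
      (idx k (p 0) = i + 1 ∧ 11 / 16 * xh i < p 0 ∧ p 0 < 25 / 32 * xh i) ∨
      (∃ j, 1 ≤ j ∧ i = j + 1 ∧ idx k (p 0) = j ∧ 11 / 16 * xh j < p 0 ∧ p 0 < 25 / 32 * xh j) := by
  obtain ⟨a1, a2, a3, a4⟩ := gs_idx_spec k (hi.trans hik) (p 0)
  obtain ⟨b1, b2⟩ := hp
  rcases lt_trichotomy (idx k (p 0)) i with h | h | h
  · right; right
    have c1 := a3 (by omega)
    have c2 := b2 (by omega)
    by_cases h3 : idx k (p 0) + 1 = i
    · refine ⟨idx k (p 0), a1, h3.symm, rfl, ?_, ?_⟩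
      · have := gs_xh_pos (idx k (p 0))
        linarith
      · have h5 := gs_xh_succ (idx k (p 0))
        rw [h3] at h5
        linarith
    · exfalso
      have h4 : xh i ≤ xh (idx k (p 0) + 1 + 1) := gs_xh_anti (by omega)
      rw [gs_xh_succ, gs_xh_succ] at h4
      have := gs_xh_pos i
      linarith
  · left; exact h
  · right; left
    have c1 := b1 (by omega)
    have c2 := a4 i hi h
    have h0 := gs_xh_pos i
    by_cases h3 : idx k (p 0) = i + 1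
    · exact ⟨h3, c1, by linarith⟩
    · exfalso
      have c3 := a4 (i + 1) (by omega) (by omega)
      rw [gs_xh_succ] at c3
      linarith

/-! ## scaled coordinates -/

private theorem gs_norm_sq (p : EE 4) : ‖p‖ ^ 2 = p 0 ^ 2 + p 1 ^ 2 + p 2 ^ 2 + p 3 ^ 2 := by
  rw [EuclideanSpace.norm_sq_eq, Fin.sum_univ_four]
  simp only [Real.norm_eq_abs, sq_abs]

private theorem gs_abs_le (p : EE 4) : |p 0| ≤ ‖p‖ := by
  apply abs_le_of_sq_le_sq _ (norm_nonneg p)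
  rw [gs_norm_sq]
  nlinarith [sq_nonneg (p 1), sq_nonneg (p 2), sq_nonneg (p 3)]

private theorem gs_Yr_le (p : EE 4) : Yr p ≤ ‖p‖ := by
  unfold Yr
  rw [Real.sqrt_le_left (norm_nonneg p), gs_norm_sq]
  nlinarith [sq_nonneg (p 0)]

private theorem gs_sc0 (i : ℕ) (p : EE 4) : (sc i p) 0 = (p 0 - xh i) / rh i := by
  show (1 / rh i) * (p 0 - xh i) = _
  ring

private theorem gs_sc1 (i : ℕ) (p : EE 4) : (sc i p) 1 = p 1 / rh i := by
  show (1 / rh i) * (p 1 - 0) = _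
  ring

private theorem gs_sc2 (i : ℕ) (p : EE 4) : (sc i p) 2 = p 2 / rh i := by
  show (1 / rh i) * (p 2 - 0) = _
  ring

private theorem gs_sc3 (i : ℕ) (p : EE 4) : (sc i p) 3 = p 3 / rh i := by
  show (1 / rh i) * (p 3 - 0) = _
  ring

private theorem gs_Yr_sc (i : ℕ) (p : EE 4) : Yr (sc i p) = Yr p / rh i := by
  unfold Yr
  rw [gs_sc1, gs_sc2, gs_sc3, div_pow, div_pow, div_pow, ← add_div, ← add_div,
    Real.sqrt_div' _ (by positivity), Real.sqrt_sq (gs_rh_pos i).le]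

private theorem gs_Ur_sc (i : ℕ) (p : EE 4) : Ur (sc i p) = Ur p / rh i := by
  unfold Ur
  rw [gs_sc2, gs_sc3, div_pow, div_pow, ← add_div,
    Real.sqrt_div' _ (by positivity), Real.sqrt_sq (gs_rh_pos i).le]

private theorem gs_wY_sc (i : ℕ) (p v : EE 4) : wY (sc i p) v = wY p v := by
  unfold wY
  rw [gs_Yr_sc, gs_sc1, gs_sc2, gs_sc3]
  rw [← div_div_div_cancel_right₀ (gs_rh_pos i).ne' (p 1 * v 1 + p 2 * v 2 + p 3 * v 3) (Yr p)]
  congr 1
  ring

private theorem gs_wU_sc (i : ℕ) (p v : EE 4) : wU (sc i p) v = wU p v := by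
  unfold wU
  rw [gs_Ur_sc, gs_sc2, gs_sc3]
  rw [← div_div_div_cancel_right₀ (gs_rh_pos i).ne' (p 2 * v 2 + p 3 * v 3) (Ur p)]
  congr 1
  ring

private theorem gs_div_sq {A B r : ℝ} (hr : r ≠ 0) : A / r / (B / r) ^ 2 = r * (A / B ^ 2) := by
  rw [div_pow, div_div_eq_mul_div, div_mul_eq_mul_div, div_div, ← mul_div_assoc]
  rw [show A * r ^ 2 / (r * B ^ 2) = (r * (A * r)) / (r * B ^ 2) by ring,
    mul_div_mul_left _ _ hr]
  ring

private theorem gs_wth_sc (i : ℕ) (p v : EE 4) : wth (sc i p) v = rh i * wth p v := by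
  unfold wth
  rw [gs_Ur_sc, gs_sc2, gs_sc3, ← gs_div_sq (gs_rh_pos i).ne']
  congr 1
  ring

private theorem gs_wal_sc (i : ℕ) (p v : EE 4) : wal (sc i p) v = rh i * wal p v := by
  unfold wal
  rw [gs_Yr_sc, gs_wU_sc, gs_Ur_sc, gs_sc1, ← gs_div_sq (gs_rh_pos i).ne']
  congr 1
  ring

private theorem gs_Yr_pos {p : EE 4} (hU : Ur p ≠ 0) : 0 < Yr p := by
  unfold Ur at hU
  unfold Yr
  apply Real.sqrt_pos.2
  have h1 : 0 < p 2 ^ 2 + p 3 ^ 2 := by
    by_contra h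
    push Not at h
    exact hU (Real.sqrt_eq_zero_of_nonpos h)
  nlinarith [sq_nonneg (p 1)]

private theorem gs_Ur_ne (i : ℕ) (p : EE 4) : Ur (sc i p) ≠ 0 ↔ Ur p ≠ 0 := by
  rw [gs_Ur_sc, Ne, div_eq_zero_iff, or_iff_left (gs_rh_pos i).ne']

/-! ## far from the hole -/

private theorem gs_epsh {ph : ℝ} (h : 0 < ph) (h1 : ph ≤ 1 / 2) : epsh ph ≤ 1 / 10000 := by
  have h2 := epsh_le h h1
  have h3 : ph / 10 ^ 12 ≤ 1 / 10000 := by
    rw [div_le_iff₀ (by norm_num)]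
    linarith
  linarith

private theorem gs_sCt1 : sC * t1C ≤ 1 / 2 ∧ 0 ≤ sC * t1C := by
  have h1 := isCoreC.T_gt
  have h2 := isCoreC.t1_pos
  unfold sC
  constructor
  · rw [div_mul_eq_mul_div, one_mul, div_le_iff₀ (by positivity)]
    linarith
  · positivity

private theorem gs_far_lt {ph : ℝ} (h : 0 < ph) (h1 : ph ≤ 1 / 2) {p : EE 4} (hp : 1 ≤ ‖p‖) :
    epsh ph * sC * t1C < ‖p‖ ∧ ¬ ‖p‖ < epsh ph / 2 := by
  have h2 := gs_epsh h h1
  have h3 := epsh_pos h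
  obtain ⟨h4, h5⟩ := gs_sCt1
  constructor
  · rw [mul_assoc]
    have : epsh ph * (sC * t1C) ≤ epsh ph * (1 / 2) := mul_le_mul_of_nonneg_left h4 h3.le
    linarith
  · intro h6
    linarith

private theorem gs_UL_far {ph a : ℝ} (h : 0 < ph) (h1 : ph ≤ 1 / 2) {p : EE 4} (hp : 1 ≤ ‖p‖) :
    p ∈ UL ph a ↔ Ur p ≠ 0 := by
  obtain ⟨h2, h3⟩ := gs_far_lt h h1 hp
  constructor
  · intro h4; exact h4.1
  · intro h4; exact ⟨h4, h2, fun h5 => h3 h5.1⟩

private theorem gs_VL_far {ph a : ℝ} (h : 0 < ph) (h1 : ph ≤ 1 / 2) {p : EE 4} (hp : 1 ≤ ‖p‖) :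
    p ∈ VL ph a := by
  obtain ⟨h2, h3⟩ := gs_far_lt h h1 hp
  exact ⟨h2, fun h5 => h3 h5.1⟩

/-- the metric of hole `i` far from the hole -/
private theorem gs_qL_far {c0 : ℝ} (h : 0 < c0) (h1 : c0 ≤ 1) (i : ℕ) (Ψ U : ℝ → ℝ) {p : EE 4}
    (hp : 1 ≤ ‖sc i p‖) (v : EE 4) :
    qL (phh c0 i) (scΨ (rh i) Ψ) U (sc i p) v = (v 0) ^ 2 + (wY p v) ^ 2
      + (rh i * PhL (phh c0 i) ((sc i p) 0) (Yr (sc i p))) ^ 2 * (wal p v) ^ 2
      + (Ψ (rh i * PhL (phh c0 i) ((sc i p) 0) (Yr (sc i p)) * Ur p / Yr p)) ^ 2 * (wth p v) ^ 2 := by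
  obtain ⟨h2, h3⟩ := gs_far_lt (phh_pos h i) (gs_phh_half h h1 i) hp
  have hr := gs_rh_pos i
  unfold qL
  rw [if_neg h3]
  unfold qI
  have hJ : JL (phh c0 i) ‖sc i p‖ (ang ((sc i p) 0) (Yr (sc i p))) = ‖sc i p‖ := by
    unfold JL
    have : st (2 * ‖sc i p‖ - 1) = 1 := st_one (by linarith)
    rw [this]
    ring
  rw [hJ, sub_self, zero_mul, add_zero, gs_wY_sc, gs_wth_sc, gs_wal_sc]
  unfold scΨ
  have e1 : rh i * (PhL (phh c0 i) ((sc i p) 0) (Yr (sc i p)) * Ur (sc i p) / Yr (sc i p)) =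
      rh i * PhL (phh c0 i) ((sc i p) 0) (Yr (sc i p)) * Ur p / Yr p := by
    have e0 : Ur (sc i p) / Yr (sc i p) = Ur p / Yr p := by
      rw [gs_Ur_sc, gs_Yr_sc, div_div_div_cancel_right₀ hr.ne']
    rw [mul_div_assoc, e0]
    ring
  rw [e1]
  have e2 : ∀ A B : ℝ, (A / rh i) ^ 2 * (rh i * B) ^ 2 = A ^ 2 * B ^ 2 := by
    intro A B
    field_simp
  rw [e2]
  ring

private theorem gs_tube {ph X Y : ℝ} (h : 0 < ph) (h1 : ph ≤ 1 / 2) (hY : 0 < Y) (hX : 512 ≤ |X|) :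
    PhL ph X Y = PAx Y ((1 - st (Y / ysd X - 1)) * zsd ph X) (lam * zsd ph X) := by
  have h2 := gs_epsh h h1
  have hR : |X| ≤ rad X Y := by
    unfold rad
    apply abs_le_of_sq_le_sq _ (Real.sqrt_nonneg _)
    rw [Real.sq_sqrt (by positivity)]
    nlinarith [sq_nonneg Y]
  rw [PhL_of_ge h h1 hY (by linarith), QL_tube h h1 hY (by linarith), sL_tube h h1 hX]

private theorem gs_overlap {c0 : ℝ} (h : 0 < c0) (h1 : c0 ≤ 1) (i : ℕ) {p : EE 4}
    (hX1 : 9 / 16 * xh i ≤ p 0) (hX2 : p 0 ≤ 7 / 8 * xh i) :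
    1 ≤ ‖sc i p‖ ∧ 1 ≤ ‖sc (i + 1) p‖ ∧ (Ur p ≠ 0 →
      rh (i + 1) * PhL (phh c0 (i + 1)) ((sc (i + 1) p) 0) (Yr (sc (i + 1) p)) =
        rh i * PhL (phh c0 i) ((sc i p) 0) (Yr (sc i p))) := by
  have hr := gs_rh_pos i
  have hr1 := gs_rh_pos (i + 1)
  have e1 := gs_rh_succ i
  have e2 := gs_xh_succ i
  have e3 := gs_xh_rh i
  have a1 : (sc i p) 0 ≤ -512 := by
    rw [gs_sc0, div_le_iff₀ hr]
    linarith
  have a2 : 512 ≤ (sc (i + 1) p) 0 := by
    rw [gs_sc0, le_div_iff₀ hr1]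
    linarith
  have b1 : 512 ≤ |(sc i p) 0| := by
    rw [abs_of_neg (by linarith)]
    linarith
  have b2 : 512 ≤ |(sc (i + 1) p) 0| := by
    rw [abs_of_pos (by linarith)]
    linarith
  refine ⟨by linarith [gs_abs_le (sc i p)], by linarith [gs_abs_le (sc (i + 1) p)], fun hU => ?_⟩
  have hY := gs_Yr_pos hU
  have hY1 : 0 < Yr (sc i p) := by rw [gs_Yr_sc]; positivity
  have hY2 : 0 < Yr (sc (i + 1) p) := by rw [gs_Yr_sc]; positivity
  rw [gs_tube (phh_pos h i) (gs_phh_half h h1 i) hY1 b1,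
    gs_tube (phh_pos h (i + 1)) (gs_phh_half h h1 (i + 1)) hY2 b2, ← PAx_mul hr, ← PAx_mul hr1]
  have c1 : zsd (phh c0 i) ((sc i p) 0) = 4 * phh c0 i := by
    unfold zsd; rw [if_pos (by linarith)]
  have c2 : zsd (phh c0 (i + 1)) ((sc (i + 1) p) 0) = 32 * phh c0 (i + 1) := by
    unfold zsd; rw [if_neg (by linarith)]
  have d1 : ysd ((sc i p) 0) = 1 / 20 := by
    unfold ysd; rw [if_pos (by linarith)]
  have d2 : ysd ((sc (i + 1) p) 0) = 1 / 10 := by
    unfold ysd; rw [if_neg (by linarith)]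
  rw [c1, c2, d1, d2, gs_Yr_sc, gs_Yr_sc]
  have f1 : Yr p / rh (i + 1) / (1 / 10) = Yr p / rh i / (1 / 20) := by
    rw [e1]
    field_simp
    norm_num
  have f2 : rh (i + 1) * (32 * phh c0 (i + 1)) = rh i * (4 * phh c0 i) := by
    unfold phh
    rw [e1]
    ring
  have f3 : rh (i + 1) * (Yr p / rh (i + 1)) = rh i * (Yr p / rh i) := by
    rw [mul_div_cancel₀ _ hr1.ne', mul_div_cancel₀ _ hr.ne']
  rw [f1, f3]
  congr 1
  · rw [mul_left_comm, f2, mul_left_comm]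
  · rw [mul_left_comm, f2, mul_left_comm]

private theorem gs_polMet_congr {q q' : EE 4 → EE 4 → ℝ} {p p' : EE 4} (h : ∀ v, q p v = q' p' v) :
    polMet q p = polMet q' p' := by
  unfold polMet
  ext i j
  simp only [Matrix.of_apply, h]

/-- between the holes `i` and `i + 1` both one-hole metrics are the same tube -/
theorem qL_overlap {c0 : ℝ} (h : 0 < c0) (h1 : c0 ≤ 1) (i : ℕ) (Ψ U : ℝ → ℝ) {p : EE 4}
    (hX1 : 9 / 16 * xh i ≤ p 0) (hX2 : p 0 ≤ 7 / 8 * xh i) (hU : Ur p ≠ 0) (v : EE 4) :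
    qL (phh c0 i) (scΨ (rh i) Ψ) U (sc i p) v =
      qL (phh c0 (i + 1)) (scΨ (rh (i + 1)) Ψ) U (sc (i + 1) p) v := by
  obtain ⟨a1, a2, a3⟩ := gs_overlap h h1 i hX1 hX2
  rw [gs_qL_far h h1 i Ψ U a1, gs_qL_far h h1 (i + 1) Ψ U a2, a3 hU]

theorem polMet_qL_overlap {c0 : ℝ} (h : 0 < c0) (h1 : c0 ≤ 1) (i : ℕ) (Ψ U : ℝ → ℝ) {p : EE 4}
    (hX1 : 9 / 16 * xh i ≤ p 0) (hX2 : p 0 ≤ 7 / 8 * xh i) (hU : Ur p ≠ 0) :
    polMet (qL (phh c0 (i + 1)) (scΨ (rh (i + 1)) Ψ) U) (sc (i + 1) p) =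
      polMet (qL (phh c0 i) (scΨ (rh i) Ψ) U) (sc i p) :=
  gs_polMet_congr fun v => (qL_overlap h h1 i Ψ U hX1 hX2 hU v).symm

private theorem gs_overlap' {c0 : ℝ} (h : 0 < c0) (h1 : c0 ≤ 1) (i : ℕ) {p : EE 4}
    (hX1 : 11 / 16 * xh i < p 0) (hX2 : p 0 < 25 / 32 * xh i) :
    1 ≤ ‖sc i p‖ ∧ 1 ≤ ‖sc (i + 1) p‖ ∧ (Ur p ≠ 0 →
      rh (i + 1) * PhL (phh c0 (i + 1)) ((sc (i + 1) p) 0) (Yr (sc (i + 1) p)) =
        rh i * PhL (phh c0 i) ((sc i p) 0) (Yr (sc i p))) := by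
  have hx := gs_xh_pos i
  exact gs_overlap h h1 i (by linarith) (by linarith)

private theorem gs_step {c0 : ℝ} (h : 0 < c0) (h1 : c0 ≤ 1) (i : ℕ) (Ψ U : ℝ → ℝ) {p : EE 4}
    (hX1 : 11 / 16 * xh i < p 0) (hX2 : p 0 < 25 / 32 * xh i) (hU : Ur p ≠ 0) :
    polMet (qL (phh c0 (i + 1)) (scΨ (rh (i + 1)) Ψ) U) (sc (i + 1) p) =
      polMet (qL (phh c0 i) (scΨ (rh i) Ψ) U) (sc i p) := by
  have hx := gs_xh_pos i
  exact polMet_qL_overlap h h1 i Ψ U (by linarith) (by linarith) hU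

/-- the metric in the slab -/
theorem gM_eq {c0 : ℝ} (h : 0 < c0) (h1 : c0 ≤ 1) {k i : ℕ} (hi : 1 ≤ i) (hik : i ≤ k) (Ψ U : ℝ → ℝ)
    {p : EE 4} (hp : p ∈ Sl k i) (hU : Ur p ≠ 0) :
    gM c0 k Ψ U p = polMet (qL (phh c0 i) (scΨ (rh i) Ψ) U) (sc i p) := by
  unfold gM
  rcases gs_cases hi hik hp with h2 | ⟨h2, h3, h4⟩ | ⟨j, hj, h2, h3, h4, h5⟩
  · rw [h2]
  · rw [h2, gs_step h h1 i Ψ U h3 h4 hU]
  · rw [h3, h2, gs_step h h1 j Ψ U h4 h5 hU]

theorem UM_iff {c0 : ℝ} (h : 0 < c0) (h1 : c0 ≤ 1) {k i : ℕ} (hi : 1 ≤ i) (hik : i ≤ k) (a : ℝ)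
    {p : EE 4} (hp : p ∈ Sl k i) : p ∈ UM c0 k a ↔ sc i p ∈ UL (phh c0 i) a := by
  unfold UM
  rw [mem_setOf_eq]
  rcases gs_cases hi hik hp with h2 | ⟨h2, h3, h4⟩ | ⟨j, hj, h2, h3, h4, h5⟩
  · rw [h2]
  · obtain ⟨a1, a2, a3⟩ := gs_overlap' h h1 i h3 h4
    rw [h2, gs_UL_far (phh_pos h _) (gs_phh_half h h1 _) a2,
      gs_UL_far (phh_pos h _) (gs_phh_half h h1 _) a1, gs_Ur_ne, gs_Ur_ne]
  · obtain ⟨a1, a2, a3⟩ := gs_overlap' h h1 j h4 h5
    rw [h3, h2, gs_UL_far (phh_pos h _) (gs_phh_half h h1 _) a2,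
      gs_UL_far (phh_pos h _) (gs_phh_half h h1 _) a1, gs_Ur_ne, gs_Ur_ne]

theorem VM_iff {c0 : ℝ} (h : 0 < c0) (h1 : c0 ≤ 1) {k i : ℕ} (hi : 1 ≤ i) (hik : i ≤ k) (a : ℝ)
    {p : EE 4} (hp : p ∈ Sl k i) : p ∈ VM c0 k a ↔ sc i p ∈ VL (phh c0 i) a := by
  unfold VM
  rw [mem_setOf_eq]
  rcases gs_cases hi hik hp with h2 | ⟨h2, h3, h4⟩ | ⟨j, hj, h2, h3, h4, h5⟩
  · rw [h2]
  · obtain ⟨a1, a2, a3⟩ := gs_overlap' h h1 i h3 h4
    rw [h2]
    exact iff_of_true (gs_VL_far (phh_pos h _) (gs_phh_half h h1 _) a2)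
      (gs_VL_far (phh_pos h _) (gs_phh_half h h1 _) a1)
  · obtain ⟨a1, a2, a3⟩ := gs_overlap' h h1 j h4 h5
    rw [h3, h2]
    exact iff_of_true (gs_VL_far (phh_pos h _) (gs_phh_half h h1 _) a1)
      (gs_VL_far (phh_pos h _) (gs_phh_half h h1 _) a2)

/-! ## the limit -/

private theorem gs_exists_k {X : ℝ} (hX : 0 < X) : ∃ k, 1 ≤ k ∧ 3 / 4 * xh k < X := by
  obtain ⟨n, hn⟩ := exists_pow_lt_of_lt_one hX (show (1 / 2 : ℝ) < 1 by norm_num)
  refine ⟨n + 1, by omega, ?_⟩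
  have h1 := gs_xh_succ n
  have h2 := gs_xh_pos n
  have h3 : xh n < X := hn
  linarith

private theorem gs_kX_spec {X : ℝ} (hX : 0 < X) : 1 ≤ kX X ∧ 3 / 4 * xh (kX X) < X ∧
    ∀ m, 1 ≤ m → m < kX X → X ≤ 3 / 4 * xh m := by
  classical
  have h := gs_exists_k hX
  have e : kX X = Nat.find h := by
    unfold kX
    rw [dif_pos h]
  rw [e]
  refine ⟨(Nat.find_spec h).1, (Nat.find_spec h).2, fun m hm1 hm2 => ?_⟩
  by_contra h3
  push Not at h3
  exact Nat.find_min h hm2 ⟨hm1, h3⟩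

private theorem gs_idx_stable {k l : ℕ} (hk : 1 ≤ k) (hkl : k ≤ l) {X : ℝ}
    (hX : 3 / 4 * xh k < X) : idx l X = idx k X := by
  induction l, hkl using Nat.le_induction with
  | base => rfl
  | succ n hn ih =>
    have h1 : 3 / 4 * xh n < X := by
      have := gs_xh_anti hn
      linarith
    have hn0 : n ≠ 0 := by omega
    simp only [idx, if_neg hn0, if_pos h1]
    exact ih

/-- the index is stable: at `X > 11/16 xh k` the spaces with `k` and with `kX X` holes agree -/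
private theorem gs_kX_cases {k : ℕ} (hk : 1 ≤ k) {X : ℝ} (hX : 11 / 16 * xh k < X) :
    idx (kX X) X = idx k X ∨
      (kX X = k + 1 ∧ idx (kX X) X = k + 1 ∧ idx k X = k ∧ 11 / 16 * xh k < X ∧ X < 25 / 32 * xh k) := by
  have h0 := gs_xh_pos k
  have hX0 : 0 < X := by linarith
  obtain ⟨a1, a2, a3⟩ := gs_kX_spec hX0
  by_cases h : 3 / 4 * xh k < X
  · left
    have h2 : kX X ≤ k := by
      by_contra h3
      push Not at h3
      have := a3 k hk h3
      linarith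
    exact (gs_idx_stable a1 h2 a2).symm
  · push Not at h
    have h2 : kX X = k + 1 := by
      have b1 : k < kX X := by
        by_contra h3
        push Not at h3
        have := gs_xh_anti h3
        linarith
      by_contra h3
      have b2 := a3 (k + 1) (by omega) (by omega)
      rw [gs_xh_succ] at b2
      linarith
    right
    have hk0 : k ≠ 0 := by omega
    refine ⟨h2, ?_, ?_, hX, by linarith⟩
    · rw [h2]
      simp only [idx, if_neg hk0, if_neg (not_lt.2 h)]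
    · obtain ⟨m, rfl⟩ : ∃ m, k = m + 1 := ⟨k - 1, by omega⟩
      by_cases hm : m = 0
      · subst hm; simp [idx]
      · have : ¬ 3 / 4 * xh m < X := by
          have e := gs_xh_succ m
          have := gs_xh_pos m
          push Not
          linarith
        simp only [idx, if_neg hm, if_neg this]

private theorem gs_gInf_pos {c0 : ℝ} {p : EE 4} (hp : 0 < p 0) :
    gInf c0 p = gM c0 (kX (p 0)) Ψ0 U0 p := by
  unfold gInf
  rw [if_neg (not_le.2 hp)]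
  rfl

/-- the limit metric and domain agree with those of `k` holes for `X > 11/16 xh k` -/
theorem gInf_eq {c0 : ℝ} (h : 0 < c0) (h1 : c0 ≤ 1) {k : ℕ} (hk : 1 ≤ k) {p : EE 4}
    (hp : 11 / 16 * xh k < p 0) (hU : Ur p ≠ 0) : gInf c0 p = gM c0 k Ψ0 U0 p := by
  have h0 := gs_xh_pos k
  rw [gs_gInf_pos (by linarith)]
  unfold gM
  rcases gs_kX_cases hk hp with h2 | ⟨h2, h3, h4, h5, h6⟩
  · rw [h2]
  · rw [h3, h4, gs_step h h1 k Ψ0 U0 h5 h6 hU]

theorem UInf_iff {c0 : ℝ} (h : 0 < c0) (h1 : c0 ≤ 1) {k : ℕ} (hk : 1 ≤ k) {p : EE 4}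
    (hp : 11 / 16 * xh k < p 0) : p ∈ UInf c0 ↔ p ∈ UM c0 k 0 := by
  have h0 := gs_xh_pos k
  have hp0 : 0 < p 0 := by linarith
  have hA : p ∈ UInf c0 ↔ Ur p ≠ 0 ∧ p ∈ UM c0 (kX (p 0)) 0 := by
    unfold UInf
    rw [mem_setOf_eq]
    constructor
    · intro h2; exact ⟨h2.1, h2.2 hp0⟩
    · intro h2; exact ⟨h2.1, fun _ => h2.2⟩
  rw [hA]
  unfold UM
  rw [mem_setOf_eq, mem_setOf_eq]
  rcases gs_kX_cases hk hp with h2 | ⟨h2, h3, h4, h5, h6⟩
  · rw [h2]
    constructor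
    · intro h3; exact h3.2
    · intro h3; exact ⟨(gs_Ur_ne _ p).1 h3.1, h3⟩
  · obtain ⟨a1, a2, a3⟩ := gs_overlap' h h1 k h5 h6
    rw [h3, h4, gs_UL_far (phh_pos h _) (gs_phh_half h h1 _) a2,
      gs_UL_far (phh_pos h _) (gs_phh_half h h1 _) a1, gs_Ur_ne, gs_Ur_ne]
    tauto

/-- near `X = 0` and for `X < 0`, `Y > 0`, the limit metric is the singular product -/
theorem gInf_near {c0 : ℝ} (h : 0 < c0) (h1 : c0 ≤ 1) {p : EE 4} (hU : Ur p ≠ 0) (hp : p 0 < Yr p) :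
    gInf c0 p = polMet q0 p ∧ p ∈ UInf c0 := by
  rcases le_or_gt (p 0) 0 with h0 | h0
  · constructor
    · unfold gInf
      rw [if_pos h0]
    · exact ⟨hU, fun h2 => absurd h2 (not_lt.2 h0)⟩
  · obtain ⟨a1, a2, a3⟩ := gs_kX_spec h0
    set K := kX (p 0) with hK
    have hidx : idx K (p 0) = K := by
      obtain ⟨m, hm⟩ : ∃ m, K = m + 1 := ⟨K - 1, by omega⟩
      by_cases hm0 : m = 0
      · rw [hm, hm0]; simp [idx]
      · have : ¬ 3 / 4 * xh m < p 0 := by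
          push Not
          exact a3 m (by omega) (by omega)
        rw [hm]
        simp only [idx, if_neg hm0, if_neg this]
    have hr := gs_rh_pos K
    have hY : 3072 ≤ Yr (sc K p) := by
      rw [gs_Yr_sc, le_div_iff₀ hr]
      have := gs_xh_rh K
      linarith
    have hn : 1 ≤ ‖sc K p‖ := by
      have := gs_Yr_le (sc K p)
      linarith
    constructor
    · rw [gs_gInf_pos h0]
      unfold gM
      rw [← hK, hidx]
      apply gs_polMet_congr
      intro v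
      rw [gs_qL_far h h1 K Ψ0 U0 hn]
      have hR : 1 ≤ rad ((sc K p) 0) (Yr (sc K p)) := by
        unfold rad
        rw [Real.one_le_sqrt]
        nlinarith [sq_nonneg ((sc K p) 0)]
      rw [PhL_out (phh_pos h K) (gs_phh_half h h1 K) hR (by linarith)]
      have e1 : rh K * (aa * Yr (sc K p)) = aa * Yr p := by
        rw [gs_Yr_sc]
        field_simp
      have hYp := gs_Yr_pos hU
      have e2 : Ψ0 (aa * Yr p * Ur p / Yr p) = aa * Ur p / 2 := by
        unfold Ψ0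
        field_simp
      rw [e1, e2]
      unfold q0
      ring
    · refine ⟨hU, fun _ => ?_⟩
      show sc (idx K (p 0)) p ∈ UL (phh c0 (idx K (p 0))) 0
      rw [hidx, gs_UL_far (phh_pos h _) (gs_phh_half h h1 _) hn, gs_Ur_ne]
      exact hU

/-! ## transfer of charts -/

private theorem gs_sc_usc (i : ℕ) (q : EE 4) : sc i (usc i q) = q := by
  unfold sc usc
  rw [add_sub_cancel_left, smul_smul, one_div, inv_mul_cancel₀ (gs_rh_pos i).ne', one_smul]

private theorem gs_usc_sc (i : ℕ) (q : EE 4) : usc i (sc i q) = q := by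
  unfold sc usc
  rw [smul_smul, one_div, mul_inv_cancel₀ (gs_rh_pos i).ne', one_smul, add_sub_cancel]

private theorem gs_usc0 (i : ℕ) (q : EE 4) : (usc i q) 0 = xh i + rh i * q 0 := rfl

private theorem gs_usc_bound (i : ℕ) {q : EE 4} (hq : ‖q‖ ≤ 1) :
    11 / 16 * xh i < (usc i q) 0 ∧ (usc i q) 0 < 25 / 16 * xh i := by
  have h1 := (gs_abs_le q).trans hq
  rw [abs_le] at h1
  have hr := gs_rh_pos i
  have hx := gs_xh_rh i
  rw [gs_usc0]
  constructor <;> nlinarith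

private theorem gs_usc_Sl (k i : ℕ) {q : EE 4} (hq : ‖q‖ ≤ 1) : usc i q ∈ Sl k i :=
  ⟨fun _ => (gs_usc_bound i hq).1, fun _ => (gs_usc_bound i hq).2⟩

private theorem gs_usc_contDiff (i : ℕ) : ContDiff ℝ ∞ (usc i) := by
  unfold usc
  fun_prop

private theorem gs_sc_cont (i : ℕ) : Continuous (sc i) := by
  unfold sc
  fun_prop

private theorem gs_gquad_congr {g g' : RMetric 4} {x x' v : EE 4} (h : g x = g' x') :
    gquad g x v = gquad g' x' v := by
  unfold gquad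
  rw [h]

private theorem gs_gquad_smul (g : RMetric 4) (x v : EE 4) (r : ℝ) :
    gquad g x (r • v) = r ^ 2 * gquad g x v := by
  unfold gquad
  rw [Finset.mul_sum]
  refine Finset.sum_congr rfl fun i _ => ?_
  rw [Finset.mul_sum]
  refine Finset.sum_congr rfl fun j _ => ?_
  show g x i j * (r * v i) * (r * v j) = _
  ring

private theorem gs_gquad_scale (g : RMetric 4) (x v : EE 4) (c : ℝ) :
    gquad (fun x => c • g x) x v = c * gquad g x v := by
  unfold gquad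
  rw [Finset.mul_sum]
  refine Finset.sum_congr rfl fun i _ => ?_
  rw [Finset.mul_sum]
  refine Finset.sum_congr rfl fun j _ => ?_
  show c * g x i j * v i * v j = _
  ring

private theorem gs_met_scale {g : RMetric 4} {V : Set (EE 4)} (hg : IsRMetricOn g V) {c : ℝ}
    (hc : 0 < c) : IsRMetricOn (fun x => c • g x) V where
  isOpen := hg.isOpen
  smooth := fun i j => by
    have := (contDiffOn_const (c := c)).mul (hg.smooth i j)
    exact this
  posDef := fun x hx => (hg.posDef x hx).smul hc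

private theorem gs_fderiv_usc (i : ℕ) (Φ : EE 4 → EE 4) (x v : EE 4) :
    fderiv ℝ (fun x => usc i (Φ x)) x v = rh i • fderiv ℝ Φ x v := by
  unfold usc
  rw [fderiv_const_add]
  by_cases hd : DifferentiableAt ℝ Φ x
  · rw [fderiv_fun_const_smul hd]
    rfl
  · have hd' : ¬ DifferentiableAt ℝ (fun x => rh i • Φ x) x := by
      intro h2
      apply hd
      have h3 := h2.const_smul ((rh i)⁻¹)
      have e : ((rh i)⁻¹ • fun x => rh i • Φ x) = Φ := by
        funext y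
        show (rh i)⁻¹ • (rh i • Φ y) = Φ y
        rw [smul_smul, inv_mul_cancel₀ (gs_rh_pos i).ne', one_smul]
      rw [e] at h3
      exact h3
    rw [fderiv_zero_of_not_differentiableAt hd, fderiv_zero_of_not_differentiableAt hd']
    simp

/-- transfer of a chart of the one-hole model to the space with `k` holes -/
theorem LIso.toGlobal {c0 : ℝ} (h : 0 < c0) (h1 : c0 ≤ 1) {k i : ℕ} (hi : 1 ≤ i) (hik : i ≤ k) {a : ℝ}
    {Ψ U : ℝ → ℝ} {V T : Set (EE 4)} {g : RMetric 4} {Φ : EE 4 → EE 4}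
    (H : LIso (UL (phh c0 i) a) (polMet (qL (phh c0 i) (scΨ (rh i) Ψ) U)) V g T Φ)
    (hO : ∀ x ∈ V \ T, ‖Φ x‖ < 1) :
    LIso (UM c0 k a) (gM c0 k Ψ U) V (fun x => (rh i) ^ 2 • g x) T (fun x => usc i (Φ x)) := by
  have hr := gs_rh_pos i
  have hmaps : MapsTo (fun x => usc i (Φ x)) (V \ T) (UM c0 k a) := by
    intro x hx
    show usc i (Φ x) ∈ UM c0 k a
    rw [UM_iff h h1 hi hik a (gs_usc_Sl k i (hO x hx).le), gs_sc_usc]
    exact H.maps hx
  refine ⟨gs_met_scale H.met (by positivity), H.negl, hmaps,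
    (gs_usc_contDiff i).comp_contDiffOn H.smooth, ?_, ?_⟩
  · intro x hx v
    have hUr : Ur (usc i (Φ x)) ≠ 0 := by
      have h2 := (H.maps hx).1
      rw [← gs_Ur_ne i, gs_sc_usc]
      exact h2
    have h3 := gM_eq h h1 hi hik Ψ U (gs_usc_Sl k i (hO x hx).le) hUr
    rw [gs_sc_usc] at h3
    rw [gs_fderiv_usc, gs_gquad_smul, gs_gquad_congr h3, H.isom x hx v, gs_gquad_scale]
  · intro x hx z hz hxz u hu hlim
    have h4 : Tendsto (fun j => Φ (x j)) atTop (𝓝 (sc i u)) := by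
      have h5 := ((gs_sc_cont i).tendsto u).comp hlim
      refine h5.congr fun j => ?_
      show sc i (usc i (Φ (x j))) = Φ (x j)
      exact gs_sc_usc i _
    have h6 : ‖sc i u‖ ≤ 1 := le_of_tendsto h4.norm (Eventually.of_forall fun j => (hO _ (hx j)).le)
    have h7 : u ∈ Sl k i := by
      have := gs_usc_Sl k i h6
      rwa [gs_usc_sc] at this
    exact H.esc x hx z hz hxz _ ((UM_iff h h1 hi hik a h7).1 hu) h4

/-- the same for the limit -/
theorem LIso.toInf {c0 : ℝ} (h : 0 < c0) (h1 : c0 ≤ 1) {i : ℕ} (hi : 1 ≤ i)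
    {V T : Set (EE 4)} {g : RMetric 4} {Φ : EE 4 → EE 4}
    (H : LIso (UL (phh c0 i) 0) (polMet (qL (phh c0 i) Ψ0 U0)) V g T Φ)
    (hO : ∀ x ∈ V \ T, ‖Φ x‖ < 1) :
    LIso (UInf c0) (gInf c0) V (fun x => (rh i) ^ 2 • g x) T (fun x => usc i (Φ x)) := by
  have hr := gs_rh_pos i
  have hΨ : scΨ (rh i) Ψ0 = Ψ0 := by
    funext w
    unfold scΨ Ψ0
    field_simp
  rw [← hΨ] at H
  have G := LIso.toGlobal h h1 hi le_rfl (k := i) H hO
  refine ⟨G.met, G.negl, ?_, G.smooth, ?_, ?_⟩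
  · intro x hx
    show usc i (Φ x) ∈ UInf c0
    rw [UInf_iff h h1 hi (gs_usc_bound i (hO x hx).le).1]
    exact G.maps hx
  · intro x hx v
    have hUr : Ur (usc i (Φ x)) ≠ 0 := by
      have h2 := (H.maps hx).1
      rw [← gs_Ur_ne i, gs_sc_usc]
      exact h2
    rw [gs_gquad_congr (gInf_eq h h1 hi (gs_usc_bound i (hO x hx).le).1 hUr)]
    exact G.isom x hx v
  · intro x hx z hz hxz u hu hlim
    have h4 : Tendsto (fun j => Φ (x j)) atTop (𝓝 (sc i u)) := by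
      have h5 := ((gs_sc_cont i).tendsto u).comp hlim
      refine h5.congr fun j => ?_
      show sc i (usc i (Φ (x j))) = Φ (x j)
      exact gs_sc_usc i _
    have h6 : ‖sc i u‖ ≤ 1 := le_of_tendsto h4.norm (Eventually.of_forall fun j => (hO _ (hx j)).le)
    have h7 : 11 / 16 * xh i < u 0 := by
      have := (gs_usc_bound i h6).1
      rwa [gs_usc_sc] at this
    exact G.esc x hx z hz hxz u ((UInf_iff h h1 hi h7).1 hu) hlim

end Pool.Agent.MP39e402
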