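import Pool.Agent.Lib.MP_39e402_gt.ULm
import Pool.Agent.Lib.MP_39e402_gt.GSlab

/-! # MP_39e402, module UGm: the global metrics are smooth metrics

Near `p ∈ UM c0 k a` let `i = idx k (p 0)`; on the open slab `Sl k i` (`mem_Sl_idx`, `Sl_isOpen`) `gM` is
`(polMet (qL ..)) (sc i ·)` (`gM_eq`) and membership in `UM` is `sc i p ∈ UL` (`UM_iff`); `sc i` is affine
(`isRMetricOn_affine`), `isRMetricOn_of_locally`.
`gInf`: near a point with `p 0 < Yr p`, `Ur p ≠ 0`: `gInf = polMet q0` (`gInf_near`, `q0_met`); if `p 0 ≥ Yr p > 0`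
choose `k ≥ 1` with `11/16 xh k < p 0`: near `p` `gInf = gM c0 k Ψ0 U0` and `UInf = UM c0 k 0`
(`gInf_eq`, `UInf_iff`). -/

open Real Set Filter Topology MeasureTheory
open scoped ContDiff

noncomputable section

namespace Pool.Agent.MP39e402

theorem sc_coord (i : ℕ) (p : EE 4) (j : Fin 4) :
    sc i p j = (1 / rh i) * (p j - v4 (xh i) 0 0 0 j) := by
  simp [sc]

theorem continuous_sc (i : ℕ) : Continuous (sc i) := by
  have e : sc i = fun p : EE 4 => (1 / rh i) • (p - v4 (xh i) 0 0 0) := rfl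
  rw [e]
  fun_prop

theorem sc_Ur (i : ℕ) (p : EE 4) : Ur (sc i p) = Ur p / rh i := by
  have hr := rh_pos i
  unfold Ur
  rw [sc_coord i p 2, sc_coord i p 3, v4_two, v4_three]
  have e : (1 / rh i * (p 2 - 0)) ^ 2 + (1 / rh i * (p 3 - 0)) ^ 2
      = (p 2 ^ 2 + p 3 ^ 2) / (rh i) ^ 2 := by
    field_simp
    ring
  rw [e, Real.sqrt_div (by positivity), Real.sqrt_sq hr.le]

theorem sc_Yr (i : ℕ) (p : EE 4) : Yr (sc i p) = Yr p / rh i := by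
  have hr := rh_pos i
  unfold Yr
  rw [sc_coord i p 1, sc_coord i p 2, sc_coord i p 3, v4_one, v4_two, v4_three]
  have e : (1 / rh i * (p 1 - 0)) ^ 2 + (1 / rh i * (p 2 - 0)) ^ 2 + (1 / rh i * (p 3 - 0)) ^ 2
      = (p 1 ^ 2 + p 2 ^ 2 + p 3 ^ 2) / (rh i) ^ 2 := by
    field_simp
    ring
  rw [e, Real.sqrt_div (by positivity), Real.sqrt_sq hr.le]

theorem UM_Ur {c0 a : ℝ} {k : ℕ} {p : EE 4} (h : p ∈ UM c0 k a) : Ur p ≠ 0 := by
  intro h0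
  have h1 : Ur (sc (idx k (p 0)) p) ≠ 0 := h.1
  rw [sc_Ur, h0, zero_div] at h1
  exact h1 rfl

theorem UInf_Ur {c0 : ℝ} {p : EE 4} (h : p ∈ UInf c0) : Ur p ≠ 0 := h.1

theorem xh_pos (i : ℕ) : 0 < xh i := by
  unfold xh
  positivity

theorem xh_succ (i : ℕ) : xh (i + 1) = xh i / 2 := by
  unfold xh
  rw [pow_succ]
  ring

theorem exists_xh_lt {X : ℝ} (h : 0 < X) : ∃ k, 1 ≤ k ∧ 11 / 16 * xh k < X := by
  obtain ⟨n, hn⟩ := exists_pow_lt_of_lt_one h (by norm_num : (1 / 2 : ℝ) < 1)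
  refine ⟨n + 1, by omega, ?_⟩
  have h1 := xh_pos n
  have h2 : xh n < X := hn
  rw [xh_succ]
  linarith

theorem phh_le_half {c0 : ℝ} (h : 0 < c0) (h1 : c0 ≤ 1) (i : ℕ) : phh c0 i ≤ 1 / 2 := by
  have h2 := phh_le h h1 i
  have h3 : c0 / 10 ^ 6 ≤ 1 / 10 ^ 6 := by gcongr
  norm_num at h3
  linarith

theorem UM_open {c0 a : ℝ} {k : ℕ} (h : 0 < c0) (h1 : c0 ≤ 1) (hk : 1 ≤ k) (ha : a < sin taC) (ha' : a < 1 / 2) :
    IsOpen (UM c0 k a) := by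
  rw [isOpen_iff_forall_mem_open]
  intro p hp
  have hi := idx_pos k (p 0)
  have hik := idx_le hk (p 0)
  exact ⟨Sl k (idx k (p 0)) ∩ sc (idx k (p 0)) ⁻¹' UL (phh c0 (idx k (p 0))) a,
    fun q hq => (UM_iff h h1 hi hik a hq.1).2 hq.2,
    (Sl_isOpen k _).inter ((UL_open (phh_pos h _) ha ha').preimage (continuous_sc _)),
    ⟨mem_Sl_idx hk p, hp⟩⟩

theorem VM_open {c0 a : ℝ} {k : ℕ} (h : 0 < c0) (h1 : c0 ≤ 1) (hk : 1 ≤ k) (ha : a < sin taC) (ha' : a < 1 / 2) :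
    IsOpen (VM c0 k a) := by
  rw [isOpen_iff_forall_mem_open]
  intro p hp
  have hi := idx_pos k (p 0)
  have hik := idx_le hk (p 0)
  exact ⟨Sl k (idx k (p 0)) ∩ sc (idx k (p 0)) ⁻¹' VL (phh c0 (idx k (p 0))) a,
    fun q hq => (VM_iff h h1 hi hik a hq.1).2 hq.2,
    (Sl_isOpen k _).inter ((VL_open (phh_pos h _) ha ha').preimage (continuous_sc _)),
    ⟨mem_Sl_idx hk p, hp⟩⟩

theorem gM_met {c0 a : ℝ} {k : ℕ} {Ψ U : ℝ → ℝ} (h : 0 < c0) (h1 : c0 ≤ 1) (hk : 1 ≤ k)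
    (H : GAdm c0 k a Ψ U) : IsRMetricOn (gM c0 k Ψ U) (UM c0 k a) := by
  obtain ⟨-, ha', ha⟩ := H.a_bds
  refine isRMetricOn_of_locally fun x hx => ?_
  obtain ⟨i, hi⟩ : ∃ i, i = idx k (x 0) := ⟨_, rfl⟩
  have hi1 : 1 ≤ i := by rw [hi]; exact idx_pos k (x 0)
  have hik : i ≤ k := by rw [hi]; exact idx_le hk (x 0)
  have hr := rh_pos i
  have hq : IsRMetricOn (polMet (qL (phh c0 i) (scΨ (rh i) Ψ) U)) (UL (phh c0 i) a) :=
    qL_met (phh_pos h i) (phh_le_half h h1 i) (H.hadm h h1 hi1 hik)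
  have hA := isRMetricOn_affine hq (c := 1 / rh i) (by positivity) (v4 (xh i) 0 0 0)
  have hxS : x ∈ Sl k i := by rw [hi]; exact mem_Sl_idx hk x
  refine ⟨Sl k i ∩ {p | (1 / rh i) • (p - v4 (xh i) 0 0 0) ∈ UL (phh c0 i) a}, _,
    ⟨hxS, (UM_iff h h1 hi1 hik a hxS).1 hx⟩, fun q hq' => (UM_iff h h1 hi1 hik a hq'.1).2 hq'.2,
    ⟨(Sl_isOpen k i).inter hA.isOpen, fun j l => (hA.smooth j l).mono inter_subset_right,
      fun y hy => hA.posDef y hy.2⟩, fun y hy => ?_⟩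
  have hyU : y ∈ UM c0 k a := (UM_iff h h1 hi1 hik a hy.1).2 hy.2
  exact gM_eq h h1 hi1 hik Ψ U hy.1 (UM_Ur hyU)

theorem gInf_met {c0 : ℝ} (h : 0 < c0) (h1 : c0 ≤ 1) : IsRMetricOn (gInf c0) (UInf c0) := by
  refine isRMetricOn_of_locally fun x hx => ?_
  have hU : Ur x ≠ 0 := hx.1
  rcases lt_or_ge (x 0) (Yr x) with hlt | hge
  · have hW : IsOpen ({p : EE 4 | Ur p ≠ 0} ∩ {p : EE 4 | p 0 < Yr p}) :=
      isOpen_Ur.inter (isOpen_lt (by fun_prop) continuous_Yr)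
    exact ⟨{p : EE 4 | Ur p ≠ 0} ∩ {p : EE 4 | p 0 < Yr p}, polMet q0, ⟨hU, hlt⟩,
      fun q hq => (gInf_near h h1 hq.1 hq.2).2,
      ⟨hW, fun j l => (q0_met.smooth j l).mono inter_subset_left, fun y hy => q0_met.posDef y hy.1⟩,
      fun y hy => (gInf_near h h1 hy.1 hy.2).1⟩
  · have hx0 : 0 < x 0 := lt_of_lt_of_le (Yr_pos hU) hge
    obtain ⟨k, hk, hk'⟩ := exists_xh_lt hx0
    have hG : GAdm c0 k 0 Ψ0 U0 := Or.inr ⟨rfl, rfl, rfl⟩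
    have hM := gM_met h h1 hk hG
    have hW : IsOpen ({p : EE 4 | 11 / 16 * xh k < p 0} ∩ UM c0 k 0) :=
      (isOpen_lt continuous_const (by fun_prop)).inter hM.isOpen
    exact ⟨{p : EE 4 | 11 / 16 * xh k < p 0} ∩ UM c0 k 0, gM c0 k Ψ0 U0,
      ⟨hk', (UInf_iff h h1 hk hk').1 hx⟩,
      fun q hq => (UInf_iff h h1 hk hq.1).2 hq.2,
      ⟨hW, fun j l => (hM.smooth j l).mono inter_subset_right, fun y hy => hM.posDef y hy.2⟩,
      fun y hy => gInf_eq h h1 hk hy.1 (UM_Ur hy.2)⟩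

/-- values of the quadratic forms -/
theorem gM_gquad {c0 : ℝ} {k i : ℕ} (h : 0 < c0) (h1 : c0 ≤ 1) (hi : 1 ≤ i) (hik : i ≤ k) (Ψ U : ℝ → ℝ)
    {p : EE 4} (hp : p ∈ Sl k i) (hU : Ur p ≠ 0) (v : EE 4) :
    gquad (gM c0 k Ψ U) p v = qL (phh c0 i) (scΨ (rh i) Ψ) U (sc i p) v := by
  have e : gquad (gM c0 k Ψ U) p v
      = gquad (polMet (qL (phh c0 i) (scΨ (rh i) Ψ) U)) (sc i p) v := by
    unfold gquad
    rw [gM_eq h h1 hi hik Ψ U hp hU]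
  rw [e, qL_gquad]

end Pool.Agent.MP39e402
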