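import Pool.Agent.Lib.MP_39e402_gt.GExtC
import Pool.Agent.Lib.MP_39e402_gt.GExtI
import Pool.Agent.Lib.MP_39e402_gt.MNeglDist
import Pool.Agent.Lib.MP_39e402_gt.UGm
import Pool.Agent.Lib.MP_39e402_gt.VE1

/-! # MP_39e402, module GExtB: chart A, the identity on `VM` with the extended metric.

`qL_LExt`: for `‖z‖ < 3/5 ε` pull back `qC_LExt` by `Qm` (`qL = s² qC ∘ Qm` there, by definition for `‖p‖ < ε/2`, by
`qC_Qm_eq_qI` for `ε/2 ≤ ‖p‖ < 3/5 ε`), for `‖z‖ > ε/2` `qI_LExt`.  `gM_LExt`: slabs, scaling. -/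

open Real Set Filter Topology MeasureTheory
open scoped ContDiff

noncomputable section

namespace Pool.Agent.MP39e402

/-- agreement in the cone zone (to be supplied by UTrId) -/
theorem qC_Qm_eq_qI {ph : ℝ} (h : 0 < ph) (h1 : ph ≤ 1 / 2) (Ψ U : ℝ → ℝ) {p : EE 4} (hU : Ur p ≠ 0)
    (hp : epsh ph / 2 ≤ ‖p‖) (hp' : ‖p‖ < 3 / 5 * epsh ph) (v : EE 4) :
    (epsh ph * sC) ^ 2 * qC (scΨ (epsh ph * sC) Ψ) U (Qm (epsh ph) p) (fderiv ℝ (Qm (epsh ph)) p v)
      = qI ph Ψ p v := qC_Qm h h1 Ψ U hU hp hp'.le v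

/-! ### quadratic forms -/

private theorem nsq (p : EE 4) : ‖p‖ ^ 2 = p 0 ^ 2 + p 1 ^ 2 + p 2 ^ 2 + p 3 ^ 2 := by
  rw [EuclideanSpace.norm_sq_eq, Fin.sum_univ_four]
  simp only [Real.norm_eq_abs, sq_abs]

private def LF (l : EE 4 → ℝ) : Prop := ∃ a : Fin 4 → ℝ, ∀ v : EE 4, l v = ∑ i, a i * v i

private theorem LF.sq {l : EE 4 → ℝ} (h : LF l) : IsQF (fun v => (l v) ^ 2) := by
  obtain ⟨a, ha⟩ := h
  refine ⟨Matrix.of fun i j => a i * a j, fun i j => by simp [mul_comm], fun v => ?_⟩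
  simp only [ha, Matrix.of_apply, Fin.sum_univ_four]
  ring

private theorem LF.smul {l : EE 4 → ℝ} (h : LF l) (c : ℝ) : LF (fun v => c * l v) := by
  obtain ⟨a, ha⟩ := h
  refine ⟨fun i => c * a i, fun v => ?_⟩
  simp only [ha, Fin.sum_univ_four]
  ring

private theorem LF.sub {l m : EE 4 → ℝ} (h : LF l) (h' : LF m) : LF (fun v => l v - m v) := by
  obtain ⟨a, ha⟩ := h
  obtain ⟨b, hb⟩ := h'
  refine ⟨fun i => a i - b i, fun v => ?_⟩
  simp only [ha, hb, Fin.sum_univ_four]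
  ring

private theorem qf_add {q r : EE 4 → ℝ} (h : IsQF q) (h' : IsQF r) : IsQF (fun v => q v + r v) := by
  obtain ⟨A, hA, hq⟩ := h
  obtain ⟨B, hB, hr⟩ := h'
  refine ⟨A + B, fun i j => by simp [hA i j, hB i j], fun v => ?_⟩
  simp only [hq, hr, Matrix.add_apply, Fin.sum_univ_four]
  ring

private theorem qf_smul {q : EE 4 → ℝ} (h : IsQF q) (c : ℝ) : IsQF (fun v => c * q v) := by
  obtain ⟨A, hA, hq⟩ := h
  refine ⟨c • A, fun i j => by simp [hA i j], fun v => ?_⟩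
  simp only [hq, Matrix.smul_apply, smul_eq_mul, Fin.sum_univ_four]
  ring

private theorem qf_comp {q : EE 4 → ℝ} (h : IsQF q) (D : EE 4 →L[ℝ] EE 4) :
    IsQF (fun v => q (D v)) := by
  obtain ⟨A, hA, hq⟩ := h
  have hv : ∀ (v : EE 4) (i : Fin 4), (D v) i = ∑ k, (D (e4 k)) i * v k := by
    intro v i
    have h1 : v = ∑ k, v k • e4 k := by
      ext j
      simp [e4, Fin.sum_univ_four]
      fin_cases j <;> simp
    conv_lhs => rw [h1]
    simp only [Fin.sum_univ_four, map_add, map_smul, PiLp.add_apply, PiLp.smul_apply, smul_eq_mul]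
    ring
  refine ⟨Matrix.of fun k l => ∑ i, ∑ j, A i j * (D (e4 k)) i * (D (e4 l)) j, fun k l => ?_,
    fun v => ?_⟩
  · simp only [Matrix.of_apply]
    rw [Finset.sum_comm]
    refine Finset.sum_congr rfl fun i _ => Finset.sum_congr rfl fun j _ => ?_
    rw [hA j i]
    ring
  · have hv' := hv v
    simp only [hq, hv', Matrix.of_apply]
    calc ∑ i, ∑ j, A i j * (∑ k, (D (e4 k)) i * v k) * (∑ l, (D (e4 l)) j * v l)
        = ∑ i, ∑ j, ∑ k, ∑ l, A i j * (D (e4 k)) i * (D (e4 l)) j * v k * v l := by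
          refine Finset.sum_congr rfl fun i _ => Finset.sum_congr rfl fun j _ => ?_
          rw [mul_assoc, Finset.sum_mul_sum, Finset.mul_sum]
          refine Finset.sum_congr rfl fun k _ => ?_
          rw [Finset.mul_sum]
          refine Finset.sum_congr rfl fun l _ => ?_
          ring
      _ = ∑ i, ∑ k, ∑ j, ∑ l, A i j * (D (e4 k)) i * (D (e4 l)) j * v k * v l :=
          Finset.sum_congr rfl fun i _ => Finset.sum_comm
      _ = ∑ k, ∑ i, ∑ j, ∑ l, A i j * (D (e4 k)) i * (D (e4 l)) j * v k * v l :=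
          Finset.sum_comm
      _ = ∑ k, ∑ i, ∑ l, ∑ j, A i j * (D (e4 k)) i * (D (e4 l)) j * v k * v l :=
          Finset.sum_congr rfl fun k _ => Finset.sum_congr rfl fun i _ => Finset.sum_comm
      _ = ∑ k, ∑ l, ∑ i, ∑ j, A i j * (D (e4 k)) i * (D (e4 l)) j * v k * v l :=
          Finset.sum_congr rfl fun k _ => Finset.sum_comm
      _ = _ := by
          refine Finset.sum_congr rfl fun k _ => Finset.sum_congr rfl fun l _ => ?_
          rw [Finset.sum_mul, Finset.sum_mul]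
          refine Finset.sum_congr rfl fun i _ => ?_
          rw [Finset.sum_mul, Finset.sum_mul]

private theorem gq_pol {q : EE 4 → EE 4 → ℝ} {p : EE 4} (h : IsQF (q p)) (v : EE 4) :
    gquad (polMet q) p v = q p v := by
  obtain ⟨A, hA, hq⟩ := h
  have key : ∀ i j, polMet q p i j = A i j := by
    intro i j
    unfold polMet
    rw [Matrix.of_apply, hq, hq, hq]
    fin_cases i <;> fin_cases j <;> simp [e4, Fin.sum_univ_four] <;>
      linarith [hA 0 1, hA 0 2, hA 0 3, hA 1 2, hA 1 3, hA 2 3]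
  rw [hq]
  unfold gquad
  refine Finset.sum_congr rfl fun i _ => Finset.sum_congr rfl fun j _ => ?_
  rw [key]

private theorem lf_wR (x : EE 4) : LF (wR x) := by
  refine ⟨![x 0 / ‖x‖, x 1 / ‖x‖, x 2 / ‖x‖, x 3 / ‖x‖], fun v => ?_⟩
  simp only [wR, Fin.sum_univ_four, Matrix.cons_val_zero, Matrix.cons_val_one, Matrix.cons_val]
  ring

private theorem lf_wU (x : EE 4) : LF (wU x) := by
  refine ⟨![0, 0, x 2 / Ur x, x 3 / Ur x], fun v => ?_⟩
  simp only [wU, Fin.sum_univ_four, Matrix.cons_val_zero, Matrix.cons_val_one, Matrix.cons_val]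
  ring

private theorem lf_wth (x : EE 4) : LF (wth x) := by
  refine ⟨![0, 0, -(x 3 / Ur x ^ 2), x 2 / Ur x ^ 2], fun v => ?_⟩
  simp only [wth, Fin.sum_univ_four, Matrix.cons_val_zero, Matrix.cons_val_one, Matrix.cons_val]
  ring

private theorem lf_wvp (x : EE 4) : LF (wvp x) := by
  refine ⟨![-(x 1 / ‖x‖ ^ 2), x 0 / ‖x‖ ^ 2, 0, 0], fun v => ?_⟩
  simp only [wvp, Fin.sum_univ_four, Matrix.cons_val_zero, Matrix.cons_val_one, Matrix.cons_val]
  ring

private theorem lf_wn3 (x : EE 4) : LF (wn3 x) := by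
  have h := ((lf_wU x).smul (1 / ‖x‖)).sub ((lf_wR x).smul (Ur x / ‖x‖ ^ 2))
  have e : wn3 x = fun v => 1 / ‖x‖ * wU x v - Ur x / ‖x‖ ^ 2 * wR x v := by
    funext v
    unfold wn3
    ring
  rw [e]
  exact h

private theorem lf_wrho (x : EE 4) : LF (wrho x) := by
  have h := (((lf_wn3 x).smul (cos (tc x))).sub ((lf_wR x).smul (sin (tc x) * n3 x))).smul
    (-(cos (tc x) * n3 x) / rhoP x)
  have e : wrho x = fun v => -(cos (tc x) * n3 x) / rhoP x *
      (cos (tc x) * wn3 x v - sin (tc x) * n3 x * wR x v) := by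
    funext v
    unfold wrho
    ring
  rw [e]
  exact h

private theorem qf_norm : IsQF (fun v => ‖v‖ ^ 2) := by
  refine ⟨(1 : Matrix (Fin 4) (Fin 4) ℝ), fun i j => by simp [Matrix.one_apply, eq_comm], fun v => ?_⟩
  show ‖v‖ ^ 2 = _
  rw [nsq]
  simp [Matrix.one_apply, Fin.sum_univ_four]
  ring

private theorem qf_qC (Ψ U : ℝ → ℝ) (x : EE 4) : IsQF (qC Ψ U x) := by
  have h1 := (lf_wR x).sq
  have h2 : IsQF (fun v => wn2 x v) := by
    have := qf_smul (qf_add qf_norm (qf_smul h1 (-1))) (1 / ‖x‖ ^ 2)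
    have e : (fun v => wn2 x v) = fun v => 1 / ‖x‖ ^ 2 * (‖v‖ ^ 2 + -1 * wR x v ^ 2) := by
      funext v
      unfold wn2
      ring
    rw [e]
    exact this
  have h3 := (lf_wth x).sq
  have h4 := (lf_wvp x).sq
  have h5 := (lf_wrho x).sq
  have h6 := ((lf_wth x).sub ((lf_wvp x).smul (kap x))).sq
  have hbase : IsQF (fun v => ((wR x v) ^ 2 + bC (tc x) ^ 2 * (wn2 x v + -((n3 x) ^ 2) * (wth x v) ^ 2))
      + (-(bC (tc x) ^ 2 * (bC (tc x) ^ 2 - fC (tc x) ^ 2) / NN x)) * (wvp x v) ^ 2) :=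
    qf_add (qf_add h1 (qf_smul (qf_add h2 (qf_smul h3 _)) _)) (qf_smul h4 _)
  by_cases hP : x ∈ PZ
  · have h7 := qf_add hbase (qf_add
      (qf_smul h5 (1 / (1 - U (rhoP x)) - 1 / (1 - (rhoP x) ^ 2)))
      (qf_smul h6 ((rhoP x) ^ 2 * (1 - U (rhoP x)) / 4)))
    have e : qC Ψ U x = fun v => ((wR x v) ^ 2 + bC (tc x) ^ 2 *
        (wn2 x v + -((n3 x) ^ 2) * (wth x v) ^ 2)
      + (-(bC (tc x) ^ 2 * (bC (tc x) ^ 2 - fC (tc x) ^ 2) / NN x)) * (wvp x v) ^ 2) +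
      ((1 / (1 - U (rhoP x)) - 1 / (1 - (rhoP x) ^ 2)) * (wrho x v) ^ 2 +
        (rhoP x) ^ 2 * (1 - U (rhoP x)) / 4 * (wth x v - kap x * wvp x v) ^ 2) := by
      funext v
      unfold qC
      rw [if_pos hP]
      ring
    rw [e]
    exact h7
  · have h7 := qf_add hbase (qf_smul h6 ((Ψ (wc x)) ^ 2))
    have e : qC Ψ U x = fun v => ((wR x v) ^ 2 + bC (tc x) ^ 2 *
        (wn2 x v + -((n3 x) ^ 2) * (wth x v) ^ 2)
      + (-(bC (tc x) ^ 2 * (bC (tc x) ^ 2 - fC (tc x) ^ 2) / NN x)) * (wvp x v) ^ 2) +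
      (Ψ (wc x)) ^ 2 * (wth x v - kap x * wvp x v) ^ 2 := by
      funext v
      unfold qC
      rw [if_neg hP]
      ring
    rw [e]
    exact h7

private theorem lf_wY (x : EE 4) : LF (wY x) := by
  refine ⟨![0, x 1 / Yr x, x 2 / Yr x, x 3 / Yr x], fun v => ?_⟩
  simp only [wY, Fin.sum_univ_four, Matrix.cons_val_zero, Matrix.cons_val_one, Matrix.cons_val]
  ring

private theorem lf_co (i : Fin 4) : LF (fun v : EE 4 => v i) := by
  refine ⟨Pi.single i 1, fun v => ?_⟩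
  simp [Pi.single_apply]

private theorem lf_wt (x : EE 4) : LF (wt x) := by
  have h := ((lf_wY x).smul (x 0 / ‖x‖ ^ 2)).sub ((lf_co 0).smul (Yr x / ‖x‖ ^ 2))
  have e : wt x = fun v => x 0 / ‖x‖ ^ 2 * wY x v - Yr x / ‖x‖ ^ 2 * v 0 := by
    funext v
    unfold wt
    ring
  rw [e]
  exact h

private theorem lf_wal (x : EE 4) : LF (wal x) := by
  have h := ((lf_wU x).smul (x 1 / Yr x ^ 2)).sub ((lf_co 1).smul (Ur x / Yr x ^ 2))
  have e : wal x = fun v => x 1 / Yr x ^ 2 * wU x v - Ur x / Yr x ^ 2 * v 1 := by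
    funext v
    unfold wal
    ring
  rw [e]
  exact h

private theorem qf_qI (ph : ℝ) (Ψ : ℝ → ℝ) (x : EE 4) : IsQF (qI ph Ψ x) := by
  have h := qf_add (qf_add (qf_add (qf_add (lf_co 0).sq (lf_wY x).sq)
    (qf_smul (lf_wt x).sq ((JL ph ‖x‖ (ang (x 0) (Yr x))) ^ 2 - ‖x‖ ^ 2)))
    (qf_smul (lf_wal x).sq ((PhL ph (x 0) (Yr x)) ^ 2)))
    (qf_smul (lf_wth x).sq ((Ψ (PhL ph (x 0) (Yr x) * Ur x / Yr x)) ^ 2))
  exact h

private theorem qf_qL (ph : ℝ) (Ψ U : ℝ → ℝ) (x : EE 4) : IsQF (qL ph Ψ U x) := by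
  by_cases hx : ‖x‖ < epsh ph / 2
  · have e : qL ph Ψ U x = fun v => (epsh ph * sC) ^ 2 *
        qC (scΨ (epsh ph * sC) Ψ) U (Qm (epsh ph) x) (fderiv ℝ (Qm (epsh ph)) x v) := by
      funext v
      unfold qL
      rw [if_pos hx]
    rw [e]
    exact qf_smul (qf_comp (qf_qC _ _ _) _) _
  · have e : qL ph Ψ U x = qI ph Ψ x := by
      funext v
      unfold qL
      rw [if_neg hx]
    rw [e]
    exact qf_qI _ _ _

private theorem exb_polMet_symm (q : EE 4 → EE 4 → ℝ) (x : EE 4) : (polMet q x).IsSymm := by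
  refine Matrix.IsSymm.ext fun i j => ?_
  simp only [polMet, Matrix.of_apply]
  rw [add_comm (e4 j) (e4 i)]
  ring

private theorem exb_polMet_congr {q q' : EE 4 → EE 4 → ℝ} {x : EE 4} (h : q x = q' x) :
    polMet q x = polMet q' x := by
  unfold polMet
  rw [h]

/-! ### elementary facts -/

private theorem exb_sC_pos : 0 < sC := by
  unfold sC
  have h1 := isCoreC.T_gt
  have h2 := isCoreC.t1_pos
  positivity

private theorem half_eps (ε : ℝ) : ε / 2 = ε * sC * (TC + t1C) := by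
  have h1 := isCoreC.T_gt
  have h2 := isCoreC.t1_pos
  unfold sC
  field_simp

private theorem exb_rh_pos (i : ℕ) : 0 < rh i := by
  unfold rh xh
  positivity

private theorem mem_T23_iff {x : EE 4} : x ∈ T23 ↔ Ur x = 0 := by
  unfold T23 Ur
  rw [Real.sqrt_eq_zero (by positivity)]
  show (x 2 = 0 ∧ x 3 = 0) ↔ _
  constructor
  · rintro ⟨h2, h3⟩
    rw [h2, h3]
    norm_num
  · intro h
    have h2 := sq_nonneg (x 2)
    have h3 := sq_nonneg (x 3)
    exact ⟨pow_eq_zero_iff (two_ne_zero) |>.1 (by linarith),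
      pow_eq_zero_iff (two_ne_zero) |>.1 (by linarith)⟩

private theorem sc_2 (i : ℕ) (p : EE 4) : sc i p 2 = (1 / rh i) * p 2 := by
  simp [sc, v4]

private theorem sc_3 (i : ℕ) (p : EE 4) : sc i p 3 = (1 / rh i) * p 3 := by
  simp [sc, v4]

private theorem sc_mem_T23 (i : ℕ) (p : EE 4) : sc i p ∈ T23 ↔ p ∈ T23 := by
  have hr := (exb_rh_pos i).ne'
  show (sc i p 2 = 0 ∧ sc i p 3 = 0) ↔ (p 2 = 0 ∧ p 3 = 0)
  rw [sc_2, sc_3]
  simp [hr]

private theorem scΨ_near {s : ℝ} (hs : 0 < s) {Ψ : ℝ → ℝ} (hΨ : ∃ r > 0, ∀ w, |w| ≤ r → Ψ w = w) :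
    ∃ r > 0, ∀ w, |w| ≤ r → scΨ s Ψ w = w := by
  obtain ⟨r, hr, h⟩ := hΨ
  refine ⟨r / s, by positivity, fun w hw => ?_⟩
  unfold scΨ
  rw [h (s * w) (by rw [abs_mul, abs_of_pos hs]; rw [le_div_iff₀ hs] at hw; linarith)]
  field_simp

private theorem exb_continuous_Ur : Continuous Ur := by
  unfold Ur
  fun_prop

private theorem continuous_tc : Continuous tc := by
  unfold tc
  fun_prop

/-! ### extension of the one-hole metric -/

theorem qL_LExt {ph a : ℝ} (h : 0 < ph) (h1 : ph ≤ 1 / 2) {Ψ U : ℝ → ℝ}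
    (hΨ : ∃ r > 0, ∀ w, |w| ≤ r → Ψ w = w) {z : EE 4} (hz : epsh ph * sC * t1C < ‖z‖) (hU : Ur z = 0) :
    LExt (polMet (qL ph Ψ U)) T23 z := by
  have he := epsh_pos h
  have hs := exb_sC_pos
  have ht1 := isCoreC.t1_pos
  have hc : 0 < epsh ph * sC := by positivity
  have hz0 : z ≠ 0 := by
    intro h0
    rw [h0, norm_zero] at hz
    have : 0 < epsh ph * sC * t1C := by positivity
    linarith
  by_cases hz1 : ‖z‖ < 3 / 5 * epsh ph
  · -- core coordinates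
    have hO : IsOpen {x : EE 4 | epsh ph * sC * t1C < ‖x‖ ∧ ‖x‖ < 3 / 5 * epsh ph} :=
      (isOpen_lt continuous_const continuous_norm).inter (isOpen_lt continuous_norm continuous_const)
    have hne : ∀ x ∈ {x : EE 4 | epsh ph * sC * t1C < ‖x‖ ∧ ‖x‖ < 3 / 5 * epsh ph}, x ≠ 0 := by
      rintro x ⟨hx, -⟩ h0
      rw [h0, norm_zero] at hx
      have : 0 < epsh ph * sC * t1C := by positivity
      linarith
    have hFz : t1C < ‖Qm (epsh ph) z‖ := by
      rw [Qm_norm he hz0, lt_div_iff₀ hc]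
      linarith
    have hFz0 : Qm (epsh ph) z ≠ 0 := by
      intro h0
      rw [h0, norm_zero] at hFz
      linarith
    have H := qC_LExt (U := U) (scΨ_near hc hΨ) hFz ((Qm_Ur he hz0).2 hU)
    have h0open : IsOpen ({0}ᶜ : Set (EE 4)) := isOpen_compl_singleton
    refine H.pull hO ⟨hz, hz1⟩ (G := Th (epsh ph)) (c := (epsh ph * sC) ^ 2)
      ((Qm_contDiffOn he).mono fun x hx => hne x hx)
      ((Th_contDiffOn he).contDiffAt (h0open.mem_nhds hFz0)) (fun x hx => Th_Qm he (hne x hx))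
      (fun x hx => ?_) (by positivity) (fun x hx v => ?_) (fun x _ => exb_polMet_symm _ _)
    · rw [mem_T23_iff, mem_T23_iff, Qm_Ur he (hne x hx)]
    · obtain ⟨⟨hx1, hx2⟩, hxT⟩ := hx
      rw [mem_T23_iff] at hxT
      rw [gq_pol (qf_qL _ _ _ _), gq_pol (qf_qC _ _ _)]
      by_cases hx : ‖x‖ < epsh ph / 2
      · unfold qL
        rw [if_pos hx]
      · rw [qC_Qm_eq_qI h h1 Ψ U hxT (not_lt.1 hx) hx2]
        unfold qL
        rw [if_neg hx]
  · -- outside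
    have hz2 : epsh ph / 2 < ‖z‖ := by linarith
    obtain ⟨O, g, hzO, hg, hOg⟩ := qI_LExt h h1 hΨ hz0 hU
    have hO' : IsOpen (O ∩ {x : EE 4 | epsh ph / 2 < ‖x‖}) :=
      hg.isOpen.inter (isOpen_lt continuous_const continuous_norm)
    refine ⟨O ∩ {x : EE 4 | epsh ph / 2 < ‖x‖}, g, ⟨hzO, hz2⟩, hg.mono inter_subset_left hO', ?_⟩
    rintro x ⟨⟨hxO, hx⟩, hxT⟩
    rw [hOg x ⟨hxO, hxT⟩]
    refine exb_polMet_congr ?_
    funext v
    unfold qL
    rw [if_neg (not_lt.2 (le_of_lt hx))]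

private theorem fderiv_sc (i : ℕ) (x v : EE 4) : fderiv ℝ (sc i) x v = (1 / rh i) • v := by
  have h0 : HasFDerivAt (fun p : EE 4 => p - v4 (xh i) 0 0 0) (ContinuousLinearMap.id ℝ (EE 4)) x :=
    (hasFDerivAt_id x).sub_const _
  have h : HasFDerivAt (sc i) ((1 / rh i) • (ContinuousLinearMap.id ℝ (EE 4))) x :=
    h0.const_smul (1 / rh i)
  rw [h.fderiv]
  simp

private theorem gquad_smul' (g : RMetric 4) (x v : EE 4) (c : ℝ) :
    gquad g x (c • v) = c ^ 2 * gquad g x v := by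
  unfold gquad
  rw [Finset.mul_sum]
  refine Finset.sum_congr rfl fun i _ => ?_
  rw [Finset.mul_sum]
  refine Finset.sum_congr rfl fun j _ => ?_
  simp only [PiLp.smul_apply, smul_eq_mul]
  ring

private theorem sc_contDiff (i : ℕ) : ContDiff ℝ ∞ (sc i) := by
  have h0 : ContDiff ℝ ∞ (fun p : EE 4 => p - v4 (xh i) 0 0 0) := contDiff_id.sub contDiff_const
  exact h0.const_smul (1 / rh i)

private theorem usc_contDiff (i : ℕ) : ContDiff ℝ ∞ (usc i) := by
  have h0 : ContDiff ℝ ∞ (fun p : EE 4 => rh i • p) := contDiff_id.const_smul (rh i)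
  exact contDiff_const.add h0

private theorem usc_sc (i : ℕ) (p : EE 4) : usc i (sc i p) = p := by
  have hr := (exb_rh_pos i).ne'
  unfold usc sc
  rw [smul_smul, mul_one_div_cancel hr, one_smul]
  abel

theorem gM_LExt {c0 a : ℝ} {k : ℕ} (h : 0 < c0) (h1 : c0 ≤ 1) (hk : 1 ≤ k) {Ψ U : ℝ → ℝ}
    (hΨ : ∃ r > 0, ∀ w, |w| ≤ r → Ψ w = w) {z : EE 4} (hz : z ∈ VM c0 k a) (hU : Ur z = 0) :
    LExt (gM c0 k Ψ U) T23 z := by
  have hi := idx_pos k (z 0)
  have hik := idx_le hk (z 0)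
  have hzS := mem_Sl_idx hk z
  set i := idx k (z 0) with hidef
  have hr := exb_rh_pos i
  have hph := phh_pos h i
  have hph1 : phh c0 i ≤ 1 / 2 := (phh_le h h1 i).trans (by
    rw [div_le_iff₀ (by norm_num)]
    norm_num
    linarith)
  have hzL : sc i z ∈ VL (phh c0 i) a := hz
  have hUz : Ur (sc i z) = 0 := mem_T23_iff.1 ((sc_mem_T23 i z).2 (mem_T23_iff.2 hU))
  have H := qL_LExt (a := a) (U := U) hph hph1 (scΨ_near hr hΨ) hzL.1 hUz
  refine H.pull (Sl_isOpen k i) hzS (G := usc i) (c := (rh i) ^ 2) (sc_contDiff i).contDiffOn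
    (usc_contDiff i).contDiffAt (fun x _ => usc_sc i x) (fun x _ => sc_mem_T23 i x) (by positivity)
    (fun x hx v => ?_) (fun x _ => exb_polMet_symm _ _)
  have hxU : Ur x ≠ 0 := fun h0 => hx.2 (mem_T23_iff.2 h0)
  rw [fderiv_sc, gquad_smul']
  have e : gquad (gM c0 k Ψ U) x v
      = gquad (polMet (qL (phh c0 i) (scΨ (rh i) Ψ) U)) (sc i x) v := by
    unfold gquad
    rw [gM_eq h h1 hi hik Ψ U hx.1 hxU]
  rw [e]
  field_simp

theorem UM_eq {c0 a : ℝ} {k : ℕ} : UM c0 k a = VM c0 k a \ T23 := by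
  ext p
  have e : (Ur (sc (idx k (p 0)) p) ≠ 0) ↔ p ∉ T23 := by
    rw [← sc_mem_T23 (idx k (p 0)) p, mem_T23_iff]
  constructor
  · rintro ⟨h1, h2, h3⟩
    exact ⟨⟨h2, h3⟩, e.1 h1⟩
  · rintro ⟨⟨h2, h3⟩, h1⟩
    exact ⟨e.2 h1, h2, h3⟩

/-! ### the domains are open -/

private theorem n3_bd (x : EE 4) : (n3 x) ^ 2 ≤ 1 := by
  unfold n3
  have h1 : Ur x ^ 2 = x 2 ^ 2 + x 3 ^ 2 := by
    unfold Ur
    rw [Real.sq_sqrt (by positivity)]
  rw [div_pow]
  refine div_le_one_of_le₀ ?_ (by positivity)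
  rw [h1, nsq]
  nlinarith [sq_nonneg (x 0), sq_nonneg (x 1)]

private theorem rhoP_cont {x : EE 4} (hx : x ≠ 0) : ContinuousAt rhoP x := by
  have hn : ‖x‖ ≠ 0 := norm_ne_zero_iff.2 hx
  have h1 : ContinuousAt n3 x := exb_continuous_Ur.continuousAt.div continuous_norm.continuousAt hn
  have h2 : ContinuousAt (fun y => cos (tc y)) x :=
    (Real.continuous_cos.comp continuous_tc).continuousAt
  exact (continuousAt_const.sub ((h2.pow 2).mul (h1.pow 2))).sqrt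

private theorem sin_le_rhoP {x : EE 4} (hx : tc x = taC) : sin taC ≤ rhoP x := by
  have h0 : 0 ≤ sin taC := by
    have h1 := isCoreC.ta_pos
    have h2 := isCoreC.ta_le
    have h3 := Real.pi_gt_three
    exact (Real.sin_pos_of_pos_of_lt_pi h1 (by linarith)).le
  unfold rhoP
  rw [hx]
  refine Real.le_sqrt_of_sq_le ?_
  have h1 := n3_bd x
  have h2 := Real.sin_sq_add_cos_sq taC
  have h3 := sq_nonneg (cos taC)
  nlinarith

private theorem Vc_eq {a : ℝ} (ha : a < 1 / 2) (ha' : a < sin taC) :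
    Vc a = {x | t1C < ‖x‖} ∩ {x | taC < tc x ∨ a < rhoP x} := by
  ext x
  constructor
  · rintro ⟨h1, h2⟩
    refine ⟨h1, ?_⟩
    by_contra h3
    have h3' : ¬ (taC < tc x ∨ a < rhoP x) := h3
    push Not at h3'
    obtain ⟨h4, h5⟩ := h3'
    rcases lt_or_eq_of_le h4 with h6 | h6
    · exact h2 ⟨⟨h6, by linarith⟩, h5⟩
    · have := sin_le_rhoP h6
      linarith
  · rintro ⟨h1, h2⟩
    refine ⟨h1, ?_⟩
    rintro ⟨⟨h3, h4⟩, h5⟩
    rcases h2 with h2 | h2
    · linarith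
    · linarith

theorem Vc_isOpen {a : ℝ} (ha : a < 1 / 2) (ha' : a < sin taC) : IsOpen (Vc a) := by
  rw [Vc_eq ha ha', isOpen_iff_mem_nhds]
  rintro x ⟨h1, h2⟩
  have ht1 := isCoreC.t1_pos
  have hx : x ≠ 0 := by
    rintro rfl
    have h1' : t1C < ‖(0 : EE 4)‖ := h1
    rw [norm_zero] at h1'
    linarith
  refine inter_mem ((isOpen_lt continuous_const continuous_norm).mem_nhds h1) ?_
  rcases h2 with h2 | h2
  · have := continuous_tc.continuousAt.eventually (eventually_gt_nhds h2)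
    filter_upwards [this] with y hy using Or.inl hy
  · have := (rhoP_cont hx).eventually (eventually_gt_nhds h2)
    filter_upwards [this] with y hy using Or.inr hy

private theorem VL_eq {ph a : ℝ} (h : 0 < ph) :
    VL ph a = {0}ᶜ ∩ Qm (epsh ph) ⁻¹' (Vc a) := by
  have he := epsh_pos h
  have hs := exb_sC_pos
  have ht1 := isCoreC.t1_pos
  have hta := isCoreC.ta_le
  have hT := isCoreC.T_gt
  have hc : 0 < epsh ph * sC := by positivity
  ext p
  constructor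
  · rintro ⟨h1, h2⟩
    have hp : p ≠ 0 := by
      rintro rfl
      rw [norm_zero] at h1
      have : 0 < epsh ph * sC * t1C := by positivity
      linarith
    refine ⟨hp, ?_, fun h3 => h2 ⟨?_, h3⟩⟩
    · rw [Qm_norm he hp, lt_div_iff₀ hc]
      linarith
    · have h4 : tc (Qm (epsh ph) p) < taC := h3.1.1
      unfold tc at h4
      rw [Qm_norm he hp, sub_lt_iff_lt_add, div_lt_iff₀ hc] at h4
      rw [half_eps]
      nlinarith
  · rintro ⟨hp, h1, h2⟩
    have hp' : p ≠ 0 := hp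
    rw [Qm_norm he hp', lt_div_iff₀ hc] at h1
    exact ⟨by linarith, fun h3 => h2 h3.2⟩

theorem VL_isOpen {ph a : ℝ} (h : 0 < ph) (h1 : ph ≤ 1 / 2) (ha : a < 1 / 2) (ha' : a < sin taC) :
    IsOpen (VL ph a) := by
  rw [VL_eq h]
  exact (Qm_contDiffOn (epsh_pos h)).continuousOn.isOpen_inter_preimage isOpen_compl_singleton
    (Vc_isOpen ha ha')

theorem VM_isOpen {c0 a : ℝ} {k : ℕ} (h : 0 < c0) (h1 : c0 ≤ 1) (hk : 1 ≤ k) (ha : a < 1 / 2)
    (ha' : a < sin taC) : IsOpen (VM c0 k a) := by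
  rw [isOpen_iff_mem_nhds]
  intro z hz
  have hi := idx_pos k (z 0)
  have hik := idx_le hk (z 0)
  have hzS := mem_Sl_idx hk z
  set i := idx k (z 0) with hidef
  have hph := phh_pos h i
  have hph1 : phh c0 i ≤ 1 / 2 := (phh_le h h1 i).trans (by
    rw [div_le_iff₀ (by norm_num)]
    norm_num
    linarith)
  have hO : IsOpen (Sl k i ∩ sc i ⁻¹' (VL (phh c0 i) a)) :=
    (Sl_isOpen k i).inter ((VL_isOpen hph hph1 ha ha').preimage (sc_contDiff i).continuous)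
  refine mem_of_superset (hO.mem_nhds ⟨hzS, hz⟩) ?_
  rintro x ⟨hx1, hx2⟩
  exact (VM_iff h h1 hi hik a hx1).2 hx2

theorem chartA {c0 ρ1 a ε δ : ℝ} {k : ℕ} {Ψ U : ℝ → ℝ} (h : 0 < c0) (h1 : c0 ≤ 1) (hk : 1 ≤ k)
    (H : Par ρ1 a ε δ Ψ U) (hδ : ∀ i, 1 ≤ i → i ≤ k → δ ≤ dbd c0 i) :
    ∃ hA : RMetric 4, LIso (UM c0 k a) (gM c0 k Ψ U) (VM c0 k a) hA T23 id := by
  have hG : GAdm c0 k a Ψ U := Or.inl ⟨ρ1, ε, δ, H, hδ⟩
  have hb := hG.a_bds
  have hm := gM_met h h1 hk hG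
  rw [UM_eq] at hm ⊢
  exact exists_ext (VM_isOpen h h1 hk hb.2.1 hb.2.2) negl_T23 hm
    fun z hz => gM_LExt (a := a) h h1 hk H.edge.near hz.1 (mem_T23_iff.1 hz.2)

end Pool.Agent.MP39e402
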