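import Pool.Agent.Lib.MP_39e402_gt.GExtA

/-! # MP_39e402, module GExtC: the core metric extends smoothly over `Ur = 0` when `Ψ(w) = w` near `0`.

Near `z`, `Ur z = 0`, `t1 < ‖z‖` we are outside PZ (`rhoP → 1`) and `Ψ(wc)² = wc² = n3² N`.  With
`W := (x2 v3 - x3 v2)/‖x‖²` (`= n3² wth`):
`qC = wR² + b² wn2 - (b²-f²) W² - b²(b²-f²)/N ϖ² - 4 (b²-f²) W ϖ + 4 (b²-f²)² n3² ϖ²/N`, `n3² = Ur²/‖x‖²`,
`N = b² - (b²-f²) n3²` are smooth; at `z` this is `wR² + f² ϖ² + b² (v2²+v3²)/‖z‖²`, positive definite. -/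

open Real Set Filter Topology MeasureTheory
open scoped ContDiff

noncomputable section

namespace Pool.Agent.MP39e402

/-! ### quadratic forms -/

private def gxLin (L : EE 4 → ℝ) : Prop := ∃ a : Fin 4 → ℝ, ∀ v, L v = ∑ i, a i * v i

private theorem gx_congr {q q' : EE 4 → ℝ} (h : IsQF q) (e : ∀ v, q v = q' v) : IsQF q' := by
  obtain ⟨A, hA, hq⟩ := h
  exact ⟨A, hA, fun v => by rw [← e, hq]⟩

private theorem gx_mul {L M : EE 4 → ℝ} (h : gxLin L) (h' : gxLin M) :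
    IsQF (fun v => L v * M v) := by
  obtain ⟨a, ha⟩ := h
  obtain ⟨b, hb⟩ := h'
  refine ⟨Matrix.of fun i j => (a i * b j + a j * b i) / 2, fun i j => ?_, fun v => ?_⟩
  · simp only [Matrix.of_apply]
    ring
  · simp only [ha, hb, Matrix.of_apply, Fin.sum_univ_four]
    ring

private theorem gx_add {q q' : EE 4 → ℝ} (h : IsQF q) (h' : IsQF q') :
    IsQF (fun v => q v + q' v) := by
  obtain ⟨A, hA, hq⟩ := h
  obtain ⟨B, hB, hq'⟩ := h'
  refine ⟨A + B, fun i j => ?_, fun v => ?_⟩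
  · simp only [Matrix.add_apply, hA i j, hB i j]
  · simp only [hq, hq', Matrix.add_apply, Fin.sum_univ_four]
    ring

private theorem gx_smul {q : EE 4 → ℝ} (h : IsQF q) (c : ℝ) : IsQF (fun v => c * q v) := by
  obtain ⟨A, hA, hq⟩ := h
  refine ⟨c • A, fun i j => ?_, fun v => ?_⟩
  · simp only [Matrix.smul_apply, hA i j]
  · simp only [hq, Matrix.smul_apply, Fin.sum_univ_four, smul_eq_mul]
    ring

private theorem gx_normsq (v : EE 4) : ‖v‖ ^ 2 = v 0 ^ 2 + v 1 ^ 2 + v 2 ^ 2 + v 3 ^ 2 := by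
  rw [EuclideanSpace.real_norm_sq_eq, Fin.sum_univ_four]

private theorem gx_norm : IsQF (fun v => ‖v‖ ^ 2) := by
  refine ⟨Matrix.of fun i j => if i = j then 1 else 0, fun i j => ?_, fun v => ?_⟩
  · simp only [Matrix.of_apply, eq_comm]
  · show ‖v‖ ^ 2 = _
    rw [gx_normsq]
    simp [Fin.sum_univ_four]
    ring

/-- polarisation -/
private theorem gx_gquad (q : EE 4 → EE 4 → ℝ) (p : EE 4) (h : IsQF (q p)) (v : EE 4) :
    gquad (polMet q) p v = q p v := by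
  obtain ⟨A, hA, hq⟩ := h
  have key : ∀ i j, polMet q p i j = A i j := by
    intro i j
    unfold polMet
    simp only [Matrix.of_apply, hq]
    have hs := hA
    fin_cases i <;> fin_cases j <;>
      simp [Fin.sum_univ_four, e4] <;>
      linarith [hs 0 1, hs 0 2, hs 0 3, hs 1 2, hs 1 3, hs 2 3]
  unfold gquad
  rw [hq]
  simp only [key]

private theorem gx_symm (q : EE 4 → EE 4 → ℝ) (p : EE 4) (i j : Fin 4) :
    polMet q p i j = polMet q p j i := by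
  unfold polMet
  simp only [Matrix.of_apply]
  rw [add_comm (e4 i) (e4 j)]
  ring

/-! ### positive definiteness is an open condition -/

private theorem gx_coord (v : EE 4) (i : Fin 4) : |v i| ≤ ‖v‖ := by
  apply abs_le_of_sq_le_sq _ (norm_nonneg v)
  rw [gx_normsq]
  fin_cases i <;> simp <;> nlinarith [sq_nonneg (v 0), sq_nonneg (v 1), sq_nonneg (v 2),
    sq_nonneg (v 3)]

private theorem gx_posDef {M : Matrix (Fin 4) (Fin 4) ℝ} (hs : ∀ i j, M i j = M j i)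
    (hp : ∀ v : EE 4, v ≠ 0 → 0 < ∑ i, ∑ j, M i j * v i * v j) : M.PosDef := by
  refine Matrix.PosDef.of_dotProduct_mulVec_pos ?_ ?_
  · ext i j
    simp only [Matrix.conjTranspose_apply, star_trivial]
    exact hs j i
  · intro x hx
    have hv : WithLp.toLp 2 x ≠ (0 : EE 4) := by
      intro h
      apply hx
      ext i
      exact congrFun (congrArg (fun w : EE 4 => (fun i => w i)) h) i
    refine lt_of_lt_of_eq (hp _ hv) ?_
    unfold dotProduct Matrix.mulVec dotProduct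
    refine Finset.sum_congr rfl fun i _ => ?_
    rw [Finset.mul_sum]
    refine Finset.sum_congr rfl fun j _ => ?_
    simp only [Pi.star_apply, star_trivial]
    ring

private theorem gx_posDef_nhds (M : RMetric 4) (z : EE 4) (hs : ∀ x i j, M x i j = M x j i)
    (hc : ∀ i j, ContinuousAt (fun x => M x i j) z) {m : ℝ} (hm : 0 < m)
    (hz : ∀ v : EE 4, m * ‖v‖ ^ 2 ≤ gquad M z v) : ∀ᶠ x in 𝓝 z, (M x).PosDef := by
  have h1 : ∀ᶠ x in 𝓝 z, ∀ i j, |M x i j - M z i j| < m / 32 := by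
    rw [eventually_all]
    intro i
    rw [eventually_all]
    intro j
    have h2 := Metric.tendsto_nhds.1 (hc i j) (m / 32) (by positivity)
    filter_upwards [h2] with x hx
    rwa [Real.dist_eq] at hx
  filter_upwards [h1] with x hx
  refine gx_posDef (hs x) fun v hv => ?_
  have hv0 : 0 < ‖v‖ := norm_pos_iff.2 hv
  have h3 : ∀ i j, -(m / 32 * ‖v‖ ^ 2) ≤ M x i j * v i * v j - M z i j * v i * v j := by
    intro i j
    have h4 : |(M x i j - M z i j) * (v i * v j)| ≤ m / 32 * ‖v‖ ^ 2 := by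
      rw [abs_mul, abs_mul, sq]
      exact mul_le_mul (hx i j).le (mul_le_mul (gx_coord v i) (gx_coord v j) (abs_nonneg _)
        (norm_nonneg _)) (by positivity) (by positivity)
    have h5 := (abs_le.1 h4).1
    linarith
  have h6 : -(16 * (m / 32 * ‖v‖ ^ 2)) ≤
      ∑ i, ∑ j, (M x i j * v i * v j - M z i j * v i * v j) := by
    have : ∑ i : Fin 4, ∑ j : Fin 4, (-(m / 32 * ‖v‖ ^ 2)) ≤
        ∑ i, ∑ j, (M x i j * v i * v j - M z i j * v i * v j) :=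
      Finset.sum_le_sum fun i _ => Finset.sum_le_sum fun j _ => h3 i j
    refine le_trans (le_of_eq ?_) this
    simp only [Finset.sum_const, Finset.card_univ, Fintype.card_fin, nsmul_eq_mul]
    push_cast
    ring
  have h7 := hz v
  unfold gquad at h7
  simp only [Finset.sum_sub_distrib] at h6
  have h8 : 0 < m * ‖v‖ ^ 2 := by positivity
  linarith

/-! ### the smooth form -/

private def gxN (x : EE 4) : ℝ :=
  bC (tc x) ^ 2 - (bC (tc x) ^ 2 - fC (tc x) ^ 2) * ((x 2 ^ 2 + x 3 ^ 2) / ‖x‖ ^ 2)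

private def gxW (x v : EE 4) : ℝ := (x 2 * v 3 - x 3 * v 2) / ‖x‖ ^ 2

private def gxq (x v : EE 4) : ℝ :=
  (wR x v) ^ 2 + bC (tc x) ^ 2 * wn2 x v - (bC (tc x) ^ 2 - fC (tc x) ^ 2) * (gxW x v) ^ 2
    - bC (tc x) ^ 2 * (bC (tc x) ^ 2 - fC (tc x) ^ 2) / gxN x * (wvp x v) ^ 2
    - 4 * (bC (tc x) ^ 2 - fC (tc x) ^ 2) * (gxW x v * wvp x v)
    + 4 * (bC (tc x) ^ 2 - fC (tc x) ^ 2) ^ 2 * ((x 2 ^ 2 + x 3 ^ 2) / ‖x‖ ^ 2) / gxN x
      * (wvp x v) ^ 2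

private theorem gx_lin_wR (x : EE 4) : gxLin (wR x) := by
  refine ⟨fun i => x i / ‖x‖, fun v => ?_⟩
  simp only [wR, Fin.sum_univ_four]
  ring

private theorem gx_lin_W (x : EE 4) : gxLin (gxW x) := by
  refine ⟨![0, 0, -(x 3) / ‖x‖ ^ 2, x 2 / ‖x‖ ^ 2], fun v => ?_⟩
  simp [gxW, Fin.sum_univ_four]
  ring

private theorem gx_lin_wvp (x : EE 4) : gxLin (wvp x) := by
  refine ⟨![-(x 1) / ‖x‖ ^ 2, x 0 / ‖x‖ ^ 2, 0, 0], fun v => ?_⟩
  simp [wvp, Fin.sum_univ_four]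
  ring

private theorem gxq_isQF (x : EE 4) : IsQF (gxq x) := by
  have h1 := gx_mul (gx_lin_wR x) (gx_lin_wR x)
  have h2 := gx_smul gx_norm (bC (tc x) ^ 2 / ‖x‖ ^ 2)
  have h3 := gx_smul h1 (-(bC (tc x) ^ 2 / ‖x‖ ^ 2))
  have h4 := gx_smul (gx_mul (gx_lin_W x) (gx_lin_W x)) (-(bC (tc x) ^ 2 - fC (tc x) ^ 2))
  have h5 := gx_mul (gx_lin_wvp x) (gx_lin_wvp x)
  have h6 := gx_smul h5 (-(bC (tc x) ^ 2 * (bC (tc x) ^ 2 - fC (tc x) ^ 2) / gxN x))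
  have h7 := gx_smul (gx_mul (gx_lin_W x) (gx_lin_wvp x)) (-(4 * (bC (tc x) ^ 2 - fC (tc x) ^ 2)))
  have h8 := gx_smul h5
    (4 * (bC (tc x) ^ 2 - fC (tc x) ^ 2) ^ 2 * ((x 2 ^ 2 + x 3 ^ 2) / ‖x‖ ^ 2) / gxN x)
  refine gx_congr (gx_add (gx_add (gx_add (gx_add (gx_add (gx_add h1 h2) h3) h4) h6) h7) h8)
    fun v => ?_
  simp only [gxq, wn2]
  ring

private theorem gx_Ur_sq (x : EE 4) : Ur x ^ 2 = x 2 ^ 2 + x 3 ^ 2 :=
  Real.sq_sqrt (by positivity)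

private theorem gx_n3_sq (x : EE 4) : n3 x ^ 2 = (x 2 ^ 2 + x 3 ^ 2) / ‖x‖ ^ 2 := by
  unfold n3
  rw [div_pow, gx_Ur_sq]

private theorem gx_NN (x : EE 4) : NN x = gxN x := by
  unfold NN gxN
  rw [gx_n3_sq]

private theorem gx_eq {Ψ U : ℝ → ℝ} {x : EE 4} (hx : ‖x‖ ≠ 0) (hU : Ur x ≠ 0) (hN : 0 < gxN x)
    (hP : x ∉ PZ) (hΨ : Ψ (wc x) = wc x) (v : EE 4) : qC Ψ U x v = gxq x v := by
  have hW : gxW x v = n3 x ^ 2 * wth x v := by
    unfold gxW wth n3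
    field_simp
  have hwc : wc x ^ 2 = n3 x ^ 2 * gxN x := by
    unfold wc
    rw [mul_pow, gx_NN, Real.sq_sqrt hN.le]
  have hNd : gxN x = bC (tc x) ^ 2 - (bC (tc x) ^ 2 - fC (tc x) ^ 2) * n3 x ^ 2 := by
    rw [gx_n3_sq]
    rfl
  unfold qC gxq kap
  rw [if_neg hP, hΨ, hwc, gx_NN, hW, ← gx_n3_sq]
  have hN0 : gxN x ≠ 0 := hN.ne'
  generalize wth x v = th at *
  generalize wvp x v = p at *
  generalize wn2 x v = w2 at *
  generalize wR x v = r at *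
  generalize n3 x = n at *
  generalize bC (tc x) = b at *
  generalize fC (tc x) = f at *
  generalize gxN x = N at *
  have e1 : n ^ 2 * N * (th - 2 * (b ^ 2 - f ^ 2) / N * p) ^ 2 =
      n ^ 2 * N * th ^ 2 - 4 * (b ^ 2 - f ^ 2) * n ^ 2 * th * p +
        4 * (b ^ 2 - f ^ 2) ^ 2 * n ^ 2 / N * p ^ 2 := by
    field_simp
    ring
  rw [e1]
  linear_combination (n ^ 2 * th ^ 2) * hNd

/-! ### smoothness -/

private theorem gx_smooth {O : Set (EE 4)} (h0 : ∀ x ∈ O, x ≠ 0) (hN : ∀ x ∈ O, 0 < gxN x)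
    (v : EE 4) : ContDiffOn ℝ ∞ (fun x => gxq x v) O := by
  have hc : ∀ i : Fin 4, ContDiffOn ℝ ∞ (fun x : EE 4 => x i) O := fun i =>
    (EuclideanSpace.proj i : EE 4 →L[ℝ] ℝ).contDiff.contDiffOn
  have hn : ContDiffOn ℝ ∞ (fun x : EE 4 => ‖x‖) O := contDiffOn_id.norm ℝ h0
  have hn0 : ∀ x ∈ O, ‖x‖ ≠ 0 := fun x hx => norm_ne_zero_iff.2 (h0 x hx)
  have hn2 : ∀ x ∈ O, ‖x‖ ^ 2 ≠ 0 := fun x hx => pow_ne_zero 2 (hn0 x hx)
  have htc : ContDiffOn ℝ ∞ tc O := hn.sub contDiffOn_const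
  have hb : ContDiffOn ℝ ∞ (fun x => bC (tc x)) O := isCoreC.smooth_b.comp_contDiffOn htc
  have hf : ContDiffOn ℝ ∞ (fun x => fC (tc x)) O := isCoreC.smooth_f.comp_contDiffOn htc
  have hs : ContDiffOn ℝ ∞ (fun x : EE 4 => (x 2 ^ 2 + x 3 ^ 2) / ‖x‖ ^ 2) O :=
    (((hc 2).pow 2).add ((hc 3).pow 2)).div (hn.pow 2) hn2
  have hD : ContDiffOn ℝ ∞ (fun x => bC (tc x) ^ 2 - fC (tc x) ^ 2) O := (hb.pow 2).sub (hf.pow 2)
  have hNs : ContDiffOn ℝ ∞ gxN O := (hb.pow 2).sub (hD.mul hs)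
  have hN0 : ∀ x ∈ O, gxN x ≠ 0 := fun x hx => (hN x hx).ne'
  have hR : ContDiffOn ℝ ∞ (fun x => wR x v) O := by
    unfold wR
    exact (((((hc 0).mul contDiffOn_const).add ((hc 1).mul contDiffOn_const)).add
      ((hc 2).mul contDiffOn_const)).add ((hc 3).mul contDiffOn_const)).div hn hn0
  have hw2 : ContDiffOn ℝ ∞ (fun x => wn2 x v) O := by
    unfold wn2
    exact (contDiffOn_const.sub (hR.pow 2)).div (hn.pow 2) hn2
  have hW : ContDiffOn ℝ ∞ (fun x => gxW x v) O := by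
    unfold gxW
    exact (((hc 2).mul contDiffOn_const).sub ((hc 3).mul contDiffOn_const)).div (hn.pow 2) hn2
  have hp : ContDiffOn ℝ ∞ (fun x => wvp x v) O := by
    unfold wvp
    exact (((hc 0).mul contDiffOn_const).sub ((hc 1).mul contDiffOn_const)).div (hn.pow 2) hn2
  unfold gxq
  exact ((((((hR.pow 2).add ((hb.pow 2).mul hw2)).sub (hD.mul (hW.pow 2))).sub
    ((((hb.pow 2).mul hD).div hNs hN0).mul (hp.pow 2))).sub
      ((contDiffOn_const.mul hD).mul (hW.mul hp))).add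
        ((((contDiffOn_const.mul (hD.pow 2)).mul hs).div hNs hN0).mul (hp.pow 2)))

private theorem gx_met_smooth {O : Set (EE 4)} (h0 : ∀ x ∈ O, x ≠ 0) (hN : ∀ x ∈ O, 0 < gxN x)
    (i j : Fin 4) : ContDiffOn ℝ ∞ (fun x => polMet gxq x i j) O := by
  unfold polMet
  simp only [Matrix.of_apply]
  exact (((gx_smooth h0 hN _).sub (gx_smooth h0 hN _)).sub (gx_smooth h0 hN _)).div_const 2

/-! ### the value at the axis -/

private theorem gx_at {z : EE 4} (hz : t1C < ‖z‖) (hU : Ur z = 0) :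
    ∃ m : ℝ, 0 < m ∧ ∀ v : EE 4, m * ‖v‖ ^ 2 ≤ gxq z v := by
  have ht1 : 0 < t1C := isCoreC.t1_pos
  have hz0 : 0 < ‖z‖ := ht1.trans hz
  have htc : 0 < tc z := sub_pos.2 hz
  have hb := isCoreC.b_pos _ htc
  have hf := isCoreC.f_pos _ htc
  have h23 : z 2 ^ 2 + z 3 ^ 2 = 0 := by rw [← gx_Ur_sq, hU]; norm_num
  have h2 : z 2 = 0 := by nlinarith [sq_nonneg (z 2), sq_nonneg (z 3)]
  have h3 : z 3 = 0 := by nlinarith [sq_nonneg (z 2), sq_nonneg (z 3)]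
  have hn : ‖z‖ ^ 2 = z 0 ^ 2 + z 1 ^ 2 := by
    rw [gx_normsq, h2, h3]
    ring
  have hNz : gxN z = bC (tc z) ^ 2 := by
    unfold gxN
    rw [h23]
    ring
  refine ⟨min 1 (min (fC (tc z) ^ 2 / ‖z‖ ^ 2) (bC (tc z) ^ 2 / ‖z‖ ^ 2)), by positivity, ?_⟩
  intro v
  set m := min 1 (min (fC (tc z) ^ 2 / ‖z‖ ^ 2) (bC (tc z) ^ 2 / ‖z‖ ^ 2)) with hm
  have hm1 : m ≤ 1 := min_le_left _ _
  have hm2 : m ≤ fC (tc z) ^ 2 / ‖z‖ ^ 2 := (min_le_right _ _).trans (min_le_left _ _)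
  have hm3 : m ≤ bC (tc z) ^ 2 / ‖z‖ ^ 2 := (min_le_right _ _).trans (min_le_right _ _)
  have hR : wR z v ^ 2 = (z 0 * v 0 + z 1 * v 1) ^ 2 / ‖z‖ ^ 2 := by
    unfold wR
    rw [h2, h3, div_pow]
    ring
  have hp : wvp z v ^ 2 = (z 0 * v 1 - z 1 * v 0) ^ 2 / (‖z‖ ^ 2) ^ 2 := by
    unfold wvp
    rw [div_pow]
  have hW : gxW z v = 0 := by
    unfold gxW
    rw [h2, h3]
    ring
  have hsum : (z 0 * v 0 + z 1 * v 1) ^ 2 + (z 0 * v 1 - z 1 * v 0) ^ 2 =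
      ‖z‖ ^ 2 * (v 0 ^ 2 + v 1 ^ 2) := by
    rw [hn]
    ring
  have hb2 : bC (tc z) ^ 2 ≠ 0 := by positivity
  have hq : gxq z v = wR z v ^ 2 + (fC (tc z) ^ 2 / ‖z‖ ^ 2) * (‖z‖ ^ 2 * wvp z v ^ 2) +
      (bC (tc z) ^ 2 / ‖z‖ ^ 2) * (v 2 ^ 2 + v 3 ^ 2) := by
    unfold gxq
    rw [hW, hNz, h23]
    unfold wn2
    rw [gx_normsq v, hR, hp]
    have e1 : v 0 ^ 2 + v 1 ^ 2 = ((z 0 * v 0 + z 1 * v 1) ^ 2 + (z 0 * v 1 - z 1 * v 0) ^ 2) /
        ‖z‖ ^ 2 := by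
      rw [hsum]
      field_simp
    have e2 : v 0 ^ 2 + v 1 ^ 2 + v 2 ^ 2 + v 3 ^ 2 = ((z 0 * v 0 + z 1 * v 1) ^ 2 +
      (z 0 * v 1 - z 1 * v 0) ^ 2) / ‖z‖ ^ 2 + (v 2 ^ 2 + v 3 ^ 2) := by rw [← e1]; ring
    rw [e2]
    generalize bC (tc z) = b at *
    generalize fC (tc z) = f at *
    generalize (z 0 * v 0 + z 1 * v 1) = A at *
    generalize (z 0 * v 1 - z 1 * v 0) = B at *
    generalize ‖z‖ = R at *
    field_simp
    ring
  have hn2 : 0 < ‖z‖ ^ 2 := by positivity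
  have e3 : wR z v ^ 2 + ‖z‖ ^ 2 * wvp z v ^ 2 = v 0 ^ 2 + v 1 ^ 2 := by
    rw [hR, hp]
    have : (z 0 * v 0 + z 1 * v 1) ^ 2 / ‖z‖ ^ 2 + ‖z‖ ^ 2 * ((z 0 * v 1 - z 1 * v 0) ^ 2 /
        (‖z‖ ^ 2) ^ 2) = ((z 0 * v 0 + z 1 * v 1) ^ 2 + (z 0 * v 1 - z 1 * v 0) ^ 2) / ‖z‖ ^ 2 := by
      field_simp
    rw [this, hsum]
    field_simp
  rw [hq, gx_normsq v]
  have e4 : m * wR z v ^ 2 ≤ wR z v ^ 2 := by
    have := mul_le_mul_of_nonneg_right hm1 (sq_nonneg (wR z v))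
    linarith
  have e5 : m * (‖z‖ ^ 2 * wvp z v ^ 2) ≤
      (fC (tc z) ^ 2 / ‖z‖ ^ 2) * (‖z‖ ^ 2 * wvp z v ^ 2) :=
    mul_le_mul_of_nonneg_right hm2 (by positivity)
  have e6 : m * (v 2 ^ 2 + v 3 ^ 2) ≤ (bC (tc z) ^ 2 / ‖z‖ ^ 2) * (v 2 ^ 2 + v 3 ^ 2) :=
    mul_le_mul_of_nonneg_right hm3 (by positivity)
  have e7 : m * (v 0 ^ 2 + v 1 ^ 2 + v 2 ^ 2 + v 3 ^ 2) = m * wR z v ^ 2 +
      m * (‖z‖ ^ 2 * wvp z v ^ 2) + m * (v 2 ^ 2 + v 3 ^ 2) := by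
    rw [← e3]
    ring
  linarith

theorem qC_LExt {Ψ U : ℝ → ℝ} (hΨ : ∃ r > 0, ∀ w, |w| ≤ r → Ψ w = w) {z : EE 4} (hz : t1C < ‖z‖)
    (hU : Ur z = 0) : LExt (polMet (qC Ψ U)) T23 z := by
  obtain ⟨r, hr, hΨ⟩ := hΨ
  have ht1 : 0 < t1C := isCoreC.t1_pos
  have hz0 : 0 < ‖z‖ := ht1.trans hz
  have htc : 0 < tc z := sub_pos.2 hz
  have hb := isCoreC.b_pos _ htc
  have h23 : z 2 ^ 2 + z 3 ^ 2 = 0 := by rw [← gx_Ur_sq, hU]; norm_num
  have hNz : 0 < gxN z := by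
    unfold gxN
    rw [h23, zero_div, mul_zero, sub_zero]
    positivity
  have hcU : Continuous Ur := by
    unfold Ur
    fun_prop
  have hctc : Continuous tc := by
    unfold tc
    fun_prop
  have hcn : ContinuousAt (fun x : EE 4 => ‖x‖) z := continuous_norm.continuousAt
  have hcn3 : ContinuousAt n3 z := hcU.continuousAt.div hcn hz0.ne'
  have hcb : ContinuousAt (fun x => bC (tc x)) z :=
    (isCoreC.smooth_b.continuous.comp hctc).continuousAt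
  have hcf : ContinuousAt (fun x => fC (tc x)) z :=
    (isCoreC.smooth_f.continuous.comp hctc).continuousAt
  have hcN : ContinuousAt gxN z := by
    have h1 : ContinuousAt (fun x : EE 4 => x 2 ^ 2 + x 3 ^ 2) z := by fun_prop
    exact (hcb.pow 2).sub (((hcb.pow 2).sub (hcf.pow 2)).mul (h1.div (hcn.pow 2)
      (pow_ne_zero 2 hz0.ne')))
  have hn3z : n3 z = 0 := by
    unfold n3
    rw [hU, zero_div]
  -- the conditions near `z`
  have E1 : ∀ᶠ x in 𝓝 z, x ≠ 0 := by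
    have : z ≠ 0 := norm_pos_iff.1 hz0
    exact isOpen_ne.mem_nhds this
  have E2 : ∀ᶠ x in 𝓝 z, 0 < gxN x := hcN.eventually (lt_mem_nhds hNz)
  have E3 : ∀ᶠ x in 𝓝 z, x ∉ PZ := by
    have h1 : ContinuousAt rhoP z := by
      unfold rhoP
      have h2 : ContinuousAt (fun x => cos (tc x)) z := (continuous_cos.comp hctc).continuousAt
      exact (continuousAt_const.sub ((h2.pow 2).mul (hcn3.pow 2))).sqrt
    have h2 : rhoP z = 1 := by
      unfold rhoP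
      rw [hn3z]
      norm_num
    have h3 : ∀ᶠ x in 𝓝 z, 1 / 2 < rhoP x :=
      h1.eventually (lt_mem_nhds (by rw [h2]; norm_num))
    filter_upwards [h3] with x hx hxP
    exact absurd hxP.2 (not_lt.2 hx.le)
  have E4 : ∀ᶠ x in 𝓝 z, |wc x| ≤ r := by
    have h1 : ContinuousAt wc z := by
      have h2 : wc = fun x => n3 x * √(gxN x) := by
        funext x
        unfold wc
        rw [gx_NN]
      rw [h2]
      exact hcn3.mul hcN.sqrt
    have h2 : |wc z| < r := by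
      unfold wc
      rw [hn3z, zero_mul, abs_zero]
      exact hr
    filter_upwards [h1.abs.eventually (gt_mem_nhds h2)] with x hx
    exact hx.le
  have E5 : ∀ᶠ x in 𝓝 z, (polMet gxq x).PosDef := by
    obtain ⟨m, hm, hq⟩ := gx_at hz hU
    refine gx_posDef_nhds (polMet gxq) z (gx_symm gxq) ?_ hm ?_
    · intro i j
      obtain ⟨O, hO, hOo, hzO⟩ := eventually_nhds_iff.1 (E1.and E2)
      exact ((gx_met_smooth (fun x hx => (hO x hx).1) (fun x hx => (hO x hx).2) i j).continuousOn).continuousAt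
        (hOo.mem_nhds hzO)
    · intro v
      rw [gx_gquad gxq z (gxq_isQF z)]
      exact hq v
  obtain ⟨O, hO, hOo, hzO⟩ := eventually_nhds_iff.1
    (E1.and (E2.and (E3.and (E4.and E5))))
  refine ⟨O, polMet gxq, hzO, ⟨hOo, ?_, ?_⟩, ?_⟩
  · exact gx_met_smooth (fun x hx => (hO x hx).1) (fun x hx => (hO x hx).2.1)
  · exact fun x hx => (hO x hx).2.2.2.2
  · rintro x ⟨hx, hxT⟩
    have hUx : Ur x ≠ 0 := by
      intro h
      apply hxT
      have h1 := gx_Ur_sq x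
      rw [h] at h1
      constructor <;> nlinarith [sq_nonneg (x 2), sq_nonneg (x 3)]
    obtain ⟨h1, h2, h3, h4, _⟩ := hO x hx
    have key : ∀ v, gxq x v = qC Ψ U x v := fun v =>
      (gx_eq (norm_ne_zero_iff.2 h1) hUx h2 h3 (hΨ _ h4) v).symm
    ext i j
    unfold polMet
    simp only [Matrix.of_apply, key]

end Pool.Agent.MP39e402
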