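import Pool.Agent.Lib.MP_39e402_gt.UHPath

/-! # MP_39e402, module UHBall: the hole estimates for the ball `ball 0 (5/4 xh (k+1))` (radius `r = 5/8 xh k`)

* points `x` with `‖x‖ = r`, `Ur x ≠ 0`, are in `freeS c0 K` for all `K` (`|‖x‖ - xh i| ≥ xh i/4 ≥ rh i` for all `i ≥ 1`);
* `ball_fr`: from `x` vertically to `Ur = L := xh k` (`vexp (L/Ur x)`, cost `≤ L`), then `horiz` (`|x0|, |x1| ≤ r`; points with
  `Ur = L`, `|x0| ≤ r` are in `freeS`: for `i ≤ k` `|x0 - xh i| ≥ 3/8 xh i`, for `i > k` `Ur = xh k ≥ rh i`), then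
  vertically down; total `≤ 2L + 2·(5/4) L + 7 L`.
* `ball_in`: `x ∈ freeS`, `‖x‖ < r`: `c = √(r² - x0² - x1²)/Ur x ≥ 1`, `y = vexp c x`, `‖y‖ = r`, cost `≤ r`.
* `ball_inInf`: if `x ∉ freeS c0 ⊤`, first radially out of the core of a hole `i ≥ k+1` (`UInf_exit`): the path
  `c ↦ usc i (c • sc i x)`, `1 ≤ c ≤ epsh/(2‖sc i x‖)`, `GPts_radial` gives speed `≤` Euclidean speed; cost `≤ rh i`; the end
  point `y` has `‖y‖ ≤ xh i + rh i < r`. -/

open Real Set Filter Topology MeasureTheory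
open scoped ContDiff ENNReal

noncomputable section

namespace Pool.Agent.MP39e402

variable {c0 : ℝ} {V : Set (EE 4)} {g : RMetric 4} {K : ℕ∞}

private theorem uhball_norm_sq (x : EE 4) : ‖x‖ ^ 2 = x 0 ^ 2 + x 1 ^ 2 + x 2 ^ 2 + x 3 ^ 2 := by
  rw [EuclideanSpace.norm_sq_eq, Fin.sum_univ_four]
  simp only [Real.norm_eq_abs, sq_abs]

private theorem uhball_Ur_nonneg (x : EE 4) : 0 ≤ Ur x := by
  unfold Ur
  exact Real.sqrt_nonneg _

private theorem uhball_Ur_sq (x : EE 4) : Ur x ^ 2 = x 2 ^ 2 + x 3 ^ 2 := by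
  unfold Ur
  exact Real.sq_sqrt (by positivity)

private theorem uhball_norm_Ur (x : EE 4) : ‖x‖ ^ 2 = x 0 ^ 2 + x 1 ^ 2 + Ur x ^ 2 := by
  rw [uhball_norm_sq, uhball_Ur_sq]
  ring

private theorem uhball_abs0 (x : EE 4) : |x 0| ≤ ‖x‖ := by
  apply abs_le_of_sq_le_sq _ (norm_nonneg x)
  rw [uhball_norm_sq]
  nlinarith [sq_nonneg (x 1), sq_nonneg (x 2), sq_nonneg (x 3)]

private theorem uhball_abs1 (x : EE 4) : |x 1| ≤ ‖x‖ := by
  apply abs_le_of_sq_le_sq _ (norm_nonneg x)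
  rw [uhball_norm_sq]
  nlinarith [sq_nonneg (x 0), sq_nonneg (x 2), sq_nonneg (x 3)]

private theorem uhball_Ur_le (x : EE 4) : Ur x ≤ ‖x‖ := by
  apply le_of_sq_le_sq _ (norm_nonneg x)
  rw [uhball_norm_Ur]
  nlinarith [sq_nonneg (x 0), sq_nonneg (x 1)]

private theorem uhball_Ur_vexp {c : ℝ} (hc : 0 ≤ c) (p : EE 4) : Ur (vexp c p) = c * Ur p := by
  have h2 : (vexp c p) 2 = c * p 2 := rfl
  have h3 : (vexp c p) 3 = c * p 3 := rfl
  unfold Ur
  rw [h2, h3, mul_pow, mul_pow, ← mul_add, Real.sqrt_mul (sq_nonneg c), Real.sqrt_sq hc]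

private theorem uhball_Ur_sub (i : ℕ) (p : EE 4) : Ur (p - ctr i) = Ur p := by
  unfold Ur
  have h2 : (p - ctr i) 2 = p 2 := by
    change p 2 - 0 = p 2
    ring
  have h3 : (p - ctr i) 3 = p 3 := by
    change p 3 - 0 = p 3
    ring
  rw [h2, h3]

private theorem uhball_rh (i : ℕ) : rh i = xh i / 4096 := rfl

private theorem uhball_ctr (i : ℕ) : ‖ctr i‖ = xh i := by
  have h1 := GPts_xh_pos i
  have h2 : ‖ctr i‖ ^ 2 = xh i ^ 2 := by
    rw [uhball_norm_sq]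
    change xh i ^ 2 + 0 ^ 2 + 0 ^ 2 + 0 ^ 2 = xh i ^ 2
    ring
  exact (pow_left_inj₀ (norm_nonneg _) h1.le two_ne_zero).1 h2

private theorem uhball_anti {i j : ℕ} (h : i ≤ j) : xh j ≤ xh i := by
  unfold xh
  exact pow_le_pow_of_le_one (by norm_num) (by norm_num) h

private theorem uhball_r (k : ℕ) : 5 / 4 * xh (k + 1) = 5 / 8 * xh k := by
  rw [GPts_xh_succ]
  ring

private theorem uhball_free (h : 0 < c0) (h1 : c0 ≤ 1) {p : EE 4} (hU : Ur p ≠ 0)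
    (hp : ∀ i : ℕ, 1 ≤ i → (i : ℕ∞) ≤ K → xh i / 4 ≤ ‖p - ctr i‖) : p ∈ freeS c0 K := by
  refine ⟨hU, fun i hi hik => (le_trans ?_ (hp i hi hik))⟩
  obtain ⟨_, _, he, he1⟩ := GPts_phh h h1 i
  have h2 := GPts_xh_pos i
  have h3 := mul_le_mul_of_nonneg_left (show epsh (phh c0 i) / 2 ≤ 1 by linarith)
    (GPts_rh_pos i).le
  rw [uhball_rh] at h3 ⊢
  linarith

theorem free_sphere (h : 0 < c0) (h1 : c0 ≤ 1) {k : ℕ} (hk : 1 ≤ k) {x : EE 4} (hU : Ur x ≠ 0)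
    (hx : ‖x‖ = 5 / 4 * xh (k + 1)) : x ∈ freeS c0 K := by
  refine uhball_free h h1 hU fun i _ _ => ?_
  have h2 := abs_norm_sub_norm_le x (ctr i)
  rw [uhball_ctr, hx] at h2
  have h3 := abs_le.1 h2
  have h4 := GPts_xh_pos i
  rcases le_or_gt i k with h5 | h5
  · have h6 := uhball_anti h5
    have h7 := uhball_r k
    linarith [h3.1]
  · have h6 := uhball_anti (show k + 1 ≤ i from h5)
    linarith [h3.2]

/-- for the approximating spaces there is no core in the ball -/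
theorem free_of_ball_M (h : 0 < c0) (h1 : c0 ≤ 1) {k : ℕ} (hk : 1 ≤ k) {x : EE 4} (hU : Ur x ≠ 0)
    (hx : ‖x‖ ≤ 5 / 4 * xh (k + 1)) : x ∈ freeS c0 k := by
  refine uhball_free h h1 hU fun i _ hik => ?_
  have hik' : i ≤ k := by exact_mod_cast hik
  have h2 := abs_norm_sub_norm_le x (ctr i)
  rw [uhball_ctr] at h2
  have h3 := abs_le.1 h2
  have h4 := GPts_xh_pos i
  have h6 := uhball_anti hik'
  have h7 := uhball_r k
  linarith [h3.1]

theorem FreeBd.ball_fr (B : FreeBd c0 V g K) (h : 0 < c0) (h1 : c0 ≤ 1) {k : ℕ} (hk : 1 ≤ k) {x y : EE 4}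
    (hxU : Ur x ≠ 0) (hyU : Ur y ≠ 0) (hx : ‖x‖ = 5 / 4 * xh (k + 1)) (hy : ‖y‖ = 5 / 4 * xh (k + 1)) :
    redist V g x y ≤ ENNReal.ofReal (100 * xh k) := by
  have hL := GPts_xh_pos k
  have hr := uhball_r k
  have hxf : x ∈ freeS c0 K := free_sphere h h1 hk hxU hx
  have hyf : y ∈ freeS c0 K := free_sphere h h1 hk hyU hy
  have key : ∀ z : EE 4, Ur z ≠ 0 → ‖z‖ = 5 / 4 * xh (k + 1) → z ∈ freeS c0 K →
      Ur (vexp (xh k / Ur z) z) = xh k ∧
      redist V g z (vexp (xh k / Ur z) z) ≤ ENNReal.ofReal (xh k) := by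
    intro z hzU hz hzf
    have h2 : 0 < Ur z := lt_of_le_of_ne (uhball_Ur_nonneg z) (Ne.symm hzU)
    have h3 : Ur z ≤ xh k := by
      have := uhball_Ur_le z
      linarith
    have h4 : 1 ≤ xh k / Ur z := by
      rw [one_le_div h2]
      exact h3
    refine ⟨?_, (B.vert hzf h4).trans (ENNReal.ofReal_le_ofReal ?_)⟩
    · rw [uhball_Ur_vexp (by linarith), div_mul_cancel₀ _ hzU]
    · rw [sub_mul, div_mul_cancel₀ _ hzU]
      linarith
  obtain ⟨hx1, hx2⟩ := key x hxU hx hxf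
  obtain ⟨hy1, hy2⟩ := key y hyU hy hyf
  have hx0 := abs_le.1 (uhball_abs0 x)
  have hy0 := abs_le.1 (uhball_abs0 y)
  have hx1' := abs_le.1 (uhball_abs1 x)
  have hy1' := abs_le.1 (uhball_abs1 y)
  have hh := B.horiz hL hx1 hy1 (by
    intro z hz hz0
    have e0 : (vexp (xh k / Ur x) x) 0 = x 0 := rfl
    have e1 : (vexp (xh k / Ur y) y) 0 = y 0 := rfl
    rw [e0, e1, mem_uIcc] at hz0
    have hz1 : z 0 ≤ 5 / 4 * xh (k + 1) := by
      rcases hz0 with h2 | h2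
      · linarith [h2.2, hy0.2]
      · linarith [h2.2, hx0.2]
    refine uhball_free h h1 (by rw [hz]; exact hL.ne') fun i _ _ => ?_
    have h4 := GPts_xh_pos i
    rcases le_or_gt i k with h5 | h5
    · have h6 := uhball_anti h5
      have h7 := uhball_abs0 (z - ctr i)
      have h8 : (z - ctr i) 0 = z 0 - xh i := rfl
      rw [h8] at h7
      have h9 := abs_le.1 h7
      linarith [h9.1]
    · have h6 := uhball_anti h5.le
      have h7 := uhball_Ur_le (z - ctr i)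
      rw [uhball_Ur_sub, hz] at h7
      linarith)
  have f0 : (vexp (xh k / Ur x) x) 0 = x 0 := rfl
  have f1 : (vexp (xh k / Ur x) x) 1 = x 1 := rfl
  have f2 : (vexp (xh k / Ur y) y) 0 = y 0 := rfl
  have f3 : (vexp (xh k / Ur y) y) 1 = y 1 := rfl
  rw [f0, f1, f2, f3] at hh
  have hd0 : |x 0 - y 0| ≤ 2 * (5 / 4 * xh (k + 1)) := abs_le.2 ⟨by linarith, by linarith⟩
  have hd1 : |x 1 - y 1| ≤ 2 * (5 / 4 * xh (k + 1)) := abs_le.2 ⟨by linarith, by linarith⟩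
  rw [redist_comm B.met] at hy2
  calc redist V g x y ≤ redist V g x (vexp (xh k / Ur x) x) + redist V g (vexp (xh k / Ur x) x) y :=
        redist_triangle B.met _ _ _
    _ ≤ redist V g x (vexp (xh k / Ur x) x) +
        (redist V g (vexp (xh k / Ur x) x) (vexp (xh k / Ur y) y) +
          redist V g (vexp (xh k / Ur y) y) y) := by
        gcongr
        exact redist_triangle B.met _ _ _
    _ ≤ ENNReal.ofReal (xh k) +
        (ENNReal.ofReal (|x 0 - y 0| + |x 1 - y 1| + 7 * xh k) + ENNReal.ofReal (xh k)) := by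
        gcongr
    _ = ENNReal.ofReal (xh k + ((|x 0 - y 0| + |x 1 - y 1| + 7 * xh k) + xh k)) := by
        have hp : 0 ≤ |x 0 - y 0| + |x 1 - y 1| + 7 * xh k := by positivity
        rw [ENNReal.ofReal_add hL.le (by linarith), ENNReal.ofReal_add hp hL.le]
    _ ≤ ENNReal.ofReal (100 * xh k) := by
        apply ENNReal.ofReal_le_ofReal
        linarith

theorem FreeBd.ball_in (B : FreeBd c0 V g K) (h : 0 < c0) (h1 : c0 ≤ 1) {k : ℕ} (hk : 1 ≤ k) {x : EE 4}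
    (hx : x ∈ freeS c0 K) (hxn : ‖x‖ < 5 / 4 * xh (k + 1)) :
    ∃ y ∈ V, ‖y‖ = 5 / 4 * xh (k + 1) ∧ redist V g x y ≤ ENNReal.ofReal (xh k) := by
  have hL := GPts_xh_pos k
  have hr := uhball_r k
  set r : ℝ := 5 / 4 * xh (k + 1) with hrd
  have hr0 : 0 < r := by rw [hr]; positivity
  have hU := hx.1
  have hU0 : 0 < Ur x := lt_of_le_of_ne (uhball_Ur_nonneg x) (Ne.symm hU)
  have h2 : ‖x‖ ^ 2 < r ^ 2 := pow_lt_pow_left₀ hxn (norm_nonneg x) two_ne_zero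
  rw [uhball_norm_Ur] at h2
  set s : ℝ := √(r ^ 2 - x 0 ^ 2 - x 1 ^ 2) with hs
  have hs2 : s ^ 2 = r ^ 2 - x 0 ^ 2 - x 1 ^ 2 := Real.sq_sqrt (by nlinarith [sq_nonneg (Ur x)])
  have hs0 : 0 ≤ s := Real.sqrt_nonneg _
  have hUs : Ur x ≤ s := by
    apply le_of_sq_le_sq _ hs0
    rw [hs2]
    linarith
  have hsr : s ≤ r := by
    apply le_of_sq_le_sq _ hr0.le
    rw [hs2]
    nlinarith [sq_nonneg (x 0), sq_nonneg (x 1)]
  have hc : 1 ≤ s / Ur x := by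
    rw [one_le_div hU0]
    exact hUs
  refine ⟨vexp (s / Ur x) x, B.sub (freeS_vexp hx hc), ?_,
    (B.vert hx hc).trans (ENNReal.ofReal_le_ofReal ?_)⟩
  · have h3 : ‖vexp (s / Ur x) x‖ ^ 2 = r ^ 2 := by
      rw [uhball_norm_Ur, uhball_Ur_vexp (by linarith), div_mul_cancel₀ _ hU, hs2]
      change x 0 ^ 2 + x 1 ^ 2 + (r ^ 2 - x 0 ^ 2 - x 1 ^ 2) = r ^ 2
      ring
    exact (pow_left_inj₀ (norm_nonneg _) hr0.le two_ne_zero).1 h3
  · rw [sub_mul, div_mul_cancel₀ _ hU]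
    linarith

/-- radially out of the core, cost `≤ rh i` -/
private theorem uhball_out (h : 0 < c0) (h1 : c0 ≤ 1) {i : ℕ} (hi : 1 ≤ i)
    {x : EE 4} (hx : x ∈ UInf c0) (hx1 : ‖sc i x‖ < epsh (phh c0 i) / 2) :
    ∃ μ : ℝ, μ * ‖sc i x‖ = epsh (phh c0 i) / 2 ∧ ‖usc i (μ • sc i x)‖ ≤ xh i + rh i ∧
      redist (UInf c0) (gInf c0) x (usc i (μ • sc i x)) ≤ ENNReal.ofReal (rh i) := by
  obtain ⟨hp, hp1, he, he1⟩ := GPts_phh h h1 i
  have hr := GPts_rh_pos i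
  have hs : GPts_slab i (x 0) := GPts_slab_of_norm (by linarith)
  have hU := hx.1
  have hUL := (GPts_UInf h h1 hi hs).1 hx
  have hlow : epsh (phh c0 i) * sC * t1C < ‖sc i x‖ := hUL.2.1
  have hq0 : 0 < ‖sc i x‖ := (GPts_R (GPts_sc_Ur_ne.2 hU)).1
  set c : EE 4 := v4 (xh i) 0 0 0 with hc
  set μ : ℝ := epsh (phh c0 i) / 2 / ‖sc i x‖ with hμ
  have hμ1 : 1 < μ := by
    rw [hμ, one_lt_div hq0]
    exact hx1
  have hxc : x - c = rh i • sc i x := (GPts_smul_sub i x).symm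
  have hyd : usc i (μ • sc i x) = c + μ • (x - c) := by
    rw [hxc, smul_comm]
    rfl
  set y : EE 4 := c + μ • (x - c) with hy
  have hyx : y - x = (μ - 1) • (x - c) := by
    rw [hy, sub_smul, one_smul]
    abel
  have hpt : ∀ t : ℝ, x + t • (y - x) = c + (1 + t * (μ - 1)) • (x - c) := by
    intro t
    rw [hyx, add_smul, one_smul, smul_smul]
    abel
  have hscp : ∀ ν : ℝ, sc i (c + ν • (x - c)) = ν • sc i x := by
    intro ν
    unfold sc
    rw [← hc, add_sub_cancel_left, smul_comm]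
  have hUν : ∀ ν : ℝ, 0 < ν → Ur (c + ν • (x - c)) ≠ 0 := by
    intro ν hν
    rw [← GPts_sc_Ur_ne (i := i), hscp]
    have h2 : Ur (ν • sc i x) = ν * Ur (sc i x) := by
      unfold Ur
      have : (ν • sc i x) 2 ^ 2 + (ν • sc i x) 3 ^ 2
          = ν ^ 2 * ((sc i x) 2 ^ 2 + (sc i x) 3 ^ 2) := by
        simp only [PiLp.smul_apply, smul_eq_mul]
        ring
      rw [this, Real.sqrt_mul (sq_nonneg ν), Real.sqrt_sq hν.le]
    rw [h2]
    exact mul_ne_zero hν.ne' (GPts_sc_Ur_ne.2 hU)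
  have hμe : μ * ‖sc i x‖ = epsh (phh c0 i) / 2 := by
    rw [hμ, div_mul_cancel₀ _ hq0.ne']
  have hnorm : ‖y - x‖ ≤ rh i := by
    rw [hyx, hxc, norm_smul, norm_smul, Real.norm_eq_abs, Real.norm_eq_abs, abs_of_pos hr,
      abs_of_pos (by linarith)]
    have h2 : (μ - 1) * (rh i * ‖sc i x‖) ≤ rh i * (μ * ‖sc i x‖) := by
      nlinarith [mul_pos hr hq0]
    rw [hμe] at h2
    nlinarith
  have hyn : ‖y‖ ≤ xh i + rh i := by
    have h2 : ‖y‖ ≤ ‖c‖ + ‖μ • (x - c)‖ := norm_add_le _ _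
    have h3 : ‖c‖ = xh i := uhball_ctr i
    have h4 : ‖μ • (x - c)‖ ≤ rh i := by
      rw [hxc, norm_smul, norm_smul, Real.norm_eq_abs, Real.norm_eq_abs, abs_of_pos hr,
        abs_of_pos (by linarith)]
      have h5 : μ * (rh i * ‖sc i x‖) = rh i * (μ * ‖sc i x‖) := by ring
      rw [h5, hμe]
      nlinarith
    linarith
  refine ⟨μ, hμe, by rw [hyd]; exact hyn, ?_⟩
  rw [hyd]
  refine (GPts_seg fun t ht => ?_).trans (ENNReal.ofReal_le_ofReal hnorm)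
  rw [hpt t]
  set ν : ℝ := 1 + t * (μ - 1) with hν
  have hν1 : 1 ≤ ν := by
    have := mul_nonneg ht.1 (show 0 ≤ μ - 1 by linarith)
    linarith
  have hν2 : ν ≤ μ := by
    have := mul_le_mul_of_nonneg_right ht.2 (show 0 ≤ μ - 1 by linarith)
    linarith
  have hn : ‖sc i (c + ν • (x - c))‖ = ν * ‖sc i x‖ := by
    rw [hscp, norm_smul, Real.norm_eq_abs, abs_of_pos (by linarith)]
  have hv : y - x = ((μ - 1) * rh i / ν) • sc i (c + ν • (x - c)) := by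
    rw [hyx, hscp, hxc, smul_smul, smul_smul]
    congr 1
    have : ν ≠ 0 := by linarith
    field_simp
  rw [hv]
  refine GPts_radial h h1 hi (hUν ν (by linarith)) ?_ ?_ _
  · rw [hn]
    nlinarith
  · rw [hn, ← hμe]
    exact mul_le_mul_of_nonneg_right hν2 hq0.le

theorem ball_inInf (h : 0 < c0) (h1 : c0 ≤ 1) {k : ℕ} (hk : 1 ≤ k) {x : EE 4} (hx : x ∈ UInf c0)
    (hxn : ‖x‖ < 5 / 4 * xh (k + 1)) :
    ∃ y ∈ UInf c0, ‖y‖ = 5 / 4 * xh (k + 1) ∧
      redist (UInf c0) (gInf c0) x y ≤ ENNReal.ofReal (100 * xh k) := by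
  have hL := GPts_xh_pos k
  by_cases hf : x ∈ freeS c0 ⊤
  · obtain ⟨y, hy, hyn, hd⟩ := (freeBd_Inf h h1).ball_in h h1 hk hf hxn
    exact ⟨y, hy, hyn, hd.trans (ENNReal.ofReal_le_ofReal (by linarith))⟩
  · obtain ⟨i, hi, hlt, -, hfr⟩ := UInf_exit h h1 hx hf
    obtain ⟨_, _, he, he1⟩ := GPts_phh h h1 i
    have hxi := GPts_xh_pos i
    have hrh := uhball_rh i
    have hx0 : xh i - rh i ≤ x 0 := by
      have h2 := abs_le.1 (GPts_abs_le i x)
      have h3 : rh i * ‖sc i x‖ ≤ rh i * 1 :=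
        mul_le_mul_of_nonneg_left (by linarith) (GPts_rh_pos i).le
      linarith [h2.1]
    have hxr : x 0 < 5 / 4 * xh (k + 1) := lt_of_le_of_lt (le_of_abs_le (uhball_abs0 x)) hxn
    have hki : k + 1 ≤ i := by
      by_contra hcon
      have h2 : i ≤ k := by omega
      have h3 := uhball_anti h2
      have h4 := uhball_r k
      linarith
    have hxk := uhball_anti hki
    obtain ⟨μ, hμ, hyn, hd⟩ := uhball_out h h1 hi hx hlt
    obtain ⟨y, hy, hyr, hd2⟩ := (freeBd_Inf h h1).ball_in h h1 hk (hfr μ hμ)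
      (lt_of_le_of_lt hyn (by linarith))
    refine ⟨y, hy, hyr, (redist_triangle (gInf_met h h1) _ _ _).trans ((add_le_add hd hd2).trans ?_)⟩
    rw [← ENNReal.ofReal_add (GPts_rh_pos i).le hL.le]
    apply ENNReal.ofReal_le_ofReal
    have h4 : xh (k + 1) ≤ xh k := uhball_anti (Nat.le_succ k)
    linarith

end Pool.Agent.MP39e402
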