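import Pool.Agent.Lib.MP_39e402_gt.UHz

/-! # MP_39e402, module UHset: the bad sets `Bs c0 k ρ1 i`

`i = 0`: a ball.  `1 ≤ i`: `x ∈ Bs i` iff `t1 < ‖X‖`, `X ∈ PZ`, `rhoP X < 2 ρ1`, `X = xco c0 i x = Qm (sc i x)`.
* open: `t1 < ‖X‖` implies `sc i x ≠ 0`, there `Qm` is continuous (`Qm_contDiffOn`); `tc`, `rhoP` are continuous off `0`.
* `Bs_sub`: `tc < ta` gives `‖sc i x‖ = epsh sC ‖X‖ < epsh sC (t1C + taC) < epsh/2` (`taC ≤ 1/2 < 1 < TC`).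
* `Bs_frontier`: `t1 < ‖X‖`: by continuity `tc X ≤ ta`, `rhoP X ≤ 2ρ1`; at `tc = ta` `rhoP ≥ sin ta ≥ 4ρ1`; `x ∉ Bs i` (open).
* `UM_xco`, `UInf_xco`: if `‖sc i p‖ < epsh/2` the point is in the slab `i` (`GPts_slab_of_norm`), `UM_iff`, `GPts_UInf`;
  otherwise `‖X‖ ≥ 1/(2 sC) = TC + t1C` (`Qm_tc_ge`, `Qm_not_PZ`).
* `zch_frontier`: `zch c0 i (c • z)`, `c < 1` close to `1`, is in `Bs i` (`zch_xco`, `zch_rho`, `PhE1_tc`), and tends to
  `zch c0 i z`. -/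

open Real Set Filter Topology MeasureTheory
open scoped ContDiff ENNReal

noncomputable section

namespace Pool.Agent.MP39e402

/-- bad sets -/
def Bs (c0 : ℝ) (k : ℕ) (ρ1 : ℝ) : ℕ → Set (EE 4)
  | 0 => Metric.ball 0 (5 / 4 * xh (k + 1))
  | i + 1 => {p | t1C < ‖Qm (epsh (phh c0 (i + 1))) (sc (i + 1) p)‖ ∧
      Qm (epsh (phh c0 (i + 1))) (sc (i + 1) p) ∈ PZ ∧
      rhoP (Qm (epsh (phh c0 (i + 1))) (sc (i + 1) p)) < 2 * ρ1}

theorem mem_Bs {c0 ρ1 : ℝ} {k i : ℕ} (hi : 1 ≤ i) {p : EE 4} :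
    p ∈ Bs c0 k ρ1 i ↔ t1C < ‖xco c0 i p‖ ∧ xco c0 i p ∈ PZ ∧ rhoP (xco c0 i p) < 2 * ρ1 := by
  obtain ⟨j, rfl⟩ : ∃ j, i = j + 1 := ⟨i - 1, by omega⟩
  exact Iff.rfl

private theorem us_sc_cont (i : ℕ) : Continuous (sc i) := by
  unfold sc
  fun_prop

private theorem us_Qm_zero (ε : ℝ) : Qm ε 0 = 0 := by
  simp [Qm]

private theorem us_xco_cont {c0 : ℝ} (h : 0 < c0) (h1 : c0 ≤ 1) (i : ℕ) {p : EE 4} (hp : sc i p ≠ 0) :
    ContinuousAt (xco c0 i) p := by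
  have h2 : ContinuousAt (Qm (epsh (phh c0 i))) (sc i p) :=
    (Qm_contDiffOn (GPts_phh h h1 i).2.2.1).continuousOn.continuousAt
      (isOpen_compl_singleton.mem_nhds hp)
  exact ContinuousAt.comp (g := Qm (epsh (phh c0 i))) (f := sc i) h2 (us_sc_cont i).continuousAt

private theorem us_ne {c0 : ℝ} {i : ℕ} {p : EE 4} (h2 : t1C < ‖xco c0 i p‖) : sc i p ≠ 0 := by
  intro h0
  unfold xco at h2
  rw [h0, us_Qm_zero, norm_zero] at h2
  exact absurd VClass_t1 (not_lt.2 h2.le)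

theorem Bs_open {c0 ρ1 : ℝ} (h : 0 < c0) (h1 : c0 ≤ 1) (k i : ℕ) : IsOpen (Bs c0 k ρ1 i) := by
  cases i with
  | zero => exact Metric.isOpen_ball
  | succ i =>
    rw [isOpen_iff_mem_nhds]
    intro p hp
    have hp' : t1C < ‖xco c0 (i + 1) p‖ ∧ xco c0 (i + 1) p ∈ PZ ∧ rhoP (xco c0 (i + 1) p) < 2 * ρ1 := hp
    have hc := us_xco_cont h h1 (i + 1) (us_ne hp'.1)
    have hn : ‖xco c0 (i + 1) p‖ ≠ 0 := (VClass_t1.trans hp'.1).ne'
    have hρ : ContinuousAt (fun y => rhoP (xco c0 (i + 1) y)) p :=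
      ContinuousAt.comp (g := rhoP) (f := xco c0 (i + 1)) (VClass_rhoP_at hn) hc
    have ht : ContinuousAt (fun y => tc (xco c0 (i + 1) y)) p :=
      ContinuousAt.comp (g := tc) (f := xco c0 (i + 1)) VClass_cont_tc.continuousAt hc
    have e1 : ∀ᶠ y in 𝓝 p, t1C < ‖xco c0 (i + 1) y‖ := hc.norm.eventually (lt_mem_nhds hp'.1)
    have e2 : ∀ᶠ y in 𝓝 p, tc (xco c0 (i + 1) y) < taC := ht.eventually (gt_mem_nhds hp'.2.1.1)
    have e3 : ∀ᶠ y in 𝓝 p, rhoP (xco c0 (i + 1) y) < 1 / 2 := hρ.eventually (gt_mem_nhds hp'.2.1.2)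
    have e4 : ∀ᶠ y in 𝓝 p, rhoP (xco c0 (i + 1) y) < 2 * ρ1 := hρ.eventually (gt_mem_nhds hp'.2.2)
    filter_upwards [e1, e2, e3, e4] with y a b c d
    exact ⟨a, ⟨b, c⟩, d⟩

theorem Bs_sub {c0 ρ1 : ℝ} (h : 0 < c0) (h1 : c0 ≤ 1) {k i : ℕ} (hi : 1 ≤ i) {p : EE 4}
    (hp : p ∈ Bs c0 k ρ1 i) : ‖sc i p‖ < epsh (phh c0 i) / 2 := by
  rw [mem_Bs hi] at hp
  have he := (GPts_phh h h1 i).2.2.1
  have hne := us_ne hp.1
  have h2 : tc (xco c0 i p) < taC := hp.2.1.1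
  have h3 : ‖xco c0 i p‖ = ‖sc i p‖ / (epsh (phh c0 i) * sC) := Qm_norm he hne
  have hs := GPts_sC_pos
  have hT := isCoreC.T_gt
  have ht1 := isCoreC.t1_pos
  have hta := isCoreC.ta_le
  unfold tc at h2
  have h4 : ‖xco c0 i p‖ < TC + t1C := by linarith
  rw [h3, div_lt_iff₀ (by positivity)] at h4
  have h5 : (TC + t1C) * (epsh (phh c0 i) * sC) = epsh (phh c0 i) / 2 := by
    unfold sC
    have h6 : TC + t1C ≠ 0 := by linarith
    field_simp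
  rw [h5] at h4
  exact h4

/-- points of the frontier which are in one of the spaces -/
theorem Bs_frontier {c0 ρ1 : ℝ} (h : 0 < c0) (h1 : c0 ≤ 1) (h0 : 0 < ρ1) (hρ : 4 * ρ1 ≤ sin taC) {k i : ℕ}
    (hi : 1 ≤ i) {p : EE 4} (hp : p ∈ frontier (Bs c0 k ρ1 i)) (h2 : t1C < ‖xco c0 i p‖) :
    xco c0 i p ∈ PZ ∧ rhoP (xco c0 i p) = 2 * ρ1 := by
  rw [(Bs_open h h1 k i).frontier_eq] at hp
  obtain ⟨hcl, hnot⟩ := hp
  have hc := us_xco_cont h h1 i (us_ne h2)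
  have hn : ‖xco c0 i p‖ ≠ 0 := (VClass_t1.trans h2).ne'
  have hρc : ContinuousAt (fun y => rhoP (xco c0 i y)) p :=
    ContinuousAt.comp (g := rhoP) (f := xco c0 i) (VClass_rhoP_at hn) hc
  have htc : ContinuousAt (fun y => tc (xco c0 i y)) p :=
    ContinuousAt.comp (g := tc) (f := xco c0 i) VClass_cont_tc.continuousAt hc
  have hfr : ∃ᶠ y in 𝓝 p, y ∈ Bs c0 k ρ1 i := mem_closure_iff_frequently.1 hcl
  have a1 : tc (xco c0 i p) ≤ taC := by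
    by_contra hh
    rw [not_le] at hh
    have e : ∀ᶠ y in 𝓝 p, taC < tc (xco c0 i y) := htc.eventually (lt_mem_nhds hh)
    obtain ⟨y, hy, hy2⟩ := (hfr.and_eventually e).exists
    exact absurd ((mem_Bs hi).1 hy).2.1.1 (not_lt.2 hy2.le)
  have a2 : rhoP (xco c0 i p) ≤ 2 * ρ1 := by
    by_contra hh
    rw [not_le] at hh
    have e : ∀ᶠ y in 𝓝 p, 2 * ρ1 < rhoP (xco c0 i y) := hρc.eventually (lt_mem_nhds hh)
    obtain ⟨y, hy, hy2⟩ := (hfr.and_eventually e).exists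
    exact absurd ((mem_Bs hi).1 hy).2.2 (not_lt.2 hy2.le)
  have hs := VClass_sinta
  have hs1 := sin_taC_lt
  have a3 : tc (xco c0 i p) < taC := by
    refine lt_of_le_of_ne a1 fun he => ?_
    have h3 := VClass_sin_le (xco c0 i p)
    rw [← mul_pow] at h3
    have h4 : sin taC ≤ rhoP (xco c0 i p) := by
      unfold rhoP
      refine Real.le_sqrt_of_sq_le ?_
      rw [← he]
      rw [← mul_pow]
      exact h3
    linarith
  have a4 : rhoP (xco c0 i p) < 1 / 2 := by linarith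
  refine ⟨⟨a3, a4⟩, le_antisymm a2 ?_⟩
  by_contra hh
  rw [not_le] at hh
  exact hnot ((mem_Bs hi).2 ⟨h2, ⟨a3, a4⟩, hh⟩)

theorem UM_xco {c0 a : ℝ} (h : 0 < c0) (h1 : c0 ≤ 1) {k i : ℕ} (hi : 1 ≤ i) (hik : i ≤ k) {p : EE 4}
    (hp : p ∈ UM c0 k a) : t1C < ‖xco c0 i p‖ ∧ (xco c0 i p ∈ PZ → a < rhoP (xco c0 i p)) := by
  obtain ⟨b1, b2, b3, b4⟩ := GPts_phh h h1 i
  rcases lt_or_ge ‖sc i p‖ (epsh (phh c0 i) / 2) with h2 | h2
  · have h3 : GPts_slab i (p 0) := GPts_slab_of_norm (by linarith)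
    have h4 : p ∈ Sl k i := ⟨fun _ => h3.1, h3.2⟩
    have h5 := (mem_UL_iff b1).1 ((UM_iff h h1 hi hik a h4).1 hp)
    refine ⟨h5.2.1, fun h6 => ?_⟩
    by_contra h7
    rw [not_lt] at h7
    exact h5.2.2.2 ⟨h6, h7⟩
  · have h3 : TC ≤ tc (xco c0 i p) := Qm_tc_ge b1 h2
    refine ⟨?_, fun h4 => absurd h4 (Qm_not_PZ b1 h2)⟩
    have hT := isCoreC.T_gt
    unfold tc at h3
    linarith

theorem UInf_xco {c0 : ℝ} (h : 0 < c0) (h1 : c0 ≤ 1) {i : ℕ} (hi : 1 ≤ i) {p : EE 4} (hp : p ∈ UInf c0) :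
    t1C < ‖xco c0 i p‖ := by
  obtain ⟨b1, b2, b3, b4⟩ := GPts_phh h h1 i
  rcases lt_or_ge ‖sc i p‖ (epsh (phh c0 i) / 2) with h2 | h2
  · have h3 : GPts_slab i (p 0) := GPts_slab_of_norm (by linarith)
    have h5 := (mem_UL_iff b1).1 ((GPts_UInf h h1 hi h3).1 hp)
    exact h5.2.1
  · have h3 : TC ≤ tc (xco c0 i p) := Qm_tc_ge b1 h2
    have hT := isCoreC.T_gt
    unfold tc at h3
    linarith

private theorem us_rhoz_smul {c : ℝ} (hc : 0 < c) (hc1 : c < 1) {z : EE 4} (hz : z ≠ 0) :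
    rhoz (c • z) < rhoz z := by
  have hn : 0 < ‖z‖ := norm_pos_iff.2 hz
  unfold rhoz
  rw [norm_smul, Real.norm_eq_abs, abs_of_pos hc]
  have s1 : 0 < √(1 + (c * ‖z‖) ^ 2) := Real.sqrt_pos.2 (by positivity)
  have s2 : 0 < √(1 + ‖z‖ ^ 2) := Real.sqrt_pos.2 (by positivity)
  apply lt_of_pow_lt_pow_left₀ 2 (by positivity)
  rw [div_pow, div_pow, Real.sq_sqrt (by positivity), Real.sq_sqrt (by positivity),
    div_lt_div_iff₀ (by positivity) (by positivity)]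
  have hc2 : c ^ 2 < 1 := by nlinarith
  have hn2 : 0 < ‖z‖ ^ 2 := by positivity
  have e : ‖z‖ ^ 2 * (1 + (c * ‖z‖) ^ 2) - (c * ‖z‖) ^ 2 * (1 + ‖z‖ ^ 2) = ‖z‖ ^ 2 * (1 - c ^ 2) := by ring
  have e2 : 0 < ‖z‖ ^ 2 * (1 - c ^ 2) := mul_pos hn2 (by linarith)
  linarith

/-- the image of a point with `rhoz = 2 ρ1` is in the frontier -/
theorem zch_frontier {c0 ρ1 : ℝ} (h : 0 < c0) (h1 : c0 ≤ 1) (h0 : 0 < ρ1) (hρ : 4 * ρ1 ≤ sin taC) {k i : ℕ}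
    (hi : 1 ≤ i) {z : EE 4} (hz : z ∉ T01) (hr : rhoz z = 2 * ρ1) : zch c0 i z ∈ frontier (Bs c0 k ρ1 i) := by
  have hs := VClass_sinta
  have hs1 := sin_taC_lt
  rw [(Bs_open h h1 k i).frontier_eq]
  constructor
  · have hcz : Tendsto (fun c : ℝ => c • z) (𝓝[<] 1) (𝓝 z) := by
      have : Tendsto (fun c : ℝ => c • z) (𝓝 1) (𝓝 ((1 : ℝ) • z)) :=
        (continuous_id.smul continuous_const).tendsto 1
      rw [one_smul] at this
      exact this.mono_left nhdsWithin_le_nhds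
    have hzc : ContinuousAt (zch c0 i) z :=
      (zch_continuousOn h h1 i).continuousAt (isClosed_T01.isOpen_compl.mem_nhds hz)
    have htt : Tendsto (fun c : ℝ => zch c0 i (c • z)) (𝓝[<] 1) (𝓝 (zch c0 i z)) := hzc.tendsto.comp hcz
    refine mem_closure_of_tendsto htt ?_
    have e1 : ∀ᶠ c : ℝ in 𝓝[<] 1, 0 < c := nhdsWithin_le_nhds (lt_mem_nhds (by norm_num))
    filter_upwards [e1, self_mem_nhdsWithin] with c hc hc1
    have hc1' : c < 1 := hc1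
    have hz' : c • z ∉ T01 := by
      intro h2
      apply hz
      have h3 : c * z 0 = 0 ∧ c * z 1 = 0 := h2
      exact ⟨(mul_eq_zero.1 h3.1).resolve_left hc.ne', (mul_eq_zero.1 h3.2).resolve_left hc.ne'⟩
    have hr' : rhoz (c • z) < 2 * ρ1 := by
      rw [← hr]
      exact us_rhoz_smul hc hc1' (VClass_ne_zero hz)
    have hD : c • z ∈ DE1 := by
      have hp : 0 < √(1 + ‖c • z‖ ^ 2) := Real.sqrt_pos.2 (by positivity)
      have e2 : √(s01 (c • z)) ≤ ‖c • z‖ := by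
        refine Real.sqrt_le_iff.mpr ⟨norm_nonneg _, ?_⟩
        rw [VClass_norm_s]
        linarith [VClass_s23_nonneg (c • z)]
      have e3 : ‖c • z‖ < sin taC * √(1 + ‖c • z‖ ^ 2) := by
        have e4 : rhoz (c • z) < sin taC := by linarith
        unfold rhoz at e4
        rwa [div_lt_iff₀ hp] at e4
      show √(s01 (c • z)) < sin taC * √(1 + s01 (c • z) + s23 (c • z))
      rw [VClass_norm_s, ← add_assoc] at e3
      linarith
    have ht := PhE1_tc hD hz'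
    rw [mem_Bs hi, zch_xco h h1 i hz', PhE1_rho hz']
    have ht0 : 0 < tc (PhE1 (c • z)) := ht.1
    unfold tc at ht0
    refine ⟨by linarith, ⟨ht.2, ?_⟩, hr'⟩
    rw [PhE1_rho hz']
    have : rhoz (c • z) < 1 / 2 := by linarith
    exact this
  · intro h2
    have h3 := ((mem_Bs hi).1 h2).2.2
    rw [zch_rho h h1 i hz, hr] at h3
    exact lt_irrefl _ h3

end Pool.Agent.MP39e402
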