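import Pool.Agent.Lib.MP_39e402_gt.VPol
import Pool.Agent.Lib.MP_39e402_gt.VDefs

/-! # MP_39e402, module UHzp: paths in the z-chart

* `sphere_path`: write `z = r (cos α e^{iφ1}, sin α e^{iφ2})`, `α ∈ [0,π/2)` (`z1 ≠ 0`), `φ ∈ (-π,π]`; take `α, φ1, φ2`
  linear in `t`; speed² `= r²(α'² + cos²α φ1'² + sin²α φ2'²) ≤ r² ((π/2)² + (2π)²) ≤ (7r)²`.
* `qz_radial`: at `z = rz ρ • u`, `‖z‖² = ρ²/(1-ρ²)`, `1 + ‖z‖² = 1/(1-ρ²)`; for radial `v = c u`: `zRe = ‖z‖ c`, `zIm = 0`,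
  so `qz = c²/(V (1+‖z‖²)³) = c² (1-ρ²)³/V`. -/

open Real Set Filter Topology MeasureTheory
open scoped ContDiff ENNReal

noncomputable section

namespace Pool.Agent.MP39e402

def rz (ρ : ℝ) : ℝ := ρ / √(1 - ρ ^ 2)

private theorem one_sub_sq_pos {ρ : ℝ} (h0 : 0 ≤ ρ) (h1 : ρ < 1) : 0 < 1 - ρ ^ 2 := by nlinarith

theorem rz_pos {ρ : ℝ} (h0 : 0 < ρ) (h1 : ρ < 1) : 0 < rz ρ :=
  div_pos h0 (Real.sqrt_pos.2 (one_sub_sq_pos h0.le h1))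

private theorem rz_sq {ρ : ℝ} (h0 : 0 ≤ ρ) (h1 : ρ < 1) : rz ρ ^ 2 = ρ ^ 2 / (1 - ρ ^ 2) := by
  unfold rz
  rw [div_pow, Real.sq_sqrt (one_sub_sq_pos h0 h1).le]

private theorem one_add_rz_sq {ρ : ℝ} (h0 : 0 ≤ ρ) (h1 : ρ < 1) : 1 + rz ρ ^ 2 = 1 / (1 - ρ ^ 2) := by
  rw [rz_sq h0 h1]
  have := one_sub_sq_pos h0 h1
  field_simp
  ring

theorem rho_rz {ρ : ℝ} (h0 : 0 ≤ ρ) (h1 : ρ < 1) : rz ρ / √(1 + rz ρ ^ 2) = ρ := by
  have h := one_sub_sq_pos h0 h1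
  rw [one_add_rz_sq h0 h1, Real.sqrt_div zero_le_one, Real.sqrt_one]
  unfold rz
  have hs : 0 < √(1 - ρ ^ 2) := Real.sqrt_pos.2 h
  field_simp

theorem rz_rho (z : EE 4) : rz (‖z‖ / √(1 + ‖z‖ ^ 2)) = ‖z‖ := by
  unfold rz
  have h : 0 < 1 + ‖z‖ ^ 2 := by positivity
  rw [div_pow, Real.sq_sqrt h.le]
  have h2 : 1 - ‖z‖ ^ 2 / (1 + ‖z‖ ^ 2) = 1 / (1 + ‖z‖ ^ 2) := by
    field_simp
    ring
  rw [h2, Real.sqrt_div zero_le_one, Real.sqrt_one]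
  have hs : 0 < √(1 + ‖z‖ ^ 2) := Real.sqrt_pos.2 h
  field_simp

theorem rz_hasDerivAt {ρ : ℝ} (h0 : 0 ≤ ρ) (h1 : ρ < 1) : HasDerivAt rz (1 / (√(1 - ρ ^ 2)) ^ 3) ρ := by
  have h := one_sub_sq_pos h0 h1
  have hs : 0 < √(1 - ρ ^ 2) := Real.sqrt_pos.2 h
  have hd : HasDerivAt (fun x : ℝ => 1 - x ^ 2) (-(2 * ρ)) ρ := by
    have := (hasDerivAt_pow 2 ρ).const_sub 1
    simpa using this
  have h3 := hd.sqrt h.ne'
  have h4 := (hasDerivAt_id ρ).div h3 hs.ne'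
  have h5 : HasDerivAt rz ((1 * √(1 - ρ ^ 2) - ρ * (-(2 * ρ) / (2 * √(1 - ρ ^ 2)))) / √(1 - ρ ^ 2) ^ 2) ρ := h4
  refine h5.congr_deriv ?_
  have hs2 : √(1 - ρ ^ 2) ^ 2 = 1 - ρ ^ 2 := Real.sq_sqrt h.le
  rw [div_eq_div_iff (by positivity) (by positivity)]
  field_simp
  nlinarith [hs2]

theorem rz_le {ρ : ℝ} (h0 : 0 ≤ ρ) (h1 : ρ ≤ 1 / 4) : rz ρ ≤ 104 / 100 * ρ := by
  have h := one_sub_sq_pos h0 (by linarith : ρ < 1)
  have hs : (25 / 26 : ℝ) ≤ √(1 - ρ ^ 2) := by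
    apply Real.le_sqrt_of_sq_le
    nlinarith
  unfold rz
  rw [div_le_iff₀ (by linarith)]
  nlinarith

private theorem sphere_chart {z : EE 4} (hz : z ∉ T01) :
    ∃ α φ ψ : ℝ, α ∈ Ico 0 (π / 2) ∧ φ ∈ Ioc (-π) π ∧ ψ ∈ Ioc (-π) π ∧
      z = v4 (‖z‖ * (cos α * cos φ)) (‖z‖ * (cos α * sin φ)) (‖z‖ * (sin α * cos ψ))
        (‖z‖ * (sin α * sin ψ)) := by
  set A : ℂ := ⟨z 0, z 1⟩ with hA
  set B : ℂ := ⟨z 2, z 3⟩ with hB
  have hA2 : ‖A‖ ^ 2 = z 0 ^ 2 + z 1 ^ 2 := by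
    rw [Complex.sq_norm, hA, Complex.normSq_mk]; ring
  have hB2 : ‖B‖ ^ 2 = z 2 ^ 2 + z 3 ^ 2 := by
    rw [Complex.sq_norm, hB, Complex.normSq_mk]; ring
  have hr2 : ‖z‖ ^ 2 = ‖A‖ ^ 2 + ‖B‖ ^ 2 := by
    rw [EuclideanSpace.real_norm_sq_eq, Fin.sum_univ_four, hA2, hB2]; ring
  have hA0 : 0 < ‖A‖ := by
    rw [norm_pos_iff]
    intro h0
    apply hz
    have h1 := congrArg Complex.re h0
    have h2 := congrArg Complex.im h0
    exact ⟨h1, h2⟩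
  have hB0 : 0 ≤ ‖B‖ := norm_nonneg _
  have hr : 0 < ‖z‖ := by
    rcases (norm_nonneg z).eq_or_lt with h | h
    · rw [← h] at hr2; nlinarith
    · exact h
  have hBr : ‖B‖ < ‖z‖ := by
    by_contra hc
    push Not at hc
    nlinarith
  have hq0 : 0 ≤ ‖B‖ / ‖z‖ := by positivity
  have hq1 : ‖B‖ / ‖z‖ < 1 := by rw [div_lt_one hr]; exact hBr
  have hsin : sin (arcsin (‖B‖ / ‖z‖)) = ‖B‖ / ‖z‖ := Real.sin_arcsin (by linarith) hq1.le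
  have hcos : cos (arcsin (‖B‖ / ‖z‖)) = ‖A‖ / ‖z‖ := by
    rw [Real.cos_arcsin]
    have : 1 - (‖B‖ / ‖z‖) ^ 2 = (‖A‖ / ‖z‖) ^ 2 := by
      field_simp
      linarith
    rw [this, Real.sqrt_sq (by positivity)]
  refine ⟨arcsin (‖B‖ / ‖z‖), Complex.arg A, Complex.arg B, ⟨Real.arcsin_nonneg.2 hq0, Real.arcsin_lt_pi_div_two.2 hq1⟩,
    Complex.arg_mem_Ioc A, Complex.arg_mem_Ioc B, ?_⟩
  rw [hsin, hcos]
  have e0 : ‖z‖ * (‖A‖ / ‖z‖ * cos A.arg) = z 0 := by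
    have := Complex.norm_mul_cos_arg A
    field_simp
    exact this
  have e1 : ‖z‖ * (‖A‖ / ‖z‖ * sin A.arg) = z 1 := by
    have := Complex.norm_mul_sin_arg A
    field_simp
    exact this
  have e2 : ‖z‖ * (‖B‖ / ‖z‖ * cos B.arg) = z 2 := by
    have := Complex.norm_mul_cos_arg B
    field_simp
    exact this
  have e3 : ‖z‖ * (‖B‖ / ‖z‖ * sin B.arg) = z 3 := by
    have := Complex.norm_mul_sin_arg B
    field_simp
    exact this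
  rw [e0, e1, e2, e3]
  ext i
  fin_cases i <;> rfl

private theorem v4_smooth {a b c d : ℝ → ℝ} (ha : ContDiff ℝ ∞ a) (hb : ContDiff ℝ ∞ b)
    (hc : ContDiff ℝ ∞ c) (hd : ContDiff ℝ ∞ d) : ContDiff ℝ ∞ fun t => v4 (a t) (b t) (c t) (d t) := by
  rw [contDiff_euclidean]
  intro i
  fin_cases i
  · exact ha
  · exact hb
  · exact hc
  · exact hd

private theorem v4_deriv {a b c d : ℝ → ℝ} {a' b' c' d' t : ℝ} (ha : HasDerivAt a a' t)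
    (hb : HasDerivAt b b' t) (hc : HasDerivAt c c' t) (hd : HasDerivAt d d' t) :
    HasDerivAt (fun t => v4 (a t) (b t) (c t) (d t)) (v4 a' b' c' d') t := by
  have h : HasDerivAt (fun t => ![a t, b t, c t, d t]) ![a', b', c', d'] t := by
    rw [hasDerivAt_pi]
    intro i
    fin_cases i
    · exact ha
    · exact hb
    · exact hc
    · exact hd
  exact ((EuclideanSpace.equiv (Fin 4) ℝ).symm.toContinuousLinearMap.hasFDerivAt.comp_hasDerivAt t h)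

theorem sphere_path {z w : EE 4} (hz : z ∉ T01) (hw : w ∉ T01) (h : ‖z‖ = ‖w‖) :
    ∃ γ : ℝ → EE 4, ContDiff ℝ ∞ γ ∧ γ 0 = z ∧ γ 1 = w ∧ ∀ t ∈ Icc (0 : ℝ) 1,
      ‖γ t‖ = ‖z‖ ∧ γ t ∉ T01 ∧ ‖deriv γ t‖ ≤ 7 * ‖z‖ ∧ zRe (γ t) (deriv γ t) = 0 := by
  obtain ⟨α, φ, ψ, hα, hφ, hψ, hz'⟩ := sphere_chart hz
  obtain ⟨α', φ', ψ', hα', hφ', hψ', hw'⟩ := sphere_chart hw
  set r := ‖z‖ with hr
  rw [← h] at hw'
  have hr0 : 0 < r := by
    rw [hr, norm_pos_iff]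
    rintro rfl
    exact hz ⟨rfl, rfl⟩
  let a : ℝ → ℝ := fun t => α + t * (α' - α)
  let b : ℝ → ℝ := fun t => φ + t * (φ' - φ)
  let c : ℝ → ℝ := fun t => ψ + t * (ψ' - ψ)
  have lin : ∀ x y : ℝ, ContDiff ℝ ∞ (fun t : ℝ => x + t * y) := fun x y =>
    contDiff_const.add (contDiff_id.mul contDiff_const)
  have lind : ∀ x y t : ℝ, HasDerivAt (fun t : ℝ => x + t * y) y t := fun x y t => by
    simpa using ((hasDerivAt_id t).mul_const y).const_add x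
  have ha : ContDiff ℝ ∞ a := lin _ _
  have hb : ContDiff ℝ ∞ b := lin _ _
  have hc : ContDiff ℝ ∞ c := lin _ _
  let γ : ℝ → EE 4 := fun t => v4 (r * (cos (a t) * cos (b t))) (r * (cos (a t) * sin (b t)))
    (r * (sin (a t) * cos (c t))) (r * (sin (a t) * sin (c t)))
  have hγd : ∀ t, HasDerivAt γ (v4
      (r * (-sin (a t) * (α' - α) * cos (b t) + cos (a t) * (-sin (b t) * (φ' - φ))))
      (r * (-sin (a t) * (α' - α) * sin (b t) + cos (a t) * (cos (b t) * (φ' - φ))))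
      (r * (cos (a t) * (α' - α) * cos (c t) + sin (a t) * (-sin (c t) * (ψ' - ψ))))
      (r * (cos (a t) * (α' - α) * sin (c t) + sin (a t) * (cos (c t) * (ψ' - ψ))))) t := by
    intro t
    have da : HasDerivAt a (α' - α) t := lind _ _ _
    have db : HasDerivAt b (φ' - φ) t := lind _ _ _
    have dc : HasDerivAt c (ψ' - ψ) t := lind _ _ _
    exact v4_deriv ((da.cos.mul db.cos).const_mul r) ((da.cos.mul db.sin).const_mul r)
      ((da.sin.mul dc.cos).const_mul r) ((da.sin.mul dc.sin).const_mul r)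
  refine ⟨γ, ?_, ?_, ?_, ?_⟩
  · exact v4_smooth (contDiff_const.mul (ha.cos.mul hb.cos)) (contDiff_const.mul (ha.cos.mul hb.sin))
      (contDiff_const.mul (ha.sin.mul hc.cos)) (contDiff_const.mul (ha.sin.mul hc.sin))
  · rw [hz']
    simp [γ, a, b, c]
  · rw [hw']
    simp [γ, a, b, c]
  · intro t ht
    have ha1 : 0 ≤ a t ∧ a t < π / 2 := by
      have e : a t = (1 - t) * α + t * α' := by simp only [a]; ring
      rw [e]
      constructor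
      · have := mul_nonneg (by linarith [ht.2] : (0 : ℝ) ≤ 1 - t) hα.1
        have := mul_nonneg ht.1 hα'.1
        linarith
      · rcases ht.1.eq_or_lt with h0 | h0
        · rw [← h0]; simpa using hα.2
        · have h1 := mul_le_mul_of_nonneg_left hα.2.le (by linarith [ht.2] : (0 : ℝ) ≤ 1 - t)
          have h2 := mul_lt_mul_of_pos_left hα'.2 h0
          nlinarith
    have hcos : 0 < cos (a t) := Real.cos_pos_of_mem_Ioo ⟨by linarith [ha1.1, Real.pi_pos], ha1.2⟩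
    have p1 := Real.sin_sq_add_cos_sq (a t)
    have p2 := Real.sin_sq_add_cos_sq (b t)
    have p3 := Real.sin_sq_add_cos_sq (c t)
    have hd : deriv γ t = _ := (hγd t).deriv
    refine ⟨?_, ?_, ?_, ?_⟩
    · rw [← sq_eq_sq₀ (norm_nonneg _) hr0.le, EuclideanSpace.real_norm_sq_eq, Fin.sum_univ_four]
      simp only [γ, v4_zero, v4_one, v4_two, v4_three]
      linear_combination r ^ 2 * p1 + r ^ 2 * cos (a t) ^ 2 * p2 + r ^ 2 * sin (a t) ^ 2 * p3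
    · rintro ⟨h0, h1⟩
      simp only [γ, v4_zero, v4_one] at h0 h1
      have h2 : cos (b t) = 0 := by
        rcases mul_eq_zero.1 h0 with h3 | h3
        · exact absurd h3 hr0.ne'
        · exact (mul_eq_zero.1 h3).resolve_left hcos.ne'
      have h4 : sin (b t) = 0 := by
        rcases mul_eq_zero.1 h1 with h3 | h3
        · exact absurd h3 hr0.ne'
        · exact (mul_eq_zero.1 h3).resolve_left hcos.ne'
      rw [h2, h4] at p2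
      norm_num at p2
    · rw [hd]
      have h7 : 0 ≤ 7 * r := by positivity
      rw [← sq_le_sq₀ (norm_nonneg _) h7, EuclideanSpace.real_norm_sq_eq, Fin.sum_univ_four]
      simp only [v4_zero, v4_one, v4_two, v4_three]
      have e : (r * (-sin (a t) * (α' - α) * cos (b t) + cos (a t) * (-sin (b t) * (φ' - φ)))) ^ 2 +
          (r * (-sin (a t) * (α' - α) * sin (b t) + cos (a t) * (cos (b t) * (φ' - φ)))) ^ 2 +
          (r * (cos (a t) * (α' - α) * cos (c t) + sin (a t) * (-sin (c t) * (ψ' - ψ)))) ^ 2 +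
          (r * (cos (a t) * (α' - α) * sin (c t) + sin (a t) * (cos (c t) * (ψ' - ψ)))) ^ 2
          = r ^ 2 * ((α' - α) ^ 2 + cos (a t) ^ 2 * (φ' - φ) ^ 2 + sin (a t) ^ 2 * (ψ' - ψ) ^ 2) := by
        linear_combination
          (r ^ 2 * (α' - α) ^ 2) * p1 + (r ^ 2 * (α' - α) ^ 2 * sin (a t) ^ 2
            + r ^ 2 * (φ' - φ) ^ 2 * cos (a t) ^ 2) * p2
          + (r ^ 2 * (α' - α) ^ 2 * cos (a t) ^ 2 + r ^ 2 * (ψ' - ψ) ^ 2 * sin (a t) ^ 2) * p3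
      rw [e]
      have hpi := Real.pi_lt_d2
      have hpi0 := Real.pi_pos
      have q1 : (α' - α) ^ 2 ≤ (π / 2) ^ 2 := by
        apply sq_le_sq'
        · linarith [hα.2, hα'.1]
        · linarith [hα'.2, hα.1]
      have q2 : (φ' - φ) ^ 2 ≤ (2 * π) ^ 2 := by
        apply sq_le_sq'
        · linarith [hφ.2, hφ'.1]
        · linarith [hφ'.2, hφ.1]
      have q3 : (ψ' - ψ) ^ 2 ≤ (2 * π) ^ 2 := by
        apply sq_le_sq'
        · linarith [hψ.2, hψ'.1]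
        · linarith [hψ'.2, hψ.1]
      have q4 : cos (a t) ^ 2 * (φ' - φ) ^ 2 ≤ cos (a t) ^ 2 * (2 * π) ^ 2 :=
        mul_le_mul_of_nonneg_left q2 (sq_nonneg _)
      have q5 : sin (a t) ^ 2 * (ψ' - ψ) ^ 2 ≤ sin (a t) ^ 2 * (2 * π) ^ 2 :=
        mul_le_mul_of_nonneg_left q3 (sq_nonneg _)
      have q6 : (α' - α) ^ 2 + cos (a t) ^ 2 * (φ' - φ) ^ 2 + sin (a t) ^ 2 * (ψ' - ψ) ^ 2 ≤ 49 := by
        have : cos (a t) ^ 2 * (2 * π) ^ 2 + sin (a t) ^ 2 * (2 * π) ^ 2 = (2 * π) ^ 2 := by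
          linear_combination (2 * π) ^ 2 * p1
        have hpi2 : π ^ 2 ≤ 3.15 ^ 2 := by
          apply sq_le_sq'
          · linarith
          · exact hpi.le
        have e2 : (π / 2) ^ 2 + (2 * π) ^ 2 = 17 / 4 * π ^ 2 := by ring
        linarith
      calc _ ≤ r ^ 2 * 49 := mul_le_mul_of_nonneg_left q6 (sq_nonneg r)
        _ = (7 * r) ^ 2 := by ring
    · rw [hd]
      simp only [zRe, γ, v4_zero, v4_one, v4_two, v4_three]
      linear_combination (-(r ^ 2 * sin (a t) * cos (a t) * (α' - α))) * p2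
        + (r ^ 2 * sin (a t) * cos (a t) * (α' - α)) * p3

theorem qz_le_of_tangent {V : ℝ → ℝ} {z v : EE 4} (hz : z ≠ 0) (hV : V (‖z‖ / √(1 + ‖z‖ ^ 2)) ≤ 1)
    (h : zRe z v = 0) : qz V z v ≤ ‖v‖ ^ 2 := by
  unfold qz
  rw [h]
  have h1 : 0 < ‖z‖ ^ 2 := by positivity
  set a := zIm z v ^ 2 / ‖z‖ ^ 2 with ha
  have ha0 : 0 ≤ a := by positivity
  set W := V (‖z‖ / √(1 + ‖z‖ ^ 2)) with hW
  have h2 : W * zIm z v ^ 2 / (‖z‖ ^ 2 * (1 + ‖z‖ ^ 2)) = W * a / (1 + ‖z‖ ^ 2) := by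
    rw [ha]; field_simp
  rw [h2]
  have h3 : 1 / W * (0 : ℝ) ^ 2 / (‖z‖ ^ 2 * (1 + ‖z‖ ^ 2) ^ 3) +
      (‖v‖ ^ 2 - 0 ^ 2 / ‖z‖ ^ 2 - a) / (1 + ‖z‖ ^ 2) + W * a / (1 + ‖z‖ ^ 2)
      = (‖v‖ ^ 2 - (1 - W) * a) / (1 + ‖z‖ ^ 2) := by
    field_simp
    ring
  rw [h3, div_le_iff₀ (by positivity)]
  have h4 : 0 ≤ (1 - W) * a := mul_nonneg (by linarith) ha0
  have h5 : 0 ≤ ‖v‖ ^ 2 * ‖z‖ ^ 2 := by positivity
  nlinarith

theorem qz_radial {V : ℝ → ℝ} {u : EE 4} (hu : ‖u‖ = 1) {ρ : ℝ} (h0 : 0 < ρ) (h1 : ρ < 1) (c : ℝ) :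
    qz V (rz ρ • u) ((c / (√(1 - ρ ^ 2)) ^ 3) • u) = c ^ 2 / V ρ := by
  have hr := rz_pos h0 h1
  have h := one_sub_sq_pos h0.le h1
  have hs : 0 < √(1 - ρ ^ 2) := Real.sqrt_pos.2 h
  set e := c / (√(1 - ρ ^ 2)) ^ 3 with he
  have hn : ‖rz ρ • u‖ = rz ρ := by rw [norm_smul, hu, mul_one, Real.norm_of_nonneg hr.le]
  have hu2 : u 0 ^ 2 + u 1 ^ 2 + u 2 ^ 2 + u 3 ^ 2 = 1 := by
    have := EuclideanSpace.real_norm_sq_eq u
    rw [hu, Fin.sum_univ_four] at this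
    linarith
  have hv : ‖e • u‖ ^ 2 = e ^ 2 := by
    rw [norm_smul, hu, mul_one, Real.norm_eq_abs, sq_abs]
  have hre : zRe (rz ρ • u) (e • u) = rz ρ * e := by
    simp only [zRe, PiLp.smul_apply, smul_eq_mul]
    linear_combination (rz ρ * e) * hu2
  have him : zIm (rz ρ • u) (e • u) = 0 := by
    simp only [zIm, PiLp.smul_apply, smul_eq_mul]
    ring
  unfold qz
  rw [hn, hre, him, hv, rho_rz h0.le h1, one_add_rz_sq h0.le h1]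
  have h5 : e ^ 2 - (rz ρ * e) ^ 2 / rz ρ ^ 2 - 0 ^ 2 / rz ρ ^ 2 = 0 := by
    field_simp
    ring
  rw [h5]
  have h6 : e ^ 2 = c ^ 2 / (1 - ρ ^ 2) ^ 3 := by
    rw [he, div_pow, ← pow_mul, mul_comm 3 2, pow_mul, Real.sq_sqrt h.le]
  have h7 : 1 / V ρ * (rz ρ * e) ^ 2 / (rz ρ ^ 2 * (1 / (1 - ρ ^ 2)) ^ 3) = c ^ 2 / V ρ := by
    rw [mul_pow, h6]
    have : rz ρ ^ 2 ≠ 0 := by positivity
    have h8 : (1 - ρ ^ 2) ≠ 0 := h.ne'
    rcases eq_or_ne (V ρ) 0 with hV | hV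
    · rw [hV]; simp
    · field_simp
  rw [h7]
  simp

end Pool.Agent.MP39e402
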