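import Pool.Agent.Lib.MP_39e402_gt.UHPath
import Pool.Agent.Lib.MP_39e402_gt.UHset
import Pool.Agent.Lib.MP_39e402_gt.UHzp

/-! # MP_39e402, module UHcap: the hole estimates for the core sets `Bs c0 k ρ1 i`, `1 ≤ i ≤ k`

`x ∈ Bs i` iff `t1 < ‖X‖`, `X ∈ PZ`, `rhoP X < 2 ρ1`, `X = xco c0 i x`; for `x` in the space (`t1 < ‖X‖` or `x` far away)
`x ∈ frontier (Bs i)` implies `X ∈ PZ`, `rhoP X = 2 ρ1` (at `tc = ta` `rhoP ≥ sin ta ≥ 4 ρ1`).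
All paths live in the chart `zch c0 i` on `ZV a` (`2 ρ1 < min (1/2) (sin ta)`), metric `zsc² qz (1 - U)`, `zsc ≤ 1`;
use `LIso.redist_le_speed`.
* `cap_fr`: lifts `z, w` with `rhoz = 2 ρ1`, `‖z‖ = ‖w‖ = rz (2ρ1) ≤ 2.08 ρ1`; `sphere_path`, `qz_le_of_tangent`
  (`V = 1 - U ≤ 1`): `≤ 7·2.08 ρ1 ≤ 20 ρ1`.
* `cap_in`: lift `z`, `a < rhoz z < 2ρ1`, `u = z/‖z‖`.  Path `τ ↦ rz(ρ(τ)) • u`, speed `|ρ'|/√V` (`qz_radial`,
  `rz_hasDerivAt`).  (1) if `rhoz z < ρ1/2`: `ρ(τ) = √(a² + σ(τ)²)`, `σ` linear from `√(rhoz² - a²)` to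
  `√(ρ1²/4 - a²)`; `U = a⁴/ρ⁴ ≤ a²/ρ²`, so `|ρ'|/√V ≤ |σ'| ≤ ρ1/2`; (2) then `ρ` linear up to `2ρ1`: `U ≤ 1/2`
  (`IsCap.ub`, `fs`), speed `≤ √2 · 2ρ1`.  Total `≤ 4 ρ1`.  `y` = image of `rz (2ρ1) • u` is in the frontier.
* limit space: `V = 1 - ρ² ≥ 1/2`: speed `≤ √2 · 2ρ1`. -/

open Real Set Filter Topology MeasureTheory
open scoped ContDiff ENNReal

noncomputable section

namespace Pool.Agent.MP39e402

private theorem uc_gquad {c0 : ℝ} (h : 0 < c0) (h1 : c0 ≤ 1) (i : ℕ) (V : ℝ → ℝ) (z v : EE 4) (hV : 0 ≤ qz V z v) :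
    gquad (fun z => (rh i) ^ 2 • ((epsh (phh c0 i) * sC) ^ 2 • polMet (qz V) z)) z v ≤ qz V z v := by
  have e : gquad (fun z => (rh i) ^ 2 • ((epsh (phh c0 i) * sC) ^ 2 • polMet (qz V) z)) z v =
      (zsc c0 i) ^ 2 * qz V z v := by
    rw [GPts_gquad_smul, GPts_gquad_smul, qz_gquad]
    unfold zsc
    ring
  rw [e]
  have h2 := zsc_pos h h1 i
  have h3 := zsc_le h h1 i
  have h4 : zsc c0 i ^ 2 ≤ 1 := by nlinarith
  nlinarith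

theorem cap_fr {c0 ρ1 a : ℝ} (h : 0 < c0) (h1 : c0 ≤ 1) (h0 : 0 < ρ1) (hρ : 4 * ρ1 ≤ sin taC) {i : ℕ}
    {U' : ℝ → ℝ} {S : Set (EE 4)} {g : RMetric 4} (hg : IsRMetricOn g S)
    (H : LIso S g (ZV a) (fun z => (rh i) ^ 2 • ((epsh (phh c0 i) * sC) ^ 2 • polMet (qz (fun r => 1 - U' r)) z))
      T01 (zch c0 i)) (ha : a < 2 * ρ1) (hU : 0 ≤ U' (2 * ρ1)) {z w : EE 4} (hz : z ∉ T01) (hw : w ∉ T01)
    (hz1 : rhoz z = 2 * ρ1) (hw1 : rhoz w = 2 * ρ1) :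
    redist S g (zch c0 i z) (zch c0 i w) ≤ ENNReal.ofReal (20 * ρ1) := by
  have hst := sin_taC_lt
  have hz2 : ‖z‖ = rz (2 * ρ1) := by
    rw [← rz_rho z]; congr 1
  have hw2 : ‖w‖ = rz (2 * ρ1) := by
    rw [← rz_rho w]; congr 1
  have hrz : rz (2 * ρ1) ≤ 104 / 100 * (2 * ρ1) := rz_le (by linarith) (by linarith)
  have hrz0 : 0 < rz (2 * ρ1) := rz_pos (by linarith) (by linarith)
  obtain ⟨γ, hγ, hγ0, hγ1, hγs⟩ := sphere_path hz hw (hz2.trans hw2.symm)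
  have hrho : ∀ t ∈ Icc (0 : ℝ) 1, rhoz (γ t) = 2 * ρ1 := by
    intro t ht
    unfold rhoz
    rw [(hγs t ht).1]
    exact hz1
  have key := H.redist_le_speed hg (γ := γ) (fun t _ => (hγ.contDiffAt).of_le (by simp))
    (fun t ht => ⟨⟨by rw [hrho t ht]; exact ha, by
      rw [hrho t ht]
      exact lt_min (by linarith) (by linarith)⟩, (hγs t ht).2.1⟩) (L := 20 * ρ1) (by linarith) ?_
  · rwa [hγ0, hγ1] at key
  · intro t ht
    obtain ⟨b1, b2, b3, b4⟩ := hγs t ht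
    have hne : γ t ≠ 0 := by
      intro h5
      rw [h5, norm_zero, hz2] at b1
      linarith
    have hq := qz_le_of_tangent (V := fun r => 1 - U' r) (z := γ t) (v := deriv γ t) hne
      (by
        have : ‖γ t‖ / √(1 + ‖γ t‖ ^ 2) = 2 * ρ1 := hrho t ht
        show 1 - U' (‖γ t‖ / √(1 + ‖γ t‖ ^ 2)) ≤ 1
        rw [this]; linarith) b4
    have hnn : 0 ≤ gquad (fun z => (rh i) ^ 2 • ((epsh (phh c0 i) * sC) ^ 2 • polMet (qz (fun r => 1 - U' r)) z))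
        (γ t) (deriv γ t) := by
      refine gquad_nonneg H.met ?_ _
      exact ⟨by rw [hrho t ht]; exact ha, by
        rw [hrho t ht]
        exact lt_min (by linarith) (by linarith)⟩
    have hq0 : 0 ≤ qz (fun r => 1 - U' r) (γ t) (deriv γ t) := by
      rw [GPts_gquad_smul, GPts_gquad_smul, qz_gquad] at hnn
      have h6 : 0 < rh i ^ 2 * (epsh (phh c0 i) * sC) ^ 2 := by
        have := zsc_pos h h1 i
        have e : rh i ^ 2 * (epsh (phh c0 i) * sC) ^ 2 = zsc c0 i ^ 2 := by unfold zsc; ring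
        rw [e]; positivity
      by_contra hneg
      push Not at hneg
      have : rh i ^ 2 * ((epsh (phh c0 i) * sC) ^ 2 * qz (fun r => 1 - U' r) (γ t) (deriv γ t)) < 0 := by
        rw [← mul_assoc]
        exact mul_neg_of_pos_of_neg h6 hneg
      linarith
    refine (uc_gquad h h1 i _ _ _ hq0).trans (hq.trans ?_)
    have b5 : ‖deriv γ t‖ ≤ 20 * ρ1 := b3.trans (by rw [hz2]; linarith)
    exact pow_le_pow_left₀ (norm_nonneg _) b5 2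

theorem cap_frP {c0 ρ1 : ℝ} (h : 0 < c0) (h1 : c0 ≤ 1) (h0 : 0 < ρ1) (hρ : 4 * ρ1 ≤ sin taC) {k i : ℕ} (hi : 1 ≤ i)
    {x y : EE 4} (hx : x ∈ UInf c0 ∩ frontier (Bs c0 k ρ1 i)) (hy : y ∈ UInf c0 ∩ frontier (Bs c0 k ρ1 i)) :
    redist (UInf c0) (gInf c0) x y ≤ ENNReal.ofReal (20 * ρ1) := by
  have a1 := UInf_xco h h1 hi hx.1
  have a2 := UInf_xco h h1 hi hy.1
  obtain ⟨b1, b2⟩ := Bs_frontier h h1 h0 hρ hi hx.2 a1
  obtain ⟨b3, b4⟩ := Bs_frontier h h1 h0 hρ hi hy.2 a2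
  obtain ⟨z, hz, hzx, hzr⟩ := zch_surj h h1 i (UInf_Ur hx.1) a1 b1
  obtain ⟨w, hw, hwy, hwr⟩ := zch_surj h h1 i (UInf_Ur hy.1) a2 b3
  have := cap_fr h h1 h0 hρ (gInf_met h h1) (zch_LIso_Inf h h1 hi) (by linarith)
    (by unfold U0; positivity) hz hw (hzr.trans b2) (hwr.trans b4)
  rwa [hzx, hwy] at this

theorem cap_frQ {c0 ρ1 a ε δ : ℝ} {k : ℕ} {Ψ U : ℝ → ℝ} (h : 0 < c0) (h1 : c0 ≤ 1)
    (H : Par ρ1 a ε δ Ψ U) (hδ : ∀ i, 1 ≤ i → i ≤ k → δ ≤ dbd c0 i) (hρ : 4 * ρ1 ≤ sin taC) {i : ℕ} (hi : 1 ≤ i)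
    (hik : i ≤ k) {x y : EE 4} (hx : x ∈ UM c0 k a ∩ frontier (Bs c0 k ρ1 i))
    (hy : y ∈ UM c0 k a ∩ frontier (Bs c0 k ρ1 i)) :
    redist (UM c0 k a) (gM c0 k Ψ U) x y ≤ ENNReal.ofReal (20 * ρ1) := by
  have ha := H.cap.a_pos
  have ha1 := H.cap.a_lt
  have h0 : 0 < ρ1 := by linarith
  have hG : GAdm c0 k a Ψ U := Or.inl ⟨ρ1, ε, δ, H, hδ⟩
  have a1 := (UM_xco h h1 hi hik hx.1).1
  have a2 := (UM_xco h h1 hi hik hy.1).1
  obtain ⟨b1, b2⟩ := Bs_frontier h h1 h0 hρ hi hx.2 a1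
  obtain ⟨b3, b4⟩ := Bs_frontier h h1 h0 hρ hi hy.2 a2
  obtain ⟨z, hz, hzx, hzr⟩ := zch_surj h h1 i (UM_Ur hx.1) a1 b1
  obtain ⟨w, hw, hwy, hwr⟩ := zch_surj h h1 i (UM_Ur hy.1) a2 b3
  have := cap_fr h h1 h0 hρ (gM_met h h1 (hi.trans hik) hG) (zch_LIso_M h h1 hi hik hG) (by linarith)
    (H.cap.pos _ (by linarith)).le hz hw (hzr.trans b2) (hwr.trans b4)
  rwa [hzx, hwy] at this

private theorem uc_T01 {u : EE 4} (hu : u ∉ T01) {c : ℝ} (hc : 0 < c) : c • u ∉ T01 := by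
  intro h
  apply hu
  obtain ⟨h1, h2⟩ := h
  simp only [PiLp.smul_apply, smul_eq_mul, mul_eq_zero, hc.ne', false_or] at h1 h2
  exact ⟨h1, h2⟩

private theorem uc_rhoz {u : EE 4} (hu : ‖u‖ = 1) {ρ : ℝ} (h0 : 0 < ρ) (h1 : ρ < 1) : rhoz (rz ρ • u) = ρ := by
  unfold rhoz
  rw [norm_smul, hu, mul_one, Real.norm_of_nonneg (rz_pos h0 h1).le]
  exact rho_rz h0.le h1

private theorem uc_rz_cda {ρ : ℝ} (h0 : 0 < ρ) (h1 : ρ < 1) : ContDiffAt ℝ 1 rz ρ := by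
  have h2 : 0 < 1 - ρ ^ 2 := by nlinarith
  unfold rz
  refine contDiffAt_id.div ?_ (Real.sqrt_pos.2 h2).ne'
  exact ContDiffAt.sqrt (by fun_prop) h2.ne'

private theorem uc_radial {c0 a : ℝ} (h : 0 < c0) (h1 : c0 ≤ 1) {i : ℕ}
    {U' : ℝ → ℝ} {S : Set (EE 4)} {g : RMetric 4} (hg : IsRMetricOn g S)
    (H : LIso S g (ZV a) (fun z => (rh i) ^ 2 • ((epsh (phh c0 i) * sC) ^ 2 • polMet (qz (fun r => 1 - U' r)) z))
      T01 (zch c0 i)) {u : EE 4} (hu : ‖u‖ = 1) (huT : u ∉ T01) {f f' : ℝ → ℝ}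
    (hf : ∀ t ∈ Icc (0 : ℝ) 1, HasDerivAt f (f' t) t) (hfc : ∀ t ∈ Icc (0 : ℝ) 1, ContDiffAt ℝ 1 f t)
    (hm : ∀ t ∈ Icc (0 : ℝ) 1, 0 < f t ∧ a < f t ∧ f t < min (1 / 2) (sin taC))
    (hU' : ∀ t ∈ Icc (0 : ℝ) 1, U' (f t) < 1) {L : ℝ} (hL : 0 ≤ L)
    (hs : ∀ t ∈ Icc (0 : ℝ) 1, f' t ^ 2 / (1 - U' (f t)) ≤ L ^ 2) :
    redist S g (zch c0 i (rz (f 0) • u)) (zch c0 i (rz (f 1) • u)) ≤ ENNReal.ofReal L := by
  have hlt : ∀ t ∈ Icc (0 : ℝ) 1, f t < 1 := fun t ht => by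
    have := (hm t ht).2.2.trans_le (min_le_left _ _)
    linarith
  refine H.redist_le_speed hg (γ := fun t => rz (f t) • u) (fun t ht => ?_) (fun t ht => ?_) hL fun t ht => ?_
  · obtain ⟨b1, b2, b3⟩ := hm t ht
    exact ((uc_rz_cda b1 (hlt t ht)).comp t (hfc t ht)).smul contDiffAt_const
  · obtain ⟨b1, b2, b3⟩ := hm t ht
    have e := uc_rhoz hu b1 (hlt t ht)
    refine ⟨⟨?_, ?_⟩, uc_T01 huT (rz_pos b1 (hlt t ht))⟩
    · rw [e]; exact b2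
    · rw [e]; exact b3
  · obtain ⟨b1, b2, b3⟩ := hm t ht
    have hd : HasDerivAt (fun t => rz (f t) • u) ((f' t / (√(1 - f t ^ 2)) ^ 3) • u) t := by
      have e := ((rz_hasDerivAt b1.le (hlt t ht)).comp t (hf t ht)).smul_const u
      have e2 : 1 / (√(1 - f t ^ 2)) ^ 3 * f' t = f' t / (√(1 - f t ^ 2)) ^ 3 := by ring
      rw [e2] at e
      exact e
    rw [hd.deriv]
    have e := qz_radial (V := fun r => 1 - U' r) hu b1 (hlt t ht) (f' t)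
    have h5 : 0 < 1 - U' (f t) := by linarith [hU' t ht]
    have hq0 : 0 ≤ qz (fun r => 1 - U' r) (rz (f t) • u) ((f' t / (√(1 - f t ^ 2)) ^ 3) • u) := by
      rw [e]; positivity
    refine (uc_gquad h h1 i _ _ _ hq0).trans ?_
    rw [e]
    exact hs t ht

/-- linear part of the radial path -/
private theorem uc_lin {c0 a ρ1 : ℝ} (h : 0 < c0) (h1 : c0 ≤ 1) (hρ0 : 0 < ρ1) (hρ : 4 * ρ1 ≤ sin taC) {i : ℕ}
    {U' : ℝ → ℝ} {S : Set (EE 4)} {g : RMetric 4} (hg : IsRMetricOn g S)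
    (H : LIso S g (ZV a) (fun z => (rh i) ^ 2 • ((epsh (phh c0 i) * sC) ^ 2 • polMet (qz (fun r => 1 - U' r)) z))
      T01 (zch c0 i)) {u : EE 4} (hu : ‖u‖ = 1) (huT : u ∉ T01) {r : ℝ} (hr0 : 0 < r) (hra : a < r)
    (hr : r ≤ 2 * ρ1) (hU' : ∀ ρ, r ≤ ρ → ρ ≤ 2 * ρ1 → U' ρ ≤ 1 / 2) :
    redist S g (zch c0 i (rz r • u)) (zch c0 i (rz (2 * ρ1) • u)) ≤ ENNReal.ofReal (3 * ρ1) := by
  have hst := sin_taC_lt
  have key := uc_radial h h1 hg H hu huT (f := fun t => r + t * (2 * ρ1 - r)) (f' := fun _ => 2 * ρ1 - r)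
    (fun t _ => by
      have := ((hasDerivAt_id t).mul_const (2 * ρ1 - r)).const_add r
      simpa using this)
    (fun t _ => by fun_prop)
    (fun t ht => by
      have b1 : r ≤ r + t * (2 * ρ1 - r) := by nlinarith [ht.1]
      have b2 : r + t * (2 * ρ1 - r) ≤ 2 * ρ1 := by nlinarith [ht.2]
      exact ⟨by linarith, by linarith, lt_min (by linarith) (by linarith)⟩)
    (fun t ht => by
      have b1 : r ≤ r + t * (2 * ρ1 - r) := by nlinarith [ht.1]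
      have b2 : r + t * (2 * ρ1 - r) ≤ 2 * ρ1 := by nlinarith [ht.2]
      linarith [hU' _ b1 b2])
    (L := 3 * ρ1) (by linarith)
    (fun t ht => by
      have b1 : r ≤ r + t * (2 * ρ1 - r) := by nlinarith [ht.1]
      have b2 : r + t * (2 * ρ1 - r) ≤ 2 * ρ1 := by nlinarith [ht.2]
      have b3 := hU' _ b1 b2
      rw [div_le_iff₀ (by linarith)]
      have b4 : (2 * ρ1 - r) ^ 2 ≤ (2 * ρ1) ^ 2 := pow_le_pow_left₀ (by linarith) (by linarith) 2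
      have b5 : 0 ≤ (3 * ρ1) ^ 2 := by positivity
      have b6 : (3 * ρ1) ^ 2 * (1 / 2) ≤ (3 * ρ1) ^ 2 * (1 - U' (r + t * (2 * ρ1 - r))) :=
        mul_le_mul_of_nonneg_left (by linarith) b5
      nlinarith [hρ0])
  have e0 : r + 0 * (2 * ρ1 - r) = r := by ring
  have e1 : r + 1 * (2 * ρ1 - r) = 2 * ρ1 := by ring
  rw [e0, e1] at key
  exact key

/-- the Eguchi-Hanson part of the radial path -/
private theorem uc_eh {c0 a ρ1 : ℝ} (h : 0 < c0) (h1 : c0 ≤ 1) (hρ0 : 0 < ρ1) (hρ : 4 * ρ1 ≤ sin taC) {i : ℕ}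
    {U' : ℝ → ℝ} {S : Set (EE 4)} {g : RMetric 4} (hg : IsRMetricOn g S) (ha : 0 < a) (ha1 : a < ρ1 / 2)
    (hU' : ∀ ρ, 0 < ρ → ρ ≤ ρ1 / 2 → U' ρ = a ^ 4 / ρ ^ 4)
    (H : LIso S g (ZV a) (fun z => (rh i) ^ 2 • ((epsh (phh c0 i) * sC) ^ 2 • polMet (qz (fun r => 1 - U' r)) z))
      T01 (zch c0 i)) {u : EE 4} (hu : ‖u‖ = 1) (huT : u ∉ T01) {r : ℝ} (hra : a < r) (hr : r ≤ ρ1 / 2) :
    redist S g (zch c0 i (rz r • u)) (zch c0 i (rz (ρ1 / 2) • u)) ≤ ENNReal.ofReal ρ1 := by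
  have hst := sin_taC_lt
  set s0 : ℝ := √(r ^ 2 - a ^ 2) with hs0
  set s1 : ℝ := √((ρ1 / 2) ^ 2 - a ^ 2) with hs1
  have p0 : 0 < r ^ 2 - a ^ 2 := by nlinarith
  have p1 : 0 < (ρ1 / 2) ^ 2 - a ^ 2 := by nlinarith
  have q0 : s0 ^ 2 = r ^ 2 - a ^ 2 := Real.sq_sqrt p0.le
  have q1 : s1 ^ 2 = (ρ1 / 2) ^ 2 - a ^ 2 := Real.sq_sqrt p1.le
  have s0p : 0 < s0 := Real.sqrt_pos.2 p0
  have s1p : 0 < s1 := Real.sqrt_pos.2 p1
  have s01 : s0 ≤ s1 := Real.sqrt_le_sqrt (by nlinarith)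
  have s1le : s1 ≤ ρ1 / 2 := by
    rw [hs1]
    calc √((ρ1 / 2) ^ 2 - a ^ 2) ≤ √((ρ1 / 2) ^ 2) := Real.sqrt_le_sqrt (by nlinarith)
      _ = ρ1 / 2 := Real.sqrt_sq (by linarith)
  set sg : ℝ → ℝ := fun t => s0 + t * (s1 - s0) with hsg
  have sgm : ∀ t ∈ Icc (0 : ℝ) 1, s0 ≤ sg t ∧ sg t ≤ s1 := by
    intro t ht
    constructor
    · show s0 ≤ s0 + t * (s1 - s0)
      nlinarith [ht.1]
    · show s0 + t * (s1 - s0) ≤ s1
      nlinarith [ht.2]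
  have hsgd : ∀ t, HasDerivAt sg (s1 - s0) t := by
    intro t
    have := ((hasDerivAt_id t).mul_const (s1 - s0)).const_add s0
    simpa [hsg] using this
  set f : ℝ → ℝ := fun t => √(a ^ 2 + sg t ^ 2) with hfdef
  have hfsq : ∀ t, f t ^ 2 = a ^ 2 + sg t ^ 2 := fun t => Real.sq_sqrt (by positivity)
  have hfp : ∀ t, 0 < f t := fun t => Real.sqrt_pos.2 (by positivity)
  have hfm : ∀ t ∈ Icc (0 : ℝ) 1, a < f t ∧ f t ≤ ρ1 / 2 := by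
    intro t ht
    obtain ⟨b1, b2⟩ := sgm t ht
    have b3 := hfp t
    have b4 := hfsq t
    have b5 : 0 < sg t := s0p.trans_le b1
    have b6 : sg t ^ 2 ≤ s1 ^ 2 := pow_le_pow_left₀ b5.le b2 2
    constructor
    · nlinarith
    · rw [q1] at b6
      nlinarith
  have key := uc_radial h h1 hg H hu huT (f := f) (f' := fun t => sg t * (s1 - s0) / f t)
    (fun t _ => by
      have e3 : HasDerivAt (fun t => a ^ 2 + sg t ^ 2) (2 * sg t * (s1 - s0)) t := by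
        have e4 := (hsgd t).mul (hsgd t)
        have e5 := e4.const_add (a ^ 2)
        refine (e5.congr_deriv (by ring)).congr_of_eventuallyEq ?_
        filter_upwards with y
        show a ^ 2 + sg y ^ 2 = a ^ 2 + sg y * sg y
        ring
      have hpos : a ^ 2 + sg t ^ 2 ≠ 0 := by positivity
      have e6 := e3.sqrt hpos
      refine e6.congr_deriv ?_
      have e7 : √(a ^ 2 + sg t ^ 2) = f t := rfl
      rw [e7]
      have := (hfp t).ne'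
      field_simp)
    (fun t _ => by
      refine ContDiffAt.sqrt ?_ (by positivity)
      show ContDiffAt ℝ 1 (fun t => a ^ 2 + (s0 + t * (s1 - s0)) ^ 2) t
      fun_prop)
    (fun t ht => ⟨hfp t, (hfm t ht).1, lt_min (by linarith [(hfm t ht).2]) (by linarith [(hfm t ht).2])⟩)
    (fun t ht => by
      rw [hU' _ (hfp t) (hfm t ht).2, div_lt_one (by have := hfp t; positivity)]
      exact pow_lt_pow_left₀ (hfm t ht).1 ha.le (by norm_num))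
    (L := ρ1) (by linarith)
    (fun t ht => by
      obtain ⟨b1, b2⟩ := sgm t ht
      have b3 := hfp t
      have b4 := hfsq t
      have b5 : 0 < sg t := s0p.trans_le b1
      obtain ⟨b6, b7⟩ := hfm t ht
      rw [hU' _ b3 b7]
      have c1 : 1 - a ^ 4 / f t ^ 4 = sg t ^ 2 * (f t ^ 2 + a ^ 2) / f t ^ 4 := by
        have : sg t ^ 2 = f t ^ 2 - a ^ 2 := by linarith
        rw [this]
        field_simp
        ring
      rw [c1]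
      have c2 : (sg t * (s1 - s0) / f t) ^ 2 / (sg t ^ 2 * (f t ^ 2 + a ^ 2) / f t ^ 4) =
          (s1 - s0) ^ 2 * (f t ^ 2 / (f t ^ 2 + a ^ 2)) := by
        field_simp
      rw [c2]
      have c3 : f t ^ 2 / (f t ^ 2 + a ^ 2) ≤ 1 := by
        rw [div_le_one (by positivity)]
        nlinarith
      have c4 : (s1 - s0) ^ 2 ≤ ρ1 ^ 2 := pow_le_pow_left₀ (by linarith) (by linarith) 2
      calc (s1 - s0) ^ 2 * (f t ^ 2 / (f t ^ 2 + a ^ 2)) ≤ (s1 - s0) ^ 2 * 1 :=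
            mul_le_mul_of_nonneg_left c3 (sq_nonneg _)
        _ ≤ ρ1 ^ 2 := by rw [mul_one]; exact c4)
  have e0 : f 0 = r := by
    show √(a ^ 2 + (s0 + 0 * (s1 - s0)) ^ 2) = r
    rw [zero_mul, add_zero, q0, add_sub_cancel, Real.sqrt_sq (by linarith)]
  have e1 : f 1 = ρ1 / 2 := by
    show √(a ^ 2 + (s0 + 1 * (s1 - s0)) ^ 2) = ρ1 / 2
    rw [one_mul, add_sub_cancel, q1, add_sub_cancel, Real.sqrt_sq (by linarith)]
  rw [e0, e1] at key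
  exact key

private theorem uc_unit {z : EE 4} (hz : z ∉ T01) :
    ∃ u : EE 4, ‖u‖ = 1 ∧ u ∉ T01 ∧ rz (rhoz z) • u = z := by
  have hz0 : z ≠ 0 := by
    rintro rfl
    exact hz ⟨rfl, rfl⟩
  have hn : 0 < ‖z‖ := norm_pos_iff.2 hz0
  refine ⟨‖z‖⁻¹ • z, ?_, uc_T01 hz (by positivity), ?_⟩
  · rw [norm_smul, norm_inv, norm_norm, inv_mul_cancel₀ hn.ne']
  · unfold rhoz
    rw [rz_rho z, smul_smul, mul_inv_cancel₀ hn.ne', one_smul]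

theorem cap_inP {c0 ρ1 : ℝ} (h : 0 < c0) (h1 : c0 ≤ 1) (h0 : 0 < ρ1) (hρ : 4 * ρ1 ≤ sin taC) {k i : ℕ} (hi : 1 ≤ i)
    {x : EE 4} (hx : x ∈ UInf c0 ∩ Bs c0 k ρ1 i) : ∃ y ∈ UInf c0 ∩ frontier (Bs c0 k ρ1 i),
      redist (UInf c0) (gInf c0) x y ≤ ENNReal.ofReal (20 * ρ1) := by
  have hst := sin_taC_lt
  obtain ⟨a1, a2, a3⟩ := (mem_Bs hi).1 hx.2
  obtain ⟨z, hz, hzx, hzr⟩ := zch_surj h h1 i (UInf_Ur hx.1) a1 a2
  obtain ⟨u, hu, huT, huz⟩ := uc_unit hz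
  have hr1 : rhoz z < 2 * ρ1 := by rw [hzr]; exact a3
  have hz0 : z ≠ 0 := by
    rintro rfl
    exact hz ⟨rfl, rfl⟩
  have hr0 : 0 < rhoz z := by
    have hn : 0 < ‖z‖ := norm_pos_iff.2 hz0
    unfold rhoz
    positivity
  have hE := zch_LIso_Inf h h1 hi
  have hrr := uc_rhoz hu (ρ := 2 * ρ1) (by linarith) (by linarith)
  have hT := uc_T01 huT (rz_pos (ρ := 2 * ρ1) (by linarith) (by linarith))
  refine ⟨zch c0 i (rz (2 * ρ1) • u), ⟨hE.maps ⟨⟨by rw [hrr]; linarith, by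
    rw [hrr]; exact lt_min (by linarith) (by linarith)⟩, hT⟩, zch_frontier h h1 h0 hρ hi hT hrr⟩, ?_⟩
  have key := uc_lin h h1 h0 hρ (gInf_met h h1) hE hu huT hr0 hr0 hr1.le (fun ρ h2 h3 => by
    unfold U0
    nlinarith)
  rw [huz, hzx] at key
  exact key.trans (ENNReal.ofReal_le_ofReal (by linarith))

theorem cap_inQ {c0 ρ1 a ε δ : ℝ} {k : ℕ} {Ψ U : ℝ → ℝ} (h : 0 < c0) (h1 : c0 ≤ 1)
    (H : Par ρ1 a ε δ Ψ U) (hδ : ∀ i, 1 ≤ i → i ≤ k → δ ≤ dbd c0 i) (hρ : 4 * ρ1 ≤ sin taC) {i : ℕ} (hi : 1 ≤ i)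
    (hik : i ≤ k) {x : EE 4} (hx : x ∈ UM c0 k a ∩ Bs c0 k ρ1 i) :
    ∃ y ∈ UM c0 k a ∩ frontier (Bs c0 k ρ1 i),
      redist (UM c0 k a) (gM c0 k Ψ U) x y ≤ ENNReal.ofReal (20 * ρ1) := by
  have hst := sin_taC_lt
  have ha := H.cap.a_pos
  have ha1 := H.cap.a_lt
  have h0 : 0 < ρ1 := by linarith
  have hG : GAdm c0 k a Ψ U := Or.inl ⟨ρ1, ε, δ, H, hδ⟩
  obtain ⟨a1, a2, a3⟩ := (mem_Bs hi).1 hx.2
  have a4 := (UM_xco h h1 hi hik hx.1).2 a2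
  obtain ⟨z, hz, hzx, hzr⟩ := zch_surj h h1 i (UM_Ur hx.1) a1 a2
  obtain ⟨u, hu, huT, huz⟩ := uc_unit hz
  have hr1 : rhoz z < 2 * ρ1 := by rw [hzr]; exact a3
  have hra : a < rhoz z := by rw [hzr]; exact a4
  have hE := zch_LIso_M h h1 hi hik hG
  have hM := gM_met h h1 (hi.trans hik) hG
  have hrr := uc_rhoz hu (ρ := 2 * ρ1) (by linarith) (by linarith)
  have hT := uc_T01 huT (rz_pos (ρ := 2 * ρ1) (by linarith) (by linarith))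
  have hU2 : ∀ ρ, ρ1 / 2 ≤ ρ → ρ ≤ 2 * ρ1 → U ρ ≤ 1 / 2 := by
    intro ρ h2 h3
    rcases le_total ρ ρ1 with h4 | h4
    · exact H.cap.ub ρ h2 h4
    · rw [H.cap.fs ρ h4]
      nlinarith
  refine ⟨zch c0 i (rz (2 * ρ1) • u), ⟨hE.maps ⟨⟨by rw [hrr]; linarith, by
    rw [hrr]; exact lt_min (by linarith) (by linarith)⟩, hT⟩, zch_frontier h h1 h0 hρ hi hT hrr⟩, ?_⟩
  rcases le_total (ρ1 / 2) (rhoz z) with h5 | h5
  · have key := uc_lin h h1 h0 hρ hM hE hu huT (ha.trans hra) hra hr1.le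
      (fun ρ h2 h3 => hU2 ρ (h5.trans h2) h3)
    rw [huz, hzx] at key
    exact key.trans (ENNReal.ofReal_le_ofReal (by linarith))
  · have key1 := uc_eh h h1 h0 hρ hM ha ha1 H.cap.eh hE hu huT hra h5
    have key2 := uc_lin h h1 h0 hρ hM hE hu huT (r := ρ1 / 2) (by linarith) ha1 (by linarith) hU2
    rw [huz, hzx] at key1
    refine (redist_triangle hM _ (zch c0 i (rz (ρ1 / 2) • u)) _).trans ((add_le_add key1 key2).trans ?_)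
    rw [← ENNReal.ofReal_add h0.le (by linarith)]
    exact ENNReal.ofReal_le_ofReal (by linarith)

end Pool.Agent.MP39e402
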