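import Pool.Agent.Lib.MP_39e402_gt.UHset

/-! # MP_39e402, module UHcmp: comparison of the quadratic forms outside the bad sets

* `qI_cmp`, `qC_cmp`, `qL_cmp`: with `w/2 ≤ Ψ w ≤ w`: only the last term `Ψ(w)² (..)²` changes, by a factor in `[1,4]`;
  the base part of `qC` is `≥ 0` (`base_ge`); in PZ with `U ρ = ρ²` nothing changes.
* `tube_agree`: `gs_overlap`, `gs_tube`, `gs_qL_far` of GSlab (private there, copy) work for
  `9/16 xh i ≤ X ≤ 7/8 xh i` (scaled `|X| ≥ 512` for both holes).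
* `prod_zone`: `‖sc i p‖ ≥ 1`, `Yr p ≥ rh i/5`: `PhL_out`, `gs_qL_far`: the metric is
  `v0² + wY² + (aa Yr wal)² + (Ψ(aa Ur) wth)²`.
* `form_lower/upper`, `x` in no bad set, `x ∈ UInf`:
  (1) `x 0 > 11/16 xh k`: `gInf_eq` and `qL_cmp` with `Ψ0` and `scΨ (rh i) Ψ` in the slab `i = idx k (x 0)`; on PZ
      `rhoP ≥ 2ρ1`, so `U = ρ²` (`IsCap.fs`).
  (2) `0 < x 0 ≤ 11/16 xh k`, `‖x‖ ≥ 5/8 xh k`.  If `Yr x ≥ rh k/5`: `prod_zone` for hole `k` and (for `gInf`)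
      for the hole `i = idx m (x 0)` with `m` large, `i ≥ k` (so `rh i ≤ rh k`).
      If `Yr x < rh k/5`: `x 0 ≥ 9/16 xh k = 9/8 xh (k+1)`; `gInf = qL` of hole `k+1`
      (`gInf_eq`, `gM_eq` with `k+1`, `x ∈ Sl (k+1) (k+1)`), `= qL` of hole `k` by `tube_agree`; then `Ψ0` versus `Ψ`.
  (3) `x 0 ≤ 0`: `gInf = polMet q0`; `gM` = hole `k` with `‖sc k x‖ ≥ 1`, `JL = R`, `aa Y ≤ PhL ≤ Y` (`PhL_ge`, `GPts_PhL_le`),
      `w/2 ≤ Ψ w ≤ w`: factor in `[1, (2/aa)²]`. -/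

open Real Set Filter Topology MeasureTheory
open scoped ContDiff ENNReal

noncomputable section

namespace Pool.Agent.MP39e402

private theorem hc_xh_pos (i : ℕ) : 0 < xh i := by
  unfold xh; positivity

private theorem hc_rh_pos (i : ℕ) : 0 < rh i := by
  unfold rh
  have := hc_xh_pos i
  positivity

private theorem hc_xh_succ (i : ℕ) : xh (i + 1) = xh i / 2 := by
  unfold xh; rw [pow_succ]; ring

private theorem hc_rh_succ (i : ℕ) : rh (i + 1) = rh i / 2 := by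
  unfold rh; rw [hc_xh_succ]; ring

private theorem hc_xh_rh (i : ℕ) : xh i = 4096 * rh i := by
  unfold rh; ring

private theorem hc_xh_anti {i j : ℕ} (h : i ≤ j) : xh j ≤ xh i := by
  unfold xh
  exact pow_le_pow_of_le_one (by norm_num) (by norm_num) h

private theorem hc_phh {c0 : ℝ} (h : 0 < c0) (h1 : c0 ≤ 1) (i : ℕ) :
    0 < phh c0 i ∧ phh c0 i ≤ 1 / 2 := by
  refine ⟨phh_pos h i, ?_⟩
  have := phh_le h h1 i
  have h2 : c0 / 10 ^ 6 ≤ 1 / 2 := by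
    rw [div_le_iff₀ (by norm_num)]
    linarith
  linarith

private theorem hc_epsh {ph : ℝ} (h : 0 < ph) (h1 : ph ≤ 1 / 2) : epsh ph ≤ 1 / 10000 := by
  have h2 := epsh_le h h1
  have h3 : ph / 10 ^ 12 ≤ 1 / 10000 := by
    rw [div_le_iff₀ (by norm_num)]
    linarith
  linarith

/-- bounds of `Ψ w` squared -/
private theorem hc_sq {Ψ : ℝ → ℝ} (hΨ : ∀ w, 0 ≤ w → w / 2 ≤ Ψ w ∧ Ψ w ≤ w) {w : ℝ} (hw : 0 ≤ w) :
    (Ψ0 w) ^ 2 ≤ (Ψ w) ^ 2 ∧ (Ψ w) ^ 2 ≤ 4 * (Ψ0 w) ^ 2 := by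
  obtain ⟨a1, a2⟩ := hΨ w hw
  unfold Ψ0
  constructor
  · exact pow_le_pow_left₀ (by positivity) a1 2
  · have : (Ψ w) ^ 2 ≤ w ^ 2 := pow_le_pow_left₀ (by linarith) a2 2
    linarith [this, show 4 * (w / 2) ^ 2 = w ^ 2 by ring]

private theorem hc_scale {Ψ : ℝ → ℝ} (hΨ : ∀ w, 0 ≤ w → w / 2 ≤ Ψ w ∧ Ψ w ≤ w) {s : ℝ} (hs : 0 < s) :
    ∀ w, 0 ≤ w → w / 2 ≤ scΨ s Ψ w ∧ scΨ s Ψ w ≤ w := by
  intro w hw
  obtain ⟨a1, a2⟩ := hΨ (s * w) (by positivity)
  unfold scΨ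
  constructor
  · rw [le_div_iff₀ hs]
    linarith
  · rw [div_le_iff₀ hs]
    linarith

private theorem hc_sc0 {s : ℝ} (hs : 0 < s) : scΨ s Ψ0 = Ψ0 := by
  funext w
  unfold scΨ Ψ0
  field_simp

/-- comparison of `A + (Ψ w)² B` -/
private theorem hc_cmp {Ψ : ℝ → ℝ} (hΨ : ∀ w, 0 ≤ w → w / 2 ≤ Ψ w ∧ Ψ w ≤ w) {w A B : ℝ} (hw : 0 ≤ w)
    (hA : 0 ≤ A) (hB : 0 ≤ B) :
    A + (Ψ0 w) ^ 2 * B ≤ A + (Ψ w) ^ 2 * B ∧ A + (Ψ w) ^ 2 * B ≤ 4 * (A + (Ψ0 w) ^ 2 * B) := by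
  obtain ⟨a1, a2⟩ := hc_sq hΨ hw
  have b1 := mul_le_mul_of_nonneg_right a1 hB
  have b2 := mul_le_mul_of_nonneg_right a2 hB
  constructor
  · linarith
  · linarith

theorem qI_cmp {ph : ℝ} {Ψ : ℝ → ℝ} (h : 0 < ph) (h1 : ph ≤ 1 / 2) (hΨ : ∀ w, 0 ≤ w → w / 2 ≤ Ψ w ∧ Ψ w ≤ w)
    {p : EE 4} (hU : Ur p ≠ 0) (v : EE 4) : qI ph Ψ0 p v ≤ qI ph Ψ p v ∧ qI ph Ψ p v ≤ 4 * qI ph Ψ0 p v := by
  have hY := Yr_pos hU
  have hU0 := Ur_pos hU
  have hP := PhL_pos (X := p 0) h h1 hY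
  have hpl := planar_forms hY v
  unfold qI
  refine hc_cmp hΨ (by positivity) ?_ (sq_nonneg _)
  have e : (v 0) ^ 2 + (wY p v) ^ 2
      + ((JL ph ‖p‖ (ang (p 0) (Yr p))) ^ 2 - ‖p‖ ^ 2) * (wt p v) ^ 2
      + (PhL ph (p 0) (Yr p)) ^ 2 * (wal p v) ^ 2 =
      wR p v ^ 2 + (JL ph ‖p‖ (ang (p 0) (Yr p))) ^ 2 * (wt p v) ^ 2
      + (PhL ph (p 0) (Yr p)) ^ 2 * (wal p v) ^ 2 := by
    linear_combination -hpl
  rw [e]
  positivity

theorem qC_cmp {Ψ U : ℝ → ℝ} (hΨ : ∀ w, 0 ≤ w → w / 2 ≤ Ψ w ∧ Ψ w ≤ w) {x : EE 4} (hx : t1C < ‖x‖)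
    (hUx : Ur x ≠ 0) (hP : x ∈ PZ → U (rhoP x) = rhoP x ^ 2) (v : EE 4) :
    qC Ψ0 U0 x v ≤ qC Ψ U x v ∧ qC Ψ U x v ≤ 4 * qC Ψ0 U0 x v := by
  have hb := base_ge hx hUx v
  have hN := NN_pos hx
  have hbase : 0 ≤ (wR x v) ^ 2 + bC (tc x) ^ 2 * (wn2 x v - (n3 x) ^ 2 * (wth x v) ^ 2)
      - bC (tc x) ^ 2 * (bC (tc x) ^ 2 - fC (tc x) ^ 2) / NN x * (wvp x v) ^ 2 := by
    have h2 : 0 ≤ bC (tc x) ^ 2 * fC (tc x) ^ 2 / NN x * (wni 0 x v ^ 2 + wni 1 x v ^ 2) +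
        bC (tc x) ^ 2 * wn3 x v ^ 2 := by positivity
    have h3 := sq_nonneg (wR x v)
    linarith
  unfold qC
  by_cases hz : x ∈ PZ
  · rw [if_pos hz, if_pos hz, hP hz]
    have e : U0 (rhoP x) = rhoP x ^ 2 := rfl
    rw [e, sub_self, zero_mul, zero_add]
    have h4 : 0 ≤ (rhoP x) ^ 2 * (1 - (rhoP x) ^ 2) / 4 * (wth x v - kap x * wvp x v) ^ 2 := by
      have h5 := rhoP_le_one x
      have h6 := rhoP_nonneg x
      have h7 : 0 ≤ 1 - (rhoP x) ^ 2 := by nlinarith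
      positivity
    constructor
    · exact le_rfl
    · linarith
  · rw [if_neg hz, if_neg hz]
    exact hc_cmp hΨ (wc_pos hx hUx).le hbase (sq_nonneg _)

private theorem hc_Qm_Ur {ε : ℝ} (h : 0 < ε) {p : EE 4} (hU : Ur p ≠ 0) : Ur (Qm ε p) ≠ 0 := by
  have hY := Yr_pos hU
  rw [Qm_Ur_val h hY]
  have h1 := norm_pos_Ur hU
  have h2 := sin_bet_pos hY
  have h3 := Ur_pos hU
  have h4 := sC_pos
  positivity

theorem qL_cmp {ph : ℝ} {Ψ U : ℝ → ℝ} (h : 0 < ph) (h1 : ph ≤ 1 / 2) (hΨ : ∀ w, 0 ≤ w → w / 2 ≤ Ψ w ∧ Ψ w ≤ w)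
    {p : EE 4} (hU : Ur p ≠ 0) (hp : t1C < ‖Qm (epsh ph) p‖)
    (hP : Qm (epsh ph) p ∈ PZ → U (rhoP (Qm (epsh ph) p)) = rhoP (Qm (epsh ph) p) ^ 2) (v : EE 4) :
    qL ph Ψ0 U0 p v ≤ qL ph Ψ U p v ∧ qL ph Ψ U p v ≤ 4 * qL ph Ψ0 U0 p v := by
  have he := epsh_pos h
  have hs : 0 < epsh ph * sC := mul_pos he sC_pos
  unfold qL
  by_cases hz : ‖p‖ < epsh ph / 2
  · rw [if_pos hz, if_pos hz, hc_sc0 hs]
    obtain ⟨a1, a2⟩ := qC_cmp (hc_scale hΨ hs) hp (hc_Qm_Ur he hU) hP (fderiv ℝ (Qm (epsh ph)) p v)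
    have h2 : 0 ≤ (epsh ph * sC) ^ 2 := by positivity
    constructor
    · exact mul_le_mul_of_nonneg_left a1 h2
    · have := mul_le_mul_of_nonneg_left a2 h2
      linarith
  · rw [if_neg hz, if_neg hz]
    exact qI_cmp h h1 hΨ hU v

private theorem hc_sc_apply0 (i : ℕ) (p : EE 4) : (sc i p) 0 = (p 0 - xh i) / rh i := by
  show (1 / rh i) * (p 0 - xh i) = _
  ring

private theorem hc_sc1 (i : ℕ) (p : EE 4) : (sc i p) 1 = p 1 / rh i := by
  show (1 / rh i) * (p 1 - 0) = _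
  ring

private theorem hc_sc2 (i : ℕ) (p : EE 4) : (sc i p) 2 = p 2 / rh i := by
  show (1 / rh i) * (p 2 - 0) = _
  ring

private theorem hc_sc3 (i : ℕ) (p : EE 4) : (sc i p) 3 = p 3 / rh i := by
  show (1 / rh i) * (p 3 - 0) = _
  ring

private theorem hc_wY_sc (i : ℕ) (p v : EE 4) : wY (sc i p) v = wY p v := by
  unfold wY
  rw [sc_Yr, hc_sc1, hc_sc2, hc_sc3]
  rw [← div_div_div_cancel_right₀ (hc_rh_pos i).ne' (p 1 * v 1 + p 2 * v 2 + p 3 * v 3) (Yr p)]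
  congr 1
  ring

private theorem hc_wU_sc (i : ℕ) (p v : EE 4) : wU (sc i p) v = wU p v := by
  unfold wU
  rw [sc_Ur, hc_sc2, hc_sc3]
  rw [← div_div_div_cancel_right₀ (hc_rh_pos i).ne' (p 2 * v 2 + p 3 * v 3) (Ur p)]
  congr 1
  ring

private theorem hc_div_sq {A B r : ℝ} (hr : r ≠ 0) : A / r / (B / r) ^ 2 = r * (A / B ^ 2) := by
  rw [div_pow, div_div_eq_mul_div, div_mul_eq_mul_div, div_div, ← mul_div_assoc]
  rw [show A * r ^ 2 / (r * B ^ 2) = (r * (A * r)) / (r * B ^ 2) by ring,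
    mul_div_mul_left _ _ hr]
  ring

private theorem hc_wth_sc (i : ℕ) (p v : EE 4) : wth (sc i p) v = rh i * wth p v := by
  unfold wth
  rw [sc_Ur, hc_sc2, hc_sc3, ← hc_div_sq (hc_rh_pos i).ne']
  congr 1
  ring

private theorem hc_wal_sc (i : ℕ) (p v : EE 4) : wal (sc i p) v = rh i * wal p v := by
  unfold wal
  rw [sc_Yr, hc_wU_sc, sc_Ur, hc_sc1, ← hc_div_sq (hc_rh_pos i).ne']
  congr 1
  ring

/-- the type I formula of hole `i` in unscaled form, `‖sc i p‖ ≥ 1` -/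
theorem qL_far {c0 : ℝ} (h : 0 < c0) (h1 : c0 ≤ 1) (i : ℕ) (Ψ U : ℝ → ℝ) {p : EE 4}
    (hp : 1 ≤ ‖sc i p‖) (v : EE 4) :
    qL (phh c0 i) (scΨ (rh i) Ψ) U (sc i p) v = (v 0) ^ 2 + (wY p v) ^ 2
      + (rh i * PhL (phh c0 i) ((sc i p) 0) (Yr (sc i p))) ^ 2 * (wal p v) ^ 2
      + (Ψ (rh i * PhL (phh c0 i) ((sc i p) 0) (Yr (sc i p)) * Ur p / Yr p)) ^ 2 * (wth p v) ^ 2 := by
  have h3 : ¬ ‖sc i p‖ < epsh (phh c0 i) / 2 := by
    have h4 := hc_epsh (hc_phh h h1 i).1 (hc_phh h h1 i).2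
    intro h5
    linarith
  have hr := hc_rh_pos i
  unfold qL
  rw [if_neg h3]
  unfold qI
  have hJ : JL (phh c0 i) ‖sc i p‖ (ang ((sc i p) 0) (Yr (sc i p))) = ‖sc i p‖ := by
    unfold JL
    have : st (2 * ‖sc i p‖ - 1) = 1 := st_one (by linarith)
    rw [this]
    ring
  rw [hJ, sub_self, zero_mul, add_zero, hc_wY_sc, hc_wth_sc, hc_wal_sc]
  unfold scΨ
  have e1 : rh i * (PhL (phh c0 i) ((sc i p) 0) (Yr (sc i p)) * Ur (sc i p) / Yr (sc i p)) =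
      rh i * PhL (phh c0 i) ((sc i p) 0) (Yr (sc i p)) * Ur p / Yr p := by
    have e0 : Ur (sc i p) / Yr (sc i p) = Ur p / Yr p := by
      rw [sc_Ur, sc_Yr, div_div_div_cancel_right₀ hr.ne']
    rw [mul_div_assoc, e0]
    ring
  rw [e1]
  have e2 : ∀ A B : ℝ, (A / rh i) ^ 2 * (rh i * B) ^ 2 = A ^ 2 * B ^ 2 := by
    intro A B
    field_simp
  rw [e2]
  ring

private theorem hc_tube {ph X Y : ℝ} (h : 0 < ph) (h1 : ph ≤ 1 / 2) (hY : 0 < Y) (hX : 512 ≤ |X|) :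
    PhL ph X Y = PAx Y ((1 - st (Y / ysd X - 1)) * zsd ph X) (lam * zsd ph X) := by
  have h2 := hc_epsh h h1
  have hR : |X| ≤ rad X Y := by
    unfold rad
    apply abs_le_of_sq_le_sq _ (Real.sqrt_nonneg _)
    rw [Real.sq_sqrt (by positivity)]
    nlinarith [sq_nonneg Y]
  rw [PhL_of_ge h h1 hY (by linarith), QL_tube h h1 hY (by linarith), sL_tube h h1 hX]

private theorem hc_abs_le (p : EE 4) : |p 0| ≤ ‖p‖ := by
  apply abs_le_of_sq_le_sq _ (norm_nonneg p)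
  rw [norm_sq_XY]
  nlinarith [sq_nonneg (Yr p)]

private theorem hc_overlap {c0 : ℝ} (h : 0 < c0) (h1 : c0 ≤ 1) (i : ℕ) {p : EE 4} (hU : Ur p ≠ 0)
    (hX1 : 9 / 16 * xh i ≤ p 0) (hX2 : p 0 ≤ 7 / 8 * xh i) :
    1 ≤ ‖sc i p‖ ∧ 1 ≤ ‖sc (i + 1) p‖ ∧
      rh (i + 1) * PhL (phh c0 (i + 1)) ((sc (i + 1) p) 0) (Yr (sc (i + 1) p)) =
        rh i * PhL (phh c0 i) ((sc i p) 0) (Yr (sc i p)) := by
  have hr := hc_rh_pos i
  have hr1 := hc_rh_pos (i + 1)
  have e1 := hc_rh_succ i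
  have e2 := hc_xh_succ i
  have e3 := hc_xh_rh i
  have a1 : (sc i p) 0 ≤ -512 := by
    rw [hc_sc_apply0, div_le_iff₀ hr]
    linarith
  have a2 : 512 ≤ (sc (i + 1) p) 0 := by
    rw [hc_sc_apply0, le_div_iff₀ hr1]
    linarith
  have b1 : 512 ≤ |(sc i p) 0| := by
    rw [abs_of_neg (by linarith)]
    linarith
  have b2 : 512 ≤ |(sc (i + 1) p) 0| := by
    rw [abs_of_pos (by linarith)]
    exact a2
  refine ⟨by linarith [hc_abs_le (sc i p)], by linarith [hc_abs_le (sc (i + 1) p)], ?_⟩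
  have hY := Yr_pos hU
  have hY1 : 0 < Yr (sc i p) := by rw [sc_Yr]; positivity
  have hY2 : 0 < Yr (sc (i + 1) p) := by rw [sc_Yr]; positivity
  rw [hc_tube (hc_phh h h1 i).1 (hc_phh h h1 i).2 hY1 b1,
    hc_tube (hc_phh h h1 (i + 1)).1 (hc_phh h h1 (i + 1)).2 hY2 b2, ← PAx_mul hr, ← PAx_mul hr1]
  have c1 : zsd (phh c0 i) ((sc i p) 0) = 4 * phh c0 i := by
    unfold zsd; rw [if_pos (by linarith)]
  have c2 : zsd (phh c0 (i + 1)) ((sc (i + 1) p) 0) = 32 * phh c0 (i + 1) := by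
    unfold zsd; rw [if_neg (by linarith)]
  have d1 : ysd ((sc i p) 0) = 1 / 20 := by
    unfold ysd; rw [if_pos (by linarith)]
  have d2 : ysd ((sc (i + 1) p) 0) = 1 / 10 := by
    unfold ysd; rw [if_neg (by linarith)]
  rw [c1, c2, d1, d2, sc_Yr, sc_Yr]
  have f1 : Yr p / rh (i + 1) / (1 / 10) = Yr p / rh i / (1 / 20) := by
    rw [e1]
    field_simp
    norm_num
  have f2 : rh (i + 1) * (32 * phh c0 (i + 1)) = rh i * (4 * phh c0 i) := by
    unfold phh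
    rw [e1]
    ring
  have f3 : rh (i + 1) * (Yr p / rh (i + 1)) = rh i * (Yr p / rh i) := by
    rw [mul_div_cancel₀ _ hr1.ne', mul_div_cancel₀ _ hr.ne']
  rw [f1, f3]
  congr 1
  · rw [mul_left_comm, f2, mul_left_comm]
  · rw [mul_left_comm, f2, mul_left_comm]

theorem tube_agree {c0 : ℝ} (h : 0 < c0) (h1 : c0 ≤ 1) (i : ℕ) (Ψ U : ℝ → ℝ) {p : EE 4} (hU : Ur p ≠ 0)
    (hX1 : 9 / 16 * xh i ≤ p 0) (hX2 : p 0 ≤ 7 / 8 * xh i) (v : EE 4) :
    qL (phh c0 (i + 1)) (scΨ (rh (i + 1)) Ψ) U (sc (i + 1) p) v =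
      qL (phh c0 i) (scΨ (rh i) Ψ) U (sc i p) v := by
  obtain ⟨a1, a2, a3⟩ := hc_overlap h h1 i hU hX1 hX2
  rw [qL_far h h1 i Ψ U a1, qL_far h h1 (i + 1) Ψ U a2, a3]

theorem prod_zone {c0 : ℝ} (h : 0 < c0) (h1 : c0 ≤ 1) (i : ℕ) (Ψ U : ℝ → ℝ) {p : EE 4} (hU : Ur p ≠ 0)
    (hp : 1 ≤ ‖sc i p‖) (hY : rh i / 5 ≤ Yr p) (v : EE 4) :
    qL (phh c0 i) (scΨ (rh i) Ψ) U (sc i p) v = (v 0) ^ 2 + (wY p v) ^ 2
      + (aa * Yr p) ^ 2 * (wal p v) ^ 2 + (Ψ (aa * Ur p)) ^ 2 * (wth p v) ^ 2 := by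
  have hr := hc_rh_pos i
  have hYp := Yr_pos hU
  have h2 : 1 / 5 ≤ Yr (sc i p) := by
    rw [sc_Yr, le_div_iff₀ hr]
    linarith
  have h3 : 1 ≤ rad ((sc i p) 0) (Yr (sc i p)) := by
    rw [rad_eq_norm]
    exact hp
  have e1 : rh i * (aa * Yr (sc i p)) = aa * Yr p := by
    rw [sc_Yr]
    field_simp
  rw [qL_far h h1 i Ψ U hp, PhL_out (hc_phh h h1 i).1 (hc_phh h h1 i).2 h3 h2, e1,
    show aa * Yr p * Ur p / Yr p = aa * Ur p by field_simp]

/-- the comparison for product zones -/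
private theorem hc_far {Ψ : ℝ → ℝ} (hΨ : ∀ w, 0 ≤ w → w / 2 ≤ Ψ w ∧ Ψ w ≤ w) {w A B : ℝ} (hw : 0 ≤ w)
    (hA : 0 ≤ A) (hB : 0 ≤ B) :
    A + (Ψ0 w) ^ 2 * B ≤ A + (Ψ w) ^ 2 * B ∧
      A + (Ψ w) ^ 2 * B ≤ (2 / aa) ^ 2 * (A + (Ψ0 w) ^ 2 * B) := by
  obtain ⟨a1, a2⟩ := hc_cmp hΨ hw hA hB
  refine ⟨a1, a2.trans ?_⟩
  have h0 := GPts_aa
  have h1 : (4 : ℝ) ≤ (2 / aa) ^ 2 := by
    have h2 : (2 : ℝ) ≤ 2 / aa := by
      rw [le_div_iff₀ h0.1]
      linarith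
    nlinarith
  exact mul_le_mul_of_nonneg_right h1 (by positivity)

private theorem hc_four {x y z : ℝ} (h : x ≤ y ∧ y ≤ 4 * x) (hz : z = x) : z ≤ y ∧ y ≤ (2 / aa) ^ 2 * z := by
  subst hz
  refine ⟨h.1, h.2.trans ?_⟩
  have h0 := GPts_aa
  have h1 : (4 : ℝ) ≤ (2 / aa) ^ 2 := by
    have h2 : (2 : ℝ) ≤ 2 / aa := by
      rw [le_div_iff₀ h0.1]
      linarith
    nlinarith
  have h3 : 0 ≤ z := by linarith [h.1, h.2]
  exact mul_le_mul_of_nonneg_right h1 h3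

theorem form_cmp {c0 ρ1 a ε δ : ℝ} {k : ℕ} {Ψ U : ℝ → ℝ} (h : 0 < c0) (h1 : c0 ≤ 1) (hk : 1 ≤ k)
    (H : Par ρ1 a ε δ Ψ U) {x : EE 4} (hx : x ∈ UInf c0)
    (hB : ∀ j ∈ Finset.range (k + 1), x ∉ Bs c0 k ρ1 j) (v : EE 4) :
    gquad (gInf c0) x v ≤ gquad (gM c0 k Ψ U) x v ∧
      gquad (gM c0 k Ψ U) x v ≤ (2 / aa) ^ 2 * gquad (gInf c0) x v := by
  have hU : Ur x ≠ 0 := UInf_Ur hx
  have hU0 := Ur_pos hU
  have hY := Yr_pos hU
  have hxk := hc_xh_pos k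
  have hΨ : ∀ w, 0 ≤ w → w / 2 ≤ Ψ w ∧ Ψ w ≤ w := fun w hw => ⟨H.edge.lb w hw, H.edge.ub w hw⟩
  -- comparison with one hole
  have key : ∀ i, 1 ≤ i → i ≤ k → qL (phh c0 i) (scΨ (rh i) Ψ0) U0 (sc i x) v ≤
      qL (phh c0 i) (scΨ (rh i) Ψ) U (sc i x) v ∧
      qL (phh c0 i) (scΨ (rh i) Ψ) U (sc i x) v ≤
        4 * qL (phh c0 i) (scΨ (rh i) Ψ0) U0 (sc i x) v := by
    intro i hi hik
    rw [hc_sc0 (hc_rh_pos i)]
    refine qL_cmp (hc_phh h h1 i).1 (hc_phh h h1 i).2 (hc_scale hΨ (hc_rh_pos i)) ?_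
      (UInf_xco h h1 hi hx) ?_ v
    · rw [sc_Ur]
      exact div_ne_zero hU (hc_rh_pos i).ne'
    · intro hz
      have h2 := hB i (Finset.mem_range.2 (by omega))
      rw [mem_Bs hi] at h2
      have h3 : ρ1 ≤ rhoP (xco c0 i x) := by
        by_contra h4
        push Not at h4
        apply h2
        refine ⟨UInf_xco h h1 hi hx, hz, ?_⟩
        have := H.cap.a_pos
        have := H.cap.a_lt
        linarith
      exact H.cap.fs _ h3
  have hgM : ∀ i, 1 ≤ i → i ≤ k → x ∈ Sl k i → gquad (gM c0 k Ψ U) x v =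
      qL (phh c0 i) (scΨ (rh i) Ψ) U (sc i x) v := fun i hi hik hs => gM_gquad h h1 hi hik Ψ U hs hU v
  rcases lt_or_ge (11 / 16 * xh k) (x 0) with hc | hc
  · -- case 1
    have hs := mem_Sl_idx hk x
    have hi := idx_pos k (x 0)
    have hik := idx_le hk (x 0)
    have e : gquad (gInf c0) x v = gquad (gM c0 k Ψ0 U0) x v := by
      unfold gquad
      rw [gInf_eq h h1 hk hc hU]
    rw [hgM _ hi hik hs]
    exact hc_four (key _ hi hik) (e.trans (gM_gquad h h1 hi hik Ψ0 U0 hs hU v))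
  · have hs : x ∈ Sl k k := ⟨fun h2 => absurd h2 (lt_irrefl _), fun _ => by linarith⟩
    have hr := hc_rh_pos k
    have hxr := hc_xh_rh k
    have hn : 1 ≤ ‖sc k x‖ := by
      refine le_trans ?_ (hc_abs_le (sc k x))
      rw [hc_sc_apply0, abs_of_nonpos]
      · rw [← neg_div, le_div_iff₀ hr]
        linarith
      · apply div_nonpos_of_nonpos_of_nonneg _ hr.le
        linarith
    rcases le_or_gt (x 0) 0 with h0 | h0
    · -- case 3
      have e : gquad (gInf c0) x v = q0 x v := by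
        have e1 : gquad (gInf c0) x v = gquad (polMet q0) x v := by
          unfold gquad gInf
          rw [if_pos h0]
        rw [e1, GPts_gquad_q0]
      rw [hgM k hk le_rfl hs, e, qL_far h h1 k Ψ U hn v]
      have hph := hc_phh h h1 k
      have he := hc_epsh hph.1 hph.2
      have hYs : 0 < Yr (sc k x) := by rw [sc_Yr]; positivity
      have hP1 := PhL_ge (X := (sc k x) 0) hph.1 hph.2 hYs (by rw [rad_eq_norm]; linarith)
      have hP2 := GPts_PhL_le (X := (sc k x) 0) hph.1 hph.2 hYs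
      rw [sc_Yr] at hP1 hP2
      obtain ⟨ha0, ha1⟩ := GPts_aa
      rw [sc_Yr]
      set P := rh k * PhL (phh c0 k) ((sc k x) 0) (Yr x / rh k) with hPdef
      have hPa : aa * Yr x ≤ P := by
        have := mul_le_mul_of_nonneg_left hP1 hr.le
        rw [show rh k * (aa * (Yr x / rh k)) = aa * Yr x by field_simp] at this
        exact this
      have hPb : P ≤ Yr x := by
        have := mul_le_mul_of_nonneg_left hP2 hr.le
        rw [show rh k * (Yr x / rh k) = Yr x by field_simp] at this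
        exact this
      have hP0 : 0 ≤ P := le_trans (by positivity) hPa
      have hw1 : aa * Ur x ≤ P * Ur x / Yr x := by
        rw [le_div_iff₀ hY]
        nlinarith [mul_le_mul_of_nonneg_right hPa hU0.le]
      have hw2 : P * Ur x / Yr x ≤ Ur x := by
        rw [div_le_iff₀ hY]
        nlinarith [mul_le_mul_of_nonneg_right hPb hU0.le]
      have hw0 : 0 ≤ P * Ur x / Yr x := by positivity
      obtain ⟨b1, b2⟩ := hΨ _ hw0
      set W := Ψ (P * Ur x / Yr x) with hW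
      have hW0 : 0 ≤ W := by linarith
      have c1 : (aa * Ur x / 2) ^ 2 ≤ W ^ 2 := pow_le_pow_left₀ (by positivity) (by linarith) 2
      have c2 : W ^ 2 ≤ (Ur x) ^ 2 := pow_le_pow_left₀ hW0 (by linarith) 2
      have c3 : (aa * Yr x) ^ 2 ≤ P ^ 2 := pow_le_pow_left₀ (by positivity) hPa 2
      have c4 : P ^ 2 ≤ (Yr x) ^ 2 := pow_le_pow_left₀ hP0 hPb 2
      unfold q0
      constructor
      · have d1 := mul_le_mul_of_nonneg_right c1 (sq_nonneg (wth x v))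
        have d2 := mul_le_mul_of_nonneg_right c3 (sq_nonneg (wal x v))
        linarith
      · have d1 := mul_le_mul_of_nonneg_right c2 (sq_nonneg (wth x v))
        have d2 := mul_le_mul_of_nonneg_right c4 (sq_nonneg (wal x v))
        have k1 : (1 : ℝ) ≤ (2 / aa) ^ 2 := by
          have h2 : (1 : ℝ) ≤ 2 / aa := by
            rw [le_div_iff₀ ha0]
            linarith
          nlinarith
        have k2 : (2 / aa) ^ 2 * ((aa * Yr x) ^ 2 * (wal x v) ^ 2) = 4 * ((Yr x) ^ 2 * (wal x v) ^ 2) := by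
          field_simp
          ring
        have k3 : (2 / aa) ^ 2 * ((aa * Ur x / 2) ^ 2 * (wth x v) ^ 2) = (Ur x) ^ 2 * (wth x v) ^ 2 := by
          field_simp
        have k4 : (v 0) ^ 2 + (wY x v) ^ 2 ≤ (2 / aa) ^ 2 * ((v 0) ^ 2 + (wY x v) ^ 2) :=
          le_mul_of_one_le_left (by positivity) k1
        have k5 : 0 ≤ (Yr x) ^ 2 * (wal x v) ^ 2 := by positivity
        calc _ ≤ (v 0) ^ 2 + (wY x v) ^ 2 + (Yr x) ^ 2 * (wal x v) ^ 2 + (Ur x) ^ 2 * (wth x v) ^ 2 := by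
              linarith
          _ ≤ (2 / aa) ^ 2 * ((v 0) ^ 2 + (wY x v) ^ 2) + 4 * ((Yr x) ^ 2 * (wal x v) ^ 2)
              + (Ur x) ^ 2 * (wth x v) ^ 2 := by linarith
          _ = _ := by rw [← k2, ← k3]; ring
    · -- case 2
      have hball := hB 0 (Finset.mem_range.2 (by omega))
      have hnx : 5 / 4 * xh (k + 1) ≤ ‖x‖ := by
        by_contra h2
        push Not at h2
        apply hball
        show x ∈ Metric.ball 0 (5 / 4 * xh (k + 1))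
        rw [mem_ball_zero_iff]
        exact h2
      rcases le_or_gt (rh k / 5) (Yr x) with hy | hy
      · -- product zone
        obtain ⟨m0, hm0, hm0x⟩ := exists_xh_lt h0
        -- `m ≥ k` with `11/16 xh m < x 0`
        have hm : 11 / 16 * xh (max m0 k) < x 0 := by
          have := hc_xh_anti (le_max_left m0 k)
          linarith
        have hm1 : 1 ≤ max m0 k := le_trans hm0 (le_max_left _ _)
        have hmk : k ≤ max m0 k := le_max_right _ _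
        generalize max m0 k = m at hm hm1 hmk
        have hs' := mem_Sl_idx hm1 x
        have hi := idx_pos m (x 0)
        have him := idx_le hm1 (x 0)
        have hki : k ≤ idx m (x 0) := by
          by_contra h2
          push Not at h2
          have h3 := hs'.1 (by omega)
          have h4 : xh k ≤ xh (idx m (x 0)) := hc_xh_anti h2.le
          linarith
        have e : gquad (gInf c0) x v = gquad (gM c0 m Ψ0 U0) x v := by
          unfold gquad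
          rw [gInf_eq h h1 hm1 hm hU]
        generalize idx m (x 0) = i at hs' hi him hki
        have hri := hc_rh_pos i
        have hrik : rh i ≤ rh k := by
          unfold rh
          have := hc_xh_anti hki
          linarith
        have hni : 1 ≤ ‖sc i x‖ := by
          rcases hki.eq_or_lt with h2 | h2
          · rw [← h2]; exact hn
          · have h3 : xh i ≤ xh (k + 1) := hc_xh_anti (by omega)
            have h4 : ‖x‖ ≤ ‖x - ctr i‖ + ‖ctr i‖ := by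
              have := norm_add_le (x - ctr i) (ctr i)
              rwa [sub_add_cancel] at this
            have h5 : ‖ctr i‖ = xh i := by
              unfold ctr
              rw [EuclideanSpace.norm_eq, Fin.sum_univ_four]
              have g0 : (v4 (xh i) 0 0 0) 0 = xh i := rfl
              have g1 : (v4 (xh i) 0 0 0) 1 = 0 := rfl
              have g2 : (v4 (xh i) 0 0 0) 2 = 0 := rfl
              have g3 : (v4 (xh i) 0 0 0) 3 = 0 := rfl
              rw [g0, g1, g2, g3]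
              simp only [Real.norm_eq_abs, sq_abs, norm_zero]
              rw [show xh i ^ 2 + 0 ^ 2 + 0 ^ 2 + 0 ^ 2 = xh i ^ 2 by ring,
                Real.sqrt_sq (hc_xh_pos i).le]
            have h6 : ‖sc i x‖ = ‖x - ctr i‖ / rh i := by
              show ‖(1 / rh i) • (x - ctr i)‖ = _
              rw [norm_smul, Real.norm_of_nonneg (by positivity)]
              ring
            rw [h6, le_div_iff₀ hri]
            have h7 := hc_xh_rh i
            have h8 := hc_xh_pos i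
            linarith
        rw [hgM k hk le_rfl hs, e, gM_gquad h h1 hi him Ψ0 U0 hs' hU v,
          prod_zone h h1 k Ψ U hU hn hy, prod_zone h h1 i Ψ0 U0 hU hni (by linarith)]
        have ha := GPts_aa.1
        exact hc_far hΨ (by positivity) (by positivity) (sq_nonneg _)
      · -- near the axis
        have e2 := hc_xh_succ k
        have hx0 : 9 / 16 * xh k ≤ x 0 := by
          by_contra h2
          push Not at h2
          have h3 := norm_sq_XY x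
          have h4 : (5 / 8 * xh k) ^ 2 ≤ ‖x‖ ^ 2 := by
            apply pow_le_pow_left₀ (by positivity)
            linarith
          have h5 : (x 0) ^ 2 ≤ (9 / 16 * xh k) ^ 2 := pow_le_pow_left₀ h0.le h2.le 2
          have h6 : (Yr x) ^ 2 ≤ (rh k / 5) ^ 2 := pow_le_pow_left₀ hY.le hy.le 2
          have h7 : rh k = xh k / 4096 := rfl
          rw [h7] at h6
          nlinarith [sq_nonneg (xh k), mul_pos hxk hxk]
        have hp : 11 / 16 * xh (k + 1) < x 0 := by rw [e2]; linarith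
        have hs2 : x ∈ Sl (k + 1) (k + 1) :=
          ⟨fun h2 => absurd h2 (lt_irrefl _), fun _ => by rw [e2]; linarith⟩
        have e : gquad (gInf c0) x v = gquad (gM c0 (k + 1) Ψ0 U0) x v := by
          unfold gquad
          rw [gInf_eq h h1 (by omega) hp hU]
        rw [hgM k hk le_rfl hs]
        refine hc_four (key k hk le_rfl) ?_
        rw [e, gM_gquad h h1 (by omega) le_rfl Ψ0 U0 hs2 hU v]
        exact tube_agree h h1 k Ψ0 U0 hU hx0 (by linarith) v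

end Pool.Agent.MP39e402
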