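import Pool.Agent.Lib.MP_39e402_gt.UHset

/-! # MP_39e402, module UHs: bad sets are disjoint; outside them both spaces have the same points

* `Bs 0 = ball 0 (5/8 xh k)`, `Bs i ⊆ ball (ctr i) (rh i * epsh/2)` (`Bs_sub`).
* `Bs_sets`: let `x` be in no bad set, `Ur x ≠ 0` (otherwise in neither space).
  - `x 0 > 11/16 xh k`: `UInf_iff`: `x ∈ UInf ↔ x ∈ UM c0 k 0`; with `i = idx k (x 0)`, `UM_iff`: compare `UL ph 0` and `UL ph a`:
    they differ by points with `Qm ∈ CapS a` (`PZ`, `rhoP ≤ a < 2ρ1`), `t1 < ‖Qm‖`, i.e. points of `Bs i`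
    (`CapS 0`: `rhoP ≤ 0` impossible for `tc > 0`, `GPts_not_Cap`).
  - `x 0 ≤ 11/16 xh k`: `x ∈ UM c0 k a` (slab `k`, `‖sc k x‖ ≥ 1280`), and `x ∈ UInf`: if `x 0 < Yr x` `gInf_near`; otherwise
    `0 < Yr x ≤ x 0`; all `‖x - ctr j‖ ≥ rh j` (`j ≤ k`: `|x 0 - xh j| ≥ 5/16 xh j`; `j > k`: `‖x‖ - xh j ≥ 1/4 xh j`), so
    `x ∈ freeS c0 ⊤ ⊆ UInf` (`freeS_UInf`).  (In fact `x ∈ freeS c0 ⊤` in all cases `x 0 ≤ 11/16 xh k`.) -/

open Real Set Filter Topology MeasureTheory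
open scoped ContDiff ENNReal

noncomputable section

namespace Pool.Agent.MP39e402

theorem xh_anti' {i j : ℕ} (h : i ≤ j) : xh j ≤ xh i := by
  unfold xh
  exact pow_le_pow_of_le_one (by norm_num) (by norm_num) h

theorem Bs_disj_aux {c0 ρ1 : ℝ} (h : 0 < c0) (h1 : c0 ≤ 1) {k : ℕ} {i j : ℕ} (hj : j ≤ k)
    (hij : i < j) : Disjoint (Bs c0 k ρ1 i) (Bs c0 k ρ1 j) := by
  rw [Set.disjoint_left]
  intro p hpi hpj
  have hj1 : 1 ≤ j := by omega
  obtain ⟨-, -, he, he1⟩ := GPts_phh h h1 j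
  have hsj : ‖sc j p‖ < epsh (phh c0 j) / 2 := Bs_sub h h1 hj1 hpj
  have hsj' : ‖sc j p‖ < 1 / 2 := by linarith
  rcases Nat.eq_zero_or_pos i with hi | hi
  · subst hi
    have hp0 : p ∈ Metric.ball (0 : EE 4) (5 / 4 * xh (k + 1)) := hpi
    rw [mem_ball_zero_iff, xh_succ] at hp0
    have h3 := abs_le.1 (GPts_abs_le j p)
    have h4 : rh j = xh j / 4096 := rfl
    have h5 : rh j * ‖sc j p‖ ≤ xh j / 4096 := by
      rw [h4]
      have := xh_pos j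
      nlinarith [norm_nonneg (sc j p)]
    have h6 : xh k ≤ xh j := xh_anti' hj
    have h7 : |p 0| ≤ ‖p‖ := by
      have := EuclideanSpace.norm_eq p
      exact (PiLp.norm_apply_le p 0)
    have h8 := le_abs_self (p 0)
    have h9 := xh_pos j
    have h10 := xh_pos k
    linarith [h3.1]
  · have h3 := GPts_far hij hsj'
    obtain ⟨-, -, hei, hei1⟩ := GPts_phh h h1 i
    have hsi : ‖sc i p‖ < epsh (phh c0 i) / 2 := Bs_sub h h1 hi hpi
    linarith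

theorem Bs_disj {c0 ρ1 : ℝ} (h : 0 < c0) (h1 : c0 ≤ 1) {k : ℕ} (hk : 1 ≤ k) {i j : ℕ} (hi : i ≤ k) (hj : j ≤ k)
    (hij : i ≠ j) : Disjoint (Bs c0 k ρ1 i) (Bs c0 k ρ1 j) := by
  rcases Nat.lt_or_gt_of_ne hij with h2 | h2
  · exact Bs_disj_aux h h1 hj h2
  · exact (Bs_disj_aux h h1 hi h2).symm

/-- points left of hole `k` outside the ball -/
theorem free_left {c0 : ℝ} (h : 0 < c0) (h1 : c0 ≤ 1) {k : ℕ} (hk : 1 ≤ k) {x : EE 4} (hU : Ur x ≠ 0)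
    (hx : x 0 ≤ 11 / 16 * xh k) (hxn : 5 / 4 * xh (k + 1) ≤ ‖x‖) : x ∈ freeS c0 ⊤ := by
  refine ⟨hU, fun i hi _ => ?_⟩
  obtain ⟨-, -, he, he1⟩ := GPts_phh h h1 i
  have hr := GPts_rh_pos i
  have hxi := xh_pos i
  have hri : rh i = xh i / 4096 := rfl
  have h2 : rh i * (epsh (phh c0 i) / 2) ≤ xh i / 4096 := by
    rw [hri]
    have : epsh (phh c0 i) / 2 ≤ 1 := by linarith
    nlinarith
  refine h2.trans ?_
  rcases Nat.lt_or_ge k i with hki | hki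
  · -- `i > k`
    have h3 : xh i ≤ xh (k + 1) := xh_anti' hki
    have h4 : ‖ctr i‖ ≤ xh i := by
      have h5 : ‖ctr i‖ ^ 2 = xh i ^ 2 := by
        unfold ctr
        rw [VClass_normsq]
        simp [v4]
      nlinarith [norm_nonneg (ctr i)]
    have h5 : ‖x‖ - ‖ctr i‖ ≤ ‖x - ctr i‖ := norm_sub_norm_le x (ctr i)
    linarith
  · have h3 : xh k ≤ xh i := xh_anti' hki
    have h4 : |(x - ctr i) 0| ≤ ‖x - ctr i‖ := PiLp.norm_apply_le (x - ctr i) 0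
    have h5 : (x - ctr i) 0 = x 0 - xh i := by
      unfold ctr
      simp [v4]
    rw [h5] at h4
    have h6 := neg_le_abs (x 0 - xh i)
    linarith

theorem Bs_sets {c0 ρ1 a : ℝ} (h : 0 < c0) (h1 : c0 ≤ 1) {k : ℕ} (hk : 1 ≤ k) (ha : 0 ≤ a) (ha1 : a < 2 * ρ1)
    {x : EE 4} (hx : ∀ j ∈ Finset.range (k + 1), x ∉ Bs c0 k ρ1 j) : x ∈ UM c0 k a ↔ x ∈ UInf c0 := by
  by_cases hU : Ur x = 0
  · exact ⟨fun h2 => absurd hU (UM_Ur h2), fun h2 => absurd hU (UInf_Ur h2)⟩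
  rcases lt_or_ge (11 / 16 * xh k) (x 0) with hx0 | hx0
  · have hi := idx_pos k (x 0)
    have hik := idx_le hk (x 0)
    have hSl := mem_Sl_idx hk x
    rw [UInf_iff h h1 hk hx0, UM_iff h h1 hi hik a hSl, UM_iff h h1 hi hik 0 hSl]
    set i := idx k (x 0) with hidef
    obtain ⟨hp, hp1, he, he1⟩ := GPts_phh h h1 i
    have hs : 0 < epsh (phh c0 i) * sC := mul_pos he GPts_sC_pos
    have hB : x ∉ Bs c0 k ρ1 i := hx i (Finset.mem_range.2 (by omega))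
    rw [mem_Bs hi] at hB
    have hsU : Ur (sc i x) ≠ 0 := GPts_sc_Ur_ne.2 hU
    have key : ∀ b : ℝ, b < 2 * ρ1 → epsh (phh c0 i) * sC * t1C < ‖sc i x‖ →
        ¬ (‖sc i x‖ < epsh (phh c0 i) / 2 ∧ Qm (epsh (phh c0 i)) (sc i x) ∈ CapS b) := by
      rintro b hb h3 ⟨-, h5⟩
      apply hB
      have hne : sc i x ≠ 0 := by
        intro h0
        rw [h0, norm_zero] at h3
        have ht := isCoreC.t1_pos
        have := mul_pos hs (show 0 < t1C from ht)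
        linarith
      refine ⟨?_, h5.1, lt_of_le_of_lt h5.2 hb⟩
      unfold xco
      rw [Qm_norm he hne, lt_div_iff₀ hs]
      linarith
    constructor
    · rintro ⟨h3, h4, -⟩
      exact ⟨h3, h4, key 0 (by linarith) h4⟩
    · rintro ⟨h3, h4, -⟩
      exact ⟨h3, h4, key a ha1 h4⟩
  · have hB : x ∉ Bs c0 k ρ1 0 := hx 0 (Finset.mem_range.2 (by omega))
    have hn : 5 / 4 * xh (k + 1) ≤ ‖x‖ := by
      by_contra hcon
      exact hB (show x ∈ Metric.ball (0 : EE 4) (5 / 4 * xh (k + 1)) from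
        mem_ball_zero_iff.2 (not_le.1 hcon))
    have hf := free_left h h1 hk hU hx0 hn
    have hfk : x ∈ freeS c0 k := ⟨hf.1, fun i hi _ => hf.2 i hi le_top⟩
    exact ⟨fun _ => freeS_UInf h h1 hf, fun _ => freeS_UM h h1 hk hfk⟩

end Pool.Agent.MP39e402
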