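import Pool.Agent.Lib.MP_39e402_gt.MConv
import Pool.Agent.Lib.MP_39e402_gt.UHBall
import Pool.Agent.Lib.MP_39e402_gt.UHcap
import Pool.Agent.Lib.MP_39e402_gt.UHcmp
import Pool.Agent.Lib.MP_39e402_gt.UHs

/-! # MP_39e402, module GHol: comparison of the approximating patches with the limit patch (assembly) -/

open Real Set Filter Topology MeasureTheory
open scoped ContDiff ENNReal

noncomputable section

namespace Pool.Agent.MP39e402

def ηs (k : ℕ) (ρ1 : ℝ) : ℕ → ℝ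
  | 0 => 100 * xh k
  | _ + 1 => 20 * ρ1

theorem Bs0_frontier {c0 ρ1 : ℝ} {k : ℕ} {x : EE 4} (hx : x ∈ frontier (Bs c0 k ρ1 0)) :
    ‖x‖ = 5 / 4 * xh (k + 1) := by
  have h1 : (5 / 4 * xh (k + 1) : ℝ) ≠ 0 := by have := xh_pos (k + 1); positivity
  have h2 : frontier (Bs c0 k ρ1 0) = Metric.sphere (0 : EE 4) (5 / 4 * xh (k + 1)) := by
    show frontier (Metric.ball (0 : EE 4) (5 / 4 * xh (k + 1))) = _
    exact frontier_ball 0 h1
  rw [h2] at hx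
  simpa using hx

theorem mem_Bs0_frontier {c0 ρ1 : ℝ} {k : ℕ} {x : EE 4} (hx : ‖x‖ = 5 / 4 * xh (k + 1)) :
    x ∈ frontier (Bs c0 k ρ1 0) := by
  have h1 : (5 / 4 * xh (k + 1) : ℝ) ≠ 0 := by have := xh_pos (k + 1); positivity
  show x ∈ frontier (Metric.ball (0 : EE 4) (5 / 4 * xh (k + 1)))
  rw [frontier_ball 0 h1]
  simpa using hx

/-- a frontier point of a bad set is in no bad set -/
theorem Bs_frontier_good {c0 ρ1 : ℝ} (h : 0 < c0) (h1 : c0 ≤ 1) {k : ℕ} (hk : 1 ≤ k) {j : ℕ} (hj : j ≤ k)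
    {x : EE 4} (hx : x ∈ frontier (Bs c0 k ρ1 j)) : ∀ i ∈ Finset.range (k + 1), x ∉ Bs c0 k ρ1 i := by
  intro i hi hxi
  have hi' : i ≤ k := by simpa [Nat.lt_succ_iff] using hi
  by_cases hij : j = i
  · subst hij
    rw [(Bs_open h h1 k j).frontier_eq] at hx
    exact hx.2 hxi
  · have hc : x ∈ closure (Bs c0 k ρ1 j) := frontier_subset_closure hx
    obtain ⟨z, hz1, hz2⟩ := mem_closure_iff.1 hc _ (Bs_open h h1 k i) hxi
    exact Set.disjoint_left.1 (Bs_disj h h1 hk hj hi' hij) hz2 hz1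

theorem holes_data {c0 ρ1 a ε δ : ℝ} {k : ℕ} {Ψ U : ℝ → ℝ} (h : 0 < c0) (h1 : c0 ≤ 1) (hk : 1 ≤ k)
    (H : Par ρ1 a ε δ Ψ U) (hδ : ∀ i, 1 ≤ i → i ≤ k → δ ≤ dbd c0 i) (hρ : 4 * ρ1 ≤ sin taC) :
    Holes (PInf h h1) (PM h h1 hk (Or.inl ⟨ρ1, ε, δ, H, hδ⟩)) (2 / aa) (Finset.range (k + 1)) (Bs c0 k ρ1)
      (ηs k ρ1) := by
  have ha := H.cap.a_pos
  have ha1 := H.cap.a_lt
  have hρ0 : 0 < ρ1 := by linarith
  have hxk := xh_pos k
  have hG : GAdm c0 k a Ψ U := Or.inl ⟨ρ1, ε, δ, H, hδ⟩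
  have hΨ : ∀ w, 0 ≤ w → 0 ≤ Ψ w ∧ Ψ w ≤ w := fun w hw =>
    ⟨le_trans (by positivity) (H.edge.lb w hw), H.edge.ub w hw⟩
  have hFI := freeBd_Inf h h1
  have hFM := freeBd_M h h1 hk hG hΨ
  have hset : ∀ x, (∀ j ∈ Finset.range (k + 1), x ∉ Bs c0 k ρ1 j) → (x ∈ UM c0 k a ↔ x ∈ UInf c0) :=
    fun x hx => Bs_sets h h1 hk ha.le (by linarith) hx
  have hle : ∀ {j : ℕ}, j ∈ Finset.range (k + 1) → j ≤ k := fun hj => by
    simpa [Nat.lt_succ_iff] using hj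
  refine
    { op := fun j _ => Bs_open h h1 k j
      disj := fun i hi j hj hij => Bs_disj h h1 hk (hle hi) (hle hj) hij
      nonneg := fun j _ => ?_
      sets := hset
      lower := fun x hx hB v => (form_cmp h h1 hk H hx hB v).1
      upper := fun x hx hB v => (form_cmp h h1 hk H hx hB v).2
      frP := ?_
      frQ := ?_
      inQ := ?_
      inP := ?_ }
  · cases j with
    | zero => show 0 ≤ 100 * xh k; positivity
    | succ j => show 0 ≤ 20 * ρ1; positivity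
  · intro j hj x hx y hy
    cases j with
    | zero =>
      exact hFI.ball_fr h h1 hk (UInf_Ur hx.1) (UInf_Ur hy.1) (Bs0_frontier hx.2) (Bs0_frontier hy.2)
    | succ j => exact cap_frP h h1 hρ0 hρ (Nat.succ_pos j) hx hy
  · intro j hj x hx y hy
    have hxM : x ∈ UM c0 k a := (hset x (Bs_frontier_good h h1 hk (hle hj) hx.2)).2 hx.1
    have hyM : y ∈ UM c0 k a := (hset y (Bs_frontier_good h h1 hk (hle hj) hy.2)).2 hy.1
    cases j with
    | zero =>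
      exact hFM.ball_fr h h1 hk (UM_Ur hxM) (UM_Ur hyM) (Bs0_frontier hx.2) (Bs0_frontier hy.2)
    | succ j => exact cap_frQ h h1 H hδ hρ (Nat.succ_pos j) (hle hj) ⟨hxM, hx.2⟩ ⟨hyM, hy.2⟩
  · intro j hj x hx
    cases j with
    | zero =>
      have hxM : x ∈ UM c0 k a := hx.1
      have hxb : x ∈ Metric.ball (0 : EE 4) (5 / 4 * xh (k + 1)) := hx.2
      have hxn : ‖x‖ < 5 / 4 * xh (k + 1) := by simpa using hxb
      have hxf := free_of_ball_M h h1 hk (UM_Ur hxM) hxn.le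
      obtain ⟨y, hy, hyn, hyd⟩ := hFM.ball_in h h1 hk hxf hxn
      refine ⟨y, ⟨hy, mem_Bs0_frontier hyn⟩, hyd.trans (ENNReal.ofReal_le_ofReal ?_)⟩
      show xh k ≤ 100 * xh k
      linarith
    | succ j => exact cap_inQ h h1 H hδ hρ (Nat.succ_pos j) (hle hj) hx
  · intro j hj x hx
    cases j with
    | zero =>
      have hxI : x ∈ UInf c0 := hx.1
      have hxb : x ∈ Metric.ball (0 : EE 4) (5 / 4 * xh (k + 1)) := hx.2
      have hxn : ‖x‖ < 5 / 4 * xh (k + 1) := by simpa using hxb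
      obtain ⟨y, hy, hyn, hyd⟩ := ball_inInf h h1 hk hxI hxn
      exact ⟨y, ⟨hy, mem_Bs0_frontier hyn⟩, hyd⟩
    | succ j => exact cap_inP h h1 hρ0 hρ (Nat.succ_pos j) hx

end Pool.Agent.MP39e402
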