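import Pool.Agent.Lib.MP_39e402_gt.LCap
import Pool.Agent.Lib.MP_39e402_gt.MNeglDist
import Pool.Agent.Lib.MP_39e402_gt.R.Pull4
import Pool.Agent.Lib.MP_39e402_gt.UGm

/-! # MP_39e402, module GRicT: transfer of Ricci bounds, choice of the parameters.

* `LIso.ricGE`: naturality (R/Pull4) on `V \ T`, then density of `V \ T` in `V` and continuity of `ricquad h · v`, `gquad h · v`.
* `ricGE_gM`: in the slab `i` `gM = (polMet qL) ∘ sc i`, i.e. `gquad (gM) p v = r² gquad (polMet qL) (sc i p) (v/r)`.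
* `exists_params`: `c0 = min 1 (min p0 (1/C))` (so `phh c0 i ≤ p0`, `C phh c0 i ≤ (rh i)²`), `η_i = 2 (rh i)²`, `ε` the minimum
  of the `ε0 (phh c0 i)`, `i ≤ k`, and `1`; `δ` small; `IsEdge.scale` for `scΨ (rh i) Ψ`. -/

open Real Set Filter Topology MeasureTheory
open scoped ContDiff

noncomputable section

namespace Pool.Agent.MP39e402

theorem LIso.ricGE {U V T : Set (EE 4)} {g h : RMetric 4} {Φ : EE 4 → EE 4} (H : LIso U g V h T Φ)
    (hg : IsRMetricOn g U) {κ : ℝ} (hR : RicGE g U κ) : RicGE h V κ := by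
  have hop : IsOpen (V \ T) := H.met.isOpen.sdiff H.negl.closed
  have hm : IsRMetricOn h (V \ T) := H.met.mono sdiff_subset hop
  refine RR.ricGE_of_dense H.met sdiff_subset (H.negl.subset_closure H.met.isOpen) ?_
  intro x hx v
  rw [RR.ricquad_pullback hg hm H.smooth H.maps (fun x hx v => (H.isom x hx v).symm) hx, ← H.isom x hx v]
  exact hR _ (H.maps hx) _

theorem sc_hasFDerivAt (i : ℕ) (x : EE 4) :
    HasFDerivAt (sc i) ((1 / rh i) • ContinuousLinearMap.id ℝ (EE 4)) x := by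
  unfold sc
  exact ((hasFDerivAt_id x).sub_const _).const_smul (1 / rh i)

theorem rh_le_one (i : ℕ) : rh i ≤ 1 := by
  unfold rh xh
  have : (1 / 2 : ℝ) ^ i ≤ 1 := pow_le_one₀ (by norm_num) (by norm_num)
  linarith

theorem ricGE_gM {c0 a : ℝ} {k : ℕ} {Ψ U : ℝ → ℝ} (h : 0 < c0) (h1 : c0 ≤ 1) (hk : 1 ≤ k)
    (H : GAdm c0 k a Ψ U)
    (hR : ∀ i, 1 ≤ i → i ≤ k →
      RicGE (polMet (qL (phh c0 i) (scΨ (rh i) Ψ) U)) (UL (phh c0 i) a) (-(3 * rh i ^ 2))) :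
    RicGE (gM c0 k Ψ U) (UM c0 k a) (-3) := by
  intro p hp
  have hi1 := idx_pos k (p 0)
  have hik := idx_le hk (p 0)
  obtain ⟨i, hi⟩ : ∃ i, i = idx k (p 0) := ⟨_, rfl⟩
  rw [← hi] at hi1 hik
  have hpS : p ∈ Sl k i := by
    rw [hi]
    exact mem_Sl_idx hk p
  have hr := rh_pos i
  have hgM := gM_met h h1 hk H
  have hop : IsOpen (UM c0 k a ∩ Sl k i) := hgM.isOpen.inter (Sl_isOpen k i)
  have hm : IsRMetricOn (gM c0 k Ψ U) (UM c0 k a ∩ Sl k i) := hgM.mono inter_subset_left hop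
  have hph := phh_pos h i
  have hph1 : phh c0 i ≤ 1 / 2 := (phh_le h h1 i).trans (by
    have : c0 / 10 ^ 6 ≤ 1 / 10 ^ 6 := by gcongr
    refine this.trans ?_
    norm_num)
  have hL := qL_met hph hph1 (H.hadm h h1 hi1 hik)
  have hL2 := RR.isRMetricOn_smul (c := rh i ^ 2) (by positivity) hL
  have hR2 : RicGE (fun y => rh i ^ 2 • polMet (qL (phh c0 i) (scΨ (rh i) Ψ) U) y) (UL (phh c0 i) a) (-3) := by
    have e : (-3 : ℝ) = (-(3 * rh i ^ 2)) / rh i ^ 2 := by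
      field_simp
    rw [e, RR.ricGE_smul (by positivity)]
    exact hR i hi1 hik
  have hmaps : MapsTo (sc i) (UM c0 k a ∩ Sl k i) (UL (phh c0 i) a) := fun x hx =>
    (UM_iff h h1 hi1 hik a hx.2).1 hx.1
  have hiso : ∀ x ∈ UM c0 k a ∩ Sl k i, ∀ v, gquad (gM c0 k Ψ U) x v
      = gquad (fun y => rh i ^ 2 • polMet (qL (phh c0 i) (scΨ (rh i) Ψ) U) y) (sc i x)
        (fderiv ℝ (sc i) x v) := by
    intro x hx v
    have hU : Ur x ≠ 0 := by
      have := hx.1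
      intro h0
      have h2 : Ur (sc (idx k (x 0)) x) ≠ 0 := this.1
      apply h2
      unfold Ur at h0 ⊢
      have h3 : (x 2) ^ 2 + (x 3) ^ 2 = 0 := by
        have := Real.sqrt_eq_zero (by positivity : 0 ≤ x 2 ^ 2 + x 3 ^ 2)
        exact this.1 h0
      have h4 : x 2 = 0 := by nlinarith [sq_nonneg (x 2), sq_nonneg (x 3)]
      have h5 : x 3 = 0 := by nlinarith [sq_nonneg (x 2), sq_nonneg (x 3)]
      simp [sc, v4, h4, h5]
    rw [(sc_hasFDerivAt i x).fderiv]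
    have e1 : gquad (gM c0 k Ψ U) x v
        = gquad (polMet (qL (phh c0 i) (scΨ (rh i) Ψ) U)) (sc i x) v := by
      unfold gquad
      rw [gM_eq h h1 hi1 hik Ψ U hx.2 hU]
    rw [e1, RR.gquad_smul]
    have e2 : ((1 / rh i) • ContinuousLinearMap.id ℝ (EE 4)) v = (1 / rh i) • v := rfl
    rw [e2, gquad_smul]
    have e3 : rh i ^ 2 * ((1 / rh i) ^ 2 *
        gquad (polMet (qL (phh c0 i) (scΨ (rh i) Ψ) U)) (sc i x) v)
        = gquad (polMet (qL (phh c0 i) (scΨ (rh i) Ψ) U)) (sc i x) v := by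
      field_simp
    rw [e3]
  have hsm : ContDiffOn ℝ ∞ (sc i) (UM c0 k a ∩ Sl k i) := by
    have : ContDiff ℝ ∞ (fun p : EE 4 => (1 / rh i) • (p - v4 (xh i) 0 0 0)) :=
      (contDiff_id.sub contDiff_const).const_smul (1 / rh i)
    exact this.contDiffOn
  intro v
  have hpO : p ∈ UM c0 k a ∩ Sl k i := ⟨hp, hpS⟩
  rw [RR.ricquad_pullback hL2 hm hsm hmaps hiso hpO v, hiso p hpO v]
  exact hR2 _ (hmaps hpO) _

/-- Ricci bound for the one-hole metric (statement; proof: module of helper39) -/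
def RicOneHole : Prop :=
  ∃ C p0 : ℝ, 0 < C ∧ 0 < p0 ∧ p0 ≤ 1 / 2 ∧ ∀ ph : ℝ, 0 < ph → ph ≤ p0 → ∀ η > 0, ∃ ε0 > 0,
    ∀ (ρ1 a ε δ : ℝ) (Ψ U : ℝ → ℝ), Par ρ1 a ε δ Ψ U → ε ≤ ε0 → δ ≤ ε0 →
      δ ≤ epsh ph * sC * (sin taC / 2) →
      RicGE (polMet (qL ph Ψ U)) (UL ph a) (-(C * ph + η))

/-- a positive lower bound for finitely many positive numbers -/
theorem exists_pos_lower (f : ℕ → ℝ) (k : ℕ) (hf : ∀ i, 1 ≤ i → i ≤ k → 0 < f i) {b : ℝ} (hb : 0 < b) :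
    ∃ d : ℝ, 0 < d ∧ d ≤ b ∧ ∀ i, 1 ≤ i → i ≤ k → d ≤ f i := by
  induction k with
  | zero => exact ⟨b, hb, le_rfl, fun i h1 h2 => by omega⟩
  | succ k ih =>
    obtain ⟨d, hd, hdb, hdi⟩ := ih (fun i h1 h2 => hf i h1 (by omega))
    refine ⟨min d (f (k + 1)), lt_min hd (hf (k + 1) (by omega) le_rfl), (min_le_left _ _).trans hdb, ?_⟩
    intro i h1 h2
    rcases Nat.lt_or_ge k i with h3 | h3
    · have : i = k + 1 := by omega
      rw [this]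
      exact min_le_right _ _
    · exact (min_le_left _ _).trans (hdi i h1 h3)

theorem dbd_pos {c0 : ℝ} (h : 0 < c0) (i : ℕ) : 0 < dbd c0 i := by
  unfold dbd
  have h1 := rh_pos i
  have h2 := epsh_pos (phh_pos h i)
  have h3 := sC_pos
  have h4 := sin_taC_pos
  positivity

theorem exists_params (hR : RicOneHole) : ∃ c0 : ℝ, 0 < c0 ∧ c0 ≤ 1 ∧ ∀ k : ℕ, 1 ≤ k → ∀ η > 0,
    ∃ (ρ1 a ε δ : ℝ) (Ψ U : ℝ → ℝ), Par ρ1 a ε δ Ψ U ∧ (∀ i, 1 ≤ i → i ≤ k → δ ≤ dbd c0 i) ∧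
      4 * ρ1 ≤ sin taC ∧ ρ1 ≤ η ∧ δ ≤ η ∧ RicGE (gM c0 k Ψ U) (UM c0 k a) (-3) := by
  obtain ⟨C, p0, hC, hp0, hp01, hmain⟩ := hR
  obtain ⟨c0, hc0⟩ : ∃ c0, c0 = min 1 (min p0 (1 / C)) := ⟨_, rfl⟩
  have h : 0 < c0 := by
    rw [hc0]
    exact lt_min one_pos (lt_min hp0 (by positivity))
  have h1 : c0 ≤ 1 := by
    rw [hc0]
    exact min_le_left _ _
  have h2 : c0 ≤ p0 := by
    rw [hc0]
    exact (min_le_right _ _).trans (min_le_left _ _)
  have h3 : C * c0 ≤ 1 := by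
    have : c0 ≤ 1 / C := by
      rw [hc0]
      exact (min_le_right _ _).trans (min_le_right _ _)
    calc C * c0 ≤ C * (1 / C) := by gcongr
      _ = 1 := by field_simp
  refine ⟨c0, h, h1, fun k hk η hη => ?_⟩
  have hphp : ∀ i, phh c0 i ≤ p0 := fun i => by
    have e1 := phh_le h h1 i
    have e2 : c0 / 10 ^ 6 ≤ c0 := div_le_self h.le (by norm_num)
    linarith
  choose! f hf0 hf using fun i : ℕ => hmain (phh c0 i) (phh_pos h i) (hphp i) (2 * rh i ^ 2)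
    (by have := rh_pos i; positivity)
  obtain ⟨ε, hε, hε1, hεi⟩ := exists_pos_lower f k (fun i _ _ => hf0 i) one_pos
  obtain ⟨δ, hδ, hδη, hδi'⟩ := exists_pos_lower (fun i => min (dbd c0 i) (rh i * f i)) k
    (fun i _ _ => lt_min (dbd_pos h i) (mul_pos (rh_pos i) (hf0 i))) hη
  have hδi : ∀ i, 1 ≤ i → i ≤ k → δ ≤ dbd c0 i := fun i h1 h2 => (hδi' i h1 h2).trans (min_le_left _ _)
  have hδf : ∀ i, 1 ≤ i → i ≤ k → δ ≤ rh i * f i := fun i h1 h2 => (hδi' i h1 h2).trans (min_le_right _ _)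
  have hs := sin_taC_pos
  obtain ⟨ρ1, hρ⟩ : ∃ ρ1, ρ1 = min (1 / 10) (min (sin taC / 4) η) := ⟨_, rfl⟩
  have hρ0 : 0 < ρ1 := by
    rw [hρ]
    exact lt_min (by norm_num) (lt_min (by positivity) hη)
  have hρ1 : ρ1 ≤ 1 / 10 := by
    rw [hρ]
    exact min_le_left _ _
  have hρ2 : ρ1 ≤ sin taC / 4 := by
    rw [hρ]
    exact (min_le_right _ _).trans (min_le_left _ _)
  have hρ3 : ρ1 ≤ η := by
    rw [hρ]
    exact (min_le_right _ _).trans (min_le_right _ _)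
  obtain ⟨Ψ, hΨ⟩ := edge_exists hε hε1 hδ
  obtain ⟨a, U, hU⟩ := cap_exists hρ0 hρ1
  have hP : Par ρ1 a ε δ Ψ U := ⟨hΨ, hε, hε1, hU, by linarith, by linarith⟩
  refine ⟨ρ1, a, ε, δ, Ψ, U, hP, hδi, by linarith, hρ3, hδη, ?_⟩
  refine ricGE_gM h h1 hk (Or.inl ⟨ρ1, ε, δ, hP, hδi⟩) ?_
  intro i hi hik
  have hr := rh_pos i
  have hPi : Par ρ1 a ε (δ / rh i) (scΨ (rh i) Ψ) U :=
    ⟨hΨ.scale hr (rh_le_one i) hε.le, hε, hε1, hU, by linarith, by linarith⟩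
  have hδ' : δ / rh i ≤ epsh (phh c0 i) * sC * (sin taC / 2) := by
    rw [div_le_iff₀ hr]
    have := hδi i hi hik
    unfold dbd at this
    linarith
  have hδ'' : δ / rh i ≤ f i := by
    rw [div_le_iff₀ hr]
    have := hδf i hi hik
    linarith
  have hRi := hf i ρ1 a ε (δ / rh i) (scΨ (rh i) Ψ) U hPi (hεi i hi hik) hδ'' hδ'
  have hph1 : phh c0 i ≤ 1 / 2 := (hphp i).trans hp01
  have hmet := qL_met (phh_pos h i) hph1 (Or.inl ⟨ρ1, ε, δ / rh i, hPi, hδ'⟩ : HAdm (phh c0 i) a (scΨ (rh i) Ψ) U)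
  refine RR.RicGE.mono hRi subset_rfl (fun x hx v => gquad_nonneg hmet hx v) ?_
  have e1 : C * phh c0 i = (C * c0) * rh i ^ 2 := by
    unfold phh
    ring
  have e2 : (C * c0) * rh i ^ 2 ≤ 1 * rh i ^ 2 := by gcongr
  rw [e1]
  linarith

end Pool.Agent.MP39e402
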