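import Pool.Agent.Lib.MP_39e402_gt.MChart

/-!
# Part M, module MCrit: when is the completion of a patch a Riemannian manifold with `Ric ≥ κ`

`comp_length`: for points of the patch take a path of length `< dist + ε` and its midpoint (by the
intermediate value theorem for `t ↦ plenI P.g γ 0 t`, `continuousOn_plenI`, `plenI_add`,
`redist_le_plenI` on the two halves); general points by density
(`UniformSpace.Completion.induction_on₂`, or `Patch.exists_seq_tendsto`).

`isRiemannianRicGE_comp`: let `p : P.Comp`, `y_j ∈ P.Pt` a Cauchy sequence converging to `p`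
(`Patch.exists_seq_tendsto`); take the chart of `H y`, `Φ'` from `LocIso.exists_extension`; then
`Φ' x₀ = lim Φ' (x_j) = lim y (φ j) = p`; apply `LocIso.chart`.

`trivial_chart`: `V = P.U`, `h = P.g`, `T = ∅`, `Φ = id`.
-/

open Set Filter Topology MeasureTheory
open scoped ENNReal NNReal ContDiff BigOperators

noncomputable section

namespace Pool.Agent.MP39e402

variable {n : ℕ}

/-- almost midpoints of two points of the patch -/
theorem Patch.pt_length (P : Patch n) (a b : P.Pt) {δ : ℝ} (hδ : 0 < δ) :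
    ∃ c : P.Pt, dist a c ≤ dist a b / 2 + δ ∧ dist c b ≤ dist a b / 2 + δ := by
  have hlt : redist P.U P.g a.val b.val < ENNReal.ofReal (dist a b + δ) :=
    (P.dist_lt_iff a b).1 (by linarith)
  obtain ⟨γ, hγ, hlen⟩ := exists_isPath_lt hlt
  obtain ⟨hC1, hU, h0, h1⟩ := hγ
  have hcont := continuousOn_plenI P.met (W := univ) isOpen_univ hC1.contDiffOn
    (zero_le_one' ℝ) (subset_univ _) hU
  have hzero : plenI P.g γ 0 0 = 0 := by simp [plenI]
  have hnn : 0 ≤ plen P.g γ := plenI_nonneg P.g γ zero_le_one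
  have hmem : plen P.g γ / 2 ∈ Icc (plenI P.g γ 0 0) (plenI P.g γ 0 1) := by
    rw [hzero]
    constructor
    · linarith
    · show plen P.g γ / 2 ≤ plen P.g γ
      linarith
  obtain ⟨s, hs, hsl⟩ := intermediate_value_Icc (zero_le_one' ℝ) hcont hmem
  have hsl' : plenI P.g γ 0 s = plen P.g γ / 2 := hsl
  have hadd := plenI_add P.met (W := univ) isOpen_univ hC1.contDiffOn hs.1 hs.2
    (subset_univ _) hU
  have hrest : plenI P.g γ s 1 = plen P.g γ / 2 := by
    have : plenI P.g γ 0 1 = plen P.g γ := rfl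
    rw [hsl', this] at hadd
    linarith
  refine ⟨⟨γ s, hU s hs⟩, ?_, ?_⟩
  · have h := redist_le_plenI P.met (W := univ) hs.1 isOpen_univ (subset_univ _)
      hC1.contDiffOn (fun t ht => hU t ⟨ht.1, ht.2.trans hs.2⟩)
    rw [h0, hsl'] at h
    have h' : dist a (⟨γ s, hU s hs⟩ : P.Pt) ≤ plen P.g γ / 2 := by
      rw [P.dist_eq]
      exact ENNReal.toReal_le_of_le_ofReal (by linarith) h
    linarith
  · have h := redist_le_plenI P.met (W := univ) hs.2 isOpen_univ (subset_univ _)
      hC1.contDiffOn (fun t ht => hU t ⟨hs.1.trans ht.1, ht.2⟩)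
    rw [h1, hrest] at h
    have h' : dist (⟨γ s, hU s hs⟩ : P.Pt) b ≤ plen P.g γ / 2 := by
      rw [P.dist_eq]
      exact ENNReal.toReal_le_of_le_ofReal (by linarith) h
    linarith

theorem Patch.exists_pt_dist_lt (P : Patch n) (x : P.Comp) {ε : ℝ} (hε : 0 < ε) :
    ∃ a : P.Pt, dist x (a : P.Comp) < ε := by
  obtain ⟨y, -, hy⟩ := P.exists_seq_tendsto x
  obtain ⟨N, hN⟩ := (Metric.tendsto_atTop.1 hy) ε hε
  exact ⟨y N, by rw [dist_comm]; exact hN N le_rfl⟩

theorem Patch.comp_length (P : Patch n) (x y : P.Comp) {ε : ℝ} (hε : 0 < ε) :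
    ∃ z, dist x z ≤ dist x y / 2 + ε ∧ dist z y ≤ dist x y / 2 + ε := by
  obtain ⟨a, ha⟩ := P.exists_pt_dist_lt x (show 0 < ε / 4 by linarith)
  obtain ⟨b, hb⟩ := P.exists_pt_dist_lt y (show 0 < ε / 4 by linarith)
  obtain ⟨c, hac, hcb⟩ := P.pt_length a b (show 0 < ε / 4 by linarith)
  have hab : dist a b ≤ dist x y + ε / 2 := by
    rw [← UniformSpace.Completion.dist_eq]
    have h1 := dist_triangle (a : P.Comp) x (b : P.Comp)
    have h2 := dist_triangle x y (b : P.Comp)
    rw [dist_comm (a : P.Comp) x] at h1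
    linarith
  refine ⟨(c : P.Comp), ?_, ?_⟩
  · have h1 := dist_triangle x (a : P.Comp) (c : P.Comp)
    rw [UniformSpace.Completion.dist_eq] at h1
    linarith
  · have h1 := dist_triangle (c : P.Comp) (b : P.Comp) y
    rw [UniformSpace.Completion.dist_eq, dist_comm (b : P.Comp) y] at h1
    linarith

theorem isRiemannianRicGE_comp (P : Patch n) (κ : ℝ)
    (H : ∀ y : ℕ → P.Pt, CauchySeq y → ChartConv P κ y) : IsRiemannianRicGE n κ P.Comp := by
  refine ⟨inferInstance, fun x y ε hε => P.comp_length x y hε, ?_⟩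
  intro p
  obtain ⟨y, hyc, hyp⟩ := P.exists_seq_tendsto p
  obtain ⟨V, h, T, Φ, HL, hinj, hric, x₀, hx₀, x, φ, hφ, hxV, hxlim, hxy⟩ := H y hyc
  obtain ⟨Φ', h1, h2⟩ := HL.exists_extension ⟨x₀, hx₀⟩
  have hp : Φ' x₀ = p := by
    have hlim1 : Tendsto (fun j => Φ' (x j)) atTop (𝓝 p) := by
      have : (fun j => Φ' (x j)) = fun j => ((y (φ j) : P.Pt) : P.Comp) := by
        funext j
        rw [h1 (x j) (hxV j)]
        congr 1
        have hval : (⟨Φ (x j), HL.maps (hxV j)⟩ : P.Pt).val = (y (φ j)).val := hxy j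
        generalize hq : y (φ j) = q at hval ⊢
        cases q
        simp only at hval
        subst hval
        rfl
      rw [this]
      exact hyp.comp hφ.tendsto_atTop
    have hlim2 : Tendsto (fun j => Φ' (x j)) atTop (𝓝 (Φ' x₀)) := by
      rw [tendsto_iff_edist_tendsto_0]
      have t : Tendsto (fun j => redist V h (x j) x₀) atTop (𝓝 0) :=
        (tendsto_redist_iff HL.met hx₀ (f := x)).2 hxlim
      exact tendsto_of_tendsto_of_tendsto_of_le_of_le tendsto_const_nhds t
        (fun j => zero_le) (fun j => h2 (x j) (hxV j).1 x₀ hx₀)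
    exact tendsto_nhds_unique hlim2 hlim1
  obtain ⟨r, hr, hbij, hform⟩ := HL.chart hinj hx₀ h1 h2
  rw [hp] at hbij
  exact ⟨V, h, Φ', x₀, r, hr, HL.met, hric, hx₀, hp, hbij, hform⟩

theorem Patch.trivial_locIso (P : Patch n) : LocIso P P.U P.g ∅ id where
  met := P.met
  negl := negl_empty
  maps := fun _ hx => hx.1
  smooth := contDiffOn_id
  isom := by
    intro x _ v
    simp
  esc := by
    rintro x - z ⟨-, hz⟩
    exact absurd hz (notMem_empty z)

/-- sequences with a subsequence converging to a point of the patch -/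
theorem Patch.trivial_chart (P : Patch n) {κ : ℝ} (hκ : RicGE P.g P.U κ) (y : ℕ → P.Pt)
    {φ : ℕ → ℕ} (hφ : StrictMono φ) {u : EE n} (hu : u ∈ P.U)
    (h : Tendsto (fun j => (y (φ j)).val) atTop (𝓝 u)) : ChartConv P κ y :=
  ⟨P.U, P.g, ∅, id, P.trivial_locIso, injOn_id _, hκ, u, hu, fun j => (y (φ j)).val, φ, hφ,
    fun j => ⟨(y (φ j)).mem, notMem_empty _⟩, h, fun _ => rfl⟩

end Pool.Agent.MP39e402
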