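import Pool.Agent.Lib.MP_39e402_gt.MPoint

/-!
# Part M, module MEng: the engine for pointed Gromov-Hausdorff convergence

Given `R, ε`. Let `ε'` be small (`ε' = ε / (8 (C + 2))` will do) and `F` a finite `ε'`-net of
`{y : P.Pt | dist q y ≤ R + 1}` containing `q` (`BddCauchy.exists_net`). For large `k`: all points of
`F` are in `D k`, `δ k < ε'`, and for `x, y ∈ F`
`|redist (Q k) x y - redist P x y| < ε'` (`h3` and `h1`; all the distances are finite).
Define `f : P.Comp → (Q k).Comp`, `f a =` (image of) a point `z a ∈ F` with `dist a z < 2 ε'` if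
`dist q a < R` (exists by density of `P.Pt`), `z q = q`; `f a = q` otherwise.
* `|dist (f a) (f b) - dist a b| ≤ ε' + 4 ε' < ε`.
* Let `y : (Q k).Comp` with `dist q y < R - ε`. Choose `y' : (Q k).Pt` with `dist y y' < ε'`, `y'' ∈ D k`
  with `redist (Q k) y' y'' ≤ δ k < ε'` (`h4`); `redist P q y'' ≤ redist (Q k) q y'' + δ k < R - ε + 3 ε'
  < R - ε/2`; there is `z ∈ F` with `dist y'' z < ε'` in `P`; `a = z`: `dist q a < R`,
  `redist (Q k) z y'' ≤ C ε' + ε'` (`h2`), and `dist (f a) z ≤ 3 ε'` (both in `F`, distance in `P`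
  `< 2 ε'`); total `< ε`.
-/

open Set Filter Topology MeasureTheory
open scoped ENNReal NNReal ContDiff BigOperators

noncomputable section

namespace Pool.Agent.MP39e402

variable {n : ℕ}

private theorem meng_toReal_add {a b : ℝ≥0∞} (hb : b ≠ ⊤) {t : ℝ} (ht : 0 ≤ t)
    (h : a ≤ b + ENNReal.ofReal t) : a.toReal ≤ b.toReal + t := by
  have h1 := ENNReal.toReal_mono (ENNReal.add_ne_top.mpr ⟨hb, ENNReal.ofReal_ne_top⟩) h
  rwa [ENNReal.toReal_add hb ENNReal.ofReal_ne_top, ENNReal.toReal_ofReal ht] at h1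

private theorem meng_toReal_mul {a b : ℝ≥0∞} (hb : b ≠ ⊤) {C t : ℝ} (hC : 0 ≤ C) (ht : 0 ≤ t)
    (h : a ≤ ENNReal.ofReal C * b + ENNReal.ofReal t) : a.toReal ≤ C * b.toReal + t := by
  have h1 := meng_toReal_add (ENNReal.mul_ne_top ENNReal.ofReal_ne_top hb) ht h
  rwa [ENNReal.toReal_mul, ENNReal.toReal_ofReal hC] at h1

theorem pghConv_of_compare (P : Patch n) (Q : ℕ → Patch n) {q : EE n} (hq : q ∈ P.U)
    (hqQ : ∀ k, q ∈ (Q k).U) (D : ℕ → Set (EE n)) (hDP : ∀ k, D k ⊆ P.U)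
    (hDQ : ∀ k, D k ⊆ (Q k).U) (hev : ∀ x ∈ P.U, ∀ᶠ k in atTop, x ∈ D k)
    {C : ℝ} (hC : 0 < C) (δ : ℕ → ℝ) (hδ0 : ∀ k, 0 ≤ δ k) (hδ : Tendsto δ atTop (𝓝 0))
    (h1 : ∀ k, ∀ x ∈ D k, ∀ y ∈ D k,
      redist P.U P.g x y ≤ redist (Q k).U (Q k).g x y + ENNReal.ofReal (δ k))
    (h2 : ∀ k, ∀ x ∈ D k, ∀ y ∈ D k,
      redist (Q k).U (Q k).g x y ≤ ENNReal.ofReal C * redist P.U P.g x y + ENNReal.ofReal (δ k))
    (h3 : ∀ x ∈ P.U, ∀ y ∈ P.U, ∀ ε : ℝ, 0 < ε → ∀ᶠ k in atTop,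
      redist (Q k).U (Q k).g x y ≤ redist P.U P.g x y + ENNReal.ofReal ε)
    (h4 : ∀ k, ∀ x ∈ (Q k).U, ∃ y ∈ D k, redist (Q k).U (Q k).g x y ≤ ENNReal.ofReal (δ k))
    (hb : P.BddCauchy ⟨q, hq⟩) :
    PGHConv (fun k => (Q k).Comp) (fun _ a b => dist a b)
      (fun k => (((⟨q, hqQ k⟩ : (Q k).Pt)) : (Q k).Comp)) P.Comp (((⟨q, hq⟩ : P.Pt)) : P.Comp) := by
  classical
  intro R hR ε hε
  set ε' : ℝ := ε / (8 * (C + 2)) with hε'
  have hC2 : 0 < 8 * (C + 2) := by linarith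
  have hε'pos : 0 < ε' := div_pos hε hC2
  have hεε' : ε = ε' * (8 * (C + 2)) := by
    rw [hε']
    field_simp
  obtain ⟨F, hqF, hF⟩ := hb.exists_net R hε'pos
  have hfinP : ∀ x y : EE n, x ∈ P.U → y ∈ P.U → redist P.U P.g x y ≠ ⊤ := fun x y hx hy =>
    (P.rd_lt_top hx hy).ne
  have hfinQ : ∀ (k : ℕ) (x y : EE n), x ∈ (Q k).U → y ∈ (Q k).U →
      redist (Q k).U (Q k).g x y ≠ ⊤ := fun k x y hx hy => ((Q k).rd_lt_top hx hy).ne
  have hE1 : ∀ᶠ k in atTop, ∀ x ∈ F, x.val ∈ D k := by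
    rw [Filter.eventually_all_finset]
    exact fun x _ => hev _ x.mem
  have hE2 : ∀ᶠ k in atTop, δ k < ε' := hδ.eventually (gt_mem_nhds hε'pos)
  have hE3 : ∀ᶠ k in atTop, ∀ x ∈ F, ∀ y ∈ F, redist (Q k).U (Q k).g x.val y.val ≤
      redist P.U P.g x.val y.val + ENNReal.ofReal (ε' / 2) := by
    rw [Filter.eventually_all_finset]
    intro x _
    rw [Filter.eventually_all_finset]
    exact fun y _ => h3 _ x.mem _ y.mem _ (by linarith)
  obtain ⟨N, hN⟩ := Filter.eventually_atTop.mp ((hE1.and hE2).and hE3)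
  refine ⟨N, fun k hk => ?_⟩
  obtain ⟨⟨hFD, hδk⟩, hFQ⟩ := hN k hk
  -- the points in the approximating space
  set g : P.Pt → (Q k).Comp := fun x =>
    if h : x.val ∈ (Q k).U then (((⟨x.val, h⟩ : (Q k).Pt)) : (Q k).Comp)
    else (((⟨q, hqQ k⟩ : (Q k).Pt)) : (Q k).Comp) with hg
  have hgF : ∀ x ∈ F, ∃ h : x.val ∈ (Q k).U, g x = (((⟨x.val, h⟩ : (Q k).Pt)) : (Q k).Comp) := by
    intro x hx
    exact ⟨hDQ k (hFD x hx), dif_pos (hDQ k (hFD x hx))⟩
  have hgdist : ∀ x ∈ F, ∀ y ∈ F, |dist (g x) (g y) - dist x y| < ε' := by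
    intro x hx y hy
    obtain ⟨hxU, hgx⟩ := hgF x hx
    obtain ⟨hyU, hgy⟩ := hgF y hy
    rw [hgx, hgy, (Q k).dist_coe]
    have e1 : dist x y = (redist P.U P.g x.val y.val).toReal := rfl
    rw [e1]
    have a1 := meng_toReal_add (hfinQ k _ _ hxU hyU) (hδ0 k) (h1 k _ (hFD x hx) _ (hFD y hy))
    have a2 := meng_toReal_add (hfinP _ _ x.mem y.mem) (by linarith) (hFQ x hx y hy)
    rw [abs_lt]
    constructor <;> linarith
  -- the selection
  set z : P.Comp → P.Pt := fun a =>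
    if a = (((⟨q, hq⟩ : P.Pt)) : P.Comp) then ⟨q, hq⟩
    else if h : ∃ y ∈ F, dist a (y : P.Comp) < 2 * ε' then h.choose else ⟨q, hq⟩ with hz
  have hzF : ∀ a, z a ∈ F := by
    intro a
    simp only [hz]
    split_ifs with h5 h6
    · exact hqF
    · exact h6.choose_spec.1
    · exact hqF
  have hzd : ∀ a ∈ Metric.ball (((⟨q, hq⟩ : P.Pt)) : P.Comp) R,
      dist a (z a : P.Comp) < 2 * ε' := by
    intro a ha
    by_cases h5 : a = (((⟨q, hq⟩ : P.Pt)) : P.Comp)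
    · have h6 : z a = ⟨q, hq⟩ := by simp only [hz, if_pos h5]
      rw [h6, ← h5, dist_self]
      linarith
    · have h6 : ∃ y ∈ F, dist a (y : P.Comp) < 2 * ε' := by
        rw [Metric.mem_ball] at ha
        have hpos : 0 < min ε' (R - dist a (((⟨q, hq⟩ : P.Pt)) : P.Comp)) :=
          lt_min hε'pos (by linarith)
        obtain ⟨_, hy, y, rfl⟩ := Metric.dense_iff.mp
          (UniformSpace.Completion.denseRange_coe (α := P.Pt)) a _ hpos
        rw [Metric.mem_ball, dist_comm] at hy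
        have hy1 := hy.trans_le (min_le_left _ _)
        have hy2 := hy.trans_le (min_le_right _ _)
        have hyR : dist (⟨q, hq⟩ : P.Pt) y ≤ R := by
          rw [← UniformSpace.Completion.dist_eq]
          have := dist_triangle (((⟨q, hq⟩ : P.Pt)) : P.Comp) a (y : P.Comp)
          rw [dist_comm (((⟨q, hq⟩ : P.Pt)) : P.Comp) a] at this
          linarith
        obtain ⟨w, hwF, hw⟩ := hF y hyR
        refine ⟨w, hwF, ?_⟩
        rw [← UniformSpace.Completion.dist_eq] at hw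
        have := dist_triangle a (y : P.Comp) (w : P.Comp)
        linarith
      have h7 : z a = h6.choose := by simp only [hz, if_neg h5, dif_pos h6]
      rw [h7]
      exact h6.choose_spec.2
  refine ⟨fun a => g (z a), ?_, ?_, ?_⟩
  · have h6 : z (((⟨q, hq⟩ : P.Pt)) : P.Comp) = ⟨q, hq⟩ := by simp only [hz, if_true]
    simp only [h6, hg]
    exact dif_pos (hqQ k)
  · intro a ha b hb'
    have e1 := hgdist (z a) (hzF a) (z b) (hzF b)
    have e2 := hzd a ha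
    have e3 := hzd b hb'
    have e4 : dist (z a) (z b) = dist (z a : P.Comp) (z b : P.Comp) :=
      (UniformSpace.Completion.dist_eq _ _).symm
    rw [e4] at e1
    have e5 : |dist (z a : P.Comp) (z b : P.Comp) - dist a b| ≤
        dist a (z a : P.Comp) + dist b (z b : P.Comp) := by
      have t1 := dist_triangle4 (z a : P.Comp) a b (z b : P.Comp)
      have t2 := dist_triangle4 a (z a : P.Comp) (z b : P.Comp) b
      rw [dist_comm (z a : P.Comp) a] at t1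
      rw [dist_comm (z b : P.Comp) b] at t2
      rw [abs_le]
      constructor <;> linarith
    have e6 : |dist (g (z a)) (g (z b)) - dist a b| ≤
        |dist (g (z a)) (g (z b)) - dist (z a : P.Comp) (z b : P.Comp)| +
        |dist (z a : P.Comp) (z b : P.Comp) - dist a b| := abs_sub_le _ _ _
    have e7 : 5 * ε' < ε := by
      rw [hεε']
      nlinarith
    linarith
  · intro y hy
    obtain ⟨_, hy', y', rfl⟩ := Metric.dense_iff.mp
      (UniformSpace.Completion.denseRange_coe (α := (Q k).Pt)) y _ hε'pos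
    rw [Metric.mem_ball, dist_comm] at hy'
    obtain ⟨y2, hy2D, hy2⟩ := h4 k y'.val y'.mem
    have hy2U : y2 ∈ (Q k).U := hDQ k hy2D
    have hy2P : y2 ∈ P.U := hDP k hy2D
    have a1 : dist (y' : (Q k).Comp) ((((⟨y2, hy2U⟩ : (Q k).Pt)) : (Q k).Comp)) ≤ δ k := by
      rw [(Q k).dist_coe]
      have := ENNReal.toReal_mono ENNReal.ofReal_ne_top hy2
      rwa [ENNReal.toReal_ofReal (hδ0 k)] at this
    have hqD : q ∈ D k := hFD _ hqF
    have a2 : dist ((((⟨q, hqQ k⟩ : (Q k).Pt)) : (Q k).Comp))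
        ((((⟨y2, hy2U⟩ : (Q k).Pt)) : (Q k).Comp)) < R - ε + 2 * ε' := by
      have t1 := dist_triangle4 ((((⟨q, hqQ k⟩ : (Q k).Pt)) : (Q k).Comp)) y (y' : (Q k).Comp)
        ((((⟨y2, hy2U⟩ : (Q k).Pt)) : (Q k).Comp))
      linarith
    have a3 : dist (⟨q, hq⟩ : P.Pt) ⟨y2, hy2P⟩ < R - ε + 3 * ε' := by
      have t1 := meng_toReal_add (hfinQ k _ _ (hqQ k) hy2U) (hδ0 k) (h1 k _ hqD _ hy2D)
      rw [(Q k).dist_coe] at a2
      have e1 : dist (⟨q, hq⟩ : P.Pt) ⟨y2, hy2P⟩ = (redist P.U P.g q y2).toReal := rfl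
      rw [e1]
      simp only at a2
      linarith
    have e16 : 16 * ε' < ε := by
      rw [hεε']
      nlinarith
    obtain ⟨z0, hz0F, hz0⟩ := hF ⟨y2, hy2P⟩ (by linarith)
    have hball : (z0 : P.Comp) ∈ Metric.ball (((⟨q, hq⟩ : P.Pt)) : P.Comp) R := by
      rw [Metric.mem_ball, dist_comm, UniformSpace.Completion.dist_eq]
      have := dist_triangle (⟨q, hq⟩ : P.Pt) ⟨y2, hy2P⟩ z0
      linarith
    refine ⟨(z0 : P.Comp), hball, ?_⟩
    have b1 := hzd _ hball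
    rw [UniformSpace.Completion.dist_eq] at b1
    have b2 := hgdist (z (z0 : P.Comp)) (hzF _) z0 hz0F
    rw [abs_lt, dist_comm (z (z0 : P.Comp)) z0] at b2
    obtain ⟨hz0U, hgz0⟩ := hgF z0 hz0F
    have b3 : dist (g z0) ((((⟨y2, hy2U⟩ : (Q k).Pt)) : (Q k).Comp)) ≤ C * ε' + δ k := by
      rw [hgz0, (Q k).dist_coe]
      have t1 := meng_toReal_mul (hfinP _ _ z0.mem hy2P) hC.le (hδ0 k)
        (h2 k _ (hFD z0 hz0F) _ hy2D)
      have e1 : dist z0 (⟨y2, hy2P⟩ : P.Pt) = (redist P.U P.g z0.val y2).toReal := rfl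
      rw [dist_comm, e1] at hz0
      have t2 := mul_le_mul_of_nonneg_left hz0.le hC.le
      simp only
      linarith
    have t1 := dist_triangle4 (g (z (z0 : P.Comp))) (g z0)
      ((((⟨y2, hy2U⟩ : (Q k).Pt)) : (Q k).Comp)) (y' : (Q k).Comp)
    have t2 := dist_triangle (g (z (z0 : P.Comp))) (y' : (Q k).Comp) y
    rw [dist_comm ((((⟨y2, hy2U⟩ : (Q k).Pt)) : (Q k).Comp)) (y' : (Q k).Comp)] at t1
    rw [dist_comm (y' : (Q k).Comp) y] at t2
    have e1 : (C + 6) * ε' < ε := by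
      rw [hεε']
      nlinarith [mul_pos hC hε'pos]
    change dist (g (z (z0 : P.Comp))) y < ε
    nlinarith

end Pool.Agent.MP39e402
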