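import Pool.Agent.Lib.MP_39e402_gt.MLocInv
import Pool.Agent.Lib.MP_39e402_gt.MNeglDist

/-!
# Part M, module MPre: preimages of points near the chart

`path_preimage`. Let `L t = plenI P.g σ 0 t`. The set
`E = {t ∈ [0,1] | ∃ y ∈ V \ T, Φ y = σ t ∧ redist V h x y ≤ ofReal (L t)}` contains `0`, is closed
and open to the right in `[0,1]`, so it is `[0,1]` (`IsClosed.Icc_subset_of_forall_exists_gt`).
Closed: `t_j → t`, `t_j ∈ E` with `y_j`; `redist V h x (y_j) ≤ ofReal ℓ`, so `y_j ∈ K`, a subsequence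
converges to `z ∈ K ⊆ V`; `Φ (y_j) = σ (t_j) → σ t ∈ P.U`, so `z ∉ T` by `H.esc`; so `z ∈ V \ T`,
`Φ z = σ t` (continuity of `Φ` on `V \ T`) and `redist V h x z ≤ ofReal (L t)`
(`tendsto_redist_iff`, triangle inequality, `L` continuous).
Right open: `t ∈ E`, `t < 1`, `y` as in `E`; take the local inverse `Ψ : N → V \ T` of `Φ` at `y`
(`exists_local_inverse`). For `s > t` near `t` `σ '' Icc t s ⊆ N`, put `y' = Ψ (σ s)`;
`redist V h y y' ≤ ofReal (plenI P.g σ t s)` (`redist_comp_le_plenI` with `Ψ : N → V`, `L = 1`,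
from `(N, P.g)` to `(V, h)`), so `redist V h x y' ≤ ofReal (L t + plenI P.g σ t s) = ofReal (L s)`.

`exists_preimage`: take paths `σ_j` with `plen < redist + 1/j`, points `y_j` from
`path_preimage`, all in `K`, a limit point `z` of them; `Φ z = u` as above and
`redist V h x z ≤ redist P.U P.g (Φ x) u`.
-/

open Set Filter Topology MeasureTheory
open scoped ENNReal NNReal ContDiff BigOperators

noncomputable section

namespace Pool.Agent.MP39e402

variable {n : ℕ}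

/-- closedness of the inequality `redist V h x z ≤ b` -/
theorem redist_le_of_tendsto {V : Set (EE n)} {h : RMetric n} (hh : IsRMetricOn h V) {x z : EE n}
    (hz : z ∈ V) {y : ℕ → EE n} (hy : Tendsto y atTop (𝓝 z)) {a : ℕ → ℝ≥0∞} {b : ℝ≥0∞}
    (ha : Tendsto a atTop (𝓝 b)) (hle : ∀ j, redist V h x (y j) ≤ a j) :
    redist V h x z ≤ b := by
  have h1 : Tendsto (fun j => redist V h (y j) z) atTop (𝓝 0) := (tendsto_redist_iff hh hz).2 hy
  have h2 : Tendsto (fun j => a j + redist V h (y j) z) atTop (𝓝 (b + 0)) := ha.add h1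
  rw [add_zero] at h2
  exact ge_of_tendsto' h2 (fun j => (redist_triangle hh x (y j) z).trans
    (add_le_add (hle j) le_rfl))

/-- limit points of sequences whose images converge in the patch are not in `T` -/
theorem LocIso.limit_mem {P : Patch n} {V : Set (EE n)} {h : RMetric n}
    {T : Set (EE n)} {Φ : EE n → EE n} (H : LocIso P V h T Φ) {K : Set (EE n)} (hK : IsCompact K)
    (hKV : K ⊆ V) {y : ℕ → EE n} (hy : ∀ j, y j ∈ V \ T) (hyK : ∀ j, y j ∈ K) {u : EE n}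
    (hu : u ∈ P.U) (hlim : Tendsto (fun j => Φ (y j)) atTop (𝓝 u)) :
    ∃ z ∈ V \ T, ∃ φ : ℕ → ℕ, StrictMono φ ∧ Tendsto (fun j => y (φ j)) atTop (𝓝 z) ∧ Φ z = u := by
  obtain ⟨z, hz, φ, hφ, hφz⟩ := hK.tendsto_subseq hyK
  have hzV : z ∈ V := hKV hz
  have hlim' : Tendsto (fun j => Φ (y (φ j))) atTop (𝓝 u) := hlim.comp hφ.tendsto_atTop
  have hzT : z ∉ T := by
    intro hzT
    exact H.esc (fun j => y (φ j)) (fun j => hy _) z ⟨hzV, hzT⟩ hφz u hu hlim'
  refine ⟨z, ⟨hzV, hzT⟩, φ, hφ, hφz, ?_⟩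
  have hc : ContinuousAt Φ z :=
    H.smooth.continuousOn.continuousAt (H.isOpen_diff.mem_nhds ⟨hzV, hzT⟩)
  exact tendsto_nhds_unique (hc.tendsto.comp hφz) hlim'

theorem LocIso.path_preimage {P : Patch n} {V : Set (EE n)} {h : RMetric n}
    {T : Set (EE n)} {Φ : EE n → EE n} (H : LocIso P V h T Φ) {x u : EE n} (hx : x ∈ V \ T)
    {σ : ℝ → EE n} (hσ : IsPath P.U (Φ x) u σ) {K : Set (EE n)} (hK : IsCompact K) (hKV : K ⊆ V)
    (hxK : ∀ y, redist V h x y ≤ ENNReal.ofReal (plen P.g σ) → y ∈ K) :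
    ∃ y ∈ V \ T, Φ y = u ∧ redist V h x y ≤ ENNReal.ofReal (plen P.g σ) := by
  obtain ⟨hσ1, hσU, hσ0, hσ1'⟩ := hσ
  set L : ℝ → ℝ := fun t => plenI P.g σ 0 t with hLdef
  have hσc : ContDiffOn ℝ 1 σ univ := hσ1.contDiffOn
  have hLc : ContinuousOn L (Icc 0 1) :=
    continuousOn_plenI P.met isOpen_univ hσc zero_le_one (subset_univ _) hσU
  have hadd : ∀ s t : ℝ, 0 ≤ s → s ≤ t → t ≤ 1 → L s + plenI P.g σ s t = L t := by
    intro s t h0 hst h1
    exact plenI_add P.met isOpen_univ hσc h0 hst (subset_univ _)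
      (fun r hr => hσU r ⟨hr.1, hr.2.trans h1⟩)
  have hL1 : ∀ t ∈ Icc (0 : ℝ) 1, L t ≤ plen P.g σ := by
    intro t ht
    have := hadd t 1 ht.1 ht.2 le_rfl
    have h2 := plenI_nonneg P.g σ ht.2
    rw [plen_eq_plenI]
    change L t ≤ L 1
    linarith
  set E : Set ℝ := {t | t ∈ Icc (0 : ℝ) 1 ∧ ∃ y ∈ V \ T, Φ y = σ t ∧
    redist V h x y ≤ ENNReal.ofReal (L t)} with hE
  have hclosed : IsClosed (E ∩ Icc 0 1) := by
    apply IsSeqClosed.isClosed
    intro t t₀ ht htt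
    have ht₀ : t₀ ∈ Icc (0 : ℝ) 1 := isClosed_Icc.mem_of_tendsto htt
      (Eventually.of_forall (fun j => (ht j).2))
    choose y hyV hyΦ hyL using fun j => (ht j).1.2
    have hyK : ∀ j, y j ∈ K := fun j => hxK _ ((hyL j).trans
      (ENNReal.ofReal_le_ofReal (hL1 _ (ht j).2)))
    have hlim : Tendsto (fun j => Φ (y j)) atTop (𝓝 (σ t₀)) := by
      have : (fun j => Φ (y j)) = fun j => σ (t j) := funext hyΦ
      rw [this]
      exact (hσ1.continuous.tendsto t₀).comp htt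
    obtain ⟨z, hz, φ, hφ, hφz, hΦz⟩ := H.limit_mem hK hKV hyV hyK (hσU t₀ ht₀) hlim
    refine ⟨⟨ht₀, z, hz, hΦz, ?_⟩, ht₀⟩
    refine redist_le_of_tendsto H.met hz.1 hφz (a := fun j => ENNReal.ofReal (L (t (φ j)))) ?_
      (fun j => hyL _)
    apply ENNReal.tendsto_ofReal
    have h1 : Tendsto (fun j => t (φ j)) atTop (𝓝[Icc 0 1] t₀) := by
      apply tendsto_nhdsWithin_iff.2
      exact ⟨htt.comp hφ.tendsto_atTop, Eventually.of_forall (fun j => (ht _).2)⟩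
    exact (hLc t₀ ht₀).tendsto.comp h1
  have h0E : (0 : ℝ) ∈ E := by
    refine ⟨⟨le_rfl, zero_le_one⟩, x, hx, hσ0.symm, ?_⟩
    rw [redist_self h hx.1]
    exact zero_le
  have hgt : ∀ t ∈ E ∩ Ico 0 1, ∀ b ∈ Ioi t, (E ∩ Ioc t b).Nonempty := by
    rintro t ⟨⟨ht01, y, hy, hyΦ, hyL⟩, ht⟩ b hb
    obtain ⟨N, Ψ, hNo, hyN, hNU, hΨ, hΨm, hΨy, hΦΨ, hΨq⟩ := H.exists_local_inverse hy
    have hnear : ∀ᶠ s in 𝓝 t, σ s ∈ N := by
      apply (hσ1.continuous.tendsto t).eventually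
      rw [← hyΦ]
      exact hNo.mem_nhds hyN
    obtain ⟨ε, hε, hεN⟩ := Metric.eventually_nhds_iff.1 hnear
    set s : ℝ := min (min b 1) (t + ε / 2) with hs
    have hts : t < s := by
      rw [hs, lt_min_iff, lt_min_iff]
      exact ⟨⟨hb, ht.2⟩, by linarith⟩
    have hsb : s ≤ b := (min_le_left _ _).trans (min_le_left _ _)
    have hs1 : s ≤ 1 := (min_le_left _ _).trans (min_le_right _ _)
    have hsε : s ≤ t + ε / 2 := min_le_right _ _
    have hsN : ∀ r ∈ Icc t s, σ r ∈ N := by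
      intro r hr
      apply hεN
      rw [Real.dist_eq, abs_lt]
      constructor <;> [linarith [hr.1]; linarith [hr.2]]
    have hstep : redist V h (Ψ (σ t)) (Ψ (σ s)) ≤ ENNReal.ofReal (1 * plenI P.g σ t s) := by
      refine redist_comp_le_plenI (P.met.mono hNU hNo) H.met hΨ zero_le_one hts.le isOpen_univ
        (subset_univ _) hσc hsN (fun r hr => (hΨm (hsN r hr)).1) ?_
      intro r hr v
      rw [hΨq _ (hsN r hr)]
      simp
    rw [one_mul, ← hyΦ, hΨy] at hstep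
    refine ⟨s, ⟨⟨ht.1.trans hts.le, hs1⟩, Ψ (σ s), hΨm (hsN s ⟨hts.le, le_rfl⟩),
      hΦΨ _ (hsN s ⟨hts.le, le_rfl⟩), ?_⟩, hts, hsb⟩
    calc redist V h x (Ψ (σ s)) ≤ redist V h x y + redist V h y (Ψ (σ s)) :=
          redist_triangle H.met _ _ _
      _ ≤ ENNReal.ofReal (L t) + ENNReal.ofReal (plenI P.g σ t s) := add_le_add hyL hstep
      _ = ENNReal.ofReal (L t + plenI P.g σ t s) :=
          (ENNReal.ofReal_add (plenI_nonneg _ _ ht.1) (plenI_nonneg _ _ hts.le)).symm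
      _ = ENNReal.ofReal (L s) := by rw [hadd t s ht.1 hts.le hs1]
  have hall := hclosed.Icc_subset_of_forall_exists_gt h0E hgt
  obtain ⟨-, y, hy, hyΦ, hyL⟩ := hall (⟨zero_le_one, le_rfl⟩ : (1 : ℝ) ∈ Icc (0 : ℝ) 1)
  exact ⟨y, hy, hyΦ.trans hσ1', hyL⟩

theorem LocIso.exists_preimage {P : Patch n} {V : Set (EE n)} {h : RMetric n}
    {T : Set (EE n)} {Φ : EE n → EE n} (H : LocIso P V h T Φ) {x u : EE n} (hx : x ∈ V \ T)
    {K : Set (EE n)} (hK : IsCompact K) (hKV : K ⊆ V) {ℓ : ℝ}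
    (hxK : ∀ y, redist V h x y < ENNReal.ofReal ℓ → y ∈ K)
    (hu : redist P.U P.g (Φ x) u < ENNReal.ofReal ℓ) :
    ∃ y ∈ V \ T, Φ y = u ∧ redist V h x y ≤ redist P.U P.g (Φ x) u := by
  set ρ := redist P.U P.g (Φ x) u with hρ
  have hρt : ρ ≠ ⊤ := (hu.trans_le le_top).ne
  have hℓ : 0 < ℓ := by
    by_contra hneg
    rw [ENNReal.ofReal_of_nonpos (not_lt.1 hneg)] at hu
    exact absurd hu (not_lt.2 zero_le)
  have huU : u ∈ P.U := by
    by_contra hnot
    have : redist P.U P.g (Φ x) u = ⊤ := redist_eq_top P.g (fun hh => hnot hh.2)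
    exact hρt this
  have hρ2 : ρ.toReal < ℓ := by
    rwa [← ENNReal.lt_ofReal_iff_toReal_lt hρt]
  have key : ∀ j : ℕ, ∃ y ∈ V \ T, Φ y = u ∧
      redist V h x y ≤ ENNReal.ofReal (ρ.toReal + 1 / ((j : ℝ) + 1)) ∧ y ∈ K := by
    intro j
    have hj : (0 : ℝ) < 1 / ((j : ℝ) + 1) := by positivity
    have hlt : redist P.U P.g (Φ x) u < ENNReal.ofReal (min ℓ (ρ.toReal + 1 / ((j : ℝ) + 1))) := by
      rw [← hρ, ENNReal.lt_ofReal_iff_toReal_lt hρt, lt_min_iff]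
      exact ⟨hρ2, by linarith⟩
    obtain ⟨σ, hσ, hlen⟩ := exists_isPath_lt hlt
    rw [lt_min_iff] at hlen
    have hK' : ∀ y, redist V h x y ≤ ENNReal.ofReal (plen P.g σ) → y ∈ K := by
      intro y hy
      apply hxK
      exact hy.trans_lt ((ENNReal.ofReal_lt_ofReal_iff hℓ).2 hlen.1)
    obtain ⟨y, hy, hyΦ, hyL⟩ := H.path_preimage hx hσ hK hKV hK'
    exact ⟨y, hy, hyΦ, hyL.trans (ENNReal.ofReal_le_ofReal hlen.2.le), hK' y hyL⟩
  choose y hy hyΦ hyL hyK using key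
  have hlim : Tendsto (fun j => Φ (y j)) atTop (𝓝 u) := by
    have : (fun j => Φ (y j)) = fun _ => u := funext hyΦ
    rw [this]
    exact tendsto_const_nhds
  obtain ⟨z, hz, φ, hφ, hφz, hΦz⟩ := H.limit_mem hK hKV hy hyK huU hlim
  refine ⟨z, hz, hΦz, ?_⟩
  have ha : Tendsto (fun j : ℕ => ENNReal.ofReal (ρ.toReal + 1 / (((φ j : ℕ) : ℝ) + 1))) atTop
      (𝓝 ρ) := by
    have h1 : Tendsto (fun j : ℕ => ρ.toReal + 1 / (((j : ℕ) : ℝ) + 1)) atTop
        (𝓝 (ρ.toReal + 0)) := tendsto_const_nhds.add tendsto_one_div_add_atTop_nhds_zero_nat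
    rw [add_zero] at h1
    have h2 := ENNReal.tendsto_ofReal h1
    rw [ENNReal.ofReal_toReal hρt] at h2
    exact h2.comp hφ.tendsto_atTop
  exact redist_le_of_tendsto H.met hz.1 hφz ha (fun j => hyL _)

/-- uniform version around a point `x₀ ∈ V` -/
theorem LocIso.exists_radius {P : Patch n} {V : Set (EE n)} {h : RMetric n}
    {T : Set (EE n)} {Φ : EE n → EE n} (H : LocIso P V h T Φ) {x₀ : EE n} (hx₀ : x₀ ∈ V) :
    ∃ r > 0, ∃ K : Set (EE n), IsCompact K ∧ K ⊆ V ∧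
      (∀ y, redist V h x₀ y < ENNReal.ofReal (4 * r) → y ∈ K) ∧
      ∀ x ∈ V \ T, redist V h x₀ x < ENNReal.ofReal r →
        ∀ u, redist P.U P.g (Φ x) u < ENNReal.ofReal (3 * r) →
          ∃ y ∈ V \ T, Φ y = u ∧ redist V h x y ≤ redist P.U P.g (Φ x) u := by
  obtain ⟨ρ, hρ, K, hK, hKV, hKρ⟩ := exists_compact_redist_ball H.met hx₀
  refine ⟨ρ / 4, by positivity, K, hK, hKV, ?_, ?_⟩
  · intro y hy
    apply hKρ
    have : 4 * (ρ / 4) = ρ := by ring
    rwa [this] at hy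
  · intro x hx hxr u hu
    refine H.exists_preimage hx hK hKV ?_ hu
    intro y hy
    apply hKρ
    calc redist V h x₀ y ≤ redist V h x₀ x + redist V h x y := redist_triangle H.met _ _ _
      _ < ENNReal.ofReal (ρ / 4) + ENNReal.ofReal (3 * (ρ / 4)) := ENNReal.add_lt_add hxr hy
      _ = ENNReal.ofReal (ρ / 4 + 3 * (ρ / 4)) :=
          (ENNReal.ofReal_add (by positivity) (by positivity)).symm
      _ = ENNReal.ofReal ρ := by congr 1; ring

/-- a local isometry does not increase distances -/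
theorem LocIso.redist_le {P : Patch n} {V : Set (EE n)} {h : RMetric n}
    {T : Set (EE n)} {Φ : EE n → EE n} (H : LocIso P V h T Φ) {x y : EE n} (hx : x ∈ V \ T)
    (hy : y ∈ V \ T) : redist P.U P.g (Φ x) (Φ y) ≤ redist V h x y := by
  have h1 : redist P.U P.g (Φ x) (Φ y) ≤ ENNReal.ofReal 1 * redist (V \ T) h x y := by
    refine redist_map_le (H.met.mono sdiff_subset H.isOpen_diff) P.met H.smooth zero_lt_one
      H.maps ?_
    intro z hz v
    rw [H.isom z hz v]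
    simp
  rw [ENNReal.ofReal_one, one_mul, redist_diff_negl H.met H.negl hx hy] at h1
  exact h1

end Pool.Agent.MP39e402
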