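import Pool.Agent.Lib.MP_39e402_gt.MNegl
import Pool.Agent.Lib.MP_39e402_gt.MPre

/-!
# Part M, module MExt: extension of a local isometry to the completions

For `x ∈ V` choose `x_j ∈ V \ T`, `x_j → x` (`Negl.subset_closure`), so
`redist V h (x_j) x → 0` (`tendsto_redist_iff`), and `Φ (x_j)` is a Cauchy sequence of `P.Comp` by
`LocIso.redist_le`; `Φ' x` is its limit. The inequality follows by passing to the limit.

`exists_ball_image`: `⊆` from `h2`. `⊇`: `r₀`, `K` from `exists_radius`; let `q ∈ ball (Φ' x₀) r`,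
`u_j ∈ P.U`, `u_j → q` in `P.Comp`; choose `ε` with `dist (Φ' x₀) q + 3 ε < r` and `x ∈ V \ T` with
`redist V h x₀ x < ε`. For large `j` `redist P.U P.g (Φ x) (u_j) < r`, so there is `y_j ∈ V \ T` with
`Φ y_j = u_j` and `redist V h x y_j ≤ redist P.U P.g (Φ x) u_j`; all `y_j ∈ K`, a subsequence
converges to `y ∈ K ⊆ V`; `Φ' y = lim Φ' y_j = lim u_j = q` (`h2`, `tendsto_redist_iff`) and
`redist V h x₀ y < r`.
-/

open Set Filter Topology MeasureTheory
open scoped ENNReal NNReal ContDiff BigOperators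

noncomputable section

namespace Pool.Agent.MP39e402

variable {n : ℕ}

/-- convergence of the distances to `x` along the filter `𝓝[V \ T] x` -/
theorem tendsto_redist_nhdsWithin {V : Set (EE n)} {h : RMetric n} (hh : IsRMetricOn h V)
    {x : EE n} (hx : x ∈ V) (S : Set (EE n)) :
    Tendsto (fun y => redist V h y x) (𝓝[S] x) (𝓝 0) :=
  (tendsto_redist_iff hh hx (f := fun y => y)).2 (tendsto_id.mono_left nhdsWithin_le_nhds)

theorem LocIso.exists_extension {P : Patch n} {V : Set (EE n)} {h : RMetric n}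
    {T : Set (EE n)} {Φ : EE n → EE n} (H : LocIso P V h T Φ) (hV : V.Nonempty) :
    ∃ Φ' : EE n → P.Comp,
      (∀ x (hx : x ∈ V \ T), Φ' x = ((⟨Φ x, H.maps hx⟩ : P.Pt) : P.Comp)) ∧
      ∀ x ∈ V, ∀ y ∈ V, edist (Φ' x) (Φ' y) ≤ redist V h x y := by
  classical
  obtain ⟨x₁, hx₁⟩ := hV
  have hcl := H.negl.subset_closure H.met.isOpen
  have hne : ∀ x ∈ V, (𝓝[V \ T] x).NeBot := fun x hx => mem_closure_iff_nhdsWithin_neBot.1 (hcl hx)
  obtain ⟨x₂, hx₂⟩ : (V \ T).Nonempty := closure_nonempty_iff.1 ⟨x₁, hcl hx₁⟩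
  let F : EE n → P.Comp := fun y =>
    if hy : y ∈ V \ T then ((⟨Φ y, H.maps hy⟩ : P.Pt) : P.Comp)
    else ((⟨Φ x₂, H.maps hx₂⟩ : P.Pt) : P.Comp)
  have hF : ∀ x (hx : x ∈ V \ T), F x = ((⟨Φ x, H.maps hx⟩ : P.Pt) : P.Comp) := by
    intro x hx
    simp only [F, dif_pos hx]
  have hFd : ∀ x ∈ V \ T, ∀ y ∈ V \ T, edist (F x) (F y) ≤ redist V h x y := by
    intro x hx y hy
    rw [hF x hx, hF y hy, P.edist_coe]
    exact H.redist_le hx hy
  -- limits
  have hlim : ∀ x ∈ V, ∃ p : P.Comp, Tendsto F (𝓝[V \ T] x) (𝓝 p) := by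
    intro x hx
    have := hne x hx
    have hc : Cauchy (map F (𝓝[V \ T] x)) := by
      rw [EMetric.cauchy_iff]
      refine ⟨(map_neBot).ne, fun ε hε => ?_⟩
      have h1 : ∀ᶠ y in 𝓝[V \ T] x, redist V h y x < ε / 2 :=
        (tendsto_redist_nhdsWithin H.met hx _).eventually (gt_mem_nhds (ENNReal.half_pos hε.ne'))
      have h2 : ∀ᶠ y in 𝓝[V \ T] x, y ∈ V \ T := eventually_mem_nhdsWithin
      refine ⟨F '' {y | redist V h y x < ε / 2 ∧ y ∈ V \ T}, image_mem_map (h1.and h2), ?_⟩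
      rintro _ ⟨y, ⟨hy1, hy2⟩, rfl⟩ _ ⟨z, ⟨hz1, hz2⟩, rfl⟩
      calc edist (F y) (F z) ≤ redist V h y z := hFd y hy2 z hz2
        _ ≤ redist V h y x + redist V h x z := redist_triangle H.met _ _ _
        _ < ε / 2 + ε / 2 := by
            refine ENNReal.add_lt_add hy1 ?_
            rw [redist_comm H.met]; exact hz1
        _ = ε := ENNReal.add_halves ε
    exact cauchy_iff_exists_le_nhds.1 hc
  have : Nonempty P.Comp := ⟨F x₂⟩
  choose! Φ' hΦ' using hlim
  have hpure : ∀ x ∈ V \ T, Φ' x = F x := by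
    intro x hx
    have h1 : pure x ≤ 𝓝[V \ T] x := pure_le_nhdsWithin hx
    exact (tendsto_nhds_unique (tendsto_pure_nhds F x) ((hΦ' x hx.1).mono_left h1)).symm
  refine ⟨Φ', fun x hx => (hpure x hx).trans (hF x hx), ?_⟩
  intro x hx y hy
  have := hne x hx
  have := hne y hy
  have h1 : Tendsto (fun p : EE n × EE n => edist (F p.1) (F p.2))
      (𝓝[V \ T] x ×ˢ 𝓝[V \ T] y) (𝓝 (edist (Φ' x) (Φ' y))) :=
    ((hΦ' x hx).comp tendsto_fst).edist ((hΦ' y hy).comp tendsto_snd)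
  have h2 : Tendsto (fun p : EE n × EE n =>
      redist V h p.1 x + redist V h x y + redist V h p.2 y)
      (𝓝[V \ T] x ×ˢ 𝓝[V \ T] y) (𝓝 (0 + redist V h x y + 0)) := by
    refine Tendsto.add (Tendsto.add ?_ tendsto_const_nhds) ?_
    · exact (tendsto_redist_nhdsWithin H.met hx _).comp tendsto_fst
    · exact (tendsto_redist_nhdsWithin H.met hy _).comp tendsto_snd
  rw [zero_add, add_zero] at h2
  refine le_of_tendsto_of_tendsto h1 h2 ?_
  have h3 : ∀ᶠ p : EE n × EE n in 𝓝[V \ T] x ×ˢ 𝓝[V \ T] y, p.1 ∈ V \ T ∧ p.2 ∈ V \ T :=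
    (tendsto_fst.eventually eventually_mem_nhdsWithin).and
      (tendsto_snd.eventually eventually_mem_nhdsWithin)
  filter_upwards [h3] with p hp
  calc edist (F p.1) (F p.2) ≤ redist V h p.1 p.2 := hFd _ hp.1 _ hp.2
    _ ≤ redist V h p.1 y + redist V h y p.2 := redist_triangle H.met _ _ _
    _ ≤ (redist V h p.1 x + redist V h x y) + redist V h p.2 y := by
        refine add_le_add (redist_triangle H.met _ _ _) (redist_comm H.met _ _).le

/-- sequences converging in a chart (possibly to a point of `T`) are Cauchy in the patch -/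
theorem LocIso.cauchySeq {P : Patch n} {V : Set (EE n)} {h : RMetric n}
    {T : Set (EE n)} {Φ : EE n → EE n} (H : LocIso P V h T Φ) {x : ℕ → EE n}
    (hx : ∀ j, x j ∈ V \ T) {x₀ : EE n} (hx₀ : x₀ ∈ V) (hlim : Tendsto x atTop (𝓝 x₀)) :
    CauchySeq (fun j => (⟨Φ (x j), H.maps (hx j)⟩ : P.Pt)) := by
  have h1 : Tendsto (fun j => redist V h (x j) x₀) atTop (𝓝 0) :=
    (tendsto_redist_iff H.met hx₀).2 hlim
  rw [EMetric.cauchySeq_iff]
  intro ε hε
  obtain ⟨N, hN⟩ := eventually_atTop.1 (h1.eventually (gt_mem_nhds (ENNReal.half_pos hε.ne')))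
  refine ⟨N, fun m hm k hk => ?_⟩
  rw [P.edist_eq]
  calc P.rd (Φ (x m)) (Φ (x k)) ≤ redist V h (x m) (x k) := H.redist_le (hx m) (hx k)
    _ ≤ redist V h (x m) x₀ + redist V h x₀ (x k) := redist_triangle H.met _ _ _
    _ < ε / 2 + ε / 2 := by
        refine ENNReal.add_lt_add (hN m hm) ?_
        rw [redist_comm H.met]; exact hN k hk
    _ = ε := ENNReal.add_halves ε

theorem LocIso.exists_ball_image {P : Patch n} {V : Set (EE n)} {h : RMetric n}
    {T : Set (EE n)} {Φ : EE n → EE n} (H : LocIso P V h T Φ) {x₀ : EE n} (hx₀ : x₀ ∈ V)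
    {Φ' : EE n → P.Comp}
    (h1 : ∀ x (hx : x ∈ V \ T), Φ' x = ((⟨Φ x, H.maps hx⟩ : P.Pt) : P.Comp))
    (h2 : ∀ x ∈ V, ∀ y ∈ V, edist (Φ' x) (Φ' y) ≤ redist V h x y) :
    ∃ r₀ > 0, ∀ r, 0 < r → r ≤ r₀ →
      Φ' '' {x | x ∈ V ∧ redist V h x₀ x < ENNReal.ofReal r} = Metric.ball (Φ' x₀) r := by
  obtain ⟨r₀, hr₀, K, hK, hKV, hKr, hpre⟩ := H.exists_radius hx₀
  refine ⟨r₀, hr₀, fun r hr hrr => Subset.antisymm ?_ ?_⟩
  · rintro _ ⟨x, ⟨hxV, hxr⟩, rfl⟩
    rw [Metric.mem_ball, dist_comm, dist_edist]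
    have := (h2 x₀ hx₀ x hxV).trans_lt hxr
    rwa [← ENNReal.lt_ofReal_iff_toReal_lt (edist_ne_top _ _)]
  · intro q hq
    rw [Metric.mem_ball] at hq
    have hq' : edist (Φ' x₀) q < ENNReal.ofReal r := by
      rw [ENNReal.lt_ofReal_iff_toReal_lt (edist_ne_top _ _), ← dist_edist, dist_comm]
      exact hq
    -- choose `ε`
    set d := edist (Φ' x₀) q with hd
    obtain ⟨ε, hε, hεr⟩ : ∃ ε : ℝ≥0∞, 0 < ε ∧ d + ε + ε + ε < ENNReal.ofReal r := by
      have hdt : d ≠ ⊤ := edist_ne_top _ _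
      have hd2 : d.toReal < r := by rwa [← ENNReal.lt_ofReal_iff_toReal_lt hdt]
      obtain ⟨a, ha⟩ : ∃ a : ℝ, a = d.toReal := ⟨_, rfl⟩
      have hda : d = ENNReal.ofReal a := by rw [ha, ENNReal.ofReal_toReal hdt]
      have han : 0 ≤ a := by rw [ha]; exact ENNReal.toReal_nonneg
      rw [← ha] at hd2
      have hpos : 0 ≤ (r - a) / 4 := by linarith
      refine ⟨ENNReal.ofReal ((r - a) / 4), by
        rw [ENNReal.ofReal_pos]; linarith, ?_⟩
      rw [hda, ← ENNReal.ofReal_add han hpos,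
        ← ENNReal.ofReal_add (by linarith) hpos, ← ENNReal.ofReal_add (by linarith) hpos]
      exact (ENNReal.ofReal_lt_ofReal_iff hr).2 (by linarith)
    have hrr' : ENNReal.ofReal r ≤ ENNReal.ofReal r₀ := ENNReal.ofReal_le_ofReal hrr
    have hεr₀ : ε < ENNReal.ofReal r₀ := by
      refine lt_of_lt_of_le (lt_of_le_of_lt ?_ hεr) hrr'
      calc ε ≤ d + ε + ε + ε := le_add_self
        _ = _ := rfl
    -- the point `x`
    have hcl := H.negl.subset_closure H.met.isOpen hx₀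
    have : (𝓝[V \ T] x₀).NeBot := mem_closure_iff_nhdsWithin_neBot.1 hcl
    obtain ⟨x, hx, hxε⟩ : ∃ x ∈ V \ T, redist V h x x₀ < ε := by
      have h3 := ((tendsto_redist_nhdsWithin H.met hx₀ (V \ T)).eventually
        (gt_mem_nhds hε)).and (eventually_mem_nhdsWithin (a := x₀) (s := V \ T))
      obtain ⟨x, hx1, hx2⟩ := h3.exists
      exact ⟨x, hx2, hx1⟩
    have hxε' : redist V h x₀ x < ε := by rw [redist_comm H.met]; exact hxε
    obtain ⟨u, -, huq⟩ := P.exists_seq_tendsto q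
    have hux : Tendsto (fun j => edist (Φ' x) (u j : P.Comp)) atTop (𝓝 (edist (Φ' x) q)) :=
      tendsto_const_nhds.edist huq
    have hxq : edist (Φ' x) q < d + ε + ε := by
      calc edist (Φ' x) q ≤ edist (Φ' x) (Φ' x₀) + edist (Φ' x₀) q := edist_triangle _ _ _
        _ ≤ redist V h x x₀ + d := add_le_add (h2 x hx.1 x₀ hx₀) le_rfl
        _ ≤ ε + d := add_le_add hxε.le le_rfl
        _ = d + ε := add_comm _ _
        _ < d + ε + ε := ENNReal.lt_add_right
            (ENNReal.add_ne_top.2 ⟨edist_ne_top _ _, (hεr₀.trans_le le_top).ne⟩) hε.ne'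
    obtain ⟨N, hN⟩ := eventually_atTop.1 (hux.eventually (gt_mem_nhds hxq))
    have key : ∀ j : ℕ, ∃ y ∈ V \ T, Φ y = (u (N + j)).val ∧ redist V h x y < d + ε + ε := by
      intro j
      have h3 := hN (N + j) (Nat.le_add_right _ _)
      rw [h1 x hx, P.edist_coe] at h3
      have h4 : redist P.U P.g (Φ x) (u (N + j)).val < ENNReal.ofReal (3 * r₀) := by
        refine h3.trans_le ?_
        calc d + ε + ε ≤ d + ε + ε + ε := le_self_add
          _ ≤ ENNReal.ofReal r := hεr.le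
          _ ≤ ENNReal.ofReal (3 * r₀) := ENNReal.ofReal_le_ofReal (by linarith)
      obtain ⟨y, hy, hyΦ, hyL⟩ := hpre x hx (hxε'.trans hεr₀) _ h4
      exact ⟨y, hy, hyΦ, hyL.trans_lt h3⟩
    choose y hy hyΦ hyL using key
    have hyK : ∀ j, y j ∈ K := by
      intro j
      apply hKr
      calc redist V h x₀ (y j) ≤ redist V h x₀ x + redist V h x (y j) :=
            redist_triangle H.met _ _ _
        _ ≤ ε + (d + ε + ε) := add_le_add hxε'.le (hyL j).le
        _ = d + ε + ε + ε := by ring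
        _ < ENNReal.ofReal r := hεr
        _ ≤ ENNReal.ofReal (4 * r₀) := ENNReal.ofReal_le_ofReal (by linarith)
    obtain ⟨z, hz, φ, hφ, hφz⟩ := hK.tendsto_subseq hyK
    have hzV := hKV hz
    refine ⟨z, ⟨hzV, ?_⟩, ?_⟩
    · have h5 : redist V h x z ≤ d + ε + ε :=
        redist_le_of_tendsto H.met hzV hφz (tendsto_const_nhds (x := d + ε + ε))
          (fun j => (hyL (φ j)).le)
      calc redist V h x₀ z ≤ redist V h x₀ x + redist V h x z := redist_triangle H.met _ _ _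
        _ ≤ ε + (d + ε + ε) := add_le_add hxε'.le h5
        _ = d + ε + ε + ε := by ring
        _ < ENNReal.ofReal r := hεr
    · have h6 : Tendsto (fun j => Φ' (y (φ j))) atTop (𝓝 (Φ' z)) := by
        rw [tendsto_iff_edist_tendsto_0]
        refine tendsto_of_tendsto_of_tendsto_of_le_of_le tendsto_const_nhds
          ((tendsto_redist_iff H.met hzV).2 hφz) (fun j => zero_le) (fun j => ?_)
        exact h2 _ (hy _).1 _ hzV
      have h7 : Tendsto (fun j => Φ' (y (φ j))) atTop (𝓝 q) := by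
        have h8 : Tendsto (fun j => (u (N + φ j) : P.Comp)) atTop (𝓝 q) := by
          refine huq.comp ?_
          exact tendsto_atTop_mono (fun j => Nat.le_add_left _ _) hφ.tendsto_atTop
        refine h8.congr (fun j => ?_)
        rw [h1 _ (hy _)]
        congr 1
        have := hyΦ (φ j)
        cases hu : u (N + φ j)
        simp_all
      exact tendsto_nhds_unique h6 h7

end Pool.Agent.MP39e402
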