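import Pool.Agent.Lib.MP_39e402_gt.MPoint
import Pool.Agent.Lib.MP_39e402_gt.MExt

/-!
# Part M, module MTot: bounded sequences have Cauchy subsequences

`of_chartConv`: immediate from `LocIso.cauchySeq`.

`of_compare`: by `Patch.bddCauchy_iff` show that `closedBall q R` of `P` is totally bounded. Given `ε`
choose `k` with `q ∈ D k`, `δ k < ε / 8`. Every `x` with `dist q x ≤ R` is within `δ k` (in `P`) of some
`x' ∈ D k` (`h4`), and `redist (Q k) q x' ≤ C (R + δ k) + δ k` (`h2`); this ball of `Q k` is totally bounded,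
so finitely many sets `A_i` of `Q k`-diameter `< ε / 4` cover it; two points of `A_i ∩ D k` have
`P`-distance `< ε / 4 + δ k` (`h1`). So finitely many balls of radius `ε` of `P` cover.
-/

open Set Filter Topology MeasureTheory
open scoped ENNReal NNReal ContDiff BigOperators

noncomputable section

namespace Pool.Agent.MP39e402

variable {n : ℕ}

theorem Patch.BddCauchy.of_chartConv {P : Patch n} {κ : ℝ} {q : P.Pt}
    (H : ∀ y : ℕ → P.Pt, (∃ R : ℝ, ∀ j, dist q (y j) ≤ R) → ChartConv P κ y) : P.BddCauchy q := by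
  intro y hy
  obtain ⟨V, h, T, Φ, hL, -, -, x₀, hx₀, x, φ, hφ, hx, hlim, heq⟩ := H y hy
  refine ⟨φ, hφ, ?_⟩
  have hc := hL.cauchySeq hx hx₀ hlim
  have hext : ∀ a b : P.Pt, a.val = b.val → a = b := by
    rintro ⟨a, ha⟩ ⟨b, hb⟩ hab
    cases hab
    rfl
  have : (fun j => y (φ j)) = fun j => (⟨Φ (x j), hL.maps (hx j)⟩ : P.Pt) := by
    funext j
    exact hext _ _ (heq j).symm
  rw [this]
  exact hc

theorem Patch.BddCauchy.of_compare (P : Patch n) (Q : ℕ → Patch n) {q : EE n} (hq : q ∈ P.U)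
    (hqQ : ∀ k, q ∈ (Q k).U) (D : ℕ → Set (EE n)) (hDP : ∀ k, D k ⊆ P.U)
    (hDQ : ∀ k, D k ⊆ (Q k).U) (hev : ∀ᶠ k in atTop, q ∈ D k)
    {C : ℝ} (hC : 0 < C) (δ : ℕ → ℝ) (hδ0 : ∀ k, 0 ≤ δ k) (hδ : Tendsto δ atTop (𝓝 0))
    (h1 : ∀ k, ∀ x ∈ D k, ∀ y ∈ D k,
      redist P.U P.g x y ≤ redist (Q k).U (Q k).g x y + ENNReal.ofReal (δ k))
    (h2 : ∀ k, ∀ x ∈ D k, ∀ y ∈ D k,
      redist (Q k).U (Q k).g x y ≤ ENNReal.ofReal C * redist P.U P.g x y + ENNReal.ofReal (δ k))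
    (h4 : ∀ k, ∀ x ∈ P.U, ∃ y ∈ D k, redist P.U P.g x y ≤ ENNReal.ofReal (δ k))
    (hQ : ∀ k, (Q k).BddCauchy ⟨q, hqQ k⟩) : P.BddCauchy ⟨q, hq⟩ := by
  have key1 : ∀ (k : ℕ) (x : EE n) (hx : x ∈ D k) (y : EE n) (hy : y ∈ D k),
      dist (⟨x, hDP k hx⟩ : P.Pt) ⟨y, hDP k hy⟩ ≤
        dist (⟨x, hDQ k hx⟩ : (Q k).Pt) ⟨y, hDQ k hy⟩ + δ k := by
    intro k x hx y hy
    have hfin : redist (Q k).U (Q k).g x y ≠ ⊤ := ((Q k).rd_lt_top (hDQ k hx) (hDQ k hy)).ne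
    have h := ENNReal.toReal_mono (ENNReal.add_ne_top.2 ⟨hfin, ENNReal.ofReal_ne_top⟩)
      (h1 k x hx y hy)
    rw [ENNReal.toReal_add hfin ENNReal.ofReal_ne_top, ENNReal.toReal_ofReal (hδ0 k)] at h
    exact h
  have key2 : ∀ (k : ℕ) (x : EE n) (hx : x ∈ D k) (y : EE n) (hy : y ∈ D k),
      dist (⟨x, hDQ k hx⟩ : (Q k).Pt) ⟨y, hDQ k hy⟩ ≤
        C * dist (⟨x, hDP k hx⟩ : P.Pt) ⟨y, hDP k hy⟩ + δ k := by
    intro k x hx y hy
    have hfin : redist P.U P.g x y ≠ ⊤ := (P.rd_lt_top (hDP k hx) (hDP k hy)).ne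
    have hfin2 : ENNReal.ofReal C * redist P.U P.g x y ≠ ⊤ :=
      ENNReal.mul_ne_top ENNReal.ofReal_ne_top hfin
    have h := ENNReal.toReal_mono (ENNReal.add_ne_top.2 ⟨hfin2, ENNReal.ofReal_ne_top⟩)
      (h2 k x hx y hy)
    rw [ENNReal.toReal_add hfin2 ENNReal.ofReal_ne_top, ENNReal.toReal_ofReal (hδ0 k),
      ENNReal.toReal_mul, ENNReal.toReal_ofReal hC.le] at h
    exact h
  have key4 : ∀ (k : ℕ) (x : P.Pt), ∃ (y : EE n) (hy : y ∈ D k),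
      dist x (⟨y, hDP k hy⟩ : P.Pt) ≤ δ k := by
    intro k x
    obtain ⟨y, hy, hxy⟩ := h4 k x.val x.mem
    refine ⟨y, hy, ?_⟩
    have h := ENNReal.toReal_mono ENNReal.ofReal_ne_top hxy
    rw [ENNReal.toReal_ofReal (hδ0 k)] at h
    exact h
  rw [Patch.bddCauchy_iff]
  intro R
  rw [Metric.totallyBounded_iff]
  intro ε hε
  obtain ⟨k, hk1, hk2⟩ : ∃ k, q ∈ D k ∧ δ k < ε / 8 :=
    (hev.and (hδ.eventually (gt_mem_nhds (by positivity : (0 : ℝ) < ε / 8)))).exists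
  have hT := (Patch.bddCauchy_iff (Q k) ⟨q, hqQ k⟩).1 (hQ k) (C * (R + δ k) + δ k)
  obtain ⟨t, htf, htc⟩ := Metric.totallyBounded_iff.1 hT (ε / 8) (by positivity)
  have hch : ∀ z : (Q k).Pt, ∃ w : P.Pt,
      (∃ (u : EE n) (hu : u ∈ D k), dist (⟨u, hDQ k hu⟩ : (Q k).Pt) z < ε / 8) →
        ∃ hu : w.val ∈ D k, dist (⟨w.val, hDQ k hu⟩ : (Q k).Pt) z < ε / 8 := by
    intro z
    by_cases h : ∃ (u : EE n) (hu : u ∈ D k), dist (⟨u, hDQ k hu⟩ : (Q k).Pt) z < ε / 8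
    · obtain ⟨u, hu, huz⟩ := h
      exact ⟨⟨u, hDP k hu⟩, fun _ => ⟨hu, huz⟩⟩
    · exact ⟨⟨q, hq⟩, fun h' => absurd h' h⟩
  choose f hf using hch
  refine ⟨f '' t, htf.image f, ?_⟩
  intro x hx
  rw [Metric.mem_closedBall] at hx
  obtain ⟨x', hx', hxx'⟩ := key4 k x
  have e1 : dist (⟨x', hDP k hx'⟩ : P.Pt) (⟨q, hDP k hk1⟩ : P.Pt) ≤ R + δ k := by
    calc dist (⟨x', hDP k hx'⟩ : P.Pt) (⟨q, hDP k hk1⟩ : P.Pt)
        ≤ dist (⟨x', hDP k hx'⟩ : P.Pt) x + dist x (⟨q, hDP k hk1⟩ : P.Pt) := dist_triangle _ _ _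
      _ ≤ δ k + R := add_le_add (by rw [dist_comm]; exact hxx') hx
      _ = R + δ k := add_comm _ _
  have e2 : dist (⟨x', hDQ k hx'⟩ : (Q k).Pt) ⟨q, hDQ k hk1⟩ ≤ C * (R + δ k) + δ k :=
    (key2 k x' hx' q hk1).trans (by
      have := mul_le_mul_of_nonneg_left e1 hC.le
      linarith)
  have e3 : (⟨x', hDQ k hx'⟩ : (Q k).Pt) ∈ Metric.closedBall (⟨q, hqQ k⟩ : (Q k).Pt)
      (C * (R + δ k) + δ k) := by
    rw [Metric.mem_closedBall]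
    exact e2
  have e4 := htc e3
  simp only [Set.mem_iUnion, Metric.mem_ball, exists_prop] at e4
  obtain ⟨z, hz, hxz⟩ := e4
  obtain ⟨hu, huz⟩ := hf z ⟨x', hx', hxz⟩
  have e5 : dist (⟨x', hDQ k hx'⟩ : (Q k).Pt) ⟨(f z).val, hDQ k hu⟩ < ε / 8 + ε / 8 :=
    lt_of_le_of_lt (dist_triangle _ z _) (add_lt_add hxz (by rw [dist_comm]; exact huz))
  have e6 := key1 k x' hx' (f z).val hu
  have e7 : dist x (f z) ≤ dist x (⟨x', hDP k hx'⟩ : P.Pt) +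
      dist (⟨x', hDP k hx'⟩ : P.Pt) (f z) := dist_triangle _ _ _
  have e8 : dist (⟨x', hDP k hx'⟩ : P.Pt) (f z) =
      dist (⟨x', hDP k hx'⟩ : P.Pt) ⟨(f z).val, hDP k hu⟩ := rfl
  simp only [Set.mem_iUnion, Metric.mem_ball, exists_prop]
  refine ⟨f z, ⟨z, hz, rfl⟩, ?_⟩
  rw [e8] at e7
  linarith

end Pool.Agent.MP39e402
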