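import Pool.Agent.Lib.MP_39e402_gt.MPatch

/-!
# Part M, module MVol: lower volume bound

`c, C` bounds for `g0` on `closedBall q ρ` (`exists_gquad_bounds`). Choose `s > 0` with `C * s < 1`,
`s ≤ ρ / 2`. For `x, y ∈ ball q s`: `redist P.U P.g q x ≤ C s < 1` (`redist_le_of_ball`), and
`redist P.U P.g x y ≥ c * min (ρ/2) (dist x y)`, `dist x y < 2 s`; take `2 s ≤ ρ / 2`; so
`c * dist x y ≤ redist P.U P.g x y` (`redist_ge` with centre `x` and radius `ρ / 2`).
So the map `P.Comp ⊇ image of ball q s → (Fin n → ℝ)` (inverse of the embedding followed by the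
identity `EE n → (Fin n → ℝ)`, which is 1-Lipschitz) is `1/c`-Lipschitz and its image is
`ball q s`, an open set of positive volume `= μH[n]` (`hausdorffMeasure_pi_real`);
`LipschitzOnWith.hausdorffMeasure_image_le` gives
`μH[n] (ball (↑q) 1) ≥ c ^ n * volume (ball q s) > 0`. Nothing depends on `P`.
-/

open Set Filter Topology MeasureTheory
open scoped ENNReal NNReal ContDiff BigOperators

noncomputable section

namespace Pool.Agent.MP39e402

variable {n : ℕ}

/-- the map from the Euclidean ball to the completion -/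
private def mvolI (P : Patch n) {B : Set (EE n)} (hB : B ⊆ P.U) (x : B) : P.Comp :=
  (((⟨x.1, hB x.2⟩ : P.Pt)) : P.Comp)

private theorem mvol_core (P : Patch n) {q : EE n} {ρ c C s : ℝ} (hρ : 0 < ρ) (hc : 0 < c)
    (hcC : c ≤ C) (hs : 0 < s) (hs4 : s ≤ ρ / 4) (hsC : C * s < 1)
    (hball : Metric.closedBall q ρ ⊆ P.U) (hq : q ∈ P.U)
    (hb : ∀ x ∈ Metric.closedBall q ρ, ∀ v : EE n,
      c ^ 2 * ‖v‖ ^ 2 ≤ gquad P.g x v ∧ gquad P.g x v ≤ C ^ 2 * ‖v‖ ^ 2) :
    volume ((@WithLp.ofLp 2 (Fin n → ℝ)) '' Metric.ball q s) ≤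
      ((Real.toNNReal (1 / c) : ℝ≥0) : ℝ≥0∞) ^ (n : ℝ) *
        hausM n (Metric.ball (((⟨q, hq⟩ : P.Pt) : P.Comp)) 1) := by
  have hCpos : 0 < C := hc.trans_le hcC
  have hBU : Metric.ball q s ⊆ P.U := by
    refine Subset.trans ?_ hball
    refine Subset.trans Metric.ball_subset_closedBall (Metric.closedBall_subset_closedBall ?_)
    linarith
  -- lower bound
  have hlow : ∀ x y : (Metric.ball q s : Set (EE n)),
      ENNReal.ofReal (c * dist x.1 y.1) ≤ edist (mvolI P hBU x) (mvolI P hBU y) := by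
    intro x y
    have hx := Metric.mem_ball.mp x.2
    have hy := Metric.mem_ball.mp y.2
    have h1 := redist_ge P.met (x := x.1) (ρ := ρ / 2) (c := c) (by linarith) hc.le
      (fun z _ hz v => (hb z (by
        rw [Metric.mem_closedBall] at hz ⊢
        have := dist_triangle z x.1 q
        linarith) v).1) y.1
    have h2 : min (ρ / 2) (dist x.1 y.1) = dist x.1 y.1 := by
      apply min_eq_right
      have := dist_triangle_right x.1 y.1 q
      linarith
    rw [h2] at h1
    unfold mvolI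
    rw [P.edist_coe]
    exact h1
  have hinj : Function.Injective (mvolI P hBU) := by
    intro x y hxy
    have h1 := hlow x y
    rw [hxy, edist_self] at h1
    have h2 := ENNReal.ofReal_eq_zero.mp (le_antisymm h1 bot_le)
    have h3 : dist x.1 y.1 = 0 := by
      have := dist_nonneg (x := x.1) (y := y.1)
      nlinarith
    exact Subtype.ext (dist_eq_zero.mp h3)
  -- upper bound
  have hup : ∀ x : (Metric.ball q s : Set (EE n)),
      mvolI P hBU x ∈ Metric.ball (((⟨q, hq⟩ : P.Pt) : P.Comp)) 1 := by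
    intro x
    have hx := Metric.mem_ball.mp x.2
    have h1 := redist_le_of_ball P.met (x := q) (ρ := ρ) (C := C) hCpos.le
      (Subset.trans Metric.ball_subset_closedBall hball)
      (fun z hz v => (hb z (Metric.ball_subset_closedBall hz) v).2) (y := x.1) (z := q)
      (by
        rw [Metric.mem_ball]
        linarith) (Metric.mem_ball_self hρ)
    rw [Metric.mem_ball, ← ENNReal.ofReal_lt_ofReal_iff one_pos, ← edist_dist]
    unfold mvolI
    rw [P.edist_coe]
    refine lt_of_le_of_lt h1 ?_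
    rw [ENNReal.ofReal_lt_ofReal_iff one_pos]
    have := mul_lt_mul_of_pos_left hx hCpos
    linarith
  classical
  let : MeasurableSpace P.Comp := borel P.Comp
  have : BorelSpace P.Comp := ⟨rfl⟩
  let f : P.Comp → (Fin n → ℝ) := fun p =>
    if h : ∃ x : (Metric.ball q s : Set (EE n)), mvolI P hBU x = p then
      WithLp.ofLp h.choose.1 else 0
  have hf : ∀ x : (Metric.ball q s : Set (EE n)), f (mvolI P hBU x) = WithLp.ofLp x.1 := by
    intro x
    have h : ∃ y : (Metric.ball q s : Set (EE n)), mvolI P hBU y = mvolI P hBU x := ⟨x, rfl⟩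
    have h1 : f (mvolI P hBU x) = WithLp.ofLp h.choose.1 := dif_pos h
    rw [h1, hinj h.choose_spec]
  have hlip : LipschitzOnWith (Real.toNNReal (1 / c)) f (Set.range (mvolI P hBU)) := by
    rintro _ ⟨x, rfl⟩ _ ⟨y, rfl⟩
    rw [hf, hf]
    have h1 : edist (WithLp.ofLp x.1) (WithLp.ofLp y.1) ≤ edist x.1 y.1 := by
      have h2 := PiLp.lipschitzWith_ofLp 2 (fun _ : Fin n => ℝ) x.1 y.1
      simpa using h2
    refine h1.trans ?_
    have h2 := hlow x y
    calc edist x.1 y.1 = ENNReal.ofReal (1 / c) * ENNReal.ofReal (c * dist x.1 y.1) := by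
          rw [← ENNReal.ofReal_mul (by positivity), edist_dist]
          congr 1
          field_simp
      _ ≤ ENNReal.ofReal (1 / c) * edist (mvolI P hBU x) (mvolI P hBU y) := by gcongr
      _ = _ := rfl
  have himg : f '' (Set.range (mvolI P hBU)) = (@WithLp.ofLp 2 (Fin n → ℝ)) '' Metric.ball q s := by
    ext v
    constructor
    · rintro ⟨_, ⟨x, rfl⟩, rfl⟩
      exact ⟨x.1, x.2, (hf x).symm⟩
    · rintro ⟨x, hx, rfl⟩
      exact ⟨_, ⟨⟨x, hx⟩, rfl⟩, hf ⟨x, hx⟩⟩
  have hmain := hlip.hausdorffMeasure_image_le (d := (n : ℝ)) (Nat.cast_nonneg n)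
  rw [himg] at hmain
  have hvol : (Measure.hausdorffMeasure (n : ℝ) : Measure (Fin n → ℝ)) = volume := by
    have h1 := MeasureTheory.hausdorffMeasure_pi_real (ι := Fin n)
    rwa [Fintype.card_fin] at h1
  rw [hvol] at hmain
  refine hmain.trans ?_
  refine mul_le_mul_right (measure_mono ?_) _
  rintro _ ⟨x, rfl⟩
  exact hup x

theorem exists_volume_lower {W : Set (EE n)} {g0 : RMetric n} (hg0 : IsRMetricOn g0 W) {q : EE n}
    {ρ : ℝ} (hρ : 0 < ρ) (hW : Metric.closedBall q ρ ⊆ W) :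
    ∃ v : ℝ, 0 < v ∧ ∀ P : Patch n, ∀ _ : Metric.closedBall q ρ ⊆ P.U, ∀ hq : q ∈ P.U,
      (∀ x ∈ Metric.closedBall q ρ, P.g x = g0 x) →
      ENNReal.ofReal v ≤ hausM n (Metric.ball (((⟨q, hq⟩ : P.Pt) : P.Comp)) 1) := by
  obtain ⟨c, C, hc, hcC, hb⟩ := exists_gquad_bounds hg0 (isCompact_closedBall q ρ) hW
  have hCpos : 0 < C := hc.trans_le hcC
  set s : ℝ := min (ρ / 4) (1 / (2 * C)) with hs
  have hspos : 0 < s := lt_min (by linarith) (by positivity)
  have hs4 : s ≤ ρ / 4 := min_le_left _ _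
  have hsC : C * s < 1 := by
    have h1 : s ≤ 1 / (2 * C) := min_le_right _ _
    have h2 : C * s ≤ C * (1 / (2 * C)) := mul_le_mul_of_nonneg_left h1 hCpos.le
    have h3 : C * (1 / (2 * C)) = 1 / 2 := by field_simp
    linarith
  set v0 : ℝ≥0∞ := volume ((@WithLp.ofLp 2 (Fin n → ℝ)) '' Metric.ball q s) with hv0
  have hv0pos : 0 < v0 := by
    refine IsOpen.measure_pos _ ?_ ((Metric.nonempty_ball.mpr hspos).image _)
    have h1 : (@WithLp.ofLp 2 (Fin n → ℝ)) '' Metric.ball q s =
        (WithLp.toLp 2) ⁻¹' Metric.ball q s := by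
      ext v
      constructor
      · rintro ⟨x, hx, rfl⟩
        exact hx
      · intro hv
        exact ⟨_, hv, rfl⟩
    rw [h1]
    exact Metric.isOpen_ball.preimage (PiLp.continuous_toLp 2 _)
  set K : ℝ≥0∞ := ((Real.toNNReal (1 / c) : ℝ≥0) : ℝ≥0∞) ^ (n : ℝ) with hK
  have hKne : K ≠ 0 := by
    rw [hK]
    simp only [ne_eq, ENNReal.rpow_eq_zero_iff, ENNReal.coe_eq_zero, ENNReal.coe_ne_top,
      false_and, or_false, not_and, not_lt]
    intro h
    have : 0 < 1 / c := by positivity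
    rw [Real.toNNReal_eq_zero] at h
    linarith
  have hKtop : K ≠ ⊤ := by
    rw [hK]
    exact ENNReal.rpow_ne_top_of_nonneg (Nat.cast_nonneg n) ENNReal.coe_ne_top
  have hm1 : min v0 1 ≠ ⊤ := ne_top_of_le_ne_top ENNReal.one_ne_top (min_le_right _ _)
  have hm0 : min v0 1 ≠ 0 := (lt_min hv0pos one_pos).ne'
  have hqtop : min v0 1 / K ≠ ⊤ := ENNReal.div_ne_top hm1 hKne
  refine ⟨(min v0 1 / K).toReal, ENNReal.toReal_pos (ENNReal.div_ne_zero.mpr ⟨hm0, hKtop⟩) hqtop,
    fun P hP hq hg => ?_⟩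
  rw [ENNReal.ofReal_toReal hqtop]
  have h1 := mvol_core P hρ hc hcC hspos hs4 hsC hP hq (fun x hx v => by
    have h2 := hb x hx v
    have h3 : gquad P.g x v = gquad g0 x v := by
      unfold gquad
      rw [hg x hx]
    rw [h3]
    exact h2)
  refine ENNReal.div_le_of_le_mul' ?_
  exact (min_le_left _ _).trans h1

end Pool.Agent.MP39e402
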