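import Pool.Agent.Lib.MP_39e402_gt.MConv
import Pool.Agent.Lib.MP_39e402_gt.MCrit
import Pool.Agent.Lib.MP_39e402_gt.MEng
import Pool.Agent.Lib.MP_39e402_gt.MTot
import Pool.Agent.Lib.MP_39e402_gt.MVol

/-!
# Part M, module MMain: the completion of a patch as a noncollapsed Ricci limit space
-/

open Set Filter Topology MeasureTheory
open scoped ENNReal NNReal ContDiff BigOperators

noncomputable section

namespace Pool.Agent.MP39e402

variable {n : ℕ}

/-- Main theorem of part M. `P` is the limit patch, `Q k` the approximating patches; `q` is the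
base point. -/
theorem isNoncollapsedRicciLimit_of_holes {ι : Type} (P : Patch n) (Q : ℕ → Patch n) {q : EE n}
    (hq : q ∈ P.U) (hqQ : ∀ k, q ∈ (Q k).U) {C : ℝ} (hC : 0 < C)
    (J : ℕ → Finset ι) (B : ℕ → ι → Set (EE n)) (η : ℕ → ι → ℝ)
    (H : ∀ k, Holes P (Q k) C (J k) (B k) (η k))
    (hsum : Tendsto (fun k => ∑ j ∈ J k, η k j) atTop (𝓝 0))
    (hf : ∀ K : Set (EE n), IsCompact K → K ⊆ P.U →
      ∀ᶠ k in atTop, (∀ x ∈ K, (Q k).g x = P.g x) ∧ ∀ x ∈ K, ∀ j ∈ J k, x ∉ B k j)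
    (hchart : ∀ k, ∀ y : ℕ → (Q k).Pt,
      (∃ R : ℝ, ∀ j, dist (⟨q, hqQ k⟩ : (Q k).Pt) (y j) ≤ R) →
        ChartConv (Q k) (-((n : ℝ) - 1)) y)
    {ρ : ℝ} (hρ : 0 < ρ) (hball : Metric.closedBall q ρ ⊆ P.U)
    (hballQ : ∀ k, Metric.closedBall q ρ ⊆ (Q k).U ∧
      ∀ x ∈ Metric.closedBall q ρ, (Q k).g x = P.g x) :
    IsNoncollapsedRicciLimit n P.Comp (((⟨q, hq⟩ : P.Pt)) : P.Comp) := by
  have hηsum : ∀ k, 0 ≤ ∑ j ∈ J k, η k j := fun k => Finset.sum_nonneg (H k).nonneg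
  have hDP : ∀ k, goodSet P (J k) (B k) ⊆ P.U := fun k x hx => hx.1
  have hDQ : ∀ k, goodSet P (J k) (B k) ⊆ (Q k).U := fun k x hx => ((H k).sets x hx.2).2 hx.1
  have hev : ∀ x ∈ P.U, ∀ᶠ k in atTop, x ∈ goodSet P (J k) (B k) := by
    intro x hx
    filter_upwards [hf {x} isCompact_singleton (by simpa using hx)] with k hk
    exact ⟨hx, hk.2 x rfl⟩
  have hBC : ∀ k, (Q k).BddCauchy ⟨q, hqQ k⟩ := fun k => Patch.BddCauchy.of_chartConv (hchart k)
  have hbc : P.BddCauchy ⟨q, hq⟩ :=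
    Patch.BddCauchy.of_compare P Q hq hqQ _ hDP hDQ (hev q hq) hC _ hηsum hsum
      (fun k => (H k).h1) (fun k => (H k).h2 hC) (fun k => (H k).h4') hBC
  have hpgh := pghConv_of_compare P Q hq hqQ _ hDP hDQ hev hC _ hηsum hsum
      (fun k => (H k).h1) (fun k => (H k).h2 hC)
      (fun x hx y hy ε hε => by
        refine eventually_redist_le P (fun k => (Q k).U) (fun k => (Q k).g) ?_ hx hy hε
        intro K hK hKU
        filter_upwards [hf K hK hKU] with k hk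
        exact ⟨fun z hz => ((H k).sets z (hk.2 z hz)).2 (hKU hz), hk.1⟩)
      (fun k => (H k).h4) hbc
  obtain ⟨v, hv, hvol⟩ := exists_volume_lower P.met hρ hball
  refine ⟨P.properSpace_comp _ hbc, fun k => (Q k).Comp, fun k => inferInstance,
    fun k => (((⟨q, hqQ k⟩ : (Q k).Pt)) : (Q k).Comp), v, hv, ?_, ?_, hpgh⟩
  · intro k
    refine isRiemannianRicGE_comp (Q k) _ ?_
    intro y hy
    refine hchart k y ?_
    obtain ⟨R, hR⟩ := (Metric.isBounded_iff_subset_closedBall (⟨q, hqQ k⟩ : (Q k).Pt)).1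
      hy.isBounded_range
    exact ⟨R, fun j => by
      have := hR (mem_range_self j)
      rwa [Metric.mem_closedBall, dist_comm] at this⟩
  · intro k
    exact hvol (Q k) (hballQ k).1 (hqQ k) (hballQ k).2

end Pool.Agent.MP39e402
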