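import Pool.Agent.Lib.MP_39e402_gt.UHcmp

/-! # MP_39e402, module UHb: the base ball.  On `closedBall qB 1` (`qB = (0,0,8,0)`): `Ur ≥ 7`, `|x 0| ≤ 1`:
`gInf_near` (`x ∈ UInf`, `gInf = polMet q0`); `freeS_of_Ur`, `freeS_UM`; `gM`: `mem_Sl_idx`, `gM_eq`, `prod_zone`
(`‖sc i x‖ ≥ Ur x/rh i ≥ 1`, `Yr x ≥ rh i/5`), `Ψ (aa Ur) = aa Ur/2` as `aa Ur ≥ aa ≥ δ`; `polMet_congr`. -/

open Real Set Filter Topology MeasureTheory
open scoped ContDiff ENNReal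

noncomputable section

namespace Pool.Agent.MP39e402

private theorem ub_coord {x y : EE 4} {r : ℝ} (h : dist x y ≤ r) (i : Fin 4) : |x i - y i| ≤ r := by
  have h1 := PiLp.norm_apply_le (x - y) i
  rw [dist_eq_norm] at h
  have h2 : (x - y) i = x i - y i := rfl
  rw [h2, Real.norm_eq_abs] at h1
  exact h1.trans h

private theorem ub_ball {x : EE 4} (hx : x ∈ Metric.closedBall qB 1) : |x 0| ≤ 1 ∧ 7 ≤ Ur x ∧ 7 ≤ Yr x := by
  rw [Metric.mem_closedBall] at hx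
  have h0 := ub_coord hx 0
  have h2 := ub_coord hx 2
  have e0 : qB 0 = 0 := by simp [qB, v4]
  have e2 : qB 2 = 8 := by simp [qB, v4]
  rw [e0, sub_zero] at h0
  rw [e2] at h2
  have h3 : 7 ≤ x 2 := by
    have := (abs_le.mp h2).1
    linarith
  refine ⟨h0, ?_, ?_⟩
  · unfold Ur
    apply Real.le_sqrt_of_sq_le
    nlinarith [sq_nonneg (x 3)]
  · unfold Yr
    apply Real.le_sqrt_of_sq_le
    nlinarith [sq_nonneg (x 3), sq_nonneg (x 1)]

private theorem ub_congr {q q' : EE 4 → EE 4 → ℝ} {p p' : EE 4} (h : ∀ v, q p v = q' p' v) :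
    polMet q p = polMet q' p' := by
  unfold polMet
  congr 1
  funext i j
  rw [h, h, h]

theorem ball_data {c0 ρ1 a ε δ : ℝ} {k : ℕ} {Ψ U : ℝ → ℝ} (h : 0 < c0) (h1 : c0 ≤ 1) (hk : 1 ≤ k)
    (H : Par ρ1 a ε δ Ψ U) (hδ : δ ≤ aa) :
    Metric.closedBall qB 1 ⊆ UInf c0 ∧ Metric.closedBall qB 1 ⊆ UM c0 k a ∧
      ∀ x ∈ Metric.closedBall qB 1, gM c0 k Ψ U x = gInf c0 x := by
  have key : ∀ x ∈ Metric.closedBall qB 1, gInf c0 x = polMet q0 x ∧ x ∈ UInf c0 := by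
    intro x hx
    obtain ⟨a0, a1, a2⟩ := ub_ball hx
    have hU : Ur x ≠ 0 := (show (0 : ℝ) < Ur x by linarith).ne'
    exact gInf_near h h1 hU (by linarith [(abs_le.mp a0).2])
  refine ⟨fun x hx => (key x hx).2, fun x hx => ?_, fun x hx => ?_⟩
  · obtain ⟨a0, a1, a2⟩ := ub_ball hx
    exact freeS_UM h h1 hk (freeS_of_Ur h h1 (by linarith))
  · obtain ⟨a0, a1, a2⟩ := ub_ball hx
    have hU0 : 0 < Ur x := by linarith
    have hU : Ur x ≠ 0 := hU0.ne'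
    rw [(key x hx).1, gM_eq h h1 (idx_pos k (x 0)) (idx_le hk (x 0)) Ψ U (mem_Sl_idx hk x) hU]
    apply ub_congr
    intro v
    have hr := GPts_rh_le (idx_pos k (x 0))
    have hr0 := GPts_rh_pos (idx k (x 0))
    have hs : 1 ≤ ‖sc (idx k (x 0)) x‖ := by
      refine le_trans ?_ (GPts_Ur_le_sc (idx k (x 0)) x)
      rw [le_div_iff₀ hr0]
      linarith
    rw [prod_zone h h1 (idx k (x 0)) Ψ U hU hs (by linarith) v]
    have haa := GPts_aa.1
    have hΨ : Ψ (aa * Ur x) = aa * Ur x / 2 := H.edge.far _ (by nlinarith)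
    rw [hΨ]
    rfl

end Pool.Agent.MP39e402
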