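import Pool.Agent.Lib.MP_39e402_gt.UHfa

/-! # MP_39e402, module UHfb: `hf_data` (see the header of UHfa) -/

open Real Set Filter Topology MeasureTheory
open scoped ContDiff ENNReal

noncomputable section

namespace Pool.Agent.MP39e402

private theorem ufb_Ur_le (x : EE 4) : Ur x ≤ ‖x‖ := by
  rw [EuclideanSpace.norm_eq]
  unfold Ur
  apply Real.sqrt_le_sqrt
  rw [Fin.sum_univ_four]
  simp only [Real.norm_eq_abs, sq_abs]
  nlinarith [sq_nonneg (x 0), sq_nonneg (x 1)]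

private theorem ufb_Ur_cont : Continuous Ur := by
  unfold Ur
  fun_prop

private theorem ufb_xh_tendsto : Tendsto xh atTop (𝓝 0) := by
  unfold xh
  exact tendsto_pow_atTop_nhds_zero_of_lt_one (by norm_num) (by norm_num)

private theorem ufb_rh_le {i j : ℕ} (h : i ≤ j) : rh j ≤ rh i := by
  unfold rh xh
  have : ((1 : ℝ) / 2) ^ j ≤ (1 / 2) ^ i := pow_le_pow_of_le_one (by norm_num) (by norm_num) h
  linarith

/-- lower bound of `rhoP` in the P-zone -/
private theorem ufb_rhoP {X : EE 4} {c : ℝ} (h0 : 0 < c) (h2 : c ≤ tc X) (h3 : X ∈ PZ) :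
    sin (min c (1 / 2)) ≤ rhoP X := by
  have hta := isCoreC.ta_le
  have h4 : tc X ≤ 1 / 2 := (h3.1.le).trans hta
  have hpi := Real.pi_gt_three
  have h5 : sin (min c (1 / 2)) ≤ sin (tc X) := by
    apply Real.sin_le_sin_of_le_of_le_pi_div_two
    · have : 0 ≤ min c (1 / 2) := le_min h0.le (by norm_num)
      linarith
    · linarith
    · exact (min_le_left _ _).trans h2
  refine h5.trans ?_
  unfold rhoP
  apply Real.le_sqrt_of_sq_le
  have h6 : n3 X ≤ 1 := by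
    unfold n3
    exact div_le_one_of_le₀ (ufb_Ur_le X) (norm_nonneg _)
  have h7 : 0 ≤ n3 X := by
    unfold n3
    exact div_nonneg (by unfold Ur; positivity) (norm_nonneg _)
  have h8 : n3 X ^ 2 ≤ 1 := by nlinarith
  have h9 := Real.sin_sq_add_cos_sq (tc X)
  nlinarith [sq_nonneg (cos (tc X))]

private theorem ufb_xco_cont {c0 : ℝ} (h : 0 < c0) (j : ℕ) {x : EE 4} (hU : Ur x ≠ 0) :
    ContinuousAt (xco c0 j) x := by
  have hs : sc j x ≠ 0 := by
    intro h0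
    have h1 : Ur (sc j x) ≠ 0 := GPts_sc_Ur_ne.mpr hU
    rw [h0] at h1
    exact h1 (by simp [Ur])
  have hQ : ContinuousAt (Qm (epsh (phh c0 j))) (sc j x) :=
    ((Qm_contDiffOn (epsh_pos (phh_pos h j))).continuousOn).continuousAt (isOpen_compl_singleton.mem_nhds hs)
  have hc : ContinuousAt (sc j) x := by
    unfold sc
    fun_prop
  exact ContinuousAt.comp (f := sc j) (g := Qm (epsh (phh c0 j))) hQ hc

private theorem ufb_one {c0 : ℝ} (h : 0 < c0) (h1 : c0 ≤ 1) (ρ1 : ℕ → ℝ) (hρ : Tendsto ρ1 atTop (𝓝 0)) {x : EE 4}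
    (hx : x ∈ UInf c0) {j : ℕ} (hj : 1 ≤ j) :
    ∃ O ∈ 𝓝 x, ∀ᶠ k in atTop, ∀ y ∈ O, y ∉ Bs c0 (k + 1) (ρ1 k) j := by
  have hU : Ur x ≠ 0 := UInf_Ur hx
  have ht : 0 < tc (xco c0 j x) := by
    have := UInf_xco h h1 hj hx
    unfold tc
    linarith
  have hcont : ContinuousAt (fun y => tc (xco c0 j y)) x := by
    have h2 := (ufb_xco_cont h j hU).norm
    unfold tc
    exact h2.sub continuousAt_const
  set c : ℝ := tc (xco c0 j x) / 2 with hc
  have hc0 : 0 < c := by positivity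
  have hO : {y | c < tc (xco c0 j y)} ∈ 𝓝 x :=
    hcont.eventually_const_lt (u := c) (by rw [hc]; linarith)
  refine ⟨_, hO, ?_⟩
  have hs : 0 < sin (min c (1 / 2)) := by
    apply Real.sin_pos_of_pos_of_lt_pi (lt_min hc0 (by norm_num))
    have := Real.pi_gt_three
    exact (min_le_right _ _).trans_lt (by linarith)
  have hev : ∀ᶠ k in atTop, ρ1 k < sin (min c (1 / 2)) / 2 := hρ.eventually_lt_const (by positivity)
  filter_upwards [hev] with k hk y hy hB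
  rw [mem_Bs hj] at hB
  have h5 := ufb_rhoP hc0 (le_of_lt hy) hB.2.1
  linarith [hB.2.2]

theorem Bs_local {c0 : ℝ} (h : 0 < c0) (h1 : c0 ≤ 1) (ρ1 : ℕ → ℝ) (hρ : Tendsto ρ1 atTop (𝓝 0)) {x : EE 4}
    (hx : x ∈ UInf c0) :
    ∃ O ∈ 𝓝 x, ∀ᶠ k in atTop, ∀ y ∈ O, ∀ j ∈ Finset.range (k + 2), y ∉ Bs c0 (k + 1) (ρ1 k) j := by
  have hU : Ur x ≠ 0 := UInf_Ur hx
  have hU0 : 0 < Ur x := lt_of_le_of_ne (by unfold Ur; positivity) (Ne.symm hU)
  set m : ℝ := Ur x with hm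
  have hO0 : {y : EE 4 | m / 2 < Ur y} ∈ 𝓝 x :=
    (ufb_Ur_cont.continuousAt).eventually_const_lt (u := m / 2) (by linarith)
  -- only finitely many holes
  have hJ : ∃ J : ℕ, rh J ≤ m / 2 := by
    have h2 : Tendsto rh atTop (𝓝 0) := by
      have h3 := ufb_xh_tendsto.div_const 4096
      rw [zero_div] at h3
      exact h3
    obtain ⟨J, hJ⟩ := (h2.eventually_lt_const (u := m / 2) (by linarith)).exists
    exact ⟨J, hJ.le⟩
  obtain ⟨J, hJ⟩ := hJ
  have hone : ∀ j : ℕ, ∃ O ∈ 𝓝 x, ∀ᶠ k in atTop, ∀ y ∈ O, 1 ≤ j → y ∉ Bs c0 (k + 1) (ρ1 k) j := by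
    intro j
    by_cases hj : 1 ≤ j
    · obtain ⟨O, hO, hk⟩ := ufb_one h h1 ρ1 hρ hx hj
      exact ⟨O, hO, hk.mono fun k hk y hy _ => hk y hy⟩
    · exact ⟨univ, univ_mem, Eventually.of_forall fun k y _ hj' => absurd hj' hj⟩
  choose O hO hOk using hone
  have hxh : Tendsto (fun k : ℕ => 5 / 4 * xh (k + 1 + 1)) atTop (𝓝 0) := by
    have h3 := (ufb_xh_tendsto.comp (tendsto_add_atTop_nat 2)).const_mul (5 / 4)
    rw [mul_zero] at h3
    exact h3
  have hfin : ∀ᶠ k in atTop, ∀ j ∈ Finset.range J, ∀ y ∈ O j, 1 ≤ j → y ∉ Bs c0 (k + 1) (ρ1 k) j := by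
    rw [Filter.eventually_all_finset]
    intro j _
    exact hOk j
  refine ⟨{y : EE 4 | m / 2 < Ur y} ∩ ⋂ j ∈ Finset.range J, O j,
    inter_mem hO0 ((Filter.biInter_finset_mem _).mpr fun j _ => hO j), ?_⟩
  filter_upwards [hfin, hxh.eventually_lt_const (u := m / 2) (by linarith)] with k hk hk2 y hy j hj hB
  have hyU : m / 2 < Ur y := hy.1
  rcases Nat.eq_zero_or_pos j with rfl | hj0
  · -- the ball around the origin
    have h3 : ‖y‖ < 5 / 4 * xh (k + 1 + 1) := by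
      have h4 : y ∈ Metric.ball (0 : EE 4) (5 / 4 * xh (k + 1 + 1)) := hB
      rwa [mem_ball_zero_iff] at h4
    have := ufb_Ur_le y
    linarith
  · by_cases hjJ : j < J
    · have h3 : y ∈ O j := by
        have h4 := hy.2
        simp only [mem_iInter] at h4
        exact h4 j (Finset.mem_range.mpr hjJ)
      exact hk j (Finset.mem_range.mpr hjJ) y h3 hj0 hB
    · push Not at hjJ
      have h3 := Bs_sub h h1 hj0 hB
      have h4 := GPts_Ur_le_sc j y
      have h5 := GPts_rh_pos j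
      have h6 := (GPts_phh h h1 j)
      have h7 : epsh (phh c0 j) ≤ 1 := by
        have hp := phh_pos h j
        have hl := phh_le h h1 j
        have h8 : phh c0 j ≤ 1 / 2 := by
          have : c0 / 10 ^ 6 ≤ 1 / 2 := by
            rw [div_le_iff₀ (by norm_num)]
            linarith
          linarith
        have h9 := epsh_le hp h8
        have : phh c0 j / 10 ^ 12 ≤ 1 := by
          rw [div_le_iff₀ (by norm_num)]
          linarith
        linarith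
      have h8 : Ur y / rh j < 1 / 2 := by linarith
      rw [div_lt_iff₀ h5] at h8
      have h9 := ufb_rh_le hjJ
      linarith

/-- the metrics agree on compact sets of the limit patch -/
theorem hf_data {c0 : ℝ} (h : 0 < c0) (h1 : c0 ≤ 1) (ρ1 a ε δ : ℕ → ℝ) (Ψ U : ℕ → ℝ → ℝ)
    (H : ∀ k, Par (ρ1 k) (a k) (ε k) (δ k) (Ψ k) (U k)) (hδ : Tendsto δ atTop (𝓝 0))
    (hρ : Tendsto ρ1 atTop (𝓝 0)) (K : Set (EE 4)) (hK : IsCompact K) (hKU : K ⊆ UInf c0) :
    ∀ᶠ k in atTop, (∀ x ∈ K, gM c0 (k + 1) (Ψ k) (U k) x = gInf c0 x) ∧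
      ∀ x ∈ K, ∀ j ∈ Finset.range (k + 2), x ∉ Bs c0 (k + 1) (ρ1 k) j := by
  have hloc : ∀ x : EE 4, ∃ O : Set (EE 4), x ∈ K → O ∈ 𝓝 x ∧ ∀ᶠ k in atTop, ∀ y ∈ O,
      gM c0 (k + 1) (Ψ k) (U k) y = gInf c0 y ∧
        ∀ j ∈ Finset.range (k + 2), y ∉ Bs c0 (k + 1) (ρ1 k) j := by
    intro x
    by_cases hx : x ∈ K
    · obtain ⟨O1, hO1, h2⟩ := hf_local h h1 ρ1 a ε δ Ψ U H hδ hρ (hKU hx)
      obtain ⟨O2, hO2, h3⟩ := Bs_local h h1 ρ1 hρ (hKU hx)
      refine ⟨O1 ∩ O2, fun _ => ⟨inter_mem hO1 hO2, ?_⟩⟩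
      filter_upwards [h2, h3] with k hk2 hk3 y hy
      exact ⟨hk2 y hy.1, hk3 y hy.2⟩
    · exact ⟨univ, fun hx' => absurd hx' hx⟩
  choose O hO using hloc
  obtain ⟨t, htK, ht⟩ := hK.elim_nhds_subcover O (fun x hx => (hO x hx).1)
  have hfin : ∀ᶠ k in atTop, ∀ x ∈ t, ∀ y ∈ O x, gM c0 (k + 1) (Ψ k) (U k) y = gInf c0 y ∧
        ∀ j ∈ Finset.range (k + 2), y ∉ Bs c0 (k + 1) (ρ1 k) j := by
    rw [Filter.eventually_all_finset]
    intro x hx
    exact (hO x (htK x hx)).2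
  filter_upwards [hfin] with k hk
  have hall : ∀ y ∈ K, gM c0 (k + 1) (Ψ k) (U k) y = gInf c0 y ∧
        ∀ j ∈ Finset.range (k + 2), y ∉ Bs c0 (k + 1) (ρ1 k) j := by
    intro y hy
    have h2 := ht hy
    simp only [mem_iUnion] at h2
    obtain ⟨x, hx, hxy⟩ := h2
    exact hk x hx y hxy
  exact ⟨fun x hx => (hall x hx).1, fun x hx => (hall x hx).2⟩

end Pool.Agent.MP39e402
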