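import Pool.Agent.Lib.MP_39e402_gt.GCls
import Pool.Agent.Lib.MP_39e402_gt.GHol
import Pool.Agent.Lib.MP_39e402_gt.GRicT
import Pool.Agent.Lib.MP_39e402_gt.MMain
import Pool.Agent.Lib.MP_39e402_gt.UHb
import Pool.Agent.Lib.MP_39e402_gt.UHfb

/-! # MP_39e402, module GFin: assembly. -/

open Real Set Filter Topology MeasureTheory
open scoped ContDiff ENNReal

noncomputable section

namespace Pool.Agent.MP39e402

/-- `ChartConv` for the approximating patches -/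
theorem chartConv_PM {c0 ρ1 a ε δ : ℝ} {k : ℕ} {Ψ U : ℝ → ℝ} (h : 0 < c0) (h1 : c0 ≤ 1) (hk : 1 ≤ k)
    (H : Par ρ1 a ε δ Ψ U) (hδ : ∀ i, 1 ≤ i → i ≤ k → δ ≤ dbd c0 i)
    (hR : RicGE (gM c0 k Ψ U) (UM c0 k a) (-3))
    (q : (PM h h1 hk (Or.inl ⟨ρ1, ε, δ, H, hδ⟩)).Pt)
    (y : ℕ → (PM h h1 hk (Or.inl ⟨ρ1, ε, δ, H, hδ⟩)).Pt) (hy : ∃ R : ℝ, ∀ j, dist q (y j) ≤ R) :
    ChartConv (PM h h1 hk (Or.inl ⟨ρ1, ε, δ, H, hδ⟩)) (-3) y := by
  obtain ⟨R, hR'⟩ := hy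
  have hR0 : 0 ≤ max R 0 := le_max_right _ _
  have hb : ∀ j, ‖(y j).val‖ ≤ max ‖q.val‖ 2 + max R 0 := by
    intro j
    refine norm_bound (a := a) (Ψ := Ψ) (U := U) h h1 hk (Or.inl ⟨ρ1, ε, δ, H, hδ⟩) hR0 ?_
    have h2 := (hR' j).trans (le_max_left R 0)
    have h3 : edist q (y j) ≤ ENNReal.ofReal (max R 0) := by
      rw [edist_dist]
      exact ENNReal.ofReal_le_ofReal h2
    rw [Patch.edist_eq] at h3
    exact h3
  obtain ⟨V, hh, T, Φ, hL, hinj, -, x₀, hx₀, x, φ, hφ, hxm, hxl, hxy⟩ :=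
    bounded_class h h1 hk H hδ (fun j => (y j).val) (fun j => (y j).mem) hb
  refine ⟨V, hh, T, Φ, ?_, hinj, ?_, x₀, hx₀, x, φ, hφ, hxm, hxl, hxy⟩
  · exact LIso.toLocIso (P := PM h h1 hk (Or.inl ⟨ρ1, ε, δ, H, hδ⟩)) hL
  · exact hL.ricGE (gM_met h h1 hk (Or.inl ⟨ρ1, ε, δ, H, hδ⟩)) hR

/-- the sum of the `η`'s -/
theorem ηs_sum (k : ℕ) (ρ1 : ℝ) :
    ∑ j ∈ Finset.range (k + 1), ηs k ρ1 j = 100 * xh k + k * (20 * ρ1) := by
  rw [Finset.sum_range_succ']
  simp only [ηs]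
  rw [Finset.sum_const, Finset.card_range, nsmul_eq_mul]
  ring

theorem exists_limit (hR : RicOneHole) : ∃ (c0 : ℝ) (h : 0 < c0) (h1 : c0 ≤ 1) (x : (PInf h h1).Comp),
    IsNoncollapsedRicciLimit 4 (PInf h h1).Comp x := by
  obtain ⟨c0, h, h1, hk⟩ := exists_params hR
  have haa : 0 < aa := by
    unfold aa bb lam
    positivity
  have hη : ∀ k : ℕ, 0 < min aa (1 / ((k : ℝ) + 1) ^ 2) := fun k => lt_min haa (by positivity)
  choose ρ1 a ε δ Ψ U hP hδ hρ hρη hδη hRic using fun k : ℕ => hk (k + 1) (by omega) _ (hη k)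
  have hPat : ∀ k, Par (ρ1 k) (a k) (ε k) (δ k) (Ψ k) (U k) := hP
  have hρpos : ∀ k, 0 < ρ1 k := fun k => by
    have h2 := (hP k).cap.a_pos
    have h3 := (hP k).cap.a_lt
    linarith
  have h0 : Tendsto (fun k : ℕ => min aa (1 / ((k : ℝ) + 1) ^ 2)) atTop (𝓝 0) := by
    have e1 : Tendsto (fun k : ℕ => 1 / ((k : ℝ) + 1) ^ 2) atTop (𝓝 0) := by
      have e2 : Tendsto (fun k : ℕ => 1 / ((k : ℝ) + 1)) atTop (𝓝 0) := tendsto_one_div_add_atTop_nhds_zero_nat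
      have e3 := e2.pow 2
      simp only [one_div, inv_pow] at e3 ⊢
      simpa using e3
    exact squeeze_zero (fun k => (hη k).le) (fun k => min_le_right _ _) e1
  have hρ0 : Tendsto ρ1 atTop (𝓝 0) := squeeze_zero (fun k => (hρpos k).le) hρη h0
  -- `δ` may be replaced by its absolute value; in fact `δ > 0`
  have hδpos : ∀ k, 0 < δ k := by
    intro k
    by_contra hc
    push Not at hc
    obtain ⟨r, hr, hr'⟩ := (hP k).edge.near
    have e1 := (hP k).edge.far r (by linarith)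
    have e2 := hr' r (by rw [abs_of_pos hr])
    linarith
  have hδ0 : Tendsto δ atTop (𝓝 0) := squeeze_zero (fun k => (hδpos k).le) hδη h0
  have hG : ∀ k, GAdm c0 (k + 1) (a k) (Ψ k) (U k) := fun k => Or.inl ⟨ρ1 k, ε k, δ k, hP k, hδ k⟩
  have hball := fun k => ball_data (k := k + 1) h h1 (by omega) (hP k) ((hδη k).trans (min_le_left _ _))
  have hqP : qB ∈ (PInf h h1).U := (hball 0).1 (Metric.mem_closedBall_self (by norm_num))
  have hqQ : ∀ k, qB ∈ (PM h h1 (Nat.le_add_left 1 k) (hG k)).U := fun k =>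
    (hball k).2.1 (Metric.mem_closedBall_self (by norm_num))
  have hC : 0 < 2 / aa := by positivity
  refine ⟨c0, h, h1, _, isNoncollapsedRicciLimit_of_holes (PInf h h1)
    (fun k => PM h h1 (Nat.le_add_left 1 k) (hG k)) (q := qB) hqP hqQ hC
    (fun k => Finset.range (k + 1 + 1)) (fun k => Bs c0 (k + 1) (ρ1 k)) (fun k => ηs (k + 1) (ρ1 k))
    (fun k => holes_data h h1 (Nat.le_add_left 1 k) (hP k) (hδ k) (hρ k)) ?_ ?_ ?_ (ρ := 1) one_pos
    (hball 0).1 (fun k => ⟨(hball k).2.1, (hball k).2.2⟩)⟩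
  · -- the sum tends to zero
    have e0 : ∀ k : ℕ, ∑ j ∈ Finset.range (k + 1 + 1), ηs (k + 1) (ρ1 k) j
        = 100 * xh (k + 1) + ((k : ℝ) + 1) * (20 * ρ1 k) := by
      intro k
      rw [ηs_sum]
      push_cast
      ring
    simp only [e0]
    have e1 : Tendsto (fun k : ℕ => 100 * xh (k + 1)) atTop (𝓝 (100 * 0)) := by
      refine Tendsto.const_mul _ ?_
      unfold xh
      exact (tendsto_pow_atTop_nhds_zero_of_lt_one (by norm_num) (by norm_num)).comp (tendsto_add_atTop_nat 1)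
    have e2 : Tendsto (fun k : ℕ => ((k : ℝ) + 1) * (20 * ρ1 k)) atTop (𝓝 0) := by
      refine squeeze_zero (g := fun k : ℕ => 20 * (1 / ((k : ℝ) + 1))) (fun k => ?_) (fun k => ?_) ?_
      · have := hρpos k
        positivity
      · have e3 := (hρη k).trans (min_le_right _ _)
        have e4 : (0 : ℝ) < (k : ℝ) + 1 := by positivity
        calc ((k : ℝ) + 1) * (20 * ρ1 k) ≤ ((k : ℝ) + 1) * (20 * (1 / ((k : ℝ) + 1) ^ 2)) := by
              gcongr
          _ = 20 * (1 / ((k : ℝ) + 1)) := by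
              field_simp
      · have := (tendsto_one_div_add_atTop_nhds_zero_nat (𝕜 := ℝ)).const_mul 20
        simpa using this
    have := e1.add e2
    simpa using this
  · intro K hK hKU
    exact hf_data h h1 ρ1 a ε δ Ψ U hP hδ0 hρ0 K hK hKU
  · intro k y hy
    have e1 : (-(((4 : ℕ) : ℝ) - 1)) = (-3 : ℝ) := by norm_num
    rw [e1]
    exact chartConv_PM h h1 (Nat.le_add_left 1 k) (hP k) (hδ k) (hRic k) _ y hy

/-- the explicit form of the negation of the conjecture, `n = 4` -/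
theorem disproof_explicit (hR : RicOneHole) : ∃ (X : Type) (_ : MetricSpace X) (x : X),
    IsNoncollapsedRicciLimit 4 X x ∧ ∃ B : Set X, Bornology.IsBounded B ∧ hausM 0 (STop 4 X ∩ B) = ⊤ := by
  obtain ⟨c0, h, h1, x, hx⟩ := exists_limit hR
  obtain ⟨A, hA, hb, hS⟩ := infinite_STop h h1
  refine ⟨(PInf h h1).Comp, inferInstance, x, hx, A, hb, ?_⟩
  rw [inter_eq_right.mpr hS]
  exact hausM_zero_eq_top hA

theorem disproof (hR : RicOneHole) : ¬ Conjecture39e402 := by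
  obtain ⟨c0, h, h1, x, hx⟩ := exists_limit hR
  obtain ⟨A, hA, hb, hS⟩ := infinite_STop h h1
  exact not_conjecture hx hA hb hS

end Pool.Agent.MP39e402
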