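import Pool.Agent.Lib.MP_39e402_gt.LPar
import Pool.Agent.Lib.MP_39e402_gt.LSt

/-! # MP_39e402, module LPsi: existence of the edge smoothing function.
`Ψ(w) = w (1 - I(w)/(2M))`, `I(w) = ∫_0^w K`, `M = I(δ)`,
`K(w) = st(w/w0 - 1) (1 - st(2w/δ - 1)) w1 / (w (w1 + w))`, `w1 = min(δ/2, δ³/64)`,
`w0 = (w1/2) exp(-2/ε)`.  Then `w K ≤ 1 ≤ ε M` and `-(2K + w K') ≤ w`. -/

open Real Set Filter Topology MeasureTheory
open scoped ContDiff

noncomputable section

namespace Pool.Agent.MP39e402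

namespace PsiAux

theorem mono {F F' : ℝ → ℝ} {a b : ℝ} (hab : a ≤ b)
    (hF : ∀ t, a ≤ t → t ≤ b → HasDerivAt F (F' t) t)
    (h : ∀ t, a ≤ t → t ≤ b → 0 ≤ F' t) : F a ≤ F b := by
  have h1 : MonotoneOn F (Icc a b) := by
    apply monotoneOn_of_deriv_nonneg (convex_Icc a b)
    · exact fun t ht => (hF t ht.1 ht.2).continuousAt.continuousWithinAt
    · intro t ht
      rw [interior_Icc] at ht
      exact (hF t ht.1.le ht.2.le).differentiableAt.differentiableWithinAt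
    · intro t ht
      rw [interior_Icc] at ht
      rw [(hF t ht.1.le ht.2.le).deriv]
      exact h t ht.1.le ht.2.le
  exact h1 ⟨le_rfl, hab⟩ ⟨hab, le_rfl⟩ hab

theorem int_hasDerivAt {u : ℝ → ℝ} (hu : Continuous u) (t : ℝ) :
    HasDerivAt (fun x => ∫ r in (0:ℝ)..x, u r) (u t) t :=
  (hu.integral_hasStrictDerivAt 0 t).hasDerivAt

theorem int_contDiff {u : ℝ → ℝ} (hu : ContDiff ℝ ∞ u) :
    ContDiff ℝ ∞ (fun x => ∫ r in (0:ℝ)..x, u r) := by
  rw [contDiff_infty_iff_deriv]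
  refine ⟨fun x => (int_hasDerivAt hu.continuous x).differentiableAt, ?_⟩
  have : deriv (fun x => ∫ r in (0:ℝ)..x, u r) = u :=
    funext fun x => (int_hasDerivAt hu.continuous x).deriv
  rw [this]
  exact hu

theorem st_deriv_zero {t : ℝ} (h : t ≤ 0) : deriv st t = 0 := by
  apply IsLocalMin.deriv_eq_zero
  filter_upwards with x
  rw [st_zero h]
  exact st_nonneg x

theorem st_hasDerivAt (t : ℝ) : HasDerivAt st (deriv st t) t :=
  (st_contDiff.differentiable (by simp)).differentiableAt.hasDerivAt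

/-- the integrand -/
def kf (w0 w1 δ w : ℝ) : ℝ :=
  st (w / w0 - 1) * (1 - st (2 * w / δ - 1)) * (w1 / (w * (w1 + w)))

/-- its derivative for `w > 0` -/
def kf' (w0 w1 δ w : ℝ) : ℝ :=
  (deriv st (w / w0 - 1) * (1 / w0) * (1 - st (2 * w / δ - 1))
    + st (w / w0 - 1) * (-(deriv st (2 * w / δ - 1) * (2 / δ)))) * (w1 / (w * (w1 + w)))
  + st (w / w0 - 1) * (1 - st (2 * w / δ - 1)) * (-(w1 * (w1 + 2 * w)) / (w * (w1 + w))^2)

theorem kf_zero {w0 w1 δ w : ℝ} (h0 : 0 < w0) (h : w ≤ w0) : kf w0 w1 δ w = 0 := by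
  unfold kf
  rw [st_zero, zero_mul, zero_mul]
  have : w / w0 ≤ 1 := (div_le_one h0).2 h
  linarith

theorem kf_right {w0 w1 δ w : ℝ} (hδ : 0 < δ) (h : δ ≤ w) : kf w0 w1 δ w = 0 := by
  unfold kf
  have h1 : 1 ≤ w / δ := (one_le_div hδ).2 h
  have h2 : 2 * w / δ = 2 * (w / δ) := by ring
  rw [st_one (t := 2 * w / δ - 1) (by rw [h2]; linarith), sub_self, mul_zero, zero_mul]

theorem kf_contDiff {w0 w1 δ : ℝ} (h0 : 0 < w0) (h1 : 0 < w1) : ContDiff ℝ ∞ (kf w0 w1 δ) := by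
  rw [contDiff_iff_contDiffAt]
  intro w
  rcases lt_or_ge w w0 with h | h
  · have : kf w0 w1 δ =ᶠ[𝓝 w] fun _ => 0 := by
      filter_upwards [Iio_mem_nhds h] with s hs
      exact kf_zero h0 (le_of_lt hs)
    exact contDiffAt_const.congr_of_eventuallyEq this
  · have hw : 0 < w := lt_of_lt_of_le h0 h
    have k1 : ContDiff ℝ ∞ (fun w : ℝ => st (w / w0 - 1)) := st_contDiff.comp (by fun_prop)
    have k2 : ContDiff ℝ ∞ (fun w : ℝ => 1 - st (2 * w / δ - 1)) :=
      contDiff_const.sub (st_contDiff.comp (by fun_prop))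
    have k3 : ContDiffAt ℝ ∞ (fun w : ℝ => w1 / (w * (w1 + w))) w := by
      apply ContDiffAt.div contDiffAt_const
      · fun_prop
      · positivity
    exact (k1.mul k2).contDiffAt.mul k3

theorem kf_hasDerivAt {w0 w1 δ w : ℝ} (h1 : 0 < w1) (hw : 0 < w) :
    HasDerivAt (kf w0 w1 δ) (kf' w0 w1 δ w) w := by
  have a0 : HasDerivAt (fun w : ℝ => w / w0 - 1) (1 / w0) w :=
    ((hasDerivAt_id w).div_const w0).sub_const 1
  have b0 : HasDerivAt (fun w : ℝ => 2 * w / δ - 1) (2 / δ) w := by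
    have := (((hasDerivAt_id w).const_mul 2).div_const δ).sub_const 1
    simpa using this
  have a1 := (st_hasDerivAt (w / w0 - 1)).comp w a0
  have b1 := ((st_hasDerivAt (2 * w / δ - 1)).comp w b0).const_sub 1
  have c0 : HasDerivAt (fun w : ℝ => w * (w1 + w)) (1 * (w1 + w) + w * 1) w :=
    (hasDerivAt_id w).mul ((hasDerivAt_id w).const_add w1)
  have c1 : HasDerivAt (fun w : ℝ => w1 / (w * (w1 + w)))
      (-(w1 * (w1 + 2 * w)) / (w * (w1 + w))^2) w := by
    refine ((hasDerivAt_const w w1).div c0 (by positivity)).congr_deriv ?_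
    ring
  exact ((a1.mul b1).mul c1)

theorem kf_nonneg {w0 w1 δ w : ℝ} (h1 : 0 < w1) (hw : 0 ≤ w) : 0 ≤ kf w0 w1 δ w := by
  unfold kf
  have := st_nonneg (w / w0 - 1)
  have := st_le_one (2 * w / δ - 1)
  have : 0 ≤ w1 / (w * (w1 + w)) := by positivity
  have : 0 ≤ 1 - st (2 * w / δ - 1) := by linarith
  positivity

theorem mul_kf_le {w0 w1 δ w : ℝ} (h1 : 0 < w1) (hw : 0 < w) : w * kf w0 w1 δ w ≤ 1 := by
  unfold kf
  have k1 := st_nonneg (w / w0 - 1)
  have k2 := st_le_one (w / w0 - 1)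
  have k3 := st_nonneg (2 * w / δ - 1)
  have k4 := st_le_one (2 * w / δ - 1)
  have e : w * (st (w / w0 - 1) * (1 - st (2 * w / δ - 1)) * (w1 / (w * (w1 + w)))) =
      (st (w / w0 - 1) * (1 - st (2 * w / δ - 1))) * (w1 / (w1 + w)) := by
    field_simp
  rw [e]
  have k5 : w1 / (w1 + w) ≤ 1 := by
    rw [div_le_one (by positivity)]
    linarith
  have k6 : 0 ≤ w1 / (w1 + w) := by positivity
  have k7 : st (w / w0 - 1) * (1 - st (2 * w / δ - 1)) ≤ 1 :=
    mul_le_one₀ k2 (by linarith) (by linarith)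
  exact mul_le_one₀ k7 k6 k5

/-- the main estimate -/
theorem kf_main {w0 w1 δ w : ℝ} (h0 : 0 < w0) (h1 : 0 < w1) (hδ : 0 < δ) (hw1 : w1 ≤ δ^3 / 64)
    (hw : 0 < w) : -(2 * kf w0 w1 δ w + w * kf' w0 w1 δ w) ≤ w := by
  have k1 := st_nonneg (w / w0 - 1)
  have k2 := st_le_one (w / w0 - 1)
  have k3 := st_nonneg (2 * w / δ - 1)
  have k4 := st_le_one (2 * w / δ - 1)
  have k5 := st_deriv_nonneg (w / w0 - 1)
  have k6 := st_deriv_nonneg (2 * w / δ - 1)
  have e : -(2 * kf w0 w1 δ w + w * kf' w0 w1 δ w) =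
      st (w / w0 - 1) * (deriv st (2 * w / δ - 1) * (2 / δ) * (w1 / (w1 + w)))
      - deriv st (w / w0 - 1) * (1 / w0) * (1 - st (2 * w / δ - 1)) * (w1 / (w1 + w))
      - st (w / w0 - 1) * (1 - st (2 * w / δ - 1)) * (w1^2 / (w * (w1 + w)^2)) := by
    unfold kf kf'
    field_simp
    ring
  rw [e]
  have k7 : 0 ≤ w1 / (w1 + w) := by positivity
  have k8 : 0 ≤ deriv st (w / w0 - 1) * (1 / w0) * (1 - st (2 * w / δ - 1)) * (w1 / (w1 + w)) := by
    have : 0 ≤ 1 - st (2 * w / δ - 1) := by linarith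
    positivity
  have k9 : 0 ≤ st (w / w0 - 1) * (1 - st (2 * w / δ - 1)) * (w1^2 / (w * (w1 + w)^2)) := by
    have : 0 ≤ 1 - st (2 * w / δ - 1) := by linarith
    positivity
  have k10 : 0 ≤ deriv st (2 * w / δ - 1) * (2 / δ) * (w1 / (w1 + w)) := by positivity
  have k11 : deriv st (2 * w / δ - 1) * (2 / δ) * (w1 / (w1 + w)) ≤ w := by
    rcases le_total (2 * w / δ - 1) 0 with h | h
    · rw [st_deriv_zero h, zero_mul, zero_mul]
      exact hw.le
    · have m1 := st_deriv_le (2 * w / δ - 1)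
      have m2 : δ ≤ 2 * w := by
        have : 1 ≤ 2 * w / δ := by linarith
        rwa [one_le_div hδ] at this
      have m3 : w1 / (w1 + w) ≤ w1 / w := by
        apply div_le_div_of_nonneg_left h1.le hw
        linarith
      have m4 : deriv st (2 * w / δ - 1) * (2 / δ) * (w1 / (w1 + w)) ≤ 8 * (2 / δ) * (w1 / w) :=
        mul_le_mul (mul_le_mul_of_nonneg_right m1 (by positivity)) m3 k7 (by positivity)
      refine m4.trans ?_
      have m5 : 8 * (2 / δ) * (w1 / w) = 16 * w1 / (δ * w) := by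
        field_simp
        ring
      rw [m5, div_le_iff₀ (by positivity)]
      have m6 : δ^2 ≤ (2 * w)^2 := pow_le_pow_left₀ hδ.le m2 2
      have m7 : δ * δ^2 ≤ δ * (2 * w)^2 := mul_le_mul_of_nonneg_left m6 hδ.le
      nlinarith
  have k12 : st (w / w0 - 1) * (deriv st (2 * w / δ - 1) * (2 / δ) * (w1 / (w1 + w))) ≤
      1 * (deriv st (2 * w / δ - 1) * (2 / δ) * (w1 / (w1 + w))) :=
    mul_le_mul_of_nonneg_right k2 k10
  linarith

/-- the integral -/
def If (w0 w1 δ w : ℝ) : ℝ := ∫ r in (0:ℝ)..w, kf w0 w1 δ r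

theorem If_left {w0 w1 δ w : ℝ} (h0 : 0 < w0) (h : w ≤ w0) : If w0 w1 δ w = 0 := by
  unfold If
  have : ∫ r in (0:ℝ)..w, kf w0 w1 δ r = ∫ r in (0:ℝ)..w, (0:ℝ) := by
    apply intervalIntegral.integral_congr
    intro r hr
    exact kf_zero h0 (le_trans hr.2 (max_le h0.le h))
  rw [this]
  simp

theorem If_hasDerivAt {w0 w1 δ : ℝ} (h0 : 0 < w0) (h1 : 0 < w1) (w : ℝ) :
    HasDerivAt (If w0 w1 δ) (kf w0 w1 δ w) w :=
  int_hasDerivAt (kf_contDiff h0 h1).continuous w

theorem If_mono {w0 w1 δ a b : ℝ} (h0 : 0 < w0) (h1 : 0 < w1) (ha : 0 ≤ a) (hab : a ≤ b) :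
    If w0 w1 δ a ≤ If w0 w1 δ b :=
  mono hab (fun t _ _ => If_hasDerivAt h0 h1 t) (fun t h2 _ => kf_nonneg h1 (ha.trans h2))

theorem If_nonneg {w0 w1 δ w : ℝ} (h0 : 0 < w0) (h1 : 0 < w1) (hw : 0 ≤ w) :
    0 ≤ If w0 w1 δ w := by
  have h := If_mono (δ := δ) h0 h1 le_rfl hw
  rw [If_left (w := 0) h0 h0.le] at h
  exact h

theorem If_right {w0 w1 δ w : ℝ} (h0 : 0 < w0) (h1 : 0 < w1) (hδ : 0 < δ) (h : δ ≤ w) :
    If w0 w1 δ w = If w0 w1 δ δ := by
  have k1 := If_mono (δ := δ) h0 h1 hδ.le h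
  have k2 := mono (F := fun w => -If w0 w1 δ w) (F' := fun w => -kf w0 w1 δ w) h
    (fun t _ _ => (If_hasDerivAt h0 h1 t).neg) (fun _ h2 _ => by
      rw [kf_right hδ h2]
      simp)
  linarith

theorem If_le {w0 w1 δ w : ℝ} (h0 : 0 < w0) (h1 : 0 < w1) (hδ : 0 < δ) (hw : 0 ≤ w) :
    If w0 w1 δ w ≤ If w0 w1 δ δ := by
  rcases le_total w δ with h | h
  · exact If_mono h0 h1 hw h
  · exact (If_right h0 h1 hδ h).le

theorem If_ge {w1 δ ε : ℝ} (h1 : 0 < w1) (hδ : 0 < δ) (hw1 : w1 ≤ δ / 2) (hε : 0 < ε) :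
    1 / ε ≤ If (w1 / 2 * Real.exp (-(2 / ε))) w1 δ δ := by
  set w0 := w1 / 2 * Real.exp (-(2 / ε)) with hw0
  have h0 : 0 < w0 := by positivity
  have h2 : 2 * w0 ≤ w1 := by
    have : Real.exp (-(2 / ε)) ≤ 1 := by
      rw [Real.exp_le_one_iff]
      have : 0 < 2 / ε := by positivity
      linarith
    rw [hw0]
    nlinarith
  have h3 := mono (F := fun w => If w0 w1 δ w - Real.log w / 2)
    (F' := fun w => kf w0 w1 δ w - w⁻¹ / 2) h2
    (fun t h3 _ => (If_hasDerivAt h0 h1 t).sub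
      ((Real.hasDerivAt_log (show t ≠ 0 from (lt_of_lt_of_le (by linarith) h3).ne')).div_const 2))
    (fun t h3 h4 => by
      have ht : 0 < t := by linarith
      unfold kf
      have k1 : 1 ≤ t / w0 - 1 := by
        have : 2 ≤ t / w0 := by
          rw [le_div_iff₀ h0]
          exact h3
        linarith
      have k2 : 2 * t / δ - 1 ≤ 0 := by
        have : 2 * t / δ ≤ 1 := by
          rw [div_le_one hδ]
          linarith
        linarith
      rw [st_one k1, st_zero k2, sub_zero, mul_one, one_mul, sub_nonneg, le_div_iff₀ (by positivity)]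
      have : t⁻¹ / 2 * (t * (w1 + t)) = (w1 + t) / 2 := by
        field_simp
      rw [this]
      linarith)
  have h4 := If_nonneg (δ := δ) (w := 2 * w0) h0 h1 (by linarith)
  have h5 := If_mono (δ := δ) (a := w1) (b := δ) h0 h1 h1.le (by linarith)
  have h6 : Real.log (2 * w0) = Real.log w1 - 2 / ε := by
    have : 2 * w0 = w1 * Real.exp (-(2 / ε)) := by
      rw [hw0]
      ring
    rw [this, Real.log_mul h1.ne' (Real.exp_pos _).ne', Real.log_exp]
    ring
  have h7 : 2 / ε / 2 = 1 / ε := by ring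
  rw [h6] at h3
  linarith

end PsiAux

open PsiAux in
theorem edge_exists {ε δ : ℝ} (hε : 0 < ε) (hε1 : ε ≤ 1) (hδ : 0 < δ) : ∃ Ψ : ℝ → ℝ, IsEdge ε δ Ψ := by
  set w1 : ℝ := min (δ / 2) (δ^3 / 64) with hw1
  have h1 : 0 < w1 := lt_min (by positivity) (by positivity)
  have h11 : w1 ≤ δ / 2 := min_le_left _ _
  have h12 : w1 ≤ δ^3 / 64 := min_le_right _ _
  have hM := If_ge (ε := ε) h1 hδ h11 hε
  set w0 := w1 / 2 * Real.exp (-(2 / ε)) with hw0
  have h0 : 0 < w0 := by positivity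
  set M := If w0 w1 δ δ with hMdef
  have hM0 : 0 < M := lt_of_lt_of_le (by positivity) hM
  have hεM : 1 ≤ ε * M := by
    rw [div_le_iff₀ hε] at hM
    linarith
  set Ψ : ℝ → ℝ := fun w => w * (1 - If w0 w1 δ w / (2 * M)) with hΨ
  have hI0 : ∀ w, 0 ≤ w → 0 ≤ If w0 w1 δ w / (2 * M) := fun w hw =>
    div_nonneg (If_nonneg h0 h1 hw) (by positivity)
  have hI1 : ∀ w, 0 ≤ w → If w0 w1 δ w / (2 * M) ≤ 1 / 2 := fun w hw => by
    rw [div_le_iff₀ (by positivity)]
    have := If_le h0 h1 hδ hw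
    linarith
  have hd : ∀ w, HasDerivAt Ψ (1 * (1 - If w0 w1 δ w / (2 * M)) + w * (-(kf w0 w1 δ w / (2 * M)))) w :=
    fun w => (hasDerivAt_id w).mul (((If_hasDerivAt h0 h1 w).div_const (2 * M)).const_sub 1)
  have hd' : deriv Ψ = fun w => 1 * (1 - If w0 w1 δ w / (2 * M)) + w * (-(kf w0 w1 δ w / (2 * M))) :=
    funext fun w => (hd w).deriv
  have hdd : ∀ w, 0 < w → deriv (deriv Ψ) w =
      -(2 * kf w0 w1 δ w + w * kf' w0 w1 δ w) / (2 * M) := by
    intro w hw
    rw [hd']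
    have := ((((If_hasDerivAt (δ := δ) h0 h1 w).div_const (2 * M)).const_sub 1).const_mul 1).add
      ((hasDerivAt_id w).mul (((kf_hasDerivAt (w0 := w0) (δ := δ) h1 hw).div_const (2 * M)).neg))
    refine (this.congr_deriv ?_).deriv
    simp only [id, Pi.neg_apply]
    ring
  have hlb : ∀ w, 0 ≤ w → w / 2 ≤ Ψ w := by
    intro w hw
    have := hI1 w hw
    simp only [hΨ]
    nlinarith
  refine ⟨Ψ, ?_⟩
  refine
    { smooth := ?_
      near := ⟨w0, h0, fun w hw => ?_⟩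
      far := fun w hw => ?_
      lb := hlb
      ub := fun w hw => ?_
      dlb := fun w hw => ?_
      dub := fun w hw => ?_
      dd := fun w hw => ?_ }
  · exact contDiff_id.mul (contDiff_const.sub ((int_contDiff (kf_contDiff h0 h1)).div_const _))
  · simp only [hΨ]
    rw [If_left h0 (le_trans (le_abs_self w) hw)]
    simp
  · simp only [hΨ]
    rw [If_right h0 h1 hδ hw, ← hMdef]
    field_simp
    ring
  · have := hI0 w hw
    simp only [hΨ]
    nlinarith
  · rw [hd']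
    have k1 := mul_kf_le (w0 := w0) (δ := δ) h1 hw
    have k2 := hlb w hw.le
    have k3 : w * kf w0 w1 δ w / (2 * M) ≤ ε / 2 := by
      rw [div_le_iff₀ (by positivity)]
      linarith
    have e : w * (1 * (1 - If w0 w1 δ w / (2 * M)) + w * (-(kf w0 w1 δ w / (2 * M)))) =
        Ψ w - w * (w * kf w0 w1 δ w / (2 * M)) := by
      simp only [hΨ]
      ring
    rw [e]
    have k4 := mul_le_mul_of_nonneg_left k3 hw.le
    have k5 := mul_le_mul_of_nonneg_left k2 hε.le
    linarith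
  · rw [hd']
    have k1 := kf_nonneg (w0 := w0) (δ := δ) h1 hw.le
    have e : w * (1 * (1 - If w0 w1 δ w / (2 * M)) + w * (-(kf w0 w1 δ w / (2 * M)))) =
        Ψ w - w * (w * kf w0 w1 δ w / (2 * M)) := by
      simp only [hΨ]
      ring
    rw [e]
    have : 0 ≤ w * (w * kf w0 w1 δ w / (2 * M)) := by positivity
    linarith
  · rw [hdd w hw, div_le_iff₀ (by positivity)]
    have k1 := kf_main h0 h1 hδ h12 hw
    have k2 := hlb w hw.le
    have k3 : ε * (w / 2) * (2 * M) ≤ ε * Ψ w * (2 * M) :=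
      mul_le_mul_of_nonneg_right (mul_le_mul_of_nonneg_left k2 hε.le) (by positivity)
    have k4 : w ≤ ε * (w / 2) * (2 * M) := by
      have : w * 1 ≤ w * (ε * M) := mul_le_mul_of_nonneg_left hεM hw.le
      linarith
    linarith

/-- scaling: `Ψ_r(w) = Ψ(r w)/r` -/
theorem IsEdge.scale {ε δ r : ℝ} {Ψ : ℝ → ℝ} (h : IsEdge ε δ Ψ) (hr : 0 < r) (hr1 : r ≤ 1) (hε : 0 ≤ ε) :
    IsEdge ε (δ / r) (fun w => Ψ (r * w) / r) := by
  have hlin : ∀ w : ℝ, HasDerivAt (fun w : ℝ => r * w) r w := fun w => by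
    simpa using (hasDerivAt_id w).const_mul r
  have hdiff : Differentiable ℝ Ψ := h.smooth.differentiable (by simp)
  have hdiff2 : Differentiable ℝ (deriv Ψ) :=
    ((contDiff_infty_iff_deriv.1 h.smooth).2).differentiable (by simp)
  have hd : ∀ w, HasDerivAt (fun w => Ψ (r * w) / r) (deriv Ψ (r * w)) w := fun w => by
    have := ((hdiff (r * w)).hasDerivAt.comp w (hlin w)).div_const r
    refine this.congr_deriv ?_
    field_simp
  have hd' : deriv (fun w => Ψ (r * w) / r) = fun w => deriv Ψ (r * w) :=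
    funext fun w => (hd w).deriv
  have hdd : ∀ w, deriv (deriv (fun w => Ψ (r * w) / r)) w = deriv (deriv Ψ) (r * w) * r := fun w => by
    rw [hd']
    exact ((hdiff2 (r * w)).hasDerivAt.comp w (hlin w)).deriv
  refine
    { smooth := ?_
      near := ?_
      far := fun w hw => ?_
      lb := fun w hw => ?_
      ub := fun w hw => ?_
      dlb := fun w hw => ?_
      dub := fun w hw => ?_
      dd := fun w hw => ?_ }
  · exact (h.smooth.comp (contDiff_const.mul contDiff_id)).div_const r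
  · obtain ⟨q, hq, hq'⟩ := h.near
    refine ⟨q / r, by positivity, fun w hw => ?_⟩
    rw [le_div_iff₀ hr] at hw
    rw [hq' (r * w) (by rw [abs_mul, abs_of_pos hr]; linarith)]
    field_simp
  · rw [div_le_iff₀ hr] at hw
    rw [h.far (r * w) (by linarith)]
    field_simp
  · rw [le_div_iff₀ hr]
    have := h.lb (r * w) (by positivity)
    linarith
  · rw [div_le_iff₀ hr]
    have := h.ub (r * w) (by positivity)
    linarith
  · rw [hd']
    have := h.dlb (r * w) (by positivity)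
    have e : (1 - ε) * (Ψ (r * w) / r) = (1 - ε) * Ψ (r * w) / r := by ring
    rw [e, div_le_iff₀ hr]
    linarith
  · rw [hd', le_div_iff₀ hr]
    have := h.dub (r * w) (by positivity)
    linarith
  · rw [hdd]
    have h1 := h.dd (r * w) (by positivity)
    have h2 := h.lb (r * w) (by positivity)
    have h3 : 0 ≤ Ψ (r * w) := le_trans (by positivity) h2
    have h4 : deriv (deriv Ψ) (r * w) * r ≤ ε * Ψ (r * w) * r := mul_le_mul_of_nonneg_right h1 hr.le
    refine h4.trans ?_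
    have e : ε * (Ψ (r * w) / r) = ε * Ψ (r * w) / r := by ring
    rw [e, le_div_iff₀ hr]
    have h5 : 0 ≤ ε * Ψ (r * w) := mul_nonneg hε h3
    have h6 : r * r ≤ 1 := by nlinarith
    nlinarith

end Pool.Agent.MP39e402
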