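import Pool.Agent.Lib.MP_39e402_gt.GDefs
import Pool.Agent.Lib.MP_39e402_gt.LPsi

/-! # MP_39e402, module UAdm: admissible parameters on the three levels (core, one hole, global)

`scΨ s Ψ w = Ψ (s w)/s`.  `IsEdge ε δ Ψ` gives `IsEdge ε (δ/s) (scΨ s Ψ)` for `0 < s ≤ 1`, `0 ≤ ε`
(`IsEdge.scale` in LPsi).  `epsh ph ≤ ph/10^12` (`epsh_le`), `rh i ≤ 1/4096`, `sC < 1/2`.
Properties of the core: `isCoreC : IsCore bC fC taC TC t1C`. -/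

open Real Set Filter Topology MeasureTheory
open scoped ContDiff

noncomputable section

namespace Pool.Agent.MP39e402

/-- bound for `δ` for the hole `i` -/
def dbd (c0 : ℝ) (i : ℕ) : ℝ := rh i * (epsh (phh c0 i) * sC) * (sin taC / 2)

def HAdm (ph a : ℝ) (Ψ U : ℝ → ℝ) : Prop :=
  (∃ ρ1 ε δ : ℝ, Par ρ1 a ε δ Ψ U ∧ δ ≤ epsh ph * sC * (sin taC / 2)) ∨ (a = 0 ∧ Ψ = Ψ0 ∧ U = U0)

def GAdm (c0 : ℝ) (k : ℕ) (a : ℝ) (Ψ U : ℝ → ℝ) : Prop :=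
  (∃ ρ1 ε δ : ℝ, Par ρ1 a ε δ Ψ U ∧ ∀ i, 1 ≤ i → i ≤ k → δ ≤ dbd c0 i) ∨ (a = 0 ∧ Ψ = Ψ0 ∧ U = U0)

theorem sC_pos : 0 < sC := by
  have h1 := isCoreC.T_gt
  have h2 := isCoreC.t1_pos
  unfold sC
  positivity

theorem sC_t1C : sC * t1C < 1 / 2 := by
  have h1 := isCoreC.T_gt
  have h2 := isCoreC.t1_pos
  unfold sC
  rw [one_div, inv_mul_lt_iff₀ (by linarith)]
  linarith

theorem sC_lt : sC < 1 / 2 := by
  have h1 := isCoreC.T_gt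
  have h2 := isCoreC.t1_pos
  unfold sC
  exact one_div_lt_one_div_of_lt (by norm_num) (by linarith)

theorem sin_taC_pos : 0 < sin taC := by
  have h1 := isCoreC.ta_pos
  have h2 := isCoreC.ta_le
  have h3 := Real.pi_gt_three
  exact Real.sin_pos_of_pos_of_lt_pi h1 (by linarith)

theorem sin_taC_lt : sin taC < 48 / 100 := by
  have h1 := isCoreC.ta_pos
  have h2 := isCoreC.ta_le
  have h3 := Real.pi_gt_three
  have h4 : sin taC ≤ sin (1 / 2) :=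
    Real.sin_le_sin_of_le_of_le_pi_div_two (by linarith) (by linarith) h2
  have h5 : sin (1 / 2 : ℝ) = 2 * sin (1 / 4) * cos (1 / 4) := by
    rw [← Real.sin_two_mul]
    norm_num
  have h6 := (abs_le.1 (Real.sin_bound (x := (1 / 4 : ℝ)) (by rw [abs_of_pos] <;> norm_num))).2
  have h7 := (abs_le.1 (Real.cos_bound (x := (1 / 4 : ℝ)) (by rw [abs_of_pos] <;> norm_num))).2
  rw [abs_of_pos (by norm_num)] at h6 h7
  have h8 : 0 < sin (1 / 4 : ℝ) := Real.sin_pos_of_pos_of_lt_pi (by norm_num) (by linarith)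
  have h9 : 0 < cos (1 / 4 : ℝ) := Real.cos_pos_of_mem_Ioo ⟨by linarith, by linarith⟩
  have h10 : sin (1 / 4 : ℝ) ≤ 24761 / 100000 := by
    norm_num at h6
    linarith
  have h11 : cos (1 / 4 : ℝ) ≤ 96896 / 100000 := by
    norm_num at h7
    linarith
  have h12 : sin (1 / 4 : ℝ) * cos (1 / 4) ≤ (24761 / 100000) * (96896 / 100000) :=
    mul_le_mul h10 h11 h9.le (by norm_num)
  have h13 : ((24761 : ℝ) / 100000) * (96896 / 100000) < 24 / 100 := by norm_num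
  rw [h5] at h4
  linarith

theorem rh_pos (i : ℕ) : 0 < rh i := by
  unfold rh xh
  positivity

theorem rh_le (i : ℕ) : rh i ≤ 1 / 4096 := by
  unfold rh xh
  have h : ((1 : ℝ) / 2) ^ i ≤ 1 := pow_le_one₀ (by norm_num) (by norm_num)
  linarith

theorem scΨ_Ψ0 {s : ℝ} (h : 0 < s) : scΨ s Ψ0 = Ψ0 := by
  funext w
  unfold scΨ Ψ0
  field_simp

theorem scΨ_scΨ (s t : ℝ) (Ψ : ℝ → ℝ) : scΨ s (scΨ t Ψ) = scΨ (t * s) Ψ := by
  funext w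
  unfold scΨ
  rw [div_div, mul_assoc]

theorem scΨ_smooth {s : ℝ} (hs : 0 < s) {Ψ : ℝ → ℝ} (h : ContDiff ℝ ∞ (scΨ s Ψ)) : ContDiff ℝ ∞ Ψ := by
  have h1 : Ψ = fun w => s * scΨ s Ψ (w / s) := by
    funext w
    unfold scΨ
    rw [mul_div_cancel₀ _ hs.ne', mul_div_cancel₀ _ hs.ne']
  rw [h1]
  exact contDiff_const.mul (h.comp (contDiff_id.div_const s))

theorem scΨ_pos {s : ℝ} (hs : 0 < s) {Ψ : ℝ → ℝ} (h : ∀ w, 0 < w → 0 < scΨ s Ψ w) :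
    ∀ w, 0 < w → 0 < Ψ w := by
  intro w hw
  have h1 := h (w / s) (div_pos hw hs)
  unfold scΨ at h1
  rw [mul_div_cancel₀ _ hs.ne'] at h1
  exact (div_pos_iff_of_pos_right hs).1 h1

theorem Par.scale {ρ1 a ε δ s : ℝ} {Ψ U : ℝ → ℝ} (H : Par ρ1 a ε δ Ψ U) (hs : 0 < s) (hs1 : s ≤ 1) :
    Par ρ1 a ε (δ / s) (scΨ s Ψ) U where
  edge := H.edge.scale hs hs1 H.eps0.le
  eps0 := H.eps0
  eps1 := H.eps1
  cap := H.cap
  rho1 := H.rho1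
  rho2 := H.rho2

theorem HAdm.adm {ph a : ℝ} {Ψ U : ℝ → ℝ} (h : 0 < ph) (h1 : ph ≤ 1 / 2) (H : HAdm ph a Ψ U) :
    Adm a (scΨ (epsh ph * sC) Ψ) U := by
  have he := epsh_pos h
  have he1 := epsh_le h h1
  have hs := sC_pos
  have hs1 := sC_lt
  have hp : 0 < epsh ph * sC := mul_pos he hs
  have he2 : epsh ph ≤ 1 := by
    have : ph / 10 ^ 12 ≤ 1 := by
      rw [div_le_one (by norm_num)]
      norm_num
      linarith
    linarith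
  have hp1 : epsh ph * sC ≤ 1 := by nlinarith
  rcases H with ⟨ρ1, ε, δ, HP, hδ⟩ | ⟨rfl, rfl, rfl⟩
  · refine Or.inl ⟨ρ1, ε, δ / (epsh ph * sC), HP.scale hp hp1, ?_⟩
    rw [div_le_iff₀ hp]
    linarith
  · exact Or.inr ⟨rfl, scΨ_Ψ0 hp, rfl⟩

theorem GAdm.hadm {c0 a : ℝ} {k i : ℕ} {Ψ U : ℝ → ℝ} (h : 0 < c0) (h1 : c0 ≤ 1) (hi : 1 ≤ i) (hik : i ≤ k)
    (H : GAdm c0 k a Ψ U) : HAdm (phh c0 i) a (scΨ (rh i) Ψ) U := by
  have hr := rh_pos i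
  have hr1 := rh_le i
  rcases H with ⟨ρ1, ε, δ, HP, hδ⟩ | ⟨rfl, rfl, rfl⟩
  · refine Or.inl ⟨ρ1, ε, δ / rh i, HP.scale hr (by linarith), ?_⟩
    rw [div_le_iff₀ hr]
    have h2 := hδ i hi hik
    unfold dbd at h2
    linarith
  · exact Or.inr ⟨rfl, scΨ_Ψ0 hr, rfl⟩

theorem GAdm.a_bds {c0 a : ℝ} {k : ℕ} {Ψ U : ℝ → ℝ} (H : GAdm c0 k a Ψ U) :
    0 ≤ a ∧ a < 1 / 2 ∧ a < sin taC := by
  rcases H with ⟨ρ1, ε, δ, HP, hδ⟩ | ⟨rfl, rfl, rfl⟩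
  · have h1 := HP.cap.a_pos
    have h2 := HP.cap.a_lt
    have h3 := HP.rho1
    have h4 := HP.rho2
    exact ⟨h1.le, by linarith, by linarith⟩
  · exact ⟨le_rfl, by norm_num, sin_taC_pos⟩

/-- consequences of `Adm` -/
structure AdmC (a : ℝ) (Ψ U : ℝ → ℝ) : Prop where
  a_nonneg : 0 ≤ a
  a_lt : a < 1 / 8
  a_lt' : a < sin taC
  smΨ : ContDiff ℝ ∞ Ψ
  posΨ : ∀ w, 0 < w → 0 < Ψ w
  farΨ : ∀ w, sin taC / 2 ≤ w → Ψ w = w / 2
  smU : ContDiffOn ℝ ∞ U (Ioi 0)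
  farU : ∀ ρ, 1 / 4 ≤ ρ ∨ sin taC ≤ ρ → U ρ = ρ ^ 2
  ltU : ∀ ρ, a < ρ → ρ < 1 → U ρ < 1

theorem Adm.toC {a : ℝ} {Ψ U : ℝ → ℝ} (h : Adm a Ψ U) : AdmC a Ψ U := by
  rcases h with ⟨ρ1, ε, δ, HP, hδ⟩ | ⟨rfl, rfl, rfl⟩
  · have h1 := HP.cap.a_pos
    have h2 := HP.cap.a_lt
    have h3 := HP.rho1
    have h4 := HP.rho2
    refine ⟨h1.le, by linarith, by linarith, HP.edge.smooth, ?_, ?_, HP.cap.smooth, ?_, HP.cap.lt_one⟩
    · intro w hw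
      have := HP.edge.lb w hw.le
      linarith
    · intro w hw
      exact HP.edge.far w (hδ.trans hw)
    · rintro ρ (h | h)
      · exact HP.cap.fs ρ (h3.trans h)
      · exact HP.cap.fs ρ (h4.trans h)
  · refine ⟨le_rfl, by norm_num, sin_taC_pos, ?_, ?_, fun w _ => rfl, ?_, fun ρ _ => rfl, ?_⟩
    · exact contDiff_id.div_const 2
    · intro w hw
      exact half_pos hw
    · exact (contDiff_id.pow 2).contDiffOn
    · intro ρ h1 h2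
      change ρ ^ 2 < 1
      nlinarith

end Pool.Agent.MP39e402
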