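import Pool.Agent.Lib.MP_39e402_gt.VPol

/-! # MP_39e402, module UAlg: algebra of quadratic forms on `ℝ⁴`

`IsQF q`: `q` is a quadratic form (defined in UDefs), `IsLin w`: `w` is a linear functional.
`polMet q` (UDefs) is the metric tensor with quadratic form `q` (polarisation).

(`v4_zero` .. `v4_three`, `ext4`, `norm_sq4` are in VE1/VPol.)

* closure properties of `IsLin`, `IsQF` (all by exhibiting the coefficients; for products of two
  linear functionals use the symmetrised matrix `(c i * d j + c j * d i)/2`);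
* `gquad (polMet q) p v = q p v` if `q p` is a quadratic form: with `q p v = ∑ A i j v i v j`, `A`
  symmetric, `(q(e_i+e_j) - q e_i - q e_j)/2 = A i j` (`Fin.sum_univ_four`, `e4 i j = if i = j ..`);
* `isRMetricOn_polMet`: the entries are linear combinations of `p ↦ q p v`, `v` constant; positive definite:
  `Matrix.PosDef` from symmetry and `0 < gquad`.
-/

open Real Set Filter Topology MeasureTheory
open scoped ContDiff

noncomputable section

namespace Pool.Agent.MP39e402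

/-- linear functional -/
def IsLin (w : EE 4 → ℝ) : Prop := ∃ c : Fin 4 → ℝ, ∀ v : EE 4, w v = ∑ i, c i * v i

theorem e4_apply (i j : Fin 4) : e4 i j = if j = i then 1 else 0 := by
  simp [e4]

theorem IsLin.coord (i : Fin 4) : IsLin (fun v => v i) :=
  ⟨Pi.single i 1, fun v => by simp [Pi.single_apply]⟩
theorem IsLin.zero : IsLin (fun _ => 0) := ⟨0, fun v => by simp⟩
theorem IsLin.add {w w' : EE 4 → ℝ} (h : IsLin w) (h' : IsLin w') : IsLin (fun v => w v + w' v) := by
  obtain ⟨a, ha⟩ := h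
  obtain ⟨b, hb⟩ := h'
  refine ⟨fun i => a i + b i, fun v => ?_⟩
  beta_reduce
  rw [ha, hb, ← Finset.sum_add_distrib]
  exact Finset.sum_congr rfl fun i _ => (add_mul _ _ _).symm
theorem IsLin.sub {w w' : EE 4 → ℝ} (h : IsLin w) (h' : IsLin w') : IsLin (fun v => w v - w' v) := by
  obtain ⟨a, ha⟩ := h
  obtain ⟨b, hb⟩ := h'
  refine ⟨fun i => a i - b i, fun v => ?_⟩
  beta_reduce
  rw [ha, hb, ← Finset.sum_sub_distrib]
  exact Finset.sum_congr rfl fun i _ => (sub_mul _ _ _).symm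
theorem IsLin.const_mul {w : EE 4 → ℝ} (c : ℝ) (h : IsLin w) : IsLin (fun v => c * w v) := by
  obtain ⟨a, ha⟩ := h
  refine ⟨fun i => c * a i, fun v => ?_⟩
  beta_reduce
  rw [ha, Finset.mul_sum]
  exact Finset.sum_congr rfl fun i _ => (mul_assoc _ _ _).symm
theorem IsLin.neg {w : EE 4 → ℝ} (h : IsLin w) : IsLin (fun v => -w v) := by
  obtain ⟨a, ha⟩ := h.const_mul (-1)
  exact ⟨a, fun v => by rw [← ha]; ring⟩
theorem IsLin.mul_const {w : EE 4 → ℝ} (h : IsLin w) (c : ℝ) : IsLin (fun v => w v * c) := by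
  obtain ⟨a, ha⟩ := h.const_mul c
  exact ⟨a, fun v => by rw [← ha]; ring⟩
theorem IsLin.div_const {w : EE 4 → ℝ} (h : IsLin w) (c : ℝ) : IsLin (fun v => w v / c) := by
  obtain ⟨a, ha⟩ := h.const_mul c⁻¹
  exact ⟨a, fun v => by rw [← ha]; ring⟩

private theorem eq_sum_e4 (v : EE 4) : v = ∑ i, v i • e4 i := by
  apply ext4 <;>
  · rw [Fin.sum_univ_four]
    simp [e4_apply]

theorem IsLin.clm (L : EE 4 →L[ℝ] ℝ) : IsLin (fun v => L v) := by
  refine ⟨fun i => L (e4 i), fun v => ?_⟩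
  beta_reduce
  conv_lhs => rw [eq_sum_e4 v]
  rw [map_sum]
  refine Finset.sum_congr rfl fun i _ => ?_
  rw [map_smul, smul_eq_mul, mul_comm]
theorem IsLin.comp_clm {w : EE 4 → ℝ} (h : IsLin w) (L : EE 4 →L[ℝ] EE 4) : IsLin (fun v => w (L v)) := by
  obtain ⟨a, ha⟩ := h
  have h1 : ∀ i : Fin 4, IsLin (fun v => (L v) i) := fun i =>
    IsLin.clm ((EuclideanSpace.proj i : EE 4 →L[ℝ] ℝ).comp L)
  have h2 := (((h1 0).const_mul (a 0)).add ((h1 1).const_mul (a 1))).add
    ((h1 2).const_mul (a 2)) |>.add ((h1 3).const_mul (a 3))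
  obtain ⟨b, hb⟩ := h2
  refine ⟨b, fun v => ?_⟩
  rw [← hb]
  beta_reduce
  rw [ha, Fin.sum_univ_four]

theorem IsLin.map_smul {w : EE 4 → ℝ} (h : IsLin w) (c : ℝ) (v : EE 4) : w (c • v) = c * w v := by
  obtain ⟨a, ha⟩ := h
  rw [ha, ha, Finset.mul_sum]
  refine Finset.sum_congr rfl fun i _ => ?_
  rw [PiLp.smul_apply, smul_eq_mul]
  ring
theorem IsLin.map_add {w : EE 4 → ℝ} (h : IsLin w) (v v' : EE 4) : w (v + v') = w v + w v' := by
  obtain ⟨a, ha⟩ := h
  rw [ha, ha, ha, ← Finset.sum_add_distrib]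
  refine Finset.sum_congr rfl fun i _ => ?_
  rw [PiLp.add_apply]
  ring

theorem IsLin.mul_isQF {w w' : EE 4 → ℝ} (h : IsLin w) (h' : IsLin w') : IsQF (fun v => w v * w' v) := by
  obtain ⟨a, ha⟩ := h
  obtain ⟨b, hb⟩ := h'
  refine ⟨Matrix.of fun i j => (a i * b j + a j * b i) / 2, fun i j => ?_, fun v => ?_⟩
  · simp only [Matrix.of_apply]
    ring
  · simp only [Matrix.of_apply, ha, hb, Fin.sum_univ_four]
    ring
theorem IsLin.sq_isQF {w : EE 4 → ℝ} (h : IsLin w) : IsQF (fun v => w v ^ 2) := by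
  obtain ⟨A, hA, h1⟩ := h.mul_isQF h
  exact ⟨A, hA, fun v => by rw [← h1]; exact pow_two _⟩

theorem IsQF.zero : IsQF (fun _ => 0) := ⟨0, fun i j => rfl, fun v => by simp⟩
theorem IsQF.add {q q' : EE 4 → ℝ} (h : IsQF q) (h' : IsQF q') : IsQF (fun v => q v + q' v) := by
  obtain ⟨A, hA, h1⟩ := h
  obtain ⟨B, hB, h2⟩ := h'
  refine ⟨Matrix.of fun i j => A i j + B i j, fun i j => by
    simp only [Matrix.of_apply, hA i j, hB i j], fun v => ?_⟩
  simp only [h1 v, h2 v, Matrix.of_apply, ← Finset.sum_add_distrib]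
  exact Finset.sum_congr rfl fun i _ => Finset.sum_congr rfl fun j _ => by ring
theorem IsQF.const_mul {q : EE 4 → ℝ} (c : ℝ) (h : IsQF q) : IsQF (fun v => c * q v) := by
  obtain ⟨A, hA, h1⟩ := h
  refine ⟨Matrix.of fun i j => c * A i j, fun i j => by simp only [Matrix.of_apply, hA i j],
    fun v => ?_⟩
  simp only [h1 v, Matrix.of_apply, Finset.mul_sum]
  exact Finset.sum_congr rfl fun i _ => Finset.sum_congr rfl fun j _ => by ring
theorem IsQF.neg {q : EE 4 → ℝ} (h : IsQF q) : IsQF (fun v => -q v) := by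
  obtain ⟨A, hA, h1⟩ := h.const_mul (-1)
  exact ⟨A, hA, fun v => by rw [← h1]; ring⟩
theorem IsQF.sub {q q' : EE 4 → ℝ} (h : IsQF q) (h' : IsQF q') : IsQF (fun v => q v - q' v) := by
  obtain ⟨A, hA, h1⟩ := h.add h'.neg
  exact ⟨A, hA, fun v => by rw [← h1]; ring⟩
theorem IsQF.mul_const {q : EE 4 → ℝ} (h : IsQF q) (c : ℝ) : IsQF (fun v => q v * c) := by
  obtain ⟨A, hA, h1⟩ := h.const_mul c
  exact ⟨A, hA, fun v => by rw [← h1]; ring⟩
theorem IsQF.div_const {q : EE 4 → ℝ} (h : IsQF q) (c : ℝ) : IsQF (fun v => q v / c) := by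
  obtain ⟨A, hA, h1⟩ := h.const_mul c⁻¹
  exact ⟨A, hA, fun v => by rw [← h1]; ring⟩

private theorem isQF_sum {ι : Type} (s : Finset ι) {q : ι → EE 4 → ℝ} (h : ∀ i ∈ s, IsQF (q i)) :
    IsQF (fun v => ∑ i ∈ s, q i v) := by
  classical
  induction s using Finset.induction_on with
  | empty => simpa using IsQF.zero
  | insert a s ha ih =>
    have h1 := (h a (Finset.mem_insert_self _ _)).add
      (ih fun i hi => h i (Finset.mem_insert_of_mem hi))
    obtain ⟨A, hA, h2⟩ := h1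
    exact ⟨A, hA, fun v => by rw [← h2]; exact Finset.sum_insert ha⟩

theorem IsQF.comp_clm {q : EE 4 → ℝ} (h : IsQF q) (L : EE 4 →L[ℝ] EE 4) : IsQF (fun v => q (L v)) := by
  obtain ⟨A, hA, h1⟩ := h
  have hl : ∀ i : Fin 4, IsLin (fun v => (L v) i) := fun i =>
    IsLin.clm ((EuclideanSpace.proj i : EE 4 →L[ℝ] ℝ).comp L)
  have h2 : IsQF (fun v => ∑ i, ∑ j, A i j * ((L v) i * (L v) j)) :=
    isQF_sum _ fun i _ => isQF_sum _ fun j _ => ((hl i).mul_isQF (hl j)).const_mul (A i j)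
  obtain ⟨B, hB, h3⟩ := h2
  refine ⟨B, hB, fun v => ?_⟩
  rw [← h3]
  beta_reduce
  rw [h1]
  exact Finset.sum_congr rfl fun i _ => Finset.sum_congr rfl fun j _ => by ring
theorem isQF_normsq : IsQF (fun v => ‖v‖ ^ 2) := by
  obtain ⟨A, hA, h1⟩ := (((IsLin.coord 0).sq_isQF.add (IsLin.coord 1).sq_isQF).add
    (IsLin.coord 2).sq_isQF).add (IsLin.coord 3).sq_isQF
  exact ⟨A, hA, fun v => by rw [← h1]; exact norm_sq4 v⟩
theorem isQF_gquad (g : RMetric 4) (x : EE 4) : IsQF (gquad g x) := by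
  have h2 : IsQF (fun v => ∑ i, ∑ j, g x i j * (v i * v j)) :=
    isQF_sum _ fun i _ => isQF_sum _ fun j _ =>
      ((IsLin.coord i).mul_isQF (IsLin.coord j)).const_mul (g x i j)
  obtain ⟨B, hB, h3⟩ := h2
  refine ⟨B, hB, fun v => ?_⟩
  rw [← h3, gquad]
  exact Finset.sum_congr rfl fun i _ => Finset.sum_congr rfl fun j _ => by ring

theorem polMet_symm (q : EE 4 → EE 4 → ℝ) (p : EE 4) (i j : Fin 4) : polMet q p i j = polMet q p j i := by
  rw [polMet, Matrix.of_apply, Matrix.of_apply, add_comm (e4 j)]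
  ring

private theorem polMet_of {q : EE 4 → EE 4 → ℝ} {p : EE 4} {A : Matrix (Fin 4) (Fin 4) ℝ}
    (hA : ∀ i j, A i j = A j i) (h : ∀ v : EE 4, q p v = ∑ i, ∑ j, A i j * v i * v j)
    (i j : Fin 4) : polMet q p i j = A i j := by
  have h1 : ∀ i : Fin 4, q p (e4 i) = A i i := by
    intro i
    rw [h]
    simp [e4_apply]
  have h2 : q p (e4 i + e4 j) = A i i + A i j + A j i + A j j := by
    rw [h]
    simp only [PiLp.add_apply, e4_apply, mul_add, add_mul, Finset.sum_add_distrib]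
    simp
    ring
  rw [polMet, Matrix.of_apply, h1, h1, h2, hA j i]
  ring

theorem gquad_polMet {q : EE 4 → EE 4 → ℝ} {p : EE 4} (h : IsQF (q p)) (v : EE 4) :
    gquad (polMet q) p v = q p v := by
  obtain ⟨A, hA, h1⟩ := h
  rw [h1 v, gquad]
  exact Finset.sum_congr rfl fun i _ => Finset.sum_congr rfl fun j _ => by
    rw [polMet_of hA h1]
/-- `polMet` only depends on the values of the form -/
theorem polMet_congr {q q' : EE 4 → EE 4 → ℝ} {p p' : EE 4} (h : ∀ v, q p v = q' p' v) :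
    polMet q p = polMet q' p' := by
  ext i j
  simp only [polMet, Matrix.of_apply, h]
theorem polMet_smul (c : ℝ) (q : EE 4 → EE 4 → ℝ) (p : EE 4) :
    c • polMet q p = polMet (fun p v => c * q p v) p := by
  ext i j
  simp only [polMet, Matrix.of_apply, Matrix.smul_apply, smul_eq_mul]
  ring
/-- a symmetric matrix is determined by its quadratic form -/
theorem eq_polMet {g : RMetric 4} {q : EE 4 → EE 4 → ℝ} {p : EE 4} (hs : ∀ i j, g p i j = g p j i)
    (h : ∀ v, gquad g p v = q p v) : g p = polMet q p := by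
  ext i j
  exact (polMet_of (A := g p) hs (fun v => by rw [← h v, gquad]) i j).symm
theorem sym_eq_of_gquad {g g' : RMetric 4} {p p' : EE 4} (hs : ∀ i j, g p i j = g p j i)
    (hs' : ∀ i j, g' p' i j = g' p' j i) (h : ∀ v, gquad g p v = gquad g' p' v) : g p = g' p' := by
  rw [eq_polMet (q := fun x v => gquad g x v) hs (fun v => rfl),
    eq_polMet (g := g') (q := fun x v => gquad g' x v) hs' (fun v => rfl)]
  exact polMet_congr h

private theorem posDef_of {g : Matrix (Fin 4) (Fin 4) ℝ} (hs : ∀ i j, g i j = g j i)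
    (hp : ∀ v : EE 4, v ≠ 0 → 0 < ∑ i, ∑ j, g i j * v i * v j) : g.PosDef := by
  rw [Matrix.posDef_iff_dotProduct_mulVec]
  refine ⟨?_, ?_⟩
  · ext i j
    rw [Matrix.conjTranspose_apply, star_trivial]
    exact hs j i
  · intro v hv
    have hv' : (WithLp.toLp 2 v : EE 4) ≠ 0 := by
      intro h
      apply hv
      funext i
      exact congrArg (fun w : EE 4 => w i) h
    have h1 := hp _ hv'
    have h2 : star v ⬝ᵥ Matrix.mulVec g v = ∑ i, ∑ j, g i j * v i * v j := by
      unfold dotProduct Matrix.mulVec dotProduct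
      refine Finset.sum_congr rfl fun i _ => ?_
      rw [Finset.mul_sum]
      refine Finset.sum_congr rfl fun j _ => ?_
      simp only [Pi.star_apply, star_trivial]
      ring
    rw [h2]
    exact h1

theorem isRMetricOn_polMet {q : EE 4 → EE 4 → ℝ} {V : Set (EE 4)} (hV : IsOpen V)
    (hq : ∀ p ∈ V, IsQF (q p)) (hs : ∀ v, ContDiffOn ℝ ∞ (fun p => q p v) V)
    (hp : ∀ p ∈ V, ∀ v, v ≠ 0 → 0 < q p v) : IsRMetricOn (polMet q) V := by
  refine ⟨hV, fun i j => ?_, fun x hx => ?_⟩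
  · exact (((hs _).sub (hs _)).sub (hs _)).div_const 2
  · refine posDef_of (polMet_symm q x) fun v hv => ?_
    have h1 := hp x hx v hv
    rw [← gquad_polMet (hq x hx) v] at h1
    exact h1

/-- being a smooth metric is local -/
theorem isRMetricOn_of_locally {g : RMetric 4} {V : Set (EE 4)}
    (h : ∀ x ∈ V, ∃ (W : Set (EE 4)) (g' : RMetric 4), x ∈ W ∧ W ⊆ V ∧ IsRMetricOn g' W ∧ ∀ y ∈ W, g y = g' y) :
    IsRMetricOn g V := by
  refine ⟨?_, fun i j x hx => ?_, fun x hx => ?_⟩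
  · rw [isOpen_iff_mem_nhds]
    intro x hx
    obtain ⟨W, g', hxW, hWV, hg', -⟩ := h x hx
    exact Filter.mem_of_superset (hg'.isOpen.mem_nhds hxW) hWV
  · obtain ⟨W, g', hxW, hWV, hg', he⟩ := h x hx
    have h1 : ContDiffAt ℝ ∞ (fun y => g' y i j) x :=
      (hg'.smooth i j x hxW).contDiffAt (hg'.isOpen.mem_nhds hxW)
    refine (h1.congr_of_eventuallyEq ?_).contDiffWithinAt
    filter_upwards [hg'.isOpen.mem_nhds hxW] with y hy
    rw [he y hy]
  · obtain ⟨W, g', hxW, hWV, hg', he⟩ := h x hx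
    rw [he x hxW]
    exact hg'.posDef x hxW

/-- pull back of a smooth metric by an affine similarity, as a metric tensor: `g'(p) = g (c • (p - p0))` -/
theorem isRMetricOn_affine {g : RMetric 4} {V : Set (EE 4)} (hg : IsRMetricOn g V) {c : ℝ} (hc : c ≠ 0)
    (p0 : EE 4) : IsRMetricOn (fun p => g (c • (p - p0))) {p | c • (p - p0) ∈ V} := by
  have hcd : ContDiff ℝ ∞ (fun p : EE 4 => c • (p - p0)) := by
    have h1 : ContDiff ℝ ∞ (fun p : EE 4 => p - p0) := contDiff_id.sub contDiff_const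
    exact h1.const_smul c
  refine ⟨hg.isOpen.preimage hcd.continuous, fun i j => ?_, fun x hx => hg.posDef _ hx⟩
  exact (hg.smooth i j).comp hcd.contDiffOn fun p hp => hp

end Pool.Agent.MP39e402
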