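import Pool.Agent.Lib.MP_39e402_gt.MNegl
import Pool.Agent.Lib.MP_39e402_gt.UAlg

/-! # MP_39e402, module UForm: the coordinates `Yr, Ur, ang` and the forms `wY, wU, wth, wal, wR, wt`:
values, algebraic identities, scaling.

(`ang_mem, rad_polar, ang_polar, polar_eq`: LLocQ.)  All are elementary: `Yr p ^ 2 = p1²+p2²+p3²`, `Ur p ^ 2 = p2²+p3²`, `rad (p 0) (Yr p) = ‖p‖`,
`ang X Y = arccos (X/rad X Y)`.  The lemmas `IsLin` hold for every `p` (division by zero is harmless: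
the coefficients are constants).
`normsq_forms`: with `u = Ur p`, `y = Yr p`: `y wY = p1 v1 + u wU`, `y² wal = p1 wU - u v1`, so
`wY² + y² wal² = v1² + wU²` (as `p1² + u² = y²`), `wU² + u² wth² = v2² + v3²`.
`planar_forms`: `R wR = X v0 + Y wY`, `R² wt = X wY - Y v0`, `X² + Y² = R²`. -/

open Real Set Filter Topology MeasureTheory
open scoped ContDiff

noncomputable section

namespace Pool.Agent.MP39e402

theorem Ur_nonneg (p : EE 4) : 0 ≤ Ur p := Real.sqrt_nonneg _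
theorem Yr_nonneg (p : EE 4) : 0 ≤ Yr p := Real.sqrt_nonneg _
theorem Ur_sq (p : EE 4) : Ur p ^ 2 = p 2 ^ 2 + p 3 ^ 2 := Real.sq_sqrt (by positivity)
theorem Yr_sq (p : EE 4) : Yr p ^ 2 = p 1 ^ 2 + p 2 ^ 2 + p 3 ^ 2 := Real.sq_sqrt (by positivity)
theorem Yr_sq' (p : EE 4) : Yr p ^ 2 = p 1 ^ 2 + Ur p ^ 2 := by
  rw [Yr_sq, Ur_sq]
  ring
theorem norm_sq_XY (p : EE 4) : ‖p‖ ^ 2 = p 0 ^ 2 + Yr p ^ 2 := by
  rw [Yr_sq, norm_sq4]
  ring
theorem Ur_pos {p : EE 4} (h : Ur p ≠ 0) : 0 < Ur p := lt_of_le_of_ne (Ur_nonneg p) (Ne.symm h)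
theorem Ur_le_Yr (p : EE 4) : Ur p ≤ Yr p := by
  refine Real.sqrt_le_sqrt ?_
  have := sq_nonneg (p 1)
  linarith
theorem Yr_le_norm (p : EE 4) : Yr p ≤ ‖p‖ := by
  refine Real.sqrt_le_iff.2 ⟨norm_nonneg _, ?_⟩
  have := sq_nonneg (p 0)
  have h := norm_sq4 p
  linarith
theorem Ur_le_norm (p : EE 4) : Ur p ≤ ‖p‖ := (Ur_le_Yr p).trans (Yr_le_norm p)
theorem Yr_pos {p : EE 4} (h : Ur p ≠ 0) : 0 < Yr p := (Ur_pos h).trans_le (Ur_le_Yr p)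
theorem norm_pos_Ur {p : EE 4} (h : Ur p ≠ 0) : 0 < ‖p‖ := (Ur_pos h).trans_le (Ur_le_norm p)
theorem norm_pos_Yr {p : EE 4} (h : 0 < Yr p) : 0 < ‖p‖ := h.trans_le (Yr_le_norm p)
theorem ne_zero_Ur {p : EE 4} (h : Ur p ≠ 0) : p ≠ 0 := norm_pos_iff.1 (norm_pos_Ur h)
theorem Ur_eq_zero_iff (p : EE 4) : Ur p = 0 ↔ p 2 = 0 ∧ p 3 = 0 := by
  have h := Ur_sq p
  constructor
  · intro h0
    rw [h0] at h
    have h2 := sq_nonneg (p 2)
    have h3 := sq_nonneg (p 3)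
    exact ⟨pow_eq_zero_iff two_ne_zero |>.1 (by linarith),
      pow_eq_zero_iff two_ne_zero |>.1 (by linarith)⟩
  · rintro ⟨h2, h3⟩
    rw [h2, h3] at h
    exact pow_eq_zero_iff two_ne_zero |>.1 (by linarith)
theorem Ur_ne_zero_iff (p : EE 4) : Ur p ≠ 0 ↔ p 2 ≠ 0 ∨ p 3 ≠ 0 := by
  rw [Ne, Ur_eq_zero_iff, not_and_or]
theorem Yr_eq_zero_iff (p : EE 4) : Yr p = 0 ↔ p 1 = 0 ∧ p 2 = 0 ∧ p 3 = 0 := by
  have h := Yr_sq p
  constructor
  · intro h0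
    rw [h0] at h
    have h1 := sq_nonneg (p 1)
    have h2 := sq_nonneg (p 2)
    have h3 := sq_nonneg (p 3)
    exact ⟨pow_eq_zero_iff two_ne_zero |>.1 (by linarith),
      pow_eq_zero_iff two_ne_zero |>.1 (by linarith),
      pow_eq_zero_iff two_ne_zero |>.1 (by linarith)⟩
  · rintro ⟨h1, h2, h3⟩
    rw [h1, h2, h3] at h
    exact pow_eq_zero_iff two_ne_zero |>.1 (by linarith)

private theorem cont_coord (i : Fin 4) : Continuous (fun z : EE 4 => z i) :=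
  (EuclideanSpace.proj i : EE 4 →L[ℝ] ℝ).continuous

theorem continuous_Ur : Continuous Ur :=
  (((cont_coord 2).pow 2).add ((cont_coord 3).pow 2)).sqrt
theorem continuous_Yr : Continuous Yr :=
  ((((cont_coord 1).pow 2).add ((cont_coord 2).pow 2)).add ((cont_coord 3).pow 2)).sqrt
theorem isOpen_Ur : IsOpen {p : EE 4 | Ur p ≠ 0} := isOpen_ne_fun continuous_Ur continuous_const
theorem isOpen_Yr : IsOpen {p : EE 4 | 0 < Yr p} := isOpen_lt continuous_const continuous_Yr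
theorem dense_Ur : Dense {p : EE 4 | Ur p ≠ 0} := by
  have h : Negl {x : EE 4 | x 2 = 0 ∧ x 3 = 0} := negl_plane (by decide) 0 0
  have h2 := Negl.subset_closure isOpen_univ h
  intro p
  refine closure_mono ?_ (h2 (mem_univ p))
  rintro q ⟨-, hq⟩ h3
  exact hq ((Ur_eq_zero_iff q).1 h3)

/-! polar coordinates in the half plane -/
theorem rad_pos {X Y : ℝ} (h : 0 < Y) : 0 < rad X Y := Real.sqrt_pos.2 (by positivity)
theorem rad_eq_norm (p : EE 4) : rad (p 0) (Yr p) = ‖p‖ := by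
  rw [rad, ← norm_sq_XY, Real.sqrt_sq (norm_nonneg _)]

private theorem rad_sq (X Y : ℝ) : rad X Y ^ 2 = X ^ 2 + Y ^ 2 := Real.sq_sqrt (by positivity)

theorem cos_ang' {X Y : ℝ} (h : 0 < Y) : cos (ang X Y) = X / rad X Y := by
  have h1 := rad_pos (X := X) h
  have h2 := rad_sq X Y
  have h3 : X ^ 2 ≤ rad X Y ^ 2 := by nlinarith
  have h4 := abs_le_of_sq_le_sq' h3 h1.le
  rw [ang, Real.cos_arccos]
  · rw [le_div_iff₀ h1]
    linarith
  · rw [div_le_one h1]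
    exact h4.2
theorem sin_ang' {X Y : ℝ} (h : 0 < Y) : sin (ang X Y) = Y / rad X Y := by
  have h1 := rad_pos (X := X) h
  have h2 := rad_sq X Y
  rw [ang, Real.sin_arccos, div_pow]
  have h3 : 1 - X ^ 2 / rad X Y ^ 2 = (Y / rad X Y) ^ 2 := by
    rw [div_pow]
    field_simp
    linarith
  rw [h3, Real.sqrt_sq (by positivity)]
theorem cos_angp {p : EE 4} (h : 0 < Yr p) : cos (ang (p 0) (Yr p)) = p 0 / ‖p‖ := by
  rw [cos_ang' h, rad_eq_norm]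
theorem sin_angp {p : EE 4} (h : 0 < Yr p) : sin (ang (p 0) (Yr p)) = Yr p / ‖p‖ := by
  rw [sin_ang' h, rad_eq_norm]

/-! scaling -/
theorem Ur_smul {c : ℝ} (hc : 0 ≤ c) (p : EE 4) : Ur (c • p) = c * Ur p := by
  have h : (c • p) 2 ^ 2 + (c • p) 3 ^ 2 = c ^ 2 * (p 2 ^ 2 + p 3 ^ 2) := by
    simp only [PiLp.smul_apply, smul_eq_mul]
    ring
  rw [Ur, h, Real.sqrt_mul (sq_nonneg c), Real.sqrt_sq hc, Ur]
theorem Yr_smul {c : ℝ} (hc : 0 ≤ c) (p : EE 4) : Yr (c • p) = c * Yr p := by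
  have h : (c • p) 1 ^ 2 + (c • p) 2 ^ 2 + (c • p) 3 ^ 2 = c ^ 2 * (p 1 ^ 2 + p 2 ^ 2 + p 3 ^ 2) := by
    simp only [PiLp.smul_apply, smul_eq_mul]
    ring
  rw [Yr, h, Real.sqrt_mul (sq_nonneg c), Real.sqrt_sq hc, Yr]
theorem norm_smul4 {c : ℝ} (hc : 0 ≤ c) (p : EE 4) : ‖c • p‖ = c * ‖p‖ := by
  rw [norm_smul, Real.norm_eq_abs, abs_of_nonneg hc]
theorem ang_smul {c : ℝ} (hc : 0 < c) (X Y : ℝ) : ang (c * X) (c * Y) = ang X Y := by
  have h : rad (c * X) (c * Y) = c * rad X Y := by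
    have : (c * X) ^ 2 + (c * Y) ^ 2 = c ^ 2 * (X ^ 2 + Y ^ 2) := by ring
    rw [rad, this, Real.sqrt_mul (sq_nonneg c), Real.sqrt_sq hc.le, rad]
  rw [ang, h, mul_div_mul_left _ _ hc.ne', ang]
theorem wY_smul {c : ℝ} (hc : 0 < c) (p v : EE 4) : wY (c • p) v = wY p v := by
  rw [wY, Yr_smul hc.le, wY]
  simp only [PiLp.smul_apply, smul_eq_mul]
  rw [← mul_div_mul_left (p 1 * v 1 + p 2 * v 2 + p 3 * v 3) (Yr p) hc.ne']
  congr 1
  ring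
theorem wU_smul {c : ℝ} (hc : 0 < c) (p v : EE 4) : wU (c • p) v = wU p v := by
  rw [wU, Ur_smul hc.le, wU]
  simp only [PiLp.smul_apply, smul_eq_mul]
  rw [← mul_div_mul_left (p 2 * v 2 + p 3 * v 3) (Ur p) hc.ne']
  congr 1
  ring
theorem wR_smul {c : ℝ} (hc : 0 < c) (p v : EE 4) : wR (c • p) v = wR p v := by
  rw [wR, norm_smul4 hc.le, wR]
  simp only [PiLp.smul_apply, smul_eq_mul]
  rw [← mul_div_mul_left (p 0 * v 0 + p 1 * v 1 + p 2 * v 2 + p 3 * v 3) ‖p‖ hc.ne']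
  congr 1
  ring
theorem wth_smul {c : ℝ} (hc : 0 < c) (p v : EE 4) : wth (c • p) v = wth p v / c := by
  rw [wth, Ur_smul hc.le, wth]
  simp only [PiLp.smul_apply, smul_eq_mul]
  rw [div_div, ← mul_div_mul_left (p 2 * v 3 - p 3 * v 2) (Ur p ^ 2 * c) hc.ne']
  congr 1
  · ring
  · ring
theorem wal_smul {c : ℝ} (hc : 0 < c) (p v : EE 4) : wal (c • p) v = wal p v / c := by
  rw [wal, Ur_smul hc.le, Yr_smul hc.le, wU_smul hc, wal]
  simp only [PiLp.smul_apply, smul_eq_mul]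
  rw [div_div, ← mul_div_mul_left (p 1 * wU p v - Ur p * v 1) (Yr p ^ 2 * c) hc.ne']
  congr 1
  · ring
  · ring
theorem wt_smul {c : ℝ} (hc : 0 < c) (p v : EE 4) : wt (c • p) v = wt p v / c := by
  rw [wt, norm_smul4 hc.le, Yr_smul hc.le, wY_smul hc, wt]
  simp only [PiLp.smul_apply, smul_eq_mul]
  rw [div_div, ← mul_div_mul_left (p 0 * wY p v - Yr p * v 0) (‖p‖ ^ 2 * c) hc.ne']
  congr 1
  · ring
  · ring

/-! linearity (for all `p`) -/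
theorem wY_lin (p : EE 4) : IsLin (wY p) :=
  ((((IsLin.coord 1).const_mul (p 1)).add ((IsLin.coord 2).const_mul (p 2))).add
    ((IsLin.coord 3).const_mul (p 3))).div_const (Yr p)
theorem wU_lin (p : EE 4) : IsLin (wU p) :=
  (((IsLin.coord 2).const_mul (p 2)).add ((IsLin.coord 3).const_mul (p 3))).div_const (Ur p)
theorem wth_lin (p : EE 4) : IsLin (wth p) :=
  (((IsLin.coord 3).const_mul (p 2)).sub ((IsLin.coord 2).const_mul (p 3))).div_const (Ur p ^ 2)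
theorem wal_lin (p : EE 4) : IsLin (wal p) :=
  (((wU_lin p).const_mul (p 1)).sub ((IsLin.coord 1).const_mul (Ur p))).div_const (Yr p ^ 2)
theorem wR_lin (p : EE 4) : IsLin (wR p) :=
  (((((IsLin.coord 0).const_mul (p 0)).add ((IsLin.coord 1).const_mul (p 1))).add
    ((IsLin.coord 2).const_mul (p 2))).add ((IsLin.coord 3).const_mul (p 3))).div_const ‖p‖
theorem wt_lin (p : EE 4) : IsLin (wt p) :=
  (((wY_lin p).const_mul (p 0)).sub ((IsLin.coord 0).const_mul (Yr p))).div_const (‖p‖ ^ 2)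

/-! identities -/
theorem wU_wth_sq {p : EE 4} (h : Ur p ≠ 0) (v : EE 4) :
    wU p v ^ 2 + (Ur p * wth p v) ^ 2 = v 2 ^ 2 + v 3 ^ 2 := by
  have h1 := Ur_sq p
  have e : wU p v ^ 2 + (Ur p * wth p v) ^ 2 = (v 2 ^ 2 + v 3 ^ 2) * (p 2 ^ 2 + p 3 ^ 2) / Ur p ^ 2 := by
    rw [wU, wth]
    field_simp
    ring
  rw [e, ← h1]
  field_simp
theorem wY_wal_sq {p : EE 4} (h : Ur p ≠ 0) (v : EE 4) :
    wY p v ^ 2 + (Yr p * wal p v) ^ 2 = v 1 ^ 2 + wU p v ^ 2 := by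
  have h1 := Yr_sq' p
  have hY := (Yr_pos h).ne'
  have e1 : wY p v = (p 1 * v 1 + Ur p * wU p v) / Yr p := by
    rw [wY, wU]
    field_simp
    ring
  have e : wY p v ^ 2 + (Yr p * wal p v) ^ 2 = (v 1 ^ 2 + wU p v ^ 2) * (p 1 ^ 2 + Ur p ^ 2) / Yr p ^ 2 := by
    rw [e1, wal]
    field_simp
    ring
  rw [e, ← h1]
  field_simp
/-- `Y² |(v1,v2,v3)|² = (Y wY)² + Y⁴ (wal² + (Ur/Yr)² wth²)` -/
theorem sphere_forms {p : EE 4} (h : Ur p ≠ 0) (v : EE 4) :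
    v 1 ^ 2 + v 2 ^ 2 + v 3 ^ 2 = wY p v ^ 2 + Yr p ^ 2 * wal p v ^ 2 + Ur p ^ 2 * wth p v ^ 2 := by
  have h1 := wU_wth_sq h v
  have h2 := wY_wal_sq h v
  rw [mul_pow] at h1 h2
  linarith
theorem normsq_forms {p : EE 4} (h : Ur p ≠ 0) (v : EE 4) :
    ‖v‖ ^ 2 = v 0 ^ 2 + wY p v ^ 2 + Yr p ^ 2 * wal p v ^ 2 + Ur p ^ 2 * wth p v ^ 2 := by
  have h1 := sphere_forms h v
  rw [norm_sq4]
  linarith
theorem planar_forms {p : EE 4} (h : 0 < Yr p) (v : EE 4) :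
    wR p v ^ 2 + ‖p‖ ^ 2 * wt p v ^ 2 = v 0 ^ 2 + wY p v ^ 2 := by
  have h1 := norm_sq_XY p
  have hn := (norm_pos_Yr h).ne'
  have hY := h.ne'
  have e1 : wR p v = (p 0 * v 0 + Yr p * wY p v) / ‖p‖ := by
    rw [wR, wY]
    field_simp
    ring
  have e : wR p v ^ 2 + ‖p‖ ^ 2 * wt p v ^ 2 = (v 0 ^ 2 + wY p v ^ 2) * (p 0 ^ 2 + Yr p ^ 2) / ‖p‖ ^ 2 := by
    rw [e1, wt]
    field_simp
    ring
  rw [e, ← h1]
  field_simp
/-- a vector is zero if all forms vanish -/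
theorem eq_zero_of_forms {p : EE 4} (h : Ur p ≠ 0) {v : EE 4} (h0 : v 0 = 0) (h1 : wY p v = 0)
    (h2 : wal p v = 0) (h3 : wth p v = 0) : v = 0 := by
  have h4 := normsq_forms h v
  rw [h0, h1, h2, h3] at h4
  have h5 : ‖v‖ ^ 2 = 0 := by rw [h4]; ring
  exact norm_eq_zero.1 (pow_eq_zero_iff two_ne_zero |>.1 h5)

end Pool.Agent.MP39e402
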