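import Pool.Agent.Lib.MP_39e402_gt.LLocQ
import Pool.Agent.Lib.MP_39e402_gt.UForm

/-! # MP_39e402, module UFormD: smoothness and derivatives of the coordinates and forms

(`ang_contDiffOn, rad_contDiffOn` on `ℝ × ℝ`: LLocQ.)
* `Yr, Ur, ‖·‖` are square roots of positive polynomials; `ang X Y = arccos (X/rad X Y)` with
  `-1 < X/rad < 1` for `Y > 0`; (use `HasFDerivAt`/`HasDerivAt` along lines or `fderiv` rules; for `wt`:
  `cos ang = X/R`, `sin ang = Y/R`).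
* composition rules: for a map `F` differentiable at `y`, the form applied to `DF v` is the derivative of the
  composed function (`fderiv_comp`); for the angular forms: if `F 2 = r cos φ`, `F 3 = r sin φ` near `y`
  with `r y > 0`, then `wth (F y) (DF v) = dφ v`; if `F 1 = r cos α`, `Ur (F) = r sin α`, then `wal = dα`. -/

open Real Set Filter Topology MeasureTheory
open scoped ContDiff

noncomputable section

namespace Pool.Agent.MP39e402

theorem coord_contDiff (i : Fin 4) : ContDiff ℝ ∞ (fun p : EE 4 => p i) :=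
  (EuclideanSpace.proj i : EE 4 →L[ℝ] ℝ).contDiff
theorem v4_contDiffOn {a b c d : EE 4 → ℝ} {S : Set (EE 4)} (ha : ContDiffOn ℝ ∞ a S)
    (hb : ContDiffOn ℝ ∞ b S) (hc : ContDiffOn ℝ ∞ c S) (hd : ContDiffOn ℝ ∞ d S) :
    ContDiffOn ℝ ∞ (fun p => v4 (a p) (b p) (c p) (d p)) S := by
  rw [contDiffOn_euclidean]
  intro i
  fin_cases i
  · exact ha
  · exact hb
  · exact hc
  · exact hd
theorem fderiv_apply_coord {F : EE 4 → EE 4} {y : EE 4} (hF : DifferentiableAt ℝ F y) (v : EE 4) (i : Fin 4) :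
    fderiv ℝ F y v i = fderiv ℝ (fun z => F z i) y v := by
  have h := (EuclideanSpace.proj i : EE 4 →L[ℝ] ℝ).hasFDerivAt.comp y hF.hasFDerivAt
  have h2 : fderiv ℝ (fun z => F z i) y =
      (EuclideanSpace.proj i : EE 4 →L[ℝ] ℝ).comp (fderiv ℝ F y) := h.fderiv
  rw [h2]
  rfl

theorem Yr_contDiffOn : ContDiffOn ℝ ∞ Yr {p | 0 < Yr p} := by
  refine ContDiffOn.sqrt (((((coord_contDiff 1).pow 2).add ((coord_contDiff 2).pow 2)).add
    ((coord_contDiff 3).pow 2)).contDiffOn) ?_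
  intro p hp
  have hp' : 0 < Yr p := hp
  change p 1 ^ 2 + p 2 ^ 2 + p 3 ^ 2 ≠ 0
  rw [← Yr_sq]
  positivity
theorem Ur_contDiffOn : ContDiffOn ℝ ∞ Ur {p | Ur p ≠ 0} := by
  refine ContDiffOn.sqrt ((((coord_contDiff 2).pow 2).add
    ((coord_contDiff 3).pow 2)).contDiffOn) ?_
  intro p hp
  have hp' : Ur p ≠ 0 := hp
  change p 2 ^ 2 + p 3 ^ 2 ≠ 0
  rw [← Ur_sq]
  positivity
theorem norm_contDiffOn : ContDiffOn ℝ ∞ (fun p : EE 4 => ‖p‖) {p | p ≠ 0} := fun _ hp =>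
  (contDiffAt_norm ℝ hp).contDiffWithinAt
theorem angp_contDiffOn : ContDiffOn ℝ ∞ (fun p : EE 4 => ang (p 0) (Yr p)) {p | 0 < Yr p} := by
  have h1 : ContDiffOn ℝ ∞ (fun p : EE 4 => (p 0, Yr p)) {p | 0 < Yr p} :=
    (coord_contDiff 0).contDiffOn.prodMk Yr_contDiffOn
  have h2 : MapsTo (fun p : EE 4 => (p 0, Yr p)) {p | 0 < Yr p} {q : ℝ × ℝ | 0 < q.2} := by
    intro p hp
    exact hp
  have h3 := ContDiffOn.comp (g := fun q : ℝ × ℝ => ang q.1 q.2)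
    (f := fun p : EE 4 => (p 0, Yr p)) ang_contDiffOn h1 h2
  exact h3

private theorem sub_norm : {p : EE 4 | 0 < Yr p} ⊆ {p | p ≠ 0} := fun _ hp =>
  norm_pos_iff.1 (norm_pos_Yr hp)
private theorem sub_Yr : {p : EE 4 | Ur p ≠ 0} ⊆ {p | 0 < Yr p} := fun _ hp => Yr_pos hp

/-! joint smoothness of the forms in `(p,v)` implies smoothness in `p` for each `v` -/
theorem wY_smooth (v : EE 4) : ContDiffOn ℝ ∞ (fun p => wY p v) {p | 0 < Yr p} := by
  refine ContDiffOn.div ?_ Yr_contDiffOn (fun _ hp => (show 0 < Yr _ from hp).ne')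
  exact ((((coord_contDiff 1).mul contDiff_const).add ((coord_contDiff 2).mul contDiff_const)).add
    ((coord_contDiff 3).mul contDiff_const)).contDiffOn
theorem wR_smooth (v : EE 4) : ContDiffOn ℝ ∞ (fun p => wR p v) {p | p ≠ 0} := by
  refine ContDiffOn.div ?_ norm_contDiffOn (fun p hp => norm_ne_zero_iff.2 hp)
  exact (((((coord_contDiff 0).mul contDiff_const).add ((coord_contDiff 1).mul contDiff_const)).add
    ((coord_contDiff 2).mul contDiff_const)).add ((coord_contDiff 3).mul contDiff_const)).contDiffOn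
theorem wt_smooth (v : EE 4) : ContDiffOn ℝ ∞ (fun p => wt p v) {p | 0 < Yr p} := by
  refine ContDiffOn.div ?_ ((norm_contDiffOn.mono sub_norm).pow 2)
    (fun p hp => (pow_pos (norm_pos_Yr hp) 2).ne')
  exact ((coord_contDiff 0).contDiffOn.mul (wY_smooth v)).sub (Yr_contDiffOn.mul contDiffOn_const)
theorem wU_smooth (v : EE 4) : ContDiffOn ℝ ∞ (fun p => wU p v) {p | Ur p ≠ 0} := by
  refine ContDiffOn.div ?_ Ur_contDiffOn (fun p hp => hp)
  exact (((coord_contDiff 2).mul contDiff_const).add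
    ((coord_contDiff 3).mul contDiff_const)).contDiffOn
theorem wth_smooth (v : EE 4) : ContDiffOn ℝ ∞ (fun p => wth p v) {p | Ur p ≠ 0} := by
  refine ContDiffOn.div ?_ (Ur_contDiffOn.pow 2) (fun p hp => pow_ne_zero 2 hp)
  exact (((coord_contDiff 2).mul contDiff_const).sub
    ((coord_contDiff 3).mul contDiff_const)).contDiffOn
theorem wal_smooth (v : EE 4) : ContDiffOn ℝ ∞ (fun p => wal p v) {p | Ur p ≠ 0} := by
  refine ContDiffOn.div ?_ ((Yr_contDiffOn.mono sub_Yr).pow 2)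
    (fun p hp => (pow_pos (Yr_pos hp) 2).ne')
  exact ((coord_contDiff 1).contDiffOn.mul (wU_smooth v)).sub (Ur_contDiffOn.mul contDiffOn_const)

private theorem fderiv_of_line {f : EE 4 → ℝ} {p v : EE 4} {f' : ℝ} (hf : DifferentiableAt ℝ f p)
    (h : HasDerivAt (fun t : ℝ => f (p + t • v)) f' 0) : fderiv ℝ f p v = f' := by
  have hl : HasDerivAt (fun t : ℝ => p + t • v) v 0 := by
    have := ((hasDerivAt_id (0 : ℝ)).smul_const v).const_add p
    simpa using this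
  have h1 : HasFDerivAt f (fderiv ℝ f p) (p + (0 : ℝ) • v) := by
    rw [zero_smul, add_zero]
    exact hf.hasFDerivAt
  exact (h1.comp_hasDerivAt (0 : ℝ) hl).unique h

private theorem ln_coord (p v : EE 4) (i : Fin 4) :
    HasDerivAt (fun t : ℝ => (p + t • v) i) (v i) 0 := by
  have h := ((hasDerivAt_id (0 : ℝ)).mul_const (v i)).const_add (p i)
  rw [one_mul] at h
  exact h

private theorem ln_zero (p v : EE 4) : p + (0 : ℝ) • v = p := by rw [zero_smul, add_zero]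

private theorem ln_sq (p v : EE 4) (i : Fin 4) :
    HasDerivAt (fun t : ℝ => (p + t • v) i ^ 2) (2 * p i * v i) 0 := by
  refine ((ln_coord p v i).pow 2).congr_deriv ?_
  rw [ln_zero]
  ring

private theorem dYr {p : EE 4} (h : 0 < Yr p) : DifferentiableAt ℝ Yr p :=
  (Yr_contDiffOn.contDiffAt (isOpen_Yr.mem_nhds h)).differentiableAt (by simp)
private theorem dUr {p : EE 4} (h : Ur p ≠ 0) : DifferentiableAt ℝ Ur p :=
  (Ur_contDiffOn.contDiffAt (isOpen_Ur.mem_nhds h)).differentiableAt (by simp)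
private theorem dNorm {p : EE 4} (h : p ≠ 0) : DifferentiableAt ℝ (fun p : EE 4 => ‖p‖) p :=
  (contDiffAt_norm ℝ h (n := ∞)).differentiableAt (by simp)
private theorem dAng {p : EE 4} (h : 0 < Yr p) :
    DifferentiableAt ℝ (fun p : EE 4 => ang (p 0) (Yr p)) p :=
  (angp_contDiffOn.contDiffAt (isOpen_Yr.mem_nhds h)).differentiableAt (by simp)

theorem fderiv_Yr {p : EE 4} (h : 0 < Yr p) (v : EE 4) : fderiv ℝ Yr p v = wY p v := by
  apply fderiv_of_line (dYr h)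
  have h1 : HasDerivAt (fun t : ℝ => (p + t • v) 1 ^ 2 + (p + t • v) 2 ^ 2 + (p + t • v) 3 ^ 2)
      (2 * p 1 * v 1 + 2 * p 2 * v 2 + 2 * p 3 * v 3) 0 :=
    ((ln_sq p v 1).add (ln_sq p v 2)).add (ln_sq p v 3)
  have h2 := h1.sqrt (by
    rw [ln_zero, ← Yr_sq]
    positivity)
  refine h2.congr_deriv ?_
  rw [ln_zero, ← Yr_sq, Real.sqrt_sq h.le, wY]
  field_simp
theorem fderiv_Ur {p : EE 4} (h : Ur p ≠ 0) (v : EE 4) : fderiv ℝ Ur p v = wU p v := by
  apply fderiv_of_line (dUr h)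
  have h1 : HasDerivAt (fun t : ℝ => (p + t • v) 2 ^ 2 + (p + t • v) 3 ^ 2)
      (2 * p 2 * v 2 + 2 * p 3 * v 3) 0 := (ln_sq p v 2).add (ln_sq p v 3)
  have h2 := h1.sqrt (by
    rw [ln_zero, ← Ur_sq]
    positivity)
  refine h2.congr_deriv ?_
  rw [ln_zero, ← Ur_sq, Real.sqrt_sq (Ur_nonneg p), wU]
  field_simp
theorem fderiv_norm4 {p : EE 4} (h : p ≠ 0) (v : EE 4) : fderiv ℝ (fun p : EE 4 => ‖p‖) p v = wR p v := by
  apply fderiv_of_line (dNorm h)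
  have hn : 0 < ‖p‖ := norm_pos_iff.2 h
  have h1 : HasDerivAt (fun t : ℝ => (p + t • v) 0 ^ 2 + (p + t • v) 1 ^ 2 +
      (p + t • v) 2 ^ 2 + (p + t • v) 3 ^ 2)
      (2 * p 0 * v 0 + 2 * p 1 * v 1 + 2 * p 2 * v 2 + 2 * p 3 * v 3) 0 :=
    (((ln_sq p v 0).add (ln_sq p v 1)).add (ln_sq p v 2)).add (ln_sq p v 3)
  have h3 := h1.sqrt (by
    rw [ln_zero, ← norm_sq4]
    positivity)
  have h2 : (fun t : ℝ => ‖p + t • v‖) = fun t : ℝ => √((p + t • v) 0 ^ 2 + (p + t • v) 1 ^ 2 +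
      (p + t • v) 2 ^ 2 + (p + t • v) 3 ^ 2) := by
    funext t
    rw [← norm_sq4, Real.sqrt_sq (norm_nonneg _)]
  rw [h2]
  refine h3.congr_deriv ?_
  rw [ln_zero, ← norm_sq4, Real.sqrt_sq hn.le, wR]
  field_simp
theorem fderiv_ang {p : EE 4} (h : 0 < Yr p) (v : EE 4) :
    fderiv ℝ (fun p : EE 4 => ang (p 0) (Yr p)) p v = wt p v := by
  have hn := norm_pos_Yr h
  have h0 : p ≠ 0 := norm_pos_iff.1 hn
  have hA := (dAng h).hasFDerivAt
  have hc : HasFDerivAt (fun p : EE 4 => cos (ang (p 0) (Yr p)))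
      (-sin (ang (p 0) (Yr p)) • fderiv ℝ (fun p : EE 4 => ang (p 0) (Yr p)) p) p := hA.cos
  have hX : HasFDerivAt (fun p : EE 4 => p 0) (EuclideanSpace.proj 0 : EE 4 →L[ℝ] ℝ) p :=
    (EuclideanSpace.proj 0 : EE 4 →L[ℝ] ℝ).hasFDerivAt
  have hm : HasFDerivAt (fun p : EE 4 => ‖p‖ * cos (ang (p 0) (Yr p)))
      (‖p‖ • (-sin (ang (p 0) (Yr p)) • fderiv ℝ (fun p : EE 4 => ang (p 0) (Yr p)) p) +
        cos (ang (p 0) (Yr p)) • fderiv ℝ (fun p : EE 4 => ‖p‖) p) p :=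
    (dNorm h0).hasFDerivAt.mul hc
  have he : (fun p : EE 4 => ‖p‖ * cos (ang (p 0) (Yr p))) =ᶠ[𝓝 p] fun p : EE 4 => p 0 := by
    filter_upwards [isOpen_Yr.mem_nhds h] with q hq
    have hq' : 0 < Yr q := hq
    rw [cos_angp hq']
    have := norm_pos_Yr hq'
    field_simp
  have hu := (hX.congr_of_eventuallyEq he).unique hm
  have hv := congrArg (fun L : EE 4 →L[ℝ] ℝ => L v) hu
  have hv' : v 0 = ‖p‖ * (-sin (ang (p 0) (Yr p)) * fderiv ℝ (fun p : EE 4 => ang (p 0) (Yr p)) p v) +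
      cos (ang (p 0) (Yr p)) * fderiv ℝ (fun p : EE 4 => ‖p‖) p v := hv
  rw [fderiv_norm4 h0, cos_angp h, sin_angp h] at hv'
  have e1 : wR p v = (p 0 * v 0 + Yr p * wY p v) / ‖p‖ := by
    rw [wR, wY]
    field_simp
    ring
  have e2 := norm_sq_XY p
  rw [e1] at hv'
  rw [wt, eq_div_iff (by positivity)]
  field_simp at hv'
  apply mul_left_cancel₀ h.ne'
  linear_combination hv' - (v 0) * e2

/-! composition rules -/
private theorem comp_rule {F : EE 4 → EE 4} {f : EE 4 → ℝ} {y : EE 4} (hF : DifferentiableAt ℝ F y)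
    (hf : DifferentiableAt ℝ f (F y)) (v : EE 4) :
    fderiv ℝ f (F y) (fderiv ℝ F y v) = fderiv ℝ (fun z => f (F z)) y v := by
  have h := (hf.hasFDerivAt.comp y hF.hasFDerivAt).fderiv
  have h2 : fderiv ℝ (fun z => f (F z)) y = (fderiv ℝ f (F y)).comp (fderiv ℝ F y) := h
  rw [h2]
  rfl
theorem wY_comp {F : EE 4 → EE 4} {y : EE 4} (hF : DifferentiableAt ℝ F y) (h : 0 < Yr (F y)) (v : EE 4) :
    wY (F y) (fderiv ℝ F y v) = fderiv ℝ (fun z => Yr (F z)) y v := by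
  rw [← fderiv_Yr h, comp_rule hF (dYr h)]
theorem wU_comp {F : EE 4 → EE 4} {y : EE 4} (hF : DifferentiableAt ℝ F y) (h : Ur (F y) ≠ 0) (v : EE 4) :
    wU (F y) (fderiv ℝ F y v) = fderiv ℝ (fun z => Ur (F z)) y v := by
  rw [← fderiv_Ur h, comp_rule hF (dUr h)]
theorem wR_comp {F : EE 4 → EE 4} {y : EE 4} (hF : DifferentiableAt ℝ F y) (h : F y ≠ 0) (v : EE 4) :
    wR (F y) (fderiv ℝ F y v) = fderiv ℝ (fun z => ‖F z‖) y v := by
  rw [← fderiv_norm4 h, comp_rule hF (dNorm h)]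
theorem wt_comp {F : EE 4 → EE 4} {y : EE 4} (hF : DifferentiableAt ℝ F y) (h : 0 < Yr (F y)) (v : EE 4) :
    wt (F y) (fderiv ℝ F y v) = fderiv ℝ (fun z => ang (F z 0) (Yr (F z))) y v := by
  rw [← fderiv_ang h, comp_rule hF (dAng h)]

private theorem polar_der {f g r φ : EE 4 → ℝ} {y : EE 4} (hr : DifferentiableAt ℝ r y)
    (hφ : DifferentiableAt ℝ φ y) (h2 : ∀ᶠ z in 𝓝 y, f z = r z * cos (φ z))
    (h3 : ∀ᶠ z in 𝓝 y, g z = r z * sin (φ z)) (v : EE 4) :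
    f y = r y * cos (φ y) ∧ g y = r y * sin (φ y) ∧
    fderiv ℝ f y v = fderiv ℝ r y v * cos (φ y) - r y * sin (φ y) * fderiv ℝ φ y v ∧
    fderiv ℝ g y v = fderiv ℝ r y v * sin (φ y) + r y * cos (φ y) * fderiv ℝ φ y v := by
  refine ⟨h2.self_of_nhds, h3.self_of_nhds, ?_, ?_⟩
  · have e : f =ᶠ[𝓝 y] fun z => r z * cos (φ z) := h2
    have h := hr.hasFDerivAt.mul hφ.hasFDerivAt.cos
    have e2 : fderiv ℝ (fun z => r z * cos (φ z)) y = _ := h.fderiv
    rw [e.fderiv_eq, e2]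
    change r y * (-sin (φ y) * fderiv ℝ φ y v) + cos (φ y) * fderiv ℝ r y v = _
    ring
  · have e : g =ᶠ[𝓝 y] fun z => r z * sin (φ z) := h3
    have h := hr.hasFDerivAt.mul hφ.hasFDerivAt.sin
    have e2 : fderiv ℝ (fun z => r z * sin (φ z)) y = _ := h.fderiv
    rw [e.fderiv_eq, e2]
    change r y * (cos (φ y) * fderiv ℝ φ y v) + sin (φ y) * fderiv ℝ r y v = _
    ring

theorem wth_comp {F : EE 4 → EE 4} {r φ : EE 4 → ℝ} {y : EE 4} (hF : DifferentiableAt ℝ F y)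
    (hr : DifferentiableAt ℝ r y) (hφ : DifferentiableAt ℝ φ y) (h0 : r y ≠ 0)
    (h2 : ∀ᶠ z in 𝓝 y, F z 2 = r z * cos (φ z)) (h3 : ∀ᶠ z in 𝓝 y, F z 3 = r z * sin (φ z)) (v : EE 4) :
    wth (F y) (fderiv ℝ F y v) = fderiv ℝ φ y v := by
  obtain ⟨e2, e3, d2, d3⟩ := polar_der hr hφ h2 h3 v
  have hs := Real.sin_sq_add_cos_sq (φ y)
  have hU : Ur (F y) ^ 2 = r y ^ 2 := by
    rw [Ur_sq, e2, e3]
    linear_combination (r y ^ 2) * hs
  rw [wth, fderiv_apply_coord hF, fderiv_apply_coord hF, d2, d3, hU, e2, e3,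
    div_eq_iff (pow_ne_zero 2 h0)]
  linear_combination (r y ^ 2 * fderiv ℝ φ y v) * hs
theorem wal_comp {F : EE 4 → EE 4} {r α : EE 4 → ℝ} {y : EE 4} (hF : DifferentiableAt ℝ F y)
    (hr : DifferentiableAt ℝ r y) (hα : DifferentiableAt ℝ α y) (h0 : Ur (F y) ≠ 0)
    (h1 : ∀ᶠ z in 𝓝 y, F z 1 = r z * cos (α z)) (h2 : ∀ᶠ z in 𝓝 y, Ur (F z) = r z * sin (α z)) (v : EE 4) :
    wal (F y) (fderiv ℝ F y v) = fderiv ℝ α y v := by
  obtain ⟨e2, e3, d2, d3⟩ := polar_der hr hα h1 h2 v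
  have hs := Real.sin_sq_add_cos_sq (α y)
  have hr0 : r y ≠ 0 := by
    intro h
    rw [h, zero_mul] at e3
    exact h0 e3
  have hY : Yr (F y) ^ 2 = r y ^ 2 := by
    rw [Yr_sq', e2, e3]
    linear_combination (r y ^ 2) * hs
  rw [wal, wU_comp hF h0, fderiv_apply_coord hF, d2, d3, hY, e2, e3,
    div_eq_iff (pow_ne_zero 2 hr0)]
  linear_combination (r y ^ 2 * fderiv ℝ α y v) * hs
/-- the same for `n1 dn2 - n2 dn1`: if `F 0 = r cos φ`, `F 1 = r sin φ` then `x0 dx1 - x1 dx0 = r² dφ` -/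
theorem w01_comp {F : EE 4 → EE 4} {r φ : EE 4 → ℝ} {y : EE 4} (hF : DifferentiableAt ℝ F y)
    (hr : DifferentiableAt ℝ r y) (hφ : DifferentiableAt ℝ φ y)
    (h2 : ∀ᶠ z in 𝓝 y, F z 0 = r z * cos (φ z)) (h3 : ∀ᶠ z in 𝓝 y, F z 1 = r z * sin (φ z)) (v : EE 4) :
    F y 0 * fderiv ℝ F y v 1 - F y 1 * fderiv ℝ F y v 0 = (r y) ^ 2 * fderiv ℝ φ y v := by
  obtain ⟨e2, e3, d2, d3⟩ := polar_der hr hφ h2 h3 v
  have hs := Real.sin_sq_add_cos_sq (φ y)
  rw [fderiv_apply_coord hF, fderiv_apply_coord hF, d2, d3, e2, e3]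
  linear_combination (r y ^ 2 * fderiv ℝ φ y v) * hs

end Pool.Agent.MP39e402
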