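import Pool.Agent.Lib.MP_39e402_gt.GTr
import Pool.Agent.Lib.MP_39e402_gt.LLocP
import Pool.Agent.Lib.MP_39e402_gt.UAdm
import Pool.Agent.Lib.MP_39e402_gt.UFormD

/-! # MP_39e402, module UQm: the transition map `Qm`: values and forms, agreement of the two formulas for the metric

For `0 < Yr p`, `θ = ang (p 0) (Yr p)`, `β = 2 ϑ(θ) = 2 vth θ ∈ (0,π)`, `x = Qm ε p`, `R = ‖p‖`, `s = ε sC`:
`x0 = (R/s) cos β`, `x_i = (R/s) sin β p_i/Y`; so `‖x‖ = R/s`, `Yr x = (R/s) sin β`, `Ur x = (R/s) sin β Ur p/Yr p`,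
`n3 x = sin β Ur p/Yr p`. -/

open Real Set Filter Topology MeasureTheory
open scoped ContDiff

noncomputable section

namespace Pool.Agent.MP39e402

/-- `β` -/
def bet (p : EE 4) : ℝ := 2 * vth (ang (p 0) (Yr p))

theorem bet_mem {p : EE 4} (h : 0 < Yr p) : 0 < bet p ∧ bet p < π := by
  have h1 := ang_mem (X := p 0) h
  have h2 := vth_mem h1.1 h1.2
  unfold bet
  constructor <;> linarith [h2.1, h2.2]

theorem sin_bet_pos {p : EE 4} (h : 0 < Yr p) : 0 < sin (bet p) :=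
  Real.sin_pos_of_pos_of_lt_pi (bet_mem h).1 (bet_mem h).2

theorem Qm_norm' {ε : ℝ} (h : 0 < ε) {p : EE 4} (hp : p ≠ 0) : ‖Qm ε p‖ = ‖p‖ / (ε * sC) :=
  Qm_norm h hp

theorem Qm_x0 (ε : ℝ) (p : EE 4) : Qm ε p 0 = ‖p‖ / (ε * sC) * cos (bet p) := by
  unfold Qm bet
  rw [PiLp.smul_apply, v4_zero, smul_eq_mul]

theorem Qm_xi (ε : ℝ) (p : EE 4) (i : Fin 4) (hi : i ≠ 0) :
    Qm ε p i = ‖p‖ / (ε * sC) * (sin (bet p) * p i / Yr p) := by
  unfold Qm bet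
  rw [PiLp.smul_apply, smul_eq_mul]
  fin_cases i
  · exact absurd rfl hi
  · show _ * (v4 _ _ _ _) 1 = _
    rw [v4_one]
    rfl
  · show _ * (v4 _ _ _ _) 2 = _
    rw [v4_two]
    rfl
  · show _ * (v4 _ _ _ _) 3 = _
    rw [v4_three]
    rfl

private theorem cpos {ε : ℝ} (h : 0 < ε) {p : EE 4} (hp : 0 < Yr p) : 0 < ‖p‖ / (ε * sC) :=
  div_pos (norm_pos_Yr hp) (mul_pos h sC_pos)

theorem Qm_Yr_val {ε : ℝ} (h : 0 < ε) {p : EE 4} (hp : 0 < Yr p) :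
    Yr (Qm ε p) = ‖p‖ / (ε * sC) * sin (bet p) := by
  have hc := cpos h hp
  have hs := sin_bet_pos hp
  refine (sq_eq_sq₀ (Yr_nonneg _) (mul_nonneg hc.le hs.le)).1 ?_
  rw [Yr_sq, Qm_xi ε p 1 (by decide), Qm_xi ε p 2 (by decide), Qm_xi ε p 3 (by decide)]
  have h1 := Yr_sq p
  have h2 : (‖p‖ / (ε * sC) * (sin (bet p) * p 1 / Yr p)) ^ 2 +
      (‖p‖ / (ε * sC) * (sin (bet p) * p 2 / Yr p)) ^ 2 +
      (‖p‖ / (ε * sC) * (sin (bet p) * p 3 / Yr p)) ^ 2 =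
      (‖p‖ / (ε * sC) * sin (bet p)) ^ 2 * ((p 1 ^ 2 + p 2 ^ 2 + p 3 ^ 2) / Yr p ^ 2) := by
    ring
  rw [h2, ← h1, div_self (by positivity), mul_one]

theorem Qm_Ur_val {ε : ℝ} (h : 0 < ε) {p : EE 4} (hp : 0 < Yr p) :
    Ur (Qm ε p) = ‖p‖ / (ε * sC) * sin (bet p) * Ur p / Yr p := by
  have hc := cpos h hp
  have hs := sin_bet_pos hp
  have hU := Ur_nonneg p
  refine (sq_eq_sq₀ (Ur_nonneg _) (by positivity)).1 ?_
  rw [Ur_sq, Qm_xi ε p 2 (by decide), Qm_xi ε p 3 (by decide)]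
  have h1 := Ur_sq p
  have h2 : (‖p‖ / (ε * sC) * (sin (bet p) * p 2 / Yr p)) ^ 2 +
      (‖p‖ / (ε * sC) * (sin (bet p) * p 3 / Yr p)) ^ 2 =
      (‖p‖ / (ε * sC) * sin (bet p)) ^ 2 * ((p 2 ^ 2 + p 3 ^ 2) / Yr p ^ 2) := by
    ring
  rw [h2, ← h1]
  ring

theorem Qm_n3 {ε : ℝ} (h : 0 < ε) {p : EE 4} (hp : 0 < Yr p) :
    n3 (Qm ε p) = sin (bet p) * Ur p / Yr p := by
  have hc := cpos h hp
  have hne : p ≠ 0 := norm_pos_iff.1 (norm_pos_Yr hp)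
  unfold n3
  rw [Qm_Ur_val h hp, Qm_norm h hne]
  have h1 : ‖p‖ / (ε * sC) * sin (bet p) * Ur p / Yr p =
      ‖p‖ / (ε * sC) * (sin (bet p) * Ur p / Yr p) := by ring
  rw [h1, mul_div_cancel_left₀ _ hc.ne']

theorem Qm_ang {ε : ℝ} (h : 0 < ε) {p : EE 4} (hp : 0 < Yr p) :
    ang (Qm ε p 0) (Yr (Qm ε p)) = bet p := by
  rw [Qm_x0, Qm_Yr_val h hp]
  exact ang_polar (cpos h hp) (bet_mem hp).1.le (bet_mem hp).2.le

theorem Qm_diff {ε : ℝ} (h : 0 < ε) {p : EE 4} (hp : p ≠ 0) : DifferentiableAt ℝ (Qm ε) p :=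
  ((Qm_contDiffOn h).contDiffAt (isOpen_compl_singleton.mem_nhds hp)).differentiableAt (by simp)

private theorem Qm_ne {ε : ℝ} (h : 0 < ε) {p : EE 4} (hp : p ≠ 0) : Qm ε p ≠ 0 := by
  rw [← norm_pos_iff, Qm_norm h hp]
  exact div_pos (norm_pos_iff.2 hp) (mul_pos h sC_pos)

theorem Qm_fderiv_inj {ε : ℝ} (h : 0 < ε) {p : EE 4} (hp : p ≠ 0) {v : EE 4}
    (hv : fderiv ℝ (Qm ε) p v = 0) : v = 0 := by
  have hQ := Qm_diff h hp
  have hT : DifferentiableAt ℝ (Th ε) (Qm ε p) :=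
    ((Th_contDiffOn h).contDiffAt (isOpen_compl_singleton.mem_nhds (Qm_ne h hp))).differentiableAt
      (by simp)
  have h1 : fderiv ℝ (Th ε ∘ Qm ε) p = (fderiv ℝ (Th ε) (Qm ε p)).comp (fderiv ℝ (Qm ε) p) :=
    fderiv_comp p hT hQ
  have h2 : (Th ε ∘ Qm ε) =ᶠ[𝓝 p] id := by
    filter_upwards [isOpen_compl_singleton.mem_nhds hp] with z hz
    exact Th_Qm h hz
  have h3 := h2.fderiv_eq (𝕜 := ℝ)
  rw [h1, fderiv_id] at h3
  have h4 := congrArg (fun L => L v) h3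
  simpa [hv] using h4.symm

theorem Qm_wR {ε : ℝ} (h : 0 < ε) {p : EE 4} (hp : 0 < Yr p) (v : EE 4) :
    wR (Qm ε p) (fderiv ℝ (Qm ε) p v) = wR p v / (ε * sC) := by
  have hne : p ≠ 0 := norm_pos_iff.1 (norm_pos_Yr hp)
  rw [wR_comp (Qm_diff h hne) (Qm_ne h hne)]
  have h2 : (fun z => ‖Qm ε z‖) =ᶠ[𝓝 p] fun z => ‖z‖ * (ε * sC)⁻¹ := by
    filter_upwards [isOpen_compl_singleton.mem_nhds hne] with z hz
    rw [Qm_norm h hz, div_eq_mul_inv]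
  have hn : HasFDerivAt (fun z : EE 4 => ‖z‖) (fderiv ℝ (fun z : EE 4 => ‖z‖) p) p :=
    ((norm_contDiffOn.contDiffAt (isOpen_ne.mem_nhds hne)).differentiableAt (by simp)).hasFDerivAt
  rw [h2.fderiv_eq (𝕜 := ℝ), (hn.mul_const (ε * sC)⁻¹).fderiv]
  rw [ContinuousLinearMap.smul_apply, fderiv_norm4 hne, smul_eq_mul]
  ring

private theorem ang_hfd {p : EE 4} (hp : 0 < Yr p) :
    HasFDerivAt (fun p : EE 4 => ang (p 0) (Yr p))
      (fderiv ℝ (fun p : EE 4 => ang (p 0) (Yr p)) p) p :=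
  ((angp_contDiffOn.contDiffAt (isOpen_Yr.mem_nhds hp)).differentiableAt (by simp)).hasFDerivAt

private theorem bet_hfd {p : EE 4} (hp : 0 < Yr p) :
    HasFDerivAt bet ((2 * (1 - mf (ang (p 0) (Yr p)))) •
      fderiv ℝ (fun p : EE 4 => ang (p 0) (Yr p)) p) p := by
  have h1 := (vth_hasDerivAt (ang (p 0) (Yr p))).comp_hasFDerivAt p (ang_hfd hp)
  have h2 := h1.const_mul 2
  rw [mul_smul]
  exact h2

theorem Qm_wt {ε : ℝ} (h : 0 < ε) {p : EE 4} (hp : 0 < Yr p) (v : EE 4) :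
    wt (Qm ε p) (fderiv ℝ (Qm ε) p v) = 2 * (1 - mf (ang (p 0) (Yr p))) * wt p v := by
  have hne : p ≠ 0 := norm_pos_iff.1 (norm_pos_Yr hp)
  have hY : 0 < Yr (Qm ε p) := by
    rw [Qm_Yr_val h hp]
    exact mul_pos (cpos h hp) (sin_bet_pos hp)
  rw [wt_comp (Qm_diff h hne) hY]
  have h2 : (fun z => ang (Qm ε z 0) (Yr (Qm ε z))) =ᶠ[𝓝 p] bet := by
    filter_upwards [isOpen_Yr.mem_nhds hp] with z hz
    exact Qm_ang h hz
  rw [h2.fderiv_eq (𝕜 := ℝ), (bet_hfd hp).fderiv, ContinuousLinearMap.smul_apply, fderiv_ang hp,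
    smul_eq_mul]

/-- the common factor of the components `1, 2, 3` -/
private def gq (ε : ℝ) (p : EE 4) : ℝ := ‖p‖ / (ε * sC) * (sin (bet p) / Yr p)

private theorem gq_pos {ε : ℝ} (h : 0 < ε) {p : EE 4} (hp : 0 < Yr p) : 0 < gq ε p :=
  mul_pos (cpos h hp) (div_pos (sin_bet_pos hp) hp)

private theorem Qm_xi' (ε : ℝ) (p : EE 4) (i : Fin 4) (hi : i ≠ 0) : Qm ε p i = gq ε p * p i := by
  rw [Qm_xi ε p i hi]
  unfold gq
  ring

private theorem gq_diff {ε : ℝ} (h : 0 < ε) {p : EE 4} (hp : 0 < Yr p) :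
    DifferentiableAt ℝ (gq ε) p := by
  have hne : p ≠ 0 := norm_pos_iff.1 (norm_pos_Yr hp)
  have h1 : DifferentiableAt ℝ (fun z : EE 4 => ‖z‖) p :=
    (norm_contDiffOn.contDiffAt (isOpen_ne.mem_nhds hne)).differentiableAt (by simp)
  have h2 : DifferentiableAt ℝ Yr p :=
    (Yr_contDiffOn.contDiffAt (isOpen_Yr.mem_nhds hp)).differentiableAt (by simp)
  have h3 : DifferentiableAt ℝ bet p := (bet_hfd hp).differentiableAt
  have h4 : DifferentiableAt ℝ (fun z => sin (bet z)) p := h3.sin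
  have h5 : DifferentiableAt ℝ (fun z : EE 4 => ‖z‖ / (ε * sC)) p :=
    (h1.mul_const (ε * sC)⁻¹).congr_of_eventuallyEq
      (Filter.Eventually.of_forall fun z => div_eq_mul_inv _ _)
  have h6 : DifferentiableAt ℝ (fun z : EE 4 => sin (bet z) / Yr z) p :=
    (DifferentiableAt.fun_mul h4 (DifferentiableAt.fun_inv h2 hp.ne')).congr_of_eventuallyEq
      (Filter.Eventually.of_forall fun z => div_eq_mul_inv _ _)
  exact DifferentiableAt.fun_mul h5 h6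

private theorem Qm_dxi {ε : ℝ} (h : 0 < ε) {p : EE 4} (hp : 0 < Yr p) (v : EE 4) (i : Fin 4)
    (hi : i ≠ 0) : fderiv ℝ (Qm ε) p v i = fderiv ℝ (gq ε) p v * p i + gq ε p * v i := by
  have hne : p ≠ 0 := norm_pos_iff.1 (norm_pos_Yr hp)
  rw [fderiv_apply_coord (Qm_diff h hne)]
  have h1 : (fun z => Qm ε z i) = fun z => gq ε z * z i := funext fun z => Qm_xi' ε z i hi
  have h2 : HasFDerivAt (fun z : EE 4 => z i) (EuclideanSpace.proj i : EE 4 →L[ℝ] ℝ) p :=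
    (EuclideanSpace.proj i : EE 4 →L[ℝ] ℝ).hasFDerivAt
  have h3 : HasFDerivAt (fun z : EE 4 => gq ε z * z i)
      (gq ε p • (EuclideanSpace.proj i : EE 4 →L[ℝ] ℝ) + p i • fderiv ℝ (gq ε) p) p :=
    HasFDerivAt.fun_mul (gq_diff h hp).hasFDerivAt h2
  rw [h1, h3.fderiv]
  simp only [ContinuousLinearMap.add_apply, ContinuousLinearMap.smul_apply, smul_eq_mul]
  show gq ε p * v i + p i * fderiv ℝ (gq ε) p v = _
  ring

private theorem Qm_Ur' {ε : ℝ} (h : 0 < ε) {p : EE 4} (hp : 0 < Yr p) :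
    Ur (Qm ε p) = gq ε p * Ur p := by
  rw [Qm_Ur_val h hp]
  unfold gq
  ring

private theorem Qm_Yr' {ε : ℝ} (h : 0 < ε) {p : EE 4} (hp : 0 < Yr p) :
    Yr (Qm ε p) = gq ε p * Yr p := by
  rw [Qm_Yr_val h hp]
  unfold gq
  field_simp

theorem Qm_wth {ε : ℝ} (h : 0 < ε) {p : EE 4} (hp : Ur p ≠ 0) (v : EE 4) :
    wth (Qm ε p) (fderiv ℝ (Qm ε) p v) = wth p v := by
  have hY := Yr_pos hp
  have hg := (gq_pos h hY).ne'
  unfold wth
  rw [Qm_Ur' h hY, Qm_xi' ε p 2 (by decide), Qm_xi' ε p 3 (by decide),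
    Qm_dxi h hY v 2 (by decide), Qm_dxi h hY v 3 (by decide)]
  rw [div_eq_div_iff (by positivity) (by positivity)]
  ring

private theorem Qm_wU {ε : ℝ} (h : 0 < ε) {p : EE 4} (hp : Ur p ≠ 0) (v : EE 4) :
    wU (Qm ε p) (fderiv ℝ (Qm ε) p v) = fderiv ℝ (gq ε) p v * Ur p + gq ε p * wU p v := by
  have hY := Yr_pos hp
  have hg := (gq_pos h hY).ne'
  have hU := Ur_sq p
  unfold wU
  rw [Qm_Ur' h hY, Qm_xi' ε p 2 (by decide), Qm_xi' ε p 3 (by decide),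
    Qm_dxi h hY v 2 (by decide), Qm_dxi h hY v 3 (by decide)]
  rw [div_eq_iff (mul_ne_zero hg hp)]
  have h1 : (p 2 * v 2 + p 3 * v 3) / Ur p * Ur p = p 2 * v 2 + p 3 * v 3 :=
    div_mul_cancel₀ _ hp
  calc gq ε p * p 2 * (fderiv ℝ (gq ε) p v * p 2 + gq ε p * v 2) +
        gq ε p * p 3 * (fderiv ℝ (gq ε) p v * p 3 + gq ε p * v 3)
      = gq ε p * fderiv ℝ (gq ε) p v * (p 2 ^ 2 + p 3 ^ 2) +
        gq ε p * gq ε p * (p 2 * v 2 + p 3 * v 3) := by ring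
    _ = gq ε p * fderiv ℝ (gq ε) p v * Ur p ^ 2 +
        gq ε p * gq ε p * ((p 2 * v 2 + p 3 * v 3) / Ur p * Ur p) := by rw [hU, h1]
    _ = _ := by ring

theorem Qm_wal {ε : ℝ} (h : 0 < ε) {p : EE 4} (hp : Ur p ≠ 0) (v : EE 4) :
    wal (Qm ε p) (fderiv ℝ (Qm ε) p v) = wal p v := by
  have hY := Yr_pos hp
  have hg := (gq_pos h hY).ne'
  unfold wal
  rw [Qm_wU h hp, Qm_Ur' h hY, Qm_Yr' h hY, Qm_xi' ε p 1 (by decide), Qm_dxi h hY v 1 (by decide)]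
  rw [div_eq_div_iff (by positivity) (by positivity)]
  ring

theorem Qm_wn2 {ε : ℝ} (h : 0 < ε) {p : EE 4} (hp : Ur p ≠ 0) (v : EE 4) :
    wn2 (Qm ε p) (fderiv ℝ (Qm ε) p v) = (2 * (1 - mf (ang (p 0) (Yr p))) * wt p v) ^ 2
      + sin (bet p) ^ 2 * (wal p v ^ 2 + (Ur p / Yr p) ^ 2 * wth p v ^ 2) := by
  have hY := Yr_pos hp
  have hne : p ≠ 0 := ne_zero_Ur hp
  have hc := cpos h hY
  have hQU : Ur (Qm ε p) ≠ 0 := by
    rw [Qm_Ur' h hY]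
    exact mul_ne_zero (gq_pos h hY).ne' hp
  have hQY : 0 < Yr (Qm ε p) := Yr_pos hQU
  have h1 := normsq_forms hQU (fderiv ℝ (Qm ε) p v)
  have h2 := planar_forms hQY (fderiv ℝ (Qm ε) p v)
  rw [Qm_wal h hp, Qm_wth h hp] at h1
  rw [Qm_wt h hY] at h2
  unfold wn2
  have h3 : ‖fderiv ℝ (Qm ε) p v‖ ^ 2 - wR (Qm ε p) (fderiv ℝ (Qm ε) p v) ^ 2 =
      ‖Qm ε p‖ ^ 2 * (2 * (1 - mf (ang (p 0) (Yr p))) * wt p v) ^ 2 +
      Yr (Qm ε p) ^ 2 * wal p v ^ 2 + Ur (Qm ε p) ^ 2 * wth p v ^ 2 := by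
    linear_combination h1 - h2
  rw [h3, Qm_norm h hne, Qm_Yr_val h hY, Qm_Ur_val h hY]
  rw [div_eq_iff (by positivity)]
  field_simp
  ring

private theorem tc_val {ph : ℝ} (h : 0 < ph) {p : EE 4} (hp : p ≠ 0) :
    tc (Qm (epsh ph) p) = ‖p‖ / (epsh ph * sC) - t1C := by
  unfold tc
  rw [Qm_norm (epsh_pos h) hp]

private theorem TC_pos : 0 < TC + t1C := by
  have h1 := isCoreC.T_gt
  have h2 := isCoreC.t1_pos
  linarith

/-- for `‖p‖ ≥ ε/2` the image is outside the P-zone (`tc ≥ TC`) -/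
theorem Qm_tc_ge {ph : ℝ} (h : 0 < ph) {p : EE 4} (hR : epsh ph / 2 ≤ ‖p‖) : TC ≤ tc (Qm (epsh ph) p) := by
  have he := epsh_pos h
  have hp : p ≠ 0 := norm_pos_iff.1 (by linarith)
  rw [tc_val h hp]
  have hs : epsh ph * sC = epsh ph / 2 / (TC + t1C) := by
    unfold sC
    have := TC_pos
    field_simp
  have h1 : TC + t1C ≤ ‖p‖ / (epsh ph * sC) := by
    rw [le_div_iff₀ (mul_pos he sC_pos), hs, mul_div_cancel₀ _ TC_pos.ne']
    exact hR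
  linarith

theorem Qm_not_PZ {ph : ℝ} (h : 0 < ph) {p : EE 4} (hR : epsh ph / 2 ≤ ‖p‖) : Qm (epsh ph) p ∉ PZ := by
  intro hz
  have h1 := Qm_tc_ge h hR
  have h2 := hz.1
  have h3 := isCoreC.ta_le
  have h4 := isCoreC.T_gt
  linarith

/-- on the cone zone both formulas for the metric agree -/
theorem qC_Qm {ph : ℝ} (h : 0 < ph) (h1 : ph ≤ 1 / 2) (Ψ U : ℝ → ℝ) {p : EE 4} (hU : Ur p ≠ 0)
    (hR : epsh ph / 2 ≤ ‖p‖) (hR1 : ‖p‖ ≤ 3 / 5 * epsh ph) (v : EE 4) :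
    (epsh ph * sC) ^ 2 * qC (scΨ (epsh ph * sC) Ψ) U (Qm (epsh ph) p) (fderiv ℝ (Qm (epsh ph)) p v)
      = qI ph Ψ p v := by
  have he := epsh_pos h
  have hel := epsh_le h h1
  have hY := Yr_pos hU
  have hne : p ≠ 0 := ne_zero_Ur hU
  have hnp : 0 < ‖p‖ := norm_pos_iff.2 hne
  have hs : 0 < epsh ph * sC := mul_pos he sC_pos
  have hsin := sin_bet_pos hY
  -- the core functions in the cone zone
  have hb := isCoreC.cone _ (Qm_tc_ge h hR)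
  have htc : tc (Qm (epsh ph) p) + t1C = ‖p‖ / (epsh ph * sC) := by
    rw [tc_val h hne]
    ring
  rw [htc] at hb
  obtain ⟨hb, hf⟩ := hb
  set b : ℝ := ‖p‖ / (epsh ph * sC) / 2 with hbdef
  have hbpos : 0 < b := by positivity
  have hNN : NN (Qm (epsh ph) p) = b ^ 2 := by
    unfold NN
    rw [hb, hf]
    ring
  have hkap : kap (Qm (epsh ph) p) = 0 := by
    unfold kap
    rw [hb, hf]
    ring
  have hn3 := Qm_n3 he hY
  have hwc : wc (Qm (epsh ph) p) = sin (bet p) * Ur p / Yr p * b := by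
    unfold wc
    rw [hNN, Real.sqrt_sq hbpos.le, hn3]
  have hqC : qC (scΨ (epsh ph * sC) Ψ) U (Qm (epsh ph) p) (fderiv ℝ (Qm (epsh ph)) p v) =
      (wR p v / (epsh ph * sC)) ^ 2 +
      b ^ 2 * ((2 * (1 - mf (ang (p 0) (Yr p))) * wt p v) ^ 2 + sin (bet p) ^ 2 * wal p v ^ 2) +
      (Ψ (epsh ph * sC * (sin (bet p) * Ur p / Yr p * b)) / (epsh ph * sC)) ^ 2 * wth p v ^ 2 := by
    unfold qC
    rw [if_neg (Qm_not_PZ h hR), hkap, hwc, hb, hf, hn3, Qm_wR he hY, Qm_wn2 he hU, Qm_wth he hU]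
    unfold scΨ
    ring
  rw [hqC]
  -- the type I form
  have hPhL : PhL ph (p 0) (Yr p) = ‖p‖ / 2 * sin (bet p) := by
    rw [PhL_inner h h1 hY (by rw [rad_eq_norm]; exact hR1), rad_eq_norm]
    rfl
  have hJL : JL ph ‖p‖ (ang (p 0) (Yr p)) = (1 - mf (ang (p 0) (Yr p))) * ‖p‖ := by
    unfold JL
    have h2 : epsh ph ≤ 1 / 10 := by
      have : ph / 10 ^ 12 ≤ 1 / 10 := by
        rw [div_le_div_iff₀ (by positivity) (by norm_num)]
        linarith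
      linarith
    rw [st_zero (by linarith), Pf_self (div_pos hnp he) (by
      rw [div_le_iff₀ he]
      have : (3 : ℝ) / 5 ≤ RP := by unfold RP; norm_num
      nlinarith)]
    field_simp
    ring
  have hpl := planar_forms hY v
  have harg : epsh ph * sC * (sin (bet p) * Ur p / Yr p * b) =
      ‖p‖ / 2 * sin (bet p) * Ur p / Yr p := by
    rw [hbdef]
    have hs' := hs.ne'
    generalize epsh ph * sC = s at *
    field_simp
  unfold qI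
  rw [hPhL, hJL, harg, hbdef]
  have e1 : (epsh ph * sC) ^ 2 * ((wR p v / (epsh ph * sC)) ^ 2 +
      (‖p‖ / (epsh ph * sC) / 2) ^ 2 * ((2 * (1 - mf (ang (p 0) (Yr p))) * wt p v) ^ 2 +
        sin (bet p) ^ 2 * wal p v ^ 2) +
      (Ψ (‖p‖ / 2 * sin (bet p) * Ur p / Yr p) / (epsh ph * sC)) ^ 2 * wth p v ^ 2) =
      wR p v ^ 2 + ‖p‖ ^ 2 / 4 * ((2 * (1 - mf (ang (p 0) (Yr p))) * wt p v) ^ 2 +
        sin (bet p) ^ 2 * wal p v ^ 2) +
      Ψ (‖p‖ / 2 * sin (bet p) * Ur p / Yr p) ^ 2 * wth p v ^ 2 := by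
    have hs' := hs.ne'
    generalize epsh ph * sC = s at *
    field_simp
    ring
  rw [e1]
  linear_combination hpl

/-- so `qL` is given by the core formula for `‖p‖ ≤ 3ε/5` -/
theorem qL_core {ph : ℝ} (h : 0 < ph) (h1 : ph ≤ 1 / 2) (Ψ U : ℝ → ℝ) {p : EE 4} (hU : Ur p ≠ 0)
    (hR1 : ‖p‖ ≤ 3 / 5 * epsh ph) (v : EE 4) :
    qL ph Ψ U p v =
      (epsh ph * sC) ^ 2 * qC (scΨ (epsh ph * sC) Ψ) U (Qm (epsh ph) p) (fderiv ℝ (Qm (epsh ph)) p v) := by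
  unfold qL
  split_ifs with hlt
  · rfl
  · exact (qC_Qm h h1 Ψ U hU (not_lt.1 hlt) hR1 v).symm

/-- and by the type I formula for `‖p‖ ≥ ε/2` -/
theorem qL_typeI {ph : ℝ} (Ψ U : ℝ → ℝ) {p : EE 4} (hR : epsh ph / 2 ≤ ‖p‖) (v : EE 4) :
    qL ph Ψ U p v = qI ph Ψ p v := by
  unfold qL
  rw [if_neg (not_lt.2 hR)]

theorem mem_UL_iff {ph a : ℝ} (h : 0 < ph) {p : EE 4} :
    p ∈ UL ph a ↔ p ≠ 0 ∧ Qm (epsh ph) p ∈ Uc a := by
  have he := epsh_pos h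
  have hs : 0 < epsh ph * sC := mul_pos he sC_pos
  constructor
  · rintro ⟨hU, hn, hc⟩
    have hne := ne_zero_Ur hU
    refine ⟨hne, ?_, ?_, ?_⟩
    · rw [Qm_norm he hne, lt_div_iff₀ hs]
      linarith
    · intro h0
      exact hU ((Qm_Ur he hne).1 h0)
    · intro hcap
      by_cases hlt : ‖p‖ < epsh ph / 2
      · exact hc ⟨hlt, hcap⟩
      · exact Qm_not_PZ h (not_lt.1 hlt) hcap.1
  · rintro ⟨hne, hn, hU, hc⟩
    refine ⟨fun h0 => hU ((Qm_Ur he hne).2 h0), ?_, fun hcap => hc hcap.2⟩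
    rw [Qm_norm he hne, lt_div_iff₀ hs] at hn
    linarith

end Pool.Agent.MP39e402
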