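import Pool.Agent.Lib.MP_39e402_gt.GSlab
import Pool.Agent.Lib.MP_39e402_gt.UQm

/-! # MP_39e402, module UConn: `UM` and `UInf` are preconnected

1. (radial) `p ∈ UL ph a`, `c ≥ 1` ⟹ `c • p ∈ UL ph a`: `Qm (c p) = c Qm p`; if `c x ∈ CapS a` then
   `tc x ≤ tc (c x) < ta`, `n3 (c x) = n3 x`, so `cos (tc x) ≥ cos (tc (c x)) ≥ 0` and `rhoP x ≤ rhoP (c x)`, so `x ∈ CapS a`.
2. (`freeS`) a point `p` with `Ur p ≠ 0` and `‖p - ctr i‖ ≥ rh i epsh(phh c0 i)/2` for all `1 ≤ i ≤ k` is in `UM c0 k a`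
   (`sC t1C < 1/2`).  Every point `p` of `UM c0 k a` is either such a point or `‖sc i p‖ < epsh/2` for exactly one
   `1 ≤ i ≤ k`; then move radially away from `ctr i` until `‖sc i p‖ = epsh/2`
   (the other balls are far away: `rh i ≤ xh i/4096`, `epsh ≤ 1/2`).
3. (vertical) `freeS` is invariant under `p ↦ (p0, p1, c p2, c p3)`, `c ≥ 1` (`‖p - ctr i‖` does not decrease).
4. the set `{Ur ≥ 1}` is contained in `freeS` and preconnected: image of the convex set `{y | 1 ≤ y 2}` under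
   `y ↦ (y0, y1, y2 cos y3, y2 sin y3)`.
So every point is joined in `UM` to the preconnected set `{Ur ≥ 1}` by (images of) segments:
`isPreconnected_of_forall`.  For `UInf` all `i ≥ 1` (`UInf_iff`; points with `p 0 ≤ 0` are in `UInf` iff `Ur p ≠ 0`,
`gInf_near`). -/

open Real Set Filter Topology MeasureTheory
open scoped ContDiff

noncomputable section

namespace Pool.Agent.MP39e402

private theorem uconn_v0 (a b c d : ℝ) : v4 a b c d 0 = a := rfl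
private theorem uconn_v1 (a b c d : ℝ) : v4 a b c d 1 = b := rfl
private theorem uconn_v2 (a b c d : ℝ) : v4 a b c d 2 = c := rfl
private theorem uconn_v3 (a b c d : ℝ) : v4 a b c d 3 = d := rfl

private theorem uconn_ext {x y : EE 4} (h0 : x 0 = y 0) (h1 : x 1 = y 1) (h2 : x 2 = y 2)
    (h3 : x 3 = y 3) : x = y := by
  ext i
  fin_cases i
  · exact h0
  · exact h1
  · exact h2
  · exact h3

private theorem uconn_norm_sq (x : EE 4) : ‖x‖ ^ 2 = x 0 ^ 2 + x 1 ^ 2 + x 2 ^ 2 + x 3 ^ 2 := by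
  rw [EuclideanSpace.norm_sq_eq, Fin.sum_univ_four]
  simp only [Real.norm_eq_abs, sq_abs]

private theorem uconn_abs_le (x : EE 4) : |x 0| ≤ ‖x‖ := by
  apply abs_le_of_sq_le_sq _ (norm_nonneg x)
  rw [uconn_norm_sq]
  nlinarith [sq_nonneg (x 1), sq_nonneg (x 2), sq_nonneg (x 3)]

theorem Qm_smul {ε c : ℝ} (hc : 0 < c) (p : EE 4) : Qm ε (c • p) = c • Qm ε p := by
  have h0 : (c • p) 0 = c * p 0 := rfl
  have h1 : (c • p) 1 = c * p 1 := rfl
  have h2 : (c • p) 2 = c * p 2 := rfl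
  have h3 : (c • p) 3 = c * p 3 := rfl
  have key : ∀ u v w : ℝ, u * (c * v) / (c * w) = u * v / w := by
    intro u v w
    rw [mul_left_comm, mul_div_mul_left _ _ hc.ne']
  unfold Qm
  rw [norm_smul4 hc.le, Yr_smul hc.le, h0, h1, h2, h3, ang_smul hc]
  apply uconn_ext
  · change c * ‖p‖ / (ε * sC) * cos (2 * vth (ang (p 0) (Yr p))) =
      c * (‖p‖ / (ε * sC) * cos (2 * vth (ang (p 0) (Yr p))))
    ring
  · change c * ‖p‖ / (ε * sC) * (sin (2 * vth (ang (p 0) (Yr p))) * (c * p 1) / (c * Yr p)) =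
      c * (‖p‖ / (ε * sC) * (sin (2 * vth (ang (p 0) (Yr p))) * p 1 / Yr p))
    rw [key]
    ring
  · change c * ‖p‖ / (ε * sC) * (sin (2 * vth (ang (p 0) (Yr p))) * (c * p 2) / (c * Yr p)) =
      c * (‖p‖ / (ε * sC) * (sin (2 * vth (ang (p 0) (Yr p))) * p 2 / Yr p))
    rw [key]
    ring
  · change c * ‖p‖ / (ε * sC) * (sin (2 * vth (ang (p 0) (Yr p))) * (c * p 3) / (c * Yr p)) =
      c * (‖p‖ / (ε * sC) * (sin (2 * vth (ang (p 0) (Yr p))) * p 3 / Yr p))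
    rw [key]
    ring

private theorem uconn_tc {x : EE 4} (h : t1C < ‖x‖) {c : ℝ} (hc : 1 ≤ c) :
    tc x ≤ tc (c • x) := by
  have hx : 0 < ‖x‖ := isCoreC.t1_pos.trans h
  unfold tc
  rw [norm_smul4 (by linarith)]
  nlinarith

theorem rhoP_radial {x : EE 4} (h : t1C < ‖x‖) {c : ℝ} (hc : 1 ≤ c) (ht : tc (c • x) < taC) :
    rhoP x ≤ rhoP (c • x) := by
  have hc0 : 0 < c := by linarith
  have hn : n3 (c • x) = n3 x := by
    unfold n3
    rw [Ur_smul hc0.le, norm_smul4 hc0.le, mul_div_mul_left _ _ hc0.ne']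
  have h1 := uconn_tc h hc
  have h2 : 0 < tc x := sub_pos.2 h
  have hta := isCoreC.ta_le
  have hpi := Real.pi_gt_three
  have h3 : cos (tc (c • x)) ≤ cos (tc x) :=
    Real.cos_le_cos_of_nonneg_of_le_pi h2.le (by linarith) h1
  have h4 : 0 ≤ cos (tc (c • x)) :=
    Real.cos_nonneg_of_mem_Icc ⟨by linarith, by linarith⟩
  unfold rhoP
  apply Real.sqrt_le_sqrt
  rw [hn]
  have h5 : cos (tc (c • x)) ^ 2 ≤ cos (tc x) ^ 2 := pow_le_pow_left₀ h4 h3 2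
  have h6 := mul_le_mul_of_nonneg_right h5 (sq_nonneg (n3 x))
  linarith

theorem Uc_radial {a : ℝ} {x : EE 4} (h : x ∈ Uc a) {c : ℝ} (hc : 1 ≤ c) : c • x ∈ Uc a := by
  obtain ⟨h1, h2, h3⟩ := h
  have hc0 : 0 < c := by linarith
  have hx : 0 < ‖x‖ := isCoreC.t1_pos.trans h1
  refine ⟨?_, ?_, ?_⟩
  · rw [norm_smul4 hc0.le]
    nlinarith
  · rw [Ur_smul hc0.le]
    exact mul_ne_zero hc0.ne' h2
  · rintro ⟨⟨h4, h5⟩, h6⟩
    have h7 := rhoP_radial h1 hc h4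
    exact h3 ⟨⟨lt_of_le_of_lt (uconn_tc h1 hc) h4, lt_of_le_of_lt h7 h5⟩, h7.trans h6⟩

theorem UL_radial {ph a : ℝ} (h : 0 < ph) {p : EE 4} (hp : p ∈ UL ph a) {c : ℝ} (hc : 1 ≤ c) :
    c • p ∈ UL ph a := by
  have hc0 : 0 < c := by linarith
  rw [mem_UL_iff h] at hp ⊢
  refine ⟨smul_ne_zero hc0.ne' hp.1, ?_⟩
  rw [Qm_smul hc0]
  exact Uc_radial hp.2 hc

/-- centre of hole `i` -/
def ctr (i : ℕ) : EE 4 := v4 (xh i) 0 0 0

/-- points away from the cores `1 ≤ i ≤ k` (all `i ≥ 1` if `k = none`) -/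
def freeS (c0 : ℝ) (k : ℕ∞) : Set (EE 4) :=
  {p | Ur p ≠ 0 ∧ ∀ i : ℕ, 1 ≤ i → (i : ℕ∞) ≤ k → rh i * (epsh (phh c0 i) / 2) ≤ ‖p - ctr i‖}

private theorem uconn_xh_pos (i : ℕ) : 0 < xh i := by
  unfold xh
  positivity

private theorem uconn_xh_le (i : ℕ) : xh i ≤ 1 := by
  unfold xh
  exact pow_le_one₀ (by norm_num) (by norm_num)

private theorem uconn_rh (i : ℕ) : rh i = xh i / 4096 := rfl

private theorem uconn_xh_lt {i j : ℕ} (h : i < j) : xh j ≤ xh i / 2 := by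
  unfold xh
  have h1 : (1 / 2 : ℝ) ^ j ≤ (1 / 2) ^ (i + 1) :=
    pow_le_pow_of_le_one (by norm_num) (by norm_num) h
  rw [pow_succ] at h1
  linarith

private theorem uconn_xh_sep {i j : ℕ} (h : i ≠ j) : (xh i + xh j) / 4 ≤ |xh i - xh j| := by
  have h1 := uconn_xh_pos i
  have h2 := uconn_xh_pos j
  rcases lt_or_gt_of_ne h with h3 | h3
  · have h4 := uconn_xh_lt h3
    rw [abs_of_nonneg (by linarith)]
    linarith
  · have h4 := uconn_xh_lt h3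
    rw [abs_sub_comm, abs_of_nonneg (by linarith)]
    linarith

private theorem uconn_eps {c0 : ℝ} (h : 0 < c0) (h1 : c0 ≤ 1) (i : ℕ) :
    0 < epsh (phh c0 i) ∧ epsh (phh c0 i) ≤ 1 / 2 := by
  have h2 := phh_pos h i
  have h3 := phh_le h h1 i
  have h4 : phh c0 i ≤ 1 / 2 := by
    refine h3.trans ?_
    rw [div_le_iff₀ (by norm_num)]
    norm_num
    linarith
  refine ⟨epsh_pos h2, (epsh_le h2 h4).trans ?_⟩
  rw [div_le_iff₀ (by norm_num)]
  norm_num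
  linarith

private theorem uconn_sc0 (i : ℕ) (p : EE 4) : sc i p 0 = (p 0 - xh i) / rh i := by
  change 1 / rh i * (p 0 - xh i) = (p 0 - xh i) / rh i
  ring

private theorem uconn_sc_norm (i : ℕ) (p : EE 4) : ‖sc i p‖ = ‖p - ctr i‖ / rh i := by
  unfold sc ctr
  rw [norm_smul4 (one_div_nonneg.2 (rh_pos i).le)]
  ring

private theorem uconn_Ur_sub (i : ℕ) (p : EE 4) : Ur (p - ctr i) = Ur p := by
  unfold Ur
  have h2 : (p - ctr i) 2 = p 2 := by
    change p 2 - 0 = p 2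
    ring
  have h3 : (p - ctr i) 3 = p 3 := by
    change p 3 - 0 = p 3
    ring
  rw [h2, h3]

private theorem uconn_Ur_sc (i : ℕ) (p : EE 4) : Ur (sc i p) = Ur p / rh i := by
  have : sc i p = (1 / rh i) • (p - ctr i) := rfl
  rw [this, Ur_smul (one_div_nonneg.2 (rh_pos i).le), uconn_Ur_sub]
  ring

private theorem uconn_sc_usc (i : ℕ) (p : EE 4) : sc i (usc i p) = p := by
  unfold usc sc
  rw [add_sub_cancel_left, smul_smul, one_div_mul_cancel (rh_pos i).ne', one_smul]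

private theorem uconn_usc_sc (i : ℕ) (p : EE 4) : usc i (sc i p) = p := by
  unfold usc sc
  rw [smul_smul, mul_one_div_cancel (rh_pos i).ne', one_smul]
  abel

private theorem uconn_usc_sub (i : ℕ) (q : EE 4) : usc i q - ctr i = rh i • q := by
  unfold usc ctr
  abel

private theorem uconn_Ur_usc (i : ℕ) (q : EE 4) : Ur (usc i q) = rh i * Ur q := by
  rw [← uconn_Ur_sub i, uconn_usc_sub, Ur_smul (rh_pos i).le]

private theorem uconn_Ur_ne {i : ℕ} {p : EE 4} : Ur (sc i p) ≠ 0 ↔ Ur p ≠ 0 := by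
  rw [uconn_Ur_sc]
  have := (rh_pos i).ne'
  constructor
  · intro h h0
    exact h (by rw [h0, zero_div])
  · intro h
    exact div_ne_zero h this

private theorem uconn_UM_Ur {c0 a : ℝ} {k : ℕ} {p : EE 4} (hp : p ∈ UM c0 k a) : Ur p ≠ 0 :=
  uconn_Ur_ne.1 hp.1

theorem freeS_UM {c0 a : ℝ} {k : ℕ} (h : 0 < c0) (h1 : c0 ≤ 1) (hk : 1 ≤ k) : freeS c0 k ⊆ UM c0 k a := by
  rintro p ⟨hU, hp⟩
  have hi := idx_pos k (p 0)
  have hik := idx_le hk (p 0)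
  have h2 := hp _ hi (by exact_mod_cast hik)
  have h3 : epsh (phh c0 (idx k (p 0))) / 2 ≤ ‖sc (idx k (p 0)) p‖ := by
    rw [uconn_sc_norm, le_div_iff₀ (rh_pos _), mul_comm]
    exact h2
  refine ⟨uconn_Ur_ne.2 hU, ?_, ?_⟩
  · refine lt_of_lt_of_le ?_ h3
    have h4 := (uconn_eps h h1 (idx k (p 0))).1
    have h5 := mul_lt_mul_of_pos_left sC_t1C h4
    rw [mul_assoc]
    linarith
  · rintro ⟨h4, -⟩
    exact absurd h4 (not_lt.2 h3)

private theorem uconn_mono {c0 : ℝ} {k l : ℕ∞} (h : k ≤ l) : freeS c0 l ⊆ freeS c0 k := by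
  rintro p ⟨hU, hp⟩
  exact ⟨hU, fun i hi hik => hp i hi (hik.trans h)⟩

private theorem uconn_kX (X : ℝ) : 1 ≤ kX X := by
  classical
  unfold kX
  split_ifs with h
  · exact (Nat.find_spec h).1
  · exact le_rfl

theorem freeS_UInf {c0 : ℝ} (h : 0 < c0) (h1 : c0 ≤ 1) : freeS c0 ⊤ ⊆ UInf c0 := by
  intro p hp
  exact ⟨hp.1, fun _ => freeS_UM h h1 (uconn_kX _) (uconn_mono le_top hp)⟩

/-- vertical expansion -/
def vexp (c : ℝ) (p : EE 4) : EE 4 := v4 (p 0) (p 1) (c * p 2) (c * p 3)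

private theorem uconn_Ur_vexp {c : ℝ} (hc : 0 ≤ c) (p : EE 4) : Ur (vexp c p) = c * Ur p := by
  unfold Ur vexp
  rw [uconn_v2, uconn_v3, mul_pow, mul_pow, ← mul_add, Real.sqrt_mul (sq_nonneg c),
    Real.sqrt_sq hc]

theorem freeS_vexp {c0 : ℝ} {k : ℕ∞} {p : EE 4} (hp : p ∈ freeS c0 k) {c : ℝ} (hc : 1 ≤ c) :
    vexp c p ∈ freeS c0 k := by
  obtain ⟨hU, hp⟩ := hp
  have hc0 : 0 < c := by linarith
  refine ⟨?_, fun i hi hik => (hp i hi hik).trans ?_⟩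
  · rw [uconn_Ur_vexp hc0.le]
    exact mul_ne_zero hc0.ne' hU
  · apply le_of_sq_le_sq _ (norm_nonneg _)
    rw [uconn_norm_sq, uconn_norm_sq]
    have e0 : (vexp c p - ctr i) 0 = (p - ctr i) 0 := rfl
    have e1 : (vexp c p - ctr i) 1 = (p - ctr i) 1 := rfl
    have e2 : (vexp c p - ctr i) 2 = c * (p - ctr i) 2 := by
      change c * p 2 - 0 = c * (p 2 - 0)
      ring
    have e3 : (vexp c p - ctr i) 3 = c * (p - ctr i) 3 := by
      change c * p 3 - 0 = c * (p 3 - 0)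
      ring
    rw [e0, e1, e2, e3, mul_pow, mul_pow]
    have hc2 : 1 ≤ c ^ 2 := one_le_pow₀ hc
    nlinarith [mul_nonneg (sub_nonneg.2 hc2) (sq_nonneg ((p - ctr i) 2)),
      mul_nonneg (sub_nonneg.2 hc2) (sq_nonneg ((p - ctr i) 3))]

theorem freeS_of_Ur {c0 : ℝ} (h : 0 < c0) (h1 : c0 ≤ 1) {k : ℕ∞} {p : EE 4} (hp : 1 ≤ Ur p) :
    p ∈ freeS c0 k := by
  refine ⟨by linarith, fun i _ _ => ?_⟩
  have h2 := uconn_eps h h1 i
  have h3 := rh_pos i
  have h4 := rh_le i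
  have h5 : Ur p ≤ ‖p - ctr i‖ := by
    rw [← uconn_Ur_sub i]
    exact Ur_le_norm _
  have h6 : rh i * (epsh (phh c0 i) / 2) ≤ 1 / 4096 * 1 :=
    mul_le_mul h4 (by linarith [h2.2]) (by linarith [h2.1]) (by norm_num)
  linarith

/-- the first coordinate along the radial path -/
private theorem uconn_path0 {c0 : ℝ} (h : 0 < c0) (h1 : c0 ≤ 1) {i : ℕ} {p : EE 4} {c : ℝ}
    (hc0 : 0 ≤ c) (hc : c * ‖sc i p‖ ≤ epsh (phh c0 i) / 2) :
    |usc i (c • sc i p) 0 - xh i| ≤ xh i / 16384 := by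
  have h2 : usc i (c • sc i p) 0 - xh i = rh i * (c • sc i p) 0 := by
    change xh i + rh i * (c • sc i p) 0 - xh i = rh i * (c • sc i p) 0
    ring
  rw [h2, abs_mul, abs_of_pos (rh_pos i)]
  have h3 := uconn_abs_le (c • sc i p)
  rw [norm_smul4 hc0] at h3
  have h4 := (uconn_eps h h1 i).2
  have h5 : |(c • sc i p) 0| ≤ 1 / 4 := by linarith
  have h6 := mul_le_mul_of_nonneg_left h5 (rh_pos i).le
  rw [uconn_rh] at h6 ⊢
  linarith

private theorem uconn_Sl {i k : ℕ} {p : EE 4} (hp : |p 0 - xh i| ≤ xh i / 16384) :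
    p ∈ Sl k i := by
  have h1 := uconn_xh_pos i
  rw [abs_le] at hp
  exact ⟨fun _ => by linarith [hp.1], fun _ => by linarith [hp.2]⟩

private theorem uconn_free {c0 : ℝ} (h : 0 < c0) (h1 : c0 ≤ 1) {k : ℕ∞} {i : ℕ} {p : EE 4}
    (hU : Ur p ≠ 0) {c : ℝ} (hc : c * ‖sc i p‖ = epsh (phh c0 i) / 2) :
    usc i (c • sc i p) ∈ freeS c0 k := by
  have he := uconn_eps h h1 i
  have hcpos : 0 < c := by
    by_contra hcon
    push Not at hcon
    have := mul_nonpos_of_nonpos_of_nonneg hcon (norm_nonneg (sc i p))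
    linarith [he.1]
  refine ⟨?_, fun j _ _ => ?_⟩
  · rw [uconn_Ur_usc, Ur_smul hcpos.le]
    exact mul_ne_zero (rh_pos i).ne' (mul_ne_zero hcpos.ne' (uconn_Ur_ne.2 hU))
  · rcases eq_or_ne j i with rfl | hj
    · rw [uconn_usc_sub, norm_smul4 (rh_pos j).le, norm_smul4 hcpos.le, hc]
    · have h2 := uconn_path0 h h1 hcpos.le hc.le
      have h3 := uconn_xh_sep hj
      have h4 := uconn_abs_le (usc i (c • sc i p) - ctr j)
      have h5 : (usc i (c • sc i p) - ctr j) 0 = usc i (c • sc i p) 0 - xh j := rfl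
      rw [h5] at h4
      have h6 : |xh j - xh i| ≤ |usc i (c • sc i p) 0 - xh j| + |usc i (c • sc i p) 0 - xh i| := by
        have := abs_sub_le (xh j) (usc i (c • sc i p) 0) (xh i)
        rw [abs_sub_comm (xh j) (usc i (c • sc i p) 0)] at this
        exact this
      have h7 := uconn_xh_pos i
      have h8 := uconn_xh_pos j
      have h9 : rh j * (epsh (phh c0 j) / 2) ≤ rh j * (1 / 4) :=
        mul_le_mul_of_nonneg_left (by linarith [(uconn_eps h h1 j).2]) (rh_pos j).le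
      rw [uconn_rh j] at h9 ⊢
      linarith

private theorem uconn_near {c0 : ℝ} {k : ℕ∞} {p : EE 4} (hU : Ur p ≠ 0) (hf : p ∉ freeS c0 k) :
    ∃ i : ℕ, 1 ≤ i ∧ (i : ℕ∞) ≤ k ∧ ‖sc i p‖ < epsh (phh c0 i) / 2 := by
  by_contra hcon
  push Not at hcon
  apply hf
  refine ⟨hU, fun i hi hik => ?_⟩
  have := hcon i hi hik
  rw [uconn_sc_norm, le_div_iff₀ (rh_pos _), mul_comm] at this
  exact this

/-- the radial path out of the core `i` -/
theorem UM_exit {c0 a : ℝ} {k : ℕ} (h : 0 < c0) (h1 : c0 ≤ 1) (hk : 1 ≤ k) {p : EE 4} (hp : p ∈ UM c0 k a)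
    (hf : p ∉ freeS c0 k) : ∃ i : ℕ, 1 ≤ i ∧ i ≤ k ∧ ‖sc i p‖ < epsh (phh c0 i) / 2 ∧
      (∀ c : ℝ, 1 ≤ c → c * ‖sc i p‖ ≤ epsh (phh c0 i) / 2 → usc i (c • sc i p) ∈ UM c0 k a) ∧
      ∀ c : ℝ, c * ‖sc i p‖ = epsh (phh c0 i) / 2 → usc i (c • sc i p) ∈ freeS c0 k := by
  have hU := uconn_UM_Ur hp
  obtain ⟨i, hi, hik', hlt⟩ := uconn_near hU hf
  have hik : i ≤ k := by exact_mod_cast hik'
  refine ⟨i, hi, hik, hlt, ?_, fun c hc => uconn_free h h1 hU hc⟩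
  have hpS : p ∈ Sl k i := by
    have := uconn_path0 h h1 (i := i) (p := p) (c := 1) zero_le_one (by rw [one_mul]; exact hlt.le)
    rw [one_smul, uconn_usc_sc] at this
    exact uconn_Sl this
  have hpL := (UM_iff h h1 hi hik a hpS).1 hp
  intro c hc hcl
  rw [UM_iff h h1 hi hik a (uconn_Sl (uconn_path0 h h1 (by linarith) hcl)), uconn_sc_usc]
  exact UL_radial (phh_pos h i) hpL hc

private theorem uconn_UInf_iff {c0 : ℝ} (h : 0 < c0) (h1 : c0 ≤ 1) {i : ℕ} (hi : 1 ≤ i) {p : EE 4}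
    (hp : |p 0 - xh i| ≤ xh i / 16384) : p ∈ UInf c0 ↔ sc i p ∈ UL (phh c0 i) 0 := by
  have h2 := uconn_xh_pos i
  have h3 : 11 / 16 * xh i < p 0 := by
    rw [abs_le] at hp
    linarith [hp.1]
  rw [UInf_iff h h1 hi h3, UM_iff h h1 hi le_rfl 0 (uconn_Sl hp)]

theorem UInf_exit {c0 : ℝ} (h : 0 < c0) (h1 : c0 ≤ 1) {p : EE 4} (hp : p ∈ UInf c0)
    (hf : p ∉ freeS c0 ⊤) : ∃ i : ℕ, 1 ≤ i ∧ ‖sc i p‖ < epsh (phh c0 i) / 2 ∧
      (∀ c : ℝ, 1 ≤ c → c * ‖sc i p‖ ≤ epsh (phh c0 i) / 2 → usc i (c • sc i p) ∈ UInf c0) ∧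
      ∀ c : ℝ, c * ‖sc i p‖ = epsh (phh c0 i) / 2 → usc i (c • sc i p) ∈ freeS c0 ⊤ := by
  have hU := hp.1
  obtain ⟨i, hi, -, hlt⟩ := uconn_near hU hf
  refine ⟨i, hi, hlt, ?_, fun c hc => uconn_free h h1 hU hc⟩
  have hp0 : |p 0 - xh i| ≤ xh i / 16384 := by
    have := uconn_path0 h h1 (i := i) (p := p) (c := 1) zero_le_one (by rw [one_mul]; exact hlt.le)
    rw [one_smul, uconn_usc_sc] at this
    exact this
  have hpL := (uconn_UInf_iff h h1 hi hp0).1 hp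
  intro c hc hcl
  rw [uconn_UInf_iff h h1 hi (uconn_path0 h h1 (by linarith) hcl), uconn_sc_usc]
  exact UL_radial (phh_pos h i) hpL hc

private theorem uconn_v4_cont {X : Type*} [TopologicalSpace X] {a b c d : X → ℝ}
    (ha : Continuous a) (hb : Continuous b) (hc : Continuous c) (hd : Continuous d) :
    Continuous (fun x => v4 (a x) (b x) (c x) (d x)) := by
  unfold v4
  refine (PiLp.continuous_toLp 2 _).comp (continuous_pi fun i => ?_)
  fin_cases i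
  · exact ha
  · exact hb
  · exact hc
  · exact hd

/-- the base of the construction -/
private theorem uconn_base : IsPreconnected {p : EE 4 | 1 ≤ Ur p} := by
  have hT : IsPreconnected {y : ℝ × ℝ × ℝ × ℝ | 1 ≤ y.2.2.1} := by
    apply Convex.isPreconnected
    intro x hx y hy a b ha hb hab
    simp only [mem_ofPred_eq] at hx hy ⊢
    change 1 ≤ a * x.2.2.1 + b * y.2.2.1
    nlinarith
  have hF : Continuous (fun y : ℝ × ℝ × ℝ × ℝ =>
      v4 y.1 y.2.1 (y.2.2.1 * cos y.2.2.2) (y.2.2.1 * sin y.2.2.2)) := by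
    apply uconn_v4_cont <;> fun_prop
  have h := hT.image _ hF.continuousOn
  have e : {p : EE 4 | 1 ≤ Ur p} = (fun y : ℝ × ℝ × ℝ × ℝ =>
      v4 y.1 y.2.1 (y.2.2.1 * cos y.2.2.2) (y.2.2.1 * sin y.2.2.2)) ''
        {y : ℝ × ℝ × ℝ × ℝ | 1 ≤ y.2.2.1} := ?_
  · rw [e]
    exact h
  ext p
  constructor
  · intro hp
    have hn : ‖(⟨p 2, p 3⟩ : ℂ)‖ = Ur p := by
      rw [Complex.norm_def, Complex.normSq_mk]
      unfold Ur
      congr 1
      ring
    refine ⟨(p 0, p 1, Ur p, Complex.arg ⟨p 2, p 3⟩), hp, ?_⟩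
    apply uconn_ext
    · rfl
    · rfl
    · change Ur p * cos (Complex.arg ⟨p 2, p 3⟩) = p 2
      rw [← hn, Complex.norm_mul_cos_arg]
    · change Ur p * sin (Complex.arg ⟨p 2, p 3⟩) = p 3
      rw [← hn, Complex.norm_mul_sin_arg]
  · rintro ⟨y, hy, rfl⟩
    simp only [mem_ofPred_eq] at hy ⊢
    unfold Ur
    rw [uconn_v2, uconn_v3, mul_pow, mul_pow, ← mul_add, Real.cos_sq_add_sin_sq, mul_one,
      Real.sqrt_sq (by linarith)]
    exact hy

/-- a preconnected set in `freeS` which contains the base and a given point -/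
private theorem uconn_vert {c0 : ℝ} (h : 0 < c0) (h1 : c0 ≤ 1) {k : ℕ∞} {p : EE 4}
    (hp : p ∈ freeS c0 k) : ∃ t ⊆ freeS c0 k, {p : EE 4 | 1 ≤ Ur p} ⊆ t ∧ p ∈ t ∧
      IsPreconnected t := by
  have hU := Ur_pos hp.1
  have hcont : Continuous (fun c : ℝ => vexp c p) := by
    unfold vexp
    apply uconn_v4_cont <;> fun_prop
  have hI : IsPreconnected ((fun c : ℝ => vexp c p) '' Ici 1) :=
    isPreconnected_Ici.image _ hcont.continuousOn
  refine ⟨{p : EE 4 | 1 ≤ Ur p} ∪ (fun c : ℝ => vexp c p) '' Ici 1, ?_, subset_union_left, ?_, ?_⟩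
  · rintro q (hq | ⟨c, hc, rfl⟩)
    · exact freeS_of_Ur h h1 hq
    · exact freeS_vexp hp hc
  · refine Or.inr ⟨1, mem_Ici.2 le_rfl, ?_⟩
    apply uconn_ext
    · rfl
    · rfl
    · change 1 * p 2 = p 2
      ring
    · change 1 * p 3 = p 3
      ring
  · refine IsPreconnected.union (vexp (max 1 (1 / Ur p)) p) ?_ ⟨_, mem_Ici.2 (le_max_left _ _), rfl⟩
      uconn_base hI
    simp only [mem_ofPred_eq]
    rw [uconn_Ur_vexp (le_trans zero_le_one (le_max_left _ _))]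
    have h2 := mul_le_mul_of_nonneg_right (le_max_right 1 (1 / Ur p)) hU.le
    rw [one_div_mul_cancel hU.ne'] at h2
    exact h2

/-- the radial segment -/
private theorem uconn_seg {S : Set (EE 4)} {i : ℕ} {p : EE 4} {e : ℝ} (hp0 : 0 < ‖sc i p‖)
    (hlt : ‖sc i p‖ < e) (hS : ∀ c : ℝ, 1 ≤ c → c * ‖sc i p‖ ≤ e → usc i (c • sc i p) ∈ S) :
    ∃ t ⊆ S, p ∈ t ∧ usc i ((e / ‖sc i p‖) • sc i p) ∈ t ∧ IsPreconnected t := by
  have hcont : Continuous (fun c : ℝ => usc i (c • sc i p)) := by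
    unfold usc
    fun_prop
  have hle : 1 ≤ e / ‖sc i p‖ := by
    rw [le_div_iff₀ hp0]
    linarith
  refine ⟨(fun c : ℝ => usc i (c • sc i p)) '' Icc 1 (e / ‖sc i p‖), ?_, ?_, ?_, ?_⟩
  · rintro q ⟨c, ⟨hc1, hc2⟩, rfl⟩
    apply hS c hc1
    rw [le_div_iff₀ hp0] at hc2
    exact hc2
  · refine ⟨1, ⟨le_rfl, hle⟩, ?_⟩
    change usc i ((1 : ℝ) • sc i p) = p
    rw [one_smul, uconn_usc_sc]
  · exact ⟨_, ⟨hle, le_rfl⟩, rfl⟩
  · exact isPreconnected_Icc.image _ hcont.continuousOn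

/-- the general statement -/
private theorem uconn_main {c0 : ℝ} (h : 0 < c0) (h1 : c0 ≤ 1) {k : ℕ∞} {S : Set (EE 4)}
    (hfS : freeS c0 k ⊆ S) (hU : ∀ p ∈ S, Ur p ≠ 0)
    (hex : ∀ p ∈ S, p ∉ freeS c0 k → ∃ i : ℕ, ‖sc i p‖ < epsh (phh c0 i) / 2 ∧
      (∀ c : ℝ, 1 ≤ c → c * ‖sc i p‖ ≤ epsh (phh c0 i) / 2 → usc i (c • sc i p) ∈ S) ∧
      ∀ c : ℝ, c * ‖sc i p‖ = epsh (phh c0 i) / 2 → usc i (c • sc i p) ∈ freeS c0 k) :
    IsPreconnected S := by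
  have hbase : (v4 0 0 1 0 : EE 4) ∈ {p : EE 4 | 1 ≤ Ur p} := by
    simp only [mem_ofPred_eq]
    unfold Ur
    rw [uconn_v2, uconn_v3]
    norm_num
  refine isPreconnected_of_forall (v4 0 0 1 0) fun p hp => ?_
  by_cases hf : p ∈ freeS c0 k
  · obtain ⟨t, ht, hb, hpt, htc⟩ := uconn_vert h h1 hf
    exact ⟨t, ht.trans hfS, hb hbase, hpt, htc⟩
  · obtain ⟨i, hlt, hS, hfree⟩ := hex p hp hf
    have hp0 : 0 < ‖sc i p‖ := norm_pos_Ur (uconn_Ur_ne.2 (hU p hp))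
    obtain ⟨t, ht, hpt, hqt, htc⟩ := uconn_seg hp0 hlt hS
    have hq := hfree (epsh (phh c0 i) / 2 / ‖sc i p‖) (div_mul_cancel₀ _ hp0.ne')
    obtain ⟨t', ht', hb', hqt', htc'⟩ := uconn_vert h h1 hq
    refine ⟨t ∪ t', union_subset ht (ht'.trans hfS), Or.inr (hb' hbase), Or.inl hpt, ?_⟩
    exact IsPreconnected.union _ hqt hqt' htc htc'

theorem UM_preconnected {c0 a : ℝ} {k : ℕ} (h : 0 < c0) (h1 : c0 ≤ 1) (hk : 1 ≤ k) (ha : 0 ≤ a)
    (ha1 : a < 1 / 2) (ha2 : a < sin taC) : IsPreconnected (UM c0 k a) := by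
  refine uconn_main h h1 (freeS_UM h h1 hk) (fun p hp => uconn_UM_Ur hp) fun p hp hf => ?_
  obtain ⟨i, -, -, h2, h3, h4⟩ := UM_exit h h1 hk hp hf
  exact ⟨i, h2, h3, h4⟩

theorem UInf_preconnected {c0 : ℝ} (h : 0 < c0) (h1 : c0 ≤ 1) : IsPreconnected (UInf c0) := by
  refine uconn_main h h1 (freeS_UInf h h1) (fun p hp => hp.1) fun p hp hf => ?_
  obtain ⟨i, -, h2, h3, h4⟩ := UInf_exit h h1 hp hf
  exact ⟨i, h2, h3, h4⟩

end Pool.Agent.MP39e402
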