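import Pool.Agent.Lib.MP_39e402_gt.MPatch
import Pool.Agent.Lib.MP_39e402_gt.UConn
import Pool.Agent.Lib.MP_39e402_gt.UGm

/-! # MP_39e402, module GMet (interface): the patches.
`HAdm`, `GAdm`, `dbd`: UAdm; metrics: UCm, ULm, UGm; connectedness: UConn. -/

open Real Set Filter Topology MeasureTheory
open scoped ContDiff

noncomputable section

namespace Pool.Agent.MP39e402

/-- the limit patch -/
def PInf {c0 : ℝ} (h : 0 < c0) (h1 : c0 ≤ 1) : Patch 4 :=
  Patch.ofPreconnected (UInf c0) (gInf c0) (gInf_met h h1) (UInf_preconnected h h1)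

/-- the approximating patches -/
def PM {c0 a : ℝ} {k : ℕ} {Ψ U : ℝ → ℝ} (h : 0 < c0) (h1 : c0 ≤ 1) (hk : 1 ≤ k)
    (H : GAdm c0 k a Ψ U) : Patch 4 :=
  Patch.ofPreconnected (UM c0 k a) (gM c0 k Ψ U) (gM_met h h1 hk H)
    (UM_preconnected h h1 hk H.a_bds.1 H.a_bds.2.1 H.a_bds.2.2)

/-- the base point -/
def qB : EE 4 := v4 0 0 8 0

end Pool.Agent.MP39e402
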