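import Pool.Agent.Lib.MP_39e402_gt.MChart

/-!
# Part M, module MQuot: the quotient chart (`ℝ⁴ / ±1` points)

As in `MChart`, `x₀ = 0`. For `x, y ∈ V \ T` near `0` there is `y' ∈ V \ T` with `Φ y' = Φ y`, so
`y' = y` or `y' = -y`, and `redist V h x y' ≤ redist P.U P.g (Φ x) (Φ y)`; so
`min (redist V h x y) (redist V h x (-y)) ≤ edist (Φ' x) (Φ' y)`. The other inequality:
`Φ (-y) = Φ y` and `LocIso.redist_le`. Then density. (`Φ' (-y) = Φ' y` on `V` by density.)
-/

open Set Filter Topology MeasureTheory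
open scoped ENNReal NNReal ContDiff BigOperators

noncomputable section

namespace Pool.Agent.MP39e402

variable {n : ℕ}

theorem LocIso.quotient_chart {P : Patch n} {V : Set (EE n)} {h : RMetric n}
    {T : Set (EE n)} {Φ : EE n → EE n} (H : LocIso P V h T Φ) (h0 : (0 : EE n) ∈ V)
    (hV : ∀ x ∈ V, -x ∈ V) (hT : ∀ x ∈ T, -x ∈ T) (heven : ∀ x ∈ V, h (-x) = h x)
    (hΦ : ∀ x ∈ V \ T, ∀ y ∈ V \ T, Φ x = Φ y ↔ y = x ∨ y = -x)
    {Φ' : EE n → P.Comp}
    (h1 : ∀ x (hx : x ∈ V \ T), Φ' x = ((⟨Φ x, H.maps hx⟩ : P.Pt) : P.Comp))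
    (h2 : ∀ x ∈ V, ∀ y ∈ V, edist (Φ' x) (Φ' y) ≤ redist V h x y) :
    ∃ r > 0, Φ' '' {x | x ∈ V ∧ redist V h 0 x < ENNReal.ofReal r} = Metric.ball (Φ' 0) r ∧
      ∀ x ∈ V, redist V h 0 x < ENNReal.ofReal r → ∀ y ∈ V, redist V h 0 y < ENNReal.ofReal r →
          edist (Φ' x) (Φ' y) = min (redist V h x y) (redist V h x (-y)) := by
  obtain ⟨r1, hr1, K, -, -, -, hlift⟩ := H.exists_radius h0
  obtain ⟨r0, hr0, himg⟩ := H.exists_ball_image h0 h1 h2
  set r := min r0 r1 with hr
  have hrpos : 0 < r := lt_min hr0 hr1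
  have hrr1 : r ≤ r1 := min_le_right _ _
  have hofr : ENNReal.ofReal r ≤ ENNReal.ofReal r1 := ENNReal.ofReal_le_ofReal hrr1
  have hnegVT : ∀ y ∈ V \ T, -y ∈ V \ T := by
    rintro y ⟨hyV, hyT⟩
    refine ⟨hV y hyV, fun hh => hyT ?_⟩
    have := hT _ hh
    rwa [neg_neg] at this
  -- `Φ'` is even
  have hevVT : ∀ y ∈ V \ T, Φ' (-y) = Φ' y := by
    intro y hy
    have e : Φ y = Φ (-y) := (hΦ y hy (-y) (hnegVT y hy)).2 (Or.inr rfl)
    rw [h1 y hy, h1 (-y) (hnegVT y hy)]
    congr 2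
    exact e.symm
  -- closeness of `-z` to `-y`
  have hneg_near : ∀ y ∈ V, ∀ ε : ℝ≥0∞, 0 < ε → ∀ᶠ z in 𝓝 y, redist V h (-z) (-y) < ε := by
    intro y hy ε hε
    have t : Tendsto (fun z => redist V h (-z) (-y)) (𝓝 y) (𝓝 0) :=
      (tendsto_redist_iff H.met (hV y hy) (f := fun z => -z)).2 (continuous_neg.tendsto y)
    exact t.eventually (gt_mem_nhds hε)
  have hev : ∀ y ∈ V, Φ' (-y) = Φ' y := by
    intro y hy
    apply edist_le_zero.1
    apply ENNReal.le_of_forall_pos_le_add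
    intro ε hε _
    have hε2 : (0 : ℝ≥0∞) < (ε : ℝ≥0∞) / 2 := by
      apply ENNReal.div_pos
      · exact_mod_cast hε.ne'
      · norm_num
    have hfin : redist V h y y < ⊤ := by rw [redist_self h hy]; exact ENNReal.zero_lt_top
    obtain ⟨y', hy', ⟨hyy', -⟩, hyn⟩ := ((H.frequently_mem hy).and_eventually
      ((eventually_redist_lt H.met hy hfin hε2).and (hneg_near y hy _ hε2))).exists
    calc edist (Φ' (-y)) (Φ' y) ≤ edist (Φ' (-y)) (Φ' (-y')) + edist (Φ' (-y')) (Φ' y) :=
          edist_triangle _ _ _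
      _ = edist (Φ' (-y)) (Φ' (-y')) + edist (Φ' y') (Φ' y) := by rw [hevVT y' hy']
      _ ≤ ε / 2 + ε / 2 := by
          have a1 : edist (Φ' (-y)) (Φ' (-y')) ≤ ε / 2 := by
            rw [edist_comm]
            exact (h2 (-y') (hV y' hy'.1) (-y) (hV y hy)).trans hyn.le
          have a2 : edist (Φ' y') (Φ' y) ≤ ε / 2 := (h2 y' hy'.1 y hy).trans hyy'.le
          exact add_le_add a1 a2
      _ = 0 + ε := by rw [ENNReal.add_halves, zero_add]
  -- points outside `T`
  have stepA : ∀ x ∈ V \ T, redist V h 0 x < ENNReal.ofReal r → ∀ y ∈ V \ T,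
      redist V h 0 y < ENNReal.ofReal r →
      min (redist V h x y) (redist V h x (-y)) ≤ edist (Φ' x) (Φ' y) := by
    intro x hx hxr y hy hyr
    have hle := H.redist_le hx hy
    have hlt : redist V h x y < ENNReal.ofReal (3 * r1) := by
      calc redist V h x y ≤ redist V h x 0 + redist V h 0 y := redist_triangle H.met _ _ _
        _ = redist V h 0 x + redist V h 0 y := by rw [redist_comm H.met x 0]
        _ < ENNReal.ofReal r + ENNReal.ofReal r := ENNReal.add_lt_add hxr hyr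
        _ ≤ ENNReal.ofReal r1 + ENNReal.ofReal r1 := add_le_add hofr hofr
        _ = ENNReal.ofReal (r1 + r1) := (ENNReal.ofReal_add hr1.le hr1.le).symm
        _ ≤ ENNReal.ofReal (3 * r1) := ENNReal.ofReal_le_ofReal (by linarith)
    obtain ⟨y', hy', hyy', hd⟩ := hlift x hx (hxr.trans_le hofr) (Φ y) (hle.trans_lt hlt)
    rw [h1 x hx, h1 y hy, P.edist_coe]
    rcases (hΦ y hy y' hy').1 hyy'.symm with he | he
    · subst he
      exact (min_le_left _ _).trans hd
    · subst he
      exact (min_le_right _ _).trans hd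
  -- general points
  have stepB : ∀ x ∈ V, redist V h 0 x < ENNReal.ofReal r → ∀ y ∈ V,
      redist V h 0 y < ENNReal.ofReal r →
      min (redist V h x y) (redist V h x (-y)) ≤ edist (Φ' x) (Φ' y) := by
    intro x hx hxr y hy hyr
    apply ENNReal.le_of_forall_pos_le_add
    intro ε hε _
    have hε4 : (0 : ℝ≥0∞) < (ε : ℝ≥0∞) / 4 := by
      apply ENNReal.div_pos
      · exact_mod_cast hε.ne'
      · norm_num
    obtain ⟨x', hx', hxx', hxr'⟩ := ((H.frequently_mem hx).and_eventually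
      (eventually_redist_lt H.met hx hxr hε4)).exists
    obtain ⟨y', hy', ⟨hyy', hyr'⟩, hyn⟩ := ((H.frequently_mem hy).and_eventually
      ((eventually_redist_lt H.met hy hyr hε4).and (hneg_near y hy _ hε4))).exists
    have e1 : min (redist V h x' y') (redist V h x' (-y')) ≤
        edist (Φ' x) (Φ' y) + ε / 4 + ε / 4 := by
      calc min (redist V h x' y') (redist V h x' (-y'))
          ≤ edist (Φ' x') (Φ' y') := stepA x' hx' hxr' y' hy' hyr'
        _ ≤ edist (Φ' x') (Φ' x) + edist (Φ' x) (Φ' y') := edist_triangle _ _ _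
        _ ≤ edist (Φ' x') (Φ' x) + (edist (Φ' x) (Φ' y) + edist (Φ' y) (Φ' y')) := by
            gcongr; exact edist_triangle _ _ _
        _ ≤ ε / 4 + (edist (Φ' x) (Φ' y) + ε / 4) := by
            have a1 : edist (Φ' x') (Φ' x) ≤ ε / 4 := (h2 x' hx'.1 x hx).trans hxx'.le
            have a2 : edist (Φ' y) (Φ' y') ≤ ε / 4 := by
              rw [edist_comm]; exact (h2 y' hy'.1 y hy).trans hyy'.le
            exact add_le_add a1 (add_le_add le_rfl a2)
        _ = edist (Φ' x) (Φ' y) + ε / 4 + ε / 4 := by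
            rw [add_comm]
    have hsum : ∀ u v : EE n, redist V h u v < ε / 4 → ∀ w : EE n,
        redist V h x' u ≤ edist (Φ' x) (Φ' y) + ε / 4 + ε / 4 → w = v →
        redist V h x w ≤ edist (Φ' x) (Φ' y) + ε := by
      intro u v huv w hu hw
      subst hw
      calc redist V h x w ≤ redist V h x x' + redist V h x' w := redist_triangle H.met _ _ _
        _ ≤ redist V h x x' + (redist V h x' u + redist V h u w) := by
            gcongr; exact redist_triangle H.met _ _ _
        _ ≤ ε / 4 + ((edist (Φ' x) (Φ' y) + ε / 4 + ε / 4) + ε / 4) := by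
            rw [redist_comm H.met x x']
            exact add_le_add hxx'.le (add_le_add hu huv.le)
        _ = edist (Φ' x) (Φ' y) + (ε / 4 + ε / 4 + ε / 4 + ε / 4) := by ring
        _ = edist (Φ' x) (Φ' y) + ε := by
            congr 1
            have : (ε : ℝ≥0∞) / 4 + ε / 4 + ε / 4 + ε / 4 = 4 * (ε / 4) := by ring
            rw [this]
            exact ENNReal.mul_div_cancel (by norm_num) (by norm_num)
    rcases min_le_iff.1 e1 with e | e
    · exact (min_le_left _ _).trans (hsum y' y hyy' y e rfl)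
    · exact (min_le_right _ _).trans (hsum (-y') (-y) hyn (-y) e rfl)
  refine ⟨r, hrpos, himg r hrpos (min_le_left _ _), ?_⟩
  intro x hx hxr y hy hyr
  refine le_antisymm (le_min (h2 x hx y hy) ?_) (stepB x hx hxr y hy hyr)
  rw [← hev y hy]
  exact h2 x hx (-y) (hV y hy)

end Pool.Agent.MP39e402
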