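import Pool.Agent.Lib.MP_39e402_gt.HTan
import Pool.Agent.Lib.MP_39e402_gt.MQuot

/-!
# Part H, module HMain: a quotient chart produces a point of `STop`
-/

open Set Filter Topology MeasureTheory
open scoped ENNReal NNReal ContDiff BigOperators

noncomputable section

namespace Pool.Agent.MP39e402

theorem exists_STop_point {P : Patch 4} {V : Set (EE 4)} {h : RMetric 4}
    {T : Set (EE 4)} {Φ : EE 4 → EE 4} (H : LocIso P V h T Φ) (h0 : (0 : EE 4) ∈ V)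
    (hV : ∀ x ∈ V, -x ∈ V) (hT : ∀ x ∈ T, -x ∈ T) (heven : ∀ x ∈ V, h (-x) = h x)
    (hΦ : ∀ x ∈ V \ T, ∀ y ∈ V \ T, Φ x = Φ y ↔ y = x ∨ y = -x)
    (hid : ∀ v : EE 4, gquad h 0 v = ‖v‖ ^ 2) :
    ∃ p ∈ STop 4 P.Comp, ∀ x (hx : x ∈ V \ T),
      edist (((⟨Φ x, H.maps hx⟩ : P.Pt)) : P.Comp) p ≤ redist V h x 0 := by
  obtain ⟨Φ', h1, h2⟩ := H.exists_extension ⟨0, h0⟩
  obtain ⟨r, hr, himg, hdist⟩ := H.quotient_chart h0 hV hT heven hΦ h1 h2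
  refine ⟨Φ' 0, mem_STop_of_quotient H.met h0 hV hid Φ' hr himg hdist, ?_⟩
  intro x hx
  rw [← h1 x hx]
  exact h2 x hx.1 0 h0

end Pool.Agent.MP39e402
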