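import Pool.Agent.Lib.MP_39e402_gt.GMet
import Pool.Agent.Lib.MP_39e402_gt.HMain
import Pool.Agent.Lib.MP_39e402_gt.VClass

/-! # MP_39e402, module GPts: the points `P_i` of the limit space.

`exists_pts`: `quot_chart` -> `LIso.toHole` (`scΨ s Ψ0 = Ψ0`) -> `LIso.toInf`, then rescale the domain (`LIso.rescale` with
`c = 1/(rh i * s)`) and apply `exists_STop_point`; the points `Φ x`, `x → 0`, are in the core of hole `i` and converge to `p`.
`redist_sep`: `‖sc i ·‖` is `1/rh i`-Lipschitz where `1/2 ≤ ‖sc i ·‖ ≤ 1` (`qI ≥ wR²` as `v0² + wY² = wR² + R² wt²`).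
`redist_bdd`: outside of the cores the metric is `≤ |v|²` (`GPts_good`), radial vectors in the cores have Euclidean
length; path: radially out of the core, vertically (`|Û|` increasing), then around in `|Û| ≥ 5`. -/

open Real Set Filter Topology MeasureTheory
open scoped ContDiff ENNReal

noncomputable section

namespace Pool.Agent.MP39e402

theorem LIso.toLocIso {P : Patch 4} {V T : Set (EE 4)} {h : RMetric 4} {Φ : EE 4 → EE 4}
    (H : LIso P.U P.g V h T Φ) : LocIso P V h T Φ :=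
  ⟨H.met, H.negl, H.maps, H.smooth.of_le (by simp), H.isom, H.esc⟩

theorem GPts_gquad_smul (a : ℝ) (g : RMetric 4) (x v : EE 4) :
    gquad (fun y => a • g y) x v = a * gquad g x v := by
  unfold gquad
  rw [Finset.mul_sum]
  refine Finset.sum_congr rfl fun i _ => ?_
  rw [Finset.mul_sum]
  refine Finset.sum_congr rfl fun j _ => ?_
  simp only [Matrix.smul_apply, smul_eq_mul]
  ring

theorem LIso.rescale {U V T : Set (EE 4)} {g h : RMetric 4} {Φ : EE 4 → EE 4} (H : LIso U g V h T Φ)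
    {c : ℝ} (hc : 0 < c) (hT : ∀ x, c • x ∈ T ↔ x ∈ T) :
    LIso U g {x | c • x ∈ V} (fun x => c ^ 2 • h (c • x)) T (fun x => Φ (c • x)) := by
  have hcs : Continuous (fun x : EE 4 => c • x) := continuous_const_smul c
  have hcd : ContDiff ℝ ∞ (fun x : EE 4 => c • x) := contDiff_const_smul c
  have hmem : ∀ x ∈ {x | c • x ∈ V} \ T, c • x ∈ V \ T := fun x hx =>
    ⟨hx.1, fun h => hx.2 ((hT x).1 h)⟩
  refine ⟨⟨H.met.isOpen.preimage hcs, ?_, ?_⟩, H.negl, ?_, ?_, ?_, ?_⟩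
  · intro i j
    have h1 : ContDiffOn ℝ ∞ (fun x => h (c • x) i j) {x | c • x ∈ V} :=
      (H.met.smooth i j).comp hcd.contDiffOn (fun x hx => hx)
    exact contDiffOn_const.mul h1
  · intro x hx
    exact (H.met.posDef _ hx).smul (by positivity)
  · intro x hx
    exact H.maps (hmem x hx)
  · exact H.smooth.comp hcd.contDiffOn (fun x hx => hmem x hx)
  · intro x hx v
    have h1 := hmem x hx
    have ho : IsOpen (V \ T) := H.met.isOpen.sdiff H.negl.closed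
    have hd : DifferentiableAt ℝ Φ (c • x) :=
      ((H.smooth _ h1).contDiffAt (ho.mem_nhds h1)).differentiableAt (by simp)
    have h2 : fderiv ℝ (fun x => Φ (c • x)) x v = c • fderiv ℝ Φ (c • x) v := by
      have h3 : HasFDerivAt (fun x : EE 4 => c • x) (c • ContinuousLinearMap.id ℝ (EE 4)) x :=
        (hasFDerivAt_id x).const_smul c
      have h4 := (hd.hasFDerivAt.comp x h3).fderiv
      have h5 : fderiv ℝ (fun x => Φ (c • x)) x
          = (fderiv ℝ Φ (c • x)).comp (c • ContinuousLinearMap.id ℝ (EE 4)) := h4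
      rw [h5]
      simp
    rw [h2, gquad_smul, H.isom _ h1]
    exact (GPts_gquad_smul (c ^ 2) (fun y => h (c • y)) x v).symm
  · intro x hx z hz hlim u hu
    exact H.esc (fun j => c • x j) (fun j => hmem _ (hx j)) (c • z) ⟨hz.1, (hT z).2 hz.2⟩
      (hlim.const_smul c) u hu


theorem GPts_xh_pos (i : ℕ) : 0 < xh i := by
  unfold xh
  positivity

theorem GPts_xh_succ (i : ℕ) : xh (i + 1) = xh i / 2 := by
  unfold xh
  rw [pow_succ]
  ring

theorem GPts_rh_pos (i : ℕ) : 0 < rh i := by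
  unfold rh
  have := GPts_xh_pos i
  positivity

theorem GPts_xh_le {i : ℕ} (hi : 1 ≤ i) : xh i ≤ 1 / 2 := by
  unfold xh
  obtain ⟨j, rfl⟩ : ∃ j, i = j + 1 := ⟨i - 1, by omega⟩
  rw [pow_succ]
  have h : ((1 : ℝ) / 2) ^ j ≤ 1 := pow_le_one₀ (by norm_num) (by norm_num)
  linarith

theorem GPts_sC_pos : 0 < sC := by
  unfold sC
  have h1 := isCoreC.T_gt
  have h2 := isCoreC.t1_pos
  have : 0 < TC + t1C := by linarith
  positivity

/-- the core ends before `ε/2` -/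
theorem GPts_sC_t1 : sC * t1C < 1 / 2 := by
  unfold sC
  have h1 := isCoreC.T_gt
  have h2 := isCoreC.t1_pos
  have h3 : 0 < TC + t1C := by linarith
  rw [div_mul_eq_mul_div, one_mul, div_lt_div_iff₀ (by linarith) (by norm_num)]
  linarith

theorem GPts_phh {c0 : ℝ} (h : 0 < c0) (h1 : c0 ≤ 1) (i : ℕ) :
    0 < phh c0 i ∧ phh c0 i ≤ 1 / 2 ∧ 0 < epsh (phh c0 i) ∧ epsh (phh c0 i) ≤ 1 / 10 := by
  have h2 := phh_pos h i
  have h3 := phh_le h h1 i
  have h4 : phh c0 i ≤ 1 / 2 := by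
    have : c0 / 10 ^ 6 ≤ 1 / 10 ^ 6 := by gcongr
    have h5 : (1 : ℝ) / 10 ^ 6 ≤ 1 / 2 := by norm_num
    linarith
  have h5 := epsh_le h2 h4
  have h6 : phh c0 i / 10 ^ 12 ≤ 1 / 2 / 10 ^ 12 := by gcongr
  refine ⟨h2, h4, epsh_pos h2, ?_⟩
  have h7 : (1 : ℝ) / 2 / 10 ^ 12 ≤ 1 / 10 := by norm_num
  linarith

theorem GPts_sc_usc (i : ℕ) (p : EE 4) : sc i (usc i p) = p := by
  unfold sc usc
  have h := (GPts_rh_pos i).ne'
  rw [add_sub_cancel_left, smul_smul, one_div, inv_mul_cancel₀ h, one_smul]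

theorem GPts_usc_sc (i : ℕ) (p : EE 4) : usc i (sc i p) = p := by
  unfold sc usc
  have h := (GPts_rh_pos i).ne'
  rw [smul_smul, one_div, mul_inv_cancel₀ h, one_smul, add_sub_cancel]

theorem GPts_PhE1_ne {z : EE 4} (hz : z ∉ T01) : PhE1 z ≠ 0 := by
  intro h0
  have h1 := PhE1_norm hz
  rw [h0, norm_zero] at h1
  have h2 := isCoreC.t1_pos
  have h3 : 0 ≤ arcsin (√(s01 z) / √(1 + s01 z + s23 z)) := arcsin_nonneg.2 (by positivity)
  linarith [show 0 < t1C from h2]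

theorem GPts_chart {c0 : ℝ} (h : 0 < c0) (h1 : c0 ≤ 1) {i : ℕ} (hi : 1 ≤ i) :
    LIso (UInf c0) (gInf c0) (Metric.ball 0 (sin taC))
      (fun x => (rh i) ^ 2 • ((epsh (phh c0 i) * sC) ^ 2 • polMet qFS x)) T01
      (fun x => usc i (Th (epsh (phh c0 i)) (PhE1 x))) ∧
    ∀ x ∈ Metric.ball (0 : EE 4) (sin taC) \ T01,
      ‖Th (epsh (phh c0 i)) (PhE1 x)‖ < epsh (phh c0 i) / 2 := by
  obtain ⟨hp, hp1, he, he1⟩ := GPts_phh h h1 i
  have hs : 0 < epsh (phh c0 i) * sC := mul_pos he GPts_sC_pos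
  obtain ⟨hq, hq'⟩ := quot_chart
  have hΨ : (fun w : ℝ => w / 2) = scΨ (epsh (phh c0 i) * sC) Ψ0 := (scΨ_Ψ0 hs).symm
  have hq2 : LIso (Uc 0) (polMet (qC (scΨ (epsh (phh c0 i) * sC) Ψ0) U0))
      (Metric.ball 0 (sin taC)) (polMet qFS) T01 PhE1 := by
    rw [← hΨ]
    exact hq
  obtain ⟨h2, h3⟩ := LIso.toHole hp hp1 hq2 hq'
  refine ⟨LIso.toInf h h1 hi h2 (fun x hx => ?_), h3⟩
  have h4 := h3 x hx
  show ‖Th _ (PhE1 x)‖ < 1
  linarith

theorem GPts_core {P : Patch 4} {ε r : ℝ} {i : ℕ} (he : 0 < ε) (he1 : ε ≤ 1 / 10) (hr : 0 < r)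
    (h2 : LIso P.U P.g (Metric.ball 0 (sin taC))
      (fun x => r ^ 2 • ((ε * sC) ^ 2 • polMet qFS x)) T01 (fun x => usc i (Th ε (PhE1 x))))
    (h3 : ∀ x ∈ Metric.ball (0 : EE 4) (sin taC) \ T01, ‖Th ε (PhE1 x)‖ < ε / 2) :
    ∃ p ∈ STop 4 P.Comp, ∀ η > 0, ∃ (x : EE 4) (hx : x ∈ P.U), ‖sc i x‖ < 1 / 2 ∧
      edist (((⟨x, hx⟩ : P.Pt)) : P.Comp) p ≤ ENNReal.ofReal η := by
  have hsC := GPts_sC_pos
  have hs : 0 < ε * sC := mul_pos he hsC
  set c : ℝ := 1 / (r * (ε * sC)) with hcdef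
  have hc : 0 < c := by positivity
  have hT : ∀ x : EE 4, c • x ∈ T01 ↔ x ∈ T01 := by
    intro x
    show ((c • x) 0 = 0 ∧ (c • x) 1 = 0) ↔ (x 0 = 0 ∧ x 1 = 0)
    simp [hc.ne']
  have h4 := (LIso.rescale h2 hc hT)
  have h5 := LIso.toLocIso h4
  have hinv : ∀ z : EE 4, z ∉ T01 → Qm ε (sc i (usc i (Th ε (PhE1 z)))) = PhE1 z := fun z hz => by
    rw [GPts_sc_usc, Qm_Th he (GPts_PhE1_ne hz)]
  have hmul : c ^ 2 * (r ^ 2 * (ε * sC) ^ 2) = 1 := by
    rw [hcdef]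
    field_simp
  have h0 : (0 : EE 4) ∈ {x : EE 4 | c • x ∈ Metric.ball 0 (sin taC)} := by
    rw [Set.mem_ofPred_eq, smul_zero]
    exact Metric.mem_ball_self VClass_sinta
  have hV : ∀ x ∈ {x : EE 4 | c • x ∈ Metric.ball 0 (sin taC)},
      -x ∈ {x : EE 4 | c • x ∈ Metric.ball 0 (sin taC)} := by
    intro x hx
    rw [Set.mem_ofPred_eq, mem_ball_zero_iff] at hx ⊢
    rwa [smul_neg, norm_neg]
  have hTs : ∀ x ∈ T01, -x ∈ T01 := by
    intro x hx
    have hx' : x 0 = 0 ∧ x 1 = 0 := hx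
    show (-x) 0 = 0 ∧ (-x) 1 = 0
    simp [hx'.1, hx'.2]
  have heven : ∀ x ∈ {x : EE 4 | c • x ∈ Metric.ball 0 (sin taC)},
      c ^ 2 • (r ^ 2 • ((ε * sC) ^ 2 • polMet qFS (c • (-x)))) =
      c ^ 2 • (r ^ 2 • ((ε * sC) ^ 2 • polMet qFS (c • x))) := by
    intro x _
    rw [smul_neg, qFS_even]
  have hΦ : ∀ x ∈ {x : EE 4 | c • x ∈ Metric.ball 0 (sin taC)} \ T01,
      ∀ y ∈ {x : EE 4 | c • x ∈ Metric.ball 0 (sin taC)} \ T01,
      (usc i (Th ε (PhE1 (c • x))) = usc i (Th ε (PhE1 (c • y))) ↔ y = x ∨ y = -x) := by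
    intro x hx y hy
    have hx2 : c • x ∉ T01 := fun h => hx.2 ((hT x).1 h)
    have hy2 : c • y ∉ T01 := fun h => hy.2 ((hT y).1 h)
    constructor
    · intro h6
      have h7 : PhE1 (c • x) = PhE1 (c • y) := by
        rw [← hinv _ hx2, ← hinv _ hy2, h6]
      rcases (PhE1_eq_iff hx2 hy2).1 h7 with h8 | h8
      · exact Or.inl (smul_right_injective _ hc.ne' h8)
      · right
        rw [← smul_neg] at h8
        exact smul_right_injective _ hc.ne' h8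
    · rintro (h6 | h6)
      · rw [h6]
      · rw [h6, smul_neg, PhE1_neg]
  have hid : ∀ v : EE 4,
      gquad (fun x => c ^ 2 • (r ^ 2 • ((ε * sC) ^ 2 • polMet qFS (c • x)))) 0 v = ‖v‖ ^ 2 := by
    intro v
    have h6 : gquad (fun x => c ^ 2 • (r ^ 2 • ((ε * sC) ^ 2 • polMet qFS (c • x)))) 0 v
        = c ^ 2 * (r ^ 2 * ((ε * sC) ^ 2 * gquad (polMet qFS) (c • 0) v)) := by
      rw [GPts_gquad_smul (c ^ 2), GPts_gquad_smul (r ^ 2), GPts_gquad_smul ((ε * sC) ^ 2)]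
      rfl
    refine h6.trans ?_
    rw [smul_zero, qFS_gquad, qFS_zero]
    linear_combination ‖v‖ ^ 2 * hmul
  obtain ⟨p, hp, hpd⟩ := exists_STop_point h5 h0 hV hTs heven hΦ hid
  refine ⟨p, hp, fun η hη => ?_⟩
  have h6 := (tendsto_redist_iff h5.met h0 (f := fun z => z)).2 tendsto_id
  have h7 : (0 : ℝ≥0∞) < ENNReal.ofReal η := ENNReal.ofReal_pos.2 hη
  have h10 := h6.eventually (gt_mem_nhds h7)
  have h11 := h5.frequently_mem h0
  obtain ⟨x, hx, hx'⟩ := (h11.and_eventually h10).exists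
  have hm : usc i (Th ε (PhE1 (c • x))) ∈ P.U := h5.maps hx
  have h12 := (hpd x hx).trans hx'.le
  refine ⟨usc i (Th ε (PhE1 (c • x))), hm, ?_, h12⟩
  have h8 : c • x ∈ Metric.ball (0 : EE 4) (sin taC) \ T01 :=
    ⟨hx.1, fun h => hx.2 ((hT x).1 h)⟩
  have h9 := h3 _ h8
  rw [GPts_sc_usc]
  linarith

theorem exists_pts {c0 : ℝ} (h : 0 < c0) (h1 : c0 ≤ 1) {i : ℕ} (hi : 1 ≤ i) :
    ∃ p ∈ STop 4 (PInf h h1).Comp, ∀ η > 0, ∃ (x : EE 4) (hx : x ∈ (PInf h h1).U), ‖sc i x‖ < 1 / 2 ∧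
      edist (((⟨x, hx⟩ : (PInf h h1).Pt)) : (PInf h h1).Comp) p ≤ ENNReal.ofReal η := by
  obtain ⟨hp, hp1, he, he1⟩ := GPts_phh h h1 i
  obtain ⟨h2, h3⟩ := GPts_chart h h1 hi
  exact GPts_core (P := PInf h h1) he he1 (GPts_rh_pos i) h2 h3

/-! ### the forms -/

theorem GPts_lin_coord (i : Fin 4) : VClass_lin (fun v => v i) := by
  refine ⟨fun j => if j = i then 1 else 0, fun v => ?_⟩
  simp

theorem GPts_lin_wY (p : EE 4) : VClass_lin (wY p) := by
  refine ⟨![0, p 1 / Yr p, p 2 / Yr p, p 3 / Yr p], fun v => ?_⟩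
  simp [wY, Fin.sum_univ_four]
  ring

theorem GPts_lin_wt (p : EE 4) : VClass_lin (wt p) :=
  (((GPts_lin_wY p).smul (p 0 / ‖p‖ ^ 2)).sub ((GPts_lin_coord 0).smul (Yr p / ‖p‖ ^ 2))).congr
    fun v => by unfold wt; ring

theorem GPts_lin_wal (p : EE 4) : VClass_lin (wal p) :=
  (((VClass_lin_wU p).smul (p 1 / Yr p ^ 2)).sub ((GPts_lin_coord 1).smul (Ur p / Yr p ^ 2))).congr
    fun v => by unfold wal; ring

theorem GPts_qf_base (p : EE 4) (A B C : ℝ) : IsQF (fun v => (v 0) ^ 2 + (wY p v) ^ 2 +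
    A * (wt p v) ^ 2 + B * (wal p v) ^ 2 + C * (wth p v) ^ 2) := by
  have h0 := VClass_qf_mul (GPts_lin_coord 0) (GPts_lin_coord 0)
  have h1 := VClass_qf_mul (GPts_lin_wY p) (GPts_lin_wY p)
  have h2 := VClass_qf_smul (VClass_qf_mul (GPts_lin_wt p) (GPts_lin_wt p)) A
  have h3 := VClass_qf_smul (VClass_qf_mul (GPts_lin_wal p) (GPts_lin_wal p)) B
  have h4 := VClass_qf_smul (VClass_qf_mul (VClass_lin_wth p) (VClass_lin_wth p)) C
  refine VClass_qf_congr (VClass_qf_add (VClass_qf_add (VClass_qf_add (VClass_qf_add h0 h1) h2) h3) h4)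
    fun v => ?_
  ring

theorem GPts_gquad_qI (ph : ℝ) (Ψ : ℝ → ℝ) (p v : EE 4) :
    gquad (polMet (qI ph Ψ)) p v = qI ph Ψ p v :=
  VClass_gquad _ _ (GPts_qf_base p _ _ _) v

theorem GPts_gquad_q0 (p v : EE 4) : gquad (polMet q0) p v = q0 p v := by
  refine VClass_gquad _ _ (VClass_qf_congr (GPts_qf_base p 0 ((aa * Yr p) ^ 2) ((aa * Ur p / 2) ^ 2))
    fun v => ?_) v
  unfold q0
  ring

theorem GPts_U {p : EE 4} (h : Ur p ≠ 0) : 0 < Ur p ∧ Ur p ^ 2 = p 2 ^ 2 + p 3 ^ 2 :=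
  ⟨lt_of_le_of_ne (VClass_Ur_nonneg p) (Ne.symm h), Real.sq_sqrt (by positivity)⟩

theorem GPts_Y {p : EE 4} (h : Ur p ≠ 0) : 0 < Yr p ∧ Yr p ^ 2 = p 1 ^ 2 + Ur p ^ 2 := by
  have h1 := GPts_U h
  have h2 : Yr p ^ 2 = p 1 ^ 2 + p 2 ^ 2 + p 3 ^ 2 := Real.sq_sqrt (by positivity)
  have h3 : 0 ≤ Yr p := Real.sqrt_nonneg _
  have h4 : Yr p ^ 2 = p 1 ^ 2 + Ur p ^ 2 := by rw [h2, h1.2]; ring
  refine ⟨lt_of_le_of_ne h3 fun h5 => ?_, h4⟩
  rw [← h5] at h4
  nlinarith [sq_nonneg (p 1), h1.1]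

theorem GPts_R {p : EE 4} (h : Ur p ≠ 0) : 0 < ‖p‖ ∧ ‖p‖ ^ 2 = p 0 ^ 2 + Yr p ^ 2 := by
  have h1 := GPts_U h
  have h2 := GPts_Y h
  have h3 : ‖p‖ ^ 2 = p 0 ^ 2 + Yr p ^ 2 := by
    rw [VClass_normsq, h2.2, h1.2]
    ring
  refine ⟨lt_of_le_of_ne (norm_nonneg p) fun h5 => ?_, h3⟩
  rw [← h5] at h3
  nlinarith [sq_nonneg (p 0), h2.1]

theorem GPts_rad {p : EE 4} (h : Ur p ≠ 0) : rad (p 0) (Yr p) = ‖p‖ := by
  have h1 := GPts_R h
  unfold rad
  rw [← h1.2, Real.sqrt_sq h1.1.le]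

/-- the Euclidean metric in the coordinates `X, Y, α, θ̂` -/
theorem GPts_euclid {p : EE 4} (h : Ur p ≠ 0) (v : EE 4) :
    ‖v‖ ^ 2 = (v 0) ^ 2 + (wY p v) ^ 2 + (Yr p) ^ 2 * (wal p v) ^ 2 + (Ur p) ^ 2 * (wth p v) ^ 2 := by
  obtain ⟨hU, hU2⟩ := GPts_U h
  obtain ⟨hY, hY2⟩ := GPts_Y h
  have e1 : (wU p v) ^ 2 + (Ur p) ^ 2 * (wth p v) ^ 2 = v 2 ^ 2 + v 3 ^ 2 := by
    unfold wU wth
    have : (p 2 * v 2 + p 3 * v 3) ^ 2 + (p 2 * v 3 - p 3 * v 2) ^ 2
        = Ur p ^ 2 * (v 2 ^ 2 + v 3 ^ 2) := by rw [hU2]; ring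
    field_simp
    linarith
  have e2 : (wY p v) ^ 2 + (Yr p) ^ 2 * (wal p v) ^ 2 = v 1 ^ 2 + (wU p v) ^ 2 := by
    have h3 : wY p v = (p 1 * v 1 + Ur p * wU p v) / Yr p := by
      unfold wY wU
      field_simp
      ring
    rw [h3]
    unfold wal
    have : (p 1 * v 1 + Ur p * wU p v) ^ 2 + (p 1 * wU p v - Ur p * v 1) ^ 2
        = Yr p ^ 2 * (v 1 ^ 2 + wU p v ^ 2) := by rw [hY2]; ring
    field_simp
    linarith
  rw [VClass_normsq]
  linarith

theorem GPts_wR_wt {p : EE 4} (h : Ur p ≠ 0) (v : EE 4) :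
    (v 0) ^ 2 + (wY p v) ^ 2 = (wR p v) ^ 2 + ‖p‖ ^ 2 * (wt p v) ^ 2 := by
  obtain ⟨hY, hY2⟩ := GPts_Y h
  obtain ⟨hR, hR2⟩ := GPts_R h
  have h3 : wR p v = (p 0 * v 0 + Yr p * wY p v) / ‖p‖ := by
    unfold wR wY
    field_simp
    ring
  rw [h3]
  unfold wt
  have : (p 0 * v 0 + Yr p * wY p v) ^ 2 + (p 0 * wY p v - Yr p * v 0) ^ 2
      = ‖p‖ ^ 2 * (v 0 ^ 2 + wY p v ^ 2) := by rw [hR2]; ring
  field_simp
  linarith

theorem GPts_vth_le {t : ℝ} (h : 0 ≤ t) : vth t ≤ t := by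
  have h1 := LAng_vth_sub 0 t
  rw [vth_zero, sub_zero] at h1
  rw [h1]
  have h2 : ∫ r in (0 : ℝ)..t, (1 - mf r) ≤ ∫ r in (0 : ℝ)..t, (1 : ℝ) := by
    refine intervalIntegral.integral_mono_on h ?_ ?_ ?_
    · exact (continuous_const.sub LAng_mf_cont).intervalIntegrable _ _
    · exact continuous_const.intervalIntegrable _ _
    · intro r _
      linarith [mf_nonneg r]
  simpa using h2

theorem GPts_PhL_le {ph X Y : ℝ} (h : 0 < ph) (h1 : ph ≤ 1 / 2) (hY : 0 < Y) : PhL ph X Y ≤ Y := by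
  rcases le_or_gt (1000 * epsh ph) (rad X Y) with h2 | h2
  · exact PhL_le h h1 hY h2
  · have he := epsh_pos h
    have hlt : rad X Y < 2000 * epsh ph := by linarith
    obtain ⟨hp1, hp2⟩ := polar_eq (X := X) hY
    obtain ⟨ha0, ha1⟩ := ang_mem (X := X) hY
    have hr : 0 < rad X Y := by
      unfold rad
      positivity
    obtain ⟨hv0, hv1⟩ := vth_mem ha0 ha1
    have hc : 0 < cos (vth (ang X Y)) := cos_pos_of_mem_Ioo ⟨by linarith, by linarith⟩
    have hs : 0 < sin (vth (ang X Y)) := sin_pos_of_pos_of_lt_pi hv0 (by linarith)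
    have hre : 0 < rad X Y / epsh ph := div_pos hr he
    have h3 := PhiT_lt (mul_pos hre hc) (mul_pos hre hs)
    have h4 : PhL ph X Y = epsh ph * PhiT (rad X Y / epsh ph * cos (vth (ang X Y)))
        (rad X Y / epsh ph * sin (vth (ang X Y))) := by
      unfold PhL
      rw [if_pos hlt]
    rw [h4]
    have h5 : min (cos (vth (ang X Y))) (sin (vth (ang X Y))) ≤ sin (ang X Y) := by
      rcases le_total (ang X Y) (π / 2) with h6 | h6
      · refine (min_le_right _ _).trans ?_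
        exact sin_le_sin_of_le_of_le_pi_div_two (by linarith) h6 (GPts_vth_le ha0.le)
      · refine (min_le_left _ _).trans ?_
        have h7 : cos (vth (ang X Y)) = sin (vth (π - ang X Y)) := by
          rw [vth_symm, sin_pi_div_two_sub]
        rw [h7, ← sin_pi_sub (ang X Y)]
        have h8 : 0 < vth (π - ang X Y) := (vth_mem (by linarith) (by linarith)).1
        exact sin_le_sin_of_le_of_le_pi_div_two (by linarith) (by linarith)
          (GPts_vth_le (by linarith))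
    have h6 : PhiT (rad X Y / epsh ph * cos (vth (ang X Y)))
        (rad X Y / epsh ph * sin (vth (ang X Y))) ≤ rad X Y / epsh ph * sin (ang X Y) := by
      rcases min_le_iff.1 h5 with h7 | h7
      · exact h3.1.le.trans (mul_le_mul_of_nonneg_left h7 hre.le)
      · exact h3.2.le.trans (mul_le_mul_of_nonneg_left h7 hre.le)
    have h7 := mul_le_mul_of_nonneg_left h6 he.le
    have h8 : epsh ph * (rad X Y / epsh ph * sin (ang X Y)) = Y := by
      rw [← mul_assoc, mul_div_cancel₀ _ he.ne', hp2]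
    linarith

/-- upper bound outside of the core -/
theorem GPts_qI_le {ph : ℝ} (h : 0 < ph) (h1 : ph ≤ 1 / 2) {p : EE 4} (hU : Ur p ≠ 0) (v : EE 4) :
    qI ph Ψ0 p v ≤ ‖v‖ ^ 2 := by
  obtain ⟨hU1, hU2⟩ := GPts_U hU
  obtain ⟨hY, hY2⟩ := GPts_Y hU
  obtain ⟨hR, hR2⟩ := GPts_R hU
  have h2 := JL_pos (t := ang (p 0) (Yr p)) h h1 hR
  have h3 := PhL_pos (X := p 0) h h1 hY
  have h4 := GPts_PhL_le (X := p 0) h h1 hY
  have h5 : JL ph ‖p‖ (ang (p 0) (Yr p)) ^ 2 - ‖p‖ ^ 2 ≤ 0 := by nlinarith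
  have h6 : PhL ph (p 0) (Yr p) ^ 2 ≤ Yr p ^ 2 := by nlinarith
  have h7 : Ψ0 (PhL ph (p 0) (Yr p) * Ur p / Yr p) ^ 2 ≤ Ur p ^ 2 := by
    unfold Ψ0
    have h8 : PhL ph (p 0) (Yr p) * Ur p / Yr p ≤ Ur p := by
      rw [div_le_iff₀ hY, mul_comm]
      exact mul_le_mul_of_nonneg_left h4 hU1.le
    have h9 : 0 ≤ PhL ph (p 0) (Yr p) * Ur p / Yr p := by positivity
    nlinarith
  rw [GPts_euclid hU v]
  unfold qI
  have e1 := mul_le_mul_of_nonneg_right h5 (sq_nonneg (wt p v))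
  have e2 := mul_le_mul_of_nonneg_right h6 (sq_nonneg (wal p v))
  have e3 := mul_le_mul_of_nonneg_right h7 (sq_nonneg (wth p v))
  linarith

theorem GPts_qI_ge {ph : ℝ} (Ψ : ℝ → ℝ) {p : EE 4} (hU : Ur p ≠ 0) (v : EE 4) :
    (wR p v) ^ 2 ≤ qI ph Ψ p v := by
  have h1 := GPts_wR_wt hU v
  have h2 : qI ph Ψ p v = (wR p v) ^ 2 + (JL ph ‖p‖ (ang (p 0) (Yr p))) ^ 2 * (wt p v) ^ 2
    + (PhL ph (p 0) (Yr p)) ^ 2 * (wal p v) ^ 2
    + (Ψ (PhL ph (p 0) (Yr p) * Ur p / Yr p)) ^ 2 * (wth p v) ^ 2 := by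
    unfold qI
    linear_combination h1
  rw [h2]
  have e1 : 0 ≤ (JL ph ‖p‖ (ang (p 0) (Yr p))) ^ 2 * (wt p v) ^ 2 := by positivity
  have e2 : 0 ≤ (PhL ph (p 0) (Yr p)) ^ 2 * (wal p v) ^ 2 := by positivity
  have e3 : 0 ≤ (Ψ (PhL ph (p 0) (Yr p) * Ur p / Yr p)) ^ 2 * (wth p v) ^ 2 := by positivity
  linarith

theorem GPts_aa : 0 < aa ∧ aa < 1 / 100 := LAxis_aa

theorem GPts_q0_le {p : EE 4} (hU : Ur p ≠ 0) (v : EE 4) : q0 p v ≤ ‖v‖ ^ 2 := by
  obtain ⟨hU1, hU2⟩ := GPts_U hU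
  obtain ⟨hY, hY2⟩ := GPts_Y hU
  have ha := GPts_aa
  rw [GPts_euclid hU v]
  unfold q0
  have h6 : (aa * Yr p) ^ 2 ≤ Yr p ^ 2 := by
    have : aa * Yr p ≤ Yr p := by nlinarith
    have h0 : 0 ≤ aa * Yr p := (mul_pos ha.1 hY).le
    nlinarith
  have h7 : (aa * Ur p / 2) ^ 2 ≤ Ur p ^ 2 := by
    have : aa * Ur p / 2 ≤ Ur p := by nlinarith
    have h0 : 0 ≤ aa * Ur p / 2 := by
      have := mul_pos ha.1 hU1
      linarith
    nlinarith
  have e2 := mul_le_mul_of_nonneg_right h6 (sq_nonneg (wal p v))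
  have e3 := mul_le_mul_of_nonneg_right h7 (sq_nonneg (wth p v))
  linarith

/-! ### the slabs -/

/-- `X` is in the slab of the hole `i` -/
def GPts_slab (i : ℕ) (X : ℝ) : Prop := 11 / 16 * xh i < X ∧ (1 < i → X < 25 / 16 * xh i)

theorem GPts_exists_slab {X : ℝ} (hX : 0 < X) : ∃ i, 1 ≤ i ∧ GPts_slab i X := by
  classical
  have hex : ∃ i, 1 ≤ i ∧ 11 / 16 * xh i < X := by
    obtain ⟨n, hn⟩ := exists_pow_lt_of_lt_one hX (show (1 / 2 : ℝ) < 1 by norm_num)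
    refine ⟨n + 1, by omega, ?_⟩
    have h1 := GPts_xh_succ n
    have h2 : xh n < X := hn
    have h3 := GPts_xh_pos n
    rw [h1]
    linarith
  refine ⟨Nat.find hex, (Nat.find_spec hex).1, (Nat.find_spec hex).2, fun h1 => ?_⟩
  obtain ⟨j, hj⟩ : ∃ j, Nat.find hex = j + 1 := ⟨Nat.find hex - 1, by omega⟩
  have h2 := Nat.find_min hex (m := j) (by omega)
  have h3 : ¬ 11 / 16 * xh j < X := fun h => h2 ⟨by omega, h⟩
  have h4 := GPts_xh_succ j
  rw [hj, h4]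
  have h5 := GPts_xh_pos j
  linarith

theorem GPts_mem_Sl {i : ℕ} {p : EE 4} (hp : GPts_slab i (p 0)) : p ∈ Sl i i :=
  ⟨fun h => absurd h (lt_irrefl _), hp.2⟩

theorem GPts_gInf {c0 : ℝ} (h : 0 < c0) (h1 : c0 ≤ 1) {i : ℕ} (hi : 1 ≤ i) {p : EE 4}
    (hp : GPts_slab i (p 0)) (hU : Ur p ≠ 0) :
    gInf c0 p = polMet (qL (phh c0 i) Ψ0 U0) (sc i p) := by
  rw [gInf_eq h h1 hi hp.1 hU, gM_eq h h1 hi le_rfl Ψ0 U0 (GPts_mem_Sl hp) hU,
    scΨ_Ψ0 (GPts_rh_pos i)]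

theorem GPts_UInf {c0 : ℝ} (h : 0 < c0) (h1 : c0 ≤ 1) {i : ℕ} (hi : 1 ≤ i) {p : EE 4}
    (hp : GPts_slab i (p 0)) : p ∈ UInf c0 ↔ sc i p ∈ UL (phh c0 i) 0 := by
  rw [UInf_iff h h1 hi hp.1, UM_iff h h1 hi le_rfl 0 (GPts_mem_Sl hp)]

theorem GPts_sc_apply0 (i : ℕ) (p : EE 4) : (sc i p) 0 = (p 0 - xh i) / rh i := by
  unfold sc
  simp [v4]
  ring

theorem GPts_sc_apply (i : ℕ) (p : EE 4) {j : Fin 4} (hj : j ≠ 0) : (sc i p) j = p j / rh i := by
  unfold sc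
  fin_cases j
  · exact absurd rfl hj
  · simp [v4]
    ring
  · simp [v4]
    ring
  · simp [v4]
    ring

theorem GPts_sc_Ur (i : ℕ) (p : EE 4) : Ur (sc i p) = Ur p / rh i := by
  have hr := GPts_rh_pos i
  unfold Ur
  rw [GPts_sc_apply i p (by decide), GPts_sc_apply i p (by decide)]
  rw [show (p 2 / rh i) ^ 2 + (p 3 / rh i) ^ 2 = (p 2 ^ 2 + p 3 ^ 2) / rh i ^ 2 by field_simp,
    Real.sqrt_div' _ (sq_nonneg _), Real.sqrt_sq hr.le]

theorem GPts_sc_Ur_ne {i : ℕ} {p : EE 4} : Ur (sc i p) ≠ 0 ↔ Ur p ≠ 0 := by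
  have hr := GPts_rh_pos i
  rw [GPts_sc_Ur]
  simp [hr.ne']

theorem GPts_sc_norm_sq (i : ℕ) (p : EE 4) :
    ‖sc i p‖ ^ 2 = ((p 0 - xh i) ^ 2 + p 1 ^ 2 + p 2 ^ 2 + p 3 ^ 2) / rh i ^ 2 := by
  rw [VClass_normsq, GPts_sc_apply0, GPts_sc_apply i p (by decide), GPts_sc_apply i p (by decide),
    GPts_sc_apply i p (by decide)]
  have hr := (GPts_rh_pos i).ne'
  field_simp

theorem GPts_abs_le (i : ℕ) (p : EE 4) : |p 0 - xh i| ≤ rh i * ‖sc i p‖ := by
  have hr := GPts_rh_pos i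
  have h1 := GPts_sc_norm_sq i p
  apply abs_le_of_sq_le_sq _ (by positivity)
  rw [mul_pow, h1]
  rw [mul_div_cancel₀ _ (by positivity)]
  nlinarith [sq_nonneg (p 1), sq_nonneg (p 2), sq_nonneg (p 3)]

/-- near the hole `i` we are in the slab `i` -/
theorem GPts_slab_of_norm {i : ℕ} {p : EE 4} (h : ‖sc i p‖ ≤ 2) : GPts_slab i (p 0) := by
  have h1 := abs_le.1 (GPts_abs_le i p)
  have h2 := GPts_xh_pos i
  have h3 : rh i * ‖sc i p‖ ≤ xh i / 4096 * 2 := by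
    have h4 : rh i = xh i / 4096 := rfl
    rw [h4]
    exact mul_le_mul_of_nonneg_left h (by positivity)
  refine ⟨?_, fun _ => ?_⟩
  · linarith [h1.1]
  · linarith [h1.2]

theorem GPts_gInf_ge {c0 : ℝ} (h : 0 < c0) (h1 : c0 ≤ 1) {i : ℕ} (hi : 1 ≤ i) {p : EE 4}
    (hU : Ur p ≠ 0) (h2 : 1 / 2 ≤ ‖sc i p‖) (h3 : ‖sc i p‖ ≤ 2) (v : EE 4) :
    (wR (sc i p) v) ^ 2 ≤ gquad (gInf c0) p v := by
  obtain ⟨hp, hp1, he, he1⟩ := GPts_phh h h1 i
  have h4 : gquad (gInf c0) p v = gquad (polMet (qL (phh c0 i) Ψ0 U0)) (sc i p) v := by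
    unfold gquad
    rw [GPts_gInf h h1 hi (GPts_slab_of_norm h3) hU]
  have h5 : ¬ ‖sc i p‖ < epsh (phh c0 i) / 2 := by
    rw [not_lt]
    linarith
  have h6 : qL (phh c0 i) Ψ0 U0 (sc i p) = qI (phh c0 i) Ψ0 (sc i p) := by
    funext w
    unfold qL
    rw [if_neg h5]
  have h7 : gquad (polMet (qL (phh c0 i) Ψ0 U0)) (sc i p) v = qI (phh c0 i) Ψ0 (sc i p) v := by
    rw [VClass_gquad _ _ (by rw [h6]; exact GPts_qf_base _ _ _ _) v, h6]
  rw [h4, h7]
  exact GPts_qI_ge _ (GPts_sc_Ur_ne.2 hU) v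


theorem GPts_wR_inner (x v : EE 4) : wR x v = inner ℝ x v / ‖x‖ := by
  unfold wR
  congr 1
  rw [PiLp.inner_apply, Fin.sum_univ_four]
  simp
  ring

theorem redist_sep {c0 : ℝ} (h : 0 < c0) (h1 : c0 ≤ 1) {i : ℕ} (hi : 1 ≤ i) {x y : EE 4}
    (hx : x ∈ UInf c0) (hy : y ∈ UInf c0) (hx1 : ‖sc i x‖ ≤ 1 / 2) (hy1 : 1 ≤ ‖sc i y‖) :
    ENNReal.ofReal (rh i / 2) ≤ redist (UInf c0) (gInf c0) x y := by
  have hmet := gInf_met h h1
  have hr := GPts_rh_pos i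
  refine le_iInf₂ fun γ hγ => ENNReal.ofReal_le_ofReal ?_
  obtain ⟨hγ1, hγU, hγ0, hγe⟩ := hγ
  set f : ℝ → ℝ := fun t => ‖sc i (γ t)‖ with hf
  have hsc : Continuous (sc i) := by
    unfold sc
    fun_prop
  have hfc : Continuous f := (hsc.comp hγ1.continuous).norm
  -- first parameter `b` with `f b ≥ 1`
  obtain ⟨b, hb, hbmin⟩ := (isCompact_Icc.inter_right (isClosed_le continuous_const hfc) :
    IsCompact (Icc (0 : ℝ) 1 ∩ {t | 1 ≤ f t})).exists_isLeast ⟨1, ⟨zero_le_one, le_rfl⟩, by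
      show 1 ≤ ‖sc i (γ 1)‖
      rw [hγe]; exact hy1⟩
  have hb1 : 1 ≤ f b := hb.2
  have hf0 : f 0 ≤ 1 / 2 := by
    show ‖sc i (γ 0)‖ ≤ 1 / 2
    rw [hγ0]; exact hx1
  have hb0 : 0 < b := by
    rcases lt_or_eq_of_le hb.1.1 with h2 | h2
    · exact h2
    · rw [← h2] at hb1
      linarith
  -- last parameter `a ≤ b` with `f a ≤ 1/2`
  obtain ⟨a, ha, hamax⟩ := (isCompact_Icc.inter_right (isClosed_le hfc continuous_const) :
    IsCompact (Icc (0 : ℝ) b ∩ {t | f t ≤ 1 / 2})).exists_isGreatest ⟨0, ⟨le_rfl, hb0.le⟩, hf0⟩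
  have ha1 : f a ≤ 1 / 2 := ha.2
  have hab : a < b := by
    rcases lt_or_eq_of_le ha.1.2 with h2 | h2
    · exact h2
    · rw [h2] at ha1
      linarith
  have hmid : ∀ t ∈ Ioo a b, 1 / 2 ≤ f t ∧ f t ≤ 1 := by
    intro t ht
    constructor
    · by_contra hcon
      rw [not_le] at hcon
      have := hamax ⟨⟨ha.1.1.trans ht.1.le, ht.2.le⟩, hcon.le⟩
      linarith [ht.1]
    · by_contra hcon
      rw [not_le] at hcon
      have := hbmin ⟨⟨ha.1.1.trans ht.1.le, ht.2.le.trans hb.1.2⟩, hcon.le⟩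
      linarith [ht.2]
  -- the values at the end points by continuity
  have hmid' : ∀ t ∈ Icc a b, 1 / 2 ≤ f t ∧ f t ≤ 1 := by
    have hcl : IsClosed {t | 1 / 2 ≤ f t ∧ f t ≤ 1} :=
      (isClosed_le continuous_const hfc).inter (isClosed_le hfc continuous_const)
    have hsub : closure (Ioo a b) ⊆ {t | 1 / 2 ≤ f t ∧ f t ≤ 1} :=
      closure_minimal (fun t ht => hmid t ht) hcl
    rw [closure_Ioo hab.ne] at hsub
    exact hsub
  have hIcc : Icc a b ⊆ Icc (0 : ℝ) 1 := Icc_subset_Icc ha.1.1 hb.1.2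
  have hU' : ∀ t ∈ Icc a b, γ t ∈ UInf c0 := fun t ht => hγU t (hIcc ht)
  -- derivative of `f`
  have hγd : ∀ t, HasDerivAt γ (deriv γ t) t := fun t =>
    ((hγ1.differentiable one_ne_zero) t).hasDerivAt
  have hu : ∀ t, HasDerivAt (fun s => sc i (γ s)) ((1 / rh i) • deriv γ t) t := fun t => by
    unfold sc
    exact ((hγd t).sub_const _).const_smul (1 / rh i)
  have hfd : ∀ t ∈ Icc a b, HasDerivAt f ((1 / rh i) * wR (sc i (γ t)) (deriv γ t)) t := by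
    intro t ht
    have h2 := (hu t).norm_sq
    have h3 : (0 : ℝ) < ‖sc i (γ t)‖ := by
      have := (hmid' t ht).1
      change 1 / 2 ≤ ‖sc i (γ t)‖ at this
      linarith
    have h4 := h2.sqrt (by positivity)
    have h5 : (fun s => √(‖sc i (γ s)‖ ^ 2)) = f := by
      funext s
      exact Real.sqrt_sq (norm_nonneg _)
    rw [h5, Real.sqrt_sq h3.le] at h4
    convert h4 using 1
    rw [GPts_wR_inner, inner_smul_right]
    field_simp
  have hcγ : Continuous (deriv γ) := hγ1.continuous_deriv le_rfl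
  have hcw : ContinuousOn (fun t => (1 / rh i) * wR (sc i (γ t)) (deriv γ t)) (Icc a b) := by
    refine continuousOn_const.mul ?_
    simp only [GPts_wR_inner]
    refine ContinuousOn.div ?_ hfc.continuousOn ?_
    · exact ((hsc.comp hγ1.continuous).inner hcγ).continuousOn
    · intro t ht
      have := (hmid' t ht).1
      change 1 / 2 ≤ ‖sc i (γ t)‖ at this
      intro h0
      linarith
  have hspeed : ContinuousOn (fun t => Real.sqrt (gquad (gInf c0) (γ t) (deriv γ t))) (Icc a b) :=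
    continuousOn_speed hmet isOpen_univ hγ1.contDiffOn (subset_univ _) hU'
  have hint : ∫ t in a..b, (1 / rh i) * wR (sc i (γ t)) (deriv γ t) = f b - f a := by
    refine intervalIntegral.integral_eq_sub_of_hasDerivAt ?_ ?_
    · intro t ht
      rw [uIcc_of_le hab.le] at ht
      exact hfd t ht
    · refine ContinuousOn.intervalIntegrable ?_
      rw [uIcc_of_le hab.le]
      exact hcw
  have hle : ∫ t in a..b, (1 / rh i) * wR (sc i (γ t)) (deriv γ t) ≤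
      ∫ t in a..b, (1 / rh i) * Real.sqrt (gquad (gInf c0) (γ t) (deriv γ t)) := by
    refine intervalIntegral.integral_mono_on hab.le ?_ ?_ ?_
    · refine ContinuousOn.intervalIntegrable ?_
      rw [uIcc_of_le hab.le]
      exact hcw
    · refine ContinuousOn.intervalIntegrable ?_
      rw [uIcc_of_le hab.le]
      exact continuousOn_const.mul hspeed
    · intro t ht
      refine mul_le_mul_of_nonneg_left ?_ (by positivity)
      refine Real.le_sqrt_of_sq_le ?_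
      have h2 := hmid' t ht
      exact GPts_gInf_ge h h1 hi (hU' t ht).1 h2.1 (h2.2.trans (by norm_num)) _
  rw [hint, intervalIntegral.integral_const_mul] at hle
  have h9 := plenI_add hmet isOpen_univ hγ1.contDiffOn ha.1.1 (hab.le.trans hb.1.2) (subset_univ _) hγU
  have h10 := plenI_add hmet isOpen_univ hγ1.contDiffOn hab.le hb.1.2 (subset_univ _)
    (fun t ht => hγU t ⟨ha.1.1.trans ht.1, ht.2⟩)
  have h11 := plenI_nonneg (gInf c0) γ ha.1.1
  have h12 := plenI_nonneg (gInf c0) γ hb.1.2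
  have h13 : plenI (gInf c0) γ a b = ∫ t in a..b, Real.sqrt (gquad (gInf c0) (γ t) (deriv γ t)) := rfl
  have h14 : plen (gInf c0) γ = plenI (gInf c0) γ 0 1 := rfl
  rw [← h13] at hle
  have h15 : rh i * (f b - f a) ≤ plenI (gInf c0) γ a b := by
    have := mul_le_mul_of_nonneg_left hle hr.le
    rw [← mul_assoc, mul_one_div_cancel hr.ne', one_mul] at this
    exact this
  rw [h14]
  nlinarith

/-! ### the good set: outside of the cores -/

def GPts_good (c0 : ℝ) : Set (EE 4) :=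
  {p | Ur p ≠ 0 ∧ ∀ i, 1 ≤ i → GPts_slab i (p 0) → epsh (phh c0 i) / 2 ≤ ‖sc i p‖}

theorem GPts_UL_of_ge {c0 : ℝ} (h : 0 < c0) (h1 : c0 ≤ 1) {i : ℕ} {q : EE 4} (hU : Ur q ≠ 0)
    (hq : epsh (phh c0 i) / 2 ≤ ‖q‖) : q ∈ UL (phh c0 i) 0 := by
  obtain ⟨hp, hp1, he, he1⟩ := GPts_phh h h1 i
  refine ⟨hU, ?_, fun h2 => absurd h2.1 (not_lt.2 hq)⟩
  have h3 := mul_lt_mul_of_pos_left GPts_sC_t1 he
  rw [mul_assoc]
  linarith

theorem GPts_good_mem {c0 : ℝ} (h : 0 < c0) (h1 : c0 ≤ 1) {p : EE 4} (hp : p ∈ GPts_good c0) :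
    p ∈ UInf c0 ∧ ∀ v, gquad (gInf c0) p v ≤ ‖v‖ ^ 2 := by
  obtain ⟨hU, hg⟩ := hp
  rcases le_or_gt (p 0) 0 with h2 | h2
  · refine ⟨⟨hU, fun h3 => absurd h3 (not_lt.2 h2)⟩, fun v => ?_⟩
    have h3 : gInf c0 p = polMet q0 p := by
      unfold gInf
      rw [if_pos h2]
    have h4 : gquad (gInf c0) p v = gquad (polMet q0) p v := by
      unfold gquad
      rw [h3]
    rw [h4, GPts_gquad_q0]
    exact GPts_q0_le hU v
  · obtain ⟨i, hi, hs⟩ := GPts_exists_slab h2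
    obtain ⟨hp, hp1, he, he1⟩ := GPts_phh h h1 i
    have h3 := hg i hi hs
    refine ⟨(GPts_UInf h h1 hi hs).2 (GPts_UL_of_ge h h1 (GPts_sc_Ur_ne.2 hU) h3), fun v => ?_⟩
    have h4 : gquad (gInf c0) p v = gquad (polMet (qL (phh c0 i) Ψ0 U0)) (sc i p) v := by
      unfold gquad
      rw [GPts_gInf h h1 hi hs hU]
    have h6 : qL (phh c0 i) Ψ0 U0 (sc i p) = qI (phh c0 i) Ψ0 (sc i p) := by
      funext w
      unfold qL
      rw [if_neg (not_lt.2 h3)]
    have h7 : gquad (polMet (qL (phh c0 i) Ψ0 U0)) (sc i p) v = qI (phh c0 i) Ψ0 (sc i p) v := by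
      rw [VClass_gquad _ _ (by rw [h6]; exact GPts_qf_base _ _ _ _) v, h6]
    rw [h4, h7]
    exact GPts_qI_le hp hp1 (GPts_sc_Ur_ne.2 hU) v

theorem GPts_seg {c0 : ℝ} {x y : EE 4}
    (hseg : ∀ t ∈ Icc (0 : ℝ) 1, x + t • (y - x) ∈ UInf c0 ∧
      gquad (gInf c0) (x + t • (y - x)) (y - x) ≤ ‖y - x‖ ^ 2) :
    redist (UInf c0) (gInf c0) x y ≤ ENNReal.ofReal ‖y - x‖ := by
  have hpath : IsPath (UInf c0) x y (fun t => x + t • (y - x)) := by
    refine ⟨contDiff_const.add (contDiff_id.smul contDiff_const), fun t ht => (hseg t ht).1, ?_, ?_⟩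
    · show x + (0 : ℝ) • (y - x) = x
      rw [zero_smul, add_zero]
    · show x + (1 : ℝ) • (y - x) = y
      rw [one_smul, add_sub_cancel]
  refine (iInf₂_le _ hpath).trans (ENNReal.ofReal_le_ofReal ?_)
  have hd : ∀ t : ℝ, deriv (fun t : ℝ => x + t • (y - x)) t = y - x := by
    intro t
    have h1 : HasDerivAt (fun t : ℝ => x + t • (y - x)) ((1 : ℝ) • (y - x)) t :=
      ((hasDerivAt_id t).smul_const (y - x)).const_add x
    rw [h1.deriv, one_smul]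
  unfold plen
  refine (le_abs_self _).trans ?_
  rw [← Real.norm_eq_abs]
  have h2 := intervalIntegral.norm_integral_le_of_norm_le_const (a := (0 : ℝ)) (b := 1)
    (C := ‖y - x‖) (f := fun t => √(gquad (gInf c0) ((fun t : ℝ => x + t • (y - x)) t)
      (deriv (fun t : ℝ => x + t • (y - x)) t))) (by
        intro t ht
        rw [uIoc_of_le zero_le_one] at ht
        rw [hd, Real.norm_eq_abs, abs_of_nonneg (Real.sqrt_nonneg _)]
        exact Real.sqrt_le_iff.2 ⟨norm_nonneg _, (hseg t ⟨ht.1.le, ht.2⟩).2⟩)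
  rw [sub_zero, abs_one, mul_one] at h2
  exact h2

theorem GPts_seg_good {c0 : ℝ} (h : 0 < c0) (h1 : c0 ≤ 1) {x y : EE 4}
    (hseg : ∀ t ∈ Icc (0 : ℝ) 1, x + t • (y - x) ∈ GPts_good c0) :
    redist (UInf c0) (gInf c0) x y ≤ ENNReal.ofReal ‖y - x‖ :=
  GPts_seg fun t ht => ⟨(GPts_good_mem h h1 (hseg t ht)).1, (GPts_good_mem h h1 (hseg t ht)).2 _⟩

theorem GPts_Ur_le_sc (i : ℕ) (p : EE 4) : Ur p / rh i ≤ ‖sc i p‖ := by
  rw [← GPts_sc_Ur]
  exact VClass_Ur_le _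

theorem GPts_rh_le {i : ℕ} (hi : 1 ≤ i) : rh i ≤ 1 / 8192 := by
  have h1 := GPts_xh_le hi
  show xh i / 4096 ≤ 1 / 8192
  linarith

theorem GPts_good_of_Ur {c0 : ℝ} (h : 0 < c0) (h1 : c0 ≤ 1) {p : EE 4} (hp : 5 ≤ Ur p) :
    p ∈ GPts_good c0 := by
  refine ⟨by intro h0; linarith, fun i hi _ => ?_⟩
  obtain ⟨_, _, he, he1⟩ := GPts_phh h h1 i
  have h2 := GPts_Ur_le_sc i p
  have h3 := GPts_rh_pos i
  have h4 := GPts_rh_le hi
  have h5 : 5 ≤ Ur p / rh i := by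
    rw [le_div_iff₀ h3]
    linarith
  linarith

/-! ### the radial path out of the core -/

theorem GPts_Qm_smul (ε : ℝ) {s : ℝ} (hs : 0 < s) (q : EE 4) : Qm ε (s • q) = s • Qm ε q := by
  have hY : Yr (s • q) = s * Yr q := by
    unfold Yr
    have : (s • q) 1 ^ 2 + (s • q) 2 ^ 2 + (s • q) 3 ^ 2
        = s ^ 2 * (q 1 ^ 2 + q 2 ^ 2 + q 3 ^ 2) := by
      simp only [PiLp.smul_apply, smul_eq_mul]
      ring
    rw [this, Real.sqrt_mul (sq_nonneg s), Real.sqrt_sq hs.le]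
  have hrad : rad (s * q 0) (s * Yr q) = s * rad (q 0) (Yr q) := by
    unfold rad
    have : (s * q 0) ^ 2 + (s * Yr q) ^ 2 = s ^ 2 * (q 0 ^ 2 + Yr q ^ 2) := by ring
    rw [this, Real.sqrt_mul (sq_nonneg s), Real.sqrt_sq hs.le]
  have hang : ang ((s • q) 0) (Yr (s • q)) = ang (q 0) (Yr q) := by
    rw [hY]
    show ang (s * q 0) (s * Yr q) = _
    unfold ang
    rw [hrad, mul_div_mul_left _ _ hs.ne']
  have hdiv : ∀ (j : Fin 4) (b : ℝ), b * (s • q) j / Yr (s • q) = b * q j / Yr q := by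
    intro j b
    rw [hY]
    show b * (s * q j) / (s * Yr q) = _
    rw [mul_left_comm, mul_div_mul_left _ _ hs.ne']
  unfold Qm
  rw [hang, hdiv 1, hdiv 2, hdiv 3, norm_smul, Real.norm_eq_abs, abs_of_pos hs, smul_smul,
    mul_div_assoc]

theorem GPts_fderiv_Qm {ε : ℝ} (h : 0 < ε) {q : EE 4} (hq : q ≠ 0) :
    fderiv ℝ (Qm ε) q q = Qm ε q := by
  have hd : DifferentiableAt ℝ (Qm ε) q :=
    ((Qm_contDiffOn h).contDiffAt (isOpen_compl_singleton.mem_nhds hq)).differentiableAt (by simp)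
  have h1 : HasDerivAt (fun s : ℝ => s • q) q 1 := by
    have := (hasDerivAt_id (1 : ℝ)).smul_const q
    simpa using this
  have h2 : HasDerivAt (fun s : ℝ => Qm ε (s • q)) (fderiv ℝ (Qm ε) q q) 1 := by
    have h3 : HasFDerivAt (Qm ε) (fderiv ℝ (Qm ε) q) ((1 : ℝ) • q) := by
      rw [one_smul]
      exact hd.hasFDerivAt
    exact h3.comp_hasDerivAt (1 : ℝ) h1
  have h4 : HasDerivAt (fun s : ℝ => s • Qm ε q) (Qm ε q) 1 := by
    have := (hasDerivAt_id (1 : ℝ)).smul_const (Qm ε q)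
    simpa using this
  have h5 : (fun s : ℝ => Qm ε (s • q)) =ᶠ[𝓝 1] fun s => s • Qm ε q := by
    filter_upwards [Ioi_mem_nhds (show (0 : ℝ) < 1 by norm_num)] with s hs
    exact GPts_Qm_smul ε hs q
  exact (h4.congr_of_eventuallyEq h5).unique h2 ▸ rfl

theorem GPts_Qm_norm {ε : ℝ} (h : 0 < ε) {p : EE 4} (hp : p ≠ 0) : ‖Qm ε p‖ = ‖p‖ / (ε * sC) :=
  Qm_norm h hp

theorem GPts_qC_radial (Ψ : ℝ → ℝ) {x : EE 4} (hx : x ≠ 0) (κ : ℝ) :
    qC Ψ U0 x (κ • x) = κ ^ 2 * ‖x‖ ^ 2 := by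
  have hn : 0 < ‖x‖ := norm_pos_iff.2 hx
  have e1 : wR x (κ • x) = κ * ‖x‖ := by
    rw [GPts_wR_inner, inner_smul_right, real_inner_self_eq_norm_sq]
    field_simp
  have e2 : wth x (κ • x) = 0 := by
    unfold wth
    simp only [PiLp.smul_apply, smul_eq_mul]
    rw [show x 2 * (κ * x 3) - x 3 * (κ * x 2) = 0 by ring, zero_div]
  have e3 : wvp x (κ • x) = 0 := by
    unfold wvp
    simp only [PiLp.smul_apply, smul_eq_mul]
    rw [show x 0 * (κ * x 1) - x 1 * (κ * x 0) = 0 by ring, zero_div]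
  have e4 : wn2 x (κ • x) = 0 := by
    unfold wn2
    rw [e1, norm_smul, Real.norm_eq_abs, mul_pow, sq_abs, mul_pow, sub_self, zero_div]
  unfold qC
  rw [e1, e2, e3, e4]
  have e5 : (1 / (1 - U0 (rhoP x)) - 1 / (1 - rhoP x ^ 2)) = 0 := by
    unfold U0
    rw [sub_self]
  rw [e5]
  split_ifs <;> ring

theorem GPts_not_Cap {z : EE 4} (hz : t1C < ‖z‖) : z ∉ CapS 0 := by
  rintro ⟨⟨h1, -⟩, h2⟩
  have h3 := VClass_sin_le z
  have h4 : 0 < tc z := by
    unfold tc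
    linarith
  have h5 := isCoreC.ta_le
  have h6 : 0 < sin (tc z) := sin_pos_of_pos_of_lt_pi h4 (by linarith [Real.pi_gt_three, show taC ≤ 1 / 2 from h5])
  have h7 : 0 < rhoP z := by
    unfold rhoP
    apply Real.sqrt_pos.2
    nlinarith
  linarith

theorem GPts_qf_sum {ι : Type} (s : Finset ι) (f : ι → EE 4 → ℝ) (hf : ∀ i, IsQF (f i)) :
    IsQF (fun v => ∑ i ∈ s, f i v) := by
  classical
  induction s using Finset.induction_on with
  | empty => exact ⟨0, fun i j => rfl, fun v => by simp⟩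
  | insert a s ha ih =>
    refine VClass_qf_congr (VClass_qf_add (hf a) ih) fun v => ?_
    rw [Finset.sum_insert ha]

theorem GPts_lin_comp (L : EE 4 →L[ℝ] EE 4) (i : Fin 4) : VClass_lin (fun v => (L v) i) := by
  refine ⟨fun k => (L (e4 k)) i, fun v => ?_⟩
  have hv : v = ∑ k, v k • e4 k := by
    ext j
    fin_cases j <;> simp [e4, Fin.sum_univ_four]
  show (L v) i = ∑ k, (L (e4 k)) i * v k
  conv_lhs => rw [hv]
  rw [map_sum]
  simp only [map_smul, Fin.sum_univ_four, PiLp.add_apply, PiLp.smul_apply, smul_eq_mul]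
  ring

theorem GPts_qf_comp {q : EE 4 → ℝ} (h : IsQF q) (L : EE 4 →L[ℝ] EE 4) :
    IsQF (fun v => q (L v)) := by
  obtain ⟨A, -, hq⟩ := h
  refine VClass_qf_congr (GPts_qf_sum Finset.univ (fun (i : Fin 4) v => ∑ j, A i j * ((L v) i * (L v) j))
    fun i => GPts_qf_sum Finset.univ (fun (j : Fin 4) v => A i j * ((L v) i * (L v) j)) fun j =>
      VClass_qf_smul (VClass_qf_mul (GPts_lin_comp L i) (GPts_lin_comp L j)) (A i j)) fun v => ?_
  rw [hq]
  simp only [mul_assoc]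

theorem GPts_radial {c0 : ℝ} (h : 0 < c0) (h1 : c0 ≤ 1) {i : ℕ} (hi : 1 ≤ i) {p : EE 4}
    (hU : Ur p ≠ 0) (h2 : epsh (phh c0 i) * sC * t1C < ‖sc i p‖)
    (h3 : ‖sc i p‖ ≤ epsh (phh c0 i) / 2) (κ : ℝ) :
    p ∈ UInf c0 ∧ gquad (gInf c0) p (κ • sc i p) ≤ ‖κ • sc i p‖ ^ 2 := by
  obtain ⟨hp, hp1, he, he1⟩ := GPts_phh h h1 i
  have hs : GPts_slab i (p 0) := GPts_slab_of_norm (by linarith)
  have hUq : Ur (sc i p) ≠ 0 := GPts_sc_Ur_ne.2 hU
  have hq0 : sc i p ≠ 0 := by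
    have := (GPts_R hUq).1
    exact norm_pos_iff.1 this
  have hsC := GPts_sC_pos
  have hsε : 0 < epsh (phh c0 i) * sC := mul_pos he hsC
  have hQn := GPts_Qm_norm he hq0
  have hQ1 : t1C < ‖Qm (epsh (phh c0 i)) (sc i p)‖ := by
    rw [hQn, lt_div_iff₀ hsε]
    linarith
  have hQ0 : Qm (epsh (phh c0 i)) (sc i p) ≠ 0 := by
    rw [← norm_pos_iff]
    linarith [VClass_t1]
  refine ⟨(GPts_UInf h h1 hi hs).2 ⟨hUq, h2, fun h4 => GPts_not_Cap hQ1 h4.2⟩, ?_⟩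
  have h4 : gquad (gInf c0) p (κ • sc i p) =
      gquad (polMet (qL (phh c0 i) Ψ0 U0)) (sc i p) (κ • sc i p) := by
    unfold gquad
    rw [GPts_gInf h h1 hi hs hU]
  rw [h4]
  rcases lt_or_eq_of_le h3 with h5 | h5
  · have h6 : ∀ w, qL (phh c0 i) Ψ0 U0 (sc i p) w = (epsh (phh c0 i) * sC) ^ 2 *
        qC (scΨ (epsh (phh c0 i) * sC) Ψ0) U0 (Qm (epsh (phh c0 i)) (sc i p))
          (fderiv ℝ (Qm (epsh (phh c0 i))) (sc i p) w) := by
      intro w
      unfold qL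
      rw [if_pos h5]
    have h7 : IsQF (qL (phh c0 i) Ψ0 U0 (sc i p)) := by
      refine VClass_qf_congr (VClass_qf_smul (GPts_qf_comp (VClass_qC (scΨ (epsh (phh c0 i) * sC) Ψ0)
        U0 (Qm (epsh (phh c0 i)) (sc i p))) (fderiv ℝ (Qm (epsh (phh c0 i))) (sc i p)))
        ((epsh (phh c0 i) * sC) ^ 2)) fun w => ?_
      exact (h6 w).symm
    rw [VClass_gquad _ _ h7, h6, map_smul, GPts_fderiv_Qm he hq0, GPts_qC_radial _ hQ0, hQn,
      norm_smul, Real.norm_eq_abs, mul_pow |κ|, sq_abs]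
    apply le_of_eq
    field_simp
  · have h6 : qL (phh c0 i) Ψ0 U0 (sc i p) = qI (phh c0 i) Ψ0 (sc i p) := by
      funext w
      unfold qL
      rw [if_neg (by rw [h5]; exact lt_irrefl _)]
    have h7 : gquad (polMet (qL (phh c0 i) Ψ0 U0)) (sc i p) (κ • sc i p)
        = qI (phh c0 i) Ψ0 (sc i p) (κ • sc i p) := by
      rw [VClass_gquad _ _ (by rw [h6]; exact GPts_qf_base _ _ _ _), h6]
    rw [h7]
    exact GPts_qI_le hp hp1 hUq _

theorem GPts_smul_sub (i : ℕ) (p : EE 4) : rh i • sc i p = p - v4 (xh i) 0 0 0 := by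
  unfold sc
  rw [smul_smul, mul_one_div_cancel (GPts_rh_pos i).ne', one_smul]

/-- radially out of the core -/
theorem GPts_out {c0 : ℝ} (h : 0 < c0) (h1 : c0 ≤ 1) {i : ℕ} (hi : 1 ≤ i) {x : EE 4}
    (hx : x ∈ UInf c0) (hs : GPts_slab i (x 0)) (hx1 : ‖sc i x‖ < epsh (phh c0 i) / 2) :
    ∃ y, ‖sc i y‖ = epsh (phh c0 i) / 2 ∧ Ur y ≠ 0 ∧ ‖y - x‖ ≤ 1 ∧
      redist (UInf c0) (gInf c0) x y ≤ ENNReal.ofReal 1 := by
  obtain ⟨hp, hp1, he, he1⟩ := GPts_phh h h1 i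
  have hr := GPts_rh_pos i
  have hr1 := GPts_rh_le hi
  have hU := hx.1
  have hUL := (GPts_UInf h h1 hi hs).1 hx
  have hlow : epsh (phh c0 i) * sC * t1C < ‖sc i x‖ := hUL.2.1
  have hq0 : 0 < ‖sc i x‖ := (GPts_R (GPts_sc_Ur_ne.2 hU)).1
  set c : EE 4 := v4 (xh i) 0 0 0 with hc
  set μ : ℝ := epsh (phh c0 i) / 2 / ‖sc i x‖ with hμ
  have hμ1 : 1 < μ := by
    rw [hμ, one_lt_div hq0]
    exact hx1
  set y : EE 4 := c + μ • (x - c) with hy
  have hyx : y - x = (μ - 1) • (x - c) := by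
    rw [hy, sub_smul, one_smul]
    abel
  have hxc : x - c = rh i • sc i x := (GPts_smul_sub i x).symm
  have hpt : ∀ t : ℝ, x + t • (y - x) = c + (1 + t * (μ - 1)) • (x - c) := by
    intro t
    rw [hyx, add_smul, one_smul, smul_smul]
    abel
  have hscp : ∀ ν : ℝ, sc i (c + ν • (x - c)) = ν • sc i x := by
    intro ν
    unfold sc
    rw [← hc, add_sub_cancel_left, smul_comm]
  have hUν : ∀ ν : ℝ, 0 < ν → Ur (c + ν • (x - c)) ≠ 0 := by
    intro ν hν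
    rw [← GPts_sc_Ur_ne (i := i), hscp]
    have h2 : Ur (ν • sc i x) = ν * Ur (sc i x) := by
      unfold Ur
      have : (ν • sc i x) 2 ^ 2 + (ν • sc i x) 3 ^ 2
          = ν ^ 2 * ((sc i x) 2 ^ 2 + (sc i x) 3 ^ 2) := by
        simp only [PiLp.smul_apply, smul_eq_mul]
        ring
      rw [this, Real.sqrt_mul (sq_nonneg ν), Real.sqrt_sq hν.le]
    rw [h2]
    exact mul_ne_zero hν.ne' (GPts_sc_Ur_ne.2 hU)
  have hμe : μ * ‖sc i x‖ = epsh (phh c0 i) / 2 := by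
    rw [hμ, div_mul_cancel₀ _ hq0.ne']
  have hnorm : ‖y - x‖ ≤ 1 := by
    rw [hyx, hxc, norm_smul, norm_smul, Real.norm_eq_abs, Real.norm_eq_abs, abs_of_pos hr,
      abs_of_pos (by linarith)]
    have h2 : (μ - 1) * (rh i * ‖sc i x‖) ≤ rh i * (μ * ‖sc i x‖) := by
      nlinarith [mul_pos hr hq0]
    rw [hμe] at h2
    nlinarith
  refine ⟨y, ?_, hUν μ (by linarith), hnorm, ?_⟩
  · rw [hy, hscp, norm_smul, Real.norm_eq_abs, abs_of_pos (by linarith), hμe]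
  · refine (GPts_seg fun t ht => ?_).trans (ENNReal.ofReal_le_ofReal hnorm)
    rw [hpt t]
    set ν : ℝ := 1 + t * (μ - 1) with hν
    have hν1 : 1 ≤ ν := by
      have := mul_nonneg ht.1 (show 0 ≤ μ - 1 by linarith)
      linarith
    have hν2 : ν ≤ μ := by
      have := mul_le_mul_of_nonneg_right ht.2 (show 0 ≤ μ - 1 by linarith)
      linarith
    have hn : ‖sc i (c + ν • (x - c))‖ = ν * ‖sc i x‖ := by
      rw [hscp, norm_smul, Real.norm_eq_abs, abs_of_pos (by linarith)]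
    have hv : y - x = ((μ - 1) * rh i / ν) • sc i (c + ν • (x - c)) := by
      rw [hyx, hscp, hxc, smul_smul, smul_smul]
      congr 1
      have : ν ≠ 0 := by linarith
      field_simp
    rw [hv]
    refine GPts_radial h h1 hi (hUν ν (by linarith)) ?_ ?_ _
    · rw [hn]
      nlinarith
    · rw [hn, ← hμe]
      exact mul_le_mul_of_nonneg_right hν2 hq0.le

theorem GPts_good_of_core {c0 : ℝ} {i : ℕ} (hi : 1 ≤ i) {y : EE 4} (hU : Ur y ≠ 0)
    (hy : ‖sc i y‖ = epsh (phh c0 i) / 2) (h : 0 < c0) (h1 : c0 ≤ 1) : y ∈ GPts_good c0 := by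
  refine ⟨hU, fun j hj hs => ?_⟩
  obtain ⟨_, _, he, he1⟩ := GPts_phh h h1 i
  obtain ⟨_, _, he', he1'⟩ := GPts_phh h h1 j
  have hsi : GPts_slab i (y 0) := GPts_slab_of_norm (by linarith)
  rcases lt_trichotomy i j with hij | hij | hij
  · -- `y 0 < 25/16 xh j`, but `y 0` is near `xh i ≥ 2 xh j`
    have h2 := hs.2 (by omega)
    have h3 := abs_le.1 (GPts_abs_le i y)
    have h4 : rh i = xh i / 4096 := rfl
    have h5 : xh j ≤ xh i / 2 := by
      rw [← GPts_xh_succ]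
      unfold xh
      exact pow_le_pow_of_le_one (by norm_num) (by norm_num) hij
    have h6 := GPts_xh_pos i
    exfalso
    rw [hy, h4] at h3
    nlinarith [h3.1]
  · rw [← hij, hy]
  · have h2 := hs.1
    have h3 := abs_le.1 (GPts_abs_le i y)
    have h4 : rh i = xh i / 4096 := rfl
    have h5 : xh i ≤ xh j / 2 := by
      rw [← GPts_xh_succ]
      unfold xh
      exact pow_le_pow_of_le_one (by norm_num) (by norm_num) hij
    have h6 := GPts_xh_pos i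
    exfalso
    rw [hy, h4] at h3
    nlinarith [h3.2]

/-- a point outside of the cores is connected with the base point -/
theorem GPts_good_bdd {c0 : ℝ} (h : 0 < c0) (h1 : c0 ≤ 1) {x : EE 4} (hx : x ∈ GPts_good c0)
    (hx1 : ‖x‖ ≤ 3) : redist (UInf c0) (gInf c0) x qB ≤ ENNReal.ofReal 100 := by
  have hmet := gInf_met h h1
  obtain ⟨hU, hU2⟩ := GPts_U hx.1
  have hU3 : Ur x ≤ 3 := (VClass_Ur_le x).trans hx1
  set a : ℝ := x 2 / Ur x with ha
  set b : ℝ := x 3 / Ur x with hb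
  have hab : a ^ 2 + b ^ 2 = 1 := by
    rw [ha, hb, div_pow, div_pow, ← add_div, ← hU2, div_self (by positivity)]
  have hx2 : x 2 = Ur x * a := by rw [ha]; field_simp
  have hx3 : x 3 = Ur x * b := by rw [hb]; field_simp
  obtain ⟨σ, hσ, hσb⟩ : ∃ σ : ℝ, σ ^ 2 = 1 ∧ 0 ≤ σ * b := by
    rcases le_total 0 b with h2 | h2
    · exact ⟨1, by norm_num, by linarith⟩
    · exact ⟨-1, by norm_num, by linarith⟩
  have hx0 : x 0 ^ 2 + x 1 ^ 2 ≤ 9 := by
    have h2 := VClass_normsq x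
    have h3 : ‖x‖ ^ 2 ≤ 9 := by nlinarith [norm_nonneg x]
    nlinarith [sq_nonneg (x 2), sq_nonneg (x 3)]
  -- the corners
  set y1 : EE 4 := v4 (x 0) (x 1) (8 * a) (8 * b) with hy1
  set y2 : EE 4 := v4 (x 0) (x 1) 0 (8 * σ) with hy2
  set y3 : EE 4 := v4 (x 0) (x 1) 8 0 with hy3
  have key : ∀ y z : EE 4, (∀ t ∈ Icc (0 : ℝ) 1, y + t • (z - y) ∈ GPts_good c0) →
      ‖z - y‖ ≤ 20 → redist (UInf c0) (gInf c0) y z ≤ ENNReal.ofReal 20 := fun y z hyz hn =>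
    (GPts_seg_good h h1 hyz).trans (ENNReal.ofReal_le_ofReal hn)
  have hnrm : ∀ w : EE 4, w 0 ^ 2 + w 1 ^ 2 + w 2 ^ 2 + w 3 ^ 2 ≤ 400 → ‖w‖ ≤ 20 := by
    intro w hw
    have h2 := VClass_normsq w
    nlinarith [norm_nonneg w]
  have hUr5 : ∀ w : EE 4, 25 ≤ w 2 ^ 2 + w 3 ^ 2 → 5 ≤ Ur w := by
    intro w hw
    unfold Ur
    rw [show (5 : ℝ) = √25 by rw [show (25 : ℝ) = 5 ^ 2 by norm_num, Real.sqrt_sq (by norm_num)]]
    exact Real.sqrt_le_sqrt hw
  have s1 : redist (UInf c0) (gInf c0) x y1 ≤ ENNReal.ofReal 20 := by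
    refine key _ _ (fun t ht => ?_) (hnrm _ ?_)
    · set w : EE 4 := x + t • (y1 - x) with hw
      have w0 : w 0 = x 0 := by simp [hw, hy1, v4]
      have w1 : w 1 = x 1 := by simp [hw, hy1, v4]
      have w2 : w 2 = (Ur x + t * (8 - Ur x)) * a := by
        have : w 2 = x 2 + t * (8 * a - x 2) := by simp [hw, hy1, v4]
        rw [this, hx2]
        ring
      have w3 : w 3 = (Ur x + t * (8 - Ur x)) * b := by
        have : w 3 = x 3 + t * (8 * b - x 3) := by simp [hw, hy1, v4]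
        rw [this, hx3]
        ring
      have hge : Ur x ≤ Ur x + t * (8 - Ur x) := by
        have := mul_nonneg ht.1 (show 0 ≤ 8 - Ur x by linarith)
        linarith
      have hw23 : w 2 ^ 2 + w 3 ^ 2 = (Ur x + t * (8 - Ur x)) ^ 2 := by
        rw [w2, w3]
        linear_combination (Ur x + t * (8 - Ur x)) ^ 2 * hab
      have hUw : Ur w = Ur x + t * (8 - Ur x) := by
        unfold Ur
        rw [hw23]
        exact Real.sqrt_sq (by linarith)
      refine ⟨by rw [hUw]; linarith, fun i hi hs => ?_⟩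
      rw [w0] at hs
      refine (hx.2 i hi hs).trans ?_
      have hr := GPts_rh_pos i
      apply le_of_sq_le_sq _ (norm_nonneg _)
      rw [GPts_sc_norm_sq, GPts_sc_norm_sq, w0, w1]
      apply div_le_div_of_nonneg_right _ (by positivity)
      nlinarith
    · have e0 : (y1 - x) 0 = 0 := by simp [hy1, v4]
      have e1 : (y1 - x) 1 = 0 := by simp [hy1, v4]
      have e2 : (y1 - x) 2 = (8 - Ur x) * a := by
        have : (y1 - x) 2 = 8 * a - x 2 := by simp [hy1, v4]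
        rw [this, hx2]
        ring
      have e3 : (y1 - x) 3 = (8 - Ur x) * b := by
        have : (y1 - x) 3 = 8 * b - x 3 := by simp [hy1, v4]
        rw [this, hx3]
        ring
      rw [e0, e1, e2, e3]
      have : (8 - Ur x) ^ 2 ≤ 64 := by nlinarith
      nlinarith
  have s2 : redist (UInf c0) (gInf c0) y1 y2 ≤ ENNReal.ofReal 20 := by
    refine key _ _ (fun t ht => GPts_good_of_Ur h h1 (hUr5 _ ?_)) (hnrm _ ?_)
    · have w2 : (y1 + t • (y2 - y1)) 2 = (1 - t) * (8 * a) := by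
        simp [hy1, hy2, v4]
        ring
      have w3 : (y1 + t • (y2 - y1)) 3 = (1 - t) * (8 * b) + t * (8 * σ) := by
        simp [hy1, hy2, v4]
        ring
      rw [w2, w3]
      have e1 : ((1 - t) * (8 * a)) ^ 2 + ((1 - t) * (8 * b) + t * (8 * σ)) ^ 2
          = 64 * ((1 - t) ^ 2 + t ^ 2 + 2 * ((1 - t) * t * (σ * b))) := by
        linear_combination 64 * (1 - t) ^ 2 * hab + 64 * t ^ 2 * hσ
      rw [e1]
      have e2 : 0 ≤ (1 - t) * t * (σ * b) :=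
        mul_nonneg (mul_nonneg (by linarith [ht.2]) ht.1) hσb
      nlinarith [sq_nonneg (1 - 2 * t)]
    · have e0 : (y2 - y1) 0 = 0 := by simp [hy1, hy2, v4]
      have e1 : (y2 - y1) 1 = 0 := by simp [hy1, hy2, v4]
      have e2 : (y2 - y1) 2 = -(8 * a) := by simp [hy1, hy2, v4]
      have e3 : (y2 - y1) 3 = 8 * σ - 8 * b := by simp [hy1, hy2, v4]
      rw [e0, e1, e2, e3]
      nlinarith
  have s3 : redist (UInf c0) (gInf c0) y2 y3 ≤ ENNReal.ofReal 20 := by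
    refine key _ _ (fun t ht => GPts_good_of_Ur h h1 (hUr5 _ ?_)) (hnrm _ ?_)
    · have w2 : (y2 + t • (y3 - y2)) 2 = t * 8 := by
        simp [hy2, hy3, v4]
      have w3 : (y2 + t • (y3 - y2)) 3 = (1 - t) * (8 * σ) := by
        simp [hy2, hy3, v4]
        ring
      rw [w2, w3]
      have e1 : (t * 8) ^ 2 + ((1 - t) * (8 * σ)) ^ 2 = 64 * (t ^ 2 + (1 - t) ^ 2) := by
        linear_combination 64 * (1 - t) ^ 2 * hσ
      rw [e1]
      nlinarith [sq_nonneg (1 - 2 * t)]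
    · have e0 : (y3 - y2) 0 = 0 := by simp [hy2, hy3, v4]
      have e1 : (y3 - y2) 1 = 0 := by simp [hy2, hy3, v4]
      have e2 : (y3 - y2) 2 = 8 := by simp [hy2, hy3, v4]
      have e3 : (y3 - y2) 3 = -(8 * σ) := by simp [hy2, hy3, v4]
      rw [e0, e1, e2, e3]
      nlinarith
  have s4 : redist (UInf c0) (gInf c0) y3 qB ≤ ENNReal.ofReal 20 := by
    refine key _ _ (fun t ht => GPts_good_of_Ur h h1 (hUr5 _ ?_)) (hnrm _ ?_)
    · have w2 : (y3 + t • (qB - y3)) 2 = 8 := by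
        simp [hy3, qB, v4]
      have w3 : (y3 + t • (qB - y3)) 3 = 0 := by
        simp [hy3, qB, v4]
      rw [w2, w3]
      norm_num
    · have e0 : (qB - y3) 0 = -x 0 := by simp [hy3, qB, v4]
      have e1 : (qB - y3) 1 = -x 1 := by simp [hy3, qB, v4]
      have e2 : (qB - y3) 2 = 0 := by simp [hy3, qB, v4]
      have e3 : (qB - y3) 3 = 0 := by simp [hy3, qB, v4]
      rw [e0, e1, e2, e3]
      nlinarith
  calc redist (UInf c0) (gInf c0) x qB
      ≤ redist (UInf c0) (gInf c0) x y1 + redist (UInf c0) (gInf c0) y1 qB :=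
        redist_triangle hmet _ _ _
    _ ≤ redist (UInf c0) (gInf c0) x y1 + (redist (UInf c0) (gInf c0) y1 y2 +
        redist (UInf c0) (gInf c0) y2 qB) := by gcongr; exact redist_triangle hmet _ _ _
    _ ≤ redist (UInf c0) (gInf c0) x y1 + (redist (UInf c0) (gInf c0) y1 y2 +
        (redist (UInf c0) (gInf c0) y2 y3 + redist (UInf c0) (gInf c0) y3 qB)) := by
        gcongr; exact redist_triangle hmet _ _ _
    _ ≤ ENNReal.ofReal 20 + (ENNReal.ofReal 20 + (ENNReal.ofReal 20 + ENNReal.ofReal 20)) :=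
        add_le_add s1 (add_le_add s2 (add_le_add s3 s4))
    _ ≤ ENNReal.ofReal 100 := by
        rw [← ENNReal.ofReal_add (by norm_num) (by norm_num),
          ← ENNReal.ofReal_add (by norm_num) (by norm_num),
          ← ENNReal.ofReal_add (by norm_num) (by norm_num)]
        exact ENNReal.ofReal_le_ofReal (by norm_num)

/-- the patch has finite diameter on bounded sets (path: radially out of the core, vertically, then around) -/
theorem redist_bdd {c0 : ℝ} (h : 0 < c0) (h1 : c0 ≤ 1) {x : EE 4} (hx : x ∈ UInf c0) (hx1 : ‖x‖ ≤ 2) :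
    redist (UInf c0) (gInf c0) qB x ≤ ENNReal.ofReal 200 := by
  have hmet := gInf_met h h1
  rw [redist_comm hmet]
  by_cases hg : x ∈ GPts_good c0
  · exact (GPts_good_bdd h h1 hg (by linarith)).trans (ENNReal.ofReal_le_ofReal (by norm_num))
  · have hg' : ∃ i, 1 ≤ i ∧ GPts_slab i (x 0) ∧ ‖sc i x‖ < epsh (phh c0 i) / 2 := by
      by_contra hcon
      push Not at hcon
      exact hg ⟨hx.1, hcon⟩
    obtain ⟨i, hi, hs, hn⟩ := hg'
    obtain ⟨y, hy1, hy2, hy3, hy4⟩ := GPts_out h h1 hi hx hs hn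
    have hyg := GPts_good_of_core hi hy2 hy1 h h1
    have hyn : ‖y‖ ≤ 3 := by
      have : ‖y‖ ≤ ‖y - x‖ + ‖x‖ := by
        have := norm_add_le (y - x) x
        rwa [sub_add_cancel] at this
      linarith
    calc redist (UInf c0) (gInf c0) x qB
        ≤ redist (UInf c0) (gInf c0) x y + redist (UInf c0) (gInf c0) y qB :=
          redist_triangle hmet _ _ _
      _ ≤ ENNReal.ofReal 1 + ENNReal.ofReal 100 :=
          add_le_add hy4 (GPts_good_bdd h h1 hyg hyn)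
      _ ≤ ENNReal.ofReal 200 := by
          rw [← ENNReal.ofReal_add (by norm_num) (by norm_num)]
          exact ENNReal.ofReal_le_ofReal (by norm_num)

theorem GPts_norm_le {i : ℕ} (hi : 1 ≤ i) {x : EE 4} (hx : ‖sc i x‖ < 1 / 2) : ‖x‖ ≤ 2 := by
  have hr := GPts_rh_pos i
  have h1 := GPts_xh_le hi
  have h2 : x = v4 (xh i) 0 0 0 + rh i • sc i x := by
    rw [GPts_smul_sub, add_sub_cancel]
  have h3 : ‖v4 (xh i) 0 0 0‖ ≤ 1 := by
    have h4 := VClass_normsq (v4 (xh i) 0 0 0)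
    have h5 : (v4 (xh i) 0 0 0) 0 ^ 2 + (v4 (xh i) 0 0 0) 1 ^ 2 + (v4 (xh i) 0 0 0) 2 ^ 2
        + (v4 (xh i) 0 0 0) 3 ^ 2 = xh i ^ 2 := by simp [v4]
    rw [h5] at h4
    have h6 := GPts_xh_pos i
    nlinarith [norm_nonneg (v4 (xh i) 0 0 0)]
  have h4 : ‖rh i • sc i x‖ ≤ 1 := by
    rw [norm_smul, Real.norm_eq_abs, abs_of_pos hr]
    have h5 := GPts_rh_le hi
    nlinarith [norm_nonneg (sc i x)]
  calc ‖x‖ = ‖v4 (xh i) 0 0 0 + rh i • sc i x‖ := by rw [← h2]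
    _ ≤ ‖v4 (xh i) 0 0 0‖ + ‖rh i • sc i x‖ := norm_add_le _ _
    _ ≤ 2 := by linarith

/-- different holes are separated -/
theorem GPts_far {i j : ℕ} (hij : i < j) {y : EE 4} (hy : ‖sc j y‖ < 1 / 2) : 1 ≤ ‖sc i y‖ := by
  have h3 := abs_le.1 (GPts_abs_le j y)
  have h4 : rh j = xh j / 4096 := rfl
  have h4' : rh i = xh i / 4096 := rfl
  have h5 : xh j ≤ xh i / 2 := by
    rw [← GPts_xh_succ]
    unfold xh
    exact pow_le_pow_of_le_one (by norm_num) (by norm_num) hij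
  have h6 := GPts_xh_pos i
  have h7 := GPts_xh_pos j
  have h8 := GPts_abs_le i y
  have hr := GPts_rh_pos i
  have h9 : y 0 - xh i ≤ -(xh i / 4) := by
    have h10 : rh j * ‖sc j y‖ ≤ xh j / 4096 := by
      rw [h4]
      nlinarith [norm_nonneg (sc j y)]
    linarith [h3.2]
  have h11 : xh i / 4 ≤ |y 0 - xh i| := by
    rw [le_abs]
    right
    linarith
  have h12 : rh i ≤ rh i * ‖sc i y‖ := by
    rw [h4'] at h8 ⊢
    linarith
  by_contra hcon
  rw [not_le] at hcon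
  nlinarith

/-- infinitely many points of `STop` in a bounded set -/
theorem infinite_STop {c0 : ℝ} (h : 0 < c0) (h1 : c0 ≤ 1) :
    ∃ A : Set (PInf h h1).Comp, A.Infinite ∧ Bornology.IsBounded A ∧ A ⊆ STop 4 (PInf h h1).Comp := by
  choose p hp hpd using fun i : ℕ => exists_pts h h1 (i := i + 1) (by omega)
  have hinj : Function.Injective p := by
    have key : ∀ i j : ℕ, i < j → p i ≠ p j := by
      intro i j hij heq
      have hr := GPts_rh_pos (i + 1)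
      obtain ⟨x, hx, hx1, hx2⟩ := hpd i (rh (i + 1) / 8) (by positivity)
      obtain ⟨y, hy, hy1, hy2⟩ := hpd j (rh (i + 1) / 8) (by positivity)
      have h2 := redist_sep h h1 (i := i + 1) (by omega) (x := x) (y := y) hx hy hx1.le
        (GPts_far (by omega) hy1)
      have h3 : redist (UInf c0) (gInf c0) x y ≤ ENNReal.ofReal (rh (i + 1) / 4) := by
        have h4 := Patch.edist_coe (PInf h h1) ⟨x, hx⟩ ⟨y, hy⟩
        have h5 : edist (((⟨x, hx⟩ : (PInf h h1).Pt)) : (PInf h h1).Comp)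
            (((⟨y, hy⟩ : (PInf h h1).Pt)) : (PInf h h1).Comp) ≤
            ENNReal.ofReal (rh (i + 1) / 8) + ENNReal.ofReal (rh (i + 1) / 8) := by
          refine (edist_triangle _ (p i) _).trans (add_le_add hx2 ?_)
          rw [edist_comm, heq]
          exact hy2
        rw [h4, ← ENNReal.ofReal_add (by positivity) (by positivity)] at h5
        refine h5.trans (ENNReal.ofReal_le_ofReal ?_)
        linarith
      have h4 := h2.trans h3
      rw [ENNReal.ofReal_le_ofReal_iff (by positivity)] at h4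
      linarith
    intro i j hij
    rcases lt_trichotomy i j with h2 | h2 | h2
    · exact absurd hij (key i j h2)
    · exact h2
    · exact absurd hij.symm (key j i h2)
  refine ⟨Set.range p, Set.infinite_range_of_injective hinj, ?_, ?_⟩
  · have hqB : qB ∈ (PInf h h1).U := by
      have h2 : qB ∈ GPts_good c0 := GPts_good_of_Ur h h1 (by
        unfold Ur qB
        have : (v4 0 0 8 0) 2 ^ 2 + (v4 0 0 8 0) 3 ^ 2 = (8 : ℝ) ^ 2 := by simp [v4]
        rw [this, Real.sqrt_sq (by norm_num)]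
        norm_num)
      exact (GPts_good_mem h h1 h2).1
    rw [Metric.isBounded_iff_subset_closedBall (((⟨qB, hqB⟩ : (PInf h h1).Pt)) : (PInf h h1).Comp)]
    refine ⟨201, ?_⟩
    rintro _ ⟨i, rfl⟩
    obtain ⟨x, hx, hx1, hx2⟩ := hpd i 1 one_pos
    have h2 := redist_bdd h h1 (x := x) hx (GPts_norm_le (by omega) hx1)
    have h4 := Patch.edist_coe (PInf h h1) ⟨qB, hqB⟩ ⟨x, hx⟩
    have h5 : edist (p i) (((⟨qB, hqB⟩ : (PInf h h1).Pt)) : (PInf h h1).Comp) ≤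
        ENNReal.ofReal 201 := by
      refine (edist_triangle _ (((⟨x, hx⟩ : (PInf h h1).Pt)) : (PInf h h1).Comp) _).trans ?_
      have h6 : edist (((⟨x, hx⟩ : (PInf h h1).Pt)) : (PInf h h1).Comp)
          (((⟨qB, hqB⟩ : (PInf h h1).Pt)) : (PInf h h1).Comp) ≤ ENNReal.ofReal 200 := by
        rw [edist_comm, h4]
        exact h2
      rw [edist_comm] at hx2
      refine (add_le_add hx2 h6).trans ?_
      rw [← ENNReal.ofReal_add (by norm_num) (by norm_num)]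
      exact ENNReal.ofReal_le_ofReal (by norm_num)
    rw [Metric.mem_closedBall, dist_edist]
    exact ENNReal.toReal_le_of_le_ofReal (by norm_num) h5
  · rintro _ ⟨i, rfl⟩
    exact hp i

end Pool.Agent.MP39e402
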