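import Pool.Agent.Lib.MP_39e402_gt.LAng
import Pool.Agent.Lib.MP_39e402_gt.VDefs

/-! # MP_39e402, module GTr: the transition maps `Qm`, `Th` and transfer of charts core -> hole.

`Qm ε` and `Th ε` are inverse to each other on `ℝ⁴ \ {0}`, smooth there (near the axis `2 ϑ(θ) = 2θ`, resp.
`2π`-symmetric on the other side, so `cos β = 2 (X/R)² - 1`, `sin β/Y = 2 X/R²`; and
`β = 2ϑ(θ)` is a diffeomorphism `(0,π) → (0,π)`), and preserve `{Ur = 0}`. -/

open Real Set Filter Topology MeasureTheory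
open scoped ContDiff

noncomputable section

namespace Pool.Agent.MP39e402

/-! ### elementary facts -/

private theorem sC_pos : 0 < sC := by
  unfold sC
  have h1 := isCoreC.T_gt
  have h2 := isCoreC.t1_pos
  positivity

private theorem nsq (p : EE 4) : ‖p‖ ^ 2 = p 0 ^ 2 + p 1 ^ 2 + p 2 ^ 2 + p 3 ^ 2 := by
  rw [EuclideanSpace.norm_sq_eq, Fin.sum_univ_four]
  simp only [Real.norm_eq_abs, sq_abs]

private theorem Yr_sq (p : EE 4) : Yr p ^ 2 = p 1 ^ 2 + p 2 ^ 2 + p 3 ^ 2 := by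
  unfold Yr
  rw [Real.sq_sqrt (by positivity)]

private theorem Ur_sq (p : EE 4) : Ur p ^ 2 = p 2 ^ 2 + p 3 ^ 2 := by
  unfold Ur
  rw [Real.sq_sqrt (by positivity)]

private theorem Yr_nonneg (p : EE 4) : 0 ≤ Yr p := Real.sqrt_nonneg _

private theorem Ur_nonneg (p : EE 4) : 0 ≤ Ur p := Real.sqrt_nonneg _

private theorem rad_eq (p : EE 4) : rad (p 0) (Yr p) = ‖p‖ := by
  unfold rad
  rw [Yr_sq, EuclideanSpace.norm_eq, Fin.sum_univ_four]
  simp only [Real.norm_eq_abs, sq_abs]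
  congr 1
  ring

private theorem npos {p : EE 4} (hp : p ≠ 0) : 0 < ‖p‖ := norm_pos_iff.2 hp

private theorem abs_p0_le (p : EE 4) : |p 0| ≤ ‖p‖ := by
  refine abs_le_of_sq_le_sq ?_ (norm_nonneg p)
  rw [nsq]
  nlinarith [sq_nonneg (p 1), sq_nonneg (p 2), sq_nonneg (p 3)]

private theorem div_mem {p : EE 4} (hp : p ≠ 0) : -1 ≤ p 0 / ‖p‖ ∧ p 0 / ‖p‖ ≤ 1 := by
  have h := abs_le.1 (abs_p0_le p)
  have hn := npos hp
  constructor
  · rw [le_div_iff₀ hn]; linarith [h.1]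
  · rw [div_le_one hn]; exact h.2

private theorem cos_ang {p : EE 4} (hp : p ≠ 0) : cos (ang (p 0) (Yr p)) = p 0 / ‖p‖ := by
  unfold ang
  rw [rad_eq]
  exact Real.cos_arccos (div_mem hp).1 (div_mem hp).2

private theorem sin_ang {p : EE 4} (hp : p ≠ 0) : sin (ang (p 0) (Yr p)) = Yr p / ‖p‖ := by
  unfold ang
  rw [rad_eq, Real.sin_arccos]
  have hn := npos hp
  rw [show 1 - (p 0 / ‖p‖) ^ 2 = (Yr p / ‖p‖) ^ 2 by
    rw [div_pow, div_pow, Yr_sq, eq_div_iff (by positivity), sub_mul, div_mul_cancel₀ _ (by positivity),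
      nsq]
    ring]
  exact Real.sqrt_sq (div_nonneg (Yr_nonneg p) hn.le)

private theorem ang_mem (p : EE 4) : 0 ≤ ang (p 0) (Yr p) ∧ ang (p 0) (Yr p) ≤ π :=
  ⟨Real.arccos_nonneg _, Real.arccos_le_pi _⟩

private theorem Yr_zero_iff (p : EE 4) : Yr p = 0 ↔ p 1 = 0 ∧ p 2 = 0 ∧ p 3 = 0 := by
  constructor
  · intro h
    have h2 := Yr_sq p
    rw [h] at h2
    refine ⟨?_, ?_, ?_⟩ <;> nlinarith [sq_nonneg (p 1), sq_nonneg (p 2), sq_nonneg (p 3)]
  · rintro ⟨h1, h2, h3⟩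
    have h := Yr_sq p
    rw [h1, h2, h3] at h
    have : Yr p ^ 2 = 0 := by rw [h]; ring
    exact pow_eq_zero_iff (two_ne_zero) |>.1 this

private theorem ang_pos {p : EE 4} (hp : p ≠ 0) (hY : Yr p ≠ 0) :
    0 < ang (p 0) (Yr p) ∧ ang (p 0) (Yr p) < π := by
  have hY' : 0 < Yr p := lt_of_le_of_ne (Yr_nonneg p) (Ne.symm hY)
  have hs : 0 < sin (ang (p 0) (Yr p)) := by rw [sin_ang hp]; exact div_pos hY' (npos hp)
  obtain ⟨h1, h2⟩ := ang_mem p
  constructor
  · refine lt_of_le_of_ne h1 fun h => ?_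
    rw [← h, sin_zero] at hs
    exact lt_irrefl _ hs
  · refine lt_of_le_of_ne h2 fun h => ?_
    rw [h, sin_pi] at hs
    exact lt_irrefl _ hs

private theorem ang_end {p : EE 4} (hp : p ≠ 0) (hY : Yr p = 0) :
    ang (p 0) (Yr p) = 0 ∨ ang (p 0) (Yr p) = π := by
  have hs : sin (ang (p 0) (Yr p)) = 0 := by rw [sin_ang hp, hY, zero_div]
  obtain ⟨h1, h2⟩ := ang_mem p
  by_contra hcon
  push Not at hcon
  have := Real.sin_pos_of_pos_of_lt_pi (lt_of_le_of_ne h1 (Ne.symm hcon.1))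
    (lt_of_le_of_ne h2 hcon.2)
  rw [hs] at this
  exact lt_irrefl _ this

/-! ### the two angle functions -/

/-- `β = 2 ϑ(θ)` -/
private def be (t : ℝ) : ℝ := 2 * vth t
/-- `γ = ϑ⁻¹(β/2)` -/
private def ga (b : ℝ) : ℝ := vthI (b / 2)

private theorem be_ga (b : ℝ) : be (ga b) = b := by
  unfold be ga
  rw [vth_vthI]
  ring

private theorem ga_be (t : ℝ) : ga (be t) = t := by
  unfold be ga
  rw [mul_div_cancel_left₀ _ (two_ne_zero), vthI_vth]

private theorem be_zero : be 0 = 0 := by unfold be; rw [vth_zero, mul_zero]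

private theorem be_pi : be π = π := by unfold be; rw [vth_pi]; ring

private theorem ga_zero : ga 0 = 0 := by
  conv_lhs => rw [← be_zero]
  rw [ga_be]

private theorem ga_pi : ga π = π := by
  conv_lhs => rw [← be_pi]
  rw [ga_be]

private theorem be_mem {t : ℝ} (h0 : 0 < t) (h1 : t < π) : 0 < be t ∧ be t < π := by
  obtain ⟨h2, h3⟩ := vth_mem h0 h1
  unfold be
  constructor <;> linarith

private theorem ga_mem {b : ℝ} (h0 : 0 < b) (h1 : b < π) : 0 < ga b ∧ ga b < π := by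
  unfold ga
  exact vthI_mem (by linarith) (by linarith)

/-- the common form of `Qm` and `Th` -/
private def Pl (r β : ℝ) (p : EE 4) : EE 4 :=
  r • v4 (cos β) (sin β * p 1 / Yr p) (sin β * p 2 / Yr p) (sin β * p 3 / Yr p)

private theorem Qm_eq (ε : ℝ) (p : EE 4) :
    Qm ε p = Pl (‖p‖ / (ε * sC)) (be (ang (p 0) (Yr p))) p := rfl

private theorem Th_eq (ε : ℝ) (x : EE 4) :
    Th ε x = Pl (ε * sC * ‖x‖) (ga (ang (x 0) (Yr x))) x := rfl

private theorem Pl_0 (r β : ℝ) (p : EE 4) : (Pl r β p) 0 = r * cos β := by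
  simp [Pl, v4]
private theorem Pl_1 (r β : ℝ) (p : EE 4) : (Pl r β p) 1 = r * (sin β * p 1 / Yr p) := by
  simp [Pl, v4]
private theorem Pl_2 (r β : ℝ) (p : EE 4) : (Pl r β p) 2 = r * (sin β * p 2 / Yr p) := by
  simp [Pl, v4]
private theorem Pl_3 (r β : ℝ) (p : EE 4) : (Pl r β p) 3 = r * (sin β * p 3 / Yr p) := by
  simp [Pl, v4]

/-- admissible pairs -/
private def Ok (β : ℝ) (p : EE 4) : Prop :=
  (Yr p ≠ 0 ∧ 0 < β ∧ β < π) ∨ (Yr p = 0 ∧ (β = 0 ∨ β = π))

private theorem Ok.mem {β : ℝ} {p : EE 4} (h : Ok β p) : 0 ≤ β ∧ β ≤ π := by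
  rcases h with ⟨_, h1, h2⟩ | ⟨_, h | h⟩
  · exact ⟨h1.le, h2.le⟩
  · rw [h]; exact ⟨le_rfl, pi_pos.le⟩
  · rw [h]; exact ⟨pi_pos.le, le_rfl⟩

private theorem Ok.sin_nonneg {β : ℝ} {p : EE 4} (h : Ok β p) : 0 ≤ sin β :=
  Real.sin_nonneg_of_nonneg_of_le_pi h.mem.1 h.mem.2

private theorem Ok.sin_zero {β : ℝ} {p : EE 4} (h : Ok β p) (hY : Yr p = 0) : sin β = 0 := by
  rcases h with ⟨h0, _⟩ | ⟨_, h | h⟩
  · exact absurd hY h0
  · rw [h, Real.sin_zero]
  · rw [h, Real.sin_pi]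

private theorem Ok.sin_pos {β : ℝ} {p : EE 4} (h : Ok β p) (hY : Yr p ≠ 0) : 0 < sin β := by
  rcases h with ⟨_, h1, h2⟩ | ⟨h0, _⟩
  · exact Real.sin_pos_of_pos_of_lt_pi h1 h2
  · exact absurd h0 hY

private theorem ok_ang {p : EE 4} (hp : p ≠ 0) : Ok (ang (p 0) (Yr p)) p := by
  by_cases hY : Yr p = 0
  · exact Or.inr ⟨hY, ang_end hp hY⟩
  · exact Or.inl ⟨hY, ang_pos hp hY⟩

private theorem ok_be {t : ℝ} {p : EE 4} (h : Ok t p) : Ok (be t) p := by
  rcases h with ⟨h0, h1, h2⟩ | ⟨h0, h | h⟩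
  · exact Or.inl ⟨h0, be_mem h1 h2⟩
  · exact Or.inr ⟨h0, Or.inl (by rw [h, be_zero])⟩
  · exact Or.inr ⟨h0, Or.inr (by rw [h, be_pi])⟩

private theorem ok_ga {t : ℝ} {p : EE 4} (h : Ok t p) : Ok (ga t) p := by
  rcases h with ⟨h0, h1, h2⟩ | ⟨h0, h | h⟩
  · exact Or.inl ⟨h0, ga_mem h1 h2⟩
  · exact Or.inr ⟨h0, Or.inl (by rw [h, ga_zero])⟩
  · exact Or.inr ⟨h0, Or.inr (by rw [h, ga_pi])⟩

private theorem Pl_Yr {r β : ℝ} {p : EE 4} (hr : 0 < r) (h : Ok β p) :
    Yr (Pl r β p) = r * sin β := by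
  have h1 : Yr (Pl r β p) ^ 2 = (r * sin β) ^ 2 := by
    rw [Yr_sq, Pl_1, Pl_2, Pl_3]
    by_cases hY : Yr p = 0
    · rw [h.sin_zero hY]; ring
    · have h2 := Yr_sq p
      have : (r * (sin β * p 1 / Yr p)) ^ 2 + (r * (sin β * p 2 / Yr p)) ^ 2 +
          (r * (sin β * p 3 / Yr p)) ^ 2 =
          (r * sin β) ^ 2 * ((p 1 ^ 2 + p 2 ^ 2 + p 3 ^ 2) / Yr p ^ 2) := by
        field_simp
      rw [this, ← h2, div_self (pow_ne_zero 2 hY), mul_one]
  have h3 : 0 ≤ r * sin β := mul_nonneg hr.le h.sin_nonneg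
  calc Yr (Pl r β p) = √(Yr (Pl r β p) ^ 2) := (Real.sqrt_sq (Yr_nonneg _)).symm
    _ = √((r * sin β) ^ 2) := by rw [h1]
    _ = r * sin β := Real.sqrt_sq h3

private theorem Pl_norm {r β : ℝ} {p : EE 4} (hr : 0 < r) (h : Ok β p) : ‖Pl r β p‖ = r := by
  have h1 : ‖Pl r β p‖ ^ 2 = r ^ 2 := by
    have h2 := Yr_sq (Pl r β p)
    rw [nsq, add_assoc, add_assoc, ← add_assoc (Pl r β p 1 ^ 2), ← h2, Pl_Yr hr h, Pl_0]
    have := Real.sin_sq_add_cos_sq β
    linear_combination r ^ 2 * this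
  calc ‖Pl r β p‖ = √(‖Pl r β p‖ ^ 2) := (Real.sqrt_sq (norm_nonneg _)).symm
    _ = √(r ^ 2) := by rw [h1]
    _ = r := Real.sqrt_sq hr.le

private theorem Pl_Ur {r β : ℝ} {p : EE 4} (hr : 0 < r) (h : Ok β p) :
    Ur (Pl r β p) = 0 ↔ Ur p = 0 := by
  have hU : ∀ q : EE 4, Ur q = 0 ↔ q 2 = 0 ∧ q 3 = 0 := by
    intro q
    have h2 := Ur_sq q
    constructor
    · intro h0
      rw [h0] at h2
      constructor <;> nlinarith [sq_nonneg (q 2), sq_nonneg (q 3)]
    · rintro ⟨h3, h4⟩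
      rw [h3, h4] at h2
      have : Ur q ^ 2 = 0 := by rw [h2]; ring
      exact pow_eq_zero_iff (two_ne_zero) |>.1 this
  rw [hU, hU, Pl_2, Pl_3]
  by_cases hY : Yr p = 0
  · have h3 := (Yr_zero_iff p).1 hY
    rw [h3.2.1, h3.2.2]
    simp
  · have hs := h.sin_pos hY
    constructor
    · rintro ⟨h2, h3⟩
      constructor
      · by_contra hc
        have : r * (sin β * p 2 / Yr p) ≠ 0 := by positivity
        exact this h2
      · by_contra hc
        have : r * (sin β * p 3 / Yr p) ≠ 0 := by positivity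
        exact this h3
    · rintro ⟨h2, h3⟩
      rw [h2, h3]
      simp

private theorem Pl_ne {r β : ℝ} {p : EE 4} (hr : 0 < r) (h : Ok β p) : Pl r β p ≠ 0 := by
  intro h0
  have := Pl_norm hr h
  rw [h0, norm_zero] at this
  exact hr.ne this

private theorem Pl_ang {r β : ℝ} {p : EE 4} (hr : 0 < r) (h : Ok β p) :
    ang ((Pl r β p) 0) (Yr (Pl r β p)) = β := by
  unfold ang
  rw [rad_eq, Pl_norm hr h, Pl_0, mul_div_cancel_left₀ _ hr.ne']
  exact Real.arccos_cos h.mem.1 h.mem.2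

private theorem Pl_self {p : EE 4} (hp : p ≠ 0) : Pl ‖p‖ (ang (p 0) (Yr p)) p = p := by
  have hn := npos hp
  have key : ∀ i : EE 4 → ℝ, (∀ h : Yr p = 0, i p = 0) →
      ‖p‖ * (sin (ang (p 0) (Yr p)) * i p / Yr p) = i p := by
    intro i hi
    rw [sin_ang hp]
    by_cases hY : Yr p = 0
    · rw [hi hY]; ring
    · field_simp
  ext i
  fin_cases i
  · show (Pl ‖p‖ (ang (p 0) (Yr p)) p) 0 = p 0
    rw [Pl_0, cos_ang hp, mul_div_cancel₀ _ hn.ne']
  · show (Pl ‖p‖ (ang (p 0) (Yr p)) p) 1 = p 1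
    rw [Pl_1]
    exact key (fun p => p 1) fun h => ((Yr_zero_iff p).1 h).1
  · show (Pl ‖p‖ (ang (p 0) (Yr p)) p) 2 = p 2
    rw [Pl_2]
    exact key (fun p => p 2) fun h => ((Yr_zero_iff p).1 h).2.1
  · show (Pl ‖p‖ (ang (p 0) (Yr p)) p) 3 = p 3
    rw [Pl_3]
    exact key (fun p => p 3) fun h => ((Yr_zero_iff p).1 h).2.2

private theorem Pl_comp {r s β γ : ℝ} {p : EE 4} (hr : 0 < r) (h : Ok β p) (h' : Ok γ p) :
    Pl s γ (Pl r β p) = Pl s γ p := by
  have hY2 := Pl_Yr hr h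
  by_cases hY : Yr p = 0
  · have h1 := h'.sin_zero hY
    unfold Pl
    rw [h1]
    simp
  · have hs := h.sin_pos hY
    have key : ∀ a : ℝ, sin γ * (r * (sin β * a / Yr p)) / (r * sin β) = sin γ * a / Yr p := by
      intro a
      field_simp
    ext i
    fin_cases i
    · show (Pl s γ (Pl r β p)) 0 = (Pl s γ p) 0
      rw [Pl_0, Pl_0]
    · show (Pl s γ (Pl r β p)) 1 = (Pl s γ p) 1
      rw [Pl_1, hY2, Pl_1, Pl_1, key]
    · show (Pl s γ (Pl r β p)) 2 = (Pl s γ p) 2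
      rw [Pl_2, hY2, Pl_2, Pl_2, key]
    · show (Pl s γ (Pl r β p)) 3 = (Pl s γ p) 3
      rw [Pl_3, hY2, Pl_3, Pl_3, key]

/-! ### algebra of the two maps -/

theorem Qm_norm {ε : ℝ} (h : 0 < ε) {p : EE 4} (hp : p ≠ 0) : ‖Qm ε p‖ = ‖p‖ / (ε * sC) := by
  have hs := sC_pos
  have hn := npos hp
  rw [Qm_eq, Pl_norm (by positivity) (ok_be (ok_ang hp))]

theorem Th_norm {ε : ℝ} (h : 0 < ε) {x : EE 4} (hx : x ≠ 0) : ‖Th ε x‖ = ε * sC * ‖x‖ := by
  have hs := sC_pos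
  have hn := npos hx
  rw [Th_eq, Pl_norm (by positivity) (ok_ga (ok_ang hx))]

theorem Qm_Th {ε : ℝ} (h : 0 < ε) {x : EE 4} (hx : x ≠ 0) : Qm ε (Th ε x) = x := by
  have hs := sC_pos
  have hn := npos hx
  have hok := ok_ga (ok_ang hx)
  have hr : 0 < ε * sC * ‖x‖ := by positivity
  rw [Qm_eq, Th_norm h hx]
  rw [Th_eq, Pl_ang hr hok, be_ga, mul_div_cancel_left₀ _ (by positivity),
    Pl_comp hr hok (ok_ang hx), Pl_self hx]

theorem Th_Qm {ε : ℝ} (h : 0 < ε) {p : EE 4} (hp : p ≠ 0) : Th ε (Qm ε p) = p := by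
  have hs := sC_pos
  have hn := npos hp
  have hok := ok_be (ok_ang hp)
  have hr : 0 < ‖p‖ / (ε * sC) := by positivity
  rw [Th_eq, Qm_norm h hp]
  rw [Qm_eq, Pl_ang hr hok, ga_be, mul_div_cancel₀ _ (by positivity),
    Pl_comp hr hok (ok_ang hp), Pl_self hp]

theorem Qm_Ur {ε : ℝ} (h : 0 < ε) {p : EE 4} (hp : p ≠ 0) : Ur (Qm ε p) = 0 ↔ Ur p = 0 := by
  have hs := sC_pos
  have hn := npos hp
  rw [Qm_eq]
  exact Pl_Ur (by positivity) (ok_be (ok_ang hp))

/-! ### smoothness -/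

private theorem norm_cda {p : EE 4} (hp : p ≠ 0) : ContDiffAt ℝ ∞ (fun q : EE 4 => ‖q‖) p :=
  contDiffAt_norm ℝ hp

private theorem co_cda (i : Fin 4) (p : EE 4) : ContDiffAt ℝ ∞ (fun q : EE 4 => q i) p := by
  fun_prop

private theorem c_cda {p : EE 4} (hp : p ≠ 0) : ContDiffAt ℝ ∞ (fun q : EE 4 => q 0 / ‖q‖) p :=
  (co_cda 0 p).div (norm_cda hp) (npos hp).ne'

private theorem Yr_cda {p : EE 4} (hY : Yr p ≠ 0) : ContDiffAt ℝ ∞ Yr p := by
  unfold Yr at hY ⊢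
  refine ContDiffAt.sqrt ?_ (fun h => hY (by rw [h, Real.sqrt_zero]))
  fun_prop

private theorem v4_cda {a b c d : EE 4 → ℝ} {p : EE 4} (ha : ContDiffAt ℝ ∞ a p)
    (hb : ContDiffAt ℝ ∞ b p) (hc : ContDiffAt ℝ ∞ c p) (hd : ContDiffAt ℝ ∞ d p) :
    ContDiffAt ℝ ∞ (fun q => v4 (a q) (b q) (c q) (d q)) p := by
  rw [contDiffAt_euclidean]
  intro i
  fin_cases i
  · exact ha
  · exact hb
  · exact hc
  · exact hd

private theorem abs_c_lt {p : EE 4} (hp : p ≠ 0) (hY : Yr p ≠ 0) :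
    p 0 / ‖p‖ ≠ -1 ∧ p 0 / ‖p‖ ≠ 1 := by
  have h := ang_pos hp hY
  have hc := cos_ang hp
  constructor
  · intro h1
    rw [h1] at hc
    have := Real.arccos_cos h.1.le h.2.le
    rw [hc, Real.arccos_neg_one] at this
    exact h.2.ne this.symm
  · intro h1
    rw [h1] at hc
    have := Real.arccos_cos h.1.le h.2.le
    rw [hc, Real.arccos_one] at this
    exact h.1.ne this

private theorem ang_eq (p : EE 4) : ang (p 0) (Yr p) = arccos (p 0 / ‖p‖) := by
  unfold ang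
  rw [rad_eq]

private theorem ang_cda {p : EE 4} (hp : p ≠ 0) (hY : Yr p ≠ 0) :
    ContDiffAt ℝ ∞ (fun q : EE 4 => ang (q 0) (Yr q)) p := by
  have h := abs_c_lt hp hY
  have : (fun q : EE 4 => ang (q 0) (Yr q)) = fun q => arccos (q 0 / ‖q‖) := funext ang_eq
  rw [this]
  exact ContDiffAt.comp (g := arccos) p (Real.contDiffAt_arccos h.1 h.2) (c_cda hp)

private theorem Pl_cda {r β : EE 4 → ℝ} {p : EE 4} (hY : Yr p ≠ 0)
    (hr : ContDiffAt ℝ ∞ r p) (hb : ContDiffAt ℝ ∞ β p) :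
    ContDiffAt ℝ ∞ (fun q => Pl (r q) (β q) q) p := by
  unfold Pl
  refine hr.smul (v4_cda hb.cos ?_ ?_ ?_)
  · exact (hb.sin.mul (co_cda 1 p)).div (Yr_cda hY) hY
  · exact (hb.sin.mul (co_cda 2 p)).div (Yr_cda hY) hY
  · exact (hb.sin.mul (co_cda 3 p)).div (Yr_cda hY) hY

private theorem ang_cont {p : EE 4} (hp : p ≠ 0) :
    ContinuousAt (fun q : EE 4 => ang (q 0) (Yr q)) p := by
  have : (fun q : EE 4 => ang (q 0) (Yr q)) = fun q => arccos (q 0 / ‖q‖) := funext ang_eq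
  rw [this]
  exact Real.continuous_arccos.continuousAt.comp (c_cda hp).continuousAt

/-- near a point of the axis: `(cos β, sin β/Y)` are smooth -/
private theorem Pl_axis {r β C S : EE 4 → ℝ} {p : EE 4}
    (hr : ContDiffAt ℝ ∞ r p) (hC : ContDiffAt ℝ ∞ C p) (hS : ContDiffAt ℝ ∞ S p)
    (hc : ∀ᶠ q in 𝓝 p, cos (β q) = C q) (hs : ∀ᶠ q in 𝓝 p, sin (β q) = S q * Yr q) :
    ContDiffAt ℝ ∞ (fun q => Pl (r q) (β q) q) p := by
  have hbase : ContDiffAt ℝ ∞ (fun q : EE 4 => r q • v4 (C q) (S q * q 1) (S q * q 2) (S q * q 3)) p :=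
    hr.smul (v4_cda hC (hS.mul (co_cda 1 p)) (hS.mul (co_cda 2 p)) (hS.mul (co_cda 3 p)))
  refine hbase.congr_of_eventuallyEq ?_
  filter_upwards [hc, hs] with q h1 h2
  have key : ∀ i : EE 4 → ℝ, (∀ h : Yr q = 0, i q = 0) → sin (β q) * i q / Yr q = S q * i q := by
    intro i hi
    rw [h2]
    by_cases hY : Yr q = 0
    · rw [hi hY]; ring
    · field_simp
  unfold Pl
  rw [h1, key (fun p => p 1) fun h => ((Yr_zero_iff q).1 h).1,
    key (fun p => p 2) fun h => ((Yr_zero_iff q).1 h).2.1,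
    key (fun p => p 3) fun h => ((Yr_zero_iff q).1 h).2.2]

private theorem near_axis {p : EE 4} (hp : p ≠ 0) (hY : Yr p = 0) :
    (∀ᶠ q in 𝓝 p, q ≠ 0 ∧ ang (q 0) (Yr q) < π / 40) ∧ 0 < p 0 ∧ p 0 / ‖p‖ = 1 ∨
    (∀ᶠ q in 𝓝 p, q ≠ 0 ∧ π - π / 40 < ang (q 0) (Yr q)) ∧ p 0 < 0 ∧ p 0 / ‖p‖ = -1 := by
  have hne : ∀ᶠ q in 𝓝 p, q ≠ 0 := isOpen_ne.mem_nhds hp
  have hpi := pi_pos
  rcases ang_end hp hY with h | h
  · left
    have hc := cos_ang hp
    rw [h, cos_zero] at hc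
    refine ⟨hne.and ?_, ?_, hc.symm⟩
    · have := (ang_cont hp).eventually_lt continuousAt_const
        (show ang (p 0) (Yr p) < π / 40 by rw [h]; positivity)
      exact this
    · have := npos hp
      rw [eq_comm, div_eq_one_iff_eq this.ne'] at hc
      rw [hc]; exact this
  · right
    have hc := cos_ang hp
    rw [h, cos_pi] at hc
    refine ⟨hne.and ?_, ?_, hc.symm⟩
    · have := continuousAt_const.eventually_lt (ang_cont hp)
        (show π - π / 40 < ang (p 0) (Yr p) by rw [h]; linarith)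
      exact this
    · have := npos hp
      rw [eq_comm, div_eq_iff this.ne'] at hc
      rw [hc]; linarith

theorem Qm_contDiffOn {ε : ℝ} (h : 0 < ε) : ContDiffOn ℝ ∞ (Qm ε) {0}ᶜ := by
  intro p hp
  refine ContDiffAt.contDiffWithinAt ?_
  have hp0 : p ≠ 0 := hp
  have hs := sC_pos
  have hn := npos hp0
  have hr : ContDiffAt ℝ ∞ (fun q : EE 4 => ‖q‖ / (ε * sC)) p := (norm_cda hp0).div_const _
  have hQ : Qm ε = fun q => Pl (‖q‖ / (ε * sC)) (be (ang (q 0) (Yr q))) q := funext (Qm_eq ε)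
  rw [hQ]
  by_cases hY : Yr p = 0
  · rcases near_axis hp0 hY with ⟨hev, -, -⟩ | ⟨hev, -, -⟩
    · have e1 : ∀ᶠ q in 𝓝 p, be (ang (q 0) (Yr q)) = 2 * ang (q 0) (Yr q) := by
        filter_upwards [hev] with q hq
        unfold be
        rw [vth_left hq.2.le]
      refine Pl_axis hr (C := fun q => 2 * (q 0 / ‖q‖) ^ 2 - 1)
        (S := fun q => 2 * (q 0 / ‖q‖) / ‖q‖) ?_ ?_ ?_ ?_
      · exact (contDiffAt_const.mul ((c_cda hp0).pow 2)).sub contDiffAt_const
      · exact (contDiffAt_const.mul (c_cda hp0)).div (norm_cda hp0) hn.ne'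
      · filter_upwards [hev, e1] with q hq h1
        rw [h1, Real.cos_two_mul, cos_ang hq.1]
      · filter_upwards [hev, e1] with q hq h1
        rw [h1, Real.sin_two_mul, cos_ang hq.1, sin_ang hq.1]
        ring
    · have e1 : ∀ᶠ q in 𝓝 p, be (ang (q 0) (Yr q)) = 2 * ang (q 0) (Yr q) - π := by
        filter_upwards [hev] with q hq
        unfold be
        rw [vth_right hq.2.le]
        ring
      refine Pl_axis hr (C := fun q => -(2 * (q 0 / ‖q‖) ^ 2 - 1))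
        (S := fun q => -(2 * (q 0 / ‖q‖) / ‖q‖)) ?_ ?_ ?_ ?_
      · exact ((contDiffAt_const.mul ((c_cda hp0).pow 2)).sub contDiffAt_const).neg
      · exact ((contDiffAt_const.mul (c_cda hp0)).div (norm_cda hp0) hn.ne').neg
      · filter_upwards [hev, e1] with q hq h1
        rw [h1, Real.cos_sub_pi, Real.cos_two_mul, cos_ang hq.1]
      · filter_upwards [hev, e1] with q hq h1
        rw [h1, Real.sin_sub_pi, Real.sin_two_mul, cos_ang hq.1, sin_ang hq.1]
        ring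
  · refine Pl_cda hY hr ?_
    unfold be
    exact contDiffAt_const.mul (vth_contDiff.contDiffAt.comp p (ang_cda hp0 hY))

private theorem half_key {s c R Y : ℝ} (hc : 0 < c) (hR : 0 < R) (h3 : Y = 2 * s * c * R) :
    s = 1 / (2 * R * c) * Y := by
  rw [h3]
  field_simp

private theorem vthI_left {t : ℝ} (h : t ≤ π / 40) : vthI t = t := by
  conv_lhs => rw [← vth_left h]
  rw [vthI_vth]

theorem Th_contDiffOn {ε : ℝ} (h : 0 < ε) : ContDiffOn ℝ ∞ (Th ε) {0}ᶜ := by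
  intro p hp
  refine ContDiffAt.contDiffWithinAt ?_
  have hp0 : p ≠ 0 := hp
  have hs := sC_pos
  have hn := npos hp0
  have hpi := pi_pos
  have hr : ContDiffAt ℝ ∞ (fun q : EE 4 => ε * sC * ‖q‖) p := contDiffAt_const.mul (norm_cda hp0)
  have hT : Th ε = fun q => Pl (ε * sC * ‖q‖) (ga (ang (q 0) (Yr q))) q := funext (Th_eq ε)
  rw [hT]
  by_cases hY : Yr p = 0
  · rcases near_axis hp0 hY with ⟨hev, hx, hx1⟩ | ⟨hev, hx, hx1⟩
    · have e1 : ∀ᶠ q in 𝓝 p, ga (ang (q 0) (Yr q)) = ang (q 0) (Yr q) / 2 := by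
        filter_upwards [hev] with q hq
        unfold ga
        refine vthI_left ?_
        have := (ang_mem q).1
        linarith [hq.2]
      have hC : ContDiffAt ℝ ∞ (fun q : EE 4 => √((1 + q 0 / ‖q‖) / 2)) p := by
        refine ContDiffAt.sqrt ((contDiffAt_const.add (c_cda hp0)).div_const 2) ?_
        rw [hx1]; norm_num
      have e2 : ∀ᶠ q : EE 4 in 𝓝 p, cos (ang (q 0) (Yr q) / 2) = √((1 + q 0 / ‖q‖) / 2) := by
        filter_upwards [hev] with q hq
        have := ang_mem q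
        rw [Real.cos_half (by linarith [this.1]) this.2, cos_ang hq.1]
      refine Pl_axis hr (C := fun q => √((1 + q 0 / ‖q‖) / 2))
        (S := fun q => 1 / (2 * ‖q‖ * √((1 + q 0 / ‖q‖) / 2))) hC ?_ ?_ ?_
      · refine contDiffAt_const.div ((contDiffAt_const.mul (norm_cda hp0)).mul hC) ?_
        rw [hx1]
        norm_num
        exact hp0
      · filter_upwards [e1, e2] with q h1 h2
        rw [h1, h2]
      · filter_upwards [hev, e1, e2] with q hq h1 h2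
        have h3 : sin (ang (q 0) (Yr q)) =
            2 * sin (ang (q 0) (Yr q) / 2) * cos (ang (q 0) (Yr q) / 2) := by
          rw [← Real.sin_two_mul]
          congr 1
          ring
        rw [sin_ang hq.1] at h3
        have hqn := npos hq.1
        have h4 : 0 < cos (ang (q 0) (Yr q) / 2) := by
          have := ang_mem q
          refine Real.cos_pos_of_mem_Ioo ⟨by linarith [this.1], ?_⟩
          linarith [hq.2]
        rw [h1, ← h2]
        rw [div_eq_iff hqn.ne'] at h3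
        exact half_key h4 hqn h3
    · have e1 : ∀ᶠ q in 𝓝 p, ga (ang (q 0) (Yr q)) = π / 2 + ang (q 0) (Yr q) / 2 := by
        filter_upwards [hev] with q hq
        unfold ga
        have h1 := vthI_symm (π / 2 - ang (q 0) (Yr q) / 2)
        rw [show π / 2 - (π / 2 - ang (q 0) (Yr q) / 2) = ang (q 0) (Yr q) / 2 by ring] at h1
        rw [h1, vthI_left (by linarith [hq.2])]
        ring
      have hC : ContDiffAt ℝ ∞ (fun q : EE 4 => √((1 - q 0 / ‖q‖) / 2)) p := by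
        refine ContDiffAt.sqrt ((contDiffAt_const.sub (c_cda hp0)).div_const 2) ?_
        rw [hx1]; norm_num
      have e2 : ∀ᶠ q : EE 4 in 𝓝 p, sin (ang (q 0) (Yr q) / 2) = √((1 - q 0 / ‖q‖) / 2) := by
        filter_upwards [hev] with q hq
        have := ang_mem q
        rw [Real.sin_half_eq_sqrt this.1 (by linarith [this.2]), cos_ang hq.1]
      refine Pl_axis hr (C := fun q => -√((1 - q 0 / ‖q‖) / 2))
        (S := fun q => 1 / (2 * ‖q‖ * √((1 - q 0 / ‖q‖) / 2))) hC.neg ?_ ?_ ?_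
      · refine contDiffAt_const.div ((contDiffAt_const.mul (norm_cda hp0)).mul hC) ?_
        rw [hx1]
        norm_num
        exact hp0
      · filter_upwards [e1, e2] with q h1 h2
        rw [h1, ← h2, add_comm, Real.cos_add_pi_div_two]
      · filter_upwards [hev, e1, e2] with q hq h1 h2
        have h3 : sin (ang (q 0) (Yr q)) =
            2 * sin (ang (q 0) (Yr q) / 2) * cos (ang (q 0) (Yr q) / 2) := by
          rw [← Real.sin_two_mul]
          congr 1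
          ring
        rw [sin_ang hq.1] at h3
        have hqn := npos hq.1
        have h4 : 0 < sin (ang (q 0) (Yr q) / 2) := by
          have := ang_mem q
          refine Real.sin_pos_of_pos_of_lt_pi ?_ ?_
          · linarith [hq.2]
          · linarith [this.2]
        rw [h1, ← h2, add_comm, Real.sin_add_pi_div_two]
        rw [div_eq_iff hqn.ne'] at h3
        exact half_key h4 hqn (h3.trans (by ring))
  · refine Pl_cda hY hr ?_
    unfold ga
    exact vthI_contDiff.contDiffAt.comp p ((ang_cda hp0 hY).div_const 2)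

/-! ### quadratic forms -/

private def LF (l : EE 4 → ℝ) : Prop := ∃ a : Fin 4 → ℝ, ∀ v : EE 4, l v = ∑ i, a i * v i

private theorem LF.sq {l : EE 4 → ℝ} (h : LF l) : IsQF (fun v => (l v) ^ 2) := by
  obtain ⟨a, ha⟩ := h
  refine ⟨Matrix.of fun i j => a i * a j, fun i j => by simp [mul_comm], fun v => ?_⟩
  simp only [ha, Matrix.of_apply, Fin.sum_univ_four]
  ring

private theorem LF.smul {l : EE 4 → ℝ} (h : LF l) (c : ℝ) : LF (fun v => c * l v) := by
  obtain ⟨a, ha⟩ := h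
  refine ⟨fun i => c * a i, fun v => ?_⟩
  simp only [ha, Fin.sum_univ_four]
  ring

private theorem LF.sub {l m : EE 4 → ℝ} (h : LF l) (h' : LF m) : LF (fun v => l v - m v) := by
  obtain ⟨a, ha⟩ := h
  obtain ⟨b, hb⟩ := h'
  refine ⟨fun i => a i - b i, fun v => ?_⟩
  simp only [ha, hb, Fin.sum_univ_four]
  ring

private theorem qf_add {q r : EE 4 → ℝ} (h : IsQF q) (h' : IsQF r) : IsQF (fun v => q v + r v) := by
  obtain ⟨A, hA, hq⟩ := h
  obtain ⟨B, hB, hr⟩ := h'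
  refine ⟨A + B, fun i j => by simp [hA i j, hB i j], fun v => ?_⟩
  simp only [hq, hr, Matrix.add_apply, Fin.sum_univ_four]
  ring

private theorem qf_smul {q : EE 4 → ℝ} (h : IsQF q) (c : ℝ) : IsQF (fun v => c * q v) := by
  obtain ⟨A, hA, hq⟩ := h
  refine ⟨c • A, fun i j => by simp [hA i j], fun v => ?_⟩
  simp only [hq, Matrix.smul_apply, smul_eq_mul, Fin.sum_univ_four]
  ring

private theorem qf_comp {q : EE 4 → ℝ} (h : IsQF q) (D : EE 4 →L[ℝ] EE 4) :
    IsQF (fun v => q (D v)) := by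
  obtain ⟨A, hA, hq⟩ := h
  have hv : ∀ (v : EE 4) (i : Fin 4), (D v) i = ∑ k, (D (e4 k)) i * v k := by
    intro v i
    have h1 : v = ∑ k, v k • e4 k := by
      ext j
      simp [e4, Fin.sum_univ_four]
      fin_cases j <;> simp
    conv_lhs => rw [h1]
    simp only [Fin.sum_univ_four, map_add, map_smul, PiLp.add_apply, PiLp.smul_apply, smul_eq_mul]
    ring
  refine ⟨Matrix.of fun k l => ∑ i, ∑ j, A i j * (D (e4 k)) i * (D (e4 l)) j, fun k l => ?_,
    fun v => ?_⟩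
  · simp only [Matrix.of_apply]
    rw [Finset.sum_comm]
    refine Finset.sum_congr rfl fun i _ => Finset.sum_congr rfl fun j _ => ?_
    rw [hA j i]
    ring
  · have hv' := hv v
    simp only [hq, hv', Matrix.of_apply]
    calc ∑ i, ∑ j, A i j * (∑ k, (D (e4 k)) i * v k) * (∑ l, (D (e4 l)) j * v l)
        = ∑ i, ∑ j, ∑ k, ∑ l, A i j * (D (e4 k)) i * (D (e4 l)) j * v k * v l := by
          refine Finset.sum_congr rfl fun i _ => Finset.sum_congr rfl fun j _ => ?_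
          rw [mul_assoc, Finset.sum_mul_sum, Finset.mul_sum]
          refine Finset.sum_congr rfl fun k _ => ?_
          rw [Finset.mul_sum]
          refine Finset.sum_congr rfl fun l _ => ?_
          ring
      _ = ∑ i, ∑ k, ∑ j, ∑ l, A i j * (D (e4 k)) i * (D (e4 l)) j * v k * v l :=
          Finset.sum_congr rfl fun i _ => Finset.sum_comm
      _ = ∑ k, ∑ i, ∑ j, ∑ l, A i j * (D (e4 k)) i * (D (e4 l)) j * v k * v l :=
          Finset.sum_comm
      _ = ∑ k, ∑ i, ∑ l, ∑ j, A i j * (D (e4 k)) i * (D (e4 l)) j * v k * v l :=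
          Finset.sum_congr rfl fun k _ => Finset.sum_congr rfl fun i _ => Finset.sum_comm
      _ = ∑ k, ∑ l, ∑ i, ∑ j, A i j * (D (e4 k)) i * (D (e4 l)) j * v k * v l :=
          Finset.sum_congr rfl fun k _ => Finset.sum_comm
      _ = _ := by
          refine Finset.sum_congr rfl fun k _ => Finset.sum_congr rfl fun l _ => ?_
          rw [Finset.sum_mul, Finset.sum_mul]
          refine Finset.sum_congr rfl fun i _ => ?_
          rw [Finset.sum_mul, Finset.sum_mul]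

private theorem gq_pol {q : EE 4 → EE 4 → ℝ} {p : EE 4} (h : IsQF (q p)) (v : EE 4) :
    gquad (polMet q) p v = q p v := by
  obtain ⟨A, hA, hq⟩ := h
  have key : ∀ i j, polMet q p i j = A i j := by
    intro i j
    unfold polMet
    rw [Matrix.of_apply, hq, hq, hq]
    fin_cases i <;> fin_cases j <;> simp [e4, Fin.sum_univ_four] <;>
      linarith [hA 0 1, hA 0 2, hA 0 3, hA 1 2, hA 1 3, hA 2 3]
  rw [hq]
  unfold gquad
  refine Finset.sum_congr rfl fun i _ => Finset.sum_congr rfl fun j _ => ?_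
  rw [key]

private theorem lf_wR (x : EE 4) : LF (wR x) := by
  refine ⟨![x 0 / ‖x‖, x 1 / ‖x‖, x 2 / ‖x‖, x 3 / ‖x‖], fun v => ?_⟩
  simp only [wR, Fin.sum_univ_four, Matrix.cons_val_zero, Matrix.cons_val_one, Matrix.cons_val]
  ring

private theorem lf_wU (x : EE 4) : LF (wU x) := by
  refine ⟨![0, 0, x 2 / Ur x, x 3 / Ur x], fun v => ?_⟩
  simp only [wU, Fin.sum_univ_four, Matrix.cons_val_zero, Matrix.cons_val_one, Matrix.cons_val]
  ring

private theorem lf_wth (x : EE 4) : LF (wth x) := by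
  refine ⟨![0, 0, -(x 3 / Ur x ^ 2), x 2 / Ur x ^ 2], fun v => ?_⟩
  simp only [wth, Fin.sum_univ_four, Matrix.cons_val_zero, Matrix.cons_val_one, Matrix.cons_val]
  ring

private theorem lf_wvp (x : EE 4) : LF (wvp x) := by
  refine ⟨![-(x 1 / ‖x‖ ^ 2), x 0 / ‖x‖ ^ 2, 0, 0], fun v => ?_⟩
  simp only [wvp, Fin.sum_univ_four, Matrix.cons_val_zero, Matrix.cons_val_one, Matrix.cons_val]
  ring

private theorem lf_wn3 (x : EE 4) : LF (wn3 x) := by
  have h := ((lf_wU x).smul (1 / ‖x‖)).sub ((lf_wR x).smul (Ur x / ‖x‖ ^ 2))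
  have e : wn3 x = fun v => 1 / ‖x‖ * wU x v - Ur x / ‖x‖ ^ 2 * wR x v := by
    funext v
    unfold wn3
    ring
  rw [e]
  exact h

private theorem lf_wrho (x : EE 4) : LF (wrho x) := by
  have h := (((lf_wn3 x).smul (cos (tc x))).sub ((lf_wR x).smul (sin (tc x) * n3 x))).smul
    (-(cos (tc x) * n3 x) / rhoP x)
  have e : wrho x = fun v => -(cos (tc x) * n3 x) / rhoP x *
      (cos (tc x) * wn3 x v - sin (tc x) * n3 x * wR x v) := by
    funext v
    unfold wrho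
    ring
  rw [e]
  exact h

private theorem qf_norm : IsQF (fun v => ‖v‖ ^ 2) := by
  refine ⟨(1 : Matrix (Fin 4) (Fin 4) ℝ), fun i j => by simp [Matrix.one_apply, eq_comm], fun v => ?_⟩
  show ‖v‖ ^ 2 = _
  rw [nsq]
  simp [Matrix.one_apply, Fin.sum_univ_four]
  ring

private theorem qf_qC (Ψ U : ℝ → ℝ) (x : EE 4) : IsQF (qC Ψ U x) := by
  have h1 := (lf_wR x).sq
  have h2 : IsQF (fun v => wn2 x v) := by
    have := qf_smul (qf_add qf_norm (qf_smul h1 (-1))) (1 / ‖x‖ ^ 2)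
    have e : (fun v => wn2 x v) = fun v => 1 / ‖x‖ ^ 2 * (‖v‖ ^ 2 + -1 * wR x v ^ 2) := by
      funext v
      unfold wn2
      ring
    rw [e]
    exact this
  have h3 := (lf_wth x).sq
  have h4 := (lf_wvp x).sq
  have h5 := (lf_wrho x).sq
  have h6 := ((lf_wth x).sub ((lf_wvp x).smul (kap x))).sq
  have hbase : IsQF (fun v => ((wR x v) ^ 2 + bC (tc x) ^ 2 * (wn2 x v + -((n3 x) ^ 2) * (wth x v) ^ 2))
      + (-(bC (tc x) ^ 2 * (bC (tc x) ^ 2 - fC (tc x) ^ 2) / NN x)) * (wvp x v) ^ 2) :=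
    qf_add (qf_add h1 (qf_smul (qf_add h2 (qf_smul h3 _)) _)) (qf_smul h4 _)
  by_cases hP : x ∈ PZ
  · have h7 := qf_add hbase (qf_add
      (qf_smul h5 (1 / (1 - U (rhoP x)) - 1 / (1 - (rhoP x) ^ 2)))
      (qf_smul h6 ((rhoP x) ^ 2 * (1 - U (rhoP x)) / 4)))
    have e : qC Ψ U x = fun v => ((wR x v) ^ 2 + bC (tc x) ^ 2 *
        (wn2 x v + -((n3 x) ^ 2) * (wth x v) ^ 2)
      + (-(bC (tc x) ^ 2 * (bC (tc x) ^ 2 - fC (tc x) ^ 2) / NN x)) * (wvp x v) ^ 2) +
      ((1 / (1 - U (rhoP x)) - 1 / (1 - (rhoP x) ^ 2)) * (wrho x v) ^ 2 +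
        (rhoP x) ^ 2 * (1 - U (rhoP x)) / 4 * (wth x v - kap x * wvp x v) ^ 2) := by
      funext v
      unfold qC
      rw [if_pos hP]
      ring
    rw [e]
    exact h7
  · have h7 := qf_add hbase (qf_smul h6 ((Ψ (wc x)) ^ 2))
    have e : qC Ψ U x = fun v => ((wR x v) ^ 2 + bC (tc x) ^ 2 *
        (wn2 x v + -((n3 x) ^ 2) * (wth x v) ^ 2)
      + (-(bC (tc x) ^ 2 * (bC (tc x) ^ 2 - fC (tc x) ^ 2) / NN x)) * (wvp x v) ^ 2) +
      (Ψ (wc x)) ^ 2 * (wth x v - kap x * wvp x v) ^ 2 := by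
      funext v
      unfold qC
      rw [if_neg hP]
      ring
    rw [e]
    exact h7

/-! ### transfer -/

/-- transfer of a chart of the core to the one-hole model -/
theorem LIso.toHole {ph a : ℝ} (h : 0 < ph) (h1 : ph ≤ 1 / 2) {Ψ U : ℝ → ℝ} {V T : Set (EE 4)}
    {g : RMetric 4} {Φ : EE 4 → EE 4}
    (H : LIso (Uc a) (polMet (qC (scΨ (epsh ph * sC) Ψ) U)) V g T Φ)
    (hO : ∀ x ∈ V \ T, tc (Φ x) < taC) :
    LIso (UL ph a) (polMet (qL ph Ψ U)) V (fun x => (epsh ph * sC) ^ 2 • g x) T (Th (epsh ph) ∘ Φ) ∧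
      ∀ x ∈ V \ T, ‖Th (epsh ph) (Φ x)‖ < epsh ph / 2 := by
  have he := epsh_pos h
  have hs := sC_pos
  have hT1 := isCoreC.T_gt
  have ht1 := isCoreC.t1_pos
  have hta := isCoreC.ta_le
  have hta0 := isCoreC.ta_pos
  have hc : 0 < epsh ph * sC := by positivity
  have hbd : epsh ph * sC * (taC + t1C) < epsh ph / 2 := by
    have e : epsh ph / 2 = epsh ph * sC * (TC + t1C) := by
      unfold sC
      field_simp
    rw [e]
    exact mul_lt_mul_of_pos_left (by linarith) hc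
  -- points of the image
  have hU : ∀ x ∈ V \ T, Φ x ∈ Uc a := fun x hx => H.maps hx
  have hne : ∀ x ∈ V \ T, Φ x ≠ 0 := by
    intro x hx h0
    have := (hU x hx).1
    rw [h0, norm_zero] at this
    linarith
  have hnorm : ∀ x ∈ V \ T, ‖Th (epsh ph) (Φ x)‖ ≤ epsh ph * sC * (taC + t1C) := by
    intro x hx
    rw [Th_norm he (hne x hx)]
    have h2 := hO x hx
    unfold tc at h2
    exact mul_le_mul_of_nonneg_left (by linarith) hc.le
  have hlt : ∀ x ∈ V \ T, ‖Th (epsh ph) (Φ x)‖ < epsh ph / 2 :=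
    fun x hx => lt_of_le_of_lt (hnorm x hx) hbd
  have hThne : ∀ x ∈ V \ T, Th (epsh ph) (Φ x) ≠ 0 := by
    intro x hx h0
    have h2 := Th_norm he (hne x hx)
    rw [h0, norm_zero] at h2
    have h3 := npos (hne x hx)
    have : 0 < epsh ph * sC * ‖Φ x‖ := by positivity
    linarith
  have hopen : IsOpen (V \ T) := H.met.isOpen.sdiff H.negl.closed
  have h0open : IsOpen ({0}ᶜ : Set (EE 4)) := isOpen_compl_singleton
  have hTd : ∀ y : EE 4, y ≠ 0 → DifferentiableAt ℝ (Th (epsh ph)) y := fun y hy =>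
    ((Th_contDiffOn he).contDiffAt (h0open.mem_nhds hy)).differentiableAt (by simp)
  have hQd : ∀ y : EE 4, y ≠ 0 → DifferentiableAt ℝ (Qm (epsh ph)) y := fun y hy =>
    ((Qm_contDiffOn he).contDiffAt (h0open.mem_nhds hy)).differentiableAt (by simp)
  have hPd : ∀ x ∈ V \ T, DifferentiableAt ℝ Φ x := fun x hx =>
    (H.smooth.contDiffAt (hopen.mem_nhds hx)).differentiableAt (by simp)
  refine ⟨?_, hlt⟩
  refine ⟨?_, H.negl, ?_, ?_, ?_, ?_⟩
  · refine ⟨H.met.isOpen, fun i j => ?_, fun x hx => ?_⟩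
    · have h2 := H.met.smooth i j
      have : (fun x => ((epsh ph * sC) ^ 2 • g x) i j) = fun x => (epsh ph * sC) ^ 2 * g x i j := by
        funext x
        simp
      rw [this]
      exact contDiffOn_const.mul h2
    · exact (H.met.posDef x hx).smul (by positivity)
  · intro x hx
    obtain ⟨h2, h3, h4⟩ := hU x hx
    refine ⟨?_, ?_, ?_⟩
    · intro h5
      have h6 := (Qm_Ur he (hThne x hx)).2 h5
      rw [Qm_Th he (hne x hx)] at h6
      exact h3 h6
    · show epsh ph * sC * t1C < ‖Th (epsh ph) (Φ x)‖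
      rw [Th_norm he (hne x hx)]
      exact mul_lt_mul_of_pos_left h2 hc
    · rintro ⟨-, h5⟩
      have h6 : Qm (epsh ph) (Th (epsh ph) (Φ x)) ∈ CapS a := h5
      rw [Qm_Th he (hne x hx)] at h6
      exact h4 h6
  · exact (Th_contDiffOn he).comp H.smooth fun x hx => hne x hx
  · intro x hx v
    have hD1 : fderiv ℝ (Th (epsh ph) ∘ Φ) x v =
        fderiv ℝ (Th (epsh ph)) (Φ x) (fderiv ℝ Φ x v) := by
      rw [fderiv_comp x (hTd _ (hne x hx)) (hPd x hx)]
      rfl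
    have hD2 : ∀ w : EE 4, fderiv ℝ (Qm (epsh ph)) (Th (epsh ph) (Φ x))
        (fderiv ℝ (Th (epsh ph)) (Φ x) w) = w := by
      intro w
      have h2 : fderiv ℝ (Qm (epsh ph) ∘ Th (epsh ph)) (Φ x) =
          (fderiv ℝ (Qm (epsh ph)) (Th (epsh ph) (Φ x))).comp (fderiv ℝ (Th (epsh ph)) (Φ x)) :=
        fderiv_comp _ (hQd _ (hThne x hx)) (hTd _ (hne x hx))
      have h3 : (Qm (epsh ph) ∘ Th (epsh ph)) =ᶠ[𝓝 (Φ x)] id := by
        filter_upwards [h0open.mem_nhds (hne x hx)] with y hy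
        exact Qm_Th he hy
      rw [h3.fderiv_eq, fderiv_id] at h2
      have h4 := congrArg (fun L : EE 4 →L[ℝ] EE 4 => L w) h2
      exact h4.symm
    have hq : ∀ w : EE 4, qL ph Ψ U (Th (epsh ph) (Φ x)) w = (epsh ph * sC) ^ 2 *
        qC (scΨ (epsh ph * sC) Ψ) U (Φ x)
          (fderiv ℝ (Qm (epsh ph)) (Th (epsh ph) (Φ x)) w) := by
      intro w
      unfold qL
      rw [if_pos (hlt x hx), Qm_Th he (hne x hx)]
    have hqf : IsQF (qL ph Ψ U (Th (epsh ph) (Φ x))) := by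
      have h2 := qf_smul (qf_comp (qf_qC (scΨ (epsh ph * sC) Ψ) U (Φ x))
        (fderiv ℝ (Qm (epsh ph)) (Th (epsh ph) (Φ x)))) ((epsh ph * sC) ^ 2)
      rw [show qL ph Ψ U (Th (epsh ph) (Φ x)) = _ from funext hq]
      exact h2
    have h5 := H.isom x hx v
    rw [gq_pol (qf_qC _ _ _)] at h5
    show gquad (polMet (qL ph Ψ U)) (Th (epsh ph) (Φ x)) (fderiv ℝ (Th (epsh ph) ∘ Φ) x v) = _
    rw [gq_pol hqf, hD1, hq, hD2, h5]
    unfold gquad
    rw [Finset.mul_sum]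
    refine Finset.sum_congr rfl fun i _ => ?_
    rw [Finset.mul_sum]
    refine Finset.sum_congr rfl fun j _ => ?_
    simp only [Matrix.smul_apply, smul_eq_mul]
    ring
  · intro y hy z hz hyz u hu hconv
    have hu0 : u ≠ 0 := by
      intro h0
      have h2 := hu.2.1
      rw [h0, norm_zero] at h2
      have : 0 < epsh ph * sC * t1C := by positivity
      linarith
    have hule : ‖u‖ ≤ epsh ph * sC * (taC + t1C) :=
      le_of_tendsto hconv.norm (Eventually.of_forall fun j => hnorm (y j) (hy j))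
    have hult : ‖u‖ < epsh ph / 2 := lt_of_le_of_lt hule hbd
    have hmem : Qm (epsh ph) u ∈ Uc a := by
      refine ⟨?_, ?_, ?_⟩
      · rw [Qm_norm he hu0, lt_div_iff₀ hc]
        have h2 := hu.2.1
        linarith
      · intro h2
        exact hu.1 ((Qm_Ur he hu0).1 h2)
      · intro h2
        exact hu.2.2 ⟨hult, h2⟩
    refine H.esc y hy z hz hyz _ hmem ?_
    have hcont : ContinuousAt (Qm (epsh ph)) u := (hQd u hu0).continuousAt
    have h2 : Tendsto (fun j => Qm (epsh ph) (Th (epsh ph) (Φ (y j)))) atTop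
        (𝓝 (Qm (epsh ph) u)) := hcont.tendsto.comp hconv
    have h3 : (fun j => Qm (epsh ph) (Th (epsh ph) (Φ (y j)))) = fun j => Φ (y j) :=
      funext fun j => Qm_Th he (hne _ (hy j))
    rwa [h3] at h2

end Pool.Agent.MP39e402
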