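import Mathlib

/-!
# Part H, module HQuot: the quotient of a metric space by an isometric involution

`IQ M σ hσ hinv = M / (x ~ σ x)` with `dist [x] [y] = min (dist x y) (dist x (σ y))`.
(Triangle inequality: `dist x (σ y) = dist (σ x) y`, four cases.)
-/

open Set Filter Topology MeasureTheory
open scoped ENNReal NNReal ContDiff BigOperators

noncomputable section

namespace Pool.Agent.MP39e402

/-- an isometric involution -/
structure Invo (M : Type) [MetricSpace M] where
  /-- the involution -/
  s : M → M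
  iso : ∀ x y, dist (s x) (s y) = dist x y
  inv : ∀ x, s (s x) = x

/-- the equivalence relation `y = x ∨ y = σ x` -/
def Invo.setoid {M : Type} [MetricSpace M] (σ : Invo M) : Setoid M where
  r x y := y = x ∨ y = σ.s x
  iseqv :=
    { refl := fun _ => Or.inl rfl
      symm := by
        rintro x y (h | h)
        · exact Or.inl h.symm
        · right; rw [h, σ.inv]
      trans := by
        rintro x y z (h | h) (h' | h')
        · left; rw [h', h]
        · right; rw [h', h]
        · right; rw [h', h]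
        · left; rw [h', h, σ.inv] }

/-- the quotient space -/
def Invo.Q {M : Type} [MetricSpace M] (σ : Invo M) : Type := Quotient σ.setoid

/-- the projection -/
def Invo.pr {M : Type} [MetricSpace M] (σ : Invo M) (x : M) : σ.Q := Quotient.mk σ.setoid x

variable {M : Type} [MetricSpace M]

theorem Invo.pr_eq (σ : Invo M) {x y : M} : σ.pr x = σ.pr y ↔ y = x ∨ y = σ.s x :=
  Quotient.eq (r := σ.setoid)

theorem Invo.pr_surj (σ : Invo M) : Function.Surjective σ.pr := Quotient.mk_surjective

/-- the quotient distance (the proof of well-definedness is part of the module) -/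
def Invo.qdist (σ : Invo M) (a b : σ.Q) : ℝ :=
  ⨅ p : {p : M × M // σ.pr p.1 = a ∧ σ.pr p.2 = b}, dist p.1.1 p.1.2

private theorem Invo.dist_s_left (σ : Invo M) (x y : M) : dist (σ.s x) y = dist x (σ.s y) := by
  rw [← σ.iso (σ.s x) y, σ.inv]

theorem Invo.qdist_pr (σ : Invo M) (x y : M) :
    σ.qdist (σ.pr x) (σ.pr y) = min (dist x y) (dist x (σ.s y)) := by
  have hbdd : BddBelow (Set.range fun p : {p : M × M // σ.pr p.1 = σ.pr x ∧ σ.pr p.2 = σ.pr y} =>
      dist p.1.1 p.1.2) := ⟨0, by rintro _ ⟨p, rfl⟩; exact dist_nonneg⟩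
  have hne : Nonempty {p : M × M // σ.pr p.1 = σ.pr x ∧ σ.pr p.2 = σ.pr y} :=
    ⟨⟨(x, y), rfl, rfl⟩⟩
  apply le_antisymm
  · refine le_min ?_ ?_
    · exact ciInf_le hbdd ⟨(x, y), rfl, rfl⟩
    · exact ciInf_le hbdd ⟨(x, σ.s y), rfl, (σ.pr_eq.mpr (Or.inr rfl)).symm⟩
  · refine le_ciInf ?_
    rintro ⟨⟨a, b⟩, ha, hb⟩
    have ha' := σ.pr_eq.mp ha.symm
    have hb' := σ.pr_eq.mp hb.symm
    show min (dist x y) (dist x (σ.s y)) ≤ dist a b
    simp only at ha' hb'
    rcases ha' with rfl | rfl <;> rcases hb' with rfl | rfl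
    · exact min_le_left _ _
    · exact min_le_right _ _
    · rw [σ.dist_s_left]
      exact min_le_right _ _
    · rw [σ.iso]
      exact min_le_left _ _

instance (σ : Invo M) : MetricSpace σ.Q where
  dist := σ.qdist
  dist_self a := by
    obtain ⟨x, rfl⟩ := σ.pr_surj a
    rw [σ.qdist_pr, dist_self]
    exact min_eq_left dist_nonneg
  dist_comm a b := by
    obtain ⟨x, rfl⟩ := σ.pr_surj a
    obtain ⟨y, rfl⟩ := σ.pr_surj b
    rw [σ.qdist_pr, σ.qdist_pr, dist_comm x y, ← σ.dist_s_left x y, dist_comm (σ.s x) y]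
  dist_triangle a b c := by
    obtain ⟨x, rfl⟩ := σ.pr_surj a
    obtain ⟨y, rfl⟩ := σ.pr_surj b
    obtain ⟨z, rfl⟩ := σ.pr_surj c
    rw [σ.qdist_pr, σ.qdist_pr, σ.qdist_pr]
    have h1 := dist_triangle x y z
    have h2 := dist_triangle x y (σ.s z)
    have h3 := dist_triangle x (σ.s y) (σ.s z)
    have h4 := dist_triangle x (σ.s y) z
    rw [σ.iso] at h3
    rw [σ.dist_s_left y z] at h4
    rcases min_choice (dist x y) (dist x (σ.s y)) with h5 | h5 <;>
      rcases min_choice (dist y z) (dist y (σ.s z)) with h6 | h6 <;> rw [h5, h6]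
    · exact (min_le_left _ _).trans h1
    · exact (min_le_right _ _).trans h2
    · exact (min_le_right _ _).trans h3
    · exact (min_le_left _ _).trans h4
  eq_of_dist_eq_zero := by
    intro a b
    obtain ⟨x, rfl⟩ := σ.pr_surj a
    obtain ⟨y, rfl⟩ := σ.pr_surj b
    intro h
    have h0 : min (dist x y) (dist x (σ.s y)) = 0 := by
      rw [← σ.qdist_pr]
      exact h
    rcases min_choice (dist x y) (dist x (σ.s y)) with h5 | h5 <;> rw [h5] at h0
    · rw [dist_eq_zero.mp h0]
    · rw [dist_eq_zero.mp h0]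
      exact (σ.pr_eq.mpr (Or.inr rfl)).symm

theorem Invo.dist_pr (σ : Invo M) (x y : M) :
    dist (σ.pr x) (σ.pr y) = min (dist x y) (dist x (σ.s y)) := σ.qdist_pr x y

theorem Invo.continuous_pr (σ : Invo M) : Continuous σ.pr := by
  have h : LipschitzWith 1 σ.pr := LipschitzWith.of_dist_le_mul fun x y => by
    rw [σ.dist_pr, NNReal.coe_one, one_mul]
    exact min_le_left _ _
  exact h.continuous

theorem Invo.compactSpace_Q (σ : Invo M) [CompactSpace M] : CompactSpace σ.Q := by
  refine ⟨?_⟩
  rw [← σ.pr_surj.range_eq]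
  exact isCompact_range σ.continuous_pr

theorem Invo.properSpace_Q (σ : Invo M) [ProperSpace M] : ProperSpace σ.Q := by
  refine ⟨fun a r => ?_⟩
  obtain ⟨x, rfl⟩ := σ.pr_surj a
  have h : Metric.closedBall (σ.pr x) r = σ.pr '' Metric.closedBall x r := by
    ext b
    constructor
    · intro hb
      obtain ⟨y, rfl⟩ := σ.pr_surj b
      rw [Metric.mem_closedBall, dist_comm, σ.dist_pr] at hb
      rcases min_le_iff.mp hb with h1 | h1
      · exact ⟨y, by rwa [Metric.mem_closedBall, dist_comm], rfl⟩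
      · exact ⟨σ.s y, by rwa [Metric.mem_closedBall, dist_comm],
          (σ.pr_eq.mpr (Or.inr rfl)).symm⟩
    · rintro ⟨y, hy, rfl⟩
      rw [Metric.mem_closedBall, dist_comm] at hy ⊢
      rw [σ.dist_pr]
      exact (min_le_left _ _).trans hy
  rw [h]
  exact (isCompact_closedBall x r).image σ.continuous_pr

end Pool.Agent.MP39e402
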