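import Pool.Agent.Lib.MP_39e402_gt.Defs
import Pool.Agent.Lib.MP_39e402_gt.HQuot

/-!
# Part H, module HSph: the round sphere with the angular metric, `RP^{n-1}`, the cone `ℝⁿ/±1`

`ASph n`: unit vectors of `EE n` with `dist x y = InnerProductGeometry.angle x y`
(triangle inequality: `InnerProductGeometry.angle_le_angle_add_angle`).
`RPM n = ASph n / ±1`, `TPM n = EE n / ±1`.
-/

open Set Filter Topology MeasureTheory
open scoped ENNReal NNReal ContDiff BigOperators

noncomputable section

namespace Pool.Agent.MP39e402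

/-- unit vectors, with the angular distance -/
structure ASph (n : ℕ) : Type where
  /-- the underlying vector -/
  val : EE n
  /-- it is a unit vector -/
  norm_eq : ‖val‖ = 1

private theorem hsph_ne {n : ℕ} (x : ASph n) : x.val ≠ 0 := by
  intro h
  have h1 := x.norm_eq
  rw [h, norm_zero] at h1
  exact zero_ne_one h1

instance (n : ℕ) : MetricSpace (ASph n) where
  dist x y := InnerProductGeometry.angle x.val y.val
  dist_self x := InnerProductGeometry.angle_self (hsph_ne x)
  dist_comm x y := InnerProductGeometry.angle_comm _ _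
  dist_triangle x y z :=
    InnerProductGeometry.angle_le_angle_add_angle x.val y.val z.val
  eq_of_dist_eq_zero := by
    intro x y h
    obtain ⟨-, r, hr, hy⟩ := InnerProductGeometry.angle_eq_zero_iff.1 h
    have h1 : r = 1 := by
      have h2 := y.norm_eq
      rw [hy, norm_smul, x.norm_eq, mul_one, Real.norm_of_nonneg hr.le] at h2
      exact h2
    rw [h1, one_smul] at hy
    cases x; cases y
    simp_all

theorem ASph.dist_eq {n : ℕ} (x y : ASph n) :
    dist x y = InnerProductGeometry.angle x.val y.val := rfl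

/-- the antipodal map of the sphere -/
def ASph.invo (n : ℕ) : Invo (ASph n) where
  s x := ⟨-x.val, by rw [norm_neg]; exact x.norm_eq⟩
  iso x y := by simp [ASph.dist_eq]
  inv x := by cases x; simp

/-- `x ↦ -x` on `ℝⁿ` -/
def EE.invo (n : ℕ) : Invo (EE n) where
  s x := -x
  iso x y := by simp [dist_neg_neg]
  inv x := by simp

/-- real projective space with the metric of curvature one -/
abbrev RPM (n : ℕ) : Type := (ASph.invo n).Q

/-- the cone `ℝⁿ / ±1` -/
abbrev TPM (n : ℕ) : Type := (EE.invo n).Q

/-- the vertex of `TPM n` -/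
def TPM.o (n : ℕ) : TPM n := (EE.invo n).pr 0

private theorem hsph_norm_sub {n : ℕ} (x y : ASph n) (t s : ℝ) :
    ‖t • x.val - s • y.val‖ ^ 2 =
      t ^ 2 + s ^ 2 - 2 * t * s * Real.cos (InnerProductGeometry.angle x.val y.val) := by
  rw [InnerProductGeometry.cos_angle, x.norm_eq, y.norm_eq, mul_one, div_one, norm_sub_sq_real,
    norm_smul, norm_smul, x.norm_eq, y.norm_eq, real_inner_smul_left, real_inner_smul_right,
    mul_one, mul_one, Real.norm_eq_abs, Real.norm_eq_abs, sq_abs, sq_abs]
  ring

private theorem hsph_dist_le {n : ℕ} (x y : ASph n) : dist x.val y.val ≤ dist x y := by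
  have h1 := hsph_norm_sub x y 1 1
  rw [one_smul, one_smul] at h1
  have h2 := Real.one_sub_sq_div_two_le_cos (x := InnerProductGeometry.angle x.val y.val)
  have h3 : 0 ≤ dist x y := dist_nonneg
  rw [ASph.dist_eq] at h3 ⊢
  rw [dist_eq_norm]
  refine le_of_sq_le_sq ?_ h3
  rw [h1]
  linarith

/-- the topology of `ASph n` is the usual one -/
theorem ASph.tendsto_iff {n : ℕ} {ι : Type*} {l : Filter ι} {f : ι → ASph n} {x : ASph n} :
    Tendsto f l (𝓝 x) ↔ Tendsto (fun i => (f i).val) l (𝓝 x.val) := by
  constructor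
  · intro h
    rw [tendsto_iff_dist_tendsto_zero] at h ⊢
    exact squeeze_zero (fun _ => dist_nonneg) (fun i => hsph_dist_le (f i) x) h
  · intro h
    rw [tendsto_iff_dist_tendsto_zero]
    have h1 : ContinuousAt (fun y : EE n × EE n => InnerProductGeometry.angle y.1 y.2)
        (x.val, x.val) := InnerProductGeometry.continuousAt_angle (hsph_ne x) (hsph_ne x)
    have h2 : Tendsto (fun i => ((f i).val, x.val)) l (𝓝 (x.val, x.val)) :=
      h.prodMk_nhds tendsto_const_nhds
    have h3 := h1.tendsto.comp h2
    rw [InnerProductGeometry.angle_self (hsph_ne x)] at h3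
    exact h3

theorem ASph.compactSpace (n : ℕ) : CompactSpace (ASph n) := by
  have : CompactSpace (Metric.sphere (0 : EE n) 1) :=
    isCompact_iff_compactSpace.1 (isCompact_sphere 0 1)
  let h : Metric.sphere (0 : EE n) 1 → ASph n := fun v => ⟨v.1, by
    have := v.2
    rwa [mem_sphere_zero_iff_norm] at this⟩
  have hc : Continuous h := by
    rw [continuous_iff_continuousAt]
    intro v
    exact ASph.tendsto_iff.2 (continuous_subtype_val.tendsto v)
  have hs : Function.Surjective h := by
    intro x
    exact ⟨⟨x.val, by rw [mem_sphere_zero_iff_norm]; exact x.norm_eq⟩, rfl⟩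
  exact Function.Surjective.compactSpace hc hs

private theorem hsph_cone {n : ℕ} (x y : ASph n) (t s : ℝ) (ht : 0 ≤ t) (hs : 0 ≤ s) :
    min (dist (t • x.val) (s • y.val)) (dist (t • x.val) (-(s • y.val))) =
      Real.sqrt (t ^ 2 + s ^ 2 - 2 * t * s * Real.cos (min (min (InnerProductGeometry.angle x.val
        y.val) (Real.pi - InnerProductGeometry.angle x.val y.val)) Real.pi)) := by
  have hts : 0 ≤ 2 * t * s := by positivity
  have h1 := hsph_norm_sub x y t s
  have h2 : ‖t • x.val + s • y.val‖ ^ 2 =
      t ^ 2 + s ^ 2 + 2 * t * s * Real.cos (InnerProductGeometry.angle x.val y.val) := by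
    have h3 := hsph_norm_sub x y t (-s)
    rw [neg_smul, sub_neg_eq_add] at h3
    rw [h3]; ring
  have hd1 : dist (t • x.val) (s • y.val) = ‖t • x.val - s • y.val‖ := dist_eq_norm _ _
  have hd2 : dist (t • x.val) (-(s • y.val)) = ‖t • x.val + s • y.val‖ := by
    rw [dist_eq_norm, sub_neg_eq_add]
  have hθ0 := InnerProductGeometry.angle_nonneg x.val y.val
  have hθπ := InnerProductGeometry.angle_le_pi x.val y.val
  have hpi := Real.pi_pos
  rw [hd1, hd2]
  rcases le_total (InnerProductGeometry.angle x.val y.val) (Real.pi / 2) with h | h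
  · have hc : 0 ≤ Real.cos (InnerProductGeometry.angle x.val y.val) :=
      Real.cos_nonneg_of_mem_Icc ⟨by linarith, h⟩
    have hm1 : min (InnerProductGeometry.angle x.val y.val)
        (Real.pi - InnerProductGeometry.angle x.val y.val) =
        InnerProductGeometry.angle x.val y.val := min_eq_left (by linarith)
    rw [hm1, min_eq_left hθπ, ← h1, Real.sqrt_sq (norm_nonneg _)]
    refine min_eq_left ?_
    refine le_of_sq_le_sq ?_ (norm_nonneg _)
    rw [h1, h2]
    nlinarith [mul_nonneg hts hc]
  · have hc : Real.cos (InnerProductGeometry.angle x.val y.val) ≤ 0 :=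
      Real.cos_nonpos_of_pi_div_two_le_of_le h (by linarith)
    have hm1 : min (InnerProductGeometry.angle x.val y.val)
        (Real.pi - InnerProductGeometry.angle x.val y.val) =
        Real.pi - InnerProductGeometry.angle x.val y.val := min_eq_right (by linarith)
    have hm2 : min (Real.pi - InnerProductGeometry.angle x.val y.val) Real.pi =
        Real.pi - InnerProductGeometry.angle x.val y.val := min_eq_left (by linarith)
    rw [hm1, hm2, Real.cos_pi_sub]
    have h4 : t ^ 2 + s ^ 2 - 2 * t * s *
        -Real.cos (InnerProductGeometry.angle x.val y.val) = ‖t • x.val + s • y.val‖ ^ 2 := by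
      rw [h2]; ring
    rw [h4, Real.sqrt_sq (norm_nonneg _)]
    refine min_eq_right ?_
    refine le_of_sq_le_sq ?_ (norm_nonneg _)
    rw [h1, h2]
    nlinarith [mul_nonneg hts (neg_nonneg.2 hc)]

theorem isMetricCone_TPM {n : ℕ} (hn : 0 < n) : IsMetricCone (TPM n) (TPM.o n) (RPM n) := by
  obtain ⟨rep, hrep⟩ : ∃ rep : RPM n → ASph n, ∀ z, (ASph.invo n).pr (rep z) = z :=
    ⟨Function.surjInv (ASph.invo n).pr_surj, Function.surjInv_eq _⟩
  refine ⟨fun a => (EE.invo n).pr (a.2 • (rep a.1).val), ?_, ?_, ?_⟩
  · intro z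
    simp only [zero_smul]
    rfl
  · intro q
    obtain ⟨v, rfl⟩ := (EE.invo n).pr_surj q
    by_cases hv : v = 0
    · subst hv
      refine ⟨(ASph.invo n).pr ⟨EuclideanSpace.single ⟨0, hn⟩ 1, by simp⟩, 0, le_rfl, ?_⟩
      simp only [zero_smul]
    · have hnv : ‖v‖ ≠ 0 := norm_ne_zero_iff.2 hv
      obtain ⟨x, hx⟩ : ∃ x : ASph n, x.val = ‖v‖⁻¹ • v :=
        ⟨⟨‖v‖⁻¹ • v, by rw [norm_smul, norm_inv, norm_norm, inv_mul_cancel₀ hnv]⟩, rfl⟩
      refine ⟨(ASph.invo n).pr x, ‖v‖, norm_nonneg _, ?_⟩
      have h1 := hrep ((ASph.invo n).pr x)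
      rw [(ASph.invo n).pr_eq] at h1
      rw [(EE.invo n).pr_eq]
      simp only
      have h2 : ‖v‖ • x.val = v := by
        rw [hx, smul_smul, mul_inv_cancel₀ hnv, one_smul]
      rcases h1 with h1 | h1
      · left
        rw [← h1, h2]
      · right
        have h3 : x.val = -(rep ((ASph.invo n).pr x)).val := congrArg ASph.val h1
        have h4 : v = -(‖v‖ • (rep ((ASph.invo n).pr x)).val) := by
          conv_lhs => rw [← h2, h3]
          rw [smul_neg]
        exact h4
  · rintro ⟨z, t⟩ ⟨z', s⟩ ht hs
    simp only at ht hs ⊢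
    rw [Invo.dist_pr]
    have h1 := hsph_cone (rep z) (rep z') t s ht hs
    have h2 : dist z z' = min (InnerProductGeometry.angle (rep z).val (rep z').val)
        (Real.pi - InnerProductGeometry.angle (rep z).val (rep z').val) := by
      conv_lhs => rw [← hrep z, ← hrep z']
      rw [Invo.dist_pr, ASph.dist_eq, ASph.dist_eq]
      congr 1
      exact InnerProductGeometry.angle_neg_right _ _
    unfold coneDist
    simp only
    rw [h2]
    exact h1

end Pool.Agent.MP39e402
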