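import Pool.Agent.Lib.MP_39e402_gt.MTri

/-!
# Part M, module MLocal: local comparison of `redist` with the Euclidean distance

`redist_ge`: let `γ` be a path from `x` to `y`. If `γ` stays in `closedBall x ρ` then
`c * dist x y ≤ ∫ c * ‖γ'‖ ≤ plen`. Otherwise let `s` be the first parameter with
`dist x (γ s) = ρ`; then `c * ρ ≤ plenI γ 0 s ≤ plen`.
(`‖γ b - γ a‖ ≤ ∫ ‖γ'‖`.)  `redist_le_of_ball`: use the segment.
-/

open Set Filter Topology MeasureTheory
open scoped ENNReal NNReal ContDiff BigOperators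

noncomputable section

namespace Pool.Agent.MP39e402

variable {n : ℕ}

/-- the length bounds the displacement -/
theorem dist_le_plenI {V : Set (EE n)} {g : RMetric n} (hg : IsRMetricOn g V) {γ : ℝ → EE n}
    (hγ : ContDiff ℝ 1 γ) {c : ℝ} (hc : 0 ≤ c) {a b : ℝ} (hab : a ≤ b)
    (hV : ∀ t ∈ Icc a b, γ t ∈ V)
    (hlow : ∀ t ∈ Icc a b, ∀ v : EE n, c ^ 2 * ‖v‖ ^ 2 ≤ gquad g (γ t) v) :
    c * dist (γ a) (γ b) ≤ plenI g γ a b := by
  have hd : ∀ t, HasDerivAt γ (deriv γ t) t := fun t =>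
    ((hγ.differentiable one_ne_zero) t).hasDerivAt
  have hcont : Continuous (deriv γ) := hγ.continuous_deriv le_rfl
  have h1 : ∫ t in a..b, deriv γ t = γ b - γ a :=
    intervalIntegral.integral_eq_sub_of_hasDerivAt (fun t _ => hd t)
      (hcont.intervalIntegrable _ _)
  have h2 : dist (γ a) (γ b) ≤ ∫ t in a..b, ‖deriv γ t‖ := by
    rw [dist_comm, dist_eq_norm, ← h1]
    exact intervalIntegral.norm_integral_le_integral_norm hab
  calc c * dist (γ a) (γ b) ≤ c * ∫ t in a..b, ‖deriv γ t‖ := mul_le_mul_of_nonneg_left h2 hc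
    _ = ∫ t in a..b, c * ‖deriv γ t‖ := (intervalIntegral.integral_const_mul _ _).symm
    _ ≤ plenI g γ a b := by
      unfold plenI
      refine intervalIntegral.integral_mono_on hab ?_ ?_ ?_
      · exact (continuous_const.mul hcont.norm).intervalIntegrable _ _
      · refine ContinuousOn.intervalIntegrable ?_
        rw [uIcc_of_le hab]
        exact continuousOn_speed hg isOpen_univ hγ.contDiffOn (subset_univ _) hV
      · intro t ht
        refine Real.le_sqrt_of_sq_le ?_
        rw [mul_pow]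
        exact hlow t ht _

theorem redist_ge {V : Set (EE n)} {g : RMetric n} (hg : IsRMetricOn g V) {x : EE n} {ρ c : ℝ}
    (hρ : 0 < ρ) (hc : 0 ≤ c)
    (hlow : ∀ z ∈ V, z ∈ Metric.closedBall x ρ → ∀ v : EE n, c ^ 2 * ‖v‖ ^ 2 ≤ gquad g z v)
    (y : EE n) : ENNReal.ofReal (c * min ρ (dist x y)) ≤ redist V g x y := by
  refine le_iInf₂ fun γ hγ => ENNReal.ofReal_le_ofReal ?_
  obtain ⟨h1, h2, h3, h4⟩ := hγ
  -- key: a parameter up to which the path stays in the ball
  have key : ∀ s ∈ Icc (0 : ℝ) 1, (∀ t ∈ Icc 0 s, γ t ∈ Metric.closedBall x ρ) →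
      c * dist x (γ s) ≤ plen g γ := by
    intro s hs hball
    have hV : ∀ t ∈ Icc 0 s, γ t ∈ V := fun t ht => h2 t ⟨ht.1, ht.2.trans hs.2⟩
    have h5 := dist_le_plenI hg h1 hc hs.1 hV fun t ht => hlow _ (hV t ht) (hball t ht)
    rw [h3] at h5
    have h6 := plenI_add hg isOpen_univ h1.contDiffOn hs.1 hs.2 (subset_univ _) h2
    have h7 := plenI_nonneg g γ hs.2
    have h8 : plen g γ = plenI g γ 0 1 := rfl
    rw [h8]
    linarith
  by_cases hall : ∀ t ∈ Icc (0 : ℝ) 1, γ t ∈ Metric.closedBall x ρ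
  · have h5 := key 1 ⟨zero_le_one, le_rfl⟩ hall
    rw [h4] at h5
    exact (mul_le_mul_of_nonneg_left (min_le_right _ _) hc).trans h5
  · push Not at hall
    obtain ⟨t₀, ht₀, hout⟩ := hall
    rw [Metric.mem_closedBall, not_le, dist_comm] at hout
    have hcont : Continuous fun t => dist x (γ t) := continuous_const.dist h1.continuous
    set A : Set ℝ := Icc (0 : ℝ) 1 ∩ {t | ρ ≤ dist x (γ t)} with hA
    have hAc : IsCompact A :=
      isCompact_Icc.inter_right (isClosed_le continuous_const hcont)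
    obtain ⟨s, hs, hmin⟩ := hAc.exists_isLeast ⟨t₀, ht₀, hout.le⟩
    have hlt : ∀ t ∈ Icc 0 s, t < s → dist x (γ t) < ρ := by
      intro t ht hts
      by_contra hcon
      rw [not_lt] at hcon
      exact absurd (hmin ⟨⟨ht.1, ht.2.trans hs.1.2⟩, hcon⟩) (not_le.mpr hts)
    have hs0 : 0 < s := by
      rcases lt_or_eq_of_le hs.1.1 with h | h
      · exact h
      · exfalso
        have h5 : ρ ≤ dist x (γ s) := hs.2
        rw [← h, h3, dist_self] at h5
        linarith
    have hsle : dist x (γ s) ≤ ρ := by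
      have h5 : s ∈ closure (Iio s) := by
        rw [closure_Iio]
        exact Set.mem_Iic.mpr le_rfl
      have h6 : Tendsto (fun t => dist x (γ t)) (𝓝[<] s) (𝓝 (dist x (γ s))) :=
        hcont.continuousAt.mono_left nhdsWithin_le_nhds
      refine le_of_tendsto h6 ?_
      filter_upwards [Ioo_mem_nhdsLT hs0] with t ht
      exact (hlt t ⟨ht.1.le, ht.2.le⟩ ht.2).le
    have h5 := key s hs.1 (fun t ht => by
      rw [Metric.mem_closedBall, dist_comm]
      rcases lt_or_eq_of_le ht.2 with h | h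
      · exact (hlt t ht h).le
      · rw [h]; exact hsle)
    have h6 : ρ ≤ dist x (γ s) := hs.2
    calc c * min ρ (dist x y) ≤ c * ρ := mul_le_mul_of_nonneg_left (min_le_left _ _) hc
      _ ≤ c * dist x (γ s) := mul_le_mul_of_nonneg_left h6 hc
      _ ≤ plen g γ := h5

theorem redist_le_of_ball {V : Set (EE n)} {g : RMetric n} (hg : IsRMetricOn g V) {x : EE n}
    {ρ C : ℝ} (hC : 0 ≤ C) (hball : Metric.ball x ρ ⊆ V)
    (hup : ∀ z ∈ Metric.ball x ρ, ∀ v : EE n, gquad g z v ≤ C ^ 2 * ‖v‖ ^ 2)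
    {y z : EE n} (hy : y ∈ Metric.ball x ρ) (hz : z ∈ Metric.ball x ρ) :
    redist V g y z ≤ ENNReal.ofReal (C * dist y z) := by
  have hpath := isPath_segment hball hy hz
  refine (iInf₂_le _ hpath).trans (ENNReal.ofReal_le_ofReal ?_)
  have hd : ∀ t : ℝ, deriv (fun t : ℝ => y + t • (z - y)) t = z - y := by
    intro t
    have h1 : HasDerivAt (fun t : ℝ => y + t • (z - y)) ((1 : ℝ) • (z - y)) t :=
      ((hasDerivAt_id t).smul_const (z - y)).const_add y
    rw [one_smul] at h1
    exact h1.deriv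
  have hin : ∀ t ∈ Icc (0 : ℝ) 1, y + t • (z - y) ∈ Metric.ball x ρ := fun t ht =>
    (convex_ball x ρ).add_smul_sub_mem hy hz ht
  have hle : plen g (fun t : ℝ => y + t • (z - y)) ≤ ∫ _t in (0 : ℝ)..1, C * dist y z := by
    unfold plen
    refine intervalIntegral.integral_mono_on zero_le_one ?_ ?_ ?_
    · refine ContinuousOn.intervalIntegrable ?_
      rw [uIcc_of_le zero_le_one]
      exact continuousOn_speed hg isOpen_univ hpath.1.contDiffOn (subset_univ _) hpath.2.1
    · exact continuous_const.intervalIntegrable _ _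
    · intro t ht
      rw [hd t]
      have h1 := hup _ (hin t ht) (z - y)
      have h2 : 0 ≤ C * dist y z := mul_nonneg hC dist_nonneg
      refine (Real.sqrt_le_left h2).mpr ?_
      rw [mul_pow, dist_comm, dist_eq_norm]
      exact h1
  refine hle.trans (le_of_eq ?_)
  rw [intervalIntegral.integral_const]
  simp

/-- local comparison with the Euclidean distance -/
theorem exists_local_compare {V : Set (EE n)} {g : RMetric n} (hg : IsRMetricOn g V) {x : EE n}
    (hx : x ∈ V) : ∃ ρ c C : ℝ, 0 < ρ ∧ 0 < c ∧ 0 < C ∧ Metric.closedBall x ρ ⊆ V ∧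
      (∀ y ∈ Metric.ball x ρ, ∀ z, ENNReal.ofReal (c * min ρ (dist y z)) ≤ redist V g y z) ∧
      (∀ y ∈ Metric.ball x ρ, ∀ z ∈ Metric.ball x ρ,
        redist V g y z ≤ ENNReal.ofReal (C * dist y z)) := by
  obtain ⟨r, hr, hball⟩ := Metric.isOpen_iff.mp hg.isOpen x hx
  have hsub : Metric.closedBall x (r / 2) ⊆ V :=
    (Metric.closedBall_subset_ball (by linarith)).trans hball
  obtain ⟨c, C, hc, hcC, hb⟩ := exists_gquad_bounds hg (isCompact_closedBall x (r / 2)) hsub
  refine ⟨r / 4, c, C, by linarith, hc, lt_of_lt_of_le hc hcC, ?_, ?_, ?_⟩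
  · exact (Metric.closedBall_subset_closedBall (by linarith)).trans hsub
  · intro y hy z
    refine redist_ge hg (by linarith) hc.le (fun w _ hw v => (hb w ?_ v).1) z
    rw [Metric.mem_closedBall] at hw ⊢
    rw [Metric.mem_ball] at hy
    calc dist w x ≤ dist w y + dist y x := dist_triangle _ _ _
      _ ≤ r / 4 + r / 4 := add_le_add hw hy.le
      _ = r / 2 := by ring
  · intro y hy z hz
    refine redist_le_of_ball hg (hc.le.trans hcC)
      ((Metric.ball_subset_ball (by linarith)).trans hball) (fun w hw v => (hb w ?_ v).2) hy hz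
    rw [Metric.mem_closedBall]
    rw [Metric.mem_ball] at hw
    linarith

theorem redist_pos {V : Set (EE n)} {g : RMetric n} (hg : IsRMetricOn g V) {x y : EE n}
    (hx : x ∈ V) (hxy : x ≠ y) : 0 < redist V g x y := by
  obtain ⟨ρ, c, C, hρ, hc, hC, -, h1, -⟩ := exists_local_compare hg hx
  refine lt_of_lt_of_le ?_ (h1 x (Metric.mem_ball_self hρ) y)
  rw [ENNReal.ofReal_pos]
  exact mul_pos hc (lt_min hρ (dist_pos.mpr hxy))

/-- small `redist`-balls are relatively compact in `V` -/
theorem exists_compact_redist_ball {V : Set (EE n)} {g : RMetric n} (hg : IsRMetricOn g V)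
    {x : EE n} (hx : x ∈ V) : ∃ ρ > 0, ∃ K : Set (EE n), IsCompact K ∧ K ⊆ V ∧
      ∀ y, redist V g x y < ENNReal.ofReal ρ → y ∈ K := by
  obtain ⟨ρ, c, C, hρ, hc, hC, hsub, h1, -⟩ := exists_local_compare hg hx
  refine ⟨c * ρ, mul_pos hc hρ, Metric.closedBall x ρ, isCompact_closedBall _ _, hsub, ?_⟩
  intro y hy
  have h2 := lt_of_le_of_lt (h1 x (Metric.mem_ball_self hρ) y) hy
  rw [ENNReal.ofReal_lt_ofReal_iff (mul_pos hc hρ)] at h2
  have h3 := lt_of_mul_lt_mul_left h2 hc.le
  rw [Metric.mem_closedBall, dist_comm]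
  by_contra hcon
  rw [not_le] at hcon
  rw [min_eq_left hcon.le] at h3
  exact lt_irrefl _ h3

/-- `redist` and the Euclidean distance have the same convergent sequences -/
theorem tendsto_redist_iff {V : Set (EE n)} {g : RMetric n} (hg : IsRMetricOn g V) {x : EE n}
    (hx : x ∈ V) {ι : Type*} {l : Filter ι} {f : ι → EE n} :
    Tendsto (fun i => redist V g (f i) x) l (𝓝 0) ↔ Tendsto f l (𝓝 x) := by
  obtain ⟨ρ, c, C, hρ, hc, hC, hsub, h1, h2⟩ := exists_local_compare hg hx
  constructor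
  · intro h
    rw [Metric.tendsto_nhds]
    intro ε hε
    have hpos : (0 : ℝ≥0∞) < ENNReal.ofReal (c * min ρ ε) := by
      rw [ENNReal.ofReal_pos]
      exact mul_pos hc (lt_min hρ hε)
    filter_upwards [h.eventually (gt_mem_nhds hpos)] with i hi
    rw [redist_comm hg] at hi
    have h3 := lt_of_le_of_lt (h1 x (Metric.mem_ball_self hρ) (f i)) hi
    rw [ENNReal.ofReal_lt_ofReal_iff (mul_pos hc (lt_min hρ hε))] at h3
    have h4 := lt_of_mul_lt_mul_left h3 hc.le
    rw [dist_comm]
    by_contra hcon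
    rw [not_lt] at hcon
    exact absurd h4 (not_lt.mpr (min_le_min_left _ hcon))
  · intro h
    have h3 : Tendsto (fun i => ENNReal.ofReal (C * dist (f i) x)) l (𝓝 0) := by
      have h4 : Tendsto (fun i => C * dist (f i) x) l (𝓝 (C * 0)) :=
        (tendsto_iff_dist_tendsto_zero.mp h).const_mul C
      rw [mul_zero] at h4
      have h5 := ENNReal.tendsto_ofReal h4
      rwa [ENNReal.ofReal_zero] at h5
    refine tendsto_of_tendsto_of_tendsto_of_le_of_le' tendsto_const_nhds h3
      (Eventually.of_forall fun _ => zero_le) ?_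
    filter_upwards [h (Metric.ball_mem_nhds x hρ)] with i hi
    exact h2 (f i) hi x (Metric.mem_ball_self hρ)

end Pool.Agent.MP39e402
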