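import Pool.Agent.Lib.MP_39e402_gt.HTop
import Pool.Agent.Lib.MP_39e402_gt.MLocal

/-!
# Part H, module HTan: points with a quotient chart are in `STop`

`isTangentCone_of_quotient`: `r_j = 1 / (j + 1)`, `f [v] = Φ' (r_j • v)` (`v` any representative). By
continuity of `h` at `0`, for every `ε` there is `ρ` with
`(1 - ε)² ‖v‖² ≤ gquad h x v ≤ (1 + ε)² ‖v‖²` for `‖x‖ ≤ ρ`, so for `y, z ∈ ball 0 (ρ/4)`
`(1 - ε) ‖y - z‖ ≤ redist V h y z ≤ (1 + ε) ‖y - z‖` (`redist_ge` with centre `y` and radius `ρ / 2`,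
`redist_le_of_ball`). The rest is the definition of `PGHConv`.

`hausM_zero_eq_top`: `ℋ⁰` of an infinite set is infinite (`hausdorffMeasure_zero_singleton`,
finite subsets).
-/

open Set Filter Topology MeasureTheory
open scoped ENNReal NNReal ContDiff BigOperators

noncomputable section

namespace Pool.Agent.MP39e402

/-- comparison of the distance of the chart with the Euclidean distance near the origin -/
private theorem htan_compare {n : ℕ} {V : Set (EE n)} {h : RMetric n} (hh : IsRMetricOn h V)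
    (h0 : (0 : EE n) ∈ V) (hid : ∀ v : EE n, gquad h 0 v = ‖v‖ ^ 2) {η : ℝ} (hη : 0 < η)
    {r : ℝ} (hr : 0 < r) : ∃ s : ℝ, 0 < s ∧ s ≤ r / 2 ∧ Metric.ball 0 s ⊆ V ∧
      (∀ y ∈ Metric.ball (0 : EE n) s, ∀ z ∈ Metric.ball (0 : EE n) s,
        ENNReal.ofReal ((1 + η)⁻¹ * dist y z) ≤ redist V h y z ∧
        redist V h y z ≤ ENNReal.ofReal ((1 + η) * dist y z)) ∧
      ∀ x, ENNReal.ofReal ((1 + η)⁻¹ * min s ‖x‖) ≤ redist V h 0 x := by
  -- the bounds for the metric
  obtain ⟨ρ1, hρ1, hρ1V⟩ := Metric.isOpen_iff.mp hh.isOpen 0 h0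
  have hK : Metric.closedBall (0 : EE n) (ρ1 / 2) ⊆ V :=
    (Metric.closedBall_subset_ball (by linarith)).trans hρ1V
  obtain ⟨δ1, hδ1, hd1⟩ := exists_gquad_close hh (isCompact_closedBall (0 : EE n) (ρ1 / 2)) hK hη
  set δ : ℝ := min δ1 (ρ1 / 2) with hδ
  have hδpos : 0 < δ := lt_min hδ1 (by linarith)
  have hδV : Metric.ball (0 : EE n) δ ⊆ V := by
    refine Subset.trans ?_ hK
    exact Metric.ball_subset_closedBall.trans
      (Metric.closedBall_subset_closedBall (min_le_right _ _))
  have h1η : 0 < 1 + η := by linarith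
  have hupq : ∀ z ∈ Metric.ball (0 : EE n) δ, ∀ v : EE n,
      gquad h z v ≤ (1 + η) ^ 2 * ‖v‖ ^ 2 := by
    intro z hz v
    rw [mem_ball_zero_iff] at hz
    have h1 := (hd1 0 (Metric.mem_closedBall_self (by linarith)) z
      (hz.trans_le (min_le_left _ _))).2 v
    rwa [zero_add, hid] at h1
  have hlowq : ∀ z ∈ Metric.ball (0 : EE n) δ, ∀ v : EE n,
      ((1 + η)⁻¹) ^ 2 * ‖v‖ ^ 2 ≤ gquad h z v := by
    intro z hz v
    rw [mem_ball_zero_iff] at hz
    have h1 := (hd1 z (by
      rw [mem_closedBall_zero_iff]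
      exact hz.le.trans (min_le_right _ _)) (-z) (by
      rw [norm_neg]
      exact hz.trans_le (min_le_left _ _))).2 v
    rw [add_neg_cancel, hid] at h1
    rw [inv_pow, inv_mul_le_iff₀ (by positivity)]
    exact h1
  refine ⟨min (δ / 4) (r / 2), lt_min (by linarith) (by linarith), min_le_right _ _, ?_, ?_, ?_⟩
  · refine Subset.trans (Metric.ball_subset_ball ?_) hδV
    exact (min_le_left _ _).trans (by linarith)
  · intro y hy z hz
    have hy4 : ‖y‖ < δ / 4 := (mem_ball_zero_iff.mp hy).trans_le (min_le_left _ _)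
    have hz4 : ‖z‖ < δ / 4 := (mem_ball_zero_iff.mp hz).trans_le (min_le_left _ _)
    have hyz : dist y z ≤ δ / 2 := by
      have := dist_le_norm_add_norm y z
      linarith
    constructor
    · have h1 := redist_ge hh (x := y) (ρ := δ / 2) (c := (1 + η)⁻¹) (by linarith)
        (inv_pos.mpr h1η).le (fun w _ hw v => hlowq w (by
          rw [mem_ball_zero_iff]
          rw [Metric.mem_closedBall, dist_eq_norm] at hw
          have : ‖w‖ ≤ ‖w - y‖ + ‖y‖ := by
            calc ‖w‖ = ‖(w - y) + y‖ := by congr 1; abel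
              _ ≤ _ := norm_add_le _ _
          linarith) v) z
      rwa [min_eq_right hyz] at h1
    · refine redist_le_of_ball hh (x := 0) (ρ := δ) h1η.le hδV hupq ?_ ?_
      · rw [mem_ball_zero_iff]
        linarith
      · rw [mem_ball_zero_iff]
        linarith
  · intro x
    have h1 := redist_ge hh (x := 0) (ρ := δ / 2) (c := (1 + η)⁻¹) (by linarith)
      (inv_pos.mpr h1η).le (fun w _ hw v => hlowq w (by
        rw [mem_ball_zero_iff]
        rw [mem_closedBall_zero_iff] at hw
        linarith) v) x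
    refine le_trans (ENNReal.ofReal_le_ofReal ?_) h1
    refine mul_le_mul_of_nonneg_left ?_ (inv_pos.mpr h1η).le
    rw [dist_zero_left]
    refine min_le_min ?_ le_rfl
    exact (min_le_left _ _).trans (by linarith)

theorem isTangentCone_of_quotient {n : ℕ} {X : Type} [MetricSpace X] {V : Set (EE n)}
    {h : RMetric n} (hh : IsRMetricOn h V) (h0 : (0 : EE n) ∈ V) (hV : ∀ x ∈ V, -x ∈ V)
    (hid : ∀ v : EE n, gquad h 0 v = ‖v‖ ^ 2) (Φ' : EE n → X) {r : ℝ} (hr : 0 < r)
    (himg : Φ' '' {x | x ∈ V ∧ redist V h 0 x < ENNReal.ofReal r} = Metric.ball (Φ' 0) r)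
    (hdist : ∀ x ∈ V, redist V h 0 x < ENNReal.ofReal r →
      ∀ y ∈ V, redist V h 0 y < ENNReal.ofReal r →
        edist (Φ' x) (Φ' y) = min (redist V h x y) (redist V h x (-y))) :
    IsTangentCone X (Φ' 0) (TPM n) (TPM.o n) := by
  refine ⟨fun j => 1 / ((j : ℝ) + 1), fun j => by positivity,
    tendsto_one_div_add_atTop_nhds_zero_nat, ?_⟩
  intro R hR ε hε
  -- the accuracy
  set η : ℝ := min 1 (ε / (4 * R)) with hη
  have hηpos : 0 < η := lt_min one_pos (by positivity)
  have hη1 : η ≤ 1 := min_le_left _ _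
  have hηR : η * R ≤ ε / 4 := by
    have h1 : η ≤ ε / (4 * R) := min_le_right _ _
    calc η * R ≤ ε / (4 * R) * R := mul_le_mul_of_nonneg_right h1 hR.le
      _ = ε / 4 := by field_simp
  have h1η : 0 < 1 + η := by linarith
  obtain ⟨s, hs, hsr, hsV, hcmp, hglob⟩ := htan_compare hh h0 hid hηpos hr
  -- points of the small ball
  have hred : ∀ y ∈ Metric.ball (0 : EE n) s, redist V h 0 y < ENNReal.ofReal r := by
    intro y hy
    have h1 := (hcmp 0 (Metric.mem_ball_self hs) y hy).2
    refine lt_of_le_of_lt h1 ?_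
    rw [ENNReal.ofReal_lt_ofReal_iff hr, dist_zero_left]
    rw [mem_ball_zero_iff] at hy
    have h2 : (1 + η) * ‖y‖ ≤ 2 * ‖y‖ := mul_le_mul_of_nonneg_right (by linarith) (norm_nonneg y)
    linarith
  have hneg : ∀ y ∈ Metric.ball (0 : EE n) s, -y ∈ Metric.ball (0 : EE n) s := by
    intro y hy
    rw [mem_ball_zero_iff] at hy ⊢
    rwa [norm_neg]
  have hD : ∀ y ∈ Metric.ball (0 : EE n) s, ∀ z ∈ Metric.ball (0 : EE n) s,
      (1 + η)⁻¹ * min (dist y z) (dist y (-z)) ≤ dist (Φ' y) (Φ' z) ∧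
      dist (Φ' y) (Φ' z) ≤ (1 + η) * min (dist y z) (dist y (-z)) := by
    intro y hy z hz
    have h1 := hdist y (hsV hy) (hred y hy) z (hsV hz) (hred z hz)
    obtain ⟨h2, h3⟩ := hcmp y hy z hz
    obtain ⟨h4, h5⟩ := hcmp y hy (-z) (hneg z hz)
    constructor
    · rw [← ENNReal.ofReal_le_ofReal_iff dist_nonneg, ← edist_dist, h1, le_min_iff]
      constructor
      · refine le_trans (ENNReal.ofReal_le_ofReal ?_) h2
        exact mul_le_mul_of_nonneg_left (min_le_left _ _) (inv_pos.mpr h1η).le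
      · refine le_trans (ENNReal.ofReal_le_ofReal ?_) h4
        exact mul_le_mul_of_nonneg_left (min_le_right _ _) (inv_pos.mpr h1η).le
    · have hnn : 0 ≤ (1 + η) * min (dist y z) (dist y (-z)) :=
        mul_nonneg h1η.le (le_min dist_nonneg dist_nonneg)
      rw [← ENNReal.ofReal_le_ofReal_iff hnn, ← edist_dist, h1]
      rcases le_total (dist y z) (dist y (-z)) with h6 | h6
      · rw [min_eq_left h6]
        exact (min_le_left _ _).trans h3
      · rw [min_eq_right h6]
        exact (min_le_right _ _).trans h5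
  -- large indices
  have hlim : Tendsto (fun j : ℕ => 1 / ((j : ℝ) + 1) * (2 * R)) atTop (𝓝 (0 * (2 * R))) :=
    (tendsto_one_div_add_atTop_nhds_zero_nat (𝕜 := ℝ)).mul_const _
  rw [zero_mul] at hlim
  obtain ⟨N, hN⟩ := Filter.eventually_atTop.mp
    ((hlim.eventually (gt_mem_nhds hs)).and (hlim.eventually (gt_mem_nhds hr)))
  refine ⟨N, fun j hj => ?_⟩
  obtain ⟨hjs, hjr⟩ := hN j hj
  set t : ℝ := 1 / ((j : ℝ) + 1) with ht
  have htpos : 0 < t := by positivity
  -- representatives
  have hrep : ∀ a : TPM n, ∃ v : EE n, (EE.invo n).pr v = a := (EE.invo n).pr_surj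
  choose rep hrep using hrep
  have hrepo : rep (TPM.o n) = 0 := by
    have h1 := (EE.invo n).pr_eq.mp (hrep (TPM.o n))
    rcases h1 with h1 | h1
    · exact h1.symm
    · have h2 : (0 : EE n) = - rep (TPM.o n) := h1
      rw [← neg_eq_zero]
      exact h2.symm
  have hdo : ∀ v : EE n, dist ((EE.invo n).pr v) (TPM.o n) = ‖v‖ := by
    intro v
    have h1 := (EE.invo n).dist_pr v 0
    have h2 : (EE.invo n).s (0 : EE n) = -0 := rfl
    rw [h2, neg_zero, min_self, dist_zero_right] at h1
    exact h1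
  have hdpr : ∀ v w : EE n, dist ((EE.invo n).pr v) ((EE.invo n).pr w) =
      min (dist v w) (dist v (-w)) := fun v w => (EE.invo n).dist_pr v w
  have hscale : ∀ v w : EE n, min (dist (t • v) (t • w)) (dist (t • v) (-(t • w))) =
      t * min (dist v w) (dist v (-w)) := by
    intro v w
    rw [← smul_neg, dist_smul₀, dist_smul₀, Real.norm_eq_abs, abs_of_pos htpos,
      mul_min_of_nonneg _ _ htpos.le]
  have hball : ∀ v : EE n, ‖v‖ < 2 * R → t • v ∈ Metric.ball (0 : EE n) s := by
    intro v hv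
    rw [mem_ball_zero_iff, norm_smul, Real.norm_eq_abs, abs_of_pos htpos]
    exact (mul_lt_mul_of_pos_left hv htpos).trans hjs
  refine ⟨fun a => Φ' (t • rep a), ?_, ?_, ?_⟩
  · simp only [hrepo, smul_zero]
  · intro a ha b hb
    have ha' : ‖rep a‖ < R := by
      rw [← hdo, hrep]
      exact ha
    have hb' : ‖rep b‖ < R := by
      rw [← hdo, hrep]
      exact hb
    have h1 := hD _ (hball (rep a) (by linarith)) _ (hball (rep b) (by linarith))
    rw [hscale, ← hdpr, hrep, hrep] at h1
    obtain ⟨h2, h3⟩ := h1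
    have hab : dist a b < 2 * R := by
      have h4 := dist_triangle_right a b (TPM.o n)
      rw [Metric.mem_ball] at ha hb
      linarith
    have h4 : dist (Φ' (t • rep a)) (Φ' (t • rep b)) / t ≤ (1 + η) * dist a b := by
      rw [div_le_iff₀ htpos]
      linarith
    have h5 : (1 + η)⁻¹ * dist a b ≤ dist (Φ' (t • rep a)) (Φ' (t • rep b)) / t := by
      rw [le_div_iff₀ htpos]
      linarith
    have h6 : (1 - η) * dist a b ≤ (1 + η)⁻¹ * dist a b := by
      refine mul_le_mul_of_nonneg_right ?_ dist_nonneg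
      rw [← one_div, le_div_iff₀ h1η]
      nlinarith
    have h7 : η * dist a b ≤ ε / 2 := by
      have h8 := mul_le_mul_of_nonneg_left hab.le hηpos.le
      linarith
    rw [abs_lt]
    constructor <;> nlinarith
  · intro y hy
    have hyd : dist (Φ' 0) y < t * (R - ε) := by
      rw [div_lt_iff₀ htpos] at hy
      linarith
    have hRε : 0 < R - ε := by
      by_contra hcon
      have h1 := mul_nonpos_of_nonneg_of_nonpos htpos.le (not_lt.mp hcon)
      have h2 := dist_nonneg (x := Φ' 0) (y := y)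
      linarith
    have htR : t * (R - ε) < t * (2 * R) := mul_lt_mul_of_pos_left (by linarith) htpos
    have hyball : y ∈ Metric.ball (Φ' 0) r := by
      rw [Metric.mem_ball, dist_comm]
      linarith
    rw [← himg] at hyball
    obtain ⟨x, ⟨hxV, hxr⟩, rfl⟩ := hyball
    have h1 := hdist 0 h0 (by
      have h2 := hred 0 (Metric.mem_ball_self hs)
      exact h2) x hxV hxr
    -- x is small
    have hxn : (1 + η)⁻¹ * min s ‖x‖ ≤ dist (Φ' 0) (Φ' x) := by
      rw [← ENNReal.ofReal_le_ofReal_iff dist_nonneg, ← edist_dist, h1, le_min_iff]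
      refine ⟨hglob x, ?_⟩
      have h2 := hglob (-x)
      rwa [norm_neg] at h2
    have hmin : min s ‖x‖ ≤ (1 + η) * dist (Φ' 0) (Φ' x) := by
      rwa [inv_mul_le_iff₀ h1η] at hxn
    have hmin2 : min s ‖x‖ < (1 + η) * (t * (R - ε)) :=
      lt_of_le_of_lt hmin (mul_lt_mul_of_pos_left hyd h1η)
    have hηε : (1 + η) * (R - ε) < R := by
      nlinarith
    have htR2 : (1 + η) * (t * (R - ε)) < t * R := by
      have : (1 + η) * (t * (R - ε)) = t * ((1 + η) * (R - ε)) := by ring
      rw [this]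
      exact mul_lt_mul_of_pos_left hηε htpos
    have hxs : ‖x‖ < t * R := by
      rcases le_total s ‖x‖ with h3 | h3
      · rw [min_eq_left h3] at hmin2
        nlinarith
      · rw [min_eq_right h3] at hmin2
        linarith
    have hxball : x ∈ Metric.ball (0 : EE n) s := by
      rw [mem_ball_zero_iff]
      nlinarith
    set u : EE n := t⁻¹ • x with hu
    have htu : t • u = x := by
      rw [hu, smul_smul, mul_inv_cancel₀ htpos.ne', one_smul]
    have hun : ‖u‖ < R := by
      rw [hu, norm_smul, norm_inv, Real.norm_eq_abs, abs_of_pos htpos, inv_mul_lt_iff₀ htpos]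
      exact hxs
    refine ⟨(EE.invo n).pr u, ?_, ?_⟩
    · rw [Metric.mem_ball, hdo]
      exact hun
    · have h2 := (EE.invo n).pr_eq.mp (hrep ((EE.invo n).pr u))
      have h3 : Φ' (t • rep ((EE.invo n).pr u)) = Φ' x := by
        rcases h2 with h2 | h2
        · rw [← h2, htu]
        · have h4 : rep ((EE.invo n).pr u) = -u := by
            have h5 : u = - rep ((EE.invo n).pr u) := h2
            rw [h5, neg_neg, ← h5]
          rw [h4, smul_neg, htu]
          have h5 := (hD (-x) (hneg x hxball) x hxball).2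
          rw [dist_self (-x), min_eq_right dist_nonneg, mul_zero] at h5
          exact dist_le_zero.mp h5
      simp only [h3, dist_self, zero_div]
      exact hε

theorem mem_STop_of_quotient {X : Type} [MetricSpace X] {V : Set (EE 4)}
    {h : RMetric 4} (hh : IsRMetricOn h V) (h0 : (0 : EE 4) ∈ V) (hV : ∀ x ∈ V, -x ∈ V)
    (hid : ∀ v : EE 4, gquad h 0 v = ‖v‖ ^ 2) (Φ' : EE 4 → X) {r : ℝ} (hr : 0 < r)
    (himg : Φ' '' {x | x ∈ V ∧ redist V h 0 x < ENNReal.ofReal r} = Metric.ball (Φ' 0) r)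
    (hdist : ∀ x ∈ V, redist V h 0 x < ENNReal.ofReal r →
      ∀ y ∈ V, redist V h 0 y < ENNReal.ofReal r →
        edist (Φ' x) (Φ' y) = min (redist V h x y) (redist V h x (-y))) :
    Φ' 0 ∈ STop 4 X := by
  have := ASph.compactSpace 4
  exact ⟨TPM 4, inferInstance, TPM.o 4, RPM 4, inferInstance, (ASph.invo 4).compactSpace_Q,
    (EE.invo 4).properSpace_Q, isTangentCone_of_quotient hh h0 hV hid Φ' hr himg hdist,
    isMetricCone_TPM (by norm_num), isEmpty_homeo_RPM⟩

theorem hausM_zero_eq_top {X : Type} [MetricSpace X] {A : Set X} (hA : A.Infinite) :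
    hausM 0 A = ⊤ := by
  let : MeasurableSpace X := borel X
  have : BorelSpace X := ⟨rfl⟩
  have hinj := hA.natEmbedding
  change Measure.hausdorffMeasure 0 A = ⊤
  set f : ℕ → X := fun k => (hinj k : X) with hf
  have hfinj : Function.Injective f := fun a b hab => hinj.injective (Subtype.ext hab)
  have h1 : (⋃ k, {f k}) ⊆ A := by
    intro x hx
    obtain ⟨k, hk⟩ := mem_iUnion.mp hx
    rw [mem_singleton_iff] at hk
    rw [hk]
    exact (hinj k).2
  have h2 : Measure.hausdorffMeasure 0 (⋃ k, {f k}) = (⊤ : ℝ≥0∞) := by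
    rw [measure_iUnion]
    · simp only [Measure.hausdorffMeasure_zero_singleton]
      exact ENNReal.tsum_const_eq_top_of_ne_zero one_ne_zero
    · intro a b hab
      rw [Function.onFun, disjoint_singleton]
      exact fun h => hab (hfinj h)
    · exact fun k => measurableSet_singleton _
  rw [eq_top_iff, ← h2]
  exact measure_mono h1

/-- final step: infinitely many points of `STop` in a bounded set -/
theorem not_conjecture {X : Type} [MetricSpace X] {x : X} (hX : IsNoncollapsedRicciLimit 4 X x)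
    {A : Set X} (hA : A.Infinite) (hb : Bornology.IsBounded A) (hS : A ⊆ STop 4 X) :
    ¬ Conjecture39e402 := by
  intro hC
  have h1 := (hC 4 le_rfl X inferInstance x hX).2 A hb
  have h2 : STop 4 X ∩ A = A := inter_eq_right.mpr hS
  rw [h2] at h1
  have h3 : (((4 - 4 : ℕ)) : ℝ) = 0 := by norm_num
  rw [h3, hausM_zero_eq_top hA] at h1
  exact lt_irrefl _ h1

end Pool.Agent.MP39e402
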