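import Pool.Agent.Lib.MP_39e402_gt.HSph

/-!
# Part H, module HTop: `RP³` is not homeomorphic to `S³`

`p : ASph 4 → RPM 4` (`(ASph.invo 4).pr`) is a covering map with two sheets (quotient by the action of
`ℤˣ`). Let `φ : sphere (0 : EE 4) 1 → RPM 4` be a homeomorphism. The inverses of the two stereographic
projections (from `v` and from `-v`) are maps from the simply connected space `ℝ³`, so `φ` has lifts over
the complements of `v` and of `-v`. On the intersection, which is connected, they agree up to a sign.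
So `φ` has a global lift, that is, `p` has a section; this is impossible since `ASph 4` is connected.
-/

open Set Filter Topology MeasureTheory
open scoped ENNReal NNReal ContDiff BigOperators

noncomputable section

namespace Pool.Agent.MP39e402

theorem HTop_continuous_val {n : ℕ} : Continuous (fun x : ASph n => x.val) :=
  continuous_iff_continuousAt.mpr fun x => ASph.tendsto_iff.mp tendsto_id

theorem HTop_continuous_mk {n : ℕ} {Y : Type*} [TopologicalSpace Y] {f : Y → ASph n}
    (h : Continuous fun y => (f y).val) : Continuous f :=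
  continuous_iff_continuousAt.mpr fun y => ASph.tendsto_iff.mpr (h.tendsto y)

/-- the antipode -/
def HTop_neg {n : ℕ} (x : ASph n) : ASph n := (ASph.invo n).s x

theorem HTop_neg_val {n : ℕ} (x : ASph n) : (HTop_neg x).val = -x.val := rfl

theorem HTop_continuous_neg {n : ℕ} : Continuous (HTop_neg : ASph n → ASph n) :=
  HTop_continuous_mk (HTop_continuous_val.neg)

theorem HTop_ext {n : ℕ} {x y : ASph n} (h : x.val = y.val) : x = y := by
  cases x; cases y; simp_all

theorem HTop_neg_ne {n : ℕ} (x : ASph n) : HTop_neg x ≠ x := by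
  intro h
  have h1 : -x.val = x.val := by rw [← HTop_neg_val, h]
  have h2 : x.val = 0 := by
    have h3 : (2 : ℝ) • x.val = 0 := by
      rw [two_smul]
      nth_rewrite 1 [← h1]
      exact neg_add_cancel _
    exact (smul_eq_zero.mp h3).resolve_left two_ne_zero
  have := x.norm_eq
  rw [h2, norm_zero] at this
  exact zero_ne_one this

instance HTop_action (n : ℕ) : MulAction ℤˣ (ASph n) where
  smul u x := ⟨((u : ℤ) : ℝ) • x.val, by
    rw [norm_smul, x.norm_eq, mul_one]
    rcases Int.units_eq_one_or u with h | h <;> simp [h]⟩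
  one_smul x := HTop_ext (by
    change (((1 : ℤˣ) : ℤ) : ℝ) • x.val = x.val
    simp)
  mul_smul u v x := HTop_ext (by
    change (((u * v : ℤˣ) : ℤ) : ℝ) • x.val = ((u : ℤ) : ℝ) • (((v : ℤ) : ℝ) • x.val)
    rw [smul_smul]
    simp)

theorem HTop_smul_val {n : ℕ} (u : ℤˣ) (x : ASph n) : (u • x).val = ((u : ℤ) : ℝ) • x.val := rfl

theorem HTop_neg_one_smul {n : ℕ} (x : ASph n) : (-1 : ℤˣ) • x = HTop_neg x :=
  HTop_ext (by rw [HTop_smul_val, HTop_neg_val]; simp)

theorem HTop_isQuotientMap (n : ℕ) : IsQuotientMap ((ASph.invo n).pr) := by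
  have := ASph.compactSpace n
  refine IsClosedMap.isQuotientMap ?_ (Invo.continuous_pr _) (Invo.pr_surj _)
  exact (Invo.continuous_pr _).isClosedMap

theorem HTop_isQuotientCovering (n : ℕ) : IsQuotientCoveringMap ((ASph.invo n).pr) ℤˣ where
  toIsQuotientMap := HTop_isQuotientMap n
  continuous_const_smul u := by
    rcases Int.units_eq_one_or u with rfl | rfl
    · simp only [one_smul]
      exact continuous_id
    · simp only [HTop_neg_one_smul]
      exact HTop_continuous_neg
  apply_eq_iff_mem_orbit {x y} := by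
    rw [Invo.pr_eq]
    constructor
    · rintro (h | h)
      · exact ⟨1, by simp [h]⟩
      · refine ⟨-1, ?_⟩
        change (-1 : ℤˣ) • y = x
        rw [HTop_neg_one_smul, h]
        exact (ASph.invo n).inv x
    · rintro ⟨u, hu⟩
      change u • y = x at hu
      rcases Int.units_eq_one_or u with rfl | rfl
      · left; rw [← hu, one_smul]
      · right
        rw [← hu, HTop_neg_one_smul]
        exact ((ASph.invo n).inv y).symm
  disjoint e := by
    obtain ⟨U, hU, V, hV, hUV⟩ : ∃ U ∈ 𝓝 e, ∃ V ∈ 𝓝 (HTop_neg e), Disjoint U V :=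
      Filter.disjoint_iff.mp (disjoint_nhds_nhds.mpr (HTop_neg_ne e).symm)
    refine ⟨U ∩ HTop_neg ⁻¹' V, Filter.inter_mem hU (HTop_continuous_neg.continuousAt hV), ?_⟩
    intro u hu
    rcases Int.units_eq_one_or u with rfl | rfl
    · rfl
    · exfalso
      obtain ⟨y, ⟨x, hx, hxy⟩, hy⟩ := hu
      change (-1 : ℤˣ) • x = y at hxy
      rw [HTop_neg_one_smul] at hxy
      refine Set.disjoint_left.mp hUV hy.1 ?_
      rw [← hxy]
      exact hx.2

theorem isCoveringMap_pr : IsCoveringMap ((ASph.invo 4).pr) :=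
  (HTop_isQuotientCovering 4).isCoveringMap

theorem HTop_rank : 1 < Module.rank ℝ (EE 4) := by
  rw [← Module.finrank_eq_rank]
  simp

theorem HTop_rank3 : 1 < Module.rank ℝ (EuclideanSpace ℝ (Fin 3)) := by
  rw [← Module.finrank_eq_rank]
  simp

theorem HTop_preconnected : IsPreconnected (univ : Set (ASph 4)) := by
  have h1 : IsPreconnected (Metric.sphere (0 : EE 4) 1) := isPreconnected_sphere HTop_rank 0 1
  have h2 : PreconnectedSpace (Metric.sphere (0 : EE 4) 1) :=
    isPreconnected_iff_preconnectedSpace.mp h1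
  let g : Metric.sphere (0 : EE 4) 1 → ASph 4 := fun x => ⟨x.1, by simpa using x.2⟩
  have hg : Continuous g := HTop_continuous_mk continuous_subtype_val
  have hs : Function.Surjective g := fun x => ⟨⟨x.val, by simpa using x.norm_eq⟩, HTop_ext rfl⟩
  rw [← hs.range_eq]
  exact isPreconnected_range hg

/-- two lifts on a preconnected set agree up to a global sign -/
theorem HTop_sign {Y : Type*} [TopologicalSpace Y] {A : Set Y} (hA : IsPreconnected A)
    {s t : Y → ASph 4} (hs : ContinuousOn s A) (ht : ContinuousOn t A)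
    (h : ∀ y ∈ A, (ASph.invo 4).pr (s y) = (ASph.invo 4).pr (t y)) :
    (∀ y ∈ A, s y = t y) ∨ (∀ y ∈ A, s y = HTop_neg (t y)) := by
  let q : Y → ℝ := fun y => inner ℝ (s y).val (t y).val
  have hq : ContinuousOn q A :=
    (HTop_continuous_val.comp_continuousOn hs).inner (HTop_continuous_val.comp_continuousOn ht)
  have h1 : ∀ y ∈ A, (s y = t y ∧ q y = 1) ∨ (s y = HTop_neg (t y) ∧ q y = -1) := by
    intro y hy
    rcases (Invo.pr_eq _).mp (h y hy) with h2 | h2
    · left
      refine ⟨h2.symm, ?_⟩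
      change inner ℝ (s y).val (t y).val = (1 : ℝ)
      rw [h2, real_inner_self_eq_norm_sq, (s y).norm_eq]
      norm_num
    · right
      have h3 : s y = HTop_neg (t y) := by
        rw [h2]
        exact ((ASph.invo 4).inv (s y)).symm
      refine ⟨h3, ?_⟩
      change inner ℝ (s y).val (t y).val = (-1 : ℝ)
      rw [h3, HTop_neg_val, inner_neg_left, real_inner_self_eq_norm_sq, (t y).norm_eq]
      norm_num
  by_contra hcon
  push Not at hcon
  obtain ⟨⟨y, hy, hy'⟩, z, hz, hz'⟩ := hcon
  have hqy : q y = -1 := by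
    rcases h1 y hy with h2 | h2
    · exact absurd h2.1 hy'
    · exact h2.2
  have hqz : q z = 1 := by
    rcases h1 z hz with h2 | h2
    · exact h2.2
    · exact absurd h2.1 hz'
  have h3 : (0 : ℝ) ∈ q '' A :=
    hA.intermediate_value hy hz hq (by rw [hqy, hqz]; constructor <;> norm_num)
  obtain ⟨w, hw, hw'⟩ := h3
  rcases h1 w hw with h2 | h2
  · rw [h2.2] at hw'; norm_num at hw'
  · rw [h2.2] at hw'; norm_num at hw'

/-- no continuous section -/
theorem no_section : ¬ ∃ s : RPM 4 → ASph 4, Continuous s ∧ ∀ a, (ASph.invo 4).pr (s a) = a := by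
  rintro ⟨s, hs, h⟩
  have hc : Continuous fun x : ASph 4 => s ((ASph.invo 4).pr x) :=
    hs.comp (Invo.continuous_pr _)
  have x₀ : ASph 4 := ⟨EuclideanSpace.single 0 1, by simp⟩
  have hne : (ASph.invo 4).pr (HTop_neg x₀) = (ASph.invo 4).pr x₀ :=
    (Invo.pr_eq _).mpr (Or.inr ((ASph.invo 4).inv x₀).symm)
  rcases HTop_sign HTop_preconnected (s := fun x : ASph 4 => s ((ASph.invo 4).pr x)) (t := id)
    hc.continuousOn continuous_id.continuousOn (fun y _ => h _) with h1 | h1
  · have e1 := h1 x₀ (mem_univ _)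
    have e2 := h1 (HTop_neg x₀) (mem_univ _)
    simp only [id] at e1 e2
    rw [hne, e1] at e2
    exact HTop_neg_ne x₀ e2.symm
  · have e1 := h1 x₀ (mem_univ _)
    have e2 := h1 (HTop_neg x₀) (mem_univ _)
    simp only [id] at e1 e2
    rw [hne, e1] at e2
    have e3 : HTop_neg (HTop_neg x₀) = x₀ := (ASph.invo 4).inv x₀
    rw [e3] at e2
    exact HTop_neg_ne x₀ e2

instance HTop_fact : Fact (Module.finrank ℝ (EE 4) = 3 + 1) := ⟨by simp⟩

/-- lift over the complement of `v` -/
theorem HTop_lift (φ : Metric.sphere (0 : EE 4) 1 → RPM 4) (hφ : Continuous φ)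
    (v : Metric.sphere (0 : EE 4) 1) :
    ∃ s : Metric.sphere (0 : EE 4) 1 → ASph 4, ContinuousOn s {v}ᶜ ∧
      ∀ y ∈ ({v}ᶜ : Set (Metric.sphere (0 : EE 4) 1)), (ASph.invo 4).pr (s y) = φ y := by
  let e := stereographic' (E := EE 4) 3 v
  have ht : e.target = univ := stereographic'_target v
  have hsrc : e.source = {v}ᶜ := stereographic'_source v
  have hsymm : Continuous e.symm := by
    have := e.continuousOn_symm
    rw [ht] at this
    exact continuousOn_univ.mp this
  let f : C(EuclideanSpace ℝ (Fin 3), RPM 4) := ⟨fun x => φ (e.symm x), hφ.comp hsymm⟩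
  obtain ⟨e₀, he₀⟩ := Invo.pr_surj (ASph.invo 4) (f 0)
  obtain ⟨F, ⟨-, hF⟩, -⟩ := isCoveringMap_pr.existsUnique_continuousMap_lifts f 0 e₀ he₀
  refine ⟨fun y => F (e y), ?_, ?_⟩
  · rw [← hsrc]
    exact F.continuous.comp_continuousOn e.continuousOn
  · intro y hy
    have h1 : (ASph.invo 4).pr (F (e y)) = f (e y) := congrFun hF (e y)
    rw [h1]
    change φ (e.symm (e y)) = φ y
    rw [e.left_inv (by rw [hsrc]; exact hy)]

theorem HTop_overlap (v w : Metric.sphere (0 : EE 4) 1) (hvw : w ≠ v) :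
    IsPreconnected ({v}ᶜ ∩ {w}ᶜ : Set (Metric.sphere (0 : EE 4) 1)) := by
  let e := stereographic' (E := EE 4) 3 v
  have ht : e.target = univ := stereographic'_target v
  have hsrc : e.source = {v}ᶜ := stereographic'_source v
  have hsymm : Continuous e.symm := by
    have := e.continuousOn_symm
    rw [ht] at this
    exact continuousOn_univ.mp this
  have h1 : ({v}ᶜ ∩ {w}ᶜ : Set (Metric.sphere (0 : EE 4) 1)) = e.symm '' {e w}ᶜ := by
    ext y
    constructor
    · rintro ⟨hy1, hy2⟩
      refine ⟨e y, ?_, e.left_inv (by rw [hsrc]; exact hy1)⟩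
      intro h
      apply hy2
      exact e.injOn (by rw [hsrc]; exact hy1) (by rw [hsrc]; exact hvw) h
    · rintro ⟨x, hx, rfl⟩
      refine ⟨?_, ?_⟩
      · rw [← hsrc]
        exact e.map_target (by rw [ht]; exact mem_univ _)
      · intro h
        apply hx
        have h2 : e.symm x = w := h
        change x = e w
        rw [← h2]
        exact (e.right_inv (by rw [ht]; exact mem_univ _)).symm
  rw [h1]
  exact ((isConnected_compl_singleton_of_one_lt_rank HTop_rank3 _).isPreconnected).image _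
    hsymm.continuousOn

theorem isEmpty_homeo_RPM : IsEmpty (RPM 4 ≃ₜ Metric.sphere (0 : EE 4) 1) := by
  refine ⟨fun Φ => ?_⟩
  let v : Metric.sphere (0 : EE 4) 1 := ⟨EuclideanSpace.single 0 1, by simp⟩
  let w : Metric.sphere (0 : EE 4) 1 := ⟨EuclideanSpace.single 1 1, by simp⟩
  have hvw : w ≠ v := by
    intro h
    have h1 : (EuclideanSpace.single 1 1 : EE 4) = EuclideanSpace.single 0 1 := congrArg Subtype.val h
    have h2 := congrArg (fun x : EE 4 => x 0) h1
    simp at h2
  obtain ⟨s, hs, hs'⟩ := HTop_lift Φ.symm Φ.symm.continuous v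
  obtain ⟨t₀, ht₀, ht₀'⟩ := HTop_lift Φ.symm Φ.symm.continuous w
  -- adjust the sign of t
  obtain ⟨t, ht, ht', hst⟩ : ∃ t : Metric.sphere (0 : EE 4) 1 → ASph 4, ContinuousOn t {w}ᶜ ∧
      (∀ y ∈ ({w}ᶜ : Set (Metric.sphere (0 : EE 4) 1)), (ASph.invo 4).pr (t y) = Φ.symm y) ∧
      ∀ y ∈ ({v}ᶜ ∩ {w}ᶜ : Set (Metric.sphere (0 : EE 4) 1)), s y = t y := by
    rcases HTop_sign (HTop_overlap v w hvw) (hs.mono inter_subset_left)
      (ht₀.mono inter_subset_right)
      (fun y hy => by rw [hs' y hy.1, ht₀' y hy.2]) with h1 | h1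
    · exact ⟨t₀, ht₀, ht₀', h1⟩
    · refine ⟨fun y => HTop_neg (t₀ y), HTop_continuous_neg.comp_continuousOn ht₀, ?_, h1⟩
      intro y hy
      rw [← ht₀' y hy]
      exact (Invo.pr_eq _).mpr (Or.inr ((ASph.invo 4).inv (t₀ y)).symm)
  classical
  let q : Metric.sphere (0 : EE 4) 1 → ASph 4 := fun y => if y = v then t y else s y
  have hq1 : ∀ y ∈ ({v}ᶜ : Set (Metric.sphere (0 : EE 4) 1)), q y = s y := fun y hy => if_neg hy
  have hq2 : ∀ y ∈ ({w}ᶜ : Set (Metric.sphere (0 : EE 4) 1)), q y = t y := by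
    intro y hy
    by_cases hyv : y = v
    · exact if_pos hyv
    · rw [hq1 y hyv]
      exact hst y ⟨hyv, hy⟩
  have hqc : Continuous q := by
    rw [continuous_iff_continuousAt]
    intro y
    by_cases hyv : y = v
    · have hyw : y ∈ ({w}ᶜ : Set (Metric.sphere (0 : EE 4) 1)) := by
        rw [hyv]; exact fun h => hvw h.symm
      have h3 : ({w}ᶜ : Set (Metric.sphere (0 : EE 4) 1)) ∈ 𝓝 y := isOpen_compl_singleton.mem_nhds hyw
      exact ((ht.congr hq2).continuousAt h3)
    · have h3 : ({v}ᶜ : Set (Metric.sphere (0 : EE 4) 1)) ∈ 𝓝 y := isOpen_compl_singleton.mem_nhds hyv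
      exact ((hs.congr hq1).continuousAt h3)
  have hqp : ∀ y, (ASph.invo 4).pr (q y) = Φ.symm y := by
    intro y
    by_cases hyv : y = v
    · have hyw : y ∈ ({w}ᶜ : Set (Metric.sphere (0 : EE 4) 1)) := by
        rw [hyv]; exact fun h => hvw h.symm
      rw [hq2 y hyw, ht' y hyw]
    · rw [hq1 y hyv, hs' y hyv]
  exact no_section ⟨fun a => q (Φ a), hqc.comp Φ.continuous, fun a => by rw [hqp]; simp⟩

end Pool.Agent.MP39e402
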