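import Pool.Agent.Lib.MP_39e402_gt.LSt

/-! # MP_39e402, module LAng: the angular functions `mf, estar, Gam, vth, vthI` -/

open Real Set Filter Topology MeasureTheory
open scoped ContDiff

noncomputable section

namespace Pool.Agent.MP39e402

theorem mf_contDiff : ContDiff ℝ ∞ mf := by
  have h1 : ContDiff ℝ ∞ (fun t : ℝ => st ((t - π / 40) / (π / 80))) :=
    st_contDiff.comp ((contDiff_id.sub contDiff_const).div_const _)
  have h2 : ContDiff ℝ ∞ (fun t : ℝ => st ((π - t - π / 40) / (π / 80))) :=
    st_contDiff.comp (((contDiff_const.sub contDiff_id).sub contDiff_const).div_const _)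
  exact (contDiff_const.mul h1).mul h2

theorem mf_nonneg (t : ℝ) : 0 ≤ mf t :=
  mul_nonneg (mul_nonneg (by norm_num) (st_nonneg _)) (st_nonneg _)

theorem mf_le (t : ℝ) : mf t ≤ 8 / 15 := by
  have a0 := st_nonneg ((t - π / 40) / (π / 80))
  have a1 := st_le_one ((t - π / 40) / (π / 80))
  have b0 := st_nonneg ((π - t - π / 40) / (π / 80))
  have b1 := st_le_one ((π - t - π / 40) / (π / 80))
  have h := mul_le_one₀ a1 b0 b1
  unfold mf
  nlinarith

theorem mf_zero_left {t : ℝ} (h : t ≤ π / 40) : mf t = 0 := by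
  have hπ := Real.pi_pos
  have : st ((t - π / 40) / (π / 80)) = 0 :=
    st_zero (div_nonpos_of_nonpos_of_nonneg (by linarith) (by positivity))
  rw [mf, this]
  ring

theorem mf_symm (t : ℝ) : mf (π - t) = mf t := by
  unfold mf
  have e : π - (π - t) - π / 40 = t - π / 40 := by ring
  rw [e]
  ring

theorem mf_zero_right {t : ℝ} (h : π - π / 40 ≤ t) : mf t = 0 := by
  rw [← mf_symm]
  exact mf_zero_left (by linarith)

theorem LAng_mf_of_le {t : ℝ} (h : t ≤ π - 3 * π / 80) :
    mf t = 8 / 15 * st ((t - π / 40) / (π / 80)) := by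
  have hπ := Real.pi_pos
  have : st ((π - t - π / 40) / (π / 80)) = 1 := by
    apply st_one
    rw [le_div_iff₀ (by positivity)]
    linarith
  rw [mf, this, mul_one]

theorem mf_mid {t : ℝ} (h1 : 3 * π / 80 ≤ t) (h2 : t ≤ π - 3 * π / 80) : mf t = 8 / 15 := by
  have hπ := Real.pi_pos
  have : st ((t - π / 40) / (π / 80)) = 1 := by
    apply st_one
    rw [le_div_iff₀ (by positivity)]
    linarith
  rw [LAng_mf_of_le h2, this, mul_one]

theorem mf_deriv_nonneg {t : ℝ} (h : t ≤ π / 2) : 0 ≤ deriv mf t := by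
  have hπ := Real.pi_pos
  have he : mf =ᶠ[𝓝 t] fun t => 8 / 15 * st ((t - π / 40) / (π / 80)) := by
    filter_upwards [Iio_mem_nhds (show t < π - 3 * π / 80 by linarith)] with s hs
    exact LAng_mf_of_le hs.le
  rw [he.deriv_eq]
  have hd : DifferentiableAt ℝ st ((t - π / 40) / (π / 80)) :=
    (st_contDiff.differentiable (by simp)) _
  have h := ((hd.hasDerivAt.comp t
    (((hasDerivAt_id t).sub_const (π / 40)).div_const (π / 80))).const_mul (8 / 15))
  have h' : deriv (fun t => 8 / 15 * st ((t - π / 40) / (π / 80))) t =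
      8 / 15 * (deriv st ((t - π / 40) / (π / 80)) * (1 / (π / 80))) := h.deriv
  rw [h']
  have := st_deriv_nonneg ((t - π / 40) / (π / 80))
  positivity

theorem mf_deriv_nonpos {t : ℝ} (h : π / 2 ≤ t) : deriv mf t ≤ 0 := by
  have e : mf = fun t => mf (π - t) := funext fun t => (mf_symm t).symm
  rw [e, deriv_comp_const_sub]
  have := mf_deriv_nonneg (t := π - t) (by linarith)
  linarith

theorem LAng_mf_cont : Continuous mf := mf_contDiff.continuous

/-- integral of `mf` from `0` to `x ≤ π - 3π/80` -/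
theorem LAng_mf_int {x : ℝ} (h0 : 0 ≤ x) (h : x ≤ π - 3 * π / 80) :
    ∫ r in (0:ℝ)..x, mf r = 8 / 15 * (π / 80) * ∫ r in (0:ℝ)..((x - π / 40) / (π / 80)), st r := by
  have hπ := Real.pi_pos
  have e1 : ∫ r in (0:ℝ)..x, mf r = ∫ r in (0:ℝ)..x, 8 / 15 * st ((r - π / 40) / (π / 80)) := by
    apply intervalIntegral.integral_congr
    intro r hr
    rw [uIcc_of_le h0] at hr
    exact LAng_mf_of_le (hr.2.trans h)
  have hd : ∀ r : ℝ, HasDerivAt (fun r => 8 / 15 * (π / 80) *
      ∫ u in (0:ℝ)..((r - π / 40) / (π / 80)), st u) (8 / 15 * st ((r - π / 40) / (π / 80))) r := by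
    intro r
    have h1 := ((stI_hasDerivAt ((r - π / 40) / (π / 80))).comp r
      (((hasDerivAt_id r).sub_const (π / 40)).div_const (π / 80))).const_mul (8 / 15 * (π / 80))
    refine h1.congr_deriv ?_
    field_simp
  rw [e1, intervalIntegral.integral_eq_sub_of_hasDerivAt (fun r _ => hd r)]
  · have : ∫ u in (0:ℝ)..((0 - π / 40) / (π / 80)), st u = 0 :=
      stI_of_nonpos (div_nonpos_of_nonpos_of_nonneg (by linarith) (by positivity))
    rw [this]
    ring
  · apply Continuous.intervalIntegrable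
    exact continuous_const.mul (st_contDiff.continuous.comp (by fun_prop))

/-- `∫_0^{π/2} m = π/4` -/
theorem mf_integral : ∫ r in (0:ℝ)..(π / 2), mf r = π / 4 := by
  have hπ := Real.pi_pos
  rw [LAng_mf_int (by positivity) (by linarith)]
  have h1 : 1 ≤ (π / 2 - π / 40) / (π / 80) := by
    rw [le_div_iff₀ (by positivity)]
    linarith
  rw [stI_of_one_le h1]
  field_simp
  ring

theorem estar_symm (t : ℝ) : estar (π - t) = -estar t := by
  unfold estar
  rw [Real.cos_pi_sub, Real.sin_pi_sub]
  ring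

theorem estar_hasDerivAt (t : ℝ) :
    HasDerivAt estar (-(15 / 7) * (1 + 5 / 2 * sin t - 2 * (sin t)^2)) t := by
  have h := ((Real.hasDerivAt_cos t).const_mul (15 / 7)).mul ((Real.hasDerivAt_sin t).const_sub (5 / 2))
  refine h.congr_deriv ?_
  have := Real.sin_sq_add_cos_sq t
  linear_combination (-(15 / 7)) * this

theorem LAng_estar_contDiff : ContDiff ℝ ∞ estar := by
  unfold estar
  exact (contDiff_const.mul Real.contDiff_cos).mul (contDiff_const.sub Real.contDiff_sin)

theorem LAng_g_contDiff : ContDiff ℝ ∞ (fun r => (1 - mf r) * estar r - Real.cos r) :=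
  ((contDiff_const.sub mf_contDiff).mul LAng_estar_contDiff).sub Real.contDiff_cos

theorem LAng_g_int (a b : ℝ) :
    IntervalIntegrable (fun r => (1 - mf r) * estar r - Real.cos r) volume a b :=
  LAng_g_contDiff.continuous.intervalIntegrable a b

theorem Gam_hasDerivAt (t : ℝ) : HasDerivAt Gam ((1 - mf t) * estar t - cos t) t := by
  have h := (LAng_g_contDiff.continuous.integral_hasStrictDerivAt (π / 2) t).hasDerivAt
  exact h.const_add (3 / 2)

theorem Gam_contDiff : ContDiff ℝ ∞ Gam := by
  have e : deriv Gam = fun t => (1 - mf t) * estar t - cos t :=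
    funext fun t => (Gam_hasDerivAt t).deriv
  refine contDiff_infty_iff_deriv.mpr ⟨fun t => (Gam_hasDerivAt t).differentiableAt, ?_⟩
  rw [e]
  exact LAng_g_contDiff

theorem LAng_Gam_half : Gam (π / 2) = 3 / 2 := by
  unfold Gam
  rw [intervalIntegral.integral_same, add_zero]

theorem LAng_Gam_sub (a b : ℝ) :
    Gam b - Gam a = ∫ r in a..b, ((1 - mf r) * estar r - Real.cos r) :=
  (intervalIntegral.integral_eq_sub_of_hasDerivAt (fun r _ => Gam_hasDerivAt r)
    (LAng_g_int a b)).symm

theorem Gam_symm (t : ℝ) : Gam (π - t) = Gam t := by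
  have h := intervalIntegral.integral_comp_sub_left (a := t) (b := π / 2)
    (fun r => (1 - mf r) * estar r - Real.cos r) π
  have e : π - π / 2 = π / 2 := by ring
  rw [e] at h
  have h1 := LAng_Gam_sub (π / 2) (π - t)
  have h2 := LAng_Gam_sub t (π / 2)
  rw [← h] at h1
  have h3 : ∫ r in t..(π / 2), ((1 - mf (π - r)) * estar (π - r) - Real.cos (π - r)) =
      ∫ r in t..(π / 2), -((1 - mf r) * estar r - Real.cos r) := by
    apply intervalIntegral.integral_congr
    intro r _
    simp only [mf_symm, estar_symm, Real.cos_pi_sub]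
    ring
  rw [h3, intervalIntegral.integral_neg] at h1
  linarith

theorem Gam_mid {t : ℝ} (h1 : 3 * π / 80 ≤ t) (h2 : t ≤ π - 3 * π / 80) :
    Gam t = 1 / 2 + 3 / 2 * sin t - 1 / 2 * (sin t)^2 := by
  have hπ := Real.pi_pos
  have h := LAng_Gam_sub (π / 2) t
  have e1 : ∫ r in (π / 2)..t, ((1 - mf r) * estar r - Real.cos r) =
      ∫ r in (π / 2)..t, (3 / 2 * Real.cos r - Real.sin r * Real.cos r) := by
    apply intervalIntegral.integral_congr
    intro r hr
    have hr' := uIcc_subset_Icc (show π / 2 ∈ Icc (3 * π / 80) (π - 3 * π / 80) from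
      ⟨by linarith, by linarith⟩) (show t ∈ Icc (3 * π / 80) (π - 3 * π / 80) from ⟨h1, h2⟩) hr
    simp only [mf_mid hr'.1 hr'.2, estar]
    ring
  have hd : ∀ r : ℝ, HasDerivAt (fun r => 3 / 2 * Real.sin r - 1 / 2 * (Real.sin r)^2)
      (3 / 2 * Real.cos r - Real.sin r * Real.cos r) r := by
    intro r
    have h1 := ((Real.hasDerivAt_sin r).const_mul (3 / 2)).sub
      (((Real.hasDerivAt_sin r).pow 2).const_mul (1 / 2))
    refine h1.congr_deriv ?_
    simp only [Nat.cast_ofNat, Nat.add_one_sub_one, pow_one]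
    ring
  rw [e1, intervalIntegral.integral_eq_sub_of_hasDerivAt (fun r _ => hd r)
    (Continuous.intervalIntegrable (by fun_prop) _ _), LAng_Gam_half] at h
  simp only [Real.sin_pi_div_two] at h
  linarith

theorem LAng_cos_nonneg {t : ℝ} (h1 : 0 ≤ t) (h2 : t ≤ π / 2) : 0 ≤ cos t :=
  Real.cos_nonneg_of_mem_Icc ⟨by linarith [Real.pi_pos], h2⟩

theorem LAng_star_aux {t : ℝ} (h1 : 0 ≤ t) (h2 : t ≤ π / 2) :
    Gam t ≤ 1 / 2 + 3 / 2 * sin t - 1 / 2 * (sin t)^2 := by
  have hπ := Real.pi_pos
  have hd : ∀ r : ℝ, HasDerivAt (fun r => 1 / 2 + 3 / 2 * Real.sin r - 1 / 2 * (Real.sin r)^2 - Gam r)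
      (3 / 2 * Real.cos r - Real.sin r * Real.cos r - ((1 - mf r) * estar r - cos r)) r := by
    intro r
    have h1 := ((((Real.hasDerivAt_sin r).const_mul (3 / 2)).const_add (1 / 2)).sub
      (((Real.hasDerivAt_sin r).pow 2).const_mul (1 / 2))).sub (Gam_hasDerivAt r)
    refine h1.congr_deriv ?_
    simp only [Nat.cast_ofNat, Nat.add_one_sub_one, pow_one]
    ring
  have hanti : AntitoneOn (fun r => 1 / 2 + 3 / 2 * Real.sin r - 1 / 2 * (Real.sin r)^2 - Gam r)
      (Icc 0 (π / 2)) := by
    refine antitoneOn_of_deriv_nonpos (convex_Icc _ _) ?_ ?_ ?_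
    · exact fun r _ => (hd r).continuousAt.continuousWithinAt
    · exact fun r _ => (hd r).differentiableAt.differentiableWithinAt
    · intro r hr
      rw [interior_Icc] at hr
      rw [(hd r).deriv]
      have hc := LAng_cos_nonneg hr.1.le hr.2.le
      have hs := Real.sin_le_one r
      have hm := mf_le r
      have e : 3 / 2 * Real.cos r - Real.sin r * Real.cos r - ((1 - mf r) * estar r - cos r) =
          -(15 / 7 * ((8 / 15 - mf r) * (cos r * (5 / 2 - sin r)))) := by
        unfold estar
        ring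
      rw [e]
      have : 0 ≤ (8 / 15 - mf r) * (cos r * (5 / 2 - sin r)) :=
        mul_nonneg (by linarith) (mul_nonneg hc (by linarith))
      linarith
  have h := hanti ⟨h1, h2⟩ ⟨by linarith, le_rfl⟩ h2
  simp only [Real.sin_pi_div_two, LAng_Gam_half] at h
  linarith

theorem Gam_le_star {t : ℝ} (h1 : 0 ≤ t) (h2 : t ≤ π) :
    Gam t ≤ 1 / 2 + 3 / 2 * sin t - 1 / 2 * (sin t)^2 := by
  rcases le_total t (π / 2) with h | h
  · exact LAng_star_aux h1 h
  · have := LAng_star_aux (t := π - t) (by linarith) (by linarith)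
    rwa [Gam_symm, Real.sin_pi_sub] at this

theorem LAng_Gam_mono : MonotoneOn Gam (Icc 0 (π / 2)) := by
  refine monotoneOn_of_deriv_nonneg (convex_Icc _ _) Gam_contDiff.continuous.continuousOn
    (fun r _ => (Gam_hasDerivAt r).differentiableAt.differentiableWithinAt) ?_
  intro r hr
  rw [interior_Icc] at hr
  rw [(Gam_hasDerivAt r).deriv]
  have hc := LAng_cos_nonneg hr.1.le hr.2.le
  have hs := Real.sin_le_one r
  have hm := mf_le r
  have e : (1 - mf r) * estar r - cos r =
      15 / 7 * ((8 / 15 - mf r) * (cos r * (5 / 2 - sin r))) + cos r * (3 / 2 - sin r) := by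
    unfold estar
    ring
  rw [e]
  have h1 : 0 ≤ (8 / 15 - mf r) * (cos r * (5 / 2 - sin r)) :=
    mul_nonneg (by linarith) (mul_nonneg hc (by linarith))
  have h2 : 0 ≤ cos r * (3 / 2 - sin r) := mul_nonneg hc (by linarith)
  linarith

theorem LAng_Gam_zero : 1 / 5 ≤ Gam 0 := by
  have hπ := Real.pi_pos
  have hπ3 := Real.pi_gt_three
  have hπ4 := Real.pi_lt_d2
  have h := LAng_Gam_sub 0 (3 * π / 80)
  rw [Gam_mid le_rfl (by linarith)] at h
  have e1 : ∫ r in (0:ℝ)..(3 * π / 80), ((1 - mf r) * estar r - Real.cos r) =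
      (∫ r in (0:ℝ)..(3 * π / 80), (estar r - Real.cos r)) -
      ∫ r in (0:ℝ)..(3 * π / 80), mf r * estar r := by
    rw [← intervalIntegral.integral_sub]
    · apply intervalIntegral.integral_congr
      intro r _
      simp only
      ring
    · exact (LAng_estar_contDiff.continuous.sub Real.continuous_cos).intervalIntegrable _ _
    · exact (LAng_mf_cont.mul LAng_estar_contDiff.continuous).intervalIntegrable _ _
  have hd : ∀ r : ℝ, HasDerivAt (fun r => 15 / 7 * (5 / 2 * sin r - 1 / 2 * (sin r)^2) - sin r)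
      (estar r - Real.cos r) r := by
    intro r
    have h1 := ((((Real.hasDerivAt_sin r).const_mul (5 / 2)).sub
      (((Real.hasDerivAt_sin r).pow 2).const_mul (1 / 2))).const_mul (15 / 7)).sub
        (Real.hasDerivAt_sin r)
    refine h1.congr_deriv ?_
    simp only [Nat.cast_ofNat, Nat.add_one_sub_one, pow_one, estar]
    ring
  have e2 : (∫ r in (0:ℝ)..(3 * π / 80), (estar r - Real.cos r)) =
      15 / 7 * (5 / 2 * sin (3 * π / 80) - 1 / 2 * (sin (3 * π / 80))^2) - sin (3 * π / 80) := by
    rw [intervalIntegral.integral_eq_sub_of_hasDerivAt (fun r _ => hd r)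
      ((LAng_estar_contDiff.continuous.sub Real.continuous_cos).intervalIntegrable _ _)]
    simp
  have e3 : ∫ r in (0:ℝ)..(3 * π / 80), mf r = π / 300 := by
    rw [LAng_mf_int (by positivity) (by linarith)]
    have : (3 * π / 80 - π / 40) / (π / 80) = 1 := by
      field_simp
      ring
    rw [this, st_integral]
    ring
  have e4 : 5 * (π / 300) ≤ ∫ r in (0:ℝ)..(3 * π / 80), mf r * estar r := by
    rw [← e3, ← intervalIntegral.integral_const_mul]
    apply intervalIntegral.integral_mono_on (by positivity)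
    · exact (continuous_const.mul LAng_mf_cont).intervalIntegrable _ _
    · exact (LAng_mf_cont.mul LAng_estar_contDiff.continuous).intervalIntegrable _ _
    · intro r hr
      rw [mul_comm]
      apply mul_le_mul_of_nonneg_left _ (mf_nonneg r)
      have hr2 : r ≤ 12 / 100 := by linarith [hr.2]
      have hs : sin r ≤ r := Real.sin_le hr.1
      have hc : 1 - r ^ 2 / 2 ≤ cos r := Real.one_sub_sq_div_two_le_cos
      have hc' : 99 / 100 ≤ cos r := by nlinarith [hr.1]
      unfold estar
      have h5 : 238 / 100 ≤ 5 / 2 - sin r := by linarith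
      calc (5:ℝ) ≤ 15 / 7 * (99 / 100) * (238 / 100) := by norm_num
        _ ≤ 15 / 7 * cos r * (5 / 2 - sin r) := by gcongr
  rw [e1, e2] at h
  have hs : sin (3 * π / 80) ≤ 3 * π / 80 := Real.sin_le (by positivity)
  nlinarith [sq_nonneg (sin (3 * π / 80))]

theorem Gam_ge {t : ℝ} (h1 : 0 ≤ t) (h2 : t ≤ π) : 1 / 5 ≤ Gam t := by
  have hπ := Real.pi_pos
  have key : ∀ t : ℝ, 0 ≤ t → t ≤ π / 2 → 1 / 5 ≤ Gam t := fun t h0 h =>
    LAng_Gam_zero.trans (LAng_Gam_mono ⟨le_rfl, by positivity⟩ ⟨h0, h⟩ h0)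
  rcases le_total t (π / 2) with h | h
  · exact key t h1 h
  · rw [← Gam_symm]
    exact key _ (by linarith) (by linarith)

theorem Gam_le {t : ℝ} (h1 : 0 ≤ t) (h2 : t ≤ π) : Gam t ≤ 3 / 2 := by
  have h := Gam_le_star h1 h2
  have hs := Real.sin_le_one t
  nlinarith [mul_nonneg (sub_nonneg.mpr hs) (show 0 ≤ 2 - sin t by linarith)]

/-- on `[0, π/40]`: closed form (`m = 0` there) -/
theorem Gam_left {t : ℝ} (h1 : 0 ≤ t) (h2 : t ≤ π / 40) :
    Gam t = Gam 0 + (15 / 7) * (5 / 2 * sin t - 1 / 2 * (sin t)^2) - sin t := by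
  have h := LAng_Gam_sub 0 t
  have e1 : ∫ r in (0:ℝ)..t, ((1 - mf r) * estar r - Real.cos r) =
      ∫ r in (0:ℝ)..t, (estar r - Real.cos r) := by
    apply intervalIntegral.integral_congr
    intro r hr
    rw [uIcc_of_le h1] at hr
    simp only [mf_zero_left (hr.2.trans h2)]
    ring
  have hd : ∀ r : ℝ, HasDerivAt (fun r => 15 / 7 * (5 / 2 * sin r - 1 / 2 * (sin r)^2) - sin r)
      (estar r - Real.cos r) r := by
    intro r
    have h1 := ((((Real.hasDerivAt_sin r).const_mul (5 / 2)).sub
      (((Real.hasDerivAt_sin r).pow 2).const_mul (1 / 2))).const_mul (15 / 7)).sub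
        (Real.hasDerivAt_sin r)
    refine h1.congr_deriv ?_
    simp only [Nat.cast_ofNat, Nat.add_one_sub_one, pow_one, estar]
    ring
  rw [e1, intervalIntegral.integral_eq_sub_of_hasDerivAt (fun r _ => hd r)
      ((LAng_estar_contDiff.continuous.sub Real.continuous_cos).intervalIntegrable _ _)] at h
  simp only [Real.sin_zero] at h
  linarith

theorem LAng_one_sub_contDiff : ContDiff ℝ ∞ (fun r => 1 - mf r) := contDiff_const.sub mf_contDiff

theorem vth_hasDerivAt (t : ℝ) : HasDerivAt vth (1 - mf t) t :=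
  (LAng_one_sub_contDiff.continuous.integral_hasStrictDerivAt 0 t).hasDerivAt

theorem vth_contDiff : ContDiff ℝ ∞ vth := by
  have e : deriv vth = fun t => 1 - mf t := funext fun t => (vth_hasDerivAt t).deriv
  refine contDiff_infty_iff_deriv.mpr ⟨fun t => (vth_hasDerivAt t).differentiableAt, ?_⟩
  rw [e]
  exact LAng_one_sub_contDiff

theorem vth_strictMono : StrictMono vth := by
  apply strictMono_of_deriv_pos
  intro t
  rw [(vth_hasDerivAt t).deriv]
  linarith [mf_le t]

theorem vth_zero : vth 0 = 0 := by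
  unfold vth
  exact intervalIntegral.integral_same

theorem vth_surjective : Function.Surjective vth := by
  have hmono : Monotone (fun t => vth t - 7 / 15 * t) := by
    have hd : ∀ t : ℝ, HasDerivAt (fun t => vth t - 7 / 15 * t) (1 - mf t - 7 / 15) t := by
      intro t
      have := (vth_hasDerivAt t).sub ((hasDerivAt_id t).const_mul (7 / 15))
      refine this.congr_deriv ?_
      ring
    apply monotone_of_deriv_nonneg (fun t => (hd t).differentiableAt)
    intro t
    rw [(hd t).deriv]
    linarith [mf_le t]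
  refine vth_contDiff.continuous.surjective ?_ ?_
  · refine tendsto_atTop_mono' atTop (f₁ := fun t : ℝ => 7 / 15 * t) ?_
      (tendsto_id.const_mul_atTop (show (0:ℝ) < 7 / 15 by norm_num))
    filter_upwards [eventually_ge_atTop (0:ℝ)] with t ht
    have := hmono ht
    simp only [vth_zero, mul_zero, sub_zero] at this
    linarith
  · refine tendsto_atBot_mono' atBot (f₁ := fun t : ℝ => 7 / 15 * t) ?_
      (tendsto_id.const_mul_atBot (show (0:ℝ) < 7 / 15 by norm_num))
    filter_upwards [eventually_le_atBot (0:ℝ)] with t ht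
    have := hmono ht
    simp only [vth_zero, mul_zero, sub_zero] at this
    linarith

theorem LAng_vth_sub (a b : ℝ) : vth b - vth a = ∫ r in a..b, (1 - mf r) :=
  (intervalIntegral.integral_eq_sub_of_hasDerivAt (fun r _ => vth_hasDerivAt r)
    (LAng_one_sub_contDiff.continuous.intervalIntegrable a b)).symm

theorem LAng_vth_half : vth (π / 2) = π / 4 := by
  have h := LAng_vth_sub 0 (π / 2)
  rw [vth_zero, intervalIntegral.integral_sub (continuous_const.intervalIntegrable _ _)
    (LAng_mf_cont.intervalIntegrable _ _), mf_integral, intervalIntegral.integral_const] at h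
  simp only [smul_eq_mul] at h
  linarith

theorem vth_symm (t : ℝ) : vth (π - t) = π / 2 - vth t := by
  have h := intervalIntegral.integral_comp_sub_left (a := t) (b := π / 2) (fun r => 1 - mf r) π
  have e : π - π / 2 = π / 2 := by ring
  rw [e] at h
  have h1 := LAng_vth_sub (π / 2) (π - t)
  have h2 := LAng_vth_sub t (π / 2)
  rw [← h] at h1
  simp only [mf_symm] at h1
  rw [← h2, LAng_vth_half] at h1
  linarith

theorem vth_pi : vth π = π / 2 := by
  have := vth_symm 0
  rwa [sub_zero, vth_zero, sub_zero] at this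

theorem vth_left {t : ℝ} (h : t ≤ π / 40) : vth t = t := by
  have hπ := Real.pi_pos
  have h1 := LAng_vth_sub 0 t
  have e1 : ∫ r in (0:ℝ)..t, (1 - mf r) = ∫ _r in (0:ℝ)..t, (1:ℝ) := by
    apply intervalIntegral.integral_congr
    intro r hr
    have hr' : r ≤ π / 40 := by
      have := hr.2
      exact this.trans (sup_le (by positivity) h)
    simp only [mf_zero_left hr', sub_zero]
  rw [e1, vth_zero, intervalIntegral.integral_const] at h1
  simpa using h1

theorem vth_right {t : ℝ} (h : π - π / 40 ≤ t) : vth t = π / 2 - (π - t) := by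
  have h1 := vth_symm (π - t)
  rw [vth_left (t := π - t) (by linarith)] at h1
  have e : π - (π - t) = t := by ring
  rwa [e] at h1

theorem vthI_vth (t : ℝ) : vthI (vth t) = t :=
  Function.leftInverse_invFun vth_strictMono.injective t

theorem vth_vthI (t : ℝ) : vth (vthI t) = t :=
  Function.rightInverse_invFun vth_surjective t

theorem vthI_contDiff : ContDiff ℝ ∞ vthI := by
  let e : ℝ ≃ₜ ℝ := (vth_strictMono.orderIsoOfSurjective vth vth_surjective).toHomeomorph
  have he : (e : ℝ → ℝ) = vth := rfl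
  have h := e.contDiff_symm_deriv (n := ∞) (f' := fun t => 1 - mf t)
    (fun t => by
      have := mf_le t
      have h : (0:ℝ) < 1 - mf t := by linarith
      exact h.ne') (fun t => by rw [he]; exact vth_hasDerivAt t)
    (by rw [he]; exact vth_contDiff)
  have e2 : (e.symm : ℝ → ℝ) = vthI := by
    funext t
    apply vth_strictMono.injective
    rw [vth_vthI]
    exact e.apply_symm_apply t
  rwa [e2] at h

theorem vthI_hasDerivAt (t : ℝ) : HasDerivAt vthI (1 / (1 - mf (vthI t))) t := by
  rw [one_div]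
  refine HasDerivAt.of_local_left_inverse vthI_contDiff.continuous.continuousAt
    (vth_hasDerivAt (vthI t)) ?_ (Eventually.of_forall vth_vthI)
  have := mf_le (vthI t)
  have h : (0:ℝ) < 1 - mf (vthI t) := by linarith
  exact h.ne'

theorem vthI_symm (t : ℝ) : vthI (π / 2 - t) = π - vthI t := by
  apply vth_strictMono.injective
  rw [vth_vthI, vth_symm, vth_vthI]

theorem vthI_mem {t : ℝ} (h0 : 0 < t) (h1 : t < π / 2) : 0 < vthI t ∧ vthI t < π := by
  constructor
  · rw [← vth_strictMono.lt_iff_lt, vth_zero, vth_vthI]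
    exact h0
  · rw [← vth_strictMono.lt_iff_lt, vth_pi, vth_vthI]
    exact h1

theorem vth_mem {t : ℝ} (h0 : 0 < t) (h1 : t < π) : 0 < vth t ∧ vth t < π / 2 := by
  constructor
  · rw [← vth_zero]
    exact vth_strictMono h0
  · rw [← vth_pi]
    exact vth_strictMono h1

end Pool.Agent.MP39e402
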