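import Pool.Agent.Lib.MP_39e402_gt.LComp

/-! # MP_39e402, module LAxis: form near the axis, and all properties of the profile `PAx` -/

open Real Set Filter Topology MeasureTheory
open scoped ContDiff

noncomputable section

namespace Pool.Agent.MP39e402

/-- `E(v) = 1 - 1/√(1+v)` -/
def Ef (v : ℝ) : ℝ := 1 - 1 / √(1 + v)

/-- `E(v) = v * Et v` -/
def Et (v : ℝ) : ℝ := 1 / (√(1 + v) * (1 + √(1 + v)))

theorem Ef_eq {v : ℝ} (hv : -1 < v) : Ef v = v * Et v := by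
  have h1 : 0 < 1 + v := by linarith
  have h2 : 0 < √(1 + v) := Real.sqrt_pos.2 h1
  have h3 : √(1 + v) * √(1 + v) = 1 + v := Real.mul_self_sqrt h1.le
  rw [Ef, Et]
  field_simp
  nlinarith

theorem Et_pos {v : ℝ} (hv : -1 < v) : 0 < Et v := by
  have h1 : 0 < 1 + v := by linarith
  have h2 : 0 < √(1 + v) := Real.sqrt_pos.2 h1
  rw [Et]
  positivity

theorem Et_contDiffOn : ContDiffOn ℝ ∞ Et (Ioi (-1)) := by
  have hs : ContDiffOn ℝ ∞ (fun v : ℝ => √(1 + v)) (Ioi (-1)) := by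
    refine ContDiffOn.sqrt (contDiffOn_const.add contDiffOn_id) ?_
    intro v hv
    have : -1 < v := hv
    exact (by linarith : (0 : ℝ) < 1 + v).ne'
  refine ContDiffOn.div contDiffOn_const (hs.mul (contDiffOn_const.add hs)) ?_
  intro v hv
  have : -1 < v := hv
  have h1 : 0 < 1 + v := by linarith
  have h2 : 0 < √(1 + v) := Real.sqrt_pos.2 h1
  positivity

theorem Ef_concaveOn : ConcaveOn ℝ (Ici 0) Ef := by
  refine ⟨convex_Ici 0, ?_⟩
  intro x hx y hy a b ha hb hab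
  have hx' : 0 ≤ x := hx
  have hy' : 0 ≤ y := hy
  simp only [smul_eq_mul, Ef]
  set X := √(1 + x) with hX
  set Y := √(1 + y) with hY
  have hX0 : 0 < X := Real.sqrt_pos.2 (by linarith)
  have hY0 : 0 < Y := Real.sqrt_pos.2 (by linarith)
  have hXX : X ^ 2 = 1 + x := Real.sq_sqrt (by linarith)
  have hYY : Y ^ 2 = 1 + y := Real.sq_sqrt (by linarith)
  have hpos : 0 < a * X + b * Y := by
    rcases ha.eq_or_lt with rfl | ha'
    · have : b = 1 := by linarith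
      rw [this]; simpa using hY0
    · have := mul_pos ha' hX0
      have := mul_nonneg hb hY0.le
      linarith
  have h1 : a * X + b * Y ≤ √(1 + (a * x + b * y)) := by
    apply Real.le_sqrt_of_sq_le
    have h2 : 1 + (a * x + b * y) = a * X ^ 2 + b * Y ^ 2 := by
      rw [hXX, hYY]; linear_combination -hab
    rw [h2]
    have h3 : a * X ^ 2 + b * Y ^ 2 - (a * X + b * Y) ^ 2 = a * b * (X - Y) ^ 2 := by
      have hb' : b = 1 - a := by linarith
      rw [hb']; ring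
    have h4 : 0 ≤ a * b * (X - Y) ^ 2 := by positivity
    linarith
  have h5 : 1 / √(1 + (a * x + b * y)) ≤ 1 / (a * X + b * Y) :=
    one_div_le_one_div_of_le hpos h1
  have h6 : 1 / (a * X + b * Y) ≤ a * (1 / X) + b * (1 / Y) := by
    rw [div_le_iff₀ hpos]
    have h7 : (a * (1 / X) + b * (1 / Y)) * (a * X + b * Y) =
        a ^ 2 + b ^ 2 + a * b * (X / Y + Y / X) := by
      field_simp
      ring
    rw [h7]
    have h8 : 2 ≤ X / Y + Y / X := by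
      rw [div_add_div _ _ hY0.ne' hX0.ne', le_div_iff₀ (mul_pos hY0 hX0)]
      nlinarith [sq_nonneg (X - Y)]
    have h9 : a * b * 2 ≤ a * b * (X / Y + Y / X) :=
      mul_le_mul_of_nonneg_left h8 (mul_nonneg ha hb)
    have h10 : a ^ 2 + b ^ 2 + a * b * 2 = 1 := by
      have hb' : b = 1 - a := by linarith
      rw [hb']; ring
    linarith
  have h11 : a * (1 - 1 / X) + b * (1 - 1 / Y) = 1 - (a * (1 / X) + b * (1 / Y)) := by
    have hb' : b = 1 - a := by linarith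
    rw [hb']; ring
  rw [h11]
  linarith

theorem Ef_mono {v w : ℝ} (hv : 0 ≤ v) (h : v ≤ w) : Ef v ≤ Ef w := by
  rw [Ef, Ef]
  have h1 : 0 < √(1 + v) := Real.sqrt_pos.2 (by linarith)
  have h2 : √(1 + v) ≤ √(1 + w) := Real.sqrt_le_sqrt (by linarith)
  have := one_div_le_one_div_of_le h1 h2
  linarith

theorem LAxis_Ef_zero : Ef 0 = 0 := by
  rw [Ef]; simp

/-- `E(k v) ≤ k E(v)` for `k ≥ 1` -/
theorem Ef_mul_le {k v : ℝ} (hk : 1 ≤ k) (hv : 0 ≤ v) : Ef (k * v) ≤ k * Ef v := by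
  have hk0 : 0 < k := by linarith
  have h := Ef_concaveOn.2 (show k * v ∈ Ici (0 : ℝ) from mul_nonneg hk0.le hv)
    (Set.mem_Ici.2 (le_refl (0 : ℝ))) (show 0 ≤ 1 / k by positivity)
    (show 0 ≤ 1 - 1 / k by
      rw [sub_nonneg, div_le_one hk0]; exact hk) (by ring)
  simp only [smul_eq_mul, mul_zero, add_zero, LAxis_Ef_zero] at h
  rw [show 1 / k * (k * v) = v by field_simp] at h
  calc Ef (k * v) = k * (1 / k * Ef (k * v)) := by field_simp
    _ ≤ k * Ef v := mul_le_mul_of_nonneg_left h hk0.le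

theorem sub_Hf {x y : ℝ} (hx : 0 < x) (hy : 0 < y) : x - Hf x y = x * Ef (x^2 / y^2) := by
  rw [Hf, Ef]
  have h1 : √(1 + x ^ 2 / y ^ 2) = √(x ^ 2 + y ^ 2) / y := by
    rw [show 1 + x ^ 2 / y ^ 2 = (x ^ 2 + y ^ 2) / y ^ 2 by field_simp; ring,
      Real.sqrt_div (by positivity), Real.sqrt_sq hy.le]
  rw [h1]
  have h2 : 0 < √(x ^ 2 + y ^ 2) := Real.sqrt_pos.2 (by positivity)
  field_simp

theorem sub_Ff {y s : ℝ} (hy : 0 < y) (hs : 0 < s) : y - Ff y s = 1 / 10 * (y * Ef (16 * y^2 / s^2)) := by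
  have h := sub_Hf hy (show 0 < s / 4 by positivity)
  rw [show y ^ 2 / (s / 4) ^ 2 = 16 * y ^ 2 / s ^ 2 by field_simp; norm_num] at h
  rw [← h, Ff]
  ring

/-! ## `PAx`.  Throughout `u = lam * (y + Q)`. -/

theorem LAxis_lam : (0 : ℝ) < lam := by rw [lam]; norm_num

theorem LAxis_bb : (2 : ℝ) < bb ∧ bb < 22 / 10 := by
  rw [bb]
  have h2 : 0 < √2 := Real.sqrt_pos.2 (by norm_num)
  have h3 : √2 * √2 = 2 := Real.mul_self_sqrt (by norm_num)
  constructor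
  · rw [lt_div_iff₀ h2]
    nlinarith
  · rw [div_lt_iff₀ h2]
    nlinarith

theorem LAxis_aa : (0 : ℝ) < aa ∧ aa < 1 / 100 := by
  obtain ⟨h1, h2⟩ := LAxis_bb
  rw [aa, lam]
  constructor <;> linarith

theorem LAxis_A {y u : ℝ} (hy : 0 < y) (hu : 0 < u) :
    0 < Hf (Zf y u) (3 * u) ∧ Hf (Zf y u) (3 * u) < y := by
  have h1 := Zf_pos hy hu
  refine ⟨Hf_pos h1 (by linarith), ?_⟩
  exact (Hf_lt_left h1 (by linarith)).trans_le (Zf_le_self hu)

theorem PAx_mul {c y Q s : ℝ} (hc : 0 < c) : PAx (c * y) (c * Q) (c * s) = c * PAx y Q s := by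
  rw [PAx, PAx]
  rw [show lam * (c * y + c * Q) = c * (lam * (y + Q)) by ring, Zf_mul hc,
    show 3 * (c * (lam * (y + Q))) = c * (3 * (lam * (y + Q))) by ring, Hf_mul hc, Ff_mul hc,
    ← mul_sub, ← mul_sub, mxf_mul hc]
  ring

/-- the three cases for `mxf p q` -/
theorem LAxis_cases {y A F : ℝ} (hA : A < y) (hF : F < y)
    (hF' : 9 / 10 * y < F) :
    (mxf (y - A) (y - F) = y - A) ∨ mxf (y - A) (y - F) ≤ 7 / 30 * y := by
  have hp : 0 < y - A := by linarith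
  have hq : 0 < y - F := by linarith
  rcases le_total (4 * (y - F)) (3 * (y - A)) with h | h
  · left
    exact mxf_eq_left hq h
  · right
    have := mxf_lt_add hp hq
    linarith

theorem PAx_pos {y Q s : ℝ} (hy : 0 < y) (hQ : 0 < Q) (hs : 0 < s) : 0 < PAx y Q s := by
  have hu : 0 < lam * (y + Q) := mul_pos LAxis_lam (by linarith)
  obtain ⟨h1, h2⟩ := LAxis_A hy hu
  rw [PAx]
  rcases LAxis_cases h2 (Ff_lt hy hs) (Ff_gt hy hs) with h | h
  · rw [h]; linarith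
  · linarith

theorem PAx_le {y Q s : ℝ} (hy : 0 < y) (hQ : 0 < Q) (hs : 0 < s) : PAx y Q s ≤ y := by
  have hu : 0 < lam * (y + Q) := mul_pos LAxis_lam (by linarith)
  obtain ⟨h1, h2⟩ := LAxis_A hy hu
  rw [PAx]
  have hq : 0 < y - Ff y s := by
    have := Ff_lt hy hs
    linarith
  have := le_mxf_right (p := y - Hf (Zf y (lam * (y + Q))) (3 * (lam * (y + Q)))) hq
  linarith

theorem LAxis_Hf_diag {u : ℝ} (hu : 0 < u) : Hf (3 * u) (3 * u) = bb * u := by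
  rw [Hf, bb]
  have h : √((3 * u) ^ 2 + (3 * u) ^ 2) = √2 * (3 * u) := by
    rw [show (3 * u) ^ 2 + (3 * u) ^ 2 = 2 * (3 * u) ^ 2 by ring, Real.sqrt_mul (by norm_num),
      Real.sqrt_sq (by linarith)]
  rw [h]
  have h2 : 0 < √2 := Real.sqrt_pos.2 (by norm_num)
  field_simp

/-- `a y ≤ PAx` (also for `Q = 0`) -/
theorem PAx_ge {y Q s : ℝ} (hy : 0 < y) (hQ : 0 ≤ Q) (hs : 0 < s) : aa * y ≤ PAx y Q s := by
  have hu : 0 < lam * (y + Q) := mul_pos LAxis_lam (by linarith)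
  obtain ⟨h1, h2⟩ := LAxis_A hy hu
  obtain ⟨ha0, ha1⟩ := LAxis_aa
  have haa : aa * y ≤ 1 / 100 * y := by nlinarith
  rw [PAx]
  rcases LAxis_cases h2 (Ff_lt hy hs) (Ff_gt hy hs) with h | h
  · rw [h]
    rw [sub_sub_cancel]
    rcases le_total (4 * (lam * (y + Q))) y with h4 | h4
    · rw [Zf_eq_three hu h4, LAxis_Hf_diag hu, aa]
      have hb := LAxis_bb.1
      have hl := LAxis_lam
      have : 0 ≤ lam * bb * Q := by positivity
      nlinarith
    · have h5 : y / 2 ≤ Zf y (lam * (y + Q)) := by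
        refine le_trans ?_ (Zf_ge hu)
        rw [le_min_iff]
        constructor <;> linarith
      have h6 : Hf (y / 2) (y / 2) ≤ Hf (Zf y (lam * (y + Q))) (3 * (lam * (y + Q))) :=
        Hf_mono (by linarith) (by linarith) h5 (by linarith)
      have h7 : Hf (y / 2) (y / 2) = bb * (y / 6) := by
        have := LAxis_Hf_diag (u := y / 6) (by linarith)
        rw [show 3 * (y / 6) = y / 2 by ring] at this
        exact this
      have hb := LAxis_bb.1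
      rw [h7] at h6
      nlinarith
  · nlinarith

theorem PAx_mono {y Q s Q' s' : ℝ} (hy : 0 < y) (hQ : 0 < Q) (hs : 0 < s) (h1 : Q ≤ Q') (h2 : s ≤ s') :
    PAx y Q s ≤ PAx y Q' s' := by
  have hl := LAxis_lam
  have hu : 0 < lam * (y + Q) := mul_pos hl (by linarith)
  have huu : lam * (y + Q) ≤ lam * (y + Q') := by nlinarith
  have hu' : 0 < lam * (y + Q') := hu.trans_le huu
  have hZ := Zf_mono hy hu le_rfl huu
  have hA := Hf_mono (Zf_pos hy hu) (by linarith : 0 < 3 * (lam * (y + Q))) hZ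
    (by linarith : 3 * (lam * (y + Q)) ≤ 3 * (lam * (y + Q')))
  have hF := Ff_mono hy hs le_rfl h2
  have hA' := (LAxis_A hy hu').2
  have hF' := Ff_lt hy (hs.trans_le h2)
  rw [PAx, PAx]
  have := mxf_mono (p := y - Hf (Zf y (lam * (y + Q'))) (3 * (lam * (y + Q'))))
    (q := y - Ff y s') (p' := y - Hf (Zf y (lam * (y + Q))) (3 * (lam * (y + Q))))
    (q' := y - Ff y s) (by linarith) (by linarith) (by linarith) (by linarith)
  linarith

/-- away from the axis: `PAx = a (y + Q)` if `y ≥ 4u` -/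
theorem PAx_far {y Q s : ℝ} (hy : 0 < y) (hQ : 0 ≤ Q) (hs : 0 < s) (h : 4 * (lam * (y + Q)) ≤ y) :
    PAx y Q s = aa * (y + Q) := by
  have hu : 0 < lam * (y + Q) := mul_pos LAxis_lam (by linarith)
  rw [PAx, Zf_eq_three hu h, LAxis_Hf_diag hu]
  have hF := Ff_lt hy hs
  have hF' := Ff_gt hy hs
  obtain ⟨hb1, hb2⟩ := LAxis_bb
  have hbu : bb * (lam * (y + Q)) ≤ 22 / 10 * (y / 4) := by
    calc bb * (lam * (y + Q)) ≤ 22 / 10 * (lam * (y + Q)) :=
          mul_le_mul_of_nonneg_right hb2.le hu.le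
      _ ≤ 22 / 10 * (y / 4) := by linarith
  rw [mxf_eq_left (by linarith) (by linarith), aa]
  ring

theorem LAxis_Ef_le {v : ℝ} (hv : 0 ≤ v) : Ef v ≤ v / 2 := by
  rw [Ef_eq (by linarith)]
  have h1 : 1 ≤ √(1 + v) := by
    rw [Real.one_le_sqrt]; linarith
  have h2 : Et v ≤ 1 / 2 := by
    rw [Et]
    apply one_div_le_one_div_of_le (by norm_num)
    nlinarith
  nlinarith

theorem LAxis_Ef_ge {v : ℝ} (hv : 0 ≤ v) (hv4 : v ≤ 4) : v / 10 ≤ Ef v := by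
  rw [Ef_eq (by linarith)]
  have h1 : √(1 + v) ≤ √5 := Real.sqrt_le_sqrt (by linarith)
  have h0 : 0 < √(1 + v) := Real.sqrt_pos.2 (by linarith)
  have h5 : √5 ≤ 23 / 10 := by
    rw [Real.sqrt_le_left (by norm_num)]
    norm_num
  have h2 : 1 / 10 ≤ Et v := by
    rw [Et]
    apply one_div_le_one_div_of_le (by positivity)
    nlinarith
  nlinarith

/-- near the axis `PAx = Ff y s` if `s ≤ u`, `y ≤ u/2` -/
theorem PAx_near {y Q s : ℝ} (hy : 0 < y) (hQ : 0 < Q) (hs : 0 < s) (h1 : s ≤ lam * (y + Q))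
    (h2 : 2 * y ≤ lam * (y + Q)) : PAx y Q s = Ff y s := by
  set u := lam * (y + Q) with hu'
  have hu : 0 < u := mul_pos LAxis_lam (by linarith)
  rw [PAx, ← hu', Zf_eq_self hu (by linarith)]
  have hF := Ff_lt hy hs
  have key : 3 * (y - Hf y (3 * u)) ≤ 2 * (y - Ff y s) := by
    rw [sub_Hf hy (by linarith), sub_Ff hy hs]
    have e1 : y ^ 2 / (3 * u) ^ 2 = y ^ 2 / u ^ 2 / 9 := by field_simp; norm_num
    rw [e1]
    set v := y ^ 2 / u ^ 2 with hv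
    have hv0 : 0 ≤ v := by positivity
    have hv1 : v ≤ 1 / 4 := by
      rw [hv, div_le_iff₀ (by positivity)]
      nlinarith
    have e2 : 16 * v ≤ 16 * y ^ 2 / s ^ 2 := by
      rw [hv, mul_div_assoc]
      have : y ^ 2 / u ^ 2 ≤ y ^ 2 / s ^ 2 := by
        apply div_le_div_of_nonneg_left (by positivity) (by positivity)
        nlinarith
      linarith
    have e3 := Ef_mono (by positivity : 0 ≤ 16 * v) e2
    have e4 := LAxis_Ef_ge (v := 16 * v) (by positivity) (by linarith)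
    have e5 := LAxis_Ef_le (v := v / 9) (by positivity)
    nlinarith
  rw [mxf_eq_right (by linarith) key]
  ring

/-- also smooth at `Q = 0` (in fact for `Q > -y`) -/
theorem PAx_contDiffOn' : ContDiffOn ℝ ∞ (fun p : ℝ × ℝ × ℝ => PAx p.1 p.2.1 p.2.2)
    {p | 0 < p.1 ∧ -p.1 < p.2.1 ∧ 0 < p.2.2} := by
  set U : Set (ℝ × ℝ × ℝ) := {p | 0 < p.1 ∧ -p.1 < p.2.1 ∧ 0 < p.2.2} with hU
  have hy : ContDiffOn ℝ ∞ (fun p : ℝ × ℝ × ℝ => p.1) U := contDiffOn_fst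
  have hQ : ContDiffOn ℝ ∞ (fun p : ℝ × ℝ × ℝ => p.2.1) U :=
    (contDiff_fst.comp contDiff_snd).contDiffOn
  have hs : ContDiffOn ℝ ∞ (fun p : ℝ × ℝ × ℝ => p.2.2) U :=
    (contDiff_snd.comp contDiff_snd).contDiffOn
  have hu : ContDiffOn ℝ ∞ (fun p : ℝ × ℝ × ℝ => lam * (p.1 + p.2.1)) U :=
    contDiffOn_const.mul (hy.add hQ)
  have hu0 : ∀ p ∈ U, 0 < lam * (p.1 + p.2.1) := fun p hp =>
    mul_pos LAxis_lam (by linarith [hp.2.1])
  have hZ : ContDiffOn ℝ ∞ (fun p : ℝ × ℝ × ℝ => Zf p.1 (lam * (p.1 + p.2.1))) U :=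
    Zf_contDiffOn.comp (hy.prodMk hu) fun p hp => hu0 p hp
  have hA : ContDiffOn ℝ ∞ (fun p : ℝ × ℝ × ℝ =>
      Hf (Zf p.1 (lam * (p.1 + p.2.1))) (3 * (lam * (p.1 + p.2.1)))) U :=
    Hf_contDiffOn.comp (hZ.prodMk (contDiffOn_const.mul hu)) fun p hp =>
      ⟨Zf_pos hp.1 (hu0 p hp), by
        have := hu0 p hp
        show 0 < 3 * (lam * (p.1 + p.2.1))
        linarith⟩
  have hF : ContDiffOn ℝ ∞ (fun p : ℝ × ℝ × ℝ => Ff p.1 p.2.2) U :=
    Ff_contDiffOn.comp (hy.prodMk hs) fun p hp => ⟨hp.1, hp.2.2⟩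
  have hM : ContDiffOn ℝ ∞ (fun p : ℝ × ℝ × ℝ =>
      mxf (p.1 - Hf (Zf p.1 (lam * (p.1 + p.2.1))) (3 * (lam * (p.1 + p.2.1))))
        (p.1 - Ff p.1 p.2.2)) U :=
    mxf_contDiffOn.comp ((hy.sub hA).prodMk (hy.sub hF)) fun p hp => by
      have := Ff_lt hp.1 hp.2.2
      show 0 < p.1 - Ff p.1 p.2.2
      linarith
  exact hy.sub hM

theorem PAx_contDiffOn : ContDiffOn ℝ ∞ (fun p : ℝ × ℝ × ℝ => PAx p.1 p.2.1 p.2.2)
    {p | 0 < p.1 ∧ 0 < p.2.1 ∧ 0 < p.2.2} :=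
  PAx_contDiffOn'.mono fun p hp => ⟨hp.1, by linarith [hp.1, hp.2.1], hp.2.2⟩

/-- `PAx` composed with concave functions is concave -/
theorem PAx_concaveOn {E : Type*} [AddCommGroup E] [Module ℝ E] {S : Set E}
    {y Q s : E → ℝ} (hy : ConcaveOn ℝ S y) (hy' : ConvexOn ℝ S y) (hQ : ConcaveOn ℝ S Q)
    (hs : ConcaveOn ℝ S s)
    (hy0 : ∀ x ∈ S, 0 < y x) (hQ0 : ∀ x ∈ S, 0 < Q x) (hs0 : ∀ x ∈ S, 0 < s x) :
    ConcaveOn ℝ S (fun x => PAx (y x) (Q x) (s x)) := by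
  have hl := LAxis_lam
  have hu : ConcaveOn ℝ S (fun x => lam * (y x + Q x)) := (hy.add hQ).smul hl.le
  have hu0 : ∀ x ∈ S, 0 < lam * (y x + Q x) := fun x hx =>
    mul_pos hl (by linarith [hy0 x hx, hQ0 x hx])
  have hZ : ConcaveOn ℝ S (fun x => Zf (y x) (lam * (y x + Q x))) :=
    concaveOn_comp2 Zf_concaveOn (fun _ _ _ _ a b c d => Zf_mono a b c d) hy hu hy0 hu0
  have hZ0 : ∀ x ∈ S, 0 < Zf (y x) (lam * (y x + Q x)) := fun x hx => Zf_pos (hy0 x hx) (hu0 x hx)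
  have hu3 : ConcaveOn ℝ S (fun x => 3 * (lam * (y x + Q x))) := hu.smul (by norm_num : (0:ℝ) ≤ 3)
  have hA : ConcaveOn ℝ S (fun x => Hf (Zf (y x) (lam * (y x + Q x))) (3 * (lam * (y x + Q x)))) :=
    concaveOn_comp2 Hf_concaveOn (fun _ _ _ _ a b c d => Hf_mono a b c d) hZ hu3 hZ0
      fun x hx => by linarith [hu0 x hx]
  have hF : ConcaveOn ℝ S (fun x => Ff (y x) (s x)) :=
    concaveOn_comp2 Ff_concaveOn (fun _ _ _ _ a b c d => Ff_mono a b c d) hy hs hy0 hs0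
  have hM : ConvexOn ℝ S (fun x =>
      mxf (y x - Hf (Zf (y x) (lam * (y x + Q x))) (3 * (lam * (y x + Q x))))
        (y x - Ff (y x) (s x))) :=
    convexOn_comp2 mxf_convexOn (fun _ _ _ _ a b c d => mxf_mono a b c d) (hy'.sub hA)
      (hy'.sub hF) (fun x hx => by linarith [(LAxis_A (hy0 x hx) (hu0 x hx)).2])
      (fun x hx => by linarith [Ff_lt (hy0 x hx) (hs0 x hx)])
  exact hy.sub hM

/-- form near the axis: `s` smooth near `x0`, `Q` bounded below near `(x0,0)` -/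
theorem PAx_axisForm {Q : ℝ → ℝ → ℝ} {s : ℝ → ℝ} {x0 c : ℝ} (hc : 0 < c)
    (hs : ContDiffAt ℝ ∞ s x0) (hs0 : 0 < s x0)
    (hQ : ∀ᶠ p : ℝ × ℝ in 𝓝 (x0, 0), 0 < p.2 → c ≤ Q p.1 p.2 ∧ s p.1 ≤ lam * Q p.1 p.2) :
    AxisForm (fun x y => PAx y (Q x y) (s x)) x0 := by
  refine ⟨fun p => 16 / (10 * (s p.1) ^ 2) * Et (16 * p.2 / (s p.1) ^ 2), ?_, ?_⟩
  · have hs1 : ContDiffAt ℝ ∞ (fun p : ℝ × ℝ => s p.1) (x0, 0) :=
      ContDiffAt.comp (x0, (0 : ℝ)) (by simpa using hs) contDiffAt_fst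
    have hne : (s x0) ^ 2 ≠ 0 := by positivity
    have h1 : ContDiffAt ℝ ∞ (fun p : ℝ × ℝ => 16 / (10 * (s p.1) ^ 2)) (x0, 0) :=
      ContDiffAt.div contDiffAt_const (contDiffAt_const.mul (hs1.pow 2)) (by
        show 10 * s x0 ^ 2 ≠ 0
        positivity)
    have h2 : ContDiffAt ℝ ∞ (fun p : ℝ × ℝ => 16 * p.2 / (s p.1) ^ 2) (x0, 0) :=
      ContDiffAt.div (contDiffAt_const.mul contDiffAt_snd) (hs1.pow 2) hne
    have h3 : ContDiffAt ℝ ∞ Et 0 :=
      Et_contDiffOn.contDiffAt (Ioi_mem_nhds (by norm_num))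
    have h4 : ContDiffAt ℝ ∞ (fun p : ℝ × ℝ => Et (16 * p.2 / (s p.1) ^ 2)) (x0, 0) :=
      ContDiffAt.comp (g := Et) (f := fun p : ℝ × ℝ => 16 * p.2 / (s p.1) ^ 2) (x0, (0 : ℝ))
        (by simpa using h3) h2
    exact h1.mul h4
  · have hsc : ContinuousAt (fun p : ℝ × ℝ => s p.1) (x0, 0) :=
      ContinuousAt.comp (f := fun p : ℝ × ℝ => p.1) (x := (x0, (0 : ℝ)))
        (by simpa using hs.continuousAt) continuousAt_fst
    have hspos : ∀ᶠ p : ℝ × ℝ in 𝓝 (x0, 0), 0 < s p.1 :=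
      hsc.eventually (lt_mem_nhds hs0)
    have hsmall : ∀ᶠ p : ℝ × ℝ in 𝓝 (x0, (0 : ℝ)), p.2 < lam * c / 2 :=
      (continuousAt_snd (p := (x0, (0 : ℝ)))).eventually
        (gt_mem_nhds (by have := mul_pos LAxis_lam hc; simpa using by linarith))
    filter_upwards [hQ, hspos, hsmall] with p hp1 hp2 hp3 hp4
    obtain ⟨a1, a2⟩ := hp1 hp4
    have hl := LAxis_lam
    have hQ0 : 0 < Q p.1 p.2 := hc.trans_le a1
    have e1 : s p.1 ≤ lam * (p.2 + Q p.1 p.2) := by nlinarith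
    have e2 : 2 * p.2 ≤ lam * (p.2 + Q p.1 p.2) := by nlinarith
    rw [PAx_near hp4 hQ0 hp2 e1 e2]
    have e3 := sub_Ff hp4 hp2
    have e4 : Ff p.2 (s p.1) = p.2 - 1 / 10 * (p.2 * Ef (16 * p.2 ^ 2 / s p.1 ^ 2)) := by
      linarith
    rw [e4, Ef_eq (by
      have : 0 ≤ 16 * p.2 ^ 2 / s p.1 ^ 2 := by positivity
      linarith)]
    field_simp

end Pool.Agent.MP39e402
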