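import Pool.Agent.Lib.MP_39e402_gt.LPar
import Pool.Agent.Lib.MP_39e402_gt.LSt

/-! # MP_39e402, module LCap: existence of the cap function.
Recipe.  `χ(r) = st((r - ρ1/2)/(ρ1/2))`, `a⁴ = ∫_0^{ρ1} 6 r⁵ (1 - χ)`, `U(ρ) = ρ⁻⁴ (a⁴ + ∫_0^ρ 6 r⁵ χ)`.  Then
`ρ U' + 4U = 6 ρ² χ`, `U'' + 5U'/ρ = (d/dρ)(6ρ²χ)/ρ = 12 χ + 6 ρ χ'`, `U = ρ²` for `ρ ≥ ρ1`,
`a⁴ ≤ ρ1⁶`; for `ρ1/2 ≤ ρ ≤ ρ1`: `U ≤ a⁴/ρ⁴ + ρ² ≤ 17 ρ1² ≤ 1/2`. -/

open Real Set Filter Topology MeasureTheory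
open scoped ContDiff

noncomputable section

namespace Pool.Agent.MP39e402

/-- the cut-off -/
def lcapChi (ρ1 r : ℝ) : ℝ := st (2 * r / ρ1 - 1)

/-- the primitive -/
def lcapH (ρ1 x : ℝ) : ℝ := ∫ r in (0:ℝ)..x, 6 * r ^ 5 * lcapChi ρ1 r

theorem lcapChi_contDiff (ρ1 : ℝ) : ContDiff ℝ ∞ (lcapChi ρ1) := by
  unfold lcapChi
  exact st_contDiff.comp (((contDiff_const.mul contDiff_id).div_const ρ1).sub contDiff_const)

theorem lcapChi_zero {ρ1 r : ℝ} (h0 : 0 < ρ1) (h : r ≤ ρ1 / 2) : lcapChi ρ1 r = 0 := by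
  unfold lcapChi
  refine st_zero ?_
  rw [sub_nonpos, div_le_one h0]
  linarith

theorem lcapChi_one {ρ1 r : ℝ} (h0 : 0 < ρ1) (h : ρ1 ≤ r) : lcapChi ρ1 r = 1 := by
  unfold lcapChi
  refine st_one ?_
  rw [le_sub_iff_add_le, le_div_iff₀ h0]
  linarith

theorem lcapChi_nonneg (ρ1 r : ℝ) : 0 ≤ lcapChi ρ1 r := st_nonneg _

theorem lcapChi_le_one (ρ1 r : ℝ) : lcapChi ρ1 r ≤ 1 := st_le_one _

theorem lcapChi_deriv_nonneg {ρ1 : ℝ} (h0 : 0 < ρ1) (r : ℝ) : 0 ≤ deriv (lcapChi ρ1) r := by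
  have hmono : Monotone (lcapChi ρ1) := by
    intro x y hxy
    unfold lcapChi
    refine st_mono ?_
    gcongr
  exact hmono.deriv_nonneg

theorem lcap_integrand_contDiff (ρ1 : ℝ) : ContDiff ℝ ∞ (fun r : ℝ => 6 * r ^ 5 * lcapChi ρ1 r) :=
  (contDiff_const.mul (contDiff_id.pow 5)).mul (lcapChi_contDiff ρ1)

theorem lcapH_hasDerivAt (ρ1 x : ℝ) : HasDerivAt (lcapH ρ1) (6 * x ^ 5 * lcapChi ρ1 x) x := by
  have hc := (lcap_integrand_contDiff ρ1).continuous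
  exact intervalIntegral.integral_hasDerivAt_right (hc.intervalIntegrable _ _)
    hc.stronglyMeasurable.stronglyMeasurableAtFilter hc.continuousAt

theorem lcapH_contDiff (ρ1 : ℝ) : ContDiff ℝ ∞ (lcapH ρ1) := by
  rw [contDiff_infty_iff_deriv]
  refine ⟨fun x => (lcapH_hasDerivAt ρ1 x).differentiableAt, ?_⟩
  have h : deriv (lcapH ρ1) = fun r : ℝ => 6 * r ^ 5 * lcapChi ρ1 r :=
    funext fun x => (lcapH_hasDerivAt ρ1 x).deriv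
  rw [h]
  exact lcap_integrand_contDiff ρ1

theorem lcapH_zero (ρ1 : ℝ) : lcapH ρ1 0 = 0 := by
  unfold lcapH
  rw [intervalIntegral.integral_same]

theorem lcapH_mono (ρ1 : ℝ) : MonotoneOn (lcapH ρ1) (Ici 0) := by
  refine monotoneOn_of_deriv_nonneg (convex_Ici 0) (lcapH_contDiff ρ1).continuous.continuousOn
    (fun x _ => (lcapH_hasDerivAt ρ1 x).differentiableAt.differentiableWithinAt) fun x hx => ?_
  rw [interior_Ici] at hx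
  rw [(lcapH_hasDerivAt ρ1 x).deriv]
  have := lcapChi_nonneg ρ1 x
  have hx' : 0 < x := hx
  positivity

theorem lcapH_nonneg {ρ1 x : ℝ} (hx : 0 ≤ x) : 0 ≤ lcapH ρ1 x := by
  rw [← lcapH_zero ρ1]
  exact lcapH_mono ρ1 (mem_Ici.mpr le_rfl) hx hx

theorem lcapD_hasDerivAt (ρ1 x : ℝ) : HasDerivAt (fun x => x ^ 6 - lcapH ρ1 x)
    (6 * x ^ 5 - 6 * x ^ 5 * lcapChi ρ1 x) x := by
  have h1 := (hasDerivAt_pow 6 x).sub (lcapH_hasDerivAt ρ1 x)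
  refine h1.congr_deriv ?_
  push_cast
  ring

theorem lcapD_mono (ρ1 : ℝ) : MonotoneOn (fun x => x ^ 6 - lcapH ρ1 x) (Ici 0) := by
  have hd := lcapD_hasDerivAt ρ1
  refine monotoneOn_of_deriv_nonneg (convex_Ici 0)
    ((continuous_pow 6).sub (lcapH_contDiff ρ1).continuous).continuousOn
    (fun x _ => (hd x).differentiableAt.differentiableWithinAt) fun x hx => ?_
  rw [interior_Ici] at hx
  rw [(hd x).deriv]
  have h1 := lcapChi_le_one ρ1 x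
  have hx' : 0 < x := hx
  have h2 : 6 * x ^ 5 - 6 * x ^ 5 * lcapChi ρ1 x = 6 * x ^ 5 * (1 - lcapChi ρ1 x) := by ring
  rw [h2]
  have h3 : 0 ≤ 1 - lcapChi ρ1 x := by linarith
  positivity

theorem lcapH_le {ρ1 x : ℝ} (hx : 0 ≤ x) : lcapH ρ1 x ≤ x ^ 6 := by
  have h1 := lcapD_mono ρ1 (mem_Ici.mpr le_rfl) hx hx
  simp only at h1
  rw [lcapH_zero] at h1
  norm_num at h1
  exact h1

theorem lcapH_left {ρ1 x : ℝ} (h0 : 0 < ρ1) (hx0 : 0 ≤ x) (hx : x ≤ ρ1 / 2) :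
    lcapH ρ1 x = 0 := by
  unfold lcapH
  rw [intervalIntegral.integral_congr (g := fun _ => 0)]
  · simp
  · intro r hr
    rw [uIcc_of_le hx0] at hr
    show 6 * r ^ 5 * lcapChi ρ1 r = 0
    rw [lcapChi_zero h0 (hr.2.trans hx), mul_zero]

theorem lcapD_right {ρ1 x : ℝ} (h0 : 0 < ρ1) (hx : ρ1 ≤ x) :
    x ^ 6 - lcapH ρ1 x = ρ1 ^ 6 - lcapH ρ1 ρ1 := by
  have hd := lcapD_hasDerivAt ρ1
  refine (constant_of_has_deriv_right_zero (f := fun x => x ^ 6 - lcapH ρ1 x) (a := ρ1) (b := x)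
    ((continuous_pow 6).sub (lcapH_contDiff ρ1).continuous).continuousOn (fun y hy => ?_) x
    ⟨hx, le_rfl⟩)
  have h1 := (hd y).hasDerivWithinAt (s := Ici y)
  rw [lcapChi_one h0 hy.1] at h1
  have h2 : 6 * y ^ 5 - 6 * y ^ 5 * 1 = 0 := by ring
  rw [h2] at h1
  exact h1

theorem cap_exists {ρ1 : ℝ} (h0 : 0 < ρ1) (h1 : ρ1 ≤ 1 / 10) :
    ∃ (a : ℝ) (U : ℝ → ℝ), IsCap ρ1 a U := by
  obtain ⟨A, hA⟩ : ∃ A, A = ρ1 ^ 6 - lcapH ρ1 ρ1 := ⟨_, rfl⟩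
  have hApos : 0 < A := by
    have h2 := lcapD_mono ρ1 (mem_Ici.mpr (by linarith : (0:ℝ) ≤ ρ1 / 2))
      (mem_Ici.mpr h0.le) (by linarith : ρ1 / 2 ≤ ρ1)
    simp only at h2
    rw [lcapH_left h0 (by linarith) le_rfl, ← hA] at h2
    have h3 : 0 < (ρ1 / 2) ^ 6 := by positivity
    linarith
  have hAle : A ≤ ρ1 ^ 6 := by
    have := lcapH_nonneg (ρ1 := ρ1) h0.le
    rw [hA]
    linarith
  obtain ⟨a, ha⟩ : ∃ a : ℝ, a = A ^ ((1:ℝ) / 4) := ⟨_, rfl⟩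
  have hapos : 0 < a := by rw [ha]; positivity
  have ha4 : a ^ 4 = A := by
    rw [ha, ← Real.rpow_natCast, ← Real.rpow_mul hApos.le]
    norm_num
  have hs : 0 < √ρ1 := Real.sqrt_pos.mpr h0
  have hsq : √ρ1 * √ρ1 = ρ1 := Real.mul_self_sqrt h0.le
  have hale : a ≤ ρ1 * √ρ1 := by
    have h2 : a ^ 4 ≤ (ρ1 * √ρ1) ^ 4 := by
      have h3 : (ρ1 * √ρ1) ^ 4 = ρ1 ^ 6 := by
        calc (ρ1 * √ρ1) ^ 4 = ρ1 ^ 4 * (√ρ1 * √ρ1) ^ 2 := by ring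
          _ = ρ1 ^ 6 := by rw [hsq]; ring
      rw [h3, ha4]
      exact hAle
    exact le_of_pow_le_pow_left₀ (by norm_num) (by positivity) h2
  have halt : a < ρ1 / 2 := by
    have h2 : √ρ1 < 1 / 2 := by
      rw [Real.sqrt_lt' (by norm_num)]
      linarith
    nlinarith
  obtain ⟨G, hG⟩ : ∃ G : ℝ → ℝ, G = fun r => A + lcapH ρ1 r := ⟨_, rfl⟩
  have hGd : ∀ r, HasDerivAt G (6 * r ^ 5 * lcapChi ρ1 r) r := fun r => by
    rw [hG]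
    exact (lcapH_hasDerivAt ρ1 r).const_add A
  have hGpos : ∀ r, 0 ≤ r → 0 < G r := fun r hr => by
    have := lcapH_nonneg (ρ1 := ρ1) hr
    rw [hG]
    simp only
    linarith
  have hGcd : ContDiff ℝ ∞ G := by
    rw [hG]
    exact contDiff_const.add (lcapH_contDiff ρ1)
  obtain ⟨U, hU⟩ : ∃ U : ℝ → ℝ, U = fun r => G r / r ^ 4 := ⟨_, rfl⟩
  obtain ⟨V, hV⟩ : ∃ V : ℝ → ℝ, V = fun r => 6 * r * lcapChi ρ1 r - 4 * (G r / r ^ 5) := ⟨_, rfl⟩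
  have hUd : ∀ r, 0 < r → HasDerivAt U (V r) r := fun r hr => by
    have h2 := (hGd r).div (hasDerivAt_pow 4 r) (pow_ne_zero 4 hr.ne')
    rw [hU, hV]
    refine h2.congr_deriv ?_
    simp only
    field_simp
    push_cast
    ring
  have hχd : ∀ r, HasDerivAt (lcapChi ρ1) (deriv (lcapChi ρ1) r) r := fun r =>
    ((lcapChi_contDiff ρ1).differentiable (by simp) r).hasDerivAt
  have hVd : ∀ r, 0 < r → HasDerivAt V
      (6 * lcapChi ρ1 r + 6 * r * deriv (lcapChi ρ1) r - 24 * lcapChi ρ1 r + 20 * G r / r ^ 6) r :=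
    fun r hr => by
    have h2 := (((hasDerivAt_id r).const_mul 6).mul (hχd r)).sub
      (((hGd r).div (hasDerivAt_pow 5 r) (pow_ne_zero 5 hr.ne')).const_mul 4)
    rw [hV]
    refine h2.congr_deriv ?_
    simp only [id]
    field_simp
    push_cast
    ring
  have hdU : ∀ r, 0 < r → deriv U r = V r := fun r hr => (hUd r hr).deriv
  have hddU : ∀ r, 0 < r → deriv (deriv U) r =
      6 * lcapChi ρ1 r + 6 * r * deriv (lcapChi ρ1) r - 24 * lcapChi ρ1 r + 20 * G r / r ^ 6 :=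
    fun r hr => by
    have h2 : deriv U =ᶠ[𝓝 r] V := by
      filter_upwards [lt_mem_nhds hr] with x hx
      exact hdU x hx
    rw [h2.deriv_eq, (hVd r hr).deriv]
  have hub : ∀ ρ, ρ1 / 2 ≤ ρ → ρ ≤ ρ1 → U ρ ≤ 1 / 2 := by
    intro ρ hρ1 hρ2
    have hρ : 0 < ρ := by linarith
    have h2 : G ρ ≤ ρ1 ^ 6 + ρ ^ 6 := by
      have := lcapH_le (ρ1 := ρ1) hρ.le
      rw [hG]
      simp only
      linarith
    have h3 : ρ1 ^ 4 ≤ 16 * ρ ^ 4 := by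
      have : ρ1 ^ 4 ≤ (2 * ρ) ^ 4 := pow_le_pow_left₀ h0.le (by linarith) 4
      calc ρ1 ^ 4 ≤ (2 * ρ) ^ 4 := this
        _ = 16 * ρ ^ 4 := by ring
    have h4 : ρ1 ^ 2 ≤ 1 / 100 := by nlinarith
    have h5 : ρ ^ 2 ≤ 1 / 100 := by nlinarith
    rw [hU]
    simp only
    rw [div_le_iff₀ (by positivity)]
    have h6 : ρ1 ^ 6 ≤ 1 / 100 * (16 * ρ ^ 4) := by
      calc ρ1 ^ 6 = ρ1 ^ 2 * ρ1 ^ 4 := by ring
        _ ≤ 1 / 100 * (16 * ρ ^ 4) := mul_le_mul h4 h3 (by positivity) (by norm_num)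
    have h7 : ρ ^ 6 ≤ 1 / 100 * ρ ^ 4 := by
      calc ρ ^ 6 = ρ ^ 2 * ρ ^ 4 := by ring
        _ ≤ 1 / 100 * ρ ^ 4 := mul_le_mul_of_nonneg_right h5 (by positivity)
    have h8 : 0 < ρ ^ 4 := by positivity
    linarith
  have heh : ∀ ρ, 0 < ρ → ρ ≤ ρ1 / 2 → U ρ = a ^ 4 / ρ ^ 4 := by
    intro ρ hρ0 hρ
    rw [hU, hG]
    simp only
    rw [lcapH_left h0 hρ0.le hρ, add_zero, ha4]
  have hfs : ∀ ρ, ρ1 ≤ ρ → U ρ = ρ ^ 2 := by
    intro ρ hρ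
    have hρ0 : 0 < ρ := by linarith
    have h2 := lcapD_right h0 hρ
    have h3 : A + lcapH ρ1 ρ = ρ ^ 6 := by
      rw [hA]
      linarith
    rw [hU, hG]
    simp only
    rw [h3]
    field_simp
  refine ⟨a, U, ⟨hapos, halt, hale, ?_, heh, hfs, ?_, ?_, hub, ?_, ?_⟩⟩
  · rw [hU]
    exact hGcd.contDiffOn.div (contDiff_id.pow 4).contDiffOn fun x hx =>
      pow_ne_zero 4 (ne_of_gt hx)
  · intro ρ hρ
    rw [hU]
    exact div_pos (hGpos ρ hρ.le) (by positivity)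
  · intro ρ hρa hρ1
    have hρ0 : 0 < ρ := hapos.trans hρa
    rcases le_or_gt ρ (ρ1 / 2) with h | h
    · rw [heh ρ hρ0 h, div_lt_one (by positivity)]
      exact pow_lt_pow_left₀ hρa hapos.le (by norm_num)
    · rcases le_or_gt ρ ρ1 with h' | h'
      · have := hub ρ h.le h'
        linarith
      · rw [hfs ρ h'.le]
        nlinarith
  · intro ρ hρ
    rw [hddU ρ hρ, hdU ρ hρ, hV]
    simp only
    have e1 : 6 * lcapChi ρ1 ρ + 6 * ρ * deriv (lcapChi ρ1) ρ - 24 * lcapChi ρ1 ρ +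
        20 * G ρ / ρ ^ 6 + 5 * (6 * ρ * lcapChi ρ1 ρ - 4 * (G ρ / ρ ^ 5)) / ρ =
        12 * lcapChi ρ1 ρ + 6 * ρ * deriv (lcapChi ρ1) ρ := by
      field_simp
      ring
    rw [e1]
    have h2 := lcapChi_nonneg ρ1 ρ
    have h3 := lcapChi_deriv_nonneg h0 ρ
    positivity
  · intro ρ hρ
    rw [hdU ρ hρ, hV, hU]
    simp only
    have e1 : ρ * (6 * ρ * lcapChi ρ1 ρ - 4 * (G ρ / ρ ^ 5)) + 4 * (G ρ / ρ ^ 4) =
        6 * ρ ^ 2 * lcapChi ρ1 ρ := by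
      field_simp
      ring
    rw [e1]
    have h2 := lcapChi_nonneg ρ1 ρ
    positivity

end Pool.Agent.MP39e402
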