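import Pool.Agent.Lib.MP_39e402_gt.LConc

/-! # MP_39e402, module LComp: composition rules for concave functions, Hessian of a concave function -/

open Real Set Filter Topology MeasureTheory
open scoped ContDiff

noncomputable section

namespace Pool.Agent.MP39e402

/-! ## composition -/

private theorem lcomp_pos {a b p q : ℝ} (ha : 0 ≤ a) (hb : 0 ≤ b) (hab : a + b = 1) (hp : 0 < p)
    (hq : 0 < q) : 0 < a * p + b * q := by
  rcases lt_or_eq_of_le ha with h | h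
  · have := mul_pos h hp
    have := mul_nonneg hb hq.le
    linarith
  · have hb1 : b = 1 := by linarith
    rw [← h, hb1]
    linarith

/-- monotone concave function of two positive concave functions -/
theorem concaveOn_comp2 {E : Type*} [AddCommGroup E] [Module ℝ E] {s : Set E} {G : ℝ → ℝ → ℝ}
    (hG : ConcaveOn ℝ Qd (fun p => G p.1 p.2))
    (hm : ∀ x y x' y' : ℝ, 0 < x → 0 < y → x ≤ x' → y ≤ y' → G x y ≤ G x' y')
    {f g : E → ℝ} (hf : ConcaveOn ℝ s f) (hg : ConcaveOn ℝ s g)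
    (hf0 : ∀ x ∈ s, 0 < f x) (hg0 : ∀ x ∈ s, 0 < g x) : ConcaveOn ℝ s (fun x => G (f x) (g x)) := by
  refine ⟨hf.1, ?_⟩
  intro x hx y hy a b ha hb hab
  have h1 := hG.2 (x := (f x, g x)) ⟨hf0 x hx, hg0 x hx⟩ (y := (f y, g y))
    ⟨hf0 y hy, hg0 y hy⟩ ha hb hab
  refine le_trans h1 ?_
  have h2 := hf.2 hx hy ha hb hab
  have h3 := hg.2 hx hy ha hb hab
  simp only [smul_eq_mul] at h2 h3
  exact hm _ _ _ _ (lcomp_pos ha hb hab (hf0 x hx) (hf0 y hy))
    (lcomp_pos ha hb hab (hg0 x hx) (hg0 y hy)) h2 h3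

/-- monotone convex function of two positive convex functions -/
theorem convexOn_comp2 {E : Type*} [AddCommGroup E] [Module ℝ E] {s : Set E} {G : ℝ → ℝ → ℝ}
    (hG : ConvexOn ℝ Qd (fun p => G p.1 p.2))
    (hm : ∀ x y x' y' : ℝ, 0 < x → 0 < y → x ≤ x' → y ≤ y' → G x y ≤ G x' y')
    {f g : E → ℝ} (hf : ConvexOn ℝ s f) (hg : ConvexOn ℝ s g)
    (hf0 : ∀ x ∈ s, 0 < f x) (hg0 : ∀ x ∈ s, 0 < g x) : ConvexOn ℝ s (fun x => G (f x) (g x)) := by
  refine ⟨hf.1, ?_⟩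
  intro x hx y hy a b ha hb hab
  have h1 := hG.2 (x := (f x, g x)) ⟨hf0 x hx, hg0 x hx⟩ (y := (f y, g y))
    ⟨hf0 y hy, hg0 y hy⟩ ha hb hab
  refine le_trans ?_ h1
  have h2 := hf.2 hx hy ha hb hab
  have h3 := hg.2 hx hy ha hb hab
  simp only [smul_eq_mul] at h2 h3
  have hz : a • x + b • y ∈ s := hf.1 hx hy ha hb hab
  exact hm _ _ _ _ (hf0 _ hz) (hg0 _ hz) h2 h3

/-- partial derivatives in terms of the Fréchet derivative -/
theorem lcomp_D1_eq {f : ℝ → ℝ → ℝ} {x y : ℝ}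
    (h : DifferentiableAt ℝ (fun p : ℝ × ℝ => f p.1 p.2) (x, y)) :
    D1 f x y = fderiv ℝ (fun p : ℝ × ℝ => f p.1 p.2) (x, y) (1, 0) := by
  have h1 : HasDerivAt (fun r : ℝ => (r, y)) ((1 : ℝ), (0 : ℝ)) x :=
    (hasDerivAt_id x).prodMk (hasDerivAt_const x y)
  exact (h.hasFDerivAt.comp_hasDerivAt x h1).deriv

theorem lcomp_D2_eq {f : ℝ → ℝ → ℝ} {x y : ℝ}
    (h : DifferentiableAt ℝ (fun p : ℝ × ℝ => f p.1 p.2) (x, y)) :
    D2 f x y = fderiv ℝ (fun p : ℝ × ℝ => f p.1 p.2) (x, y) (0, 1) := by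
  have h1 : HasDerivAt (fun r : ℝ => (x, r)) ((0 : ℝ), (1 : ℝ)) y :=
    (hasDerivAt_const y x).prodMk (hasDerivAt_id y)
  exact (h.hasFDerivAt.comp_hasDerivAt y h1).deriv

/-- a `C²` concave function on an open set of `ℝ × ℝ` has nonpositive Hessian -/
theorem hess_nonpos_of_concaveOn {s : Set (ℝ × ℝ)} (hs : IsOpen s) {f : ℝ → ℝ → ℝ}
    (hf : ConcaveOn ℝ s (fun p => f p.1 p.2)) (hc : ContDiffOn ℝ 2 (fun p : ℝ × ℝ => f p.1 p.2) s)
    {x y : ℝ} (hxy : (x, y) ∈ s) (v w : ℝ) :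
    D11 f x y * v^2 + 2 * D12 f x y * v * w + D22 f x y * w^2 ≤ 0 := by
  set Fn : ℝ × ℝ → ℝ := fun p => f p.1 p.2 with hFn
  have hdiff : ∀ p ∈ s, DifferentiableAt ℝ Fn p := fun p hp =>
    ((hc.differentiableOn two_ne_zero) p hp).differentiableAt (hs.mem_nhds hp)
  have hcat : ContDiffAt ℝ 2 Fn (x, y) := hc.contDiffAt (hs.mem_nhds hxy)
  have hfd : ContDiffAt ℝ 1 (fderiv ℝ Fn) (x, y) := hcat.fderiv_right (by norm_num)
  have hB : HasFDerivAt (fderiv ℝ Fn) (fderiv ℝ (fderiv ℝ Fn) (x, y)) (x, y) :=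
    (hfd.differentiableAt one_ne_zero).hasFDerivAt
  set B := fderiv ℝ (fderiv ℝ Fn) (x, y) with hBdef
  have hsymm : ∀ u u' : ℝ × ℝ, B u u' = B u' u := by
    have h1 : IsSymmSndFDerivAt ℝ Fn (x, y) := hcat.isSymmSndFDerivAt (by simp)
    exact fun u u' => h1 u u'
  have hcurve1 : ∀ᶠ r in 𝓝 x, (r, y) ∈ s := by
    have h1 : Continuous fun r : ℝ => (r, y) := by fun_prop
    exact h1.continuousAt.preimage_mem_nhds (hs.mem_nhds hxy)
  have hcurve2 : ∀ᶠ r in 𝓝 y, (x, r) ∈ s := by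
    have h1 : Continuous fun r : ℝ => (x, r) := by fun_prop
    exact h1.continuousAt.preimage_mem_nhds (hs.mem_nhds hxy)
  have hder1 : HasDerivAt (fun r : ℝ => (r, y)) ((1 : ℝ), (0 : ℝ)) x :=
    (hasDerivAt_id x).prodMk (hasDerivAt_const x y)
  have hder2 : HasDerivAt (fun r : ℝ => (x, r)) ((0 : ℝ), (1 : ℝ)) y :=
    (hasDerivAt_const y x).prodMk (hasDerivAt_id y)
  have happ : ∀ u : ℝ × ℝ, HasFDerivAt (fun p => fderiv ℝ Fn p u)
      ((ContinuousLinearMap.apply ℝ ℝ u).comp B) (x, y) := fun u =>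
    (ContinuousLinearMap.apply ℝ ℝ u).hasFDerivAt.comp (x, y) hB
  have e11 : D11 f x y = B (1, 0) (1, 0) := by
    have h1 := ((happ (1, 0)).comp_hasDerivAt x hder1).deriv
    have h2 : (fun r => D1 f r y) =ᶠ[𝓝 x] ((fun p => fderiv ℝ Fn p (1, 0)) ∘ fun r => (r, y)) := by
      filter_upwards [hcurve1] with r hr
      exact lcomp_D1_eq (hdiff _ hr)
    show deriv (fun r => D1 f r y) x = _
    rw [h2.deriv_eq, h1]
    rfl
  have e12 : D12 f x y = B (1, 0) (0, 1) := by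
    have h1 := ((happ (0, 1)).comp_hasDerivAt x hder1).deriv
    have h2 : (fun r => D2 f r y) =ᶠ[𝓝 x] ((fun p => fderiv ℝ Fn p (0, 1)) ∘ fun r => (r, y)) := by
      filter_upwards [hcurve1] with r hr
      exact lcomp_D2_eq (hdiff _ hr)
    show deriv (fun r => D2 f r y) x = _
    rw [h2.deriv_eq, h1]
    rfl
  have e22 : D22 f x y = B (0, 1) (0, 1) := by
    have h1 := ((happ (0, 1)).comp_hasDerivAt y hder2).deriv
    have h2 : (fun r => D2 f x r) =ᶠ[𝓝 y] ((fun p => fderiv ℝ Fn p (0, 1)) ∘ fun r => (x, r)) := by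
      filter_upwards [hcurve2] with r hr
      exact lcomp_D2_eq (hdiff _ hr)
    show deriv (fun r => D2 f x r) y = _
    rw [h2.deriv_eq, h1]
    rfl
  -- the restriction to a line
  have hline : ∀ t : ℝ, AffineMap.lineMap (x, y) ((x, y) + (v, w)) t = (x, y) + t • (v, w) := by
    intro t
    rw [AffineMap.lineMap_apply_module']
    rw [add_sub_cancel_left, add_comm]
  have hconc := hf.comp_affineMap (AffineMap.lineMap (k := ℝ) (x, y) ((x, y) + (v, w)))
  set T : Set ℝ := (AffineMap.lineMap (k := ℝ) (x, y) ((x, y) + (v, w))) ⁻¹' s with hT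
  have hlin : ∀ t : ℝ, HasDerivAt (fun t : ℝ => (x, y) + t • (v, w)) (v, w) t := by
    intro t
    have h1 := ((hasDerivAt_id t).smul_const (v, w)).const_add (x, y)
    rw [one_smul] at h1
    exact h1
  have hφ : (Fn ∘ (AffineMap.lineMap (k := ℝ) (x, y) ((x, y) + (v, w)))) =
      fun t : ℝ => Fn ((x, y) + t • (v, w)) := by
    funext t
    rw [Function.comp_apply, hline]
  have hTmem : ∀ t, t ∈ T ↔ (x, y) + t • (v, w) ∈ s := by
    intro t
    rw [hT, mem_preimage, hline]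
  have h0T : (0 : ℝ) ∈ T := by
    rw [hTmem, zero_smul, add_zero]
    exact hxy
  have hTopen : IsOpen T := by
    have h1 : Continuous fun t : ℝ => (x, y) + t • (v, w) := by fun_prop
    have h2 : T = (fun t : ℝ => (x, y) + t • (v, w)) ⁻¹' s := by
      ext t
      rw [hTmem]
      rfl
    rw [h2]
    exact hs.preimage h1
  have hφd : ∀ t ∈ T, HasDerivAt (fun t : ℝ => Fn ((x, y) + t • (v, w)))
      (fderiv ℝ Fn ((x, y) + t • (v, w)) (v, w)) t := by
    intro t ht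
    have h1 : HasFDerivAt Fn (fderiv ℝ Fn ((x, y) + t • (v, w))) ((x, y) + t • (v, w)) :=
      (hdiff _ ((hTmem t).mp ht)).hasFDerivAt
    exact h1.comp_hasDerivAt t (hlin t)
  have hanti := hconc.antitoneOn_deriv (by
    intro t ht
    rw [hφ]
    exact (hφd t ht).differentiableAt)
  rw [hφ] at hanti
  have hder0 : HasDerivAt (fun t : ℝ => fderiv ℝ Fn ((x, y) + t • (v, w)) (v, w))
      (B (v, w) (v, w)) 0 := by
    have h1 : HasFDerivAt (fun p => fderiv ℝ Fn p (v, w))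
        ((ContinuousLinearMap.apply ℝ ℝ (v, w)).comp B) ((x, y) + (0 : ℝ) • (v, w)) := by
      rw [zero_smul, add_zero]
      exact happ (v, w)
    exact h1.comp_hasDerivAt 0 (hlin 0)
  have hneg : B (v, w) (v, w) ≤ 0 := by
    have h1 := hder0.tendsto_slope_zero_right
    refine le_of_tendsto h1 ?_
    have h2 : ∀ᶠ t in 𝓝[>] (0 : ℝ), t ∈ T := nhdsWithin_le_nhds (hTopen.mem_nhds h0T)
    filter_upwards [h2, self_mem_nhdsWithin] with t ht ht0
    have ht0' : (0 : ℝ) < t := ht0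
    have h3 := hanti h0T ht ht0'.le
    rw [(hφd t ht).deriv, (hφd 0 h0T).deriv] at h3
    rw [zero_add, smul_eq_mul]
    exact mul_nonpos_of_nonneg_of_nonpos (inv_nonneg.mpr ht0'.le) (by linarith)
  have hexp : B (v, w) (v, w) = D11 f x y * v^2 + 2 * D12 f x y * v * w + D22 f x y * w^2 := by
    have h1 : ((v, w) : ℝ × ℝ) = v • ((1 : ℝ), (0 : ℝ)) + w • ((0 : ℝ), (1 : ℝ)) := by
      ext <;> simp
    rw [e11, e12, e22, h1]
    simp only [map_add, map_smul, add_apply, smul_apply, smul_eq_mul]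
    rw [hsymm (0, 1) (1, 0)]
    ring
  rw [← hexp]
  exact hneg

end Pool.Agent.MP39e402
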