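import Pool.Agent.Lib.MP_39e402_gt.LSt

/-! # MP_39e402, module LConc: concavity, monotonicity, exact values of `Hf, Zf, mnf, mxf, Ff`,
composition rules -/

open Real Set Filter Topology MeasureTheory
open scoped ContDiff

noncomputable section

namespace Pool.Agent.MP39e402

/-- the open positive quadrant in `ℝ × ℝ` -/
def Qd : Set (ℝ × ℝ) := {p | 0 < p.1 ∧ 0 < p.2}

private theorem lconc_Qd_eq : Qd = {p : ℝ × ℝ | 0 < p.1} ∩ {p : ℝ × ℝ | 0 < p.2} := rfl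

theorem Qd_convex : Convex ℝ Qd := by
  rw [lconc_Qd_eq]
  refine Convex.inter ?_ ?_
  · exact convex_halfSpace_gt (𝕜 := ℝ) (f := fun p : ℝ × ℝ => p.1) ⟨fun _ _ => rfl, fun _ _ => rfl⟩ 0
  · exact convex_halfSpace_gt (𝕜 := ℝ) (f := fun p : ℝ × ℝ => p.2) ⟨fun _ _ => rfl, fun _ _ => rfl⟩ 0

theorem Qd_isOpen : IsOpen Qd := by
  rw [lconc_Qd_eq]
  exact (isOpen_lt continuous_const continuous_fst).inter
    (isOpen_lt continuous_const continuous_snd)

/-- superadditive positively homogeneous functions are concave -/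
private theorem lconc_of_superadd {G : ℝ → ℝ → ℝ}
    (hG : ∀ c x y : ℝ, 0 < c → G (c * x) (c * y) = c * G x y)
    (hs : ∀ x y x' y' : ℝ, 0 < x → 0 < y → 0 < x' → 0 < y' →
      G x y + G x' y' ≤ G (x + x') (y + y')) : ConcaveOn ℝ Qd (fun p => G p.1 p.2) := by
  refine ⟨Qd_convex, ?_⟩
  rintro ⟨x, y⟩ ⟨hx, hy⟩ ⟨x', y'⟩ ⟨hx', hy'⟩ a b ha hb hab
  simp only at hx hy hx' hy'
  simp only [Prod.smul_mk, Prod.mk_add_mk, smul_eq_mul]
  rcases lt_or_eq_of_le ha with h1 | h1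
  · rcases lt_or_eq_of_le hb with h2 | h2
    · rw [← hG a x y h1, ← hG b x' y' h2]
      exact hs _ _ _ _ (mul_pos h1 hx) (mul_pos h1 hy) (mul_pos h2 hx') (mul_pos h2 hy')
    · have ha1 : a = 1 := by linarith
      rw [← h2, ha1]
      simp
  · have hb1 : b = 1 := by linarith
    rw [← h1, hb1]
    simp

/-! ## `Hf` -/
private theorem lconc_sq_pos {x y : ℝ} (hx : 0 < x) : 0 < x ^ 2 + y ^ 2 := by positivity

private theorem lconc_sqrt_pos {x y : ℝ} (hx : 0 < x) : 0 < √(x ^ 2 + y ^ 2) :=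
  Real.sqrt_pos.mpr (lconc_sq_pos hx)

theorem Hf_pos {x y : ℝ} (hx : 0 < x) (hy : 0 < y) : 0 < Hf x y :=
  div_pos (mul_pos hx hy) (lconc_sqrt_pos hx)

theorem Hf_comm (x y : ℝ) : Hf x y = Hf y x := by
  unfold Hf
  rw [mul_comm, add_comm]

theorem Hf_lt_right {x y : ℝ} (hx : 0 < x) (hy : 0 < y) : Hf x y < y := by
  unfold Hf
  rw [div_lt_iff₀ (lconc_sqrt_pos hx), mul_comm]
  refine mul_lt_mul_of_pos_left ?_ hy
  refine (Real.lt_sqrt hx.le).mpr ?_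
  have := pow_pos hy 2
  linarith

theorem Hf_lt_left {x y : ℝ} (hx : 0 < x) (hy : 0 < y) : Hf x y < x := by
  rw [Hf_comm]
  exact Hf_lt_right hy hx

theorem Hf_mul {c x y : ℝ} (hc : 0 < c) : Hf (c * x) (c * y) = c * Hf x y := by
  unfold Hf
  have h1 : (c * x) ^ 2 + (c * y) ^ 2 = c ^ 2 * (x ^ 2 + y ^ 2) := by ring
  rw [h1, Real.sqrt_mul (sq_nonneg c), Real.sqrt_sq hc.le]
  have h2 : c * x * (c * y) = c * (c * (x * y)) := by ring
  rw [h2, mul_div_mul_left _ _ hc.ne', mul_div_assoc]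

theorem Hf_mono {x y x' y' : ℝ} (hx : 0 < x) (hy : 0 < y) (h1 : x ≤ x') (h2 : y ≤ y') :
    Hf x y ≤ Hf x' y' := by
  have hx' : 0 < x' := lt_of_lt_of_le hx h1
  have hy' : 0 < y' := lt_of_lt_of_le hy h2
  have key : Hf x y ^ 2 ≤ Hf x' y' ^ 2 := by
    unfold Hf
    rw [div_pow, div_pow, Real.sq_sqrt (lconc_sq_pos hx).le, Real.sq_sqrt (lconc_sq_pos hx').le,
      div_le_div_iff₀ (lconc_sq_pos hx) (lconc_sq_pos hx')]
    have e1 : x ^ 2 ≤ x' ^ 2 := pow_le_pow_left₀ hx.le h1 2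
    have e2 : y ^ 2 ≤ y' ^ 2 := pow_le_pow_left₀ hy.le h2 2
    have e3 : (x ^ 2 * x' ^ 2) * y ^ 2 ≤ (x ^ 2 * x' ^ 2) * y' ^ 2 :=
      mul_le_mul_of_nonneg_left e2 (by positivity)
    have e4 : (y ^ 2 * y' ^ 2) * x ^ 2 ≤ (y ^ 2 * y' ^ 2) * x' ^ 2 :=
      mul_le_mul_of_nonneg_left e1 (by positivity)
    nlinarith
  exact le_of_sq_le_sq key (Hf_pos hx' hy').le

/-- supporting linear functional -/
private theorem lconc_support {x y X Y : ℝ} (hx : 0 < x) (hy : 0 < y) (hX : 0 < X) (hY : 0 < Y) :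
    Hf x y ≤ (Y ^ 3 * x + X ^ 3 * y) / √(X ^ 2 + Y ^ 2) ^ 3 := by
  unfold Hf
  set r := √(x ^ 2 + y ^ 2) with hr
  set R := √(X ^ 2 + Y ^ 2) with hR
  have hr0 : 0 < r := lconc_sqrt_pos hx
  have hR0 : 0 < R := lconc_sqrt_pos hX
  have hr2 : r ^ 2 = x ^ 2 + y ^ 2 := Real.sq_sqrt (lconc_sq_pos hx).le
  have hR2 : R ^ 2 = X ^ 2 + Y ^ 2 := Real.sq_sqrt (lconc_sq_pos hX).le
  rw [div_le_div_iff₀ hr0 (pow_pos hR0 3)]
  have h1 : 0 ≤ x * ((Y * r - y * R) ^ 2 * (2 * (Y * r) + y * R)) +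
      y * ((X * r - x * R) ^ 2 * (2 * (X * r) + x * R)) := by positivity
  have h2 : x * ((Y * r - y * R) ^ 2 * (2 * (Y * r) + y * R)) +
      y * ((X * r - x * R) ^ 2 * (2 * (X * r) + x * R)) =
      2 * r ^ 2 * ((Y ^ 3 * x + X ^ 3 * y) * r - x * y * R ^ 3) := by
    have e1 : x * ((Y * r - y * R) ^ 2 * (2 * (Y * r) + y * R)) +
      y * ((X * r - x * R) ^ 2 * (2 * (X * r) + x * R)) =
      2 * r ^ 3 * (Y ^ 3 * x + X ^ 3 * y) - 3 * x * y * r ^ 2 * R * (X ^ 2 + Y ^ 2) +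
        x * y * R ^ 3 * (x ^ 2 + y ^ 2) := by ring
    rw [e1, ← hr2, ← hR2]
    ring
  rw [h2] at h1
  have h3 : 0 < 2 * r ^ 2 := by positivity
  have h4 := nonneg_of_mul_nonneg_right h1 h3
  linarith

private theorem lconc_Hf_superadd {x y x' y' : ℝ} (hx : 0 < x) (hy : 0 < y) (hx' : 0 < x')
    (hy' : 0 < y') : Hf x y + Hf x' y' ≤ Hf (x + x') (y + y') := by
  have hX : 0 < x + x' := add_pos hx hx'
  have hY : 0 < y + y' := add_pos hy hy'
  have h1 := lconc_support hx hy hX hY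
  have h2 := lconc_support hx' hy' hX hY
  have h3 : Hf (x + x') (y + y') =
      ((y + y') ^ 3 * (x + x') + (x + x') ^ 3 * (y + y')) / √((x + x') ^ 2 + (y + y') ^ 2) ^ 3 := by
    unfold Hf
    have hR0 : 0 < √((x + x') ^ 2 + (y + y') ^ 2) := lconc_sqrt_pos hX
    have hR2 : √((x + x') ^ 2 + (y + y') ^ 2) ^ 2 = (x + x') ^ 2 + (y + y') ^ 2 :=
      Real.sq_sqrt (lconc_sq_pos hX).le
    rw [div_eq_div_iff hR0.ne' (pow_pos hR0 3).ne']
    have e1 : √((x + x') ^ 2 + (y + y') ^ 2) ^ 3 =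
        √((x + x') ^ 2 + (y + y') ^ 2) ^ 2 * √((x + x') ^ 2 + (y + y') ^ 2) := by ring
    rw [e1, hR2]
    ring
  rw [h3]
  calc Hf x y + Hf x' y' ≤
      ((y + y') ^ 3 * x + (x + x') ^ 3 * y) / √((x + x') ^ 2 + (y + y') ^ 2) ^ 3 +
      ((y + y') ^ 3 * x' + (x + x') ^ 3 * y') / √((x + x') ^ 2 + (y + y') ^ 2) ^ 3 :=
        add_le_add h1 h2
    _ = _ := by
      rw [← add_div]
      congr 1
      ring

theorem Hf_concaveOn : ConcaveOn ℝ Qd (fun p => Hf p.1 p.2) :=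
  lconc_of_superadd (fun _ _ _ hc => Hf_mul hc) fun _ _ _ _ h1 h2 h3 h4 =>
    lconc_Hf_superadd h1 h2 h3 h4

theorem Hf_contDiffOn : ContDiffOn ℝ ∞ (fun p : ℝ × ℝ => Hf p.1 p.2) Qd := by
  unfold Hf
  have h1 : ContDiffOn ℝ ∞ (fun p : ℝ × ℝ => p.1 ^ 2 + p.2 ^ 2) Qd :=
    ((contDiff_fst.pow 2).add (contDiff_snd.pow 2)).contDiffOn
  have h2 : ContDiffOn ℝ ∞ (fun p : ℝ × ℝ => p.1 * p.2) Qd :=
    (contDiff_fst.mul contDiff_snd).contDiffOn
  refine h2.div (h1.sqrt fun p hp => (lconc_sq_pos hp.1).ne') fun p hp =>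
    (lconc_sqrt_pos hp.1).ne'

/-! ## `Zf` -/
theorem Zf_pos {x u : ℝ} (hx : 0 < x) (hu : 0 < u) : 0 < Zf x u :=
  mul_pos hu (zf_pos (div_pos hx hu))

theorem Zf_eq_self {x u : ℝ} (hu : 0 < u) (h : x ≤ 2 * u) : Zf x u = x := by
  unfold Zf
  rw [zf_eq_self ((div_le_iff₀ hu).mpr h)]
  exact mul_div_cancel₀ x hu.ne'

theorem Zf_eq_three {x u : ℝ} (hu : 0 < u) (h : 4 * u ≤ x) : Zf x u = 3 * u := by
  unfold Zf
  rw [zf_eq_three ((le_div_iff₀ hu).mpr h), mul_comm]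

theorem Zf_le_self {x u : ℝ} (hu : 0 < u) : Zf x u ≤ x := by
  unfold Zf
  calc u * zf (x / u) ≤ u * (x / u) := mul_le_mul_of_nonneg_left (zf_le_self _) hu.le
    _ = x := mul_div_cancel₀ x hu.ne'

theorem Zf_le_three {x u : ℝ} (hu : 0 < u) : Zf x u ≤ 3 * u := by
  unfold Zf
  calc u * zf (x / u) ≤ u * 3 := mul_le_mul_of_nonneg_left (zf_le_three _) hu.le
    _ = 3 * u := mul_comm _ _

/-- `Z(x,u) ≥ min(x, 2u)` -/
theorem Zf_ge {x u : ℝ} (hu : 0 < u) : min x (2 * u) ≤ Zf x u := by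
  by_cases h : x ≤ 2 * u
  · rw [Zf_eq_self hu h]
    exact min_le_left _ _
  · push Not at h
    refine (min_le_right _ _).trans ?_
    unfold Zf
    rw [mul_comm]
    exact mul_le_mul_of_nonneg_left (zf_two_le ((le_div_iff₀ hu).mpr h.le)) hu.le

theorem Zf_mul {c x u : ℝ} (hc : 0 < c) : Zf (c * x) (c * u) = c * Zf x u := by
  unfold Zf
  rw [mul_div_mul_left _ _ hc.ne', mul_assoc]

private theorem lconc_Zf_mono_left {x x' u : ℝ} (hu : 0 < u) (h : x ≤ x') : Zf x u ≤ Zf x' u := by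
  unfold Zf
  exact mul_le_mul_of_nonneg_left (zf_mono ((div_le_div_iff_of_pos_right hu).mpr h)) hu.le

private theorem lconc_Zf_superadd {x u x' u' : ℝ} (hu : 0 < u) (hu' : 0 < u') :
    Zf x u + Zf x' u' ≤ Zf (x + x') (u + u') := by
  unfold Zf
  have hs : 0 < u + u' := add_pos hu hu'
  have h1 := zf_concaveOn.2 (mem_univ (x / u)) (mem_univ (x' / u'))
    (div_nonneg hu.le hs.le) (div_nonneg hu'.le hs.le) (by rw [← add_div, div_self hs.ne'])
  simp only [smul_eq_mul] at h1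
  have h2 : u / (u + u') * (x / u) + u' / (u + u') * (x' / u') = (x + x') / (u + u') := by
    field_simp
  rw [h2] at h1
  have h3 := mul_le_mul_of_nonneg_left h1 hs.le
  calc u * zf (x / u) + u' * zf (x' / u') =
      (u + u') * (u / (u + u') * zf (x / u) + u' / (u + u') * zf (x' / u')) := by
        field_simp
    _ ≤ _ := h3

theorem Zf_mono {x u x' u' : ℝ} (hx : 0 < x) (hu : 0 < u) (h1 : x ≤ x') (h2 : u ≤ u') :
    Zf x u ≤ Zf x' u' := by
  have hu' : 0 < u' := lt_of_lt_of_le hu h2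
  refine (lconc_Zf_mono_left hu h1).trans ?_
  rcases lt_or_eq_of_le h2 with h | h
  · have h3 := lconc_Zf_superadd (x := x') (x' := 0) hu (sub_pos.mpr h)
    rw [add_zero, add_sub_cancel] at h3
    have h4 : Zf 0 (u' - u) = 0 := Zf_eq_self (sub_pos.mpr h) (by linarith)
    rw [h4, add_zero] at h3
    exact h3
  · rw [h]

theorem Zf_concaveOn : ConcaveOn ℝ Qd (fun p => Zf p.1 p.2) :=
  lconc_of_superadd (fun _ _ _ hc => Zf_mul hc) fun _ _ _ _ _ h2 _ h4 =>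
    lconc_Zf_superadd h2 h4

theorem Zf_contDiffOn : ContDiffOn ℝ ∞ (fun p : ℝ × ℝ => Zf p.1 p.2) {p | 0 < p.2} := by
  unfold Zf
  have h1 : ContDiffOn ℝ ∞ (fun p : ℝ × ℝ => p.1 / p.2) {p : ℝ × ℝ | 0 < p.2} :=
    contDiff_fst.contDiffOn.div contDiff_snd.contDiffOn fun p hp => (ne_of_gt hp)
  exact contDiff_snd.contDiffOn.mul (zf_contDiff.comp_contDiffOn h1)

/-! ## `mnf`, `mxf` -/
theorem mnf_eq_Zf (p q : ℝ) : mnf p q = Zf p (q / 3) := by
  unfold mnf Zf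
  congr 2
  rw [div_div_eq_mul_div, mul_comm]

theorem mnf_pos {p q : ℝ} (hp : 0 < p) (hq : 0 < q) : 0 < mnf p q := by
  rw [mnf_eq_Zf]
  exact Zf_pos hp (by linarith)

theorem mnf_eq_left {p q : ℝ} (hq : 0 < q) (h : 3 * p ≤ 2 * q) : mnf p q = p := by
  rw [mnf_eq_Zf]
  exact Zf_eq_self (by linarith) (by linarith)

theorem mnf_eq_right {p q : ℝ} (hq : 0 < q) (h : 4 * q ≤ 3 * p) : mnf p q = q := by
  rw [mnf_eq_Zf, Zf_eq_three (by linarith) (by linarith)]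
  ring

theorem mnf_le_left {p q : ℝ} (hq : 0 < q) : mnf p q ≤ p := by
  rw [mnf_eq_Zf]
  exact Zf_le_self (by linarith)

theorem mnf_le_right {p q : ℝ} (hq : 0 < q) : mnf p q ≤ q := by
  rw [mnf_eq_Zf]
  have := Zf_le_three (x := p) (u := q / 3) (by linarith)
  linarith

theorem mnf_mul {c p q : ℝ} (hc : 0 < c) : mnf (c * p) (c * q) = c * mnf p q := by
  rw [mnf_eq_Zf, mnf_eq_Zf, mul_div_assoc]
  exact Zf_mul hc

theorem mnf_mono {p q p' q' : ℝ} (hp : 0 < p) (hq : 0 < q) (h1 : p ≤ p') (h2 : q ≤ q') :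
    mnf p q ≤ mnf p' q' := by
  rw [mnf_eq_Zf, mnf_eq_Zf]
  exact Zf_mono hp (by linarith) h1 (by linarith)

private theorem lconc_mnf_superadd {p q p' q' : ℝ} (hq : 0 < q) (hq' : 0 < q') :
    mnf p q + mnf p' q' ≤ mnf (p + p') (q + q') := by
  rw [mnf_eq_Zf, mnf_eq_Zf, mnf_eq_Zf, add_div]
  exact lconc_Zf_superadd (by linarith) (by linarith)

theorem mnf_concaveOn : ConcaveOn ℝ Qd (fun p => mnf p.1 p.2) :=
  lconc_of_superadd (fun _ _ _ hc => mnf_mul hc) fun _ _ _ _ _ h2 _ h4 =>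
    lconc_mnf_superadd h2 h4

theorem mnf_contDiffOn : ContDiffOn ℝ ∞ (fun p : ℝ × ℝ => mnf p.1 p.2) {p | 0 < p.2} := by
  have h0 : (fun p : ℝ × ℝ => mnf p.1 p.2) =
      (fun p : ℝ × ℝ => Zf p.1 p.2) ∘ fun p : ℝ × ℝ => (p.1, p.2 / 3) := by
    funext p
    exact mnf_eq_Zf _ _
  rw [h0]
  refine Zf_contDiffOn.comp ?_ ?_
  · exact (contDiff_fst.prodMk (contDiff_snd.div_const 3)).contDiffOn
  · intro p hp
    have hp' : 0 < p.2 := hp
    show 0 < p.2 / 3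
    linarith

/-- `mnf p q ≥ (2/3) min(p, q)` -/
theorem mnf_ge {p q : ℝ} (hp : 0 < p) (hq : 0 < q) : 2 / 3 * min p q ≤ mnf p q := by
  rw [mnf_eq_Zf]
  refine le_trans ?_ (Zf_ge (by linarith))
  refine le_min ?_ ?_
  · have := min_le_left p q
    have h0 : 0 < min p q := lt_min hp hq
    linarith
  · have := min_le_right p q
    linarith

theorem mxf_eq_right {p q : ℝ} (hq : 0 < q) (h : 3 * p ≤ 2 * q) : mxf p q = q := by
  unfold mxf
  rw [mnf_eq_left hq h]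
  ring

theorem mxf_eq_left {p q : ℝ} (hq : 0 < q) (h : 4 * q ≤ 3 * p) : mxf p q = p := by
  unfold mxf
  rw [mnf_eq_right hq h]
  ring

theorem le_mxf_left {p q : ℝ} (hq : 0 < q) : p ≤ mxf p q := by
  unfold mxf
  have := mnf_le_right (p := p) hq
  linarith

theorem le_mxf_right {p q : ℝ} (hq : 0 < q) : q ≤ mxf p q := by
  unfold mxf
  have := mnf_le_left (p := p) hq
  linarith

theorem mxf_lt_add {p q : ℝ} (hp : 0 < p) (hq : 0 < q) : mxf p q < p + q := by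
  unfold mxf
  have := mnf_pos hp hq
  linarith

theorem mxf_mul {c p q : ℝ} (hc : 0 < c) : mxf (c * p) (c * q) = c * mxf p q := by
  unfold mxf
  rw [mnf_mul hc]
  ring

/-- `t - zf t` is monotone -/
private theorem lconc_sub_zf {s t : ℝ} (h : s ≤ t) : zf t - zf s ≤ t - s := by
  have hd : ∀ t : ℝ, HasDerivAt (fun t => t - zf t) (1 - (1 - st ((t - 2) / 2))) t := fun t =>
    (hasDerivAt_id t).sub (zf_hasDerivAt t)
  have h1 : Monotone fun t => t - zf t := by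
    refine monotone_of_deriv_nonneg ?_ ?_
    · intro t
      exact (hd t).differentiableAt
    · intro t
      rw [(hd t).deriv]
      have := st_nonneg ((t - 2) / 2)
      linarith
  have h2 := h1 h
  simp only at h2
  linarith

theorem mxf_mono {p q p' q' : ℝ} (hp : 0 < p) (hq : 0 < q) (h1 : p ≤ p') (h2 : q ≤ q') :
    mxf p q ≤ mxf p' q' := by
  have hq' : 0 < q' := lt_of_lt_of_le hq h2
  have hp' : 0 < p' := lt_of_lt_of_le hp h1
  -- in the first variable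
  have e1 : mxf p q ≤ mxf p' q := by
    unfold mxf mnf
    have h3 : 3 * p / q ≤ 3 * p' / q := (div_le_div_iff_of_pos_right hq).mpr (by linarith)
    have h4 := mul_le_mul_of_nonneg_left (lconc_sub_zf h3) (show (0:ℝ) ≤ q / 3 by linarith)
    have h5 : q / 3 * (3 * p' / q - 3 * p / q) = p' - p := by
      field_simp
    rw [h5] at h4
    linarith
  -- in the second variable
  have e2 : mxf p' q ≤ mxf p' q' := by
    unfold mxf mnf
    have h3 : 3 * p' / q' ≤ 3 * p' / q :=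
      div_le_div_of_nonneg_left (by linarith) hq h2
    have h4 : q / 3 * (zf (3 * p' / q') - zf (3 * p' / q)) ≤ 0 :=
      mul_nonpos_of_nonneg_of_nonpos (by linarith) (sub_nonpos.mpr (zf_mono h3))
    have h5 : 0 ≤ (q' - q) / 3 * (3 - zf (3 * p' / q')) :=
      mul_nonneg (by linarith) (sub_nonneg.mpr (zf_le_three _))
    nlinarith
  exact e1.trans e2

theorem mxf_convexOn : ConvexOn ℝ Qd (fun p => mxf p.1 p.2) := by
  have h1 : ConvexOn ℝ Qd (fun p : ℝ × ℝ => p.1 + p.2) := by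
    refine ⟨Qd_convex, ?_⟩
    intro x _ y _ a b _ _ _
    simp only [Prod.fst_add, Prod.snd_add, Prod.smul_fst, Prod.smul_snd, smul_eq_mul]
    apply le_of_eq
    ring
  exact h1.sub mnf_concaveOn

theorem mxf_contDiffOn : ContDiffOn ℝ ∞ (fun p : ℝ × ℝ => mxf p.1 p.2) {p | 0 < p.2} := by
  unfold mxf
  exact (contDiff_fst.add contDiff_snd).contDiffOn.sub mnf_contDiffOn

/-! ## `Ff` -/
theorem Ff_lt {y s : ℝ} (hy : 0 < y) (hs : 0 < s) : Ff y s < y := by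
  unfold Ff
  have := Hf_lt_left hy (show 0 < s / 4 by linarith)
  linarith

theorem Ff_gt {y s : ℝ} (hy : 0 < y) (hs : 0 < s) : 9 / 10 * y < Ff y s := by
  unfold Ff
  have := Hf_pos hy (show 0 < s / 4 by linarith)
  linarith

theorem Ff_mul {c y s : ℝ} (hc : 0 < c) : Ff (c * y) (c * s) = c * Ff y s := by
  unfold Ff
  rw [mul_div_assoc, Hf_mul hc]
  ring

theorem Ff_mono {y s y' s' : ℝ} (hy : 0 < y) (hs : 0 < s) (h1 : y ≤ y') (h2 : s ≤ s') :
    Ff y s ≤ Ff y' s' := by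
  unfold Ff
  have := Hf_mono hy (show 0 < s / 4 by linarith) h1 (show s / 4 ≤ s' / 4 by linarith)
  linarith

theorem Ff_concaveOn : ConcaveOn ℝ Qd (fun p => Ff p.1 p.2) := by
  refine lconc_of_superadd (fun _ _ _ hc => Ff_mul hc) ?_
  intro x y x' y' hx hy hx' hy'
  unfold Ff
  have h1 := lconc_Hf_superadd hx (show 0 < y / 4 by linarith) hx' (show 0 < y' / 4 by linarith)
  rw [add_div]
  linarith

theorem Ff_contDiffOn : ContDiffOn ℝ ∞ (fun p : ℝ × ℝ => Ff p.1 p.2) Qd := by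
  unfold Ff
  have h1 : ContDiffOn ℝ ∞ (fun p : ℝ × ℝ => Hf p.1 (p.2 / 4)) Qd := by
    refine Hf_contDiffOn.comp (t := Qd) (f := fun p : ℝ × ℝ => (p.1, p.2 / 4)) ?_ ?_
    · exact (contDiff_fst.prodMk (contDiff_snd.div_const 4)).contDiffOn
    · rintro p ⟨hp1, hp2⟩
      exact ⟨hp1, show 0 < p.2 / 4 by linarith⟩
  exact (contDiff_const.mul contDiff_fst).contDiffOn.add (contDiffOn_const.mul h1)

end Pool.Agent.MP39e402
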