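import Pool.Agent.Lib.MP_39e402_gt.LConc
import Pool.Agent.Lib.MP_39e402_gt.LMid

/-! # MP_39e402, module LNT: the function `NT` on the quadrant.
`NT = R n(ϑ)`, `n(ϑ) = sin θ + Γ(θ)`, `θ = vthI ϑ`; `n'' + n = sx θ 1 + (sin θ + Γ)` is `≤ -1/15` by
`mid_XX0` with `p = 1`.  Concavity: along a line `q(t)`, `(R n(ϑ))'' = R (ϑ')² (n'' + n)(ϑ)`
(as `R'' = R ϑ'²`, `2R'ϑ' + Rϑ'' = 0`), or second derivatives in `x, y`. -/

open Real Set Filter Topology MeasureTheory
open scoped ContDiff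

noncomputable section

namespace Pool.Agent.MP39e402

/-- polar form: `(x,y) = R (cos ϑ(θ), sin ϑ(θ))` -/
theorem NT_polar {R t : ℝ} (hR : 0 < R) (h0 : 0 < t) (h1 : t < π) :
    NT (R * cos (vth t)) (R * sin (vth t)) = R * (sin t + Gam t) := by
  obtain ⟨hv0, hv1⟩ := vth_mem h0 h1
  have hc : 0 < cos (vth t) := Real.cos_pos_of_mem_Ioo ⟨by linarith, hv1⟩
  unfold NT
  have h2 : √((R * cos (vth t)) ^ 2 + (R * sin (vth t)) ^ 2) = R := by
    have h3 : (R * cos (vth t)) ^ 2 + (R * sin (vth t)) ^ 2 = R ^ 2 := by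
      calc (R * cos (vth t)) ^ 2 + (R * sin (vth t)) ^ 2 =
            R ^ 2 * (sin (vth t) ^ 2 + cos (vth t) ^ 2) := by ring
        _ = R ^ 2 := by rw [Real.sin_sq_add_cos_sq, mul_one]
    rw [h3, Real.sqrt_sq hR.le]
  have h3 : R * sin (vth t) / (R * cos (vth t)) = tan (vth t) := by
    rw [Real.tan_eq_sin_div_cos]
    field_simp
  rw [h2, h3, Real.arctan_tan (by linarith) hv1, vthI_vth]

theorem lnt_arctan_pos {x y : ℝ} (hx : 0 < x) (hy : 0 < y) : 0 < arctan (y / x) := by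
  rw [Real.arctan_pos]
  exact div_pos hy hx

theorem lnt_mem {x y : ℝ} (hx : 0 < x) (hy : 0 < y) :
    0 < vthI (arctan (y / x)) ∧ vthI (arctan (y / x)) < π :=
  vthI_mem (lnt_arctan_pos hx hy) (Real.arctan_lt_pi_div_two _)

theorem NT_comm {x y : ℝ} (hx : 0 < x) (hy : 0 < y) : NT x y = NT y x := by
  unfold NT
  have h1 : arctan (x / y) = π / 2 - arctan (y / x) := by
    have h2 := Real.arctan_inv_of_pos (div_pos hy hx)
    rw [inv_div] at h2
    exact h2
  rw [h1, vthI_symm, Real.sin_pi_sub, Gam_symm, add_comm (y ^ 2) (x ^ 2)]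

theorem NT_mul {c x y : ℝ} (hc : 0 < c) (hx : 0 < x) (hy : 0 < y) : NT (c * x) (c * y) = c * NT x y := by
  unfold NT
  have h1 : c * y / (c * x) = y / x := by field_simp
  have h2 : √((c * x) ^ 2 + (c * y) ^ 2) = c * √(x ^ 2 + y ^ 2) := by
    have h3 : (c * x) ^ 2 + (c * y) ^ 2 = c ^ 2 * (x ^ 2 + y ^ 2) := by ring
    rw [h3, Real.sqrt_mul (sq_nonneg c), Real.sqrt_sq hc.le]
  rw [h1, h2]
  ring

theorem NT_contDiffOn : ContDiffOn ℝ ∞ (fun p : ℝ × ℝ => NT p.1 p.2) Qd := by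
  unfold NT
  have h1 : ContDiffOn ℝ ∞ (fun p : ℝ × ℝ => p.1 ^ 2 + p.2 ^ 2) Qd :=
    ((contDiff_fst.pow 2).add (contDiff_snd.pow 2)).contDiffOn
  have h2 : ContDiffOn ℝ ∞ (fun p : ℝ × ℝ => √(p.1 ^ 2 + p.2 ^ 2)) Qd := by
    refine h1.sqrt fun p hp => ?_
    have hp1 : 0 < p.1 := hp.1
    positivity
  have h3 : ContDiffOn ℝ ∞ (fun p : ℝ × ℝ => p.2 / p.1) Qd :=
    contDiff_snd.contDiffOn.div contDiff_fst.contDiffOn fun p hp => (ne_of_gt hp.1)
  have h4 : ContDiffOn ℝ ∞ (fun p : ℝ × ℝ => vthI (arctan (p.2 / p.1))) Qd :=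
    vthI_contDiff.comp_contDiffOn (Real.contDiff_arctan.comp_contDiffOn h3)
  exact h2.mul ((Real.contDiff_sin.comp_contDiffOn h4).add (Gam_contDiff.comp_contDiffOn h4))

theorem lnt_mf_hasDerivAt (t : ℝ) : HasDerivAt mf (deriv mf t) t :=
  (mf_contDiff.differentiable (by simp) t).hasDerivAt

/-- the angular part -/
def lntN (t : ℝ) : ℝ := sin t + Gam t

/-- its derivative in `ϑ` -/
def lntS (t : ℝ) : ℝ := (cos t + Gam1 t) / (1 - mf t)

theorem lnt_mf_lt (t : ℝ) : 0 < 1 - mf t := by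
  have := mf_le t
  linarith

theorem lntN_hasDerivAt (t : ℝ) : HasDerivAt lntN (cos t + Gam1 t) t :=
  (Real.hasDerivAt_sin t).add (Gam_hasDerivAt t)

theorem lntS_hasDerivAt (t : ℝ) : HasDerivAt lntS ((1 - mf t) * sx t 1) t := by
  have h1 := ((Real.hasDerivAt_cos t).add (Gam1_hasDerivAt t)).div
    ((lnt_mf_hasDerivAt t).const_sub 1) (lnt_mf_lt t).ne'
  refine h1.congr_deriv ?_
  unfold sx
  have := (lnt_mf_lt t).ne'
  simp only [one_mul, Pi.add_apply]
  field_simp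
  ring

/-- the derivatives along a line -/
theorem lnt_line {x y : ℝ → ℝ} {a b w t : ℝ} (hx : HasDerivAt x a t) (hy : HasDerivAt y b t)
    (hx0 : 0 < x t) (hy0 : 0 < y t) (hw : x t * b - y t * a = w) :
    HasDerivAt (fun s => √(x s ^ 2 + y s ^ 2)) ((x t * a + y t * b) / √(x t ^ 2 + y t ^ 2)) t ∧
    HasDerivAt (fun s => vthI (arctan (y s / x s)))
      (1 / (1 - mf (vthI (arctan (y t / x t)))) * (w / (x t ^ 2 + y t ^ 2))) t := by
  have hpos : 0 < x t ^ 2 + y t ^ 2 := by positivity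
  refine ⟨?_, ?_⟩
  · have h1 := ((hx.pow 2).add (hy.pow 2)).sqrt hpos.ne'
    refine h1.congr_deriv ?_
    simp only [Pi.add_apply, Pi.pow_apply]
    have := (Real.sqrt_pos.mpr hpos).ne'
    field_simp
    push_cast
    ring
  · have h1 := (vthI_hasDerivAt (arctan (y t / x t))).comp t
      ((hy.div hx hx0.ne').arctan)
    refine h1.congr_deriv ?_
    have h2 := (lnt_mf_lt (vthI (arctan (y t / x t)))).ne'
    have h3 : 1 + (y t / x t) ^ 2 ≠ 0 := by positivity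
    simp only [Pi.div_apply]
    rw [← hw]
    field_simp

theorem lnt_concave_line {x0 y0 a b : ℝ} (hx0 : 0 < x0) (hy0 : 0 < y0) (hx1 : 0 < x0 + a)
    (hy1 : 0 < y0 + b) :
    ConcaveOn ℝ (Icc (0:ℝ) 1) (fun t => NT (x0 + t * a) (y0 + t * b)) := by
  obtain ⟨w, hw⟩ : ∃ w, w = x0 * b - y0 * a := ⟨_, rfl⟩
  have hxt : ∀ t ∈ Icc (0:ℝ) 1, 0 < x0 + t * a := by
    intro t ht
    rcases le_or_gt 0 a with h | h
    · have := mul_nonneg ht.1 h
      linarith
    · have : a ≤ t * a := by nlinarith [ht.2]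
      linarith
  have hyt : ∀ t ∈ Icc (0:ℝ) 1, 0 < y0 + t * b := by
    intro t ht
    rcases le_or_gt 0 b with h | h
    · have := mul_nonneg ht.1 h
      linarith
    · have : b ≤ t * b := by nlinarith [ht.2]
      linarith
  have hxd : ∀ t : ℝ, HasDerivAt (fun t => x0 + t * a) a t := fun t => by
    have := ((hasDerivAt_id t).mul_const a).const_add x0
    simpa using this
  have hyd : ∀ t : ℝ, HasDerivAt (fun t => y0 + t * b) b t := fun t => by
    have := ((hasDerivAt_id t).mul_const b).const_add y0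
    simpa using this
  obtain ⟨R, hR⟩ : ∃ R : ℝ → ℝ, R = fun t => √((x0 + t * a) ^ 2 + (y0 + t * b) ^ 2) := ⟨_, rfl⟩
  obtain ⟨T, hT⟩ : ∃ T : ℝ → ℝ, T = fun t => vthI (arctan ((y0 + t * b) / (x0 + t * a))) :=
    ⟨_, rfl⟩
  have hRpos : ∀ t ∈ Icc (0:ℝ) 1, 0 < R t := by
    intro t ht
    have := hxt t ht
    rw [hR]
    exact Real.sqrt_pos.mpr (by positivity)
  have hRsq : ∀ t ∈ Icc (0:ℝ) 1, R t ^ 2 = (x0 + t * a) ^ 2 + (y0 + t * b) ^ 2 := by
    intro t ht
    rw [hR]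
    exact Real.sq_sqrt (by positivity)
  have hRd : ∀ t ∈ Icc (0:ℝ) 1, HasDerivAt R (((x0 + t * a) * a + (y0 + t * b) * b) / R t) t := by
    intro t ht
    have h1 := (lnt_line (w := w) (hxd t) (hyd t) (hxt t ht) (hyt t ht) (by rw [hw]; ring)).1
    rw [hR]
    exact h1
  have hTd : ∀ t ∈ Icc (0:ℝ) 1, HasDerivAt T (1 / (1 - mf (T t)) * (w / R t ^ 2)) t := by
    intro t ht
    have h1 := (lnt_line (w := w) (hxd t) (hyd t) (hxt t ht) (hyt t ht) (by rw [hw]; ring)).2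
    rw [hRsq t ht, hT]
    exact h1
  have hfun : (fun t => NT (x0 + t * a) (y0 + t * b)) = fun t => R t * lntN (T t) := by
    funext t
    rw [hR, hT]
    rfl
  rw [hfun]
  obtain ⟨h, hh⟩ : ∃ h : ℝ → ℝ, h = fun t =>
    ((x0 + t * a) * a + (y0 + t * b) * b) / R t * lntN (T t) + w / R t * lntS (T t) := ⟨_, rfl⟩
  have hfd : ∀ t ∈ Icc (0:ℝ) 1, HasDerivAt (fun t => R t * lntN (T t)) (h t) t := by
    intro t ht
    have h1 := (hRd t ht).mul ((lntN_hasDerivAt (T t)).comp t (hTd t ht))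
    refine h1.congr_deriv ?_
    rw [hh]
    unfold lntS
    have h2 := (hRpos t ht).ne'
    have h3 := (lnt_mf_lt (T t)).ne'
    simp only [Function.comp]
    field_simp
  have hhd : ∀ t ∈ Icc (0:ℝ) 1, HasDerivAt h (w ^ 2 / R t ^ 3 * (sx (T t) 1 + lntN (T t))) t := by
    intro t ht
    have e1 : HasDerivAt (fun t => (x0 + t * a) * a + (y0 + t * b) * b) (a ^ 2 + b ^ 2) t := by
      have := ((hxd t).mul_const a).add ((hyd t).mul_const b)
      refine this.congr_deriv ?_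
      ring
    have h2 := (hRpos t ht).ne'
    have h3 := (lnt_mf_lt (T t)).ne'
    have h1 := ((e1.div (hRd t ht) h2).mul ((lntN_hasDerivAt (T t)).comp t (hTd t ht))).add
      (((hasDerivAt_const t w).div (hRd t ht) h2).mul ((lntS_hasDerivAt (T t)).comp t (hTd t ht)))
    rw [hh]
    refine h1.congr_deriv ?_
    have h4 := hRsq t ht
    have h5 : (a ^ 2 + b ^ 2) * R t ^ 2 = ((x0 + t * a) * a + (y0 + t * b) * b) ^ 2 + w ^ 2 := by
      rw [h4, hw]
      ring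
    simp only [Function.comp, Pi.div_apply]
    unfold lntS
    obtain ⟨u, hu⟩ : ∃ u, u = (x0 + t * a) * a + (y0 + t * b) * b := ⟨_, rfl⟩
    obtain ⟨r, hr⟩ : ∃ r, r = R t := ⟨_, rfl⟩
    obtain ⟨N, hN⟩ : ∃ N, N = lntN (T t) := ⟨_, rfl⟩
    obtain ⟨c, hc⟩ : ∃ c, c = cos (T t) + Gam1 (T t) := ⟨_, rfl⟩
    obtain ⟨j, hj⟩ : ∃ j, j = 1 - mf (T t) := ⟨_, rfl⟩
    rw [← hu, ← hr] at h5
    rw [← hr] at h2
    rw [← hj] at h3
    rw [← hu, ← hr, ← hN, ← hc, ← hj]
    field_simp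
    linear_combination N * j * h5
  have hhneg : ∀ t ∈ Icc (0:ℝ) 1, w ^ 2 / R t ^ 3 * (sx (T t) 1 + lntN (T t)) ≤ 0 := by
    intro t ht
    have h1 : 0 ≤ w ^ 2 / R t ^ 3 := by
      have := hRpos t ht
      positivity
    have hm := lnt_mem (hxt t ht) (hyt t ht)
    have h2 := mid_XX0 (t := T t) (p := 1) (by rw [hT]; exact hm.1) (by rw [hT]; exact hm.2)
      one_pos le_rfl
    rw [one_mul] at h2
    refine mul_nonpos_of_nonneg_of_nonpos h1 ?_
    unfold lntN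
    linarith
  have hanti : AntitoneOn h (Icc (0:ℝ) 1) := by
    refine antitoneOn_of_deriv_nonpos (convex_Icc 0 1)
      (fun t ht => (hhd t ht).continuousAt.continuousWithinAt) (fun t ht => ?_) fun t ht => ?_
    · exact (hhd t (interior_subset ht)).differentiableAt.differentiableWithinAt
    · rw [(hhd t (interior_subset ht)).deriv]
      exact hhneg t (interior_subset ht)
  refine AntitoneOn.concaveOn_of_deriv (convex_Icc 0 1)
    (fun t ht => (hfd t ht).continuousAt.continuousWithinAt)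
    (fun t ht => (hfd t (interior_subset ht)).differentiableAt.differentiableWithinAt) ?_
  intro s hs t ht hst
  rw [(hfd s (interior_subset hs)).deriv, (hfd t (interior_subset ht)).deriv]
  exact hanti (interior_subset hs) (interior_subset ht) hst

/-- in polar coordinates `n'' + n = S_θ/j + Θ` at `p = 1`, which is `≤ -1/15` by `mid_XX0` -/
theorem NT_concaveOn : ConcaveOn ℝ Qd (fun p => NT p.1 p.2) := by
  refine ⟨Qd_convex, ?_⟩
  intro p hp q hq s t hs ht hst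
  have hp1 : 0 < p.1 := hp.1
  have hp2 : 0 < p.2 := hp.2
  have hq1 : 0 < q.1 := hq.1
  have hq2 : 0 < q.2 := hq.2
  have h1 := lnt_concave_line (x0 := p.1) (y0 := p.2) (a := q.1 - p.1) (b := q.2 - p.2) hp1 hp2
    (by linarith) (by linarith)
  have h2 := h1.2 (left_mem_Icc.mpr zero_le_one) (right_mem_Icc.mpr zero_le_one) hs ht hst
  simp only [smul_eq_mul, mul_zero, mul_one, zero_add, zero_mul, add_zero, one_mul] at h2
  have e1 : p.1 + (q.1 - p.1) = q.1 := by ring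
  have e2 : p.2 + (q.2 - p.2) = q.2 := by ring
  have e3 : p.1 + t * (q.1 - p.1) = s * p.1 + t * q.1 := by
    have : s = 1 - t := by linarith
    rw [this]
    ring
  have e4 : p.2 + t * (q.2 - p.2) = s * p.2 + t * q.2 := by
    have : s = 1 - t := by linarith
    rw [this]
    ring
  rw [e1, e2, e3, e4] at h2
  simpa using h2

theorem NT_ge {x y : ℝ} (hx : 0 < x) (hy : 0 < y) : 1 / 5 * √(x^2 + y^2) ≤ NT x y := by
  obtain ⟨h0, h1⟩ := lnt_mem hx hy
  unfold NT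
  have h2 := Gam_ge h0.le h1.le
  have h3 := Real.sin_nonneg_of_nonneg_of_le_pi h0.le h1.le
  have h4 : 0 ≤ √(x^2 + y^2) := Real.sqrt_nonneg _
  nlinarith

theorem NT_le {x y : ℝ} (hx : 0 < x) (hy : 0 < y) : NT x y ≤ 5 / 2 * √(x^2 + y^2) := by
  obtain ⟨h0, h1⟩ := lnt_mem hx hy
  unfold NT
  have h2 := Gam_le h0.le h1.le
  have h3 := Real.sin_le_one (vthI (arctan (y / x)))
  have h4 : 0 ≤ √(x^2 + y^2) := Real.sqrt_nonneg _
  nlinarith

end Pool.Agent.MP39e402
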