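import Mathlib

/-! # MP_39e402, module LPar: the three one-dimensional ingredients (definitions only)
* `IsEdge ε δ Ψ`  : smoothing function for the cone angle `π` along `F`
* `IsCore b f ta T t1` : the core (Fubini-Study for `t ≤ ta`, cone over the sphere of radius 1/2 for `t ≥ T`)
* `IsCap ρ1 a U` : the Eguchi-Hanson cap glued into Fubini-Study. -/

open Real Set Filter Topology MeasureTheory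
open scoped ContDiff

noncomputable section

namespace Pool.Agent.MP39e402

structure IsEdge (ε δ : ℝ) (Ψ : ℝ → ℝ) : Prop where
  smooth : ContDiff ℝ ∞ Ψ
  near : ∃ r > 0, ∀ w, |w| ≤ r → Ψ w = w
  far : ∀ w, δ ≤ w → Ψ w = w / 2
  lb : ∀ w, 0 ≤ w → w / 2 ≤ Ψ w
  ub : ∀ w, 0 ≤ w → Ψ w ≤ w
  dlb : ∀ w, 0 < w → (1 - ε) * Ψ w ≤ w * deriv Ψ w
  dub : ∀ w, 0 < w → w * deriv Ψ w ≤ Ψ w
  dd : ∀ w, 0 < w → deriv (deriv Ψ) w ≤ ε * Ψ w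

/-- the core: metric `dt² + b² (σ1²+σ2²) + f² σ3²` with nonnegative Ricci curvature -/
structure IsCore (b f : ℝ → ℝ) (ta T t1 : ℝ) : Prop where
  ta_pos : 0 < ta
  ta_le : ta ≤ 1 / 2
  T_gt : 1 < T
  t1_pos : 0 < t1
  smooth_b : ContDiff ℝ ∞ b
  smooth_f : ContDiff ℝ ∞ f
  fs : ∀ t, t ≤ ta → b t = Real.cos t ∧ f t = Real.sin t * Real.cos t
  cone : ∀ t, T ≤ t → b t = (t + t1) / 2 ∧ f t = (t + t1) / 2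
  b_pos : ∀ t, 0 < t → 0 < b t
  f_pos : ∀ t, 0 < t → 0 < f t
  f_le : ∀ t, 0 < t → f t ≤ b t
  ric0 : ∀ t, 0 < t → 0 ≤ -2 * deriv (deriv b) t / b t - deriv (deriv f) t / f t
  ric3 : ∀ t, 0 < t → 0 ≤ -(deriv (deriv f) t) / f t - 2 * deriv f t * deriv b t / (f t * b t)
    + 2 * (f t)^2 / (b t)^4
  ric1 : ∀ t, 0 < t → 0 ≤ -(deriv (deriv b) t) / b t - (deriv b t)^2 / (b t)^2
    - deriv f t * deriv b t / (f t * b t) + 4 / (b t)^2 - 2 * (f t)^2 / (b t)^4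

/-- the cap: metric `dρ²/(1-U) + ρ² (σ1²+σ2²) + ρ² (1-U) σ3²`; `U = ρ²` (Fubini-Study) for `ρ ≥ ρ1`,
`U = a⁴/ρ⁴` (Eguchi-Hanson) for `ρ ≤ ρ1/2`. -/
structure IsCap (ρ1 a : ℝ) (U : ℝ → ℝ) : Prop where
  a_pos : 0 < a
  a_lt : a < ρ1 / 2
  a_le : a ≤ ρ1 * √ρ1
  smooth : ContDiffOn ℝ ∞ U (Ioi 0)
  eh : ∀ ρ, 0 < ρ → ρ ≤ ρ1 / 2 → U ρ = a^4 / ρ^4
  fs : ∀ ρ, ρ1 ≤ ρ → U ρ = ρ^2
  pos : ∀ ρ, 0 < ρ → 0 < U ρ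
  lt_one : ∀ ρ, a < ρ → ρ < 1 → U ρ < 1
  ub : ∀ ρ, ρ1 / 2 ≤ ρ → ρ ≤ ρ1 → U ρ ≤ 1 / 2
  ric0 : ∀ ρ, 0 < ρ → 0 ≤ deriv (deriv U) ρ + 5 * deriv U ρ / ρ
  ric1 : ∀ ρ, 0 < ρ → 0 ≤ ρ * deriv U ρ + 4 * U ρ

end Pool.Agent.MP39e402
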