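import Pool.Agent.Lib.MP_39e402_gt.LNT
import Pool.Agent.Lib.MP_39e402_gt.LAxis

/-! # MP_39e402, module LPhiT: the profile `PhiT` on the quadrant.
Hints.  Write `u = 1 + lam NT`, `p = Hf (Zf y u) (Zf x u)`, `A = y - p`, `B = y - Ff y s < y/10`,
`s = 1 + lam/10 x`.  Positivity: `mxf A B = A` if `3A ≥ 4B`, else `A + B < 7y/30`.  Concavity: `Hf, Zf`
monotone concave (LConc, LComp), `NT` concave, `mxf` monotone convex.  `PhiT_inner`: `x,y ≤ 3/5 ≤ 2u` so
`p = Hf y x`, `A = y Ef(y²/x²)`, `B = y Ef(16y²/s²)/10 ≤ y Ef(16 y²)/10 ≤ (576/1000) A` by `Ef_mul_le`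
(`16 y² = 16x² (y²/x²)`, `16x² ≤ 576/100`), so `4B ≤ 3A`.  `PhiT_axisForm`: near the axis `PhiT = PhiT1`; if
`x0 < 2`: `p = Hf y x`, `PhiT1 = y (1 - mxf (Ef(y²/x²)) (Ef(16y²/s²)/10))` and `Ef v = v Et v`, `mxf`
homogeneous; if `x0 > 19/10`: `w = Zf x u ≥ min(x,2u) > (968/1000) s`, so `3A ≤ 2B` for small `y` and
`PhiT1 = Ff y s`. -/

open Real Set Filter Topology MeasureTheory
open scoped ContDiff

noncomputable section

namespace Pool.Agent.MP39e402

private theorem T_B {x s : ℝ} (hx : 0 < x) (hs : 0 < s) :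
    0 < x - Ff x s ∧ x - Ff x s < x / 10 := by
  have h1 := Ff_lt hx hs
  have h2 := Ff_gt hx hs
  constructor <;> linarith

private theorem T_pos {x q s : ℝ} (hx : 0 < x) (hq : 0 < q) (hqx : q < x) (hs : 0 < s) :
    0 < x - mxf (x - q) (x - Ff x s) := by
  obtain ⟨hB, hB1⟩ := T_B hx hs
  have hA : 0 < x - q := by linarith
  rcases le_total (4 * (x - Ff x s)) (3 * (x - q)) with h | h
  · rw [mxf_eq_left hB h]
    linarith
  · have := mxf_lt_add hA hB
    linarith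

private theorem T_le {x q s : ℝ} (hx : 0 < x) (hs : 0 < s) :
    x - mxf (x - q) (x - Ff x s) ≤ q := by
  obtain ⟨hB, hB1⟩ := T_B hx hs
  have := le_mxf_left (p := x - q) hB
  linarith

private theorem T_eq {x q s : ℝ} (hx : 0 < x) (hs : 0 < s)
    (h : 4 * (x - Ff x s) ≤ 3 * (x - q)) :
    x - mxf (x - q) (x - Ff x s) = q := by
  obtain ⟨hB, hB1⟩ := T_B hx hs
  rw [mxf_eq_left hB h]
  ring

private theorem lam_pos' : 0 < lam := by unfold lam; norm_num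

private theorem one_le_u {x y : ℝ} (hx : 0 < x) (hy : 0 < y) : 1 ≤ 1 + lam * NT x y := by
  have h1 := NT_ge hx hy
  have h2 : 0 ≤ √(x^2+y^2) := Real.sqrt_nonneg _
  have h3 : 0 ≤ NT x y := by linarith only [h1, h2]
  have h4 := lam_pos'
  have : 0 ≤ lam * NT x y := by positivity
  linarith

private theorem one_le_s {x : ℝ} (hx : 0 < x) : 1 ≤ 1 + lam / 10 * x := by
  have h4 := lam_pos'
  have : 0 ≤ lam / 10 * x := by positivity
  linarith only [this]

private theorem p_pos {x y : ℝ} (hx : 0 < x) (hy : 0 < y) :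
    0 < Hf (Zf y (1 + lam * NT x y)) (Zf x (1 + lam * NT x y)) := by
  have hu : 0 < 1 + lam * NT x y := by linarith [one_le_u hx hy]
  exact Hf_pos (Zf_pos hy hu) (Zf_pos hx hu)

private theorem p_lt {x y : ℝ} (hx : 0 < x) (hy : 0 < y) :
    Hf (Zf y (1 + lam * NT x y)) (Zf x (1 + lam * NT x y)) < x ∧
    Hf (Zf y (1 + lam * NT x y)) (Zf x (1 + lam * NT x y)) < y := by
  have hu : 0 < 1 + lam * NT x y := by linarith [one_le_u hx hy]
  constructor
  · exact lt_of_lt_of_le (Hf_lt_right (Zf_pos hy hu) (Zf_pos hx hu)) (Zf_le_self hu)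
  · exact lt_of_lt_of_le (Hf_lt_left (Zf_pos hy hu) (Zf_pos hx hu)) (Zf_le_self hu)

theorem PhiT1_pos {x y : ℝ} (hx : 0 < x) (hy : 0 < y) : 0 < PhiT1 x y := by
  unfold PhiT1
  exact T_pos hy (p_pos hx hy) (p_lt hx hy).2 (by linarith [one_le_s hx])

private theorem PhiT1_le_p {x y : ℝ} (hx : 0 < x) (hy : 0 < y) :
    PhiT1 x y ≤ Hf (Zf y (1 + lam * NT x y)) (Zf x (1 + lam * NT x y)) := by
  unfold PhiT1
  exact T_le hy (by linarith [one_le_s hx])

theorem PhiT1_lt {x y : ℝ} (hx : 0 < x) (hy : 0 < y) : PhiT1 x y < x ∧ PhiT1 x y < y :=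
  ⟨lt_of_le_of_lt (PhiT1_le_p hx hy) (p_lt hx hy).1,
    lt_of_le_of_lt (PhiT1_le_p hx hy) (p_lt hx hy).2⟩

theorem PhiT_pos {x y : ℝ} (hx : 0 < x) (hy : 0 < y) : 0 < PhiT x y := by
  unfold PhiT
  exact T_pos hx (PhiT1_pos hx hy) (PhiT1_lt hx hy).1 (by linarith [one_le_s hy])

theorem PhiT_lt {x y : ℝ} (hx : 0 < x) (hy : 0 < y) : PhiT x y < x ∧ PhiT x y < y := by
  have h : PhiT x y ≤ PhiT1 x y := by
    unfold PhiT
    exact T_le hx (by linarith only [hy, one_le_s hy])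
  exact ⟨lt_of_le_of_lt h (PhiT1_lt hx hy).1, lt_of_le_of_lt h (PhiT1_lt hx hy).2⟩

private theorem u_contDiffOn : ContDiffOn ℝ ∞ (fun p : ℝ × ℝ => 1 + lam * NT p.1 p.2) Qd :=
  contDiffOn_const.add (contDiffOn_const.mul NT_contDiffOn)

private theorem Zy_contDiffOn :
    ContDiffOn ℝ ∞ (fun p : ℝ × ℝ => Zf p.2 (1 + lam * NT p.1 p.2)) Qd :=
  Zf_contDiffOn.comp (contDiffOn_snd.prodMk u_contDiffOn)
    (fun p hp => by
      show 0 < 1 + lam * NT p.1 p.2
      linarith [one_le_u hp.1 hp.2])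

private theorem Zx_contDiffOn :
    ContDiffOn ℝ ∞ (fun p : ℝ × ℝ => Zf p.1 (1 + lam * NT p.1 p.2)) Qd :=
  Zf_contDiffOn.comp (contDiffOn_fst.prodMk u_contDiffOn)
    (fun p hp => by
      show 0 < 1 + lam * NT p.1 p.2
      linarith [one_le_u hp.1 hp.2])

private theorem pp_contDiffOn :
    ContDiffOn ℝ ∞ (fun p : ℝ × ℝ =>
      Hf (Zf p.2 (1 + lam * NT p.1 p.2)) (Zf p.1 (1 + lam * NT p.1 p.2))) Qd :=
  Hf_contDiffOn.comp (Zy_contDiffOn.prodMk Zx_contDiffOn)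
    (fun p hp => by
      have hu : 0 < 1 + lam * NT p.1 p.2 := by linarith [one_le_u hp.1 hp.2]
      exact ⟨Zf_pos hp.2 hu, Zf_pos hp.1 hu⟩)

private theorem Fy_contDiffOn :
    ContDiffOn ℝ ∞ (fun p : ℝ × ℝ => Ff p.2 (1 + lam / 10 * p.1)) Qd :=
  Ff_contDiffOn.comp (contDiffOn_snd.prodMk
    (contDiffOn_const.add (contDiffOn_const.mul contDiffOn_fst)))
    (fun p hp => ⟨hp.2, by
      show 0 < 1 + lam / 10 * p.1
      linarith [one_le_s hp.1]⟩)

private theorem Fx_contDiffOn :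
    ContDiffOn ℝ ∞ (fun p : ℝ × ℝ => Ff p.1 (1 + lam / 10 * p.2)) Qd :=
  Ff_contDiffOn.comp (contDiffOn_fst.prodMk
    (contDiffOn_const.add (contDiffOn_const.mul contDiffOn_snd)))
    (fun p hp => ⟨hp.1, by
      show 0 < 1 + lam / 10 * p.2
      linarith [one_le_s hp.2]⟩)

private theorem PhiT1_contDiffOn : ContDiffOn ℝ ∞ (fun p : ℝ × ℝ => PhiT1 p.1 p.2) Qd := by
  unfold PhiT1
  refine contDiffOn_snd.sub (mxf_contDiffOn.comp
    ((contDiffOn_snd.sub pp_contDiffOn).prodMk (contDiffOn_snd.sub Fy_contDiffOn)) ?_)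
  intro p hp
  exact (T_B hp.2 (by linarith [one_le_s hp.1])).1

theorem PhiT_contDiffOn : ContDiffOn ℝ ∞ (fun p : ℝ × ℝ => PhiT p.1 p.2) Qd := by
  unfold PhiT
  refine contDiffOn_fst.sub (mxf_contDiffOn.comp
    ((contDiffOn_fst.sub PhiT1_contDiffOn).prodMk (contDiffOn_fst.sub Fx_contDiffOn)) ?_)
  intro p hp
  exact (T_B hp.1 (by linarith [one_le_s hp.2])).1

private theorem fst_concaveOn : ConcaveOn ℝ Qd (fun p : ℝ × ℝ => p.1) :=
  (LinearMap.fst ℝ ℝ ℝ).concaveOn Qd_convex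

private theorem snd_concaveOn : ConcaveOn ℝ Qd (fun p : ℝ × ℝ => p.2) :=
  (LinearMap.snd ℝ ℝ ℝ).concaveOn Qd_convex

private theorem fst_convexOn : ConvexOn ℝ Qd (fun p : ℝ × ℝ => p.1) :=
  (LinearMap.fst ℝ ℝ ℝ).convexOn Qd_convex

private theorem snd_convexOn : ConvexOn ℝ Qd (fun p : ℝ × ℝ => p.2) :=
  (LinearMap.snd ℝ ℝ ℝ).convexOn Qd_convex

private theorem u_concaveOn : ConcaveOn ℝ Qd (fun p : ℝ × ℝ => 1 + lam * NT p.1 p.2) :=
  (concaveOn_const 1 Qd_convex).add (NT_concaveOn.smul lam_pos'.le)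

private theorem sx_concaveOn : ConcaveOn ℝ Qd (fun p : ℝ × ℝ => 1 + lam / 10 * p.1) :=
  (concaveOn_const 1 Qd_convex).add (fst_concaveOn.smul
    (by have := lam_pos'; positivity : 0 ≤ lam / 10))

private theorem sy_concaveOn : ConcaveOn ℝ Qd (fun p : ℝ × ℝ => 1 + lam / 10 * p.2) :=
  (concaveOn_const 1 Qd_convex).add (snd_concaveOn.smul
    (by have := lam_pos'; positivity : 0 ≤ lam / 10))

private theorem pp_concaveOn :
    ConcaveOn ℝ Qd (fun p : ℝ × ℝ =>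
      Hf (Zf p.2 (1 + lam * NT p.1 p.2)) (Zf p.1 (1 + lam * NT p.1 p.2))) := by
  have hu0 : ∀ p ∈ Qd, 0 < 1 + lam * NT p.1 p.2 := fun p hp => by
    linarith [one_le_u hp.1 hp.2]
  have hZm : ∀ x y x' y' : ℝ, 0 < x → 0 < y → x ≤ x' → y ≤ y' → Zf x y ≤ Zf x' y' :=
    fun _ _ _ _ hx hy h1 h2 => Zf_mono hx hy h1 h2
  have hHm : ∀ x y x' y' : ℝ, 0 < x → 0 < y → x ≤ x' → y ≤ y' → Hf x y ≤ Hf x' y' :=
    fun _ _ _ _ hx hy h1 h2 => Hf_mono hx hy h1 h2
  have h1 := concaveOn_comp2 Zf_concaveOn hZm snd_concaveOn u_concaveOn (fun p hp => hp.2) hu0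
  have h2 := concaveOn_comp2 Zf_concaveOn hZm fst_concaveOn u_concaveOn (fun p hp => hp.1) hu0
  exact concaveOn_comp2 Hf_concaveOn hHm h1 h2 (fun p hp => Zf_pos hp.2 (hu0 p hp))
    (fun p hp => Zf_pos hp.1 (hu0 p hp))

private theorem mxf_comp_convex {f g : ℝ × ℝ → ℝ} (hf : ConvexOn ℝ Qd f) (hg : ConvexOn ℝ Qd g)
    (hf0 : ∀ p ∈ Qd, 0 < f p) (hg0 : ∀ p ∈ Qd, 0 < g p) :
    ConvexOn ℝ Qd (fun p => mxf (f p) (g p)) :=
  convexOn_comp2 mxf_convexOn (fun _ _ _ _ hx hy h1 h2 => mxf_mono hx hy h1 h2) hf hg hf0 hg0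

private theorem PhiT1_concaveOn : ConcaveOn ℝ Qd (fun p => PhiT1 p.1 p.2) := by
  unfold PhiT1
  have hF : ConcaveOn ℝ Qd (fun p : ℝ × ℝ => Ff p.2 (1 + lam / 10 * p.1)) :=
    concaveOn_comp2 Ff_concaveOn (fun _ _ _ _ hx hy h1 h2 => Ff_mono hx hy h1 h2)
      snd_concaveOn sx_concaveOn (fun p hp => hp.2) (fun p hp => by linarith only [hp, one_le_s hp.1])
  refine snd_concaveOn.sub (mxf_comp_convex (snd_convexOn.sub pp_concaveOn)
    (snd_convexOn.sub hF) ?_ ?_)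
  · intro p hp
    exact sub_pos.2 (p_lt hp.1 hp.2).2
  · intro p hp
    exact (T_B hp.2 (by linarith [one_le_s hp.1])).1

theorem PhiT_concaveOn : ConcaveOn ℝ Qd (fun p => PhiT p.1 p.2) := by
  unfold PhiT
  have hF : ConcaveOn ℝ Qd (fun p : ℝ × ℝ => Ff p.1 (1 + lam / 10 * p.2)) :=
    concaveOn_comp2 Ff_concaveOn (fun _ _ _ _ hx hy h1 h2 => Ff_mono hx hy h1 h2)
      fst_concaveOn sy_concaveOn (fun p hp => hp.1) (fun p hp => by linarith [one_le_s hp.2])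
  refine fst_concaveOn.sub (mxf_comp_convex (fst_convexOn.sub PhiT1_concaveOn)
    (fst_convexOn.sub hF) ?_ ?_)
  · intro p hp
    exact sub_pos.2 (PhiT1_lt hp.1 hp.2).1
  · intro p hp
    exact (T_B hp.1 (by linarith [one_le_s hp.2])).1

/-- comparison of the two defects in the inner cone -/
private theorem inner_ineq {x y s : ℝ} (hx : 0 < x) (hy : 0 < y) (hs : 1 ≤ s)
    (h : x^2 ≤ 9 / 25) : 4 * (y - Ff y s) ≤ 3 * (y - Hf y x) := by
  have hs0 : 0 < s := by linarith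
  rw [sub_Ff hy hs0, sub_Hf hy hx]
  have h1 : Ef (16 * y^2 / s^2) ≤ Ef (576 / 100 * (y^2 / x^2)) := by
    refine Ef_mono (by positivity) ?_
    have h2 : 16 * y^2 / s^2 ≤ 16 * y^2 := by
      refine div_le_self (by positivity) ?_
      nlinarith only [hs]
    have h3 : 16 * y^2 ≤ 576 / 100 * (y^2 / x^2) := by
      rw [← mul_div_assoc, le_div_iff₀ (by positivity)]
      nlinarith only [h, sq_nonneg y]
    linarith only [h2, h3]
  have h4 : Ef (576 / 100 * (y^2 / x^2)) ≤ 576 / 100 * Ef (y^2 / x^2) :=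
    Ef_mul_le (by norm_num) (by positivity)
  have h5 : 0 ≤ Ef (y^2 / x^2) := by
    have h6 : Ef 0 ≤ Ef (y^2 / x^2) := Ef_mono le_rfl (by positivity)
    have h7 : Ef 0 = 0 := by simp [Ef]
    linarith only [h6, h7]
  nlinarith only [h1, h4, h5, hy]

/-- the inner cone: exactly the cone over the round sphere of radius 1/2 -/
theorem PhiT_inner {x y : ℝ} (hx : 0 < x) (hy : 0 < y) (h : x^2 + y^2 ≤ 9 / 25) :
    PhiT x y = Hf x y := by
  have hu := one_le_u hx hy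
  have hu0 : 0 < 1 + lam * NT x y := by linarith
  have hx2 : x^2 ≤ 9 / 25 := by nlinarith only [h, sq_nonneg y]
  have hy2 : y^2 ≤ 9 / 25 := by nlinarith only [h, sq_nonneg x]
  have hx1 : x ≤ 2 * (1 + lam * NT x y) := by nlinarith only [h, hu, hx]
  have hy1 : y ≤ 2 * (1 + lam * NT x y) := by nlinarith only [h, hu, hx, hy]
  have hsx := one_le_s hx
  have hsy := one_le_s hy
  have h1 : PhiT1 x y = Hf x y := by
    unfold PhiT1
    rw [Zf_eq_self hu0 hy1, Zf_eq_self hu0 hx1, T_eq hy (by linarith only [hsx]) (inner_ineq hx hy hsx hx2),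
      Hf_comm]
  unfold PhiT
  rw [h1]
  exact T_eq hx (by linarith only [hsy]) (inner_ineq hy hx hsy hy2)

/-- the two corrections are independent: far from the axis `x = 0` only the first one acts -/
theorem PhiT_eq_PhiT1 {x y : ℝ} (hx : 0 < x) (hy : 0 < y) (h : 10 * y ≤ x) :
    PhiT x y = PhiT1 x y := by
  have hsy := one_le_s hy
  unfold PhiT
  refine T_eq hx (by linarith) ?_
  have h1 := (T_B hx (show 0 < 1 + lam / 10 * y by linarith)).2
  have h2 := (PhiT1_lt hx hy).2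
  linarith only [h, h1, h2, hy]

/-- symmetric near the other axis -/
theorem PhiT_comm_near {x y : ℝ} (hx : 0 < x) (hy : 0 < y) (h : 10 * x ≤ y) :
    PhiT x y = PhiT1 y x := by
  have hsx := one_le_s hx
  have h0 : PhiT1 x y = Hf (Zf y (1 + lam * NT x y)) (Zf x (1 + lam * NT x y)) := by
    unfold PhiT1
    refine T_eq hy (by linarith only [hsx]) ?_
    have h1 := (T_B hy (show 0 < 1 + lam / 10 * x by linarith)).2
    have h2 := (p_lt hx hy).1
    linarith only [h, h1, h2, hx]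
  have h3 : NT y x = NT x y := NT_comm hy hx
  unfold PhiT
  rw [h0]
  unfold PhiT1
  rw [h3, Hf_comm (Zf x (1 + lam * NT x y)) (Zf y (1 + lam * NT x y))]

private theorem Et_le_half {v : ℝ} (hv : 0 ≤ v) : Et v ≤ 1 / 2 := by
  unfold Et
  have h1 : 1 ≤ √(1 + v) := by
    rw [show (1:ℝ) = √1 by simp]
    exact Real.sqrt_le_sqrt (by simpa using hv)
  rw [div_le_div_iff₀ (by positivity) (by norm_num)]
  nlinarith

private theorem Et_ge {v : ℝ} (hv : 0 ≤ v) (hv1 : v ≤ 16 / 100) : 3 / 10 ≤ Et v := by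
  unfold Et
  have h1 : √(1 + v) ≤ 11 / 10 := by
    rw [Real.sqrt_le_left (by norm_num)]
    linarith
  have h0 : 0 < √(1 + v) := Real.sqrt_pos.2 (by linarith)
  rw [div_le_div_iff₀ (by norm_num) (by positivity)]
  nlinarith only [h0, h1]

private theorem sub_Hf' {x y : ℝ} (hx : 0 < x) (hy : 0 < y) :
    y - Hf y x = y^3 * (Et (y^2 / x^2) / x^2) := by
  have h : -1 < y^2 / x^2 := by
    have : 0 ≤ y^2 / x^2 := by positivity
    linarith
  rw [sub_Hf hy hx, Ef_eq h]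
  field_simp

private theorem sub_Ff' {y s : ℝ} (hy : 0 < y) (hs : 0 < s) :
    y - Ff y s = y^3 * (16 / 10 * (Et (16 * y^2 / s^2) / s^2)) := by
  have h : -1 < 16 * y^2 / s^2 := by
    have : 0 ≤ 16 * y^2 / s^2 := by positivity
    linarith
  rw [sub_Ff hy hs, Ef_eq h]
  field_simp

private theorem Et_contDiffAt : ContDiffAt ℝ ∞ Et 0 :=
  Et_contDiffOn.contDiffAt (Ioi_mem_nhds (by norm_num))

private theorem M2_contDiffAt {x0 : ℝ} (h : 0 < x0) :
    ContDiffAt ℝ ∞ (fun q : ℝ × ℝ => 16 / 10 * (Et (16 * q.2 / (1 + lam / 10 * q.1)^2)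
      / (1 + lam / 10 * q.1)^2)) (x0, 0) := by
  have hs : ContDiffAt ℝ ∞ (fun q : ℝ × ℝ => (1 + lam / 10 * q.1)^2) (x0, 0) :=
    (contDiffAt_const.add (contDiffAt_const.mul contDiffAt_fst)).pow 2
  have hs0 : (1 + lam / 10 * ((x0, (0:ℝ)) : ℝ × ℝ).1)^2 ≠ 0 := by
    have := one_le_s h
    simp only [ne_eq]
    positivity
  have h1 : ContDiffAt ℝ ∞ (fun q : ℝ × ℝ => 16 * q.2 / (1 + lam / 10 * q.1)^2) (x0, 0) :=
    (contDiffAt_const.mul contDiffAt_snd).div hs hs0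
  have hE : ContDiffAt ℝ ∞ Et
      ((fun q : ℝ × ℝ => 16 * q.2 / (1 + lam / 10 * q.1)^2) (x0, 0)) := by
    have h3 : (fun q : ℝ × ℝ => 16 * q.2 / (1 + lam / 10 * q.1)^2) (x0, 0) = 0 := by simp
    rw [h3]
    exact Et_contDiffAt
  have h2 : ContDiffAt ℝ ∞ (fun q : ℝ × ℝ => Et (16 * q.2 / (1 + lam / 10 * q.1)^2)) (x0, 0) :=
    ContDiffAt.comp (g := Et) (x0, 0) hE h1
  exact contDiffAt_const.mul (h2.div hs hs0)

private theorem M1_contDiffAt {x0 : ℝ} (h : 0 < x0) :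
    ContDiffAt ℝ ∞ (fun q : ℝ × ℝ => Et (q.2 / q.1^2) / q.1^2) (x0, 0) := by
  have hs : ContDiffAt ℝ ∞ (fun q : ℝ × ℝ => q.1^2) (x0, 0) := contDiffAt_fst.pow 2
  have hs0 : ((x0, (0:ℝ)) : ℝ × ℝ).1^2 ≠ 0 := by
    simp only [ne_eq]
    positivity
  have h1 : ContDiffAt ℝ ∞ (fun q : ℝ × ℝ => q.2 / q.1^2) (x0, 0) :=
    contDiffAt_snd.div hs hs0
  have hE : ContDiffAt ℝ ∞ Et ((fun q : ℝ × ℝ => q.2 / q.1^2) (x0, 0)) := by
    have h3 : (fun q : ℝ × ℝ => q.2 / q.1^2) (x0, 0) = 0 := by simp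
    rw [h3]
    exact Et_contDiffAt
  have h2 : ContDiffAt ℝ ∞ (fun q : ℝ × ℝ => Et (q.2 / q.1^2)) (x0, 0) :=
    ContDiffAt.comp (g := Et) (x0, 0) hE h1
  exact h2.div hs hs0

private theorem PhiT1_axisForm {x0 : ℝ} (h : 0 < x0) : AxisForm PhiT1 x0 := by
  have hcont1 : Tendsto (fun p : ℝ × ℝ => p.1) (𝓝 (x0, 0)) (𝓝 x0) := continuous_fst.tendsto _
  have hcont2 : Tendsto (fun p : ℝ × ℝ => p.2) (𝓝 (x0, 0)) (𝓝 (0:ℝ)) := continuous_snd.tendsto _
  rcases lt_or_ge x0 2 with h2 | h2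
  · refine ⟨fun q => mxf (Et (q.2 / q.1^2) / q.1^2)
      (16 / 10 * (Et (16 * q.2 / (1 + lam / 10 * q.1)^2) / (1 + lam / 10 * q.1)^2)), ?_, ?_⟩
    · have hm : ContDiffAt ℝ ∞ (fun p : ℝ × ℝ => mxf p.1 p.2)
          ((fun q : ℝ × ℝ => (Et (q.2 / q.1^2) / q.1^2,
            16 / 10 * (Et (16 * q.2 / (1 + lam / 10 * q.1)^2) / (1 + lam / 10 * q.1)^2))) (x0, 0)) := by
        refine mxf_contDiffOn.contDiffAt ?_
        refine (isOpen_lt continuous_const continuous_snd).mem_nhds ?_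
        show 0 < 16 / 10 * (Et (16 * (0:ℝ) / (1 + lam / 10 * x0)^2) / (1 + lam / 10 * x0)^2)
        have h3 := one_le_s h
        have h4 : 0 < Et (16 * (0:ℝ) / (1 + lam / 10 * x0)^2) := Et_pos (by simp)
        positivity
      exact ContDiffAt.comp (x0, 0) hm ((M1_contDiffAt h).prodMk (M2_contDiffAt h))
    · filter_upwards [hcont1 (Ioi_mem_nhds h), hcont1 (Iio_mem_nhds h2),
        hcont2 (Iio_mem_nhds (show (0:ℝ) < 2 by norm_num))] with p hp1 hp2 hp3 hy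
      have hx : 0 < p.1 := hp1
      have hx2 : p.1 < 2 := hp2
      have hy2 : p.2 < 2 := hp3
      have hu := one_le_u hx hy
      have hs := one_le_s hx
      have hu0 : 0 < 1 + lam * NT p.1 p.2 := by linarith
      unfold PhiT1
      rw [Zf_eq_self hu0 (by linarith), Zf_eq_self hu0 (by linarith), sub_Hf' hx hy,
        sub_Ff' hy (by linarith), mxf_mul (by positivity)]
      ring
  · refine ⟨fun q =>
      16 / 10 * (Et (16 * q.2 / (1 + lam / 10 * q.1)^2) / (1 + lam / 10 * q.1)^2), M2_contDiffAt h, ?_⟩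
    filter_upwards [hcont1 (Ioi_mem_nhds (show (19:ℝ) / 10 < x0 by linarith)),
      hcont2 (Iio_mem_nhds (show (0:ℝ) < 1 / 10 by norm_num))] with p hp1 hp2 hy
    have hx1 : 19 / 10 < p.1 := hp1
    have hx : 0 < p.1 := by linarith
    have hy2 : p.2 < 1 / 10 := hp2
    have hu := one_le_u hx hy
    have hs := one_le_s hx
    have hu0 : 0 < 1 + lam * NT p.1 p.2 := by linarith
    have hs0 : 0 < 1 + lam / 10 * p.1 := by linarith
    have hlam : lam = 1 / 1000 := rfl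
    set w := Zf p.1 (1 + lam * NT p.1 p.2) with hw
    have hw1 : 125 / 100 * (1 + lam / 10 * p.1) ≤ w := by
      refine le_trans ?_ (Zf_ge (x := p.1) hu0)
      refine le_min ?_ ?_
      · rw [hlam]
        linarith
      · have h3 := NT_ge hx hy
        have h4 : p.1 ≤ √(p.1^2 + p.2^2) := by
          refine Real.le_sqrt_of_sq_le ?_
          nlinarith only [sq_nonneg p.2]
        rw [hlam]
        linarith only [h3, h4, hx1, hy, hy2]
    have hw0 : 0 < w := by linarith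
    have hB := (T_B hy hs0).1
    have hAB : 3 * (p.2 - Hf p.2 w) ≤ 2 * (p.2 - Ff p.2 (1 + lam / 10 * p.1)) := by
      rw [sub_Hf' hw0 hy, sub_Ff' hy hs0]
      set s := 1 + lam / 10 * p.1 with hsdef
      have h5 : Et (p.2^2 / w^2) ≤ 1 / 2 := Et_le_half (by positivity)
      have h6 : 3 / 10 ≤ Et (16 * p.2^2 / s^2) := by
        refine Et_ge (by positivity) ?_
        rw [div_le_iff₀ (by positivity)]
        nlinarith only [hlam, hs, hsdef, hx1, hy, hy2]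
      have h7 : Et (p.2^2 / w^2) / w^2 ≤ 32 / 100 / s^2 := by
        rw [div_le_div_iff₀ (by positivity) (by positivity)]
        have h8 : (125 / 100 * s)^2 ≤ w^2 := by
          refine pow_le_pow_left₀ (by positivity) hw1 2
        nlinarith only [h5, h8, sq_nonneg s]
      have h9 : 48 / 100 / s^2 ≤ 16 / 10 * (Et (16 * p.2^2 / s^2) / s^2) := by
        rw [← mul_div_assoc]
        refine div_le_div_of_nonneg_right ?_ (by positivity)
        linarith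
      have h10 : 3 * (Et (p.2^2 / w^2) / w^2) ≤ 2 * (16 / 10 * (Et (16 * p.2^2 / s^2) / s^2)) := by
        have h11 : 3 * (32 / 100 / s^2) = 2 * (48 / 100 / s^2) := by ring
        linarith only [h11, h7, h9]
      have h12 : 0 ≤ p.2^3 := by positivity
      nlinarith only [h10, h12, mul_le_mul_of_nonneg_left h10 h12]
    unfold PhiT1
    rw [Zf_eq_self hu0 (by linarith), ← hw, mxf_eq_right hB hAB, sub_Ff' hy hs0]
    ring

theorem PhiT_axisForm {x0 : ℝ} (h : 0 < x0) : AxisForm PhiT x0 := by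
  obtain ⟨M, hM, hev⟩ := PhiT1_axisForm h
  refine ⟨M, hM, ?_⟩
  have hc : Tendsto (fun p : ℝ × ℝ => p.1 - 10 * p.2) (𝓝 (x0, 0)) (𝓝 (x0 - 10 * 0)) :=
    (continuous_fst.sub (continuous_const.mul continuous_snd)).tendsto _
  filter_upwards [hev, hc (Ioi_mem_nhds (show (0:ℝ) < x0 - 10 * 0 by linarith))] with p hp1 hp2 hy
  have h3 : 0 < p.1 - 10 * p.2 := hp2
  rw [PhiT_eq_PhiT1 (by linarith) hy (by linarith)]
  exact hp1 hy

theorem PhiT_axisForm' {x0 : ℝ} (h : 0 < x0) : AxisForm (fun x y => PhiT y x) x0 := by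
  obtain ⟨M, hM, hev⟩ := PhiT1_axisForm h
  refine ⟨M, hM, ?_⟩
  have hc : Tendsto (fun p : ℝ × ℝ => p.1 - 10 * p.2) (𝓝 (x0, 0)) (𝓝 (x0 - 10 * 0)) :=
    (continuous_fst.sub (continuous_const.mul continuous_snd)).tendsto _
  filter_upwards [hev, hc (Ioi_mem_nhds (show (0:ℝ) < x0 - 10 * 0 by linarith))] with p hp1 hp2 hy
  have h3 : 0 < p.1 - 10 * p.2 := hp2
  show PhiT p.2 p.1 = _
  rw [PhiT_comm_near hy (by linarith) (by linarith)]
  exact hp1 hy

end Pool.Agent.MP39e402
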