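import Pool.Agent.Lib.MP_39e402_gt.LLocP

/-! # MP_39e402, module LTIa: scaling of type I conditions, zones 1-3 of the one-hole profile -/

open Real Set Filter Topology MeasureTheory
open scoped ContDiff

noncomputable section

namespace Pool.Agent.MP39e402

private theorem deriv_scale (F : ℝ → ℝ) (a c x : ℝ) (hc : c ≠ 0) :
    deriv (fun r => a * F (r / c)) x = a * c⁻¹ * deriv F (x / c) := by
  have h1 : (fun r => a * F (r / c)) = fun r => a * (fun r => F (c⁻¹ * r)) r := by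
    funext r
    rw [div_eq_inv_mul]
  rw [h1, deriv_const_mul_field, deriv_comp_mul_left, smul_eq_mul, div_eq_inv_mul, mul_assoc]

/-- scaling of the type I conditions -/
theorem TI_scale {J f : ℝ → ℝ → ℝ} {K0 k x y c : ℝ} (hc : 0 < c) (h : TI J f K0 k (x / c) y) :
    TI (fun x y => c * J (x / c) y) (fun x y => c * f (x / c) y) (K0 / c^2) (k / c^2) x y := by
  have hc0 := hc.ne'
  have e1 : ∀ F : ℝ → ℝ → ℝ, D1 (fun x y => c * F (x / c) y) = fun x y => D1 F (x / c) y := by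
    intro F
    funext x y
    unfold D1
    rw [deriv_scale (fun r => F r y) c c x hc0, mul_inv_cancel₀ hc0, one_mul]
  have e11 : ∀ F : ℝ → ℝ → ℝ, D1 (fun x y => F (x / c) y) = fun x y => c⁻¹ * D1 F (x / c) y := by
    intro F
    funext x y
    unfold D1
    have h1 := deriv_scale (fun r => F r y) 1 c x hc0
    simp only [one_mul] at h1
    exact h1
  have e2 : ∀ F : ℝ → ℝ → ℝ, D2 (fun x y => c * F (x / c) y) = fun x y => c * D2 F (x / c) y := by
    intro F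
    funext x y
    unfold D2
    rw [deriv_const_mul_field]
  obtain ⟨h1, h2, h3, h4, h5, h6⟩ := h
  have a1 : ∀ F : ℝ → ℝ → ℝ, D11 (fun x y => c * F (x / c) y) x y = c⁻¹ * D11 F (x / c) y := by
    intro F
    unfold D11
    rw [e1, e11]
  have a2 : ∀ F : ℝ → ℝ → ℝ, D12 (fun x y => c * F (x / c) y) x y = D12 F (x / c) y := by
    intro F
    unfold D12
    rw [e2, e1]
  have a3 : ∀ F : ℝ → ℝ → ℝ, D22 (fun x y => c * F (x / c) y) x y = c * D22 F (x / c) y := by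
    intro F
    unfold D22
    rw [e2, e2]
  have hK : D11 (fun x y => c * J (x / c) y) x y / (c * J (x / c) y) =
      (D11 J (x / c) y / J (x / c) y) / c ^ 2 := by
    rw [a1]
    field_simp
  refine ⟨mul_pos hc h1, mul_pos hc h2, ?_, ?_, ?_, ?_⟩
  · show -(K0 / c ^ 2) ≤ -(D11 (fun x y => c * J (x / c) y) x y / (c * J (x / c) y))
    rw [hK]
    have := div_le_div_of_nonneg_right h3 (by positivity : 0 ≤ c ^ 2)
    rw [neg_div, neg_div] at this
    exact this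
  · show -(D11 (fun x y => c * J (x / c) y) x y / (c * J (x / c) y)) ≤ k / c ^ 2
    rw [hK]
    have := div_le_div_of_nonneg_right h4 (by positivity : 0 ≤ c ^ 2)
    rw [neg_div] at this
    exact this
  · intro v w
    show D11 (fun x y => c * f (x / c) y) x y * v^2
      + 2 * ((D12 (fun x y => c * f (x / c) y) x y - D1 (fun x y => c * J (x / c) y) x y /
        (c * J (x / c) y) * D2 (fun x y => c * f (x / c) y) x y) / (c * J (x / c) y)) * v * w
      + ((D22 (fun x y => c * f (x / c) y) x y - D2 (fun x y => c * J (x / c) y) x y /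
        (c * J (x / c) y) * D2 (fun x y => c * f (x / c) y) x y) / (c * J (x / c) y)^2 +
        D1 (fun x y => c * J (x / c) y) x y / (c * J (x / c) y) *
          D1 (fun x y => c * f (x / c) y) x y) * w^2
      ≤ (-(D11 (fun x y => c * J (x / c) y) x y / (c * J (x / c) y)) / 2 + k / c ^ 2) *
        (c * f (x / c) y) * (v^2 + w^2)
    rw [hK, a1, a2, a3, e1, e2, e1, e2]
    have h7 := mul_le_mul_of_nonneg_left (h5 v w) (inv_pos.2 hc).le
    refine (le_of_eq ?_).trans (h7.trans (le_of_eq ?_))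
    · have hJ : J (x / c) y ≠ 0 := h1.ne'
      field_simp
    · field_simp
  · show (D1 (fun x y => c * f (x / c) y) x y)^2 + (D2 (fun x y => c * f (x / c) y) x y)^2 /
      (c * J (x / c) y)^2 ≤ 1
    rw [e1, e2]
    refine le_trans (le_of_eq ?_) h6
    have hJ : J (x / c) y ≠ 0 := h1.ne'
    field_simp

/-- scaling, flat base in Cartesian coordinates -/
theorem TI_scale_flat {f : ℝ → ℝ → ℝ} {K0 k x y c : ℝ} (hc : 0 < c)
    (h : TI (fun _ _ => 1) f K0 k (x / c) (y / c)) :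
    TI (fun _ _ => 1) (fun x y => c * f (x / c) (y / c)) (K0 / c^2) (k / c^2) x y := by
  have hc0 := hc.ne'
  have e1 : ∀ F : ℝ → ℝ → ℝ, D1 (fun x y => c * F (x / c) (y / c)) =
      fun x y => D1 F (x / c) (y / c) := by
    intro F
    funext x y
    unfold D1
    rw [deriv_scale (fun r => F r (y / c)) c c x hc0, mul_inv_cancel₀ hc0, one_mul]
  have e2 : ∀ F : ℝ → ℝ → ℝ, D2 (fun x y => c * F (x / c) (y / c)) =
      fun x y => D2 F (x / c) (y / c) := by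
    intro F
    funext x y
    unfold D2
    rw [deriv_scale (fun r => F (x / c) r) c c y hc0, mul_inv_cancel₀ hc0, one_mul]
  have e11 : ∀ F : ℝ → ℝ → ℝ, D1 (fun x y => F (x / c) (y / c)) =
      fun x y => c⁻¹ * D1 F (x / c) (y / c) := by
    intro F
    funext x y
    unfold D1
    have h1 := deriv_scale (fun r => F r (y / c)) 1 c x hc0
    simp only [one_mul] at h1
    exact h1
  have e22 : ∀ F : ℝ → ℝ → ℝ, D2 (fun x y => F (x / c) (y / c)) =
      fun x y => c⁻¹ * D2 F (x / c) (y / c) := by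
    intro F
    funext x y
    unfold D2
    have h1 := deriv_scale (fun r => F (x / c) r) 1 c y hc0
    simp only [one_mul] at h1
    exact h1
  obtain ⟨h1, h2, h3, h4, h5, h6⟩ := h
  have a1 : ∀ F : ℝ → ℝ → ℝ, D11 (fun x y => c * F (x / c) (y / c)) x y =
      c⁻¹ * D11 F (x / c) (y / c) := by
    intro F
    unfold D11
    rw [e1, e11]
  have a2 : ∀ F : ℝ → ℝ → ℝ, D12 (fun x y => c * F (x / c) (y / c)) x y =
      c⁻¹ * D12 F (x / c) (y / c) := by
    intro F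
    unfold D12
    rw [e2, e11]
  have a3 : ∀ F : ℝ → ℝ → ℝ, D22 (fun x y => c * F (x / c) (y / c)) x y =
      c⁻¹ * D22 F (x / c) (y / c) := by
    intro F
    unfold D22
    rw [e2, e22]
  have b1 : ∀ x y : ℝ, D1 (fun _ _ => (1:ℝ)) x y = 0 := by
    intro x y
    unfold D1
    exact deriv_const _ _
  have b2 : ∀ x y : ℝ, D2 (fun _ _ => (1:ℝ)) x y = 0 := by
    intro x y
    unfold D2
    exact deriv_const _ _
  have b11 : ∀ x y : ℝ, D11 (fun _ _ => (1:ℝ)) x y = 0 := by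
    intro x y
    unfold D11
    have : D1 (fun _ _ => (1:ℝ)) = fun _ _ => 0 := by
      funext x y
      exact b1 x y
    rw [this]
    unfold D1
    exact deriv_const _ _
  simp only [b1, b2, b11] at h3 h4 h5 h6
  refine ⟨one_pos, mul_pos hc h2, ?_, ?_, ?_, ?_⟩
  · rw [b11]
    have := div_le_div_of_nonneg_right h3 (by positivity : 0 ≤ c ^ 2)
    simp only [zero_div, neg_zero] at this ⊢
    rw [neg_div] at this
    exact this
  · rw [b11]
    have := div_le_div_of_nonneg_right h4 (by positivity : 0 ≤ c ^ 2)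
    simp only [zero_div, neg_zero] at this ⊢
    exact this
  · intro v w
    rw [a1, a2, a3, b1, b2, b11]
    have h7 := mul_le_mul_of_nonneg_left (h5 v w) (inv_pos.2 hc).le
    refine (le_of_eq ?_).trans (h7.trans (le_of_eq ?_))
    · ring
    · field_simp
      ring
  · show (D1 (fun x y => c * f (x / c) (y / c)) x y)^2 +
      (D2 (fun x y => c * f (x / c) (y / c)) x y)^2 / (1:ℝ)^2 ≤ 1
    rw [e1, e2]
    exact h6

theorem TI_mono {J f : ℝ → ℝ → ℝ} {K0 k K0' k' x y : ℝ} (h : TI J f K0 k x y) (h1 : K0 ≤ K0')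
    (h2 : k ≤ k') : TI J f K0' k' x y := by
  obtain ⟨a1, a2, a3, a4, a5, a6⟩ := h
  refine ⟨a1, a2, by linarith, by linarith, fun v w => (a5 v w).trans ?_, a6⟩
  have h3 : 0 ≤ f x y * (v ^ 2 + w ^ 2) := mul_nonneg a2.le (by positivity)
  have h4 := mul_le_mul_of_nonneg_right h2 h3
  nlinarith

/-- the conditions only depend on the germs of `J`, `f` -/
theorem TI_congr {J f J' f' : ℝ → ℝ → ℝ} {K0 k x y : ℝ} (h : TI J f K0 k x y)
    (h1 : ∀ᶠ p : ℝ × ℝ in 𝓝 (x, y), J p.1 p.2 = J' p.1 p.2)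
    (h2 : ∀ᶠ p : ℝ × ℝ in 𝓝 (x, y), f p.1 p.2 = f' p.1 p.2) : TI J' f' K0 k x y := by
  have c1 : ∀ x y : ℝ, Tendsto (fun r : ℝ => (r, y)) (𝓝 x) (𝓝 (x, y)) := fun x y =>
    (Continuous.prodMk continuous_id continuous_const).tendsto x
  have c2 : ∀ x y : ℝ, Tendsto (fun r : ℝ => (x, r)) (𝓝 y) (𝓝 (x, y)) := fun x y =>
    (Continuous.prodMk continuous_const continuous_id).tendsto y
  have d1 : ∀ {F G : ℝ → ℝ → ℝ} {x y : ℝ}, (∀ᶠ p : ℝ × ℝ in 𝓝 (x, y), F p.1 p.2 = G p.1 p.2) →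
      D1 F x y = D1 G x y := by
    intro F G x y hFG
    unfold D1
    exact Filter.EventuallyEq.deriv_eq ((c1 x y).eventually hFG)
  have d2 : ∀ {F G : ℝ → ℝ → ℝ} {x y : ℝ}, (∀ᶠ p : ℝ × ℝ in 𝓝 (x, y), F p.1 p.2 = G p.1 p.2) →
      D2 F x y = D2 G x y := by
    intro F G x y hFG
    unfold D2
    exact Filter.EventuallyEq.deriv_eq ((c2 x y).eventually hFG)
  have g1 : ∀ {F G : ℝ → ℝ → ℝ} {x y : ℝ}, (∀ᶠ p : ℝ × ℝ in 𝓝 (x, y), F p.1 p.2 = G p.1 p.2) →
      ∀ᶠ p : ℝ × ℝ in 𝓝 (x, y), D1 F p.1 p.2 = D1 G p.1 p.2 := by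
    intro F G x y hFG
    filter_upwards [hFG.eventually_nhds] with p hp
    exact d1 hp
  have g2 : ∀ {F G : ℝ → ℝ → ℝ} {x y : ℝ}, (∀ᶠ p : ℝ × ℝ in 𝓝 (x, y), F p.1 p.2 = G p.1 p.2) →
      ∀ᶠ p : ℝ × ℝ in 𝓝 (x, y), D2 F p.1 p.2 = D2 G p.1 p.2 := by
    intro F G x y hFG
    filter_upwards [hFG.eventually_nhds] with p hp
    exact d2 hp
  have z1 : J x y = J' x y := h1.self_of_nhds
  have z2 : f x y = f' x y := h2.self_of_nhds
  have z3 : D1 J x y = D1 J' x y := d1 h1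
  have z4 : D2 J x y = D2 J' x y := d2 h1
  have z5 : D1 f x y = D1 f' x y := d1 h2
  have z6 : D2 f x y = D2 f' x y := d2 h2
  have z7 : D11 J x y = D11 J' x y := d1 (g1 h1)
  have z8 : D11 f x y = D11 f' x y := d1 (g1 h2)
  have z9 : D12 f x y = D12 f' x y := d1 (g2 h2)
  have z10 : D22 f x y = D22 f' x y := d2 (g2 h2)
  obtain ⟨a1, a2, a3, a4, a5, a6⟩ := h
  rw [z1] at a1
  rw [z2] at a2
  rw [z7, z1] at a3 a4
  rw [z5, z6, z1] at a6
  refine ⟨a1, a2, a3, a4, fun v w => ?_, a6⟩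
  have h3 := a5 v w
  rw [z1, z2, z3, z4, z5, z6, z7, z8, z9, z10] at h3
  exact h3

/-- zone 1: tip, in quadrant coordinates -/
theorem TI_tip {ph x y : ℝ} (h : 0 < ph) (hx : 0 < x) (hy : 0 < y) :
    TI (fun _ _ => 1) (fun x y => epsh ph * PhiT (x / epsh ph) (y / epsh ph)) 0 0 x y := by
  have h3 := epsh_pos h
  have h1 := TI_scale_flat h3 (PhiT_TI (div_pos hx h3) (div_pos hy h3))
  rw [zero_div] at h1
  exact h1

/-- type I conditions of a concave function -/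
private theorem TI_of_concave {S : Set (ℝ × ℝ)} (hS : IsOpen S) {f : ℝ → ℝ → ℝ}
    (hf : ConcaveOn ℝ S (fun p => f p.1 p.2)) (hd : ContDiffOn ℝ ∞ (fun p : ℝ × ℝ => f p.1 p.2) S)
    (hb : ∀ p ∈ S, 0 < f p.1 p.2 ∧ f p.1 p.2 ≤ p.2) {x y : ℝ} (hy : 0 < y)
    (hr : ∀ x' y' : ℝ, |x' - x| ≤ 2 * y → 0 < y' → y' ≤ 3 * y → (x', y') ∈ S) :
    TI (fun _ _ => 1) f 0 0 x y := by
  have hxy : (x, y) ∈ S := hr x y (by rw [sub_self, abs_zero]; linarith) hy (by linarith)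
  have b1 : ∀ x y : ℝ, D1 (fun _ _ => (1:ℝ)) x y = 0 := by
    intro x y
    unfold D1
    exact deriv_const _ _
  have b2 : ∀ x y : ℝ, D2 (fun _ _ => (1:ℝ)) x y = 0 := by
    intro x y
    unfold D2
    exact deriv_const _ _
  have b11 : ∀ x y : ℝ, D11 (fun _ _ => (1:ℝ)) x y = 0 := by
    intro x y
    unfold D11
    have : D1 (fun _ _ => (1:ℝ)) = fun _ _ => 0 := by
      funext x y
      exact b1 x y
    rw [this]
    unfold D1
    exact deriv_const _ _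
  refine ⟨one_pos, (hb _ hxy).1, ?_, ?_, ?_, ?_⟩
  · rw [b11]; simp
  · rw [b11]; simp
  · intro v w
    rw [b1, b2, b11]
    have h1 := hess_nonpos_of_concaveOn hS hf (hd.of_le (WithTop.coe_le_coe.2 le_top)) hxy v w
    simp only [zero_div, zero_mul, sub_zero, div_one, one_pow, add_zero, neg_zero]
    exact h1
  · have h1 := grad_le_of_concave_axis hS hf (hd.differentiableOn (by simp))
      (fun p hp => ⟨(hb p hp).1.le, (hb p hp).2⟩) hy hr
    show (D1 f x y)^2 + (D2 f x y)^2 / (1:ℝ)^2 ≤ 1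
    rw [one_pow, div_one]
    exact h1

/-- the axis profile without cut off -/
private def fax (ε z0 x y : ℝ) : ℝ := PAx y (mnf (QN ε x y) z0) (mnf (sN ε x) (lam * z0))

private theorem lampos : 0 < lam := by unfold lam; norm_num

private theorem QN0 {ε X Y : ℝ} (h : 0 < ε) (hY : 0 < Y) : 0 < QN ε X Y :=
  lt_trans (div_pos h lampos) (QN_pos h hY)

private theorem sN_pos {ε X : ℝ} (h : 0 < ε) : 0 < sN ε X := by
  unfold sN
  rcases eq_or_ne X 0 with rfl | hX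
  · unfold Pf
    simp [h]
  · have h1 := Pf_pos (div_pos (abs_pos.2 hX) h)
    have := lampos
    positivity

private theorem fax_bd {ε z0 : ℝ} (h : 0 < ε) (hz : 0 < z0) {p : ℝ × ℝ} (hp : 0 < p.2) :
    0 < fax ε z0 p.1 p.2 ∧ fax ε z0 p.1 p.2 ≤ p.2 := by
  have h1 := mnf_pos (QN0 (X := p.1) h hp) hz
  have h2 := mnf_pos (sN_pos (X := p.1) h) (mul_pos lampos hz)
  exact ⟨PAx_pos hp h1 h2, PAx_le hp h1 h2⟩

private theorem fax_cd {ε z0 : ℝ} (h : 0 < ε) (hz : 0 < z0) {S : Set (ℝ × ℝ)} (hS : IsOpen S)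
    (hS2 : ∀ p ∈ S, 0 < p.2) (hS1 : ∀ p ∈ S, p.1 ≠ 0) :
    ContDiffOn ℝ ∞ (fun p : ℝ × ℝ => fax ε z0 p.1 p.2) S := by
  intro p hp
  apply ContDiffAt.contDiffWithinAt
  have hp2 := hS2 p hp
  have hp1 := hS1 p hp
  have hup : IsOpen {p : ℝ × ℝ | 0 < p.2} := isOpen_lt continuous_const continuous_snd
  have hQ : ContDiffAt ℝ ∞ (fun p : ℝ × ℝ => QN ε p.1 p.2) p :=
    (QN_contDiffOn h).contDiffAt (hup.mem_nhds hp2)
  have hs0 : ContDiffAt ℝ ∞ (fun p : ℝ × ℝ => |p.1| / ε) p :=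
    ((contDiffAt_fst (𝕜 := ℝ) (p := p)).norm ℝ hp1).div_const ε
  have hPf : ContDiffAt ℝ ∞ Pf (|p.1| / ε) :=
    Pf_contDiffOn.contDiffAt (isOpen_Ioi.mem_nhds (div_pos (abs_pos.2 hp1) h))
  have hPc : ContDiffAt ℝ ∞ (Pf ∘ (fun p : ℝ × ℝ => |p.1| / ε)) p := ContDiffAt.comp p hPf hs0
  have hs : ContDiffAt ℝ ∞ (fun p : ℝ × ℝ => sN ε p.1) p :=
    contDiffAt_const.add (contDiffAt_const.mul (contDiffAt_const.mul hPc))
  have hm1 : ContDiffAt ℝ ∞ (fun p : ℝ × ℝ => mnf p.1 p.2) (QN ε p.1 p.2, z0) :=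
    mnf_contDiffOn.contDiffAt (hup.mem_nhds hz)
  have hm2 : ContDiffAt ℝ ∞ (fun p : ℝ × ℝ => mnf p.1 p.2) (sN ε p.1, lam * z0) :=
    mnf_contDiffOn.contDiffAt (hup.mem_nhds (mul_pos lampos hz))
  have hQ2 : ContDiffAt ℝ ∞ ((fun p : ℝ × ℝ => mnf p.1 p.2) ∘
      (fun p : ℝ × ℝ => (QN ε p.1 p.2, z0))) p := ContDiffAt.comp p hm1 (hQ.prodMk contDiffAt_const)
  have hs2 : ContDiffAt ℝ ∞ ((fun p : ℝ × ℝ => mnf p.1 p.2) ∘
      (fun p : ℝ × ℝ => (sN ε p.1, lam * z0))) p :=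
    ContDiffAt.comp p hm2 (hs.prodMk contDiffAt_const)
  have hP : ContDiffAt ℝ ∞ (fun p : ℝ × ℝ × ℝ => PAx p.1 p.2.1 p.2.2)
      (p.2, mnf (QN ε p.1 p.2) z0, mnf (sN ε p.1) (lam * z0)) := by
    apply PAx_contDiffOn.contDiffAt
    apply IsOpen.mem_nhds
    · apply IsOpen.inter (isOpen_lt continuous_const continuous_fst)
      exact IsOpen.inter (isOpen_lt continuous_const continuous_snd.fst)
        (isOpen_lt continuous_const continuous_snd.snd)
    · exact ⟨hp2, mnf_pos (QN0 (X := p.1) h hp2) hz,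
        mnf_pos (sN_pos (X := p.1) h) (mul_pos lampos hz)⟩
  have hfin : ContDiffAt ℝ ∞ ((fun p : ℝ × ℝ × ℝ => PAx p.1 p.2.1 p.2.2) ∘
      (fun p : ℝ × ℝ => (p.2, ((fun p : ℝ × ℝ => mnf p.1 p.2) ∘
      (fun p : ℝ × ℝ => (QN ε p.1 p.2, z0))) p, ((fun p : ℝ × ℝ => mnf p.1 p.2) ∘
      (fun p : ℝ × ℝ => (sN ε p.1, lam * z0))) p))) p :=
    ContDiffAt.comp p hP (contDiffAt_snd.prodMk (hQ2.prodMk hs2))
  exact hfin

private theorem fax_conc {ε z0 : ℝ} (h : 0 < ε) (hz : 0 < z0) {S : Set (ℝ × ℝ)}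
    (hS2 : ∀ p ∈ S, 0 < p.2)
    (hQ : ConcaveOn ℝ S (fun p => QN ε p.1 p.2)) (hs : ConcaveOn ℝ S (fun p => sN ε p.1)) :
    ConcaveOn ℝ S (fun p => fax ε z0 p.1 p.2) := by
  have hl := lampos
  have hy : ConcaveOn ℝ S (fun p : ℝ × ℝ => p.2) :=
    ⟨hQ.1, fun x _ y _ a b _ _ _ => le_of_eq rfl⟩
  have hy' : ConvexOn ℝ S (fun p : ℝ × ℝ => p.2) :=
    ⟨hQ.1, fun x _ y _ a b _ _ _ => le_of_eq rfl⟩
  have hmono : ∀ x y x' y' : ℝ, 0 < x → 0 < y → x ≤ x' → y ≤ y' → mnf x y ≤ mnf x' y' :=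
    fun x y x' y' h1 h2 h3 h4 => mnf_mono h1 h2 h3 h4
  have hQ2 : ConcaveOn ℝ S (fun p => mnf (QN ε p.1 p.2) z0) :=
    concaveOn_comp2 mnf_concaveOn hmono hQ (concaveOn_const z0 hQ.1)
      (fun p hp => QN0 h (hS2 p hp)) (fun p _ => hz)
  have hs2 : ConcaveOn ℝ S (fun p => mnf (sN ε p.1) (lam * z0)) :=
    concaveOn_comp2 mnf_concaveOn hmono hs (concaveOn_const (lam * z0) hQ.1)
      (fun p _ => sN_pos h) (fun p _ => mul_pos hl hz)
  exact PAx_concaveOn hy hy' hQ2 hs2 hS2 (fun p hp => mnf_pos (QN0 h (hS2 p hp)) hz)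
    (fun p _ => mnf_pos (sN_pos h) (mul_pos hl hz))

private theorem tan_gt : 3 / 39 < tan (π / 40) := by
  have h1 : π / 40 < tan (π / 40) := Real.lt_tan (by positivity) (by linarith [Real.pi_pos])
  have h2 := Real.pi_gt_d2
  linarith

private theorem SecR_open : IsOpen SecR :=
  IsOpen.inter (isOpen_lt continuous_const continuous_snd)
    (isOpen_lt continuous_snd (continuous_fst.mul continuous_const))

private theorem SecL_open : IsOpen SecL :=
  IsOpen.inter (isOpen_lt continuous_const continuous_snd)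
    (isOpen_lt continuous_snd (continuous_fst.neg.mul continuous_const))

private theorem SecR_pos {p : ℝ × ℝ} (hp : p ∈ SecR) : 0 < p.1 := by
  obtain ⟨h1, h2⟩ := hp
  have h3 := tan_gt
  by_contra h
  push Not at h
  nlinarith

private theorem SecL_neg {p : ℝ × ℝ} (hp : p ∈ SecL) : p.1 < 0 := by
  obtain ⟨h1, h2⟩ := hp
  have h3 := tan_gt
  by_contra h
  push Not at h
  nlinarith

private theorem fax_TI_R {ε z0 X Y : ℝ} (h : 0 < ε) (hz : 0 < z0) (hY : 0 < Y)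
    (ha : 41 * Y ≤ X) : TI (fun _ _ => 1) (fax ε z0) 0 0 X Y := by
  have hs : ConcaveOn ℝ SecR (fun p => sN ε p.1) := by
    have h1 := (sN_concaveOn h).comp_linearMap (LinearMap.fst ℝ ℝ ℝ)
    exact h1.subset (fun p hp => SecR_pos hp) (QN_concaveOn_R h).1
  apply TI_of_concave SecR_open (fax_conc h hz (fun p hp => hp.1) (QN_concaveOn_R h) hs)
    (fax_cd h hz SecR_open (fun p hp => hp.1) fun p hp => (SecR_pos hp).ne')
    (fun p hp => fax_bd h hz hp.1) hY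
  intro x' y' h1 h2 h3
  refine ⟨h2, ?_⟩
  show y' < x' * tan (π / 40)
  rw [abs_le] at h1
  have h4 := tan_gt
  have h5 : 39 * Y ≤ x' := by linarith [h1.1]
  have h6 : 0 < x' := by linarith
  have h7 := mul_lt_mul_of_pos_left h4 h6
  linarith

private theorem fax_TI_L {ε z0 X Y : ℝ} (h : 0 < ε) (hz : 0 < z0) (hY : 0 < Y)
    (ha : 41 * Y ≤ -X) : TI (fun _ _ => 1) (fax ε z0) 0 0 X Y := by
  have hs : ConcaveOn ℝ SecL (fun p => sN ε p.1) := by
    have h1 := (sN_concaveOn h).comp_linearMap (-(LinearMap.fst ℝ ℝ ℝ))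
    have h2 : ConcaveOn ℝ SecL (sN ε ∘ ⇑(-(LinearMap.fst ℝ ℝ ℝ))) :=
      h1.subset (fun p hp => by
        show 0 < -p.1
        linarith [SecL_neg hp]) (QN_concaveOn_L h).1
    refine h2.congr ?_
    intro p _
    show sN ε (-p.1) = sN ε p.1
    unfold sN
    rw [abs_neg]
  apply TI_of_concave SecL_open (fax_conc h hz (fun p hp => hp.1) (QN_concaveOn_L h) hs)
    (fax_cd h hz SecL_open (fun p hp => hp.1) fun p hp => (SecL_neg hp).ne)
    (fun p hp => fax_bd h hz hp.1) hY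
  intro x' y' h1 h2 h3
  refine ⟨h2, ?_⟩
  show y' < -x' * tan (π / 40)
  rw [abs_le] at h1
  have h4 := tan_gt
  have h5 : 39 * Y ≤ -x' := by linarith [h1.2]
  have h6 : 0 < -x' := by linarith
  have h7 := mul_lt_mul_of_pos_left h4 h6
  linarith

private theorem rad_cont : Continuous (fun p : ℝ × ℝ => rad p.1 p.2) := by
  unfold rad
  fun_prop

/-- zone 2: near the right axis -/
theorem TI_axisR {ph X Y : ℝ} (h : 0 < ph) (h1 : ph ≤ 1 / 2) (hX : 0 < X) (hY : 0 < Y)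
    (hR : 1500 * epsh ph ≤ rad X Y) (ha : 41 * Y ≤ X) (hb : 60 * Y ≤ 1) :
    TI (fun _ _ => 1) (fun x y => PhL ph x y) 0 0 X Y := by
  have h3 := epsh_pos h
  refine TI_congr (fax_TI_R (z0 := 32 * ph) h3 (by linarith) hY ha)
    (Eventually.of_forall fun _ => rfl) ?_
  have ev1 : ∀ᶠ p : ℝ × ℝ in 𝓝 (X, Y), 0 < p.1 :=
    (isOpen_lt continuous_const continuous_fst).mem_nhds hX
  have ev2 : ∀ᶠ p : ℝ × ℝ in 𝓝 (X, Y), 0 < p.2 :=
    (isOpen_lt continuous_const continuous_snd).mem_nhds hY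
  have ev3 : ∀ᶠ p : ℝ × ℝ in 𝓝 (X, Y), p.2 < 1 / 10 :=
    (isOpen_lt continuous_snd continuous_const).mem_nhds (by
      show Y < 1 / 10
      linarith)
  have ev4 : ∀ᶠ p : ℝ × ℝ in 𝓝 (X, Y), 1000 * epsh ph < rad p.1 p.2 :=
    (isOpen_lt continuous_const rad_cont).mem_nhds (by
      show 1000 * epsh ph < rad X Y
      linarith)
  filter_upwards [ev1, ev2, ev3, ev4] with p p1 p2 p3 p4
  rw [PhL_of_ge h h1 p2 p4.le]
  have e1 : zsd ph p.1 = 32 * ph := if_neg (not_lt.2 p1.le)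
  have e2 : ysd p.1 = 1 / 10 := if_neg (not_lt.2 p1.le)
  have e3 : st (p.2 / (1 / 10) - 1) = 0 := st_zero (by
    have : p.2 / (1 / 10) = 10 * p.2 := by ring
    rw [this]; linarith)
  unfold fax QL sL
  rw [e1, e2, e3, mul_zero, sub_zero, one_mul]

/-- zone 2': near the left axis -/
theorem TI_axisL {ph X Y : ℝ} (h : 0 < ph) (h1 : ph ≤ 1 / 2) (hX : X < 0) (hY : 0 < Y)
    (hR : 1500 * epsh ph ≤ rad X Y) (ha : 41 * Y ≤ -X) (hb : 60 * Y ≤ 1) :
    TI (fun _ _ => 1) (fun x y => PhL ph x y) 0 0 X Y := by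
  have h3 := epsh_pos h
  refine TI_congr (fax_TI_L (z0 := 4 * ph) h3 (by linarith) hY ha)
    (Eventually.of_forall fun _ => rfl) ?_
  have ev1 : ∀ᶠ p : ℝ × ℝ in 𝓝 (X, Y), p.1 < 0 :=
    (isOpen_lt continuous_fst continuous_const).mem_nhds hX
  have ev2 : ∀ᶠ p : ℝ × ℝ in 𝓝 (X, Y), 0 < p.2 :=
    (isOpen_lt continuous_const continuous_snd).mem_nhds hY
  have ev3 : ∀ᶠ p : ℝ × ℝ in 𝓝 (X, Y), p.2 < 1 / 20 :=
    (isOpen_lt continuous_snd continuous_const).mem_nhds (by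
      show Y < 1 / 20
      linarith)
  have ev4 : ∀ᶠ p : ℝ × ℝ in 𝓝 (X, Y), 1000 * epsh ph < rad p.1 p.2 :=
    (isOpen_lt continuous_const rad_cont).mem_nhds (by
      show 1000 * epsh ph < rad X Y
      linarith)
  filter_upwards [ev1, ev2, ev3, ev4] with p p1 p2 p3 p4
  rw [PhL_of_ge h h1 p2 p4.le]
  have e1 : zsd ph p.1 = 4 * ph := if_pos p1
  have e2 : ysd p.1 = 1 / 20 := if_pos p1
  have e3 : st (p.2 / (1 / 20) - 1) = 0 := st_zero (by
    have : p.2 / (1 / 20) = 20 * p.2 := by ring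
    rw [this]; linarith)
  unfold fax QL sL
  rw [e1, e2, e3, mul_zero, sub_zero, one_mul]

/-- zone 3: middle, polar coordinates, `R < 1/2` -/
theorem TI_mid {ph R t : ℝ} (h : 0 < ph) (h1 : ph ≤ 1 / 2) (hR : 1500 * epsh ph ≤ R) (hR1 : R < 1 / 2)
    (h0 : π / 160 < t) (ht : t < π - π / 160) :
    TI (JL ph) (fun R t => PhL ph (R * cos t) (R * sin t)) (1 / (epsh ph)^2) 0 R t := by
  have h3 := epsh_pos h
  have hpi := Real.pi_pos
  have hTI := TI_scale h3 (mid_TI (R := R / epsh ph) (t := t) (by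
    rw [le_div_iff₀ h3]; linarith) (by linarith) (by linarith))
  rw [zero_div] at hTI
  have ev1 : ∀ᶠ p : ℝ × ℝ in 𝓝 (R, t), 1000 * epsh ph < p.1 :=
    (isOpen_lt continuous_const continuous_fst).mem_nhds (by
      show 1000 * epsh ph < R
      linarith)
  have ev2 : ∀ᶠ p : ℝ × ℝ in 𝓝 (R, t), p.1 < 1 / 2 :=
    (isOpen_lt continuous_fst continuous_const).mem_nhds hR1
  have ev3 : ∀ᶠ p : ℝ × ℝ in 𝓝 (R, t), π / 160 < p.2 :=
    (isOpen_lt continuous_const continuous_snd).mem_nhds h0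
  have ev4 : ∀ᶠ p : ℝ × ℝ in 𝓝 (R, t), p.2 < π - π / 160 :=
    (isOpen_lt continuous_snd continuous_const).mem_nhds ht
  refine TI_congr hTI ?_ ?_
  · filter_upwards [ev2] with p p2
    show epsh ph * JN (p.1 / epsh ph) p.2 = JL ph p.1 p.2
    unfold JN JL
    rw [st_zero (by linarith : 2 * p.1 - 1 ≤ 0), sub_zero, one_mul]
    have := h3.ne'
    field_simp
  · filter_upwards [ev1, ev2, ev3, ev4] with p p1 p2 p3 p4
    exact (PhL_mid h h1 p1.le p2.le p3.le p4.le).symm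

end Pool.Agent.MP39e402
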