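import Pool.Agent.Lib.MP_39e402_gt.LLocP

/-! # MP_39e402, module LTIc: type I conditions in the cut-off zones.
For `R ≥ 9/20`, `Y ≥ 1/100` we have `PhL = aa (Y + QL)` (`PhL_far`), `QL = ph * q` where, with
`η = epsh ph/(lam ph) ∈ [0,1]`, `q = (1 - st(2R-1) st(Y/ysd-1)) * mnf (η + Γ(θ) R^{1-c}) (4 or 32)`
(`QN_outer`, `mnf_mul`); `JL = R (1 - ph (1 - st(2R-1)) m(θ) R^{-c})`.  `q` vanishes for `R ≥ 1, Y ≥ 1/5`;
for `|X| ≥ 512` it depends only on `Y`; so all derivatives of order `≤ 2` of `q` are bounded uniformly in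
`η ∈ [0,1]` (compactness: `q` is a smooth function of `(η,X,Y)`, on each side of `X = 0`).
`Hess (aa Y) = O(ph)` for the metric `dR²+JL²dθ²`, `K = O(ph)`, `PhL ≥ aa/100`. -/

open Real Set Filter Topology MeasureTheory
open scoped ContDiff

noncomputable section

namespace Pool.Agent.MP39e402

/-! ## partial derivatives of smooth functions -/

private theorem inf_succ : (∞ : WithTop ℕ∞) + 1 ≤ ∞ := Std.IsPreorder.le_refl (∞ + 1)

private theorem line1 {F : ℝ → ℝ → ℝ → ℝ} {U : Set (ℝ × ℝ × ℝ)} (hU : IsOpen U)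
    (hF : ContDiffOn ℝ ∞ (fun p : ℝ × ℝ × ℝ => F p.1 p.2.1 p.2.2) U) {p : ℝ × ℝ × ℝ} (hp : p ∈ U) :
    HasDerivAt (fun r => F p.1 r p.2.2)
      (fderiv ℝ (fun p : ℝ × ℝ × ℝ => F p.1 p.2.1 p.2.2) p (0, 1, 0)) p.2.1 := by
  have h1 : HasFDerivAt (fun p : ℝ × ℝ × ℝ => F p.1 p.2.1 p.2.2)
      (fderiv ℝ (fun p : ℝ × ℝ × ℝ => F p.1 p.2.1 p.2.2) p) p :=
    ((hF.contDiffAt (hU.mem_nhds hp)).differentiableAt (by simp)).hasFDerivAt
  have h2 : HasDerivAt (fun r : ℝ => (p.1, r, p.2.2)) ((0 : ℝ), (1 : ℝ), (0 : ℝ)) p.2.1 :=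
    (hasDerivAt_const _ _).prodMk ((hasDerivAt_id _).prodMk (hasDerivAt_const _ _))
  exact HasFDerivAt.comp_hasDerivAt (f := fun r : ℝ => (p.1, r, p.2.2)) p.2.1 h1 h2

private theorem line2 {F : ℝ → ℝ → ℝ → ℝ} {U : Set (ℝ × ℝ × ℝ)} (hU : IsOpen U)
    (hF : ContDiffOn ℝ ∞ (fun p : ℝ × ℝ × ℝ => F p.1 p.2.1 p.2.2) U) {p : ℝ × ℝ × ℝ} (hp : p ∈ U) :
    HasDerivAt (fun r => F p.1 p.2.1 r)
      (fderiv ℝ (fun p : ℝ × ℝ × ℝ => F p.1 p.2.1 p.2.2) p (0, 0, 1)) p.2.2 := by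
  have h1 : HasFDerivAt (fun p : ℝ × ℝ × ℝ => F p.1 p.2.1 p.2.2)
      (fderiv ℝ (fun p : ℝ × ℝ × ℝ => F p.1 p.2.1 p.2.2) p) p :=
    ((hF.contDiffAt (hU.mem_nhds hp)).differentiableAt (by simp)).hasFDerivAt
  have h2 : HasDerivAt (fun r : ℝ => (p.1, p.2.1, r)) ((0 : ℝ), (0 : ℝ), (1 : ℝ)) p.2.2 :=
    (hasDerivAt_const _ _).prodMk ((hasDerivAt_const _ _).prodMk (hasDerivAt_id _))
  exact HasFDerivAt.comp_hasDerivAt (f := fun r : ℝ => (p.1, p.2.1, r)) p.2.2 h1 h2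

private theorem cdD1 {F : ℝ → ℝ → ℝ → ℝ} {U : Set (ℝ × ℝ × ℝ)} (hU : IsOpen U)
    (hF : ContDiffOn ℝ ∞ (fun p : ℝ × ℝ × ℝ => F p.1 p.2.1 p.2.2) U) :
    ContDiffOn ℝ ∞ (fun p : ℝ × ℝ × ℝ => D1 (F p.1) p.2.1 p.2.2) U := by
  have h1 : ContDiffOn ℝ ∞ (fun p : ℝ × ℝ × ℝ =>
      fderiv ℝ (fun p : ℝ × ℝ × ℝ => F p.1 p.2.1 p.2.2) p ((0 : ℝ), (1 : ℝ), (0 : ℝ))) U :=
    (hF.fderiv_of_isOpen hU inf_succ).clm_apply contDiffOn_const
  refine h1.congr fun p hp => ?_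
  exact (line1 hU hF hp).deriv

private theorem cdD2 {F : ℝ → ℝ → ℝ → ℝ} {U : Set (ℝ × ℝ × ℝ)} (hU : IsOpen U)
    (hF : ContDiffOn ℝ ∞ (fun p : ℝ × ℝ × ℝ => F p.1 p.2.1 p.2.2) U) :
    ContDiffOn ℝ ∞ (fun p : ℝ × ℝ × ℝ => D2 (F p.1) p.2.1 p.2.2) U := by
  have h1 : ContDiffOn ℝ ∞ (fun p : ℝ × ℝ × ℝ =>
      fderiv ℝ (fun p : ℝ × ℝ × ℝ => F p.1 p.2.1 p.2.2) p ((0 : ℝ), (0 : ℝ), (1 : ℝ))) U :=
    (hF.fderiv_of_isOpen hU inf_succ).clm_apply contDiffOn_const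
  refine h1.congr fun p hp => ?_
  exact (line2 hU hF hp).deriv

/-- bounds for a function and its derivatives up to order two -/
private structure Bd (F : ℝ → ℝ → ℝ) (M x y : ℝ) : Prop where
  b0 : |F x y| ≤ M
  b1 : |D1 F x y| ≤ M
  b2 : |D2 F x y| ≤ M
  b11 : |D11 F x y| ≤ M
  b12 : |D12 F x y| ≤ M
  b22 : |D22 F x y| ≤ M

private theorem Bd.mono {F : ℝ → ℝ → ℝ} {M M' x y : ℝ} (h : Bd F M x y) (hM : M ≤ M') :
    Bd F M' x y :=
  ⟨h.b0.trans hM, h.b1.trans hM, h.b2.trans hM, h.b11.trans hM, h.b12.trans hM, h.b22.trans hM⟩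

private theorem exists_bd {F : ℝ → ℝ → ℝ → ℝ} {U K : Set (ℝ × ℝ × ℝ)} (hU : IsOpen U)
    (hF : ContDiffOn ℝ ∞ (fun p : ℝ × ℝ × ℝ => F p.1 p.2.1 p.2.2) U) (hK : IsCompact K)
    (hKU : K ⊆ U) : ∃ M : ℝ, 1 ≤ M ∧ ∀ p ∈ K, Bd (F p.1) M p.2.1 p.2.2 := by
  have c1 := cdD1 hU hF
  have c2 := cdD2 hU hF
  have c11 := cdD1 (F := fun e => D1 (F e)) hU c1
  have c12 := cdD1 (F := fun e => D2 (F e)) hU c2
  have c22 := cdD2 (F := fun e => D2 (F e)) hU c2
  obtain ⟨M0, h0⟩ := hK.exists_bound_of_continuousOn (hF.continuousOn.mono hKU)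
  obtain ⟨M1, h1⟩ := hK.exists_bound_of_continuousOn (c1.continuousOn.mono hKU)
  obtain ⟨M2, h2⟩ := hK.exists_bound_of_continuousOn (c2.continuousOn.mono hKU)
  obtain ⟨M11, h11⟩ := hK.exists_bound_of_continuousOn (c11.continuousOn.mono hKU)
  obtain ⟨M12, h12⟩ := hK.exists_bound_of_continuousOn (c12.continuousOn.mono hKU)
  obtain ⟨M22, h22⟩ := hK.exists_bound_of_continuousOn (c22.continuousOn.mono hKU)
  refine ⟨1 + (|M0| + |M1| + |M2| + |M11| + |M12| + |M22|), ?_, fun p hp => ?_⟩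
  · have := abs_nonneg M0; have := abs_nonneg M1; have := abs_nonneg M2; have := abs_nonneg M11; have := abs_nonneg M12; have := abs_nonneg M22; linarith
  · have a0 := le_abs_self M0
    have a1 := le_abs_self M1
    have a2 := le_abs_self M2
    have a11 := le_abs_self M11
    have a12 := le_abs_self M12
    have a22 := le_abs_self M22
    have n0 := abs_nonneg M0
    have n1 := abs_nonneg M1
    have n2 := abs_nonneg M2
    have n11 := abs_nonneg M11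
    have n12 := abs_nonneg M12
    have n22 := abs_nonneg M22
    have e0 : |F p.1 p.2.1 p.2.2| ≤ M0 := h0 p hp
    have e1 : |D1 (F p.1) p.2.1 p.2.2| ≤ M1 := h1 p hp
    have e2 : |D2 (F p.1) p.2.1 p.2.2| ≤ M2 := h2 p hp
    have e11 : |D11 (F p.1) p.2.1 p.2.2| ≤ M11 := h11 p hp
    have e12 : |D12 (F p.1) p.2.1 p.2.2| ≤ M12 := h12 p hp
    have e22 : |D22 (F p.1) p.2.1 p.2.2| ≤ M22 := h22 p hp
    exact ⟨by linarith, by linarith, by linarith, by linarith, by linarith, by linarith⟩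

private theorem cong1 {A B : ℝ → ℝ → ℝ → ℝ} {U : Set (ℝ × ℝ × ℝ)} (hU : IsOpen U)
    (h : ∀ p ∈ U, A p.1 p.2.1 p.2.2 = B p.1 p.2.1 p.2.2) {p : ℝ × ℝ × ℝ} (hp : p ∈ U) :
    D1 (A p.1) p.2.1 p.2.2 = D1 (B p.1) p.2.1 p.2.2 := by
  unfold D1
  apply Filter.EventuallyEq.deriv_eq
  have hc : Continuous (fun r : ℝ => (p.1, r, p.2.2)) := by fun_prop
  have h1 : ∀ᶠ r in 𝓝 p.2.1, (p.1, r, p.2.2) ∈ U := hc.continuousAt.eventually (hU.mem_nhds hp)
  filter_upwards [h1] with r hr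
  exact h _ hr

private theorem cong2 {A B : ℝ → ℝ → ℝ → ℝ} {U : Set (ℝ × ℝ × ℝ)} (hU : IsOpen U)
    (h : ∀ p ∈ U, A p.1 p.2.1 p.2.2 = B p.1 p.2.1 p.2.2) {p : ℝ × ℝ × ℝ} (hp : p ∈ U) :
    D2 (A p.1) p.2.1 p.2.2 = D2 (B p.1) p.2.1 p.2.2 := by
  unfold D2
  apply Filter.EventuallyEq.deriv_eq
  have hc : Continuous (fun r : ℝ => (p.1, p.2.1, r)) := by fun_prop
  have h1 : ∀ᶠ r in 𝓝 p.2.2, (p.1, p.2.1, r) ∈ U := hc.continuousAt.eventually (hU.mem_nhds hp)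
  filter_upwards [h1] with r hr
  exact h _ hr

private theorem lin1 {F G : ℝ → ℝ → ℝ → ℝ} {U : Set (ℝ × ℝ × ℝ)} (hU : IsOpen U)
    (hF : ContDiffOn ℝ ∞ (fun p : ℝ × ℝ × ℝ => F p.1 p.2.1 p.2.2) U)
    (hG : ContDiffOn ℝ ∞ (fun p : ℝ × ℝ × ℝ => G p.1 p.2.1 p.2.2) U) (α β : ℝ)
    {p : ℝ × ℝ × ℝ} (hp : p ∈ U) :
    D1 (fun x y => α * F p.1 x y + β * G p.1 x y) p.2.1 p.2.2 =
      α * D1 (F p.1) p.2.1 p.2.2 + β * D1 (G p.1) p.2.1 p.2.2 := by
  have h1 := line1 hU hF hp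
  have h2 := line1 hU hG hp
  have h3 := (h1.const_mul α).add (h2.const_mul β)
  have e1 : D1 (F p.1) p.2.1 p.2.2 = _ := h1.deriv
  have e2 : D1 (G p.1) p.2.1 p.2.2 = _ := h2.deriv
  rw [e1, e2]
  exact h3.deriv

private theorem lin2 {F G : ℝ → ℝ → ℝ → ℝ} {U : Set (ℝ × ℝ × ℝ)} (hU : IsOpen U)
    (hF : ContDiffOn ℝ ∞ (fun p : ℝ × ℝ × ℝ => F p.1 p.2.1 p.2.2) U)
    (hG : ContDiffOn ℝ ∞ (fun p : ℝ × ℝ × ℝ => G p.1 p.2.1 p.2.2) U) (α β : ℝ)
    {p : ℝ × ℝ × ℝ} (hp : p ∈ U) :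
    D2 (fun x y => α * F p.1 x y + β * G p.1 x y) p.2.1 p.2.2 =
      α * D2 (F p.1) p.2.1 p.2.2 + β * D2 (G p.1) p.2.1 p.2.2 := by
  have h1 := line2 hU hF hp
  have h2 := line2 hU hG hp
  have h3 := (h1.const_mul α).add (h2.const_mul β)
  have e1 : D2 (F p.1) p.2.1 p.2.2 = _ := h1.deriv
  have e2 : D2 (G p.1) p.2.1 p.2.2 = _ := h2.deriv
  rw [e1, e2]
  exact h3.deriv

private theorem lin11 {F G : ℝ → ℝ → ℝ → ℝ} {U : Set (ℝ × ℝ × ℝ)} (hU : IsOpen U)
    (hF : ContDiffOn ℝ ∞ (fun p : ℝ × ℝ × ℝ => F p.1 p.2.1 p.2.2) U)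
    (hG : ContDiffOn ℝ ∞ (fun p : ℝ × ℝ × ℝ => G p.1 p.2.1 p.2.2) U) (α β : ℝ)
    {p : ℝ × ℝ × ℝ} (hp : p ∈ U) :
    D11 (fun x y => α * F p.1 x y + β * G p.1 x y) p.2.1 p.2.2 =
      α * D11 (F p.1) p.2.1 p.2.2 + β * D11 (G p.1) p.2.1 p.2.2 := by
  have h1 := cong1 (A := fun e => D1 (fun x y => α * F e x y + β * G e x y))
    (B := fun e x y => α * D1 (F e) x y + β * D1 (G e) x y) hU
    (fun p hp => lin1 hU hF hG α β hp) hp
  unfold D11
  refine Eq.trans h1 ?_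
  exact lin1 (F := fun e => D1 (F e)) (G := fun e => D1 (G e)) hU (cdD1 hU hF) (cdD1 hU hG) α β hp

private theorem lin12 {F G : ℝ → ℝ → ℝ → ℝ} {U : Set (ℝ × ℝ × ℝ)} (hU : IsOpen U)
    (hF : ContDiffOn ℝ ∞ (fun p : ℝ × ℝ × ℝ => F p.1 p.2.1 p.2.2) U)
    (hG : ContDiffOn ℝ ∞ (fun p : ℝ × ℝ × ℝ => G p.1 p.2.1 p.2.2) U) (α β : ℝ)
    {p : ℝ × ℝ × ℝ} (hp : p ∈ U) :
    D12 (fun x y => α * F p.1 x y + β * G p.1 x y) p.2.1 p.2.2 =
      α * D12 (F p.1) p.2.1 p.2.2 + β * D12 (G p.1) p.2.1 p.2.2 := by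
  have h1 := cong1 (A := fun e => D2 (fun x y => α * F e x y + β * G e x y))
    (B := fun e x y => α * D2 (F e) x y + β * D2 (G e) x y) hU
    (fun p hp => lin2 hU hF hG α β hp) hp
  unfold D12
  refine Eq.trans h1 ?_
  exact lin1 (F := fun e => D2 (F e)) (G := fun e => D2 (G e)) hU (cdD2 hU hF) (cdD2 hU hG) α β hp

private theorem lin22 {F G : ℝ → ℝ → ℝ → ℝ} {U : Set (ℝ × ℝ × ℝ)} (hU : IsOpen U)
    (hF : ContDiffOn ℝ ∞ (fun p : ℝ × ℝ × ℝ => F p.1 p.2.1 p.2.2) U)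
    (hG : ContDiffOn ℝ ∞ (fun p : ℝ × ℝ × ℝ => G p.1 p.2.1 p.2.2) U) (α β : ℝ)
    {p : ℝ × ℝ × ℝ} (hp : p ∈ U) :
    D22 (fun x y => α * F p.1 x y + β * G p.1 x y) p.2.1 p.2.2 =
      α * D22 (F p.1) p.2.1 p.2.2 + β * D22 (G p.1) p.2.1 p.2.2 := by
  have h1 := cong2 (A := fun e => D2 (fun x y => α * F e x y + β * G e x y))
    (B := fun e x y => α * D2 (F e) x y + β * D2 (G e) x y) hU
    (fun p hp => lin2 hU hF hG α β hp) hp
  unfold D22
  refine Eq.trans h1 ?_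
  exact lin2 (F := fun e => D2 (F e)) (G := fun e => D2 (G e)) hU (cdD2 hU hF) (cdD2 hU hG) α β hp

/-! ## explicit functions -/

private theorem one_D : ∀ x y : ℝ, D1 (fun _ _ => (1:ℝ)) x y = 0 ∧ D2 (fun _ _ => (1:ℝ)) x y = 0 ∧
    D11 (fun _ _ => (1:ℝ)) x y = 0 := by
  have b1 : D1 (fun _ _ => (1:ℝ)) = fun _ _ => 0 := by
    funext x y
    unfold D1
    exact deriv_const _ _
  intro x y
  refine ⟨by rw [b1], ?_, ?_⟩
  · unfold D2
    exact deriv_const _ _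
  · unfold D11
    rw [b1]
    unfold D1
    exact deriv_const _ _

private theorem fst_D : ∀ x y : ℝ, D1 (fun x _ => x) x y = 1 ∧ D2 (fun x _ => x) x y = 0 ∧
    D11 (fun x _ => x) x y = 0 := by
  have b1 : D1 (fun x _ => x) = fun _ _ => 1 := by
    funext x y
    unfold D1
    exact deriv_id _
  intro x y
  refine ⟨by rw [b1], ?_, ?_⟩
  · unfold D2
    exact deriv_const _ _
  · unfold D11
    rw [b1]
    exact (one_D x y).1

private theorem snd_D : ∀ x y : ℝ, D1 (fun _ y => y) x y = 0 ∧ D2 (fun _ y => y) x y = 1 ∧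
    D11 (fun _ y => y) x y = 0 ∧ D12 (fun _ y => y) x y = 0 ∧ D22 (fun _ y => y) x y = 0 := by
  have b1 : D1 (fun _ y => y) = fun _ _ => 0 := by
    funext x y
    unfold D1
    exact deriv_const _ _
  have b2 : D2 (fun _ y => y) = fun _ _ => 1 := by
    funext x y
    unfold D2
    exact deriv_id _
  intro x y
  refine ⟨by rw [b1], by rw [b2], ?_, ?_, ?_⟩
  · unfold D11
    rw [b1]
    unfold D1
    exact deriv_const _ _
  · unfold D12
    rw [b2]
    exact (one_D x y).1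
  · unfold D22
    rw [b2]
    exact (one_D x y).2.1

private theorem rs_D : ∀ x y : ℝ, D1 (fun x y => x * sin y) x y = sin y ∧
    D2 (fun x y => x * sin y) x y = x * cos y ∧
    D11 (fun x y => x * sin y) x y = 0 ∧ D12 (fun x y => x * sin y) x y = cos y ∧
    D22 (fun x y => x * sin y) x y = -(x * sin y) := by
  have b1 : D1 (fun x y => x * sin y) = fun _ y => sin y := by
    funext x y
    unfold D1
    have h1 : HasDerivAt (fun r : ℝ => r * sin y) (1 * sin y) x := (hasDerivAt_id x).mul_const _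
    rw [h1.deriv, one_mul]
  have b2 : D2 (fun x y => x * sin y) = fun x y => x * cos y := by
    funext x y
    unfold D2
    exact ((Real.hasDerivAt_sin y).const_mul x).deriv
  intro x y
  refine ⟨by rw [b1], by rw [b2], ?_, ?_, ?_⟩
  · unfold D11
    rw [b1]
    unfold D1
    exact deriv_const _ _
  · unfold D12
    rw [b2]
    unfold D1
    have h1 : HasDerivAt (fun r : ℝ => r * cos y) (1 * cos y) x := (hasDerivAt_id x).mul_const _
    rw [h1.deriv, one_mul]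
  · unfold D22
    rw [b2]
    unfold D2
    rw [((Real.hasDerivAt_cos y).const_mul x).deriv]
    ring

/-! ## algebra -/

private theorem am {x y a b : ℝ} (hx : |x| ≤ a) (hy : |y| ≤ b) : |x * y| ≤ a * b := by
  rw [abs_mul]
  exact mul_le_mul hx hy (abs_nonneg _) ((abs_nonneg _).trans hx)

private theorem ap {x y a b : ℝ} (hx : |x| ≤ a) (hy : |y| ≤ b) : |x + y| ≤ a + b :=
  (abs_add_le _ _).trans (add_le_add hx hy)

private theorem as' {x y a b : ℝ} (hx : |x| ≤ a) (hy : |y| ≤ b) : |x - y| ≤ a + b := by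
  rw [sub_eq_add_neg]
  exact ap hx (by rw [abs_neg]; exact hy)

private theorem quad_le {A B D a b d : ℝ} (hA : |A| ≤ a) (hB : |B| ≤ b) (hD : |D| ≤ d)
    (v w : ℝ) : A * v ^ 2 + 2 * B * v * w + D * w ^ 2 ≤ (a + b + d) * (v ^ 2 + w ^ 2) := by
  have h1 : A * v ^ 2 ≤ a * v ^ 2 := mul_le_mul_of_nonneg_right ((le_abs_self A).trans hA) (sq_nonneg v)
  have h2 : D * w ^ 2 ≤ d * w ^ 2 := mul_le_mul_of_nonneg_right ((le_abs_self D).trans hD) (sq_nonneg w)
  have ha : 0 ≤ a := (abs_nonneg _).trans hA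
  have hd : 0 ≤ d := (abs_nonneg _).trans hD
  have hb : 0 ≤ b := (abs_nonneg _).trans hB
  have h3 : 2 * B * v * w ≤ b * (v ^ 2 + w ^ 2) := by
    rw [abs_le] at hB
    have h4 : 0 ≤ (b - B) * (v + w) ^ 2 := mul_nonneg (by linarith) (sq_nonneg _)
    have h5 : 0 ≤ (b + B) * (v - w) ^ 2 := mul_nonneg (by linarith) (sq_nonneg _)
    nlinarith only [h4, h5]
  have h6 : 0 ≤ a * w ^ 2 := mul_nonneg ha (sq_nonneg w)
  have h7 : 0 ≤ d * v ^ 2 := mul_nonneg hd (sq_nonneg v)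
  nlinarith only [h1, h2, h3, h6, h7]

private theorem polar_alg {M ph R s c w wR wt qR qt qRR qRt qtt J : ℝ} (hM : 1 ≤ M)
    (hph : 0 < ph) (hphM : ph * M ≤ 1 / 100) (hR : 9 / 20 < R) (hR' : R < 11 / 10)
    (hs : |s| ≤ 1) (hc : |c| ≤ 1) (hw : |w| ≤ M) (hwR : |wR| ≤ M) (hwt : |wt| ≤ M)
    (hqR : |qR| ≤ M) (hqt : |qt| ≤ M) (hqRR : |qRR| ≤ M) (hqRt : |qRt| ≤ M)
    (hqtt : |qtt| ≤ M) (hJ : J = R - ph * w) (v u : ℝ) :
    (ph * qRR) * v ^ 2 + 2 * ((c + ph * qRt - (1 - ph * wR) / J * (R * c + ph * qt)) / J) * v * u +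
      ((-(R * s) + ph * qtt - (-(ph * wt)) / J * (R * c + ph * qt)) / J ^ 2 +
        (1 - ph * wR) / J * (s + ph * qR)) * u ^ 2 ≤ 60 * M * ph * (v ^ 2 + u ^ 2) := by
  have hphw : |ph * w| ≤ 1 / 100 := by
    rw [abs_mul, abs_of_pos hph]
    exact (mul_le_mul_of_nonneg_left hw hph.le).trans hphM
  have hphwR : |ph * wR| ≤ 1 / 100 := by
    rw [abs_mul, abs_of_pos hph]
    exact (mul_le_mul_of_nonneg_left hwR hph.le).trans hphM
  have hphqt : |ph * qt| ≤ 1 / 100 := by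
    rw [abs_mul, abs_of_pos hph]
    exact (mul_le_mul_of_nonneg_left hqt hph.le).trans hphM
  have hJ1 : 2 / 5 ≤ J := by
    rw [abs_le] at hphw
    linarith only [hJ, hR, hphw, hphw.2]
  have hJ0 : J ≠ 0 := by linarith only [hJ1]
  obtain ⟨i, hi⟩ : ∃ i, i = J⁻¹ := ⟨_, rfl⟩
  have hi0 : 0 < i := by rw [hi]; exact inv_pos.2 (by linarith only [hJ1])
  have hi1 : i * J = 1 := by rw [hi]; exact inv_mul_cancel₀ hJ0
  have hi2 : i ≤ 5 / 2 := by
    rw [hi, inv_le_comm₀ (by linarith only [hJ1]) (by norm_num)]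
    norm_num
    linarith only [hJ1]
  have hia : |i| ≤ 5 / 2 := by rw [abs_of_pos hi0]; exact hi2
  have hi3 : i * (R - ph * w) = 1 := by rw [← hJ]; exact hi1
  have hRa : |R| ≤ 11 / 10 := by rw [abs_of_pos (by linarith only [hR])]; exact hR'.le
  have hia2 : |i ^ 2| ≤ 25 / 4 := by
    rw [abs_of_nonneg (sq_nonneg i)]
    nlinarith only [hJ1, hi0, hi1, hi2]
  -- the entries
  have hB : (c + ph * qRt - (1 - ph * wR) / J * (R * c + ph * qt)) / J =
      ph * (i * (qRt - c * (w - R * wR) * i - (1 - ph * wR) * i * qt)) := by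
    rw [div_eq_mul_inv, div_eq_mul_inv, ← hi]
    linear_combination (-(c * i)) * hi3
  have hD : (-(R * s) + ph * qtt - (-(ph * wt)) / J * (R * c + ph * qt)) / J ^ 2 +
        (1 - ph * wR) / J * (s + ph * qR) =
      ph * ((qtt + wt * i * (R * c + ph * qt)) * i ^ 2 - w * s * i ^ 2 - wR * s * i +
        (1 - ph * wR) * i * qR) := by
    rw [div_eq_mul_inv, div_eq_mul_inv, div_eq_mul_inv, ← inv_pow, ← hi]
    linear_combination (-(s * i)) * hi3
  have h1R : |1 - ph * wR| ≤ 101 / 100 := by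
    have := as' (x := 1) (a := 1) (by rw [abs_one]) hphwR
    linarith only [this]
  have bB : |i * (qRt - c * (w - R * wR) * i - (1 - ph * wR) * i * qt)| ≤ 23 * M := by
    have z1 := am hia (as' (as' hqRt (am (am hc (as' hw (am hRa hwR))) hia))
      (am (am h1R hia) hqt))
    refine z1.trans ?_
    nlinarith only [hM]
  have bD : |(qtt + wt * i * (R * c + ph * qt)) * i ^ 2 - w * s * i ^ 2 - wR * s * i +
        (1 - ph * wR) * i * qR| ≤ 36 * M := by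
    have z1 := ap (as' (as' (am (ap hqtt (am (am hwt hia) (ap (am hRa hc) hphqt))) hia2)
      (am (am hw hs) hia2)) (am (am hwR hs) hia)) (am (am h1R hia) hqR)
    refine z1.trans ?_
    nlinarith only [hM]
  rw [hB, hD]
  have z := quad_le hqRR bB bD v u
  have z2 := mul_le_mul_of_nonneg_left z hph.le
  nlinarith only [z2, z2]

private theorem aa_mem : 0 < aa ∧ aa < 1 / 100 := by
  unfold aa bb lam
  have h1 : (1:ℝ) < √2 := by
    rw [Real.lt_sqrt (by norm_num)]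
    norm_num
  have h2 : 3 / √2 < 3 := by
    rw [div_lt_iff₀ (by linarith)]
    linarith
  constructor
  · positivity
  · linarith

private theorem core_polar {q W : ℝ → ℝ → ℝ → ℝ} {U : Set (ℝ × ℝ × ℝ)} (hU : IsOpen U)
    (hq : ContDiffOn ℝ ∞ (fun p : ℝ × ℝ × ℝ => q p.1 p.2.1 p.2.2) U)
    (hW : ContDiffOn ℝ ∞ (fun p : ℝ × ℝ × ℝ => W p.1 p.2.1 p.2.2) U) {e R t ph M : ℝ}
    (hp : (e, R, t) ∈ U) (hM : 1 ≤ M) (bq : Bd (q e) M R t) (bW : Bd (W e) M R t)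
    (hR : 9 / 20 < R) (hR' : R < 11 / 10) (hY : 1 / 100 < R * sin t) (hph : 0 < ph)
    (hphM : ph * M ≤ 1 / 100) (hq0 : 0 ≤ q e R t) :
    TI (fun R t => 1 * R + (-ph) * W e R t) (fun R t => aa * (R * sin t) + (aa * ph) * q e R t) 1
      (6100 * M * ph) R t := by
  obtain ⟨ha0, ha1⟩ := aa_mem
  have hfst : ContDiffOn ℝ ∞ (fun p : ℝ × ℝ × ℝ => (fun _ x _ => x : ℝ → ℝ → ℝ → ℝ) p.1 p.2.1 p.2.2) U :=
    (contDiff_fst.comp contDiff_snd).contDiffOn
  have hrs : ContDiffOn ℝ ∞ (fun p : ℝ × ℝ × ℝ =>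
      (fun _ x y => x * sin y : ℝ → ℝ → ℝ → ℝ) p.1 p.2.1 p.2.2) U :=
    ((contDiff_fst.comp contDiff_snd).mul
      (Real.contDiff_sin.comp (contDiff_snd.comp contDiff_snd))).contDiffOn
  have J1 := lin1 (F := fun _ x _ => x) (G := W) hU hfst hW 1 (-ph) hp
  have J2 := lin2 (F := fun _ x _ => x) (G := W) hU hfst hW 1 (-ph) hp
  have J11 := lin11 (F := fun _ x _ => x) (G := W) hU hfst hW 1 (-ph) hp
  have f1 := lin1 (F := fun _ x y => x * sin y) (G := q) hU hrs hq aa (aa * ph) hp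
  have f2 := lin2 (F := fun _ x y => x * sin y) (G := q) hU hrs hq aa (aa * ph) hp
  have f11 := lin11 (F := fun _ x y => x * sin y) (G := q) hU hrs hq aa (aa * ph) hp
  have f12 := lin12 (F := fun _ x y => x * sin y) (G := q) hU hrs hq aa (aa * ph) hp
  have f22 := lin22 (F := fun _ x y => x * sin y) (G := q) hU hrs hq aa (aa * ph) hp
  obtain ⟨g1, g2, g11⟩ := fst_D R t
  obtain ⟨k1, k2, k11, k12, k22⟩ := rs_D R t
  simp only at J1 J2 J11 f1 f2 f11 f12 f22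
  rw [g1] at J1
  rw [g2] at J2
  rw [g11] at J11
  rw [k1] at f1
  rw [k2] at f2
  rw [k11] at f11
  rw [k12] at f12
  rw [k22] at f22
  obtain ⟨J, hJ⟩ : ∃ J, J = R - ph * W e R t := ⟨_, rfl⟩
  have hJe : 1 * R + (-ph) * W e R t = J := by rw [hJ]; ring
  have hphw : |ph * W e R t| ≤ 1 / 100 := by
    rw [abs_mul, abs_of_pos hph]
    exact (mul_le_mul_of_nonneg_left bW.b0 hph.le).trans hphM
  have hJ1 : 2 / 5 ≤ J := by
    rw [abs_le] at hphw
    linarith only [hJ, hR, ha0, ha1, hphw, hphw.2]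
  have hJ0 : 0 < J := by linarith only [hJ1, ha0, ha1]
  have hK : |ph * D11 (W e) R t / J| ≤ 5 / 2 * (M * ph) := by
    rw [abs_div, abs_of_pos hJ0, div_le_iff₀ hJ0, abs_mul, abs_of_pos hph]
    have h1 := mul_le_mul_of_nonneg_left bW.b11 hph.le
    have h2 : 0 ≤ M * ph := by positivity
    nlinarith only [h1, h2, hJ1, ha0, ha1]
  have hK' := abs_le.1 hK
  have hKe : -(D11 (fun R t => 1 * R + (-ph) * W e R t) R t / (1 * R + (-ph) * W e R t)) =
      ph * D11 (W e) R t / J := by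
    rw [J11, hJe]
    ring
  refine ⟨?_, ?_, ?_, ?_, ?_, ?_⟩
  · show 0 < 1 * R + (-ph) * W e R t
    rw [hJe]
    exact hJ0
  · show 0 < aa * (R * sin t) + (aa * ph) * q e R t
    have h1 : 0 < aa * (R * sin t) := mul_pos ha0 (by linarith only [hY, ha0, ha1])
    have h2 : 0 ≤ aa * ph * q e R t := by positivity
    linarith only [h1, h2]
  · show -1 ≤ -(D11 (fun R t => 1 * R + (-ph) * W e R t) R t / (1 * R + (-ph) * W e R t))
    rw [hKe]
    nlinarith only [hK', ha0, ha1, hphM, hK'.1]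
  · show -(D11 (fun R t => 1 * R + (-ph) * W e R t) R t / (1 * R + (-ph) * W e R t)) ≤ 6100 * M * ph
    rw [hKe]
    have h2 : 0 ≤ M * ph := by positivity
    nlinarith only [hK', hK'.2]
  · intro v u
    show D11 (fun R t => aa * (R * sin t) + (aa * ph) * q e R t) R t * v ^ 2 +
      2 * ((D12 (fun R t => aa * (R * sin t) + (aa * ph) * q e R t) R t -
        D1 (fun R t => 1 * R + (-ph) * W e R t) R t / (1 * R + (-ph) * W e R t) *
        D2 (fun R t => aa * (R * sin t) + (aa * ph) * q e R t) R t) /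
        (1 * R + (-ph) * W e R t)) * v * u +
      ((D22 (fun R t => aa * (R * sin t) + (aa * ph) * q e R t) R t -
        D2 (fun R t => 1 * R + (-ph) * W e R t) R t / (1 * R + (-ph) * W e R t) *
        D2 (fun R t => aa * (R * sin t) + (aa * ph) * q e R t) R t) /
        (1 * R + (-ph) * W e R t) ^ 2 +
        D1 (fun R t => 1 * R + (-ph) * W e R t) R t / (1 * R + (-ph) * W e R t) *
        D1 (fun R t => aa * (R * sin t) + (aa * ph) * q e R t) R t) * u ^ 2 ≤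
      (-(D11 (fun R t => 1 * R + (-ph) * W e R t) R t / (1 * R + (-ph) * W e R t)) / 2 +
        6100 * M * ph) * (aa * (R * sin t) + (aa * ph) * q e R t) * (v ^ 2 + u ^ 2)
    rw [hKe, J1, J2, f1, f2, f11, f12, f22, hJe]
    have z := polar_alg (M := M) (ph := ph) (R := R) (s := sin t) (c := cos t) (w := W e R t)
      (wR := D1 (W e) R t) (wt := D2 (W e) R t) (qR := D1 (q e) R t)
      (qt := D2 (q e) R t) (qRR := D11 (q e) R t) (qRt := D12 (q e) R t) (qtt := D22 (q e) R t)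
      hM hph hphM hR hR' (Real.abs_sin_le_one t) (Real.abs_cos_le_one t) bW.b0 bW.b1
      bW.b2 bq.b1 bq.b2 bq.b11 bq.b12 bq.b22 hJ v u
    have z2 := mul_le_mul_of_nonneg_left z ha0.le
    have z3 : aa * (60 * M * ph * (v ^ 2 + u ^ 2)) ≤ (ph * D11 (W e) R t / J / 2 +
        6100 * M * ph) * (aa * (R * sin t) + (aa * ph) * q e R t) * (v ^ 2 + u ^ 2) := by
      have h2 : 0 < M * ph := by positivity
      have h3 : 6000 * (M * ph) ≤ ph * D11 (W e) R t / J / 2 + 6100 * M * ph := by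
        nlinarith only [hK', hK'.1]
      have h4 : aa * (1 / 100) ≤ aa * (R * sin t) + (aa * ph) * q e R t := by
        have h5 : aa * (1 / 100) ≤ aa * (R * sin t) := mul_le_mul_of_nonneg_left hY.le ha0.le
        have h6 : 0 ≤ aa * ph * q e R t := by positivity
        linarith only [h5, h6]
      have h5 := mul_le_mul h3 h4 (by positivity) (by linarith only [hK'])
      have h6 := mul_le_mul_of_nonneg_right h5 (by (clear * -; positivity) : 0 ≤ v ^ 2 + u ^ 2)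
      refine (le_of_eq ?_).trans h6
      ring
    refine (le_of_eq ?_).trans (z2.trans z3)
    field_simp
    ring
  · show (D1 (fun R t => aa * (R * sin t) + (aa * ph) * q e R t) R t) ^ 2 +
      (D2 (fun R t => aa * (R * sin t) + (aa * ph) * q e R t) R t) ^ 2 /
        (1 * R + (-ph) * W e R t) ^ 2 ≤ 1
    rw [f1, f2, hJe]
    have h1 : |aa * sin t + aa * ph * D1 (q e) R t| ≤ 2 / 100 := by
      have e1 : aa * sin t + aa * ph * D1 (q e) R t = aa * (sin t + ph * D1 (q e) R t) := by ring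
      rw [e1]
      have h3 : |ph * D1 (q e) R t| ≤ 1 / 100 := by
        rw [abs_mul, abs_of_pos hph]
        exact (mul_le_mul_of_nonneg_left bq.b1 hph.le).trans hphM
      have h4 := am (x := aa) (a := 1 / 100) (by rw [abs_of_pos ha0]; exact ha1.le)
        (ap (Real.abs_sin_le_one t) h3)
      refine h4.trans ?_
      norm_num
    have h2 : |aa * (R * cos t) + aa * ph * D2 (q e) R t| ≤ 2 / 100 := by
      have e1 : aa * (R * cos t) + aa * ph * D2 (q e) R t = aa * (R * cos t + ph * D2 (q e) R t) := by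
        ring
      rw [e1]
      have h3 : |ph * D2 (q e) R t| ≤ 1 / 100 := by
        rw [abs_mul, abs_of_pos hph]
        exact (mul_le_mul_of_nonneg_left bq.b2 hph.le).trans hphM
      have h4 := am (x := aa) (a := 1 / 100) (by rw [abs_of_pos ha0]; exact ha1.le)
        (ap (am (x := R) (a := 11 / 10) (by rw [abs_of_pos (by linarith only [hR, ha0, ha1])]; exact hR'.le)
          (Real.abs_cos_le_one t)) h3)
      refine h4.trans ?_
      norm_num
    have h5 : (aa * sin t + aa * ph * D1 (q e) R t) ^ 2 ≤ (2 / 100) ^ 2 := sq_le_sq' (abs_le.1 h1).1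
      (abs_le.1 h1).2
    have h6 : (aa * (R * cos t) + aa * ph * D2 (q e) R t) ^ 2 ≤ (2 / 100) ^ 2 :=
      sq_le_sq' (abs_le.1 h2).1 (abs_le.1 h2).2
    have h7 : (aa * (R * cos t) + aa * ph * D2 (q e) R t) ^ 2 / J ^ 2 ≤ 1 / 2 := by
      rw [div_le_iff₀ (by positivity)]
      nlinarith only [h6, hJ1, ha0, ha1]
    nlinarith only [h5, h7, ha0, ha1]

private theorem core_flat {q : ℝ → ℝ → ℝ → ℝ} {U : Set (ℝ × ℝ × ℝ)} (hU : IsOpen U)
    (hq : ContDiffOn ℝ ∞ (fun p : ℝ × ℝ × ℝ => q p.1 p.2.1 p.2.2) U) {e X Y ph M : ℝ}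
    (hp : (e, X, Y) ∈ U) (hM : 1 ≤ M) (bq : Bd (q e) M X Y) (hY : 1 / 100 < Y) (hph : 0 < ph)
    (hphM : ph * M ≤ 1 / 100) (hq0 : 0 ≤ q e X Y) :
    TI (fun _ _ => 1) (fun X Y => aa * Y + (aa * ph) * q e X Y) 1 (6100 * M * ph) X Y := by
  obtain ⟨ha0, ha1⟩ := aa_mem
  have hsnd : ContDiffOn ℝ ∞ (fun p : ℝ × ℝ × ℝ => (fun _ _ y => y : ℝ → ℝ → ℝ → ℝ) p.1 p.2.1 p.2.2) U :=
    (contDiff_snd.comp contDiff_snd).contDiffOn
  have f1 := lin1 (F := fun _ _ y => y) (G := q) hU hsnd hq aa (aa * ph) hp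
  have f2 := lin2 (F := fun _ _ y => y) (G := q) hU hsnd hq aa (aa * ph) hp
  have f11 := lin11 (F := fun _ _ y => y) (G := q) hU hsnd hq aa (aa * ph) hp
  have f12 := lin12 (F := fun _ _ y => y) (G := q) hU hsnd hq aa (aa * ph) hp
  have f22 := lin22 (F := fun _ _ y => y) (G := q) hU hsnd hq aa (aa * ph) hp
  obtain ⟨g1, g2, g11⟩ := one_D X Y
  obtain ⟨k1, k2, k11, k12, k22⟩ := snd_D X Y
  simp only at f1 f2 f11 f12 f22
  rw [k1] at f1
  rw [k2] at f2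
  rw [k11] at f11
  rw [k12] at f12
  rw [k22] at f22
  have h2 : 0 < M * ph := by positivity
  refine ⟨one_pos, ?_, ?_, ?_, ?_, ?_⟩
  · show 0 < aa * Y + (aa * ph) * q e X Y
    have h1 : 0 < aa * Y := mul_pos ha0 (by linarith only [hY, ha0, ha1])
    have h2 : 0 ≤ aa * ph * q e X Y := by positivity
    linarith
  · rw [g11]
    norm_num
  · rw [g11]
    norm_num
    nlinarith only [h2]
  · intro v u
    show D11 (fun X Y => aa * Y + (aa * ph) * q e X Y) X Y * v ^ 2 +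
      2 * ((D12 (fun X Y => aa * Y + (aa * ph) * q e X Y) X Y -
        D1 (fun _ _ => (1:ℝ)) X Y / 1 * D2 (fun X Y => aa * Y + (aa * ph) * q e X Y) X Y) / 1) *
        v * u +
      ((D22 (fun X Y => aa * Y + (aa * ph) * q e X Y) X Y -
        D2 (fun _ _ => (1:ℝ)) X Y / 1 * D2 (fun X Y => aa * Y + (aa * ph) * q e X Y) X Y) / 1 ^ 2 +
        D1 (fun _ _ => (1:ℝ)) X Y / 1 * D1 (fun X Y => aa * Y + (aa * ph) * q e X Y) X Y) * u ^ 2 ≤
      (-(D11 (fun _ _ => (1:ℝ)) X Y / 1) / 2 + 6100 * M * ph) *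
        (aa * Y + (aa * ph) * q e X Y) * (v ^ 2 + u ^ 2)
    rw [g1, g2, g11, f1, f2, f11, f12, f22]
    have z := quad_le bq.b11 bq.b12 bq.b22 v u
    have z2 := mul_le_mul_of_nonneg_left z (mul_pos ha0 hph).le
    have h4 : aa * (1 / 100) ≤ aa * Y + (aa * ph) * q e X Y := by
      have h5 : aa * (1 / 100) ≤ aa * Y := mul_le_mul_of_nonneg_left hY.le ha0.le
      have h6 : 0 ≤ aa * ph * q e X Y := by positivity
      linarith
    have h5 := mul_le_mul_of_nonneg_left h4 (by positivity : 0 ≤ 6100 * M * ph)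
    have h6 := mul_le_mul_of_nonneg_right h5 (by positivity : 0 ≤ v ^ 2 + u ^ 2)
    have h7 : aa * ph * ((M + M + M) * (v ^ 2 + u ^ 2)) ≤
        6100 * M * ph * (aa * (1 / 100)) * (v ^ 2 + u ^ 2) := by
      have h8 : 0 ≤ aa * ph * M * (v ^ 2 + u ^ 2) := by (clear * - hM ha0 hph; positivity)
      nlinarith only [h8]
    have h9 : (-((0:ℝ) / 1) / 2 + 6100 * M * ph) = 6100 * M * ph := by ring
    rw [h9]
    refine (le_of_eq ?_).trans (z2.trans (h7.trans h6))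
    ring
  · show (D1 (fun X Y => aa * Y + (aa * ph) * q e X Y) X Y) ^ 2 +
      (D2 (fun X Y => aa * Y + (aa * ph) * q e X Y) X Y) ^ 2 / (1:ℝ) ^ 2 ≤ 1
    rw [f1, f2]
    have h3 : |ph * D1 (q e) X Y| ≤ 1 / 100 := by
      rw [abs_mul, abs_of_pos hph]
      exact (mul_le_mul_of_nonneg_left bq.b1 hph.le).trans hphM
    have h3' : |ph * D2 (q e) X Y| ≤ 1 / 100 := by
      rw [abs_mul, abs_of_pos hph]
      exact (mul_le_mul_of_nonneg_left bq.b2 hph.le).trans hphM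
    have h1 : |aa * 0 + aa * ph * D1 (q e) X Y| ≤ 2 / 100 := by
      have e1 : aa * 0 + aa * ph * D1 (q e) X Y = aa * (ph * D1 (q e) X Y) := by ring
      rw [e1]
      have h4 := am (x := aa) (a := 1 / 100) (by rw [abs_of_pos ha0]; exact ha1.le) h3
      refine h4.trans ?_
      norm_num
    have h2 : |aa * 1 + aa * ph * D2 (q e) X Y| ≤ 2 / 100 := by
      have e1 : aa * 1 + aa * ph * D2 (q e) X Y = aa * (1 + ph * D2 (q e) X Y) := by
        ring
      rw [e1]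
      have h4 := am (x := aa) (a := 1 / 100) (by rw [abs_of_pos ha0]; exact ha1.le)
        (ap (x := 1) (a := 1) (by rw [abs_one]) h3')
      refine h4.trans ?_
      norm_num
    have h5 : (aa * 0 + aa * ph * D1 (q e) X Y) ^ 2 ≤ (2 / 100) ^ 2 := sq_le_sq' (abs_le.1 h1).1
      (abs_le.1 h1).2
    have h6 : (aa * 1 + aa * ph * D2 (q e) X Y) ^ 2 ≤ (2 / 100) ^ 2 :=
      sq_le_sq' (abs_le.1 h2).1 (abs_le.1 h2).2
    rw [one_pow, div_one]
    norm_num at h5 h6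
    linarith only [h5, h6, ha0, ha1]

/-- the conditions only depend on the germs of `J`, `f` -/
private theorem TI_congr' {J f J' f' : ℝ → ℝ → ℝ} {K0 k x y : ℝ} (h : TI J f K0 k x y)
    (h1 : ∀ᶠ p : ℝ × ℝ in 𝓝 (x, y), J p.1 p.2 = J' p.1 p.2)
    (h2 : ∀ᶠ p : ℝ × ℝ in 𝓝 (x, y), f p.1 p.2 = f' p.1 p.2) : TI J' f' K0 k x y := by
  have c1 : ∀ x y : ℝ, Tendsto (fun r : ℝ => (r, y)) (𝓝 x) (𝓝 (x, y)) := fun x y =>
    (Continuous.prodMk continuous_id continuous_const).tendsto x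
  have c2 : ∀ x y : ℝ, Tendsto (fun r : ℝ => (x, r)) (𝓝 y) (𝓝 (x, y)) := fun x y =>
    (Continuous.prodMk continuous_const continuous_id).tendsto y
  have d1 : ∀ {F G : ℝ → ℝ → ℝ} {x y : ℝ}, (∀ᶠ p : ℝ × ℝ in 𝓝 (x, y), F p.1 p.2 = G p.1 p.2) →
      D1 F x y = D1 G x y := by
    intro F G x y hFG
    unfold D1
    exact Filter.EventuallyEq.deriv_eq ((c1 x y).eventually hFG)
  have d2 : ∀ {F G : ℝ → ℝ → ℝ} {x y : ℝ}, (∀ᶠ p : ℝ × ℝ in 𝓝 (x, y), F p.1 p.2 = G p.1 p.2) →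
      D2 F x y = D2 G x y := by
    intro F G x y hFG
    unfold D2
    exact Filter.EventuallyEq.deriv_eq ((c2 x y).eventually hFG)
  have g1 : ∀ {F G : ℝ → ℝ → ℝ} {x y : ℝ}, (∀ᶠ p : ℝ × ℝ in 𝓝 (x, y), F p.1 p.2 = G p.1 p.2) →
      ∀ᶠ p : ℝ × ℝ in 𝓝 (x, y), D1 F p.1 p.2 = D1 G p.1 p.2 := by
    intro F G x y hFG
    filter_upwards [hFG.eventually_nhds] with p hp
    exact d1 hp
  have g2 : ∀ {F G : ℝ → ℝ → ℝ} {x y : ℝ}, (∀ᶠ p : ℝ × ℝ in 𝓝 (x, y), F p.1 p.2 = G p.1 p.2) →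
      ∀ᶠ p : ℝ × ℝ in 𝓝 (x, y), D2 F p.1 p.2 = D2 G p.1 p.2 := by
    intro F G x y hFG
    filter_upwards [hFG.eventually_nhds] with p hp
    exact d2 hp
  have z1 : J x y = J' x y := h1.self_of_nhds
  have z2 : f x y = f' x y := h2.self_of_nhds
  have z3 : D1 J x y = D1 J' x y := d1 h1
  have z4 : D2 J x y = D2 J' x y := d2 h1
  have z5 : D1 f x y = D1 f' x y := d1 h2
  have z6 : D2 f x y = D2 f' x y := d2 h2
  have z7 : D11 J x y = D11 J' x y := d1 (g1 h1)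
  have z8 : D11 f x y = D11 f' x y := d1 (g1 h2)
  have z9 : D12 f x y = D12 f' x y := d1 (g2 h2)
  have z10 : D22 f x y = D22 f' x y := d2 (g2 h2)
  obtain ⟨a1, a2, a3, a4, a5, a6⟩ := h
  rw [z1] at a1
  rw [z2] at a2
  rw [z7, z1] at a3 a4
  rw [z5, z6, z1] at a6
  refine ⟨a1, a2, a3, a4, fun v w => ?_, a6⟩
  have h3 := a5 v w
  rw [z1, z2, z3, z4, z5, z6, z7, z8, z9, z10] at h3
  exact h3

/-! ## the explicit `q` -/

private theorem lampos : 0 < lam := by unfold lam; norm_num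

private def Eta (ph : ℝ) : ℝ := epsh ph / (lam * ph)

private theorem Eta_mem {ph : ℝ} (h : 0 < ph) (h1 : ph ≤ 1 / 2) : 0 < Eta ph ∧ Eta ph ≤ 1 := by
  have h3 := epsh_pos h
  have h4 := epsh_le h h1
  have hl := lampos
  unfold Eta
  constructor
  · positivity
  · rw [div_le_one (by positivity)]
    unfold lam
    linarith

private theorem Eta_mul {ph : ℝ} (h : 0 < ph) : ph * Eta ph = epsh ph / lam := by
  unfold Eta
  have hl := lampos
  field_simp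

private def qpol (y0 e R t : ℝ) : ℝ :=
  (1 - st (2 * R - 1) * st (R * sin t / y0 - 1)) * (e + Gam t * R ^ (1 - cc))

private def Wpol (_e R t : ℝ) : ℝ := (1 - st (2 * R - 1)) * mf t * R ^ (1 - cc)

private def Upol : Set (ℝ × ℝ × ℝ) := {p | 0 < p.2.1}

private theorem Upol_open : IsOpen Upol := isOpen_lt continuous_const continuous_snd.fst

private theorem x_cd : ContDiff ℝ ∞ (fun p : ℝ × ℝ × ℝ => p.2.1) := contDiff_fst.comp contDiff_snd

private theorem y_cd : ContDiff ℝ ∞ (fun p : ℝ × ℝ × ℝ => p.2.2) := contDiff_snd.comp contDiff_snd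

private theorem pow_cd : ContDiffOn ℝ ∞ (fun p : ℝ × ℝ × ℝ => p.2.1 ^ (1 - cc)) Upol := by
  intro p hp
  exact (x_cd.contDiffAt.rpow_const_of_ne (ne_of_gt hp)).contDiffWithinAt

private theorem st_cd : ContDiff ℝ ∞ (fun p : ℝ × ℝ × ℝ => st (2 * p.2.1 - 1)) :=
  st_contDiff.comp ((contDiff_const.mul x_cd).sub contDiff_const)

private theorem qpol_cd (y0 : ℝ) :
    ContDiffOn ℝ ∞ (fun p : ℝ × ℝ × ℝ => qpol y0 p.1 p.2.1 p.2.2) Upol := by
  have h1 : ContDiff ℝ ∞ (fun p : ℝ × ℝ × ℝ => st (p.2.1 * sin p.2.2 / y0 - 1)) :=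
    st_contDiff.comp (((x_cd.mul (Real.contDiff_sin.comp y_cd)).div_const y0).sub contDiff_const)
  have h2 : ContDiff ℝ ∞ (fun p : ℝ × ℝ × ℝ => Gam p.2.2) := Gam_contDiff.comp y_cd
  exact ((contDiff_const.sub (st_cd.mul h1)).contDiffOn).mul
    (contDiff_fst.contDiffOn.add (h2.contDiffOn.mul pow_cd))

private theorem Wpol_cd : ContDiffOn ℝ ∞ (fun p : ℝ × ℝ × ℝ => Wpol p.1 p.2.1 p.2.2) Upol := by
  have h2 : ContDiff ℝ ∞ (fun p : ℝ × ℝ × ℝ => mf p.2.2) := mf_contDiff.comp y_cd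
  exact (((contDiff_const.sub st_cd).mul h2).contDiffOn).mul pow_cd

private theorem QL_polar {ph R t y0 : ℝ} (h : 0 < ph) (h1 : ph ≤ 1 / 2) (hR : 1 / 4 ≤ R)
    (hR' : R < 6 / 5) (h0 : 0 < t) (ht : t < π)
    (hs : ((0 < cos t ∨ 1 / 5 ≤ R * sin t) ∧ y0 = 1 / 10) ∨ (cos t < 0 ∧ y0 = 1 / 20)) :
    QL ph (R * cos t) (R * sin t) = ph * qpol y0 (Eta ph) R t := by
  have hR0 : 0 < R := by linarith
  have hsin : 0 < sin t := Real.sin_pos_of_pos_of_lt_pi h0 ht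
  have hY : 0 < R * sin t := mul_pos hR0 hsin
  have hr := rad_polar (t := t) hR0
  have ha := ang_polar (t := t) hR0 h0.le ht.le
  have hQ := QN_outer (X := R * cos t) h h1 hY (by rw [hr]; exact hR)
  rw [hr, ha] at hQ
  have hpow : R ^ (1 - cc) ≤ 6 / 5 := by
    have hcc : cc = 1 / 10000000 := rfl
    have h5 : R ^ (1 - cc) ≤ (6 / 5 : ℝ) ^ (1 - cc) :=
      Real.rpow_le_rpow hR0.le hR'.le (by rw [hcc]; norm_num)
    have h6 : (6 / 5 : ℝ) ^ (1 - cc) ≤ (6 / 5 : ℝ) ^ (1 : ℝ) :=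
      Real.rpow_le_rpow_of_exponent_le (by norm_num) (by rw [hcc]; norm_num)
    rw [Real.rpow_one] at h6
    exact h5.trans h6
  have hpow0 : 0 < R ^ (1 - cc) := Real.rpow_pos_of_pos hR0 _
  have hG := Gam_ge h0.le ht.le
  have hG' := Gam_le h0.le ht.le
  have hz : 4 * ph ≤ zsd ph (R * cos t) := by
    unfold zsd
    split_ifs <;> linarith
  have hmn : mnf (QN (epsh ph) (R * cos t) (R * sin t)) (zsd ph (R * cos t)) =
      QN (epsh ph) (R * cos t) (R * sin t) := by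
    apply mnf_eq_left (by linarith)
    rw [hQ]
    have h5 : Gam t * R ^ (1 - cc) ≤ 3 / 2 * (6 / 5) := mul_le_mul hG' hpow hpow0.le (by norm_num)
    have h6 := mul_le_mul_of_nonneg_left h5 h.le
    have h7 := epsh_le h h1
    have h8 : epsh ph / lam = 1000 * epsh ph := by
      unfold lam
      ring
    rw [h8]
    linarith only [h, h6, h7, hz]
  have hst : st (R * sin t / ysd (R * cos t) - 1) = st (R * sin t / y0 - 1) := by
    rcases hs with ⟨hc | hc, rfl⟩ | ⟨hc, rfl⟩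
    · have : ysd (R * cos t) = 1 / 10 := if_neg (not_lt.2 (mul_pos hR0 hc).le)
      rw [this]
    · have h5 : 1 ≤ R * sin t / (1 / 10) - 1 := by
        have : R * sin t / (1 / 10) = 10 * (R * sin t) := by ring
        rw [this]; linarith only [hc]
      have h6 : 1 ≤ R * sin t / ysd (R * cos t) - 1 := by
        have h7 : 2 ≤ R * sin t / ysd (R * cos t) := by
          unfold ysd
          split_ifs
          · have : R * sin t / (1 / 20) = 20 * (R * sin t) := by ring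
            rw [this]; linarith only [hY, hc]
          · have : R * sin t / (1 / 10) = 10 * (R * sin t) := by ring
            rw [this]; linarith only [hc]
        linarith
      rw [st_one h5, st_one h6]
    · have : ysd (R * cos t) = 1 / 20 := if_pos (mul_neg_of_pos_of_neg hR0 hc)
      rw [this]
  unfold QL qpol
  rw [hmn, hQ, hst, hr, ← Eta_mul h]
  ring

private theorem fac_nonneg (a b : ℝ) : 0 ≤ 1 - st a * st b := by
  have h6 := mul_le_one₀ (st_le_one a) (st_nonneg b) (st_le_one b)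
  linarith

/-- zone 4: the cut-off zone in polar coordinates -/
theorem TI_cut_polar : ∃ C p0 : ℝ, 0 < C ∧ 0 < p0 ∧ p0 ≤ 1 / 1000000 ∧ ∀ ph : ℝ, 0 < ph → ph ≤ p0 →
    ∀ R t : ℝ, 9 / 20 < R → R < 11 / 10 → 0 < t → t < π → 1 / 100 < R * sin t →
    TI (JL ph) (fun R t => PhL ph (R * cos t) (R * sin t)) 1 (C * ph) R t := by
  have hK : IsCompact (Icc (0:ℝ) 1 ×ˢ (Icc (9 / 20 : ℝ) (11 / 10) ×ˢ Icc (0:ℝ) π)) :=
    isCompact_Icc.prod (isCompact_Icc.prod isCompact_Icc)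
  have hKU : Icc (0:ℝ) 1 ×ˢ (Icc (9 / 20 : ℝ) (11 / 10) ×ˢ Icc (0:ℝ) π) ⊆ Upol := by
    rintro p ⟨-, h2, -⟩
    show 0 < p.2.1
    linarith [h2.1]
  obtain ⟨M1, hM1, b1⟩ := exists_bd Upol_open (qpol_cd (1 / 10)) hK hKU
  obtain ⟨M2, hM2, b2⟩ := exists_bd Upol_open (qpol_cd (1 / 20)) hK hKU
  obtain ⟨M3, hM3, b3⟩ := exists_bd Upol_open Wpol_cd hK hKU
  obtain ⟨M, hMdef⟩ : ∃ M, M = M1 + M2 + M3 := ⟨_, rfl⟩
  have hM : 1 ≤ M := by linarith
  refine ⟨6100 * M, 1 / (1000000 * M), by positivity, by positivity, ?_, ?_⟩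
  · rw [div_le_div_iff₀ (by positivity) (by norm_num)]
    linarith
  intro ph h hph R t hR hR' h0 ht hY
  have hphM : ph * M ≤ 1 / 1000000 := by
    rw [le_div_iff₀ (by positivity)] at hph
    linarith
  have hph6 : ph ≤ 1 / 1000000 := by nlinarith only [h, hM1, hM2, hM3, hMdef, hphM]
  have hph1 : ph ≤ 1 / 2 := by linarith
  have hη := Eta_mem h hph1
  have hmemK : (Eta ph, R, t) ∈ Icc (0:ℝ) 1 ×ˢ (Icc (9 / 20 : ℝ) (11 / 10) ×ˢ Icc (0:ℝ) π) :=
    ⟨⟨hη.1.le, hη.2⟩, ⟨hR.le, hR'.le⟩, ⟨h0.le, ht.le⟩⟩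
  have bW : Bd (Wpol (Eta ph)) M R t := (b3 _ hmemK).mono (by linarith only [h, hM1, hM2, hMdef, hph6])
  -- neighbourhood conditions
  have ev1 : ∀ᶠ p : ℝ × ℝ in 𝓝 (R, t), 1 / 4 < p.1 :=
    (isOpen_lt continuous_const continuous_fst).mem_nhds (by
      show 1 / 4 < R
      linarith only [h, hR, hph6])
  have ev2 : ∀ᶠ p : ℝ × ℝ in 𝓝 (R, t), p.1 < 6 / 5 :=
    (isOpen_lt continuous_fst continuous_const).mem_nhds (by
      show R < 6 / 5
      linarith)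
  have ev3 : ∀ᶠ p : ℝ × ℝ in 𝓝 (R, t), 0 < p.2 :=
    (isOpen_lt continuous_const continuous_snd).mem_nhds h0
  have ev4 : ∀ᶠ p : ℝ × ℝ in 𝓝 (R, t), p.2 < π :=
    (isOpen_lt continuous_snd continuous_const).mem_nhds ht
  have hcs : Continuous (fun p : ℝ × ℝ => p.1 * sin p.2) := by fun_prop
  have hcc : Continuous (fun p : ℝ × ℝ => cos p.2) := by fun_prop
  have ev5 : ∀ᶠ p : ℝ × ℝ in 𝓝 (R, t), 1 / 200 < p.1 * sin p.2 :=
    (isOpen_lt continuous_const hcs).mem_nhds (by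
      show 1 / 200 < R * sin t
      linarith only [h, hY, hph6])
  have evJ : ∀ᶠ p : ℝ × ℝ in 𝓝 (R, t),
      (fun R t => 1 * R + (-ph) * Wpol (Eta ph) R t) p.1 p.2 = JL ph p.1 p.2 := by
    filter_upwards [ev1] with p p1
    show 1 * p.1 + (-ph) * Wpol (Eta ph) p.1 p.2 = JL ph p.1 p.2
    unfold JL Wpol
    rw [eps_Pf h hph1 p1.le]
    ring
  have key : ∀ y0 : ℝ, Bd (qpol y0 (Eta ph)) M R t →
      (∀ᶠ p : ℝ × ℝ in 𝓝 (R, t), ((0 < cos p.2 ∨ 1 / 5 ≤ p.1 * sin p.2) ∧ y0 = 1 / 10) ∨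
        (cos p.2 < 0 ∧ y0 = 1 / 20)) →
      TI (JL ph) (fun R t => PhL ph (R * cos t) (R * sin t)) 1 (6100 * M * ph) R t := by
    intro y0 bq hev
    have hq0 : 0 ≤ qpol y0 (Eta ph) R t := by
      unfold qpol
      apply mul_nonneg (fac_nonneg _ _)
      have hG := Gam_ge h0.le ht.le
      have hpow0 : 0 < R ^ (1 - cc) := Real.rpow_pos_of_pos (by linarith only [h, hR, hph6]) _
      have := hη.1
      have h7 : 0 < Gam t * R ^ (1 - cc) := mul_pos (by linarith only [h, hG, hph6]) hpow0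
      linarith only [h7, hη]
    have hTI := core_polar Upol_open (qpol_cd y0) Wpol_cd (hKU hmemK) hM bq bW hR hR' hY h
      (by linarith only [h, hph6, hphM]) hq0
    refine TI_congr' hTI evJ ?_
    filter_upwards [ev1, ev2, ev3, ev4, ev5, hev] with p p1 p2 p3 p4 p5 p6
    show aa * (p.1 * sin p.2) + (aa * ph) * qpol y0 (Eta ph) p.1 p.2 =
      PhL ph (p.1 * cos p.2) (p.1 * sin p.2)
    have hr := rad_polar (R := p.1) (t := p.2) (by linarith only [h, hph6, p1])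
    rw [PhL_far h hph6 (by rw [hr]; exact p1.le) p5.le, QL_polar h hph1 p1.le p2 p3 p4 p6]
    ring
  by_cases hcase : 0 < cos t ∨ 1 / 5 < R * sin t
  · apply key (1 / 10) ((b1 _ hmemK).mono (by linarith only [h, hM2, hM3, hMdef, hph6]))
    rcases hcase with hc | hc
    · have : ∀ᶠ p : ℝ × ℝ in 𝓝 (R, t), 0 < cos p.2 :=
        (isOpen_lt continuous_const hcc).mem_nhds hc
      filter_upwards [this] with p hp
      exact Or.inl ⟨Or.inl hp, rfl⟩
    · have : ∀ᶠ p : ℝ × ℝ in 𝓝 (R, t), 1 / 5 < p.1 * sin p.2 :=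
        (isOpen_lt continuous_const hcs).mem_nhds hc
      filter_upwards [this] with p hp
      exact Or.inl ⟨Or.inr hp.le, rfl⟩
  · push Not at hcase
    have hc : cos t < 0 := by
      rcases hcase.1.eq_or_lt with hc | hc
      · exfalso
        have h5 := Real.sin_sq_add_cos_sq t
        rw [hc] at h5
        have hsin : 0 < sin t := Real.sin_pos_of_pos_of_lt_pi h0 ht
        have h6 : sin t = 1 := by nlinarith only [h, h5, hM1, hM2, hM3, hMdef, hR, hY, hcase, hph6, hphM, hsin]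
        rw [h6] at hcase
        linarith [hcase.2]
      · exact hc
    apply key (1 / 20) ((b2 _ hmemK).mono (by linarith))
    have : ∀ᶠ p : ℝ × ℝ in 𝓝 (R, t), cos p.2 < 0 :=
      (isOpen_lt hcc continuous_const).mem_nhds hc
    filter_upwards [this] with p hp
    exact Or.inr ⟨hp, rfl⟩

/-! ## the flat cut-off zone -/

private theorem rad_cont' : Continuous (fun p : ℝ × ℝ => rad p.1 p.2) := by
  unfold rad
  fun_prop

private theorem radsq (X Y : ℝ) : rad X Y ^ 2 = X ^ 2 + Y ^ 2 := by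
  unfold rad
  exact Real.sq_sqrt (by positivity)

private theorem radpos {X Y : ℝ} (hY : 0 < Y) : 0 < rad X Y := by
  unfold rad
  apply Real.sqrt_pos.2
  positivity

private def qfl (y0 z0 e X Y : ℝ) : ℝ :=
  (1 - st (2 * rad X Y - 1) * st (Y / y0 - 1)) * mnf (e + Gam (ang X Y) * rad X Y ^ (1 - cc)) z0

private def qtu (y0 z0 _e _X Y : ℝ) : ℝ := (1 - st (Y / y0 - 1)) * z0

private def Ufl : Set (ℝ × ℝ × ℝ) := {p | 0 < p.2.2}

private theorem Ufl_open : IsOpen Ufl := isOpen_lt continuous_const continuous_snd.snd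

private theorem qfl_cd (y0 z0 : ℝ) (hz : 0 < z0) :
    ContDiffOn ℝ ∞ (fun p : ℝ × ℝ × ℝ => qfl y0 z0 p.1 p.2.1 p.2.2) Ufl := by
  intro p hp
  apply ContDiffAt.contDiffWithinAt
  have hp' : 0 < p.2.2 := hp
  have hup : IsOpen {p : ℝ × ℝ | 0 < p.2} := isOpen_lt continuous_const continuous_snd
  have hs : ContDiffAt ℝ ∞ (fun p : ℝ × ℝ × ℝ => p.2) p := contDiffAt_snd
  have hr : ContDiffAt ℝ ∞ ((fun p : ℝ × ℝ => rad p.1 p.2) ∘ (fun p : ℝ × ℝ × ℝ => p.2)) p :=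
    ContDiffAt.comp p (rad_contDiffOn.contDiffAt (hup.mem_nhds hp')) hs
  have ha : ContDiffAt ℝ ∞ ((fun p : ℝ × ℝ => ang p.1 p.2) ∘ (fun p : ℝ × ℝ × ℝ => p.2)) p :=
    ContDiffAt.comp p (ang_contDiffOn.contDiffAt (hup.mem_nhds hp')) hs
  have hG : ContDiffAt ℝ ∞ (Gam ∘ ((fun p : ℝ × ℝ => ang p.1 p.2) ∘ (fun p : ℝ × ℝ × ℝ => p.2))) p :=
    ContDiffAt.comp p Gam_contDiff.contDiffAt ha
  have hpow : ContDiffAt ℝ ∞ (fun p : ℝ × ℝ × ℝ => rad p.2.1 p.2.2 ^ (1 - cc)) p :=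
    ContDiffAt.rpow_const_of_ne hr (radpos hp').ne'
  have h1 : ContDiffAt ℝ ∞ (st ∘ fun p : ℝ × ℝ × ℝ => 2 * rad p.2.1 p.2.2 - 1) p :=
    ContDiffAt.comp p st_contDiff.contDiffAt ((contDiffAt_const.mul hr).sub contDiffAt_const)
  have h2 : ContDiff ℝ ∞ (fun p : ℝ × ℝ × ℝ => st (p.2.2 / y0 - 1)) :=
    st_contDiff.comp ((y_cd.div_const y0).sub contDiff_const)
  have h3 : ContDiffAt ℝ ∞ (fun p : ℝ × ℝ × ℝ =>
      (p.1 + Gam (ang p.2.1 p.2.2) * rad p.2.1 p.2.2 ^ (1 - cc), z0)) p :=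
    (contDiffAt_fst.add (hG.mul hpow)).prodMk contDiffAt_const
  have h4 : ContDiffAt ℝ ∞ (fun p : ℝ × ℝ => mnf p.1 p.2)
      (p.1 + Gam (ang p.2.1 p.2.2) * rad p.2.1 p.2.2 ^ (1 - cc), z0) :=
    mnf_contDiffOn.contDiffAt (hup.mem_nhds hz)
  have h5 : ContDiffAt ℝ ∞ ((fun p : ℝ × ℝ => mnf p.1 p.2) ∘ fun p : ℝ × ℝ × ℝ =>
      (p.1 + Gam (ang p.2.1 p.2.2) * rad p.2.1 p.2.2 ^ (1 - cc), z0)) p := ContDiffAt.comp p h4 h3
  exact (contDiffAt_const.sub (h1.mul h2.contDiffAt)).mul h5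

private theorem qtu_cd (y0 z0 : ℝ) :
    ContDiffOn ℝ ∞ (fun p : ℝ × ℝ × ℝ => qtu y0 z0 p.1 p.2.1 p.2.2) univ := by
  have h2 : ContDiff ℝ ∞ (fun p : ℝ × ℝ × ℝ => st (p.2.2 / y0 - 1)) :=
    st_contDiff.comp ((y_cd.div_const y0).sub contDiff_const)
  exact ((contDiff_const.sub h2).mul contDiff_const).contDiffOn

/-- a function which does not depend on the first coordinate -/
private theorem Bd.indep {g : ℝ → ℝ} {M x x' y : ℝ} (h : Bd (fun _ y => g y) M x y) :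
    Bd (fun _ y => g y) M x' y := by
  have e1 : D1 (fun _ y => g y) = fun _ _ => 0 := by
    funext x y
    unfold D1
    exact deriv_const _ _
  have e2 : D2 (fun _ y => g y) = fun _ y => deriv g y := rfl
  have e11 : ∀ x y, D11 (fun _ y => g y) x y = 0 := by
    intro x y
    unfold D11
    rw [e1]
    unfold D1
    exact deriv_const _ _
  have e12 : ∀ x y, D12 (fun _ y => g y) x y = 0 := by
    intro x y
    unfold D12
    rw [e2]
    unfold D1
    exact deriv_const _ _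
  have e22 : ∀ x y, D22 (fun _ y => g y) x y = deriv (deriv g) y := fun x y => rfl
  refine ⟨h.b0, ?_, h.b2, ?_, ?_, ?_⟩
  · have := h.b1
    rw [e1] at this ⊢
    exact this
  · have := h.b11
    rw [e11] at this ⊢
    exact this
  · have := h.b12
    rw [e12] at this ⊢
    exact this
  · have := h.b22
    rw [e22] at this ⊢
    exact this

private theorem QL_flat {ph X Y y0 z0 : ℝ} (h : 0 < ph) (h1 : ph ≤ 1 / 2) (hY : 0 < Y)
    (hR : 1 / 4 ≤ rad X Y) (hy : ysd X = y0) (hz : zsd ph X = ph * z0) :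
    QL ph X Y = ph * qfl y0 z0 (Eta ph) X Y := by
  unfold QL qfl
  rw [hy, hz, QN_outer h h1 hY hR, ← Eta_mul h, ← mul_add, mnf_mul h]
  ring

/-- zone 5: the cut-off zone in Cartesian coordinates, `R > 1` -/
theorem TI_cut_flat : ∃ C p0 : ℝ, 0 < C ∧ 0 < p0 ∧ p0 ≤ 1 / 1000000 ∧ ∀ ph : ℝ, 0 < ph → ph ≤ p0 →
    ∀ X Y : ℝ, 1 < rad X Y → 1 / 100 < Y →
    TI (fun _ _ => 1) (fun x y => PhL ph x y) 1 (C * ph) X Y := by
  have hK : IsCompact (Icc (0:ℝ) 1 ×ˢ (Icc (-600 : ℝ) 600 ×ˢ Icc (1 / 100 : ℝ) (1 / 4))) :=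
    isCompact_Icc.prod (isCompact_Icc.prod isCompact_Icc)
  have hKU : Icc (0:ℝ) 1 ×ˢ (Icc (-600 : ℝ) 600 ×ˢ Icc (1 / 100 : ℝ) (1 / 4)) ⊆ Ufl := by
    rintro p ⟨-, -, h2⟩
    show 0 < p.2.2
    linarith [h2.1]
  obtain ⟨M1, hM1, b1⟩ := exists_bd Ufl_open (qfl_cd (1 / 10) 32 (by norm_num)) hK hKU
  obtain ⟨M2, hM2, b2⟩ := exists_bd Ufl_open (qfl_cd (1 / 20) 4 (by norm_num)) hK hKU
  obtain ⟨M3, hM3, b3⟩ := exists_bd isOpen_univ (qtu_cd (1 / 10) 32) hK (subset_univ _)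
  obtain ⟨M4, hM4, b4⟩ := exists_bd isOpen_univ (qtu_cd (1 / 20) 4) hK (subset_univ _)
  obtain ⟨M, hMdef⟩ : ∃ M, M = M1 + M2 + M3 + M4 := ⟨_, rfl⟩
  have hM : 1 ≤ M := by linarith
  refine ⟨6100 * M, 1 / (1000000 * M), by positivity, by positivity, ?_, ?_⟩
  · rw [div_le_div_iff₀ (by positivity) (by norm_num)]
    linarith
  intro ph h hph X Y hrad hY
  have hphM : ph * M ≤ 1 / 1000000 := by
    rw [le_div_iff₀ (by positivity)] at hph
    linarith
  have hph6 : ph ≤ 1 / 1000000 := by nlinarith only [h, hM1, hM2, hM3, hM4, hMdef, hphM]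
  have hph1 : ph ≤ 1 / 2 := by linarith
  have hη := Eta_mem h hph1
  have hY0 : 0 < Y := by linarith
  have ev1 : ∀ᶠ p : ℝ × ℝ in 𝓝 (X, Y), 1 < rad p.1 p.2 :=
    (isOpen_lt continuous_const rad_cont').mem_nhds hrad
  have ev2 : ∀ᶠ p : ℝ × ℝ in 𝓝 (X, Y), 1 / 100 < p.2 :=
    (isOpen_lt continuous_const continuous_snd).mem_nhds hY
  rcases lt_or_ge (1 / 5) Y with hY5 | hY5
  · -- the cone
    have hcd : ContDiffOn ℝ ∞ (fun p : ℝ × ℝ × ℝ =>
      (fun _ _ _ => 0 : ℝ → ℝ → ℝ → ℝ) p.1 p.2.1 p.2.2) univ := contDiffOn_const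
    have hbd : Bd (fun _ _ => 0) M X Y := by
      have e1 : D1 (fun _ _ => (0:ℝ)) = fun _ _ => 0 := by
        funext x y
        unfold D1
        exact deriv_const _ _
      have e2 : D2 (fun _ _ => (0:ℝ)) = fun _ _ => 0 := by
        funext x y
        unfold D2
        exact deriv_const _ _
      have e11 : D11 (fun _ _ => (0:ℝ)) X Y = 0 := by
        unfold D11
        rw [e1, e1]
      have e12 : D12 (fun _ _ => (0:ℝ)) X Y = 0 := by
        unfold D12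
        rw [e2, e1]
      have e22 : D22 (fun _ _ => (0:ℝ)) X Y = 0 := by
        unfold D22
        rw [e2, e2]
      exact ⟨by rw [abs_zero]; linarith only [h, hM1, hM2, hM3, hM4, hMdef, hph6], by rw [e1, abs_zero]; linarith only [h, hM1, hM2, hM3, hM4, hMdef, hph6],
        by rw [e2, abs_zero]; linarith only [h, hM1, hM2, hM3, hM4, hMdef, hph6], by rw [e11, abs_zero]; linarith only [h, hM1, hM2, hM3, hM4, hMdef, hph6],
        by rw [e12, abs_zero]; linarith, by rw [e22, abs_zero]; linarith⟩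
    have hTI := core_flat (q := fun _ _ _ => 0) isOpen_univ hcd (e := 0) (X := X) (Y := Y)
      (ph := ph) (M := M) (mem_univ _) hM hbd hY h (by linarith) le_rfl
    refine TI_congr' hTI (Eventually.of_forall fun _ => rfl) ?_
    have ev3 : ∀ᶠ p : ℝ × ℝ in 𝓝 (X, Y), 1 / 5 < p.2 :=
      (isOpen_lt continuous_const continuous_snd).mem_nhds hY5
    filter_upwards [ev1, ev3] with p p1 p3
    show aa * p.2 + (aa * ph) * 0 = PhL ph p.1 p.2
    rw [PhL_out h hph1 p1.le p3.le, mul_zero, add_zero]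
  · have hX0 : 9 / 10 < |X| := by
      have h5 : (9 / 10 : ℝ) ^ 2 < |X| ^ 2 := by
        rw [sq_abs]
        have h6 := radsq X Y
        nlinarith only [h, h6, hM1, hM2, hM3, hM4, hMdef, hY, hY5, hph6, hphM, hrad]
      exact lt_of_pow_lt_pow_left₀ 2 (abs_nonneg X) h5
    have hside : ∀ y0 z0 M' : ℝ, 0 < z0 → M' ≤ M → (∀ᶠ p : ℝ × ℝ in 𝓝 (X, Y), ysd p.1 = y0) →
        (∀ᶠ p : ℝ × ℝ in 𝓝 (X, Y), zsd ph p.1 = ph * z0) →
        (|X| ≤ 600 → Bd (qfl y0 z0 (Eta ph)) M' X Y) → Bd (qtu y0 z0 (Eta ph)) M X Y →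
        TI (fun _ _ => 1) (fun x y => PhL ph x y) 1 (6100 * M * ph) X Y := by
      intro y0 z0 M' hz0 hM' hy hz bq bt
      rcases lt_or_ge |X| 600 with hX | hX
      · have hq0 : 0 ≤ qfl y0 z0 (Eta ph) X Y := by
          unfold qfl
          apply mul_nonneg (fac_nonneg _ _)
          have ha := ang_mem (X := X) hY0
          have hG := Gam_ge ha.1.le ha.2.le
          have hpow0 : 0 < rad X Y ^ (1 - cc) := Real.rpow_pos_of_pos (radpos hY0) _
          have := hη.1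
          have h7 : 0 < Gam (ang X Y) * rad X Y ^ (1 - cc) := mul_pos (by linarith) hpow0
          exact (mnf_pos (by linarith) hz0).le
        have hTI := core_flat Ufl_open (qfl_cd y0 z0 hz0) (e := Eta ph) (X := X) (Y := Y) hY0 hM
          ((bq hX.le).mono hM') hY h (by linarith) hq0
        refine TI_congr' hTI (Eventually.of_forall fun _ => rfl) ?_
        filter_upwards [ev1, ev2, hy, hz] with p p1 p2 p3 p4
        show aa * p.2 + (aa * ph) * qfl y0 z0 (Eta ph) p.1 p.2 = PhL ph p.1 p.2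
        rw [PhL_far h hph6 (by linarith) (by linarith), QL_flat h hph1 (by linarith only [h, hph6, p2]) (by linarith)
          p3 p4]
        ring
      · have hq0 : 0 ≤ qtu y0 z0 (Eta ph) X Y := by
          unfold qtu
          exact mul_nonneg (by linarith [st_le_one (Y / y0 - 1)]) hz0.le
        have hTI := core_flat isOpen_univ (qtu_cd y0 z0) (e := Eta ph) (X := X) (Y := Y)
          (mem_univ _) hM bt hY h (by linarith) hq0
        refine TI_congr' hTI (Eventually.of_forall fun _ => rfl) ?_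
        have ev3 : ∀ᶠ p : ℝ × ℝ in 𝓝 (X, Y), 256 < |p.1| :=
          (isOpen_lt continuous_const continuous_fst.abs).mem_nhds (by
            show 256 < |X|
            linarith)
        filter_upwards [ev1, ev2, hy, hz, ev3] with p p1 p2 p3 p4 p5
        show aa * p.2 + (aa * ph) * qtu y0 z0 (Eta ph) p.1 p.2 = PhL ph p.1 p.2
        rw [PhL_far h hph6 (by linarith only [h, hph6, p1]) (by linarith), QL_tube h hph1 (by linarith) p5.le, p3, p4]
        unfold qtu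
        ring
    have hmem0 : (Eta ph, (0:ℝ), Y) ∈ Icc (0:ℝ) 1 ×ˢ (Icc (-600 : ℝ) 600 ×ˢ Icc (1 / 100 : ℝ) (1 / 4)) :=
      ⟨⟨hη.1.le, hη.2⟩, ⟨by norm_num, by norm_num⟩, ⟨hY.le, by
        show Y ≤ 1 / 4
        linarith⟩⟩
    rcases lt_or_ge X 0 with hX | hX
    · have evX : ∀ᶠ p : ℝ × ℝ in 𝓝 (X, Y), p.1 < 0 :=
        (isOpen_lt continuous_fst continuous_const).mem_nhds hX
      refine hside (1 / 20) 4 M2 (by norm_num) (by linarith) ?_ ?_ ?_ ?_
      · filter_upwards [evX] with p hp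
        exact if_pos hp
      · filter_upwards [evX] with p hp
        have : zsd ph p.1 = 4 * ph := if_pos hp
        rw [this]; ring
      · intro hX6
        exact b2 (Eta ph, X, Y) ⟨⟨hη.1.le, hη.2⟩, abs_le.1 hX6, ⟨hY.le, by
          show Y ≤ 1 / 4
          linarith⟩⟩
      · have h5 := (b4 _ hmem0).mono (show M4 ≤ M by linarith)
        exact Bd.indep (g := fun y => (1 - st (y / (1 / 20) - 1)) * 4) h5
    · have hXpos : 0 < X := by
        rcases hX.eq_or_lt with h5 | h5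
        · rw [← h5, abs_zero] at hX0
          norm_num at hX0
        · exact h5
      have evX : ∀ᶠ p : ℝ × ℝ in 𝓝 (X, Y), 0 < p.1 :=
        (isOpen_lt continuous_const continuous_fst).mem_nhds hXpos
      refine hside (1 / 10) 32 M1 (by norm_num) (by linarith) ?_ ?_ ?_ ?_
      · filter_upwards [evX] with p hp
        exact if_neg (not_lt.2 hp.le)
      · filter_upwards [evX] with p hp
        have : zsd ph p.1 = 32 * ph := if_neg (not_lt.2 hp.le)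
        rw [this]; ring
      · intro hX6
        exact b1 (Eta ph, X, Y) ⟨⟨hη.1.le, hη.2⟩, abs_le.1 hX6, ⟨hY.le, by
          show Y ≤ 1 / 4
          linarith only [h, hY5, hph6]⟩⟩
      · have h5 := (b3 _ hmem0).mono (show M3 ≤ M by linarith)
        exact Bd.indep (g := fun y => (1 - st (y / (1 / 10) - 1)) * 32) h5

end Pool.Agent.MP39e402
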