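import Pool.Agent.Lib.MP_39e402_gt.MExt

/-!
# Part M, module MChart: the chart lemma

Take `r` smaller than the radii of `exists_radius` and `exists_ball_image`. For `x, y ∈ V \ T` with
`redist V h x₀ x, redist V h x₀ y < r`: `redist P.U P.g (Φ x) (Φ y) ≤ redist V h x y < 2 r`, so there
is `y' ∈ V \ T` with `Φ y' = Φ y` (so `y' = y` by injectivity) and
`redist V h x y ≤ redist P.U P.g (Φ x) (Φ y)`. So the distance formula holds on `V \ T` near `x₀` and
extends to `V` by density (`Negl.subset_closure`) and continuity (`h2`, `tendsto_redist_iff`,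
triangle inequality). Injectivity of `Φ'` follows (`redist_pos`).
-/

open Set Filter Topology MeasureTheory
open scoped ENNReal NNReal ContDiff BigOperators

noncomputable section

namespace Pool.Agent.MP39e402

variable {n : ℕ}

/-- points near `x` are close to `x`, and stay in an open ball containing `x` -/
theorem eventually_redist_lt {V : Set (EE n)} {h : RMetric n} (hh : IsRMetricOn h V)
    {a x : EE n} (hx : x ∈ V) {ρ ε : ℝ≥0∞} (hax : redist V h a x < ρ) (hε : 0 < ε) :
    ∀ᶠ z in 𝓝 x, redist V h z x < ε ∧ redist V h a z < ρ := by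
  have t : Tendsto (fun z => redist V h z x) (𝓝 x) (𝓝 0) :=
    (tendsto_redist_iff hh hx (f := fun z => z)).2 tendsto_id
  have t2 : Tendsto (fun z => redist V h a x + redist V h z x) (𝓝 x) (𝓝 (redist V h a x + 0)) :=
    tendsto_const_nhds.add t
  rw [add_zero] at t2
  filter_upwards [t.eventually (gt_mem_nhds hε), t2.eventually (gt_mem_nhds hax)] with z h1 h2
  refine ⟨h1, lt_of_le_of_lt ?_ h2⟩
  calc redist V h a z ≤ redist V h a x + redist V h x z := redist_triangle hh a x z
    _ = redist V h a x + redist V h z x := by rw [redist_comm hh x z]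

/-- frequently version with a point of `V \ T` -/
theorem LocIso.frequently_mem {P : Patch n} {V : Set (EE n)} {h : RMetric n}
    {T : Set (EE n)} {Φ : EE n → EE n} (H : LocIso P V h T Φ) {x : EE n} (hx : x ∈ V) :
    ∃ᶠ z in 𝓝 x, z ∈ V \ T :=
  mem_closure_iff_frequently.1 (Negl.subset_closure H.met.isOpen H.negl hx)

theorem LocIso.chart {P : Patch n} {V : Set (EE n)} {h : RMetric n}
    {T : Set (EE n)} {Φ : EE n → EE n} (H : LocIso P V h T Φ) (hinj : InjOn Φ (V \ T))
    {x₀ : EE n} (hx₀ : x₀ ∈ V) {Φ' : EE n → P.Comp}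
    (h1 : ∀ x (hx : x ∈ V \ T), Φ' x = ((⟨Φ x, H.maps hx⟩ : P.Pt) : P.Comp))
    (h2 : ∀ x ∈ V, ∀ y ∈ V, edist (Φ' x) (Φ' y) ≤ redist V h x y) :
    ∃ r > 0, BijOn Φ' {x | x ∈ V ∧ redist V h x₀ x < ENNReal.ofReal r}
        (Metric.ball (Φ' x₀) r) ∧
      ∀ x ∈ V, redist V h x₀ x < ENNReal.ofReal r →
        ∀ y ∈ V, redist V h x₀ y < ENNReal.ofReal r →
          edist (Φ' x) (Φ' y) = redist V h x y := by
  obtain ⟨r1, hr1, K, -, -, -, hlift⟩ := H.exists_radius hx₀
  obtain ⟨r0, hr0, himg⟩ := H.exists_ball_image hx₀ h1 h2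
  set r := min r0 r1 with hr
  have hrpos : 0 < r := lt_min hr0 hr1
  have hrr1 : r ≤ r1 := min_le_right _ _
  have hofr : ENNReal.ofReal r ≤ ENNReal.ofReal r1 := ENNReal.ofReal_le_ofReal hrr1
  -- points outside `T`
  have stepA : ∀ x ∈ V \ T, redist V h x₀ x < ENNReal.ofReal r → ∀ y ∈ V \ T,
      redist V h x₀ y < ENNReal.ofReal r → redist V h x y ≤ edist (Φ' x) (Φ' y) := by
    intro x hx hxr y hy hyr
    have hle := H.redist_le hx hy
    have hlt : redist V h x y < ENNReal.ofReal (3 * r1) := by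
      calc redist V h x y ≤ redist V h x x₀ + redist V h x₀ y := redist_triangle H.met _ _ _
        _ = redist V h x₀ x + redist V h x₀ y := by rw [redist_comm H.met x x₀]
        _ < ENNReal.ofReal r + ENNReal.ofReal r := ENNReal.add_lt_add hxr hyr
        _ ≤ ENNReal.ofReal r1 + ENNReal.ofReal r1 := add_le_add hofr hofr
        _ = ENNReal.ofReal (r1 + r1) := (ENNReal.ofReal_add hr1.le hr1.le).symm
        _ ≤ ENNReal.ofReal (3 * r1) := ENNReal.ofReal_le_ofReal (by linarith)
    obtain ⟨y', hy', hyy', hd⟩ := hlift x hx (hxr.trans_le hofr) (Φ y) (hle.trans_lt hlt)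
    have : y' = y := hinj hy' hy hyy'
    subst this
    rw [h1 x hx, h1 y' hy, P.edist_coe]
    exact hd
  -- general points
  have stepB : ∀ x ∈ V, redist V h x₀ x < ENNReal.ofReal r → ∀ y ∈ V,
      redist V h x₀ y < ENNReal.ofReal r → redist V h x y ≤ edist (Φ' x) (Φ' y) := by
    intro x hx hxr y hy hyr
    apply ENNReal.le_of_forall_pos_le_add
    intro ε hε _
    have hε4 : (0 : ℝ≥0∞) < (ε : ℝ≥0∞) / 4 := by
      apply ENNReal.div_pos
      · exact_mod_cast hε.ne'
      · norm_num
    obtain ⟨x', hx', hxx', hxr'⟩ := ((H.frequently_mem hx).and_eventually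
      (eventually_redist_lt H.met hx hxr hε4)).exists
    obtain ⟨y', hy', hyy', hyr'⟩ := ((H.frequently_mem hy).and_eventually
      (eventually_redist_lt H.met hy hyr hε4)).exists
    have e1 : redist V h x' y' ≤ edist (Φ' x) (Φ' y) + ε / 4 + ε / 4 := by
      calc redist V h x' y' ≤ edist (Φ' x') (Φ' y') := stepA x' hx' hxr' y' hy' hyr'
        _ ≤ edist (Φ' x') (Φ' x) + edist (Φ' x) (Φ' y') := edist_triangle _ _ _
        _ ≤ edist (Φ' x') (Φ' x) + (edist (Φ' x) (Φ' y) + edist (Φ' y) (Φ' y')) := by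
            gcongr; exact edist_triangle _ _ _
        _ ≤ ε / 4 + (edist (Φ' x) (Φ' y) + ε / 4) := by
            have a1 : edist (Φ' x') (Φ' x) ≤ ε / 4 := (h2 x' hx'.1 x hx).trans hxx'.le
            have a2 : edist (Φ' y) (Φ' y') ≤ ε / 4 := by
              rw [edist_comm]; exact (h2 y' hy'.1 y hy).trans hyy'.le
            exact add_le_add a1 (add_le_add le_rfl a2)
        _ = edist (Φ' x) (Φ' y) + ε / 4 + ε / 4 := by
            rw [add_comm]
    calc redist V h x y ≤ redist V h x x' + redist V h x' y := redist_triangle H.met _ _ _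
      _ ≤ redist V h x x' + (redist V h x' y' + redist V h y' y) := by
          gcongr; exact redist_triangle H.met _ _ _
      _ ≤ ε / 4 + ((edist (Φ' x) (Φ' y) + ε / 4 + ε / 4) + ε / 4) := by
          rw [redist_comm H.met x x']
          exact add_le_add hxx'.le (add_le_add e1 hyy'.le)
      _ = edist (Φ' x) (Φ' y) + (ε / 4 + ε / 4 + ε / 4 + ε / 4) := by ring
      _ = edist (Φ' x) (Φ' y) + ε := by
          congr 1
          have : (ε : ℝ≥0∞) / 4 + ε / 4 + ε / 4 + ε / 4 = 4 * (ε / 4) := by ring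
          rw [this]
          exact ENNReal.mul_div_cancel (by norm_num) (by norm_num)
  have hformula : ∀ x ∈ V, redist V h x₀ x < ENNReal.ofReal r →
        ∀ y ∈ V, redist V h x₀ y < ENNReal.ofReal r →
          edist (Φ' x) (Φ' y) = redist V h x y := fun x hx hxr y hy hyr =>
    le_antisymm (h2 x hx y hy) (stepB x hx hxr y hy hyr)
  have himg' := himg r hrpos (min_le_left _ _)
  refine ⟨r, hrpos, ⟨?_, ?_, ?_⟩, hformula⟩
  · intro x hx
    rw [← himg']
    exact ⟨x, hx, rfl⟩
  · rintro x ⟨hx, hxr⟩ y ⟨hy, hyr⟩ hxy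
    by_contra hne
    have := redist_pos H.met hx hne
    rw [← hformula x hx hxr y hy hyr, hxy, edist_self] at this
    exact lt_irrefl _ this
  · rw [SurjOn, himg']

end Pool.Agent.MP39e402
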