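import Pool.Agent.Lib.MP_39e402_gt.MLocal

/-!
# Part M, module MPatch: the metric space of a patch and its completion

`Patch n` : an open path connected set `U ⊆ ℝⁿ` with a smooth Riemannian metric `g`.
`P.Pt` : its points with the Riemannian distance. `P.Comp` : the completion.
-/

open Set Filter Topology MeasureTheory
open scoped ENNReal NNReal ContDiff BigOperators

noncomputable section

namespace Pool.Agent.MP39e402

variable {n : ℕ}

/-- an open, path connected subset of `ℝⁿ` with a smooth Riemannian metric -/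
structure Patch (n : ℕ) where
  /-- the open set -/
  U : Set (EE n)
  /-- the metric tensor -/
  g : RMetric n
  met : IsRMetricOn g U
  conn : ∀ x ∈ U, ∀ y ∈ U, ∃ γ, IsPath U x y γ

/-- the points of a patch (with the Riemannian distance) -/
structure Patch.Pt (P : Patch n) : Type where
  /-- the underlying point of `ℝⁿ` -/
  val : EE n
  /-- it is a point of the open set -/
  mem : val ∈ P.U

/-- the Riemannian distance of the patch -/
def Patch.rd (P : Patch n) (x y : EE n) : ℝ≥0∞ := redist P.U P.g x y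

theorem Patch.rd_lt_top (P : Patch n) {x y : EE n} (hx : x ∈ P.U) (hy : y ∈ P.U) :
    P.rd x y < ⊤ := by
  obtain ⟨γ, hγ⟩ := P.conn x hx y hy
  exact redist_lt_top P.g hγ

instance (P : Patch n) : MetricSpace P.Pt where
  dist x y := (P.rd x.val y.val).toReal
  dist_self x := by simp [Patch.rd, redist_self P.g x.mem]
  dist_comm x y := by simp only [Patch.rd, redist_comm P.met x.val y.val]
  dist_triangle x y z := by
    rw [← ENNReal.toReal_add (P.rd_lt_top x.mem y.mem).ne (P.rd_lt_top y.mem z.mem).ne]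
    exact ENNReal.toReal_mono (ENNReal.add_ne_top.2
      ⟨(P.rd_lt_top x.mem y.mem).ne, (P.rd_lt_top y.mem z.mem).ne⟩)
      (redist_triangle P.met x.val y.val z.val)
  eq_of_dist_eq_zero {x y} h := by
    have h1 : P.rd x.val y.val = 0 := by
      rcases (ENNReal.toReal_eq_zero_iff _).1 h with h | h
      · exact h
      · exact absurd h (P.rd_lt_top x.mem y.mem).ne
    have h2 : x.val = y.val := by
      by_contra hne
      exact absurd h1 (redist_pos P.met x.mem hne).ne'
    cases x; cases y; simp_all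

theorem Patch.dist_eq (P : Patch n) (x y : P.Pt) : dist x y = (P.rd x.val y.val).toReal := rfl

theorem Patch.edist_eq (P : Patch n) (x y : P.Pt) : edist x y = P.rd x.val y.val := by
  rw [edist_dist, P.dist_eq, ENNReal.ofReal_toReal (P.rd_lt_top x.mem y.mem).ne]

/-- the completion of a patch -/
abbrev Patch.Comp (P : Patch n) : Type := UniformSpace.Completion P.Pt

theorem Patch.edist_coe (P : Patch n) (x y : P.Pt) :
    edist (x : P.Comp) (y : P.Comp) = redist P.U P.g x.val y.val := by
  rw [UniformSpace.Completion.edist_eq, P.edist_eq]; rfl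

theorem Patch.dist_coe (P : Patch n) (x y : P.Pt) :
    dist (x : P.Comp) (y : P.Comp) = (redist P.U P.g x.val y.val).toReal := by
  rw [UniformSpace.Completion.dist_eq, P.dist_eq]; rfl

theorem Patch.dist_lt_iff (P : Patch n) (x y : P.Pt) {r : ℝ} :
    dist x y < r ↔ redist P.U P.g x.val y.val < ENNReal.ofReal r := by
  rw [P.dist_eq]
  have h := (P.rd_lt_top x.mem y.mem).ne
  rw [← ENNReal.lt_ofReal_iff_toReal_lt h]; rfl

/-- the topology of `P.Pt` is the Euclidean one -/
theorem Patch.tendsto_iff (P : Patch n) {ι : Type*} {l : Filter ι} {f : ι → P.Pt} {x : P.Pt} :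
    Tendsto f l (𝓝 x) ↔ Tendsto (fun i => (f i).val) l (𝓝 x.val) := by
  rw [← tendsto_redist_iff P.met x.mem, tendsto_iff_edist_tendsto_0]
  simp only [P.edist_eq]; rfl

/-- every point of the completion is a limit of points of the patch -/
theorem Patch.exists_seq_tendsto (P : Patch n) (p : P.Comp) :
    ∃ y : ℕ → P.Pt, CauchySeq y ∧ Tendsto (fun j => (y j : P.Comp)) atTop (𝓝 p) := by
  have hd : DenseRange ((↑) : P.Pt → P.Comp) := UniformSpace.Completion.denseRange_coe
  have hp : p ∈ closure (Set.range ((↑) : P.Pt → P.Comp)) := hd p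
  rw [mem_closure_iff_seq_limit] at hp
  obtain ⟨u, hu, hup⟩ := hp
  choose y hy using hu
  refine ⟨y, ?_, ?_⟩
  · have hc : CauchySeq u := hup.cauchySeq
    have : u = fun j => (y j : P.Comp) := by funext j; exact (hy j).symm
    rw [this] at hc
    rw [Metric.cauchySeq_iff] at hc ⊢
    intro ε hε
    obtain ⟨N, hN⟩ := hc ε hε
    refine ⟨N, fun m hm k hk => ?_⟩
    have := hN m hm k hk
    rwa [UniformSpace.Completion.dist_eq] at this
  · have : (fun j => (y j : P.Comp)) = u := by funext j; exact hy j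
    rw [this]; exact hup

/-- constructor: open, preconnected set -/
def Patch.ofPreconnected (U : Set (EE n)) (g : RMetric n) (met : IsRMetricOn g U)
    (hc : IsPreconnected U) : Patch n where
  U := U
  g := g
  met := met
  conn _ hx _ hy := exists_isPath met.isOpen hc hx hy

/-- `Φ : V \ T → U` is a local isometry from `(V, h)` to the patch `P`, defined outside the
negligible closed set `T`; near the points of `T` it leaves `U` (`esc`). -/
structure LocIso (P : Patch n) (V : Set (EE n)) (h : RMetric n) (T : Set (EE n))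
    (Φ : EE n → EE n) : Prop where
  met : IsRMetricOn h V
  negl : Negl T
  maps : MapsTo Φ (V \ T) P.U
  smooth : ContDiffOn ℝ 1 Φ (V \ T)
  isom : ∀ x ∈ V \ T, ∀ v : EE n, gquad P.g (Φ x) (fderiv ℝ Φ x v) = gquad h x v
  esc : ∀ x : ℕ → EE n, (∀ j, x j ∈ V \ T) → ∀ z ∈ V ∩ T, Tendsto x atTop (𝓝 z) →
    ∀ u ∈ P.U, ¬ Tendsto (fun j => Φ (x j)) atTop (𝓝 u)

/-- a subsequence of `y` converges in a chart with `Ric ≥ κ` (the limit may be in `T`) -/
def ChartConv (P : Patch n) (κ : ℝ) (y : ℕ → P.Pt) : Prop :=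
  ∃ (V : Set (EE n)) (h : RMetric n) (T : Set (EE n)) (Φ : EE n → EE n),
    LocIso P V h T Φ ∧ InjOn Φ (V \ T) ∧ RicGE h V κ ∧
    ∃ x₀ ∈ V, ∃ (x : ℕ → EE n) (φ : ℕ → ℕ), StrictMono φ ∧ (∀ j, x j ∈ V \ T) ∧
      Tendsto x atTop (𝓝 x₀) ∧ ∀ j, Φ (x j) = (y (φ j)).val

theorem LocIso.isOpen_diff {P : Patch n} {V : Set (EE n)} {h : RMetric n} {T : Set (EE n)}
    {Φ : EE n → EE n} (H : LocIso P V h T Φ) : IsOpen (V \ T) :=
  H.met.isOpen.sdiff H.negl.closed

end Pool.Agent.MP39e402
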