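import Pool.Agent.Lib.MP_39e402_gt.MHoles
import Pool.Agent.Lib.MP_39e402_gt.MPatch

/-!
# Part M, module MConv: comparison of two patches outside finitely many small bad sets

`D = {x ∈ P.U | ∀ j ∈ J, x ∉ B j}`, `δ = ∑ j ∈ J, η j`.
`Holes` collects the hypotheses for one approximating patch `Q`; `Holes.h1`: `redist_le_of_holes` with
`U' = Q.U`, `U = P.U`, `G = id`, `L = 1`; `Holes.h2`: the same with the roles exchanged and `L = C`;
`Holes.h4`, `Holes.h4'`: `hd`, `hd'` (a point of the frontier of `B j` is in no `B i`: open disjoint sets).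
-/

open Set Filter Topology MeasureTheory
open scoped ENNReal NNReal ContDiff BigOperators

noncomputable section

namespace Pool.Agent.MP39e402

variable {n : ℕ}

/-- the patches `P` (limit) and `Q` (approximation) are comparable outside the bad sets `B j`,
`j ∈ J`, of size `≤ η j` -/
structure Holes {ι : Type} (P Q : Patch n) (C : ℝ) (J : Finset ι) (B : ι → Set (EE n))
    (η : ι → ℝ) : Prop where
  op : ∀ j ∈ J, IsOpen (B j)
  disj : ∀ i ∈ J, ∀ j ∈ J, i ≠ j → Disjoint (B i) (B j)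
  nonneg : ∀ j ∈ J, 0 ≤ η j
  sets : ∀ x, (∀ j ∈ J, x ∉ B j) → (x ∈ Q.U ↔ x ∈ P.U)
  lower : ∀ x ∈ P.U, (∀ j ∈ J, x ∉ B j) → ∀ v : EE n, gquad P.g x v ≤ gquad Q.g x v
  upper : ∀ x ∈ P.U, (∀ j ∈ J, x ∉ B j) → ∀ v : EE n, gquad Q.g x v ≤ C ^ 2 * gquad P.g x v
  frP : ∀ j ∈ J, ∀ x ∈ P.U ∩ frontier (B j), ∀ y ∈ P.U ∩ frontier (B j),
    redist P.U P.g x y ≤ ENNReal.ofReal (η j)
  frQ : ∀ j ∈ J, ∀ x ∈ P.U ∩ frontier (B j), ∀ y ∈ P.U ∩ frontier (B j),
    redist Q.U Q.g x y ≤ ENNReal.ofReal (η j)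
  inQ : ∀ j ∈ J, ∀ x ∈ Q.U ∩ B j, ∃ y ∈ Q.U ∩ frontier (B j),
    redist Q.U Q.g x y ≤ ENNReal.ofReal (η j)
  inP : ∀ j ∈ J, ∀ x ∈ P.U ∩ B j, ∃ y ∈ P.U ∩ frontier (B j),
    redist P.U P.g x y ≤ ENNReal.ofReal (η j)

/-- the good set -/
def goodSet {ι : Type} (P : Patch n) (J : Finset ι) (B : ι → Set (EE n)) : Set (EE n) :=
  {x | x ∈ P.U ∧ ∀ j ∈ J, x ∉ B j}

variable {ι : Type} {P Q : Patch n} {C : ℝ} {J : Finset ι} {B : ι → Set (EE n)} {η : ι → ℝ}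

/-- a point of the frontier of a bad set is in no bad set -/
theorem Holes.frontier_good (H : Holes P Q C J B η) {i : ι} (hi : i ∈ J) {x : EE n}
    (hx : x ∈ frontier (B i)) : ∀ j ∈ J, x ∉ B j := by
  intro j hj hxj
  by_cases hij : i = j
  · subst hij
    rw [(H.op i hi).frontier_eq] at hx
    exact hx.2 hxj
  · have h1 : x ∈ closure (B i) := frontier_subset_closure hx
    obtain ⟨z, hz1, hz2⟩ := mem_closure_iff.1 h1 (B j) (H.op j hj) hxj
    exact Set.disjoint_left.1 (H.disj i hi j hj hij) hz2 hz1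

theorem Holes.h1 (H : Holes P Q C J B η) : ∀ x ∈ goodSet P J B, ∀ y ∈ goodSet P J B,
    redist P.U P.g x y ≤ redist Q.U Q.g x y + ENNReal.ofReal (∑ j ∈ J, η j) := by
  intro x hx y hy
  have hxQ : x ∈ Q.U := (H.sets x hx.2).2 hx.1
  have hyQ : y ∈ Q.U := (H.sets y hy.2).2 hy.1
  have h := redist_le_of_holes (U := P.U) (U' := Q.U) (g := P.g) (g' := Q.g) P.met Q.met J B H.op
    H.disj η H.nonneg (L := 1) one_pos (fun z => z) contDiffOn_id
    (fun z hz hzB => (H.sets z hzB).1 hz)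
    (fun z hz hzB v => by
      have h1 := H.lower z ((H.sets z hzB).1 hz) hzB v
      have h2 : fderiv ℝ (fun z : EE n => z) z v = v := by rw [fderiv_fun_id]; rfl
      rw [h2]
      simpa using h1)
    (fun j hj z hz w hw => H.frP j hj z ⟨(H.sets z (H.frontier_good hj hz.2)).1 hz.1, hz.2⟩ w
      ⟨(H.sets w (H.frontier_good hj hw.2)).1 hw.1, hw.2⟩)
    hxQ hx.2 hyQ hy.2
  simpa using h

theorem Holes.h2 (H : Holes P Q C J B η) (hC : 0 < C) :
    ∀ x ∈ goodSet P J B, ∀ y ∈ goodSet P J B,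
    redist Q.U Q.g x y ≤
      ENNReal.ofReal C * redist P.U P.g x y + ENNReal.ofReal (∑ j ∈ J, η j) := by
  intro x hx y hy
  exact redist_le_of_holes (U := Q.U) (U' := P.U) (g := Q.g) (g' := P.g) Q.met P.met J B H.op
    H.disj η H.nonneg (L := C) hC (fun z => z) contDiffOn_id
    (fun z hz hzB => (H.sets z hzB).2 hz)
    (fun z hz hzB v => by
      have h1 := H.upper z hz hzB v
      have h2 : fderiv ℝ (fun z : EE n => z) z v = v := by rw [fderiv_fun_id]; rfl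
      rw [h2]
      exact h1)
    (fun j hj z hz w hw => H.frQ j hj z hz w hw)
    hx.1 hx.2 hy.1 hy.2

private theorem MConv_le_sum (H : Holes P Q C J B η) {j : ι} (hj : j ∈ J) :
    ENNReal.ofReal (η j) ≤ ENNReal.ofReal (∑ j ∈ J, η j) :=
  ENNReal.ofReal_le_ofReal (Finset.single_le_sum H.nonneg hj)

theorem Holes.h4 (H : Holes P Q C J B η) : ∀ x ∈ Q.U, ∃ y ∈ goodSet P J B,
    redist Q.U Q.g x y ≤ ENNReal.ofReal (∑ j ∈ J, η j) := by
  intro x hx
  by_cases h : ∀ j ∈ J, x ∉ B j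
  · exact ⟨x, ⟨(H.sets x h).1 hx, h⟩, by rw [redist_self Q.g hx]; exact zero_le⟩
  · push Not at h
    obtain ⟨j, hj, hxj⟩ := h
    obtain ⟨y, hy, hxy⟩ := H.inQ j hj x ⟨hx, hxj⟩
    exact ⟨y, ⟨(H.sets y (H.frontier_good hj hy.2)).1 hy.1, H.frontier_good hj hy.2⟩,
      hxy.trans (MConv_le_sum H hj)⟩

theorem Holes.h4' (H : Holes P Q C J B η) : ∀ x ∈ P.U, ∃ y ∈ goodSet P J B,
    redist P.U P.g x y ≤ ENNReal.ofReal (∑ j ∈ J, η j) := by
  intro x hx
  by_cases h : ∀ j ∈ J, x ∉ B j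
  · exact ⟨x, ⟨hx, h⟩, by rw [redist_self P.g hx]; exact zero_le⟩
  · push Not at h
    obtain ⟨j, hj, hxj⟩ := h
    obtain ⟨y, hy, hxy⟩ := H.inP j hj x ⟨hx, hxj⟩
    exact ⟨y, ⟨hy.1, H.frontier_good hj hy.2⟩, hxy.trans (MConv_le_sum H hj)⟩

end Pool.Agent.MP39e402
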