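import Pool.Agent.Lib.MP_39e402_gt.Defs

/-!
# Part M of MP_39e402: definitions

`plenI g γ a b` length of the part of `γ` between the parameters `a` and `b`;
`Negl T` : closed sets of codimension `≥ 2` which can be avoided by small translations of `C¹` paths.
-/

open Set Filter Topology MeasureTheory
open scoped ENNReal NNReal ContDiff BigOperators

noncomputable section

namespace Pool.Agent.MP39e402

variable {n : ℕ}

/-- `g`-length of the part of the path `γ` between the parameters `a` and `b`. -/
def plenI (g : RMetric n) (γ : ℝ → EE n) (a b : ℝ) : ℝ :=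
  ∫ t in a..b, Real.sqrt (gquad g (γ t) (deriv γ t))

theorem plen_eq_plenI (g : RMetric n) (γ : ℝ → EE n) : plen g γ = plenI g γ 0 1 := rfl

/-- Closed sets which can be avoided by `C¹` paths after an arbitrarily small translation. -/
structure Negl (T : Set (EE n)) : Prop where
  closed : IsClosed T
  avoid : ∀ γ : ℝ → EE n, ContDiff ℝ 1 γ →
    Dense {w : EE n | ∀ t ∈ Icc (0 : ℝ) 1, γ t + w ∉ T}

end Pool.Agent.MP39e402
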