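import Pool.Agent.Lib.MP_39e402_gt.MReparam

/-!
# Part M, module MTri: `redist` is symmetric and satisfies the triangle inequality

Concatenation: replace both paths by paths which are constant near the end points
(`exists_isPath_of_path`), `σ t = σ₁ (2 t)` for `t ≤ 1/2`, `σ t = σ₂ (2 t - 1)` for `t ≥ 1/2`
(constant near `t = 1/2`, hence `C¹`).  `exists_isPath`: the set of points of `V` which can be
joined to `x` is open and its complement in `V` is open (segments in small balls).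
-/

open Set Filter Topology MeasureTheory
open scoped ENNReal NNReal ContDiff BigOperators

noncomputable section

namespace Pool.Agent.MP39e402

variable {n : ℕ}

theorem redist_self {V : Set (EE n)} (g : RMetric n) {x : EE n} (hx : x ∈ V) :
    redist V g x x = 0 := by
  have h1 : IsPath V x x (fun _ => x) := ⟨contDiff_const, fun _ _ => hx, rfl, rfl⟩
  have h2 : plen g (fun _ : ℝ => x) = 0 := by
    unfold plen
    have h3 : ∀ t : ℝ, Real.sqrt (gquad g x (deriv (fun _ : ℝ => x) t)) = 0 := by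
      intro t
      rw [deriv_const, gquad_zero, Real.sqrt_zero]
    rw [intervalIntegral.integral_congr fun t _ => h3 t]
    exact intervalIntegral.integral_zero
  have h3 : redist V g x x ≤ ENNReal.ofReal (plen g (fun _ : ℝ => x)) := iInf₂_le _ h1
  rw [h2, ENNReal.ofReal_zero] at h3
  exact le_antisymm h3 zero_le

private theorem mtri_rev_isPath {V : Set (EE n)} {x y : EE n} {γ : ℝ → EE n}
    (h : IsPath V x y γ) : IsPath V y x (fun t => γ (1 - t)) := by
  obtain ⟨h1, h2, h3, h4⟩ := h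
  refine ⟨h1.comp (contDiff_const.sub contDiff_id), ?_, ?_, ?_⟩
  · intro t ht
    exact h2 _ ⟨by linarith [ht.2], by linarith [ht.1]⟩
  · show γ (1 - 0) = y
    rw [sub_zero, h4]
  · show γ (1 - 1) = x
    rw [sub_self, h3]

private theorem mtri_rev_plen (g : RMetric n) (γ : ℝ → EE n) :
    plen g (fun t => γ (1 - t)) = plen g γ := by
  unfold plen
  have h1 : ∀ t : ℝ, Real.sqrt (gquad g (γ (1 - t)) (deriv (fun t => γ (1 - t)) t)) =
      (fun s => Real.sqrt (gquad g (γ s) (deriv γ s))) (1 - t) := by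
    intro t
    rw [deriv_comp_const_sub, gquad_neg]
  rw [intervalIntegral.integral_congr fun t _ => h1 t]
  rw [intervalIntegral.integral_comp_sub_left (fun s => Real.sqrt (gquad g (γ s) (deriv γ s))) 1]
  norm_num

private theorem mtri_comm_le {V : Set (EE n)} {g : RMetric n} (x y : EE n) :
    redist V g y x ≤ redist V g x y := by
  refine le_iInf₂ fun γ hγ => ?_
  rw [← mtri_rev_plen]
  exact iInf₂_le _ (mtri_rev_isPath hγ)

theorem redist_comm {V : Set (EE n)} {g : RMetric n} (hg : IsRMetricOn g V) (x y : EE n) :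
    redist V g x y = redist V g y x :=
  le_antisymm (mtri_comm_le y x) (mtri_comm_le x y)

/-- concatenation on `[0, 2]` -/
private theorem mtri_concat {V : Set (EE n)} {x y z : EE n} {γ₁ γ₂ : ℝ → EE n}
    (h₁ : IsPath V x y γ₁) (h₂ : IsPath V y z γ₂) :
    ∃ γ : ℝ → EE n, ContDiff ℝ 1 γ ∧ (∀ t ∈ Icc (0 : ℝ) 2, γ t ∈ V) ∧ γ 0 = x ∧ γ 2 = z ∧
      ∀ g : RMetric n, IsRMetricOn g V → plenI g γ 0 2 = plen g γ₁ + plen g γ₂ := by
  obtain ⟨σ₁, ⟨s11, s12, s13, s14⟩, l1, -, c1, -⟩ :=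
    exists_reparam (V := V) (γ := γ₁) (a := 0) (b := 1) zero_le_one isOpen_univ
      (subset_univ _) h₁.1.contDiffOn h₁.2.1
  obtain ⟨σ₂, ⟨s21, s22, s23, s24⟩, l2, c2, -, -⟩ :=
    exists_reparam (V := V) (γ := γ₂) (a := 0) (b := 1) zero_le_one isOpen_univ
      (subset_univ _) h₂.1.contDiffOn h₂.2.1
  rw [h₁.2.2.1] at s13
  rw [h₁.2.2.2] at s14 c1
  rw [h₂.2.2.1] at s23 c2
  rw [h₂.2.2.2] at s24
  set γ : ℝ → EE n := fun t => if t ≤ 1 then σ₁ t else σ₂ (t - 1) with hγ
  have hl : ∀ t < (4 / 3 : ℝ), γ t = σ₁ t := by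
    intro t ht
    by_cases h : t ≤ 1
    · simp only [hγ, if_pos h]
    · simp only [hγ, if_neg h]
      rw [c2 (t - 1) (by linarith), c1 t (by linarith)]
  have hr : ∀ t, (2 / 3 : ℝ) < t → γ t = σ₂ (t - 1) := by
    intro t ht
    by_cases h : t ≤ 1
    · simp only [hγ, if_pos h]
      rw [c2 (t - 1) (by linarith), c1 t ht.le]
    · simp only [hγ, if_neg h]
  have hle : ∀ t < (4 / 3 : ℝ), γ =ᶠ[𝓝 t] σ₁ := fun t ht => by
    filter_upwards [isOpen_Iio.mem_nhds ht] with s hs using hl s hs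
  have hre : ∀ t, (2 / 3 : ℝ) < t → γ =ᶠ[𝓝 t] fun t => σ₂ (t - 1) := fun t ht => by
    filter_upwards [isOpen_Ioi.mem_nhds ht] with s hs using hr s hs
  have hσ₂ : ContDiff ℝ 1 (fun t : ℝ => σ₂ (t - 1)) := s21.comp (contDiff_id.sub contDiff_const)
  have hcd : ContDiff ℝ 1 γ := by
    rw [contDiff_iff_contDiffAt]
    intro t
    by_cases h : t < 4 / 3
    · exact s11.contDiffAt.congr_of_eventuallyEq (hle t h)
    · exact hσ₂.contDiffAt.congr_of_eventuallyEq (hre t (by linarith))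
  have hV : ∀ t ∈ Icc (0 : ℝ) 2, γ t ∈ V := by
    intro t ht
    by_cases h : t ≤ 1
    · rw [hl t (by linarith)]
      exact s12 t ⟨ht.1, h⟩
    · push Not at h
      rw [hr t (by linarith)]
      exact s22 (t - 1) ⟨by linarith, by linarith [ht.2]⟩
  refine ⟨γ, hcd, hV, ?_, ?_, ?_⟩
  · rw [hl 0 (by norm_num), s13]
  · rw [hr 2 (by norm_num)]
    norm_num
    exact s24
  · intro g hg
    rw [← plenI_add hg isOpen_univ hcd.contDiffOn (b := 1) (by norm_num) (by norm_num)
      (subset_univ _) hV]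
    congr 1
    · have e1 : plen g γ₁ = plen g σ₁ := (l1 g hg).symm
      rw [e1]
      unfold plen plenI
      refine intervalIntegral.integral_congr fun t ht => ?_
      rw [uIcc_of_le zero_le_one] at ht
      have ht' : t < 4 / 3 := by linarith [ht.2]
      show Real.sqrt (gquad g (γ t) (deriv γ t)) = Real.sqrt (gquad g (σ₁ t) (deriv σ₁ t))
      rw [hl t ht', (hle t ht').deriv_eq]
    · have e1 : plen g γ₂ = plen g σ₂ := (l2 g hg).symm
      rw [e1]
      unfold plen plenI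
      have h1 : ∀ t ∈ uIcc (1 : ℝ) 2, Real.sqrt (gquad g (γ t) (deriv γ t)) =
          (fun s => Real.sqrt (gquad g (σ₂ s) (deriv σ₂ s))) (t - 1) := by
        intro t ht
        rw [uIcc_of_le (by norm_num)] at ht
        have ht' : 2 / 3 < t := by linarith [ht.1]
        rw [hr t ht', (hre t ht').deriv_eq, deriv_comp_sub_const]
      rw [intervalIntegral.integral_congr h1]
      rw [intervalIntegral.integral_comp_sub_right
        (fun s => Real.sqrt (gquad g (σ₂ s) (deriv σ₂ s))) 1]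
      norm_num

theorem redist_triangle {V : Set (EE n)} {g : RMetric n} (hg : IsRMetricOn g V) (x y z : EE n) :
    redist V g x z ≤ redist V g x y + redist V g y z := by
  have h1 : ∀ γ₁ γ₂ : ℝ → EE n, IsPath V x y γ₁ → IsPath V y z γ₂ →
      redist V g x z ≤ ENNReal.ofReal (plen g γ₁) + ENNReal.ofReal (plen g γ₂) := by
    intro γ₁ γ₂ h₁ h₂
    obtain ⟨γ, hcd, hV, h0, h2, hlen⟩ := mtri_concat h₁ h₂
    have e1 : 0 ≤ plen g γ₁ := plenI_nonneg g γ₁ zero_le_one
    have e2 : 0 ≤ plen g γ₂ := plenI_nonneg g γ₂ zero_le_one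
    rw [← ENNReal.ofReal_add e1 e2, ← hlen g hg, ← h0, ← h2]
    exact redist_le_plenI hg (by norm_num) isOpen_univ (subset_univ _) hcd.contDiffOn hV
  refine ENNReal.le_of_forall_pos_le_add fun ε hε hfin => ?_
  have hε2 : (0 : ℝ≥0∞) < (ε / 2 : ℝ≥0) := by
    rw [ENNReal.coe_pos]
    exact half_pos hε
  have hxy : redist V g x y < ⊤ := lt_of_le_of_lt le_self_add hfin
  have hyz : redist V g y z < ⊤ := lt_of_le_of_lt le_add_self hfin
  obtain ⟨γ₁, ha⟩ := iInf_lt_iff.mp (show (⨅ (γ : ℝ → EE n) (_ : IsPath V x y γ),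
    ENNReal.ofReal (plen g γ)) < redist V g x y + (ε / 2 : ℝ≥0) from
    ENNReal.lt_add_right hxy.ne hε2.ne')
  obtain ⟨h₁, ha⟩ := iInf_lt_iff.mp ha
  obtain ⟨γ₂, hb⟩ := iInf_lt_iff.mp (show (⨅ (γ : ℝ → EE n) (_ : IsPath V y z γ),
    ENNReal.ofReal (plen g γ)) < redist V g y z + (ε / 2 : ℝ≥0) from
    ENNReal.lt_add_right hyz.ne hε2.ne')
  obtain ⟨h₂, hb⟩ := iInf_lt_iff.mp hb
  calc redist V g x z ≤ ENNReal.ofReal (plen g γ₁) + ENNReal.ofReal (plen g γ₂) :=
        h1 γ₁ γ₂ h₁ h₂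
    _ ≤ (redist V g x y + (ε / 2 : ℝ≥0)) + (redist V g y z + (ε / 2 : ℝ≥0)) :=
        add_le_add ha.le hb.le
    _ = redist V g x y + redist V g y z + ((ε / 2 : ℝ≥0) + (ε / 2 : ℝ≥0)) := by
        rw [add_add_add_comm]
    _ = redist V g x y + redist V g y z + ε := by
        rw [← ENNReal.coe_add, add_halves]

/-- if one of the end points is not in `V` there is no path -/
theorem redist_eq_top {V : Set (EE n)} (g : RMetric n) {x y : EE n} (h : ¬ (x ∈ V ∧ y ∈ V)) :
    redist V g x y = ⊤ := by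
  unfold redist
  rw [iInf_eq_top]
  intro γ
  rw [iInf_eq_top]
  intro hγ
  exfalso
  apply h
  obtain ⟨-, h2, h3, h4⟩ := hγ
  constructor
  · rw [← h3]
    exact h2 0 ⟨le_rfl, zero_le_one⟩
  · rw [← h4]
    exact h2 1 ⟨zero_le_one, le_rfl⟩

theorem redist_lt_top {V : Set (EE n)} (g : RMetric n) {x y : EE n} {γ : ℝ → EE n}
    (h : IsPath V x y γ) : redist V g x y < ⊤ :=
  lt_of_le_of_lt (iInf₂_le γ h) ENNReal.ofReal_lt_top

/-- smaller sets have larger distances -/
theorem redist_anti {V V' : Set (EE n)} (h : V' ⊆ V) (g : RMetric n) (x y : EE n) :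
    redist V g x y ≤ redist V' g x y := by
  refine le_iInf₂ fun γ hγ => ?_
  exact iInf₂_le γ ⟨hγ.1, fun t ht => h (hγ.2.1 t ht), hγ.2.2⟩

/-- only the values of `g` on `V` matter -/
theorem redist_congr {V : Set (EE n)} {g g' : RMetric n} (h : ∀ x ∈ V, g x = g' x) (x y : EE n) :
    redist V g x y = redist V g' x y := by
  unfold redist
  refine iInf_congr fun γ => iInf_congr fun hγ => ?_
  congr 1
  unfold plen
  refine intervalIntegral.integral_congr fun t ht => ?_
  rw [uIcc_of_le zero_le_one] at ht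
  show Real.sqrt (gquad g (γ t) (deriv γ t)) = Real.sqrt (gquad g' (γ t) (deriv γ t))
  unfold gquad
  rw [h _ (hγ.2.1 t ht)]

theorem IsPath.symm {V : Set (EE n)} {x y : EE n} {γ : ℝ → EE n} (h : IsPath V x y γ) :
    ∃ σ, IsPath V y x σ := ⟨_, mtri_rev_isPath h⟩

theorem IsPath.trans {V : Set (EE n)} {x y z : EE n} {γ σ : ℝ → EE n} (h : IsPath V x y γ)
    (h' : IsPath V y z σ) : ∃ τ, IsPath V x z τ := by
  obtain ⟨τ, hcd, hV, h0, h2, -⟩ := mtri_concat h h'
  obtain ⟨ρ, hρ, -⟩ := exists_reparam (V := V) (γ := τ) (a := 0) (b := 2) (by norm_num)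
    isOpen_univ (subset_univ _) hcd.contDiffOn hV
  rw [h0, h2] at hρ
  exact ⟨ρ, hρ⟩

/-- segments in balls -/
theorem isPath_segment {V : Set (EE n)} {c : EE n} {r : ℝ} (hV : Metric.ball c r ⊆ V)
    {x y : EE n} (hx : x ∈ Metric.ball c r) (hy : y ∈ Metric.ball c r) :
    IsPath V x y (fun t => x + t • (y - x)) := by
  refine ⟨contDiff_const.add (contDiff_id.smul contDiff_const), ?_, ?_, ?_⟩
  · intro t ht
    exact hV ((convex_ball c r).add_smul_sub_mem hx hy ht)
  · show x + (0 : ℝ) • (y - x) = x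
    rw [zero_smul, add_zero]
  · show x + (1 : ℝ) • (y - x) = y
    rw [one_smul, add_sub_cancel]

theorem exists_isPath {V : Set (EE n)} (hV : IsOpen V) (hc : IsPreconnected V) {x y : EE n}
    (hx : x ∈ V) (hy : y ∈ V) : ∃ γ, IsPath V x y γ := by
  have hsub : V ⊆ {z | z ∈ V ∧ ∃ γ, IsPath V x z γ} := by
    refine hc.subset_of_closure_inter_subset ?_ ?_ ?_
    · rw [Metric.isOpen_iff]
      rintro z ⟨hz, γ, hγ⟩
      obtain ⟨r, hr, hball⟩ := Metric.isOpen_iff.mp hV z hz
      refine ⟨r, hr, fun w hw => ⟨hball hw, ?_⟩⟩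
      exact hγ.trans (isPath_segment hball (Metric.mem_ball_self hr) hw)
    · exact ⟨x, hx, hx, fun _ => x, contDiff_const, fun _ _ => hx, rfl, rfl⟩
    · rintro z ⟨hz, hzV⟩
      obtain ⟨r, hr, hball⟩ := Metric.isOpen_iff.mp hV z hzV
      obtain ⟨w, ⟨_, γ, hγ⟩, hw⟩ := Metric.mem_closure_iff.mp hz r hr
      refine ⟨hzV, hγ.trans (isPath_segment hball ?_ (Metric.mem_ball_self hr))⟩
      rw [Metric.mem_ball, dist_comm]
      exact hw
  exact (hsub hy).2

end Pool.Agent.MP39e402
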