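import Pool.Agent.Lib.MP_39e402_gt.MPull
import Pool.Agent.Lib.MP_39e402_gt.MTri

/-!
# Part M, module MHoles: replacing the parts of a path inside finitely many small holes

`U'` contains the path, `G : U' \ ⋃ B_j → U` is `L`-Lipschitz, the images of two points of the
frontier of a hole `B_j` have distance `≤ η_j`. Then
`redist U g (G x) (G y) ≤ L * redist U' g' x y + ∑ η_j`.

Proof. Let `γ` be a path from `x` to `y` in `U'`. Claim (induction on the number of elements of
`J' ⊆ J`): if `a ∈ [0,1]`, `γ a ∉ ⋃_{j ∈ J} B_j` and `γ '' Icc a 1` does not meet `B_j` for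
`j ∈ J \ J'`, then `redist U g (G (γ a)) (G (γ 1)) ≤ ofReal (L * plenI g' γ a 1 + ∑_{j ∈ J'} η j)`.
If `γ '' Icc a 1` meets no `B_j`: `redist_comp_le_plenI`. Otherwise let
`E_j = {t ∈ Icc a 1 | γ t ∈ B_j}` (`j ∈ J'`) and let `j₁` be such that `E_{j₁}` is nonempty and
`s₁ = sInf E_{j₁}` is minimal, `t₁ = sSup E_{j₁}`. Since the `B_j` are open and `γ a, γ 1 ∉ ⋃ B_j`:
`γ s₁, γ t₁ ∈ frontier (B_{j₁})`, hence in no `B_j` (disjointness), `γ '' Icc a s₁` meets no `B_j`
and `γ '' Icc t₁ 1` does not meet `B_{j₁}`. Add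
`redist (G (γ a)) (G (γ s₁)) ≤ L * plenI a s₁` (`redist_comp_le_plenI`),
`redist (G (γ s₁)) (G (γ t₁)) ≤ η j₁` (`hc`), and the induction hypothesis for `J' \ {j₁}` and `t₁`.
-/

open Set Filter Topology MeasureTheory
open scoped ENNReal NNReal ContDiff BigOperators

noncomputable section

namespace Pool.Agent.MP39e402

variable {n : ℕ}

private theorem holes_step {ι : Type} {U U' : Set (EE n)} {g g' : RMetric n}
    (hg : IsRMetricOn g U) (hg' : IsRMetricOn g' U') (J : Finset ι) (B : ι → Set (EE n))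
    (hBo : ∀ j ∈ J, IsOpen (B j)) (hBd : ∀ i ∈ J, ∀ j ∈ J, i ≠ j → Disjoint (B i) (B j))
    (η : ι → ℝ) (hη : ∀ j ∈ J, 0 ≤ η j) {L : ℝ} (hL : 0 < L)
    (G : EE n → EE n) (hG : ContDiffOn ℝ 1 G U')
    (hGU : ∀ x ∈ U', (∀ j ∈ J, x ∉ B j) → G x ∈ U)
    (hGL : ∀ x ∈ U', (∀ j ∈ J, x ∉ B j) → ∀ v : EE n,
      gquad g (G x) (fderiv ℝ G x v) ≤ L ^ 2 * gquad g' x v)
    (hc : ∀ j ∈ J, ∀ x ∈ U' ∩ frontier (B j), ∀ y ∈ U' ∩ frontier (B j),
      redist U g (G x) (G y) ≤ ENNReal.ofReal (η j))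
    {γ : ℝ → EE n} (hγ : ContDiff ℝ 1 γ) (hγU : ∀ t ∈ Icc (0 : ℝ) 1, γ t ∈ U')
    (h1B : ∀ j ∈ J, γ 1 ∉ B j) (m : ℕ) :
    ∀ J' : Finset ι, J' ⊆ J → J'.card = m → ∀ a : ℝ, 0 ≤ a → a ≤ 1 → (∀ j ∈ J, γ a ∉ B j) →
      (∀ j ∈ J, j ∉ J' → ∀ t ∈ Icc a 1, γ t ∉ B j) →
      redist U g (G (γ a)) (G (γ 1)) ≤
        ENNReal.ofReal (L * plenI g' γ a 1 + ∑ j ∈ J', η j) := by
  classical
  have hγc : Continuous γ := hγ.continuous
  -- a part of the path without holes
  have hfree : ∀ a b : ℝ, 0 ≤ a → a ≤ b → b ≤ 1 → (∀ t ∈ Icc a b, ∀ j ∈ J, γ t ∉ B j) →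
      redist U g (G (γ a)) (G (γ b)) ≤ ENNReal.ofReal (L * plenI g' γ a b) := by
    intro a b ha hab hb hfr
    refine redist_comp_le_plenI hg' hg hG hL.le hab isOpen_univ (subset_univ _)
      hγ.contDiffOn (fun t ht => ?_) (fun t ht => ?_) (fun t ht v => ?_)
    · exact hγU t ⟨ha.trans ht.1, ht.2.trans hb⟩
    · exact hGU _ (hγU t ⟨ha.trans ht.1, ht.2.trans hb⟩) (hfr t ht)
    · exact hGL _ (hγU t ⟨ha.trans ht.1, ht.2.trans hb⟩) (hfr t ht) v
  induction m with
  | zero =>
    intro J' hJ' hcard a ha ha1 haB hout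
    have hJ'e : J' = ∅ := Finset.card_eq_zero.1 hcard
    subst hJ'e
    rw [Finset.sum_empty, add_zero]
    exact hfree a 1 ha ha1 le_rfl fun t ht j hj => hout j hj (Finset.notMem_empty j) t ht
  | succ m ih =>
    intro J' hJ' hcard a ha ha1 haB hout
    have hηJ : ∀ j ∈ J', 0 ≤ η j := fun j hj => hη j (hJ' hj)
    by_cases hcase : ∀ j ∈ J', ∀ t ∈ Icc a 1, γ t ∉ B j
    · refine (hfree a 1 ha ha1 le_rfl fun t ht j hj => ?_).trans ?_
      · by_cases hjJ : j ∈ J'
        · exact hcase j hjJ t ht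
        · exact hout j hj hjJ t ht
      · apply ENNReal.ofReal_le_ofReal
        have := Finset.sum_nonneg hηJ
        linarith
    · push Not at hcase
      obtain ⟨j0, hj0, t0, ht0, ht0B⟩ := hcase
      set E : ι → Set ℝ := fun j => {t | t ∈ Icc a 1 ∧ γ t ∈ B j} with hE
      have hEbb : ∀ j, BddBelow (E j) := fun j => ⟨a, fun t ht => ht.1.1⟩
      have hEba : ∀ j, BddAbove (E j) := fun j => ⟨1, fun t ht => ht.1.2⟩
      obtain ⟨j1, hj1, hmin⟩ := Finset.exists_min_image (J'.filter fun j => (E j).Nonempty)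
        (fun j => sInf (E j)) ⟨j0, Finset.mem_filter.2 ⟨hj0, t0, ht0, ht0B⟩⟩
      rw [Finset.mem_filter] at hj1
      obtain ⟨hj1J', hEne⟩ := hj1
      have hj1J : j1 ∈ J := hJ' hj1J'
      set s1 : ℝ := sInf (E j1) with hs1
      set t1 : ℝ := sSup (E j1) with ht1
      have has1 : a ≤ s1 := le_csInf hEne fun t ht => ht.1.1
      have ht11 : t1 ≤ 1 := csSup_le hEne fun t ht => ht.1.2
      have hs1t1 : s1 ≤ t1 := csInf_le_csSup hEne (hEbb j1) (hEba j1)
      have hs11 : s1 ≤ 1 := hs1t1.trans ht11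
      have hat1 : a ≤ t1 := has1.trans hs1t1
      have hs1mem : s1 ∈ Icc (0 : ℝ) 1 := ⟨ha.trans has1, hs11⟩
      have ht1mem : t1 ∈ Icc (0 : ℝ) 1 := ⟨ha.trans hat1, ht11⟩
      have himg : γ '' E j1 ⊆ B j1 := by
        rintro _ ⟨t, ht, rfl⟩
        exact ht.2
      have hs1cl : γ s1 ∈ closure (B j1) := by
        have h1 : s1 ∈ closure (E j1) := csInf_mem_closure hEne (hEbb j1)
        have h2 : γ s1 ∈ closure (γ '' E j1) := image_closure_subset_closure_image hγc ⟨s1, h1, rfl⟩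
        exact closure_mono himg h2
      have ht1cl : γ t1 ∈ closure (B j1) := by
        have h1 : t1 ∈ closure (E j1) := csSup_mem_closure hEne (hEba j1)
        have h2 : γ t1 ∈ closure (γ '' E j1) := image_closure_subset_closure_image hγc ⟨t1, h1, rfl⟩
        exact closure_mono himg h2
      have hs1n : γ s1 ∉ B j1 := by
        intro hmem
        rcases has1.eq_or_lt with heq | hlt
        · rw [← heq] at hmem
          exact haB j1 hj1J hmem
        · have hop : IsOpen (γ ⁻¹' B j1) := (hBo j1 hj1J).preimage hγc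
          obtain ⟨δ, hδ, hball⟩ := Metric.isOpen_iff.1 hop s1 hmem
          set t := max a (s1 - δ / 2) with htdef
          have hts : t < s1 := max_lt hlt (by linarith)
          have hta : a ≤ t := le_max_left _ _
          have htδ : s1 - δ / 2 ≤ t := le_max_right _ _
          have htB : γ t ∈ B j1 := by
            apply hball
            rw [Metric.mem_ball, Real.dist_eq, abs_lt]
            constructor <;> linarith
          have : s1 ≤ t := csInf_le (hEbb j1) ⟨⟨hta, by linarith⟩, htB⟩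
          linarith
      have ht1n : γ t1 ∉ B j1 := by
        intro hmem
        rcases ht11.eq_or_lt with heq | hlt
        · rw [heq] at hmem
          exact h1B j1 hj1J hmem
        · have hop : IsOpen (γ ⁻¹' B j1) := (hBo j1 hj1J).preimage hγc
          obtain ⟨δ, hδ, hball⟩ := Metric.isOpen_iff.1 hop t1 hmem
          set t := min 1 (t1 + δ / 2) with htdef
          have hts : t1 < t := lt_min hlt (by linarith)
          have hta : t ≤ 1 := min_le_left _ _
          have htδ : t ≤ t1 + δ / 2 := min_le_right _ _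
          have htB : γ t ∈ B j1 := by
            apply hball
            rw [Metric.mem_ball, Real.dist_eq, abs_lt]
            constructor <;> linarith
          have : t ≤ t1 := le_csSup (hEba j1) ⟨⟨by linarith, hta⟩, htB⟩
          linarith
      have hcln : ∀ z ∈ closure (B j1), ∀ j ∈ J, j ≠ j1 → z ∉ B j := by
        intro z hz j hj hne hzB
        have hd : Disjoint (closure (B j1)) (B j) :=
          ((hBd j1 hj1J j hj hne.symm)).closure_left (hBo j hj)
        exact Set.disjoint_left.1 hd hz hzB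
      have hs1all : ∀ j ∈ J, γ s1 ∉ B j := by
        intro j hj
        by_cases hjj : j = j1
        · subst hjj; exact hs1n
        · exact hcln _ hs1cl j hj hjj
      have ht1all : ∀ j ∈ J, γ t1 ∉ B j := by
        intro j hj
        by_cases hjj : j = j1
        · subst hjj; exact ht1n
        · exact hcln _ ht1cl j hj hjj
      have hfr1 : ∀ t ∈ Icc a s1, ∀ j ∈ J, γ t ∉ B j := by
        intro t ht j hj hmem
        by_cases hjJ : j ∈ J'
        · have htE : t ∈ E j := ⟨⟨ht.1, ht.2.trans hs11⟩, hmem⟩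
          have h1 : s1 ≤ sInf (E j) := hmin j (Finset.mem_filter.2 ⟨hjJ, ⟨t, htE⟩⟩)
          have h2 : sInf (E j) ≤ t := csInf_le (hEbb j) htE
          have h3 : t = s1 := le_antisymm ht.2 (h1.trans h2)
          rw [h3] at hmem
          exact hs1all j hj hmem
        · exact hout j hj hjJ t ⟨ht.1, ht.2.trans hs11⟩ hmem
      have hstep1 := hfree a s1 ha has1 hs11 hfr1
      have hstep2 : redist U g (G (γ s1)) (G (γ t1)) ≤ ENNReal.ofReal (η j1) := by
        refine hc j1 hj1J _ ⟨hγU s1 hs1mem, ?_⟩ _ ⟨hγU t1 ht1mem, ?_⟩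
        · rw [(hBo j1 hj1J).frontier_eq]
          exact ⟨hs1cl, hs1n⟩
        · rw [(hBo j1 hj1J).frontier_eq]
          exact ⟨ht1cl, ht1n⟩
      have hstep3 := ih (J'.erase j1) ((Finset.erase_subset _ _).trans hJ')
        (by rw [Finset.card_erase_of_mem hj1J', hcard]; rfl) t1 ht1mem.1 ht11 ht1all (by
          intro j hj hjn t ht hmem
          by_cases hjj : j = j1
          · subst hjj
            rcases ht.1.eq_or_lt with heq | hlt
            · rw [← heq] at hmem
              exact ht1n hmem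
            · have : t ≤ t1 := le_csSup (hEba j) ⟨⟨hat1.trans ht.1, ht.2⟩, hmem⟩
              linarith
          · have hjn' : j ∉ J' := fun h => hjn (Finset.mem_erase.2 ⟨hjj, h⟩)
            exact hout j hj hjn' t ⟨hat1.trans ht.1, ht.2⟩ hmem)
      have hsum : ∑ j ∈ J', η j = η j1 + ∑ j ∈ J'.erase j1, η j :=
        (Finset.add_sum_erase J' η hj1J').symm
      have hUI : ∀ u v : ℝ, 0 ≤ u → v ≤ 1 → ∀ t ∈ Icc u v, γ t ∈ U' := fun u v hu hv t ht =>
        hγU t ⟨hu.trans ht.1, ht.2.trans hv⟩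
      have hadd1 := plenI_add hg' isOpen_univ hγ.contDiffOn has1 hs11 (subset_univ _)
        (hUI a 1 ha le_rfl)
      have hadd2 := plenI_add hg' isOpen_univ hγ.contDiffOn hs1t1 ht11 (subset_univ _)
        (hUI s1 1 hs1mem.1 le_rfl)
      have hnn := plenI_nonneg g' γ hs1t1
      have hnn1 := plenI_nonneg g' γ has1
      have hnn3 := plenI_nonneg g' γ ht11
      have hη1 : 0 ≤ η j1 := hη j1 hj1J
      have hη2 : 0 ≤ ∑ j ∈ J'.erase j1, η j :=
        Finset.sum_nonneg fun j hj => hηJ j (Finset.mem_of_mem_erase hj)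
      calc redist U g (G (γ a)) (G (γ 1))
          ≤ redist U g (G (γ a)) (G (γ s1)) + redist U g (G (γ s1)) (G (γ 1)) :=
            redist_triangle hg _ _ _
        _ ≤ redist U g (G (γ a)) (G (γ s1)) +
              (redist U g (G (γ s1)) (G (γ t1)) + redist U g (G (γ t1)) (G (γ 1))) := by
            gcongr
            exact redist_triangle hg _ _ _
        _ ≤ ENNReal.ofReal (L * plenI g' γ a s1) + (ENNReal.ofReal (η j1) +
              ENNReal.ofReal (L * plenI g' γ t1 1 + ∑ j ∈ J'.erase j1, η j)) := by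
            gcongr
        _ = ENNReal.ofReal (L * plenI g' γ a s1 + (η j1 +
              (L * plenI g' γ t1 1 + ∑ j ∈ J'.erase j1, η j))) := by
            rw [← ENNReal.ofReal_add hη1 (by positivity), ← ENNReal.ofReal_add (by positivity)
              (by positivity)]
        _ ≤ ENNReal.ofReal (L * plenI g' γ a 1 + ∑ j ∈ J', η j) := by
            apply ENNReal.ofReal_le_ofReal
            rw [hsum]
            have : L * plenI g' γ a s1 + L * plenI g' γ t1 1 ≤ L * plenI g' γ a 1 := by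
              rw [← mul_add]
              apply mul_le_mul_of_nonneg_left _ hL.le
              linarith
            linarith

theorem redist_le_of_holes {ι : Type} {U U' : Set (EE n)} {g g' : RMetric n}
    (hg : IsRMetricOn g U) (hg' : IsRMetricOn g' U') (J : Finset ι) (B : ι → Set (EE n))
    (hBo : ∀ j ∈ J, IsOpen (B j)) (hBd : ∀ i ∈ J, ∀ j ∈ J, i ≠ j → Disjoint (B i) (B j))
    (η : ι → ℝ) (hη : ∀ j ∈ J, 0 ≤ η j) {L : ℝ} (hL : 0 < L)
    (G : EE n → EE n) (hG : ContDiffOn ℝ 1 G U')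
    (hGU : ∀ x ∈ U', (∀ j ∈ J, x ∉ B j) → G x ∈ U)
    (hGL : ∀ x ∈ U', (∀ j ∈ J, x ∉ B j) → ∀ v : EE n,
      gquad g (G x) (fderiv ℝ G x v) ≤ L ^ 2 * gquad g' x v)
    (hc : ∀ j ∈ J, ∀ x ∈ U' ∩ frontier (B j), ∀ y ∈ U' ∩ frontier (B j),
      redist U g (G x) (G y) ≤ ENNReal.ofReal (η j))
    {x y : EE n} (hx : x ∈ U') (hxB : ∀ j ∈ J, x ∉ B j) (hy : y ∈ U') (hyB : ∀ j ∈ J, y ∉ B j) :
    redist U g (G x) (G y) ≤
      ENNReal.ofReal L * redist U' g' x y + ENNReal.ofReal (∑ j ∈ J, η j) := by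
  unfold redist
  rw [ENNReal.mul_iInf_of_ne (ENNReal.ofReal_pos.2 hL).ne' ENNReal.ofReal_ne_top, ENNReal.iInf_add]
  refine le_iInf fun γ => ?_
  rw [ENNReal.mul_iInf_of_ne (ENNReal.ofReal_pos.2 hL).ne' ENNReal.ofReal_ne_top, ENNReal.iInf_add]
  refine le_iInf fun hγ => ?_
  obtain ⟨hγ1, hγ2, hγ3, hγ4⟩ := hγ
  have hsn : 0 ≤ ∑ j ∈ J, η j := Finset.sum_nonneg hη
  have hpl : 0 ≤ plenI g' γ 0 1 := plenI_nonneg g' γ zero_le_one
  have h := holes_step hg hg' J B hBo hBd η hη hL G hG hGU hGL hc hγ1 hγ2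
    (by rw [hγ4]; exact hyB) J.card J (Finset.Subset.refl J) rfl 0 le_rfl zero_le_one
    (by rw [hγ3]; exact hxB) (fun j hj hjn => absurd hj hjn)
  rw [hγ3, hγ4] at h
  rw [plen_eq_plenI, ← ENNReal.ofReal_mul hL.le, ← ENNReal.ofReal_add (by positivity) hsn]
  exact h

end Pool.Agent.MP39e402
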