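import Pool.Agent.Lib.MP_39e402_gt.MPatch

/-!
# Part M, module MLocInv: local inverses of a local isometry

`fderiv ℝ Φ y` is injective (`gquad h y v > 0` for `v ≠ 0`), hence a continuous linear equivalence
(`LinearEquiv.ofInjectiveEndo`, `LinearMap.toContinuousLinearEquiv`...); inverse function theorem
`ContDiffAt.toOpenPartialHomeomorph` / `ContDiffAt.to_localInverse` gives `Ψ`; shrink the
neighbourhood so that `Ψ` is `C¹` on it, maps it to `V \ T`, and it is contained in `P.U`. The last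
claim follows from `isom` and the chain rule (`Φ ∘ Ψ = id` near `u`).
-/

open Set Filter Topology MeasureTheory
open scoped ENNReal NNReal ContDiff BigOperators

noncomputable section

namespace Pool.Agent.MP39e402

variable {n : ℕ}

theorem LocIso.exists_local_inverse {P : Patch n} {V : Set (EE n)} {h : RMetric n}
    {T : Set (EE n)} {Φ : EE n → EE n} (H : LocIso P V h T Φ) {y : EE n} (hy : y ∈ V \ T) :
    ∃ (N : Set (EE n)) (Ψ : EE n → EE n), IsOpen N ∧ Φ y ∈ N ∧ N ⊆ P.U ∧ ContDiffOn ℝ 1 Ψ N ∧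
      MapsTo Ψ N (V \ T) ∧ Ψ (Φ y) = y ∧ (∀ u ∈ N, Φ (Ψ u) = u) ∧
      ∀ u ∈ N, ∀ v : EE n, gquad h (Ψ u) (fderiv ℝ Ψ u v) = gquad P.g u v := by
  have hopen : IsOpen (V \ T) := H.isOpen_diff
  have hcd : ∀ z ∈ V \ T, ContDiffAt ℝ 1 Φ z := fun z hz =>
    (H.smooth z hz).contDiffAt (hopen.mem_nhds hz)
  have hinj : Function.Injective (fderiv ℝ Φ y : EE n →ₗ[ℝ] EE n) := by
    rw [← LinearMap.ker_eq_bot, LinearMap.ker_eq_bot']
    intro v hv
    by_contra hv0
    have h1 := H.isom y hy v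
    have h2 : fderiv ℝ Φ y v = 0 := hv
    rw [h2, gquad_zero] at h1
    have h3 := gquad_pos H.met hy.1 hv0
    rw [← h1] at h3
    exact lt_irrefl _ h3
  let f' : EE n ≃L[ℝ] EE n :=
    (LinearEquiv.ofInjectiveEndo (fderiv ℝ Φ y : EE n →ₗ[ℝ] EE n) hinj).toContinuousLinearEquiv
  have hf' : (f' : EE n →L[ℝ] EE n) = fderiv ℝ Φ y := by
    apply ContinuousLinearMap.ext
    intro v
    rfl
  have hder : HasFDerivAt Φ (f' : EE n →L[ℝ] EE n) y := by
    rw [hf']
    exact ((hcd y hy).differentiableAt (by norm_num)).hasFDerivAt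
  have hn : (1 : WithTop ℕ∞) ≠ 0 := one_ne_zero
  let e := (hcd y hy).toOpenPartialHomeomorph Φ hder hn
  have hey : y ∈ e.source := (hcd y hy).mem_toOpenPartialHomeomorph_source hder hn
  have hetar : Φ y ∈ e.target := (hcd y hy).image_mem_toOpenPartialHomeomorph_target hder hn
  have hecoe : ∀ z, e z = Φ z := fun z => rfl
  have hsy : e.symm (Φ y) = y := by
    rw [← hecoe y]
    exact e.left_inv hey
  have hC1 : ContDiffAt ℝ 1 e.symm (Φ y) := (hcd y hy).to_localInverse hder hn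
  have ev1 : ∀ᶠ u in 𝓝 (Φ y), ContDiffAt ℝ 1 e.symm u := hC1.eventually (by simp)
  have ev2 : ∀ᶠ u in 𝓝 (Φ y), e.symm u ∈ V \ T := by
    apply hC1.continuousAt.eventually_mem
    rw [hsy]
    exact hopen.mem_nhds hy
  have ev3 : ∀ᶠ u in 𝓝 (Φ y), u ∈ P.U := P.met.isOpen.mem_nhds (H.maps hy)
  have ev4 : ∀ᶠ u in 𝓝 (Φ y), u ∈ e.target := e.open_target.mem_nhds hetar
  obtain ⟨N, hN, hNo, hyN⟩ := eventually_nhds_iff.mp (ev1.and (ev2.and (ev3.and ev4)))
  have hinv : ∀ u ∈ N, Φ (e.symm u) = u := fun u hu => by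
    rw [← hecoe]
    exact e.right_inv (hN u hu).2.2.2
  refine ⟨N, e.symm, hNo, hyN, fun u hu => (hN u hu).2.2.1,
    fun u hu => (hN u hu).1.contDiffWithinAt, fun u hu => (hN u hu).2.1, hsy, hinv, ?_⟩
  intro u hu v
  have hz := (hN u hu).2.1
  rw [← H.isom _ hz, hinv u hu]
  congr 1
  have d1 : HasFDerivAt e.symm (fderiv ℝ e.symm u) u :=
    ((hN u hu).1.differentiableAt (by norm_num)).hasFDerivAt
  have d2 : HasFDerivAt Φ (fderiv ℝ Φ (e.symm u)) (e.symm u) :=
    ((hcd _ hz).differentiableAt (by norm_num)).hasFDerivAt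
  have d3 := d2.comp u d1
  have d4 : HasFDerivAt (Φ ∘ e.symm) (ContinuousLinearMap.id ℝ (EE n)) u := by
    apply (hasFDerivAt_id u).congr_of_eventuallyEq
    filter_upwards [hNo.mem_nhds hu] with z hz
    exact hinv z hz
  have d5 := d3.unique d4
  exact congrArg (fun (l : EE n →L[ℝ] EE n) => l v) d5

end Pool.Agent.MP39e402
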