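import Pool.Agent.Lib.MP_39e402_gt.MDefs

/-!
# Part M, module MNegl: negligible sets

* `negl_plane`: for a `C¹` path `γ` the map `t ↦ (γ t i, γ t j) : ℝ → ℝ × ℝ` has dense complement of
  its range (`ContDiff.dense_compl_range_of_finrank_lt_finrank`); given `w`, move the coordinates
  `i` and `j` of `w` slightly.
* `Negl.union`: for closed `T` the set `{w | ∀ t ∈ Icc 0 1, γ t + w ∉ T}` is open (compactness of
  `γ '' Icc 0 1`), and the intersection of a dense and a dense open set is dense.
* `Negl.subset_closure`: use the constant path.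
-/

open Set Filter Topology MeasureTheory
open scoped ENNReal NNReal ContDiff BigOperators

noncomputable section

namespace Pool.Agent.MP39e402

variable {n : ℕ}

theorem negl_empty : Negl (∅ : Set (EE n)) where
  closed := isClosed_empty
  avoid := fun γ _ => by
    have h1 : {w : EE n | ∀ t ∈ Icc (0 : ℝ) 1, γ t + w ∉ (∅ : Set (EE n))} = univ := by
      ext w
      simp
    rw [h1]
    exact dense_univ

theorem Negl.mono {S T : Set (EE n)} (hT : Negl T) (hS : IsClosed S) (h : S ⊆ T) : Negl S where
  closed := hS
  avoid := fun γ hγ => by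
    refine (hT.avoid γ hγ).mono ?_
    intro w hw t ht hS
    exact hw t ht (h hS)

theorem isOpen_avoid {T : Set (EE n)} (hT : IsClosed T) {γ : ℝ → EE n} (hγ : Continuous γ) :
    IsOpen {w : EE n | ∀ t ∈ Icc (0 : ℝ) 1, γ t + w ∉ T} := by
  rw [isOpen_iff_eventually]
  intro w₀ hw₀
  apply isCompact_Icc.eventually_forall_of_forall_eventually
  intro t ht
  have hopen : IsOpen {z : EE n × ℝ | γ z.2 + z.1 ∈ Tᶜ} :=
    hT.isOpen_compl.preimage ((hγ.comp continuous_snd).add continuous_fst)
  exact hopen.mem_nhds (hw₀ t ht)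

theorem Negl.union {S T : Set (EE n)} (hS : Negl S) (hT : Negl T) : Negl (S ∪ T) where
  closed := hS.closed.union hT.closed
  avoid := fun γ hγ => by
    have h1 := (hS.avoid γ hγ).inter_of_isOpen_right (hT.avoid γ hγ)
      (isOpen_avoid hT.closed hγ.continuous)
    refine h1.mono ?_
    rintro w ⟨hw1, hw2⟩ t ht (h | h)
    · exact hw1 t ht h
    · exact hw2 t ht h

theorem negl_plane {i j : Fin n} (hij : i ≠ j) (a b : ℝ) :
    Negl {x : EE n | x i = a ∧ x j = b} where
  closed := by
    have h1 : Continuous fun x : EE n => x i := (EuclideanSpace.proj i).continuous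
    have h2 : Continuous fun x : EE n => x j := (EuclideanSpace.proj j).continuous
    exact (isClosed_eq h1 continuous_const).inter (isClosed_eq h2 continuous_const)
  avoid := fun γ hγ => by
    let π : EE n →L[ℝ] ℝ × ℝ := (EuclideanSpace.proj (𝕜 := ℝ) i).prod (EuclideanSpace.proj j)
    have hπ : Function.Surjective π := by
      rintro ⟨p, q⟩
      refine ⟨EuclideanSpace.single i p + EuclideanSpace.single j q, ?_⟩
      apply Prod.ext
      · change (EuclideanSpace.single i p + EuclideanSpace.single j q : EE n) i = p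
        simp [hij]
      · change (EuclideanSpace.single i p + EuclideanSpace.single j q : EE n) j = q
        simp [hij.symm]
    have hopen : IsOpenMap π := π.isOpenMap hπ
    let f : ℝ → ℝ × ℝ := fun t => (a, b) - π (γ t)
    have hf : ContDiff ℝ 1 f := contDiff_const.sub (π.contDiff.comp hγ)
    have hd : Dense (range f)ᶜ := hf.dense_compl_range_of_finrank_lt_finrank (by simp)
    refine (hd.preimage hopen).mono ?_
    rintro w hw t - ⟨h1, h2⟩
    apply hw
    refine ⟨t, ?_⟩
    have e1 : (γ t) i + w i = a := h1
    have e2 : (γ t) j + w j = b := h2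
    apply Prod.ext
    · change a - (γ t) i = w i
      linarith
    · change b - (γ t) j = w j
      linarith

theorem Negl.subset_closure {V T : Set (EE n)} (hV : IsOpen V) (hT : Negl T) :
    V ⊆ closure (V \ T) := by
  intro x hx
  rw [mem_closure_iff_nhds]
  intro N hN
  have h1 : (fun w : EE n => x + w) ⁻¹' (N ∩ V) ∈ 𝓝 (0 : EE n) := by
    have hc : ContinuousAt (fun w : EE n => x + w) 0 := by fun_prop
    apply hc.preimage_mem_nhds
    rw [add_zero]
    exact inter_mem hN (hV.mem_nhds hx)
  obtain ⟨w, hw1, hw2⟩ := (hT.avoid (fun _ => x) contDiff_const).inter_nhds_nonempty h1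
  exact ⟨x + w, hw2.1, hw2.2, hw1 0 ⟨le_rfl, zero_le_one⟩⟩

end Pool.Agent.MP39e402
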