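import Pool.Agent.Lib.MP_39e402_gt.MPatch

/-!
# Part M, module MPoint: pointwise upper semicontinuity of the distances, properness

`eventually_redist_le`: take a path `γ` of length `< redist + ε` (if the distance is finite, which is
so because `P` is a patch) and `K = γ '' Icc 0 1`; for large `k` it is a path in `(Q k).U` of the
same length (the derivative is not affected: only `g` at the points of `K` is needed).
-/

open Set Filter Topology MeasureTheory
open scoped ENNReal NNReal ContDiff BigOperators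

noncomputable section

namespace Pool.Agent.MP39e402

variable {n : ℕ}

theorem eventually_redist_le (P : Patch n) (U : ℕ → Set (EE n)) (g : ℕ → RMetric n)
    (hf : ∀ K : Set (EE n), IsCompact K → K ⊆ P.U →
      ∀ᶠ k in atTop, K ⊆ U k ∧ ∀ x ∈ K, g k x = P.g x)
    {x y : EE n} (hx : x ∈ P.U) (hy : y ∈ P.U) {ε : ℝ} (hε : 0 < ε) :
    ∀ᶠ k in atTop, redist (U k) (g k) x y ≤ redist P.U P.g x y + ENNReal.ofReal ε := by
  have hfin : redist P.U P.g x y ≠ ⊤ := (P.rd_lt_top hx hy).ne
  have hlt : redist P.U P.g x y < redist P.U P.g x y + ENNReal.ofReal ε :=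
    ENNReal.lt_add_right hfin (by simpa using hε)
  unfold redist at hlt
  rw [iInf_lt_iff] at hlt
  obtain ⟨γ, hγ⟩ := hlt
  rw [iInf_lt_iff] at hγ
  obtain ⟨hp, hγ⟩ := hγ
  have hK : IsCompact (γ '' Icc (0 : ℝ) 1) := isCompact_Icc.image hp.1.continuous
  have hKU : γ '' Icc (0 : ℝ) 1 ⊆ P.U := by
    rintro _ ⟨t, ht, rfl⟩
    exact hp.2.1 t ht
  filter_upwards [hf _ hK hKU] with k hk
  have hp' : IsPath (U k) x y γ :=
    ⟨hp.1, fun t ht => hk.1 ⟨t, ht, rfl⟩, hp.2.2.1, hp.2.2.2⟩
  have hlen : plen (g k) γ = plen P.g γ := by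
    unfold plen
    refine intervalIntegral.integral_congr fun t ht => ?_
    rw [uIcc_of_le zero_le_one] at ht
    simp only [gquad, hk.2 (γ t) ⟨t, ht, rfl⟩]
  have h1 : redist (U k) (g k) x y ≤ ENNReal.ofReal (plen (g k) γ) := iInf₂_le γ hp'
  rw [hlen] at h1
  exact h1.trans hγ.le

/-- bounded sequences of points of the patch have Cauchy subsequences -/
def Patch.BddCauchy (P : Patch n) (q : P.Pt) : Prop :=
  ∀ y : ℕ → P.Pt, (∃ R : ℝ, ∀ j, dist q (y j) ≤ R) →
    ∃ φ : ℕ → ℕ, StrictMono φ ∧ CauchySeq (fun j => y (φ j))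

private theorem mpoint_cauchy_coe {P : Patch n} {y : ℕ → P.Pt}
    (h : CauchySeq (fun j => (y j : P.Comp))) : CauchySeq y := by
  rw [Metric.cauchySeq_iff] at h ⊢
  intro ε hε
  obtain ⟨N, hN⟩ := h ε hε
  refine ⟨N, fun m hm k hk => ?_⟩
  have := hN m hm k hk
  rwa [UniformSpace.Completion.dist_eq] at this

theorem Patch.bddCauchy_iff (P : Patch n) (q : P.Pt) :
    P.BddCauchy q ↔ ∀ R : ℝ, TotallyBounded (Metric.closedBall q R) := by
  constructor
  · intro h R
    rw [Metric.totallyBounded_iff]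
    by_contra hcon
    push Not at hcon
    obtain ⟨ε, hε, hcon⟩ := hcon
    obtain ⟨f, hf1, hf2⟩ := exists_seq_of_forall_finset_exists
      (fun y : P.Pt => dist q y ≤ R) (fun x y => ε ≤ dist x y) (by
        intro s _
        have h1 := hcon (s : Set P.Pt) s.finite_toSet
        rw [Set.not_subset] at h1
        obtain ⟨y, hy, hy'⟩ := h1
        refine ⟨y, by rwa [Metric.mem_closedBall, dist_comm] at hy, fun x hx => ?_⟩
        by_contra hlt
        push Not at hlt
        apply hy'
        rw [Set.mem_iUnion₂]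
        exact ⟨x, hx, by rw [Metric.mem_ball, dist_comm]; exact hlt⟩)
    obtain ⟨φ, hφ, hc⟩ := h f ⟨R, hf1⟩
    rw [Metric.cauchySeq_iff] at hc
    obtain ⟨N, hN⟩ := hc ε hε
    have h1 := hN N le_rfl (N + 1) (Nat.le_succ N)
    have h2 := hf2 (φ N) (φ (N + 1)) (hφ (Nat.lt_succ_self N))
    linarith
  · rintro h y ⟨R, hR⟩
    have h1 : TotallyBounded (closure ((fun z : P.Pt => (z : P.Comp)) '' Metric.closedBall q R)) :=
      ((h R).image (UniformSpace.Completion.uniformContinuous_coe P.Pt)).closure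
    have h2 : IsCompact (closure ((fun z : P.Pt => (z : P.Comp)) '' Metric.closedBall q R)) :=
      h1.isCompact_of_isClosed isClosed_closure
    obtain ⟨a, -, φ, hφ, hlim⟩ := h2.tendsto_subseq (x := fun j => (y j : P.Comp)) (fun j =>
      subset_closure ⟨y j, by rw [Metric.mem_closedBall, dist_comm]; exact hR j, rfl⟩)
    exact ⟨φ, hφ, mpoint_cauchy_coe hlim.cauchySeq⟩

theorem Patch.properSpace_comp (P : Patch n) (q : P.Pt) (h : P.BddCauchy q) :
    ProperSpace P.Comp := by
  have hc : ∀ R : ℝ, IsCompact (Metric.closedBall (q : P.Comp) R) := by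
    intro R
    have h1 : TotallyBounded
        (closure ((fun z : P.Pt => (z : P.Comp)) '' Metric.closedBall q (R + 1))) :=
      (((P.bddCauchy_iff q).1 h (R + 1)).image
        (UniformSpace.Completion.uniformContinuous_coe P.Pt)).closure
    have h2 : Metric.closedBall (q : P.Comp) R ⊆
        closure ((fun z : P.Pt => (z : P.Comp)) '' Metric.closedBall q (R + 1)) := by
      intro p hp
      obtain ⟨y, -, hy⟩ := P.exists_seq_tendsto p
      rw [Metric.mem_closedBall] at hp
      refine mem_closure_of_tendsto hy ?_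
      have h3 : ∀ᶠ j in atTop, dist (y j : P.Comp) p < 1 := by
        rw [Metric.tendsto_nhds] at hy
        exact hy 1 one_pos
      filter_upwards [h3] with j hj
      refine ⟨y j, ?_, rfl⟩
      rw [Metric.mem_closedBall, ← UniformSpace.Completion.dist_eq]
      have h4 := dist_triangle (y j : P.Comp) p (q : P.Comp)
      linarith
    exact (h1.subset h2).isCompact_of_isClosed Metric.isClosed_closedBall
  exact ProperSpace.of_seq_closedBall (l := atTop) (x := (q : P.Comp)) (r := fun R : ℝ => R)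
    tendsto_id (Filter.Eventually.of_forall hc)

/-- finite `ε`-nets of the balls of a patch -/
theorem Patch.BddCauchy.exists_net {P : Patch n} {q : P.Pt} (h : P.BddCauchy q) (R : ℝ) {ε : ℝ}
    (hε : 0 < ε) : ∃ F : Finset P.Pt, q ∈ F ∧ ∀ y : P.Pt, dist q y ≤ R → ∃ z ∈ F, dist y z < ε := by
  classical
  have h1 := (P.bddCauchy_iff q).1 h R
  rw [Metric.totallyBounded_iff] at h1
  obtain ⟨t, ht, hsub⟩ := h1 ε hε
  refine ⟨insert q ht.toFinset, Finset.mem_insert_self _ _, fun y hy => ?_⟩
  have h2 : y ∈ Metric.closedBall q R := by rw [Metric.mem_closedBall, dist_comm]; exact hy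
  obtain ⟨z, hz, hyz⟩ := Set.mem_iUnion₂.1 (hsub h2)
  exact ⟨z, Finset.mem_insert_of_mem (ht.mem_toFinset.2 hz), hyz⟩

end Pool.Agent.MP39e402
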