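import Pool.Agent.Lib.MP_39e402_gt.MQuad

/-!
# Part M, module MReparam: a `C¹` path on `[a, b]` bounds the Riemannian distance

Paths in `IsPath` are `C¹` on the whole of `ℝ`; here `γ` is only `C¹` near `[a, b]`.
Proof: reparametrise with `φ s = a + (b - a) * Real.smoothTransition s` (smooth, monotone,
`0` for `s ≤ 0`, `1` for `s ≥ 1`), so `γ ∘ φ` is `C¹` on `ℝ`; its length is `plenI g γ a b` by the
substitution rule (`intervalIntegral.integral_comp_mul_deriv'''` or similar; the derivative of `φ`
is `≥ 0`, so it comes out of the square root, `gquad_smul`).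
`exists_isPath_of_path` also records that the reparametrised path is constant near the endpoints
(used for concatenation).
-/

open Set Filter Topology MeasureTheory
open scoped ENNReal NNReal ContDiff BigOperators

noncomputable section

namespace Pool.Agent.MP39e402

variable {n : ℕ}

/-- the reparametrisation -/
private def mreparam_phi (a b : ℝ) (t : ℝ) : ℝ := a + (b - a) * Real.smoothTransition (3 * t - 1)

private theorem mreparam_contDiff (a b : ℝ) : ContDiff ℝ 1 (mreparam_phi a b) := by
  unfold mreparam_phi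
  have h1 : ContDiff ℝ 1 (fun t : ℝ => Real.smoothTransition (3 * t - 1)) :=
    Real.smoothTransition.contDiff.comp ((contDiff_const.mul contDiff_id).sub contDiff_const)
  exact contDiff_const.add (contDiff_const.mul h1)

private theorem mreparam_mem {a b : ℝ} (hab : a ≤ b) (t : ℝ) : mreparam_phi a b t ∈ Icc a b := by
  have h1 := Real.smoothTransition.nonneg (3 * t - 1)
  have h2 := Real.smoothTransition.le_one (3 * t - 1)
  unfold mreparam_phi
  constructor
  · nlinarith
  · nlinarith

private theorem mreparam_left (a b : ℝ) {t : ℝ} (ht : t ≤ 1 / 3) : mreparam_phi a b t = a := by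
  unfold mreparam_phi
  rw [Real.smoothTransition.zero_of_nonpos (by linarith)]
  ring

private theorem mreparam_right (a b : ℝ) {t : ℝ} (ht : 2 / 3 ≤ t) : mreparam_phi a b t = b := by
  unfold mreparam_phi
  rw [Real.smoothTransition.one_of_one_le (by linarith)]
  ring

private theorem mreparam_mono {a b : ℝ} (hab : a ≤ b) : Monotone (mreparam_phi a b) := by
  intro s t hst
  unfold mreparam_phi
  have h1 : Real.smoothTransition (3 * s - 1) ≤ Real.smoothTransition (3 * t - 1) :=
    Real.smoothTransition.monotone (by linarith)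
  have : 0 ≤ b - a := by linarith
  have := mul_le_mul_of_nonneg_left h1 this
  linarith

/-- metric free version; the length statement holds for all metrics -/
theorem exists_reparam {V : Set (EE n)} {γ : ℝ → EE n} {a b : ℝ} (hab : a ≤ b) {W : Set ℝ}
    (hW : IsOpen W) (hIW : Icc a b ⊆ W) (hγ : ContDiffOn ℝ 1 γ W) (hV : ∀ t ∈ Icc a b, γ t ∈ V) :
    ∃ σ : ℝ → EE n, IsPath V (γ a) (γ b) σ ∧
      (∀ g : RMetric n, IsRMetricOn g V → plen g σ = plenI g γ a b) ∧
      (∀ t ≤ 1 / 3, σ t = γ a) ∧ (∀ t, 2 / 3 ≤ t → σ t = γ b) ∧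
      (∀ t, σ t ∈ γ '' Icc a b) := by
  have hφ := mreparam_contDiff a b
  have hmem := mreparam_mem hab
  refine ⟨fun t => γ (mreparam_phi a b t), ⟨?_, ?_, ?_, ?_⟩, ?_, ?_, ?_, ?_⟩
  · exact hγ.comp_contDiff hφ fun t => hIW (hmem t)
  · exact fun t _ => hV _ (hmem t)
  · show γ (mreparam_phi a b 0) = γ a
    rw [mreparam_left a b (by norm_num)]
  · show γ (mreparam_phi a b 1) = γ b
    rw [mreparam_right a b (by norm_num)]
  · intro g hg
    have hder : ∀ t, HasDerivAt (mreparam_phi a b) (deriv (mreparam_phi a b) t) t := fun t =>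
      ((hφ.differentiable one_ne_zero) t).hasDerivAt
    have hdnn : ∀ t, 0 ≤ deriv (mreparam_phi a b) t := fun t => (mreparam_mono hab).deriv_nonneg
    have hγd : ∀ t, HasDerivAt γ (deriv γ (mreparam_phi a b t)) (mreparam_phi a b t) := fun t =>
      (((hγ.differentiableOn one_ne_zero) _ (hIW (hmem t))).differentiableAt
        (hW.mem_nhds (hIW (hmem t)))).hasDerivAt
    have hσd : ∀ t, deriv (fun t => γ (mreparam_phi a b t)) t =
        deriv (mreparam_phi a b) t • deriv γ (mreparam_phi a b t) := fun t =>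
      ((hγd t).scomp t (hder t)).deriv
    have hspeed : ∀ t, Real.sqrt (gquad g (γ (mreparam_phi a b t))
        (deriv (fun t => γ (mreparam_phi a b t)) t)) =
        ((fun s => Real.sqrt (gquad g (γ s) (deriv γ s))) ∘ mreparam_phi a b) t *
          deriv (mreparam_phi a b) t := by
      intro t
      rw [hσd, gquad_smul, Real.sqrt_mul (sq_nonneg _), Real.sqrt_sq (hdnn t), mul_comm]
      rfl
    unfold plen plenI
    rw [intervalIntegral.integral_congr fun t _ => hspeed t]
    rw [intervalIntegral.integral_comp_mul_deriv'' (f := mreparam_phi a b)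
      (f' := deriv (mreparam_phi a b)) (g := fun s => Real.sqrt (gquad g (γ s) (deriv γ s)))
      hφ.continuous.continuousOn (fun t _ => (hder t).hasDerivWithinAt)
      (hφ.continuous_deriv le_rfl).continuousOn ?_]
    · rw [mreparam_left a b (by norm_num), mreparam_right a b (by norm_num)]
    · refine (continuousOn_speed hg hW hγ hIW hV).mono ?_
      rintro _ ⟨t, _, rfl⟩
      exact hmem t
  · intro t ht
    show γ (mreparam_phi a b t) = γ a
    rw [mreparam_left a b ht]
  · intro t ht
    show γ (mreparam_phi a b t) = γ b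
    rw [mreparam_right a b ht]
  · exact fun t => ⟨_, hmem t, rfl⟩

/-- a path on `[a, b]` can be replaced by a path on `[0, 1]`, constant near the end points, of the
same length -/
theorem exists_isPath_of_path {V : Set (EE n)} {g : RMetric n} (hg : IsRMetricOn g V)
    {γ : ℝ → EE n} {a b : ℝ} (hab : a ≤ b) {W : Set ℝ} (hW : IsOpen W) (hIW : Icc a b ⊆ W)
    (hγ : ContDiffOn ℝ 1 γ W) (hV : ∀ t ∈ Icc a b, γ t ∈ V) :
    ∃ σ : ℝ → EE n, IsPath V (γ a) (γ b) σ ∧ plen g σ = plenI g γ a b ∧
      (∀ t ≤ 1 / 3, σ t = γ a) ∧ (∀ t, 2 / 3 ≤ t → σ t = γ b) ∧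
      (∀ t, σ t ∈ γ '' Icc a b) := by
  obtain ⟨σ, h1, h2, h3, h4, h5⟩ := exists_reparam hab hW hIW hγ hV
  exact ⟨σ, h1, h2 g hg, h3, h4, h5⟩

theorem redist_le_plenI {V : Set (EE n)} {g : RMetric n} (hg : IsRMetricOn g V)
    {γ : ℝ → EE n} {a b : ℝ} (hab : a ≤ b) {W : Set ℝ} (hW : IsOpen W) (hIW : Icc a b ⊆ W)
    (hγ : ContDiffOn ℝ 1 γ W) (hV : ∀ t ∈ Icc a b, γ t ∈ V) :
    redist V g (γ a) (γ b) ≤ ENNReal.ofReal (plenI g γ a b) := by
  obtain ⟨σ, h1, h2, -⟩ := exists_isPath_of_path hg hab hW hIW hγ hV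
  rw [← h2]
  exact iInf₂_le σ h1

/-- existence of almost optimal paths -/
theorem exists_isPath_lt {V : Set (EE n)} {g : RMetric n} {x y : EE n} {L : ℝ}
    (h : redist V g x y < ENNReal.ofReal L) : ∃ γ, IsPath V x y γ ∧ plen g γ < L := by
  unfold redist at h
  obtain ⟨γ, h1⟩ := iInf_lt_iff.mp h
  obtain ⟨h2, h3⟩ := iInf_lt_iff.mp h1
  refine ⟨γ, h2, ?_⟩
  exact (ENNReal.ofReal_lt_ofReal_iff_of_nonneg (plenI_nonneg g γ zero_le_one)).mp h3

end Pool.Agent.MP39e402
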