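import Pool.Agent.Lib.MP_39e402_gt.UFormD

/-! # MP_39e402, module UFormX: the functions and forms of the core: `tc, n3, NN, kap, wc, rhoP, wvp, wn2, wn3, wrho`

For `t1C < ‖x‖` (i.e. `0 < tc x`): `0 < bC, fC`, `fC ≤ bC` (`isCoreC`).  `n3 ∈ (0,1]` on `{Ur ≠ 0}`,
`NN = b² (1 - n3²) + f² n3² ∈ [f², b²]`, `ρ² = 1 - cos²t n3² = sin²t + cos²t (1 - n3²)`.
`tc x < taC ≤ 1/2` implies `cos (tc x) > 0`, `b = cos t`, `f = sin t cos t` (`isCoreC.fs`), `NN = cos²t ρ²`,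
`kap = 2 cos²t/ρ²`, `wc = n3 cos t ρ = ρ √(1-ρ²)`.
With `n_i = x_i/‖x‖`, `dn_i = (v_i - x_i wR/‖x‖)/‖x‖` (`i = 0,1`):
`wn2 - n3² wth² = dn0² + dn1² + wn3²`, `wvp = n0 dn1 - n1 dn0`. -/

open Real Set Filter Topology MeasureTheory
open scoped ContDiff

noncomputable section

namespace Pool.Agent.MP39e402

/-- `d(x i/‖x‖)` -/
def wni (i : Fin 4) (x v : EE 4) : ℝ := (v i - x i * wR x v / ‖x‖) / ‖x‖

theorem tc_pos {x : EE 4} (h : t1C < ‖x‖) : 0 < tc x := by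
  unfold tc
  linarith

theorem norm_pos_t1 {x : EE 4} (h : t1C < ‖x‖) : 0 < ‖x‖ := 
  lt_trans isCoreC.t1_pos h

theorem n3_pos {x : EE 4} (h : Ur x ≠ 0) : 0 < n3 x := 
  div_pos (Ur_pos h) (norm_pos_Ur h)

theorem n3_nonneg (x : EE 4) : 0 ≤ n3 x := 
  div_nonneg (Ur_nonneg x) (norm_nonneg x)

theorem n3_le_one (x : EE 4) : n3 x ≤ 1 := 
  div_le_one_of_le₀ (Ur_le_norm x) (norm_nonneg x)

theorem n3_eq_one {x : EE 4} (h : x ≠ 0) (h1 : n3 x = 1) : x 0 = 0 ∧ x 1 = 0 := by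
  have hn : 0 < ‖x‖ := norm_pos_iff.2 h
  have e : Ur x = ‖x‖ := (div_eq_one_iff_eq hn.ne').1 h1
  have e2 : x 0 ^ 2 + x 1 ^ 2 = 0 := by
    have h2 := norm_sq4 x
    have h3 := Ur_sq x
    rw [e] at h3
    linarith
  have h0 : x 0 ^ 2 = 0 := by linarith [sq_nonneg (x 0), sq_nonneg (x 1)]
  have h1 : x 1 ^ 2 = 0 := by linarith [sq_nonneg (x 0), sq_nonneg (x 1)]
  exact ⟨pow_eq_zero_iff two_ne_zero |>.1 h0, pow_eq_zero_iff two_ne_zero |>.1 h1⟩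

theorem n3_sq {x : EE 4} (h : x ≠ 0) : (x 0 / ‖x‖) ^ 2 + (x 1 / ‖x‖) ^ 2 + n3 x ^ 2 = 1 := by
  have hn : ‖x‖ ^ 2 ≠ 0 := pow_ne_zero 2 (norm_ne_zero_iff.2 h)
  rw [n3, div_pow, div_pow, div_pow, Ur_sq, ← add_div, ← add_div, div_eq_one_iff_eq hn, norm_sq4]
  ring

theorem n3_smul {c : ℝ} (hc : 0 < c) (x : EE 4) : n3 (c • x) = n3 x := by
  rw [n3, Ur_smul hc.le, norm_smul4 hc.le, mul_div_mul_left _ _ hc.ne']
  rfl


theorem NN_eq (x : EE 4) : NN x = bC (tc x) ^ 2 * (1 - n3 x ^ 2) + fC (tc x) ^ 2 * n3 x ^ 2 := by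
  rw [NN]
  ring

private theorem bf_nonneg {x : EE 4} (h : t1C < ‖x‖) : 0 ≤ bC (tc x) ^ 2 - fC (tc x) ^ 2 := by
  have h1 := isCoreC.f_pos _ (tc_pos h)
  have h2 := isCoreC.f_le _ (tc_pos h)
  have h3 := pow_le_pow_left₀ h1.le h2 2
  linarith

private theorem n3sq_le (x : EE 4) : n3 x ^ 2 ≤ 1 := pow_le_one₀ (n3_nonneg x) (n3_le_one x)

theorem NN_ge {x : EE 4} (h : t1C < ‖x‖) : fC (tc x) ^ 2 ≤ NN x := by
  have h1 := bf_nonneg h
  have h2 := n3sq_le x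
  have h3 := mul_nonneg h1 (sub_nonneg.2 h2)
  rw [NN_eq]
  linarith

theorem NN_pos {x : EE 4} (h : t1C < ‖x‖) : 0 < NN x := 
  lt_of_lt_of_le (pow_pos (isCoreC.f_pos _ (tc_pos h)) 2) (NN_ge h)

theorem NN_le {x : EE 4} (h : t1C < ‖x‖) : NN x ≤ bC (tc x) ^ 2 := by
  have h1 := mul_nonneg (bf_nonneg h) (sq_nonneg (n3 x))
  rw [NN]
  linarith

theorem wc_pos {x : EE 4} (h : t1C < ‖x‖) (hU : Ur x ≠ 0) : 0 < wc x := 
  mul_pos (n3_pos hU) (Real.sqrt_pos.2 (NN_pos h))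


/-! the Fubini-Study zone -/
private theorem cos_tc_pos_le {x : EE 4} (h : t1C < ‖x‖) (ht : tc x ≤ taC) : 0 < cos (tc x) := by
  have h1 := tc_pos h
  have h2 := isCoreC.ta_le
  have h3 := Real.pi_gt_three
  exact Real.cos_pos_of_mem_Ioo ⟨by linarith, by linarith⟩

private theorem sin_tc_pos_le {x : EE 4} (h : t1C < ‖x‖) (ht : tc x ≤ taC) : 0 < sin (tc x) := by
  have h1 := tc_pos h
  have h2 := isCoreC.ta_le
  have h3 := Real.pi_gt_three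
  exact Real.sin_pos_of_pos_of_lt_pi h1 (by linarith)

theorem cos_tc_pos {x : EE 4} (h : t1C < ‖x‖) (ht : tc x < taC) : 0 < cos (tc x) := 
  cos_tc_pos_le h ht.le

theorem sin_tc_pos {x : EE 4} (h : t1C < ‖x‖) (ht : tc x < taC) : 0 < sin (tc x) := 
  sin_tc_pos_le h ht.le

theorem rhoP_sq (x : EE 4) : rhoP x ^ 2 = 1 - cos (tc x) ^ 2 * n3 x ^ 2 := by
  rw [rhoP, Real.sq_sqrt]
  have h1 := Real.cos_sq_le_one (tc x)
  have h2 := mul_le_mul h1 (n3sq_le x) (sq_nonneg _) zero_le_one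
  linarith

theorem rhoP_nonneg (x : EE 4) : 0 ≤ rhoP x := 
  Real.sqrt_nonneg _

theorem rhoP_le_one (x : EE 4) : rhoP x ≤ 1 := by
  refine Real.sqrt_le_one.2 ?_
  have := mul_nonneg (sq_nonneg (cos (tc x))) (sq_nonneg (n3 x))
  linarith

theorem rhoP_ge {x : EE 4} : |sin (tc x)| ≤ rhoP x := by
  apply Real.abs_le_sqrt
  have h1 := mul_le_mul_of_nonneg_left (n3sq_le x) (sq_nonneg (cos (tc x)))
  have h2 := Real.sin_sq_add_cos_sq (tc x)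
  linarith

theorem rhoP_pos {x : EE 4} (h : t1C < ‖x‖) (ht : tc x ≤ taC) : 0 < rhoP x := 
  lt_of_lt_of_le (sin_tc_pos_le h ht) (le_trans (le_abs_self _) rhoP_ge)

theorem rhoP_ge_sin_ta {x : EE 4} (ht : tc x = taC) : sin taC ≤ rhoP x := 
  ht ▸ le_trans (le_abs_self _) rhoP_ge

theorem NN_fs {x : EE 4} (ht : tc x ≤ taC) : NN x = cos (tc x) ^ 2 * rhoP x ^ 2 := by
  obtain ⟨h1, h2⟩ := isCoreC.fs _ ht
  have h3 := Real.sin_sq_add_cos_sq (tc x)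
  rw [NN, h1, h2, rhoP_sq]
  linear_combination (cos (tc x) ^ 2 * n3 x ^ 2) * h3

theorem kap_fs {x : EE 4} (h : t1C < ‖x‖) (ht : tc x ≤ taC) : kap x = 2 * cos (tc x) ^ 2 / rhoP x ^ 2 := by
  obtain ⟨h1, h2⟩ := isCoreC.fs _ ht
  have h3 := Real.sin_sq_add_cos_sq (tc x)
  have hc := cos_tc_pos_le h ht
  have hr := rhoP_pos h ht
  rw [kap, NN_fs ht, h1, h2, div_eq_div_iff (by positivity) (by positivity)]
  linear_combination (-2 * cos (tc x) ^ 2 * rhoP x ^ 2) * h3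

theorem wc_fs {x : EE 4} (h : t1C < ‖x‖) (ht : tc x ≤ taC) : wc x = rhoP x * √(1 - rhoP x ^ 2) := by
  have hc := cos_tc_pos_le h ht
  have hr := rhoP_pos h ht
  have h1 : √(NN x) = cos (tc x) * rhoP x := by
    rw [NN_fs ht, ← mul_pow, Real.sqrt_sq (by positivity)]
  have h2 : √(1 - rhoP x ^ 2) = cos (tc x) * n3 x := by
    rw [rhoP_sq, sub_sub_cancel, ← mul_pow, Real.sqrt_sq (mul_nonneg hc.le (n3_nonneg x))]
  rw [wc, h1, h2]
  ring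


/-! linearity -/
theorem wvp_lin (x : EE 4) : IsLin (wvp x) := 
  (((IsLin.coord 1).const_mul (x 0)).sub ((IsLin.coord 0).const_mul (x 1))).div_const _

theorem wn3_lin (x : EE 4) : IsLin (wn3 x) := 
  ((wU_lin x).div_const _).sub (((wR_lin x).const_mul (Ur x)).div_const _)

theorem wrho_lin (x : EE 4) : IsLin (wrho x) := 
  ((((wn3_lin x).const_mul (cos (tc x))).sub
    ((wR_lin x).const_mul (sin (tc x) * n3 x))).const_mul _).div_const _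

theorem wni_lin (i : Fin 4) (x : EE 4) : IsLin (wni i x) := 
  ((IsLin.coord i).sub (((wR_lin x).const_mul (x i)).div_const _)).div_const _

theorem wn2_isQF (x : EE 4) : IsQF (wn2 x) := 
  (isQF_normsq.sub (wR_lin x).sq_isQF).div_const _


/-! smoothness -/
private theorem Ur_sub : {x : EE 4 | Ur x ≠ 0} ⊆ {x | x ≠ 0} := fun _ hx => ne_zero_Ur hx

private theorem t1_sub : {x : EE 4 | t1C < ‖x‖} ⊆ {x | x ≠ 0} := fun _ hx =>
  norm_pos_iff.1 (norm_pos_t1 hx)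

theorem tc_smooth : ContDiffOn ℝ ∞ tc {x | x ≠ 0} := 
  norm_contDiffOn.sub contDiffOn_const

theorem n3_smooth : ContDiffOn ℝ ∞ n3 {x | Ur x ≠ 0} := 
  Ur_contDiffOn.div (norm_contDiffOn.mono Ur_sub)
    (fun _ hx => (norm_pos_Ur hx).ne')

theorem n3sq_smooth : ContDiffOn ℝ ∞ (fun x => n3 x ^ 2) {x | x ≠ 0} := by
  have h1 : ContDiffOn ℝ ∞ (fun x : EE 4 => (x 2 ^ 2 + x 3 ^ 2) / ‖x‖ ^ 2) {x | x ≠ 0} :=
    (((coord_contDiff 2).contDiffOn.pow 2).add ((coord_contDiff 3).contDiffOn.pow 2)).div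
      (norm_contDiffOn.pow 2) (fun x hx => pow_ne_zero 2 (norm_ne_zero_iff.2 hx))
  refine h1.congr fun x _ => ?_
  simp only [n3, div_pow, Ur_sq]

theorem bC_tc_smooth : ContDiffOn ℝ ∞ (fun x => bC (tc x)) {x | x ≠ 0} := 
  isCoreC.smooth_b.comp_contDiffOn tc_smooth

theorem fC_tc_smooth : ContDiffOn ℝ ∞ (fun x => fC (tc x)) {x | x ≠ 0} := 
  isCoreC.smooth_f.comp_contDiffOn tc_smooth

theorem NN_smooth : ContDiffOn ℝ ∞ NN {x | x ≠ 0} := 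
  (bC_tc_smooth.pow 2).sub (((bC_tc_smooth.pow 2).sub (fC_tc_smooth.pow 2)).mul n3sq_smooth)

theorem kap_smooth : ContDiffOn ℝ ∞ kap {x | t1C < ‖x‖} := 
  (contDiffOn_const.mul (((bC_tc_smooth.mono t1_sub).pow 2).sub
    ((fC_tc_smooth.mono t1_sub).pow 2))).div (NN_smooth.mono t1_sub) (fun _ hx => (NN_pos hx).ne')

theorem wc_smooth : ContDiffOn ℝ ∞ wc {x | t1C < ‖x‖ ∧ Ur x ≠ 0} := 
  (n3_smooth.mono fun _ hx => hx.2).mul
    ((NN_smooth.mono fun _ hx => t1_sub hx.1).sqrt fun _ hx => (NN_pos hx.1).ne')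

private theorem rin_smooth :
    ContDiffOn ℝ ∞ (fun x => 1 - cos (tc x) ^ 2 * n3 x ^ 2) {x : EE 4 | x ≠ 0} :=
  contDiffOn_const.sub (((Real.contDiff_cos.comp_contDiffOn tc_smooth).pow 2).mul n3sq_smooth)

theorem rhoP_smooth : ContDiffOn ℝ ∞ rhoP {x | x ≠ 0 ∧ 0 < rhoP x} := by
  refine (rin_smooth.mono fun _ hx => hx.1).sqrt fun x hx h0 => ?_
  have h1 : rhoP x = 0 := by rw [rhoP, h0, Real.sqrt_zero]
  exact hx.2.ne' h1

theorem rhoP_continuousOn : ContinuousOn rhoP {x | x ≠ 0} := 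
  Real.continuous_sqrt.comp_continuousOn rin_smooth.continuousOn

theorem wvp_smooth (v : EE 4) : ContDiffOn ℝ ∞ (fun x => wvp x v) {x | x ≠ 0} := 
  (((coord_contDiff 0).contDiffOn.mul contDiffOn_const).sub
    ((coord_contDiff 1).contDiffOn.mul contDiffOn_const)).div (norm_contDiffOn.pow 2)
    (fun x hx => pow_ne_zero 2 (norm_ne_zero_iff.2 hx))

theorem wn2_smooth (v : EE 4) : ContDiffOn ℝ ∞ (fun x => wn2 x v) {x | x ≠ 0} := 
  (contDiffOn_const.sub ((wR_smooth v).pow 2)).div (norm_contDiffOn.pow 2)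
    (fun x hx => pow_ne_zero 2 (norm_ne_zero_iff.2 hx))

theorem wn3_smooth (v : EE 4) : ContDiffOn ℝ ∞ (fun x => wn3 x v) {x | Ur x ≠ 0} := 
  ((wU_smooth v).div (norm_contDiffOn.mono Ur_sub) (fun _ hx => (norm_pos_Ur hx).ne')).sub
    ((Ur_contDiffOn.mul ((wR_smooth v).mono Ur_sub)).div ((norm_contDiffOn.mono Ur_sub).pow 2)
      (fun _ hx => pow_ne_zero 2 (norm_pos_Ur hx).ne'))

theorem wrho_smooth (v : EE 4) : ContDiffOn ℝ ∞ (fun x => wrho x v) {x | Ur x ≠ 0 ∧ 0 < rhoP x} := by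
  have hs : {x : EE 4 | Ur x ≠ 0 ∧ 0 < rhoP x} ⊆ {x | Ur x ≠ 0} := fun _ hx => hx.1
  have hs' : {x : EE 4 | Ur x ≠ 0 ∧ 0 < rhoP x} ⊆ {x | x ≠ 0} := fun _ hx => ne_zero_Ur hx.1
  have hcos : ContDiffOn ℝ ∞ (fun x => cos (tc x)) {x : EE 4 | Ur x ≠ 0 ∧ 0 < rhoP x} :=
    Real.contDiff_cos.comp_contDiffOn (tc_smooth.mono hs')
  have hsin : ContDiffOn ℝ ∞ (fun x => sin (tc x)) {x : EE 4 | Ur x ≠ 0 ∧ 0 < rhoP x} :=
    Real.contDiff_sin.comp_contDiffOn (tc_smooth.mono hs')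
  have h3 := n3_smooth.mono hs
  exact ((hcos.mul h3).neg.mul ((hcos.mul ((wn3_smooth v).mono hs)).sub
    ((hsin.mul h3).mul ((wR_smooth v).mono hs')))).div
    (rhoP_smooth.mono fun _ hx => ⟨ne_zero_Ur hx.1, hx.2⟩) (fun _ hx => hx.2.ne')


/-! derivatives -/
private theorem line_deriv {f : EE 4 → ℝ} {x : EE 4} (hf : DifferentiableAt ℝ f x) (v : EE 4) :
    HasDerivAt (fun t : ℝ => f (x + t • v)) (fderiv ℝ f x v) 0 := by
  have hl : HasDerivAt (fun t : ℝ => x + t • v) v 0 := by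
    have := ((hasDerivAt_id (0 : ℝ)).smul_const v).const_add x
    simpa using this
  have h1 : HasFDerivAt f (fderiv ℝ f x) (x + (0 : ℝ) • v) := by
    rw [zero_smul, add_zero]
    exact hf.hasFDerivAt
  exact h1.comp_hasDerivAt (0 : ℝ) hl

private theorem diff_n3 {x : EE 4} (h : Ur x ≠ 0) : DifferentiableAt ℝ n3 x :=
  (n3_smooth.differentiableOn (by norm_num)).differentiableAt (isOpen_Ur.mem_nhds h)

private theorem diff_rhoP {x : EE 4} (h : x ≠ 0) (hr : 0 < rhoP x) : DifferentiableAt ℝ rhoP x := by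
  have ho : IsOpen ({x : EE 4 | x ≠ 0} ∩ rhoP ⁻¹' Ioi 0) :=
    rhoP_continuousOn.isOpen_inter_preimage isOpen_ne isOpen_Ioi
  exact (rhoP_smooth.differentiableOn (by norm_num)).differentiableAt (ho.mem_nhds ⟨h, hr⟩)

theorem fderiv_tc {x : EE 4} (h : x ≠ 0) (v : EE 4) : fderiv ℝ tc x v = wR x v := by
  have h1 : tc = fun x : EE 4 => ‖x‖ - t1C := rfl
  rw [h1, fderiv_sub_const, fderiv_norm4 h]

theorem fderiv_n3 {x : EE 4} (h : Ur x ≠ 0) (v : EE 4) : fderiv ℝ n3 x v = wn3 x v := by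
  have hn : ‖x‖ ≠ 0 := (norm_pos_Ur h).ne'
  have h1 := line_deriv (diff_n3 h) v
  have h2 := line_deriv (Ur_contDiffOn.differentiableOn (by norm_num) |>.differentiableAt
    (isOpen_Ur.mem_nhds h)) v
  have h3 := line_deriv (norm_contDiffOn.differentiableOn (by norm_num) |>.differentiableAt
    (isOpen_ne.mem_nhds (ne_zero_Ur h))) v
  rw [fderiv_Ur h] at h2
  rw [fderiv_norm4 (ne_zero_Ur h)] at h3
  have h4 := h2.div h3 (by simpa using hn)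
  have h5 := h1.unique h4
  rw [h5, wn3]
  simp only [zero_smul, add_zero]
  field_simp

theorem fderiv_rhoP {x : EE 4} (h : Ur x ≠ 0) (hr : 0 < rhoP x) (v : EE 4) :
    fderiv ℝ rhoP x v = wrho x v := by
  have h1 := line_deriv (diff_rhoP (ne_zero_Ur h) hr) v
  have h2 := line_deriv (diff_n3 h) v
  have h3 := line_deriv (tc_smooth.differentiableOn (by norm_num) |>.differentiableAt
    (isOpen_ne.mem_nhds (ne_zero_Ur h))) v
  rw [fderiv_n3 h] at h2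
  rw [fderiv_tc (ne_zero_Ur h)] at h3
  have h0 : (1 : ℝ) - cos (tc (x + (0 : ℝ) • v)) ^ 2 * n3 (x + (0 : ℝ) • v) ^ 2 ≠ 0 := by
    simp only [zero_smul, add_zero]
    rw [← rhoP_sq]
    positivity
  have h4 := (((h3.cos.pow 2).mul (h2.pow 2)).const_sub 1).sqrt h0
  have h5 := h1.unique h4
  rw [h5, wrho]
  simp only [zero_smul, add_zero]
  have h6 : √(1 - cos (tc x) ^ 2 * n3 x ^ 2) = rhoP x := rfl
  simp only [Pi.pow_apply, Pi.mul_apply, zero_smul, add_zero, h6]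
  field_simp
  ring

theorem wn3_comp {F : EE 4 → EE 4} {y : EE 4} (hF : DifferentiableAt ℝ F y) (h : Ur (F y) ≠ 0) (v : EE 4) :
    wn3 (F y) (fderiv ℝ F y v) = fderiv ℝ (fun z => n3 (F z)) y v := by
  have h1 := fderiv_comp y (diff_n3 h) hF
  have h2 : (fun z => n3 (F z)) = n3 ∘ F := rfl
  rw [h2, h1, ContinuousLinearMap.comp_apply, fderiv_n3 h]

theorem wrho_comp {F : EE 4 → EE 4} {y : EE 4} (hF : DifferentiableAt ℝ F y) (h : Ur (F y) ≠ 0)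
    (hr : 0 < rhoP (F y)) (v : EE 4) :
    wrho (F y) (fderiv ℝ F y v) = fderiv ℝ (fun z => rhoP (F z)) y v := by
  have h1 := fderiv_comp y (diff_rhoP (ne_zero_Ur h) hr) hF
  have h2 : (fun z => rhoP (F z)) = rhoP ∘ F := rfl
  rw [h2, h1, ContinuousLinearMap.comp_apply, fderiv_rhoP h hr]

theorem rhoP_wrho {x : EE 4} (hr : 0 < rhoP x) (v : EE 4) : rhoP x * wrho x v =
    -(cos (tc x) * n3 x) * (cos (tc x) * wn3 x v - sin (tc x) * n3 x * wR x v) := by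
  rw [wrho]
  field_simp


/-! identities -/
private theorem core_inner {x : EE 4} (h : Ur x ≠ 0) (v : EE 4) :
    ‖x‖ * wR x v = x 0 * v 0 + x 1 * v 1 + Ur x * wU x v := by
  have hn : ‖x‖ ≠ 0 := (norm_pos_Ur h).ne'
  rw [wR, wU]
  field_simp
  ring

theorem wn2_eq {x : EE 4} (h : Ur x ≠ 0) (v : EE 4) :
    wn2 x v - n3 x ^ 2 * wth x v ^ 2 = wni 0 x v ^ 2 + wni 1 x v ^ 2 + wn3 x v ^ 2 := by
  have hn : ‖x‖ ≠ 0 := (norm_pos_Ur h).ne'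
  have h1 := wU_wth_sq h v
  have h2 := norm_sq4 v
  have h3 := core_inner h v
  have h4 := norm_sq4 x
  have h5 := Ur_sq x
  rw [wn2, n3, wni, wni, wn3]
  field_simp
  linear_combination (‖x‖ ^ 2) * h2 - (‖x‖ ^ 2) * h1 - (2 * ‖x‖ * wR x v) * h3 +
    (wR x v ^ 2) * h4 - (wR x v ^ 2) * h5

theorem wvp_eq {x : EE 4} (h : x ≠ 0) (v : EE 4) :
    wvp x v = x 0 / ‖x‖ * wni 1 x v - x 1 / ‖x‖ * wni 0 x v := by
  have hn : ‖x‖ ≠ 0 := norm_ne_zero_iff.2 h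
  rw [wvp, wni, wni]
  field_simp
  ring

theorem wvp_sq_le {x : EE 4} (h : x ≠ 0) (v : EE 4) :
    wvp x v ^ 2 ≤ (1 - n3 x ^ 2) * (wni 0 x v ^ 2 + wni 1 x v ^ 2) := by
  have h1 := n3_sq h
  have h2 : 1 - n3 x ^ 2 = (x 0 / ‖x‖) ^ 2 + (x 1 / ‖x‖) ^ 2 := by linarith
  rw [wvp_eq h, h2]
  have h3 := sq_nonneg (x 0 / ‖x‖ * wni 0 x v + x 1 / ‖x‖ * wni 1 x v)
  linarith

/-- `n · dn = 0` -/
theorem n_dn {x : EE 4} (h : Ur x ≠ 0) (v : EE 4) :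
    x 0 / ‖x‖ * wni 0 x v + x 1 / ‖x‖ * wni 1 x v + n3 x * wn3 x v = 0 := by
  have hn : ‖x‖ ≠ 0 := (norm_pos_Ur h).ne'
  have h3 := core_inner h v
  have h4 := norm_sq4 x
  have h5 := Ur_sq x
  rw [n3, wni, wni, wn3]
  field_simp
  linear_combination (-‖x‖) * h3 + (wR x v) * h4 - (wR x v) * h5

/-- a vector is zero if all forms vanish -/
theorem eq_zero_of_core_forms {x : EE 4} (h : Ur x ≠ 0) {v : EE 4} (h0 : wR x v = 0) (h1 : wni 0 x v = 0)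
    (h2 : wni 1 x v = 0) (h3 : wn3 x v = 0) (h4 : wth x v = 0) : v = 0 := by
  have hn : ‖x‖ ≠ 0 := (norm_pos_Ur h).ne'
  have e0 : v 0 = 0 := by
    rw [wni, h0] at h1
    simpa [hn] using h1
  have e1 : v 1 = 0 := by
    rw [wni, h0] at h2
    simpa [hn] using h2
  have e2 : wU x v = 0 := by
    rw [wn3, h0] at h3
    simpa [hn] using h3
  have h5 := wU_wth_sq h v
  rw [e2, h4] at h5
  have e3 : v 2 ^ 2 = 0 := by linarith [sq_nonneg (v 2), sq_nonneg (v 3)]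
  have e4' : v 3 ^ 2 = 0 := by linarith [sq_nonneg (v 2), sq_nonneg (v 3)]
  exact ext4 e0 e1 (pow_eq_zero_iff two_ne_zero |>.1 e3) (pow_eq_zero_iff two_ne_zero |>.1 e4')


/-- lower bound of the base part of `qC`, `t > 0` -/
theorem base_ge {x : EE 4} (h : t1C < ‖x‖) (hU : Ur x ≠ 0) (v : EE 4) :
    bC (tc x) ^ 2 * fC (tc x) ^ 2 / NN x * (wni 0 x v ^ 2 + wni 1 x v ^ 2) + bC (tc x) ^ 2 * wn3 x v ^ 2 ≤
      bC (tc x) ^ 2 * (wn2 x v - (n3 x) ^ 2 * (wth x v) ^ 2)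
        - bC (tc x) ^ 2 * (bC (tc x) ^ 2 - fC (tc x) ^ 2) / NN x * (wvp x v) ^ 2 := by
  have hN := NN_pos h
  have h1 := wvp_sq_le (ne_zero_Ur hU) v
  have h2 := bf_nonneg h
  rw [wn2_eq hU]
  have h3 : 0 ≤ bC (tc x) ^ 2 * (bC (tc x) ^ 2 - fC (tc x) ^ 2) / NN x := by positivity
  have h4 := mul_le_mul_of_nonneg_left h1 h3
  have h5 : bC (tc x) ^ 2 * (bC (tc x) ^ 2 - fC (tc x) ^ 2) / NN x *
      ((1 - n3 x ^ 2) * (wni 0 x v ^ 2 + wni 1 x v ^ 2)) =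
      bC (tc x) ^ 2 * (wni 0 x v ^ 2 + wni 1 x v ^ 2) -
        bC (tc x) ^ 2 * fC (tc x) ^ 2 / NN x * (wni 0 x v ^ 2 + wni 1 x v ^ 2) := by
    have h6 : (bC (tc x) ^ 2 - fC (tc x) ^ 2) * (1 - n3 x ^ 2) = NN x - fC (tc x) ^ 2 := by
      rw [NN]
      ring
    field_simp
    linear_combination (bC (tc x) ^ 2 * (wni 0 x v ^ 2 + wni 1 x v ^ 2)) * h6
  rw [h5] at h4
  linarith


end Pool.Agent.MP39e402
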