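import Pool.Agent.Lib.MP_39e402_gt.UAdm
import Pool.Agent.Lib.MP_39e402_gt.UFormX

/-! # MP_39e402, module UCs: smoothness of the core form `qC` on `Uc a`

Let `base x v = wR² + b² (wn2 - n3² wth²) - b² (b²-f²)/N wvp²`, `σ = wth - kap wvp`,
`F1 = base + Ψ(wc)² σ²`, `F2 = base + (1/(1-U ρ) - 1/(1-ρ²)) wrho² + ρ² (1-U ρ)/4 σ²`;
`qC = F2` on PZ, `F1` outside.

`AdmC` (UAdm): `0 ≤ a < 1/8`, `a < sin taC`, `Ψ w = w/2` for `w ≥ sin taC/2`, `U ρ = ρ²` for `ρ ≥ min (1/4) (sin taC)`, ...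

* `Uc_open`: `Uc a = {t1 < ‖x‖, Ur ≠ 0} \ {tc x ≤ taC, rhoP x ≤ a}` (at `tc = ta`: `ρ ≥ sin ta > a`).
* smoothness at `x ∈ Uc a`.  Four open sets cover: (i) PZ-interior `{tc < ta, ρ < 1/2}`: `qC = F2` (`ρ > 0` as `t>0`,
  and `ρ > a` gives `U ρ < 1`); (ii) `{tc > ta}`: `qC = F1`; (iii) `{tc < ta, ρ > 1/4}`: `qC = F1`, since on PZ
  with `ρ ≥ 1/4`: `U ρ = ρ²`, `wc = ρ√(1-ρ²) ≥ 0.24 ≥ sin taC/2` (`ta ≤ 1/2`, `sin taC < 0.48`) so `Ψ(wc)² = ρ²(1-ρ²)/4`;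
  (iv) `{tc > τ}`, `τ < ta` with `sin τ cos τ ≥ sin ta/2` (`cos ta ≥ cos (1/2) > 0.87`):
  `qC = F1 + (1/(1-U ρ) - 1/(1-ρ²)) wrho² - ρ² (U ρ - ρ²)/4 σ²` on a neighbourhood of a point with `tc = ta`, where
  `0 < ρ < 1` (if `ρ ≥ 1/2` at the point, simply `F1` by (iii)-type argument, `U ρ = ρ²` for `ρ ≥ 1/4`);
  here for `tc ≥ ta` (near `ta`): `ρ ≥ sin (tc) ≥ sin ta` so `U ρ = ρ²` and the extra terms vanish; for `tc < ta`,
  `ρ < 1/2`: `wc = ρ√(1-ρ²) ≥ sin t cos t ≥ sin ta/2`, so `Ψ(wc)² = ρ²(1-ρ²)/4` and the sum is `F2`; for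
  `tc < ta`, `ρ ≥ 1/2` the extra terms vanish.
-/

open Real Set Filter Topology MeasureTheory
open scoped ContDiff

noncomputable section

namespace Pool.Agent.MP39e402

private def bsC (x v : EE 4) : ℝ :=
  (wR x v) ^ 2 + bC (tc x) ^ 2 * (wn2 x v - (n3 x) ^ 2 * (wth x v) ^ 2)
    - bC (tc x) ^ 2 * (bC (tc x) ^ 2 - fC (tc x) ^ 2) / NN x * (wvp x v) ^ 2

private def sgC (x v : EE 4) : ℝ := wth x v - kap x * wvp x v

private theorem qC_in {Ψ U : ℝ → ℝ} {x : EE 4} (hP : x ∈ PZ) (v : EE 4) :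
    qC Ψ U x v = bsC x v + ((1 / (1 - U (rhoP x)) - 1 / (1 - (rhoP x) ^ 2)) * (wrho x v) ^ 2
          + (rhoP x) ^ 2 * (1 - U (rhoP x)) / 4 * sgC x v ^ 2) := by
  rw [qC, if_pos hP]
  rfl

private theorem qC_out {Ψ U : ℝ → ℝ} {x : EE 4} (hP : x ∉ PZ) (v : EE 4) :
    qC Ψ U x v = bsC x v + (Ψ (wc x)) ^ 2 * sgC x v ^ 2 := by
  rw [qC, if_neg hP]
  rfl

private theorem bsC_isQF (x : EE 4) : IsQF (bsC x) :=
  (((wR_lin x).sq_isQF).add (((wn2_isQF x).sub (((wth_lin x).sq_isQF).const_mul _)).const_mul _)).sub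
    (((wvp_lin x).sq_isQF).const_mul _)

private theorem sgC_lin (x : EE 4) : IsLin (sgC x) :=
  (wth_lin x).sub ((wvp_lin x).const_mul _)

theorem qC_isQF (Ψ U : ℝ → ℝ) (x : EE 4) : IsQF (qC Ψ U x) := by
  by_cases hP : x ∈ PZ
  · have h : qC Ψ U x = fun v => bsC x v +
        ((1 / (1 - U (rhoP x)) - 1 / (1 - (rhoP x) ^ 2)) * (wrho x v) ^ 2
          + (rhoP x) ^ 2 * (1 - U (rhoP x)) / 4 * sgC x v ^ 2) := funext fun v => qC_in hP v
    rw [h]
    exact (bsC_isQF x).add ((((wrho_lin x).sq_isQF).const_mul _).add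
      (((sgC_lin x).sq_isQF).const_mul _))
  · have h : qC Ψ U x = fun v => bsC x v + (Ψ (wc x)) ^ 2 * sgC x v ^ 2 :=
      funext fun v => qC_out hP v
    rw [h]
    exact (bsC_isQF x).add (((sgC_lin x).sq_isQF).const_mul _)


private def DC : Set (EE 4) := {x | t1C < ‖x‖ ∧ Ur x ≠ 0}

private theorem DC_open : IsOpen DC := (isOpen_lt continuous_const continuous_norm).inter isOpen_Ur

private theorem DC_sub : DC ⊆ {x : EE 4 | x ≠ 0} := fun _ hx => ne_zero_Ur hx.2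

private theorem DC_sub_Ur : DC ⊆ {x : EE 4 | Ur x ≠ 0} := fun _ hx => hx.2

private theorem DC_sub_t1 : DC ⊆ {x : EE 4 | t1C < ‖x‖} := fun _ hx => hx.1

private theorem tc_cont : Continuous tc := continuous_norm.sub continuous_const

private theorem open_rho {S : Set (EE 4)} (hS : IsOpen S) (h0 : S ⊆ {x | x ≠ 0}) {s : Set ℝ}
    (hs : IsOpen s) : IsOpen (S ∩ rhoP ⁻¹' s) :=
  (rhoP_continuousOn.mono h0).isOpen_inter_preimage hS hs

private theorem t1_open : IsOpen {x : EE 4 | t1C < ‖x‖} := isOpen_lt continuous_const continuous_norm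

private theorem t1_sub0 : {x : EE 4 | t1C < ‖x‖} ⊆ {x | x ≠ 0} := fun _ hx =>
  norm_pos_iff.1 (norm_pos_t1 hx)

private theorem cap_iff {a : ℝ} (h : a < sin taC) (h' : a < 1 / 2) {x : EE 4} (hx : t1C < ‖x‖) :
    x ∉ CapS a ↔ taC < tc x ∨ a < rhoP x := by
  constructor
  · intro hc
    by_contra hcon
    rw [not_or, not_lt, not_lt] at hcon
    obtain ⟨h1, h2⟩ := hcon
    rcases h1.lt_or_eq with h3 | h3
    · exact hc ⟨⟨h3, by linarith⟩, h2⟩
    · have := rhoP_ge_sin_ta h3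
      linarith
  · rintro (h1 | h1) ⟨h2, h3⟩
    · exact absurd h2.1 (not_lt.2 h1.le)
    · exact absurd h3 (not_le.2 h1)

theorem Uc_open {a : ℝ} (h : a < sin taC) (h' : a < 1 / 2) : IsOpen (Uc a) := by
  have e : Uc a = ({x : EE 4 | t1C < ‖x‖} ∩ {x | taC < tc x} ∩ {x | Ur x ≠ 0}) ∪
      (({x : EE 4 | t1C < ‖x‖} ∩ rhoP ⁻¹' Ioi a) ∩ {x | Ur x ≠ 0}) := by
    ext x
    constructor
    · rintro ⟨h1, h0, h2⟩
      rcases (cap_iff h h' h1).1 h2 with h3 | h3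
      · exact Or.inl ⟨⟨h1, h3⟩, h0⟩
      · exact Or.inr ⟨⟨h1, h3⟩, h0⟩
    · rintro (⟨⟨h1, h2⟩, h0⟩ | ⟨⟨h1, h2⟩, h0⟩)
      · exact ⟨h1, h0, (cap_iff h h' h1).2 (Or.inl h2)⟩
      · exact ⟨h1, h0, (cap_iff h h' h1).2 (Or.inr h2)⟩
  rw [e]
  exact ((t1_open.inter (isOpen_lt continuous_const tc_cont)).inter isOpen_Ur).union
    ((open_rho t1_open t1_sub0 isOpen_Ioi).inter isOpen_Ur)

theorem Vc_open {a : ℝ} (h : a < sin taC) (h' : a < 1 / 2) : IsOpen (Vc a) := by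
  have e : Vc a = ({x : EE 4 | t1C < ‖x‖} ∩ {x | taC < tc x}) ∪
      ({x : EE 4 | t1C < ‖x‖} ∩ rhoP ⁻¹' Ioi a) := by
    ext x
    constructor
    · rintro ⟨h1, h2⟩
      rcases (cap_iff h h' h1).1 h2 with h3 | h3
      · exact Or.inl ⟨h1, h3⟩
      · exact Or.inr ⟨h1, h3⟩
    · rintro (⟨h1, h2⟩ | ⟨h1, h2⟩)
      · exact ⟨h1, (cap_iff h h' h1).2 (Or.inl h2)⟩
      · exact ⟨h1, (cap_iff h h' h1).2 (Or.inr h2)⟩
  rw [e]
  exact (t1_open.inter (isOpen_lt continuous_const tc_cont)).union (open_rho t1_open t1_sub0 isOpen_Ioi)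


private theorem bsC_smooth (v : EE 4) : ContDiffOn ℝ ∞ (fun x => bsC x v) DC := by
  have hb := bC_tc_smooth.mono DC_sub
  have hf := fC_tc_smooth.mono DC_sub
  have hN := NN_smooth.mono DC_sub
  have h3 := n3sq_smooth.mono DC_sub
  exact ((((wR_smooth v).mono DC_sub).pow 2).add ((hb.pow 2).mul (((wn2_smooth v).mono DC_sub).sub
    (h3.mul (((wth_smooth v).mono DC_sub_Ur).pow 2))))).sub
    ((((hb.pow 2).mul ((hb.pow 2).sub (hf.pow 2))).div hN fun _ hx => (NN_pos hx.1).ne').mul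
      (((wvp_smooth v).mono DC_sub).pow 2))

private theorem sgC_smooth (v : EE 4) : ContDiffOn ℝ ∞ (fun x => sgC x v) DC :=
  ((wth_smooth v).mono DC_sub_Ur).sub ((kap_smooth.mono DC_sub_t1).mul ((wvp_smooth v).mono DC_sub))

private theorem F1_smooth {Ψ : ℝ → ℝ} (hΨ : ContDiff ℝ ∞ Ψ) (v : EE 4) :
    ContDiffOn ℝ ∞ (fun x => bsC x v + (Ψ (wc x)) ^ 2 * sgC x v ^ 2) DC :=
  (bsC_smooth v).add (((hΨ.comp_contDiffOn wc_smooth).pow 2).mul ((sgC_smooth v).pow 2))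

private def MC (a : ℝ) : Set (EE 4) := DC ∩ rhoP ⁻¹' Ioo (max a 0) (1 / 2)

private theorem MC_open (a : ℝ) : IsOpen (MC a) := open_rho DC_open DC_sub isOpen_Ioo

private theorem MC_pos {a : ℝ} {x : EE 4} (hx : x ∈ MC a) : 0 < rhoP x :=
  lt_of_le_of_lt (le_max_right _ _) hx.2.1

private theorem MC_a {a : ℝ} {x : EE 4} (hx : x ∈ MC a) : a < rhoP x :=
  lt_of_le_of_lt (le_max_left _ _) hx.2.1

private theorem MC_one {a : ℝ} {x : EE 4} (hx : x ∈ MC a) : rhoP x < 1 :=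
  lt_trans hx.2.2 (by norm_num)

private theorem rho_MC {a : ℝ} : ContDiffOn ℝ ∞ rhoP (MC a) :=
  rhoP_smooth.mono fun _ hx => ⟨DC_sub hx.1, MC_pos hx⟩

private theorem U_MC {a : ℝ} {Ψ U : ℝ → ℝ} (H : AdmC a Ψ U) :
    ContDiffOn ℝ ∞ (fun x => U (rhoP x)) (MC a) :=
  H.smU.comp rho_MC fun _ hx => MC_pos hx

private theorem E2_MC {a : ℝ} {Ψ U : ℝ → ℝ} (H : AdmC a Ψ U) (v : EE 4) :
    ContDiffOn ℝ ∞ (fun x => (1 / (1 - U (rhoP x)) - 1 / (1 - (rhoP x) ^ 2)) * (wrho x v) ^ 2)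
      (MC a) := by
  have h1 : ContDiffOn ℝ ∞ (fun x => 1 / (1 - U (rhoP x))) (MC a) :=
    contDiffOn_const.div (contDiffOn_const.sub (U_MC H)) fun x hx => by
      have := H.ltU _ (MC_a hx) (MC_one hx)
      exact (sub_pos.2 this).ne'
  have h2 : ContDiffOn ℝ ∞ (fun x => 1 / (1 - (rhoP x) ^ 2)) (MC a) :=
    contDiffOn_const.div (contDiffOn_const.sub (rho_MC.pow 2)) fun x hx => by
      have := pow_lt_one₀ (MC_pos hx).le (MC_one hx) two_ne_zero
      exact (sub_pos.2 this).ne'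
  exact (h1.sub h2).mul (((wrho_smooth v).mono fun _ hx => ⟨hx.1.2, MC_pos hx⟩).pow 2)

private theorem F2_smooth {a : ℝ} {Ψ U : ℝ → ℝ} (H : AdmC a Ψ U) (v : EE 4) :
    ContDiffOn ℝ ∞ (fun x => bsC x v +
      ((1 / (1 - U (rhoP x)) - 1 / (1 - (rhoP x) ^ 2)) * (wrho x v) ^ 2
          + (rhoP x) ^ 2 * (1 - U (rhoP x)) / 4 * sgC x v ^ 2)) (MC a) :=
  ((bsC_smooth v).mono inter_subset_left).add ((E2_MC H v).add
    ((((rho_MC.pow 2).mul (contDiffOn_const.sub (U_MC H))).div_const 4).mul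
      (((sgC_smooth v).mono inter_subset_left).pow 2)))

private theorem F3_smooth {a : ℝ} {Ψ U : ℝ → ℝ} (H : AdmC a Ψ U) (v : EE 4) :
    ContDiffOn ℝ ∞ (fun x => bsC x v + (Ψ (wc x)) ^ 2 * sgC x v ^ 2 +
      ((1 / (1 - U (rhoP x)) - 1 / (1 - (rhoP x) ^ 2)) * (wrho x v) ^ 2
          - (rhoP x) ^ 2 * (U (rhoP x) - (rhoP x) ^ 2) / 4 * sgC x v ^ 2)) (MC a) :=
  ((F1_smooth H.smΨ v).mono inter_subset_left).add ((E2_MC H v).sub
    ((((rho_MC.pow 2).mul ((U_MC H).sub (rho_MC.pow 2))).div_const 4).mul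
      (((sgC_smooth v).mono inter_subset_left).pow 2)))

private theorem psi_val {a : ℝ} {Ψ U : ℝ → ℝ} (H : AdmC a Ψ U) {x : EE 4} (hx : t1C < ‖x‖)
    (ht : tc x ≤ taC) (hρ : (sin taC / 2) ^ 2 ≤ rhoP x ^ 2 * (1 - rhoP x ^ 2)) :
    Ψ (wc x) ^ 2 = rhoP x ^ 2 * (1 - rhoP x ^ 2) / 4 := by
  have h1 : 0 ≤ 1 - rhoP x ^ 2 := by
    have := pow_le_one₀ (n := 2) (rhoP_nonneg x) (rhoP_le_one x)
    linarith
  have h2 : wc x ^ 2 = rhoP x ^ 2 * (1 - rhoP x ^ 2) := by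
    rw [wc_fs hx ht, mul_pow, Real.sq_sqrt h1]
  have h3 : 0 ≤ wc x := by
    rw [wc_fs hx ht]
    exact mul_nonneg (rhoP_nonneg x) (Real.sqrt_nonneg _)
  have h4 : sin taC / 2 ≤ wc x := by
    rw [← h2] at hρ
    exact (pow_le_pow_iff_left₀ (by linarith [sin_taC_pos]) h3 two_ne_zero).1 hρ
  rw [H.farΨ _ h4, div_pow, h2]
  norm_num

private theorem at_of_eq {G : EE 4 → ℝ} {F : EE 4 → ℝ} {N : Set (EE 4)} {x : EE 4} (hN : IsOpen N)
    (hx : x ∈ N) (hG : ContDiffOn ℝ ∞ G N) (h : ∀ y ∈ N, F y = G y) : ContDiffAt ℝ ∞ F x :=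
  (hG.contDiffAt (hN.mem_nhds hx)).congr_of_eventuallyEq
    (Filter.eventuallyEq_of_mem (hN.mem_nhds hx) h)

theorem qC_smooth {a : ℝ} {Ψ U : ℝ → ℝ} (h : AdmC a Ψ U) (v : EE 4) :
    ContDiffOn ℝ ∞ (fun x => qC Ψ U x v) (Uc a) := by
  intro x hx
  obtain ⟨h1, h2, h3⟩ := hx
  have hD : x ∈ DC := ⟨h1, h2⟩
  have ha8 : a < 1 / 2 := by linarith [h.a_lt]
  have hcap := (cap_iff h.a_lt' ha8 h1).1 h3
  have hslt := sin_taC_lt
  have hspos := sin_taC_pos
  refine ContDiffAt.contDiffWithinAt ?_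
  by_cases hP : x ∈ PZ
  · -- inside the P-zone
    have hx' : x ∈ MC a ∩ {x | tc x < taC} := by
      refine ⟨⟨hD, max_lt ?_ (rhoP_pos h1 hP.1.le), hP.2⟩, hP.1⟩
      rcases hcap with h4 | h4
      · exact absurd hP.1 (not_lt.2 h4.le)
      · exact h4
    refine at_of_eq ((MC_open a).inter (isOpen_lt tc_cont continuous_const)) hx'
      ((F2_smooth h v).mono inter_subset_left) ?_
    rintro y ⟨hy, hy2⟩
    exact qC_in ⟨hy2, hy.2.2⟩ v
  · by_cases h4 : taC < tc x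
    · -- far from the P-zone
      refine at_of_eq (DC_open.inter (isOpen_lt continuous_const tc_cont)) ⟨hD, h4⟩
        ((F1_smooth h.smΨ v).mono inter_subset_left) ?_
      rintro y ⟨_, hy2⟩
      exact qC_out (fun hc => absurd hc.1 (not_lt.2 (le_of_lt hy2))) v
    · by_cases h5 : 1 / 4 < rhoP x
      · refine at_of_eq (open_rho DC_open DC_sub isOpen_Ioi) ⟨hD, h5⟩
          ((F1_smooth h.smΨ v).mono inter_subset_left) ?_
        rintro y ⟨hy, hy2⟩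
        have hy3 : 1 / 4 < rhoP y := hy2
        by_cases hyP : y ∈ PZ
        · have e1 := h.farU _ (Or.inl hy3.le)
          have e2 := psi_val h hy.1 hyP.1.le (by
            have k1 : (sin taC / 2) ^ 2 ≤ (24 / 100) ^ 2 :=
              pow_le_pow_left₀ (by linarith) (by linarith) 2
            have k2 : (1 / 4 : ℝ) ^ 2 ≤ rhoP y ^ 2 := pow_le_pow_left₀ (by norm_num) hy3.le 2
            have k3 : rhoP y ^ 2 ≤ (1 / 2) ^ 2 := pow_le_pow_left₀ (rhoP_nonneg y) hyP.2.le 2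
            have k4 : 0 ≤ (rhoP y ^ 2 - (1 / 4) ^ 2) * (15 / 16 - rhoP y ^ 2) :=
              mul_nonneg (by linarith) (by linarith)
            linarith)
          rw [qC_in hyP, e1, e2]
          ring
        · exact qC_out hyP v
      · -- the boundary of the P-zone
        rw [not_lt] at h4 h5
        have h6 : tc x = taC := by
          refine le_antisymm h4 (not_lt.1 fun hc => hP ⟨hc, by linarith⟩)
        have h7 := rhoP_ge_sin_ta h6
        have hta := isCoreC.ta_le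
        have hx' : x ∈ MC a ∩ {x | 6 / 10 * sin taC < sin (tc x) ∧ tc x < 1} := by
          refine ⟨⟨hD, max_lt (lt_of_lt_of_le h.a_lt' h7) (by linarith), by linarith⟩, ?_, ?_⟩
          · rw [h6]
            linarith
          · rw [h6]
            linarith
        refine at_of_eq ((MC_open a).inter ((isOpen_lt continuous_const
          (Real.continuous_sin.comp tc_cont)).inter (isOpen_lt tc_cont continuous_const))) hx'
          ((F3_smooth h v).mono inter_subset_left) ?_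
        rintro y ⟨hy, hy2, hy3⟩
        have hyt := tc_pos hy.1.1
        by_cases hyP : y ∈ PZ
        · have e2 := psi_val h hy.1.1 hyP.1.le (by
            have k0 : 6 / 10 * sin taC ≤ rhoP y := le_trans hy2.le (le_trans (le_abs_self _) rhoP_ge)
            have k2 : (6 / 10 * sin taC) ^ 2 ≤ rhoP y ^ 2 :=
              pow_le_pow_left₀ (by positivity) k0 2
            have k3 : rhoP y ^ 2 ≤ (1 / 2) ^ 2 := pow_le_pow_left₀ (rhoP_nonneg y) hyP.2.le 2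
            have k4 : 0 ≤ (rhoP y ^ 2 - (6 / 10 * sin taC) ^ 2) * (3 / 4) :=
              mul_nonneg (by linarith) (by norm_num)
            have k5 : 0 ≤ rhoP y ^ 2 * ((1 / 2) ^ 2 - rhoP y ^ 2) :=
              mul_nonneg (sq_nonneg _) (by linarith)
            have k6 : 0 ≤ sin taC ^ 2 := sq_nonneg _
            linarith)
          rw [qC_in hyP, e2]
          ring
        · have k1 : taC ≤ tc y := by
            refine not_lt.1 fun hc => hyP ⟨hc, hy.2.2⟩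
          have k2 : sin taC ≤ sin (tc y) := by
            apply Real.sin_le_sin_of_le_of_le_pi_div_two _ _ k1
            · linarith [Real.pi_gt_three, isCoreC.ta_pos]
            · have : tc y < 1 := hy3
              linarith [Real.pi_gt_three]
          have k3 : sin taC ≤ rhoP y := le_trans k2 (le_trans (le_abs_self _) rhoP_ge)
          have e1 := h.farU _ (Or.inr k3)
          rw [qC_out hyP, e1]
          ring


end Pool.Agent.MP39e402
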