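import Pool.Agent.Lib.MP_39e402_gt.UCoord
import Pool.Agent.Lib.MP_39e402_gt.UCs
import Pool.Agent.Lib.MP_39e402_gt.VE1

/-! # MP_39e402, module UTor: torus coordinates of the core

`tor y = (y0 + t1)(cos y1 e^{i y2}, sin y1 e^{i y3})`: `‖tor y‖ = y0 + t1`, `n3 = sin y1`.
`wR = v0` (`wR_comp`), `wn3 = cos y1 v1` (`wn3_comp`), `wvp = cos² y1 v2` (`w01_comp`), `wth = v3` (`wth_comp`),
`wn2 = v1² + cos² y1 v2² + sin² y1 v3²`.  Then
`b² v1² + b² cos² v2² - b² (b²-f²)/N cos⁴ v2² = b² v1² + (b f cos)²/N v2²`, because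
`N - (b²-f²) cos² = f²`. -/

open Real Set Filter Topology MeasureTheory
open scoped ContDiff

noncomputable section

namespace Pool.Agent.MP39e402

theorem tor_contDiff : ContDiff ℝ ∞ tor := by
  have h : ContDiffOn ℝ ∞ tor univ := v4_contDiffOn
    (((coord_contDiff 0).add contDiff_const).mul ((Real.contDiff_cos.comp (coord_contDiff 1)).mul
      (Real.contDiff_cos.comp (coord_contDiff 2)))).contDiffOn
    (((coord_contDiff 0).add contDiff_const).mul ((Real.contDiff_cos.comp (coord_contDiff 1)).mul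
      (Real.contDiff_sin.comp (coord_contDiff 2)))).contDiffOn
    (((coord_contDiff 0).add contDiff_const).mul ((Real.contDiff_sin.comp (coord_contDiff 1)).mul
      (Real.contDiff_cos.comp (coord_contDiff 3)))).contDiffOn
    (((coord_contDiff 0).add contDiff_const).mul ((Real.contDiff_sin.comp (coord_contDiff 1)).mul
      (Real.contDiff_sin.comp (coord_contDiff 3)))).contDiffOn
  exact contDiffOn_univ.1 h

theorem torD_isOpen : IsOpen torD := by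
  have h0 : Continuous fun y : EE 4 => y 0 := (coord_contDiff 0).continuous
  have h1 : Continuous fun y : EE 4 => y 1 := (coord_contDiff 1).continuous
  exact (isOpen_lt continuous_const h0).inter ((isOpen_lt continuous_const h1).inter
    (isOpen_lt h1 continuous_const))

private theorem tor_polar (y : EE 4) : tor y = (y 0 + t1C) • v4 (cos (y 1) * cos (y 2))
    (cos (y 1) * sin (y 2)) (sin (y 1) * cos (y 3)) (sin (y 1) * sin (y 3)) := by
  apply ext4 <;> rfl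

private theorem tor_unit (y : EE 4) : (cos (y 1) * cos (y 2)) ^ 2 + (cos (y 1) * sin (y 2)) ^ 2 +
    (sin (y 1) * cos (y 3)) ^ 2 + (sin (y 1) * sin (y 3)) ^ 2 = 1 := by
  have h1 := Real.sin_sq_add_cos_sq (y 1)
  have h2 := Real.sin_sq_add_cos_sq (y 2)
  have h3 := Real.sin_sq_add_cos_sq (y 3)
  linear_combination h1 + (cos (y 1) ^ 2) * h2 + (sin (y 1) ^ 2) * h3

private theorem tor_s2 (y : EE 4) :
    (sin (y 1) * cos (y 3)) ^ 2 + (sin (y 1) * sin (y 3)) ^ 2 = sin (y 1) ^ 2 := by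
  have h3 := Real.sin_sq_add_cos_sq (y 3)
  linear_combination (sin (y 1) ^ 2) * h3

private theorem torR_pos {y : EE 4} (h : y ∈ torD) : 0 < y 0 + t1C := by
  have h1 := h.1
  have h2 := isCoreC.t1_pos
  linarith

private theorem tor_sin_pos {y : EE 4} (h : y ∈ torD) : 0 < sin (y 1) :=
  Real.sin_pos_of_pos_of_lt_pi h.2.1 (by linarith [h.2.2, Real.pi_pos])

private theorem tor_cos_pos {y : EE 4} (h : y ∈ torD) : 0 < cos (y 1) :=
  Real.cos_pos_of_mem_Ioo ⟨by linarith [h.2.1, Real.pi_pos], h.2.2⟩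

private theorem exists_angle {a b r : ℝ} (hr : 0 ≤ r) (h : a ^ 2 + b ^ 2 = r ^ 2) :
    ∃ φ : ℝ, a = r * cos φ ∧ b = r * sin φ := by
  have h1 : ‖(⟨a, b⟩ : ℂ)‖ = r := by
    rw [Complex.norm_def, Complex.normSq_mk, ← Real.sqrt_sq hr, ← h]
    congr 1
    ring
  refine ⟨Complex.arg ⟨a, b⟩, ?_, ?_⟩
  · have := Complex.norm_mul_cos_arg ⟨a, b⟩
    rw [h1] at this
    exact this.symm
  · have := Complex.norm_mul_sin_arg ⟨a, b⟩
    rw [h1] at this
    exact this.symm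

theorem tor_norm {y : EE 4} (h : y ∈ torD) : ‖tor y‖ = y 0 + t1C := by
  rw [tor_polar]
  exact norm_polar (torR_pos h).le (tor_unit y)

theorem tor_norm_gt {y : EE 4} (h : y ∈ torD) : t1C < ‖tor y‖ := by
  rw [tor_norm h]
  linarith [h.1]

theorem tor_Ur {y : EE 4} (h : y ∈ torD) : Ur (tor y) = (y 0 + t1C) * sin (y 1) := by
  rw [tor_polar, Ur_polar (torR_pos h).le, tor_s2, Real.sqrt_sq (tor_sin_pos h).le]

theorem tor_Ur_ne {y : EE 4} (h : y ∈ torD) : Ur (tor y) ≠ 0 := by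
  rw [tor_Ur h]
  exact (mul_pos (torR_pos h) (tor_sin_pos h)).ne'

theorem tor_tc {y : EE 4} (h : y ∈ torD) : tc (tor y) = y 0 := by
  rw [tc, tor_norm h]
  ring

theorem tor_n3 {y : EE 4} (h : y ∈ torD) : n3 (tor y) = sin (y 1) := by
  rw [n3, tor_Ur h, tor_norm h, mul_div_cancel_left₀ _ (torR_pos h).ne']

theorem tor_NN {y : EE 4} (h : y ∈ torD) : NN (tor y) = Nt (y 0) (y 1) := by
  rw [NN_eq, Nt, tor_tc h, tor_n3 h, Real.cos_sq']

theorem tor_kap {y : EE 4} (h : y ∈ torD) : kap (tor y) = kt (y 0) (y 1) := by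
  rw [kap, kt, tor_NN h, tor_tc h]

theorem tor_wc {y : EE 4} (h : y ∈ torD) : wc (tor y) = sin (y 1) * √(Nt (y 0) (y 1)) := by
  rw [wc, tor_NN h, tor_n3 h]

theorem tor_rhoP {y : EE 4} (h : y ∈ torD) : rhoP (tor y) = rt (y 0) (y 1) := by
  rw [rhoP, rt, tor_tc h, tor_n3 h]

theorem Nt_pos {t ξ : ℝ} (h : 0 < t) : 0 < Nt t ξ := by
  have h1 := isCoreC.b_pos t h
  have h2 := isCoreC.f_pos t h
  have h3 := Real.sin_sq_add_cos_sq ξ
  rw [Nt]
  rcases eq_or_ne (cos ξ) 0 with h4 | h4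
  · have h5 : sin ξ ^ 2 = 1 := by
      rw [h4] at h3
      linarith
    rw [h4, h5]
    have := pow_pos h2 2
    linarith
  · have h5 : 0 < cos ξ ^ 2 := lt_of_le_of_ne (sq_nonneg _) (Ne.symm (pow_ne_zero 2 h4))
    have h6 := mul_pos (pow_pos h1 2) h5
    have h7 := mul_nonneg (sq_nonneg (fC t)) (sq_nonneg (sin ξ))
    linarith

theorem tor_surj {x : EE 4} (h : t1C < ‖x‖) (hU : Ur x ≠ 0) (hx : n3 x < 1) : ∃ y ∈ torD, tor y = x := by
  have hn : 0 < ‖x‖ := norm_pos_t1 h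
  have h0 := n3_pos hU
  have h1 : sin (arcsin (n3 x)) = n3 x := Real.sin_arcsin (by linarith) hx.le
  have h2 : cos (arcsin (n3 x)) = √(1 - n3 x ^ 2) := Real.cos_arcsin _
  have h3 := n3_sq (norm_pos_iff.1 hn)
  have h4 : 0 < 1 - n3 x ^ 2 := by
    have := pow_lt_one₀ h0.le hx two_ne_zero
    linarith
  obtain ⟨φ, e0, e1⟩ := exists_angle (a := x 0) (b := x 1) (r := ‖x‖ * √(1 - n3 x ^ 2))
    (by positivity) (by
      rw [mul_pow, Real.sq_sqrt h4.le]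
      rw [div_pow, div_pow] at h3
      field_simp at h3
      linarith)
  obtain ⟨ψ, e2, e3⟩ := exists_angle (a := x 2) (b := x 3) (r := ‖x‖ * n3 x)
    (by positivity) (by
      rw [n3, mul_div_cancel₀ _ hn.ne', Ur_sq])
  refine ⟨v4 (‖x‖ - t1C) (arcsin (n3 x)) φ ψ, ⟨?_, ?_, ?_⟩, ?_⟩
  · rw [v4_zero]
    linarith
  · rw [v4_one]
    exact Real.arcsin_pos.2 h0
  · rw [v4_one]
    exact Real.arcsin_lt_pi_div_two.2 hx
  · apply ext4
    · simp only [tor, v4_zero, v4_one, v4_two, v4_three, h1, h2]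
      rw [e0]
      ring
    · simp only [tor, v4_zero, v4_one, v4_two, v4_three, h1, h2]
      rw [e1]
      ring
    · simp only [tor, v4_zero, v4_one, v4_two, v4_three, h1, h2]
      rw [e2]
      ring
    · simp only [tor, v4_zero, v4_one, v4_two, v4_three, h1, h2]
      rw [e3]
      ring

theorem tor_image : tor '' torD = {x | t1C < ‖x‖ ∧ Ur x ≠ 0 ∧ n3 x < 1} := by
  ext x
  constructor
  · rintro ⟨y, hy, rfl⟩
    refine ⟨tor_norm_gt hy, tor_Ur_ne hy, ?_⟩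
    rw [tor_n3 hy]
    have h1 := tor_cos_pos hy
    have h2 := Real.sin_sq_add_cos_sq (y 1)
    have h3 := tor_sin_pos hy
    have h4 := pow_pos h1 2
    by_contra hc
    have h5 := one_le_pow₀ (n := 2) (not_lt.1 hc)
    linarith
  · rintro ⟨h1, h2, h3⟩
    exact tor_surj h1 h2 h3


private theorem line_coord (y v : EE 4) (i : Fin 4) :
    HasDerivAt (fun t : ℝ => (y + t • v) i) (v i) 0 := by
  have h1 : (fun t : ℝ => (y + t • v) i) = fun t : ℝ => y i + t * v i := by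
    funext t
    simp
  rw [h1]
  have := ((hasDerivAt_id (0 : ℝ)).mul_const (v i)).const_add (y i)
  simpa using this

private theorem tor_forms {y : EE 4} (h : y ∈ torD) (v : EE 4) :
    wR (tor y) (fderiv ℝ tor y v) = v 0 ∧
    wn2 (tor y) (fderiv ℝ tor y v) = v 1 ^ 2 + (cos (y 1) * v 2) ^ 2 + (sin (y 1) * v 3) ^ 2 ∧
    wth (tor y) (fderiv ℝ tor y v) = v 3 ∧
    wvp (tor y) (fderiv ℝ tor y v) = cos (y 1) ^ 2 * v 2 ∧
    wn3 (tor y) (fderiv ℝ tor y v) = cos (y 1) * v 1 := by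
  have c0 := line_coord y v 0
  have c1 := line_coord y v 1
  have c2 := line_coord y v 2
  have c3 := line_coord y v 3
  have hs := tor_sin_pos h
  have hd : DifferentiableAt ℝ tor y := (tor_contDiff.differentiable (by norm_num)).differentiableAt
  have hw := fderiv_polar (Φ := tor) (R := fun y => y 0 + t1C) (a := fun y => cos (y 1) * cos (y 2))
    (b := fun y => cos (y 1) * sin (y 2)) (c := fun y => sin (y 1) * cos (y 3))
    (d := fun y => sin (y 1) * sin (y 3)) tor_polar (z := y) (v := v) hd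
    (c0.add_const t1C) (c1.cos.mul c2.cos) (c1.cos.mul c2.sin) (c1.sin.mul c3.cos) (c1.sin.mul c3.sin)
  simp only [zero_smul, add_zero] at hw
  have s1 := Real.sin_sq_add_cos_sq (y 1)
  have s2 := Real.sin_sq_add_cos_sq (y 2)
  have s3 := Real.sin_sq_add_cos_sq (y 3)
  have hU : (sin (y 1) * cos (y 3)) ^ 2 + (sin (y 1) * sin (y 3)) ^ 2 ≠ 0 := by
    rw [tor_s2]
    positivity
  obtain ⟨f1, f2, f3, f4, f5, f6, f7⟩ := forms_polar (torR_pos h) (tor_unit y) (by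
    linear_combination (sin (y 1) * cos (y 1) * v 1) * (s3 - s2)) hU (tor_polar y) hw
  rw [tor_s2] at f4 f7
  rw [Real.sqrt_sq hs.le] at f7
  refine ⟨f2, ?_, ?_, ?_, ?_⟩
  · rw [f3]
    linear_combination (v 1 ^ 2) * s1 + (sin (y 1) ^ 2 * v 1 ^ 2 + cos (y 1) ^ 2 * v 2 ^ 2) * s2 +
      (cos (y 1) ^ 2 * v 1 ^ 2 + sin (y 1) ^ 2 * v 3 ^ 2) * s3
  · rw [f4, div_eq_iff (by positivity)]
    linear_combination (sin (y 1) ^ 2 * v 3) * s3
  · rw [f5]
    linear_combination (cos (y 1) ^ 2 * v 2) * s2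
  · rw [f7, div_eq_iff hs.ne']
    linear_combination (sin (y 1) * cos (y 1) * v 1) * s3

theorem tor_wR {y : EE 4} (h : y ∈ torD) (v : EE 4) : wR (tor y) (fderiv ℝ tor y v) = v 0 := 
  (tor_forms h v).1

theorem tor_wn3 {y : EE 4} (h : y ∈ torD) (v : EE 4) :
    wn3 (tor y) (fderiv ℝ tor y v) = cos (y 1) * v 1 := 
  (tor_forms h v).2.2.2.2

theorem tor_wvp {y : EE 4} (h : y ∈ torD) (v : EE 4) :
    wvp (tor y) (fderiv ℝ tor y v) = cos (y 1) ^ 2 * v 2 := 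
  (tor_forms h v).2.2.2.1

theorem tor_wth {y : EE 4} (h : y ∈ torD) (v : EE 4) : wth (tor y) (fderiv ℝ tor y v) = v 3 := 
  (tor_forms h v).2.2.1

theorem tor_wn2 {y : EE 4} (h : y ∈ torD) (v : EE 4) :
    wn2 (tor y) (fderiv ℝ tor y v) = v 1 ^ 2 + (cos (y 1) * v 2) ^ 2 + (sin (y 1) * v 3) ^ 2 := 
  (tor_forms h v).2.1


/-- the core metric outside the P-zone -/
theorem qC_tor (Ψ U : ℝ → ℝ) {y : EE 4} (h : y ∈ torD) (hP : tor y ∉ PZ) (v : EE 4) :
    qC Ψ U (tor y) (fderiv ℝ tor y v) = v 0 ^ 2 + (bC (y 0) * v 1) ^ 2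
      + (bC (y 0) * fC (y 0) * cos (y 1) / √(Nt (y 0) (y 1)) * v 2) ^ 2
      + (Ψ (sin (y 1) * √(Nt (y 0) (y 1))) * (v 3 - kt (y 0) (y 1) * cos (y 1) ^ 2 * v 2)) ^ 2 := by
  have hN := Nt_pos (ξ := y 1) h.1
  have hs : √(Nt (y 0) (y 1)) ^ 2 = Nt (y 0) (y 1) := Real.sq_sqrt hN.le
  have hs0 : 0 < √(Nt (y 0) (y 1)) := Real.sqrt_pos.2 hN
  rw [qC, if_neg hP, tor_wR h, tor_wn2 h, tor_wvp h, tor_wth h, tor_wc h, tor_kap h, tor_NN h, tor_tc h,
    tor_n3 h]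
  have h1 : bC (y 0) ^ 2 * (bC (y 0) ^ 2 - fC (y 0) ^ 2) / Nt (y 0) (y 1) * cos (y 1) ^ 2 =
      bC (y 0) ^ 2 - bC (y 0) ^ 2 * fC (y 0) ^ 2 / Nt (y 0) (y 1) := by
    have h2 := Real.sin_sq_add_cos_sq (y 1)
    rw [eq_sub_iff_add_eq, ← mul_div_right_comm, ← add_div, div_eq_iff hN.ne', Nt]
    linear_combination (-(bC (y 0) ^ 2 * fC (y 0) ^ 2)) * h2
  have h3 : (bC (y 0) * fC (y 0) * cos (y 1) / √(Nt (y 0) (y 1)) * v 2) ^ 2 =
      bC (y 0) ^ 2 * fC (y 0) ^ 2 / Nt (y 0) (y 1) * cos (y 1) ^ 2 * v 2 ^ 2 := by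
    rw [mul_pow, div_pow, hs]
    ring
  rw [h3]
  linear_combination (-(cos (y 1) ^ 2 * v 2 ^ 2)) * h1


/-- the core metric in the P-zone -/
theorem qC_tor_PZ (Ψ U : ℝ → ℝ) {y : EE 4} (h : y ∈ torD) (hP : tor y ∈ PZ) (v : EE 4) :
    qC Ψ U (tor y) (fderiv ℝ tor y v) = v 0 ^ 2 + (cos (y 0) * v 1) ^ 2
      + (cos (y 0) * sin (y 0) * cos (y 1) / rt (y 0) (y 1) * v 2) ^ 2
      + (1 / (1 - U (rt (y 0) (y 1))) - 1 / (1 - rt (y 0) (y 1) ^ 2))
        * (cos (y 0) * sin (y 1) * (sin (y 0) * sin (y 1) * v 0 - cos (y 0) * cos (y 1) * v 1)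
            / rt (y 0) (y 1)) ^ 2
      + rt (y 0) (y 1) ^ 2 * (1 - U (rt (y 0) (y 1))) / 4
        * (v 3 - 2 * cos (y 0) ^ 2 / rt (y 0) (y 1) ^ 2 * cos (y 1) ^ 2 * v 2) ^ 2 := by
  have ht : y 0 ≤ taC := by
    have := hP.1
    rw [tor_tc h] at this
    exact this.le
  have hgt := tor_norm_gt h
  have ht' : tc (tor y) ≤ taC := by
    rw [tor_tc h]
    exact ht
  obtain ⟨hb, hf⟩ := isCoreC.fs _ ht
  have hr : 0 < rt (y 0) (y 1) := by
    rw [← tor_rhoP h]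
    exact rhoP_pos hgt ht'
  have hc : 0 < cos (y 0) := by
    have := cos_tc_pos hgt hP.1
    rwa [tor_tc h] at this
  have hN : NN (tor y) = cos (y 0) ^ 2 * rt (y 0) (y 1) ^ 2 := by
    rw [NN_fs ht', tor_rhoP h, tor_tc h]
  have hk : kap (tor y) = 2 * cos (y 0) ^ 2 / rt (y 0) (y 1) ^ 2 := by
    rw [kap_fs hgt ht', tor_rhoP h, tor_tc h]
  have hw : wrho (tor y) (fderiv ℝ tor y v) =
      cos (y 0) * sin (y 1) * (sin (y 0) * sin (y 1) * v 0 - cos (y 0) * cos (y 1) * v 1)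
            / rt (y 0) (y 1) := by
    rw [wrho, tor_wR h, tor_wn3 h, tor_rhoP h, tor_tc h, tor_n3 h]
    ring
  have hr2 : rt (y 0) (y 1) ^ 2 = 1 - cos (y 0) ^ 2 * sin (y 1) ^ 2 := by
    rw [← tor_rhoP h, rhoP_sq, tor_tc h, tor_n3 h]
  rw [qC, if_pos hP, tor_wR h, tor_wn2 h, tor_wvp h, tor_wth h, hk, hN, hw, tor_rhoP h, tor_tc h,
    tor_n3 h, hb, hf]
  have h1 : cos (y 0) ^ 2 * (cos (y 0) ^ 2 - (sin (y 0) * cos (y 0)) ^ 2) /
      (cos (y 0) ^ 2 * rt (y 0) (y 1) ^ 2) * cos (y 1) ^ 2 =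
      cos (y 0) ^ 2 - (cos (y 0) * sin (y 0) / rt (y 0) (y 1)) ^ 2 := by
    have h2 := Real.sin_sq_add_cos_sq (y 1)
    have h3 := Real.sin_sq_add_cos_sq (y 0)
    rw [div_pow, ← mul_div_right_comm, eq_sub_iff_add_eq, div_add_div _ _ (by positivity) (by positivity),
      div_eq_iff (by positivity), hr2]
    have h4 : sin (y 0) ^ 2 = 1 - cos (y 0) ^ 2 := by linarith
    have h5 : sin (y 1) ^ 2 = 1 - cos (y 1) ^ 2 := by linarith
    simp only [mul_pow, h4, h5]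
    ring
  have h6 : (cos (y 0) * sin (y 0) * cos (y 1) / rt (y 0) (y 1) * v 2) ^ 2 =
      (cos (y 0) * sin (y 0) / rt (y 0) (y 1)) ^ 2 * cos (y 1) ^ 2 * v 2 ^ 2 := by
    ring
  rw [h6]
  linear_combination (-(cos (y 1) ^ 2 * v 2 ^ 2)) * h1


end Pool.Agent.MP39e402
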