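import Pool.Agent.Lib.MP_39e402_gt.LLocP
import Pool.Agent.Lib.MP_39e402_gt.UFormD

/-! # MP_39e402, module UIm: the type I form `qI` is a smooth metric on `{Ur ≠ 0}`; also `q0`

`qI = wR² + JL² wt² + PhL² wal² + Ψ(PhL Ur/Yr)² wth²` on `{Ur ≠ 0}` (`planar_forms`); positive as
`JL, PhL, Ψ > 0` (`JL_pos`, `PhL_pos`) and `eq_zero_of_forms`; smooth by `PhL_contDiffOn`,
`JL_contDiffOn` (composed with `(‖p‖, ang)` resp. `(p 0, Yr p)`) and `wY_smooth` etc. -/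

open Real Set Filter Topology MeasureTheory
open scoped ContDiff

noncomputable section

namespace Pool.Agent.MP39e402

theorem qI_isQF (ph : ℝ) (Ψ : ℝ → ℝ) (p : EE 4) : IsQF (qI ph Ψ p) :=
  (((((IsLin.coord 0).sq_isQF).add (wY_lin p).sq_isQF).add ((wt_lin p).sq_isQF.const_mul _)).add
    ((wal_lin p).sq_isQF.const_mul _)).add ((wth_lin p).sq_isQF.const_mul _)

theorem qI_eq (ph : ℝ) (Ψ : ℝ → ℝ) {p : EE 4} (hp : 0 < Yr p) (v : EE 4) :
    qI ph Ψ p v = wR p v ^ 2 + (JL ph ‖p‖ (ang (p 0) (Yr p)) * wt p v) ^ 2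
      + (PhL ph (p 0) (Yr p) * wal p v) ^ 2
      + (Ψ (PhL ph (p 0) (Yr p) * Ur p / Yr p) * wth p v) ^ 2 := by
  have h := planar_forms hp v
  unfold qI
  linear_combination -h

private theorem uim_sub : {p : EE 4 | Ur p ≠ 0} ⊆ {p | 0 < Yr p} := fun _ hp => Yr_pos hp

private theorem uim_sub0 : {p : EE 4 | Ur p ≠ 0} ⊆ {p | p ≠ 0} := fun _ hp => ne_zero_Ur hp

private theorem uim_JL {ph : ℝ} (h : 0 < ph) (h1 : ph ≤ 1 / 2) :
    ContDiffOn ℝ ∞ (fun p : EE 4 => JL ph ‖p‖ (ang (p 0) (Yr p))) {p | Ur p ≠ 0} :=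
  (JL_contDiffOn h h1).comp
    ((norm_contDiffOn.mono uim_sub0).prodMk (angp_contDiffOn.mono uim_sub))
    (fun _ hp => norm_pos_Ur hp)

private theorem uim_PhL {ph : ℝ} (h : 0 < ph) (h1 : ph ≤ 1 / 2) :
    ContDiffOn ℝ ∞ (fun p : EE 4 => PhL ph (p 0) (Yr p)) {p | Ur p ≠ 0} :=
  (PhL_contDiffOn h h1).comp
    ((coord_contDiff 0).contDiffOn.prodMk (Yr_contDiffOn.mono uim_sub))
    (fun _ hp => Yr_pos hp)

theorem qI_smooth {ph : ℝ} (h : 0 < ph) (h1 : ph ≤ 1 / 2) {Ψ : ℝ → ℝ} (hΨ : ContDiffOn ℝ ∞ Ψ (Ioi 0))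
    (v : EE 4) : ContDiffOn ℝ ∞ (fun p => qI ph Ψ p v) {p | Ur p ≠ 0} := by
  have hY := (wY_smooth v).mono uim_sub
  have ht := (wt_smooth v).mono uim_sub
  have hal := wal_smooth v
  have hth := wth_smooth v
  have hn := norm_contDiffOn.mono uim_sub0
  have hJ := uim_JL h h1
  have hP := uim_PhL h h1
  have hU := Ur_contDiffOn
  have hYr := Yr_contDiffOn.mono uim_sub
  have harg : ContDiffOn ℝ ∞ (fun p : EE 4 => PhL ph (p 0) (Yr p) * Ur p / Yr p) {p | Ur p ≠ 0} :=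
    (hP.mul hU).div hYr fun p hp => (Yr_pos hp).ne'
  have hΨc : ContDiffOn ℝ ∞ (fun p : EE 4 => Ψ (PhL ph (p 0) (Yr p) * Ur p / Yr p))
      {p | Ur p ≠ 0} :=
    hΨ.comp harg fun p hp => div_pos (mul_pos (PhL_pos h h1 (Yr_pos hp)) (Ur_pos hp)) (Yr_pos hp)
  unfold qI
  exact ((((contDiffOn_const.add (hY.pow 2)).add (((hJ.pow 2).sub (hn.pow 2)).mul (ht.pow 2))).add
    ((hP.pow 2).mul (hal.pow 2))).add ((hΨc.pow 2).mul (hth.pow 2)))

theorem qI_pos {ph : ℝ} (h : 0 < ph) (h1 : ph ≤ 1 / 2) {Ψ : ℝ → ℝ} (hΨ : ∀ w, 0 < w → 0 < Ψ w)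
    {p : EE 4} (hp : Ur p ≠ 0) {v : EE 4} (hv : v ≠ 0) : 0 < qI ph Ψ p v := by
  have hY := Yr_pos hp
  have hJ : 0 < JL ph ‖p‖ (ang (p 0) (Yr p)) := by
    have h2 := (JL_pos (t := ang (p 0) (Yr p)) h h1 (norm_pos_Ur hp)).1
    have h3 := norm_pos_Ur hp
    linarith
  have hP := PhL_pos (X := p 0) h h1 hY
  have hΨ' := hΨ _ (div_pos (mul_pos hP (Ur_pos hp)) hY)
  rw [qI_eq ph Ψ hY v]
  have hnn : 0 ≤ wR p v ^ 2 + (JL ph ‖p‖ (ang (p 0) (Yr p)) * wt p v) ^ 2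
      + (PhL ph (p 0) (Yr p) * wal p v) ^ 2
      + (Ψ (PhL ph (p 0) (Yr p) * Ur p / Yr p) * wth p v) ^ 2 := by positivity
  refine lt_of_le_of_ne hnn fun h0 => hv ?_
  have a1 := sq_nonneg (wR p v)
  have a2 := sq_nonneg (JL ph ‖p‖ (ang (p 0) (Yr p)) * wt p v)
  have a3 := sq_nonneg (PhL ph (p 0) (Yr p) * wal p v)
  have a4 := sq_nonneg (Ψ (PhL ph (p 0) (Yr p) * Ur p / Yr p) * wth p v)
  have b1 : wR p v = 0 := pow_eq_zero_iff (two_ne_zero) |>.1 (by linarith)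
  have b2 : wt p v = 0 := by
    have : JL ph ‖p‖ (ang (p 0) (Yr p)) * wt p v = 0 :=
      pow_eq_zero_iff (two_ne_zero) |>.1 (by linarith)
    exact (mul_eq_zero.1 this).resolve_left hJ.ne'
  have b3 : wal p v = 0 := by
    have : PhL ph (p 0) (Yr p) * wal p v = 0 :=
      pow_eq_zero_iff (two_ne_zero) |>.1 (by linarith)
    exact (mul_eq_zero.1 this).resolve_left hP.ne'
  have b4 : wth p v = 0 := by
    have : Ψ (PhL ph (p 0) (Yr p) * Ur p / Yr p) * wth p v = 0 :=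
      pow_eq_zero_iff (two_ne_zero) |>.1 (by linarith)
    exact (mul_eq_zero.1 this).resolve_left hΨ'.ne'
  have c := planar_forms hY v
  rw [b1, b2] at c
  have c1 : v 0 = 0 := pow_eq_zero_iff (two_ne_zero) |>.1 (by nlinarith [sq_nonneg (v 0), sq_nonneg (wY p v)])
  have c2 : wY p v = 0 := pow_eq_zero_iff (two_ne_zero) |>.1 (by nlinarith [sq_nonneg (v 0), sq_nonneg (wY p v)])
  exact eq_zero_of_forms hp c1 c2 b3 b4

theorem qI_met {ph : ℝ} (h : 0 < ph) (h1 : ph ≤ 1 / 2) {Ψ : ℝ → ℝ} (hΨ : ContDiffOn ℝ ∞ Ψ (Ioi 0))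
    (hΨ0 : ∀ w, 0 < w → 0 < Ψ w) : IsRMetricOn (polMet (qI ph Ψ)) {p | Ur p ≠ 0} :=
  isRMetricOn_polMet isOpen_Ur (fun p _ => qI_isQF ph Ψ p) (qI_smooth h h1 hΨ)
    (fun _ hp _ hv => qI_pos h h1 hΨ0 hp hv)

theorem q0_isQF (p : EE 4) : IsQF (q0 p) :=
  ((((IsLin.coord 0).sq_isQF).add (wY_lin p).sq_isQF).add ((wal_lin p).sq_isQF.const_mul _)).add
    ((wth_lin p).sq_isQF.const_mul _)

theorem q0_pos {p : EE 4} (hp : Ur p ≠ 0) {v : EE 4} (hv : v ≠ 0) : 0 < q0 p v := by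
  have hY := Yr_pos hp
  have hU := Ur_pos hp
  have ha := LAxis_aa.1
  have hnn : 0 ≤ q0 p v := by
    unfold q0
    positivity
  refine lt_of_le_of_ne hnn fun h0 => hv ?_
  unfold q0 at h0
  have a1 := sq_nonneg (v 0)
  have a2 := sq_nonneg (wY p v)
  have a3 : 0 ≤ (aa * Yr p) ^ 2 * (wal p v) ^ 2 := by positivity
  have a4 : 0 ≤ (aa * Ur p / 2) ^ 2 * (wth p v) ^ 2 := by positivity
  have b1 : v 0 = 0 := pow_eq_zero_iff (two_ne_zero) |>.1 (by linarith)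
  have b2 : wY p v = 0 := pow_eq_zero_iff (two_ne_zero) |>.1 (by linarith)
  have b3 : wal p v = 0 := by
    have : (aa * Yr p) ^ 2 * (wal p v) ^ 2 = 0 := by linarith
    rcases mul_eq_zero.1 this with h | h
    · exact absurd h (by positivity)
    · exact pow_eq_zero_iff (two_ne_zero) |>.1 h
  have b4 : wth p v = 0 := by
    have : (aa * Ur p / 2) ^ 2 * (wth p v) ^ 2 = 0 := by linarith
    rcases mul_eq_zero.1 this with h | h
    · exact absurd h (by positivity)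
    · exact pow_eq_zero_iff (two_ne_zero) |>.1 h
  exact eq_zero_of_forms hp b1 b2 b3 b4

theorem q0_met : IsRMetricOn (polMet q0) {p | Ur p ≠ 0} := by
  refine isRMetricOn_polMet isOpen_Ur (fun p _ => q0_isQF p) (fun v => ?_)
    (fun _ hp _ hv => q0_pos hp hv)
  have hY := (wY_smooth v).mono uim_sub
  have hal := wal_smooth v
  have hth := wth_smooth v
  have hU := Ur_contDiffOn
  have hYr := Yr_contDiffOn.mono uim_sub
  unfold q0
  exact ((contDiffOn_const.add (hY.pow 2)).add (((contDiffOn_const.mul hYr).pow 2).mul (hal.pow 2))).add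
    ((((contDiffOn_const.mul hU).div_const 2).pow 2).mul (hth.pow 2))

end Pool.Agent.MP39e402
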