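import Pool.Agent.Lib.MP_39e402_gt.UCoord
import Pool.Agent.Lib.MP_39e402_gt.UFormD

/-! # MP_39e402, module UCyl: the coordinates `cyl` (for the flat zones of the type I metric)

On `cylD`: `Yr (cyl y) = y1`, `Ur (cyl y) = y1 sin y2 ≠ 0`; forms by the composition rules of UFormD
(`wY_comp`, `wth_comp` with `r = y1 sin y2`, `φ = y3`; `wal_comp` with `r = y1`, `α = y2`).
Surjectivity: `y1 = Yr p`, `y2 = arccos (p1/Yr p)`, `y3 =` argument of `p2 + i p3`. -/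

open Real Set Filter Topology MeasureTheory
open scoped ContDiff

noncomputable section

namespace Pool.Agent.MP39e402

private theorem fd_coord (i : Fin 4) (y v : EE 4) : fderiv ℝ (fun z : EE 4 => z i) y v = v i := by
  have h := fderiv_apply_coord (F := fun z : EE 4 => z) (y := y) differentiableAt_id v i
  rw [← h]
  have h2 : fderiv ℝ (fun z : EE 4 => z) y = ContinuousLinearMap.id ℝ (EE 4) := fderiv_id
  rw [h2]
  rfl

private theorem cd_coord (i : Fin 4) {n : WithTop ℕ∞} : ContDiff ℝ n (fun p : EE 4 => p i) := by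
  fun_prop

private theorem d_coord (i : Fin 4) (y : EE 4) : DifferentiableAt ℝ (fun p : EE 4 => p i) y :=
  (cd_coord (n := 1) i).contDiffAt.differentiableAt one_ne_zero

theorem cyl_contDiff : ContDiff ℝ ∞ cyl := by
  rw [← contDiffOn_univ]
  apply v4_contDiffOn
  · exact (cd_coord 0).contDiffOn
  · exact ((cd_coord 1).mul (cd_coord 2).cos).contDiffOn
  · exact (((cd_coord 1).mul (cd_coord 2).sin).mul (cd_coord 3).cos).contDiffOn
  · exact (((cd_coord 1).mul (cd_coord 2).sin).mul (cd_coord 3).sin).contDiffOn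

private theorem cyl_d (y : EE 4) : DifferentiableAt ℝ cyl y :=
  cyl_contDiff.contDiffAt.differentiableAt (by norm_num)

theorem cylD_isOpen : IsOpen cylD := by
  unfold cylD
  apply IsOpen.inter
  · exact isOpen_lt continuous_const (cd_coord (n := 0) 1).continuous
  · apply IsOpen.inter
    · exact isOpen_lt continuous_const (cd_coord (n := 0) 2).continuous
    · exact isOpen_lt (cd_coord (n := 0) 2).continuous continuous_const

private theorem cyl_one' (y : EE 4) : cyl y 1 = y 1 * cos (y 2) := rfl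
private theorem cyl_two' (y : EE 4) : cyl y 2 = y 1 * sin (y 2) * cos (y 3) := rfl
private theorem cyl_three' (y : EE 4) : cyl y 3 = y 1 * sin (y 2) * sin (y 3) := rfl

private theorem cylD_sin {y : EE 4} (h : y ∈ cylD) : 0 < sin (y 2) :=
  Real.sin_pos_of_pos_of_lt_pi h.2.1 h.2.2

theorem cyl_Yr {y : EE 4} (h : y ∈ cylD) : Yr (cyl y) = y 1 := by
  unfold Yr
  rw [cyl_one', cyl_two', cyl_three']
  have h1 : (y 1 * cos (y 2)) ^ 2 + (y 1 * sin (y 2) * cos (y 3)) ^ 2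
      + (y 1 * sin (y 2) * sin (y 3)) ^ 2 = y 1 ^ 2 := by
    linear_combination (y 1) ^ 2 * (Real.sin_sq_add_cos_sq (y 2))
      + (y 1 * sin (y 2)) ^ 2 * (Real.sin_sq_add_cos_sq (y 3))
  rw [h1, Real.sqrt_sq h.1.le]

theorem cyl_Ur {y : EE 4} (h : y ∈ cylD) : Ur (cyl y) = y 1 * sin (y 2) := by
  unfold Ur
  rw [cyl_two', cyl_three']
  have h1 : (y 1 * sin (y 2) * cos (y 3)) ^ 2
      + (y 1 * sin (y 2) * sin (y 3)) ^ 2 = (y 1 * sin (y 2)) ^ 2 := by
    linear_combination (y 1 * sin (y 2)) ^ 2 * (Real.sin_sq_add_cos_sq (y 3))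
  rw [h1, Real.sqrt_sq (mul_pos h.1 (cylD_sin h)).le]

theorem cyl_Ur_ne {y : EE 4} (h : y ∈ cylD) : Ur (cyl y) ≠ 0 := by
  rw [cyl_Ur h]
  exact (mul_pos h.1 (cylD_sin h)).ne'

theorem cyl_0 (y : EE 4) : cyl y 0 = y 0 := rfl

theorem cyl_norm {y : EE 4} (h : y ∈ cylD) : ‖cyl y‖ = rad (y 0) (y 1) := by
  rw [← rad_eq_norm, cyl_0, cyl_Yr h]

theorem cyl_surj {p : EE 4} (h : Ur p ≠ 0) : ∃ y ∈ cylD, cyl y = p := by
  have hU := Ur_pos h
  have hY := Yr_pos h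
  obtain ⟨e1, e2⟩ := polar_eq (X := p 1) hU
  have hrad : rad (p 1) (Ur p) = Yr p := by
    unfold rad
    rw [← Yr_sq' p, Real.sqrt_sq hY.le]
  rw [hrad] at e1 e2
  have ha := ang_mem (X := p 1) hU
  set α := ang (p 1) (Ur p) with hα
  obtain ⟨φ, f1, f2⟩ : ∃ φ : ℝ, Ur p * cos φ = p 2 ∧ Ur p * sin φ = p 3 := by
    refine ⟨Complex.arg ⟨p 2, p 3⟩, ?_, ?_⟩
    · have h1 := Complex.norm_mul_cos_arg ⟨p 2, p 3⟩
      have h2 : ‖(⟨p 2, p 3⟩ : ℂ)‖ = Ur p := by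
        rw [Complex.norm_def, Complex.normSq_mk]
        unfold Ur
        congr 1
        ring
      rw [h2] at h1
      exact h1
    · have h1 := Complex.norm_mul_sin_arg ⟨p 2, p 3⟩
      have h2 : ‖(⟨p 2, p 3⟩ : ℂ)‖ = Ur p := by
        rw [Complex.norm_def, Complex.normSq_mk]
        unfold Ur
        congr 1
        ring
      rw [h2] at h1
      exact h1
  refine ⟨v4 (p 0) (Yr p) α φ, ⟨hY, ha.1, ha.2⟩, ?_⟩
  apply ext4
  · rfl
  · exact e1
  · show Yr p * sin α * cos φ = p 2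
    rw [e2, f1]
  · show Yr p * sin α * sin φ = p 3
    rw [e2, f2]

theorem cyl_image : cyl '' cylD = {p | Ur p ≠ 0} := by
  ext p
  constructor
  · rintro ⟨y, hy, rfl⟩
    exact cyl_Ur_ne hy
  · intro hp
    obtain ⟨y, hy, h⟩ := cyl_surj hp
    exact ⟨y, hy, h⟩

theorem cyl_d0 {y : EE 4} (h : y ∈ cylD) (v : EE 4) : fderiv ℝ cyl y v 0 = v 0 := by
  rw [fderiv_apply_coord (cyl_d y) v 0]
  exact fd_coord 0 y v

private theorem cylD_nhds {y : EE 4} (h : y ∈ cylD) : ∀ᶠ z in 𝓝 y, z ∈ cylD :=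
  cylD_isOpen.mem_nhds h

theorem cyl_wY {y : EE 4} (h : y ∈ cylD) (v : EE 4) : wY (cyl y) (fderiv ℝ cyl y v) = v 1 := by
  rw [wY_comp (cyl_d y) (Yr_pos (cyl_Ur_ne h)) v]
  have h1 : (fun z => Yr (cyl z)) =ᶠ[𝓝 y] fun z => z 1 := by
    filter_upwards [cylD_nhds h] with z hz
    exact cyl_Yr hz
  rw [h1.fderiv_eq]
  exact fd_coord 1 y v

theorem cyl_wal {y : EE 4} (h : y ∈ cylD) (v : EE 4) : wal (cyl y) (fderiv ℝ cyl y v) = v 2 := by
  rw [wal_comp (cyl_d y) (r := fun z => z 1) (α := fun z => z 2) (d_coord 1 y) (d_coord 2 y)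
    (cyl_Ur_ne h) (Eventually.of_forall fun z => cyl_one' z) (by
      filter_upwards [cylD_nhds h] with z hz
      exact cyl_Ur hz) v]
  exact fd_coord 2 y v

theorem cyl_wth {y : EE 4} (h : y ∈ cylD) (v : EE 4) : wth (cyl y) (fderiv ℝ cyl y v) = v 3 := by
  rw [wth_comp (cyl_d y) (r := fun z => z 1 * sin (z 2)) (φ := fun z => z 3)
    ((d_coord 1 y).mul (d_coord 2 y).sin) (d_coord 3 y) (mul_pos h.1 (cylD_sin h)).ne'
    (Eventually.of_forall fun z => cyl_two' z) (Eventually.of_forall fun z => cyl_three' z) v]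
  exact fd_coord 3 y v

/-- the type I metric where `J = R` -/
theorem qI_cyl {ph : ℝ} (Ψ : ℝ → ℝ) {y : EE 4} (h : y ∈ cylD)
    (hJ : JL ph (rad (y 0) (y 1)) (ang (y 0) (y 1)) = rad (y 0) (y 1)) (v : EE 4) :
    qI ph Ψ (cyl y) (fderiv ℝ cyl y v) = v 0 ^ 2 + v 1 ^ 2 + (PhL ph (y 0) (y 1) * v 2) ^ 2
      + (Ψ (PhL ph (y 0) (y 1) * sin (y 2)) * v 3) ^ 2 := by
  unfold qI
  rw [cyl_d0 h, cyl_wY h, cyl_wal h, cyl_wth h, cyl_0, cyl_Yr h, cyl_norm h, cyl_Ur h, hJ]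
  have h1 : PhL ph (y 0) (y 1) * (y 1 * sin (y 2)) / y 1 = PhL ph (y 0) (y 1) * sin (y 2) := by
    have := h.1.ne'
    field_simp
  rw [h1]
  ring

/-- the limit metric near the ridge -/
theorem q0_cyl {y : EE 4} (h : y ∈ cylD) (v : EE 4) :
    q0 (cyl y) (fderiv ℝ cyl y v) = v 0 ^ 2 + v 1 ^ 2 + (aa * y 1 * v 2) ^ 2
      + (aa * y 1 * sin (y 2) / 2 * v 3) ^ 2 := by
  unfold q0
  rw [cyl_d0 h, cyl_wY h, cyl_wal h, cyl_wth h, cyl_Yr h, cyl_Ur h]
  ring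

end Pool.Agent.MP39e402
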