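import Pool.Agent.Lib.MP_39e402_gt.LLocP
import Pool.Agent.Lib.MP_39e402_gt.UCyl

/-! # MP_39e402, module UPol: the coordinates `pol` (type I metric with `J`) and `quadm` (near the tip)

`pol = cyl ∘ (y ↦ (y0 cos y1, y0 sin y1, y2, y3))`, `‖pol y‖ = y0`, `ang = y1`.
`quadm y = pol (R, vthI ω, y2, y3)`, `R = √(y0²+y1²)`, `ω = arctan (y1/y0) ∈ (0,π/2)`, `vth (vthI ω) = ω`;
`dR = (y0 v0 + y1 v1)/R`, `dω = (y0 v1 - y1 v0)/R²`, `dθ = dω/(1 - m(θ))`, and for `R ≤ 1/2`, `R ≤ 10^5 ε`: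
`JL = (1 - m) R` (`Pf_self`, `st = 0`), so `dR² + J² dθ² = v0² + v1²`. -/

open Real Set Filter Topology MeasureTheory
open scoped ContDiff

noncomputable section

namespace Pool.Agent.MP39e402

private theorem fdp_coord (i : Fin 4) (y v : EE 4) : fderiv ℝ (fun z : EE 4 => z i) y v = v i := by
  have h := fderiv_apply_coord (F := fun z : EE 4 => z) (y := y) differentiableAt_id v i
  rw [← h]
  have h2 : fderiv ℝ (fun z : EE 4 => z) y = ContinuousLinearMap.id ℝ (EE 4) := fderiv_id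
  rw [h2]
  rfl

private theorem cdp_coord (i : Fin 4) {n : WithTop ℕ∞} : ContDiff ℝ n (fun p : EE 4 => p i) := by
  fun_prop

private theorem dp_coord (i : Fin 4) (y : EE 4) : DifferentiableAt ℝ (fun p : EE 4 => p i) y :=
  (cdp_coord (n := 1) i).contDiffAt.differentiableAt one_ne_zero

private theorem cp_coord (i : Fin 4) : Continuous (fun p : EE 4 => p i) :=
  (cdp_coord (n := 0) i).continuous

/-- the planar part of `pol` -/
private def g1 (y : EE 4) : EE 4 := v4 (y 0 * cos (y 1)) (y 0 * sin (y 1)) (y 2) (y 3)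

private theorem pol_eq (y : EE 4) : pol y = cyl (g1 y) := rfl

private theorem g1_mem {y : EE 4} (h : y ∈ polD) : g1 y ∈ cylD :=
  ⟨mul_pos h.1 (Real.sin_pos_of_pos_of_lt_pi h.2.1 h.2.2.1), h.2.2.2.1, h.2.2.2.2⟩

private theorem g1_contDiff : ContDiff ℝ ∞ g1 := by
  rw [← contDiffOn_univ]
  apply v4_contDiffOn
  · exact ((cdp_coord 0).mul (cdp_coord 1).cos).contDiffOn
  · exact ((cdp_coord 0).mul (cdp_coord 1).sin).contDiffOn
  · exact (cdp_coord 2).contDiffOn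
  · exact (cdp_coord 3).contDiffOn

theorem pol_contDiff : ContDiff ℝ ∞ pol := cyl_contDiff.comp g1_contDiff

private theorem pol_d (y : EE 4) : DifferentiableAt ℝ pol y :=
  pol_contDiff.contDiffAt.differentiableAt (by norm_num)

theorem polD_isOpen : IsOpen polD := by
  unfold polD
  refine (isOpen_lt continuous_const (cp_coord 0)).inter
    ((isOpen_lt continuous_const (cp_coord 1)).inter
    ((isOpen_lt (cp_coord 1) continuous_const).inter
    ((isOpen_lt continuous_const (cp_coord 2)).inter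
    (isOpen_lt (cp_coord 2) continuous_const))))

theorem pol_norm {y : EE 4} (h : y ∈ polD) : ‖pol y‖ = y 0 := by
  rw [pol_eq, cyl_norm (g1_mem h)]
  exact rad_polar h.1

theorem pol_0 {y : EE 4} (_h : y ∈ polD) : pol y 0 = y 0 * cos (y 1) := rfl

theorem pol_Yr {y : EE 4} (h : y ∈ polD) : Yr (pol y) = y 0 * sin (y 1) := by
  rw [pol_eq, cyl_Yr (g1_mem h)]
  rfl

theorem pol_Ur {y : EE 4} (h : y ∈ polD) : Ur (pol y) = y 0 * sin (y 1) * sin (y 2) := by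
  rw [pol_eq, cyl_Ur (g1_mem h)]
  rfl

theorem pol_Ur_ne {y : EE 4} (h : y ∈ polD) : Ur (pol y) ≠ 0 := cyl_Ur_ne (g1_mem h)

theorem pol_ang {y : EE 4} (h : y ∈ polD) : ang (pol y 0) (Yr (pol y)) = y 1 := by
  rw [pol_Yr h, pol_0 h]
  exact ang_polar h.1 h.2.1.le h.2.2.1.le

theorem pol_surj {p : EE 4} (h : Ur p ≠ 0) : ∃ y ∈ polD, pol y = p := by
  obtain ⟨y, hy, rfl⟩ := cyl_surj h
  have hY : 0 < y 1 := hy.1
  have ha := ang_mem (X := y 0) hY
  obtain ⟨e1, e2⟩ := polar_eq (X := y 0) hY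
  refine ⟨v4 (rad (y 0) (y 1)) (ang (y 0) (y 1)) (y 2) (y 3), ⟨rad_pos hY, ha.1, ha.2, hy.2.1, hy.2.2⟩, ?_⟩
  rw [pol_eq]
  congr 1
  apply ext4
  · exact e1
  · exact e2
  · rfl
  · rfl

theorem pol_image : pol '' polD = {p | Ur p ≠ 0} := by
  ext p
  constructor
  · rintro ⟨y, hy, rfl⟩
    exact pol_Ur_ne hy
  · intro hp
    obtain ⟨y, hy, h⟩ := pol_surj hp
    exact ⟨y, hy, h⟩

private theorem polD_nhds {y : EE 4} (h : y ∈ polD) : ∀ᶠ z in 𝓝 y, z ∈ polD :=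
  polD_isOpen.mem_nhds h

theorem pol_wR {y : EE 4} (h : y ∈ polD) (v : EE 4) : wR (pol y) (fderiv ℝ pol y v) = v 0 := by
  rw [wR_comp (pol_d y) (ne_zero_Ur (pol_Ur_ne h)) v]
  have h1 : (fun z => ‖pol z‖) =ᶠ[𝓝 y] fun z => z 0 := by
    filter_upwards [polD_nhds h] with z hz
    exact pol_norm hz
  rw [h1.fderiv_eq]
  exact fdp_coord 0 y v

theorem pol_wt {y : EE 4} (h : y ∈ polD) (v : EE 4) : wt (pol y) (fderiv ℝ pol y v) = v 1 := by
  rw [wt_comp (pol_d y) (Yr_pos (pol_Ur_ne h)) v]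
  have h1 : (fun z => ang (pol z 0) (Yr (pol z))) =ᶠ[𝓝 y] fun z => z 1 := by
    filter_upwards [polD_nhds h] with z hz
    exact pol_ang hz
  rw [h1.fderiv_eq]
  exact fdp_coord 1 y v

theorem pol_wal {y : EE 4} (h : y ∈ polD) (v : EE 4) : wal (pol y) (fderiv ℝ pol y v) = v 2 := by
  rw [wal_comp (pol_d y) (r := fun z => z 0 * sin (z 1)) (α := fun z => z 2)
    ((dp_coord 0 y).mul (dp_coord 1 y).sin) (dp_coord 2 y)
    (pol_Ur_ne h) (Eventually.of_forall fun z => rfl) (by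
      filter_upwards [polD_nhds h] with z hz
      exact pol_Ur hz) v]
  exact fdp_coord 2 y v

theorem pol_wth {y : EE 4} (h : y ∈ polD) (v : EE 4) : wth (pol y) (fderiv ℝ pol y v) = v 3 := by
  have h0 := pol_Ur_ne h
  rw [pol_Ur h] at h0
  rw [wth_comp (pol_d y) (r := fun z => z 0 * sin (z 1) * sin (z 2)) (φ := fun z => z 3)
    (((dp_coord 0 y).mul (dp_coord 1 y).sin).mul (dp_coord 2 y).sin) (dp_coord 3 y) h0
    (Eventually.of_forall fun z => rfl) (Eventually.of_forall fun z => rfl) v]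
  exact fdp_coord 3 y v

private theorem qI_planar (ph : ℝ) (Ψ : ℝ → ℝ) {p : EE 4} (hp : 0 < Yr p) (v : EE 4) :
    qI ph Ψ p v = wR p v ^ 2 + (JL ph ‖p‖ (ang (p 0) (Yr p)) * wt p v) ^ 2
      + (PhL ph (p 0) (Yr p) * wal p v) ^ 2
      + (Ψ (PhL ph (p 0) (Yr p) * Ur p / Yr p) * wth p v) ^ 2 := by
  unfold qI
  linear_combination (-1 : ℝ) * planar_forms hp v

/-- the type I metric in polar coordinates -/
theorem qI_pol (ph : ℝ) (Ψ : ℝ → ℝ) {y : EE 4} (h : y ∈ polD) (v : EE 4) :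
    qI ph Ψ (pol y) (fderiv ℝ pol y v) = v 0 ^ 2 + (JL ph (y 0) (y 1) * v 1) ^ 2
      + (PhL ph (y 0 * cos (y 1)) (y 0 * sin (y 1)) * v 2) ^ 2
      + (Ψ (PhL ph (y 0 * cos (y 1)) (y 0 * sin (y 1)) * sin (y 2)) * v 3) ^ 2 := by
  have hY := Yr_pos (pol_Ur_ne h)
  rw [qI_planar ph Ψ hY, pol_wR h, pol_wt h, pol_wal h, pol_wth h, pol_ang h, pol_norm h, pol_Yr h,
    pol_Ur h, pol_0 h]
  rw [pol_Yr h] at hY
  have h1 : PhL ph (y 0 * cos (y 1)) (y 0 * sin (y 1)) * (y 0 * sin (y 1) * sin (y 2)) / (y 0 * sin (y 1))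
      = PhL ph (y 0 * cos (y 1)) (y 0 * sin (y 1)) * sin (y 2) := by
    rw [div_eq_iff hY.ne']
    ring
  rw [h1]

/-! ## quadrant coordinates -/

private def g2 (y : EE 4) : EE 4 := v4 √(y 0 ^ 2 + y 1 ^ 2) (vthI (arctan (y 1 / y 0))) (y 2) (y 3)

private theorem quadm_eq (y : EE 4) : quadm y = pol (g2 y) := rfl

private theorem g2_R {y : EE 4} (h : y ∈ quadD) : 0 < √(y 0 ^ 2 + y 1 ^ 2) := by
  have h0 : 0 < y 0 := h.1
  apply Real.sqrt_pos.2
  positivity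

private theorem g2_om {y : EE 4} (h : y ∈ quadD) : 0 < arctan (y 1 / y 0) ∧ arctan (y 1 / y 0) < π / 2 := by
  have h0 : 0 < y 0 := h.1
  have h1 : 0 < y 1 := h.2.1
  exact ⟨Real.arctan_pos.2 (div_pos h1 h0), Real.arctan_lt_pi_div_two _⟩

private theorem g2_mem {y : EE 4} (h : y ∈ quadD) : g2 y ∈ polD := by
  have h2 := vthI_mem (g2_om h).1 (g2_om h).2
  exact ⟨g2_R h, h2.1, h2.2, h.2.2.1, h.2.2.2⟩

theorem quadD_isOpen : IsOpen quadD := by
  unfold quadD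
  refine (isOpen_lt continuous_const (cp_coord 0)).inter
    ((isOpen_lt continuous_const (cp_coord 1)).inter
    ((isOpen_lt continuous_const (cp_coord 2)).inter
    (isOpen_lt (cp_coord 2) continuous_const)))

private theorem sq_cd : ContDiffOn ℝ ∞ (fun y : EE 4 => √(y 0 ^ 2 + y 1 ^ 2)) quadD := by
  apply ContDiffOn.sqrt
  · exact (((cdp_coord 0).pow 2).add ((cdp_coord 1).pow 2)).contDiffOn
  · intro y hy
    have h0 : 0 < y 0 := hy.1
    positivity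

private theorem om_cd : ContDiffOn ℝ ∞ (fun y : EE 4 => vthI (arctan (y 1 / y 0))) quadD := by
  apply vthI_contDiff.comp_contDiffOn
  apply Real.contDiff_arctan.comp_contDiffOn
  apply ContDiffOn.div
  · exact (cdp_coord 1).contDiffOn
  · exact (cdp_coord 0).contDiffOn
  · intro y hy
    exact (show 0 < y 0 from hy.1).ne'

theorem quadm_contDiffOn : ContDiffOn ℝ ∞ quadm quadD := by
  apply pol_contDiff.comp_contDiffOn
  apply v4_contDiffOn
  · exact sq_cd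
  · exact om_cd
  · exact (cdp_coord 2).contDiffOn
  · exact (cdp_coord 3).contDiffOn

private theorem quadm_d {y : EE 4} (h : y ∈ quadD) : DifferentiableAt ℝ quadm y :=
  (quadm_contDiffOn.contDiffAt (quadD_isOpen.mem_nhds h)).differentiableAt (by norm_num)

private theorem sq_d {y : EE 4} (h : y ∈ quadD) :
    DifferentiableAt ℝ (fun y : EE 4 => √(y 0 ^ 2 + y 1 ^ 2)) y :=
  (sq_cd.contDiffAt (quadD_isOpen.mem_nhds h)).differentiableAt (by norm_num)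

private theorem om_d {y : EE 4} (h : y ∈ quadD) :
    DifferentiableAt ℝ (fun y : EE 4 => vthI (arctan (y 1 / y 0))) y :=
  (om_cd.contDiffAt (quadD_isOpen.mem_nhds h)).differentiableAt (by norm_num)

private theorem quadD_nhds {y : EE 4} (h : y ∈ quadD) : ∀ᶠ z in 𝓝 y, z ∈ quadD :=
  quadD_isOpen.mem_nhds h

theorem quadm_norm {y : EE 4} (h : y ∈ quadD) : ‖quadm y‖ = √(y 0 ^ 2 + y 1 ^ 2) := by
  rw [quadm_eq, pol_norm (g2_mem h)]
  rfl

theorem quadm_ang {y : EE 4} (h : y ∈ quadD) :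
    ang (quadm y 0) (Yr (quadm y)) = vthI (arctan (y 1 / y 0)) := by
  rw [quadm_eq, pol_ang (g2_mem h)]
  rfl

theorem quadm_Ur_ne {y : EE 4} (h : y ∈ quadD) : Ur (quadm y) ≠ 0 := by
  rw [quadm_eq]
  exact pol_Ur_ne (g2_mem h)

theorem quadm_surj {p : EE 4} (h : Ur p ≠ 0) : ∃ y ∈ quadD, quadm y = p := by
  obtain ⟨y, hy, rfl⟩ := pol_surj h
  obtain ⟨h0, h1, h2, h3, h4⟩ := hy
  obtain ⟨w0, w1⟩ := vth_mem h1 h2
  have hc : 0 < cos (vth (y 1)) := Real.cos_pos_of_mem_Ioo ⟨by linarith, w1⟩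
  have hs : 0 < sin (vth (y 1)) := Real.sin_pos_of_pos_of_lt_pi w0 (by linarith [Real.pi_pos])
  refine ⟨v4 (y 0 * cos (vth (y 1))) (y 0 * sin (vth (y 1))) (y 2) (y 3),
    ⟨mul_pos h0 hc, mul_pos h0 hs, h3, h4⟩, ?_⟩
  rw [quadm_eq]
  congr 1
  apply ext4
  · show √((y 0 * cos (vth (y 1))) ^ 2 + (y 0 * sin (vth (y 1))) ^ 2) = y 0
    have e : (y 0 * cos (vth (y 1))) ^ 2 + (y 0 * sin (vth (y 1))) ^ 2 = y 0 ^ 2 := by
      linear_combination (y 0) ^ 2 * (Real.sin_sq_add_cos_sq (vth (y 1)))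
    rw [e, Real.sqrt_sq h0.le]
  · show vthI (arctan ((y 0 * sin (vth (y 1))) / (y 0 * cos (vth (y 1))))) = y 1
    rw [mul_div_mul_left _ _ h0.ne', ← Real.tan_eq_sin_div_cos,
      Real.arctan_tan (by linarith) w1, vthI_vth]
  · rfl
  · rfl

theorem quadm_image : quadm '' quadD = {p | Ur p ≠ 0} := by
  ext p
  constructor
  · rintro ⟨y, hy, rfl⟩
    exact quadm_Ur_ne hy
  · intro hp
    obtain ⟨y, hy, h⟩ := quadm_surj hp
    exact ⟨y, hy, h⟩

theorem quadm_wR {y : EE 4} (h : y ∈ quadD) (v : EE 4) :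
    wR (quadm y) (fderiv ℝ quadm y v) = (y 0 * v 0 + y 1 * v 1) / √(y 0 ^ 2 + y 1 ^ 2) := by
  rw [wR_comp (quadm_d h) (ne_zero_Ur (quadm_Ur_ne h)) v]
  have h1 : (fun z => ‖quadm z‖) =ᶠ[𝓝 y] fun z => √(z 0 ^ 2 + z 1 ^ 2) := by
    filter_upwards [quadD_nhds h] with z hz
    exact quadm_norm hz
  rw [h1.fderiv_eq]
  have hne : (fun z : EE 4 => z 0 ^ 2 + z 1 ^ 2) y ≠ 0 := by
    have h0 : 0 < y 0 := h.1
    show y 0 ^ 2 + y 1 ^ 2 ≠ 0
    positivity
  have hR := g2_R h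
  have h2 := (((dp_coord 0 y).hasFDerivAt.pow 2).add ((dp_coord 1 y).hasFDerivAt.pow 2)).sqrt hne
  have h3 : fderiv ℝ (fun z : EE 4 => √(z 0 ^ 2 + z 1 ^ 2)) y v = _ :=
    congrArg (fun L : EE 4 →L[ℝ] ℝ => L v) h2.fderiv
  rw [h3]
  simp only [ContinuousLinearMap.smul_apply, ContinuousLinearMap.add_apply, smul_eq_mul, nsmul_eq_mul,
    Pi.add_apply, Pi.pow_apply, fdp_coord]
  field_simp
  push_cast
  ring

theorem quadm_wt {y : EE 4} (h : y ∈ quadD) (v : EE 4) :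
    wt (quadm y) (fderiv ℝ quadm y v) =
      (y 0 * v 1 - y 1 * v 0) / (y 0 ^ 2 + y 1 ^ 2) / (1 - mf (vthI (arctan (y 1 / y 0)))) := by
  rw [wt_comp (quadm_d h) (Yr_pos (quadm_Ur_ne h)) v]
  have h1 : (fun z => ang (quadm z 0) (Yr (quadm z))) =ᶠ[𝓝 y] fun z => vthI (arctan (z 1 / z 0)) := by
    filter_upwards [quadD_nhds h] with z hz
    exact quadm_ang hz
  rw [h1.fderiv_eq]
  have h0 : 0 < y 0 := h.1
  have hi : HasFDerivAt (fun z : EE 4 => (z 0)⁻¹) (-(y 0 ^ 2)⁻¹ • fderiv ℝ (fun z : EE 4 => z 0) y) y :=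
    (hasDerivAt_inv h0.ne').comp_hasFDerivAt y (dp_coord 0 y).hasFDerivAt
  have hd : HasFDerivAt (fun z : EE 4 => z 1 / z 0)
      (y 1 • (-(y 0 ^ 2)⁻¹ • fderiv ℝ (fun z : EE 4 => z 0) y)
        + (y 0)⁻¹ • fderiv ℝ (fun z : EE 4 => z 1) y) y :=
    (dp_coord 1 y).hasFDerivAt.mul hi
  have h2 := (vthI_hasDerivAt (arctan (y 1 / y 0))).comp_hasFDerivAt y hd.arctan
  have h3 : fderiv ℝ (fun z : EE 4 => vthI (arctan (z 1 / z 0))) y v = _ :=
    congrArg (fun L : EE 4 →L[ℝ] ℝ => L v) h2.fderiv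
  rw [h3]
  have hm : 1 - mf (vthI (arctan (y 1 / y 0))) ≠ 0 := by
    have := mf_le (vthI (arctan (y 1 / y 0)))
    linarith
  simp only [ContinuousLinearMap.smul_apply, ContinuousLinearMap.add_apply, smul_eq_mul, fdp_coord]
  have h4 : y 0 ^ 2 + y 1 ^ 2 ≠ 0 := by positivity
  have h5 : 1 + (y 1 / y 0) ^ 2 ≠ 0 := by positivity
  have h6 : 1 / (1 + (y 1 / y 0) ^ 2) * (y 1 * (-(y 0 ^ 2)⁻¹ * v 0) + (y 0)⁻¹ * v 1)
      = (y 0 * v 1 - y 1 * v 0) / (y 0 ^ 2 + y 1 ^ 2) := by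
    have h7 : 1 + (y 1 / y 0) ^ 2 = (y 0 ^ 2 + y 1 ^ 2) / y 0 ^ 2 := by
      field_simp
    rw [h7]
    field_simp
    ring
  rw [h6]
  field_simp

theorem quadm_wal {y : EE 4} (h : y ∈ quadD) (v : EE 4) : wal (quadm y) (fderiv ℝ quadm y v) = v 2 := by
  rw [wal_comp (quadm_d h) (r := fun z => √(z 0 ^ 2 + z 1 ^ 2) * sin (vthI (arctan (z 1 / z 0))))
    (α := fun z => z 2)
    ((sq_d h).mul (om_d h).sin) (dp_coord 2 y)
    (quadm_Ur_ne h) (Eventually.of_forall fun z => rfl) (by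
      filter_upwards [quadD_nhds h] with z hz
      exact pol_Ur (g2_mem hz)) v]
  exact fdp_coord 2 y v

theorem quadm_wth {y : EE 4} (h : y ∈ quadD) (v : EE 4) : wth (quadm y) (fderiv ℝ quadm y v) = v 3 := by
  have h0 := pol_Ur_ne (g2_mem h)
  rw [pol_Ur (g2_mem h)] at h0
  rw [wth_comp (quadm_d h)
    (r := fun z => √(z 0 ^ 2 + z 1 ^ 2) * sin (vthI (arctan (z 1 / z 0))) * sin (z 2)) (φ := fun z => z 3)
    (((sq_d h).mul (om_d h).sin).mul (dp_coord 2 y).sin) (dp_coord 3 y) h0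
    (Eventually.of_forall fun z => rfl) (Eventually.of_forall fun z => rfl) v]
  exact fdp_coord 3 y v

/-- the type I metric near the tip, in quadrant coordinates -/
theorem qI_quadm {ph : ℝ} (hp : 0 < ph) (hp1 : ph ≤ 1 / 2) (Ψ : ℝ → ℝ) {y : EE 4} (h : y ∈ quadD)
    (hR : √(y 0 ^ 2 + y 1 ^ 2) ≤ 100000 * epsh ph) (v : EE 4) :
    qI ph Ψ (quadm y) (fderiv ℝ quadm y v) = v 0 ^ 2 + v 1 ^ 2
      + (epsh ph * PhiT (y 0 / epsh ph) (y 1 / epsh ph) * v 2) ^ 2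
      + (Ψ (epsh ph * PhiT (y 0 / epsh ph) (y 1 / epsh ph) * sin (y 2)) * v 3) ^ 2 := by
  have hY := Yr_pos (quadm_Ur_ne h)
  have h0 : 0 < y 0 := h.1
  have h1 : 0 < y 1 := h.2.1
  have he := epsh_pos hp
  have he2 := epsh_le hp hp1
  have hR0 := g2_R h
  have hRsq : √(y 0 ^ 2 + y 1 ^ 2) ^ 2 = y 0 ^ 2 + y 1 ^ 2 := Real.sq_sqrt (by positivity)
  rw [qI_planar ph Ψ hY, quadm_wR h, quadm_wt h, quadm_wal h, quadm_wth h, quadm_ang h, quadm_norm h]
  set R := √(y 0 ^ 2 + y 1 ^ 2) with hRdef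
  set t := vthI (arctan (y 1 / y 0)) with ht
  have hm : 1 - mf t ≠ 0 := by
    have := mf_le t
    linarith
  -- J
  have hJ : JL ph R t = (1 - mf t) * R := by
    unfold JL
    have hs : st (2 * R - 1) = 0 := by
      apply st_zero
      have : 100000 * epsh ph ≤ 1 / 2 := by
        have : ph / 10 ^ 12 ≤ 1 / 2 / 10 ^ 12 := by
          apply div_le_div_of_nonneg_right hp1
          positivity
        norm_num at this he2 ⊢
        linarith
      linarith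
    have hP : Pf (R / epsh ph) = R / epsh ph := by
      apply Pf_self (div_pos hR0 he)
      have hRP : RP = 1000000 := rfl
      rw [hRP, div_le_iff₀ he]
      linarith
    rw [hs, hP]
    field_simp
    ring
  -- angle
  have hcos : cos (arctan (y 1 / y 0)) = y 0 / R := by
    rw [Real.cos_arctan]
    have e : 1 + (y 1 / y 0) ^ 2 = (R / y 0) ^ 2 := by
      rw [div_pow, div_pow, hRsq]
      field_simp
    rw [e, Real.sqrt_sq (div_pos hR0 h0).le]
    field_simp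
  have hsin : sin (arctan (y 1 / y 0)) = y 1 / R := by
    rw [Real.sin_arctan]
    have e : 1 + (y 1 / y 0) ^ 2 = (R / y 0) ^ 2 := by
      rw [div_pow, div_pow, hRsq]
      field_simp
    rw [e, Real.sqrt_sq (div_pos hR0 h0).le]
    field_simp
  have hrad : rad (quadm y 0) (Yr (quadm y)) = R := by
    rw [rad_eq_norm, quadm_norm h]
  have hang : ang (quadm y 0) (Yr (quadm y)) = t := quadm_ang h
  have hPh : PhL ph (quadm y 0) (Yr (quadm y)) = epsh ph * PhiT (y 0 / epsh ph) (y 1 / epsh ph) := by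
    rw [PhL_of_lt hp hp1 hY (by rw [hrad]; exact hR), hrad, hang, ht, vth_vthI, hcos, hsin]
    congr 2
    · field_simp
    · field_simp
  have hU : Ur (quadm y) = Yr (quadm y) * sin (y 2) := by
    have e1 : Ur (quadm y) = R * sin t * sin (y 2) := by
      rw [quadm_eq, pol_Ur (g2_mem h)]
      rfl
    have e2 : Yr (quadm y) = R * sin t := by
      rw [quadm_eq, pol_Yr (g2_mem h)]
      rfl
    rw [e1, e2]
  have hW : PhL ph (quadm y 0) (Yr (quadm y)) * Ur (quadm y) / Yr (quadm y)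
      = epsh ph * PhiT (y 0 / epsh ph) (y 1 / epsh ph) * sin (y 2) := by
    rw [hU, hPh]
    field_simp
  rw [hW, hPh, hJ]
  have hq : ((y 0 * v 0 + y 1 * v 1) / R) ^ 2
      + ((1 - mf t) * R * ((y 0 * v 1 - y 1 * v 0) / (y 0 ^ 2 + y 1 ^ 2) / (1 - mf t))) ^ 2
      = v 0 ^ 2 + v 1 ^ 2 := by
    rw [← hRsq]
    have e3 : (1 - mf t) * R * ((y 0 * v 1 - y 1 * v 0) / R ^ 2 / (1 - mf t))
        = (y 0 * v 1 - y 1 * v 0) / R := by
      field_simp
    rw [e3, div_pow, div_pow, ← add_div, div_eq_iff (by positivity), hRsq]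
    ring
  rw [hq]

end Pool.Agent.MP39e402
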