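import Pool.Agent.Lib.MP_39e402_gt.UCp

/-! # MP_39e402, module UCm: the core form `qC` is a smooth metric on `Uc a` -/

open Real Set Filter Topology MeasureTheory
open scoped ContDiff

noncomputable section

namespace Pool.Agent.MP39e402

theorem qC_met {a : ℝ} {Ψ U : ℝ → ℝ} (h : Adm a Ψ U) : IsRMetricOn (polMet (qC Ψ U)) (Uc a) :=
  isRMetricOn_polMet (Uc_open h.toC.a_lt' (h.toC.a_lt.trans (by norm_num))) (fun p _ => qC_isQF Ψ U p)
    (fun v => qC_smooth h.toC v) fun _ hp _ hv => qC_pos h.toC hp hv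

end Pool.Agent.MP39e402
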