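import Mathlib

/-!
# MP_39e402: scalar building blocks (definitions only)

* `st`  smooth step, `zf` smooth saturation (`z t = t` for `t ≤ 2`, `= 3` for `t ≥ 4`, concave)
* `Hf x y = x y / √(x²+y²)`, `Zf x u = u z(x/u)`, `mnf` (smooth minimum), `mxf` (smooth maximum), `Ff`
* constants `lam, bb, aa, cc, RP`
* `PAx y Q s`: the profile near the axis
* `Pf`: the slowly decaying function `P`
* `mf, estar, Gam, vth, vthI`: the angular functions
* `NT, PhiT`: functions on the quadrant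
* `TI`: pointwise conditions for type I metrics
-/

open Real Set Filter Topology MeasureTheory
open scoped ContDiff

noncomputable section

namespace Pool.Agent.MP39e402

/-- smooth step: `0` for `t ≤ 0`, `1` for `t ≥ 1`, `C^∞`, monotone -/
def st (t : ℝ) : ℝ := Real.smoothTransition t

/-- `z(t) = ∫_0^t (1 - st((r-2)/2)) dr`; `z(t) = t` for `t ≤ 2`, `z(t) = 3` for `t ≥ 4`. -/
def zf (t : ℝ) : ℝ := t - 2 * ∫ r in (0:ℝ)..((t-2)/2), st r

def Hf (x y : ℝ) : ℝ := x * y / √(x^2 + y^2)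

def Zf (x u : ℝ) : ℝ := u * zf (x / u)

/-- smooth minimum: `= p` if `3p ≤ 2q`, `= q` if `3p ≥ 4q` -/
def mnf (p q : ℝ) : ℝ := q / 3 * zf (3 * p / q)

/-- smooth maximum: `= q` if `3p ≤ 2q`, `= p` if `3p ≥ 4q` -/
def mxf (p q : ℝ) : ℝ := p + q - mnf p q

def Ff (y s : ℝ) : ℝ := 9 / 10 * y + 1 / 10 * Hf y (s / 4)

def lam : ℝ := 1 / 1000
def bb : ℝ := 3 / √2
def aa : ℝ := lam * bb
def cc : ℝ := 1 / 10000000
def RP : ℝ := 1000000

/-- the profile near the axis: `y` = distance to the axis, `lam * (y+Q)` = the scale `u`. -/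
def PAx (y Q s : ℝ) : ℝ :=
  y - mxf (y - Hf (Zf y (lam * (y + Q))) (3 * (lam * (y + Q)))) (y - Ff y s)

/-- `P(R) = R exp(-c ∫_0^{log(R/RP)} st)`; `P(R) = R` for `R ≤ RP`. -/
def Pf (R : ℝ) : ℝ := R * Real.exp (-cc * ∫ r in (0:ℝ)..(Real.log (R / RP)), st r)

/-- `m(θ)`: 0 near the axes, `8/15` in the middle -/
def mf (t : ℝ) : ℝ := 8 / 15 * st ((t - π / 40) / (π / 80)) * st ((π - t - π / 40) / (π / 80))

def estar (t : ℝ) : ℝ := 15 / 7 * Real.cos t * (5 / 2 - Real.sin t)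

/-- `Γ(θ)` -/
def Gam (t : ℝ) : ℝ := 3 / 2 + ∫ r in (π / 2)..t, ((1 - mf r) * estar r - Real.cos r)

/-- `ϑ(θ) = ∫_0^θ (1 - m)` -/
def vth (t : ℝ) : ℝ := ∫ r in (0:ℝ)..t, (1 - mf r)

/-- the inverse function of `vth` -/
def vthI : ℝ → ℝ := Function.invFun vth

/-- `N(x,y) = R (sin θ + Γ(θ))`, `(x,y) = R (cos ϑ(θ), sin ϑ(θ))`, on the quadrant `x, y > 0` -/
def NT (x y : ℝ) : ℝ :=
  √(x^2 + y^2) * (Real.sin (vthI (Real.arctan (y / x))) + Gam (vthI (Real.arctan (y / x))))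

/-- first step of `PhiT`: correction near the axis `y = 0` -/
def PhiT1 (x y : ℝ) : ℝ :=
  y - mxf (y - Hf (Zf y (1 + lam * NT x y)) (Zf x (1 + lam * NT x y))) (y - Ff y (1 + lam / 10 * x))

/-- the profile on the quadrant -/
def PhiT (x y : ℝ) : ℝ :=
  x - mxf (x - PhiT1 x y) (x - Ff x (1 + lam / 10 * y))

/-! ### partial derivatives of functions of two variables and the type I conditions -/

def D1 (f : ℝ → ℝ → ℝ) (x y : ℝ) : ℝ := deriv (fun r => f r y) x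
def D2 (f : ℝ → ℝ → ℝ) (x y : ℝ) : ℝ := deriv (fun r => f x r) y
def D11 (f : ℝ → ℝ → ℝ) (x y : ℝ) : ℝ := D1 (D1 f) x y
def D12 (f : ℝ → ℝ → ℝ) (x y : ℝ) : ℝ := D1 (D2 f) x y
def D22 (f : ℝ → ℝ → ℝ) (x y : ℝ) : ℝ := D2 (D2 f) x y

/-- Type I conditions at the point `(x,y)` for the base metric `dx² + J² dy²` and the warping
function `f`: `-K0 ≤ K ≤ k`, `Hess f ≤ (K/2 + k) f`, `|∇ f| ≤ 1` (`K = - J_xx / J`). -/
structure TI (J f : ℝ → ℝ → ℝ) (K0 k : ℝ) (x y : ℝ) : Prop where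
  Jpos : 0 < J x y
  fpos : 0 < f x y
  Klb : -K0 ≤ -(D11 J x y / J x y)
  Kub : -(D11 J x y / J x y) ≤ k
  hess : ∀ v w : ℝ, D11 f x y * v^2
      + 2 * ((D12 f x y - D1 J x y / J x y * D2 f x y) / J x y) * v * w
      + ((D22 f x y - D2 J x y / J x y * D2 f x y) / (J x y)^2 + D1 J x y / J x y * D1 f x y) * w^2
      ≤ (-(D11 J x y / J x y) / 2 + k) * f x y * (v^2 + w^2)
  grad : (D1 f x y)^2 + (D2 f x y)^2 / (J x y)^2 ≤ 1

/-- near the axis `y = 0`, at the point `x0`, `f` is smooth and odd in `y` with slope `1` -/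
def AxisForm (f : ℝ → ℝ → ℝ) (x0 : ℝ) : Prop :=
  ∃ M : ℝ × ℝ → ℝ, ContDiffAt ℝ ∞ M (x0, 0) ∧
    ∀ᶠ p : ℝ × ℝ in 𝓝 (x0, 0), 0 < p.2 → f p.1 p.2 = p.2 * (1 - p.2^2 * M (p.1, p.2^2))

end Pool.Agent.MP39e402
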