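import Pool.Agent.Lib.MP_39e402_gt.UDefs

/-! # MP_39e402, module UCoord: the coordinate maps `cyl, pol, quadm, tor` (definitions only) -/

open Real Set Filter Topology MeasureTheory
open scoped ContDiff

noncomputable section

namespace Pool.Agent.MP39e402

/-- `(X, Y, α, θ̂)` -/
def cyl (y : EE 4) : EE 4 :=
  v4 (y 0) (y 1 * cos (y 2)) (y 1 * sin (y 2) * cos (y 3)) (y 1 * sin (y 2) * sin (y 3))
def cylD : Set (EE 4) := {y | 0 < y 1 ∧ 0 < y 2 ∧ y 2 < π}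

/-- `(R, θ, α, θ̂)` -/
def pol (y : EE 4) : EE 4 := cyl (v4 (y 0 * cos (y 1)) (y 0 * sin (y 1)) (y 2) (y 3))
def polD : Set (EE 4) := {y | 0 < y 0 ∧ 0 < y 1 ∧ y 1 < π ∧ 0 < y 2 ∧ y 2 < π}

/-- Cartesian coordinates of the quadrant `(R cos ϑ, R sin ϑ)`, `ϑ = vth θ`; `α, θ̂` -/
def quadm (y : EE 4) : EE 4 := pol (v4 √(y 0 ^ 2 + y 1 ^ 2) (vthI (arctan (y 1 / y 0))) (y 2) (y 3))
def quadD : Set (EE 4) := {y | 0 < y 0 ∧ 0 < y 1 ∧ 0 < y 2 ∧ y 2 < π}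

/-- torus coordinates of the core: `(t, ξ, φ2, θ̂)` -/
def tor (y : EE 4) : EE 4 :=
  v4 ((y 0 + t1C) * (cos (y 1) * cos (y 2))) ((y 0 + t1C) * (cos (y 1) * sin (y 2)))
    ((y 0 + t1C) * (sin (y 1) * cos (y 3))) ((y 0 + t1C) * (sin (y 1) * sin (y 3)))
def torD : Set (EE 4) := {y | 0 < y 0 ∧ 0 < y 1 ∧ y 1 < π / 2}

/-- `N(t,ξ)` and `κ(t,ξ)` -/
def Nt (t ξ : ℝ) : ℝ := bC t ^ 2 * cos ξ ^ 2 + fC t ^ 2 * sin ξ ^ 2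
def kt (t ξ : ℝ) : ℝ := 2 * (bC t ^ 2 - fC t ^ 2) / Nt t ξ
/-- `ρ(t,ξ)` in the Fubini-Study zone -/
def rt (t ξ : ℝ) : ℝ := √(1 - cos t ^ 2 * sin ξ ^ 2)

end Pool.Agent.MP39e402
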