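import Pool.Agent.Lib.MP_39e402_gt.UCs

/-! # MP_39e402, module UCp: positivity of the core form `qC` on `Uc a`

Let `base x v = wR² + b² (wn2 - n3² wth²) - b² (b²-f²)/N wvp²`, `σ = wth - kap wvp`,
`F1 = base + Ψ(wc)² σ²`, `F2 = base + (1/(1-U ρ) - 1/(1-ρ²)) wrho² + ρ² (1-U ρ)/4 σ²`;
`qC = F2` on PZ, `F1` outside.

`AdmC` (UAdm): `0 ≤ a < 1/8`, `a < sin taC`, `Ψ w = w/2` for `w ≥ sin taC/2`, `U ρ = ρ²` for `ρ ≥ min (1/4) (sin taC)`, ...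

* positivity outside PZ: `base_ge`, `eq_zero_of_core_forms`.
* positivity in PZ (`s = sin t`, `c = cos t`, `n_i = x_i/‖x‖` for `i = 0,1`, `ρ² = s² + c²(n_0²+n_1²) = 1 - c² n3²`):
  with `μ = (s, c n_0, c n_1)`, `|μ| = ρ`, `dμ = (c dt, c dn_0 - s n_0 dt, c dn_1 - s n_1 dt)`, `μ·dμ = ρ dρ`:
  `base = |dμ|² + (ρ dρ)²/(1-ρ²) - (μ_1 dμ_2 - μ_2 dμ_1)²/ρ²`, hence
  `F2 = dρ²/(1-U) + (|dμ|² - dρ² - (μ_1 dμ_2 - μ_2 dμ_1)²/ρ²) + ρ²(1-U)/4 σ²`, and by Lagrange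
  `ρ²|dμ|² - (μ·dμ)² - (μ_1 dμ_2 - μ_2 dμ_1)² = (μ_0 dμ_1 - μ_1 dμ_0)² + (μ_0 dμ_2 - μ_2 dμ_0)² ≥ 0`.
  If everything vanishes: `dρ = 0`, `μ_0 dμ_i = μ_i dμ_0`, with `μ·dμ = 0`: `dμ = 0` (`μ_0 = sin t > 0`), so
  `dt = 0`, `dn_0 = dn_1 = 0`, then `dn_3 = 0` (`n_dn`, `n3 > 0`), `wvp = 0`, `wth = 0`. -/

open Real Set Filter Topology MeasureTheory
open scoped ContDiff

noncomputable section

namespace Pool.Agent.MP39e402

private theorem pos_of_sum {a b c d : ℝ} (ha : 0 ≤ a) (hb : 0 ≤ b) (hc : 0 ≤ c) (hd : 0 ≤ d)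
    (h : a + b + c + d ≤ 0) : a = 0 ∧ b = 0 ∧ c = 0 ∧ d = 0 := by
  refine ⟨?_, ?_, ?_, ?_⟩ <;> linarith

private theorem sq_zero {a : ℝ} (h : a ^ 2 = 0) : a = 0 := pow_eq_zero_iff two_ne_zero |>.1 h

/-- outside the P-zone -/
private theorem pos1 {Ψ U : ℝ → ℝ} (hΨ : ∀ w, 0 < w → 0 < Ψ w) {x : EE 4} (h : t1C < ‖x‖)
    (hU : Ur x ≠ 0) (hP : x ∉ PZ) {v : EE 4} (hv : v ≠ 0) : 0 < qC Ψ U x v := by
  by_contra hc
  rw [not_lt] at hc
  apply hv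
  have hN := NN_pos h
  have hb := isCoreC.b_pos _ (tc_pos h)
  have hf := isCoreC.f_pos _ (tc_pos h)
  have h1 := base_ge h hU v
  have hw := wc_pos h hU
  have hψ := hΨ _ hw
  rw [qC, if_neg hP] at hc
  have hK : 0 < bC (tc x) ^ 2 * fC (tc x) ^ 2 / NN x := by positivity
  have a1 : 0 ≤ wR x v ^ 2 := sq_nonneg _
  have a2 : 0 ≤ bC (tc x) ^ 2 * fC (tc x) ^ 2 / NN x * (wni 0 x v ^ 2 + wni 1 x v ^ 2) := by
    positivity
  have a3 : 0 ≤ bC (tc x) ^ 2 * wn3 x v ^ 2 := by positivity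
  have a4 : 0 ≤ Ψ (wc x) ^ 2 * (wth x v - kap x * wvp x v) ^ 2 := by positivity
  obtain ⟨e1, e2, e3, e4⟩ := pos_of_sum a1 a2 a3 a4 (by linarith)
  have f1 := sq_zero e1
  have f2 : wni 0 x v ^ 2 + wni 1 x v ^ 2 = 0 := by
    rcases mul_eq_zero.1 e2 with h3 | h3
    · exact absurd h3 hK.ne'
    · exact h3
  have f3 : wn3 x v = 0 := by
    rcases mul_eq_zero.1 e3 with h3 | h3
    · exact absurd h3 (by positivity)
    · exact sq_zero h3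
  have f4 : wth x v - kap x * wvp x v = 0 := by
    rcases mul_eq_zero.1 e4 with h3 | h3
    · exact absurd h3 (by positivity)
    · exact sq_zero h3
  have g0 : wni 0 x v = 0 := sq_zero (by linarith [sq_nonneg (wni 0 x v), sq_nonneg (wni 1 x v)])
  have g1 : wni 1 x v = 0 := sq_zero (by linarith [sq_nonneg (wni 0 x v), sq_nonneg (wni 1 x v)])
  have g2 : wvp x v = 0 := by
    rw [wvp_eq (ne_zero_Ur hU), g0, g1]
    ring
  have g3 : wth x v = 0 := by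
    rw [g2] at f4
    linarith
  exact eq_zero_of_core_forms hU f1 g0 g1 f3 g3

/-- the algebra in the P-zone -/
private theorem alg2 {s c n0 n1 n3 w p q r : ℝ} (hs : s ^ 2 + c ^ 2 = 1)
    (hn : n0 ^ 2 + n1 ^ 2 + n3 ^ 2 = 1) (hd : n0 * p + n1 * q + n3 * r = 0) :
    (1 - c ^ 2 * n3 ^ 2) * (w ^ 2 + c ^ 2 * (p ^ 2 + q ^ 2 + r ^ 2)) -
      c ^ 4 * (n0 * q - n1 * p) ^ 2 - (c * r - s * n3 * w) ^ 2 =
      (s * c * p - n0 * w) ^ 2 + (s * c * q - n1 * w) ^ 2 := by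
  linear_combination (-w ^ 2 - c ^ 4 * (p ^ 2 + q ^ 2)) * hn +
    (-w ^ 2 * n3 ^ 2 - c ^ 2 * (p ^ 2 + q ^ 2)) * hs +
    (2 * c * s * w + c ^ 4 * (n0 * p + n1 * q - n3 * r)) * hd

private theorem alg2_zero {s c n0 n1 n3 w p q r : ℝ} (hs : s ^ 2 + c ^ 2 = 1)
    (hn : n0 ^ 2 + n1 ^ 2 + n3 ^ 2 = 1) (hd : n0 * p + n1 * q + n3 * r = 0) (hc0 : c ≠ 0)
    (hs0 : s ≠ 0) (hρ : 1 - c ^ 2 * n3 ^ 2 ≠ 0)
    (h1 : s * c * p - n0 * w = 0) (h2 : s * c * q - n1 * w = 0) (h3 : c * r - s * n3 * w = 0) :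
    w = 0 ∧ p = 0 ∧ q = 0 ∧ r = 0 := by
  have hw : (1 - c ^ 2 * n3 ^ 2) * w = 0 := by
    linear_combination (s * c) * hd - n0 * h1 - n1 * h2 - (s * n3) * h3 - w * hn - (n3 ^ 2 * w) * hs
  have w0 : w = 0 := by
    rcases mul_eq_zero.1 hw with h | h
    · exact absurd h hρ
    · exact h
  subst w0
  refine ⟨rfl, ?_, ?_, ?_⟩
  · have : s * c * p = 0 := by linarith
    exact (mul_eq_zero.1 this).resolve_left (mul_ne_zero hs0 hc0)
  · have : s * c * q = 0 := by linarith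
    exact (mul_eq_zero.1 this).resolve_left (mul_ne_zero hs0 hc0)
  · have : c * r = 0 := by linarith
    exact (mul_eq_zero.1 this).resolve_left hc0

/-- in the P-zone -/
private theorem pos2 {a : ℝ} {Ψ U : ℝ → ℝ} (H : AdmC a Ψ U) {x : EE 4} (h : t1C < ‖x‖)
    (hU : Ur x ≠ 0) (hP : x ∈ PZ) (hρa : a < rhoP x) {v : EE 4} (hv : v ≠ 0) :
    0 < qC Ψ U x v := by
  by_contra hcon
  rw [not_lt] at hcon
  apply hv
  have ht : tc x ≤ taC := hP.1.le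
  have hs := sin_tc_pos h hP.1
  have hc := cos_tc_pos h hP.1
  have hr := rhoP_pos h ht
  have hr1 : rhoP x < 1 := by linarith [hP.2]
  have hV : 0 < 1 - U (rhoP x) := by linarith [H.ltU _ hρa hr1]
  have hn3 := n3_pos hU
  have hr2 := rhoP_sq x
  obtain ⟨hb, hf⟩ := isCoreC.fs _ ht
  have hsc := Real.sin_sq_add_cos_sq (tc x)
  have hn := n3_sq (ne_zero_Ur hU)
  have hd := n_dn hU v
  have hvp := wvp_eq (ne_zero_Ur hU) v
  have hrho := rhoP_wrho hr v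
  rw [qC, if_pos hP, wn2_eq hU, NN_fs ht, hb, hf] at hcon
  have e1 : cos (tc x) ^ 2 * (cos (tc x) ^ 2 - (sin (tc x) * cos (tc x)) ^ 2) /
      (cos (tc x) ^ 2 * rhoP x ^ 2) = cos (tc x) ^ 4 / rhoP x ^ 2 := by
    rw [div_eq_div_iff (by positivity) (by positivity)]
    linear_combination (-(cos (tc x) ^ 4 * rhoP x ^ 2)) * hsc
  have hq : 0 < cos (tc x) * n3 x := mul_pos hc hn3
  have e2 : 1 / (1 - rhoP x ^ 2) * wrho x v ^ 2 =
      (cos (tc x) * wn3 x v - sin (tc x) * n3 x * wR x v) ^ 2 / rhoP x ^ 2 := by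
    have h5 : 1 - rhoP x ^ 2 = (cos (tc x) * n3 x) ^ 2 := by
      rw [hr2]
      ring
    rw [h5, one_div_mul_eq_div, div_eq_div_iff (by positivity) (by positivity)]
    have h6 : (rhoP x * wrho x v) ^ 2 =
      (-(cos (tc x) * n3 x) * (cos (tc x) * wn3 x v - sin (tc x) * n3 x * wR x v)) ^ 2 := by
      rw [hrho]
    linear_combination h6
  rw [e1, sub_mul, e2] at hcon
  have e3 := alg2 (w := wR x v) hsc hn hd
  rw [← hvp, ← hr2] at e3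
  have e4 : wR x v ^ 2 + cos (tc x) ^ 2 * (wni 0 x v ^ 2 + wni 1 x v ^ 2 + wn3 x v ^ 2) -
      cos (tc x) ^ 4 / rhoP x ^ 2 * wvp x v ^ 2 -
      (cos (tc x) * wn3 x v - sin (tc x) * n3 x * wR x v) ^ 2 / rhoP x ^ 2 =
      ((sin (tc x) * cos (tc x) * wni 0 x v - x 0 / ‖x‖ * wR x v) ^ 2 +
        (sin (tc x) * cos (tc x) * wni 1 x v - x 1 / ‖x‖ * wR x v) ^ 2) / rhoP x ^ 2 := by
    rw [← e3]
    field_simp
  have a1 : 0 ≤ (sin (tc x) * cos (tc x) * wni 0 x v - x 0 / ‖x‖ * wR x v) ^ 2 / rhoP x ^ 2 := by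
    positivity
  have a2 : 0 ≤ (sin (tc x) * cos (tc x) * wni 1 x v - x 1 / ‖x‖ * wR x v) ^ 2 / rhoP x ^ 2 := by
    positivity
  have a3 : 0 ≤ 1 / (1 - U (rhoP x)) * wrho x v ^ 2 := by positivity
  have a4 : 0 ≤ rhoP x ^ 2 * (1 - U (rhoP x)) / 4 * (wth x v - kap x * wvp x v) ^ 2 := by
    positivity
  rw [add_div] at e4
  obtain ⟨z1, z2, z3, z4⟩ := pos_of_sum a1 a2 a3 a4 (by linarith)
  have y1 : sin (tc x) * cos (tc x) * wni 0 x v - x 0 / ‖x‖ * wR x v = 0 := by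
    rcases div_eq_zero_iff.1 z1 with h3 | h3
    · exact sq_zero h3
    · exact absurd h3 (by positivity)
  have y2 : sin (tc x) * cos (tc x) * wni 1 x v - x 1 / ‖x‖ * wR x v = 0 := by
    rcases div_eq_zero_iff.1 z2 with h3 | h3
    · exact sq_zero h3
    · exact absurd h3 (by positivity)
  have y3 : wrho x v = 0 := by
    rcases mul_eq_zero.1 z3 with h3 | h3
    · exact absurd h3 (by positivity)
    · exact sq_zero h3
  have y4 : wth x v - kap x * wvp x v = 0 := by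
    rcases mul_eq_zero.1 z4 with h3 | h3
    · exact absurd h3 (by positivity)
    · exact sq_zero h3
  have y5 : cos (tc x) * wn3 x v - sin (tc x) * n3 x * wR x v = 0 := by
    rw [y3, mul_zero] at hrho
    rcases mul_eq_zero.1 hrho.symm with h3 | h3
    · exact absurd h3 (neg_ne_zero.2 hq.ne')
    · exact h3
  obtain ⟨w0, p0, q0, r0⟩ := alg2_zero hsc hn hd hc.ne' hs.ne' (by
    rw [← hr2]
    positivity) y1 y2 y5
  have g2 : wvp x v = 0 := by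
    rw [hvp, p0, q0]
    ring
  have g3 : wth x v = 0 := by
    rw [g2] at y4
    linarith
  exact eq_zero_of_core_forms hU w0 p0 q0 r0 g3

theorem qC_pos {a : ℝ} {Ψ U : ℝ → ℝ} (h : AdmC a Ψ U) {x : EE 4} (hx : x ∈ Uc a) {v : EE 4}
    (hv : v ≠ 0) : 0 < qC Ψ U x v := by
  obtain ⟨h1, h2, h3⟩ := hx
  by_cases hP : x ∈ PZ
  · exact pos2 h h1 h2 hP (by
      by_contra hc
      exact h3 ⟨hP, not_lt.1 hc⟩) hv
  · exact pos1 h.posΨ h1 h2 hP hv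

end Pool.Agent.MP39e402
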