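import Pool.Agent.Lib.MP_39e402_gt.GPts

/-! # MP_39e402, module UHPath: upper bounds for distances by explicit paths

* `redist_le_speed`: `redist_le_plenI` and `∫ √(g(γ',γ')) ≤ L` (`intervalIntegral.integral_mono_on`,
  `continuousOn_speed`), cf. `GPts_seg`.
* outside the cores (`freeS c0 k`, UConn) the metric is of type I and `≤ ‖v‖²`: as in `GPts_qI_le` (only `0 ≤ Ψ w ≤ w` is
  used), `GPts_good_mem`; slab: `gM_gquad`, `mem_Sl_idx`, `‖sc i p‖ = ‖p - ctr i‖/rh i`, `qL_typeI`.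
  `scΨ r Ψ` also satisfies `0 ≤ scΨ r Ψ w ≤ w`.
* `FreeBd V g K`: `(V,g)` is a smooth metric which is `≤ ‖v‖²` on `freeS c0 K ⊆ V`. -/

open Real Set Filter Topology MeasureTheory
open scoped ContDiff ENNReal

noncomputable section

namespace Pool.Agent.MP39e402

theorem redist_le_speed {n : ℕ} {V : Set (EE n)} {g : RMetric n} (hg : IsRMetricOn g V) {γ : ℝ → EE n}
    (hγ : ∀ t ∈ Icc (0 : ℝ) 1, ContDiffAt ℝ 1 γ t) (hV : ∀ t ∈ Icc (0 : ℝ) 1, γ t ∈ V)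
    {L : ℝ} (hL : 0 ≤ L) (hs : ∀ t ∈ Icc (0 : ℝ) 1, gquad g (γ t) (deriv γ t) ≤ L ^ 2) :
    redist V g (γ 0) (γ 1) ≤ ENNReal.ofReal L := by
  have hW : IsOpen {t : ℝ | ContDiffAt ℝ 1 γ t} := by
    rw [isOpen_iff_mem_nhds]
    intro t ht
    exact ContDiffAt.eventually (n := 1) ht (by simp)
  have h1 := redist_le_plenI hg zero_le_one hW hγ (fun t ht => (ContDiffAt.contDiffWithinAt ht)) hV
  refine h1.trans (ENNReal.ofReal_le_ofReal ?_)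
  unfold plenI
  refine (le_abs_self _).trans ?_
  rw [← Real.norm_eq_abs]
  have h2 := intervalIntegral.norm_integral_le_of_norm_le_const (a := (0 : ℝ)) (b := 1)
    (C := L) (f := fun t => √(gquad g (γ t) (deriv γ t))) (by
        intro t ht
        rw [uIoc_of_le zero_le_one] at ht
        rw [Real.norm_eq_abs, abs_of_nonneg (Real.sqrt_nonneg _)]
        exact Real.sqrt_le_iff.2 ⟨hL, hs t ⟨ht.1.le, ht.2⟩⟩)
  rw [sub_zero, abs_one, mul_one] at h2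
  exact h2

theorem LIso.redist_le_speed {U V T : Set (EE 4)} {g h : RMetric 4} {Φ : EE 4 → EE 4}
    (H : LIso U g V h T Φ) (hg : IsRMetricOn g U) {γ : ℝ → EE 4}
    (hγ : ∀ t ∈ Icc (0 : ℝ) 1, ContDiffAt ℝ 1 γ t) (hV : ∀ t ∈ Icc (0 : ℝ) 1, γ t ∈ V \ T)
    {L : ℝ} (hL : 0 ≤ L) (hs : ∀ t ∈ Icc (0 : ℝ) 1, gquad h (γ t) (deriv γ t) ≤ L ^ 2) :
    redist U g (Φ (γ 0)) (Φ (γ 1)) ≤ ENNReal.ofReal L := by
  have ho : IsOpen (V \ T) := H.met.isOpen.sdiff H.negl.closed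
  have hc : ∀ t ∈ Icc (0 : ℝ) 1, ContDiffAt ℝ ∞ Φ (γ t) := fun t ht =>
    (H.smooth _ (hV t ht)).contDiffAt (ho.mem_nhds (hV t ht))
  refine MP39e402.redist_le_speed (γ := fun t => Φ (γ t)) hg (fun t ht => ?_) (fun t ht => H.maps (hV t ht))
    hL (fun t ht => ?_)
  · exact ContDiffAt.comp t ((hc t ht).of_le (by simp)) (hγ t ht)
  · have hγd : DifferentiableAt ℝ γ t := (hγ t ht).differentiableAt (by simp)
    have hΦd : DifferentiableAt ℝ Φ (γ t) := (hc t ht).differentiableAt (by simp)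
    have hd : deriv (fun t => Φ (γ t)) t = fderiv ℝ Φ (γ t) (deriv γ t) := fderiv_comp_deriv t hΦd hγd
    rw [hd, H.isom _ (hV t ht)]
    exact hs t ht

theorem qI_le_norm {ph : ℝ} (h : 0 < ph) (h1 : ph ≤ 1 / 2) {Ψ : ℝ → ℝ} (hΨ : ∀ w, 0 ≤ w → 0 ≤ Ψ w ∧ Ψ w ≤ w)
    {p : EE 4} (hU : Ur p ≠ 0) (v : EE 4) : qI ph Ψ p v ≤ ‖v‖ ^ 2 := by
  obtain ⟨hU1, hU2⟩ := GPts_U hU
  obtain ⟨hY, hY2⟩ := GPts_Y hU
  obtain ⟨hR, hR2⟩ := GPts_R hU
  have h2 := JL_pos (t := ang (p 0) (Yr p)) h h1 hR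
  have h3 := PhL_pos (X := p 0) h h1 hY
  have h4 := GPts_PhL_le (X := p 0) h h1 hY
  have h5 : JL ph ‖p‖ (ang (p 0) (Yr p)) ^ 2 - ‖p‖ ^ 2 ≤ 0 := by nlinarith
  have h6 : PhL ph (p 0) (Yr p) ^ 2 ≤ Yr p ^ 2 := by nlinarith
  have h7 : Ψ (PhL ph (p 0) (Yr p) * Ur p / Yr p) ^ 2 ≤ Ur p ^ 2 := by
    have h8 : PhL ph (p 0) (Yr p) * Ur p / Yr p ≤ Ur p := by
      rw [div_le_iff₀ hY, mul_comm]
      exact mul_le_mul_of_nonneg_left h4 hU1.le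
    have h9 : 0 ≤ PhL ph (p 0) (Yr p) * Ur p / Yr p := by positivity
    obtain ⟨h10, h11⟩ := hΨ _ h9
    exact pow_le_pow_left₀ h10 (h11.trans h8) 2
  rw [GPts_euclid hU v]
  unfold qI
  have e1 := mul_le_mul_of_nonneg_right h5 (sq_nonneg (wt p v))
  have e2 := mul_le_mul_of_nonneg_right h6 (sq_nonneg (wal p v))
  have e3 := mul_le_mul_of_nonneg_right h7 (sq_nonneg (wth p v))
  linarith

private theorem uhp_free {c0 : ℝ} {k : ℕ∞} {p : EE 4} (hp : p ∈ freeS c0 k) {i : ℕ} (hi : 1 ≤ i)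
    (hik : (i : ℕ∞) ≤ k) : epsh (phh c0 i) / 2 ≤ ‖sc i p‖ := by
  have h1 := hp.2 i hi hik
  have hr := GPts_rh_pos i
  have h2 : ‖p - ctr i‖ = rh i * ‖sc i p‖ := by
    unfold ctr
    rw [← GPts_smul_sub i p, norm_smul, Real.norm_eq_abs, abs_of_pos hr]
  rw [h2] at h1
  exact le_of_mul_le_mul_left h1 hr

private theorem uhp_scΨ {r : ℝ} (hr : 0 < r) {Ψ : ℝ → ℝ} (hΨ : ∀ w, 0 ≤ w → 0 ≤ Ψ w ∧ Ψ w ≤ w) :
    ∀ w, 0 ≤ w → 0 ≤ scΨ r Ψ w ∧ scΨ r Ψ w ≤ w := by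
  intro w hw
  unfold scΨ
  obtain ⟨h1, h2⟩ := hΨ (r * w) (by positivity)
  exact ⟨div_nonneg h1 hr.le, by rw [div_le_iff₀ hr]; linarith⟩

theorem gM_le_free {c0 : ℝ} {k : ℕ} (h : 0 < c0) (h1 : c0 ≤ 1) (hk : 1 ≤ k) {Ψ : ℝ → ℝ} (U : ℝ → ℝ)
    (hΨ : ∀ w, 0 ≤ w → 0 ≤ Ψ w ∧ Ψ w ≤ w) {p : EE 4} (hp : p ∈ freeS c0 k) (v : EE 4) :
    gquad (gM c0 k Ψ U) p v ≤ ‖v‖ ^ 2 := by
  have hi := idx_pos k (p 0)
  have hik := idx_le hk (p 0)
  obtain ⟨hp0, hp1, he, he1⟩ := GPts_phh h h1 (idx k (p 0))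
  have h2 := uhp_free hp hi (by exact_mod_cast hik)
  rw [gM_gquad h h1 hi hik Ψ U (mem_Sl_idx hk p) hp.1 v]
  unfold qL
  rw [if_neg (not_lt.2 h2)]
  exact qI_le_norm hp0 hp1 (uhp_scΨ (GPts_rh_pos _) hΨ) (GPts_sc_Ur_ne.2 hp.1) v

theorem gInf_le_free {c0 : ℝ} (h : 0 < c0) (h1 : c0 ≤ 1) {p : EE 4} (hp : p ∈ freeS c0 ⊤) (v : EE 4) :
    gquad (gInf c0) p v ≤ ‖v‖ ^ 2 := by
  have hg : p ∈ GPts_good c0 := ⟨hp.1, fun i hi _ => uhp_free hp hi le_top⟩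
  exact (GPts_good_mem h h1 hg).2 v

structure FreeBd (c0 : ℝ) (V : Set (EE 4)) (g : RMetric 4) (K : ℕ∞) : Prop where
  met : IsRMetricOn g V
  sub : freeS c0 K ⊆ V
  le : ∀ p ∈ freeS c0 K, ∀ v, gquad g p v ≤ ‖v‖ ^ 2

theorem freeBd_Inf {c0 : ℝ} (h : 0 < c0) (h1 : c0 ≤ 1) : FreeBd c0 (UInf c0) (gInf c0) ⊤ :=
  ⟨gInf_met h h1, freeS_UInf h h1, fun _ hp v => gInf_le_free h h1 hp v⟩

theorem freeBd_M {c0 a : ℝ} {k : ℕ} {Ψ U : ℝ → ℝ} (h : 0 < c0) (h1 : c0 ≤ 1) (hk : 1 ≤ k)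
    (H : GAdm c0 k a Ψ U) (hΨ : ∀ w, 0 ≤ w → 0 ≤ Ψ w ∧ Ψ w ≤ w) : FreeBd c0 (UM c0 k a) (gM c0 k Ψ U) k :=
  ⟨gM_met h h1 hk H, freeS_UM h h1 hk, fun _ hp v => gM_le_free h h1 hk U hΨ hp v⟩

variable {c0 : ℝ} {V : Set (EE 4)} {g : RMetric 4} {K : ℕ∞}

/-- straight segment -/
theorem FreeBd.seg (B : FreeBd c0 V g K) {x y : EE 4} (hs : ∀ t ∈ Icc (0 : ℝ) 1, x + t • (y - x) ∈ freeS c0 K) :
    redist V g x y ≤ ENNReal.ofReal ‖y - x‖ := by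
  have hd : ∀ t : ℝ, HasDerivAt (fun t : ℝ => x + t • (y - x)) (y - x) t := by
    intro t
    have h1 : HasDerivAt (fun t : ℝ => x + t • (y - x)) ((1 : ℝ) • (y - x)) t :=
      ((hasDerivAt_id t).smul_const (y - x)).const_add x
    rwa [one_smul] at h1
  have hc : ContDiff ℝ 1 (fun t : ℝ => x + t • (y - x)) :=
    contDiff_const.add (contDiff_id.smul contDiff_const)
  have h1 := redist_le_speed (γ := fun t : ℝ => x + t • (y - x)) B.met (fun t _ => hc.contDiffAt)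
    (fun t ht => B.sub (hs t ht)) (norm_nonneg (y - x)) (fun t ht => by
      rw [(hd t).deriv]
      exact B.le _ (hs t ht) _)
  simpa using h1

/-- vertical path (segment from `p` to `vexp c p`, norm `(c-1) Ur p`, `freeS_vexp`) -/
theorem FreeBd.vert (B : FreeBd c0 V g K) {p : EE 4} (hp : p ∈ freeS c0 K) {c : ℝ} (hc : 1 ≤ c) :
    redist V g p (vexp c p) ≤ ENNReal.ofReal ((c - 1) * Ur p) := by
  have e0 : (vexp c p - p) 0 = 0 := by simp [vexp, v4]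
  have e1 : (vexp c p - p) 1 = 0 := by simp [vexp, v4]
  have e2 : (vexp c p - p) 2 = (c - 1) * p 2 := by simp [vexp, v4]; ring
  have e3 : (vexp c p - p) 3 = (c - 1) * p 3 := by simp [vexp, v4]; ring
  have hn : ‖vexp c p - p‖ = (c - 1) * Ur p := by
    obtain ⟨hU, hU2⟩ := GPts_U hp.1
    have h1 : ‖vexp c p - p‖ ^ 2 = ((c - 1) * Ur p) ^ 2 := by
      rw [VClass_normsq, e0, e1, e2, e3, mul_pow (c - 1) (Ur p), hU2]
      ring
    exact (pow_left_inj₀ (norm_nonneg _) (mul_nonneg (by linarith) hU.le) two_ne_zero).1 h1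
  rw [← hn]
  refine B.seg fun t ht => ?_
  have h1 : p + t • (vexp c p - p) = vexp (1 + t * (c - 1)) p := by
    ext j
    fin_cases j
    · show p 0 + t * (vexp c p - p) 0 = (vexp (1 + t * (c - 1)) p) 0
      rw [e0]; simp [vexp, v4]
    · show p 1 + t * (vexp c p - p) 1 = (vexp (1 + t * (c - 1)) p) 1
      rw [e1]; simp [vexp, v4]
    · show p 2 + t * (vexp c p - p) 2 = (vexp (1 + t * (c - 1)) p) 2
      rw [e2]; simp [vexp, v4]; ring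
    · show p 3 + t * (vexp c p - p) 3 = (vexp (1 + t * (c - 1)) p) 3
      rw [e3]; simp [vexp, v4]; ring
  rw [h1]
  exact freeS_vexp hp (by nlinarith [ht.1, ht.2])

private theorem uhp_angle {p : EE 4} {L : ℝ} (hL : 0 < L) (hp : Ur p = L) :
    ∃ φ : ℝ, |φ| ≤ π ∧ p 2 = L * cos φ ∧ p 3 = L * sin φ := by
  have hU : Ur p ≠ 0 := by rw [hp]; exact hL.ne'
  obtain ⟨-, hU2⟩ := GPts_U hU
  rw [hp] at hU2
  have h1 : (p 2 / L) ^ 2 + (p 3 / L) ^ 2 = 1 := by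
    rw [div_pow, div_pow, ← add_div, ← hU2, div_self (by positivity)]
  have h2 : -1 ≤ p 2 / L := by nlinarith [sq_nonneg (p 3 / L), sq_nonneg (p 2 / L)]
  have h3 : p 2 / L ≤ 1 := by nlinarith [sq_nonneg (p 3 / L), sq_nonneg (p 2 / L)]
  have h4 := arccos_nonneg (p 2 / L)
  have h5 := arccos_le_pi (p 2 / L)
  have h6 : 1 - (p 2 / L) ^ 2 = (p 3 / L) ^ 2 := by linarith
  rcases le_total 0 (p 3) with h7 | h7
  · refine ⟨arccos (p 2 / L), by rw [abs_of_nonneg h4]; exact h5, ?_, ?_⟩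
    · rw [cos_arccos h2 h3]; field_simp
    · rw [sin_arccos, h6, Real.sqrt_sq (by positivity)]; field_simp
  · refine ⟨-arccos (p 2 / L), by rw [abs_neg, abs_of_nonneg h4]; exact h5, ?_, ?_⟩
    · rw [cos_neg, cos_arccos h2 h3]; field_simp
    · rw [sin_neg, sin_arccos, h6, Real.sqrt_sq_eq_abs, abs_of_nonpos (div_nonpos_of_nonpos_of_nonneg h7 hL.le)]
      field_simp

private theorem uhp_hasDerivAt_v4 {a b c d : ℝ → ℝ} {a' b' c' d' s : ℝ} (ha : HasDerivAt a a' s)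
    (hb : HasDerivAt b b' s) (hc : HasDerivAt c c' s) (hd : HasDerivAt d d' s) :
    HasDerivAt (fun s => v4 (a s) (b s) (c s) (d s)) (v4 a' b' c' d') s := by
  have e : ∀ p q r t : ℝ, v4 p q r t = p • e4 0 + q • e4 1 + r • e4 2 + t • e4 3 := by
    intro p q r t
    ext i
    fin_cases i <;> simp [v4, e4]
  simp only [e]
  exact (((ha.smul_const _).add (hb.smul_const _)).add (hc.smul_const _)).add (hd.smul_const _)

/-- path at constant `Ur = L`: `t ↦ (x0(t), x1(t), L cos φ(t), L sin φ(t))`, linear functions, `|Δφ| ≤ 2π` -/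
theorem FreeBd.horiz (B : FreeBd c0 V g K) {p q : EE 4} {L : ℝ} (hL : 0 < L) (hp : Ur p = L) (hq : Ur q = L)
    (hf : ∀ x : EE 4, Ur x = L → x 0 ∈ uIcc (p 0) (q 0) → x ∈ freeS c0 K) :
    redist V g p q ≤ ENNReal.ofReal (|p 0 - q 0| + |p 1 - q 1| + 7 * L) := by
  obtain ⟨φ, hφ, hp2, hp3⟩ := uhp_angle hL hp
  obtain ⟨ψ, hψ, hq2, hq3⟩ := uhp_angle hL hq
  set γ : ℝ → EE 4 := fun t => v4 (p 0 + t * (q 0 - p 0)) (p 1 + t * (q 1 - p 1))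
    (L * cos (φ + t * (ψ - φ))) (L * sin (φ + t * (ψ - φ))) with hγ
  have hv : ∀ a b c d : ℝ, (v4 a b c d) 0 = a ∧ (v4 a b c d) 1 = b ∧ (v4 a b c d) 2 = c ∧
      (v4 a b c d) 3 = d := fun a b c d => ⟨rfl, rfl, rfl, rfl⟩
  have hγ0 : γ 0 = p := by
    ext j
    fin_cases j
    · show p 0 + 0 * (q 0 - p 0) = p 0
      ring
    · show p 1 + 0 * (q 1 - p 1) = p 1
      ring
    · show L * cos (φ + 0 * (ψ - φ)) = p 2
      rw [hp2, zero_mul, add_zero]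
    · show L * sin (φ + 0 * (ψ - φ)) = p 3
      rw [hp3, zero_mul, add_zero]
  have hγ1 : γ 1 = q := by
    ext j
    fin_cases j
    · show p 0 + 1 * (q 0 - p 0) = q 0
      ring
    · show p 1 + 1 * (q 1 - p 1) = q 1
      ring
    · show L * cos (φ + 1 * (ψ - φ)) = q 2
      rw [hq2, one_mul, add_sub_cancel]
    · show L * sin (φ + 1 * (ψ - φ)) = q 3
      rw [hq3, one_mul, add_sub_cancel]
  have hlin : ∀ (a b t : ℝ), HasDerivAt (fun t : ℝ => a + t * b) b t := by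
    intro a b t
    have := ((hasDerivAt_id t).mul_const b).const_add a
    simpa using this
  have hd : ∀ t : ℝ, HasDerivAt γ (v4 (q 0 - p 0) (q 1 - p 1)
      (L * (-sin (φ + t * (ψ - φ)) * (ψ - φ))) (L * (cos (φ + t * (ψ - φ)) * (ψ - φ)))) t := by
    intro t
    exact uhp_hasDerivAt_v4 (hlin _ _ t) (hlin _ _ t) ((hlin φ (ψ - φ) t).cos.const_mul L)
      ((hlin φ (ψ - φ) t).sin.const_mul L)
  have hcd : ContDiff ℝ 1 γ := by
    rw [contDiff_euclidean]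
    intro j
    fin_cases j
    · show ContDiff ℝ 1 fun t : ℝ => p 0 + t * (q 0 - p 0)
      fun_prop
    · show ContDiff ℝ 1 fun t : ℝ => p 1 + t * (q 1 - p 1)
      fun_prop
    · show ContDiff ℝ 1 fun t : ℝ => L * cos (φ + t * (ψ - φ))
      fun_prop
    · show ContDiff ℝ 1 fun t : ℝ => L * sin (φ + t * (ψ - φ))
      fun_prop
  have hUγ : ∀ t, Ur (γ t) = L := by
    intro t
    show √((L * cos (φ + t * (ψ - φ))) ^ 2 + (L * sin (φ + t * (ψ - φ))) ^ 2) = L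
    have : (L * cos (φ + t * (ψ - φ))) ^ 2 + (L * sin (φ + t * (ψ - φ))) ^ 2 = L ^ 2 := by
      rw [mul_pow, mul_pow, ← mul_add, cos_sq_add_sin_sq, mul_one]
    rw [this, Real.sqrt_sq hL.le]
  have hmem : ∀ t ∈ Icc (0 : ℝ) 1, γ t ∈ freeS c0 K := by
    intro t ht
    refine hf _ (hUγ t) ?_
    show p 0 + t * (q 0 - p 0) ∈ uIcc (p 0) (q 0)
    rcases le_total (p 0) (q 0) with h1 | h1
    · rw [uIcc_of_le h1]
      constructor
      · nlinarith [mul_nonneg ht.1 (sub_nonneg.2 h1)]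
      · nlinarith [mul_nonneg (sub_nonneg.2 ht.2) (sub_nonneg.2 h1)]
    · rw [uIcc_of_ge h1]
      constructor
      · nlinarith [mul_nonneg (sub_nonneg.2 ht.2) (sub_nonneg.2 h1)]
      · nlinarith [mul_nonneg ht.1 (sub_nonneg.2 h1)]
  have hΔ : |ψ - φ| ≤ 7 := by
    have h1 := abs_sub ψ φ
    have h2 := Real.pi_lt_d2
    linarith
  have h1 := redist_le_speed (γ := γ) B.met (fun t _ => hcd.contDiffAt)
    (fun t ht => B.sub (hmem t ht)) (L := |p 0 - q 0| + |p 1 - q 1| + 7 * L)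
    (by positivity) (fun t ht => by
      rw [(hd t).deriv]
      refine (B.le _ (hmem t ht) _).trans ?_
      rw [VClass_normsq]
      show (q 0 - p 0) ^ 2 + (q 1 - p 1) ^ 2 + (L * (-sin (φ + t * (ψ - φ)) * (ψ - φ))) ^ 2
        + (L * (cos (φ + t * (ψ - φ)) * (ψ - φ))) ^ 2 ≤ _
      have e1 : (L * (-sin (φ + t * (ψ - φ)) * (ψ - φ))) ^ 2
          + (L * (cos (φ + t * (ψ - φ)) * (ψ - φ))) ^ 2 = L ^ 2 * |ψ - φ| ^ 2 := by
        rw [sq_abs]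
        linear_combination (L ^ 2 * (ψ - φ) ^ 2) * sin_sq_add_cos_sq (φ + t * (ψ - φ))
      have e2 : (q 0 - p 0) ^ 2 = |p 0 - q 0| ^ 2 := by rw [sq_abs]; ring
      have e3 : (q 1 - p 1) ^ 2 = |p 1 - q 1| ^ 2 := by rw [sq_abs]; ring
      rw [add_assoc, e1, e2, e3]
      have a1 := abs_nonneg (p 0 - q 0)
      have a2 := abs_nonneg (p 1 - q 1)
      have a3 := abs_nonneg (ψ - φ)
      have a4 : L ^ 2 * |ψ - φ| ^ 2 ≤ (7 * L) ^ 2 := by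
        have : |ψ - φ| ^ 2 ≤ 7 ^ 2 := pow_le_pow_left₀ a3 hΔ 2
        nlinarith [sq_nonneg L]
      nlinarith [mul_nonneg a1 a2, mul_nonneg a1 hL.le, mul_nonneg a2 hL.le])
  rwa [hγ0, hγ1] at h1

end Pool.Agent.MP39e402
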