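import Pool.Agent.Lib.MP_39e402_gt.UHcmp

/-! # MP_39e402, module UHfa: local agreement of the approximating metrics with the limit metric; the base ball

`ball_data`: on `closedBall qB 1`: `Ur ≥ 7`, `|x 0| ≤ 1`: `gInf_near`, `freeS_of_Ur`, `freeS_UM`, `prod_zone` (`aa Ur ≥ δ`).

`hf_data`: by compactness it suffices to show: every `x ∈ UInf` has a neighbourhood `O` with, for all large `k`, the two
claims for all points of `O ∩ UInf` (`IsCompact.induction_on` or a finite subcover).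
`hf_local` (metric): let `m = Ur x > 0`.
  (a) `x 0 < Yr x`: `O = {y | y 0 < Yr y, Ur y > m/2}`.  `gInf = polMet q0` (`gInf_near`).  For `k` with `rh (k+1) ≤ m`,
      `δ k ≤ aa m/2`: in the slab `i = idx (k+1) (y 0)`: `‖sc i y‖ ≥ 1` and `rh i/5 ≤ Yr y` (if `i < k+1` then `xh i < 16/11 y 0 <
      2 Yr y`; if `i = k+1`: `Yr y ≥ m/2 ≥ rh (k+1)/5`; `‖sc i y‖ ≥ Yr y/rh i`), so `prod_zone`, `Ψ k (aa Ur y) = aa Ur y/2`.
  (b) `Yr x ≤ x 0`: choose `m ≥ 1` with `11/16 xh m < x 0`, `O ⊆ {11/16 xh m < y 0} ∩ Sl m i`, `i = idx m (x 0)`; for `k + 1 ≥ m`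
      `O ⊆ Sl (k+1) i`, so both metrics are `polMet (qL (phh c0 i) ..) (sc i y)` and `qL_local` applies (neighbourhood of `sc i x`).
`qL_local`: near `p ∈ UL ph 0` three lower bounds hold by continuity: `PhL (p 0) (Yr p) * Ur p/Yr p ≥ c`, `wc (Qm p) ≥ c`,
  `sin (tc (Qm p)) ≥ c` if `tc < ta` (so `rhoP (Qm p) ≥ c`, `rhoP_ge`).
`Bs_local` (second claim): `m = Ur x`; `Bs 0`: `5/4 xh (k+2) → 0`; `Bs j` with `rh j < m/2`: `y ∈ Bs j` gives
  `Ur y ≤ ‖y - ctr j‖ < rh j` (`Bs_sub`); the finitely many other `j`: `t1 < ‖xco c0 j x‖` (`UInf_xco`), and `tc ≥ c > 0`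
  near `x`, so `rhoP ≥ sin c` on PZ, while `2 ρ1 k → 0`. -/

open Real Set Filter Topology MeasureTheory
open scoped ContDiff ENNReal

noncomputable section

namespace Pool.Agent.MP39e402

private theorem uf_polMet_congr {q q' : EE 4 → EE 4 → ℝ} {p p' : EE 4} (h : ∀ v, q p v = q' p' v) :
    polMet q p = polMet q' p' := by
  unfold polMet
  ext i j
  simp [h]

private theorem uf_cont_Yr : Continuous Yr := by
  unfold Yr
  fun_prop

private theorem uf_cont0 : Continuous fun p : EE 4 => p 0 := VClass_cont_coord 0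

private theorem uf_NN_pos {x : EE 4} (hx : t1C < ‖x‖) : 0 < NN x := by
  have ht : 0 < tc x := by unfold tc; linarith
  have hb := isCoreC.b_pos _ ht
  have hf := isCoreC.f_pos _ ht
  have hfb := isCoreC.f_le _ ht
  have hn := VClass_n3_mem x
  have h1 : n3 x ^ 2 ≤ 1 := by nlinarith [hn.1, hn.2]
  have h2 : 0 ≤ bC (tc x) ^ 2 - fC (tc x) ^ 2 := by nlinarith
  unfold NN
  have h3 : (bC (tc x) ^ 2 - fC (tc x) ^ 2) * n3 x ^ 2 ≤ bC (tc x) ^ 2 - fC (tc x) ^ 2 := by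
    nlinarith
  have h4 : 0 < fC (tc x) ^ 2 := by positivity
  linarith

private theorem uf_wc_cont {x : EE 4} (hx : ‖x‖ ≠ 0) : ContinuousAt wc x := by
  have hb : ContinuousAt (fun y => bC (tc y)) x :=
    (isCoreC.smooth_b.continuous.comp VClass_cont_tc).continuousAt
  have hf : ContinuousAt (fun y => fC (tc y)) x :=
    (isCoreC.smooth_f.continuous.comp VClass_cont_tc).continuousAt
  have hn := VClass_n3_at hx
  have hN : ContinuousAt NN x := by
    unfold NN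
    exact (hb.pow 2).sub (((hb.pow 2).sub (hf.pow 2)).mul (hn.pow 2))
  unfold wc
  exact hn.mul hN.sqrt

theorem qL_local {ph : ℝ} (h : 0 < ph) (h1 : ph ≤ 1 / 2) {p : EE 4} (hp : p ∈ UL ph 0) :
    ∃ O ∈ 𝓝 p, ∃ c > 0, ∀ y ∈ O, ∀ Ψ U : ℝ → ℝ, (∀ w, c ≤ w → Ψ w = w / 2) → (∀ ρ, c ≤ ρ → U ρ = ρ ^ 2) →
      ∀ v, qL ph Ψ U y v = qL ph Ψ0 U0 y v := by
  have he := epsh_pos h
  have hU : Ur p ≠ 0 := hp.1
  obtain ⟨hp0, hx1, hx2, -⟩ := (mem_UL_iff h).1 hp
  have hxn : ‖Qm (epsh ph) p‖ ≠ 0 := (VClass_t1.trans hx1).ne'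
  have hUp : 0 < Ur p := (GPts_U hU).1
  have hYp : 0 < Yr p := (GPts_Y hU).1
  have hs : 0 < epsh ph * sC := mul_pos he GPts_sC_pos
  have hQ : ContinuousAt (Qm (epsh ph)) p :=
    (Qm_contDiffOn he).continuousOn.continuousAt (isOpen_compl_singleton.mem_nhds hp0)
  -- the three functions
  have cA : ContinuousAt (fun y : EE 4 => PhL ph (y 0) (Yr y) * Ur y / Yr y) p := by
    have c1 : ContinuousAt (fun q : ℝ × ℝ => PhL ph q.1 q.2) (p 0, Yr p) :=
      (PhL_contDiffOn h h1).continuousOn.continuousAt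
        ((isOpen_lt continuous_const continuous_snd).mem_nhds hYp)
    have c2 : ContinuousAt (fun y : EE 4 => (y 0, Yr y)) p :=
      (uf_cont0.prodMk uf_cont_Yr).continuousAt
    have c3 : ContinuousAt (fun y : EE 4 => PhL ph (y 0) (Yr y)) p :=
      ContinuousAt.comp (g := fun q : ℝ × ℝ => PhL ph q.1 q.2) (f := fun y : EE 4 => (y 0, Yr y)) c1 c2
    exact (c3.mul VClass_cont_Ur.continuousAt).div uf_cont_Yr.continuousAt hYp.ne'
  have pA : 0 < PhL ph (p 0) (Yr p) * Ur p / Yr p := by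
    have := PhL_pos h h1 (X := p 0) hYp
    positivity
  have cB : ContinuousAt (fun y : EE 4 => epsh ph * sC * wc (Qm (epsh ph) y)) p :=
    continuousAt_const.mul (ContinuousAt.comp (g := wc) (f := Qm (epsh ph)) (uf_wc_cont hxn) hQ)
  have pB : 0 < epsh ph * sC * wc (Qm (epsh ph) p) := by
    have h2 : 0 < n3 (Qm (epsh ph) p) := by
      unfold n3
      exact div_pos (lt_of_le_of_ne (VClass_Ur_nonneg _) (Ne.symm hx2)) (lt_of_le_of_ne (norm_nonneg _) (Ne.symm hxn))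
    have h3 := uf_NN_pos hx1
    unfold wc
    positivity
  have cC : ContinuousAt (fun y : EE 4 => rhoP (Qm (epsh ph) y)) p :=
    ContinuousAt.comp (g := rhoP) (f := Qm (epsh ph)) (VClass_rhoP_at hxn) hQ
  have cT : ContinuousAt (fun y : EE 4 => tc (Qm (epsh ph) y)) p :=
    ContinuousAt.comp (g := tc) (f := Qm (epsh ph)) VClass_cont_tc.continuousAt hQ
  -- the third bound
  obtain ⟨c3, hc3, hC⟩ : ∃ c3 > 0, ∀ᶠ y in 𝓝 p, Qm (epsh ph) y ∈ PZ → c3 < rhoP (Qm (epsh ph) y) := by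
    rcases le_or_gt (tc (Qm (epsh ph) p)) taC with h2 | h2
    · have h3 : 0 < tc (Qm (epsh ph) p) := by unfold tc; linarith
      have hta := isCoreC.ta_le
      have h4 : 0 < sin (tc (Qm (epsh ph) p)) := sin_pos_of_pos_of_lt_pi h3 (by linarith [Real.pi_gt_three])
      have h5 : sin (tc (Qm (epsh ph) p)) ≤ rhoP (Qm (epsh ph) p) := by
        unfold rhoP
        exact Real.le_sqrt_of_sq_le (VClass_sin_le _)
      have h6 : rhoP (Qm (epsh ph) p) / 2 < rhoP (Qm (epsh ph) p) := by linarith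
      refine ⟨rhoP (Qm (epsh ph) p) / 2, by linarith, ?_⟩
      filter_upwards [cC.eventually (lt_mem_nhds h6)] with y hy _
      exact hy
    · refine ⟨1, one_pos, ?_⟩
      filter_upwards [cT.eventually (lt_mem_nhds h2)] with y hy hP
      exact absurd hP.1 (not_lt.2 hy.le)
  set A := PhL ph (p 0) (Yr p) * Ur p / Yr p with hA
  set B := epsh ph * sC * wc (Qm (epsh ph) p) with hB
  have eA : ∀ᶠ y : EE 4 in 𝓝 p, A / 2 < PhL ph (y 0) (Yr y) * Ur y / Yr y :=
    cA.eventually (lt_mem_nhds (show A / 2 < A by linarith))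
  have eB : ∀ᶠ y : EE 4 in 𝓝 p, B / 2 < epsh ph * sC * wc (Qm (epsh ph) y) :=
    cB.eventually (lt_mem_nhds (show B / 2 < B by linarith))
  refine ⟨{y | A / 2 < PhL ph (y 0) (Yr y) * Ur y / Yr y ∧ B / 2 < epsh ph * sC * wc (Qm (epsh ph) y) ∧
    (Qm (epsh ph) y ∈ PZ → c3 < rhoP (Qm (epsh ph) y))}, ?_, min (A / 2) (min (B / 2) c3), ?_, ?_⟩
  · filter_upwards [eA, eB, hC] with y a b c
    exact ⟨a, b, c⟩
  · have : 0 < A / 2 := by linarith
    have : 0 < B / 2 := by linarith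
    positivity
  · rintro y ⟨y1, y2, y3⟩ Ψ U hΨ hU' v
    have m1 : min (A / 2) (min (B / 2) c3) ≤ A / 2 := min_le_left _ _
    have m2 : min (A / 2) (min (B / 2) c3) ≤ B / 2 := (min_le_right _ _).trans (min_le_left _ _)
    have m3 : min (A / 2) (min (B / 2) c3) ≤ c3 := (min_le_right _ _).trans (min_le_right _ _)
    unfold qL
    by_cases hy : ‖y‖ < epsh ph / 2
    · rw [if_pos hy, if_pos hy]
      congr 1
      unfold qC
      congr 1
      by_cases hP : Qm (epsh ph) y ∈ PZ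
      · rw [if_pos hP, if_pos hP, hU' _ (by linarith [y3 hP])]
        rfl
      · rw [if_neg hP, if_neg hP]
        have e1 : scΨ (epsh ph * sC) Ψ (wc (Qm (epsh ph) y)) = scΨ (epsh ph * sC) Ψ0 (wc (Qm (epsh ph) y)) := by
          unfold scΨ
          rw [hΨ _ (by linarith)]
          rfl
        rw [e1]
    · rw [if_neg hy, if_neg hy]
      unfold qI
      rw [hΨ _ (by linarith)]
      rfl

private theorem uf_Yr_sc (i : ℕ) (p : EE 4) : Yr (sc i p) = Yr p / rh i := sc_Yr i p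

private theorem uf_Yr_le (p : EE 4) : Yr p ≤ ‖p‖ := by
  unfold Yr
  refine Real.sqrt_le_iff.mpr ⟨norm_nonneg p, ?_⟩
  rw [VClass_normsq]
  nlinarith [sq_nonneg (p 0)]

private theorem uf_Ur_le (p : EE 4) : Ur p ≤ Yr p := by
  unfold Ur Yr
  exact Real.sqrt_le_sqrt (by nlinarith [sq_nonneg (p 1)])

private theorem uf_rh_tendsto : Tendsto (fun k : ℕ => rh (k + 1)) atTop (𝓝 0) := by
  have h1 : Tendsto (fun k : ℕ => (1 / 2 : ℝ) ^ k) atTop (𝓝 0) :=
    tendsto_pow_atTop_nhds_zero_of_lt_one (by norm_num) (by norm_num)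
  have h2 : Tendsto (fun k : ℕ => (1 / 2 : ℝ) ^ (k + 1)) atTop (𝓝 0) := (tendsto_add_atTop_iff_nat 1).2 h1
  have h3 := h2.div_const (4096 : ℝ)
  rw [zero_div] at h3
  exact h3

theorem hf_local {c0 : ℝ} (h : 0 < c0) (h1 : c0 ≤ 1) (ρ1 a ε δ : ℕ → ℝ) (Ψ U : ℕ → ℝ → ℝ)
    (H : ∀ k, Par (ρ1 k) (a k) (ε k) (δ k) (Ψ k) (U k)) (hδ : Tendsto δ atTop (𝓝 0))
    (hρ : Tendsto ρ1 atTop (𝓝 0)) {x : EE 4} (hx : x ∈ UInf c0) :
    ∃ O ∈ 𝓝 x, ∀ᶠ k in atTop, ∀ y ∈ O, gM c0 (k + 1) (Ψ k) (U k) y = gInf c0 y := by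
  have hU : Ur x ≠ 0 := hx.1
  have hm : 0 < Ur x := (GPts_U hU).1
  have haa := GPts_aa.1
  rcases lt_or_ge (x 0) (Yr x) with h2 | h2
  · refine ⟨{y | y 0 < Yr y ∧ Ur x / 2 < Ur y}, ?_, ?_⟩
    · exact ((isOpen_lt uf_cont0 uf_cont_Yr).inter (isOpen_lt continuous_const VClass_cont_Ur)).mem_nhds
        ⟨h2, show Ur x / 2 < Ur x by linarith⟩
    · have e1 : ∀ᶠ k in atTop, δ k < aa * (Ur x / 2) := hδ.eventually (gt_mem_nhds (by positivity))
      have e2 : ∀ᶠ k in atTop, rh (k + 1) < Ur x / 2 := uf_rh_tendsto.eventually (gt_mem_nhds (by positivity))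
      filter_upwards [e1, e2] with k hk1 hk2 y hy
      obtain ⟨hy1, hy2⟩ := hy
      have hUy : 0 < Ur y := by linarith
      have hYy := uf_Ur_le y
      rw [(gInf_near h h1 hUy.ne' hy1).1]
      have i1 := idx_pos (k + 1) (y 0)
      have i2 := idx_le (k := k + 1) (by omega) (y 0)
      have i3 := mem_Sl_idx (k := k + 1) (by omega) y
      set i := idx (k + 1) (y 0) with hi
      rw [gM_eq h h1 i1 i2 (Ψ k) (U k) i3 hUy.ne']
      apply uf_polMet_congr
      intro v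
      have hr := GPts_rh_pos i
      have hrY : rh i ≤ Yr y := by
        rcases lt_or_ge i (k + 1) with h3 | h3
        · have h4 := i3.1 h3
          have h5 : rh i = xh i / 4096 := rfl
          have h6 := GPts_xh_pos i
          rw [h5]
          linarith
        · have h4 : i = k + 1 := le_antisymm i2 h3
          rw [h4]
          linarith
      have hn : 1 ≤ ‖sc i y‖ := by
        have h3 := uf_Yr_le (sc i y)
        rw [uf_Yr_sc] at h3
        have h4 : 1 ≤ Yr y / rh i := by rwa [le_div_iff₀ hr, one_mul]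
        linarith
      rw [prod_zone h h1 i (Ψ k) (U k) hUy.ne' hn (by linarith) v]
      unfold q0
      rw [(H k).edge.far (aa * Ur y) (by nlinarith)]
  · have hYx : 0 < Yr x := (GPts_Y hU).1
    obtain ⟨m, hm1, hm2⟩ := exists_xh_lt (X := x 0) (by linarith)
    have i1 := idx_pos m (x 0)
    have i2 := idx_le hm1 (x 0)
    have i3 := mem_Sl_idx hm1 x
    set i := idx m (x 0) with hi
    obtain ⟨b1, b2, b3, b4⟩ := GPts_phh h h1 i
    have hr := GPts_rh_pos i
    have hxU : sc i x ∈ UL (phh c0 i) 0 := (UM_iff h h1 i1 i2 0 i3).1 ((UInf_iff h h1 hm1 hm2).1 hx)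
    obtain ⟨O, hO, c, hc, hloc⟩ := qL_local b1 b2 hxU
    have hsc : Continuous (sc i) := by
      unfold sc
      fun_prop
    refine ⟨{y | 11 / 16 * xh m < y 0 ∧ y ∈ Sl m i ∧ Ur y ≠ 0 ∧ sc i y ∈ O}, ?_, ?_⟩
    · have f1 : ∀ᶠ y : EE 4 in 𝓝 x, 11 / 16 * xh m < y 0 := uf_cont0.continuousAt.eventually (lt_mem_nhds hm2)
      have f2 : ∀ᶠ y : EE 4 in 𝓝 x, y ∈ Sl m i := (Sl_isOpen m i).mem_nhds i3
      have f3 : ∀ᶠ y : EE 4 in 𝓝 x, Ur y ≠ 0 := VClass_cont_Ur.continuousAt.eventually_ne hU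
      have f4 : ∀ᶠ y : EE 4 in 𝓝 x, sc i y ∈ O := hsc.continuousAt.eventually hO
      filter_upwards [f1, f2, f3, f4] with y a b c d
      exact ⟨a, b, c, d⟩
    · have e1 : ∀ᶠ k in atTop, δ k < rh i * c := hδ.eventually (gt_mem_nhds (by positivity))
      have e2 : ∀ᶠ k in atTop, ρ1 k < c := hρ.eventually (gt_mem_nhds hc)
      filter_upwards [e1, e2, eventually_ge_atTop m] with k hk1 hk2 hk3 y hy
      obtain ⟨y1, y2, y3, y4⟩ := hy
      have hS : y ∈ Sl (k + 1) i := by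
        refine ⟨fun _ => ?_, y2.2⟩
        rcases lt_or_ge i m with h3 | h3
        · exact y2.1 h3
        · have h4 : i = m := le_antisymm i2 h3
          rw [h4]
          exact y1
      rw [gInf_eq h h1 hm1 y1 y3, gM_eq h h1 i1 i2 Ψ0 U0 y2 y3, scΨ_Ψ0 hr,
        gM_eq h h1 i1 (by omega) (Ψ k) (U k) hS y3]
      apply uf_polMet_congr
      intro v
      refine hloc _ y4 _ _ (fun w hw => ?_) (fun ρ hρ' => ?_) v
      · unfold scΨ
        rw [(H k).edge.far (rh i * w) (by nlinarith)]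
        field_simp
      · exact (H k).cap.fs ρ (by linarith)

end Pool.Agent.MP39e402
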