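import Pool.Agent.Lib.MP_39e402_gt.GPts

/-! # MP_39e402, module UHz: the z-chart as a local isometry into the spaces, for every hole

`ZV_LIso`: `PhE1` with `qz (1 - U)` on `{a < ρ < min (1/2) (sin ta)}`, `ρ = ‖z‖/√(1+‖z‖²)`: `PhE1_contDiffOn`,
`PhE1_isom_PZ` (`PhE1 z ∈ PZ`: `rhoP = ρ` by `PhE1_rho`, `sin tc = √s01/√(1+‖z‖²) ≤ ρ < sin ta`), `qz_met`, `qz_gquad`,
`negl_T01`; escape: `‖PhE1 z‖ → t1` when `z → T01` (`PhE1_norm`), cf. `core_charts` in VClass.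
Then `LIso.toHole`, `LIso.toGlobal`, `LIso.toInf` (GTr, GSlab), `scΨ_scΨ`, `scΨ_Ψ0`, `HAdm.adm`, `GAdm.hadm`; cf. `GPts_chart`. -/

open Real Set Filter Topology MeasureTheory
open scoped ContDiff ENNReal

noncomputable section

namespace Pool.Agent.MP39e402

def rhoz (z : EE 4) : ℝ := ‖z‖ / √(1 + ‖z‖ ^ 2)

def ZV (a : ℝ) : Set (EE 4) := {z | a < rhoz z ∧ rhoz z < min (1 / 2) (sin taC)}

private theorem uhz_rhoz_cont : Continuous rhoz := by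
  unfold rhoz
  refine continuous_norm.div (by fun_prop) fun z => ?_
  positivity

private theorem uhz_ZV_open (a : ℝ) : IsOpen (ZV a) :=
  (isOpen_lt continuous_const uhz_rhoz_cont).inter (isOpen_lt uhz_rhoz_cont continuous_const)

private theorem uhz_DE1 {a : ℝ} : ZV a ⊆ DE1 := by
  intro z hz
  have h1 : rhoz z < sin taC := lt_of_lt_of_le hz.2 (min_le_right _ _)
  have h2 : ‖z‖ ^ 2 = s01 z + s23 z := norm_sq_s z
  have h3 := s23_nonneg z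
  have h4 := s01_nonneg z
  have h5 : 0 < √(1 + ‖z‖ ^ 2) := by positivity
  unfold rhoz at h1
  rw [div_lt_iff₀ h5] at h1
  have h6 : √(s01 z) ≤ ‖z‖ := by
    apply Real.sqrt_le_iff.2
    exact ⟨norm_nonneg _, by linarith⟩
  have h7 : 1 + s01 z + s23 z = 1 + ‖z‖ ^ 2 := by linarith
  show √(s01 z) < sin taC * √(1 + s01 z + s23 z)
  rw [h7]
  linarith

theorem ZV_tc {a : ℝ} {z : EE 4} (hz : z ∈ ZV a) (h : z ∉ T01) : tc (PhE1 z) < taC :=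
  (PhE1_tc (uhz_DE1 hz) h).2

theorem ZV_LIso {a : ℝ} {Ψ U : ℝ → ℝ} (H : Adm a Ψ U) :
    LIso (Uc a) (polMet (qC Ψ U)) (ZV a) (polMet (qz (fun r => 1 - U r))) T01 PhE1 := by
  have C := H.toC
  refine VClass_E1_LIso uhz_DE1 ?_ (fun z v => qz_gquad _ z v) (fun z hz => hz.1.1)
    (fun z _ _ v => rfl) (fun z hz hP => ?_)
  · refine (qz_met C.a_nonneg ?_ ?_).mono (fun z hz => hz.1) (uhz_ZV_open a)
    · refine contDiffOn_const.sub (C.smU.mono fun r hr => ?_)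
      exact lt_of_le_of_lt C.a_nonneg hr.1
    · intro r hr
      have := C.ltU r hr.1 hr.2
      linarith
  · refine absurd ⟨ZV_tc hz.1 hz.2, ?_⟩ hP
    rw [PhE1_rho hz.2]
    exact lt_of_lt_of_le hz.1.2 (min_le_left _ _)

/-- the z-chart of hole `i` -/
def zch (c0 : ℝ) (i : ℕ) (z : EE 4) : EE 4 := usc i (Th (epsh (phh c0 i)) (PhE1 z))
/-- its scale -/
def zsc (c0 : ℝ) (i : ℕ) : ℝ := rh i * (epsh (phh c0 i) * sC)

/-- core coordinate of hole `i` -/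
def xco (c0 : ℝ) (i : ℕ) (p : EE 4) : EE 4 := Qm (epsh (phh c0 i)) (sc i p)

theorem zsc_pos {c0 : ℝ} (h : 0 < c0) (h1 : c0 ≤ 1) (i : ℕ) : 0 < zsc c0 i := by
  obtain ⟨_, _, he, _⟩ := GPts_phh h h1 i
  exact mul_pos (GPts_rh_pos i) (mul_pos he sC_pos)

theorem zsc_le {c0 : ℝ} (h : 0 < c0) (h1 : c0 ≤ 1) (i : ℕ) : zsc c0 i ≤ 1 := by
  obtain ⟨_, _, he, he1⟩ := GPts_phh h h1 i
  have h2 := sC_lt
  have h3 := sC_pos
  have h4 := rh_le i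
  have h5 := GPts_rh_pos i
  unfold zsc
  have h6 : epsh (phh c0 i) * sC ≤ 1 := by nlinarith
  have h7 : 0 < epsh (phh c0 i) * sC := mul_pos he h3
  nlinarith

theorem zch_LIso_M {c0 a : ℝ} {k i : ℕ} {Ψ U : ℝ → ℝ} (h : 0 < c0) (h1 : c0 ≤ 1) (hi : 1 ≤ i) (hik : i ≤ k)
    (H : GAdm c0 k a Ψ U) :
    LIso (UM c0 k a) (gM c0 k Ψ U) (ZV a)
      (fun z => (rh i) ^ 2 • ((epsh (phh c0 i) * sC) ^ 2 • polMet (qz (fun r => 1 - U r)) z)) T01 (zch c0 i) := by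
  obtain ⟨hp, hp1, he, he1⟩ := GPts_phh h h1 i
  have hA := (H.hadm h h1 hi hik).adm hp hp1
  obtain ⟨h2, h3⟩ := LIso.toHole hp hp1 (ZV_LIso hA) (fun x hx => ZV_tc hx.1 hx.2)
  refine LIso.toGlobal h h1 hi hik h2 (fun x hx => ?_)
  have h4 := h3 x hx
  show ‖Th _ (PhE1 x)‖ < 1
  linarith

theorem zch_LIso_Inf {c0 : ℝ} {i : ℕ} (h : 0 < c0) (h1 : c0 ≤ 1) (hi : 1 ≤ i) :
    LIso (UInf c0) (gInf c0) (ZV 0)
      (fun z => (rh i) ^ 2 • ((epsh (phh c0 i) * sC) ^ 2 • polMet (qz (fun r => 1 - U0 r)) z)) T01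
      (zch c0 i) := by
  obtain ⟨hp, hp1, he, he1⟩ := GPts_phh h h1 i
  have hs : 0 < epsh (phh c0 i) * sC := mul_pos he sC_pos
  have hA : Adm 0 (scΨ (epsh (phh c0 i) * sC) Ψ0) U0 := Or.inr ⟨rfl, scΨ_Ψ0 hs, rfl⟩
  obtain ⟨h2, h3⟩ := LIso.toHole hp hp1 (ZV_LIso hA) (fun x hx => ZV_tc hx.1 hx.2)
  refine LIso.toInf h h1 hi h2 (fun x hx => ?_)
  have h4 := h3 x hx
  show ‖Th _ (PhE1 x)‖ < 1
  linarith

theorem zch_xco {c0 : ℝ} (h : 0 < c0) (h1 : c0 ≤ 1) (i : ℕ) {z : EE 4} (hz : z ∉ T01) :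
    xco c0 i (zch c0 i z) = PhE1 z := by
  obtain ⟨_, _, he, _⟩ := GPts_phh h h1 i
  unfold xco zch
  rw [GPts_sc_usc, Qm_Th he (GPts_PhE1_ne hz)]

private theorem uhz_Ur_sc (i : ℕ) {p : EE 4} (h : Ur p ≠ 0) : Ur (sc i p) ≠ 0 := by
  have hr := GPts_rh_pos i
  have e : Ur (sc i p) = Ur p / rh i := by
    have e2 : (sc i p) 2 = p 2 / rh i := by
      simp [sc, v4]; ring
    have e3 : (sc i p) 3 = p 3 / rh i := by
      simp [sc, v4]; ring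
    unfold Ur
    rw [e2, e3, div_pow, div_pow, ← add_div, Real.sqrt_div (by positivity), Real.sqrt_sq hr.le]
  rw [e]
  exact div_ne_zero h hr.ne'

theorem zch_surj {c0 : ℝ} (h : 0 < c0) (h1 : c0 ≤ 1) (i : ℕ) {p : EE 4} (hU : Ur p ≠ 0)
    (h2 : t1C < ‖xco c0 i p‖) (h3 : xco c0 i p ∈ PZ) :
    ∃ z, z ∉ T01 ∧ zch c0 i z = p ∧ rhoz z = rhoP (xco c0 i p) := by
  obtain ⟨_, _, he, _⟩ := GPts_phh h h1 i
  have hUs := uhz_Ur_sc i hU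
  have hne : sc i p ≠ 0 := by
    intro h0
    rw [h0] at hUs
    apply hUs
    simp [Ur]
  have hUx : Ur (xco c0 i p) ≠ 0 := fun h0 => hUs ((Qm_Ur he hne).1 h0)
  have ht0 : 0 < tc (xco c0 i p) := by
    unfold tc
    linarith
  have ht1 : tc (xco c0 i p) < π / 2 := lt_trans h3.1 taC_lt
  obtain ⟨z, hz, hz'⟩ := PhE1_surj ht0 ht1 hUx
  refine ⟨z, hz, ?_, ?_⟩
  · unfold zch
    rw [hz', xco, Th_Qm he hne, GPts_usc_sc]
  · rw [← hz', PhE1_rho hz]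
    rfl

theorem zch_rho {c0 : ℝ} (h : 0 < c0) (h1 : c0 ≤ 1) (i : ℕ) {z : EE 4} (hz : z ∉ T01) :
    rhoP (xco c0 i (zch c0 i z)) = rhoz z := by
  rw [zch_xco h h1 i hz, PhE1_rho hz]
  rfl

theorem zch_continuousOn {c0 : ℝ} (h : 0 < c0) (h1 : c0 ≤ 1) (i : ℕ) : ContinuousOn (zch c0 i) T01ᶜ := by
  obtain ⟨_, _, he, _⟩ := GPts_phh h h1 i
  have h2 : ContinuousOn (fun z => Th (epsh (phh c0 i)) (PhE1 z)) T01ᶜ :=
    (Th_contDiffOn he).continuousOn.comp PhE1_contDiffOn.continuousOn fun z hz => GPts_PhE1_ne hz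
  have h3 : Continuous (usc i) := by
    unfold usc
    fun_prop
  exact h3.comp_continuousOn h2

end Pool.Agent.MP39e402
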