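import Pool.Agent.Lib.MP_39e402_gt.UQm
import Pool.Agent.Lib.MP_39e402_gt.UIm
import Pool.Agent.Lib.MP_39e402_gt.UCm

/-! # MP_39e402, module ULm: the one-hole metric is a smooth metric on `UL ph a`

`UL` is open: `UL ph a = {p ≠ 0, Qm p ∈ Uc a}` (`mem_UL_iff`), `Qm` continuous on `{0}ᶜ` (`Qm_contDiffOn`); same for `VL`.
`qL` is locally the pull back of `s² qC` by the local diffeomorphism `Qm` (for `‖p‖ < 3ε/5`, `qL_core`)
or `qI` (for `‖p‖ > ε/2`, `qL_typeI`).  Smoothness of `p ↦ qC .. (Qm p) (fderiv Qm p v)`: use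
`qC .. x w = ∑ i j, g x i j w_i w_j` with `g = polMet (qC ..)` smooth (`qC_met`, `gquad_polMet`, `qC_isQF`).
Positivity: `Qm_fderiv_inj`.  `scΨ s Ψ` smooth and positive implies `Ψ` smooth and positive on `(0,∞)`
(`scΨ_smooth`, `scΨ_pos`). -/

open Real Set Filter Topology MeasureTheory
open scoped ContDiff

noncomputable section

namespace Pool.Agent.MP39e402

theorem UL_open {ph a : ℝ} (h : 0 < ph) (h' : a < sin taC) (h'' : a < 1 / 2) : IsOpen (UL ph a) := by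
  have h1 : UL ph a = {0}ᶜ ∩ Qm (epsh ph) ⁻¹' (Uc a) := by
    ext p
    rw [mem_UL_iff h]
    rfl
  rw [h1]
  exact (Qm_contDiffOn (epsh_pos h)).continuousOn.isOpen_inter_preimage isOpen_compl_singleton
    (Uc_open h' h'')

theorem VL_open {ph a : ℝ} (h : 0 < ph) (h' : a < sin taC) (h'' : a < 1 / 2) : IsOpen (VL ph a) := by
  have he := epsh_pos h
  have hs := sC_pos
  have hes : 0 < epsh ph * sC := mul_pos he hs
  have ht1 : 0 < t1C := isCoreC.t1_pos
  have h1 : VL ph a = {0}ᶜ ∩ Qm (epsh ph) ⁻¹' (Vc a) := by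
    ext p
    constructor
    · rintro ⟨h1, h2⟩
      have hp0 : p ≠ 0 := by
        rintro rfl
        rw [norm_zero] at h1
        have := mul_pos hes ht1
        linarith
      refine ⟨hp0, ?_, ?_⟩
      · rw [Qm_norm he hp0, lt_div_iff₀ hes]
        linarith
      · intro hc
        by_cases hn : ‖p‖ < epsh ph / 2
        · exact h2 ⟨hn, hc⟩
        · exact Qm_not_PZ h (not_lt.mp hn) hc.1
    · rintro ⟨hp0, h1, h2⟩
      have hp0' : p ≠ 0 := hp0
      refine ⟨?_, fun hc => h2 hc.2⟩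
      rw [Qm_norm he hp0', lt_div_iff₀ hes] at h1
      linarith
  rw [h1]
  exact (Qm_contDiffOn he).continuousOn.isOpen_inter_preimage isOpen_compl_singleton
    (Vc_open h' h'')

theorem qL_isQF (ph : ℝ) (Ψ U : ℝ → ℝ) (p : EE 4) : IsQF (qL ph Ψ U p) := by
  by_cases hp : ‖p‖ < epsh ph / 2
  · have h1 : qL ph Ψ U p = fun v => (epsh ph * sC) ^ 2 *
        qC (scΨ (epsh ph * sC) Ψ) U (Qm (epsh ph) p) (fderiv ℝ (Qm (epsh ph)) p v) := by
      funext v
      simp only [qL, if_pos hp]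
    rw [h1]
    exact ((qC_isQF _ _ _).comp_clm _).const_mul _
  · have h1 : qL ph Ψ U p = qI ph Ψ p := by
      funext v
      simp only [qL, if_neg hp]
    rw [h1]
    exact qI_isQF _ _ _

theorem qL_gquad (ph : ℝ) (Ψ U : ℝ → ℝ) (p v : EE 4) : gquad (polMet (qL ph Ψ U)) p v = qL ph Ψ U p v :=
  gquad_polMet (qL_isQF ph Ψ U p) v

/-- smoothness of a pulled back quadratic form -/
theorem pull_smooth {g : RMetric 4} {V W : Set (EE 4)} (hg : IsRMetricOn g V) (hW : IsOpen W) {F : EE 4 → EE 4}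
    (hF : ContDiffOn ℝ ∞ F W) (hm : MapsTo F W V) (v : EE 4) :
    ContDiffOn ℝ ∞ (fun p => gquad g (F p) (fderiv ℝ F p v)) W := by
  have hD : ContDiffOn ℝ ∞ (fun p => fderiv ℝ F p v) W :=
    (hF.fderiv_of_isOpen hW (m := ∞) (by norm_num)).clm_apply contDiffOn_const
  have hDi : ∀ i : Fin 4, ContDiffOn ℝ ∞ (fun p => (fderiv ℝ F p v) i) W := fun i =>
    (EuclideanSpace.proj (𝕜 := ℝ) i).contDiff.comp_contDiffOn hD
  unfold gquad
  refine ContDiffOn.sum fun i _ => ContDiffOn.sum fun j _ => ?_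
  exact (((hg.smooth i j).comp hF hm).mul (hDi i)).mul (hDi j)

theorem qL_met {ph a : ℝ} {Ψ U : ℝ → ℝ} (h : 0 < ph) (h1 : ph ≤ 1 / 2) (H : HAdm ph a Ψ U) :
    IsRMetricOn (polMet (qL ph Ψ U)) (UL ph a) := by
  have he := epsh_pos h
  have hs := sC_pos
  have hes : 0 < epsh ph * sC := mul_pos he hs
  have hA := H.adm h h1
  have hC := hA.toC
  have hUL : IsOpen (UL ph a) := UL_open h hC.a_lt' (hC.a_lt.trans (by norm_num))
  have hsm : ContDiff ℝ ∞ Ψ := scΨ_smooth hes hC.smΨ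
  have hpos : ∀ w, 0 < w → 0 < Ψ w := scΨ_pos hes hC.posΨ
  refine isRMetricOn_polMet hUL (fun p _ => qL_isQF ph Ψ U p) ?_ ?_
  · intro v p hp
    have hUr : Ur p ≠ 0 := hp.1
    by_cases hn : ‖p‖ < 3 / 5 * epsh ph
    · -- core formula
      have hW : IsOpen (UL ph a ∩ {p | ‖p‖ < 3 / 5 * epsh ph}) :=
        hUL.inter (isOpen_lt continuous_norm continuous_const)
      have hF : ContDiffOn ℝ ∞ (Qm (epsh ph)) (UL ph a ∩ {p | ‖p‖ < 3 / 5 * epsh ph}) :=
        (Qm_contDiffOn he).mono fun q hq => ((mem_UL_iff h).1 hq.1).1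
      have hm : MapsTo (Qm (epsh ph)) (UL ph a ∩ {p | ‖p‖ < 3 / 5 * epsh ph}) (Uc a) :=
        fun q hq => ((mem_UL_iff h).1 hq.1).2
      have h2 := pull_smooth (qC_met hA) hW hF hm v
      have h3 : ContDiffOn ℝ ∞ (fun p => qL ph Ψ U p v) (UL ph a ∩ {p | ‖p‖ < 3 / 5 * epsh ph}) := by
        refine ((contDiffOn_const (c := (epsh ph * sC) ^ 2)).mul h2).congr fun q hq => ?_
        rw [qL_core h h1 Ψ U hq.1.1 (le_of_lt hq.2) v, gquad_polMet (qC_isQF _ _ _)]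
      exact (h3.contDiffAt (hW.mem_nhds ⟨hp, hn⟩)).contDiffWithinAt
    · -- type I formula
      have hW : IsOpen ({p : EE 4 | Ur p ≠ 0} ∩ {p | epsh ph / 2 < ‖p‖}) :=
        isOpen_Ur.inter (isOpen_lt continuous_const continuous_norm)
      have h2 : ContDiffOn ℝ ∞ (fun p => qL ph Ψ U p v) ({p : EE 4 | Ur p ≠ 0} ∩ {p | epsh ph / 2 < ‖p‖}) := by
        refine ((qI_smooth h h1 hsm.contDiffOn v).mono inter_subset_left).congr fun q hq => ?_
        exact qL_typeI Ψ U (le_of_lt hq.2) v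
      have h3 : p ∈ ({p : EE 4 | Ur p ≠ 0} ∩ {p | epsh ph / 2 < ‖p‖}) := by
        refine ⟨hUr, ?_⟩
        show epsh ph / 2 < ‖p‖
        linarith [not_lt.mp hn]
      exact (h2.contDiffAt (hW.mem_nhds h3)).contDiffWithinAt
  · intro p hp v hv
    have hUr : Ur p ≠ 0 := hp.1
    obtain ⟨hp0, hQ⟩ := (mem_UL_iff h).1 hp
    by_cases hn : ‖p‖ ≤ 3 / 5 * epsh ph
    · rw [qL_core h h1 Ψ U hUr hn v]
      refine mul_pos (pow_pos hes 2) (qC_pos hC hQ ?_)
      intro h0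
      exact hv (Qm_fderiv_inj he hp0 h0)
    · rw [qL_typeI Ψ U (by linarith [not_le.mp hn]) v]
      exact qI_pos h h1 hpos hUr hv

end Pool.Agent.MP39e402
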