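import Pool.Agent.Lib.MP_39e402_gt.VE1

/-! # MP_39e402, module VE2: the chart around `E1 ∩ F` -/

open Real Set Filter Topology MeasureTheory
open scoped ContDiff

noncomputable section

namespace Pool.Agent.MP39e402

/-! ### auxiliary lemmas -/

private theorem ve2_norm (w : EE 4) : ‖w‖ = √(w 0 ^ 2 + w 1 ^ 2 + w 2 ^ 2 + w 3 ^ 2) := by
  rw [EuclideanSpace.norm_eq, Fin.sum_univ_four]
  simp only [Real.norm_eq_abs, sq_abs]

private theorem ve2_s01_nonneg (x : EE 4) : 0 ≤ s01 x := by unfold s01; positivity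
private theorem ve2_s23_nonneg (x : EE 4) : 0 ≤ s23 x := by unfold s23; positivity

private theorem ve2_s01_cont : Continuous s01 := by unfold s01; fun_prop
private theorem ve2_s23_cont : Continuous s23 := by unfold s23; fun_prop
private theorem ve2_s01_contDiff : ContDiff ℝ ∞ s01 := by unfold s01; fun_prop
private theorem ve2_s23_contDiff : ContDiff ℝ ∞ s23 := by unfold s23; fun_prop

/-- `1 + E (1 + A)` -/
private def eD (x : EE 4) : ℝ := 1 + s23 x * (1 + s01 x)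
/-- `sin² t` -/
private def eS (x : EE 4) : ℝ := √(s01 x) / √((1 + s01 x) * (1 + s23 x))

private theorem eD_pos (x : EE 4) : 0 < eD x := by
  unfold eD
  have h1 := ve2_s01_nonneg x
  have h2 := ve2_s23_nonneg x
  positivity

private theorem eS_sq (x : EE 4) : (eS x) ^ 2 = s01 x / ((1 + s01 x) * (1 + s23 x)) := by
  have h1 := ve2_s01_nonneg x
  have h2 := ve2_s23_nonneg x
  unfold eS
  rw [div_pow, Real.sq_sqrt h1, Real.sq_sqrt (by positivity)]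

private theorem eS_nonneg (x : EE 4) : 0 ≤ eS x := by unfold eS; positivity

private theorem eS_pos {x : EE 4} (h : 0 < s01 x) : 0 < eS x := by
  have h2 := ve2_s23_nonneg x
  unfold eS
  exact div_pos (Real.sqrt_pos.2 h) (Real.sqrt_pos.2 (by positivity))

private theorem eS_sq_compl (x : EE 4) : 1 - (eS x) ^ 2 = eD x / ((1 + s01 x) * (1 + s23 x)) := by
  have h1 := ve2_s01_nonneg x
  have h2 := ve2_s23_nonneg x
  rw [eS_sq]
  unfold eD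
  field_simp
  ring

private theorem eS_lt_one (x : EE 4) : eS x < 1 := by
  have h := eS_sq_compl x
  have h1 := ve2_s01_nonneg x
  have h2 := ve2_s23_nonneg x
  have h3 : 0 < eD x / ((1 + s01 x) * (1 + s23 x)) := div_pos (eD_pos x) (by positivity)
  have h4 := eS_nonneg x
  nlinarith

/-- radius -/
private def eR (x : EE 4) : ℝ := t1C + arcsin (eS x)

private theorem eR_pos (x : EE 4) : 0 < eR x := by
  have h1 := isCoreC.t1_pos
  have h2 : 0 ≤ arcsin (eS x) := Real.arcsin_nonneg.2 (eS_nonneg x)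
  unfold eR
  linarith

private theorem ve2_c0 (x : EE 4) : PhE2 x 0 = eR x * (x 0 / (√(s01 x) * √(eD x))) := rfl
private theorem ve2_c1 (x : EE 4) : PhE2 x 1 = eR x * (-(x 1) / (√(s01 x) * √(eD x))) := rfl
private theorem ve2_c2 (x : EE 4) : PhE2 x 2 = eR x * (√(1 + s01 x) / √(eD x) *
    (x 2 * (x 0 ^ 2 - x 1 ^ 2) + 2 * x 3 * x 0 * x 1) / s01 x) := rfl
private theorem ve2_c3 (x : EE 4) : PhE2 x 3 = eR x * (√(1 + s01 x) / √(eD x) *
    (x 3 * (x 0 ^ 2 - x 1 ^ 2) - 2 * x 2 * x 0 * x 1) / s01 x) := rfl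

private theorem ve2_n01 {x : EE 4} (h : 0 < s01 x) :
    (x 0 / (√(s01 x) * √(eD x))) ^ 2 + (-(x 1) / (√(s01 x) * √(eD x))) ^ 2 = 1 / eD x := by
  have hD := eD_pos x
  rw [div_pow, div_pow, mul_pow, Real.sq_sqrt h.le, Real.sq_sqrt hD.le, ← add_div]
  have e : (x 0) ^ 2 + (-(x 1)) ^ 2 = s01 x := by unfold s01; ring
  rw [e]
  field_simp

private theorem ve2_n23 {x : EE 4} (h : 0 < s01 x) :
    (√(1 + s01 x) / √(eD x) * (x 2 * (x 0 ^ 2 - x 1 ^ 2) + 2 * x 3 * x 0 * x 1) / s01 x) ^ 2 +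
    (√(1 + s01 x) / √(eD x) * (x 3 * (x 0 ^ 2 - x 1 ^ 2) - 2 * x 2 * x 0 * x 1) / s01 x) ^ 2 =
      s23 x * (1 + s01 x) / eD x := by
  have hD := eD_pos x
  rw [div_pow, div_pow, mul_pow, mul_pow, div_pow, Real.sq_sqrt hD.le,
    Real.sq_sqrt (by positivity : (0:ℝ) ≤ 1 + s01 x), ← add_div, ← mul_add]
  have e : (x 2 * (x 0 ^ 2 - x 1 ^ 2) + 2 * x 3 * x 0 * x 1) ^ 2 +
      (x 3 * (x 0 ^ 2 - x 1 ^ 2) - 2 * x 2 * x 0 * x 1) ^ 2 = s23 x * s01 x ^ 2 := by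
    unfold s01 s23; ring
  rw [e]
  field_simp

private theorem ve2_unit (x : EE 4) : 1 / eD x + s23 x * (1 + s01 x) / eD x = 1 := by
  have hD := eD_pos x
  rw [← add_div]
  exact div_self hD.ne'

private theorem ve2_norm_eR {x : EE 4} (h : 0 < s01 x) : ‖PhE2 x‖ = eR x := by
  rw [ve2_norm, ve2_c0, ve2_c1, ve2_c2, ve2_c3]
  have h1 := ve2_n01 h
  have h2 := ve2_n23 h
  have h3 := ve2_unit x
  rw [← h1, ← h2] at h3
  have e : (eR x * (x 0 / (√(s01 x) * √(eD x)))) ^ 2 + (eR x * (-(x 1) / (√(s01 x) * √(eD x)))) ^ 2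
      + (eR x * (√(1 + s01 x) / √(eD x) *
        (x 2 * (x 0 ^ 2 - x 1 ^ 2) + 2 * x 3 * x 0 * x 1) / s01 x)) ^ 2
      + (eR x * (√(1 + s01 x) / √(eD x) *
        (x 3 * (x 0 ^ 2 - x 1 ^ 2) - 2 * x 2 * x 0 * x 1) / s01 x)) ^ 2 = (eR x) ^ 2 := by
    linear_combination (eR x) ^ 2 * h3
  rw [e]
  exact Real.sqrt_sq (eR_pos x).le

private theorem ve2_Ur {x : EE 4} (h : 0 < s01 x) :
    Ur (PhE2 x) = eR x * √(s23 x * (1 + s01 x) / eD x) := by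
  unfold Ur
  rw [ve2_c2, ve2_c3, ← ve2_n23 h]
  rw [← Real.sqrt_sq (eR_pos x).le, ← Real.sqrt_mul (by positivity), Real.sqrt_sq (eR_pos x).le]
  congr 1
  ring

/-- domain: `t < ta` -/
def DE2 : Set (EE 4) := {x | √(s01 x) < sin taC * √((1 + s01 x) * (1 + s23 x))}

theorem DE2_isOpen : IsOpen DE2 := by
  have h1 := ve2_s01_cont
  have h2 := ve2_s23_cont
  exact isOpen_lt (by fun_prop) (by fun_prop)

private theorem ve2_pos {x : EE 4} (h : x ∉ T01 ∪ T23) : 0 < s01 x ∧ 0 < s23 x :=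
  ⟨not_mem_T01.1 fun h1 => h (Or.inl h1), not_mem_T23.1 fun h1 => h (Or.inr h1)⟩

theorem PhE2_contDiffOn : ContDiffOn ℝ ∞ PhE2 (T01 ∪ T23)ᶜ := by
  intro x hx
  refine ContDiffAt.contDiffWithinAt ?_
  obtain ⟨hA, hE⟩ := ve2_pos hx
  have c1 : ContDiffAt ℝ ∞ s01 x := ve2_s01_contDiff.contDiffAt
  have c2 : ContDiffAt ℝ ∞ s23 x := ve2_s23_contDiff.contDiffAt
  have cA : ContDiffAt ℝ ∞ (fun y => √(s01 y)) x := c1.sqrt hA.ne'
  have cA1 : ContDiffAt ℝ ∞ (fun y => √(1 + s01 y)) x :=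
    (contDiffAt_const.add c1).sqrt (by positivity)
  have cP : ContDiffAt ℝ ∞ (fun y => √((1 + s01 y) * (1 + s23 y))) x :=
    ((contDiffAt_const.add c1).mul (contDiffAt_const.add c2)).sqrt (by positivity)
  have cD : ContDiffAt ℝ ∞ (fun y => √(1 + s23 y * (1 + s01 y))) x :=
    (contDiffAt_const.add (c2.mul (contDiffAt_const.add c1))).sqrt (by positivity)
  have hP : √((1 + s01 x) * (1 + s23 x)) ≠ 0 := (Real.sqrt_pos.2 (by positivity)).ne'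
  have hD : √(1 + s23 x * (1 + s01 x)) ≠ 0 := (Real.sqrt_pos.2 (by positivity)).ne'
  have hA' : √(s01 x) ≠ 0 := (Real.sqrt_pos.2 hA).ne'
  have cS : ContDiffAt ℝ ∞ (fun y => √(s01 y) / √((1 + s01 y) * (1 + s23 y))) x := cA.div cP hP
  have cR : ContDiffAt ℝ ∞ (fun y => t1C + arcsin (√(s01 y) / √((1 + s01 y) * (1 + s23 y)))) x := by
    refine contDiffAt_const.add (ContDiffAt.comp x (g := arcsin) (Real.contDiffAt_arcsin ?_ ?_) cS)
    · have := eS_nonneg x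
      unfold eS at this
      linarith
    · exact (eS_lt_one x).ne
  have x0 : ContDiffAt ℝ ∞ (fun y : EE 4 => y 0) x := by fun_prop
  have x1 : ContDiffAt ℝ ∞ (fun y : EE 4 => y 1) x := by fun_prop
  have x2 : ContDiffAt ℝ ∞ (fun y : EE 4 => y 2) x := by fun_prop
  have x3 : ContDiffAt ℝ ∞ (fun y : EE 4 => y 3) x := by fun_prop
  rw [contDiffAt_euclidean]
  intro i
  fin_cases i
  · exact cR.mul (x0.div (cA.mul cD) (mul_ne_zero hA' hD))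
  · exact cR.mul (x1.neg.div (cA.mul cD) (mul_ne_zero hA' hD))
  · exact cR.mul (((cA1.div cD hD).mul ((x2.mul ((x0.pow 2).sub (x1.pow 2))).add
      (((contDiffAt_const.mul x3).mul x0).mul x1))).div c1 hA.ne')
  · exact cR.mul (((cA1.div cD hD).mul ((x3.mul ((x0.pow 2).sub (x1.pow 2))).sub
      (((contDiffAt_const.mul x2).mul x0).mul x1))).div c1 hA.ne')

theorem PhE2_norm {x : EE 4} (h : x ∉ T01 ∪ T23) :
    ‖PhE2 x‖ = t1C + arcsin (√(s01 x) / √((1 + s01 x) * (1 + s23 x))) := ve2_norm_eR (ve2_pos h).1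

private theorem ve2_n3 {x : EE 4} (h : 0 < s01 x) :
    n3 (PhE2 x) = √(s23 x * (1 + s01 x) / eD x) := by
  unfold n3
  rw [ve2_Ur h, ve2_norm_eR h, mul_div_cancel_left₀ _ (eR_pos x).ne']

theorem PhE2_n3 {x : EE 4} (h : x ∉ T01 ∪ T23) :
    n3 (PhE2 x) = √(s23 x) * √(1 + s01 x) / √(1 + s23 x * (1 + s01 x)) := by
  rw [ve2_n3 (ve2_pos h).1, Real.sqrt_div (by have := (ve2_pos h).1; have := (ve2_pos h).2; positivity),
    Real.sqrt_mul (ve2_pos h).2.le]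
  rfl

theorem PhE2_Ur {x : EE 4} (h : x ∉ T01 ∪ T23) : Ur (PhE2 x) ≠ 0 := by
  obtain ⟨hA, hE⟩ := ve2_pos h
  rw [ve2_Ur hA]
  have := eR_pos x
  have := eD_pos x
  exact (mul_pos (eR_pos x) (Real.sqrt_pos.2 (by positivity))).ne'

private theorem ve2_tc {x : EE 4} (h : 0 < s01 x) : tc (PhE2 x) = arcsin (eS x) := by
  unfold tc
  rw [ve2_norm_eR h, eR]
  ring

theorem PhE2_tc {x : EE 4} (hx : x ∈ DE2) (h : x ∉ T01 ∪ T23) : 0 < tc (PhE2 x) ∧ tc (PhE2 x) < taC := by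
  obtain ⟨hA, hE⟩ := ve2_pos h
  rw [ve2_tc hA]
  refine ⟨Real.arcsin_pos.2 (eS_pos hA), ?_⟩
  have ht0 := isCoreC.ta_pos
  have ht1 := isCoreC.ta_le
  have hpi := Real.pi_gt_three
  rw [Real.arcsin_lt_iff_lt_sin ⟨by have := eS_nonneg x; linarith, (eS_lt_one x).le⟩
    ⟨by linarith, by linarith⟩]
  unfold eS
  rw [div_lt_iff₀ (Real.sqrt_pos.2 (by positivity))]
  exact hx

private theorem ve2_cos_sq {x : EE 4} (h : 0 < s01 x) :
    cos (tc (PhE2 x)) ^ 2 = eD x / ((1 + s01 x) * (1 + s23 x)) := by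
  rw [ve2_tc h, Real.cos_arcsin, Real.sq_sqrt, eS_sq_compl]
  rw [eS_sq_compl]
  have h2 := ve2_s23_nonneg x
  exact (div_pos (eD_pos x) (by positivity)).le

private theorem ve2_n3_sq {x : EE 4} (h : 0 < s01 x) :
    (n3 (PhE2 x)) ^ 2 = s23 x * (1 + s01 x) / eD x := by
  have h2 := ve2_s23_nonneg x
  have := eD_pos x
  rw [ve2_n3 h, Real.sq_sqrt (by positivity)]

private theorem ve2_cn {x : EE 4} (h : 0 < s01 x) :
    cos (tc (PhE2 x)) ^ 2 * (n3 (PhE2 x)) ^ 2 = s23 x / (1 + s23 x) := by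
  have h2 := ve2_s23_nonneg x
  have := eD_pos x
  rw [ve2_cos_sq h, ve2_n3_sq h]
  field_simp

theorem PhE2_rho {x : EE 4} (h : x ∉ T01 ∪ T23) : rhoP (PhE2 x) = 1 / √(1 + s23 x) := by
  obtain ⟨hA, hE⟩ := ve2_pos h
  unfold rhoP
  rw [ve2_cn hA, one_div, ← Real.sqrt_inv]
  congr 1
  field_simp
  ring

theorem PhE2_wc {x : EE 4} (hx : x ∈ DE2) (h : x ∉ T01 ∪ T23) : wc (PhE2 x) = √(s23 x) / (1 + s23 x) := by
  obtain ⟨hA, hE⟩ := ve2_pos h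
  have ht := PhE2_tc hx h
  obtain ⟨hb, hf⟩ := isCoreC.fs _ ht.2.le
  unfold wc NN
  rw [hb, hf]
  have hn0 : 0 ≤ n3 (PhE2 x) := by unfold n3 Ur; positivity
  have hcn := ve2_cn hA
  have e1 : cos (tc (PhE2 x)) ^ 2 - (cos (tc (PhE2 x)) ^ 2 -
      (sin (tc (PhE2 x)) * cos (tc (PhE2 x))) ^ 2) * (n3 (PhE2 x)) ^ 2 =
      cos (tc (PhE2 x)) ^ 2 * (1 - cos (tc (PhE2 x)) ^ 2 * (n3 (PhE2 x)) ^ 2) := by
    have := Real.sin_sq_add_cos_sq (tc (PhE2 x))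
    have e : sin (tc (PhE2 x)) ^ 2 = 1 - cos (tc (PhE2 x)) ^ 2 := by linarith
    rw [mul_pow, e]
    ring
  rw [e1, hcn]
  rw [← Real.sqrt_sq hn0, ← Real.sqrt_mul (by positivity)]
  have e2 : n3 (PhE2 x) ^ 2 * (cos (tc (PhE2 x)) ^ 2 * (1 - s23 x / (1 + s23 x))) =
      (s23 x / (1 + s23 x)) * (1 - s23 x / (1 + s23 x)) := by
    rw [← hcn]; ring
  rw [e2]
  have e3 : (s23 x / (1 + s23 x)) * (1 - s23 x / (1 + s23 x)) = s23 x / (1 + s23 x) ^ 2 := by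
    field_simp
    ring
  rw [e3, Real.sqrt_div hE.le, Real.sqrt_sq (by positivity)]

theorem PhE2_inj : InjOn PhE2 (T01 ∪ T23)ᶜ := by
  intro x hx y hy hxy
  obtain ⟨hA, hE⟩ := ve2_pos hx
  obtain ⟨hA', hE'⟩ := ve2_pos hy
  -- `E`
  have hEE : s23 x = s23 y := by
    have h1 := ve2_cn hA
    have h2 := ve2_cn hA'
    rw [hxy, h2] at h1
    rw [div_eq_div_iff (by positivity) (by positivity)] at h1
    linarith
  have hR : eR x = eR y := by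
    rw [← ve2_norm_eR hA, ← ve2_norm_eR hA', hxy]
  have hSS : eS x = eS y := by
    have h1 : arcsin (eS x) = arcsin (eS y) := by
      unfold eR at hR
      linarith
    exact (Real.arcsin_inj (by have := eS_nonneg x; linarith) (eS_lt_one x).le
      (by have := eS_nonneg y; linarith) (eS_lt_one y).le).1 h1
  have hAA : s01 x = s01 y := by
    have h1 := eS_sq x
    have h2 := eS_sq y
    rw [hSS, h2, hEE] at h1
    rw [div_eq_div_iff (by positivity) (by positivity)] at h1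
    have h3 : (0:ℝ) < 1 + s23 y := by positivity
    have h4 : s01 y * (1 + s01 x) = s01 x * (1 + s01 y) := by
      apply mul_right_cancel₀ h3.ne'
      linarith
    linarith
  have hDD : eD x = eD y := by unfold eD; rw [hEE, hAA]
  have hRne := (eR_pos y).ne'
  have hsA : √(s01 y) ≠ 0 := (Real.sqrt_pos.2 hA').ne'
  have hsD : √(eD y) ≠ 0 := (Real.sqrt_pos.2 (eD_pos y)).ne'
  have h0 : x 0 = y 0 := by
    have h := congrArg (fun z : EE 4 => z 0) hxy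
    simp only at h
    rw [ve2_c0, ve2_c0, hR, hAA, hDD] at h
    have h := mul_left_cancel₀ hRne h
    rwa [div_left_inj' (mul_ne_zero hsA hsD)] at h
  have h1 : x 1 = y 1 := by
    have h := congrArg (fun z : EE 4 => z 1) hxy
    simp only at h
    rw [ve2_c1, ve2_c1, hR, hAA, hDD] at h
    have h := mul_left_cancel₀ hRne h
    rw [div_left_inj' (mul_ne_zero hsA hsD)] at h
    linarith
  have hk : √(1 + s01 y) / √(eD y) ≠ 0 :=
    div_ne_zero (Real.sqrt_pos.2 (by positivity)).ne' hsD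
  have h2 : x 2 * (y 0 ^ 2 - y 1 ^ 2) + 2 * x 3 * y 0 * y 1 =
      y 2 * (y 0 ^ 2 - y 1 ^ 2) + 2 * y 3 * y 0 * y 1 := by
    have h := congrArg (fun z : EE 4 => z 2) hxy
    simp only at h
    rw [ve2_c2, ve2_c2, hR, hAA, hDD, h0, h1] at h
    have h := mul_left_cancel₀ hRne h
    rw [div_left_inj' hA'.ne'] at h
    exact mul_left_cancel₀ hk h
  have h3 : x 3 * (y 0 ^ 2 - y 1 ^ 2) - 2 * x 2 * y 0 * y 1 =
      y 3 * (y 0 ^ 2 - y 1 ^ 2) - 2 * y 2 * y 0 * y 1 := by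
    have h := congrArg (fun z : EE 4 => z 3) hxy
    simp only at h
    rw [ve2_c3, ve2_c3, hR, hAA, hDD, h0, h1] at h
    have h := mul_left_cancel₀ hRne h
    rw [div_left_inj' hA'.ne'] at h
    exact mul_left_cancel₀ hk h
  have hA2 : (s01 y) ^ 2 ≠ 0 := pow_ne_zero _ hA'.ne'
  have h4 : x 2 = y 2 := by
    apply mul_left_cancel₀ hA2
    unfold s01
    linear_combination (y 0 ^ 2 - y 1 ^ 2) * h2 - 2 * y 0 * y 1 * h3
  have h5 : x 3 = y 3 := by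
    apply mul_left_cancel₀ hA2
    unfold s01
    linear_combination (y 0 ^ 2 - y 1 ^ 2) * h3 + 2 * y 0 * y 1 * h2
  ext i
  fin_cases i
  · exact h0
  · exact h1
  · exact h4
  · exact h5

/-- surjectivity: every `x` with `0 < t < π/2`, `0 < n3 < 1` -/
theorem PhE2_surj {x : EE 4} (h0 : 0 < tc x) (h1 : tc x < π / 2) (hU : Ur x ≠ 0) (hx : n3 x < 1) :
    ∃ y, y ∉ T01 ∪ T23 ∧ PhE2 y = x := by
  have ht1 := isCoreC.t1_pos
  obtain ⟨r, hrdef⟩ : ∃ z : ℝ, z = ‖x‖ := ⟨_, rfl⟩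
  have hr : 0 < r := by
    unfold tc at h0
    linarith
  obtain ⟨c, hc⟩ : ∃ z : ℝ, z = cos (tc x) := ⟨_, rfl⟩
  obtain ⟨s, hs⟩ : ∃ z : ℝ, z = sin (tc x) := ⟨_, rfl⟩
  have hcpos : 0 < c := by rw [hc]; exact Real.cos_pos_of_mem_Ioo ⟨by linarith, h1⟩
  have hspos : 0 < s := by
    rw [hs]; exact Real.sin_pos_of_pos_of_lt_pi h0 (by linarith [Real.pi_pos])
  have hcs : s ^ 2 + c ^ 2 = 1 := by rw [hs, hc]; exact Real.sin_sq_add_cos_sq _
  obtain ⟨a0, ha0⟩ : ∃ z : ℝ, z = x 0 / r := ⟨_, rfl⟩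
  obtain ⟨a1, ha1⟩ : ∃ z : ℝ, z = x 1 / r := ⟨_, rfl⟩
  obtain ⟨a2, ha2⟩ : ∃ z : ℝ, z = x 2 / r := ⟨_, rfl⟩
  obtain ⟨a3, ha3⟩ : ∃ z : ℝ, z = x 3 / r := ⟨_, rfl⟩
  have hsum : a0 ^ 2 + a1 ^ 2 + a2 ^ 2 + a3 ^ 2 = 1 := by
    have h := ve2_norm x
    have h2 : r ^ 2 = x 0 ^ 2 + x 1 ^ 2 + x 2 ^ 2 + x 3 ^ 2 := by
      rw [hrdef, h, Real.sq_sqrt (by positivity)]
    rw [ha0, ha1, ha2, ha3]
    field_simp
    linarith
  have hUpos : 0 < Ur x := lt_of_le_of_ne (by unfold Ur; positivity) (Ne.symm hU)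
  have hn : n3 x ^ 2 = a2 ^ 2 + a3 ^ 2 := by
    unfold n3 Ur
    rw [div_pow, Real.sq_sqrt (by positivity), ← hrdef, ha2, ha3]
    field_simp
  have hnpos : 0 < n3 x := div_pos hUpos (by rw [← hrdef]; exact hr)
  obtain ⟨n, hndef⟩ : ∃ z : ℝ, z = n3 x := ⟨_, rfl⟩
  rw [← hndef] at hnpos hn hx
  have hm0 : 0 < 1 - n ^ 2 := by nlinarith
  have hρ0 : 0 < 1 - c ^ 2 * n ^ 2 := by nlinarith
  obtain ⟨m, hm⟩ : ∃ z : ℝ, z = √(1 - n ^ 2) := ⟨_, rfl⟩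
  have hmpos : 0 < m := by rw [hm]; exact Real.sqrt_pos.2 hm0
  have hm2 : m ^ 2 = 1 - n ^ 2 := by rw [hm]; exact Real.sq_sqrt hm0.le
  obtain ⟨ρ, hρ⟩ : ∃ z : ℝ, z = √(1 - c ^ 2 * n ^ 2) := ⟨_, rfl⟩
  have hρpos : 0 < ρ := by rw [hρ]; exact Real.sqrt_pos.2 hρ0
  have hρ2 : ρ ^ 2 = 1 - c ^ 2 * n ^ 2 := by rw [hρ]; exact Real.sq_sqrt hρ0.le
  -- the point
  obtain ⟨y0, hy0⟩ : ∃ z : ℝ, z = s * a0 / (c * m ^ 2) := ⟨_, rfl⟩
  obtain ⟨y1, hy1⟩ : ∃ z : ℝ, z = -(s * a1) / (c * m ^ 2) := ⟨_, rfl⟩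
  obtain ⟨A, hAdef⟩ : ∃ z : ℝ, z = s ^ 2 / (c ^ 2 * m ^ 2) := ⟨_, rfl⟩
  have hApos : 0 < A := by rw [hAdef]; positivity
  have hy01 : y0 ^ 2 + y1 ^ 2 = A := by
    have e : a0 ^ 2 + a1 ^ 2 = m ^ 2 := by linarith
    rw [hy0, hy1, hAdef]
    rw [div_pow, div_pow, ← add_div]
    have e2 : (s * a0) ^ 2 + (-(s * a1)) ^ 2 = s ^ 2 * m ^ 2 := by rw [← e]; ring
    rw [e2]
    field_simp
  obtain ⟨P, hP⟩ : ∃ z : ℝ, z = y0 ^ 2 - y1 ^ 2 := ⟨_, rfl⟩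
  obtain ⟨Q, hQ⟩ : ∃ z : ℝ, z = 2 * y0 * y1 := ⟨_, rfl⟩
  have hPQ : P ^ 2 + Q ^ 2 = A ^ 2 := by rw [← hy01, hP, hQ]; ring
  obtain ⟨y2, hy2⟩ : ∃ z : ℝ, z = c / ρ * (a2 * P - a3 * Q) / A := ⟨_, rfl⟩
  obtain ⟨y3, hy3⟩ : ∃ z : ℝ, z = c / ρ * (a3 * P + a2 * Q) / A := ⟨_, rfl⟩
  obtain ⟨E, hEdef⟩ : ∃ z : ℝ, z = c ^ 2 * n ^ 2 / ρ ^ 2 := ⟨_, rfl⟩
  have hEpos : 0 < E := by rw [hEdef]; positivity
  have hy23 : y2 ^ 2 + y3 ^ 2 = E := by
    rw [hy2, hy3, hEdef, hn]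
    rw [div_pow, div_pow, mul_pow, mul_pow, ← add_div, ← mul_add]
    have e2 : (a2 * P - a3 * Q) ^ 2 + (a3 * P + a2 * Q) ^ 2 = (a2 ^ 2 + a3 ^ 2) * A ^ 2 := by
      rw [← hPQ]; ring
    rw [e2]
    field_simp
  have hyA : s01 (v4 y0 y1 y2 y3) = A := hy01
  have hyE : s23 (v4 y0 y1 y2 y3) = E := hy23
  have hA1 : 1 + A = ρ ^ 2 / (c ^ 2 * m ^ 2) := by
    rw [hAdef, hρ2, hm2]
    have : c ^ 2 * (1 - n ^ 2) ≠ 0 := (mul_pos (by positivity) hm0).ne'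
    field_simp
    linarith
  have hE1 : 1 + E = 1 / ρ ^ 2 := by
    rw [hEdef]
    field_simp
    linarith
  have hD1 : 1 + E * (1 + A) = 1 / m ^ 2 := by
    rw [hA1, hEdef]
    field_simp
    linarith
  have qA : √A = s / (c * m) := by
    rw [hAdef, show s ^ 2 / (c ^ 2 * m ^ 2) = (s / (c * m)) ^ 2 by field_simp]
    exact Real.sqrt_sq (by positivity)
  have qA1 : √(1 + A) = ρ / (c * m) := by
    rw [hA1, show ρ ^ 2 / (c ^ 2 * m ^ 2) = (ρ / (c * m)) ^ 2 by field_simp]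
    exact Real.sqrt_sq (by positivity)
  have qD : √(1 + E * (1 + A)) = 1 / m := by
    rw [hD1, show 1 / m ^ 2 = (1 / m) ^ 2 by field_simp]
    exact Real.sqrt_sq (by positivity)
  have qP : √((1 + A) * (1 + E)) = 1 / (c * m) := by
    rw [hA1, hE1, show ρ ^ 2 / (c ^ 2 * m ^ 2) * (1 / ρ ^ 2) = (1 / (c * m)) ^ 2 by field_simp]
    exact Real.sqrt_sq (by positivity)
  have hS : √A / √((1 + A) * (1 + E)) = s := by
    rw [qA, qP]
    field_simp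
  have hrad : t1C + arcsin (√A / √((1 + A) * (1 + E))) = r := by
    rw [hS, hs, Real.arcsin_sin (by linarith) h1.le]
    unfold tc
    linarith
  refine ⟨v4 y0 y1 y2 y3, ?_, ?_⟩
  · rintro (h | h)
    · exact not_mem_T01.2 (by rw [hyA]; exact hApos) h
    · exact not_mem_T23.2 (by rw [hyE]; exact hEpos) h
  · have e0 : PhE2 (v4 y0 y1 y2 y3) 0 = x 0 := by
      have : PhE2 (v4 y0 y1 y2 y3) 0 = (t1C + arcsin (√(s01 (v4 y0 y1 y2 y3)) /
        √((1 + s01 (v4 y0 y1 y2 y3)) * (1 + s23 (v4 y0 y1 y2 y3))))) *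
          (y0 / (√(s01 (v4 y0 y1 y2 y3)) * √(1 + s23 (v4 y0 y1 y2 y3) *
            (1 + s01 (v4 y0 y1 y2 y3))))) := rfl
      rw [this, hyA, hyE, hrad, qA, qD, hy0, ha0]
      field_simp
    have e1 : PhE2 (v4 y0 y1 y2 y3) 1 = x 1 := by
      have : PhE2 (v4 y0 y1 y2 y3) 1 = (t1C + arcsin (√(s01 (v4 y0 y1 y2 y3)) /
        √((1 + s01 (v4 y0 y1 y2 y3)) * (1 + s23 (v4 y0 y1 y2 y3))))) *
          (-y1 / (√(s01 (v4 y0 y1 y2 y3)) * √(1 + s23 (v4 y0 y1 y2 y3) *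
            (1 + s01 (v4 y0 y1 y2 y3))))) := rfl
      rw [this, hyA, hyE, hrad, qA, qD, hy1, ha1]
      field_simp
    have e2 : PhE2 (v4 y0 y1 y2 y3) 2 = x 2 := by
      have : PhE2 (v4 y0 y1 y2 y3) 2 = (t1C + arcsin (√(s01 (v4 y0 y1 y2 y3)) /
        √((1 + s01 (v4 y0 y1 y2 y3)) * (1 + s23 (v4 y0 y1 y2 y3))))) *
          (√(1 + s01 (v4 y0 y1 y2 y3)) / √(1 + s23 (v4 y0 y1 y2 y3) *
            (1 + s01 (v4 y0 y1 y2 y3))) * (y2 * (y0 ^ 2 - y1 ^ 2) + 2 * y3 * y0 * y1) /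
            s01 (v4 y0 y1 y2 y3)) := rfl
      rw [this, hyA, hyE, hrad, qA1, qD]
      have e : y2 * (y0 ^ 2 - y1 ^ 2) + 2 * y3 * y0 * y1 = c / ρ * a2 * A := by
        have : y2 * (y0 ^ 2 - y1 ^ 2) + 2 * y3 * y0 * y1 = y2 * P + y3 * Q := by
          rw [hP, hQ]; ring
        rw [this, hy2, hy3]
        have e3 : c / ρ * (a2 * P - a3 * Q) / A * P + c / ρ * (a3 * P + a2 * Q) / A * Q =
          c / ρ * a2 * (P ^ 2 + Q ^ 2) / A := by ring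
        rw [e3, hPQ]
        field_simp
      rw [e, ha2]
      field_simp
    have e3 : PhE2 (v4 y0 y1 y2 y3) 3 = x 3 := by
      have : PhE2 (v4 y0 y1 y2 y3) 3 = (t1C + arcsin (√(s01 (v4 y0 y1 y2 y3)) /
        √((1 + s01 (v4 y0 y1 y2 y3)) * (1 + s23 (v4 y0 y1 y2 y3))))) *
          (√(1 + s01 (v4 y0 y1 y2 y3)) / √(1 + s23 (v4 y0 y1 y2 y3) *
            (1 + s01 (v4 y0 y1 y2 y3))) * (y3 * (y0 ^ 2 - y1 ^ 2) - 2 * y2 * y0 * y1) /
            s01 (v4 y0 y1 y2 y3)) := rfl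
      rw [this, hyA, hyE, hrad, qA1, qD]
      have e : y3 * (y0 ^ 2 - y1 ^ 2) - 2 * y2 * y0 * y1 = c / ρ * a3 * A := by
        have : y3 * (y0 ^ 2 - y1 ^ 2) - 2 * y2 * y0 * y1 = y3 * P - y2 * Q := by
          rw [hP, hQ]; ring
        rw [this, hy2, hy3]
        have e3 : c / ρ * (a3 * P + a2 * Q) / A * P - c / ρ * (a2 * P - a3 * Q) / A * Q =
          c / ρ * a3 * (P ^ 2 + Q ^ 2) / A := by ring
        rw [e3, hPQ]
        field_simp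
      rw [e, ha3]
      field_simp
    ext i
    fin_cases i
    · exact e0
    · exact e1
    · exact e2
    · exact e3

end Pool.Agent.MP39e402
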