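import Pool.Agent.Lib.MP_39e402_gt.VDefs

/-! # MP_39e402, module VPol: core forms along maps written as `R • v4 n` (polar form) -/

open Real Set Filter Topology MeasureTheory
open scoped ContDiff

noncomputable section

namespace Pool.Agent.MP39e402

@[simp] theorem v4_zero (a b c d : ℝ) : v4 a b c d 0 = a := rfl
@[simp] theorem v4_one (a b c d : ℝ) : v4 a b c d 1 = b := rfl
@[simp] theorem v4_two (a b c d : ℝ) : v4 a b c d 2 = c := rfl
@[simp] theorem v4_three (a b c d : ℝ) : v4 a b c d 3 = d := rfl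

theorem ext4 {x y : EE 4} (h0 : x 0 = y 0) (h1 : x 1 = y 1) (h2 : x 2 = y 2) (h3 : x 3 = y 3) :
    x = y := by
  ext i
  fin_cases i
  · exact h0
  · exact h1
  · exact h2
  · exact h3

theorem norm_sq4 (x : EE 4) : ‖x‖ ^ 2 = x 0 ^ 2 + x 1 ^ 2 + x 2 ^ 2 + x 3 ^ 2 := by
  rw [EuclideanSpace.norm_sq_eq, Fin.sum_univ_four]
  simp only [Real.norm_eq_abs, sq_abs]

theorem norm_sq_s (z : EE 4) : ‖z‖ ^ 2 = s01 z + s23 z := by
  rw [norm_sq4, s01, s23]
  ring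

theorem s01_nonneg (z : EE 4) : 0 ≤ s01 z := by
  unfold s01
  positivity

theorem s23_nonneg (z : EE 4) : 0 ≤ s23 z := by
  unfold s23
  positivity

theorem norm_polar {R a b c d : ℝ} (hR : 0 ≤ R) (h : a ^ 2 + b ^ 2 + c ^ 2 + d ^ 2 = 1) :
    ‖R • v4 a b c d‖ = R := by
  have h1 : ‖v4 a b c d‖ = 1 := by
    have h2 := norm_sq4 (v4 a b c d)
    simp only [v4_zero, v4_one, v4_two, v4_three, h] at h2
    have h3 := norm_nonneg (v4 a b c d)
    nlinarith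
  rw [norm_smul, h1, mul_one, Real.norm_eq_abs, abs_of_nonneg hR]

theorem Ur_polar {R a b c d : ℝ} (hR : 0 ≤ R) : Ur (R • v4 a b c d) = R * √(c ^ 2 + d ^ 2) := by
  have h : (R • v4 a b c d) 2 ^ 2 + (R • v4 a b c d) 3 ^ 2 = R ^ 2 * (c ^ 2 + d ^ 2) := by
    simp only [PiLp.smul_apply, v4_two, v4_three, smul_eq_mul]
    ring
  rw [Ur, h, Real.sqrt_mul (sq_nonneg R), Real.sqrt_sq hR]

theorem n3_polar {R a b c d : ℝ} (hR : 0 < R) (h : a ^ 2 + b ^ 2 + c ^ 2 + d ^ 2 = 1) :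
    n3 (R • v4 a b c d) = √(c ^ 2 + d ^ 2) := by
  rw [n3, Ur_polar hR.le, norm_polar hR.le h, mul_div_assoc, mul_div_cancel₀ _ hR.ne']

/-- all forms of the core metric at `x = R n` on the vector `w = R' n + R m` (`n` unit, `n ⟂ m`) -/
theorem forms_polar {R R' a b c d a' b' c' d' : ℝ} (hR : 0 < R)
    (h : a ^ 2 + b ^ 2 + c ^ 2 + d ^ 2 = 1) (h' : a * a' + b * b' + c * c' + d * d' = 0)
    (hU : c ^ 2 + d ^ 2 ≠ 0) {x w : EE 4}
    (hx : x = R • v4 a b c d) (hw : w = R' • v4 a b c d + R • v4 a' b' c' d') :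
    ‖x‖ = R ∧ wR x w = R' ∧ wn2 x w = a' ^ 2 + b' ^ 2 + c' ^ 2 + d' ^ 2 ∧
      wth x w = (c * d' - d * c') / (c ^ 2 + d ^ 2) ∧ wvp x w = a * b' - b * a' ∧
      n3 x = √(c ^ 2 + d ^ 2) ∧ wn3 x w = (c * c' + d * d') / √(c ^ 2 + d ^ 2) := by
  have hn : ‖x‖ = R := by rw [hx]; exact norm_polar hR.le h
  have hUr : Ur x = R * √(c ^ 2 + d ^ 2) := by rw [hx]; exact Ur_polar hR.le
  have hpos : 0 < c ^ 2 + d ^ 2 := lt_of_le_of_ne (by positivity) (Ne.symm hU)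
  have hs : √(c ^ 2 + d ^ 2) ^ 2 = c ^ 2 + d ^ 2 := Real.sq_sqrt hpos.le
  have hs0 : 0 < √(c ^ 2 + d ^ 2) := Real.sqrt_pos.2 hpos
  have x0 : x 0 = R * a := by rw [hx]; rfl
  have x1 : x 1 = R * b := by rw [hx]; rfl
  have x2 : x 2 = R * c := by rw [hx]; rfl
  have x3 : x 3 = R * d := by rw [hx]; rfl
  have w0 : w 0 = R' * a + R * a' := by rw [hw]; rfl
  have w1 : w 1 = R' * b + R * b' := by rw [hw]; rfl
  have w2 : w 2 = R' * c + R * c' := by rw [hw]; rfl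
  have w3 : w 3 = R' * d + R * d' := by rw [hw]; rfl
  have hwR : wR x w = R' := by
    rw [wR, hn, x0, x1, x2, x3, w0, w1, w2, w3, div_eq_iff hR.ne']
    linear_combination (R * R') * h + (R ^ 2) * h'
  refine ⟨hn, hwR, ?_, ?_, ?_, ?_, ?_⟩
  · rw [wn2, hwR, hn, norm_sq4, w0, w1, w2, w3, div_eq_iff (by positivity)]
    linear_combination (R' ^ 2) * h + (2 * R * R') * h'
  · rw [wth, hUr, mul_pow, hs, x2, x3, w2, w3, div_eq_div_iff (by positivity) hU]
    ring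
  · rw [wvp, hn, x0, x1, w0, w1, div_eq_iff (by positivity)]
    ring
  · rw [hx]
    exact n3_polar hR h
  · rw [wn3, wU, hUr, hwR, hn, x2, x3, w2, w3]
    field_simp
    rw [hs]
    ring

/-- the derivative in direction `v` of a map given in polar form -/
theorem fderiv_polar {Φ : EE 4 → EE 4} {R a b c d : EE 4 → ℝ}
    (hΦ : ∀ z, Φ z = R z • v4 (a z) (b z) (c z) (d z)) {z v : EE 4} (hd : DifferentiableAt ℝ Φ z)
    {R' a' b' c' d' : ℝ} (hR : HasDerivAt (fun t : ℝ => R (z + t • v)) R' 0)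
    (ha : HasDerivAt (fun t : ℝ => a (z + t • v)) a' 0)
    (hb : HasDerivAt (fun t : ℝ => b (z + t • v)) b' 0)
    (hc : HasDerivAt (fun t : ℝ => c (z + t • v)) c' 0)
    (hd' : HasDerivAt (fun t : ℝ => d (z + t • v)) d' 0) :
    fderiv ℝ Φ z v = R' • v4 (a z) (b z) (c z) (d z) + R z • v4 a' b' c' d' := by
  have hl : HasDerivAt (fun t : ℝ => z + t • v) v 0 := by
    have := ((hasDerivAt_id (0 : ℝ)).smul_const v).const_add z
    simpa using this
  have hf : HasDerivAt (fun t : ℝ => Φ (z + t • v)) (fderiv ℝ Φ z v) 0 := by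
    have h1 : HasFDerivAt Φ (fderiv ℝ Φ z) (z + (0 : ℝ) • v) := by
      rw [zero_smul, add_zero]
      exact hd.hasFDerivAt
    exact h1.comp_hasDerivAt (0 : ℝ) hl
  have key : ∀ (i : Fin 4) (f : EE 4 → ℝ) (f' : ℝ), (∀ z, Φ z i = R z * f z) →
      HasDerivAt (fun t : ℝ => f (z + t • v)) f' 0 →
      (fderiv ℝ Φ z v) i = R' * f z + R z * f' := by
    intro i f f' h1 h2
    have h3 : HasDerivAt (fun t : ℝ => Φ (z + t • v) i) ((fderiv ℝ Φ z v) i) 0 := by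
      have := (EuclideanSpace.proj i : EE 4 →L[ℝ] ℝ).hasFDerivAt.comp_hasDerivAt (0 : ℝ) hf
      exact this
    have h4 := hR.mul h2
    have h5 : (fun t : ℝ => Φ (z + t • v) i) = fun t : ℝ => R (z + t • v) * f (z + t • v) :=
      funext fun t => h1 _
    rw [h5] at h3
    have h6 := h3.unique h4
    simpa using h6
  apply ext4
  · exact key 0 a a' (fun z => by rw [hΦ]; rfl) ha
  · exact key 1 b b' (fun z => by rw [hΦ]; rfl) hb
  · exact key 2 c c' (fun z => by rw [hΦ]; rfl) hc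
  · exact key 3 d d' (fun z => by rw [hΦ]; rfl) hd'

end Pool.Agent.MP39e402
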